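import Mathlib

/-!
# Definitions for the combinatorial part

`XG G` is the graph on `V × Bool × Bool` (vertex, sign, copy) whose clique complex is the deleted
join of the octahedralisation of the clique complex of `G`.
-/

namespace OS

open Finsupp

/-- vertices of the deleted join: (vertex, sign, copy) -/
abbrev WV (V : Type*) := V × Bool × Bool

variable {V : Type*}

/-- the graph of the deleted join of the octahedralisation -/
def XG (G : SimpleGraph V) : SimpleGraph (WV V) where
  Adj w w' := (w.2.2 = w'.2.2 ∧ G.Adj w.1 w'.1) ∨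
    (w.2.2 ≠ w'.2.2 ∧ (w.1, w.2.1) ≠ (w'.1, w'.2.1))
  symm := ⟨by
    rintro w w' (⟨h1, h2⟩ | ⟨h1, h2⟩)
    · exact Or.inl ⟨h1.symm, h2.symm⟩
    · exact Or.inr ⟨h1.symm, h2.symm⟩⟩
  loopless := ⟨by
    rintro w (⟨_, h2⟩ | ⟨h1, _⟩)
    · exact G.irrefl h2
    · exact h1 rfl⟩

/-- the involution exchanging the two copies -/
def TW (w : WV V) : WV V := (w.1, w.2.1, !w.2.2)

/-- mod 2 chains of finite sets -/
abbrev SC (W : Type*) := Finset W →₀ ZMod 2

/-- the boundary of a finite set -/
noncomputable def dfin {W : Type*} [DecidableEq W] (s : Finset W) : SC W :=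
  ∑ w ∈ s, Finsupp.single (s.erase w) 1

/-- the boundary operator -/
noncomputable def dS {W : Type*} [DecidableEq W] : SC W →ₗ[ZMod 2] SC W :=
  Finsupp.lsum (ZMod 2) (fun s : Finset W => LinearMap.toSpanSingleton (ZMod 2) (SC W) (dfin s))

/-- push forward of chains of finite sets -/
noncomputable def mapS {W : Type*} [DecidableEq W] (f : W → W) : SC W →ₗ[ZMod 2] SC W :=
  Finsupp.lmapDomain (ZMod 2) (ZMod 2) (Finset.image f)

/-- a tower of height `m` in the deleted join -/
def HasTower [DecidableEq V] (G : SimpleGraph V) (m : ℕ) : Prop :=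
  ∃ u : ℕ → SC (WV V),
    (∀ i ≤ m, ∀ s ∈ (u i).support, (XG G).IsClique (s : Set (WV V)) ∧ s.card = i + 1) ∧
    dS (u 0) = Finsupp.single ∅ 1 ∧
    ∀ i < m, dS (u (i + 1)) = u i + mapS TW (u i)

/-- nonvanishing of the reduced mod 2 homology of the clique complex of `G` in degree `j`:
a cycle `Z` (a set of cliques with `j + 1` vertices) and a cocycle `φ` with `φ(Z) = 1`. -/
def HasClass [Fintype V] [DecidableEq V] (G : SimpleGraph V) (j : ℕ) : Prop :=
  ∃ (Z : Finset (Finset V)) (φ : Finset V → ZMod 2),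
    (∀ σ ∈ Z, G.IsClique (σ : Set V) ∧ σ.card = j + 1) ∧
    (∀ ρ : Finset V, ρ.card = j → Even (Finset.univ.filter (fun v => v ∉ ρ ∧ insert v ρ ∈ Z)).card) ∧
    (∀ τ : Finset V, G.IsClique (τ : Set V) → τ.card = j + 2 → ∑ v ∈ τ, φ (τ.erase v) = 0) ∧
    ∑ σ ∈ Z, φ σ = 1

/-! ### the function `eta` -/

section eta

variable [LinearOrder V]

open Classical in
/-- `1` iff the union `R = P ∪ Q` is not a clique and its least vertex which has a non-neighbour
in `R` lies in `P`. -/
noncomputable def kap (G : SimpleGraph V) (P Q : Finset V) : ZMod 2 :=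
  if ∃ r ∈ P, (∃ u ∈ P ∪ Q, u ≠ r ∧ ¬ G.Adj r u) ∧
    ∀ r' ∈ P ∪ Q, r' < r → ∀ u ∈ P ∪ Q, u ≠ r' → G.Adj r' u then 1 else 0

open Classical in
/-- the function `eta` -/
noncomputable def eta (G : SimpleGraph V) (j : ℕ) (φ : Finset V → ZMod 2) (P Q : Finset V) :
    ZMod 2 :=
  if (P ∪ Q).card ≤ j then 0
  else if (P ∪ Q).card = j + 1 then (if G.IsClique ((P ∪ Q : Finset V) : Set V) then φ (P ∪ Q) else 0)
  else kap G P Q * ∑ v ∈ (P ∪ Q).attach, eta G j φ (P.erase v.1) (Q.erase v.1)
termination_by (P ∪ Q).card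
decreasing_by
  apply Finset.card_lt_card
  have h1 : P.erase v.1 ∪ Q.erase v.1 = (P ∪ Q).erase v.1 := by
    ext x; simp only [Finset.mem_union, Finset.mem_erase]; tauto
  rw [h1]
  exact Finset.erase_ssubset v.2

/-- `b R U X`: every element `w` of `U` outside `R` is in `X` iff an odd number of elements of `R`
are smaller. -/
def bb (R U X : Finset V) : Prop :=
  ∀ w ∈ U, w ∉ R → (w ∈ X ↔ Odd (R.filter (fun r => r < w)).card)

open Classical in
/-- the function `g` -/
noncomputable def gg (G : SimpleGraph V) (j : ℕ) (φ : Finset V → ZMod 2) (P Q X : Finset V) :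
    ZMod 2 :=
  ∑ R ∈ (P ∪ Q).powerset, eta G j φ (P ∩ R) (Q ∩ R) * (if bb R (P ∪ Q) X then 1 else 0)

/-- first coordinates of the elements of the first copy -/
def p1 (lam : Finset (WV V)) : Finset V := (lam.filter (fun w => w.2.2 = false)).image Prod.fst

/-- first coordinates of the elements of the second copy -/
def p2 (lam : Finset (WV V)) : Finset V := (lam.filter (fun w => w.2.2 = true)).image Prod.fst

/-- the sign set -/
def xx (lam : Finset (WV V)) : Finset V :=
  (lam.filter (fun w => xor w.2.1 w.2.2 = true)).image Prod.fst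

open Classical in
/-- the cycle -/
noncomputable def cc [Fintype V] (G : SimpleGraph V) (j : ℕ) (φ : Finset V → ZMod 2)
    (Z : Finset (Finset V)) : SC (WV V) :=
  ∑ lam ∈ (Finset.univ : Finset (Finset (WV V))).filter
      (fun lam : Finset (WV V) => (XG G).IsClique (↑lam : Set (WV V))),
    Finsupp.single lam (if p1 lam ∈ Z ∧ p2 lam ∈ Z then gg G j φ (p1 lam) (p2 lam) (xx lam) else 0)

/-- the word of copies, in the lexicographic order of `V × Bool × Bool` -/
noncomputable def word (lam : Finset (WV V)) : List Bool :=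
  ((lam.image (fun w => toLex (w.1, toLex w.2))).sort (· ≤ ·)).map
    (fun w => (ofLex (ofLex w).2).2)

end eta

/-- alternating words starting with `b` -/
def altb : Bool → List Bool → Bool
  | _, [] => true
  | b, (x :: t) => (x == b) && altb (!b) t

end OS
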