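import Mathlib
import Pool.Agent.Lib.MP_8fe54c_gt.CombDefs

/-!
# Artin groups: definitions

`M : CoxeterMatrix B`; `M i j = 0` means that there is no relation between `i` and `j`.
-/

namespace OS

open CoxeterSystem

section braid

variable {B G : Type*}

/-- the product of the images of the letters of a word -/
def wp [Monoid G] (f : B → G) (ω : List B) : G := (ω.map f).prod

/-- the braid relation `f i * f j * f i * ... = f j * f i * f j * ...` (`M i j` factors on each
side; no condition if `M i j = 0`) -/
def Braid [Monoid G] (M : CoxeterMatrix B) (f : B → G) (i j : B) : Prop :=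
  wp f (alternatingWord i j (M i j)) = wp f (alternatingWord j i (M i j))

@[simp] theorem wp_nil [Monoid G] (f : B → G) : wp f [] = 1 := rfl

theorem wp_cons [Monoid G] (f : B → G) (i : B) (ω : List B) : wp f (i :: ω) = f i * wp f ω := by
  simp [wp]

theorem wp_append [Monoid G] (f : B → G) (ω ω' : List B) :
    wp f (ω ++ ω') = wp f ω * wp f ω' := by
  simp [wp]

theorem wp_singleton [Monoid G] (f : B → G) (i : B) : wp f [i] = f i := by
  simp [wp]

theorem map_wp {H : Type*} [Monoid G] [Monoid H] (F : G →* H) (f : B → G) (ω : List B) :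
    F (wp f ω) = wp (fun i => F (f i)) ω := by
  simp [wp, map_list_prod, Function.comp_def]

theorem wp_simple {M : CoxeterMatrix B} {W : Type*} [Group W] (cs : CoxeterSystem M W)
    (ω : List B) : wp cs.simple ω = cs.wordProd ω := rfl

theorem Braid.map {H : Type*} [Monoid G] [Monoid H] {M : CoxeterMatrix B} {f : B → G} {i j : B}
    (h : Braid M f i j) (F : G →* H) : Braid M (fun i => F (f i)) i j := by
  have := congrArg F h
  rwa [map_wp, map_wp] at this

end braid

section artin

variable {B : Type*} (M : CoxeterMatrix B)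

/-- the relators of the Artin group: `(i j i ...) (j i j ...)⁻¹`, with `M i j` letters in each
word -/
def artinRels : Set (FreeGroup B) :=
  Set.range fun p : B × B =>
    wp FreeGroup.of (alternatingWord p.1 p.2 (M p.1 p.2)) *
      (wp FreeGroup.of (alternatingWord p.2 p.1 (M p.1 p.2)))⁻¹

/-- the Artin group of a Coxeter matrix -/
abbrev Artin := PresentedGroup (artinRels M)

variable {M}

/-- the generators of the Artin group -/
def ar (i : B) : Artin M := PresentedGroup.of i

theorem ar_braid (i j : B) : Braid M (ar : B → Artin M) i j := by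
  have h1 : (PresentedGroup.mk (artinRels M))
      (wp FreeGroup.of (alternatingWord i j (M i j)) *
        (wp FreeGroup.of (alternatingWord j i (M i j)))⁻¹) = 1 :=
    PresentedGroup.one_of_mem ⟨(i, j), rfl⟩
  rw [map_mul, map_inv, mul_inv_eq_one, map_wp, map_wp] at h1
  exact h1

/-- the universal property of the Artin group -/
def arLift {H : Type*} [Group H] (f : B → H) (hf : ∀ i j, Braid M f i j) : Artin M →* H :=
  PresentedGroup.toGroup (f := f) (by
    rintro r ⟨⟨i, j⟩, rfl⟩
    rw [map_mul, map_inv, mul_inv_eq_one, map_wp, map_wp]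
    simp only [FreeGroup.lift_apply_of]
    exact hf i j)

@[simp] theorem arLift_ar {H : Type*} [Group H] (f : B → H) (hf : ∀ i j, Braid M f i j) (i : B) :
    arLift f hf (ar i) = f i :=
  PresentedGroup.toGroup.of _

theorem artin_hom_ext {H : Type*} [Group H] {F F' : Artin M →* H} (h : ∀ i, F (ar i) = F' (ar i)) :
    F = F' :=
  PresentedGroup.ext h

variable (M) in
/-- the standard parabolic subgroup generated by the generators in `T` -/
def AP (T : Set B) : Subgroup (Artin M) := Subgroup.closure (ar '' T)

theorem ar_mem_AP {T : Set B} {i : B} (h : i ∈ T) : (ar i : Artin M) ∈ AP M T :=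
  Subgroup.subset_closure ⟨i, h, rfl⟩

theorem AP_mono {T T' : Set B} (h : T ⊆ T') : AP M T ≤ AP M T' :=
  Subgroup.closure_mono (Set.image_mono h)

theorem AP_univ : AP M (Set.univ : Set B) = ⊤ := by
  rw [AP, Set.image_univ]
  exact PresentedGroup.closure_range_of _

/-- the map from the Artin group to the Coxeter group -/
def qA {W : Type*} [Group W] (cs : CoxeterSystem M W) : Artin M →* W :=
  arLift cs.simple (fun i j => by
    have h := cs.wordProd_braidWord_eq i j
    rw [braidWord, braidWord, M.symmetric j i] at h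
    exact h)

@[simp] theorem qA_ar {W : Type*} [Group W] (cs : CoxeterSystem M W) (i : B) :
    qA cs (ar i) = cs.simple i := arLift_ar _ _ _

theorem qA_wp {W : Type*} [Group W] (cs : CoxeterSystem M W) (ω : List B) :
    qA cs (wp ar ω) = cs.wordProd ω := by
  rw [map_wp]
  simp only [qA_ar]
  rfl

end artin

section coxeter

variable {B : Type*} {M : CoxeterMatrix B} {W : Type*} [Group W] (cs : CoxeterSystem M W)

/-- the standard parabolic subgroup of the Coxeter group generated by `T` -/
def WP (T : Set B) : Subgroup W := Subgroup.closure (cs.simple '' T)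

theorem simple_mem_WP {T : Set B} {i : B} (h : i ∈ T) : cs.simple i ∈ WP cs T :=
  Subgroup.subset_closure ⟨i, h, rfl⟩

theorem WP_mono {T T' : Set B} (h : T ⊆ T') : WP cs T ≤ WP cs T' :=
  Subgroup.closure_mono (Set.image_mono h)

theorem wordProd_mem_WP {T : Set B} {ω : List B} (h : ∀ i ∈ ω, i ∈ T) :
    cs.wordProd ω ∈ WP cs T := by
  induction ω with
  | nil => simp [(WP cs T).one_mem]
  | cons i ω ih =>
    rw [cs.wordProd_cons]
    exact (WP cs T).mul_mem (simple_mem_WP cs (h i (by simp)))
      (ih (fun j hj => h j (by simp [hj])))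

theorem qA_mem_WP {T : Set B} {a : Artin M} (h : a ∈ AP M T) : qA cs a ∈ WP cs T := by
  have : (AP M T).map (qA cs) ≤ WP cs T := by
    rw [AP, MonoidHom.map_closure, Subgroup.closure_le]
    rintro _ ⟨_, ⟨i, hi, rfl⟩, rfl⟩
    rw [qA_ar]
    exact simple_mem_WP cs hi
  exact this ⟨a, h, rfl⟩

/-- no letter of `X` is a left descent of `w` -/
def LRed (X : Set B) (w : W) : Prop := ∀ i ∈ X, ¬ cs.IsLeftDescent w i

variable (M) in
/-- `T` is spherical: the subgroup of the Coxeter group generated by `T` is finite -/
def Spher (T : Finset B) : Prop := Finite (WP M.toCoxeterSystem (T : Set B))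

variable (M) in
/-- Artin groups of FC type: a set of generators which are pairwise related is spherical -/
def FCType : Prop := ∀ T : Finset B, (∀ i ∈ T, ∀ j ∈ T, M i j ≠ 0) → Spher M T

variable (M) in
/-- `T` is irreducible: nonempty and not the union of two nonempty commuting parts -/
def Irr (T : Finset B) : Prop :=
  T.Nonempty ∧ ∀ U ⊆ T, U.Nonempty → U ≠ T → ∃ i ∈ U, ∃ j ∈ T, j ∉ U ∧ M i j ≠ 2

variable (M) in
/-- irreducible spherical subsets -/
abbrev IS := {T : Finset B // Irr M T ∧ Spher M T}

variable (M) in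
/-- the graph of compatible pairs of irreducible spherical subsets: nested or commuting -/
def nestG : SimpleGraph (IS M) where
  Adj T T' := T ≠ T' ∧ (T.1 ⊆ T'.1 ∨ T'.1 ⊆ T.1 ∨ ∀ i ∈ T.1, ∀ j ∈ T'.1, M i j = 2)
  symm := ⟨by
    rintro T T' ⟨h, h'⟩
    refine ⟨h.symm, ?_⟩
    rcases h' with h' | h' | h'
    · exact Or.inr (Or.inl h')
    · exact Or.inl h'
    · exact Or.inr (Or.inr (fun i hi j hj => by rw [M.symmetric]; exact h' j hj i hi))⟩
  loopless := ⟨fun T h => h.1 rfl⟩

end coxeter

/-- nonvanishing of the reduced mod 2 homology in degree `j` of the simplicial complex with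
simplices the finite sets satisfying `K`: a cycle `Z` and a cocycle `φ` with `φ(Z) = 1`. -/
def HasClassC {V : Type*} [Fintype V] [DecidableEq V] (K : Finset V → Prop) (j : ℕ) : Prop :=
  ∃ (Z : Finset (Finset V)) (φ : Finset V → ZMod 2),
    (∀ σ ∈ Z, K σ ∧ σ.card = j + 1) ∧
    (∀ ρ : Finset V, ρ.card = j → Even (Finset.univ.filter (fun v => v ∉ ρ ∧ insert v ρ ∈ Z)).card) ∧
    (∀ τ : Finset V, K τ → τ.card = j + 2 → ∑ v ∈ τ, φ (τ.erase v) = 0) ∧
    ∑ σ ∈ Z, φ σ = 1

end OS
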