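import Mathlib
import Pool.Agent.Lib.MP_8fe54c_gt.ArtDefs

/-!
# ARTIN AR2: the reflection cocycle, strong exchange, deletion
-/

namespace OS

open CoxeterSystem

variable {B : Type*} {M : CoxeterMatrix B} {W : Type*} [Group W] (cs : CoxeterSystem M W)

section perm

open Classical in
/-- the permutation of `W × ZMod 2` given by a simple reflection -/
noncomputable def AR2_f (i : B) : Equiv.Perm (W × ZMod 2) where
  toFun p := (cs.simple i * p.1 * cs.simple i, p.2 + if p.1 = cs.simple i then 1 else 0)
  invFun p := (cs.simple i * p.1 * cs.simple i, p.2 + if p.1 = cs.simple i then 1 else 0)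
  left_inv p := by
    have h : cs.simple i * p.1 * cs.simple i = cs.simple i ↔ p.1 = cs.simple i := by
      constructor
      · intro h
        have h1 := congrArg (fun x => cs.simple i * x * cs.simple i) h
        simpa [mul_assoc] using h1
      · intro h
        rw [h]
        simp
    refine Prod.ext ?_ ?_
    · simp [mul_assoc]
    · simp only [h]
      by_cases h1 : p.1 = cs.simple i
      · simp only [h1, if_true, add_assoc]
        rw [CharTwo.add_self_eq_zero, add_zero]
      · simp [h1]
  right_inv p := by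
    have h : cs.simple i * p.1 * cs.simple i = cs.simple i ↔ p.1 = cs.simple i := by
      constructor
      · intro h
        have h1 := congrArg (fun x => cs.simple i * x * cs.simple i) h
        simpa [mul_assoc] using h1
      · intro h
        rw [h]
        simp
    refine Prod.ext ?_ ?_
    · simp [mul_assoc]
    · simp only [h]
      by_cases h1 : p.1 = cs.simple i
      · simp only [h1, if_true, add_assoc]
        rw [CharTwo.add_self_eq_zero, add_zero]
      · simp [h1]

open Classical in
theorem AR2_f_apply (i : B) (t : W) (e : ZMod 2) :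
    AR2_f cs i (t, e) =
      (cs.simple i * t * cs.simple i, e + if t = cs.simple i then 1 else 0) := rfl

theorem AR2_conj (i j : B) (l : ℕ) :
    (cs.simple i * cs.simple j)⁻¹ * (cs.simple j * (cs.simple i * cs.simple j) ^ l) *
      (cs.simple i * cs.simple j) = cs.simple j * (cs.simple i * cs.simple j) ^ (l + 2) := by
  have h : (cs.simple i * cs.simple j)⁻¹ * cs.simple j =
      cs.simple j * (cs.simple i * cs.simple j) := by
    rw [mul_inv_rev, cs.inv_simple, cs.inv_simple]
    group
  generalize cs.simple i * cs.simple j = r at h ⊢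
  calc r⁻¹ * (cs.simple j * r ^ l) * r = (r⁻¹ * cs.simple j) * (r ^ l * r) := by group
    _ = (cs.simple j * r) * (r ^ l * r) := by rw [h]
    _ = cs.simple j * r ^ (l + 2) := by group

open Classical in
theorem AR2_pow (i j : B) (n : ℕ) (t : W) (e : ZMod 2) :
    ((AR2_f cs i * AR2_f cs j) ^ n) (t, e) =
      ((cs.simple i * cs.simple j) ^ n * t * ((cs.simple i * cs.simple j) ^ n)⁻¹,
        e + ∑ l ∈ Finset.range (2 * n),
          if t = cs.simple j * (cs.simple i * cs.simple j) ^ l then 1 else 0) := by
  induction n generalizing t e with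
  | zero => simp
  | succ n ih =>
    rw [pow_succ, Equiv.Perm.mul_apply, Equiv.Perm.mul_apply, AR2_f_apply, AR2_f_apply, ih]
    refine Prod.ext ?_ ?_
    · simp only [pow_succ, mul_inv_rev, cs.inv_simple, mul_assoc]
    · simp only
      rw [show 2 * (n + 1) = 2 * n + 1 + 1 by ring, Finset.sum_range_succ', Finset.sum_range_succ']
      have h1 : ∀ l, (cs.simple i * (cs.simple j * t * cs.simple j) * cs.simple i =
          cs.simple j * (cs.simple i * cs.simple j) ^ l) ↔
          t = cs.simple j * (cs.simple i * cs.simple j) ^ (l + 1 + 1) := by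
        intro l
        rw [show l + 1 + 1 = l + 2 by ring, ← AR2_conj]
        constructor
        · intro h
          rw [← h, mul_inv_rev, cs.inv_simple, cs.inv_simple]
          simp [mul_assoc]
        · intro h
          rw [h, mul_inv_rev, cs.inv_simple, cs.inv_simple]
          simp [mul_assoc]
      have h2 : cs.simple j * t * cs.simple j = cs.simple i ↔
          t = cs.simple j * (cs.simple i * cs.simple j) ^ (0 + 1) := by
        rw [zero_add, pow_one]
        constructor
        · intro h
          rw [← h]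
          simp [mul_assoc]
        · intro h
          rw [h]
          simp [mul_assoc]
      simp only [h1, h2, pow_zero, mul_one]
      ring

theorem AR2_liftable : M.IsLiftable (AR2_f cs) := by
  classical
  intro i j
  ext1 ⟨t, e⟩
  rw [AR2_pow, cs.simple_mul_simple_pow, Equiv.Perm.one_apply]
  have h : ∀ l, (cs.simple i * cs.simple j) ^ (M i j + l) = (cs.simple i * cs.simple j) ^ l := by
    intro l
    rw [pow_add, cs.simple_mul_simple_pow, one_mul]
  rw [two_mul, Finset.sum_range_add]
  simp only [h, CharTwo.add_self_eq_zero, add_zero, one_mul, inv_one, mul_one]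

/-- the action of the Coxeter group on `W × ZMod 2` -/
noncomputable def AR2_F : W →* Equiv.Perm (W × ZMod 2) := cs.lift ⟨AR2_f cs, AR2_liftable cs⟩

open Classical in
theorem AR2_word (ω : List B) (t : W) (e : ZMod 2) :
    AR2_F cs (cs.wordProd ω) (t, e) =
      (cs.wordProd ω * t * (cs.wordProd ω)⁻¹, e + ((cs.rightInvSeq ω).count t : ℕ)) := by
  induction ω with
  | nil => simp
  | cons i ω ih =>
    rw [cs.wordProd_cons, map_mul, Equiv.Perm.mul_apply, ih, AR2_F, cs.lift_apply_simple,
      AR2_f_apply, CoxeterSystem.rightInvSeq, List.count_cons]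
    refine Prod.ext ?_ ?_
    · simp [mul_assoc]
    · have h1 : (cs.wordProd ω * t * (cs.wordProd ω)⁻¹ = cs.simple i) ↔
          ((cs.wordProd ω)⁻¹ * cs.simple i * cs.wordProd ω = t) := by
        constructor
        · intro h
          rw [← h]
          group
        · intro h
          rw [← h]
          group
      simp only [h1, beq_iff_eq]
      push_cast
      ring

/-- the value of the cocycle -/
noncomputable def AR2_nu (w t : W) : ZMod 2 := (AR2_F cs w (t, 0)).2

open Classical in
theorem AR2_nu_word (ω : List B) (t : W) :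
    AR2_nu cs (cs.wordProd ω) t = ((cs.rightInvSeq ω).count t : ℕ) := by
  rw [AR2_nu, AR2_word]
  simp

theorem AR2_F_apply (w t : W) (e : ZMod 2) :
    AR2_F cs w (t, e) = (w * t * w⁻¹, e + AR2_nu cs w t) := by
  classical
  obtain ⟨ω, rfl⟩ := cs.wordProd_surjective w
  rw [AR2_nu_word, AR2_word]

theorem AR2_nu_mul (u v t : W) :
    AR2_nu cs (u * v) t = AR2_nu cs v t + AR2_nu cs u (v * t * v⁻¹) := by
  have h := AR2_F_apply cs (u * v) t 0
  rw [map_mul, Equiv.Perm.mul_apply, AR2_F_apply, AR2_F_apply] at h
  have h2 := congrArg Prod.snd h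
  simpa using h2.symm

theorem AR2_nu_one (t : W) : AR2_nu cs 1 t = 0 := by
  rw [AR2_nu, map_one]
  rfl

theorem AR2_nu_simple (i : B) : AR2_nu cs (cs.simple i) (cs.simple i) = 1 := by
  classical
  have h := AR2_nu_word cs [i] (cs.simple i)
  rw [cs.wordProd_singleton] at h
  rw [h]
  simp

theorem AR2_nu_self {t : W} (ht : cs.IsReflection t) : AR2_nu cs t t = 1 := by
  obtain ⟨u, i, rfl⟩ := ht
  have h0 := AR2_nu_one cs (u * cs.simple i * u⁻¹)
  rw [← mul_inv_cancel u, AR2_nu_mul] at h0
  rw [AR2_nu_mul, AR2_nu_mul]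
  have e1 : u⁻¹ * (u * cs.simple i * u⁻¹) * u⁻¹⁻¹ = cs.simple i := by group
  have e2 : cs.simple i * cs.simple i * (cs.simple i)⁻¹ = cs.simple i := by group
  rw [e1] at h0 ⊢
  rw [e2, AR2_nu_simple]
  linear_combination h0

end perm

theorem AR2_mem_ris {ω : List B} {t : W} (h : cs.IsRightInversion (cs.wordProd ω) t) :
    t ∈ cs.rightInvSeq ω := by
  classical
  by_contra hne
  have h1 : AR2_nu cs (cs.wordProd ω) t = 0 := by
    rw [AR2_nu_word, List.count_eq_zero_of_not_mem hne]
    rfl
  have h2 : AR2_nu cs (cs.wordProd ω * t) t = 1 := by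
    rw [AR2_nu_mul, AR2_nu_self cs h.1]
    have e : t * t * t⁻¹ = t := by group
    rw [e, h1, add_zero]
  obtain ⟨ω', hω', e'⟩ := cs.exists_isReduced (cs.wordProd ω * t)
  rw [e', AR2_nu_word] at h2
  have h3 : t ∈ cs.rightInvSeq ω' := by
    by_contra h4
    rw [List.count_eq_zero_of_not_mem h4] at h2
    norm_num at h2
  have h5 := (cs.isRightInversion_of_mem_rightInvSeq hω' h3).2
  rw [← e', mul_assoc, h.1.mul_self, mul_one] at h5
  exact absurd h.2 (not_lt.mpr h5.le)

theorem mem_lis_of_isLeftInversion {ω : List B} {t : W}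
    (h : cs.IsLeftInversion (cs.wordProd ω) t) : t ∈ cs.leftInvSeq ω := by
  have h1 : cs.IsRightInversion (cs.wordProd ω.reverse) t := by
    rw [cs.wordProd_reverse, cs.isRightInversion_inv_iff]
    exact h
  have h2 := AR2_mem_ris cs h1
  rw [cs.rightInvSeq_reverse] at h2
  exact List.mem_reverse.mp h2

theorem AR2_isReduced_of_nodup {ω : List B} (h : (cs.rightInvSeq ω).Nodup) : cs.IsReduced ω := by
  classical
  obtain ⟨ω', hω', e'⟩ := cs.exists_isReduced (cs.wordProd ω)
  have h1 : cs.rightInvSeq ω ⊆ cs.rightInvSeq ω' := by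
    intro t ht
    have h2 : ((cs.rightInvSeq ω).count t : ZMod 2) = ((cs.rightInvSeq ω').count t : ℕ) := by
      rw [← AR2_nu_word, ← AR2_nu_word, e']
    rw [List.count_eq_one_of_mem h ht] at h2
    by_contra h4
    rw [List.count_eq_zero_of_not_mem h4] at h2
    norm_num at h2
  have h3 := (List.subperm_of_subset h h1).length_le
  rw [cs.length_rightInvSeq, cs.length_rightInvSeq] at h3
  have h4 := cs.length_wordProd_le ω
  have h5 : cs.length (cs.wordProd ω) = ω'.length := by rw [e']; exact hω'
  unfold CoxeterSystem.IsReduced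
  omega

theorem isReduced_of_nodup {ω : List B} (h : (cs.leftInvSeq ω).Nodup) : cs.IsReduced ω := by
  have h1 : (cs.rightInvSeq ω.reverse).Nodup := by
    rw [cs.rightInvSeq_reverse]
    exact List.nodup_reverse.mpr h
  exact (cs.isReduced_reverse_iff ω).mp (AR2_isReduced_of_nodup cs h1)

theorem exchange_left {ω : List B} {i : B} (h : cs.IsLeftDescent (cs.wordProd ω) i) :
    ∃ j < ω.length, cs.simple i * cs.wordProd ω = cs.wordProd (ω.eraseIdx j) := by
  have h1 := mem_lis_of_isLeftInversion cs ((cs.isLeftInversion_simple_iff_isLeftDescent _ i).mpr h)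
  obtain ⟨j, hj, e⟩ := List.getElem_of_mem h1
  have hj' : j < ω.length := by rwa [cs.length_leftInvSeq] at hj
  refine ⟨j, hj', ?_⟩
  rw [← cs.getD_leftInvSeq_mul_wordProd, List.getD_eq_getElem _ _ hj, e]

theorem exchange_right {ω : List B} {i : B} (h : cs.IsRightDescent (cs.wordProd ω) i) :
    ∃ j < ω.length, cs.wordProd ω * cs.simple i = cs.wordProd (ω.eraseIdx j) := by
  have h1 := AR2_mem_ris cs ((cs.isRightInversion_simple_iff_isRightDescent _ i).mpr h)
  obtain ⟨j, hj, e⟩ := List.getElem_of_mem h1
  have hj' : j < ω.length := by rwa [cs.length_rightInvSeq] at hj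
  refine ⟨j, hj', ?_⟩
  rw [← cs.wordProd_mul_getD_rightInvSeq, List.getD_eq_getElem _ _ hj, e]

theorem exists_reduced_sublist (ω : List B) :
    ∃ ω' : List B, ω'.Sublist ω ∧ cs.IsReduced ω' ∧ cs.wordProd ω' = cs.wordProd ω := by
  induction ω with
  | nil => exact ⟨[], List.Sublist.refl _, by simp [CoxeterSystem.IsReduced], rfl⟩
  | cons i ω ih =>
    obtain ⟨ω', h1, h2, h3⟩ := ih
    by_cases h : cs.IsLeftDescent (cs.wordProd ω') i
    · obtain ⟨j, hj, e⟩ := exchange_left cs h
      refine ⟨ω'.eraseIdx j, (List.eraseIdx_sublist _ _).trans (h1.trans (List.sublist_cons_self _ _)),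
        ?_, ?_⟩
      · have h4 := cs.isLeftDescent_iff.mp h
        unfold CoxeterSystem.IsReduced at h2 ⊢
        rw [← e, List.length_eraseIdx_of_lt hj]
        omega
      · rw [← e, cs.wordProd_cons, h3]
    · refine ⟨i :: ω', List.Sublist.cons_cons _ h1, ?_, ?_⟩
      · have h4 := cs.not_isLeftDescent_iff.mp h
        unfold CoxeterSystem.IsReduced at h2 ⊢
        rw [cs.wordProd_cons, h4, h2, List.length_cons]
      · rw [cs.wordProd_cons, cs.wordProd_cons, h3]

end OS
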