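import Mathlib
import Pool.Agent.Lib.MP_8fe54c_gt.ArtDefs

/-!
# ARTIN module AR1: the geometric representation, the order of `s i * s j` is `M i j`
-/

namespace OS

open CoxeterSystem

section geo

variable {B : Type*} (M : CoxeterMatrix B)

/-- the bilinear form of the Coxeter matrix on the simple roots -/
noncomputable def AR1_b (i j : B) : ℝ := -Real.cos (Real.pi / M i j)

theorem AR1_b_self (i : B) : AR1_b M i i = 1 := by
  simp [AR1_b]

theorem AR1_b_symm (i j : B) : AR1_b M i j = AR1_b M j i := by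
  rw [AR1_b, AR1_b, M.symmetric]

/-- the reflections on the dual of the geometric representation -/
noncomputable def AR1_s (i : B) : Module.End ℝ (B → ℝ) where
  toFun f k := f k - 2 * AR1_b M i k * f i
  map_add' f g := by
    funext k
    simp only [Pi.add_apply]
    ring
  map_smul' c f := by
    funext k
    simp only [Pi.smul_apply, smul_eq_mul, RingHom.id_apply]
    ring

theorem AR1_s_apply (i : B) (f : B → ℝ) (k : B) :
    AR1_s M i f k = f k - 2 * AR1_b M i k * f i := rfl

theorem AR1_s_sq (i : B) : AR1_s M i * AR1_s M i = 1 := by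
  ext f k
  simp only [Module.End.mul_apply, AR1_s_apply, AR1_b_self, Module.End.one_apply]
  ring

theorem AR1_T_apply (i j : B) (f : B → ℝ) (k : B) :
    (AR1_s M i * AR1_s M j) f k =
      f k - 2 * AR1_b M j k * f j - 2 * AR1_b M i k * (f i - 2 * AR1_b M j i * f j) := by
  simp only [Module.End.mul_apply, AR1_s_apply]

theorem AR1_pow_form (i j : B) (f : B → ℝ) (n : ℕ) : ∃ P Q : ℝ, ∀ k,
    ((AR1_s M i * AR1_s M j) ^ n) f k = f k - 2 * AR1_b M i k * P - 2 * AR1_b M j k * Q := by
  induction n with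
  | zero => exact ⟨0, 0, fun k => by simp⟩
  | succ n ih =>
    obtain ⟨P, Q, h⟩ := ih
    refine ⟨P + (((AR1_s M i * AR1_s M j) ^ n) f i -
      2 * AR1_b M j i * ((AR1_s M i * AR1_s M j) ^ n) f j),
      Q + ((AR1_s M i * AR1_s M j) ^ n) f j, fun k => ?_⟩
    rw [pow_succ', Module.End.mul_apply, AR1_T_apply, h k]
    ring

/-- explicit form of the powers on the plane -/
theorem AR1_pow_sin (i j : B) (θ : ℝ) (hθ : AR1_b M i j = -Real.cos θ) (f : B → ℝ) (n : ℕ) :
    Real.sin θ * ((AR1_s M i * AR1_s M j) ^ n) f i =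
        -(Real.sin ((2 * n - 1) * θ) * f i + Real.sin (2 * n * θ) * f j) ∧
      Real.sin θ * ((AR1_s M i * AR1_s M j) ^ n) f j =
        Real.sin (2 * n * θ) * f i + Real.sin ((2 * n + 1) * θ) * f j := by
  induction n with
  | zero =>
    constructor
    · simp
    · simp
  | succ n ih =>
    obtain ⟨h1, h2⟩ := ih
    have hji : AR1_b M j i = -Real.cos θ := by rw [AR1_b_symm, hθ]
    have e1 : Real.sin ((2 * n + 1) * θ) + Real.sin ((2 * n - 1) * θ) =
        2 * Real.cos θ * Real.sin (2 * n * θ) := by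
      have a1 : (2 * (n : ℝ) + 1) * θ = 2 * n * θ + θ := by ring
      have a2 : (2 * (n : ℝ) - 1) * θ = 2 * n * θ - θ := by ring
      rw [a1, a2, Real.sin_add, Real.sin_sub]
      ring
    have e2 : Real.sin (2 * (n + 1 : ℝ) * θ) + Real.sin (2 * n * θ) =
        2 * Real.cos θ * Real.sin ((2 * n + 1) * θ) := by
      have a1 : 2 * ((n : ℝ) + 1) * θ = (2 * n + 1) * θ + θ := by ring
      have a2 : 2 * (n : ℝ) * θ = (2 * n + 1) * θ - θ := by ring
      rw [a1, a2, Real.sin_add, Real.sin_sub]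
      ring_nf
    have e3 : Real.sin ((2 * (n + 1 : ℝ) + 1) * θ) + Real.sin ((2 * n + 1) * θ) =
        2 * Real.cos θ * Real.sin (2 * (n + 1 : ℝ) * θ) := by
      have a1 : (2 * ((n : ℝ) + 1) + 1) * θ = 2 * (n + 1) * θ + θ := by ring
      have a2 : (2 * (n : ℝ) + 1) * θ = 2 * (n + 1) * θ - θ := by ring
      rw [a1, a2, Real.sin_add, Real.sin_sub]
      ring
    have e4 : (2 * ((n : ℝ) + 1) - 1) * θ = (2 * n + 1) * θ := by ring
    have hx : ((AR1_s M i * AR1_s M j) ^ (n + 1)) f i =
        -((AR1_s M i * AR1_s M j) ^ n) f i - 2 * Real.cos θ * ((AR1_s M i * AR1_s M j) ^ n) f j := by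
      rw [pow_succ', Module.End.mul_apply, AR1_T_apply, AR1_b_self, hji]
      ring
    have hy : ((AR1_s M i * AR1_s M j) ^ (n + 1)) f j =
        2 * Real.cos θ * ((AR1_s M i * AR1_s M j) ^ n) f i +
        (4 * Real.cos θ ^ 2 - 1) * ((AR1_s M i * AR1_s M j) ^ n) f j := by
      rw [pow_succ', Module.End.mul_apply, AR1_T_apply, AR1_b_self, hji, hθ]
      ring
    push_cast
    rw [hx, hy, e4]
    constructor
    · have : Real.sin θ * (-((AR1_s M i * AR1_s M j) ^ n) f i -
          2 * Real.cos θ * ((AR1_s M i * AR1_s M j) ^ n) f j) =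
          -(Real.sin θ * ((AR1_s M i * AR1_s M j) ^ n) f i) -
          2 * Real.cos θ * (Real.sin θ * ((AR1_s M i * AR1_s M j) ^ n) f j) := by ring
      rw [this, h1, h2]
      linear_combination (f i) * e1 + (f j) * e2
    · have : Real.sin θ * (2 * Real.cos θ * ((AR1_s M i * AR1_s M j) ^ n) f i +
          (4 * Real.cos θ ^ 2 - 1) * ((AR1_s M i * AR1_s M j) ^ n) f j) =
          2 * Real.cos θ * (Real.sin θ * ((AR1_s M i * AR1_s M j) ^ n) f i) +
          (4 * Real.cos θ ^ 2 - 1) * (Real.sin θ * ((AR1_s M i * AR1_s M j) ^ n) f j) := by ring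
      rw [this, h1, h2]
      linear_combination (-2 * Real.cos θ * f i) * e1 + (- f i) * e2 + (-2 * Real.cos θ * f j) * e2 - f j * e3

/-- the linear formula in the case of no relation -/
theorem AR1_pow_zero (i j : B) (h : M i j = 0) (f : B → ℝ) (n : ℕ) :
    ((AR1_s M i * AR1_s M j) ^ n) f i = f i - 2 * n * (f i + f j) ∧
      ((AR1_s M i * AR1_s M j) ^ n) f j = f j + 2 * n * (f i + f j) := by
  have hij : AR1_b M i j = -1 := by simp [AR1_b, h]
  have hji : AR1_b M j i = -1 := by rw [AR1_b_symm, hij]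
  induction n with
  | zero => simp
  | succ n ih =>
    obtain ⟨h1, h2⟩ := ih
    push_cast
    constructor
    · rw [pow_succ', Module.End.mul_apply, AR1_T_apply, AR1_b_self, hji, h1, h2]
      ring
    · rw [pow_succ', Module.End.mul_apply, AR1_T_apply, AR1_b_self, hji, hij, h1, h2]
      ring

theorem AR1_liftable : M.IsLiftable (AR1_s M) := by
  intro i j
  by_cases hij : i = j
  · subst hij
    rw [M.diagonal, pow_one, AR1_s_sq]
  by_cases hm : M i j = 0
  · rw [hm, pow_zero]
  have hm2 : 2 ≤ M i j := by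
    have := M.off_diagonal i j hij
    omega
  have hmr : (2 : ℝ) ≤ M i j := by exact_mod_cast hm2
  have hm0 : (0 : ℝ) < M i j := by linarith
  obtain ⟨θ, hθ⟩ : ∃ θ : ℝ, θ = Real.pi / M i j := ⟨_, rfl⟩
  have hb : AR1_b M i j = -Real.cos θ := by rw [hθ, AR1_b]
  have hθm : M i j * θ = Real.pi := by rw [hθ]; field_simp
  have hθ0 : 0 < θ := by rw [hθ]; positivity
  have hθπ : θ < Real.pi := by nlinarith [Real.pi_pos]
  have hs : 0 < Real.sin θ := Real.sin_pos_of_pos_of_lt_pi hθ0 hθπ
  ext f k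
  obtain ⟨P, Q, hPQ⟩ := AR1_pow_form M i j f (M i j)
  obtain ⟨h1, h2⟩ := AR1_pow_sin M i j θ hb f (M i j)
  have e1 : (2 * (M i j : ℝ) - 1) * θ = 2 * Real.pi - θ := by rw [← hθm]; ring
  have e2 : 2 * (M i j : ℝ) * θ = 2 * Real.pi := by rw [← hθm]; ring
  have e3 : (2 * (M i j : ℝ) + 1) * θ = θ + 2 * Real.pi := by rw [← hθm]; ring
  rw [e1, e2, Real.sin_two_pi_sub, Real.sin_two_pi] at h1
  rw [e2, e3, Real.sin_add_two_pi, Real.sin_two_pi] at h2
  have h1' : ((AR1_s M i * AR1_s M j) ^ M i j) f i = f i := by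
    have := mul_left_cancel₀ hs.ne' (h1.trans (by ring : _ = Real.sin θ * f i))
    exact this
  have h2' : ((AR1_s M i * AR1_s M j) ^ M i j) f j = f j := by
    have := mul_left_cancel₀ hs.ne' (h2.trans (by ring : _ = Real.sin θ * f j))
    exact this
  have hP1 := hPQ i
  have hP2 := hPQ j
  rw [h1', AR1_b_self, AR1_b_symm M j i, hb] at hP1
  rw [h2', AR1_b_self, hb] at hP2
  have hsc := Real.sin_sq_add_cos_sq θ
  have hQ : Q * Real.sin θ ^ 2 = 0 := by
    have : Q * (1 - Real.cos θ ^ 2) = 0 := by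
      linear_combination (1 / 2) * hP2 + (1 / 2) * Real.cos θ * hP1
    rw [← this]
    linear_combination Q * hsc
  have hQ0 : Q = 0 := by
    rcases mul_eq_zero.1 hQ with h | h
    · exact h
    · exact absurd h (by positivity)
  have hP0 : P = 0 := by
    rw [hQ0] at hP1
    linarith
  rw [hPQ k, hP0, hQ0, Module.End.one_apply]
  ring

end geo

section main

variable {B : Type*} {M : CoxeterMatrix B} {W : Type*} [Group W] (cs : CoxeterSystem M W)

/-- the (dual) geometric representation -/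
noncomputable def AR1_rho : W →* Module.End ℝ (B → ℝ) :=
  cs.lift ⟨AR1_s M, AR1_liftable M⟩

theorem AR1_rho_simple (i : B) : AR1_rho cs (cs.simple i) = AR1_s M i :=
  cs.lift_apply_simple (AR1_liftable M) i

theorem AR1_rho_pow (i j : B) (n : ℕ) : AR1_rho cs ((cs.simple i * cs.simple j) ^ n) =
    (AR1_s M i * AR1_s M j) ^ n := by
  rw [map_pow, map_mul, AR1_rho_simple, AR1_rho_simple]

theorem orderOf_simple_mul (i j : B) : orderOf (cs.simple i * cs.simple j) = M i j := by
  classical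
  by_cases hij : i = j
  · subst hij
    rw [cs.simple_mul_simple_self, orderOf_one, M.diagonal]
  have hji : j ≠ i := fun h => hij h.symm
  have hfi : (Pi.single i (1 : ℝ) : B → ℝ) i = 1 := Pi.single_eq_same i 1
  have hfj : (Pi.single i (1 : ℝ) : B → ℝ) j = 0 := Pi.single_eq_of_ne hji 1
  by_cases hm : M i j = 0
  · rw [hm, orderOf_eq_zero_iff']
    intro n hn hc
    have h1 := AR1_rho_pow cs i j n
    rw [hc, map_one] at h1
    have h2 := (AR1_pow_zero M i j hm (Pi.single i 1) n).2
    rw [← h1, Module.End.one_apply, hfi, hfj] at h2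
    have : (0 : ℝ) < n := by exact_mod_cast hn
    linarith
  have hm2 : 2 ≤ M i j := by
    have := M.off_diagonal i j hij
    omega
  have hmr : (2 : ℝ) ≤ M i j := by exact_mod_cast hm2
  have hm0 : (0 : ℝ) < M i j := by linarith
  obtain ⟨θ, hθ⟩ : ∃ θ : ℝ, θ = Real.pi / M i j := ⟨_, rfl⟩
  have hb : AR1_b M i j = -Real.cos θ := by rw [hθ, AR1_b]
  have hθm : M i j * θ = Real.pi := by rw [hθ]; field_simp
  have hθ0 : 0 < θ := by rw [hθ]; positivity
  have hθπ : θ < Real.pi := by nlinarith [Real.pi_pos]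
  have hs : 0 < Real.sin θ := Real.sin_pos_of_pos_of_lt_pi hθ0 hθπ
  rw [orderOf_eq_iff (by omega)]
  refine ⟨cs.simple_mul_simple_pow i j, ?_⟩
  intro n hn hn0 hc
  have h1 := AR1_rho_pow cs i j n
  rw [hc, map_one] at h1
  obtain ⟨h2, h3⟩ := AR1_pow_sin M i j θ hb (Pi.single i 1) n
  rw [← h1, Module.End.one_apply, hfi, hfj] at h2 h3
  have hn0' : (0 : ℝ) < n := by exact_mod_cast hn0
  have hn' : (n : ℝ) < M i j := by exact_mod_cast hn
  have h4 : Real.sin (2 * n * θ) = 0 := by linarith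
  have h5 : Real.sin θ = -Real.sin ((2 * n - 1) * θ) := by linarith
  have h6 : (2 * (n : ℝ) - 1) * θ = 2 * n * θ - θ := by ring
  rw [h6, Real.sin_sub, h4] at h5
  have h7 : Real.cos (2 * n * θ) = 1 := by
    have : Real.sin θ * Real.cos (2 * n * θ) = Real.sin θ * 1 := by linarith
    exact mul_left_cancel₀ hs.ne' this
  have h8 : 2 * (n : ℝ) * θ < 2 * Real.pi := by
    rw [← hθm]; nlinarith
  have h9 : 0 < 2 * (n : ℝ) * θ := by positivity
  have := (Real.cos_eq_one_iff_of_lt_of_lt (by linarith [Real.pi_pos]) h8).1 h7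
  linarith

theorem simple_inj : Function.Injective cs.simple := by
  intro i j h
  by_contra hij
  have h1 := orderOf_simple_mul cs i j
  rw [h, cs.simple_mul_simple_self, orderOf_one] at h1
  exact M.off_diagonal i j hij h1.symm

end main

end OS
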