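import Mathlib
import Pool.Agent.Lib.MP_8fe54c_gt.ArtGeo
import Pool.Agent.Lib.MP_8fe54c_gt.ArtExch

/-!
# Parabolic subgroups of Coxeter groups, Deodhar's lemma
-/

namespace OS

open CoxeterSystem

section cox

variable {B : Type*} {M : CoxeterMatrix B} {W : Type*} [Group W] (cs : CoxeterSystem M W)

theorem AR3_exists_word {T : Set B} {w : W} (h : w ∈ WP cs T) :
    ∃ ω : List B, (∀ i ∈ ω, i ∈ T) ∧ cs.wordProd ω = w := by
  unfold WP at h
  induction h using Subgroup.closure_induction with
  | mem x hx =>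
    obtain ⟨i, hi, rfl⟩ := hx
    exact ⟨[i], by simpa using hi, by simp⟩
  | one => exact ⟨[], by simp, by simp⟩
  | mul x y _ _ hx hy =>
    obtain ⟨ω, hω, rfl⟩ := hx
    obtain ⟨ω', hω', rfl⟩ := hy
    refine ⟨ω ++ ω', ?_, cs.wordProd_append ω ω'⟩
    intro i hi
    rcases List.mem_append.mp hi with hi | hi
    · exact hω i hi
    · exact hω' i hi
  | inv x _ hx =>
    obtain ⟨ω, hω, rfl⟩ := hx
    exact ⟨ω.reverse, fun i hi => hω i (by simpa using hi), cs.wordProd_reverse ω⟩

theorem exists_word_of_mem_WP {T : Set B} {w : W} (h : w ∈ WP cs T) :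
    ∃ ω : List B, (∀ i ∈ ω, i ∈ T) ∧ cs.IsReduced ω ∧ cs.wordProd ω = w := by
  obtain ⟨ω, hω, rfl⟩ := AR3_exists_word cs h
  obtain ⟨ω', hsub, hred, hprod⟩ := exists_reduced_sublist cs ω
  exact ⟨ω', fun i hi => hω i (hsub.subset hi), hred, hprod⟩

theorem simple_mem_WP_iff {T : Set B} {i : B} : cs.simple i ∈ WP cs T ↔ i ∈ T := by
  constructor
  · intro h
    obtain ⟨ω, hω, hred, hprod⟩ := exists_word_of_mem_WP cs h
    have hl : ω.length = 1 := by
      rw [← hred.eq, hprod, cs.length_simple]
    obtain ⟨t, rfl⟩ := List.length_eq_one_iff.mp hl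
    rw [cs.wordProd_singleton] at hprod
    rw [← simple_inj cs hprod]
    exact hω t (by simp)
  · exact simple_mem_WP cs

theorem AR3_isReduced_tail {i : B} {ω : List B} (h : cs.IsReduced (i :: ω)) : cs.IsReduced ω := by
  simpa using h.drop 1

theorem AR3_isLeftDescent_cons {i : B} {ω : List B} (h : cs.IsReduced (i :: ω)) :
    cs.IsLeftDescent (cs.wordProd (i :: ω)) i := by
  have h1 := AR3_isReduced_tail cs h
  unfold IsLeftDescent
  rw [h.eq, cs.wordProd_cons, cs.simple_mul_simple_cancel_left, h1.eq]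
  simp

theorem AR3_isReduced_cons {i : B} {ω : List B} (h : cs.IsReduced ω)
    (h' : ¬ cs.IsLeftDescent (cs.wordProd ω) i) : cs.IsReduced (i :: ω) := by
  rw [cs.not_isLeftDescent_iff] at h'
  unfold CoxeterSystem.IsReduced
  rw [cs.wordProd_cons, h', h.eq]
  simp

theorem letters_mem {T : Set B} {ω : List B} (hω : cs.IsReduced ω)
    (h : cs.wordProd ω ∈ WP cs T) : ∀ i ∈ ω, i ∈ T := by
  induction ω with
  | nil => simp
  | cons i ω ih =>
    have h1 := AR3_isReduced_tail cs hω
    obtain ⟨ρ, hρ, -, hprod⟩ := exists_word_of_mem_WP cs h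
    have hdesc := AR3_isLeftDescent_cons cs hω
    rw [← hprod] at hdesc
    obtain ⟨j, -, hj⟩ := exchange_left cs hdesc
    have h2 : cs.wordProd ω ∈ WP cs T := by
      have : cs.wordProd ω = cs.wordProd (ρ.eraseIdx j) := by
        rw [← hj, hprod, cs.wordProd_cons, cs.simple_mul_simple_cancel_left]
      rw [this]
      exact wordProd_mem_WP cs (fun k hk => hρ k ((List.eraseIdx_subset) hk))
    have h3 : cs.simple i ∈ WP cs T := by
      have : cs.simple i = cs.wordProd (i :: ω) * (cs.wordProd ω)⁻¹ := by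
        rw [cs.wordProd_cons]; group
      rw [this]
      exact (WP cs T).mul_mem h ((WP cs T).inv_mem h2)
    intro k hk
    rcases List.mem_cons.mp hk with rfl | hk
    · exact (simple_mem_WP_iff cs).mp h3
    · exact ih h1 h2 k hk

/-- `v` has minimal length in its coset -/
def AR3_Min (X : Set B) (v : W) : Prop := ∀ u ∈ WP cs X, cs.length v ≤ cs.length (u * v)

theorem AR3_reduced_append {X : Set B} {v : W} (hv : AR3_Min cs X v) {ω : List B}
    (hω : cs.IsReduced ω) (hωv : cs.wordProd ω = v) {ρ : List B} (hρX : ∀ i ∈ ρ, i ∈ X)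
    (hρ : cs.IsReduced ρ) : cs.IsReduced (ρ ++ ω) := by
  induction ρ with
  | nil => simpa using hω
  | cons x ρ ih =>
    have hρ' := AR3_isReduced_tail cs hρ
    have hred := ih (fun i hi => hρX i (by simp [hi])) hρ'
    rw [List.cons_append]
    refine AR3_isReduced_cons cs hred ?_
    intro hdesc
    obtain ⟨j, hj, hj'⟩ := exchange_left cs hdesc
    by_cases hjρ : j < ρ.length
    · rw [List.eraseIdx_append_of_lt_length hjρ, cs.wordProd_append, cs.wordProd_append,
        ← mul_assoc] at hj'
      have h1 := mul_right_cancel hj'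
      rw [← cs.wordProd_cons] at h1
      have h2 := cs.length_wordProd_le (ρ.eraseIdx j)
      rw [← h1, hρ.eq, List.length_cons, List.length_eraseIdx_of_lt hjρ] at h2
      omega
    · push Not at hjρ
      rw [List.eraseIdx_append_of_length_le hjρ, cs.wordProd_append, cs.wordProd_append, hωv]
        at hj'
      have hρmem : cs.wordProd ρ ∈ WP cs X :=
        wordProd_mem_WP cs (fun i hi => hρX i (by simp [hi]))
      have hxmem : cs.simple x ∈ WP cs X := simple_mem_WP cs (hρX x (by simp))
      have hmem : (cs.wordProd ρ)⁻¹ * cs.simple x * cs.wordProd ρ ∈ WP cs X :=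
        (WP cs X).mul_mem ((WP cs X).mul_mem ((WP cs X).inv_mem hρmem) hxmem) hρmem
      have h1 := hv _ hmem
      have h2 : (cs.wordProd ρ)⁻¹ * cs.simple x * cs.wordProd ρ * v =
          cs.wordProd (ω.eraseIdx (j - ρ.length)) := by
        have : (cs.wordProd ρ)⁻¹ * cs.simple x * cs.wordProd ρ * v =
            (cs.wordProd ρ)⁻¹ * (cs.simple x * (cs.wordProd ρ * v)) := by group
        rw [this, hj']
        group
      rw [h2] at h1
      have hjω : j - ρ.length < ω.length := by
        rw [List.length_append] at hj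
        omega
      have h3 := cs.length_wordProd_le (ω.eraseIdx (j - ρ.length))
      rw [List.length_eraseIdx_of_lt hjω] at h3
      rw [← hωv, hω.eq] at h1
      omega

theorem AR3_length_of_min {X : Set B} {u v : W} (hu : u ∈ WP cs X) (hv : AR3_Min cs X v) :
    cs.length (u * v) = cs.length u + cs.length v := by
  obtain ⟨ρ, hρX, hρ, rfl⟩ := exists_word_of_mem_WP cs hu
  obtain ⟨ω, hω, rfl⟩ := cs.exists_isReduced v
  have h := AR3_reduced_append cs hv hω rfl hρX hρ
  rw [← cs.wordProd_append, h.eq, hρ.eq, hω.eq, List.length_append]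

theorem AR3_exists_min (X : Set B) (w : W) : ∃ u ∈ WP cs X, AR3_Min cs X (u * w) := by
  classical
  let S : Set ℕ := {n | ∃ u ∈ WP cs X, cs.length (u * w) = n}
  have hS : S.Nonempty := ⟨cs.length (1 * w), 1, (WP cs X).one_mem, rfl⟩
  obtain ⟨u, hu, hlen⟩ := Nat.sInf_mem hS
  refine ⟨u, hu, ?_⟩
  intro u' hu'
  rw [hlen]
  refine Nat.sInf_le ⟨u' * u, (WP cs X).mul_mem hu' hu, ?_⟩
  rw [mul_assoc]

theorem AR3_lred_of_min {X : Set B} {v : W} (hv : AR3_Min cs X v) : LRed cs X v := by
  intro i hi hdesc
  have := hv _ (simple_mem_WP cs hi)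
  unfold IsLeftDescent at hdesc
  omega

theorem AR3_min_of_lred {X : Set B} {v : W} (hv : LRed cs X v) : AR3_Min cs X v := by
  obtain ⟨u, hu, hmin⟩ := AR3_exists_min cs X v
  by_cases h1 : u = 1
  · subst h1
    simpa using hmin
  · exfalso
    obtain ⟨ρ, hρX, hρ, hprod⟩ := exists_word_of_mem_WP cs ((WP cs X).inv_mem hu)
    cases ρ with
    | nil =>
      rw [cs.wordProd_nil] at hprod
      exact h1 (by simpa using hprod.symm)
    | cons x ρ =>
      have hx : x ∈ X := hρX x (by simp)
      have hv' : v = u⁻¹ * (u * v) := by group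
      have hl1 := AR3_length_of_min cs ((WP cs X).inv_mem hu) hmin
      have hmem : cs.wordProd ρ ∈ WP cs X :=
        wordProd_mem_WP cs (fun i hi => hρX i (by simp [hi]))
      have hl2 := AR3_length_of_min cs hmem hmin
      rw [← hprod, hρ.eq, hprod, inv_mul_cancel_left, List.length_cons] at hl1
      apply hv x hx
      unfold IsLeftDescent
      have h3 : cs.simple x * v = cs.wordProd ρ * (u * v) := by
        have : v = cs.wordProd (x :: ρ) * (u * v) := by rw [hprod]; group
        rw [cs.wordProd_cons] at this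
        conv_lhs => rw [this]
        rw [mul_assoc, cs.simple_mul_simple_cancel_left]
      rw [h3, hl2, hl1]
      have := (AR3_isReduced_tail cs hρ).eq
      omega

theorem length_mul_of_LRed {X : Set B} {u v : W} (hu : u ∈ WP cs X) (hv : LRed cs X v) :
    cs.length (u * v) = cs.length u + cs.length v :=
  AR3_length_of_min cs hu (AR3_min_of_lred cs hv)

theorem exists_factor (X : Set B) (w : W) :
    ∃ u ∈ WP cs X, ∃ v, LRed cs X v ∧ w = u * v := by
  obtain ⟨u, hu, hmin⟩ := AR3_exists_min cs X w
  exact ⟨u⁻¹, (WP cs X).inv_mem hu, u * w, AR3_lred_of_min cs hmin, by group⟩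

theorem factor_unique {X : Set B} {u u' v v' : W} (hu : u ∈ WP cs X) (hu' : u' ∈ WP cs X)
    (hv : LRed cs X v) (hv' : LRed cs X v') (h : u * v = u' * v') : u = u' ∧ v = v' := by
  have ha : u⁻¹ * u' ∈ WP cs X := (WP cs X).mul_mem ((WP cs X).inv_mem hu) hu'
  have h1 : v = u⁻¹ * u' * v' := by
    rw [mul_assoc, ← h]; group
  have h2 : v' = (u⁻¹ * u')⁻¹ * v := by
    rw [h1]; group
  have hl1 := length_mul_of_LRed cs ha hv'
  have hl2 := length_mul_of_LRed cs ((WP cs X).inv_mem ha) hv
  rw [← h1] at hl1
  rw [← h2] at hl2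
  have h0 : cs.length (u⁻¹ * u') = 0 := by omega
  rw [cs.length_eq_zero_iff] at h0
  refine ⟨?_, ?_⟩
  · exact inv_mul_eq_one.mp h0
  · rw [h1, h0, one_mul]

/-- Deodhar's lemma -/
theorem deodhar {X : Set B} {v : W} (hv : LRed cs X v) (i : B) :
    LRed cs X (v * cs.simple i) ∨ ∃ x ∈ X, v * cs.simple i = cs.simple x * v := by
  by_cases h : LRed cs X (v * cs.simple i)
  · exact Or.inl h
  · right
    unfold LRed at h
    push Not at h
    obtain ⟨x, hx, hdesc⟩ := h
    refine ⟨x, hx, ?_⟩
    have hxv : cs.length (cs.simple x * v) = cs.length v + 1 :=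
      (cs.not_isLeftDescent_iff).mp (hv x hx)
    have hdesc' := (cs.isLeftDescent_iff).mp hdesc
    have hl : cs.length (v * cs.simple i) = cs.length v + 1 := by
      rcases cs.length_mul_simple v i with h1 | h1
      · exact h1
      · exfalso
        have h2 := cs.length_mul_le (cs.simple x * (v * cs.simple i)) (cs.simple i)
        rw [cs.length_simple, ← mul_assoc, cs.simple_mul_simple_cancel_right, mul_assoc] at h2
        omega
    obtain ⟨ω, hω, hωv⟩ := cs.exists_isReduced v
    have hword : v * cs.simple i = cs.wordProd (ω ++ [i]) := by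
      rw [cs.wordProd_append, cs.wordProd_singleton, ← hωv]
    rw [hword] at hdesc
    obtain ⟨j, hj, hj'⟩ := exchange_left cs hdesc
    by_cases hjω : j < ω.length
    · exfalso
      rw [List.eraseIdx_append_of_lt_length hjω, cs.wordProd_append, cs.wordProd_append,
        ← mul_assoc] at hj'
      have h1 := mul_right_cancel hj'
      have h2 := cs.length_wordProd_le (ω.eraseIdx j)
      rw [List.length_eraseIdx_of_lt hjω, ← h1, ← hωv, hxv] at h2
      rw [hωv, hω.eq] at h2
      omega
    · push Not at hjω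
      have hje : j = ω.length := by
        rw [List.length_append, List.length_singleton] at hj
        omega
      subst hje
      rw [List.eraseIdx_append_of_length_le le_rfl, Nat.sub_self] at hj'
      simp only [List.eraseIdx_cons_zero, List.append_nil] at hj'
      rw [← hword, ← hωv] at hj'
      have : v * cs.simple i = cs.simple x * (cs.simple x * (v * cs.simple i)) := by
        rw [cs.simple_mul_simple_cancel_left]
      rw [this, hj']

end cox

end OS
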