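import Mathlib
import Pool.Agent.Lib.MP_8fe54c_gt.ArtPara

namespace OS

open CoxeterSystem

variable {B : Type*} {M : CoxeterMatrix B} {W : Type*} [Group W] (cs : CoxeterSystem M W)

/-- if `w₀` has maximal length in `W_T` then lengths add along every initial factor -/
theorem AR5_add {T : Set B} {w₀ : W} (h₀ : w₀ ∈ WP cs T)
    (hmax : ∀ u ∈ WP cs T, cs.length u ≤ cs.length w₀) :
    ∀ n : ℕ, ∀ u ∈ WP cs T, cs.length u = n →
      cs.length w₀ = cs.length u + cs.length (u⁻¹ * w₀) := by
  intro n
  induction n with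
  | zero =>
    intro u _ hu
    rw [cs.length_eq_zero_iff] at hu
    subst hu
    simp
  | succ n ih =>
    intro u hu hn
    obtain ⟨ω, hωT, hω, hωu⟩ := exists_word_of_mem_WP cs hu
    have hlen : ω.length = n + 1 := by
      have h0 : cs.length (cs.wordProd ω) = ω.length := hω
      rw [hωu, hn] at h0
      exact h0.symm
    obtain _ | ⟨i, ω'⟩ := ω
    · simp at hlen
    rw [cs.wordProd_cons] at hωu
    have hlen' : ω'.length = n := by simpa using hlen
    have hi : i ∈ T := hωT i (by simp)
    have hu' : cs.wordProd ω' ∈ WP cs T := wordProd_mem_WP cs (fun j hj => hωT j (by simp [hj]))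
    have hul : cs.length (cs.wordProd ω') = n := by
      have h1 : cs.length (cs.wordProd ω') ≤ n := hlen' ▸ cs.length_wordProd_le ω'
      have h2 : cs.length u ≤ cs.length (cs.simple i) + cs.length (cs.wordProd ω') := by
        rw [← hωu]
        exact cs.length_mul_le _ _
      rw [cs.length_simple] at h2
      omega
    have hih := ih (cs.wordProd ω') hu' hul
    obtain ⟨ρ, hρl, hρ⟩ := cs.exists_isReduced ((cs.wordProd ω')⁻¹ * w₀)
    have hρn : cs.length ((cs.wordProd ω')⁻¹ * w₀) = ρ.length := by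
      rw [hρ]
      exact hρl
    have hw : cs.wordProd (ω' ++ ρ) = w₀ := by
      rw [cs.wordProd_append, ← hρ]
      simp
    have hdesc : cs.IsLeftDescent (cs.wordProd (ω' ++ ρ)) i := by
      rw [hw]
      have h1 := hmax (cs.simple i * w₀) ((WP cs T).mul_mem (simple_mem_WP cs hi) h₀)
      have h2 := cs.length_simple_mul_ne w₀ i
      exact lt_of_le_of_ne h1 h2
    obtain ⟨j, hj, hj'⟩ := exchange_left cs hdesc
    rw [hw] at hj'
    rcases lt_or_ge j ω'.length with hjl | hjl
    · exfalso
      rw [List.eraseIdx_append_of_lt_length hjl, cs.wordProd_append] at hj'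
      have h1 : cs.wordProd (ω'.eraseIdx j) = u := by
        rw [← hωu]
        have h2 : cs.simple i * cs.wordProd ω' * cs.wordProd ρ
            = cs.wordProd (ω'.eraseIdx j) * cs.wordProd ρ := by
          rw [← hj', mul_assoc, ← cs.wordProd_append, hw]
        exact (mul_right_cancel h2).symm
      have h3 := cs.length_wordProd_le (ω'.eraseIdx j)
      rw [h1, hn, List.length_eraseIdx_of_lt hjl] at h3
      omega
    · rw [List.eraseIdx_append_of_length_le hjl, cs.wordProd_append] at hj'
      have h1 : u⁻¹ * w₀ = cs.wordProd (ρ.eraseIdx (j - ω'.length)) := by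
        rw [← hωu, mul_inv_rev, mul_assoc, cs.inv_simple, hj']
        simp
      have hjρ : j - ω'.length < ρ.length := by
        rw [List.length_append] at hj
        omega
      have h3 := cs.length_wordProd_le (ρ.eraseIdx (j - ω'.length))
      rw [← h1, List.length_eraseIdx_of_lt hjρ] at h3
      have h4 : cs.length w₀ ≤ cs.length u + cs.length (u⁻¹ * w₀) := by
        have := cs.length_mul_le u (u⁻¹ * w₀)
        rwa [mul_inv_cancel_left] at this
      omega

theorem exists_longest (T : Set B) (hT : Finite (WP cs T)) :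
    ∃ w₀ ∈ WP cs T, w₀ * w₀ = 1 ∧
      (∀ u ∈ WP cs T, cs.length w₀ = cs.length u + cs.length (u⁻¹ * w₀)) ∧
      (∀ i ∈ T, ∃ i' ∈ T, cs.simple i * w₀ = w₀ * cs.simple i') := by
  obtain ⟨⟨w₀, h₀⟩, hmax'⟩ := Finite.exists_max (fun u : WP cs T => cs.length (u : W))
  have hmax : ∀ u ∈ WP cs T, cs.length u ≤ cs.length w₀ := fun u hu => hmax' ⟨u, hu⟩
  have hadd : ∀ u ∈ WP cs T, cs.length w₀ = cs.length u + cs.length (u⁻¹ * w₀) :=
    fun u hu => AR5_add cs h₀ hmax _ u hu rfl
  refine ⟨w₀, h₀, ?_, hadd, ?_⟩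
  · have h1 := hadd w₀⁻¹ ((WP cs T).inv_mem h₀)
    rw [cs.length_inv, inv_inv] at h1
    rw [← cs.length_eq_zero_iff]
    omega
  · intro i hi
    have hmem : cs.simple i * w₀ ∈ WP cs T := (WP cs T).mul_mem (simple_mem_WP cs hi) h₀
    have h1 := hadd _ hmem
    have hle := hmax _ hmem
    have h2 := cs.length_simple_mul w₀ i
    have h3 : cs.length ((cs.simple i * w₀)⁻¹ * w₀) = 1 := by omega
    obtain ⟨i', hi'⟩ := cs.length_eq_one_iff.mp h3
    have h4 : cs.simple i * w₀ = w₀ * cs.simple i' := by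
      rw [← hi', mul_inv_rev, cs.inv_simple]
      group
    refine ⟨i', ?_, h4⟩
    rw [← simple_mem_WP_iff cs, ← hi']
    exact (WP cs T).mul_mem ((WP cs T).inv_mem hmem) h₀

end OS
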