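import Mathlib
import Pool.Agent.Lib.MP_8fe54c_gt.ArtPara

/-!
# Artin groups, AR4: reduced alternating words, two descents, Matsumoto's theorem
-/

namespace OS

open CoxeterSystem

section mats

variable {B : Type*} {M : CoxeterMatrix B} {W : Type*} [Group W] (cs : CoxeterSystem M W)

theorem AR4_pow_ne {i j : B} {n m : ℕ} (h0 : 0 < n) (h : M i j = 0 ∨ n < M i j)
    (hm : (cs.simple i * cs.simple j) ^ (m + n) = (cs.simple i * cs.simple j) ^ m) : False := by
  rw [pow_add, mul_eq_left] at hm
  have h1 := orderOf_dvd_of_pow_eq_one hm
  rw [orderOf_simple_mul] at h1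
  rcases h with h | h
  · rw [h, zero_dvd_iff] at h1
    omega
  · have := Nat.le_of_dvd h0 h1
    omega

theorem AR4_nodup {i j : B} {k : ℕ} (h : M i j = 0 ∨ k ≤ M i j) :
    ((cs.leftInvSeq (alternatingWord i j (2 * k))).take k).Nodup := by
  rw [List.nodup_iff_injective_get]
  intro a b hab
  by_contra hne
  have ha : (a : ℕ) < k := by
    have := a.2
    simp only [List.length_take] at this
    omega
  have hb : (b : ℕ) < k := by
    have := b.2
    simp only [List.length_take] at this
    omega
  simp only [List.get_eq_getElem, List.getElem_take] at hab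
  rw [cs.getElem_leftInvSeq_alternatingWord i j k a (by omega),
    cs.getElem_leftInvSeq_alternatingWord i j k b (by omega)] at hab
  have key : ∀ c : ℕ, cs.wordProd (alternatingWord j i (2 * c + 1)) =
      cs.simple i * (cs.simple j * cs.simple i) ^ c := by
    intro c
    rw [cs.prod_alternatingWord_eq_mul_pow, if_neg (by simp [parity_simps])]
    congr 2
    omega
  rw [key, key, mul_right_inj] at hab
  have hM : M j i = M i j := M.symmetric j i
  rcases Nat.lt_or_ge (a : ℕ) (b : ℕ) with hlt | hge
  · refine AR4_pow_ne cs (i := j) (j := i) (n := b - a) (m := a) (by omega) ?_ ?_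
    · rw [hM]
      omega
    · rw [show (a : ℕ) + (b - a) = b by omega]
      exact hab.symm
  · have : (a : ℕ) ≠ b := fun h => hne (Fin.ext h)
    refine AR4_pow_ne cs (i := j) (j := i) (n := a - b) (m := b) (by omega) ?_ ?_
    · rw [hM]
      omega
    · rw [show (b : ℕ) + (a - b) = a by omega]
      exact hab

theorem isReduced_alternatingWord {i j : B} (hij : i ≠ j) {k : ℕ} (h : M i j = 0 ∨ k ≤ M i j) :
    cs.IsReduced (alternatingWord i j k) := by
  rcases Nat.eq_zero_or_pos k with rfl | hk
  · exact isReduced_of_nodup cs (by simp [alternatingWord])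
  by_cases he : Even k
  · have h1 : alternatingWord i j k = (alternatingWord i j (2 * k)).take k := by
      rw [listTake_alternatingWord i j k k (by omega), if_pos he]
    rw [h1]
    refine isReduced_of_nodup cs ?_
    rw [cs.leftInvSeq_take]
    exact AR4_nodup cs h
  · have h1 : alternatingWord i j k = (alternatingWord j i (2 * k)).take k := by
      rw [listTake_alternatingWord j i k k (by omega), if_neg he]
    rw [h1]
    refine isReduced_of_nodup cs ?_
    rw [cs.leftInvSeq_take]
    exact AR4_nodup cs (by rw [M.symmetric j i]; exact h)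

theorem AR4_alt {i j : B} (ω : List B) (hω : cs.IsReduced ω) (h : ∀ x ∈ ω, x = i ∨ x = j) :
    ω = alternatingWord i j ω.length ∨ ω = alternatingWord j i ω.length := by
  induction ω using List.reverseRecOn with
  | nil => exact Or.inl rfl
  | append_singleton ω x ih =>
    have hr : cs.IsReduced ω := by
      have := hω.take ω.length
      rwa [List.take_left'] at this
      rfl
    have hx := h x (by simp)
    have ih' := ih hr (fun y hy => h y (by simp [hy]))
    have hlast : ∀ y, ∀ ρ : List B, ω = ρ.concat y → x ≠ y := by
      rintro y ρ hρ rfl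
      have h1 : cs.wordProd (ω ++ [x]) = cs.wordProd ρ := by
        rw [cs.wordProd_append, hρ, cs.wordProd_concat, cs.wordProd_singleton,
          cs.simple_mul_simple_cancel_right]
      have h2 := cs.length_wordProd_le ρ
      have h3 : cs.length (cs.wordProd (ω ++ [x])) = (ω ++ [x]).length := hω
      rw [h1, hρ] at h3
      simp only [List.length_append, List.length_concat, List.length_singleton] at h3
      omega
    rw [List.length_append, List.length_singleton]
    rcases Nat.eq_zero_or_pos ω.length with h0 | h0
    · rw [List.length_eq_zero_iff] at h0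
      subst h0
      rcases hx with rfl | rfl
      · right
        rfl
      · left
        rfl
    · obtain ⟨n, hn⟩ : ∃ n, ω.length = n + 1 := ⟨ω.length - 1, by omega⟩
      rw [hn] at ih' ⊢
      rcases ih' with ih' | ih'
      · have := hlast j (alternatingWord j i n) ih'
        have hxi : x = i := hx.resolve_right this
        right
        rw [alternatingWord_succ, ← ih', hxi, List.concat_eq_append]
      · have := hlast i (alternatingWord i j n) ih'
        have hxj : x = j := hx.resolve_left this
        left
        rw [alternatingWord_succ, ← ih', hxj, List.concat_eq_append]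

theorem AR4_len {p q : B} (hpq : p ≠ q) {n : ℕ} {u : W}
    (hu : u = cs.wordProd (alternatingWord p q n)) (hr : cs.IsReduced (alternatingWord p q n))
    (hp : cs.IsLeftDescent u p) (hq : cs.IsLeftDescent u q) : M p q ≠ 0 ∧ n = M p q := by
  have h1 : ¬ cs.IsReduced (alternatingWord p q (n + 1)) := by
    intro h
    have h2 : cs.length (cs.wordProd (alternatingWord p q (n + 1))) = n + 1 := by
      rw [h.eq, length_alternatingWord]
    have h3 : cs.length (cs.wordProd (alternatingWord p q n)) = n := by
      rw [hr.eq, length_alternatingWord]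
    rw [alternatingWord_succ', cs.wordProd_cons, ← hu] at h2
    rw [← hu] at h3
    split_ifs at h2
    · have : cs.length (cs.simple q * u) < cs.length u := hq
      omega
    · have : cs.length (cs.simple p * u) < cs.length u := hp
      omega
  have h2 : ¬ (M p q = 0 ∨ n + 1 ≤ M p q) := fun h => h1 (isReduced_alternatingWord cs hpq h)
  push Not at h2
  refine ⟨h2.1, ?_⟩
  have h3 : ¬ (n > M p q) := fun h => cs.not_isReduced_alternatingWord p q h2.1 h hr
  omega

theorem both_descents {w : W} {i j : B} (hij : i ≠ j) (hi : cs.IsLeftDescent w i)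
    (hj : cs.IsLeftDescent w j) :
    M i j ≠ 0 ∧ ∃ w', w = cs.wordProd (alternatingWord i j (M i j)) * w' ∧
      cs.length w = M i j + cs.length w' := by
  obtain ⟨u, hu, v, hv, rfl⟩ := exists_factor cs ({i, j} : Set B) w
  have hl := length_mul_of_LRed cs hu hv
  have hd : ∀ x, x ∈ ({i, j} : Set B) → cs.IsLeftDescent (u * v) x → cs.IsLeftDescent u x := by
    intro x hx h
    have h1 : cs.length (cs.simple x * (u * v)) < cs.length (u * v) := h
    have h2 := length_mul_of_LRed cs ((WP cs _).mul_mem (simple_mem_WP cs hx) hu) hv
    rw [← mul_assoc, h2, hl] at h1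
    exact Nat.lt_of_add_lt_add_right h1
  have hi' := hd i (by simp) hi
  have hj' := hd j (by simp) hj
  obtain ⟨ω, hω, hr, rfl⟩ := exists_word_of_mem_WP cs hu
  rcases AR4_alt cs ω hr (fun x hx => by simpa using hω x hx) with h | h
  · rw [h] at hr
    obtain ⟨h1, h2⟩ := AR4_len cs hij (congrArg cs.wordProd h) hr hi' hj'
    rw [h2] at h hr
    refine ⟨h1, v, by rw [← h], ?_⟩
    rw [hl, h, hr.eq, length_alternatingWord]
  · rw [h] at hr
    obtain ⟨h1, h2⟩ := AR4_len cs hij.symm (congrArg cs.wordProd h) hr hj' hi'
    rw [h2] at h hr
    have hM : M j i = M i j := M.symmetric j i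
    have hb : cs.wordProd (alternatingWord i j (M i j)) = cs.wordProd ω := by
      rw [h]
      exact cs.wordProd_braidWord_eq i j
    refine ⟨hM ▸ h1, v, by rw [hb], ?_⟩
    rw [hl, h, hr.eq, length_alternatingWord, hM]

theorem AR4_reduced_append {i j : B} {w w' : W} {τ : List B} (m : ℕ)
    (hw : w = cs.wordProd (alternatingWord i j m) * w') (hl : cs.length w = m + cs.length w')
    (hτ : cs.IsReduced τ) (hτ' : w' = cs.wordProd τ) :
    cs.IsReduced (alternatingWord i j m ++ τ) ∧
      cs.wordProd (alternatingWord i j m ++ τ) = w := by
  have h1 : cs.wordProd (alternatingWord i j m ++ τ) = w := by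
    rw [cs.wordProd_append, hw, hτ']
  refine ⟨?_, h1⟩
  rw [CoxeterSystem.IsReduced, h1, hl, hτ', hτ.eq, List.length_append, length_alternatingWord]

theorem AR4_matsumoto {G : Type*} [Monoid G] (f : B → G) (hf : ∀ i j, Braid M f i j) (n : ℕ) :
    ∀ ω ω' : List B, ω.length = n → cs.IsReduced ω → cs.IsReduced ω' →
      cs.wordProd ω = cs.wordProd ω' → wp f ω = wp f ω' := by
  induction n using Nat.strong_induction_on with
  | _ n ih =>
    have head : ∀ (x : B) (ρ ρ' : List B), (x :: ρ).length = n → cs.IsReduced (x :: ρ) →
        cs.IsReduced (x :: ρ') → cs.wordProd (x :: ρ) = cs.wordProd (x :: ρ') →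
        wp f (x :: ρ) = wp f (x :: ρ') := by
      intro x ρ ρ' hn h h' he
      have hr : cs.IsReduced ρ := by simpa using h.drop 1
      have hr' : cs.IsReduced ρ' := by simpa using h'.drop 1
      rw [cs.wordProd_cons, cs.wordProd_cons, mul_right_inj] at he
      rw [wp_cons, wp_cons, ih ρ.length (by rw [← hn]; simp) ρ ρ' rfl hr hr' he]
    intro ω ω' hn h h' he
    have hlen : ω'.length = ω.length := by rw [← h.eq, ← h'.eq, he]
    cases ω with
    | nil =>
      simp only [List.length_nil, List.length_eq_zero_iff] at hlen
      rw [hlen]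
    | cons i ρ =>
      cases ω' with
      | nil => simp at hlen
      | cons i' ρ' =>
        by_cases hii : i = i'
        · subst hii
          exact head i ρ ρ' hn h h' he
        · have di : ∀ (x : B) (σ : List B), cs.IsReduced (x :: σ) →
              cs.IsLeftDescent (cs.wordProd (x :: σ)) x := by
            intro x σ hx
            have h1 : cs.length (cs.wordProd (x :: σ)) = (x :: σ).length := hx
            have h2 := cs.length_wordProd_le σ
            rw [CoxeterSystem.IsLeftDescent, h1, cs.wordProd_cons,
              cs.simple_mul_simple_cancel_left, List.length_cons]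
            omega
          have d1 := di i ρ h
          have d2 := di i' ρ' h'
          rw [← he] at d2
          obtain ⟨hM, w', hw, hl⟩ := both_descents cs hii d1 d2
          obtain ⟨τ, hτ, hτ'⟩ := cs.exists_isReduced w'
          have hb : cs.wordProd (alternatingWord i i' (M i i')) =
              cs.wordProd (alternatingWord i' i (M i i')) := by
            have := cs.wordProd_braidWord_eq i i'
            rw [braidWord, braidWord, M.symmetric i' i] at this
            exact this
          obtain ⟨a1, a2⟩ := AR4_reduced_append cs (M i i') hw hl hτ hτ'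
          obtain ⟨b1, b2⟩ := AR4_reduced_append cs (M i i') (hb ▸ hw) hl hτ hτ'
          have hwp : wp f (alternatingWord i i' (M i i') ++ τ) =
              wp f (alternatingWord i' i (M i i') ++ τ) := by
            rw [wp_append, wp_append]
            congr 1
            exact hf i i'
          obtain ⟨m, hm⟩ : ∃ m, M i i' = m + 1 := ⟨M i i' - 1, by omega⟩
          rw [hm] at a1 a2 b1 b2 hwp
          rw [alternatingWord_succ' i i', List.cons_append] at a1 a2 hwp
          rw [alternatingWord_succ' i' i, List.cons_append] at b1 b2 hwp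
          have hn' : (i' :: ρ').length = n := by rw [hlen, hn]
          by_cases hev : Even m
          · rw [if_pos hev] at a1 a2 b1 b2 hwp
            rw [if_pos hev] at hwp
            rw [head i ρ _ hn h b1 b2.symm, head i' ρ' _ hn' h' a1 (he ▸ a2.symm), hwp]
          · rw [if_neg hev] at a1 a2 b1 b2 hwp
            rw [if_neg hev] at hwp
            rw [head i ρ _ hn h a1 a2.symm, head i' ρ' _ hn' h' b1 (he ▸ b2.symm), hwp]

/-- Matsumoto's theorem -/
theorem matsumoto {G : Type*} [Monoid G] (f : B → G) (hf : ∀ i j, Braid M f i j)
    {ω ω' : List B} (hω : cs.IsReduced ω) (hω' : cs.IsReduced ω')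
    (h : cs.wordProd ω = cs.wordProd ω') : wp f ω = wp f ω' :=
  AR4_matsumoto cs f hf ω.length ω ω' rfl hω hω' h

end mats

end OS
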