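import Mathlib
import Pool.Agent.Lib.MP_8fe54c_gt.ArtDefs

/-!
# The counting cocycle of the Artin group
-/

namespace OS

open CoxeterSystem

variable {B : Type*} {M : CoxeterMatrix B} {W : Type*} [Group W] (cs : CoxeterSystem M W)

open Classical in
/-- `c a t` counts (with signs) the crossings of the wall of `t` by `a` -/
structure IsCount (c : Artin M → W → ℤ) : Prop where
  mul : ∀ a b t, c (a * b) t = c a t + c b ((qA cs a)⁻¹ * t * qA cs a)
  word : ∀ (ω : List B) (t : W), c (wp ar ω) t = ((cs.leftInvSeq ω).count t : ℕ)

theorem AR7_getElem (i j : B) (m k : ℕ) (hk : k < m) :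
    (cs.leftInvSeq (alternatingWord i j m))[k]'(by simpa using hk) =
      if Even m then cs.wordProd (alternatingWord j i (2 * k + 1))
      else cs.wordProd (alternatingWord i j (2 * k + 1)) := by
  by_cases hm : Even m
  · have h1 : alternatingWord i j m = List.take m (alternatingWord i j (2 * m)) := by
      rw [listTake_alternatingWord i j m m (by omega), if_pos hm]
    rw [if_pos hm]
    have h2 : cs.leftInvSeq (alternatingWord i j m) =
        (cs.leftInvSeq (alternatingWord i j (2 * m))).take m := by
      rw [h1, cs.leftInvSeq_take]
    rw [← cs.getElem_leftInvSeq_alternatingWord i j m k (by omega)]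
    simp only [h2, List.getElem_take]
  · have h1 : alternatingWord i j m = List.take m (alternatingWord j i (2 * m)) := by
      rw [listTake_alternatingWord j i m m (by omega), if_neg hm]
    rw [if_neg hm]
    have h2 : cs.leftInvSeq (alternatingWord i j m) =
        (cs.leftInvSeq (alternatingWord j i (2 * m))).take m := by
      rw [h1, cs.leftInvSeq_take]
    rw [← cs.getElem_leftInvSeq_alternatingWord j i m k (by omega)]
    simp only [h2, List.getElem_take]

theorem AR7_rev (i j : B) :
    cs.leftInvSeq (alternatingWord i j (M i j)) =
      (cs.leftInvSeq (alternatingWord j i (M i j))).reverse := by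
  apply List.ext_getElem
  · simp
  · intro k hk hk'
    simp only [length_leftInvSeq, length_alternatingWord] at hk
    rw [List.getElem_reverse, AR7_getElem cs i j (M i j) k hk]
    simp only [length_leftInvSeq, length_alternatingWord]
    rw [AR7_getElem cs j i (M i j) (M i j - 1 - k) (by omega)]
    have e : 2 * (M i j - 1 - k) + 1 = M i j * 2 - (2 * k + 1) := by omega
    split_ifs with hm
    · rw [cs.prod_alternatingWord_eq_prod_alternatingWord_sub j i (2 * k + 1)
        (by rw [M.symmetric j i]; omega), M.symmetric j i, e]
    · rw [cs.prod_alternatingWord_eq_prod_alternatingWord_sub i j (2 * k + 1) (by omega), e]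

/-- the action of `W` on functions on `W`, by conjugation -/
def AR7_phi : W →* MulAut (W → Multiplicative ℤ) where
  toFun w :=
    { toFun := fun f t => f (w⁻¹ * t * w)
      invFun := fun f t => f (w * t * w⁻¹)
      left_inv := fun f => by funext t; simp [mul_assoc]
      right_inv := fun f => by funext t; simp [mul_assoc]
      map_mul' := fun f g => rfl }
  map_one' := by ext f t; simp
  map_mul' := fun w w' => by
    ext f t
    simp [mul_assoc]

open Classical in
/-- the images of the generators -/
noncomputable def AR7_gen (i : B) : (W → Multiplicative ℤ) ⋊[AR7_phi (W := W)] W :=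
  ⟨fun t => Multiplicative.ofAdd (if t = cs.simple i then 1 else 0), cs.simple i⟩

theorem AR7_wp_right (ω : List B) : (wp (AR7_gen cs) ω).right = cs.wordProd ω := by
  induction ω with
  | nil => simp
  | cons i ω ih => rw [wp_cons, SemidirectProduct.mul_right, ih, cs.wordProd_cons]; rfl

open Classical in
theorem AR7_wp_left (ω : List B) (t : W) :
    (wp (AR7_gen cs) ω).left t = Multiplicative.ofAdd (((cs.leftInvSeq ω).count t : ℕ) : ℤ) := by
  induction ω generalizing t with
  | nil => simp
  | cons i ω ih =>
    rw [wp_cons, SemidirectProduct.mul_left, Pi.mul_apply]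
    have h1 : (AR7_phi (AR7_gen cs i).right) (wp (AR7_gen cs) ω).left t
        = (wp (AR7_gen cs) ω).left ((cs.simple i)⁻¹ * t * cs.simple i) := rfl
    rw [h1, ih]
    have h2 : (AR7_gen cs i).left t =
        Multiplicative.ofAdd (if t = cs.simple i then (1 : ℤ) else 0) := rfl
    rw [h2, ← ofAdd_add]
    congr 1
    rw [CoxeterSystem.leftInvSeq, List.count_cons]
    have h3 : t = (MulAut.conj (cs.simple i)) ((cs.simple i)⁻¹ * t * cs.simple i) := by
      simp [mul_assoc]
    have h4 : List.count t (List.map (⇑(MulAut.conj (cs.simple i))) (cs.leftInvSeq ω)) =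
        List.count ((cs.simple i)⁻¹ * t * cs.simple i) (cs.leftInvSeq ω) := by
      conv_lhs => rw [h3]
      exact List.count_map_of_injective _ _ (MulAut.conj (cs.simple i)).injective _
    rw [h4]
    by_cases ht : t = cs.simple i
    · simp [ht, add_comm]
    · have : ¬ cs.simple i = t := fun h => ht h.symm
      simp [ht, this]

theorem AR7_braid (i j : B) : Braid M (AR7_gen cs) i j := by
  classical
  unfold Braid
  apply SemidirectProduct.ext
  · funext t
    rw [AR7_wp_left, AR7_wp_left, AR7_rev cs i j, List.count_reverse]
  · rw [AR7_wp_right, AR7_wp_right]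
    have h := cs.wordProd_braidWord_eq i j
    rw [braidWord, braidWord, M.symmetric j i] at h
    exact h

theorem exists_count : ∃ c : Artin M → W → ℤ, IsCount cs c := by
  classical
  have hq : ∀ a : Artin M, ((arLift (AR7_gen cs) (AR7_braid cs)) a).right = qA cs a := by
    intro a
    have : (SemidirectProduct.rightHom (φ := AR7_phi (W := W))).comp
        (arLift (AR7_gen cs) (AR7_braid cs)) = qA cs := by
      apply artin_hom_ext
      intro i
      simp [AR7_gen]
    exact DFunLike.congr_fun this a
  refine ⟨fun a t => Multiplicative.toAdd (((arLift (AR7_gen cs) (AR7_braid cs)) a).left t), ?_, ?_⟩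
  · intro a b t
    rw [map_mul, SemidirectProduct.mul_left, Pi.mul_apply, toAdd_mul, hq]
    rfl
  · intro ω t
    have : (arLift (AR7_gen cs) (AR7_braid cs)) (wp ar ω) = wp (AR7_gen cs) ω := by
      rw [map_wp]
      simp only [arLift_ar]
    rw [this, AR7_wp_left]
    rfl

end OS
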