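import Mathlib
import Pool.Agent.Lib.MP_8fe54c_gt.ArtMats
import Pool.Agent.Lib.MP_8fe54c_gt.ArtLong
import Pool.Agent.Lib.MP_8fe54c_gt.ArtPsi

/-!
# Artin groups, AR8: the central element of a spherical Artin group
-/

namespace OS

open CoxeterSystem

section delta

variable {B : Type*} {M : CoxeterMatrix B} {W : Type*} [Group W] (cs : CoxeterSystem M W)

theorem AR8_wp_mem {T : Set B} {ω : List B} (h : ∀ i ∈ ω, i ∈ T) :
    (wp ar ω : Artin M) ∈ AP M T := by
  induction ω with
  | nil => exact (AP M T).one_mem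
  | cons i ω ih =>
    rw [wp_cons]
    exact (AP M T).mul_mem (ar_mem_AP (h i (by simp))) (ih (fun j hj => h j (by simp [hj])))

theorem AR8_lis_mem {T : Set B} {ω : List B} (h : ∀ i ∈ ω, i ∈ T) {t : W}
    (ht : t ∈ cs.leftInvSeq ω) : t ∈ WP cs T := by
  rw [List.mem_iff_getElem] at ht
  obtain ⟨k, hk, hk'⟩ := ht
  have h1 := cs.getD_leftInvSeq_mul_wordProd ω k
  rw [List.getD_eq_getElem _ _ hk, hk'] at h1
  have h2 : t = cs.wordProd (ω.eraseIdx k) * (cs.wordProd ω)⁻¹ := by
    rw [← h1, mul_inv_cancel_right]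
  rw [h2]
  exact (WP cs T).mul_mem (wordProd_mem_WP cs (fun i hi => h i (List.mem_of_mem_eraseIdx hi)))
    ((WP cs T).inv_mem (wordProd_mem_WP cs h))

open Classical in
theorem AR8_count {T : Set B} {w₀ : W}
    (hlen : ∀ u ∈ WP cs T, cs.length w₀ = cs.length u + cs.length (u⁻¹ * w₀)) {ω : List B}
    (hωT : ∀ i ∈ ω, i ∈ T) (hωr : cs.IsReduced ω) (hωp : cs.wordProd ω = w₀) (t : W) :
    (cs.leftInvSeq ω).count t = if cs.IsReflection t ∧ t ∈ WP cs T then 1 else 0 := by
  have hiff : t ∈ cs.leftInvSeq ω ↔ cs.IsReflection t ∧ t ∈ WP cs T := by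
    constructor
    · intro ht
      exact ⟨cs.isReflection_of_mem_leftInvSeq ω ht, AR8_lis_mem cs hωT ht⟩
    · rintro ⟨hr, ht⟩
      refine mem_lis_of_isLeftInversion cs ⟨hr, ?_⟩
      rw [hωp]
      have h1 := hlen t ht
      rw [hr.inv] at h1
      obtain ⟨k, hk⟩ := hr.odd_length
      omega
  split_ifs with h
  · exact List.count_eq_one_of_mem (hωr.nodup_leftInvSeq) (hiff.mpr h)
  · exact List.count_eq_zero_of_not_mem (fun h' => h (hiff.mp h'))

theorem AR8_comm {T : Set B} {w₀ : W}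
    (hlen : ∀ u ∈ WP cs T, cs.length w₀ = cs.length u + cs.length (u⁻¹ * w₀)) {ω : List B}
    (hωr : cs.IsReduced ω) (hωp : cs.wordProd ω = w₀) {i i' : B} (hi : i ∈ T)
    (h : cs.simple i * w₀ = w₀ * cs.simple i') :
    (ar i : Artin M) * wp ar ω = wp ar ω * ar i' := by
  obtain ⟨ρ, hρ, hρ'⟩ := cs.exists_isReduced (cs.simple i * w₀)
  have h1 := hlen _ (simple_mem_WP cs hi)
  rw [cs.inv_simple, cs.length_simple, hρ', hρ.eq] at h1
  have p1 : cs.wordProd (i :: ρ) = w₀ := by
    rw [cs.wordProd_cons, ← hρ', cs.simple_mul_simple_cancel_left]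
  have p2 : cs.wordProd (ρ ++ [i']) = w₀ := by
    rw [cs.wordProd_append, ← hρ', cs.wordProd_singleton, h, cs.simple_mul_simple_cancel_right]
  have r1 : cs.IsReduced (i :: ρ) := by
    rw [CoxeterSystem.IsReduced, p1, h1, List.length_cons, add_comm]
  have r2 : cs.IsReduced (ρ ++ [i']) := by
    rw [CoxeterSystem.IsReduced, p2, h1, List.length_append, List.length_singleton, add_comm]
  have m1 : (wp ar ω : Artin M) = ar i * wp ar ρ := by
    rw [← wp_cons]
    exact matsumoto cs ar ar_braid hωr r1 (by rw [hωp, p1])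
  have m2 : (wp ar ω : Artin M) = wp ar ρ * ar i' := by
    rw [← wp_singleton (ar : B → Artin M) i', ← wp_append]
    exact matsumoto cs ar ar_braid hωr r2 (by rw [hωp, p2])
  calc (ar i : Artin M) * wp ar ω = ar i * (wp ar ρ * ar i') := by rw [m2]
    _ = (ar i * wp ar ρ) * ar i' := by rw [mul_assoc]
    _ = wp ar ω * ar i' := by rw [← m1]

open Classical in
/-- the element `Δ_T ^ 2` -/
theorem exists_delta {c : Artin M → W → ℤ} (hc : IsCount cs c) (T : Set B)
    (hT : Finite (WP cs T)) :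
    ∃ z ∈ AP M T, qA cs z = 1 ∧ (∀ a ∈ AP M T, Commute z a) ∧
      ∀ t, c z t = if cs.IsReflection t ∧ t ∈ WP cs T then 2 else 0 := by
  obtain ⟨w₀, hw, hsq, hlen, hconj⟩ := exists_longest cs T hT
  obtain ⟨ω, hωT, hωr, hωp⟩ := exists_word_of_mem_WP cs hw
  obtain ⟨D, hD⟩ : ∃ D : Artin M, D = wp ar ω := ⟨_, rfl⟩
  have hDT : D ∈ AP M T := by rw [hD]; exact AR8_wp_mem hωT
  have hq : qA cs D = w₀ := by rw [hD, qA_wp, hωp]
  have hcD : ∀ t, c D t = if cs.IsReflection t ∧ t ∈ WP cs T then 1 else 0 := by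
    intro t
    rw [hD, hc.word, AR8_count cs hlen hωT hωr hωp t]
    split_ifs <;> simp
  have hcomm : ∀ i ∈ T, Commute (D * D) (ar i) := by
    intro i hi
    obtain ⟨i', hi', h⟩ := hconj i hi
    have h' : cs.simple i' * w₀ = w₀ * cs.simple i := by
      have : w₀ * (cs.simple i * w₀) * w₀ = w₀ * (w₀ * cs.simple i') * w₀ := by rw [h]
      rw [← mul_assoc w₀ w₀, hsq, one_mul, mul_assoc, mul_assoc, hsq, mul_one] at this
      exact this.symm
    have e1 := AR8_comm cs hlen hωr hωp hi h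
    have e2 := AR8_comm cs hlen hωr hωp hi' h'
    rw [← hD] at e1 e2
    have : D * D * ar i = ar i * (D * D) := by
      rw [mul_assoc, ← e2, ← mul_assoc, ← e1, mul_assoc]
    exact this
  refine ⟨D * D, (AP M T).mul_mem hDT hDT, by rw [map_mul, hq, hsq], ?_, ?_⟩
  · have hle : AP M T ≤ Subgroup.centralizer {D * D} := by
      rw [AP, Subgroup.closure_le]
      rintro _ ⟨i, hi, rfl⟩
      rw [SetLike.mem_coe, Subgroup.mem_centralizer_singleton_iff]
      exact (hcomm i hi).symm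
    intro a ha
    have := hle ha
    rw [Subgroup.mem_centralizer_singleton_iff] at this
    exact this.symm
  · intro t
    have hr : cs.IsReflection ((qA cs D)⁻¹ * t * qA cs D) ↔ cs.IsReflection t := by
      have := cs.isReflection_conj_iff (qA cs D)⁻¹ t
      rwa [inv_inv] at this
    have hm : (qA cs D)⁻¹ * t * qA cs D ∈ WP cs T ↔ t ∈ WP cs T := by
      rw [hq]
      constructor
      · intro h
        have h2 := (WP cs T).mul_mem ((WP cs T).mul_mem hw h) ((WP cs T).inv_mem hw)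
        have h3 : w₀ * (w₀⁻¹ * t * w₀) * w₀⁻¹ = t := by group
        rwa [h3] at h2
      · intro h
        exact (WP cs T).mul_mem ((WP cs T).mul_mem ((WP cs T).inv_mem hw) h) hw
    rw [hc.mul, hcD, hcD]
    simp only [hr, hm]
    split_ifs <;> norm_num

end delta

end OS
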