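import Mathlib
import Pool.Agent.Lib.MP_8fe54c_gt.ArtMats

/-!
# ARTIN AR6: reflections of full support
-/

namespace OS

open CoxeterSystem

variable {B : Type*} {M : CoxeterMatrix B} {W : Type*} [Group W] (cs : CoxeterSystem M W)

theorem AR6_mem {T : Set B} {ω : List B} (hω : ∀ i ∈ ω, i ∈ T) (l : ℕ) :
    cs.wordProd (ω.eraseIdx l) ∈ WP cs T :=
  wordProd_mem_WP cs (fun i hi => hω i ((List.eraseIdx_sublist ω l).subset hi))

/-- a letter which does not occur is not a left descent -/
theorem AR6_notLeft {ω : List B} {j : B} (hj : j ∉ ω) : ¬ cs.IsLeftDescent (cs.wordProd ω) j := by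
  intro h
  obtain ⟨l, _, e⟩ := exchange_left cs h
  have h1 : cs.simple j ∈ WP cs {x | x ∈ ω} := by
    have h2 : cs.simple j = cs.wordProd (ω.eraseIdx l) * (cs.wordProd ω)⁻¹ := by
      rw [← e]; group
    rw [h2]
    exact (WP cs _).mul_mem (AR6_mem cs (fun i hi => hi) l)
      ((WP cs _).inv_mem (wordProd_mem_WP cs (fun i hi => hi)))
  exact hj ((simple_mem_WP_iff cs).mp h1)

theorem AR6_mem_alt (a b : B) (m : ℕ) (hm : 2 ≤ m) :
    a ∈ alternatingWord a b m ∧ b ∈ alternatingWord a b m := by
  obtain ⟨m, rfl⟩ : ∃ k, m = k + 2 := ⟨m - 2, by omega⟩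
  rw [alternatingWord_succ, alternatingWord_succ]
  simp

theorem commute_letters {ω : List B} (hω : cs.IsReduced ω) {j : B} (hj : j ∉ ω)
    (h : Commute (cs.simple j) (cs.wordProd ω)) : ∀ i ∈ ω, M i j = 2 := by
  induction ω with
  | nil => intro i hi; simp at hi
  | cons i ρ ih =>
    have hij : i ≠ j := fun e => hj (by rw [e]; simp)
    set t := cs.wordProd (i :: ρ) with ht
    have hlt : cs.length (cs.simple j * t) = cs.length t + 1 :=
      cs.not_isLeftDescent_iff.mp (AR6_notLeft cs hj)
    have hlen : cs.length t = ρ.length + 1 := hω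
    have hdj : cs.IsLeftDescent (cs.simple j * t) j := by
      unfold CoxeterSystem.IsLeftDescent
      rw [cs.simple_mul_simple_cancel_left, hlt]
      omega
    have hdi : cs.IsLeftDescent (cs.simple j * t) i := by
      unfold CoxeterSystem.IsLeftDescent
      rw [hlt, h.eq, ht, cs.wordProd_cons, mul_assoc, cs.simple_mul_simple_cancel_left]
      have h1 := cs.length_mul_le (cs.wordProd ρ) (cs.simple j)
      have h2 := cs.length_wordProd_le ρ
      rw [cs.length_simple] at h1
      rw [← cs.wordProd_cons, ← ht, hlen]
      omega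
    obtain ⟨hM0, w', hw', hl'⟩ := both_descents cs hij hdi hdj
    obtain ⟨m', hm'⟩ : ∃ m', M i j = m' + 1 := ⟨M i j - 1, by omega⟩
    obtain ⟨ω', hω', e'⟩ := cs.exists_isReduced w'
    have key : ∃ a b : B, (a = j ∨ b = j) ∧
        t = cs.wordProd (alternatingWord a b m') * w' := by
      by_cases hev : Even m'
      · refine ⟨i, j, Or.inr rfl, ?_⟩
        rw [hm', alternatingWord_succ', if_pos hev, cs.wordProd_cons, mul_assoc] at hw'
        exact mul_left_cancel hw'
      · refine ⟨j, i, Or.inl rfl, ?_⟩
        have h3 := cs.wordProd_braidWord_eq i j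
        rw [braidWord, braidWord, M.symmetric j i] at h3
        rw [h3, hm', alternatingWord_succ', if_neg hev, cs.wordProd_cons, mul_assoc] at hw'
        exact mul_left_cancel hw'
    obtain ⟨a, b, hab, hte⟩ := key
    have hm1 : m' < 2 := by
      by_contra hm2
      push Not at hm2
      have hred : cs.IsReduced (alternatingWord a b m' ++ ω') := by
        unfold CoxeterSystem.IsReduced
        rw [cs.wordProd_append, ← e', ← hte, List.length_append, length_alternatingWord]
        have h5 : cs.length w' = ω'.length := by rw [e']; exact hω'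
        omega
      have h6 := letters_mem cs (T := {x | x ∈ i :: ρ}) hred (by
        rw [cs.wordProd_append, ← e', ← hte]
        exact wordProd_mem_WP cs (fun x hx => hx))
      have h7 := AR6_mem_alt a b m' hm2
      rcases hab with rfl | rfl
      · exact hj (h6 _ (List.mem_append_left _ h7.1))
      · exact hj (h6 _ (List.mem_append_left _ h7.2))
    have hM1 : M i j ≠ 1 := M.off_diagonal i j hij
    have hM2 : M i j = 2 := by omega
    have hc : Commute (cs.simple j) (cs.simple i) := by
      have h8 := cs.simple_mul_simple_pow i j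
      rw [hM2, pow_two] at h8
      have h9 : cs.simple i * cs.simple j = (cs.simple i * cs.simple j)⁻¹ :=
        eq_inv_of_mul_eq_one_left h8
      rw [mul_inv_rev, cs.inv_simple, cs.inv_simple] at h9
      exact h9.symm
    have hc' : Commute (cs.simple j) (cs.wordProd ρ) := by
      have h10 : cs.wordProd ρ = cs.simple i * t := by
        rw [ht, cs.wordProd_cons, cs.simple_mul_simple_cancel_left]
      rw [h10]
      exact hc.mul_right h
    have hρ : cs.IsReduced ρ := by
      have := hω.drop 1
      simpa using this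
    intro x hx
    rcases List.mem_cons.mp hx with rfl | hx
    · exact hM2
    · exact ih hρ (fun h => hj (List.mem_cons_of_mem _ h)) hc' x hx

theorem AR6_grow {T : Finset B} (hT : Irr M T) (n : ℕ) (hn : n + 1 ≤ T.card) :
    ∃ (U : Finset B) (ω : List B), U ⊆ T ∧ U.card = n + 1 ∧ cs.IsReduced ω ∧
      cs.IsReflection (cs.wordProd ω) ∧ ∀ x, x ∈ ω ↔ x ∈ U := by
  classical
  induction n with
  | zero =>
    obtain ⟨i, hi⟩ := hT.1
    refine ⟨{i}, [i], by simpa using hi, by simp, ?_, ?_, by simp⟩
    · unfold CoxeterSystem.IsReduced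
      simp
    · rw [cs.wordProd_singleton]
      exact cs.isReflection_simple i
  | succ n ih =>
    obtain ⟨U, ω, hU, hc, hred, hrefl, hmem⟩ := ih (by omega)
    have hne : U ≠ T := by
      rintro rfl
      omega
    obtain ⟨i, hi, j, hjT, hjU, hij⟩ := hT.2 U hU (Finset.card_pos.mp (by omega)) hne
    have hj : j ∉ ω := fun h => hjU ((hmem j).mp h)
    have h1 : cs.length (cs.simple j * cs.wordProd ω) = cs.length (cs.wordProd ω) + 1 :=
      cs.not_isLeftDescent_iff.mp (AR6_notLeft cs hj)
    have hlen : cs.length (cs.wordProd ω) = ω.length := hred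
    have h2 : ¬ cs.IsRightDescent (cs.wordProd (j :: ω)) j := by
      intro h
      obtain ⟨l, hl, e⟩ := exchange_right cs h
      rcases l with _ | l
      · rw [List.eraseIdx_zero, List.tail_cons, cs.wordProd_cons] at e
        have hcm : Commute (cs.simple j) (cs.wordProd ω) := by
          have h3 := congrArg (fun x => x * cs.simple j) e
          simp only [mul_assoc, cs.simple_mul_simple_self, mul_one] at h3
          exact h3
        exact hij (commute_letters cs hred hj hcm i ((hmem i).mpr hi))
      · rw [List.eraseIdx_cons_succ, cs.wordProd_cons, cs.wordProd_cons, mul_assoc] at e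
        have e2 := mul_left_cancel e
        have h4 : cs.simple j ∈ WP cs {x | x ∈ ω} := by
          have h5 : cs.simple j = (cs.wordProd ω)⁻¹ * cs.wordProd (ω.eraseIdx l) := by
            rw [← e2]; group
          rw [h5]
          exact (WP cs _).mul_mem ((WP cs _).inv_mem (wordProd_mem_WP cs (fun i hi => hi)))
            (AR6_mem cs (fun i hi => hi) l)
        exact hj ((simple_mem_WP_iff cs).mp h4)
    have h3 := cs.not_isRightDescent_iff.mp h2
    refine ⟨insert j U, j :: ω ++ [j], ?_, ?_, ?_, ?_, ?_⟩
    · exact Finset.insert_subset hjT hU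
    · rw [Finset.card_insert_of_notMem hjU, hc]
    · unfold CoxeterSystem.IsReduced
      rw [cs.wordProd_append, cs.wordProd_singleton, h3, cs.wordProd_cons, h1, hlen]
      simp
    · have h4 := hrefl.conj (cs.simple j)
      rw [cs.inv_simple] at h4
      rw [cs.wordProd_append, cs.wordProd_singleton, cs.wordProd_cons]
      exact h4
    · intro x
      simp only [List.cons_append, List.mem_cons, List.mem_append, List.mem_singleton,
        Finset.mem_insert, hmem]
      tauto

theorem exists_full_reflection {T : Finset B} (hT : Irr M T) :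
    ∃ t, cs.IsReflection t ∧ ∀ T' : Finset B, t ∈ WP cs (T' : Set B) ↔ T ⊆ T' := by
  have hpos : 0 < T.card := Finset.card_pos.mpr hT.1
  obtain ⟨U, ω, hU, hc, hred, hrefl, hmem⟩ := AR6_grow cs hT (T.card - 1) (by omega)
  obtain rfl : U = T := Finset.eq_of_subset_of_card_le hU (by omega)
  refine ⟨cs.wordProd ω, hrefl, fun T' => ⟨fun h x hx => ?_, fun h => ?_⟩⟩
  · exact letters_mem cs hred h x ((hmem x).mpr hx)
  · exact wordProd_mem_WP cs (fun x hx => h ((hmem x).mp hx))

end OS
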