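import Mathlib
import Pool.Agent.Lib.MP_8fe54c_gt.ArtSupp
import Pool.Agent.Lib.MP_8fe54c_gt.ArtPsi
import Pool.Agent.Lib.MP_8fe54c_gt.ArtDelta

/-!
# ARTIN AR9: diagonal classes in the abelianised pure Artin group
-/

namespace OS

open CoxeterSystem

section nest

variable {B : Type*} (M : CoxeterMatrix B)

/-- inversion over a finite poset -/
theorem AR9_inv {V H : Type*} [PartialOrder V] [Fintype V] [AddCommGroup H] [DecidableLT V]
    (x : V → H) : ∃ y : V → H, ∀ T, x T = y T + ∑ T' ∈ Finset.univ.filter (fun T' => T < T'), y T' := by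
  classical
  have wf : WellFounded (fun a b : V => b < a) := wellFounded_gt
  let F : (T : V) → ((T' : V) → T < T' → H) → H := fun T ih =>
    x T - ∑ T' ∈ (Finset.univ.filter (fun T' => T < T')).attach,
      ih T'.1 (Finset.mem_filter.mp T'.2).2
  refine ⟨wf.fix F, fun T => ?_⟩
  rw [wf.fix_eq F T]
  simp only [F]
  rw [Finset.sum_attach (Finset.univ.filter (fun T' => T < T')) (fun T' => wf.fix F T')]
  abel

theorem AR9_commute {i j : B} (h : M i j = 2) : Commute (ar i : Artin M) (ar j) := by
  have h1 := ar_braid (M := M) i j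
  unfold Braid at h1
  rw [h] at h1
  simp only [alternatingWord, List.concat_eq_append, List.nil_append, List.singleton_append,
    wp_cons, wp_nil, mul_one] at h1
  exact h1

theorem AR9_commute_AP {T T' : Set B} (h : ∀ i ∈ T, ∀ j ∈ T', M i j = 2) {a b : Artin M}
    (ha : a ∈ AP M T) (hb : b ∈ AP M T') : Commute a b := by
  have h1 : ∀ j ∈ T', ∀ a ∈ AP M T, Commute a (ar j) := by
    intro j hj a ha
    induction ha using Subgroup.closure_induction with
    | mem x hx =>
      obtain ⟨i, hi, rfl⟩ := hx
      exact AR9_commute M (h i hi j hj)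
    | one => exact Commute.one_left _
    | mul x y _ _ hx hy => exact hx.mul_left hy
    | inv x _ hx => exact hx.inv_left
  induction hb using Subgroup.closure_induction with
  | mem x hx =>
    obtain ⟨j, hj, rfl⟩ := hx
    exact h1 j hj a ha
  | one => exact Commute.one_right _
  | mul x y _ _ hx hy => exact hx.mul_right hy
  | inv x _ hx => exact hx.inv_right

theorem exists_diag [Finite B] [DecidableEq (IS M)] :
    ∃ (ab : (qA M.toCoxeterSystem).ker →* Multiplicative (IS M → ℤ))
      (z : IS M → (qA M.toCoxeterSystem).ker),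
      (∀ T, ab (z T) = Multiplicative.ofAdd (Pi.single T (2 : ℤ))) ∧
      (∀ T T', (nestG M).Adj T T' → Commute (z T) (z T')) := by
  classical
  have hfin : Fintype (IS M) := Fintype.ofFinite _
  set cs := M.toCoxeterSystem with hcs
  obtain ⟨c, hc⟩ := exists_count cs
  choose r hr hrT using fun T : IS M => exists_full_reflection cs T.2.1
  have hd : ∀ T : IS M, ∃ z ∈ AP M (T.1 : Set B), qA cs z = 1 ∧
      (∀ a ∈ AP M (T.1 : Set B), Commute z a) ∧
      ∀ t, c z t = if cs.IsReflection t ∧ t ∈ WP cs (T.1 : Set B) then 2 else 0 :=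
    fun T => exists_delta cs hc (T.1 : Set B) T.2.2
  choose z hzA hz1 hzc hzt using hd
  -- the coordinate homomorphisms
  have hadd : ∀ (t : M.Group) (a b : (qA cs).ker), c (a * b : Artin M) t =
      c (a : Artin M) t + c (b : Artin M) t := by
    intro t a b
    have ha : qA cs (a : Artin M) = 1 := a.2
    rw [hc.mul, ha]
    simp
  let x : IS M → (Additive (qA cs).ker →+ ℤ) := fun T =>
    AddMonoidHom.mk' (fun a => c (Additive.toMul a : (qA cs).ker) (r T)) (fun a b => hadd _ _ _)
  obtain ⟨y, hy⟩ := AR9_inv x
  let Z : IS M → (qA cs).ker := fun T => ⟨z T, hz1 T⟩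
  have hx : ∀ T T', x T (Additive.ofMul (Z T')) = if T ≤ T' then 2 else 0 := by
    intro T T'
    change c (z T') (r T) = _
    rw [hzt]
    by_cases h : T ≤ T'
    · rw [if_pos h, if_pos ⟨hr T, (hrT T T'.1).mpr h⟩]
    · rw [if_neg h, if_neg]
      rintro ⟨_, h2⟩
      exact h ((hrT T T'.1).mp h2)
  have hyZ : ∀ T T', y T (Additive.ofMul (Z T')) = if T = T' then 2 else 0 := by
    intro T
    induction T using (wellFounded_gt (α := IS M)).induction with
    | _ T ih =>
      intro T'
      have h1 := congrArg (fun g : Additive (qA cs).ker →+ ℤ => g (Additive.ofMul (Z T'))) (hy T)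
      simp only [AddMonoidHom.add_apply, AddMonoidHom.finsetSum_apply] at h1
      rw [hx, Finset.sum_congr rfl (fun S hS => ih S (Finset.mem_filter.mp hS).2 T'),
        Finset.sum_ite_eq'] at h1
      have h2 : y T (Additive.ofMul (Z T')) = (if T ≤ T' then 2 else 0) -
          (if T' ∈ Finset.univ.filter (fun S => T < S) then 2 else 0) := by
        rw [h1]
        ring
      rw [h2]
      simp only [Finset.mem_filter, Finset.mem_univ, true_and]
      by_cases h3 : T = T'
      · subst h3
        simp
      · by_cases h4 : T ≤ T'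
        · rw [if_pos h4, if_pos (lt_of_le_of_ne h4 h3), if_neg h3]
          ring
        · rw [if_neg h4, if_neg (fun h5 => h4 h5.le), if_neg h3]
          ring
  refine ⟨{ toFun := fun a => Multiplicative.ofAdd (fun T => y T (Additive.ofMul a))
            map_one' := ?_, map_mul' := ?_ }, Z, ?_, ?_⟩
  · rw [← ofAdd_zero]
    congr 1
    funext T
    rw [ofMul_one, map_zero]
    rfl
  · intro a b
    rw [← ofAdd_add]
    congr 1
    funext T
    rw [ofMul_mul, map_add]
    rfl
  · intro T
    change Multiplicative.ofAdd (fun S => y S (Additive.ofMul (Z T))) = _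
    congr 1
    funext S
    rw [hyZ]
    by_cases h : S = T
    · subst h
      simp
    · rw [if_neg h, Pi.single_eq_of_ne h]
  · rintro T T' ⟨_, h | h | h⟩
    · refine Subtype.ext ?_
      exact (hzc T' (z T) (AP_mono (Finset.coe_subset.mpr h) (hzA T))).eq.symm
    · refine Subtype.ext ?_
      exact (hzc T (z T') (AP_mono (Finset.coe_subset.mpr h) (hzA T'))).eq
    · refine Subtype.ext ?_
      exact (AR9_commute_AP M (fun i hi j hj => h i hi j hj) (hzA T) (hzA T')).eq

end nest

end OS
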