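import Mathlib
import Pool.Agent.Lib.MP_8fe54c_gt.CombDefs

/-!
# The function `eta` (module A1)
-/

namespace OS

open Finsupp Finset

variable {V : Type*} [LinearOrder V] (G : SimpleGraph V) (j : ℕ)
  (φ : Finset V → ZMod 2)

theorem erase_union_erase (P Q : Finset V) (v : V) :
    P.erase v ∪ Q.erase v = (P ∪ Q).erase v := by
  ext x; simp only [mem_union, mem_erase]; tauto

theorem eta_small {P Q : Finset V} (h : (P ∪ Q).card ≤ j) : eta G j φ P Q = 0 := by
  rw [eta, if_pos h]

open Classical in
theorem eta_mid {P Q : Finset V} (h : (P ∪ Q).card = j + 1) :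
    eta G j φ P Q = if G.IsClique ((P ∪ Q : Finset V) : Set V) then φ (P ∪ Q) else 0 := by
  rw [eta, if_neg (by omega), if_pos h]

theorem eta_big {P Q : Finset V} (h : j + 2 ≤ (P ∪ Q).card) :
    eta G j φ P Q = kap G P Q * ∑ v ∈ P ∪ Q, eta G j φ (P.erase v) (Q.erase v) := by
  rw [eta, if_neg (by omega), if_neg (by omega),
    Finset.sum_attach (P ∪ Q) (fun v => eta G j φ (P.erase v) (Q.erase v))]

theorem eta_diag {P : Finset V} (hP : G.IsClique (P : Set V)) (hc : P.card = j + 1) :
    eta G j φ P P = φ P := by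
  rw [eta_mid G j φ (by rw [union_self]; exact hc), union_self, if_pos hP]

/-! ### the function `kap` -/

theorem kap_clique {P Q : Finset V} (h : G.IsClique ((P ∪ Q : Finset V) : Set V)) :
    kap G P Q = 0 := by
  unfold kap
  rw [if_neg]
  rintro ⟨r, hr, ⟨u, hu, hur, hadj⟩, -⟩
  exact hadj (h (mem_coe.mpr (mem_union_left Q hr)) (mem_coe.mpr hu) (Ne.symm hur))

theorem kap_C {P Q : Finset V} {a : V} (hP : G.IsClique ((insert a P : Finset V) : Set V))
    (hQ : G.IsClique (Q : Set V)) (haQ : a ∈ Q) :
    kap G (insert a P) Q = kap G P Q := by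
  have hU : insert a P ∪ Q = P ∪ Q := by
    rw [insert_union, insert_eq_of_mem (mem_union_right P haQ)]
  unfold kap
  rw [hU]
  congr 1
  refine propext ⟨?_, ?_⟩
  · rintro ⟨r, hr, ⟨u, hu, hur, hadj⟩, h⟩
    rcases mem_insert.mp hr with rfl | hr
    · exfalso
      rcases mem_union.mp hu with hu | hu
      · exact hadj (hP (mem_coe.mpr (mem_insert_self _ _)) (mem_coe.mpr (mem_insert_of_mem hu))
          (Ne.symm hur))
      · exact hadj (hQ (mem_coe.mpr haQ) (mem_coe.mpr hu) (Ne.symm hur))
    · exact ⟨r, hr, ⟨u, hu, hur, hadj⟩, h⟩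
  · rintro ⟨r, hr, h⟩
    exact ⟨r, mem_insert_of_mem hr, h⟩

theorem kap_C' {P Q : Finset V} {a : V} (haP : a ∈ P) :
    kap G P (insert a Q) = kap G P Q := by
  have hU : P ∪ insert a Q = P ∪ Q := by
    rw [union_insert, insert_eq_of_mem (mem_union_left Q haP)]
  unfold kap
  rw [hU]

theorem kap_add {P Q : Finset V} (hP : G.IsClique (P : Set V)) (hQ : G.IsClique (Q : Set V))
    (h : ¬ G.IsClique ((P ∪ Q : Finset V) : Set V)) : kap G P Q + kap G Q P = 1 := by
  classical
  let B : Finset V := (P ∪ Q).filter (fun r => ∃ u ∈ P ∪ Q, u ≠ r ∧ ¬ G.Adj r u)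
  have hB : B.Nonempty := by
    by_contra hne
    apply h
    intro r hr u hu hru
    by_contra hadj
    exact hne ⟨r, mem_filter.mpr ⟨mem_coe.mp hr, u, mem_coe.mp hu, Ne.symm hru, hadj⟩⟩
  obtain ⟨r, hrB, hmin⟩ : ∃ r ∈ B, ∀ r' ∈ B, r ≤ r' :=
    ⟨B.min' hB, B.min'_mem hB, fun r' h' => B.min'_le r' h'⟩
  obtain ⟨hrU, u, hu, hur, hadj⟩ := mem_filter.mp hrB
  have hless : ∀ r' ∈ P ∪ Q, r' < r → ∀ u ∈ P ∪ Q, u ≠ r' → G.Adj r' u := by
    intro r' hr' hlt u hu hne
    by_contra hadj
    exact absurd (hmin r' (mem_filter.mpr ⟨hr', u, hu, hne, hadj⟩)) (not_le.mpr hlt)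
  have huniq : ∀ s ∈ P ∪ Q, (∃ u ∈ P ∪ Q, u ≠ s ∧ ¬ G.Adj s u) →
      (∀ r' ∈ P ∪ Q, r' < s → ∀ u ∈ P ∪ Q, u ≠ r' → G.Adj r' u) → s = r := by
    rintro s hs ⟨v, hv, hvs, hvadj⟩ hs'
    rcases lt_trichotomy s r with hlt | heq | hlt
    · exact absurd (hless s hs hlt v hv hvs) hvadj
    · exact heq
    · exact absurd (hs' r hrU hlt u hu hur) hadj
  have hnot : ¬ (r ∈ P ∧ r ∈ Q) := by
    rintro ⟨h1, h2⟩
    rcases mem_union.mp hu with hu | hu
    · exact hadj (hP (mem_coe.mpr h1) (mem_coe.mpr hu) (Ne.symm hur))
    · exact hadj (hQ (mem_coe.mpr h2) (mem_coe.mpr hu) (Ne.symm hur))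
  have k1 : kap G P Q = if r ∈ P then 1 else 0 := by
    unfold kap
    congr 1
    refine propext ⟨?_, ?_⟩
    · rintro ⟨s, hs, h1, h2⟩
      rw [← huniq s (mem_union_left Q hs) h1 h2]
      exact hs
    · intro hr
      exact ⟨r, hr, ⟨u, hu, hur, hadj⟩, hless⟩
  have k2 : kap G Q P = if r ∈ Q then 1 else 0 := by
    unfold kap
    rw [union_comm Q P]
    congr 1
    refine propext ⟨?_, ?_⟩
    · rintro ⟨s, hs, h1, h2⟩
      rw [← huniq s (mem_union_right P hs) h1 h2]
      exact hs
    · intro hr
      exact ⟨r, hr, ⟨u, hu, hur, hadj⟩, hless⟩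
  rw [k1, k2]
  rcases mem_union.mp hrU with h1 | h1
  · rw [if_pos h1, if_neg (fun h2 => hnot ⟨h1, h2⟩), add_zero]
  · rw [if_pos h1, if_neg (fun h2 => hnot ⟨h2, h1⟩), zero_add]

/-! ### (C) -/

omit [LinearOrder V] in
theorem clique_mono' {A B : Finset V} (h : A ⊆ B) (hB : G.IsClique (B : Set V)) :
    G.IsClique (A : Set V) := SimpleGraph.IsClique.subset (coe_subset.mpr h) hB

/-- (C), left -/
theorem eta_C {P Q : Finset V} {a : V} (hP : G.IsClique ((insert a P : Finset V) : Set V))
    (hQ : G.IsClique (Q : Set V)) (haQ : a ∈ Q) (haP : a ∉ P) :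
    eta G j φ (insert a P) Q = eta G j φ P Q := by
  classical
  induction hn : (P ∪ Q).card using Nat.strong_induction_on generalizing P Q with
  | _ n ih =>
    have hU : insert a P ∪ Q = P ∪ Q := by
      rw [insert_union, insert_eq_of_mem (mem_union_right P haQ)]
    rcases Nat.lt_or_ge (j + 1) (P ∪ Q).card with hbig | hsm
    · rw [eta_big G j φ (by rw [hU]; omega), eta_big G j φ (by omega), kap_C G hP hQ haQ, hU]
      congr 1
      refine sum_congr rfl fun v hv => ?_
      by_cases hva : v = a
      · subst hva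
        rw [erase_insert haP, erase_eq_of_notMem haP]
      · have h1 : (insert a P).erase v = insert a (P.erase v) :=
          erase_insert_of_ne (fun h => hva h.symm)
        rw [h1]
        refine ih _ ?_ ?_ ?_ ?_ ?_ rfl
        · rw [← hn, erase_union_erase]
          exact card_erase_lt_of_mem hv
        · exact clique_mono' G (insert_subset_insert _ (erase_subset _ _)) hP
        · exact clique_mono' G (erase_subset _ _) hQ
        · exact mem_erase.mpr ⟨fun h => hva h.symm, haQ⟩
        · exact fun h => haP (mem_of_mem_erase h)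
    · rcases Nat.lt_or_ge j (P ∪ Q).card with h1 | h1
      · rw [eta_mid G j φ (by rw [hU]; omega), eta_mid G j φ (by omega), hU]
      · rw [eta_small G j φ (by rw [hU]; exact h1), eta_small G j φ h1]

/-- (C), right -/
theorem eta_C' {P Q : Finset V} {a : V} (hP : G.IsClique (P : Set V))
    (hQ : G.IsClique ((insert a Q : Finset V) : Set V)) (haP : a ∈ P) (haQ : a ∉ Q) :
    eta G j φ P (insert a Q) = eta G j φ P Q := by
  classical
  induction hn : (P ∪ Q).card using Nat.strong_induction_on generalizing P Q with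
  | _ n ih =>
    have hU : P ∪ insert a Q = P ∪ Q := by
      rw [union_insert, insert_eq_of_mem (mem_union_left Q haP)]
    rcases Nat.lt_or_ge (j + 1) (P ∪ Q).card with hbig | hsm
    · rw [eta_big G j φ (by rw [hU]; omega), eta_big G j φ (by omega), kap_C' G haP, hU]
      congr 1
      refine sum_congr rfl fun v hv => ?_
      by_cases hva : v = a
      · subst hva
        rw [erase_insert haQ, erase_eq_of_notMem haQ]
      · have h1 : (insert a Q).erase v = insert a (Q.erase v) :=
          erase_insert_of_ne (fun h => hva h.symm)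
        rw [h1]
        refine ih _ ?_ ?_ ?_ ?_ ?_ rfl
        · rw [← hn, erase_union_erase]
          exact card_erase_lt_of_mem hv
        · exact clique_mono' G (erase_subset _ _) hP
        · exact clique_mono' G (insert_subset_insert _ (erase_subset _ _)) hQ
        · exact mem_erase.mpr ⟨fun h => hva h.symm, haP⟩
        · exact fun h => haQ (mem_of_mem_erase h)
    · rcases Nat.lt_or_ge j (P ∪ Q).card with h1 | h1
      · rw [eta_mid G j φ (by rw [hU]; omega), eta_mid G j φ (by omega), hU]
      · rw [eta_small G j φ (by rw [hU]; exact h1), eta_small G j φ h1]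

/-! ### (T) -/

/-- a sum over ordered pairs of distinct elements of a symmetric function is 0 mod 2 -/
theorem sum_pairs_zero (U : Finset V) (f : V → V → ZMod 2)
    (hf : ∀ u v, f u v = f v u) : ∑ v ∈ U, ∑ u ∈ U.erase v, f v u = 0 := by
  classical
  induction U using Finset.induction_on with
  | empty => simp
  | insert a U ha ih =>
    rw [sum_insert ha, erase_insert ha]
    have h1 : ∀ v ∈ U, ∑ u ∈ (insert a U).erase v, f v u = f v a + ∑ u ∈ U.erase v, f v u := by
      intro v hv
      have hva : v ≠ a := fun h => ha (h ▸ hv)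
      rw [erase_insert_of_ne (Ne.symm hva), sum_insert (fun h => ha (mem_of_mem_erase h))]
    rw [sum_congr rfl h1, sum_add_distrib, ih, add_zero, ← sum_add_distrib]
    refine sum_eq_zero fun v _ => ?_
    rw [hf v a]
    exact CharTwo.add_self_eq_zero _

/-- (T) -/
theorem eta_T (hφ : ∀ τ : Finset V, G.IsClique (τ : Set V) → τ.card = j + 2 →
      ∑ v ∈ τ, φ (τ.erase v) = 0)
    {P Q : Finset V} (hP : G.IsClique (P : Set V)) (hQ : G.IsClique (Q : Set V)) :
    eta G j φ P Q + eta G j φ Q P = ∑ v ∈ P ∪ Q, eta G j φ (P.erase v) (Q.erase v) := by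
  classical
  induction hn : (P ∪ Q).card using Nat.strong_induction_on generalizing P Q with
  | _ n ih =>
    rcases Nat.lt_or_ge (j + 1) (P ∪ Q).card with hbig | hsm
    · by_cases hcl : G.IsClique ((P ∪ Q : Finset V) : Set V)
      · rw [eta_big G j φ (by omega), eta_big (P := Q) (Q := P) G j φ (by rw [union_comm]; omega),
          kap_clique G hcl, kap_clique G (by rw [union_comm]; exact hcl), zero_mul, zero_mul,
          add_zero]
        symm
        rcases Nat.lt_or_ge (j + 2) (P ∪ Q).card with h2 | h2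
        · refine sum_eq_zero fun v hv => ?_
          have hc : (P.erase v ∪ Q.erase v).card = (P ∪ Q).card - 1 := by
            rw [erase_union_erase, card_erase_of_mem hv]
          rw [eta_big G j φ (by omega), kap_clique G, zero_mul]
          rw [erase_union_erase]
          exact clique_mono' G (erase_subset _ _) hcl
        · rw [← hφ (P ∪ Q) hcl (by omega)]
          refine sum_congr rfl fun v hv => ?_
          have hc : (P.erase v ∪ Q.erase v).card = (P ∪ Q).card - 1 := by
            rw [erase_union_erase, card_erase_of_mem hv]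
          rw [eta_mid G j φ (by omega), erase_union_erase,
            if_pos (clique_mono' G (erase_subset _ _) hcl)]
      · have hE : ∑ v ∈ Q ∪ P, eta G j φ (Q.erase v) (P.erase v) =
            ∑ v ∈ P ∪ Q, eta G j φ (P.erase v) (Q.erase v) := by
          rw [union_comm Q P]
          have h0 : ∑ v ∈ P ∪ Q, (eta G j φ (P.erase v) (Q.erase v) +
              eta G j φ (Q.erase v) (P.erase v)) = 0 := by
            have h1 : ∀ v ∈ P ∪ Q, eta G j φ (P.erase v) (Q.erase v) +
                eta G j φ (Q.erase v) (P.erase v) = ∑ u ∈ (P ∪ Q).erase v,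
                  eta G j φ ((P.erase v).erase u) ((Q.erase v).erase u) := by
              intro v hv
              rw [← erase_union_erase]
              refine ih _ ?_ (clique_mono' G (erase_subset _ _) hP)
                (clique_mono' G (erase_subset _ _) hQ) rfl
              rw [← hn, erase_union_erase]
              exact card_erase_lt_of_mem hv
            rw [sum_congr rfl h1]
            refine sum_pairs_zero (P ∪ Q)
              (fun v u => eta G j φ ((P.erase v).erase u) ((Q.erase v).erase u)) ?_
            intro u v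
            rw [erase_right_comm, erase_right_comm (s := Q)]
          rw [sum_add_distrib] at h0
          exact (CharTwo.add_eq_zero.mp h0).symm
        rw [eta_big G j φ (by omega), eta_big (P := Q) (Q := P) G j φ (by rw [union_comm]; omega),
          hE, ← add_mul, kap_add G hP hQ hcl, one_mul]
    · rw [sum_eq_zero (fun v hv => eta_small G j φ (by
        rw [erase_union_erase, card_erase_of_mem hv]; omega))]
      rcases Nat.lt_or_ge j (P ∪ Q).card with h1 | h1
      · rw [eta_mid G j φ (by omega), eta_mid (P := Q) (Q := P) G j φ (by rw [union_comm]; omega),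
          union_comm Q P]
        exact CharTwo.add_self_eq_zero _
      · rw [eta_small G j φ h1, eta_small G j φ (by rw [union_comm]; exact h1), add_zero]

end OS
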