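import Mathlib
import Pool.Agent.Lib.MP_8fe54c_gt.CombEta

/-!
# The function `g` (module A2)
-/

namespace OS

open Finset

variable {V : Type*} [LinearOrder V] (G : SimpleGraph V) (j : ℕ)
  (φ : Finset V → ZMod 2)

/-! ### the conditions `bb` -/

theorem bb_insert {R U X : Finset V} {a : V} (haR : a ∉ R) :
    bb R (insert a U) X ↔ (a ∈ X ↔ Odd (R.filter (fun r => r < a)).card) ∧ bb R U X := by
  unfold bb
  constructor
  · intro h
    exact ⟨h a (mem_insert_self _ _) haR, fun w hw hwR => h w (mem_insert_of_mem hw) hwR⟩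
  · rintro ⟨h1, h2⟩ w hw hwR
    rcases mem_insert.mp hw with rfl | hw
    · exact h1
    · exact h2 w hw hwR

theorem bb_congr {R U X Y : Finset V} (h : ∀ w ∈ U, w ∉ R → (w ∈ X ↔ w ∈ Y)) :
    bb R U X ↔ bb R U Y := by
  unfold bb
  constructor
  · intro hb w hw hwR
    rw [← h w hw hwR]
    exact hb w hw hwR
  · intro hb w hw hwR
    rw [h w hw hwR]
    exact hb w hw hwR

open Classical in
theorem sum_bb_insert (F : Finset V → ZMod 2) {U X : Finset V} {a : V} (ha : a ∉ U)
    (hX : X ⊆ U) :
    ∑ R ∈ (insert a U).powerset, F R * (if bb R (insert a U) X then 1 else 0) +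
      ∑ R ∈ (insert a U).powerset, F R * (if bb R (insert a U) (insert a X) then 1 else 0) =
    ∑ R ∈ U.powerset, F R * (if bb R U X then 1 else 0) := by
  have haX : a ∉ X := fun h => ha (hX h)
  rw [sum_powerset_insert ha, sum_powerset_insert ha]
  have h2 : ∑ t ∈ U.powerset, F (insert a t) *
        (if bb (insert a t) (insert a U) X then (1 : ZMod 2) else 0) =
      ∑ t ∈ U.powerset, F (insert a t) *
        (if bb (insert a t) (insert a U) (insert a X) then (1 : ZMod 2) else 0) := by
    refine sum_congr rfl fun t _ => ?_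
    have : bb (insert a t) (insert a U) X ↔ bb (insert a t) (insert a U) (insert a X) := by
      refine bb_congr fun w _ hwR => ?_
      have hwa : w ≠ a := fun h => hwR (h ▸ mem_insert_self _ _)
      rw [mem_insert]
      exact ⟨Or.inr, fun h => h.resolve_left hwa⟩
    simp only [this]
  rw [h2]
  have h1 : ∑ t ∈ U.powerset, F t * (if bb t (insert a U) X then (1 : ZMod 2) else 0) +
      ∑ t ∈ U.powerset, F t * (if bb t (insert a U) (insert a X) then (1 : ZMod 2) else 0) =
      ∑ R ∈ U.powerset, F R * (if bb R U X then 1 else 0) := by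
    rw [← sum_add_distrib]
    refine sum_congr rfl fun t ht => ?_
    have hat : a ∉ t := fun h => ha (mem_powerset.mp ht h)
    rw [← mul_add]
    congr 1
    have e1 : bb t U (insert a X) ↔ bb t U X := by
      refine bb_congr fun w hw _ => ?_
      have hwa : w ≠ a := fun h => ha (h ▸ hw)
      rw [mem_insert]
      exact ⟨fun h => h.resolve_left hwa, Or.inr⟩
    rw [bb_insert hat, bb_insert hat, e1]
    by_cases hb : bb t U X
    · by_cases ho : Odd (t.filter (fun r => r < a)).card
      · simp [hb, ho, haX]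
      · simp [hb, ho, haX]
    · simp [hb]
  rw [← h1]
  have h3 : ∀ x y z : ZMod 2, x + z + (y + z) = x + y := by
    intro x y z
    rw [add_add_add_comm, CharTwo.add_self_eq_zero, add_zero]
  exact h3 _ _ _

theorem gg_1 {P Q X : Finset V} {a : V} (ha : a ∉ P ∪ Q) (hX : X ⊆ P ∪ Q) :
    gg G j φ (insert a P) Q X + gg G j φ (insert a P) Q (insert a X) = gg G j φ P Q X := by
  classical
  have h := sum_bb_insert (fun R => eta G j φ (insert a P ∩ R) (Q ∩ R)) ha hX
  unfold gg
  rw [insert_union]
  refine h.trans (sum_congr rfl fun R hR => ?_)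
  rw [insert_inter_of_notMem (fun h => ha (mem_powerset.mp hR h))]

theorem gg_1' {P Q X : Finset V} {a : V} (ha : a ∉ P ∪ Q) (hX : X ⊆ P ∪ Q) :
    gg G j φ P (insert a Q) X + gg G j φ P (insert a Q) (insert a X) = gg G j φ P Q X := by
  classical
  have h := sum_bb_insert (fun R => eta G j φ (P ∩ R) (insert a Q ∩ R)) ha hX
  unfold gg
  rw [union_insert]
  refine h.trans (sum_congr rfl fun R hR => ?_)
  rw [insert_inter_of_notMem (fun h => ha (mem_powerset.mp hR h))]

theorem gg_2 {P Q X : Finset V} {a : V} (hP : G.IsClique ((insert a P : Finset V) : Set V))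
    (hQ : G.IsClique (Q : Set V)) (haQ : a ∈ Q) (haP : a ∉ P) :
    gg G j φ (insert a P) Q X = gg G j φ P Q X := by
  classical
  have hU : insert a P ∪ Q = P ∪ Q := by
    rw [insert_union, insert_eq_of_mem (mem_union_right P haQ)]
  unfold gg
  rw [hU]
  refine sum_congr rfl fun R _ => ?_
  congr 1
  by_cases haR : a ∈ R
  · rw [insert_inter_of_mem haR]
    refine eta_C G j φ ?_ (clique_mono' G inter_subset_left hQ) (mem_inter.mpr ⟨haQ, haR⟩)
      (fun h => haP (mem_of_mem_inter_left h))
    exact clique_mono' G (insert_subset_insert _ inter_subset_left) hP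
  · rw [insert_inter_of_notMem haR]

theorem gg_2' {P Q X : Finset V} {a : V} (hP : G.IsClique (P : Set V))
    (hQ : G.IsClique ((insert a Q : Finset V) : Set V)) (haP : a ∈ P) (haQ : a ∉ Q) :
    gg G j φ P (insert a Q) X = gg G j φ P Q X := by
  classical
  have hU : P ∪ insert a Q = P ∪ Q := by
    rw [union_insert, insert_eq_of_mem (mem_union_left Q haP)]
  unfold gg
  rw [hU]
  refine sum_congr rfl fun R _ => ?_
  congr 1
  by_cases haR : a ∈ R
  · rw [insert_inter_of_mem haR]
    refine eta_C' G j φ (clique_mono' G inter_subset_left hP) ?_ (mem_inter.mpr ⟨haP, haR⟩)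
      (fun h => haQ (mem_of_mem_inter_left h))
    exact clique_mono' G (insert_subset_insert _ inter_subset_left) hQ
  · rw [insert_inter_of_notMem haR]

/-! ### the identity (*) -/

open Classical in
theorem star_aux (S : Finset V) (A : V → Prop) :
    (if ∀ w ∈ S, ¬ A w then (1 : ZMod 2) else 0) =
      (if ∀ w ∈ S, A w then 1 else 0) +
        ∑ v ∈ S, if ∀ w ∈ S, w ≠ v → (if v < w then ¬ A w else A w) then 1 else 0 := by
  induction S using Finset.induction_on_max with
  | empty => simp
  | insert m S hm ih =>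
    have hmS : m ∉ S := fun h => lt_irrefl m (hm m h)
    rw [sum_insert hmS]
    have h1 : (∀ w ∈ insert m S, w ≠ m → (if m < w then ¬ A w else A w)) ↔ ∀ w ∈ S, A w := by
      constructor
      · intro h w hw
        have := h w (mem_insert_of_mem hw) (ne_of_lt (hm w hw))
        rwa [if_neg (not_lt.mpr (le_of_lt (hm w hw)))] at this
      · intro h w hw hne
        have hw' : w ∈ S := (mem_insert.mp hw).resolve_left hne
        rw [if_neg (not_lt.mpr (le_of_lt (hm w hw')))]
        exact h w hw'
    have h2 : ∀ v ∈ S, (∀ w ∈ insert m S, w ≠ v → (if v < w then ¬ A w else A w)) ↔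
        (¬ A m ∧ ∀ w ∈ S, w ≠ v → (if v < w then ¬ A w else A w)) := by
      intro v hv
      constructor
      · intro h
        refine ⟨?_, fun w hw hne => h w (mem_insert_of_mem hw) hne⟩
        have := h m (mem_insert_self _ _) (ne_of_gt (hm v hv))
        rwa [if_pos (hm v hv)] at this
      · rintro ⟨h, h'⟩ w hw hne
        rcases mem_insert.mp hw with rfl | hw
        · rw [if_pos (hm v hv)]
          exact h
        · exact h' w hw hne
    have h3 : ∑ v ∈ S, (if ∀ w ∈ insert m S, w ≠ v → (if v < w then ¬ A w else A w)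
          then (1 : ZMod 2) else 0) =
        ∑ v ∈ S, (if (¬ A m ∧ ∀ w ∈ S, w ≠ v → (if v < w then ¬ A w else A w))
          then (1 : ZMod 2) else 0) :=
      sum_congr rfl fun v hv => by simp only [h2 v hv]
    rw [h3]
    simp only [h1]
    have h4 : (∀ w ∈ insert m S, ¬ A w) ↔ (¬ A m ∧ ∀ w ∈ S, ¬ A w) := by
      simp
    have h5 : (∀ w ∈ insert m S, A w) ↔ (A m ∧ ∀ w ∈ S, A w) := by
      simp
    simp only [h4, h5]
    by_cases hA : A m
    · simp only [hA, not_true_eq_false, false_and, if_false, true_and, sum_const_zero, add_zero]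
      exact (CharTwo.add_self_eq_zero _).symm
    · simp only [hA, not_false_eq_true, true_and, false_and, if_false, zero_add]
      exact ih

open Classical in
/-- the identity (*) -/
theorem bb_star (R U X : Finset V) :
    (if bb R U (U \ X) then (1 : ZMod 2) else 0) =
      (if bb R U X then 1 else 0) + ∑ v ∈ U \ R, if bb (insert v R) U X then 1 else 0 := by
  let A : V → Prop := fun w => (w ∈ X ↔ Odd (R.filter (fun r => r < w)).card)
  have h1 : bb R U (U \ X) ↔ ∀ w ∈ U \ R, ¬ A w := by
    unfold bb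
    constructor
    · intro h w hw
      obtain ⟨hwU, hwR⟩ := mem_sdiff.mp hw
      have := h w hwU hwR
      rw [mem_sdiff] at this
      intro hA
      have hA' : (w ∈ X ↔ Odd (R.filter (fun r => r < w)).card) := hA
      tauto
    · intro h w hwU hwR
      have h' : ¬ (w ∈ X ↔ Odd (R.filter (fun r => r < w)).card) :=
        h w (mem_sdiff.mpr ⟨hwU, hwR⟩)
      rw [mem_sdiff]
      tauto
  have h2 : bb R U X ↔ ∀ w ∈ U \ R, A w := by
    unfold bb
    constructor
    · intro h w hw
      obtain ⟨hwU, hwR⟩ := mem_sdiff.mp hw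
      exact h w hwU hwR
    · intro h w hwU hwR
      exact h w (mem_sdiff.mpr ⟨hwU, hwR⟩)
  have h3 : ∀ v ∈ U \ R, bb (insert v R) U X ↔
      ∀ w ∈ U \ R, w ≠ v → (if v < w then ¬ A w else A w) := by
    intro v hv
    obtain ⟨hvU, hvR⟩ := mem_sdiff.mp hv
    have key : ∀ w, w ≠ v → ((w ∈ X ↔ Odd ((insert v R).filter (fun r => r < w)).card) ↔
        (if v < w then ¬ A w else A w)) := by
      intro w hwv
      rw [filter_insert]
      by_cases hvw : v < w
      · rw [if_pos hvw, if_pos hvw, card_insert_of_notMem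
          (fun h => hvR (mem_of_mem_filter v h)), Nat.odd_add_one]
        change _ ↔ ¬ (w ∈ X ↔ Odd (R.filter (fun r => r < w)).card)
        tauto
      · rw [if_neg hvw, if_neg hvw]
    unfold bb
    constructor
    · intro h w hw hne
      obtain ⟨hwU, hwR⟩ := mem_sdiff.mp hw
      exact (key w hne).mp (h w hwU (fun h' => (mem_insert.mp h').elim hne hwR))
    · intro h w hwU hwR
      have hne : w ≠ v := fun h' => hwR (h' ▸ mem_insert_self _ _)
      have hwR' : w ∉ R := fun h' => hwR (mem_insert_of_mem h')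
      exact (key w hne).mpr (h w (mem_sdiff.mpr ⟨hwU, hwR'⟩) hne)
  have h4 : ∑ v ∈ U \ R, (if bb (insert v R) U X then (1 : ZMod 2) else 0) =
      ∑ v ∈ U \ R, (if ∀ w ∈ U \ R, w ≠ v → (if v < w then ¬ A w else A w) then 1 else 0) :=
    sum_congr rfl fun v hv => by simp only [h3 v hv]
  rw [h4]
  simp only [h1, h2]
  convert star_aux (U \ R) A

theorem sum_powerset_insert_swap (U : Finset V) (f g : Finset V → ZMod 2) :
    ∑ R ∈ U.powerset, f R * ∑ v ∈ U \ R, g (insert v R) =
      ∑ R ∈ U.powerset, (∑ v ∈ R, f (R.erase v)) * g R := by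
  classical
  simp only [mul_sum, sum_mul]
  rw [sum_sigma', sum_sigma']
  refine sum_bij' (fun x _ => ⟨insert x.2 x.1, x.2⟩) (fun x _ => ⟨x.1.erase x.2, x.2⟩)
    ?_ ?_ ?_ ?_ ?_
  · rintro ⟨R, v⟩ h
    simp only [mem_sigma, mem_powerset, mem_sdiff] at h ⊢
    exact ⟨insert_subset h.2.1 h.1, mem_insert_self _ _⟩
  · rintro ⟨R, v⟩ h
    simp only [mem_sigma, mem_powerset, mem_sdiff] at h ⊢
    exact ⟨(erase_subset _ _).trans h.1, h.1 h.2, notMem_erase _ _⟩
  · rintro ⟨R, v⟩ h
    simp only [mem_sigma, mem_powerset, mem_sdiff] at h ⊢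
    simp [erase_insert h.2.2]
  · rintro ⟨R, v⟩ h
    simp only [mem_sigma, mem_powerset] at h ⊢
    simp [insert_erase h.2]
  · rintro ⟨R, v⟩ h
    simp only [mem_sigma, mem_powerset, mem_sdiff] at h ⊢
    rw [erase_insert h.2.2]

theorem gg_3 (hφ : ∀ τ : Finset V, G.IsClique (τ : Set V) → τ.card = j + 2 →
      ∑ v ∈ τ, φ (τ.erase v) = 0)
    {P Q X : Finset V} (hP : G.IsClique (P : Set V)) (hQ : G.IsClique (Q : Set V)) :
    gg G j φ Q P ((P ∪ Q) \ X) = gg G j φ P Q X := by
  classical
  unfold gg
  rw [union_comm Q P]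
  have h1 : ∀ R ∈ (P ∪ Q).powerset, eta G j φ (Q ∩ R) (P ∩ R) *
      (if bb R (P ∪ Q) ((P ∪ Q) \ X) then (1 : ZMod 2) else 0) =
      eta G j φ (Q ∩ R) (P ∩ R) * (if bb R (P ∪ Q) X then 1 else 0) +
      eta G j φ (Q ∩ R) (P ∩ R) *
        ∑ v ∈ (P ∪ Q) \ R, if bb (insert v R) (P ∪ Q) X then 1 else 0 := by
    intro R hR
    rw [bb_star R (P ∪ Q) X, mul_add]
  rw [sum_congr rfl h1, sum_add_distrib,
    sum_powerset_insert_swap (P ∪ Q) (fun R => eta G j φ (Q ∩ R) (P ∩ R))
      (fun R => if bb R (P ∪ Q) X then 1 else 0), ← sum_add_distrib]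
  refine sum_congr rfl fun R hR => ?_
  rw [← add_mul]
  congr 1
  have hU : Q ∩ R ∪ P ∩ R = R := by
    rw [← union_inter_distrib_right, union_comm]
    exact inter_eq_right.mpr (mem_powerset.mp hR)
  have hT := eta_T G j φ hφ (P := Q ∩ R) (Q := P ∩ R) (clique_mono' G inter_subset_left hQ)
    (clique_mono' G inter_subset_left hP)
  rw [hU] at hT
  have h2 : ∑ v ∈ R, eta G j φ (Q ∩ R.erase v) (P ∩ R.erase v) =
      ∑ v ∈ R, eta G j φ ((Q ∩ R).erase v) ((P ∩ R).erase v) := by
    refine sum_congr rfl fun v _ => ?_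
    rw [inter_erase, inter_erase]
  rw [h2, ← hT, ← add_assoc, CharTwo.add_self_eq_zero, zero_add]

theorem gg_4 {P Q X₀ : Finset V} (hc : (P ∩ Q).card ≤ j) :
    ∑ X ∈ (P ∪ Q).powerset.filter (fun X => X ∩ (P ∩ Q) = X₀), gg G j φ P Q X = 0 := by
  classical
  unfold gg
  rw [sum_comm]
  refine sum_eq_zero fun R hR => ?_
  rw [← mul_sum]
  have hRU : R ⊆ P ∪ Q := mem_powerset.mp hR
  by_cases hRK : R ⊆ P ∩ Q
  · have h1 : P ∩ R ∪ Q ∩ R = R := by
      rw [← union_inter_distrib_right]
      exact inter_eq_right.mpr hRU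
    rw [eta_small G j φ (by rw [h1]; exact (card_le_card hRK).trans hc), zero_mul]
  · obtain ⟨r, hrR, hrK⟩ := not_subset.mp hRK
    have h0 : ∑ X ∈ (P ∪ Q).powerset.filter (fun X => X ∩ (P ∩ Q) = X₀),
        (if bb R (P ∪ Q) X then (1 : ZMod 2) else 0) = 0 := by
      refine sum_involution (fun X _ => if r ∈ X then X.erase r else insert r X) ?_ ?_ ?_ ?_
      · intro X hX
        have : bb R (P ∪ Q) X ↔ bb R (P ∪ Q) (if r ∈ X then X.erase r else insert r X) := by
          refine bb_congr fun w _ hwR => ?_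
          have hwr : w ≠ r := fun h => hwR (h ▸ hrR)
          split_ifs with h
          · rw [mem_erase]
            tauto
          · rw [mem_insert]
            tauto
        simp only [← this]
        exact CharTwo.add_self_eq_zero _
      · intro X hX _ heq
        split_ifs at heq with h
        · have h' : r ∈ X.erase r := by rw [heq]; exact h
          exact notMem_erase r X h'
        · exact h (heq ▸ mem_insert_self r X)
      · intro X hX
        rw [mem_filter, mem_powerset] at hX ⊢
        obtain ⟨h1, h2⟩ := hX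
        split_ifs with h
        · refine ⟨(erase_subset _ _).trans h1, ?_⟩
          rw [← h2]
          ext w
          simp only [mem_inter, mem_erase]
          constructor
          · rintro ⟨⟨_, h3⟩, h4⟩
            exact ⟨h3, h4⟩
          · rintro ⟨h3, h4⟩
            exact ⟨⟨fun hw => hrK (hw ▸ mem_inter.mpr h4), h3⟩, h4⟩
        · refine ⟨insert_subset (hRU hrR) h1, ?_⟩
          rw [← h2]
          ext w
          simp only [mem_inter, mem_insert]
          constructor
          · rintro ⟨h3 | h3, h4⟩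
            · exact absurd (h3 ▸ mem_inter.mpr h4) hrK
            · exact ⟨h3, h4⟩
          · rintro ⟨h3, h4⟩
            exact ⟨Or.inr h3, h4⟩
      · intro X hX
        by_cases h : r ∈ X
        · simp [h]
        · simp [h]
    rw [h0, mul_zero]

theorem gg_diag {P : Finset V} (X : Finset V) (hP : G.IsClique (P : Set V))
    (hc : P.card = j + 1) : gg G j φ P P X = φ P := by
  classical
  unfold gg
  rw [union_self, sum_eq_single P]
  · rw [inter_self, eta_diag G j φ hP hc, if_pos, mul_one]
    intro w hw hw'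
    exact absurd hw hw'
  · intro R hR hne
    have h1 : P ∩ R = R := inter_eq_right.mpr (mem_powerset.mp hR)
    have h2 : R.card < P.card := card_lt_card
      ((mem_powerset.mp hR).ssubset_of_ne hne)
    rw [eta_small G j φ (by rw [union_self, h1]; omega), zero_mul]
  · intro h
    exact absurd (mem_powerset.mpr (Subset.refl P)) h

end OS
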