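import Mathlib
import Pool.Agent.Lib.MP_8fe54c_gt.CombG

/-!
# The cycle in the deleted join (module A3)
-/

namespace OS

open Finset

variable {V : Type*} [LinearOrder V] (G : SimpleGraph V) (j : ℕ)
  (φ : Finset V → ZMod 2)

/-! ### projections of finite subsets of `V × Bool × Bool` -/

/-- first coordinates of the elements of copy `b` -/
def pb (b : Bool) (lam : Finset (WV V)) : Finset V :=
  (lam.filter (fun w => w.2.2 = b)).image Prod.fst

theorem p1_eq (lam : Finset (WV V)) : p1 lam = pb false lam := rfl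

theorem p2_eq (lam : Finset (WV V)) : p2 lam = pb true lam := rfl

theorem mem_pb {b : Bool} {lam : Finset (WV V)} {v : V} :
    v ∈ pb b lam ↔ ∃ s, (v, s, b) ∈ lam := by
  unfold pb
  rw [mem_image]
  constructor
  · rintro ⟨⟨v', s, i⟩, hw, rfl⟩
    obtain ⟨g1, hb⟩ := mem_filter.mp hw
    have hb' : i = b := hb
    rw [hb'] at g1
    exact ⟨s, g1⟩
  · rintro ⟨s, hs⟩
    exact ⟨(v, s, b), mem_filter.mpr ⟨hs, rfl⟩, rfl⟩

theorem mem_xx {lam : Finset (WV V)} {v : V} :
    v ∈ xx lam ↔ ∃ s i, (v, s, i) ∈ lam ∧ xor s i = true := by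
  unfold xx
  rw [mem_image]
  constructor
  · rintro ⟨⟨v', s, i⟩, hw, rfl⟩
    obtain ⟨hw, h⟩ := mem_filter.mp hw
    exact ⟨s, i, hw, h⟩
  · rintro ⟨s, i, hs, h⟩
    exact ⟨(v, s, i), mem_filter.mpr ⟨hs, h⟩, rfl⟩

theorem pb_insert_same (b : Bool) (v : V) (s : Bool) (lam : Finset (WV V)) :
    pb b (insert (v, s, b) lam) = insert v (pb b lam) := by
  ext x
  rw [mem_pb, mem_insert, mem_pb]
  constructor
  · rintro ⟨t, ht⟩
    rcases mem_insert.mp ht with h | h
    · exact Or.inl (congrArg Prod.fst h)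
    · exact Or.inr ⟨t, h⟩
  · rintro (rfl | ⟨t, ht⟩)
    · exact ⟨s, mem_insert_self _ _⟩
    · exact ⟨t, mem_insert_of_mem ht⟩

theorem pb_insert_other (b : Bool) (v : V) (s : Bool) (lam : Finset (WV V)) :
    pb (!b) (insert (v, s, b) lam) = pb (!b) lam := by
  ext x
  rw [mem_pb, mem_pb]
  constructor
  · rintro ⟨t, ht⟩
    rcases mem_insert.mp ht with h | h
    · have : (!b) = b := congrArg (fun w : WV V => w.2.2) h
      exact absurd this (by cases b <;> simp)
    · exact ⟨t, h⟩
  · rintro ⟨t, ht⟩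
    exact ⟨t, mem_insert_of_mem ht⟩

theorem xx_insert (b : Bool) (v : V) (s : Bool) (lam : Finset (WV V)) :
    xx (insert (v, s, b) lam) = if xor s b = true then insert v (xx lam) else xx lam := by
  ext x
  rw [mem_xx]
  split_ifs with hx
  · rw [mem_insert, mem_xx]
    constructor
    · rintro ⟨t, i, ht, hti⟩
      rcases mem_insert.mp ht with h | h
      · exact Or.inl (congrArg Prod.fst h)
      · exact Or.inr ⟨t, i, h, hti⟩
    · rintro (rfl | ⟨t, i, ht, hti⟩)
      · exact ⟨s, b, mem_insert_self _ _, hx⟩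
      · exact ⟨t, i, mem_insert_of_mem ht, hti⟩
  · rw [mem_xx]
    constructor
    · rintro ⟨t, i, ht, hti⟩
      rcases mem_insert.mp ht with h | h
      · have h1 : t = s := congrArg (fun w : WV V => w.2.1) h
        have h2 : i = b := congrArg (fun w : WV V => w.2.2) h
        exact absurd (h1 ▸ h2 ▸ hti) hx
      · exact ⟨t, i, h, hti⟩
    · rintro ⟨t, i, ht, hti⟩
      exact ⟨t, i, mem_insert_of_mem ht, hti⟩

theorem xx_subset (b : Bool) (lam : Finset (WV V)) : xx lam ⊆ pb b lam ∪ pb (!b) lam := by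
  intro v hv
  obtain ⟨s, i, h, -⟩ := mem_xx.mp hv
  rw [mem_union, mem_pb, mem_pb]
  by_cases hi : i = b
  · exact Or.inl ⟨s, hi ▸ h⟩
  · have : i = !b := by cases i <;> cases b <;> simp_all
    exact Or.inr ⟨s, this ▸ h⟩

section clique

variable {G} {lam : Finset (WV V)} (hl : (XG G).IsClique (lam : Set (WV V)))
include hl

omit [LinearOrder V] in
theorem same_sign {b s s' : Bool} {v : V} (h : (v, s, b) ∈ lam) (h' : (v, s', b) ∈ lam) :
    s = s' := by
  by_contra hne
  have hne' : ((v, s, b) : WV V) ≠ (v, s', b) := fun h => hne (congrArg (fun w : WV V => w.2.1) h)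
  rcases hl (mem_coe.mpr h) (mem_coe.mpr h') hne' with ⟨_, h2⟩ | ⟨h1, _⟩
  · exact G.irrefl h2
  · exact h1 rfl

omit [LinearOrder V] in
theorem other_sign {b s s' : Bool} {v : V} (h : (v, s, b) ∈ lam) (h' : (v, s', !b) ∈ lam) :
    s' = !s := by
  have hne' : ((v, s, b) : WV V) ≠ (v, s', !b) := fun h => by
    have := congrArg (fun w : WV V => w.2.2) h
    exact absurd this (by cases b <;> simp)
  rcases hl (mem_coe.mpr h) (mem_coe.mpr h') hne' with ⟨_, h2⟩ | ⟨_, h2⟩
  · exact absurd h2 (G.irrefl)
  · have : s ≠ s' := fun h => h2 (by rw [h])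
    cases s <;> cases s' <;> simp_all

theorem pb_clique (b : Bool) : G.IsClique ((pb b lam : Finset V) : Set V) := by
  intro v hv v' hv' hne
  obtain ⟨s, hs⟩ := mem_pb.mp (mem_coe.mp hv)
  obtain ⟨s', hs'⟩ := mem_pb.mp (mem_coe.mp hv')
  have hne' : ((v, s, b) : WV V) ≠ (v', s', b) := fun h => hne (congrArg Prod.fst h)
  rcases hl (mem_coe.mpr hs) (mem_coe.mpr hs') hne' with ⟨_, h2⟩ | ⟨h1, _⟩
  · exact h2
  · exact absurd rfl h1

theorem card_eq_pb : lam.card = (p1 lam).card + (p2 lam).card := by
  have h1 : ∀ b, (pb b lam).card = (lam.filter (fun w => w.2.2 = b)).card := by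
    intro b
    refine card_image_of_injOn ?_
    rintro ⟨v, s, i⟩ hw ⟨v', s', i'⟩ hw' hv
    obtain ⟨g1, hi⟩ := mem_filter.mp (mem_coe.mp hw)
    obtain ⟨g2, hi'⟩ := mem_filter.mp (mem_coe.mp hw')
    have hv' : v = v' := hv
    have hi1 : i = b := hi
    have hi2 : i' = b := hi'
    rw [← hv', hi2] at g2
    rw [hi1] at g1
    rw [← hv', hi1, hi2, same_sign hl g1 g2]
  rw [p1_eq, p2_eq, h1, h1, ← card_filter_add_card_filter_not (s := lam) (fun w : WV V => w.2.2 = false)]
  congr 2
  refine filter_congr fun w _ => ?_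
  simp

end clique

/-! ### values of the cycle -/

section cyc

variable [Fintype V] (Z : Finset (Finset V))

open Classical in
theorem cc_apply (lam : Finset (WV V)) :
    cc G j φ Z lam = if (XG G).IsClique (lam : Set (WV V)) then
      (if p1 lam ∈ Z ∧ p2 lam ∈ Z then gg G j φ (p1 lam) (p2 lam) (xx lam) else 0) else 0 := by
  unfold cc
  rw [Finsupp.finsetSum_apply]
  simp only [Finsupp.single_apply]
  rw [sum_ite_eq']
  simp

theorem cc_zero_of_not {lam : Finset (WV V)} (h : ¬ (XG G).IsClique (lam : Set (WV V))) :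
    cc G j φ Z lam = 0 := by
  rw [cc_apply, if_neg h]

open Classical in
theorem cc_of_clique {lam : Finset (WV V)} (h : (XG G).IsClique (lam : Set (WV V))) (b : Bool) :
    cc G j φ Z lam = if pb b lam ∈ Z ∧ pb (!b) lam ∈ Z then
      (if b then gg G j φ (pb (!b) lam) (pb b lam) (xx lam)
        else gg G j φ (pb b lam) (pb (!b) lam) (xx lam)) else 0 := by
  rw [cc_apply, if_pos h]
  cases b
  · rfl
  · simp only [Bool.not_true, if_true, p1_eq, p2_eq]
    exact if_congr and_comm rfl rfl

variable (hZ1 : ∀ σ ∈ Z, G.IsClique (σ : Set V) ∧ σ.card = j + 1)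
  (hZ2 : ∀ ρ : Finset V, ρ.card = j →
    Even (Finset.univ.filter (fun v => v ∉ ρ ∧ insert v ρ ∈ Z)).card)
  (hφ : ∀ τ : Finset V, G.IsClique (τ : Set V) → τ.card = j + 2 → ∑ v ∈ τ, φ (τ.erase v) = 0)
include hZ1

theorem cc_supp {lam : Finset (WV V)} (h : lam ∈ (cc G j φ Z).support) :
    (XG G).IsClique (lam : Set (WV V)) ∧ lam.card = 2 * j + 1 + 1 := by
  rw [Finsupp.mem_support_iff, cc_apply] at h
  by_cases hl : (XG G).IsClique (lam : Set (WV V))
  · rw [if_pos hl] at h
    by_cases hz : p1 lam ∈ Z ∧ p2 lam ∈ Z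
    · refine ⟨hl, ?_⟩
      rw [card_eq_pb hl, (hZ1 _ hz.1).2, (hZ1 _ hz.2).2]
      omega
    · rw [if_neg hz] at h
      exact absurd rfl h
  · rw [if_neg hl] at h
    exact absurd rfl h

omit [LinearOrder V] [Fintype V] hZ1 in
theorem TW_TW (w : WV V) : TW (TW w) = w := by
  unfold TW
  simp

omit [Fintype V] hZ1 in
theorem image_TW_TW (lam : Finset (WV V)) : (lam.image TW).image TW = lam := by
  rw [image_image]
  have : (TW ∘ TW : WV V → WV V) = id := funext TW_TW
  rw [this, image_id]

omit [Fintype V] hZ1 in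
theorem mem_image_TW {lam : Finset (WV V)} {w : WV V} : w ∈ lam.image TW ↔ TW w ∈ lam := by
  rw [mem_image]
  constructor
  · rintro ⟨u, hu, rfl⟩
    rwa [TW_TW]
  · intro h
    exact ⟨TW w, h, TW_TW w⟩

omit [Fintype V] hZ1 in
theorem clique_TW {lam : Finset (WV V)} (hl : (XG G).IsClique (lam : Set (WV V))) :
    (XG G).IsClique ((lam.image TW : Finset (WV V)) : Set (WV V)) := by
  rintro ⟨v, s, i⟩ hw ⟨v', s', i'⟩ hw' hne
  have h1 : ((v, s, !i) : WV V) ∈ lam := mem_image_TW.mp (mem_coe.mp hw)
  have h2 : ((v', s', !i') : WV V) ∈ lam := mem_image_TW.mp (mem_coe.mp hw')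
  have hne' : ((v, s, !i) : WV V) ≠ (v', s', !i') := by
    intro h
    apply hne
    have e1 : v = v' := congrArg Prod.fst h
    have e2 : s = s' := congrArg (fun w : WV V => w.2.1) h
    have e3 : (!i) = !i' := congrArg (fun w : WV V => w.2.2) h
    have e4 : i = i' := by cases i <;> cases i' <;> simp_all
    rw [e1, e2, e4]
  rcases hl (mem_coe.mpr h1) (mem_coe.mpr h2) hne' with ⟨h3, h4⟩ | ⟨h3, h4⟩
  · refine Or.inl ⟨?_, h4⟩
    change i = i'
    have h3' : (!i) = !i' := h3
    cases i <;> cases i' <;> simp_all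
  · refine Or.inr ⟨?_, h4⟩
    change i ≠ i'
    have h3' : (!i) ≠ !i' := h3
    exact fun h => h3' (by rw [h])

omit [Fintype V] hZ1 in
theorem pb_TW (b : Bool) (lam : Finset (WV V)) : pb b (lam.image TW) = pb (!b) lam := by
  ext v
  rw [mem_pb, mem_pb]
  simp only [mem_image_TW]
  rfl

omit [Fintype V] hZ1 in
theorem xx_TW {lam : Finset (WV V)} (hl : (XG G).IsClique (lam : Set (WV V))) :
    xx (lam.image TW) = (pb false lam ∪ pb true lam) \ xx lam := by
  ext v
  rw [mem_xx, mem_sdiff, mem_union, mem_pb, mem_pb, mem_xx]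
  simp only [mem_image_TW]
  constructor
  · rintro ⟨s, i, h, hx⟩
    have h' : (v, s, !i) ∈ lam := h
    refine ⟨?_, ?_⟩
    · cases i
      · exact Or.inr ⟨s, h'⟩
      · exact Or.inl ⟨s, h'⟩
    · rintro ⟨t, k, hk, hy⟩
      by_cases hki : k = !i
      · subst hki
        have := same_sign hl h' hk
        subst this
        cases s <;> cases i <;> simp_all
      · have hki' : k = !(!i) := by cases k <;> cases i <;> simp_all
        subst hki'
        have := other_sign hl h' hk
        subst this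
        cases s <;> cases i <;> simp_all
  · rintro ⟨h, hx⟩
    rcases h with ⟨s, hs⟩ | ⟨s, hs⟩
    · refine ⟨s, true, hs, ?_⟩
      by_contra hne
      apply hx
      refine ⟨s, false, hs, ?_⟩
      cases s <;> simp_all
    · refine ⟨s, false, hs, ?_⟩
      by_contra hne
      apply hx
      refine ⟨s, true, hs, ?_⟩
      cases s <;> simp_all

omit hZ1 in
include hφ in
theorem cc_TW (lam : Finset (WV V)) : cc G j φ Z (lam.image TW) = cc G j φ Z lam := by
  classical
  by_cases hl : (XG G).IsClique (lam : Set (WV V))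
  · have hl' := clique_TW G hl
    rw [cc_of_clique G j φ Z hl' false, cc_of_clique G j φ Z hl false]
    simp only [Bool.not_false, pb_TW, Bool.false_eq_true, if_false, Bool.not_true]
    by_cases hz : pb false lam ∈ Z ∧ pb true lam ∈ Z
    · rw [if_pos hz, if_pos hz.symm, xx_TW G hl,
        gg_3 G j φ hφ (pb_clique hl false) (pb_clique hl true)]
    · rw [if_neg hz, if_neg (fun h => hz h.symm)]
  · have hl' : ¬ (XG G).IsClique ((lam.image TW : Finset (WV V)) : Set (WV V)) := by
      intro h
      have := clique_TW G h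
      rw [image_TW_TW] at this
      exact hl this
    rw [cc_zero_of_not G j φ Z hl, cc_zero_of_not G j φ Z hl']

include hφ in
theorem cc_T : mapS TW (cc G j φ Z) = cc G j φ Z := by
  classical
  ext lam
  have hinj : Function.Injective (Finset.image (TW : WV V → WV V)) :=
    fun a b h => by rw [← image_TW_TW a, ← image_TW_TW b, h]
  unfold mapS
  rw [Finsupp.lmapDomain_apply]
  conv_lhs => rw [← image_TW_TW lam]
  rw [Finsupp.mapDomain_apply hinj, cc_TW G j φ Z hφ]

/-! ### the boundary -/

omit hZ1 in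
theorem dS_apply {W : Type*} [DecidableEq W] [Fintype W] (c : SC W) (lam : Finset W) :
    dS c lam = ∑ w, if w ∉ lam then c (insert w lam) else 0 := by
  induction c using Finsupp.induction_linear with
  | zero => simp
  | add f g hf hg =>
    rw [map_add, Finsupp.add_apply, hf, hg, ← sum_add_distrib]
    refine sum_congr rfl fun w _ => ?_
    split_ifs <;> simp
  | single s a =>
    unfold dS dfin
    rw [Finsupp.lsum_single, LinearMap.toSpanSingleton_apply, Finsupp.smul_apply,
      Finsupp.finsetSum_apply]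
    simp only [Finsupp.single_apply]
    rw [smul_eq_mul, mul_sum]
    have h1 : ∀ w ∈ s, a * (if s.erase w = lam then (1 : ZMod 2) else 0) =
        if w ∉ lam then (if s = insert w lam then a else 0) else 0 := by
      intro w hw
      by_cases h : s.erase w = lam
      · have hwl : w ∉ lam := h ▸ notMem_erase w s
        rw [if_pos h, if_pos hwl, if_pos, mul_one]
        rw [← h, insert_erase hw]
      · rw [if_neg h, mul_zero]
        by_cases hwl : w ∉ lam
        · rw [if_pos hwl, if_neg]
          intro h'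
          exact h (by rw [h', erase_insert hwl])
        · rw [if_neg hwl]
    rw [sum_congr rfl h1]
    refine sum_subset (subset_univ s) fun w _ hws => ?_
    by_cases hwl : w ∉ lam
    · rw [if_pos hwl, if_neg]
      intro h'
      exact hws (h' ▸ mem_insert_self w lam)
    · rw [if_neg hwl]

omit [Fintype V] hZ1 in
theorem gb_1 (b : Bool) {P Q X : Finset V} {a : V} (ha : a ∉ P ∪ Q) (hX : X ⊆ P ∪ Q) :
    (if b then gg G j φ Q (insert a P) X else gg G j φ (insert a P) Q X) +
      (if b then gg G j φ Q (insert a P) (insert a X) else gg G j φ (insert a P) Q (insert a X)) =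
    if b then gg G j φ Q P X else gg G j φ P Q X := by
  cases b
  · exact gg_1 G j φ ha hX
  · exact gg_1' G j φ (by rwa [union_comm]) (by rwa [union_comm])

omit [Fintype V] hZ1 in
theorem gb_2 (b : Bool) {P Q X : Finset V} {a : V}
    (hP : G.IsClique ((insert a P : Finset V) : Set V))
    (hQ : G.IsClique (Q : Set V)) (haQ : a ∈ Q) (haP : a ∉ P) :
    (if b then gg G j φ Q (insert a P) X else gg G j φ (insert a P) Q X) =
    if b then gg G j φ Q P X else gg G j φ P Q X := by
  cases b
  · exact gg_2 G j φ hP hQ haQ haP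
  · exact gg_2' G j φ hQ hP haQ haP

omit [Fintype V] hZ1 in
theorem insert_clique {b : Bool} {v : V} {s : Bool} {lam : Finset (WV V)}
    (hl : (XG G).IsClique (lam : Set (WV V)))
    (hP : G.IsClique ((insert v (pb b lam) : Finset V) : Set V)) (hv : v ∉ pb b lam)
    (hs : (v, s, !b) ∉ lam) :
    (XG G).IsClique ((insert (v, s, b) lam : Finset (WV V)) : Set (WV V)) := by
  rw [coe_insert, SimpleGraph.isClique_insert]
  refine ⟨hl, ?_⟩
  rintro ⟨v', s', i'⟩ hw' _
  by_cases hi : i' = b
  · subst hi
    have hv' : v' ∈ pb i' lam := mem_pb.mpr ⟨s', mem_coe.mp hw'⟩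
    refine Or.inl ⟨rfl, hP (mem_coe.mpr (mem_insert_self _ _))
      (mem_coe.mpr (mem_insert_of_mem hv')) ?_⟩
    rintro rfl
    exact hv hv'
  · refine Or.inr ⟨fun h => hi h.symm, ?_⟩
    intro h
    have h1 : v = v' := congrArg Prod.fst h
    have h2 : s = s' := congrArg Prod.snd h
    have h3 : i' = !b := by cases i' <;> cases b <;> simp_all
    subst h1 h2 h3
    exact hs (mem_coe.mp hw')

open Classical in
theorem cyc_col (b : Bool) (lam : Finset (WV V)) (v : V) :
    (∑ s : Bool, if (v, s, b) ∉ lam then cc G j φ Z (insert (v, s, b) lam) else 0) =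
      if (v ∉ pb b lam ∧ insert v (pb b lam) ∈ Z) then
        (if ((XG G).IsClique (lam : Set (WV V)) ∧ pb (!b) lam ∈ Z) then
          (if b then gg G j φ (pb (!b) lam) (pb b lam) (xx lam)
            else gg G j φ (pb b lam) (pb (!b) lam) (xx lam)) else 0) else 0 := by
  by_cases hl : (XG G).IsClique (lam : Set (WV V))
  swap
  · have h0 : ∀ s : Bool, (if (v, s, b) ∉ lam then cc G j φ Z (insert (v, s, b) lam) else 0) =
        (0 : ZMod 2) := by
      intro s
      rw [cc_zero_of_not, ite_self]
      intro h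
      exact hl (SimpleGraph.IsClique.subset (coe_subset.mpr (subset_insert _ _)) h)
    rw [Fintype.sum_bool, h0, h0, if_neg (fun h : _ ∧ _ => hl h.1), ite_self, add_zero]
  by_cases hQ : pb (!b) lam ∈ Z ∧ insert v (pb b lam) ∈ Z
  swap
  · have h0 : ∀ s : Bool, (if (v, s, b) ∉ lam then cc G j φ Z (insert (v, s, b) lam) else 0) =
        (0 : ZMod 2) := by
      intro s
      by_cases hc : (XG G).IsClique ((insert (v, s, b) lam : Finset (WV V)) : Set (WV V))
      · rw [cc_of_clique G j φ Z hc b, pb_insert_same, pb_insert_other,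
          if_neg (fun h : _ ∧ _ => hQ ⟨h.2, h.1⟩), ite_self]
      · rw [cc_zero_of_not G j φ Z hc, ite_self]
    rw [Fintype.sum_bool, h0, h0, add_zero]
    by_cases h1 : pb (!b) lam ∈ Z
    · rw [if_neg (fun h : _ ∧ _ => hQ ⟨h1, h.2⟩)]
    · rw [if_neg (fun h : _ ∧ _ => h1 h.2), ite_self]
  obtain ⟨hQ, hP⟩ := hQ
  have hPc := (hZ1 _ hP).1
  rw [if_pos (show (XG G).IsClique (lam : Set (WV V)) ∧ pb (!b) lam ∈ Z from ⟨hl, hQ⟩)]
  by_cases hv : v ∈ pb b lam
  · rw [if_neg (show ¬ (v ∉ pb b lam ∧ insert v (pb b lam) ∈ Z) from fun h => h.1 hv)]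
    obtain ⟨s₀, hs₀⟩ := mem_pb.mp hv
    refine sum_eq_zero fun s _ => ?_
    by_cases hs : (v, s, b) ∈ lam
    · rw [if_neg (not_not.mpr hs)]
    · rw [if_pos hs, cc_zero_of_not]
      intro h
      have := same_sign h (mem_insert_self (v, s, b) lam) (mem_insert_of_mem hs₀)
      exact hs (this ▸ hs₀)
  rw [if_pos (show v ∉ pb b lam ∧ insert v (pb b lam) ∈ Z from ⟨hv, hP⟩)]
  have hnot : ∀ s, (v, s, b) ∉ lam := fun s h => hv (mem_pb.mpr ⟨s, h⟩)
  have hval : ∀ s, (v, s, !b) ∉ lam →
      (if (v, s, b) ∉ lam then cc G j φ Z (insert (v, s, b) lam) else 0) =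
      (if b then gg G j φ (pb (!b) lam) (insert v (pb b lam))
          (if xor s b = true then insert v (xx lam) else xx lam)
        else gg G j φ (insert v (pb b lam)) (pb (!b) lam)
          (if xor s b = true then insert v (xx lam) else xx lam)) := by
    intro s hs
    rw [if_pos (hnot s), cc_of_clique G j φ Z (insert_clique G hl hPc hv hs) b, pb_insert_same,
      pb_insert_other, if_pos ⟨hP, hQ⟩, xx_insert]
  by_cases hvQ : v ∈ pb (!b) lam
  · obtain ⟨s₀, hs₀⟩ := mem_pb.mp hvQ
    have h0 : (if (v, s₀, b) ∉ lam then cc G j φ Z (insert (v, s₀, b) lam) else 0) =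
        (0 : ZMod 2) := by
      rw [if_pos (hnot s₀), cc_zero_of_not]
      intro h
      have h1 := other_sign h (mem_insert_self (v, s₀, b) lam) (mem_insert_of_mem hs₀)
      exact absurd h1 ((by decide : ∀ t : Bool, t ≠ !t) s₀)
    have hs1 : (v, !s₀, !b) ∉ lam := by
      intro h
      have h1 := same_sign hl h hs₀
      exact absurd h1.symm ((by decide : ∀ t : Bool, t ≠ !t) s₀)
    have hxx : (if xor (!s₀) b = true then insert v (xx lam) else xx lam) = xx lam := by
      split_ifs with hx
      · refine insert_eq_of_mem (mem_xx.mpr ⟨s₀, !b, hs₀, ?_⟩)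
        cases s₀ <;> cases b <;> simp_all
      · rfl
    have h1 := hval (!s₀) hs1
    rw [hxx, gb_2 G j φ b hPc (hZ1 _ hQ).1 hvQ hv] at h1
    rw [Fintype.sum_bool]
    cases s₀
    · rw [h0, add_zero]
      exact h1
    · rw [h0, zero_add]
      exact h1
  · have hns : ∀ s, (v, s, !b) ∉ lam := fun s h => hvQ (mem_pb.mpr ⟨s, h⟩)
    rw [Fintype.sum_bool, hval true (hns true), hval false (hns false)]
    have h1 := gb_1 G j φ b (P := pb b lam) (Q := pb (!b) lam) (X := xx lam) (a := v)
      (fun h => (mem_union.mp h).elim hv hvQ) (xx_subset b lam)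
    cases b
    · simp only [Bool.xor_false, if_true, Bool.false_eq_true, if_false] at h1 ⊢
      rw [add_comm]
      exact h1
    · simp only [Bool.xor_true, Bool.not_true, Bool.false_eq_true, if_false, Bool.not_false,
        if_true] at h1 ⊢
      exact h1

include hZ2 in
theorem cc_d : dS (cc G j φ Z) = 0 := by
  classical
  ext lam
  rw [dS_apply, Finsupp.zero_apply, Fintype.sum_prod_type]
  simp only [Fintype.sum_prod_type]
  have h1 : (∑ v : V, ∑ s : Bool, ∑ b : Bool,
      (if (v, s, b) ∉ lam then cc G j φ Z (insert (v, s, b) lam) else 0)) =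
      ∑ b : Bool, ∑ v : V, ∑ s : Bool,
        (if (v, s, b) ∉ lam then cc G j φ Z (insert (v, s, b) lam) else 0) := by
    rw [sum_comm]
    simp only [Fintype.sum_bool, sum_add_distrib]
    abel
  rw [h1]
  refine sum_eq_zero fun b _ => ?_
  simp only [cyc_col G j φ Z hZ1 b lam]
  rw [← sum_filter, sum_const]
  by_cases hc : (pb b lam).card = j
  · obtain ⟨k, hk⟩ := hZ2 (pb b lam) hc
    have h2 : (univ.filter (fun v => v ∉ pb b lam ∧ insert v (pb b lam) ∈ Z)).card = k + k := by
      rw [← hk]
    rw [h2, add_nsmul]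
    exact CharTwo.add_self_eq_zero _
  · have h2 : univ.filter (fun v => v ∉ pb b lam ∧ insert v (pb b lam) ∈ Z) = ∅ := by
      rw [filter_eq_empty_iff]
      rintro v - ⟨h3, h4⟩
      have := (hZ1 _ h4).2
      rw [card_insert_of_notMem h3] at this
      omega
    rw [h2, card_empty, zero_nsmul]

end cyc

/-! ### the word of a clique -/

/-- the clique with given projections and sign set -/
def mkL (σ τ X : Finset V) : Finset (WV V) :=
  σ.image (fun v => (v, decide (v ∈ X), false)) ∪ τ.image (fun v => (v, !decide (v ∈ X), true))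

theorem mem_mkL {σ τ X : Finset V} {v : V} {s i : Bool} :
    (v, s, i) ∈ mkL σ τ X ↔ (i = false ∧ v ∈ σ ∧ s = decide (v ∈ X)) ∨
      (i = true ∧ v ∈ τ ∧ s = !decide (v ∈ X)) := by
  unfold mkL
  rw [mem_union, mem_image, mem_image]
  constructor
  · rintro (⟨u, hu, h⟩ | ⟨u, hu, h⟩)
    · have h1 : u = v := congrArg Prod.fst h
      have h2 : decide (u ∈ X) = s := congrArg (fun w : WV V => w.2.1) h
      have h3 : false = i := congrArg (fun w : WV V => w.2.2) h
      subst h1
      exact Or.inl ⟨h3.symm, hu, h2.symm⟩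
    · have h1 : u = v := congrArg Prod.fst h
      have h2 : (!decide (u ∈ X)) = s := congrArg (fun w : WV V => w.2.1) h
      have h3 : true = i := congrArg (fun w : WV V => w.2.2) h
      subst h1
      exact Or.inr ⟨h3.symm, hu, h2.symm⟩
  · rintro (⟨rfl, h1, rfl⟩ | ⟨rfl, h1, rfl⟩)
    · exact Or.inl ⟨v, h1, rfl⟩
    · exact Or.inr ⟨v, h1, rfl⟩

theorem pb_mkL_false (σ τ X : Finset V) : pb false (mkL σ τ X) = σ := by
  ext v
  rw [mem_pb]
  simp only [mem_mkL]
  simp

theorem pb_mkL_true (σ τ X : Finset V) : pb true (mkL σ τ X) = τ := by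
  ext v
  rw [mem_pb]
  simp only [mem_mkL]
  simp

theorem xx_mkL {σ τ X : Finset V} (hX : X ⊆ σ ∪ τ) : xx (mkL σ τ X) = X := by
  ext v
  rw [mem_xx]
  simp only [mem_mkL]
  constructor
  · rintro ⟨s, i, ⟨rfl, _, rfl⟩ | ⟨rfl, _, rfl⟩, h⟩
    · simpa using h
    · simpa using h
  · intro hv
    rcases mem_union.mp (hX hv) with h | h
    · exact ⟨_, _, Or.inl ⟨rfl, h, rfl⟩, by simpa using hv⟩
    · exact ⟨_, _, Or.inr ⟨rfl, h, rfl⟩, by simpa using hv⟩

theorem mkL_clique {σ τ : Finset V} (hσ : G.IsClique (σ : Set V)) (hτ : G.IsClique (τ : Set V))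
    (X : Finset V) : (XG G).IsClique ((mkL σ τ X : Finset (WV V)) : Set (WV V)) := by
  rintro ⟨v, s, i⟩ hw ⟨v', s', i'⟩ hw' hne
  rcases mem_mkL.mp (mem_coe.mp hw) with ⟨rfl, h1, rfl⟩ | ⟨rfl, h1, rfl⟩ <;>
  rcases mem_mkL.mp (mem_coe.mp hw') with ⟨rfl, h2, rfl⟩ | ⟨rfl, h2, rfl⟩
  · refine Or.inl ⟨rfl, hσ (mem_coe.mpr h1) (mem_coe.mpr h2) ?_⟩
    rintro rfl
    exact hne rfl
  · refine Or.inr ⟨Bool.false_ne_true, fun h => ?_⟩
    have e1 : v = v' := congrArg Prod.fst h
    subst e1
    have e2 : decide (v ∈ X) = !decide (v ∈ X) := congrArg Prod.snd h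
    exact absurd e2 ((by decide : ∀ t : Bool, t ≠ !t) _)
  · refine Or.inr ⟨Bool.false_ne_true.symm, fun h => ?_⟩
    have e1 : v = v' := congrArg Prod.fst h
    subst e1
    have e2 : (!decide (v ∈ X)) = decide (v ∈ X) := congrArg Prod.snd h
    exact absurd e2.symm ((by decide : ∀ t : Bool, t ≠ !t) _)
  · refine Or.inl ⟨rfl, hτ (mem_coe.mpr h1) (mem_coe.mpr h2) ?_⟩
    rintro rfl
    exact hne rfl

theorem mkL_eta {lam : Finset (WV V)} (hl : (XG G).IsClique (lam : Set (WV V))) :
    mkL (pb false lam) (pb true lam) (xx lam) = lam := by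
  have key : ∀ v s i, (v, s, i) ∈ lam → (v ∈ xx lam ↔ xor s i = true) := by
    intro v s i h
    constructor
    · intro hv
      obtain ⟨t, k, hk, hx⟩ := mem_xx.mp hv
      by_cases hki : k = i
      · rw [hki] at hk hx
        rw [same_sign hl h hk]
        exact hx
      · have hk' : k = !i := by
          revert hki
          cases k <;> cases i <;> decide
        rw [hk'] at hk hx
        have := other_sign hl h hk
        rw [this] at hx
        revert hx
        cases s <;> cases i <;> decide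
    · intro hx
      exact mem_xx.mpr ⟨s, i, h, hx⟩
  ext ⟨v, s, i⟩
  rw [mem_mkL, mem_pb, mem_pb]
  constructor
  · rintro (⟨rfl, ⟨t, ht⟩, h⟩ | ⟨rfl, ⟨t, ht⟩, h⟩)
    · have h1 : decide (v ∈ xx lam) = t := by
        have := key v t false ht
        by_cases h2 : v ∈ xx lam
        · have h3 := this.mp h2
          simp only [h2, decide_true]
          revert h3
          cases t <;> decide
        · have h3 : ¬ (xor t false = true) := fun h3 => h2 (this.mpr h3)
          simp only [h2, decide_false]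
          revert h3
          cases t <;> decide
      rw [h, h1]
      exact ht
    · have h1 : decide (v ∈ xx lam) = !t := by
        have := key v t true ht
        by_cases h2 : v ∈ xx lam
        · have h3 := this.mp h2
          simp only [h2, decide_true]
          revert h3
          cases t <;> decide
        · have h3 : ¬ (xor t true = true) := fun h3 => h2 (this.mpr h3)
          simp only [h2, decide_false]
          revert h3
          cases t <;> decide
      rw [h, h1, Bool.not_not]
      exact ht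
  · intro h
    have h1 := key v s i h
    cases i
    · refine Or.inl ⟨rfl, ⟨s, h⟩, ?_⟩
      by_cases h2 : v ∈ xx lam
      · have h3 := h1.mp h2
        simp only [h2, decide_true]
        revert h3
        cases s <;> decide
      · have h3 : ¬ (xor s false = true) := fun h3 => h2 (h1.mpr h3)
        simp only [h2, decide_false]
        revert h3
        cases s <;> decide
    · refine Or.inr ⟨rfl, ⟨s, h⟩, ?_⟩
      by_cases h2 : v ∈ xx lam
      · have h3 := h1.mp h2
        simp only [h2, decide_true]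
        revert h3
        cases s <;> decide
      · have h3 : ¬ (xor s true = true) := fun h3 => h2 (h1.mpr h3)
        simp only [h2, decide_false]
        revert h3
        cases s <;> decide

/-- the block of a vertex -/
def blk (σ τ X : Finset V) (v : V) : List (Bool × Bool) :=
  if v ∈ σ then
    (if v ∈ τ then
      (if v ∈ X then [(false, true), (true, false)] else [(false, false), (true, true)])
    else [(decide (v ∈ X), false)])
  else [(!decide (v ∈ X), true)]

theorem mem_blk {σ τ X : Finset V} {v : V} (hv : v ∈ σ ∪ τ) (p : Bool × Bool) :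
    p ∈ blk σ τ X v ↔ (v, p.1, p.2) ∈ mkL σ τ X := by
  obtain ⟨s, i⟩ := p
  rw [mem_mkL]
  unfold blk
  rcases mem_union.mp hv with h | h
  · by_cases h2 : v ∈ τ
    · by_cases h3 : v ∈ X
      · simp only [h, h2, h3, if_true, decide_true, true_and, List.mem_cons, Prod.mk.injEq,
          List.not_mem_nil, or_false, Bool.not_true]
        cases s <;> cases i <;> decide
      · simp only [h, h2, h3, if_true, if_false, decide_false, true_and, List.mem_cons,
          Prod.mk.injEq, List.not_mem_nil, or_false, Bool.not_false]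
        cases s <;> cases i <;> decide
    · simp only [h, h2, if_true, if_false, true_and, false_and, and_false, or_false,
        List.mem_cons, Prod.mk.injEq, List.not_mem_nil]
      exact and_comm
  · by_cases h2 : v ∈ σ
    · by_cases h3 : v ∈ X
      · simp only [h, h2, h3, if_true, decide_true, true_and, List.mem_cons, Prod.mk.injEq,
          List.not_mem_nil, or_false, Bool.not_true]
        cases s <;> cases i <;> decide
      · simp only [h, h2, h3, if_true, if_false, decide_false, true_and, List.mem_cons,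
          Prod.mk.injEq, List.not_mem_nil, or_false, Bool.not_false]
        cases s <;> cases i <;> decide
    · simp only [h, h2, if_false, true_and, false_and, and_false, false_or,
        List.mem_cons, Prod.mk.injEq, List.not_mem_nil, or_false]
      exact and_comm

theorem blk_pairwise (σ τ X : Finset V) (v : V) :
    (blk σ τ X v).Pairwise (fun p q => toLex p < toLex q) := by
  unfold blk
  split_ifs
  · simp [Prod.Lex.lt_iff]
  · simp [Prod.Lex.lt_iff]
  · simp
  · simp

theorem word_mkL (σ τ X : Finset V) :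
    word (mkL σ τ X) = ((σ ∪ τ).sort (· ≤ ·)).flatMap (fun v => (blk σ τ X v).map Prod.snd) := by
  let L : List (Lex (V × Lex (Bool × Bool))) :=
    ((σ ∪ τ).sort (· ≤ ·)).flatMap (fun v => (blk σ τ X v).map (fun p => toLex (v, toLex p)))
  have hpw : L.Pairwise (· < ·) := by
    rw [List.pairwise_flatMap]
    constructor
    · intro v _
      rw [List.pairwise_map]
      refine (blk_pairwise σ τ X v).imp ?_
      intro p q hpq
      rw [Prod.Lex.lt_iff]
      exact Or.inr ⟨rfl, hpq⟩
    · have h1 : ((σ ∪ τ).sort (· ≤ ·)).Pairwise (· < ·) := by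
        have := (σ ∪ τ).sortedLT_sort
        exact this.pairwise
      refine h1.imp ?_
      intro a b hab x hx y hy
      obtain ⟨p, -, rfl⟩ := List.mem_map.mp hx
      obtain ⟨q, -, rfl⟩ := List.mem_map.mp hy
      rw [Prod.Lex.lt_iff]
      exact Or.inl hab
  have hset : L.toFinset = (mkL σ τ X).image (fun w => toLex (w.1, toLex w.2)) := by
    ext x
    rw [List.mem_toFinset, List.mem_flatMap, mem_image]
    constructor
    · rintro ⟨v, hv, hx⟩
      obtain ⟨p, hp, rfl⟩ := List.mem_map.mp hx
      rw [Finset.mem_sort] at hv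
      exact ⟨(v, p.1, p.2), (mem_blk hv p).mp hp, rfl⟩
    · rintro ⟨⟨v, s, i⟩, hw, rfl⟩
      have hv : v ∈ σ ∪ τ := by
        rcases mem_mkL.mp hw with ⟨_, h, _⟩ | ⟨_, h, _⟩
        · exact mem_union_left _ h
        · exact mem_union_right _ h
      refine ⟨v, (Finset.mem_sort _).mpr hv, List.mem_map.mpr ⟨(s, i), (mem_blk hv _).mpr hw, rfl⟩⟩
  have hnd : L.Nodup := hpw.imp (fun h => ne_of_lt h)
  have hsort : ((mkL σ τ X).image (fun w => toLex (w.1, toLex w.2))).sort (· ≤ ·) = L := by
    rw [← hset]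
    exact (List.toFinset_sort (r := (· ≤ ·)) hnd).mpr (hpw.imp (fun h => le_of_lt h))
  unfold word
  rw [hsort, List.map_flatMap]
  congr 1
  funext v
  rw [List.map_map]
  rfl

theorem blk_snd {σ τ X X₀ : Finset V} (h : X ∩ (σ ∩ τ) = X₀) (v : V) :
    (blk σ τ X v).map Prod.snd = (blk σ τ X₀ v).map Prod.snd := by
  unfold blk
  by_cases h1 : v ∈ σ
  · by_cases h2 : v ∈ τ
    · have h3 : v ∈ X ↔ v ∈ X₀ := by
        rw [← h, mem_inter, mem_inter]
        tauto
      simp only [h1, h2, if_true, h3]
    · simp only [h1, h2, if_true, if_false, List.map_cons, List.map_nil]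
  · simp only [h1, if_false, List.map_cons, List.map_nil]

theorem altb_flatMap (X : Finset V) (l : List V) :
    altb false (l.flatMap (fun v => if v ∈ X then [true, false] else [false, true])) = true ↔
      ∀ v ∈ l, v ∉ X := by
  induction l with
  | nil => simp [altb]
  | cons a l ih =>
    rw [List.flatMap_cons]
    by_cases ha : a ∈ X
    · simp [ha, altb]
    · simp only [ha, if_false, List.cons_append, List.nil_append, altb, beq_self_eq_true,
        Bool.not_false, Bool.true_and, Bool.not_true, List.mem_cons, forall_eq_or_imp,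
        not_false_eq_true, true_and]
      exact ih

theorem altb_diag {σ X : Finset V} (hX : X ⊆ σ) :
    altb false (word (mkL σ σ X)) = true ↔ X = ∅ := by
  rw [word_mkL]
  have h1 : ((σ ∪ σ).sort (· ≤ ·)).flatMap (fun v => (blk σ σ X v).map Prod.snd) =
      ((σ ∪ σ).sort (· ≤ ·)).flatMap (fun v => if v ∈ X then [true, false] else [false, true]) := by
    rw [List.flatMap_def, List.flatMap_def]
    congr 1
    refine List.map_congr_left fun v hv => ?_
    rw [Finset.mem_sort, union_self] at hv
    unfold blk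
    simp only [hv, if_true]
    split_ifs <;> rfl
  rw [h1, altb_flatMap, eq_empty_iff_forall_notMem]
  constructor
  · intro h v hv
    exact h v ((Finset.mem_sort _).mpr (by rw [union_self]; exact hX hv)) hv
  · intro h v _
    exact h v

section alt

variable [Fintype V] (Z : Finset (Finset V))

omit [Fintype V] in
open Classical in
theorem inner_sum {σ τ : Finset V} (hσ : G.IsClique (σ : Set V) ∧ σ.card = j + 1)
    (hτ : G.IsClique (τ : Set V) ∧ τ.card = j + 1) :
    ∑ X ∈ (σ ∪ τ).powerset, (if altb false (word (mkL σ τ X)) then gg G j φ σ τ X else 0) =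
      if τ = σ then φ σ else 0 := by
  by_cases hst : τ = σ
  · subst hst
    rw [if_pos rfl, sum_eq_single ∅]
    · rw [if_pos ((altb_diag (empty_subset _)).mpr rfl), gg_diag G j φ ∅ hσ.1 hσ.2]
    · intro X hX hne
      rw [if_neg]
      intro h
      rw [mem_powerset, union_self] at hX
      exact hne ((altb_diag hX).mp h)
    · intro h
      exact absurd (mem_powerset.mpr (empty_subset _)) h
  · rw [if_neg hst]
    have hc : (σ ∩ τ).card ≤ j := by
      by_contra hlt
      have h1 : σ ∩ τ = σ := eq_of_subset_of_card_le inter_subset_left (by omega)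
      have h2 : σ ∩ τ = τ := eq_of_subset_of_card_le inter_subset_right (by omega)
      exact hst (h2.symm.trans h1)
    rw [← sum_fiberwise_of_maps_to (g := fun X => X ∩ (σ ∩ τ)) (t := (σ ∩ τ).powerset)
      (fun X _ => mem_powerset.mpr inter_subset_right)]
    refine sum_eq_zero fun X₀ _ => ?_
    have h1 : ∀ X ∈ (σ ∪ τ).powerset.filter (fun X => X ∩ (σ ∩ τ) = X₀),
        (if altb false (word (mkL σ τ X)) then gg G j φ σ τ X else 0) =
        if altb false (word (mkL σ τ X₀)) then gg G j φ σ τ X else 0 := by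
      intro X hX
      have h2 : word (mkL σ τ X) = word (mkL σ τ X₀) := by
        rw [word_mkL, word_mkL]
        simp only [blk_snd (mem_filter.mp hX).2]
      rw [h2]
    rw [sum_congr rfl h1]
    split_ifs
    · exact gg_4 G j φ hc
    · exact sum_const_zero

theorem cc_alt (hZ1 : ∀ σ ∈ Z, G.IsClique (σ : Set V) ∧ σ.card = j + 1)
    (h1 : ∑ σ ∈ Z, φ σ = 1) :
    (cc G j φ Z).sum (fun lam n => if altb false (word lam) then n else 0) = 1 := by
  classical
  rw [Finsupp.sum_fintype _ _ (fun _ => by simp)]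
  have h2 : ∀ lam : Finset (WV V), (if altb false (word lam) then cc G j φ Z lam else 0) =
      if (XG G).IsClique (lam : Set (WV V)) ∧ pb false lam ∈ Z ∧ pb true lam ∈ Z then
        (if altb false (word lam) then gg G j φ (pb false lam) (pb true lam) (xx lam) else 0)
      else 0 := by
    intro lam
    rw [cc_apply]
    by_cases hl : (XG G).IsClique (lam : Set (WV V))
    · by_cases hz : pb false lam ∈ Z ∧ pb true lam ∈ Z
      · rw [if_pos hl, if_pos (show p1 lam ∈ Z ∧ p2 lam ∈ Z from hz),
          if_pos (show (XG G).IsClique (lam : Set (WV V)) ∧ pb false lam ∈ Z ∧ pb true lam ∈ Z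
            from ⟨hl, hz⟩)]
        rfl
      · rw [if_pos hl, if_neg (show ¬ (p1 lam ∈ Z ∧ p2 lam ∈ Z) from hz), ite_self,
          if_neg (show ¬ ((XG G).IsClique (lam : Set (WV V)) ∧ pb false lam ∈ Z ∧
            pb true lam ∈ Z) from fun h => hz h.2)]
    · rw [if_neg hl, ite_self, if_neg (show ¬ ((XG G).IsClique (lam : Set (WV V)) ∧
        pb false lam ∈ Z ∧ pb true lam ∈ Z) from fun h => hl h.1)]
  rw [sum_congr rfl (fun lam _ => h2 lam), ← sum_filter]
  have h3 : ∑ lam ∈ (univ : Finset (Finset (WV V))).filter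
        (fun lam : Finset (WV V) => (XG G).IsClique (↑lam : Set (WV V)) ∧ pb false lam ∈ Z ∧
          pb true lam ∈ Z),
        (if altb false (word lam) then gg G j φ (pb false lam) (pb true lam) (xx lam) else 0) =
      ∑ x ∈ (Z ×ˢ Z).sigma (fun x => (x.1 ∪ x.2).powerset),
        (if altb false (word (mkL x.1.1 x.1.2 x.2)) then gg G j φ x.1.1 x.1.2 x.2 else 0) := by
    refine sum_bij' (fun lam _ => ⟨(pb false lam, pb true lam), xx lam⟩)
      (fun x _ => mkL x.1.1 x.1.2 x.2) ?_ ?_ ?_ ?_ ?_
    · intro lam hlam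
      obtain ⟨-, hl, h4, h5⟩ := mem_filter.mp hlam
      exact mem_sigma.mpr ⟨mem_product.mpr ⟨h4, h5⟩, mem_powerset.mpr (xx_subset false lam)⟩
    · rintro ⟨⟨σ, τ⟩, X⟩ hx
      obtain ⟨h4, h5⟩ := mem_sigma.mp hx
      obtain ⟨h6, h7⟩ := mem_product.mp h4
      refine mem_filter.mpr ⟨mem_univ _, mkL_clique G (hZ1 _ h6).1 (hZ1 _ h7).1 _, ?_, ?_⟩
      · rw [pb_mkL_false]
        exact h6
      · rw [pb_mkL_true]
        exact h7
    · intro lam hlam
      exact mkL_eta G (mem_filter.mp hlam).2.1
    · rintro ⟨⟨σ, τ⟩, X⟩ hx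
      obtain ⟨h4, h5⟩ := mem_sigma.mp hx
      simp only [pb_mkL_false, pb_mkL_true, xx_mkL (mem_powerset.mp h5)]
    · intro lam hlam
      simp only [mkL_eta G (mem_filter.mp hlam).2.1]
  rw [h3, sum_sigma, sum_product, ← h1]
  refine sum_congr rfl fun σ hσ => ?_
  have h4 : ∀ τ ∈ Z, ∑ X ∈ ((σ, τ).1 ∪ (σ, τ).2).powerset,
      (if altb false (word (mkL σ τ X)) then gg G j φ σ τ X else 0) =
      if τ = σ then φ σ else 0 :=
    fun τ hτ => inner_sum G j φ (hZ1 σ hσ) (hZ1 τ hτ)
  rw [sum_congr rfl h4, sum_ite_eq' Z σ (fun _ => φ σ), if_pos hσ]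

end alt

end OS
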