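import Mathlib
import Pool.Agent.Lib.MP_8fe54c_gt.CombDefs

/-!
# RAAG, module A4: the tower of an invariant cycle with alternating parity one (Fan)
-/

namespace OS

open Finsupp Finset

section words

variable {V : Type*} [LinearOrder V]

/-- the lexicographic code of a vertex -/
def fanE (w : WV V) : Lex (V × Lex (Bool × Bool)) := toLex (w.1, toLex w.2)

/-- the copy of a code -/
def fanK (x : Lex (V × Lex (Bool × Bool))) : Bool := (ofLex (ofLex x).2).2

theorem fanE_inj : Function.Injective (fanE (V := V)) := by
  rintro ⟨a, b, c⟩ ⟨a', b', c'⟩ h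
  simp only [fanE, EmbeddingLike.apply_eq_iff_eq, Prod.mk.injEq] at h
  obtain ⟨rfl, rfl, rfl⟩ := h
  rfl

theorem fanK_fanE (w : WV V) : fanK (fanE w) = w.2.2 := rfl

/-- the sorted list of codes -/
def fanL (lam : Finset (WV V)) : List (Lex (V × Lex (Bool × Bool))) :=
  (lam.image fanE).sort (· ≤ ·)

theorem word_eq (lam : Finset (WV V)) : word lam = (fanL lam).map fanK := rfl

theorem mem_fanL {lam : Finset (WV V)} {x : Lex (V × Lex (Bool × Bool))} :
    x ∈ fanL lam ↔ ∃ w ∈ lam, fanE w = x := by
  simp [fanL]

theorem fanL_lt (lam : Finset (WV V)) : (fanL lam).SortedLT := Finset.sortedLT_sort _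

theorem fanL_nodup (lam : Finset (WV V)) : (fanL lam).Nodup := Finset.sort_nodup _ _

theorem fanL_unique {lam : Finset (WV V)} {l : List (Lex (V × Lex (Bool × Bool)))}
    (hl : l.SortedLT) (h : ∀ x, x ∈ l ↔ ∃ w ∈ lam, fanE w = x) : fanL lam = l :=
  (fanL_lt lam).eq_of_mem_iff hl (fun x => by rw [mem_fanL, h])

theorem fanL_erase (lam : Finset (WV V)) (w : WV V) :
    fanL (lam.erase w) = (fanL lam).erase (fanE w) := by
  apply fanL_unique
  · have := (fanL_lt lam).pairwise
    exact (this.sublist List.erase_sublist).sortedLT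
  · intro x
    rw [(fanL_nodup lam).mem_erase_iff, mem_fanL]
    constructor
    · rintro ⟨h1, w', hw', rfl⟩
      exact ⟨w', Finset.mem_erase.2 ⟨fun h => h1 (by rw [h]), hw'⟩, rfl⟩
    · rintro ⟨w', hw', rfl⟩
      have := Finset.mem_erase.1 hw'
      exact ⟨fun h => this.1 (fanE_inj h), w', this.2, rfl⟩

/-- indicator in `ZMod 2` -/
def fanI (b : Bool) (l : List Bool) : ZMod 2 := if altb b l then 1 else 0

theorem fanI_nil (b : Bool) : fanI b [] = 1 := by simp [fanI, altb]

theorem fanI_cons (b x : Bool) (l : List Bool) :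
    fanI b (x :: l) = if x = b then fanI (!b) l else 0 := by
  unfold fanI
  rw [altb]
  by_cases h : x = b <;> simp [h]

theorem fan_list {α : Type*} [DecidableEq α] (k : α → Bool) (l : List α) (hn : l.Nodup)
    (h0 : l ≠ []) (b : Bool) :
    (l.map (fun x => fanI b ((l.erase x).map k))).sum = fanI b (l.map k) + fanI (!b) (l.map k) := by
  induction l generalizing b with
  | nil => exact absurd rfl h0
  | cons y t ih =>
    rw [List.nodup_cons] at hn
    have h1 : (t.map (fun x => fanI b (((y :: t).erase x).map k))) =
        t.map (fun x => if k y = b then fanI (!b) ((t.erase x).map k) else 0) := by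
      apply List.map_congr_left
      intro x hx
      have hxy : y ≠ x := by rintro rfl; exact hn.1 hx
      rw [List.erase_cons_tail (by simpa using hxy), List.map_cons, fanI_cons]
    rw [List.map_cons, List.sum_cons, List.erase_cons_head, h1, List.map_cons, fanI_cons, fanI_cons]
    rcases eq_or_ne t [] with rfl | ht
    · simp only [List.map_nil, List.sum_nil, fanI_nil, add_zero]
      cases b <;> cases k y <;> simp
    · by_cases hy : k y = b
      · have h2 : k y ≠ !b := by rw [hy]; cases b <;> simp
        simp only [if_pos hy, if_neg h2, ih hn.2 ht, Bool.not_not, add_zero]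
        have := CharTwo.add_self_eq_zero (fanI b (t.map k))
        linear_combination this
      · have h2 : k y = !b := by
          revert hy; cases b <;> cases k y <;> simp
        simp only [if_neg hy, if_pos h2, Bool.not_not, List.map_const', List.sum_replicate,
          smul_zero, add_zero, zero_add]

/-- (A5) for cells -/
theorem fan_erase {lam : Finset (WV V)} (h0 : lam.Nonempty) (b : Bool) :
    ∑ w ∈ lam, fanI b (word (lam.erase w)) = fanI b (word lam) + fanI (!b) (word lam) := by
  rw [word_eq, ← fan_list fanK (fanL lam) (fanL_nodup lam) ?_ b]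
  · rw [← List.sum_toFinset _ (fanL_nodup lam)]
    have : (fanL lam).toFinset = lam.image fanE := by
      unfold fanL
      exact Finset.sort_toFinset _ _
    rw [this, Finset.sum_image (fun x _ y _ h => fanE_inj h)]
    refine Finset.sum_congr rfl (fun w _ => ?_)
    rw [word_eq, fanL_erase]
    congr! 3
    exact lawful_beq_subsingleton _ _
  · obtain ⟨w, hw⟩ := h0
    intro h
    have : fanE w ∈ fanL lam := mem_fanL.2 ⟨w, hw, rfl⟩
    rw [h] at this
    simp at this

/-- exchange of the copy on codes -/
def fanT (x : Lex (V × Lex (Bool × Bool))) : Lex (V × Lex (Bool × Bool)) :=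
  toLex ((ofLex x).1, toLex ((ofLex (ofLex x).2).1, !(ofLex (ofLex x).2).2))

theorem fanT_fanE (w : WV V) : fanT (fanE w) = fanE (TW w) := rfl

theorem fanK_fanT (x : Lex (V × Lex (Bool × Bool))) : fanK (fanT x) = !(fanK x) := rfl

variable (G : SimpleGraph V)

theorem fan_clique_ne {lam : Finset (WV V)} (h : (XG G).IsClique (lam : Set (WV V)))
    {w w' : WV V} (hw : w ∈ lam) (hw' : w' ∈ lam) (hne : w ≠ w') :
    (w.1, w.2.1) ≠ (w'.1, w'.2.1) := by
  rcases h (Finset.mem_coe.2 hw) (Finset.mem_coe.2 hw') hne with ⟨_, h2⟩ | ⟨_, h2⟩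
  · intro h3
    simp only [Prod.mk.injEq] at h3
    exact h2.ne h3.1
  · exact h2

theorem fanL_TW {lam : Finset (WV V)} (h : (XG G).IsClique (lam : Set (WV V))) :
    fanL (lam.image TW) = (fanL lam).map fanT := by
  apply fanL_unique
  · rw [List.sortedLT_iff_pairwise, List.pairwise_map]
    have := (fanL_lt lam).pairwise
    refine List.Pairwise.imp_of_mem ?_ this
    intro a b ha hb hab
    obtain ⟨w, hw, rfl⟩ := mem_fanL.1 ha
    obtain ⟨w', hw', rfl⟩ := mem_fanL.1 hb
    have hne : w ≠ w' := by rintro rfl; exact lt_irrefl _ hab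
    have h1 := fan_clique_ne G h hw hw' hne
    obtain ⟨v, s, i⟩ := w
    obtain ⟨v', s', i'⟩ := w'
    simp only [fanE, fanT, Prod.Lex.toLex_lt_toLex, ofLex_toLex] at hab ⊢
    rcases hab with hab | ⟨rfl, hab⟩
    · exact Or.inl hab
    · refine Or.inr ⟨rfl, ?_⟩
      rcases hab with hab | ⟨rfl, hab⟩
      · exact Or.inl hab
      · exact absurd rfl h1
  · intro x
    rw [List.mem_map]
    constructor
    · rintro ⟨y, hy, rfl⟩
      obtain ⟨w, hw, rfl⟩ := mem_fanL.1 hy
      exact ⟨TW w, Finset.mem_image_of_mem _ hw, rfl⟩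
    · rintro ⟨w, hw, rfl⟩
      obtain ⟨w', hw', rfl⟩ := Finset.mem_image.1 hw
      exact ⟨fanE w', mem_fanL.2 ⟨w', hw', rfl⟩, rfl⟩

theorem word_TW {lam : Finset (WV V)} (h : (XG G).IsClique (lam : Set (WV V))) :
    word (lam.image TW) = (word lam).map not := by
  rw [word_eq, word_eq, fanL_TW G h, List.map_map, List.map_map]
  rfl

end words

section tower

variable {V : Type*} [LinearOrder V] (G : SimpleGraph V)

theorem fan_TW_TW (w : WV V) : TW (TW w) = w := by
  obtain ⟨a, b, c⟩ := w
  simp [TW]

theorem fan_TW_inj : Function.Injective (TW (V := V)) := fun a b h => by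
  have := congrArg TW h
  rwa [fan_TW_TW, fan_TW_TW] at this

/-- chains supported on cliques with `k` elements -/
def CS (k : ℕ) : Submodule (ZMod 2) (SC (WV V)) :=
  Finsupp.supported (ZMod 2) (ZMod 2) {lam | (XG G).IsClique (lam : Set (WV V)) ∧ lam.card = k}

variable {G}

theorem CS_induct {k : ℕ} {P : SC (WV V) → Prop} (h0 : P 0)
    (hadd : ∀ x y, P x → P y → P (x + y)) (hsmul : ∀ (n : ZMod 2) x, P x → P (n • x))
    (hs : ∀ lam : Finset (WV V), (XG G).IsClique (lam : Set (WV V)) → lam.card = k →
      P (single lam 1)) {c : SC (WV V)} (hc : c ∈ CS G k) : P c := by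
  unfold CS at hc
  rw [Finsupp.supported_eq_span_single] at hc
  induction hc using Submodule.span_induction with
  | mem x hx =>
    obtain ⟨p, hp, rfl⟩ := hx
    exact hs p hp.1 hp.2
  | zero => exact h0
  | add x y _ _ hx hy => exact hadd x y hx hy
  | smul n x _ hx => exact hsmul n x hx

theorem CS_single {k : ℕ} {lam : Finset (WV V)} (h1 : (XG G).IsClique (lam : Set (WV V)))
    (h2 : lam.card = k) (n : ZMod 2) : single lam n ∈ CS G k :=
  Finsupp.single_mem_supported _ n ⟨h1, h2⟩

theorem dS_one {W : Type*} [DecidableEq W] (lam : Finset W) : dS (single lam 1) = dfin lam := by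
  simp [dS]

theorem mapS_single {W : Type*} [DecidableEq W] (f : W → W) (lam : Finset W) (n : ZMod 2) :
    mapS f (single lam n) = single (lam.image f) n := by
  simp [mapS, Finsupp.lmapDomain_apply, Finsupp.mapDomain_single]

theorem dS_mem {k : ℕ} {c : SC (WV V)} (hc : c ∈ CS G (k + 1)) : dS c ∈ CS G k := by
  refine CS_induct (P := fun c => dS c ∈ CS G k) (by simp) ?_ ?_ ?_ hc
  · intro x y hx hy
    rw [map_add]; exact Submodule.add_mem _ hx hy
  · intro n x hx
    rw [map_smul]; exact Submodule.smul_mem _ n hx
  · intro lam h1 h2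
    show dS (single lam 1) ∈ _
    rw [dS_one]
    unfold dfin
    refine Submodule.sum_mem _ (fun w hw => CS_single ?_ ?_ 1)
    · exact h1.subset (Finset.coe_subset.2 (Finset.erase_subset w lam))
    · simp [Finset.card_erase_of_mem hw, h2]

theorem dS_mapS {W : Type*} [DecidableEq W] {f : W → W} (hf : Function.Injective f) (c : SC W) :
    dS (mapS f c) = mapS f (dS c) := by
  induction c using Finsupp.induction_linear with
  | zero => simp
  | add a b ha hb => simp only [map_add, ha, hb]
  | single lam n =>
    have e : (single lam n : SC W) = n • single lam 1 := by simp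
    rw [e, map_smul, map_smul, map_smul, map_smul]
    congr 1
    rw [mapS_single, dS_one, dS_one]
    unfold dfin
    rw [map_sum, Finset.sum_image (fun x _ y _ h => hf h)]
    refine Finset.sum_congr rfl (fun w _ => ?_)
    rw [mapS_single, Finset.image_erase hf]

theorem dS_dS {W : Type*} [DecidableEq W] (c : SC W) : dS (dS c) = 0 := by
  induction c using Finsupp.induction_linear with
  | zero => simp
  | add a b ha hb => simp only [map_add, ha, hb, add_zero]
  | single lam n =>
    have e : (single lam n : SC W) = n • single lam 1 := by simp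
    rw [e, map_smul, map_smul]
    have : dS (dS (single lam 1 : SC W)) = 0 := by
      rw [dS_one]
      unfold dfin
      rw [map_sum]
      simp only [dS_one]
      unfold dfin
      rw [Finset.sum_sigma']
      refine Finset.sum_involution (fun p _ => ⟨p.2, p.1⟩) ?_ ?_ ?_ ?_
      · rintro ⟨a, b⟩ h
        simp only [Finset.mem_sigma, Finset.mem_erase] at h
        rw [Finset.erase_right_comm, ← two_smul (ZMod 2)]
        have h2 : (2 : ZMod 2) = 0 := by decide
        rw [h2, zero_smul]
      · rintro ⟨a, b⟩ h _ h2
        simp only [Finset.mem_sigma, Finset.mem_erase] at h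
        simp only [Sigma.mk.injEq] at h2
        exact h.2.1 h2.1
      · rintro ⟨a, b⟩ h
        simp only [Finset.mem_sigma, Finset.mem_erase] at h ⊢
        exact ⟨h.2.2, fun h' => h.2.1 h'.symm, h.1⟩
      · rintro ⟨a, b⟩ h
        rfl
    rw [this, smul_zero]

/-- alternating count -/
noncomputable def fanA (b : Bool) : SC (WV V) →ₗ[ZMod 2] ZMod 2 :=
  Finsupp.lsum (ZMod 2) (fun lam => LinearMap.toSpanSingleton (ZMod 2) (ZMod 2) (fanI b (word lam)))

theorem fanA_single (b : Bool) (lam : Finset (WV V)) (n : ZMod 2) :
    fanA b (single lam n) = n * fanI b (word lam) := by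
  simp [fanA]

theorem fanA_eq (b : Bool) (c : SC (WV V)) :
    c.sum (fun lam n => if altb b (word lam) then n else 0) = fanA b c := by
  unfold fanA
  rw [Finsupp.lsum_apply]
  refine Finsupp.sum_congr (fun lam _ => ?_)
  simp only [LinearMap.toSpanSingleton_apply, smul_eq_mul, fanI]
  split_ifs <;> simp

theorem fanA_dS {k : ℕ} {c : SC (WV V)} (hc : c ∈ CS G (k + 1)) (b : Bool) :
    fanA b (dS c) = fanA b c + fanA (!b) c := by
  refine CS_induct (P := fun c => fanA b (dS c) = fanA b c + fanA (!b) c) (by simp) ?_ ?_ ?_ hc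
  · intro x y hx hy
    simp only [map_add, hx, hy]; abel
  · intro n x hx
    simp only [map_smul, hx, smul_add]
  · intro lam h1 h2
    show fanA b (dS (single lam 1)) = fanA b (single lam 1) + fanA (!b) (single lam 1)
    rw [dS_one]
    unfold dfin
    rw [map_sum]
    simp only [fanA_single, one_mul]
    exact fan_erase (Finset.card_pos.1 (by omega)) b

/-- the part of a chain with first letter `b` -/
noncomputable def fanP (b : Bool) : SC (WV V) →ₗ[ZMod 2] SC (WV V) :=
  Finsupp.lsum (ZMod 2) (fun lam => LinearMap.toSpanSingleton (ZMod 2) _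
    (if (word lam).head? = some b then single lam 1 else 0))

theorem fanP_one (b : Bool) (lam : Finset (WV V)) :
    fanP b (single lam 1) = if (word lam).head? = some b then single lam 1 else 0 := by
  simp [fanP]

theorem word_ne_nil {lam : Finset (WV V)} (h0 : lam.Nonempty) : word lam ≠ [] := by
  obtain ⟨w, hw⟩ := h0
  intro h
  rw [word_eq, List.map_eq_nil_iff] at h
  have : fanE w ∈ fanL lam := mem_fanL.2 ⟨w, hw, rfl⟩
  rw [h] at this
  simp at this

theorem fanP_add {k : ℕ} {c : SC (WV V)} (hc : c ∈ CS G (k + 1)) :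
    fanP false c + fanP true c = c := by
  refine CS_induct (P := fun c => fanP false c + fanP true c = c) (by simp) ?_ ?_ ?_ hc
  · intro x y hx hy
    simp only [map_add]
    conv_rhs => rw [← hx, ← hy]
    abel
  · intro n x hx
    simp only [map_smul]
    rw [← smul_add, hx]
  · intro lam h1 h2
    show fanP false (single lam 1) + fanP true (single lam 1) = single lam 1
    rw [fanP_one, fanP_one]
    have h0 := word_ne_nil (Finset.card_pos.1 (by omega : 0 < lam.card))
    obtain ⟨x, t, hxt⟩ := List.exists_cons_of_ne_nil h0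
    rw [hxt]
    cases x <;> simp

theorem fanP_mem {k : ℕ} {c : SC (WV V)} (hc : c ∈ CS G k) (b : Bool) : fanP b c ∈ CS G k := by
  refine CS_induct (P := fun c => fanP b c ∈ CS G k) (by simp) ?_ ?_ ?_ hc
  · intro x y hx hy
    rw [map_add]; exact Submodule.add_mem _ hx hy
  · intro n x hx
    rw [map_smul]; exact Submodule.smul_mem _ n hx
  · intro lam h1 h2
    show fanP b (single lam 1) ∈ _
    rw [fanP_one]
    split_ifs
    · exact CS_single h1 h2 1
    · exact Submodule.zero_mem _

theorem mapS_fanP {k : ℕ} {c : SC (WV V)} (hc : c ∈ CS G k) (b : Bool) :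
    mapS TW (fanP b c) = fanP (!b) (mapS TW c) := by
  refine CS_induct (P := fun c => mapS TW (fanP b c) = fanP (!b) (mapS TW c)) (by simp) ?_ ?_ ?_ hc
  · intro x y hx hy
    simp only [map_add, hx, hy]
  · intro n x hx
    simp only [map_smul, hx]
  · intro lam h1 h2
    show mapS TW (fanP b (single lam 1)) = fanP (!b) (mapS TW (single lam 1))
    rw [fanP_one, mapS_single, fanP_one, word_TW G h1, List.head?_map]
    rcases h : (word lam).head? with _ | x
    · simp
    · cases x <;> cases b <;> simp [mapS_single]

theorem fanA_fanP {k : ℕ} {c : SC (WV V)} (hc : c ∈ CS G (k + 1)) (b : Bool) :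
    fanA (!b) (fanP b c) = 0 := by
  refine CS_induct (P := fun c => fanA (!b) (fanP b c) = 0) (by simp) ?_ ?_ ?_ hc
  · intro x y hx hy
    simp only [map_add, hx, hy, add_zero]
  · intro n x hx
    simp only [map_smul, hx, smul_zero]
  · intro lam h1 h2
    show fanA (!b) (fanP b (single lam 1)) = 0
    rw [fanP_one]
    split_ifs with h
    · rw [fanA_single, one_mul]
      rcases hw : word lam with _ | ⟨x, t⟩
      · rw [hw] at h; simp at h
      · rw [hw] at h
        simp only [List.head?_cons, Option.some.injEq] at h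
        rw [fanI_cons, if_neg]
        rw [h]; cases b <;> simp
    · simp

theorem dS_fanP {c : SC (WV V)} (hc : c ∈ CS G (0 + 1)) :
    dS (fanP false c) = fanA false (fanP false c) • single ∅ 1 := by
  refine CS_induct (P := fun c => dS (fanP false c) = fanA false (fanP false c) • single ∅ 1)
    (by simp) ?_ ?_ ?_ hc
  · intro x y hx hy
    simp only [map_add, hx, hy, add_smul]
  · intro n x hx
    simp only [map_smul, hx, smul_eq_mul, mul_smul]
  · intro lam h1 h2
    obtain ⟨w, rfl⟩ := Finset.card_eq_one.1 h2
    show dS (fanP false (single {w} 1)) = fanA false (fanP false (single {w} 1)) • single ∅ 1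
    rw [fanP_one]
    have hw : word ({w} : Finset (WV V)) = [w.2.2] := by
      simp [word_eq, fanL, fanK_fanE]
    split_ifs with h
    · rw [dS_one, fanA_single, one_mul, hw]
      rw [hw] at h
      simp only [List.head?_cons, Option.some.injEq] at h
      rw [h, fanI_cons, if_pos rfl, fanI_nil, one_smul]
      simp [dfin]
    · simp

theorem tower_aux (m : ℕ) (c : SC (WV V)) (hs : c ∈ CS G (m + 1))
    (hT : mapS TW c = c) (hd : dS c = 0) (ha : fanA false c = 1) :
    ∃ u : ℕ → SC (WV V), (∀ i ≤ m, u i ∈ CS G (i + 1)) ∧ dS (u 0) = Finsupp.single ∅ 1 ∧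
      (∀ i < m, dS (u (i + 1)) = u i + mapS TW (u i)) ∧ u m + mapS TW (u m) = c := by
  induction m generalizing c with
  | zero =>
    have hA : fanA false (fanP false c) = 1 := by
      have h1 := fanP_add hs
      have h2 := fanA_fanP hs true
      rw [← ha]
      conv_rhs => rw [← h1, map_add]
      rw [Bool.not_true] at h2
      rw [h2, add_zero]
    refine ⟨fun _ => fanP false c, ?_, ?_, ?_, ?_⟩
    · intro i hi
      have : i = 0 := by omega
      subst this
      exact fanP_mem hs false
    · rw [dS_fanP hs, hA, one_smul]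
    · intro i hi; omega
    · rw [mapS_fanP hs, hT, Bool.not_false]
      exact fanP_add hs
  | succ m ih =>
    have hA : fanA false (fanP false c) = 1 := by
      have h1 := fanP_add hs
      have h2 := fanA_fanP hs true
      rw [← ha]
      conv_rhs => rw [← h1, map_add]
      rw [Bool.not_true] at h2
      rw [h2, add_zero]
    have hP := fanP_mem hs false
    have hsum : fanP false c + mapS TW (fanP false c) = c := by
      rw [mapS_fanP hs, hT, Bool.not_false]
      exact fanP_add hs
    have hc' : mapS TW (dS (fanP false c)) = dS (fanP false c) := by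
      rw [← dS_mapS fan_TW_inj]
      have h1 : dS (fanP false c) + dS (mapS TW (fanP false c)) = 0 := by
        rw [← map_add, hsum, hd]
      have h2 : dS (fanP false c) + dS (fanP false c) = 0 := by
        rw [← two_smul (ZMod 2)]
        have : (2 : ZMod 2) = 0 := by decide
        rw [this, zero_smul]
      exact add_left_cancel (h1.trans h2.symm)
    obtain ⟨u, hu1, hu2, hu3, hu4⟩ := ih (dS (fanP false c)) (dS_mem hP) hc' (dS_dS _) (by
      rw [fanA_dS hP, fanA_fanP hs false, add_zero, hA])
    refine ⟨fun i => if i = m + 1 then fanP false c else u i, ?_, ?_, ?_, ?_⟩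
    · intro i hi
      by_cases h : i = m + 1
      · subst h; simpa using hP
      · simp only [if_neg h]
        exact hu1 i (by omega)
    · simpa using hu2
    · intro i hi
      by_cases h : i = m
      · subst h
        simp only [if_true, if_neg (Nat.lt_succ_self i).ne]
        exact hu4.symm
      · have h1 : i + 1 ≠ m + 1 := by omega
        have h2 : i ≠ m + 1 := by omega
        simp only [if_neg h1, if_neg h2]
        exact hu3 i (by omega)
    · simpa using hsum

variable (G) in
theorem tower_of_cycle (m : ℕ) (c : SC (WV V))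
    (hs : ∀ lam ∈ c.support, (XG G).IsClique (lam : Set (WV V)) ∧ lam.card = m + 1)
    (hT : mapS TW c = c) (hd : dS c = 0)
    (ha : c.sum (fun lam n => if altb false (word lam) then n else 0) = 1) : HasTower G m := by
  have hs' : c ∈ CS G (m + 1) := by
    unfold CS
    rw [Finsupp.mem_supported]
    intro lam hlam
    exact hs lam (Finset.mem_coe.1 hlam)
  rw [fanA_eq] at ha
  obtain ⟨u, h1, h2, h3, _⟩ := tower_aux m c hs' hT hd ha
  refine ⟨u, ?_, h2, h3⟩
  intro i hi s hs0
  have := h1 i hi
  unfold CS at this
  rw [Finsupp.mem_supported] at this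
  exact this (Finset.mem_coe.2 hs0)

end tower

end OS
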