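import Mathlib
import Pool.Agent.Lib.MP_8fe54c_gt.ArtDefs
import Pool.Agent.Lib.MP_8fe54c_gt.CombCyc
import Pool.Agent.Lib.MP_8fe54c_gt.CombFan

/-!
# ARTIN, module AR10: transport of a homology class to a flag complex
-/

namespace OS

open Finsupp Finset

section transp

variable {V V' W : Type*} [DecidableEq V] [DecidableEq V'] [DecidableEq W]

theorem AR10_add_self (x : SC W) : x + x = 0 := by
  ext s
  exact CharTwo.add_self_eq_zero _

/-- cone operator -/
noncomputable def AR10_cone (a : W) : SC W →ₗ[ZMod 2] SC W :=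
  Finsupp.lsum (ZMod 2) (fun s : Finset W => LinearMap.toSpanSingleton (ZMod 2) (SC W)
    (if a ∈ s then 0 else single (insert a s) 1))

theorem AR10_cone_one (a : W) (s : Finset W) :
    AR10_cone a (single s 1) = if a ∈ s then 0 else single (insert a s) 1 := by
  simp [AR10_cone]

theorem AR10_cone_d (a : W) (x : SC W) : dS (AR10_cone a x) + AR10_cone a (dS x) = x := by
  induction x using Finsupp.induction_linear with
  | zero => simp
  | add b c hb hc =>
    simp only [map_add]
    rw [add_add_add_comm, hb, hc]
  | single s n =>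
    have e : (single s n : SC W) = n • single s 1 := by simp
    rw [e, map_smul, map_smul, map_smul, map_smul, ← smul_add]
    congr 1
    rw [AR10_cone_one, dS_one s]
    unfold dfin
    rw [map_sum]
    simp only [AR10_cone_one]
    by_cases h : a ∈ s
    · rw [if_pos h, map_zero, zero_add, Finset.sum_eq_single a]
      · rw [if_neg (notMem_erase a s), insert_erase h]
      · intro w _ hwa
        rw [if_pos (mem_erase.mpr ⟨hwa.symm, h⟩)]
      · intro h'
        exact absurd h h'
    · rw [if_neg h, dS_one]
      unfold dfin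
      rw [sum_insert h, erase_insert h, add_assoc]
      have h1 : ∑ w ∈ s, (single ((insert a s).erase w) 1 : SC W) =
          ∑ w ∈ s, if a ∈ s.erase w then 0 else single (insert a (s.erase w)) 1 := by
        refine sum_congr rfl fun w hw => ?_
        rw [if_neg (fun h' => h (mem_of_mem_erase h')),
          erase_insert_of_ne (fun h' => h (by rw [h']; exact hw))]
      rw [h1, AR10_add_self, add_zero]

theorem AR10_supp_ind {T : Set (Finset W)} {P : SC W → Prop} (h0 : P 0)
    (hadd : ∀ x y, P x → P y → P (x + y)) (hsmul : ∀ (n : ZMod 2) x, P x → P (n • x))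
    (hs : ∀ s ∈ T, P (single s 1)) {c : SC W} (hc : c ∈ Finsupp.supported (ZMod 2) (ZMod 2) T) :
    P c := by
  rw [Finsupp.supported_eq_span_single] at hc
  induction hc using Submodule.span_induction with
  | mem x hx =>
    obtain ⟨p, hp, rfl⟩ := hx
    exact hs p hp
  | zero => exact h0
  | add x y _ _ hx hy => exact hadd x y hx hy
  | smul n x _ hx => exact hsmul n x hx

theorem AR10_cone_mem {T T' : Set (Finset W)} (a : W)
    (h : ∀ s ∈ T, a ∉ s → insert a s ∈ T') {x : SC W}
    (hx : x ∈ Finsupp.supported (ZMod 2) (ZMod 2) T) :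
    AR10_cone a x ∈ Finsupp.supported (ZMod 2) (ZMod 2) T' := by
  refine AR10_supp_ind (P := fun x => AR10_cone a x ∈ Finsupp.supported (ZMod 2) (ZMod 2) T')
    ?_ ?_ ?_ ?_ hx
  · simp
  · intro x y hx hy
    simp only [map_add]
    exact Submodule.add_mem _ hx hy
  · intro n x hx
    simp only [map_smul]
    exact Submodule.smul_mem _ n hx
  · intro s hs
    simp only [AR10_cone_one]
    split_ifs with h1
    · exact Submodule.zero_mem _
    · exact Finsupp.single_mem_supported _ _ (h s hs h1)

/-- the carrier map -/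
noncomputable def AR10_f (apex : Finset V → V') (s : Finset V) : SC V' :=
  if s = ∅ then single ∅ 1 else
    AR10_cone (apex s) (∑ v ∈ s.attach, AR10_f apex (s.erase v.1))
termination_by s.card
decreasing_by exact Finset.card_erase_lt_of_mem v.2

theorem AR10_f_empty (apex : Finset V → V') : AR10_f apex ∅ = single ∅ 1 := by
  rw [AR10_f, if_pos rfl]

theorem AR10_f_ne (apex : Finset V → V') {s : Finset V} (h : s.Nonempty) :
    AR10_f apex s = AR10_cone (apex s) (∑ v ∈ s, AR10_f apex (s.erase v)) := by
  rw [AR10_f, if_neg h.ne_empty, Finset.sum_attach s (fun v => AR10_f apex (s.erase v))]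

theorem AR10_pairs (F : Finset V → SC W) (s : Finset V) :
    ∑ v ∈ s, ∑ u ∈ s.erase v, F ((s.erase v).erase u) = 0 := by
  rw [Finset.sum_sigma']
  refine Finset.sum_involution (fun p _ => ⟨p.2, p.1⟩) ?_ ?_ ?_ ?_
  · rintro ⟨a, b⟩ _
    simp only
    rw [Finset.erase_right_comm]
    exact AR10_add_self _
  · rintro ⟨a, b⟩ h _ h'
    simp only [Finset.mem_sigma, Finset.mem_erase] at h
    simp only [Sigma.mk.injEq] at h'
    exact h.2.1 h'.1
  · rintro ⟨a, b⟩ h
    simp only [Finset.mem_sigma, Finset.mem_erase] at h ⊢
    exact ⟨h.2.2, fun h' => h.2.1 h'.symm, h.1⟩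
  · rintro ⟨a, b⟩ _
    rfl

theorem AR10_d_f (apex : Finset V → V') (s : Finset V) :
    dS (AR10_f apex s) = ∑ v ∈ s, AR10_f apex (s.erase v) := by
  induction hn : s.card using Nat.strong_induction_on generalizing s with
  | _ n ih =>
    rcases s.eq_empty_or_nonempty with rfl | hs
    · rw [AR10_f_empty, dS_one, dfin, sum_empty, sum_empty]
    · have h1 := AR10_cone_d (apex s) (∑ v ∈ s, AR10_f apex (s.erase v))
      have h2 : dS (∑ v ∈ s, AR10_f apex (s.erase v)) = 0 := by
        rw [map_sum, ← AR10_pairs (AR10_f apex) s]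
        refine sum_congr rfl fun v hv => ?_
        exact ih _ (by rw [← hn]; exact Finset.card_erase_lt_of_mem hv) _ rfl
      rw [h2, map_zero, add_zero] at h1
      rw [AR10_f_ne apex hs]
      exact h1

theorem AR10_f_mem (K : Finset V → Prop) (hK : ∀ s t, s ⊆ t → K t → K s)
    (G' : SimpleGraph V') (S : Finset V → Finset V') (hS : ∀ s t, s ⊆ t → S s ⊆ S t)
    (apex : Finset V → V')
    (hap : ∀ s, K s → s.Nonempty → apex s ∈ S s ∧ ∀ v' ∈ S s, v' ≠ apex s → G'.Adj (apex s) v')
    (s : Finset V) (hs : K s) : AR10_f apex s ∈ Finsupp.supported (ZMod 2) (ZMod 2)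
      {s' : Finset V' | G'.IsClique (s' : Set V') ∧ s' ⊆ S s ∧ s'.card = s.card} := by
  induction hn : s.card using Nat.strong_induction_on generalizing s with
  | _ n ih =>
    rcases s.eq_empty_or_nonempty with rfl | hne
    · rw [AR10_f_empty]
      refine Finsupp.single_mem_supported _ _ ⟨by simp, by simp, ?_⟩
      rw [← hn]
      simp
    · rw [AR10_f_ne apex hne]
      obtain ⟨h1, h2⟩ := hap s hs hne
      refine AR10_cone_mem (T := {s' : Finset V' | G'.IsClique (s' : Set V') ∧ s' ⊆ S s ∧
        s'.card + 1 = n}) _ ?_ ?_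
      · rintro s' ⟨a1, a2, a3⟩ ha
        refine ⟨?_, ?_, ?_⟩
        · rw [coe_insert]
          refine SimpleGraph.isClique_insert.mpr ⟨a1, fun b hb hab => ?_⟩
          exact h2 b (a2 hb) hab.symm
        · exact insert_subset h1 a2
        · rw [card_insert_of_notMem ha]
          exact a3
      · refine Submodule.sum_mem _ fun v hv => ?_
        have h3 := ih _ (by rw [← hn]; exact Finset.card_erase_lt_of_mem hv) (s.erase v)
          (hK _ _ (erase_subset v s) hs) rfl
        refine Finsupp.supported_mono ?_ h3
        rintro s' ⟨a1, a2, a3⟩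
        refine ⟨a1, a2.trans (hS _ _ (erase_subset v s)), ?_⟩
        rw [a3, ← hn]
        exact card_erase_add_one hv

/-- push forward; sets on which `g` is not injective are sent to zero -/
noncomputable def AR10_push (g : V' → V) : SC V' →ₗ[ZMod 2] SC V :=
  Finsupp.lsum (ZMod 2) (fun s : Finset V' => LinearMap.toSpanSingleton (ZMod 2) (SC V)
    (if (s.image g).card = s.card then single (s.image g) 1 else 0))

theorem AR10_push_one (g : V' → V) (s : Finset V') :
    AR10_push g (single s 1) = if (s.image g).card = s.card then single (s.image g) 1 else 0 := by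
  simp [AR10_push]

theorem AR10_push_d (g : V' → V) (x : SC V') : dS (AR10_push g x) = AR10_push g (dS x) := by
  induction x using Finsupp.induction_linear with
  | zero => simp
  | add b c hb hc => simp only [map_add, hb, hc]
  | single s n =>
    have e : (single s n : SC V') = n • single s 1 := by simp
    rw [e, map_smul, map_smul, map_smul, map_smul]
    congr 1
    rw [AR10_push_one, dS_one]
    unfold dfin
    rw [map_sum]
    simp only [AR10_push_one]
    by_cases h : (s.image g).card = s.card
    · rw [if_pos h, dS_one]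
      have hinj : Set.InjOn g (s : Set V') := card_image_iff.mp h
      unfold dfin
      rw [sum_image hinj]
      refine sum_congr rfl fun w hw => ?_
      have h1 : (s.erase w).image g = (s.image g).erase (g w) := by
        ext y
        simp only [mem_image, mem_erase]
        constructor
        · rintro ⟨x, ⟨hx1, hx2⟩, rfl⟩
          exact ⟨fun h' => hx1 (hinj hx2 hw h'), x, hx2, rfl⟩
        · rintro ⟨hy, x, hx, rfl⟩
          exact ⟨x, ⟨fun h' => hy (by rw [h']), hx⟩, rfl⟩
      rw [h1, if_pos]
      rw [card_erase_of_mem (mem_image_of_mem g hw), card_erase_of_mem hw, h]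
    · rw [if_neg h, map_zero]
      have hinj : ¬ Set.InjOn g (s : Set V') := fun h' => h (card_image_iff.mpr h')
      unfold Set.InjOn at hinj
      push Not at hinj
      obtain ⟨a, ha, b, hb, hab, hne⟩ := hinj
      have himg : ∀ w, (s.erase (Equiv.swap a b w)).image g = (s.erase w).image g ∨
          (w ≠ a ∧ w ≠ b) := by
        intro w
        by_cases hwa : w = a
        · left
          subst hwa
          rw [Equiv.swap_apply_left]
          ext y
          simp only [mem_image, mem_erase]
          constructor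
          · rintro ⟨x, ⟨hx1, hx2⟩, rfl⟩
            by_cases hxw : x = w
            · exact ⟨b, ⟨hne.symm, hb⟩, by rw [hxw, hab]⟩
            · exact ⟨x, ⟨hxw, hx2⟩, rfl⟩
          · rintro ⟨x, ⟨hx1, hx2⟩, rfl⟩
            by_cases hxb : x = b
            · exact ⟨w, ⟨hne, ha⟩, by rw [hxb, hab]⟩
            · exact ⟨x, ⟨hxb, hx2⟩, rfl⟩
        · by_cases hwb : w = b
          · left
            subst hwb
            rw [Equiv.swap_apply_right]
            ext y
            simp only [mem_image, mem_erase]
            constructor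
            · rintro ⟨x, ⟨hx1, hx2⟩, rfl⟩
              by_cases hxw : x = w
              · exact ⟨a, ⟨hne, ha⟩, by rw [hxw, hab]⟩
              · exact ⟨x, ⟨hxw, hx2⟩, rfl⟩
            · rintro ⟨x, ⟨hx1, hx2⟩, rfl⟩
              by_cases hxa : x = a
              · exact ⟨w, ⟨hne.symm, hb⟩, by rw [hxa, hab]⟩
              · exact ⟨x, ⟨hxa, hx2⟩, rfl⟩
          · exact Or.inr ⟨hwa, hwb⟩
      have hz : ∀ w, w ≠ a → w ≠ b → (if ((s.erase w).image g).card = (s.erase w).card then
          (single ((s.erase w).image g) 1 : SC V) else 0) = 0 := by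
        intro w hwa hwb
        rw [if_neg]
        intro h'
        have h2 := card_image_iff.mp h'
        exact hne (h2 (mem_coe.mpr (mem_erase.mpr ⟨hwa.symm, ha⟩))
          (mem_coe.mpr (mem_erase.mpr ⟨hwb.symm, hb⟩)) hab)
      have hsw : ∀ w ∈ s, Equiv.swap a b w ∈ s := by
        intro w hw
        by_cases hwa : w = a
        · rw [hwa, Equiv.swap_apply_left]; exact hb
        · by_cases hwb : w = b
          · rw [hwb, Equiv.swap_apply_right]; exact ha
          · rw [Equiv.swap_apply_of_ne_of_ne hwa hwb]; exact hw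
      symm
      refine sum_involution (fun w _ => Equiv.swap a b w) ?_ ?_ ?_ ?_
      · intro w hw
        rcases himg w with h1 | ⟨h1, h2⟩
        · rw [h1, card_erase_of_mem (hsw w hw), card_erase_of_mem hw]
          exact AR10_add_self _
        · rw [Equiv.swap_apply_of_ne_of_ne h1 h2]
          exact AR10_add_self _
      · intro w _ hw0 hw1
        by_cases hwa : w = a
        · rw [hwa, Equiv.swap_apply_left] at hw1
          exact hne hw1.symm
        · by_cases hwb : w = b
          · rw [hwb, Equiv.swap_apply_right] at hw1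
            exact hne hw1
          · exact hw0 (hz w hwa hwb)
      · intro w hw
        exact hsw w hw
      · intro w _
        rw [← Equiv.Perm.mul_apply, Equiv.swap_mul_self]
        rfl

theorem AR10_push_f (K : Finset V → Prop) (hK : ∀ s t, s ⊆ t → K t → K s)
    (G' : SimpleGraph V') (S : Finset V → Finset V') (hS : ∀ s t, s ⊆ t → S s ⊆ S t)
    (apex : Finset V → V')
    (hap : ∀ s, K s → s.Nonempty → apex s ∈ S s ∧ ∀ v' ∈ S s, v' ≠ apex s → G'.Adj (apex s) v')
    (g : V' → V) (hg : ∀ s, ∀ v' ∈ S s, g v' ∈ s)
    (s : Finset V) (hs : K s) : AR10_push g (AR10_f apex s) = single s 1 := by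
  induction hn : s.card using Nat.strong_induction_on generalizing s with
  | _ n ih =>
    rcases s.eq_empty_or_nonempty with rfl | hne
    · rw [AR10_f_empty, AR10_push_one]
      simp
    · have h1 := AR10_f_mem K hK G' S hS apex hap s hs
      have h2 : AR10_push g (AR10_f apex s) ∈ Finsupp.supported (ZMod 2) (ZMod 2)
          ({s} : Set (Finset V)) := by
        refine AR10_supp_ind (P := fun x => AR10_push g x ∈ Finsupp.supported (ZMod 2) (ZMod 2)
          ({s} : Set (Finset V))) ?_ ?_ ?_ ?_ h1
        · simp
        · intro x y hx hy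
          simp only [map_add]
          exact Submodule.add_mem _ hx hy
        · intro m x hx
          simp only [map_smul]
          exact Submodule.smul_mem _ m hx
        · rintro s' ⟨a1, a2, a3⟩
          simp only [AR10_push_one]
          split_ifs with h3
          · refine Finsupp.single_mem_supported _ _ ?_
            rw [Set.mem_singleton_iff]
            refine eq_of_subset_of_card_le ?_ ?_
            · intro y hy
              obtain ⟨x, hx, rfl⟩ := mem_image.mp hy
              exact hg s x (a2 hx)
            · rw [h3, a3]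
          · exact Submodule.zero_mem _
      obtain ⟨x, hx⟩ : ∃ x, x = AR10_push g (AR10_f apex s) := ⟨_, rfl⟩
      rw [← hx] at h2 ⊢
      have h3 : x = x s • single s 1 := by
        ext t
        by_cases ht : t = s
        · subst ht
          simp
        · have : x t = 0 := by
            by_contra h4
            exact ht (h2 (Finsupp.mem_support_iff.mpr h4))
          rw [this, Finsupp.smul_apply, Finsupp.single_apply, if_neg (Ne.symm ht), smul_zero]
      have h4 : dS x = dfin s := by
        rw [hx, AR10_push_d, AR10_d_f, map_sum]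
        unfold dfin
        refine sum_congr rfl fun v hv => ?_
        exact ih _ (by rw [← hn]; exact Finset.card_erase_lt_of_mem hv) _
          (hK _ _ (erase_subset v s) hs) rfl
      have h5 : dfin s ≠ 0 := by
        obtain ⟨v, hv⟩ := hne
        intro h6
        have h7 := DFunLike.congr_fun h6 (s.erase v)
        unfold dfin at h7
        rw [Finsupp.finsetSum_apply, Finset.sum_eq_single v] at h7
        · rw [Finsupp.single_eq_same] at h7
          exact one_ne_zero h7
        · intro w hw hwv
          rw [Finsupp.single_apply, if_neg]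
          intro h8
          have h9 : w ∈ s.erase v := mem_erase.mpr ⟨hwv, hw⟩
          rw [← h8] at h9
          exact notMem_erase w s h9
        · intro h8
          exact absurd hv h8
      have h6 : x s ≠ 0 := by
        intro h7
        rw [h7, zero_smul] at h3
        rw [h3, map_zero] at h4
        exact h5 h4.symm
      have h7 : x s = 1 := by
        have : ∀ a : ZMod 2, a ≠ 0 → a = 1 := by decide
        exact this _ h6
      rw [h3, h7, one_smul]

theorem AR10_even {α : Type*} (s : Finset α) (P : α → Prop) [DecidablePred P] :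
    Even (s.filter P).card ↔ (∑ a ∈ s, if P a then (1 : ZMod 2) else 0) = 0 := by
  rw [← Finset.sum_filter, Finset.sum_const, nsmul_eq_mul, mul_one]
  exact ZMod.natCast_eq_zero_iff_even.symm

end transp

theorem hasClass_transport {V V' : Type*} [Fintype V] [DecidableEq V] [Fintype V']
    [DecidableEq V'] (K : Finset V → Prop) (hK : ∀ s t, s ⊆ t → K t → K s)
    (G' : SimpleGraph V') (S : Finset V → Finset V') (hS : ∀ s t, s ⊆ t → S s ⊆ S t)
    (apex : Finset V → V')
    (hap : ∀ s, K s → s.Nonempty → apex s ∈ S s ∧ ∀ v' ∈ S s, v' ≠ apex s → G'.Adj (apex s) v')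
    (g : V' → V) (hg : ∀ s, ∀ v' ∈ S s, g v' ∈ s)
    (hg' : ∀ s' : Finset V', G'.IsClique (s' : Set V') → K (s'.image g)) {j : ℕ}
    (h : HasClassC K j) : HasClass G' j := by
  classical
  obtain ⟨Z, φ, hZ1, hZ2, hφ1, hφ2⟩ := h
  have hone : ∀ a : ZMod 2, a ≠ 0 → a = 1 := by decide
  -- the cycle
  obtain ⟨zeta, hzeta⟩ : ∃ zeta : SC V, zeta = ∑ s ∈ Z, single s 1 := ⟨_, rfl⟩
  have hzt : ∀ t, zeta t = if t ∈ Z then 1 else 0 := by
    intro t
    rw [hzeta, Finsupp.finsetSum_apply]
    simp only [Finsupp.single_apply]
    rw [Finset.sum_ite_eq']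
  have hdz : dS zeta = 0 := by
    ext ρ
    rw [dS_apply, Finsupp.zero_apply]
    have h1 : ∀ w, (if w ∉ ρ then zeta (insert w ρ) else 0) =
        if w ∉ ρ ∧ insert w ρ ∈ Z then (1 : ZMod 2) else 0 := by
      intro w
      rw [hzt]
      by_cases h1 : w ∈ ρ <;> by_cases h2 : insert w ρ ∈ Z <;> simp [h1, h2]
    simp only [h1]
    by_cases hρ : ρ.card = j
    · exact (AR10_even univ _).mp (hZ2 ρ hρ)
    · refine sum_eq_zero fun w _ => if_neg ?_
      rintro ⟨h2, h3⟩
      have := (hZ1 _ h3).2
      rw [card_insert_of_notMem h2] at this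
      omega
  obtain ⟨F, hF⟩ : ∃ F : SC V →ₗ[ZMod 2] SC V', ∀ s, F (single s 1) = AR10_f apex s :=
    ⟨Finsupp.lsum (ZMod 2) (fun s : Finset V => LinearMap.toSpanSingleton (ZMod 2) (SC V')
      (AR10_f apex s)), fun s => by simp⟩
  obtain ⟨z, hz⟩ : ∃ z : SC V', z = ∑ s ∈ Z, AR10_f apex s := ⟨_, rfl⟩
  have hdz' : dS z = 0 := by
    have h1 : dS z = F (dS zeta) := by
      rw [hz, hzeta, map_sum, map_sum, map_sum]
      refine sum_congr rfl fun s _ => ?_
      rw [AR10_d_f, dS_one]
      unfold dfin
      rw [map_sum]
      exact sum_congr rfl fun v _ => (hF _).symm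
    rw [h1, hdz, map_zero]
  have hzmem : z ∈ Finsupp.supported (ZMod 2) (ZMod 2)
      {s' : Finset V' | G'.IsClique (s' : Set V') ∧ s'.card = j + 1} := by
    rw [hz]
    refine Submodule.sum_mem _ fun s hs => ?_
    refine Finsupp.supported_mono ?_ (AR10_f_mem K hK G' S hS apex hap s (hZ1 s hs).1)
    rintro s' ⟨a1, _, a3⟩
    exact ⟨a1, a3.trans (hZ1 s hs).2⟩
  have hzt' : ∀ t, z t = if t ∈ z.support then 1 else 0 := by
    intro t
    split_ifs with h1
    · exact hone _ (Finsupp.mem_support_iff.mp h1)
    · exact Finsupp.notMem_support_iff.mp h1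
  -- the cocycle
  obtain ⟨L, hL⟩ : ∃ L : SC V →ₗ[ZMod 2] ZMod 2, ∀ s, L (single s 1) = φ s :=
    ⟨Finsupp.lsum (ZMod 2) (fun s : Finset V => LinearMap.toSpanSingleton (ZMod 2) (ZMod 2)
      (φ s)), fun s => by simp⟩
  refine ⟨z.support, fun s' => L (AR10_push g (single s' 1)), ?_, ?_, ?_, ?_⟩
  · intro σ hσ
    exact hzmem hσ
  · intro ρ _
    rw [AR10_even]
    have h1 := DFunLike.congr_fun hdz' ρ
    rw [dS_apply, Finsupp.zero_apply] at h1
    refine Eq.trans (sum_congr rfl fun w _ => ?_) h1
    by_cases h3 : w ∈ ρ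
    · rw [if_neg (fun h4 => h4.1 h3), if_neg (not_not.mpr h3)]
    · rw [if_pos h3, hzt']
      by_cases h2 : insert w ρ ∈ z.support
      · rw [if_pos h2, if_pos ⟨h3, h2⟩]
      · rw [if_neg h2, if_neg (fun h4 => h2 h4.2)]
  · intro τ hτ hτc
    have h1 : ∑ v ∈ τ, L (AR10_push g (single (τ.erase v) 1)) =
        L (dS (AR10_push g (single τ 1))) := by
      rw [AR10_push_d, dS_one]
      unfold dfin
      rw [map_sum, map_sum]
    rw [h1, AR10_push_one]
    split_ifs with h2
    · rw [dS_one]
      unfold dfin
      rw [map_sum]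
      simp only [hL]
      exact hφ1 _ (hg' τ hτ) (h2.trans hτc)
    · rw [map_zero, map_zero]
  · have h1 : ∑ σ ∈ z.support, L (AR10_push g (single σ 1)) = L (AR10_push g z) := by
      conv_rhs => rw [← Finsupp.sum_single z]
      rw [Finsupp.sum, map_sum, map_sum]
      refine sum_congr rfl fun σ hσ => ?_
      rw [hone _ (Finsupp.mem_support_iff.mp hσ)]
    rw [h1, hz, map_sum, map_sum, ← hφ2]
    refine sum_congr rfl fun s hs => ?_
    rw [AR10_push_f K hK G' S hS apex hap g hg s (hZ1 s hs).1, hL]

end OS
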