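import Mathlib
import Pool.Agent.Lib.MP_8fe54c_gt.ArtTransp

/-!
# AR11: the complex of nested irreducible spherical sets
-/

namespace OS

open CoxeterSystem

section nest

variable {B : Type*} {M : CoxeterMatrix B}

theorem AR11_spher_mono {s t : Finset B} (hst : s ⊆ t) (ht : Spher M t) : Spher M s := by
  have h1 : WP M.toCoxeterSystem (s : Set B) ≤ WP M.toCoxeterSystem (t : Set B) :=
    WP_mono _ (by exact_mod_cast hst)
  have : Finite (WP M.toCoxeterSystem (t : Set B)) := ht
  exact Finite.of_injective _ (Subgroup.inclusion_injective h1)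

theorem AR11_irr_singleton (i : B) : Irr M {i} := by
  refine ⟨Finset.singleton_nonempty i, fun U hU hne hne' => ?_⟩
  exact absurd ((Finset.Nonempty.subset_singleton_iff hne).mp hU) hne'

theorem AR11_irr_union [DecidableEq B] {A T : Finset B} (hA : Irr M A) (hT : Irr M T)
    (h : (∃ x, x ∈ A ∧ x ∈ T) ∨ ∃ i ∈ A, ∃ j ∈ T, M i j ≠ 2) : Irr M (A ∪ T) := by
  refine ⟨hA.1.mono Finset.subset_union_left, fun U hU hne hne' => ?_⟩
  by_cases h1 : (U ∩ A).Nonempty ∧ U ∩ A ≠ A
  · obtain ⟨i, hi, j, hj, hjU, hij⟩ := hA.2 (U ∩ A) Finset.inter_subset_right h1.1 h1.2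
    exact ⟨i, (Finset.mem_inter.mp hi).1, j, Finset.mem_union_left _ hj,
      fun hh => hjU (Finset.mem_inter.mpr ⟨hh, hj⟩), hij⟩
  by_cases h2 : (U ∩ T).Nonempty ∧ U ∩ T ≠ T
  · obtain ⟨i, hi, j, hj, hjU, hij⟩ := hT.2 (U ∩ T) Finset.inter_subset_right h2.1 h2.2
    exact ⟨i, (Finset.mem_inter.mp hi).1, j, Finset.mem_union_right _ hj,
      fun hh => hjU (Finset.mem_inter.mpr ⟨hh, hj⟩), hij⟩
  have h1' : U ∩ A = ∅ ∨ A ⊆ U := by
    by_cases hh : (U ∩ A).Nonempty
    · right
      have h3 : U ∩ A = A := by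
        by_contra h4
        exact h1 ⟨hh, h4⟩
      exact Finset.inter_eq_right.mp h3
    · left
      exact Finset.not_nonempty_iff_eq_empty.mp hh
  have h2' : U ∩ T = ∅ ∨ T ⊆ U := by
    by_cases hh : (U ∩ T).Nonempty
    · right
      have h3 : U ∩ T = T := by
        by_contra h4
        exact h2 ⟨hh, h4⟩
      exact Finset.inter_eq_right.mp h3
    · left
      exact Finset.not_nonempty_iff_eq_empty.mp hh
  have hmem : ∀ x ∈ U, x ∈ A ∨ x ∈ T := fun x hx => Finset.mem_union.mp (hU hx)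
  rcases h1' with hA0 | hAU
  · rcases h2' with hT0 | hTU
    · obtain ⟨x, hx⟩ := hne
      rcases hmem x hx with hxA | hxT
      · have : x ∈ U ∩ A := Finset.mem_inter.mpr ⟨hx, hxA⟩
        rw [hA0] at this
        exact absurd this (Finset.notMem_empty x)
      · have : x ∈ U ∩ T := Finset.mem_inter.mpr ⟨hx, hxT⟩
        rw [hT0] at this
        exact absurd this (Finset.notMem_empty x)
    · have hdis : ∀ x ∈ A, x ∉ U := fun x hx hxU => by
        have : x ∈ U ∩ A := Finset.mem_inter.mpr ⟨hxU, hx⟩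
        rw [hA0] at this
        exact absurd this (Finset.notMem_empty x)
      rcases h with ⟨x, hxA, hxT⟩ | ⟨i, hi, j, hj, hij⟩
      · exact absurd (hTU hxT) (hdis x hxA)
      · exact ⟨j, hTU hj, i, Finset.mem_union_left _ hi, hdis i hi, by rwa [M.symmetric]⟩
  · rcases h2' with hT0 | hTU
    · have hdis : ∀ x ∈ T, x ∉ U := fun x hx hxU => by
        have : x ∈ U ∩ T := Finset.mem_inter.mpr ⟨hxU, hx⟩
        rw [hT0] at this
        exact absurd this (Finset.notMem_empty x)
      rcases h with ⟨x, hxA, hxT⟩ | ⟨i, hi, j, hj, hij⟩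
      · exact absurd (hAU hxA) (hdis x hxT)
      · exact ⟨i, hAU hi, j, Finset.mem_union_right _ hj, hdis j hj, hij⟩
    · exact absurd (Finset.Subset.antisymm hU (Finset.union_subset hAU hTU)) hne'

theorem AR11_commute {W : Type*} [Group W] (cs : CoxeterSystem M W) {i j : B} (h : M i j = 2) :
    Commute (cs.simple i) (cs.simple j) := by
  have h1 := cs.simple_mul_simple_pow i j
  rw [h, pow_two] at h1
  have h2 : cs.simple i * cs.simple j = (cs.simple i * cs.simple j)⁻¹ :=
    eq_inv_of_mul_eq_one_left h1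
  rw [mul_inv_rev, cs.inv_simple, cs.inv_simple] at h2
  exact h2

theorem AR11_finite_union {W : Type*} [Group W] (cs : CoxeterSystem M W) {S T : Set B}
    (hS : Finite (WP cs S)) (hT : Finite (WP cs T)) (h : ∀ i ∈ S, ∀ j ∈ T, M i j = 2) :
    Finite (WP cs (S ∪ T)) := by
  have hcomm : ∀ a ∈ WP cs S, ∀ b ∈ WP cs T, Commute a b := by
    have h1 : ∀ j ∈ T, ∀ a ∈ WP cs S, Commute a (cs.simple j) := by
      intro j hj a ha
      have h2 : WP cs S ≤ Subgroup.centralizer {cs.simple j} := by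
        unfold WP
        rw [Subgroup.closure_le]
        rintro _ ⟨i, hi, rfl⟩
        rw [SetLike.mem_coe, Subgroup.mem_centralizer_singleton_iff]
        exact AR11_commute cs (h i hi j hj)
      exact Subgroup.mem_centralizer_singleton_iff.mp (h2 ha)
    intro a ha b hb
    have h2 : WP cs T ≤ Subgroup.centralizer {a} := by
      unfold WP
      rw [Subgroup.closure_le]
      rintro _ ⟨j, hj, rfl⟩
      rw [SetLike.mem_coe, Subgroup.mem_centralizer_singleton_iff]
      exact (h1 j hj a ha).symm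
    exact (Subgroup.mem_centralizer_singleton_iff.mp (h2 hb)).symm
  let F : WP cs S × WP cs T →* W := MonoidHom.noncommCoprod (WP cs S).subtype (WP cs T).subtype
    (fun a b => hcomm a a.2 b b.2)
  have hle : WP cs (S ∪ T) ≤ F.range := by
    unfold WP
    rw [Subgroup.closure_le]
    rintro _ ⟨i, hi | hi, rfl⟩
    · refine ⟨(⟨cs.simple i, simple_mem_WP cs hi⟩, 1), ?_⟩
      change cs.simple i * 1 = cs.simple i
      rw [mul_one]
    · refine ⟨(1, ⟨cs.simple i, simple_mem_WP cs hi⟩), ?_⟩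
      change 1 * cs.simple i = cs.simple i
      rw [one_mul]
  have : Finite F.range := Finite.of_surjective _ F.rangeRestrict_surjective
  exact Finite.of_injective _ (Subgroup.inclusion_injective hle)

theorem AR11_spher_empty : Spher M (∅ : Finset B) := by
  unfold Spher WP
  rw [Finset.coe_empty, Set.image_empty, Subgroup.closure_empty]
  infer_instance

theorem AR11_clique [DecidableEq B] [DecidableEq (IS M)] : ∀ (n : ℕ) (N : Finset (IS M)),
    N.card = n → (nestG M).IsClique (N : Set (IS M)) → Spher M (N.biUnion (fun T => T.1)) := by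
  intro n
  induction n using Nat.strong_induction_on with
  | _ n ih =>
    intro N hn hN
    rcases N.eq_empty_or_nonempty with rfl | ⟨T, hT⟩
    · rw [Finset.biUnion_empty]
      exact AR11_spher_empty
    have hsub : ∀ T₀ ∈ N, (nestG M).IsClique ((N.erase T₀ : Finset (IS M)) : Set (IS M)) :=
      fun T₀ _ => hN.subset (by
        intro x hx
        exact Finset.mem_of_mem_erase (Finset.mem_coe.mp hx))
    have hlt : ∀ T₀ ∈ N, (N.erase T₀).card < n := fun T₀ hT₀ => by
      rw [← hn]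
      exact Finset.card_erase_lt_of_mem hT₀
    by_cases hnest : ∃ T₁ ∈ N, ∃ T₂ ∈ N, T₁ ≠ T₂ ∧ T₁.1 ⊆ T₂.1
    · obtain ⟨T₁, h1, T₂, h2, hne, h12⟩ := hnest
      have h3 := ih _ (hlt T₁ h1) (N.erase T₁) rfl (hsub T₁ h1)
      refine AR11_spher_mono ?_ h3
      intro x hx
      obtain ⟨T₃, hT₃, hx⟩ := Finset.mem_biUnion.mp hx
      rw [Finset.mem_biUnion]
      by_cases h31 : T₃ = T₁
      · subst h31
        exact ⟨T₂, Finset.mem_erase.mpr ⟨hne.symm, h2⟩, h12 hx⟩
      · exact ⟨T₃, Finset.mem_erase.mpr ⟨h31, hT₃⟩, hx⟩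
    · push Not at hnest
      have h3 := ih _ (hlt T hT) (N.erase T) rfl (hsub T hT)
      have h4 : Finite (WP M.toCoxeterSystem ((T.1 : Set B) ∪
          ((N.erase T).biUnion (fun T => T.1) : Finset B))) := by
        refine AR11_finite_union _ T.2.2 h3 ?_
        intro i hi j hj
        rw [Finset.mem_coe, Finset.mem_biUnion] at hj
        obtain ⟨T', hT', hj⟩ := hj
        have hT'N := Finset.mem_of_mem_erase hT'
        have hne : T' ≠ T := (Finset.mem_erase.mp hT').1
        have hadj := hN (Finset.mem_coe.mpr hT) (Finset.mem_coe.mpr hT'N) hne.symm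
        rcases hadj.2 with h5 | h5 | h5
        · exact absurd h5 (hnest T hT T' hT'N hne.symm)
        · exact absurd h5 (hnest T' hT'N T hT hne)
        · exact h5 i hi j hj
      refine AR11_spher_mono (t := T.1 ∪ (N.erase T).biUnion (fun T => T.1)) ?_ ?_
      · intro x hx
        obtain ⟨T₃, hT₃, hx⟩ := Finset.mem_biUnion.mp hx
        rw [Finset.mem_union, Finset.mem_biUnion]
        by_cases h31 : T₃ = T
        · subst h31
          exact Or.inl hx
        · exact Or.inr ⟨T₃, Finset.mem_erase.mpr ⟨h31, hT₃⟩, hx⟩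
      · unfold Spher
        rw [Finset.coe_union]
        exact h4

variable (M) in
/-- AR11; uses AR10 -/
theorem hasClass_nest [Fintype B] [DecidableEq B] [Fintype (IS M)] [DecidableEq (IS M)] {j : ℕ}
    (h : HasClassC (Spher M) j) : HasClass (nestG M) j := by
  classical
  have hsing : ∀ s : Finset B, Spher M s → s.Nonempty → ∃ T : IS M, T.1 ⊆ s := by
    rintro s hs ⟨i, hi⟩
    have h1 : ({i} : Finset B) ⊆ s := Finset.singleton_subset_iff.mpr hi
    exact ⟨⟨{i}, AR11_irr_singleton i, AR11_spher_mono h1 hs⟩, h1⟩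
  have hmax : ∀ s : Finset B, Spher M s → s.Nonempty → ∃ T : IS M, T.1 ⊆ s ∧
      ∀ T' : IS M, T'.1 ⊆ s → T'.1.card ≤ T.1.card := by
    intro s hs hne
    obtain ⟨T₀, hT₀⟩ := hsing s hs hne
    obtain ⟨T, hT, hTm⟩ := Finset.exists_max_image
      (Finset.univ.filter (fun T : IS M => T.1 ⊆ s)) (fun T => T.1.card)
      ⟨T₀, Finset.mem_filter.mpr ⟨Finset.mem_univ _, hT₀⟩⟩
    exact ⟨T, (Finset.mem_filter.mp hT).2, fun T' hT' =>
      hTm T' (Finset.mem_filter.mpr ⟨Finset.mem_univ _, hT'⟩)⟩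
  -- there is an irreducible spherical set, since `B` has a vertex
  have hIS : Nonempty (IS M) := by
    obtain ⟨Z, φ, hZ, -, -, hφ⟩ := h
    have : Z.Nonempty := by
      by_contra hne
      rw [Finset.not_nonempty_iff_eq_empty] at hne
      rw [hne, Finset.sum_empty] at hφ
      exact zero_ne_one hφ
    obtain ⟨σ, hσ⟩ := this
    obtain ⟨h1, h2⟩ := hZ σ hσ
    obtain ⟨T, -⟩ := hsing σ h1 (by rw [← Finset.card_pos]; omega)
    exact ⟨T⟩
  obtain ⟨T₀⟩ := hIS
  let apex : Finset B → IS M := fun s =>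
    if hs : Spher M s ∧ s.Nonempty then (hmax s hs.1 hs.2).choose else T₀
  have hapex : ∀ s : Finset B, Spher M s → s.Nonempty → (apex s).1 ⊆ s ∧
      ∀ T' : IS M, T'.1 ⊆ s → T'.1.card ≤ (apex s).1.card := by
    intro s hs hne
    have h1 : apex s = (hmax s hs hne).choose := dif_pos ⟨hs, hne⟩
    rw [h1]
    exact (hmax s hs hne).choose_spec
  refine hasClass_transport (Spher M) (fun s t hst ht => AR11_spher_mono hst ht) (nestG M)
    (fun s => Finset.univ.filter (fun T : IS M => T.1 ⊆ s)) ?_ apex ?_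
    (fun T => T.2.1.1.choose) ?_ ?_ h
  · intro s t hst T hT
    rw [Finset.mem_filter] at hT ⊢
    exact ⟨Finset.mem_univ _, hT.2.trans hst⟩
  · intro s hs hne
    obtain ⟨h1, h2⟩ := hapex s hs hne
    refine ⟨Finset.mem_filter.mpr ⟨Finset.mem_univ _, h1⟩, fun T' hT' hne' => ?_⟩
    have hT's := (Finset.mem_filter.mp hT').2
    refine ⟨hne'.symm, ?_⟩
    by_cases hh : (∃ x, x ∈ (apex s).1 ∧ x ∈ T'.1) ∨ ∃ i ∈ (apex s).1, ∃ j ∈ T'.1, M i j ≠ 2
    · right
      left
      have h3 := AR11_irr_union (apex s).2.1 T'.2.1 hh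
      have h4 : (apex s).1 ∪ T'.1 ⊆ s := Finset.union_subset h1 hT's
      have h5 := h2 ⟨(apex s).1 ∪ T'.1, h3, AR11_spher_mono h4 hs⟩ h4
      have h6 : (apex s).1 = (apex s).1 ∪ T'.1 :=
        Finset.eq_of_subset_of_card_le Finset.subset_union_left h5
      rw [h6]
      exact Finset.subset_union_right
    · right
      right
      push Not at hh
      exact hh.2
  · intro s T hT
    exact (Finset.mem_filter.mp hT).2 T.2.1.1.choose_spec
  · intro N hN
    refine AR11_spher_mono ?_ (AR11_clique _ N rfl hN)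
    intro x hx
    obtain ⟨T, hT, rfl⟩ := Finset.mem_image.mp hx
    exact Finset.mem_biUnion.mpr ⟨T, hT, T.2.1.1.choose_spec⟩

end nest

end OS
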