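import Mathlib

/-!
# Chains of finite tuples (lists) of points, mod 2

`LC X` is the free `ZMod 2`-module on all lists of points of `X`.  A list of length `l` is a
simplex of dimension `l - 1`; the empty list is the augmentation.
-/

namespace OS

open Finsupp

/-- mod 2 chains of lists of points of `X` -/
abbrev LC (X : Type*) := List X →₀ ZMod 2

/-- the basis element of a list -/
noncomputable abbrev bs {X : Type*} (t : List X) : LC X := Finsupp.single t 1

variable {X Y Z : Type*}

section modtwo

variable {M : Type*} [AddCommGroup M] [Module (ZMod 2) M]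

theorem zsmul_even_eq_zero (n : ℤ) (x : M) (h : (n : ZMod 2) = 0) : n • x = 0 := by
  have : n • x = (n : ZMod 2) • x := by
    rw [Int.cast_smul_eq_zsmul]
  rw [this, h, zero_smul]

theorem zsmul2 (x : M) : (2 : ℤ) • x = 0 := zsmul_even_eq_zero 2 x (by decide)
theorem zsmulm2 (x : M) : (-2 : ℤ) • x = 0 := zsmul_even_eq_zero (-2) x (by decide)
theorem zsmul4 (x : M) : (4 : ℤ) • x = 0 := zsmul_even_eq_zero 4 x (by decide)
theorem zsmulm4 (x : M) : (-4 : ℤ) • x = 0 := zsmul_even_eq_zero (-4) x (by decide)
theorem zsmul6 (x : M) : (6 : ℤ) • x = 0 := zsmul_even_eq_zero 6 x (by decide)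
theorem zsmulm6 (x : M) : (-6 : ℤ) • x = 0 := zsmul_even_eq_zero (-6) x (by decide)
theorem nsmul2 (x : M) : (2 : ℕ) • x = 0 := by
  have h : (2 : ℕ) • x = (2 : ℤ) • x := by
    rw [← natCast_zsmul]; rfl
  rw [h, zsmul2]

end modtwo

theorem add_self_LC {M : Type*} [AddCommGroup M] [Module (ZMod 2) M] (x : M) : x + x = 0 := by
  have : (2 : ZMod 2) • x = x + x := by
    rw [two_smul]
  rw [← this]
  have h : (2 : ZMod 2) = 0 := by decide
  rw [h, zero_smul]

/-- put `x` in front of every list -/
noncomputable def consL (x : X) : LC X →ₗ[ZMod 2] LC X :=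
  Finsupp.lmapDomain (ZMod 2) (ZMod 2) (fun t : List X => x :: t)

@[simp] theorem consL_bs (x : X) (t : List X) : consL x (bs t) = bs (x :: t) := by
  simp [consL, Finsupp.lmapDomain_apply, Finsupp.mapDomain_single]

/-- the boundary of a list: delete one entry -/
noncomputable def dlist : List X → LC X
  | [] => 0
  | (x :: t) => bs t + consL x (dlist t)

/-- the boundary operator -/
noncomputable def dL : LC X →ₗ[ZMod 2] LC X :=
  Finsupp.lsum (ZMod 2) (fun t : List X => LinearMap.toSpanSingleton (ZMod 2) (LC X) (dlist t))

@[simp] theorem dL_bs (t : List X) : dL (bs t) = dlist t := by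
  simp [dL]

theorem LC_ext {M : Type*} [AddCommMonoid M] [Module (ZMod 2) M] {f g : LC X →ₗ[ZMod 2] M}
    (h : ∀ t : List X, f (bs t) = g (bs t)) : f = g := by
  apply Finsupp.lhom_ext
  intro t b
  have : (Finsupp.single t b : LC X) = b • bs t := by simp [bs]
  rw [this, map_smul, map_smul, h t]

theorem dL_consL (x : X) (c : LC X) : dL (consL x c) = c + consL x (dL c) := by
  have : dL ∘ₗ consL x = LinearMap.id + consL x ∘ₗ dL := by
    apply LC_ext
    intro t
    simp [dlist]
  exact congrArg (fun f => f c) this

theorem dL_dL (c : LC X) : dL (dL c) = 0 := by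
  have : (dL ∘ₗ dL : LC X →ₗ[ZMod 2] LC X) = 0 := by
    apply LC_ext
    intro t
    induction t with
    | nil => simp [dlist]
    | cons x t ih =>
      simp only [LinearMap.comp_apply, dL_bs, LinearMap.zero_apply] at ih ⊢
      simp only [dlist, map_add, dL_bs]
      rw [dL_consL, ih, map_zero, add_zero]
      exact add_self_LC _
  exact congrArg (fun f => f c) this

/-- push forward along a function -/
noncomputable def mapL (f : X → Y) : LC X →ₗ[ZMod 2] LC Y :=
  Finsupp.lmapDomain (ZMod 2) (ZMod 2) (List.map f)

@[simp] theorem mapL_bs (f : X → Y) (t : List X) : mapL f (bs t) = bs (t.map f) := by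
  simp [mapL, Finsupp.lmapDomain_apply, Finsupp.mapDomain_single]

theorem mapL_consL (f : X → Y) (x : X) (c : LC X) :
    mapL f (consL x c) = consL (f x) (mapL f c) := by
  have : mapL f ∘ₗ consL x = consL (f x) ∘ₗ mapL f := by
    apply LC_ext
    intro t
    simp
  exact congrArg (fun g => g c) this

theorem dL_mapL (f : X → Y) (c : LC X) : dL (mapL f c) = mapL f (dL c) := by
  have : dL ∘ₗ mapL f = mapL f ∘ₗ dL := by
    apply LC_ext
    intro t
    simp only [LinearMap.comp_apply, mapL_bs, dL_bs]
    induction t with
    | nil => simp [dlist]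
    | cons x t ih =>
      simp only [List.map_cons, dlist, map_add, mapL_bs, mapL_consL, ih]
  exact congrArg (fun g => g c) this

theorem mapL_mapL (g : Y → Z) (f : X → Y) (c : LC X) : mapL g (mapL f c) = mapL (g ∘ f) c := by
  have : mapL g ∘ₗ mapL f = mapL (g ∘ f) := by
    apply LC_ext
    intro t
    simp
  exact congrArg (fun h => h c) this

theorem mapL_id (c : LC X) : mapL (id : X → X) c = c := by
  have : mapL (id : X → X) = LinearMap.id := by
    apply LC_ext
    intro t
    simp
  rw [this]; rfl

/-- the prism of a list between two functions -/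
noncomputable def prismlist (f g : X → Y) : List X → LC Y
  | [] => 0
  | (x :: t) => bs (f x :: g x :: t.map g) + consL (f x) (prismlist f g t)

/-- the prism operator -/
noncomputable def prismL (f g : X → Y) : LC X →ₗ[ZMod 2] LC Y :=
  Finsupp.lsum (ZMod 2)
    (fun t : List X => LinearMap.toSpanSingleton (ZMod 2) (LC Y) (prismlist f g t))

@[simp] theorem prismL_bs (f g : X → Y) (t : List X) : prismL f g (bs t) = prismlist f g t := by
  simp [prismL]

theorem prismL_consL (f g : X → Y) (x : X) (c : LC X) :
    prismL f g (consL x c) =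
      consL (f x) (consL (g x) (mapL g c)) + consL (f x) (prismL f g c) := by
  have : prismL f g ∘ₗ consL x =
      consL (f x) ∘ₗ (consL (g x) ∘ₗ mapL g) + consL (f x) ∘ₗ prismL f g := by
    apply LC_ext
    intro t
    simp [prismlist]
  exact congrArg (fun h => h c) this

/-- the prism operator is a chain homotopy between `mapL f` and `mapL g` -/
theorem dL_prismL (f g : X → Y) (c : LC X) :
    dL (prismL f g c) = mapL f c + mapL g c + prismL f g (dL c) := by
  have : dL ∘ₗ prismL f g = mapL f + mapL g + prismL f g ∘ₗ dL := by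
    apply LC_ext
    intro t
    simp only [LinearMap.comp_apply, LinearMap.add_apply, mapL_bs, dL_bs, prismL_bs]
    induction t with
    | nil =>
      simp only [prismlist, map_zero, dlist, List.map_nil, add_zero]
      exact (add_self_LC _).symm
    | cons x t ih =>
      simp only [prismlist, map_add, dL_bs, dlist, dL_consL, ih, List.map_cons, prismL_bs,
        prismL_consL]
      have h2 : dlist (t.map g) = mapL g (dlist t) := by
        have := dL_mapL g (bs t)
        simpa using this
      rw [h2]
      simp only [consL_bs]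
      (rw [← sub_eq_zero]; abel_nf; try simp only [OS.zsmul2, OS.zsmulm2, OS.zsmul4,
        OS.zsmulm4, OS.zsmul6, OS.zsmulm6, OS.nsmul2, add_zero, zero_add])
  exact congrArg (fun h => h c) this

end OS
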