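import Mathlib
import Pool.Agent.Lib.MP_8fe54c_gt.Ch

/-!
# Germs of fine chains

`GC X` : germs at infinity of sequences of mod 2 chains of lists of points of `X`.
`F U l` : the germs of sequences of chains of lists of length `l`, with all points in a compact
subset of `U`, which become arbitrarily fine (for every neighbourhood of the diagonal).
-/

namespace OS

open Filter Topology Finsupp

variable {X Y Z : Type*}

/-- germs at infinity of sequences of chains -/
abbrev GC (X : Type*) := Germ (atTop : Filter ℕ) (LC X)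

/-- a sequence of linear maps acts on germs -/
noncomputable def op (f : ℕ → LC X →ₗ[ZMod 2] LC Y) : GC X →ₗ[ZMod 2] GC Y where
  toFun := Germ.map' (fun c N => f N (c N)) (by
    intro c c' h
    filter_upwards [h] with N hN
    rw [hN])
  map_add' := by
    intro a b
    induction a using Germ.inductionOn with | _ a => ?_
    induction b using Germ.inductionOn with | _ b => ?_
    refine Germ.coe_eq.mpr (Eventually.of_forall fun N => ?_)
    simp
  map_smul' := by
    intro m a
    induction a using Germ.inductionOn with | _ a => ?_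
    refine Germ.coe_eq.mpr (Eventually.of_forall fun N => ?_)
    simp

theorem op_coe (f : ℕ → LC X →ₗ[ZMod 2] LC Y) (c : ℕ → LC X) :
    op f (c : GC X) = ((fun N => f N (c N) : ℕ → LC Y) : GC Y) := rfl

theorem op_congr {f g : ℕ → LC X →ₗ[ZMod 2] LC Y} (c : GC X)
    (h : ∀ᶠ N in atTop, ∀ c : LC X, f N c = g N c) : op f c = op g c := by
  induction c using Germ.inductionOn with | _ c => ?_
  rw [op_coe, op_coe]
  refine Germ.coe_eq.mpr ?_
  filter_upwards [h] with N hN
  exact hN _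

theorem op_op (f : ℕ → LC Y →ₗ[ZMod 2] LC Z) (g : ℕ → LC X →ₗ[ZMod 2] LC Y) (c : GC X) :
    op f (op g c) = op (fun N => f N ∘ₗ g N) c := by
  induction c using Germ.inductionOn with | _ c => ?_
  rfl

/-- boundary on germs -/
noncomputable def dG : GC X →ₗ[ZMod 2] GC X := op (fun _ => dL)

/-- push forward on germs -/
noncomputable def mapG (f : X → Y) : GC X →ₗ[ZMod 2] GC Y := op (fun _ => mapL f)

/-- cone (put a point in front) on germs -/
noncomputable def consG (x : X) : GC X →ₗ[ZMod 2] GC X := op (fun _ => consL x)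

/-- the constant germ of a chain -/
noncomputable def cst (c : LC X) : GC X := ((fun _ => c : ℕ → LC X) : GC X)

theorem dG_dG (c : GC X) : dG (dG c) = 0 := by
  unfold dG
  rw [op_op]
  induction c using Germ.inductionOn with | _ c => ?_
  rw [op_coe]
  refine Germ.coe_eq.mpr (Eventually.of_forall fun N => ?_)
  exact dL_dL _

theorem dG_mapG (f : X → Y) (c : GC X) : dG (mapG f c) = mapG f (dG c) := by
  unfold dG mapG
  rw [op_op, op_op]
  apply op_congr
  exact Eventually.of_forall fun N c => dL_mapL f c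

theorem mapG_mapG (g : Y → Z) (f : X → Y) (c : GC X) : mapG g (mapG f c) = mapG (g ∘ f) c := by
  unfold mapG
  rw [op_op]
  apply op_congr
  exact Eventually.of_forall fun N c => mapL_mapL g f c

theorem mapG_id (c : GC X) : mapG (id : X → X) c = c := by
  induction c using Germ.inductionOn with | _ c => ?_
  refine Germ.coe_eq.mpr (Eventually.of_forall fun N => ?_)
  exact mapL_id _

theorem dG_consG (x : X) (c : GC X) : dG (consG x c) = c + consG x (dG c) := by
  induction c using Germ.inductionOn with | _ c => ?_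
  refine Germ.coe_eq.mpr (Eventually.of_forall fun N => ?_)
  exact dL_consL x _

theorem mapG_cst (f : X → Y) (c : LC X) : mapG f (cst c) = cst (mapL f c) := rfl

theorem dG_cst (c : LC X) : dG (cst c) = cst (dL c) := rfl

/-! ### supports -/

theorem supp_lin (f : LC X →ₗ[ZMod 2] LC Y) (c : LC X) {t' : List Y}
    (h : t' ∈ (f c).support) : ∃ t ∈ c.support, t' ∈ (f (bs t)).support := by
  classical
  by_contra hcon
  push Not at hcon
  have hc : c = ∑ t ∈ c.support, c t • bs t := by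
    conv_lhs => rw [← Finsupp.sum_single c]
    unfold Finsupp.sum
    refine Finset.sum_congr rfl fun t _ => ?_
    simp [bs]
  have h0 : (f c) t' = 0 := by
    rw [hc, map_sum, Finsupp.finsetSum_apply]
    refine Finset.sum_eq_zero fun t ht => ?_
    rw [map_smul, Finsupp.smul_apply, Finsupp.notMem_support_iff.mp (hcon t ht), smul_zero]
  exact (Finsupp.mem_support_iff.mp h) h0

theorem supp_add {c c' : LC X} {t : List X} (h : t ∈ (c + c').support) :
    t ∈ c.support ∨ t ∈ c'.support := by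
  classical
  exact Finset.mem_union.mp (Finsupp.support_add h)

theorem supp_bs {t t' : List X} (h : t' ∈ (bs t : LC X).support) : t' = t := by
  classical
  exact Finset.mem_singleton.mp (Finsupp.support_single_subset h)

theorem supp_consL {x : X} {c : LC X} {t' : List X} (h : t' ∈ (consL x c).support) :
    ∃ t ∈ c.support, t' = x :: t := by
  obtain ⟨t, ht, h'⟩ := supp_lin _ _ h
  rw [consL_bs] at h'
  exact ⟨t, ht, supp_bs h'⟩

theorem supp_mapL {f : X → Y} {c : LC X} {t' : List Y} (h : t' ∈ (mapL f c).support) :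
    ∃ t ∈ c.support, t' = t.map f := by
  obtain ⟨t, ht, h'⟩ := supp_lin _ _ h
  rw [mapL_bs] at h'
  exact ⟨t, ht, supp_bs h'⟩

theorem supp_dlist {t t' : List X} (h : t' ∈ (dlist t).support) :
    t'.length + 1 = t.length ∧ ∀ x ∈ t', x ∈ t := by
  induction t generalizing t' with
  | nil => simp [dlist] at h
  | cons x t ih =>
    rcases supp_add h with h | h
    · rw [supp_bs h]
      exact ⟨rfl, fun y hy => List.mem_cons_of_mem _ hy⟩
    · obtain ⟨s, hs, rfl⟩ := supp_consL h
      obtain ⟨h1, h2⟩ := ih hs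
      refine ⟨by simp [h1], fun y hy => ?_⟩
      rcases List.mem_cons.mp hy with rfl | hy
      · exact List.mem_cons_self
      · exact List.mem_cons_of_mem _ (h2 y hy)

theorem supp_dL {c : LC X} {t' : List X} (h : t' ∈ (dL c).support) :
    ∃ t ∈ c.support, t'.length + 1 = t.length ∧ ∀ x ∈ t', x ∈ t := by
  obtain ⟨t, ht, h'⟩ := supp_lin _ _ h
  rw [dL_bs] at h'
  exact ⟨t, ht, supp_dlist h'⟩

theorem supp_prismlist {f g : X → Y} {t : List X} {t' : List Y}
    (h : t' ∈ (prismlist f g t).support) :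
    t'.length = t.length + 1 ∧ (∀ y ∈ t', ∃ x ∈ t, y = f x ∨ y = g x) ∧ ∃ x ∈ t, g x ∈ t' := by
  induction t generalizing t' with
  | nil => simp [prismlist] at h
  | cons x t ih =>
    rcases supp_add h with h | h
    · rw [supp_bs h]
      refine ⟨by simp, fun y hy => ?_, x, by simp, by simp⟩
      simp only [List.mem_cons, List.mem_map] at hy
      rcases hy with rfl | rfl | ⟨z, hz, rfl⟩
      · exact ⟨x, List.mem_cons_self, Or.inl rfl⟩
      · exact ⟨x, List.mem_cons_self, Or.inr rfl⟩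
      · exact ⟨z, List.mem_cons_of_mem _ hz, Or.inr rfl⟩
    · obtain ⟨s, hs, rfl⟩ := supp_consL h
      obtain ⟨h1, h2, z, hz, hz'⟩ := ih hs
      refine ⟨by simp [h1], fun y hy => ?_, z, List.mem_cons_of_mem _ hz,
        List.mem_cons_of_mem _ hz'⟩
      rcases List.mem_cons.mp hy with rfl | hy
      · exact ⟨x, List.mem_cons_self, Or.inl rfl⟩
      · obtain ⟨z, hz, h⟩ := h2 y hy
        exact ⟨z, List.mem_cons_of_mem _ hz, h⟩

theorem supp_prismL {f g : X → Y} {c : LC X} {t' : List Y}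
    (h : t' ∈ (prismL f g c).support) :
    ∃ t ∈ c.support, t'.length = t.length + 1 ∧ (∀ y ∈ t', ∃ x ∈ t, y = f x ∨ y = g x) ∧
      ∃ x ∈ t, g x ∈ t' := by
  obtain ⟨t, ht, h'⟩ := supp_lin _ _ h
  rw [prismL_bs] at h'
  exact ⟨t, ht, supp_prismlist h'⟩

/-! ### fine germs -/

variable [TopologicalSpace X] [TopologicalSpace Y] [TopologicalSpace Z]

/-- a sequence of chains of lists of length `l` with points in a compact subset of `U`, becoming
arbitrarily fine -/
def IsF (U : Set X) (l : ℕ) (r : ℕ → LC X) : Prop :=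
  ∃ K : Set X, IsCompact K ∧ K ⊆ U ∧
    (∀ N, ∀ t ∈ (r N).support, t.length = l ∧ ∀ x ∈ t, x ∈ K) ∧
    ∀ O ∈ 𝓝ˢ (Set.diagonal X), ∀ᶠ N in atTop, ∀ t ∈ (r N).support, ∀ x ∈ t, ∀ y ∈ t, (x, y) ∈ O

theorem IsF.add {U : Set X} {l : ℕ} {r s : ℕ → LC X} (hr : IsF U l r) (hs : IsF U l s) :
    IsF U l (r + s) := by
  obtain ⟨K, hK, hKU, h1, h2⟩ := hr
  obtain ⟨K', hK', hKU', h1', h2'⟩ := hs
  refine ⟨K ∪ K', hK.union hK', Set.union_subset hKU hKU', fun N t ht => ?_, fun O hO => ?_⟩
  · rcases supp_add ht with h | h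
    · exact ⟨(h1 N t h).1, fun x hx => Or.inl ((h1 N t h).2 x hx)⟩
    · exact ⟨(h1' N t h).1, fun x hx => Or.inr ((h1' N t h).2 x hx)⟩
  · filter_upwards [h2 O hO, h2' O hO] with N a b t ht
    rcases supp_add ht with h | h
    · exact a t h
    · exact b t h

theorem IsF.zero (U : Set X) (l : ℕ) : IsF U l (0 : ℕ → LC X) :=
  ⟨∅, isCompact_empty, Set.empty_subset _, by simp, by simp⟩

/-- the fine germs with support in `U`, of length `l` -/
def F (U : Set X) (l : ℕ) : Submodule (ZMod 2) (GC X) where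
  carrier := {c | ∃ r : ℕ → LC X, IsF U l r ∧ (r : GC X) = c}
  add_mem' := by
    rintro _ _ ⟨r, hr, rfl⟩ ⟨s, hs, rfl⟩
    exact ⟨r + s, hr.add hs, rfl⟩
  zero_mem' := ⟨0, IsF.zero U l, rfl⟩
  smul_mem' := by
    rintro m _ ⟨r, hr, rfl⟩
    fin_cases m
    · refine ⟨0, IsF.zero U l, ?_⟩
      show _ = (0 : ZMod 2) • (r : GC X)
      rw [zero_smul]; rfl
    · refine ⟨r, hr, ?_⟩
      show _ = (1 : ZMod 2) • (r : GC X)
      rw [one_smul]

theorem mem_F {U : Set X} {l : ℕ} {c : GC X} :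
    c ∈ F U l ↔ ∃ r : ℕ → LC X, IsF U l r ∧ (r : GC X) = c := Iff.rfl

theorem F_mono {U U' : Set X} (h : U ⊆ U') {l : ℕ} {c : GC X} (hc : c ∈ F U l) : c ∈ F U' l := by
  obtain ⟨r, ⟨K, hK, hKU, h1, h2⟩, rfl⟩ := hc
  exact ⟨r, ⟨K, hK, hKU.trans h, h1, h2⟩, rfl⟩

theorem dG_mem {U : Set X} {l : ℕ} {c : GC X} (hc : c ∈ F U (l + 1)) : dG c ∈ F U l := by
  obtain ⟨r, ⟨K, hK, hKU, h1, h2⟩, rfl⟩ := hc
  refine ⟨fun N => dL (r N), ⟨K, hK, hKU, fun N t ht => ?_, fun O hO => ?_⟩, rfl⟩
  · obtain ⟨s, hs, h3, h4⟩ := supp_dL ht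
    obtain ⟨h5, h6⟩ := h1 N s hs
    exact ⟨by omega, fun x hx => h6 x (h4 x hx)⟩
  · filter_upwards [h2 O hO] with N hN t ht x hx y hy
    obtain ⟨s, hs, h3, h4⟩ := supp_dL ht
    exact hN s hs x (h4 x hx) y (h4 y hy)

/-- the boundary of a germ of length `0` vanishes -/
theorem dG_zero_len {U : Set X} {c : GC X} (hc : c ∈ F U 0) : dG c = 0 := by
  obtain ⟨r, ⟨K, hK, hKU, h1, h2⟩, rfl⟩ := hc
  refine Germ.coe_eq.mpr (Eventually.of_forall fun N => ?_)
  show dL (r N) = 0
  by_contra h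
  obtain ⟨t, ht⟩ := Finsupp.support_nonempty_iff.mpr h
  obtain ⟨s, hs, h3, _⟩ := supp_dL ht
  have := (h1 N s hs).1
  omega

omit [TopologicalSpace Y] in
theorem mapG_congr {U : Set X} {l : ℕ} {f g : X → Y} (h : ∀ x ∈ U, f x = g x) {c : GC X}
    (hc : c ∈ F U l) : mapG f c = mapG g c := by
  obtain ⟨r, ⟨K, hK, hKU, h1, h2⟩, rfl⟩ := hc
  refine Germ.coe_eq.mpr (Eventually.of_forall fun N => ?_)
  show mapL f (r N) = mapL g (r N)
  simp only [mapL, Finsupp.lmapDomain_apply]
  apply Finsupp.mapDomain_congr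
  intro t ht
  apply List.map_congr_left
  intro x hx
  exact h x (hKU ((h1 N t ht).2 x hx))

theorem mapG_eq_self {U : Set X} {l : ℕ} {f : X → X} (h : ∀ x ∈ U, f x = x) {c : GC X}
    (hc : c ∈ F U l) : mapG f c = c := by
  rw [mapG_congr (g := id) h hc, mapG_id]

theorem mapG_mem [T2Space X] {U : Set X} {U' : Set Y} {l : ℕ} {f : X → Y} (hU : IsOpen U)
    (hf : ContinuousOn f U) (hm : Set.MapsTo f U U') {c : GC X} (hc : c ∈ F U l) :
    mapG f c ∈ F U' l := by
  obtain ⟨r, ⟨K, hK, hKU, h1, h2⟩, rfl⟩ := hc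
  refine ⟨fun N => mapL f (r N), ⟨f '' K, hK.image_of_continuousOn (hf.mono hKU),
    (hm.mono_left hKU).image_subset, fun N t ht => ?_, fun O hO => ?_⟩, rfl⟩
  · obtain ⟨s, hs, rfl⟩ := supp_mapL ht
    obtain ⟨h5, h6⟩ := h1 N s hs
    refine ⟨by simp [h5], fun x hx => ?_⟩
    obtain ⟨y, hy, rfl⟩ := List.mem_map.mp hx
    exact Set.mem_image_of_mem _ (h6 y hy)
  · have hO' : (Prod.map f f) ⁻¹' O ∪ Kᶜ ×ˢ Kᶜ ∈ 𝓝ˢ (Set.diagonal X) := by
      rw [mem_nhdsSet_iff_forall]
      rintro ⟨x, y⟩ hxy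
      obtain rfl : x = y := hxy
      by_cases hx : x ∈ U
      · have hc : ContinuousAt (Prod.map f f) (x, x) := by
          have := (hf.continuousAt (hU.mem_nhds hx))
          exact this.prodMap' this
        apply mem_of_superset (hc.preimage_mem_nhds ?_) Set.subset_union_left
        exact (mem_nhdsSet_iff_forall.mp hO) (f x, f x) rfl
      · have hx' : x ∈ Kᶜ := fun h => hx (hKU h)
        have : Kᶜ ×ˢ Kᶜ ∈ 𝓝 (x, x) :=
          (hK.isClosed.isOpen_compl.prod hK.isClosed.isOpen_compl).mem_nhds ⟨hx', hx'⟩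
        exact mem_of_superset this Set.subset_union_right
    filter_upwards [h2 _ hO'] with N hN t ht x hx y hy
    obtain ⟨s, hs, rfl⟩ := supp_mapL ht
    obtain ⟨a, ha, rfl⟩ := List.mem_map.mp hx
    obtain ⟨b, hb, rfl⟩ := List.mem_map.mp hy
    rcases hN s hs a ha b hb with h | h
    · exact h
    · exact absurd ((h1 N s hs).2 a ha) h.1

/-- a constant list -/
theorem cst_mem {U : Set X} {p : X} (hp : p ∈ U) (t : List X) (ht : ∀ x ∈ t, x = p) :
    cst (bs t) ∈ F U t.length := by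
  refine ⟨fun _ => bs t, ⟨{p}, isCompact_singleton, Set.singleton_subset_iff.mpr hp,
    fun N s hs => ?_, fun O hO => Eventually.of_forall fun N s hs x hx y hy => ?_⟩, rfl⟩
  · rw [supp_bs hs]
    exact ⟨rfl, fun x hx => ht x hx⟩
  · rw [supp_bs hs] at hx hy
    rw [ht x hx, ht y hy]
    exact subset_of_mem_nhdsSet hO rfl

/-- `cst []` is the augmentation element; it is in `F U 0` for every `U`. -/
theorem nil_mem (U : Set X) : cst (bs ([] : List X)) ∈ F U 0 := by
  refine ⟨fun _ => bs [], ⟨∅, isCompact_empty, Set.empty_subset _,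
    fun N s hs => ?_, fun O hO => Eventually.of_forall fun N s hs x hx => ?_⟩, rfl⟩
  · rw [supp_bs hs]
    exact ⟨rfl, fun x hx => by simp at hx⟩
  · rw [supp_bs hs] at hx
    simp at hx

end OS
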