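import Mathlib
import Pool.Agent.Lib.MP_8fe54c_gt.Gm

/-!
# Homotopies, cones, splitting, intersections for germs of fine chains
-/

namespace OS

open Filter Topology Finsupp

variable {X Y Z : Type*}

/-- the operator of a homotopy: `N` prisms at stage `N` -/
noncomputable def hop (h : X → ℝ → Y) : GC X →ₗ[ZMod 2] GC Y :=
  op (fun N => ∑ i ∈ Finset.range N,
    prismL (fun x => h x ((i : ℝ) / N)) (fun x => h x (((i + 1 : ℕ) : ℝ) / N)))

theorem dG_hop (h : X → ℝ → Y) (c : GC X) :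
    dG (hop h c) = mapG (fun x => h x 0) c + mapG (fun x => h x 1) c + hop h (dG c) := by
  induction c using Germ.inductionOn with | _ c => ?_
  refine Germ.coe_eq.mpr ?_
  filter_upwards [eventually_ge_atTop 1] with N hN
  have key : ∀ M : ℕ, dL ((∑ i ∈ Finset.range M,
      prismL (fun x => h x ((i : ℝ) / N)) (fun x => h x (((i + 1 : ℕ) : ℝ) / N))) (c N)) =
      mapL (fun x => h x 0) (c N) + mapL (fun x => h x ((M : ℝ) / N)) (c N) +
      (∑ i ∈ Finset.range M,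
      prismL (fun x => h x ((i : ℝ) / N)) (fun x => h x (((i + 1 : ℕ) : ℝ) / N))) (dL (c N)) := by
    intro M
    induction M with
    | zero =>
      simp only [Finset.range_zero, Finset.sum_empty, LinearMap.zero_apply, map_zero,
        Nat.cast_zero, zero_div, add_zero]
      exact (add_self_LC _).symm
    | succ M ih =>
      rw [Finset.sum_range_succ]
      generalize (∑ i ∈ Finset.range M,
        prismL (fun x => h x ((i : ℝ) / N)) (fun x => h x (((i + 1 : ℕ) : ℝ) / N))) = S at ih ⊢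
      generalize (fun x => h x (((M + 1 : ℕ) : ℝ) / N)) = g at ih ⊢
      rw [LinearMap.add_apply, map_add, ih, LinearMap.add_apply, dL_prismL]
      (rw [← sub_eq_zero]; abel_nf; try simp only [OS.zsmul2, OS.zsmulm2, OS.zsmul4,
        OS.zsmulm4, OS.zsmul6, OS.zsmulm6, OS.nsmul2, add_zero, zero_add])
  have := key N
  have hN' : (N : ℝ) ≠ 0 := by positivity
  rw [div_self hN'] at this
  exact this

variable [TopologicalSpace X] [TopologicalSpace Y] [TopologicalSpace Z]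

theorem hop_mem [T2Space X] {U : Set X} {U' : Set Y} {l : ℕ} {h : X → ℝ → Y}
    (hc : ContinuousOn (fun p : X × ℝ => h p.1 p.2) (U ×ˢ Set.Icc 0 1))
    (hm : ∀ x ∈ U, ∀ s ∈ Set.Icc (0 : ℝ) 1, h x s ∈ U') {c : GC X} (hcF : c ∈ F U l) :
    hop h c ∈ F U' (l + 1) := by
  obtain ⟨r, ⟨K, hK, hKU, h1, h2⟩, rfl⟩ := hcF
  -- the time points
  have htime : ∀ N : ℕ, ∀ i ∈ Finset.range N, ((i : ℝ) / N) ∈ Set.Icc (0 : ℝ) 1 ∧
      (((i + 1 : ℕ) : ℝ) / N) ∈ Set.Icc (0 : ℝ) 1 := by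
    intro N i hi
    have hi' := Finset.mem_range.mp hi
    have hN : (0 : ℝ) < N := by
      have : 0 < N := by omega
      exact_mod_cast this
    refine ⟨⟨by positivity, ?_⟩, ⟨by positivity, ?_⟩⟩
    · rw [div_le_one hN]; exact_mod_cast hi'.le
    · rw [div_le_one hN]; exact_mod_cast hi'
  have hsupp : ∀ N, ∀ t ∈ ((∑ i ∈ Finset.range N,
      prismL (fun x => h x ((i : ℝ) / N)) (fun x => h x (((i + 1 : ℕ) : ℝ) / N))) (r N)).support,
      ∃ i ∈ Finset.range N, ∃ s ∈ (r N).support, t.length = s.length + 1 ∧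
        ∀ y ∈ t, ∃ x ∈ s, y = h x ((i : ℝ) / N) ∨ y = h x (((i + 1 : ℕ) : ℝ) / N) := by
    intro N t ht
    classical
    rw [LinearMap.sum_apply] at ht
    obtain ⟨i, hi, hti⟩ := Finset.mem_biUnion.mp (Finsupp.support_finsetSum ht)
    obtain ⟨s, hs, h3, h4, _⟩ := supp_prismL hti
    exact ⟨i, hi, s, hs, h3, h4⟩
  refine ⟨_, ⟨(fun p : X × ℝ => h p.1 p.2) '' (K ×ˢ Set.Icc 0 1),
    (hK.prod isCompact_Icc).image_of_continuousOn (hc.mono (Set.prod_mono hKU le_rfl)), ?_,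
    fun N t ht => ?_, fun O hO => ?_⟩, rfl⟩
  · rintro _ ⟨⟨x, s⟩, ⟨hx, hs⟩, rfl⟩
    exact hm x (hKU hx) s hs
  · obtain ⟨i, hi, s, hs, h3, h4⟩ := hsupp N t ht
    obtain ⟨h5, h6⟩ := h1 N s hs
    refine ⟨by omega, fun y hy => ?_⟩
    obtain ⟨x, hx, h7⟩ := h4 y hy
    obtain ⟨ht1, ht2⟩ := htime N i hi
    rcases h7 with rfl | rfl
    · exact ⟨(x, _), ⟨h6 x hx, ht1⟩, rfl⟩
    · exact ⟨(x, _), ⟨h6 x hx, ht2⟩, rfl⟩
  · -- fineness
    obtain ⟨O', hO'sub, hO'open, hO'diag⟩ : ∃ O' ⊆ O, IsOpen O' ∧ Set.diagonal Y ⊆ O' := by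
      obtain ⟨V, hV1, hV2, hV3⟩ := mem_nhdsSet_iff_exists.mp hO
      exact ⟨V, hV3, hV1, hV2⟩
    -- the subset of pairs
    let g : (X × X) × (ℝ × ℝ) → Y × Y := fun q => (h q.1.1 q.2.1, h q.1.2 q.2.2)
    let dK : Set (X × X) := (fun x => (x, x)) '' K
    let dI : Set (ℝ × ℝ) := (fun x => (x, x)) '' Set.Icc (0 : ℝ) 1
    have hdK : IsCompact dK := hK.image (by fun_prop)
    have hdI : IsCompact dI := isCompact_Icc.image (by fun_prop)
    have hg : ContinuousOn g ((U ×ˢ U) ×ˢ (Set.Icc 0 1 ×ˢ Set.Icc 0 1)) := by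
      refine ContinuousOn.prodMk ?_ ?_
      · exact hc.comp (f := fun q : (X × X) × (ℝ × ℝ) => (q.1.1, q.2.1)) (by fun_prop)
          (fun q hq => ⟨hq.1.1, hq.2.1⟩)
      · exact hc.comp (f := fun q : (X × X) × (ℝ × ℝ) => (q.1.2, q.2.2)) (by fun_prop)
          (fun q hq => ⟨hq.1.2, hq.2.2⟩)
    obtain ⟨Ω, hΩ, hΩeq⟩ := continuousOn_iff'.mp hg O' hO'open
    have hsub : dK ×ˢ dI ⊆ Ω := by
      rintro ⟨q1, q2⟩ ⟨⟨x, hx, rfl⟩, ⟨s, hs, rfl⟩⟩
      have : ((x, x), (s, s)) ∈ g ⁻¹' O' ∩ ((U ×ˢ U) ×ˢ (Set.Icc 0 1 ×ˢ Set.Icc 0 1)) :=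
        ⟨hO'diag rfl, ⟨⟨hKU hx, hKU hx⟩, ⟨hs, hs⟩⟩⟩
      rw [hΩeq] at this
      exact this.1
    obtain ⟨u, v, hu, hv, hKu, hIv, huv⟩ := generalized_tube_lemma hdK hdI hΩ hsub
    -- Lebesgue number for v
    obtain ⟨δ, hδ, hδv⟩ : ∃ δ > 0, ∀ s ∈ Set.Icc (0 : ℝ) 1, ∀ s' : ℝ, |s - s'| ≤ δ →
        (s, s') ∈ v := by
      obtain ⟨δ, hδ, hδ'⟩ := hdI.exists_cthickening_subset_open hv hIv
      refine ⟨δ, hδ, fun s hs s' hss => hδ' ?_⟩
      have : (s, s') ∈ Metric.closedBall (s, s) δ := by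
        rw [Metric.mem_closedBall, Prod.dist_eq]
        simp only [dist_self]
        rw [max_eq_right dist_nonneg, Real.dist_eq, abs_sub_comm]
        exact hss
      have hmem : (s, s) ∈ dI := ⟨s, hs, rfl⟩
      exact Metric.closedBall_subset_cthickening hmem δ this
    have hOX : u ∪ Kᶜ ×ˢ Kᶜ ∈ 𝓝ˢ (Set.diagonal X) := by
      rw [mem_nhdsSet_iff_forall]
      rintro ⟨x, y⟩ hxy
      obtain rfl : x = y := hxy
      by_cases hx : x ∈ K
      · exact mem_of_superset (hu.mem_nhds (hKu ⟨x, hx, rfl⟩)) Set.subset_union_left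
      · exact mem_of_superset ((hK.isClosed.isOpen_compl.prod
          hK.isClosed.isOpen_compl).mem_nhds ⟨hx, hx⟩) Set.subset_union_right
    obtain ⟨N₀, hN₀⟩ := exists_nat_gt (1 / δ)
    filter_upwards [h2 _ hOX, eventually_ge_atTop (N₀ + 1)] with N hN hNN t ht a ha b hb
    obtain ⟨i, hi, s, hs, h3, h4⟩ := hsupp N t ht
    obtain ⟨h5, h6⟩ := h1 N s hs
    obtain ⟨x, hx, hxa⟩ := h4 a ha
    obtain ⟨y, hy, hyb⟩ := h4 b hb
    obtain ⟨ht1, ht2⟩ := htime N i hi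
    have hxy : (x, y) ∈ u := by
      rcases hN s hs x hx y hy with h | h
      · exact h
      · exact absurd (h6 x hx) h.1
    have hNpos : (0 : ℝ) < N := by
      have : 0 < N := by omega
      exact_mod_cast this
    have hstep : (1 : ℝ) / N ≤ δ := by
      rw [div_le_iff₀ hNpos]
      have : (N₀ : ℝ) ≤ N := by exact_mod_cast (by omega : N₀ ≤ N)
      have h7 : 1 / δ < N := lt_of_lt_of_le hN₀ this
      rw [div_lt_iff₀ hδ] at h7
      linarith
    have hdiff : (((i + 1 : ℕ) : ℝ) / N) - ((i : ℝ) / N) = 1 / N := by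
      push_cast; ring
    have main : ∀ s1 s2 : ℝ, s1 ∈ Set.Icc (0 : ℝ) 1 → s2 ∈ Set.Icc (0 : ℝ) 1 → |s1 - s2| ≤ δ →
        (h x s1, h y s2) ∈ O := by
      intro s1 s2 hs1 hs2 h12
      apply hO'sub
      have hin : ((x, y), (s1, s2)) ∈ Ω ∩ ((U ×ˢ U) ×ˢ (Set.Icc 0 1 ×ˢ Set.Icc 0 1)) :=
        ⟨huv ⟨hxy, hδv s1 hs1 s2 h12⟩, ⟨⟨hKU (h6 x hx), hKU (h6 y hy)⟩, ⟨hs1, hs2⟩⟩⟩
      rw [← hΩeq] at hin
      exact hin.1
    rcases hxa with rfl | rfl <;> rcases hyb with rfl | rfl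
    · exact main _ _ ht1 ht1 (by simp [hδ.le])
    · refine main _ _ ht1 ht2 ?_
      rw [abs_sub_comm, hdiff, abs_of_nonneg (by positivity)]
      exact hstep
    · refine main _ _ ht2 ht1 ?_
      rw [hdiff, abs_of_nonneg (by positivity)]
      exact hstep
    · exact main _ _ ht2 ht2 (by simp [hδ.le])

/-- the cone operator of a contraction `h` to the point `p` -/
noncomputable def coneG (h : X → ℝ → X) (p : X) (c : GC X) : GC X :=
  hop h c + consG p (mapG (fun x => h x 1) c)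

theorem coneG_mem [T2Space X] {U : Set X} {l : ℕ} {h : X → ℝ → X} {p : X}
    (hp : p ∈ U)
    (hc : ContinuousOn (fun q : X × ℝ => h q.1 q.2) (U ×ˢ Set.Icc 0 1))
    (hm : ∀ x ∈ U, ∀ s ∈ Set.Icc (0 : ℝ) 1, h x s ∈ U) (h1 : ∀ x ∈ U, h x 1 = p) {c : GC X}
    (hcF : c ∈ F U l) : coneG h p c ∈ F U (l + 1) := by
  refine (F U (l + 1)).add_mem (hop_mem hc hm hcF) ?_
  obtain ⟨r, ⟨K, hK, hKU, h2, h3⟩, rfl⟩ := hcF
  refine ⟨fun N => consL p (mapL (fun x => h x 1) (r N)), ⟨{p}, isCompact_singleton,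
    Set.singleton_subset_iff.mpr hp, fun N t ht => ?_, fun O hO => ?_⟩, rfl⟩
  · obtain ⟨s, hs, rfl⟩ := supp_consL ht
    obtain ⟨s', hs', rfl⟩ := supp_mapL hs
    refine ⟨by simp [(h2 N s' hs').1], fun x hx => ?_⟩
    rcases List.mem_cons.mp hx with rfl | hx
    · rfl
    · obtain ⟨y, hy, rfl⟩ := List.mem_map.mp hx
      exact h1 y (hKU ((h2 N s' hs').2 y hy))
  · refine Eventually.of_forall fun N t ht x hx y hy => ?_
    have key : ∀ z ∈ t, z = p := by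
      intro z hz
      obtain ⟨s, hs, rfl⟩ := supp_consL ht
      obtain ⟨s', hs', rfl⟩ := supp_mapL hs
      rcases List.mem_cons.mp hz with rfl | hz
      · rfl
      · obtain ⟨y, hy, rfl⟩ := List.mem_map.mp hz
        exact h1 y (hKU ((h2 N s' hs').2 y hy))
    rw [key x hx, key y hy]
    exact subset_of_mem_nhdsSet hO rfl

theorem dG_coneG {U : Set X} {l : ℕ} {h : X → ℝ → X} {p : X} (h0 : ∀ x ∈ U, h x 0 = x)
    {c : GC X} (hcF : c ∈ F U l) : dG (coneG h p c) = c + coneG h p (dG c) := by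
  unfold coneG
  rw [map_add, dG_hop, dG_consG, dG_mapG, mapG_eq_self h0 hcF]
  (rw [← sub_eq_zero]; abel_nf; try simp only [OS.zsmul2, OS.zsmulm2, OS.zsmul4,
    OS.zsmulm4, OS.zsmul6, OS.zsmulm6, OS.nsmul2, add_zero, zero_add])

/-- exactness in length `l` of the fine chains in `U` -/
def Ex (U : Set X) (l : ℕ) : Prop := ∀ c ∈ F U l, dG c = 0 → ∃ e ∈ F U (l + 1), dG e = c

theorem Ex_of_contraction [T2Space X] {U : Set X} {h : X → ℝ → X} {p : X}
    (hp : p ∈ U) (hc : ContinuousOn (fun q : X × ℝ => h q.1 q.2) (U ×ˢ Set.Icc 0 1))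
    (hm : ∀ x ∈ U, ∀ s ∈ Set.Icc (0 : ℝ) 1, h x s ∈ U) (h0 : ∀ x ∈ U, h x 0 = x)
    (h1 : ∀ x ∈ U, h x 1 = p) (l : ℕ) : Ex U l := by
  intro c hcF hd
  refine ⟨coneG h p c, coneG_mem hp hc hm h1 hcF, ?_⟩
  rw [dG_coneG h0 hcF, hd]
  simp [coneG]

/-- a contractible space is exact -/
theorem Ex_univ [T2Space X] [ContractibleSpace X] (l : ℕ) : Ex (Set.univ : Set X) l := by
  obtain ⟨p, ⟨H⟩⟩ := id_nullhomotopic X
  refine Ex_of_contraction (U := Set.univ) (h := fun x s => H (Set.projIcc 0 1 zero_le_one s, x)) (p := p)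
    (Set.mem_univ p) ?_ (fun _ _ _ _ => Set.mem_univ _) ?_ ?_ l
  · exact (H.continuous.comp ((continuous_projIcc.comp continuous_snd).prodMk
      continuous_fst)).continuousOn
  · intro x _
    have : Set.projIcc (0 : ℝ) 1 zero_le_one 0 = 0 := by
      apply Subtype.ext; simp
    simp only [this]
    exact H.apply_zero x
  · intro x _
    have : Set.projIcc (0 : ℝ) 1 zero_le_one 1 = 1 := by
      apply Subtype.ext; simp
    simp only [this]
    exact H.apply_one x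

/-- Splitting of a fine germ along an open cover. -/
theorem split [T2Space X] [LocallyCompactSpace X] {U₁ U₂ : Set X} (hU₁ : IsOpen U₁)
    (hU₂ : IsOpen U₂) {l : ℕ} {c : GC X} (hc : c ∈ F (U₁ ∪ U₂) l) :
    ∃ c₁ ∈ F U₁ l, ∃ c₂ ∈ F U₂ l, c = c₁ + c₂ := by
  classical
  obtain ⟨r, ⟨K, hK, hKU, h1, h2⟩, rfl⟩ := hc
  obtain ⟨K₁, K₂, hK₁, hK₂, hK₁U, hK₂U, hcov⟩ : ∃ K₁ K₂ : Set X, IsCompact K₁ ∧ IsCompact K₂ ∧
      K₁ ⊆ U₁ ∧ K₂ ⊆ U₂ ∧ K ⊆ interior K₁ ∪ interior K₂ := by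
    obtain ⟨L₁, L₂, hL₁, hL₂, hL₁U, hL₂U, rfl⟩ := hK.binary_compact_cover hU₁ hU₂ hKU
    obtain ⟨K₁, hK₁, hLK₁, hKU₁⟩ := exists_compact_between hL₁ hU₁ hL₁U
    obtain ⟨K₂, hK₂, hLK₂, hKU₂⟩ := exists_compact_between hL₂ hU₂ hL₂U
    exact ⟨K₁, K₂, hK₁, hK₂, hKU₁, hKU₂, Set.union_subset_union hLK₁ hLK₂⟩
  let O : Set (X × X) := (interior K₁ ×ˢ interior K₁) ∪ (interior K₂ ×ˢ interior K₂) ∪ (Kᶜ ×ˢ Kᶜ)
  have hO : O ∈ 𝓝ˢ (Set.diagonal X) := by
    rw [mem_nhdsSet_iff_forall]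
    rintro ⟨x, y⟩ hxy
    obtain rfl : x = y := hxy
    have hopen : IsOpen O :=
      ((isOpen_interior.prod isOpen_interior).union (isOpen_interior.prod isOpen_interior)).union
        (hK.isClosed.isOpen_compl.prod hK.isClosed.isOpen_compl)
    apply hopen.mem_nhds
    by_cases hx : x ∈ K
    · rcases hcov hx with h | h
      · exact Or.inl (Or.inl ⟨h, h⟩)
      · exact Or.inl (Or.inr ⟨h, h⟩)
    · exact Or.inr ⟨hx, hx⟩
  have hev := h2 O hO
  -- for large N every list is in K₁ or in K₂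
  have hlist : ∀ᶠ N in atTop, ∀ t ∈ (r N).support, (∀ x ∈ t, x ∈ K₁) ∨ (∀ x ∈ t, x ∈ K₂) := by
    filter_upwards [hev] with N hN t ht
    by_contra hcon
    push Not at hcon
    obtain ⟨⟨x, hx, hxK⟩, ⟨y, hy, hyK⟩⟩ := hcon
    have hx' := (h1 N t ht).2 x hx
    have hy' := (h1 N t ht).2 y hy
    rcases hN t ht x hx y hy with (h | h) | h
    · exact hxK (interior_subset h.1)
    · exact hyK (interior_subset h.2)
    · exact h.1 hx'
  let P₁ : List X → Prop := fun t => ∀ x ∈ t, x ∈ K₁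
  let P₂ : List X → Prop := fun t => (¬ ∀ x ∈ t, x ∈ K₁) ∧ ∀ x ∈ t, x ∈ K₂
  refine ⟨((fun N => (r N).filter P₁ : ℕ → LC X) : GC X), ?_,
    ((fun N => (r N).filter P₂ : ℕ → LC X) : GC X), ?_, ?_⟩
  · refine ⟨_, ⟨K₁, hK₁, hK₁U, fun N t ht => ?_, fun O' hO' => ?_⟩, rfl⟩
    · rw [Finsupp.support_filter, Finset.mem_filter] at ht
      exact ⟨(h1 N t ht.1).1, ht.2⟩
    · filter_upwards [h2 O' hO'] with N hN t ht
      rw [Finsupp.support_filter, Finset.mem_filter] at ht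
      exact hN t ht.1
  · refine ⟨_, ⟨K₂, hK₂, hK₂U, fun N t ht => ?_, fun O' hO' => ?_⟩, rfl⟩
    · rw [Finsupp.support_filter, Finset.mem_filter] at ht
      exact ⟨(h1 N t ht.1).1, ht.2.2⟩
    · filter_upwards [h2 O' hO'] with N hN t ht
      rw [Finsupp.support_filter, Finset.mem_filter] at ht
      exact hN t ht.1
  · refine Germ.coe_eq.mpr ?_
    filter_upwards [hlist] with N hN
    show r N = (r N).filter P₁ + (r N).filter P₂
    ext t
    rw [Finsupp.add_apply, Finsupp.filter_apply, Finsupp.filter_apply]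
    by_cases ht : t ∈ (r N).support
    · rcases hN t ht with h | h
      · rw [if_pos h, if_neg (fun h' => h'.1 h), add_zero]
      · by_cases h' : ∀ x ∈ t, x ∈ K₁
        · rw [if_pos h', if_neg (fun h'' => h''.1 h'), add_zero]
        · rw [if_neg h', if_pos ⟨h', h⟩, zero_add]
    · rw [Finsupp.notMem_support_iff.mp ht]
      simp

/-- a germ which is fine in `U₁` and in `U₂` is fine in `U₁ ∩ U₂` -/
theorem inter_mem [T2Space X] {U₁ U₂ : Set X} {l : ℕ} {c : GC X} (h₁ : c ∈ F U₁ l)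
    (h₂ : c ∈ F U₂ l) : c ∈ F (U₁ ∩ U₂) l := by
  classical
  obtain ⟨r, ⟨K, hK, hKU, h1, h2⟩, rfl⟩ := h₁
  obtain ⟨s, ⟨K', hK', hKU', h1', h2'⟩, hs⟩ := h₂
  have hrs : s =ᶠ[atTop] r := Germ.coe_eq.mp hs
  refine ⟨fun N => if s N = r N then r N else 0, ⟨K ∩ K', hK.inter hK',
    Set.inter_subset_inter hKU hKU', fun N t ht => ?_, fun O hO => ?_⟩, ?_⟩
  · change t ∈ (if s N = r N then r N else (0 : LC X)).support at ht
    split_ifs at ht with h
    · refine ⟨(h1 N t ht).1, fun x hx => ⟨(h1 N t ht).2 x hx, ?_⟩⟩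
      rw [← h] at ht
      exact (h1' N t ht).2 x hx
    · simp at ht
  · filter_upwards [h2 O hO] with N hN t ht
    split_ifs at ht with h
    · exact hN t ht
    · simp at ht
  · refine Germ.coe_eq.mpr ?_
    filter_upwards [hrs] with N hN
    simp [hN]

end OS
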