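import Mathlib
import Pool.Agent.Lib.MP_8fe54c_gt.Ho

/-!
# Definitions for the topological part
-/

namespace OS

open Filter Topology

/-- `R^n`, with the sup norm -/
abbrev Rn (n : ℕ) := Fin n → ℝ

/-- `R^n` minus the origin -/
def Pn (n : ℕ) : Set (Rn n) := {x | x ≠ 0}

/-- the point `(1, 0, …, 0)` -/
def eN (n : ℕ) : Rn (n + 1) := Fin.cons 1 0

/-- the inclusion `x ↦ (0, x)` -/
def jN (n : ℕ) (x : Rn n) : Rn (n + 1) := Fin.cons 0 x

/-- straight line contraction to `eN n` -/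
def hP (n : ℕ) (x : Rn (n + 1)) (t : ℝ) : Rn (n + 1) := (1 - t) • x + t • eN n

/-- straight line contraction to `- eN n` -/
def hM (n : ℕ) (x : Rn (n + 1)) (t : ℝ) : Rn (n + 1) := (1 - t) • x + t • (-(eN n))

/-- `U_+` -/
def Up (n : ℕ) : Set (Rn (n + 1)) := {x | Fin.tail x ≠ 0 ∨ 0 < x 0}

/-- `U_-` -/
def Um (n : ℕ) : Set (Rn (n + 1)) := {x | Fin.tail x ≠ 0 ∨ x 0 < 0}

/-- the fine spheres -/
noncomputable def Sph : ∀ n : ℕ, GC (Rn n)
  | 0 => cst (bs [])
  | (n + 1) => coneG (hP n) (eN n) (mapG (jN n) (Sph n)) +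
      coneG (hM n) (-(eN n)) (mapG (jN n) (Sph n))

/-- multiplication of a germ of chains by a sequence of scalars -/
noncomputable def scG {X : Type*} (μ : ℕ → ZMod 2) : GC X →ₗ[ZMod 2] GC X :=
  op (fun N => μ N • LinearMap.id)

/-- the fine cycles in `U` of length `l` are, up to boundaries, multiples of `S` -/
def Gen {X : Type*} [TopologicalSpace X] (U : Set X) (l : ℕ) (S : GC X) : Prop :=
  ∀ c ∈ F U l, dG c = 0 → ∃ μ : ℕ → ZMod 2, ∃ e ∈ F U (l + 1), dG e = c + scG μ S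

/-- `S` is not a boundary of a fine chain in `U` -/
def NB {X : Type*} [TopologicalSpace X] (U : Set X) (l : ℕ) (S : GC X) : Prop :=
  ∀ b ∈ F U (l + 1), dG b ≠ S

/-- every point has a neighbourhood homeomorphic to `R^n` -/
def LocEuc (n : ℕ) (Y : Type*) [TopologicalSpace Y] : Prop :=
  ∀ y : Y, ∃ e : Rn n → Y, IsOpenEmbedding e ∧ e 0 = y

/-- the half space -/
abbrev HS (m : ℕ) := {x : Rn (m + 1) // 0 ≤ x 0}

/-- every point is in the source of a chart with values in the half space of dimension `m + 1` -/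
def LocHalf (m : ℕ) (Y : Type*) [TopologicalSpace Y] : Prop :=
  ∀ y : Y, ∃ f : OpenPartialHomeomorph Y (HS m), y ∈ f.source

/-- the complement of the diagonal -/
def EE (Y : Type*) : Set (Y × Y) := {q | q.1 ≠ q.2}

/-- labels: the least `i` with `x i < 0`, or `n` -/
noncomputable def lab : ∀ n : ℕ, Rn n → ℕ
  | 0, _ => 0
  | (n + 1), x => if x 0 < 0 then 0 else lab n (Fin.tail x) + 1

open Classical in
/-- full labels `0, …, n` -/
noncomputable def Dn (n : ℕ) : LC (Rn n) →ₗ[ZMod 2] ZMod 2 :=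
  Finsupp.lsum (ZMod 2) (fun t : List (Rn n) => LinearMap.toSpanSingleton (ZMod 2) (ZMod 2)
    (if (t.map (lab n)).Perm (List.range (n + 1)) then 1 else 0))

open Classical in
/-- labels `1, …, n` -/
noncomputable def Bn (n : ℕ) : LC (Rn n) →ₗ[ZMod 2] ZMod 2 :=
  Finsupp.lsum (ZMod 2) (fun t : List (Rn n) => LinearMap.toSpanSingleton (ZMod 2) (ZMod 2)
    (if (t.map (lab n)).Perm ((List.range n).map (· + 1)) then 1 else 0))

end OS
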