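import Mathlib
import Pool.Agent.Lib.MP_8fe54c_gt.TopDefs

/-!
# PROJECT RAAG, module C1 : fine spheres, naturality of cones, tower of the sphere
-/

namespace OS

open Filter Topology Finsupp

/-! ### naturality -/

theorem sph_prismL_nat {X X' Y Y' : Type*} {f g : X → Y} {f' g' : X' → Y'} (k : Y → Y') (p : X → X')
    (hf : ∀ x, k (f x) = f' (p x)) (hg : ∀ x, k (g x) = g' (p x)) (c : LC X) :
    mapL k (prismL f g c) = prismL f' g' (mapL p c) := by
  have : mapL k ∘ₗ prismL f g = prismL f' g' ∘ₗ mapL p := by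
    apply LC_ext
    intro t
    simp only [LinearMap.comp_apply, prismL_bs, mapL_bs]
    induction t with
    | nil => simp [prismlist]
    | cons x t ih =>
      simp only [prismlist, map_add, mapL_bs, mapL_consL, List.map_cons, ih, hf, hg, List.map_map]
      congr 4
      apply List.map_congr_left
      intro y _
      exact hg y
  exact congrArg (fun h => h c) this

theorem mapG_hop {X X' Y Y' : Type*} (h : X → ℝ → Y) (h' : X' → ℝ → Y') (g : X → X') (k : Y → Y')
    (H : ∀ x t, k (h x t) = h' (g x) t) (c : GC X) : mapG k (hop h c) = hop h' (mapG g c) := by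
  unfold mapG hop
  rw [op_op, op_op]
  apply op_congr
  refine Eventually.of_forall fun N c => ?_
  simp only [LinearMap.comp_apply, LinearMap.sum_apply, map_sum]
  refine Finset.sum_congr rfl fun i _ => ?_
  exact sph_prismL_nat k g (fun x => H x _) (fun x => H x _) c

theorem mapG_consG {X Y : Type*} (g : X → Y) (p : X) (c : GC X) :
    mapG g (consG p c) = consG (g p) (mapG g c) := by
  unfold mapG consG
  rw [op_op, op_op]
  apply op_congr
  exact Eventually.of_forall fun N c => mapL_consL g p c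

theorem mapG_coneG {X X' : Type*} (h : X → ℝ → X) (h' : X' → ℝ → X') (p : X) (g : X → X')
    (H : ∀ x t, g (h x t) = h' (g x) t) (c : GC X) :
    mapG g (coneG h p c) = coneG h' (g p) (mapG g c) := by
  unfold coneG
  have h1 : (g ∘ fun x => h x 1) = ((fun x => h' x 1) ∘ g) := funext fun x => H x 1
  rw [map_add, mapG_hop h h' g g H, mapG_consG, mapG_mapG, mapG_mapG, h1]

/-! ### the sets -/

theorem isOpen_Pn (n : ℕ) : IsOpen (Pn n) := isOpen_compl_singleton

theorem sph_continuous_tail (n : ℕ) : Continuous fun x : Rn (n + 1) => (Fin.tail x : Rn n) :=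
  continuous_pi fun i => continuous_apply (Fin.succ i)

theorem isOpen_Up (n : ℕ) : IsOpen (Up n) := by
  have h1 : IsOpen {x : Rn (n + 1) | (Fin.tail x : Rn n) ≠ 0} :=
    (isOpen_compl_singleton (x := (0 : Rn n))).preimage (sph_continuous_tail n)
  have h2 : IsOpen {x : Rn (n + 1) | 0 < x 0} := isOpen_lt continuous_const (continuous_apply 0)
  exact h1.union h2

theorem isOpen_Um (n : ℕ) : IsOpen (Um n) := by
  have h1 : IsOpen {x : Rn (n + 1) | (Fin.tail x : Rn n) ≠ 0} :=
    (isOpen_compl_singleton (x := (0 : Rn n))).preimage (sph_continuous_tail n)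
  have h2 : IsOpen {x : Rn (n + 1) | x 0 < 0} := isOpen_lt (continuous_apply 0) continuous_const
  exact h1.union h2

theorem sph_Up_sub (n : ℕ) : Up n ⊆ Pn (n + 1) := by
  rintro x hx rfl
  rcases hx with h | h
  · exact h rfl
  · exact lt_irrefl _ h

theorem sph_Um_sub (n : ℕ) : Um n ⊆ Pn (n + 1) := by
  rintro x hx rfl
  rcases hx with h | h
  · exact h rfl
  · exact lt_irrefl _ h

theorem sph_eN_zero (n : ℕ) : eN n 0 = 1 := rfl

theorem sph_tail_hP (n : ℕ) (x : Rn (n + 1)) (t : ℝ) :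
    (Fin.tail (hP n x t) : Rn n) = (1 - t) • Fin.tail x := by
  funext i
  simp [hP, Fin.tail, eN]

theorem sph_tail_hM (n : ℕ) (x : Rn (n + 1)) (t : ℝ) :
    (Fin.tail (hM n x t) : Rn n) = (1 - t) • Fin.tail x := by
  funext i
  simp [hM, Fin.tail, eN]

theorem sph_hP_zero (n : ℕ) (x : Rn (n + 1)) (t : ℝ) : hP n x t 0 = (1 - t) * x 0 + t := by
  simp [hP, eN]

theorem sph_hM_zero (n : ℕ) (x : Rn (n + 1)) (t : ℝ) : hM n x t 0 = (1 - t) * x 0 - t := by
  simp [hM, eN, sub_eq_add_neg]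

theorem sph_hP_mem {n : ℕ} {x : Rn (n + 1)} (hx : x ∈ Up n) {t : ℝ} (ht : t ∈ Set.Icc (0 : ℝ) 1) :
    hP n x t ∈ Up n := by
  obtain ⟨h0, h1⟩ := ht
  rcases eq_or_lt_of_le h1 with rfl | h1
  · right
    rw [sph_hP_zero]
    norm_num
  · rcases hx with h | h
    · left
      rw [sph_tail_hP]
      exact smul_ne_zero (by linarith) h
    · right
      rw [sph_hP_zero]
      have : 0 < (1 - t) * x 0 := mul_pos (by linarith) h
      linarith

theorem sph_hM_mem {n : ℕ} {x : Rn (n + 1)} (hx : x ∈ Um n) {t : ℝ} (ht : t ∈ Set.Icc (0 : ℝ) 1) :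
    hM n x t ∈ Um n := by
  obtain ⟨h0, h1⟩ := ht
  rcases eq_or_lt_of_le h1 with rfl | h1
  · right
    rw [sph_hM_zero]
    norm_num
  · rcases hx with h | h
    · left
      rw [sph_tail_hM]
      exact smul_ne_zero (by linarith) h
    · right
      rw [sph_hM_zero]
      have : (1 - t) * x 0 < 0 := mul_neg_of_pos_of_neg (by linarith) h
      linarith

theorem sph_hP_cont (n : ℕ) : Continuous fun q : Rn (n + 1) × ℝ => hP n q.1 q.2 := by
  unfold hP
  fun_prop

theorem sph_hM_cont (n : ℕ) : Continuous fun q : Rn (n + 1) × ℝ => hM n q.1 q.2 := by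
  unfold hM
  fun_prop

theorem sph_eN_mem (n : ℕ) : eN n ∈ Up n := Or.inr (by rw [sph_eN_zero]; norm_num)

theorem sph_neg_eN_mem (n : ℕ) : -(eN n) ∈ Um n := Or.inr (by
  change -(eN n 0) < 0
  rw [sph_eN_zero]
  norm_num)

theorem sph_hP_0 (n : ℕ) (x : Rn (n + 1)) : hP n x 0 = x := by simp [hP]
theorem sph_hP_1 (n : ℕ) (x : Rn (n + 1)) : hP n x 1 = eN n := by simp [hP]
theorem sph_hM_0 (n : ℕ) (x : Rn (n + 1)) : hM n x 0 = x := by simp [hM]
theorem sph_hM_1 (n : ℕ) (x : Rn (n + 1)) : hM n x 1 = -(eN n) := by simp [hM]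

theorem coneP_mem {n l : ℕ} {c : GC (Rn (n + 1))} (hc : c ∈ F (Up n) l) :
    coneG (hP n) (eN n) c ∈ F (Up n) (l + 1) :=
  coneG_mem (sph_eN_mem n) (sph_hP_cont n).continuousOn (fun _ hx _ hs => sph_hP_mem hx hs)
    (fun x _ => sph_hP_1 n x) hc

theorem coneM_mem {n l : ℕ} {c : GC (Rn (n + 1))} (hc : c ∈ F (Um n) l) :
    coneG (hM n) (-(eN n)) c ∈ F (Um n) (l + 1) :=
  coneG_mem (sph_neg_eN_mem n) (sph_hM_cont n).continuousOn (fun _ hx _ hs => sph_hM_mem hx hs)
    (fun x _ => sph_hM_1 n x) hc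

theorem dG_coneP {n l : ℕ} {c : GC (Rn (n + 1))} (hc : c ∈ F (Up n) l) :
    dG (coneG (hP n) (eN n) c) = c + coneG (hP n) (eN n) (dG c) :=
  dG_coneG (fun x _ => sph_hP_0 n x) hc

theorem dG_coneM {n l : ℕ} {c : GC (Rn (n + 1))} (hc : c ∈ F (Um n) l) :
    dG (coneG (hM n) (-(eN n)) c) = c + coneG (hM n) (-(eN n)) (dG c) :=
  dG_coneG (fun x _ => sph_hM_0 n x) hc

theorem Ex_Up (n l : ℕ) : Ex (Up n) l :=
  Ex_of_contraction (sph_eN_mem n) (sph_hP_cont n).continuousOn (fun _ hx _ hs => sph_hP_mem hx hs)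
    (fun x _ => sph_hP_0 n x) (fun x _ => sph_hP_1 n x) l

theorem Ex_Um (n l : ℕ) : Ex (Um n) l :=
  Ex_of_contraction (sph_neg_eN_mem n) (sph_hM_cont n).continuousOn
    (fun _ hx _ hs => sph_hM_mem hx hs) (fun x _ => sph_hM_0 n x) (fun x _ => sph_hM_1 n x) l

theorem sph_tail_jN (n : ℕ) (x : Rn n) : (Fin.tail (jN n x) : Rn n) = x := by
  funext i
  simp [jN, Fin.tail]

theorem sph_jN_cont (n : ℕ) : Continuous (jN n) := by
  refine continuous_pi fun i => ?_
  refine Fin.cases ?_ (fun j => ?_) i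
  · simp only [jN, Fin.cons_zero]
    exact continuous_const
  · simp only [jN, Fin.cons_succ]
    exact continuous_apply j

/-- `j_*` maps chains of `R^n - 0` into `U_+ ∩ U_-` -/
theorem jN_mem {n l : ℕ} {c : GC (Rn n)} (hc : c ∈ F (Pn n) l) :
    mapG (jN n) c ∈ F (Up n ∩ Um n) l := by
  refine mapG_mem (isOpen_Pn n) (sph_jN_cont n).continuousOn ?_ hc
  intro x hx
  have : (Fin.tail (jN n x) : Rn n) ≠ 0 := by rw [sph_tail_jN]; exact hx
  exact ⟨Or.inl this, Or.inl this⟩

theorem sph_jP {n l : ℕ} {c : GC (Rn n)} (hc : c ∈ F (Pn n) l) : mapG (jN n) c ∈ F (Up n) l :=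
  F_mono Set.inter_subset_left (jN_mem hc)

theorem sph_jM {n l : ℕ} {c : GC (Rn n)} (hc : c ∈ F (Pn n) l) : mapG (jN n) c ∈ F (Um n) l :=
  F_mono Set.inter_subset_right (jN_mem hc)

theorem Sph_mem (n : ℕ) : Sph n ∈ F (Pn n) n := by
  induction n with
  | zero => exact nil_mem _
  | succ n ih =>
    exact (F _ _).add_mem (F_mono (sph_Up_sub n) (coneP_mem (sph_jP ih)))
      (F_mono (sph_Um_sub n) (coneM_mem (sph_jM ih)))

theorem sph_coneG_zero {X : Type*} (h : X → ℝ → X) (p : X) : coneG h p 0 = 0 := by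
  unfold coneG
  rw [map_zero, map_zero, map_zero, add_zero]

theorem Sph_d (n : ℕ) : dG (Sph n) = 0 := by
  induction n with
  | zero =>
    change dG (cst (bs [])) = 0
    rw [dG_cst, dL_bs]
    rfl
  | succ n ih =>
    change dG (coneG (hP n) (eN n) (mapG (jN n) (Sph n)) +
      coneG (hM n) (-(eN n)) (mapG (jN n) (Sph n))) = 0
    rw [map_add, dG_coneP (sph_jP (Sph_mem n)), dG_coneM (sph_jM (Sph_mem n)), dG_mapG, ih,
      map_zero, sph_coneG_zero, sph_coneG_zero, add_zero]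
    exact add_self_LC _

theorem sph_neg_hP (n : ℕ) (x : Rn (n + 1)) (t : ℝ) : -(hP n x t) = hM n (-x) t := by
  simp only [hP, hM, neg_add, smul_neg]

theorem sph_neg_hM (n : ℕ) (x : Rn (n + 1)) (t : ℝ) : -(hM n x t) = hP n (-x) t := by
  simp only [hP, hM, neg_add, smul_neg, neg_neg]

theorem sph_neg_jN (n : ℕ) (x : Rn n) : -(jN n x) = jN n (-x) := by
  funext i
  refine Fin.cases ?_ (fun j => ?_) i
  · simp [jN]
  · simp [jN]

theorem sph_neg_coneP (n : ℕ) (c : GC (Rn n)) :
    mapG (fun x : Rn (n + 1) => -x) (coneG (hP n) (eN n) (mapG (jN n) c)) =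
      coneG (hM n) (-(eN n)) (mapG (jN n) (mapG (fun x : Rn n => -x) c)) := by
  rw [mapG_coneG (hP n) (hM n) (eN n) (fun x : Rn (n + 1) => -x) (fun x t => sph_neg_hP n x t),
    mapG_mapG, mapG_mapG]
  congr 3
  funext x
  exact sph_neg_jN n x

theorem sph_neg_coneM (n : ℕ) (c : GC (Rn n)) :
    mapG (fun x : Rn (n + 1) => -x) (coneG (hM n) (-(eN n)) (mapG (jN n) c)) =
      coneG (hP n) (eN n) (mapG (jN n) (mapG (fun x : Rn n => -x) c)) := by
  rw [mapG_coneG (hM n) (hP n) (-(eN n)) (fun x : Rn (n + 1) => -x) (fun x t => sph_neg_hM n x t),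
    mapG_mapG, mapG_mapG, neg_neg]
  congr 3
  funext x
  exact sph_neg_jN n x

theorem Sph_neg (n : ℕ) : mapG (fun x : Rn n => -x) (Sph n) = Sph n := by
  induction n with
  | zero =>
    change mapG _ (cst (bs [])) = cst (bs [])
    rw [mapG_cst, mapL_bs]
    rfl
  | succ n ih =>
    change mapG _ (coneG (hP n) (eN n) (mapG (jN n) (Sph n)) +
      coneG (hM n) (-(eN n)) (mapG (jN n) (Sph n))) = coneG (hP n) (eN n) (mapG (jN n) (Sph n)) +
      coneG (hM n) (-(eN n)) (mapG (jN n) (Sph n))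
    rw [map_add, sph_neg_coneP, sph_neg_coneM, ih]
    exact add_comm _ _

/-- the tower of the sphere for the antipode (C2) -/
theorem sph_tower (n : ℕ) : ∃ t : ℕ → GC (Rn (n + 1)),
    (∀ i ≤ n, t i ∈ F (Pn (n + 1)) (i + 1)) ∧ dG (t 0) = cst (bs []) ∧
    (∀ i < n, dG (t (i + 1)) = t i + mapG (fun x => -x) (t i)) ∧
    t n + mapG (fun x => -x) (t n) = Sph (n + 1) := by
  have htop : ∀ n, coneG (hP n) (eN n) (mapG (jN n) (Sph n)) +
      mapG (fun x => -x) (coneG (hP n) (eN n) (mapG (jN n) (Sph n))) = Sph (n + 1) := by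
    intro n
    rw [sph_neg_coneP, Sph_neg]
    rfl
  have hd : ∀ n, dG (coneG (hP n) (eN n) (mapG (jN n) (Sph n))) = mapG (jN n) (Sph n) := by
    intro n
    rw [dG_coneP (sph_jP (Sph_mem n)), dG_mapG, Sph_d, map_zero, sph_coneG_zero, add_zero]
  induction n with
  | zero =>
    refine ⟨fun _ => coneG (hP 0) (eN 0) (mapG (jN 0) (Sph 0)), fun i hi => ?_, ?_,
      fun i hi => absurd hi (Nat.not_lt_zero i), htop 0⟩
    · obtain rfl : i = 0 := by omega
      exact F_mono (sph_Up_sub 0) (coneP_mem (sph_jP (Sph_mem 0)))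
    · rw [hd]
      change mapG (jN 0) (cst (bs [])) = cst (bs [])
      rw [mapG_cst, mapL_bs]
      rfl
  | succ n ih =>
    obtain ⟨t, h1, h2, h3, h4⟩ := ih
    refine ⟨fun i => if i = n + 1 then coneG (hP (n + 1)) (eN (n + 1))
      (mapG (jN (n + 1)) (Sph (n + 1))) else mapG (jN (n + 1)) (t i), fun i hi => ?_, ?_,
      fun i hi => ?_, ?_⟩
    · by_cases h : i = n + 1
      · simp only [h, if_true]
        exact F_mono (sph_Up_sub _) (coneP_mem (sph_jP (Sph_mem _)))
      · simp only [h, if_false]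
        exact F_mono (sph_Up_sub _) (sph_jP (h1 i (by omega)))
    · have : (0 : ℕ) ≠ n + 1 := by omega
      simp only [this, if_false]
      rw [dG_mapG, h2, mapG_cst, mapL_bs]
      rfl
    · have hi' : i ≠ n + 1 := by omega
      have hneg : mapG (fun x => -x) (mapG (jN (n + 1)) (t i)) =
          mapG (jN (n + 1)) (mapG (fun x => -x) (t i)) := by
        rw [mapG_mapG, mapG_mapG]
        congr 2
        funext x
        exact sph_neg_jN _ x
      by_cases h : i = n
      · subst h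
        simp only [if_true, hi', if_false]
        rw [hd, hneg, ← map_add, h4]
      · have h' : i + 1 ≠ n + 1 := by omega
        simp only [h', hi', if_false]
        rw [hneg, ← map_add, dG_mapG, h3 i (by omega)]
    · simp only [if_true]
      exact htop (n + 1)

end OS
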