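import Mathlib
import Pool.Agent.Lib.MP_8fe54c_gt.Sph

/-!
# PROJECT RAAG, module C2 : Sperner parity, the sphere has degree one, ball, scaling
-/

namespace OS

open Filter Topology Finsupp

/-! ### linear functionals on chains -/

theorem sper_congr {X : Type*} {f g : LC X →ₗ[ZMod 2] ZMod 2} {c : LC X}
    (h : ∀ t ∈ c.support, f (bs t) = g (bs t)) : f c = g c := by
  have hc : c = ∑ t ∈ c.support, c t • bs t := by
    conv_lhs => rw [← Finsupp.sum_single c]
    unfold Finsupp.sum
    refine Finset.sum_congr rfl fun t _ => ?_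
    simp [bs]
  rw [hc, map_sum, map_sum]
  refine Finset.sum_congr rfl fun t ht => ?_
  rw [map_smul, map_smul, h t ht]

/-- indicator of a multiset of labels -/
noncomputable def phiS (S : Multiset ℕ) : LC ℕ →ₗ[ZMod 2] ZMod 2 :=
  Finsupp.lsum (ZMod 2) (fun t : List ℕ => LinearMap.toSpanSingleton (ZMod 2) (ZMod 2)
    (if (t : Multiset ℕ) = S then 1 else 0))

theorem phiS_bs (S : Multiset ℕ) (t : List ℕ) :
    phiS S (bs t) = if (t : Multiset ℕ) = S then 1 else 0 := by
  simp [phiS]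

theorem phiS_consL (S : Multiset ℕ) (x : ℕ) (c : LC ℕ) :
    phiS S (consL x c) = if x ∈ S then phiS (S.erase x) c else 0 := by
  by_cases hx : x ∈ S
  · rw [if_pos hx]
    have : phiS S ∘ₗ consL x = phiS (S.erase x) := by
      apply LC_ext
      intro t
      rw [LinearMap.comp_apply, consL_bs, phiS_bs, phiS_bs, ← Multiset.cons_coe]
      congr 1
      apply propext
      constructor
      · rintro rfl
        rw [Multiset.erase_cons_head]
      · intro h
        rw [h, Multiset.cons_erase hx]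
    exact congrArg (fun f => f c) this
  · rw [if_neg hx]
    have : phiS S ∘ₗ consL x = 0 := by
      apply LC_ext
      intro t
      rw [LinearMap.comp_apply, consL_bs, phiS_bs, ← Multiset.cons_coe, if_neg]
      · rfl
      · rintro rfl
        exact hx (Multiset.mem_cons_self _ _)
    exact congrArg (fun f => f c) this

theorem phiS_dlist (t : List ℕ) : ∀ S : Multiset ℕ,
    phiS S (dlist t) = (t.map fun a => if (t : Multiset ℕ) = a ::ₘ S then (1 : ZMod 2) else 0).sum := by
  induction t with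
  | nil =>
    intro S
    simp [dlist]
  | cons x t ih =>
    intro S
    rw [dlist, map_add, phiS_bs, phiS_consL, List.map_cons, List.sum_cons, ← Multiset.cons_coe]
    have h1 : (if x ::ₘ (t : Multiset ℕ) = x ::ₘ S then (1 : ZMod 2) else 0) =
        if (t : Multiset ℕ) = S then 1 else 0 := by
      congr 1
      exact propext (Multiset.cons_inj_right x)
    rw [h1]
    congr 1
    by_cases hx : x ∈ S
    · rw [if_pos hx, ih]
      congr 1
      apply List.map_congr_left
      intro a _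
      congr 1
      apply propext
      obtain ⟨S', rfl⟩ := Multiset.exists_cons_of_mem hx
      rw [Multiset.erase_cons_head, Multiset.cons_swap a x, Multiset.cons_inj_right]
    · rw [if_neg hx]
      symm
      apply List.sum_eq_zero
      intro y hy
      obtain ⟨a, ha, rfl⟩ := List.mem_map.1 hy
      rw [if_neg]
      intro h
      have h2 : x ∈ a ::ₘ S := by
        rw [← h]
        exact Multiset.mem_cons_self _ _
      rcases Multiset.mem_cons.1 h2 with rfl | h2
      · rw [Multiset.cons_inj_right] at h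
        exact hx (by rw [← h]; exact ha)
      · exact hx h2

/-- Sperner's parity count for lists of labels -/
theorem sper_count {n : ℕ} {t : List ℕ} (ht : ∀ a ∈ t, a ≤ n) :
    phiS (((List.range n).map (· + 1) : List ℕ) : Multiset ℕ) (dlist t) =
      if t.Perm (List.range (n + 1)) then 1 else 0 := by
  set S : Multiset ℕ := (((List.range n).map (· + 1) : List ℕ) : Multiset ℕ) with hS
  have hS1 : S.Nodup := by
    rw [hS, Multiset.coe_nodup]
    exact List.nodup_range.map (fun a b h => by simpa using h)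
  have hS2 : ∀ a, a ∈ S ↔ 1 ≤ a ∧ a ≤ n := by
    intro a
    rw [hS, Multiset.mem_coe, List.mem_map]
    constructor
    · rintro ⟨b, hb, rfl⟩
      rw [List.mem_range] at hb
      omega
    · rintro ⟨h1, h2⟩
      exact ⟨a - 1, List.mem_range.2 (by omega), by omega⟩
  have hS3 : (0 : ℕ) ::ₘ S = ((List.range (n + 1) : List ℕ) : Multiset ℕ) := by
    rw [hS, Multiset.cons_coe, List.range_succ_eq_map]
  have hsum : ∀ a₀ : ℕ, (t : Multiset ℕ) = a₀ ::ₘ S →
      (t.map fun a => if (t : Multiset ℕ) = a ::ₘ S then (1 : ZMod 2) else 0).sum =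
        ((t : Multiset ℕ).count a₀ : ℕ) := by
    intro a₀ h0
    have : (fun a => if (t : Multiset ℕ) = a ::ₘ S then (1 : ZMod 2) else 0) =
        fun a => if a₀ = a then (1 : ZMod 2) else 0 := by
      funext a
      congr 1
      apply propext
      rw [h0, Multiset.cons_inj_left]
    rw [this, Multiset.coe_count]
    clear h0 this ht
    induction t with
    | nil => simp
    | cons b t ih =>
      rw [List.map_cons, List.sum_cons, ih, List.count_cons]
      by_cases h : a₀ = b
      · subst h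
        simp [add_comm]
      · have h' : ¬ b = a₀ := fun h' => h h'.symm
        simp [h, h']
  rw [phiS_dlist]
  by_cases hp : t.Perm (List.range (n + 1))
  · rw [if_pos hp]
    have h0 : (t : Multiset ℕ) = 0 ::ₘ S := by
      rw [hS3]
      exact Multiset.coe_eq_coe.2 hp
    rw [hsum 0 h0, h0, Multiset.count_cons_self, Multiset.count_eq_zero_of_notMem]
    · simp
    · rw [hS2]
      omega
  · rw [if_neg hp]
    by_cases hex : ∃ a ∈ t, (t : Multiset ℕ) = a ::ₘ S
    · obtain ⟨a, ha, hta⟩ := hex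
      have ha0 : a ≠ 0 := by
        rintro rfl
        apply hp
        rw [hS3] at hta
        exact Multiset.coe_eq_coe.1 hta
      have haS : a ∈ S := (hS2 a).2 ⟨by omega, ht a ha⟩
      rw [hsum a hta, hta, Multiset.count_cons_self, Multiset.count_eq_one_of_mem hS1 haS]
      decide
    · push Not at hex
      apply List.sum_eq_zero
      intro y hy
      obtain ⟨a, ha, rfl⟩ := List.mem_map.1 hy
      rw [if_neg (hex a ha)]

theorem lab_le (n : ℕ) (x : Rn n) : lab n x ≤ n := by
  induction n with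
  | zero => simp [lab]
  | succ n ih =>
    rw [lab]
    split_ifs
    · omega
    · have := ih (Fin.tail x)
      omega

theorem Bn_bs (n : ℕ) (t : List (Rn n)) :
    Bn n (bs t) = phiS (((List.range n).map (· + 1) : List ℕ) : Multiset ℕ) (mapL (lab n) (bs t)) := by
  rw [mapL_bs, phiS_bs]
  simp only [Bn, Finsupp.lsum_single, LinearMap.toSpanSingleton_apply, one_smul]
  by_cases h : (t.map (lab n)).Perm ((List.range n).map (· + 1))
  · rw [if_pos h, if_pos (Multiset.coe_eq_coe.2 h)]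
  · rw [if_neg h, if_neg (fun h' => h (Multiset.coe_eq_coe.1 h'))]

theorem Bn_eq (n : ℕ) (c : LC (Rn n)) :
    Bn n c = phiS (((List.range n).map (· + 1) : List ℕ) : Multiset ℕ) (mapL (lab n) c) := by
  have : Bn n = phiS (((List.range n).map (· + 1) : List ℕ) : Multiset ℕ) ∘ₗ mapL (lab n) :=
    LC_ext fun t => Bn_bs n t
  rw [this]
  rfl

theorem Dn_bs (n : ℕ) (t : List (Rn n)) [Decidable ((t.map (lab n)).Perm (List.range (n + 1)))] :
    Dn n (bs t) = if (t.map (lab n)).Perm (List.range (n + 1)) then 1 else 0 := by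
  simp only [Dn, Finsupp.lsum_single, LinearMap.toSpanSingleton_apply, one_smul]
  congr

/-- Sperner's parity identity -/
theorem Dn_eq_Bn (n : ℕ) (c : LC (Rn n)) : Dn n c = Bn n (dL c) := by
  have : Dn n = Bn n ∘ₗ dL := by
    apply LC_ext
    intro t
    rw [LinearMap.comp_apply, Bn_eq, ← dL_mapL, mapL_bs, dL_bs, sper_count, Dn_bs]
    intro a ha
    obtain ⟨x, _, rfl⟩ := List.mem_map.1 ha
    exact lab_le n x
  rw [this]
  rfl

theorem lab_lt_neg {n : ℕ} {x : Rn n} (i : Fin n) (h : lab n x = i) : x i < 0 := by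
  induction n with
  | zero => exact i.elim0
  | succ n ih =>
    rw [lab] at h
    split_ifs at h with h0
    · have : i = 0 := Fin.ext h.symm
      rw [this]
      exact h0
    · have hi : i ≠ 0 := by
        rintro rfl
        simp at h
      obtain ⟨j, rfl⟩ := Fin.exists_succ_eq.2 hi
      have := ih (x := Fin.tail x) j (by simpa using h)
      exact this

theorem lab_eq_nonneg {n : ℕ} {x : Rn n} (h : lab n x = n) (i : Fin n) : 0 ≤ x i := by
  induction n with
  | zero => exact i.elim0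
  | succ n ih =>
    rw [lab] at h
    split_ifs at h with h0
    · push Not at h0
      refine Fin.cases h0 (fun j => ?_) i
      exact ih (x := Fin.tail x) (by omega) j

/-- a list with labels `0..n` whose points have pairwise sup distance `< δ` is in the sup ball of
radius `δ` -/
theorem near_of_full {n : ℕ} {δ : ℝ} {t : List (Rn n)}
    (h : (t.map (lab n)).Perm (List.range (n + 1))) (hd : ∀ x ∈ t, ∀ y ∈ t, ‖x - y‖ < δ) :
    ∀ x ∈ t, ‖x‖ < δ := by
  intro x hx
  have hδ : 0 < δ := (norm_nonneg _).trans_lt (hd x hx x hx)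
  have hlab : ∀ a ≤ n, ∃ y ∈ t, lab n y = a := by
    intro a ha
    have : a ∈ t.map (lab n) := h.mem_iff.2 (List.mem_range.2 (by omega))
    exact List.mem_map.1 this
  obtain ⟨z, hz, hzn⟩ := hlab n le_rfl
  rw [pi_norm_lt_iff hδ]
  intro i
  obtain ⟨y, hy, hyi⟩ := hlab i (by omega)
  have h1 := lab_lt_neg i hyi
  have h2 := lab_eq_nonneg hzn i
  have h3 : |x i - y i| < δ := (norm_le_pi_norm (x - y) i).trans_lt (hd x hx y hy)
  have h4 : |x i - z i| < δ := (norm_le_pi_norm (x - z) i).trans_lt (hd x hx z hz)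
  rw [abs_lt] at h3 h4
  rw [Real.norm_eq_abs, abs_lt]
  constructor <;> linarith

/-! ### the degree of the sphere -/

theorem sper_pos {n : ℕ} {c : LC (Rn (n + 1))} (h : ∀ t ∈ c.support, ∀ x ∈ t, 0 ≤ x 0) :
    Bn (n + 1) c = Dn n (mapL (fun x : Rn (n + 1) => (Fin.tail x : Rn n)) c) := by
  classical
  have : Dn n (mapL (fun x : Rn (n + 1) => (Fin.tail x : Rn n)) c) =
      (Dn n ∘ₗ mapL (fun x : Rn (n + 1) => (Fin.tail x : Rn n))) c := rfl
  rw [this]
  apply sper_congr
  intro t ht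
  rw [LinearMap.comp_apply, mapL_bs, Dn_bs]
  simp only [Bn, Finsupp.lsum_single, LinearMap.toSpanSingleton_apply, one_smul]
  congr 1
  apply propext
  have h1 : t.map (lab (n + 1)) =
      ((t.map (fun x : Rn (n + 1) => (Fin.tail x : Rn n))).map (lab n)).map (· + 1) := by
    rw [List.map_map, List.map_map]
    apply List.map_congr_left
    intro x hx
    have := h t ht x hx
    rw [lab, if_neg (not_lt.2 this)]
    rfl
  rw [h1]
  constructor
  · intro hp
    have := hp.map (fun a : ℕ => a - 1)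
    simpa [List.map_map, Function.comp_def] using this
  · intro hp
    exact hp.map _

theorem sper_neg {n : ℕ} {c : LC (Rn (n + 1))} (h : ∀ t ∈ c.support, ∃ x ∈ t, x 0 < 0) :
    Bn (n + 1) c = 0 := by
  have : (0 : ZMod 2) = (0 : LC (Rn (n + 1)) →ₗ[ZMod 2] ZMod 2) c := rfl
  rw [this]
  apply sper_congr
  intro t ht
  obtain ⟨x, hx, hx0⟩ := h t ht
  simp only [Bn, Finsupp.lsum_single, LinearMap.toSpanSingleton_apply, one_smul,
    LinearMap.zero_apply]
  rw [if_neg]
  intro hp
  have h1 : (0 : ℕ) ∈ t.map (lab (n + 1)) := by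
    refine List.mem_map.2 ⟨x, hx, ?_⟩
    rw [lab, if_pos hx0]
  rw [hp.mem_iff] at h1
  simp at h1

/-- the straight line contraction to the origin -/
def str (n : ℕ) (x : Rn n) (t : ℝ) : Rn n := (1 - t) • x

theorem str_cont (n : ℕ) : Continuous fun q : Rn n × ℝ => str n q.1 q.2 := by
  unfold str
  fun_prop

theorem sper_hop_rep {X Y : Type*} (h : X → ℝ → Y) (r : ℕ → LC X) :
    hop h (r : GC X) = ((fun N => (∑ i ∈ Finset.range N,
      prismL (fun x => h x ((i : ℝ) / N)) (fun x => h x (((i + 1 : ℕ) : ℝ) / N))) (r N) :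
        ℕ → LC Y) : GC Y) := rfl

theorem sper_cone_rep {X : Type*} (h : X → ℝ → X) (p : X) (r : ℕ → LC X) :
    coneG h p (r : GC X) = ((fun N => (∑ i ∈ Finset.range N,
      prismL (fun x => h x ((i : ℝ) / N)) (fun x => h x (((i + 1 : ℕ) : ℝ) / N))) (r N) +
        consL p (mapL (fun x => h x 1) (r N)) : ℕ → LC X) : GC X) := rfl

theorem sper_cone_str (n : ℕ) : dG (coneG (str n) 0 (Sph n)) = Sph n := by
  rw [dG_coneG (U := Pn n) (fun x _ => by simp [str]) (Sph_mem n), Sph_d, sph_coneG_zero, add_zero]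

theorem sper_supp_cone {X : Type*} {h : X → ℝ → X} {p : X} {N : ℕ} {c : LC X} {t' : List X}
    (ht : t' ∈ ((∑ i ∈ Finset.range N,
      prismL (fun x => h x ((i : ℝ) / N)) (fun x => h x (((i + 1 : ℕ) : ℝ) / N))) c +
        consL p (mapL (fun x => h x 1) c)).support) :
    (∃ t ∈ c.support, (∀ y ∈ t', ∃ x ∈ t, ∃ s ∈ Set.Icc (0 : ℝ) 1, y = h x s) ∧
      ∃ x ∈ t, ∃ s, 0 < s ∧ h x s ∈ t') ∨
    (∃ t ∈ c.support, t' = p :: t.map (fun x => h x 1)) := by
  classical
  rcases supp_add ht with ht | ht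
  · left
    rw [LinearMap.sum_apply] at ht
    obtain ⟨i, hi, hti⟩ := Finset.mem_biUnion.mp (Finsupp.support_finsetSum ht)
    obtain ⟨t, hs, h3, h4, x, hx, hx'⟩ := supp_prismL hti
    have hi' := Finset.mem_range.mp hi
    have hN : (0 : ℝ) < N := by
      have : 0 < N := by omega
      exact_mod_cast this
    refine ⟨t, hs, fun y hy => ?_, x, hx, _, ?_, hx'⟩
    · obtain ⟨z, hz, h | h⟩ := h4 y hy
      · refine ⟨z, hz, _, ⟨by positivity, ?_⟩, h⟩
        rw [div_le_one hN]; exact_mod_cast hi'.le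
      · refine ⟨z, hz, _, ⟨by positivity, ?_⟩, h⟩
        rw [div_le_one hN]; exact_mod_cast hi'
    · positivity
  · right
    obtain ⟨s, hs, rfl⟩ := supp_consL ht
    obtain ⟨s', hs', rfl⟩ := supp_mapL hs
    exact ⟨s', hs', rfl⟩

theorem sper_key (n : ℕ) : ∀ s : ℕ → LC (Rn n), (s : GC (Rn n)) = Sph n →
    ∀ᶠ N in atTop, Bn n (s N) = 1 := by
  induction n with
  | zero =>
    intro s hs
    have h1 : s =ᶠ[atTop] fun _ => bs [] := Germ.coe_eq.mp hs
    filter_upwards [h1] with N hN
    rw [hN]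
    simp [Bn]
  | succ n ih =>
    intro s hs
    obtain ⟨r, hr⟩ : ∃ r : ℕ → LC (Rn n), (r : GC (Rn n)) = Sph n := by
      obtain ⟨r, _, hr⟩ := Sph_mem n
      exact ⟨r, hr⟩
    have hj : mapG (jN n) (Sph n) = ((fun N => mapL (jN n) (r N) : ℕ → _) : GC (Rn (n + 1))) := by
      rw [← hr]; rfl
    set cP : ℕ → LC (Rn (n + 1)) := fun N => (∑ i ∈ Finset.range N,
      prismL (fun x => hP n x ((i : ℝ) / N)) (fun x => hP n x (((i + 1 : ℕ) : ℝ) / N)))
        (mapL (jN n) (r N)) + consL (eN n) (mapL (fun x => hP n x 1) (mapL (jN n) (r N))) with hcP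
    set cM : ℕ → LC (Rn (n + 1)) := fun N => (∑ i ∈ Finset.range N,
      prismL (fun x => hM n x ((i : ℝ) / N)) (fun x => hM n x (((i + 1 : ℕ) : ℝ) / N)))
        (mapL (jN n) (r N)) + consL (-(eN n)) (mapL (fun x => hM n x 1) (mapL (jN n) (r N))) with hcM
    have hP' : coneG (hP n) (eN n) (mapG (jN n) (Sph n)) = (cP : GC (Rn (n + 1))) := by
      rw [hj, sper_cone_rep]
    have hM' : coneG (hM n) (-(eN n)) (mapG (jN n) (Sph n)) = (cM : GC (Rn (n + 1))) := by
      rw [hj, sper_cone_rep]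
    have hs1 : s =ᶠ[atTop] fun N => cP N + cM N := by
      apply Germ.coe_eq.mp
      rw [hs]
      change coneG (hP n) (eN n) (mapG (jN n) (Sph n)) +
        coneG (hM n) (-(eN n)) (mapG (jN n) (Sph n)) = _
      rw [hP', hM']
      rfl
    have hcM0 : ∀ N, Bn (n + 1) (cM N) = 0 := by
      intro N
      apply sper_neg
      intro t ht
      rcases sper_supp_cone ht with ⟨u, hu, _, x, hx, s, hs, hxs⟩ | ⟨u, hu, rfl⟩
      · obtain ⟨v, hv, rfl⟩ := supp_mapL hu
        obtain ⟨y, hy, rfl⟩ := List.mem_map.1 hx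
        refine ⟨_, hxs, ?_⟩
        rw [sph_hM_zero]
        have : jN n y 0 = 0 := rfl
        rw [this]
        linarith
      · refine ⟨-(eN n), List.mem_cons_self, ?_⟩
        change -(eN n 0) < 0
        rw [sph_eN_zero]
        norm_num
    have hcP0 : ∀ N, Bn (n + 1) (cP N) =
        Dn n (mapL (fun x : Rn (n + 1) => (Fin.tail x : Rn n)) (cP N)) := by
      intro N
      apply sper_pos
      intro t ht x hx
      rcases sper_supp_cone ht with ⟨u, hu, h1, _⟩ | ⟨u, hu, rfl⟩
      · obtain ⟨v, hv, rfl⟩ := supp_mapL hu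
        obtain ⟨w, hw, s, hs, rfl⟩ := h1 x hx
        obtain ⟨y, hy, rfl⟩ := List.mem_map.1 hw
        rw [sph_hP_zero]
        have : jN n y 0 = 0 := rfl
        rw [this]
        have := hs.1
        linarith
      · rcases List.mem_cons.1 hx with rfl | hx
        · rw [sph_eN_zero]
          norm_num
        · obtain ⟨y, hy, rfl⟩ := List.mem_map.1 hx
          simp only [sph_hP_1, sph_eN_zero]
          norm_num
    -- the tail of the upper cone is the cone to the origin
    have htail : (fun N => dL (mapL (fun x : Rn (n + 1) => (Fin.tail x : Rn n)) (cP N)) : ℕ → _) =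
        (fun N => dL (mapL (fun x : Rn (n + 1) => (Fin.tail x : Rn n)) (cP N)) : ℕ → _) := rfl
    have h2 : ((fun N => dL (mapL (fun x : Rn (n + 1) => (Fin.tail x : Rn n)) (cP N)) :
        ℕ → LC (Rn n)) : GC (Rn n)) = Sph n := by
      have h3 : ((fun N => dL (mapL (fun x : Rn (n + 1) => (Fin.tail x : Rn n)) (cP N)) :
          ℕ → LC (Rn n)) : GC (Rn n)) =
          dG (mapG (fun x : Rn (n + 1) => (Fin.tail x : Rn n)) (cP : GC (Rn (n + 1)))) := rfl
      rw [h3, ← hP', mapG_coneG (hP n) (str n) (eN n) _ (fun x t => sph_tail_hP n x t),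
        mapG_mapG]
      have h4 : ((fun x : Rn (n + 1) => (Fin.tail x : Rn n)) ∘ jN n) = id := by
        funext x
        exact sph_tail_jN n x
      have h5 : (Fin.tail (eN n) : Rn n) = 0 := by
        funext i
        simp [eN, Fin.tail]
      rw [h4, mapG_id, h5]
      exact sper_cone_str n
    filter_upwards [hs1, ih _ h2] with N hN hN2
    rw [hN, map_add, hcM0, hcP0, Dn_eq_Bn, hN2, add_zero]

/-- the sphere has degree one -/
theorem Bn_Sph (n : ℕ) (s : ℕ → LC (Rn n)) (hs : (s : GC (Rn n)) = Sph n) :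
    ∀ᶠ N in atTop, Bn n (s N) = 1 := sper_key n s hs

theorem sper_nhds {n : ℕ} {δ : ℝ} (hδ : 0 < δ) :
    {q : Rn n × Rn n | ‖q.1 - q.2‖ < δ} ∈ 𝓝ˢ (Set.diagonal (Rn n)) := by
  have ho : IsOpen {q : Rn n × Rn n | ‖q.1 - q.2‖ < δ} :=
    isOpen_lt (by fun_prop) continuous_const
  rw [ho.mem_nhdsSet]
  rintro ⟨x, y⟩ h
  obtain rfl : x = y := h
  simpa using hδ

/-- C5: the sphere does not bound in `R^n - 0` -/
theorem Sph_NB (n : ℕ) : NB (Pn n) n (Sph n) := by
  classical
  rintro _ ⟨b, ⟨K, hK, hKU, h1, h2⟩, rfl⟩ hb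
  have h3 : ∀ᶠ N in atTop, Bn n (dL (b N)) = 1 := Bn_Sph n (fun N => dL (b N)) hb
  obtain ⟨δ, hδ, hδK⟩ : ∃ δ > 0, ∀ x ∈ K, δ ≤ ‖x‖ := by
    have h0 : (0 : Rn n) ∈ Kᶜ := fun h => hKU h rfl
    obtain ⟨δ, hδ, h⟩ := Metric.isOpen_iff.1 hK.isClosed.isOpen_compl 0 h0
    refine ⟨δ, hδ, fun x hx => ?_⟩
    by_contra hlt
    push Not at hlt
    exact h (by simpa using hlt) hx
  obtain ⟨N, hN1, hN2⟩ := (h3.and (h2 _ (sper_nhds hδ))).exists
  rw [← Dn_eq_Bn] at hN1
  have h4 : ∃ t ∈ (b N).support, Dn n (bs t) ≠ 0 := by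
    by_contra hcon
    push Not at hcon
    have : Dn n (b N) = (0 : LC (Rn n) →ₗ[ZMod 2] ZMod 2) (b N) := sper_congr hcon
    rw [this] at hN1
    exact zero_ne_one hN1
  obtain ⟨t, ht, ht1⟩ := h4
  rw [Dn_bs] at ht1
  have ht2 : (t.map (lab n)).Perm (List.range (n + 1)) := by
    by_contra h
    rw [if_neg h] at ht1
    exact ht1 rfl
  have hlen : t.length = n + 1 := by
    have := ht2.length_eq
    simpa using this
  obtain ⟨x, hx⟩ : ∃ x, x ∈ t := List.exists_mem_of_length_pos (by omega)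
  have h5 := near_of_full ht2 (fun x hx y hy => hN2 t ht x hx y hy) x hx
  have h6 := hδK x ((h1 N t ht).2 x hx)
  linarith

theorem sper_mapG_mem {X Y : Type*} [TopologicalSpace X] [TopologicalSpace Y] {U : Set X}
    {U' : Set Y} {l : ℕ} {f : X → Y} (hf : Continuous f) (hm : Set.MapsTo f U U') {c : GC X}
    (hc : c ∈ F U l) : mapG f c ∈ F U' l := by
  obtain ⟨r, ⟨K, hK, hKU, h1, h2⟩, rfl⟩ := hc
  refine ⟨fun N => mapL f (r N), ⟨f '' K, hK.image hf,
    (hm.mono_left hKU).image_subset, fun N t ht => ?_, fun O hO => ?_⟩, rfl⟩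
  · obtain ⟨s, hs, rfl⟩ := supp_mapL ht
    obtain ⟨h5, h6⟩ := h1 N s hs
    refine ⟨by simp [h5], fun x hx => ?_⟩
    obtain ⟨y, hy, rfl⟩ := List.mem_map.mp hx
    exact Set.mem_image_of_mem _ (h6 y hy)
  · have hO' : (Prod.map f f) ⁻¹' O ∈ 𝓝ˢ (Set.diagonal X) := by
      rw [mem_nhdsSet_iff_forall]
      rintro ⟨x, y⟩ hxy
      obtain rfl : x = y := hxy
      have hc : Continuous (Prod.map f f) := hf.prodMap hf
      exact hc.continuousAt.preimage_mem_nhds ((mem_nhdsSet_iff_forall.mp hO) (f x, f x) rfl)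
    filter_upwards [h2 _ hO'] with N hN t ht x hx y hy
    obtain ⟨s, hs, rfl⟩ := supp_mapL ht
    obtain ⟨a, ha, rfl⟩ := List.mem_map.mp hx
    obtain ⟨b, hb, rfl⟩ := List.mem_map.mp hy
    exact hN s hs a ha b hb

theorem sper_norm_jN (n : ℕ) (x : Rn n) : ‖jN n x‖ ≤ ‖x‖ := by
  rw [pi_norm_le_iff_of_nonneg (norm_nonneg _)]
  intro i
  refine Fin.cases ?_ (fun j => ?_) i
  · simp [jN]
  · simpa [jN] using norm_le_pi_norm x j

theorem sper_norm_eN (n : ℕ) : ‖eN n‖ ≤ 1 := by
  rw [pi_norm_le_iff_of_nonneg zero_le_one]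
  intro i
  refine Fin.cases ?_ (fun j => ?_) i
  · simp [eN]
  · simp [eN]

theorem sper_norm_conv {n : ℕ} {x y : Rn n} (hx : ‖x‖ ≤ 1) (hy : ‖y‖ ≤ 1) {t : ℝ}
    (ht : t ∈ Set.Icc (0 : ℝ) 1) : ‖(1 - t) • x + t • y‖ ≤ 1 := by
  obtain ⟨h0, h1⟩ := ht
  calc ‖(1 - t) • x + t • y‖ ≤ ‖(1 - t) • x‖ + ‖t • y‖ := norm_add_le _ _
    _ = (1 - t) * ‖x‖ + t * ‖y‖ := by
        rw [norm_smul, norm_smul, Real.norm_eq_abs, Real.norm_eq_abs, abs_of_nonneg h0,
          abs_of_nonneg (by linarith)]
    _ ≤ (1 - t) * 1 + t * 1 := by gcongr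
    _ = 1 := by ring

theorem Sph_mem_ball (n : ℕ) : Sph n ∈ F (Metric.closedBall (0 : Rn n) 1) n := by
  induction n with
  | zero => exact nil_mem _
  | succ n ih =>
    have hj : mapG (jN n) (Sph n) ∈ F (Metric.closedBall (0 : Rn (n + 1)) 1) n := by
      refine sper_mapG_mem (sph_jN_cont n) ?_ ih
      intro x hx
      rw [mem_closedBall_zero_iff] at hx ⊢
      exact (sper_norm_jN n x).trans hx
    refine (F _ _).add_mem ?_ ?_
    · refine coneG_mem ?_ (sph_hP_cont n).continuousOn ?_ (fun x _ => sph_hP_1 n x) hj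
      · rw [mem_closedBall_zero_iff]
        exact sper_norm_eN n
      · intro x hx s hs
        rw [mem_closedBall_zero_iff] at hx ⊢
        exact sper_norm_conv hx (sper_norm_eN n) hs
    · refine coneG_mem ?_ (sph_hM_cont n).continuousOn ?_ (fun x _ => sph_hM_1 n x) hj
      · rw [mem_closedBall_zero_iff, norm_neg]
        exact sper_norm_eN n
      · intro x hx s hs
        rw [mem_closedBall_zero_iff] at hx ⊢
        exact sper_norm_conv hx (by rw [norm_neg]; exact sper_norm_eN n) hs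

/-- the ball: a filling of the sphere in `R^n`, supported in the ball of radius `1` -/
theorem ball_fill (n : ℕ) : ∃ B : GC (Rn n), dG B = Sph n ∧
    ∃ b : ℕ → LC (Rn n), (b : GC (Rn n)) = B ∧ IsF Set.univ (n + 1) b ∧
      ∀ N, ∀ t ∈ (b N).support, ∀ x ∈ t, ‖x‖ ≤ 1 := by
  refine ⟨coneG (str n) 0 (Sph n), sper_cone_str n, ?_⟩
  have h : coneG (str n) 0 (Sph n) ∈ F (Metric.closedBall (0 : Rn n) 1) (n + 1) := by
    refine coneG_mem ?_ (str_cont n).continuousOn ?_ (fun x _ => by simp [str]) (Sph_mem_ball n)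
    · rw [mem_closedBall_zero_iff, norm_zero]
      exact zero_le_one
    · intro x hx s hs
      rw [mem_closedBall_zero_iff] at hx ⊢
      have := sper_norm_conv hx (y := 0) (by rw [norm_zero]; exact zero_le_one) hs
      rw [smul_zero, add_zero] at this
      exact this
  obtain ⟨b, ⟨K, hK, hKU, h1, h2⟩, hb⟩ := h
  exact ⟨b, hb, ⟨K, hK, Set.subset_univ _, h1, h2⟩, fun N t ht x hx =>
    mem_closedBall_zero_iff.1 (hKU ((h1 N t ht).2 x hx))⟩

theorem sper_scale_pos (n : ℕ) {ε : ℝ} (hε : 0 < ε) :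
    ∃ e ∈ F (Pn n) (n + 1), dG e = mapG (fun x : Rn n => ε • x) (Sph n) + Sph n := by
  refine ⟨hop (fun (x : Rn n) (t : ℝ) => ((1 - t) * ε + t) • x) (Sph n), ?_, ?_⟩
  · refine hop_mem (U := Pn n) ?_ ?_ (Sph_mem n)
    · apply Continuous.continuousOn
      fun_prop
    · intro x hx s hs
      obtain ⟨h0, h1⟩ := hs
      refine smul_ne_zero (ne_of_gt ?_) hx
      rcases eq_or_lt_of_le h0 with rfl | h0
      · simpa using hε
      · have : 0 ≤ (1 - s) * ε := mul_nonneg (by linarith) hε.le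
        linarith
  · rw [dG_hop, Sph_d, map_zero, add_zero]
    congr 1
    · congr 2
      funext x
      simp
    · apply mapG_eq_self (U := Pn n) _ (Sph_mem n)
      intro x _
      simp

/-- scaled spheres -/
theorem Sph_scale (n : ℕ) {ε : ℝ} (hε : ε ≠ 0) :
    ∃ e ∈ F (Pn n) (n + 1), dG e = mapG (fun x : Rn n => ε • x) (Sph n) + Sph n := by
  rcases lt_or_gt_of_ne hε with h | h
  · obtain ⟨e, he, hd⟩ := sper_scale_pos n (ε := -ε) (by linarith)
    refine ⟨e, he, ?_⟩
    rw [hd]
    congr 1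
    conv_lhs => rw [← Sph_neg n]
    rw [mapG_mapG]
    congr 2
    funext x
    simp
  · exact sper_scale_pos n h

end OS
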