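import Mathlib
import Pool.Agent.Lib.MP_8fe54c_gt.TopDefs
import Pool.Agent.Lib.MP_8fe54c_gt.Sph
import Pool.Agent.Lib.MP_8fe54c_gt.Sper

/-!
# Module E1: invariance of the boundary
-/

namespace OS

open Filter Topology Finsupp

/-- projection to the half space -/
noncomputable def bdProj (m : ℕ) (x : Rn (m + 1)) : HS m :=
  ⟨Function.update x 0 (max 0 (x 0)), by simp⟩

theorem bdProj_continuous (m : ℕ) : Continuous (bdProj m) := by
  unfold bdProj
  refine Continuous.subtype_mk ?_ _
  exact continuous_id.update 0 (by fun_prop)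

theorem bdProj_of_nonneg {m : ℕ} {x : Rn (m + 1)} (hx : 0 ≤ x 0) : bdProj m x = ⟨x, hx⟩ := by
  apply Subtype.ext
  show Function.update x 0 (max 0 (x 0)) = x
  rw [max_eq_right hx, Function.update_eq_self]

/-- fine germs in `R^n` have bounded support -/
theorem bd_bounded {n l : ℕ} {U : Set (Rn n)} {c : GC (Rn n)} (hc : c ∈ F U l) :
    ∃ R : ℝ, 0 < R ∧ c ∈ F (U ∩ Metric.ball 0 R) l := by
  obtain ⟨r, ⟨K, hK, hKU, h1, h2⟩, rfl⟩ := hc
  obtain ⟨R, hR⟩ := hK.isBounded.subset_ball_lt 0 (0 : Rn n)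
  exact ⟨R, hR.1, r, ⟨K, hK, fun x hx => ⟨hKU hx, hR.2 hx⟩, h1, h2⟩, rfl⟩

theorem bd_add_self {X : Type*} (c : GC X) : c + c = 0 := by
  have h : (2 : ZMod 2) • c = c + c := two_smul _ c
  rw [← h]
  have : (2 : ZMod 2) = 0 := by decide
  rw [this, zero_smul]

/-- invariance of the boundary: two charts of the half space at the same point -/
theorem boundary_invariance {m : ℕ} {Y : Type*} [TopologicalSpace Y] [T2Space Y]
    (f g : OpenPartialHomeomorph Y (HS m)) (y : Y) (hf : y ∈ f.source) (hg : y ∈ g.source)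
    (h0 : (f y).1 0 = 0) : (g y).1 0 = 0 := by
  by_contra hne
  have hpos : 0 < (g y).1 0 := lt_of_le_of_ne (g y).2 (Ne.symm hne)
  -- the map `q`
  let q : Y → Rn (m + 1) := fun z => (g z).1 - (g y).1
  have hqc : ContinuousOn q g.source :=
    (continuous_subtype_val.comp_continuousOn g.continuousOn).sub continuousOn_const
  have hqy : q y = 0 := sub_self _
  have hqinj : ∀ z ∈ g.source, q z = 0 → z = y := by
    intro z hz h
    exact g.injOn hz hg (Subtype.ext (sub_eq_zero.mp h))
  -- the map `e`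
  let e : Rn (m + 1) → Y := fun x => g.symm (bdProj m ((g y).1 + x))
  have hbase : bdProj m ((g y).1 + 0) = g y := by
    rw [add_zero, bdProj_of_nonneg (g y).2]
  obtain ⟨ρ, hρ, hρ1⟩ : ∃ ρ > 0, ∀ x ∈ Metric.ball (0 : Rn (m + 1)) ρ,
      0 ≤ ((g y).1 + x) 0 ∧ bdProj m ((g y).1 + x) ∈ g.target := by
    have hcont : Continuous (fun x : Rn (m + 1) => bdProj m ((g y).1 + x)) :=
      (bdProj_continuous m).comp (by fun_prop)
    have hopen1 : IsOpen {x : Rn (m + 1) | 0 < ((g y).1 + x) 0} :=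
      isOpen_lt continuous_const (by fun_prop)
    have hopen2 : IsOpen ((fun x : Rn (m + 1) => bdProj m ((g y).1 + x)) ⁻¹' g.target) :=
      g.open_target.preimage hcont
    have hmem : (0 : Rn (m + 1)) ∈ {x : Rn (m + 1) | 0 < ((g y).1 + x) 0} ∩
        ((fun x : Rn (m + 1) => bdProj m ((g y).1 + x)) ⁻¹' g.target) := by
      refine ⟨by simpa using hpos, ?_⟩
      show bdProj m ((g y).1 + 0) ∈ g.target
      rw [hbase]
      exact g.map_source hg
    obtain ⟨ρ, hρ, hsub⟩ := Metric.isOpen_iff.mp (hopen1.inter hopen2) 0 hmem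
    exact ⟨ρ, hρ, fun x hx => ⟨le_of_lt (hsub hx).1, (hsub hx).2⟩⟩
  have hec : ContinuousOn e (Metric.ball 0 ρ) := by
    refine g.continuousOn_symm.comp
      (((bdProj_continuous m).comp (by fun_prop)).continuousOn) ?_
    intro x hx
    exact (hρ1 x hx).2
  have hes : ∀ x ∈ Metric.ball (0 : Rn (m + 1)) ρ, e x ∈ g.source :=
    fun x hx => g.map_target (hρ1 x hx).2
  have hqe : ∀ x ∈ Metric.ball (0 : Rn (m + 1)) ρ, q (e x) = x := by
    intro x hx
    show (g (g.symm (bdProj m ((g y).1 + x)))).1 - (g y).1 = x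
    rw [g.right_inv (hρ1 x hx).2, bdProj_of_nonneg (hρ1 x hx).1]
    simp
  have he0 : e 0 = y := by
    show g.symm (bdProj m ((g y).1 + 0)) = y
    rw [hbase, g.left_inv hg]
  -- the half ball
  obtain ⟨r, hr, hr1⟩ : ∃ r > 0, ∀ x : HS m, ‖x.1 - (f y).1‖ < r →
      x ∈ f.target ∧ f.symm x ∈ g.source := by
    have hopen : IsOpen (f.target ∩ f.symm ⁻¹' g.source) :=
      f.symm.isOpen_inter_preimage g.open_source
    have hmem : f y ∈ f.target ∩ f.symm ⁻¹' g.source :=
      ⟨f.map_source hf, by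
        show f.symm (f y) ∈ g.source
        rw [f.left_inv hf]; exact hg⟩
    obtain ⟨r, hr, hsub⟩ := Metric.isOpen_iff.mp hopen _ hmem
    refine ⟨r, hr, fun x hx => hsub ?_⟩
    rw [Metric.mem_ball, Subtype.dist_eq, dist_eq_norm]
    exact hx
  let V : Set Y := {z | z ∈ f.source ∧ ‖(f z).1 - (f y).1‖ < r}
  have hVo : IsOpen V := by
    have : V = f.source ∩ f ⁻¹' {x : HS m | ‖x.1 - (f y).1‖ < r} := rfl
    rw [this]
    refine f.isOpen_inter_preimage ?_
    exact isOpen_lt (by fun_prop) continuous_const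
  have hyV : y ∈ V := ⟨hf, by simpa using hr⟩
  have hVg : V ⊆ g.source := by
    intro z hz
    have := (hr1 (f z) hz.2).2
    rwa [f.left_inv hz.1] at this
  -- the contraction of `V \ {y}`
  let c0 : Rn (m + 1) := (f y).1 + (r / 2) • eN m
  let h : Y → ℝ → Y := fun z t => f.symm (bdProj m ((1 - t) • (f z).1 + t • c0))
  have hc00 : c0 0 = r / 2 := by
    show (f y).1 0 + (r / 2) * (eN m 0) = r / 2
    rw [h0]
    simp [eN]
  have hc0n : ‖c0 - (f y).1‖ < r := by
    have : c0 - (f y).1 = (r / 2) • eN m := by simp [c0]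
    rw [this, norm_smul]
    have h1 : ‖eN m‖ ≤ 1 := by
      rw [pi_norm_le_iff_of_nonneg zero_le_one]
      intro i
      refine Fin.cases ?_ (fun j => ?_) i
      · simp [eN]
      · simp [eN]
    rw [Real.norm_of_nonneg (by positivity)]
    nlinarith
  have hseg : ∀ z ∈ V, ∀ t ∈ Set.Icc (0 : ℝ) 1,
      0 ≤ ((1 - t) • (f z).1 + t • c0) 0 ∧ ‖((1 - t) • (f z).1 + t • c0) - (f y).1‖ < r := by
    intro z hz t ht
    constructor
    · show 0 ≤ (1 - t) * (f z).1 0 + t * c0 0
      rw [hc00]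
      have := (f z).2
      have h1 : 0 ≤ 1 - t := by linarith [ht.2]
      have h2 := ht.1
      positivity
    · have hconv := convex_ball ((f y).1) r
      have h1 : (f z).1 ∈ Metric.ball ((f y).1) r := by
        rw [Metric.mem_ball, dist_eq_norm]; exact hz.2
      have h2 : c0 ∈ Metric.ball ((f y).1) r := by
        rw [Metric.mem_ball, dist_eq_norm]; exact hc0n
      have h3 := hconv h1 h2 (by linarith [ht.2] : 0 ≤ 1 - t) ht.1 (by ring)
      rw [Metric.mem_ball, dist_eq_norm] at h3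
      exact h3
  have hpr : ∀ z ∈ V, ∀ t ∈ Set.Icc (0 : ℝ) 1,
      (bdProj m ((1 - t) • (f z).1 + t • c0)).1 = (1 - t) • (f z).1 + t • c0 := by
    intro z hz t ht
    rw [bdProj_of_nonneg (hseg z hz t ht).1]
  have htar : ∀ z ∈ V, ∀ t ∈ Set.Icc (0 : ℝ) 1,
      bdProj m ((1 - t) • (f z).1 + t • c0) ∈ f.target := by
    intro z hz t ht
    refine (hr1 _ ?_).1
    rw [hpr z hz t ht]
    exact (hseg z hz t ht).2
  have hEx : Ex (V \ {y}) (m + 1) := by
    refine Ex_of_contraction (h := h) (p := f.symm (bdProj m c0)) ?_ ?_ ?_ ?_ ?_ (m + 1)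
    · -- the end point
      have hc0' : (bdProj m c0).1 = c0 := by
        rw [bdProj_of_nonneg (by rw [hc00]; positivity)]
      have ht : bdProj m c0 ∈ f.target := (hr1 _ (by rw [hc0']; exact hc0n)).1
      refine ⟨⟨f.map_target ht, ?_⟩, ?_⟩
      · rw [f.right_inv ht, hc0']
        exact hc0n
      · intro heq
        have heq' : f.symm (bdProj m c0) = y := heq
        have h1 : f (f.symm (bdProj m c0)) = f y := by rw [heq']
        rw [f.right_inv ht] at h1
        have h2 : c0 0 = 0 := by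
          rw [← hc0', h1, h0]
        rw [hc00] at h2
        linarith
    · refine f.continuousOn_symm.comp ?_ ?_
      · refine (bdProj_continuous m).comp_continuousOn ?_
        have h1 : ContinuousOn (fun p : Y × ℝ => (f p.1).1) ((V \ {y}) ×ˢ Set.Icc (0 : ℝ) 1) :=
          continuous_subtype_val.comp_continuousOn
            (f.continuousOn.comp continuousOn_fst (fun p hp => hp.1.1.1))
        have h2 : ContinuousOn (fun p : Y × ℝ => p.2) ((V \ {y}) ×ˢ Set.Icc (0 : ℝ) 1) :=
          continuousOn_snd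
        exact ((continuousOn_const.sub h2).smul h1).add (h2.smul continuousOn_const)
      · intro p hp
        exact htar p.1 hp.1.1 p.2 hp.2
    · intro z hz t ht
      have ht' := htar z hz.1 t ht
      refine ⟨⟨f.map_target ht', ?_⟩, ?_⟩
      · show ‖(f (f.symm (bdProj m ((1 - t) • (f z).1 + t • c0)))).1 - (f y).1‖ < r
        rw [f.right_inv ht', hpr z hz.1 t ht]
        exact (hseg z hz.1 t ht).2
      · intro heq
        have heq' : f.symm (bdProj m ((1 - t) • (f z).1 + t • c0)) = y := heq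
        have h1 : f (f.symm (bdProj m ((1 - t) • (f z).1 + t • c0))) = f y := by rw [heq']
        rw [f.right_inv ht'] at h1
        have h2 : (1 - t) • (f z).1 + t • c0 = (f y).1 := by
          rw [← hpr z hz.1 t ht, h1]
        have h3 : (1 - t) * (f z).1 0 + t * c0 0 = 0 := by
          have := congrFun h2 0
          rw [h0] at this
          exact this
        rw [hc00] at h3
        have h4 : 0 ≤ (1 - t) * (f z).1 0 :=
          mul_nonneg (by linarith [ht.2]) (f z).2
        have h5 : t = 0 := by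
          by_contra hne'
          have : 0 < t := lt_of_le_of_ne ht.1 (Ne.symm hne')
          have : 0 < t * (r / 2) := by positivity
          linarith
        rw [h5] at h2
        simp only [sub_zero, one_smul, zero_smul, add_zero] at h2
        exact hz.2 (f.injOn hz.1.1 hf (Subtype.ext h2))
    · intro z hz
      show f.symm (bdProj m ((1 - (0 : ℝ)) • (f z).1 + (0 : ℝ) • c0)) = z
      have : (1 - (0 : ℝ)) • (f z).1 + (0 : ℝ) • c0 = (f z).1 := by simp
      rw [this, bdProj_of_nonneg (f z).2, Subtype.coe_eta, f.left_inv hz.1.1]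
    · intro z hz
      show f.symm (bdProj m ((1 - (1 : ℝ)) • (f z).1 + (1 : ℝ) • c0)) = f.symm (bdProj m c0)
      have : (1 - (1 : ℝ)) • (f z).1 + (1 : ℝ) • c0 = c0 := by simp
      rw [this]
  -- the small sphere
  obtain ⟨R, hR, hSR⟩ := bd_bounded (Sph_mem (m + 1))
  obtain ⟨δ, hδ, hδ1⟩ : ∃ δ > 0, ∀ x ∈ Metric.ball (0 : Rn (m + 1)) δ,
      x ∈ Metric.ball (0 : Rn (m + 1)) ρ ∧ e x ∈ V := by
    have hopen : IsOpen (Metric.ball (0 : Rn (m + 1)) ρ ∩ e ⁻¹' V) :=
      hec.isOpen_inter_preimage Metric.isOpen_ball hVo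
    have hmem : (0 : Rn (m + 1)) ∈ Metric.ball (0 : Rn (m + 1)) ρ ∩ e ⁻¹' V :=
      ⟨Metric.mem_ball_self hρ, by
        show e 0 ∈ V
        rw [he0]; exact hyV⟩
    obtain ⟨δ, hδ, hsub⟩ := Metric.isOpen_iff.mp hopen _ hmem
    exact ⟨δ, hδ, fun x hx => ⟨(hsub hx).1, (hsub hx).2⟩⟩
  let ε : ℝ := δ / R
  have hε : 0 < ε := by positivity
  have hball : ∀ x ∈ Metric.ball (0 : Rn (m + 1)) R, ε • x ∈ Metric.ball (0 : Rn (m + 1)) δ := by
    intro x hx
    rw [mem_ball_zero_iff] at hx ⊢
    rw [norm_smul, Real.norm_of_nonneg hε.le]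
    calc ε * ‖x‖ < ε * R := by
          exact mul_lt_mul_of_pos_left hx hε
      _ = δ := by
          show δ / R * R = δ
          field_simp
  have hS1 : mapG (fun x : Rn (m + 1) => e (ε • x)) (Sph (m + 1)) ∈ F (V \ {y}) (m + 1) := by
    refine mapG_mem ?_ ?_ ?_ hSR
    · exact (isOpen_ne (x := (0 : Rn (m + 1)))).inter Metric.isOpen_ball
    · refine hec.comp (by fun_prop) ?_
      intro x hx
      exact (hδ1 _ (hball x hx.2)).1
    · intro x hx
      refine ⟨(hδ1 _ (hball x hx.2)).2, ?_⟩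
      intro heq
      have heq' : e (ε • x) = y := heq
      have h1 := hqe _ (hδ1 _ (hball x hx.2)).1
      rw [heq', hqy] at h1
      have : x = 0 := by
        rcases smul_eq_zero.mp h1.symm with h | h
        · exact absurd h hε.ne'
        · exact h
      exact hx.1 this
  obtain ⟨b, hb, hdb⟩ := hEx _ hS1 (by rw [dG_mapG, Sph_d, map_zero])
  have hb' : mapG q b ∈ F (Pn (m + 1)) (m + 2) := by
    refine mapG_mem (hVo.sdiff isClosed_singleton) (hqc.mono ?_) ?_ hb
    · exact Set.sdiff_subset.trans hVg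
    · intro z hz hq0
      exact hz.2 (hqinj z (hVg hz.1) hq0)
  have hdb' : dG (mapG q b) = mapG (fun x : Rn (m + 1) => ε • x) (Sph (m + 1)) := by
    rw [dG_mapG, hdb, mapG_mapG]
    refine mapG_congr ?_ hSR
    intro x hx
    exact hqe _ (hδ1 _ (hball x hx.2)).1
  obtain ⟨e1, he1, hde1⟩ := Sph_scale (m + 1) hε.ne'
  refine Sph_NB (m + 1) (mapG q b + e1) ((F _ _).add_mem hb' he1) ?_
  rw [map_add, hdb', hde1, ← add_assoc, bd_add_self, zero_add]

end OS
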