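import Mathlib
import Pool.Agent.Lib.MP_8fe54c_gt.TopDefs

/-!
# The open collar

`E2_Yp m Y` is the set of all `(y, t)` in `Y × ℝ` with `0 ≤ t` and `t = 0` or `y` a boundary
point.  It is a manifold without boundary, contractible if `Y` is, and contains `Y`.
-/

namespace OS

open Filter Topology

universe u

section collar

/-- the boundary points -/
def E2_Bd (m : ℕ) (Y : Type u) [TopologicalSpace Y] : Set Y :=
  {y | ∃ f : OpenPartialHomeomorph Y (HS m), y ∈ f.source ∧ (f y).1 0 = 0}

/-- the space with an open collar -/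
abbrev E2_Yp (m : ℕ) (Y : Type u) [TopologicalSpace Y] : Type u :=
  {q : Y × ℝ // 0 ≤ q.2 ∧ (q.2 = 0 ∨ q.1 ∈ E2_Bd m Y)}

/-- make the first coordinate nonnegative -/
noncomputable def E2_clamp {m : ℕ} (z : Rn (m + 1)) : HS m :=
  ⟨Function.update z 0 (max (z 0) 0), by simp⟩

theorem E2_clamp_continuous {m : ℕ} : Continuous (E2_clamp (m := m)) := by
  apply Continuous.subtype_mk
  exact continuous_id.update 0 ((continuous_apply 0).max continuous_const)

variable {m : ℕ} {Y : Type u} [TopologicalSpace Y]

/-- the inclusion -/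
def E2_ι (m : ℕ) {Y : Type u} [TopologicalSpace Y] (y : Y) : E2_Yp m Y :=
  ⟨(y, 0), le_rfl, Or.inl rfl⟩

open Classical in
/-- the inverse of the chart -/
noncomputable def E2_inv (f : OpenPartialHomeomorph Y (HS m)) (z : Rn (m + 1)) : E2_Yp m Y :=
  if h : E2_clamp z ∈ f.target then
    ⟨(f.symm (E2_clamp z), max (-(z 0)) 0), by simp, by
      rcases le_or_gt 0 (z 0) with h0 | h0
      · left
        simp [h0]
      · right
        refine ⟨f, f.map_target h, ?_⟩
        rw [f.right_inv h]
        simp [E2_clamp, h0.le]⟩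
  else E2_ι m (f.symm (E2_clamp z))

theorem E2_inv_val (f : OpenPartialHomeomorph Y (HS m)) {z : Rn (m + 1)}
    (h : E2_clamp z ∈ f.target) :
    (E2_inv f z).1 = (f.symm (E2_clamp z), max (-(z 0)) 0) := by
  unfold E2_inv
  rw [dif_pos h]

/-- the chart map -/
noncomputable def E2_fun (f : OpenPartialHomeomorph Y (HS m)) (q : E2_Yp m Y) : Rn (m + 1) :=
  Function.update (f q.1.1).1 0 ((f q.1.1).1 0 - q.1.2)

theorem E2_clamp_fun (f : OpenPartialHomeomorph Y (HS m))
    (hf : ∀ y ∈ f.source, y ∈ E2_Bd m Y → (f y).1 0 = 0) {q : E2_Yp m Y} (hq : q.1.1 ∈ f.source) :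
    E2_clamp (E2_fun f q) = f q.1.1 := by
  apply Subtype.ext
  obtain ⟨⟨y, t⟩, h1, h2⟩ := q
  simp only at h1 h2 hq
  have h3 := (f y).2
  unfold E2_clamp E2_fun
  simp only [Function.update_self, Function.update_idem]
  rcases h2 with rfl | h2
  · rw [sub_zero, max_eq_left h3, Function.update_eq_self]
  · have h4 := hf y hq h2
    rw [h4, max_eq_right (by linarith)]
    conv_rhs => rw [← Function.update_eq_self 0 (f y).1, h4]

/-- the chart of the collared space attached to a chart of `Y` -/
noncomputable def E2_chart (f : OpenPartialHomeomorph Y (HS m))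
    (hf : ∀ y ∈ f.source, y ∈ E2_Bd m Y → (f y).1 0 = 0) :
    OpenPartialHomeomorph (E2_Yp m Y) (Rn (m + 1)) where
  toFun := E2_fun f
  invFun := E2_inv f
  source := {q | q.1.1 ∈ f.source}
  target := {z | E2_clamp z ∈ f.target}
  map_source' := by
    intro q hq
    show E2_clamp (E2_fun f q) ∈ f.target
    rw [E2_clamp_fun f hf hq]
    exact f.map_source hq
  map_target' := by
    intro z hz
    show (E2_inv f z).1.1 ∈ f.source
    rw [E2_inv_val f hz]
    exact f.map_target hz
  left_inv' := by
    intro q hq
    have hz : E2_clamp (E2_fun f q) ∈ f.target := by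
      rw [E2_clamp_fun f hf hq]
      exact f.map_source hq
    apply Subtype.ext
    rw [E2_inv_val f hz, E2_clamp_fun f hf hq, f.left_inv hq]
    apply Prod.ext
    · rfl
    · show max (-(E2_fun f q 0)) 0 = q.1.2
      obtain ⟨⟨y, t⟩, h1, h2⟩ := q
      simp only [E2_fun, Function.update_self]
      simp only at h1 h2 hq
      rcases h2 with rfl | h2
      · have := (f y).2
        rw [max_eq_right]
        linarith
      · rw [hf y hq h2, zero_sub, neg_neg, max_eq_left h1]
  right_inv' := by
    intro z hz
    have h1 := E2_inv_val f hz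
    show Function.update (f (E2_inv f z).1.1).1 0 ((f (E2_inv f z).1.1).1 0 - (E2_inv f z).1.2) = z
    rw [h1, f.right_inv hz]
    simp only [E2_clamp, Function.update_idem, Function.update_self]
    have h2 : max (z 0) 0 - max (-(z 0)) 0 = z 0 := by
      rcases le_total 0 (z 0) with h | h
      · rw [max_eq_left h, max_eq_right (by linarith), sub_zero]
      · rw [max_eq_right h, max_eq_left (by linarith)]; ring
    rw [h2, Function.update_eq_self]
  open_source := f.open_source.preimage (continuous_fst.comp continuous_subtype_val)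
  open_target := f.open_target.preimage E2_clamp_continuous
  continuousOn_toFun := by
    have h1 : ContinuousOn (fun q : E2_Yp m Y => (f q.1.1).1) {q | q.1.1 ∈ f.source} :=
      continuous_subtype_val.comp_continuousOn
        (f.continuousOn.comp (continuous_fst.comp continuous_subtype_val).continuousOn
          fun q hq => hq)
    have h2 : ContinuousOn (fun q : E2_Yp m Y => (f q.1.1).1 0 - q.1.2)
        {q | q.1.1 ∈ f.source} :=
      ((continuous_apply 0).comp_continuousOn h1).sub
        (continuous_snd.comp continuous_subtype_val).continuousOn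
    have h3 : Continuous (fun p : Rn (m + 1) × ℝ => Function.update p.1 0 p.2) :=
      continuous_fst.update 0 continuous_snd
    exact h3.comp_continuousOn (h1.prodMk h2)
  continuousOn_invFun := by
    rw [IsInducing.subtypeVal.continuousOn_iff]
    have h1 : ContinuousOn (fun z : Rn (m + 1) => (f.symm (E2_clamp z), max (-(z 0)) 0))
        {z | E2_clamp z ∈ f.target} := by
      refine ContinuousOn.prodMk ?_ ?_
      · exact f.symm.continuousOn.comp E2_clamp_continuous.continuousOn fun z hz => hz
      · exact (((continuous_apply 0).neg).max continuous_const).continuousOn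
    refine h1.congr ?_
    intro z hz
    exact E2_inv_val f hz

/-- the collared space is a manifold without boundary -/
theorem E2_locEuc (hE1 : ∀ (f g : OpenPartialHomeomorph Y (HS m)) (y : Y), y ∈ f.source →
    y ∈ g.source → (f y).1 0 = 0 → (g y).1 0 = 0) (hY : LocHalf m Y) :
    LocEuc (m + 1) (E2_Yp m Y) := by
  intro p
  obtain ⟨f, hf⟩ := hY p.1.1
  have hf' : ∀ y ∈ f.source, y ∈ E2_Bd m Y → (f y).1 0 = 0 := by
    rintro y hy ⟨g, hg, h0⟩
    exact hE1 g f y hg hy h0
  set φ := (E2_chart f hf').symm with hφ
  have hz : E2_fun f p ∈ φ.source := by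
    rw [hφ, OpenPartialHomeomorph.symm_source]
    exact (E2_chart f hf').map_source hf
  have hφz : φ (E2_fun f p) = p := (E2_chart f hf').left_inv hf
  obtain ⟨r, hr, hball⟩ := Metric.isOpen_iff.mp φ.open_source _ hz
  have hs : ((OpenPartialHomeomorph.univBall (E2_fun f p) r).trans φ).source = Set.univ := by
    rw [OpenPartialHomeomorph.trans_source, OpenPartialHomeomorph.univBall_source,
      Set.univ_inter, Set.eq_univ_iff_forall]
    intro x
    apply hball
    rw [← OpenPartialHomeomorph.univBall_target (E2_fun f p) hr]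
    exact OpenPartialHomeomorph.map_source _ (by simp)
  refine ⟨_, OpenPartialHomeomorph.isOpenEmbedding _ hs, ?_⟩
  rw [OpenPartialHomeomorph.coe_trans, Function.comp_apply,
    OpenPartialHomeomorph.univBall_apply_zero, hφz]

theorem E2_ι_continuous : Continuous (E2_ι m : Y → E2_Yp m Y) :=
  Continuous.subtype_mk (continuous_id.prodMk continuous_const) _

/-- the collared space is homotopy equivalent to `Y` -/
noncomputable def E2_equiv : ContinuousMap.HomotopyEquiv (E2_Yp m Y) Y where
  toFun := ⟨fun q => q.1.1, continuous_fst.comp continuous_subtype_val⟩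
  invFun := ⟨E2_ι m, E2_ι_continuous⟩
  left_inv := by
    refine ⟨⟨⟨fun q => ⟨(q.2.1.1, (q.1 : ℝ) * q.2.1.2), ?_, ?_⟩, ?_⟩, ?_, ?_⟩⟩
    · exact mul_nonneg q.1.2.1 q.2.2.1
    · rcases q.2.2.2 with h | h
      · left
        simp [h]
      · exact Or.inr h
    · apply Continuous.subtype_mk
      fun_prop
    · intro q
      apply Subtype.ext
      simp [E2_ι]
    · intro q
      apply Subtype.ext
      simp
  right_inv := by
    have : ((⟨fun q => q.1.1, continuous_fst.comp continuous_subtype_val⟩ :
        C(E2_Yp m Y, Y)).comp ⟨E2_ι m, E2_ι_continuous⟩) = ContinuousMap.id Y := by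
      ext y
      rfl
    rw [this]

end collar

/-- the open collar, from the invariance of the boundary -/
theorem E2_collar {m : ℕ} {Y : Type u} [TopologicalSpace Y] [T2Space Y] [ContractibleSpace Y]
    (hE1 : ∀ (f g : OpenPartialHomeomorph Y (HS m)) (y : Y), y ∈ f.source →
      y ∈ g.source → (f y).1 0 = 0 → (g y).1 0 = 0)
    (hY : LocHalf m Y) : ∃ (Yp : Type u) (_ : TopologicalSpace Yp) (_ : T2Space Yp)
      (_ : ContractibleSpace Yp) (ι : Y → Yp), LocEuc (m + 1) Yp ∧ Continuous ι ∧
        Function.Injective ι :=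
  ⟨E2_Yp m Y, inferInstance, inferInstance, E2_equiv.contractibleSpace, E2_ι m,
    E2_locEuc hE1 hY, E2_ι_continuous, fun _ _ h => congrArg (fun q : E2_Yp m Y => q.1.1) h⟩

end OS
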