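import Mathlib
import Pool.Agent.Lib.MP_8fe54c_gt.CollB
import Pool.Agent.Lib.MP_8fe54c_gt.Bdry

/-!
# The open collar
-/

namespace OS

universe u

/-- the open collar: a contractible Hausdorff manifold with boundary is contained in a contractible
Hausdorff manifold of the same dimension without boundary -/
theorem collar {m : ℕ} {Y : Type u} [TopologicalSpace Y] [T2Space Y] [ContractibleSpace Y]
    (hY : LocHalf m Y) : ∃ (Yp : Type u) (_ : TopologicalSpace Yp) (_ : T2Space Yp)
      (_ : ContractibleSpace Yp) (ι : Y → Yp), LocEuc (m + 1) Yp ∧ Continuous ι ∧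
        Function.Injective ι :=
  E2_collar (fun f g y hf hg h0 => boundary_invariance f g y hf hg h0) hY

end OS
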