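import Mathlib
import Pool.Agent.Lib.MP_8fe54c_gt.CombCyc
import Pool.Agent.Lib.MP_8fe54c_gt.CombFan

/-!
# The combinatorial core: a mod 2 class of degree `j` gives a tower of height `2 j + 1`
-/

namespace OS

theorem hasTower_of_hasClass {V : Type*} [LinearOrder V] [Fintype V] (G : SimpleGraph V) (j : ℕ)
    (h : HasClass G j) : HasTower G (2 * j + 1) := by
  obtain ⟨Z, φ, hZ1, hZ2, hφ, h1⟩ := h
  exact tower_of_cycle G (2 * j + 1) (cc G j φ Z) (fun lam h => cc_supp G j φ Z hZ1 h)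
    (cc_T G j φ Z hZ1 hφ) (cc_d G j φ Z hZ1 hZ2) (cc_alt G j φ Z hZ1 h1)

end OS
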