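import Mathlib
import Pool.Agent.Lib.MP_8fe54c_gt.TopDefs

/-!
# Module G12: coverings of manifolds
-/

namespace OS

open Topology

theorem covering_t2 {M Y : Type*} [TopologicalSpace M] [TopologicalSpace Y] [T2Space M]
    {p : Y → M} (hp : IsCoveringMap p) : T2Space Y := by
  refine ⟨fun x y hxy => ?_⟩
  by_cases h : p x = p y
  · exact hp.isSeparatedMap x y h hxy
  · obtain ⟨U, V, hU, hV, hx, hy, hd⟩ := t2_separation h
    exact ⟨p ⁻¹' U, p ⁻¹' V, hU.preimage hp.continuous, hV.preimage hp.continuous, hx, hy,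
      hd.preimage p⟩

theorem covering_properly {M Y : Type*} [TopologicalSpace M] [TopologicalSpace Y] [T2Space M]
    {p : Y → M} {Γ : Type*} [Group Γ] [MulAction Γ Y] (hp : IsQuotientCoveringMap p Γ) :
    ProperlyDiscontinuousSMul Γ Y := by
  have : ContinuousConstSMul Γ Y := hp.toContinuousConstSMul
  refine ⟨fun {K L} hK hL => ?_⟩
  have key : ∀ q : Y × Y, ∃ U ∈ 𝓝 q.1, ∃ W ∈ 𝓝 q.2,
      Set.Finite {g : Γ | ((g • ·) '' U ∩ W).Nonempty} := by
    rintro ⟨x, y⟩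
    by_cases h : p y = p x
    · obtain ⟨g0, hg0⟩ := hp.apply_eq_iff_mem_orbit.mp h
      have hg0' : g0 • x = y := hg0
      obtain ⟨U, hU, hU1⟩ := hp.disjoint x
      refine ⟨U, hU, (g0⁻¹ • ·) ⁻¹' U, ?_, ?_⟩
      · refine (continuous_const_smul g0⁻¹).continuousAt.preimage_mem_nhds ?_
        show U ∈ 𝓝 (g0⁻¹ • y)
        rw [← hg0', inv_smul_smul]
        exact hU
      · refine Set.Finite.subset (Set.finite_singleton g0) ?_
        rintro g ⟨z, ⟨u, hu, rfl⟩, hz⟩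
        have h1 : g0⁻¹ * g = 1 := by
          refine hU1 _ ⟨(g0⁻¹ * g) • u, ⟨u, hu, rfl⟩, ?_⟩
          rw [mul_smul]
          exact hz
        rw [Set.mem_singleton_iff]
        rw [inv_mul_eq_one] at h1
        exact h1.symm
    · obtain ⟨A, B, hA, hB, hy, hx, hd⟩ := t2_separation h
      refine ⟨p ⁻¹' B, (hB.preimage hp.continuous).mem_nhds hx, p ⁻¹' A,
        (hA.preimage hp.continuous).mem_nhds hy, ?_⟩
      refine Set.Finite.subset Set.finite_empty ?_
      rintro g ⟨z, ⟨u, hu, rfl⟩, hz⟩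
      have hz' : p (g • u) ∈ A := hz
      rw [hp.map_smul] at hz'
      exact (Set.disjoint_left.mp hd hz' hu).elim
  choose U hU W hW hfin using key
  obtain ⟨t, -, ht⟩ := (hK.prod hL).elim_nhds_subcover (fun q => U q ×ˢ W q)
    (fun q _ => prod_mem_nhds (hU q) (hW q))
  refine Set.Finite.subset (Set.Finite.biUnion (Finset.finite_toSet t) fun q _ => hfin q) ?_
  rintro g ⟨z, ⟨u, hu, rfl⟩, hz⟩
  obtain ⟨q, hq, hq'⟩ := Set.mem_iUnion₂.mp (ht (show (u, g • u) ∈ K ×ˢ L from ⟨hu, hz⟩))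
  exact Set.mem_iUnion₂.mpr ⟨q, hq, ⟨g • u, ⟨u, hq'.1, rfl⟩, hq'.2⟩⟩

/-- the two models of the half space -/
noncomputable def cov_halfHomeo (m : ℕ) : EuclideanHalfSpace (m + 1) ≃ₜ HS m :=
  (EuclideanSpace.equiv (Fin (m + 1)) ℝ).toHomeomorph.subtype (fun _ => Iff.rfl)

theorem covering_locHalf {m : ℕ} {M Y : Type*} [TopologicalSpace M] [TopologicalSpace Y]
    [ChartedSpace (EuclideanHalfSpace (m + 1)) M] {p : Y → M} (hp : IsCoveringMap p) :
    LocHalf m Y := by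
  intro y
  obtain ⟨e, he, hpe⟩ := hp.isLocalHomeomorph y
  let c := chartAt (EuclideanHalfSpace (m + 1)) (p y)
  refine ⟨(e.trans c).trans (cov_halfHomeo m).toOpenPartialHomeomorph, ?_⟩
  rw [OpenPartialHomeomorph.trans_source]
  refine ⟨?_, trivial⟩
  rw [OpenPartialHomeomorph.trans_source]
  refine ⟨he, ?_⟩
  show e y ∈ c.source
  rw [← hpe]
  exact mem_chart_source _ _

end OS
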