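import Mathlib

/-!
# PROJECT RAAG, module G13 (DECK): the deck group of a simply connected covering
-/

namespace OS

open Topology

universe u v

section deck

variable {M : Type u} {Y : Type v} [TopologicalSpace M] [TopologicalSpace Y]

/-- the group of deck transformations -/
def G13Deck (p : Y → M) : Subgroup (Y ≃ₜ Y) where
  carrier := {h | ∀ y, p (h y) = p y}
  mul_mem' := by
    intro a b ha hb y
    have h1 := ha (b y)
    have h2 := hb y
    rw [Homeomorph.mul_apply]
    exact h1.trans h2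
  one_mem' := by
    intro y
    rfl
  inv_mem' := by
    intro a ha y
    have h1 := ha (a⁻¹ y)
    rw [← Homeomorph.mul_apply, mul_inv_cancel] at h1
    exact h1.symm

omit [TopologicalSpace M] in
theorem g13_mem {p : Y → M} {h : Y ≃ₜ Y} : h ∈ G13Deck p ↔ ∀ y, p (h y) = p y := Iff.rfl

theorem g13_surjective [ConnectedSpace M] [Nonempty Y] {p : Y → M} (hp : IsCoveringMap p) :
    Function.Surjective p := by
  have hopen : IsOpen (Set.range p) := hp.isOpenMap.isOpen_range
  have hclosed : IsClosed (Set.range p) := by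
    rw [← isOpen_compl_iff, isOpen_iff_mem_nhds]
    intro x hx
    obtain ⟨_, U, hxU, hU, hfU, H, hH⟩ := hp x
    refine Filter.mem_of_superset (hU.mem_nhds hxU) ?_
    rintro x' hx' ⟨y', rfl⟩
    apply hx
    have hy : (H ⟨y', hx'⟩).2.1 ∈ p ⁻¹' {x} := (H ⟨y', hx'⟩).2.2
    exact ⟨_, hy⟩
  have h := IsClopen.eq_univ ⟨hclosed, hopen⟩ (Set.range_nonempty p)
  exact Set.range_eq_univ.mp h

theorem g13_locPath [LocallyPathConnectedSpace M] {p : Y → M} (hp : IsCoveringMap p) :
    LocallyPathConnectedSpace Y := by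
  rw [locallyPathConnectedSpace_iff_pathComponentIn_mem_nhds]
  intro y u hu hyu
  obtain ⟨e, he, rfl⟩ := hp.isLocalHomeomorph y
  have hes : IsOpen (e.source ∩ u) := e.open_source.inter hu
  have hW : IsOpen (e '' (e.source ∩ u)) := e.isOpen_image_of_subset_source hes Set.inter_subset_left
  have hyW : e y ∈ e '' (e.source ∩ u) := ⟨y, ⟨he, hyu⟩, rfl⟩
  have hsub : e '' (e.source ∩ u) ⊆ e.target := by
    rintro _ ⟨z, hz, rfl⟩
    exact e.map_source hz.1
  set P := pathComponentIn (e '' (e.source ∩ u)) (e y) with hP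
  have hPn : P ∈ 𝓝 (e y) := (hW.pathComponentIn (e y)).mem_nhds (mem_pathComponentIn_self hyW)
  have hPc : IsPathConnected P := isPathConnected_pathComponentIn hyW
  have hPt : P ⊆ e.target := pathComponentIn_subset.trans hsub
  have hc : ContinuousOn e.symm P := e.continuousOn_symm.mono hPt
  have hQ : IsPathConnected (e.symm '' P) := hPc.image' hc
  have hQu : e.symm '' P ⊆ u := by
    rintro _ ⟨w, hw, rfl⟩
    obtain ⟨z, hz, rfl⟩ := pathComponentIn_subset hw
    rw [e.left_inv hz.1]
    exact hz.2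
  have hyQ : y ∈ e.symm '' P := ⟨e y, mem_pathComponentIn_self hyW, e.left_inv he⟩
  refine Filter.mem_of_superset ?_ (hQ.subset_pathComponentIn hyQ hQu)
  have h1 : e ⁻¹' P ∈ 𝓝 y := (e.continuousAt he).preimage_mem_nhds hPn
  refine Filter.mem_of_superset (Filter.inter_mem h1 (e.open_source.mem_nhds he)) ?_
  rintro z ⟨hz1, hz2⟩
  exact ⟨e z, hz1, e.left_inv hz2⟩

/-- transitivity of the deck group on the fibres -/
theorem g13_trans [SimplyConnectedSpace Y] [LocallyPathConnectedSpace Y] {p : Y → M}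
    (hp : IsCoveringMap p) {y y' : Y} (h : p y' = p y) :
    ∃ g : Y ≃ₜ Y, (∀ z, p (g z) = p z) ∧ g y = y' := by
  obtain ⟨F, ⟨hF1, hF2⟩, -⟩ := hp.existsUnique_continuousMap_lifts ⟨p, hp.continuous⟩ y y' h
  obtain ⟨F', ⟨hF1', hF2'⟩, -⟩ := hp.existsUnique_continuousMap_lifts ⟨p, hp.continuous⟩ y' y h.symm
  have hp1 : ∀ z, p (F z) = p z := fun z => congrFun hF2 z
  have hp2 : ∀ z, p (F' z) = p z := fun z => congrFun hF2' z
  have e1 : (fun z => F' (F z)) = id := by
    refine hp.eq_of_comp_eq (F'.continuous.comp F.continuous) continuous_id ?_ y ?_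
    · funext z
      simp [hp1, hp2]
    · simp [hF1, hF1']
  have e2 : (fun z => F (F' z)) = id := by
    refine hp.eq_of_comp_eq (F.continuous.comp F'.continuous) continuous_id ?_ y' ?_
    · funext z
      simp [hp1, hp2]
    · simp [hF1, hF1']
  refine ⟨⟨⟨F, F', fun z => congrFun e1 z, fun z => congrFun e2 z⟩, F.continuous, F'.continuous⟩,
    fun z => hp1 z, hF1⟩

end deck

/-- the deck group of a simply connected covering -/
theorem exists_deck {n : ℕ} [NeZero n] {M : Type u} {Y : Type v} [TopologicalSpace M]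
    [TopologicalSpace Y] [ConnectedSpace M] [ChartedSpace (EuclideanHalfSpace n) M]
    [ContractibleSpace Y] {p : Y → M} (hp : IsCoveringMap p) :
    ∃ (Γ : Type v) (_ : Group Γ) (_ : MulAction Γ Y), IsQuotientCoveringMap p Γ := by
  have : LocallyPathConnectedSpace M :=
    ChartedSpace.locallyPathConnectedSpace (EuclideanHalfSpace n) M
  have : LocallyPathConnectedSpace Y := g13_locPath hp
  have : SimplyConnectedSpace Y := inferInstance
  let act : MulAction (Y ≃ₜ Y) Y :=
    { smul := fun g y => g y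
      one_smul := fun y => rfl
      mul_smul := fun a b y => rfl }
  refine ⟨G13Deck p, inferInstance, inferInstance, ?_⟩
  have hsm : ∀ (g : G13Deck p) (y : Y), g • y = (g : Y ≃ₜ Y) y := fun g y => rfl
  rw [isQuotientCoveringMap_iff_isCoveringMap_and]
  refine ⟨hp, g13_surjective hp, ?_, ?_, ?_⟩
  · refine ⟨fun g => ?_⟩
    exact (g : Y ≃ₜ Y).continuous
  · refine ⟨fun g g' y hgy => ?_⟩
    apply Subtype.ext
    apply Homeomorph.ext
    intro z
    have h1 : (⇑(g : Y ≃ₜ Y)) = (⇑(g' : Y ≃ₜ Y)) := by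
      refine hp.eq_of_comp_eq (g : Y ≃ₜ Y).continuous (g' : Y ≃ₜ Y).continuous ?_ y hgy
      funext w
      exact (g.2 w).trans (g'.2 w).symm
    exact congrFun h1 z
  · intro e₁ e₂
    constructor
    · intro h
      obtain ⟨g, hg, hg2⟩ := g13_trans hp h
      exact ⟨⟨g, hg⟩, hg2⟩
    · rintro ⟨g, rfl⟩
      exact g.2 e₂

end OS

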