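import Mathlib
import Pool.Agent.Lib.MP_8fe54c_gt.TopDefs
import Pool.Agent.Lib.MP_8fe54c_gt.CombDefs

/-!
# Equivariant cubes

For pairwise commuting elements `g_w` acting on the contractible space `Y × Y`, indexed by the
cliques `lam` of the graph `XG G`, we construct fine chains `Fl lam` of length `|lam| + 1` with
`dG (Fl lam) = ∑_{w ∈ lam} (1 + g_w) Fl (lam - w)`, compatible with the exchange of the two copies.
-/

namespace OS

open Filter Topology Finsupp

/-- the pair of group elements attached to a vertex of the deleted join -/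
def gW {V Γ : Type*} [Group Γ] (a : V → Γ) (w : WV V) : Γ × Γ :=
  if w.2.2 then (1, if w.2.1 then (a w.1)⁻¹ else a w.1)
  else (if w.2.1 then (a w.1)⁻¹ else a w.1, 1)

/-- the operator of a pair of group elements on chains of `Y × Y` -/
noncomputable def aG {Γ Y : Type*} [Group Γ] [MulAction Γ Y] (g : Γ × Γ) :
    GC (Y × Y) →ₗ[ZMod 2] GC (Y × Y) := mapG (fun q : Y × Y => (g.1 • q.1, g.2 • q.2))

section TW

variable {V : Type*}

theorem F1_TW_TW (w : WV V) : TW (TW w) = w := by
  simp [TW]

theorem F1_TW_inj : Function.Injective (TW : WV V → WV V) := fun w w' h => by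
  rw [← F1_TW_TW w, h, F1_TW_TW]

theorem F1_image_image [DecidableEq V] (lam : Finset (WV V)) :
    (lam.image TW).image TW = lam := by
  rw [Finset.image_image]
  have : (TW ∘ TW : WV V → WV V) = id := funext fun w => F1_TW_TW w
  rw [this, Finset.image_id]

theorem F1_adj_TW (G : SimpleGraph V) {w w' : WV V} (h : (XG G).Adj w w') :
    (XG G).Adj (TW w) (TW w') := by
  rcases h with ⟨h1, h2⟩ | ⟨h1, h2⟩
  · exact Or.inl ⟨by simp [TW, h1], h2⟩
  · refine Or.inr ⟨fun h => h1 ?_, h2⟩
    simpa [TW] using h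

theorem F1_clique_image [DecidableEq V] (G : SimpleGraph V) {lam : Finset (WV V)}
    (h : (XG G).IsClique (lam : Set (WV V))) :
    (XG G).IsClique ((lam.image TW : Finset (WV V)) : Set (WV V)) := by
  intro x hx y hy hxy
  obtain ⟨w, hw, rfl⟩ := Finset.mem_image.mp (Finset.mem_coe.mp hx)
  obtain ⟨w', hw', rfl⟩ := Finset.mem_image.mp (Finset.mem_coe.mp hy)
  exact F1_adj_TW G (h hw hw' fun e => hxy (e ▸ rfl))

theorem F1_not_adj_TW (G : SimpleGraph V) (w : WV V) : ¬ (XG G).Adj w (TW w) := by
  rintro (⟨h1, _⟩ | ⟨_, h2⟩)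
  · simp [TW] at h1
  · exact h2 rfl

theorem F1_ne_TW (w : WV V) : w ≠ TW w := by
  intro h
  have := congrArg (fun x : WV V => x.2.2) h
  simp [TW] at this

theorem F1_ne_image [DecidableEq V] (G : SimpleGraph V) {lam : Finset (WV V)}
    (h : (XG G).IsClique (lam : Set (WV V))) (hne : lam.Nonempty) : lam ≠ lam.image TW := by
  intro he
  obtain ⟨w, hw⟩ := hne
  have hw' : TW w ∈ lam := by
    rw [he]; exact Finset.mem_image_of_mem _ hw
  exact F1_not_adj_TW G w (h hw hw' (F1_ne_TW w))

end TW

section grp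

variable {V Γ : Type*} [Group Γ] (a : V → Γ)

theorem F1_gW_TW (w : WV V) : gW a (TW w) = ((gW a w).2, (gW a w).1) := by
  obtain ⟨v, s, i⟩ := w
  cases i <;> simp [gW, TW]

theorem F1_gW_comm (G : SimpleGraph V) (hcomm : ∀ u v, G.Adj u v → Commute (a u) (a v))
    {w w' : WV V} (h : (XG G).Adj w w') :
    Commute (gW a w).1 (gW a w').1 ∧ Commute (gW a w).2 (gW a w').2 := by
  obtain ⟨v, s, i⟩ := w
  obtain ⟨v', s', i'⟩ := w'
  rcases h with ⟨h1, h2⟩ | ⟨h1, h2⟩
  · have hc := hcomm _ _ h2
    simp only at h1 h2 hc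
    subst h1
    cases i <;> cases s <;> cases s' <;>
      simp only [gW, Bool.false_eq_true, if_true, if_false] <;>
      first
        | exact ⟨hc, Commute.one_left _⟩
        | exact ⟨hc.inv_left, Commute.one_left _⟩
        | exact ⟨hc.inv_right, Commute.one_left _⟩
        | exact ⟨hc.inv_inv, Commute.one_left _⟩
        | exact ⟨Commute.one_left _, hc⟩
        | exact ⟨Commute.one_left _, hc.inv_left⟩
        | exact ⟨Commute.one_left _, hc.inv_right⟩
        | exact ⟨Commute.one_left _, hc.inv_inv⟩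
  · simp only at h1
    cases i <;> cases i' <;> simp [gW] at h1 ⊢

variable {Y : Type*} [MulAction Γ Y]

theorem F1_aG_aG (g h : Γ × Γ) (c : GC (Y × Y)) : aG g (aG h c) = aG (g.1 * h.1, g.2 * h.2) c := by
  unfold aG
  rw [mapG_mapG]
  congr 2
  funext q
  simp [mul_smul]

theorem F1_aG_comm {g h : Γ × Γ} (h1 : Commute g.1 h.1) (h2 : Commute g.2 h.2)
    (c : GC (Y × Y)) : aG g (aG h c) = aG h (aG g c) := by
  rw [F1_aG_aG, F1_aG_aG, h1.eq, h2.eq]

theorem F1_dG_aG (g : Γ × Γ) (c : GC (Y × Y)) : dG (aG g c) = aG g (dG c) := dG_mapG _ _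

theorem F1_swap_aG (g : Γ × Γ) (c : GC (Y × Y)) :
    mapG Prod.swap (aG g c) = aG (g.2, g.1) (mapG Prod.swap c) := by
  unfold aG
  rw [mapG_mapG, mapG_mapG]
  rfl

theorem F1_swap_swap (c : GC (Y × Y)) : mapG Prod.swap (mapG Prod.swap c) = c := by
  rw [mapG_mapG]
  have : (Prod.swap ∘ Prod.swap : Y × Y → Y × Y) = id := funext fun q => Prod.swap_swap q
  rw [this, mapG_id]

theorem F1_aG_mem [TopologicalSpace Y] [T2Space Y] [ContinuousConstSMul Γ Y] (g : Γ × Γ) {l : ℕ}
    {c : GC (Y × Y)} (hc : c ∈ F (Set.univ : Set (Y × Y)) l) :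
    aG g c ∈ F (Set.univ : Set (Y × Y)) l := by
  refine mapG_mem isOpen_univ ?_ (fun _ _ => Set.mem_univ _) hc
  apply Continuous.continuousOn
  exact (continuous_fst.const_smul g.1).prodMk (continuous_snd.const_smul g.2)

end grp

/-- a sum over ordered pairs of different elements of a symmetric function vanishes mod 2 -/
theorem F1_sum_pairs {W M : Type*} [DecidableEq W] [AddCommGroup M] [Module (ZMod 2) M]
    (s : Finset W) (f : W → W → M) (hf : ∀ w ∈ s, ∀ u ∈ s, w ≠ u → f w u = f u w) :
    ∑ w ∈ s, ∑ u ∈ s.erase w, f w u = 0 := by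
  induction s using Finset.induction_on with
  | empty => simp
  | insert x s hx ih =>
    rw [Finset.sum_insert hx, Finset.erase_insert hx]
    have h1 : ∀ w ∈ s, ∑ u ∈ (insert x s).erase w, f w u = f w x + ∑ u ∈ s.erase w, f w u := by
      intro w hw
      have hwx : x ≠ w := fun h => hx (h ▸ hw)
      rw [Finset.erase_insert_of_ne hwx, Finset.sum_insert]
      exact fun h => hx (Finset.mem_of_mem_erase h)
    rw [Finset.sum_congr rfl h1, Finset.sum_add_distrib,
      ih fun w hw u hu => hf w (Finset.mem_insert_of_mem hw) u (Finset.mem_insert_of_mem hu),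
      add_zero]
    have h2 : ∑ u ∈ s, f x u = ∑ w ∈ s, f w x := by
      refine Finset.sum_congr rfl fun u hu => ?_
      exact hf x (Finset.mem_insert_self _ _) u (Finset.mem_insert_of_mem hu)
        fun h => hx (h ▸ hu)
    rw [h2]
    exact add_self_LC _

section cubes

variable {V : Type*} [DecidableEq V] (G : SimpleGraph V)
    {Γ : Type*} [Group Γ] (a : V → Γ)
    {Y : Type*} [TopologicalSpace Y] [MulAction Γ Y]

/-- the prescribed boundary -/
noncomputable def F1_R (Fl : Finset (WV V) → GC (Y × Y)) (lam : Finset (WV V)) : GC (Y × Y) :=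
  ∑ w ∈ lam, (Fl (lam.erase w) + aG (gW a w) (Fl (lam.erase w)))

omit [TopologicalSpace Y] in
theorem F1_R_congr {Fl Fl' : Finset (WV V) → GC (Y × Y)} {lam : Finset (WV V)}
    (h : ∀ w ∈ lam, Fl (lam.erase w) = Fl' (lam.erase w)) : F1_R a Fl lam = F1_R a Fl' lam := by
  unfold F1_R
  refine Finset.sum_congr rfl fun w hw => ?_
  rw [h w hw]

/-- the properties of the cubes for cliques with at most `m` elements -/
structure F1_Good (y₀ : Y) (m : ℕ) (Fl : Finset (WV V) → GC (Y × Y)) : Prop where
  zero : Fl ∅ = cst (bs [(y₀, y₀)])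
  mem : ∀ lam : Finset (WV V), (XG G).IsClique (lam : Set (WV V)) → lam.card ≤ m →
    Fl lam ∈ F (Set.univ : Set (Y × Y)) (lam.card + 1)
  bd : ∀ lam : Finset (WV V), (XG G).IsClique (lam : Set (WV V)) → lam.card ≤ m → lam.Nonempty →
    dG (Fl lam) = F1_R a Fl lam
  swap : ∀ lam : Finset (WV V), (XG G).IsClique (lam : Set (WV V)) → lam.card ≤ m →
    mapG Prod.swap (Fl lam) = Fl (lam.image TW)

theorem F1_Good_zero (y₀ : Y) : F1_Good G a y₀ 0 (fun _ => cst (bs [(y₀, y₀)])) where
  zero := rfl
  mem := by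
    intro lam _ hc
    have : lam.card = 0 := by omega
    rw [this]
    exact cst_mem (Set.mem_univ (y₀, y₀)) [(y₀, y₀)] (by simp)
  bd := by
    intro lam _ hc hne
    exact absurd (Finset.card_pos.mpr hne) (by omega)
  swap := by
    intro lam _ _
    rw [mapG_cst, mapL_bs]
    rfl

variable {G a}

omit [DecidableEq V] in
theorem F1_clique_erase [DecidableEq V] {lam : Finset (WV V)}
    (h : (XG G).IsClique (lam : Set (WV V))) (w : WV V) :
    (XG G).IsClique ((lam.erase w : Finset (WV V)) : Set (WV V)) :=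
  h.subset (by
    intro x hx
    exact Finset.mem_of_mem_erase (Finset.mem_coe.mp hx))

/-- the prescribed boundary is a fine chain -/
theorem F1_R_mem [T2Space Y] [ContinuousConstSMul Γ Y] {y₀ : Y} {m : ℕ}
    {Fl : Finset (WV V) → GC (Y × Y)} (hG : F1_Good G a y₀ m Fl) {lam : Finset (WV V)}
    (hl : (XG G).IsClique (lam : Set (WV V))) (hc : lam.card = m + 1) :
    F1_R a Fl lam ∈ F (Set.univ : Set (Y × Y)) (m + 1) := by
  refine Submodule.sum_mem _ fun w hw => ?_
  have hcw : (lam.erase w).card = m := by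
    rw [Finset.card_erase_of_mem hw]; omega
  have h1 := hG.mem (lam.erase w) (F1_clique_erase hl w) hcw.le
  rw [hcw] at h1
  exact Submodule.add_mem _ h1 (F1_aG_mem _ h1)

/-- the prescribed boundary is a cycle -/
theorem F1_R_cycle (hcomm : ∀ u v, G.Adj u v → Commute (a u) (a v)) {y₀ : Y} {m : ℕ}
    {Fl : Finset (WV V) → GC (Y × Y)} (hG : F1_Good G a y₀ m Fl) {lam : Finset (WV V)}
    (hl : (XG G).IsClique (lam : Set (WV V))) (hc : lam.card = m + 1) :
    dG (F1_R a Fl lam) = 0 := by
  unfold F1_R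
  rw [map_sum]
  rcases Nat.eq_zero_or_pos m with rfl | hm
  · obtain ⟨w, rfl⟩ := Finset.card_eq_one.mp (by omega : lam.card = 1)
    rw [Finset.sum_singleton, Finset.erase_singleton, hG.zero, map_add, F1_dG_aG, dG_cst]
    have h1 : aG (gW a w) (cst (dL (bs [(y₀, y₀)]))) = cst (dL (bs [(y₀, y₀)])) := by
      unfold aG
      rw [mapG_cst]
      simp [dlist]
    rw [h1]
    exact add_self_LC _
  · have key : ∀ w ∈ lam, dG (Fl (lam.erase w) + aG (gW a w) (Fl (lam.erase w))) =
        ∑ u ∈ lam.erase w, ((Fl ((lam.erase w).erase u) +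
          aG (gW a u) (Fl ((lam.erase w).erase u))) + aG (gW a w) (Fl ((lam.erase w).erase u) +
          aG (gW a u) (Fl ((lam.erase w).erase u)))) := by
      intro w hw
      have hcw : (lam.erase w).card = m := by
        rw [Finset.card_erase_of_mem hw]; omega
      have h1 := hG.bd (lam.erase w) (F1_clique_erase hl w) hcw.le
        (Finset.card_pos.mp (by omega))
      rw [map_add, F1_dG_aG, h1, F1_R, map_sum, ← Finset.sum_add_distrib]
    rw [Finset.sum_congr rfl key]
    apply F1_sum_pairs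
    intro w hw u hu hwu
    obtain ⟨c1, c2⟩ := F1_gW_comm a G hcomm (hl hw hu hwu)
    rw [Finset.erase_right_comm]
    simp only [map_add]
    rw [F1_aG_comm c1 c2]
    abel

/-- the prescribed boundary is compatible with the exchange -/
theorem F1_R_swap {y₀ : Y} {m : ℕ}
    {Fl : Finset (WV V) → GC (Y × Y)} (hG : F1_Good G a y₀ m Fl) {lam : Finset (WV V)}
    (hl : (XG G).IsClique (lam : Set (WV V))) (hc : lam.card = m + 1) :
    mapG Prod.swap (F1_R a Fl lam) = F1_R a Fl (lam.image TW) := by
  unfold F1_R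
  rw [map_sum, Finset.sum_image fun x _ y _ h => F1_TW_inj h]
  refine Finset.sum_congr rfl fun w hw => ?_
  have hcw : (lam.erase w).card = m := by
    rw [Finset.card_erase_of_mem hw]; omega
  have h1 := hG.swap (lam.erase w) (F1_clique_erase hl w) hcw.le
  have h2 : (lam.image TW).erase (TW w) = (lam.erase w).image TW :=
    (Finset.image_erase F1_TW_inj lam w).symm
  rw [map_add, F1_swap_aG, h1, h2, F1_gW_TW]

theorem F1_Good_succ [T2Space Y] [ContractibleSpace Y] [ContinuousConstSMul Γ Y]
    (hcomm : ∀ u v, G.Adj u v → Commute (a u) (a v)) {y₀ : Y} {m : ℕ}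
    {Fl : Finset (WV V) → GC (Y × Y)} (hG : F1_Good G a y₀ m Fl) :
    ∃ Fl', F1_Good (Y := Y) G a y₀ (m + 1) Fl' := by
  classical
  have hex : ∀ lam : Finset (WV V), ∃ c : GC (Y × Y),
      ((XG G).IsClique (lam : Set (WV V)) ∧ lam.card = m + 1) →
      c ∈ F (Set.univ : Set (Y × Y)) (m + 1 + 1) ∧ dG c = F1_R a Fl lam := by
    intro lam
    by_cases h : (XG G).IsClique (lam : Set (WV V)) ∧ lam.card = m + 1
    · obtain ⟨e, he, hd⟩ := Ex_univ (X := Y × Y) (m + 1) _ (F1_R_mem hG h.1 h.2)
        (F1_R_cycle hcomm hG h.1 h.2)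
      exact ⟨e, fun _ => ⟨he, hd⟩⟩
    · exact ⟨0, fun h' => absurd h' h⟩
  choose c hcc using hex
  let sel : Finset (WV V) → Prop := fun lam => WellOrderingRel lam (lam.image TW)
  have hsel : ∀ lam : Finset (WV V), (XG G).IsClique (lam : Set (WV V)) → lam.Nonempty →
      (sel (lam.image TW) ↔ ¬ sel lam) := by
    intro lam hl hne
    show WellOrderingRel (lam.image TW) ((lam.image TW).image TW) ↔
      ¬ WellOrderingRel lam (lam.image TW)
    rw [F1_image_image]
    constructor
    · intro h h'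
      exact asymm_of WellOrderingRel h h'
    · intro h
      rcases trichotomous_of WellOrderingRel lam (lam.image TW) with h' | h' | h'
      · exact absurd h' h
      · exact absurd h' (F1_ne_image G hl hne)
      · exact h'
  let Fl' : Finset (WV V) → GC (Y × Y) := fun lam =>
    if (XG G).IsClique (lam : Set (WV V)) ∧ lam.card = m + 1 then
      (if sel lam then c lam else mapG Prod.swap (c (lam.image TW))) else Fl lam
  have hlow : ∀ lam : Finset (WV V), lam.card ≤ m → Fl' lam = Fl lam := by
    intro lam h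
    have : ¬ ((XG G).IsClique (lam : Set (WV V)) ∧ lam.card = m + 1) := fun h' => by omega
    simp only [Fl', if_neg this]
  have himc : ∀ lam : Finset (WV V), (lam.image TW).card = lam.card := fun lam =>
    Finset.card_image_of_injective _ F1_TW_inj
  have himl : ∀ lam : Finset (WV V), (XG G).IsClique (lam : Set (WV V)) ∧ lam.card = m + 1 →
      (XG G).IsClique ((lam.image TW : Finset (WV V)) : Set (WV V)) ∧
        (lam.image TW).card = m + 1 := fun lam h =>
    ⟨F1_clique_image G h.1, (himc lam).trans h.2⟩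
  have hR : ∀ lam : Finset (WV V), lam.card = m + 1 → F1_R a Fl' lam = F1_R a Fl lam := by
    intro lam h
    apply F1_R_congr
    intro w hw
    apply hlow
    rw [Finset.card_erase_of_mem hw]
    omega
  refine ⟨Fl', ⟨?_, ?_, ?_, ?_⟩⟩
  · rw [hlow ∅ (by simp), hG.zero]
  · intro lam hl hc
    rcases Nat.lt_or_ge lam.card (m + 1) with h | h
    · rw [hlow lam (by omega)]
      exact hG.mem lam hl (by omega)
    · have h' : (XG G).IsClique (lam : Set (WV V)) ∧ lam.card = m + 1 := ⟨hl, by omega⟩
      simp only [Fl', if_pos h']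
      rw [h'.2]
      split_ifs
      · exact (hcc lam h').1
      · exact mapG_mem isOpen_univ continuous_swap.continuousOn (fun _ _ => Set.mem_univ _)
          (hcc _ (himl lam h')).1
  · intro lam hl hc hne
    rcases Nat.lt_or_ge lam.card (m + 1) with h | h
    · rw [hlow lam (by omega), hG.bd lam hl (by omega) hne]
      symm
      apply F1_R_congr
      intro w hw
      apply hlow
      have := Finset.card_erase_le (s := lam) (a := w)
      omega
    · have h' : (XG G).IsClique (lam : Set (WV V)) ∧ lam.card = m + 1 := ⟨hl, by omega⟩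
      rw [hR lam h'.2]
      simp only [Fl', if_pos h']
      split_ifs
      · exact (hcc lam h').2
      · rw [dG_mapG, (hcc _ (himl lam h')).2,
          F1_R_swap hG (himl lam h').1 (himl lam h').2, F1_image_image]
  · intro lam hl hc
    rcases Nat.lt_or_ge lam.card (m + 1) with h | h
    · rw [hlow lam (by omega), hlow _ (by rw [himc]; omega)]
      exact hG.swap lam hl (by omega)
    · have h' : (XG G).IsClique (lam : Set (WV V)) ∧ lam.card = m + 1 := ⟨hl, by omega⟩
      have hne : lam.Nonempty := Finset.card_pos.mp (by omega)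
      simp only [Fl', if_pos h', if_pos (himl lam h')]
      by_cases hs : sel lam
      · rw [if_pos hs, if_neg (fun hs' => (hsel lam hl hne).mp hs' hs), F1_image_image]
      · rw [if_neg hs, if_pos ((hsel lam hl hne).mpr hs), F1_swap_swap]

end cubes

/-- module F1 (CUBES): equivariant cubes -/
theorem exists_cubes {V : Type*} [DecidableEq V] [Finite V] (G : SimpleGraph V)
    {Γ : Type*} [Group Γ] (a : V → Γ) (hcomm : ∀ u v, G.Adj u v → Commute (a u) (a v))
    {Y : Type*} [TopologicalSpace Y] [T2Space Y] [ContractibleSpace Y] [MulAction Γ Y]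
    [ContinuousConstSMul Γ Y] (y₀ : Y) :
    ∃ Fl : Finset (WV V) → GC (Y × Y), Fl ∅ = cst (bs [(y₀, y₀)]) ∧
      (∀ lam : Finset (WV V), (XG G).IsClique (lam : Set (WV V)) →
        Fl lam ∈ F (Set.univ : Set (Y × Y)) (lam.card + 1)) ∧
      (∀ lam : Finset (WV V), (XG G).IsClique (lam : Set (WV V)) → lam.Nonempty →
        dG (Fl lam) = ∑ w ∈ lam, (Fl (lam.erase w) + aG (gW a w) (Fl (lam.erase w)))) ∧
      ∀ lam : Finset (WV V), (XG G).IsClique (lam : Set (WV V)) →
        mapG Prod.swap (Fl lam) = Fl (lam.image TW) := by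
  have key : ∀ m : ℕ, ∃ Fl, F1_Good (Y := Y) G a y₀ m Fl := by
    intro m
    induction m with
    | zero => exact ⟨_, F1_Good_zero G a y₀⟩
    | succ m ih =>
      obtain ⟨Fl, hG⟩ := ih
      exact F1_Good_succ hcomm hG
  have : Fintype V := Fintype.ofFinite V
  obtain ⟨Fl, hG⟩ := key (Fintype.card (WV V))
  exact ⟨Fl, hG.zero, fun lam hl => hG.mem lam hl (Finset.card_le_univ _),
    fun lam hl hne => hG.bd lam hl (Finset.card_le_univ _) hne,
    fun lam hl => hG.swap lam hl (Finset.card_le_univ _)⟩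

end OS
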