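import Mathlib
import Pool.Agent.Lib.MP_8fe54c_gt.GrpA

/-!
# Pushing a tower of the deleted join into the configuration space

For cliques `lam` of the deleted join and a large number `R` the chain `Out lam` (a product of
partial geometric series applied to the equivariant cubes) lies in the complement of the diagonal.
-/

namespace OS

open Filter Topology Finsupp

section alg

variable {V : Type*} [DecidableEq V] {Γ : Type*} [Group Γ] (a : V → Γ)
  {Y : Type*} [MulAction Γ Y]

theorem F2_aG_one (c : GC (Y × Y)) : aG (1 : Γ × Γ) c = c := by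
  unfold aG
  have : (fun q : Y × Y => ((1 : Γ × Γ).1 • q.1, (1 : Γ × Γ).2 • q.2)) = id := by
    funext q
    simp
  rw [this, mapG_id]

theorem F2_aG_nil (g : Γ × Γ) : aG g (cst (bs ([] : List (Y × Y)))) = cst (bs []) := by
  unfold aG
  rw [mapG_cst, mapL_bs, List.map_nil]

/-- the operator of a vertex -/
noncomputable def F2_A (w : WV V) : Module.End (ZMod 2) (GC (Y × Y)) := aG (gW a w)

/-- the partial geometric series -/
noncomputable def F2_P (R : ℕ) (w : WV V) : Module.End (ZMod 2) (GC (Y × Y)) :=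
  ∑ i ∈ Finset.range R, (F2_A a w) ^ i

/-- the product of the geometric series -/
noncomputable def F2_PP (R : ℕ) (lam : Finset (WV V)) : Module.End (ZMod 2) (GC (Y × Y)) :=
  (lam.toList.map (F2_P a R)).prod

variable {a}

theorem F2_A_comm {G : SimpleGraph V} (hcomm : ∀ u v, G.Adj u v → Commute (a u) (a v))
    {lam : Finset (WV V)} (hl : (XG G).IsClique (lam : Set (WV V))) {w w' : WV V}
    (hw : w ∈ lam) (hw' : w' ∈ lam) : Commute (F2_A (Y := Y) a w) (F2_A a w') := by
  by_cases h : w = w'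
  · rw [h]
  · obtain ⟨c1, c2⟩ := F1_gW_comm a G hcomm (hl (Finset.mem_coe.mpr hw) (Finset.mem_coe.mpr hw') h)
    apply LinearMap.ext
    intro c
    exact F1_aG_comm c1 c2 c

theorem F2_P_comm {G : SimpleGraph V} (hcomm : ∀ u v, G.Adj u v → Commute (a u) (a v))
    {lam : Finset (WV V)} (hl : (XG G).IsClique (lam : Set (WV V))) (R : ℕ) {w w' : WV V}
    (hw : w ∈ lam) (hw' : w' ∈ lam) : Commute (F2_P (Y := Y) a R w) (F2_P a R w') := by
  unfold F2_P
  refine Commute.sum_left _ _ _ fun i _ => Commute.sum_right _ _ _ fun j _ => ?_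
  exact (F2_A_comm hcomm hl hw hw').pow_pow i j

theorem F2_PP_perm {G : SimpleGraph V} (hcomm : ∀ u v, G.Adj u v → Commute (a u) (a v))
    {lam : Finset (WV V)} (hl : (XG G).IsClique (lam : Set (WV V))) (R : ℕ)
    {L : List (WV V)} (hL : L.Perm lam.toList) :
    (L.map (F2_P (Y := Y) a R)).prod = F2_PP a R lam := by
  unfold F2_PP
  apply List.Perm.prod_eq' (hL.map _)
  rw [List.pairwise_map]
  apply List.pairwise_of_forall_mem_list
  intro x hx y hy
  exact F2_P_comm hcomm hl R (by simpa using hL.mem_iff.mp hx) (by simpa using hL.mem_iff.mp hy)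

theorem F2_PP_erase {G : SimpleGraph V} (hcomm : ∀ u v, G.Adj u v → Commute (a u) (a v))
    {lam : Finset (WV V)} (hl : (XG G).IsClique (lam : Set (WV V))) (R : ℕ) {w : WV V}
    (hw : w ∈ lam) : F2_PP (Y := Y) a R lam = F2_PP a R (lam.erase w) * F2_P a R w := by
  have hperm : ((lam.erase w).toList ++ [w]).Perm lam.toList := by
    have h1 : (insert w (lam.erase w)).toList.Perm (w :: (lam.erase w).toList) :=
      Finset.toList_insert (Finset.notMem_erase w lam)
    rw [Finset.insert_erase hw] at h1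
    exact (List.perm_append_singleton w _).trans h1.symm
  rw [← F2_PP_perm hcomm hl R hperm]
  simp [F2_PP]

theorem F2_PP_empty (R : ℕ) : F2_PP (Y := Y) a R ∅ = 1 := by
  simp [F2_PP]

theorem F2_dG_pow (n : ℕ) (w : WV V) (c : GC (Y × Y)) :
    dG ((F2_A a w ^ n) c) = (F2_A a w ^ n) (dG c) := by
  induction n generalizing c with
  | zero => rfl
  | succ n ih =>
    rw [pow_succ, Module.End.mul_apply, Module.End.mul_apply, ih]
    congr 1
    exact F1_dG_aG _ _

theorem F2_dG_P (R : ℕ) (w : WV V) (c : GC (Y × Y)) :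
    dG (F2_P a R w c) = F2_P a R w (dG c) := by
  unfold F2_P
  rw [LinearMap.sum_apply, LinearMap.sum_apply, map_sum]
  exact Finset.sum_congr rfl fun i _ => F2_dG_pow i w c

theorem F2_dG_prod (R : ℕ) (L : List (WV V)) (c : GC (Y × Y)) :
    dG ((L.map (F2_P a R)).prod c) = (L.map (F2_P a R)).prod (dG c) := by
  induction L generalizing c with
  | nil => rfl
  | cons w L ih =>
    rw [List.map_cons, List.prod_cons, Module.End.mul_apply, Module.End.mul_apply, F2_dG_P, ih]

theorem F2_dG_PP (R : ℕ) (lam : Finset (WV V)) (c : GC (Y × Y)) :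
    dG (F2_PP a R lam c) = F2_PP a R lam (dG c) := F2_dG_prod R _ c

/-- `P (1 + A) = 1 + A ^ R` -/
theorem F2_telescope (R : ℕ) (w : WV V) (c : GC (Y × Y)) :
    F2_P a R w (c + F2_A a w c) = c + (F2_A a w ^ R) c := by
  induction R with
  | zero =>
    simp only [F2_P, Finset.range_zero, Finset.sum_empty, LinearMap.zero_apply, pow_zero,
      Module.End.one_apply]
    exact (add_self_LC _).symm
  | succ R ih =>
    have h1 : F2_P (Y := Y) a (R + 1) w = F2_P a R w + F2_A a w ^ R := by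
      simp [F2_P, Finset.sum_range_succ]
    rw [h1, LinearMap.add_apply, ih, map_add, pow_succ, Module.End.mul_apply]
    rw [← sub_eq_zero]; abel_nf; try simp only [OS.zsmul2, OS.zsmulm2, OS.zsmul4, OS.zsmulm4,
      OS.zsmul6, OS.zsmulm6, OS.nsmul2, add_zero, zero_add]

theorem F2_swap_A (w : WV V) (c : GC (Y × Y)) :
    mapG Prod.swap (F2_A a w c) = F2_A a (TW w) (mapG Prod.swap c) := by
  unfold F2_A
  rw [F1_swap_aG, F1_gW_TW]

theorem F2_swap_pow (n : ℕ) (w : WV V) (c : GC (Y × Y)) :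
    mapG Prod.swap ((F2_A a w ^ n) c) = (F2_A a (TW w) ^ n) (mapG Prod.swap c) := by
  induction n generalizing c with
  | zero => rfl
  | succ n ih =>
    rw [pow_succ, pow_succ, Module.End.mul_apply, Module.End.mul_apply, ih, F2_swap_A]

theorem F2_swap_P (R : ℕ) (w : WV V) (c : GC (Y × Y)) :
    mapG Prod.swap (F2_P a R w c) = F2_P a R (TW w) (mapG Prod.swap c) := by
  unfold F2_P
  rw [LinearMap.sum_apply, LinearMap.sum_apply, map_sum]
  exact Finset.sum_congr rfl fun i _ => F2_swap_pow i w c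

theorem F2_swap_prod (R : ℕ) (L : List (WV V)) (c : GC (Y × Y)) :
    mapG Prod.swap ((L.map (F2_P a R)).prod c) =
      ((L.map TW).map (F2_P a R)).prod (mapG Prod.swap c) := by
  induction L generalizing c with
  | nil => rfl
  | cons w L ih =>
    rw [List.map_cons, List.map_cons, List.map_cons, List.prod_cons, List.prod_cons,
      Module.End.mul_apply, Module.End.mul_apply, F2_swap_P, ih]

theorem F2_swap_PP {G : SimpleGraph V} (hcomm : ∀ u v, G.Adj u v → Commute (a u) (a v))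
    {lam : Finset (WV V)} (hl : (XG G).IsClique (lam : Set (WV V))) (R : ℕ) (c : GC (Y × Y)) :
    mapG Prod.swap (F2_PP a R lam c) = F2_PP a R (lam.image TW) (mapG Prod.swap c) := by
  unfold F2_PP
  rw [F2_swap_prod]
  have hperm : (lam.toList.map TW).Perm (lam.image TW).toList := by
    apply (List.perm_ext_iff_of_nodup _ (Finset.nodup_toList _)).mpr
    · intro x
      simp
    · exact (Finset.nodup_toList lam).map F1_TW_inj
  rw [F2_PP_perm hcomm (F1_clique_image G hl) R hperm]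
  rfl

end alg

section out

variable {V : Type*} [DecidableEq V] {Γ : Type*} [Group Γ] (a : V → Γ)
  {Y : Type*} [MulAction Γ Y] (Fl : Finset (WV V) → GC (Y × Y)) (R : ℕ)

/-- products of geometric series applied to the cubes -/
noncomputable def F2_Q (lam : Finset (WV V)) : GC (Y × Y) := F2_PP a R lam (Fl lam)

/-- the outer faces -/
noncomputable def F2_Out (lam : Finset (WV V)) : GC (Y × Y) :=
  if lam = ∅ then cst (bs []) else ∑ w ∈ lam, (F2_A a w ^ R) (F2_Q a Fl R (lam.erase w))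

variable {a Fl}

theorem F2_dG_Q {G : SimpleGraph V} (hcomm : ∀ u v, G.Adj u v → Commute (a u) (a v))
    {lam : Finset (WV V)} (hl : (XG G).IsClique (lam : Set (WV V)))
    (hd : dG (Fl lam) = ∑ w ∈ lam, (Fl (lam.erase w) + aG (gW a w) (Fl (lam.erase w)))) :
    dG (F2_Q a Fl R lam) = ∑ w ∈ lam, (F2_Q a Fl R (lam.erase w) +
      (F2_A a w ^ R) (F2_Q a Fl R (lam.erase w))) := by
  unfold F2_Q
  rw [F2_dG_PP, hd, map_sum]
  refine Finset.sum_congr rfl fun w hw => ?_
  rw [F2_PP_erase hcomm hl R hw, Module.End.mul_apply]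
  have h1 := F2_telescope (a := a) R w (Fl (lam.erase w))
  have h2 : F2_P a R w (Fl (lam.erase w) + aG (gW a w) (Fl (lam.erase w))) =
      Fl (lam.erase w) + (F2_A a w ^ R) (Fl (lam.erase w)) := h1
  rw [h2, map_add]
  congr 1
  -- commute PP(erase) with A^R
  have hc : Commute (F2_PP (Y := Y) a R (lam.erase w)) (F2_A a w ^ R) := by
    unfold F2_PP
    apply Commute.list_prod_left
    intro x hx
    obtain ⟨u, hu, rfl⟩ := List.mem_map.mp hx
    have hu' : u ∈ lam := Finset.mem_of_mem_erase (by simpa using hu)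
    unfold F2_P
    exact Commute.sum_left _ _ _ fun i _ => (F2_A_comm hcomm hl hu' hw).pow_pow i R
  exact congrArg (fun f => f (Fl (lam.erase w))) hc.eq

theorem F2_dG_Out {G : SimpleGraph V} (hcomm : ∀ u v, G.Adj u v → Commute (a u) (a v))
    {y : Y × Y} (h0 : Fl ∅ = cst (bs [y]))
    (hd : ∀ lam : Finset (WV V), (XG G).IsClique (lam : Set (WV V)) → lam.Nonempty →
        dG (Fl lam) = ∑ w ∈ lam, (Fl (lam.erase w) + aG (gW a w) (Fl (lam.erase w))))
    {lam : Finset (WV V)} (hl : (XG G).IsClique (lam : Set (WV V))) (hne : lam.Nonempty) :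
    dG (F2_Out a Fl R lam) = ∑ w ∈ lam, F2_Out a Fl R (lam.erase w) := by
  classical
  rcases Nat.lt_or_ge lam.card 2 with hc | hc
  · have hc1 : lam.card = 1 := by
      have := Finset.card_pos.mpr hne
      omega
    obtain ⟨w, rfl⟩ := Finset.card_eq_one.mp hc1
    rw [F2_Out, if_neg (Finset.singleton_ne_empty w), Finset.sum_singleton, Finset.sum_singleton,
      Finset.erase_singleton, F2_dG_pow, F2_Out, if_pos rfl, F2_Q, F2_PP_empty,
      Module.End.one_apply, h0, dG_cst, dL_bs]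
    have : dlist [y] = (bs [] : LC (Y × Y)) := by simp [dlist]
    rw [this]
    clear hc hl this hc1
    induction R with
    | zero => rfl
    | succ n ih =>
      rw [pow_succ, Module.End.mul_apply]
      have : F2_A a w (cst (bs ([] : List (Y × Y)))) = cst (bs []) := F2_aG_nil _
      rw [this, ih]
  · have hner : ∀ w ∈ lam, (lam.erase w).Nonempty := by
      intro w hw
      rw [← Finset.card_pos, Finset.card_erase_of_mem hw]
      omega
    have hL : dG (F2_Out a Fl R lam) = ∑ w ∈ lam, ∑ u ∈ lam.erase w,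
        ((F2_A a w ^ R) (F2_Q a Fl R ((lam.erase w).erase u)) +
          (F2_A a w ^ R) ((F2_A a u ^ R) (F2_Q a Fl R ((lam.erase w).erase u)))) := by
      rw [F2_Out, if_neg hne.ne_empty, map_sum]
      refine Finset.sum_congr rfl fun w hw => ?_
      rw [F2_dG_pow, F2_dG_Q R hcomm (F1_clique_erase hl w)
        (hd _ (F1_clique_erase hl w) (hner w hw)), map_sum]
      refine Finset.sum_congr rfl fun u hu => ?_
      rw [map_add]
    rw [hL]
    have h2 : ∑ w ∈ lam, ∑ u ∈ lam.erase w,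
        (F2_A a w ^ R) ((F2_A a u ^ R) (F2_Q a Fl R ((lam.erase w).erase u))) = 0 := by
      apply F1_sum_pairs
      intro w hw u hu hne
      rw [Finset.erase_right_comm]
      have hc := (F2_A_comm (Y := Y) hcomm hl hw hu).pow_pow R R
      exact congrArg (fun f => f (F2_Q a Fl R ((lam.erase u).erase w))) hc.eq
    simp only [Finset.sum_add_distrib]
    rw [h2, add_zero]
    have h3 : ∀ w ∈ lam, F2_Out a Fl R (lam.erase w) = ∑ u ∈ lam.erase w,
        (F2_A a u ^ R) (F2_Q a Fl R ((lam.erase w).erase u)) := by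
      intro w hw
      rw [F2_Out, if_neg (hner w hw).ne_empty]
    rw [Finset.sum_congr rfl h3]
    rw [Finset.sum_sigma', Finset.sum_sigma']
    refine Finset.sum_bij' (fun p _ => ⟨p.2, p.1⟩) (fun p _ => ⟨p.2, p.1⟩) ?_ ?_ ?_ ?_ ?_
    · rintro ⟨w, u⟩ hp
      simp only [Finset.mem_sigma, Finset.mem_erase] at hp ⊢
      exact ⟨hp.2.2, Ne.symm hp.2.1, hp.1⟩
    · rintro ⟨w, u⟩ hp
      simp only [Finset.mem_sigma, Finset.mem_erase] at hp ⊢
      exact ⟨hp.2.2, Ne.symm hp.2.1, hp.1⟩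
    · rintro ⟨w, u⟩ _
      rfl
    · rintro ⟨w, u⟩ _
      rfl
    · rintro ⟨w, u⟩ _
      simp only
      rw [Finset.erase_right_comm]

theorem F2_swap_Out {G : SimpleGraph V} (hcomm : ∀ u v, G.Adj u v → Commute (a u) (a v))
    (hs : ∀ lam : Finset (WV V), (XG G).IsClique (lam : Set (WV V)) →
        mapG Prod.swap (Fl lam) = Fl (lam.image TW))
    {lam : Finset (WV V)} (hl : (XG G).IsClique (lam : Set (WV V))) :
    mapG Prod.swap (F2_Out a Fl R lam) = F2_Out a Fl R (lam.image TW) := by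
  unfold F2_Out
  by_cases h : lam = ∅
  · subst h
    rw [if_pos rfl, Finset.image_empty, if_pos rfl, mapG_cst, mapL_bs, List.map_nil]
  · rw [if_neg h, if_neg (fun h' => h (Finset.image_eq_empty.mp h')), map_sum,
      Finset.sum_image (fun x _ y _ hxy => F1_TW_inj hxy)]
    refine Finset.sum_congr rfl fun w hw => ?_
    rw [F2_swap_pow]
    congr 1
    unfold F2_Q
    rw [F2_swap_PP hcomm (F1_clique_erase hl w), hs _ (F1_clique_erase hl w),
      Finset.image_erase F1_TW_inj]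

end out

section push

variable {V : Type*} [DecidableEq V] {Γ : Type*} [Group Γ] (a : V → Γ)
  {Y : Type*} [MulAction Γ Y]

/-- translates of `c` by elements of weight at least `n` -/
noncomputable def F2_M (Φ : Γ × Γ → ℤ) (c : GC (Y × Y)) (n : ℤ) :
    Submodule (ZMod 2) (GC (Y × Y)) :=
  Submodule.span (ZMod 2) {x | ∃ g : Γ × Γ, n ≤ Φ g ∧ x = aG g c}

theorem F2_M_mono {Φ : Γ × Γ → ℤ} {c : GC (Y × Y)} {n n' : ℤ} (h : n ≤ n') :
    F2_M Φ c n' ≤ F2_M Φ c n := by
  apply Submodule.span_mono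
  rintro x ⟨g, hg, rfl⟩
  exact ⟨g, h.trans hg, rfl⟩

variable {a}

theorem F2_M_A {Φ : Γ × Γ → ℤ} (hΦ : ∀ g h, Φ (g * h) = Φ g + Φ h) {c : GC (Y × Y)} {n : ℤ}
    {w : WV V} (hw : 1 ≤ Φ (gW a w)) {x : GC (Y × Y)} (hx : x ∈ F2_M Φ c n) :
    F2_A a w x ∈ F2_M Φ c (n + 1) := by
  induction hx using Submodule.span_induction with
  | mem x hx =>
    obtain ⟨g, hg, rfl⟩ := hx
    apply Submodule.subset_span
    refine ⟨gW a w * g, ?_, ?_⟩
    · rw [hΦ]
      omega
    · exact F1_aG_aG _ _ _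
  | zero => rw [map_zero]; exact Submodule.zero_mem _
  | add x y _ _ hx hy => rw [map_add]; exact Submodule.add_mem _ hx hy
  | smul m x _ hx => rw [map_smul]; exact Submodule.smul_mem _ _ hx

theorem F2_M_pow {Φ : Γ × Γ → ℤ} (hΦ : ∀ g h, Φ (g * h) = Φ g + Φ h) {c : GC (Y × Y)} {n : ℤ}
    {w : WV V} (hw : 1 ≤ Φ (gW a w)) (i : ℕ) {x : GC (Y × Y)} (hx : x ∈ F2_M Φ c n) :
    (F2_A a w ^ i) x ∈ F2_M Φ c (n + i) := by
  induction i generalizing x n with
  | zero => simpa using hx
  | succ i ih =>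
    rw [pow_succ, Module.End.mul_apply]
    have := ih (F2_M_A hΦ hw hx)
    have h2 : n + 1 + (i : ℤ) = n + ((i + 1 : ℕ) : ℤ) := by push_cast; ring
    rwa [h2] at this

theorem F2_M_P {Φ : Γ × Γ → ℤ} (hΦ : ∀ g h, Φ (g * h) = Φ g + Φ h) {c : GC (Y × Y)} {n : ℤ}
    {w : WV V} (hw : 1 ≤ Φ (gW a w)) (R : ℕ) {x : GC (Y × Y)} (hx : x ∈ F2_M Φ c n) :
    F2_P a R w x ∈ F2_M Φ c n := by
  unfold F2_P
  rw [LinearMap.sum_apply]
  refine Submodule.sum_mem _ fun i _ => ?_
  exact F2_M_mono (by omega) (F2_M_pow hΦ hw i hx)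

theorem F2_M_prod {Φ : Γ × Γ → ℤ} (hΦ : ∀ g h, Φ (g * h) = Φ g + Φ h) {c : GC (Y × Y)} {n : ℤ}
    (R : ℕ) (L : List (WV V)) (hL : ∀ w ∈ L, 1 ≤ Φ (gW a w)) {x : GC (Y × Y)}
    (hx : x ∈ F2_M Φ c n) : (L.map (F2_P a R)).prod x ∈ F2_M Φ c n := by
  induction L with
  | nil => simpa using hx
  | cons w L ih =>
    rw [List.map_cons, List.prod_cons, Module.End.mul_apply]
    exact F2_M_P hΦ (hL w List.mem_cons_self) R (ih fun u hu => hL u (List.mem_cons_of_mem _ hu))

theorem F2_isOpen_EE [TopologicalSpace Y] [T2Space Y] : IsOpen (EE Y) := by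
  have : EE Y = (Set.diagonal Y)ᶜ := by
    ext q
    simp [EE, Set.mem_diagonal_iff]
  rw [this]
  exact isClosed_diagonal.isOpen_compl

/-- translates by elements of large weight miss the diagonal -/
theorem F2_far [TopologicalSpace Y] [T2Space Y] [ContinuousConstSMul Γ Y] {Φ : Γ × Γ → ℤ}
    {C : Set Y} {R : ℕ}
    (hfar : ∀ g : Γ × Γ, (R : ℤ) ≤ Φ g → ∀ x ∈ C, ∀ x' ∈ C, g.1 • x ≠ g.2 • x')
    {c : GC (Y × Y)} {l : ℕ} (hc : c ∈ F (C ×ˢ C) l) {x : GC (Y × Y)}
    (hx : x ∈ F2_M Φ c R) : x ∈ F (EE Y) l := by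
  refine (Submodule.span_le.mpr ?_ : F2_M Φ c R ≤ F (EE Y) l) hx
  rintro x ⟨g, hg, rfl⟩
  have hcont : Continuous (fun q : Y × Y => (g.1 • q.1, g.2 • q.2)) :=
    (continuous_fst.const_smul g.1).prodMk (continuous_snd.const_smul g.2)
  refine mapG_mem (U := (fun q : Y × Y => (g.1 • q.1, g.2 • q.2)) ⁻¹' (EE Y))
    (F2_isOpen_EE.preimage hcont) hcont.continuousOn (fun q hq => hq) ?_
  refine F_mono ?_ hc
  rintro ⟨x, x'⟩ ⟨hx, hx'⟩
  exact hfar g hg x hx x' hx'

theorem F2_Out_mem [TopologicalSpace Y] [T2Space Y] [ContinuousConstSMul Γ Y] {Φ : Γ × Γ → ℤ}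
    (hΦ : ∀ g h, Φ (g * h) = Φ g + Φ h) {Fl : Finset (WV V) → GC (Y × Y)} {C : Set Y} {R : ℕ}
    (hfar : ∀ g : Γ × Γ, (R : ℤ) ≤ Φ g → ∀ x ∈ C, ∀ x' ∈ C, g.1 • x ≠ g.2 • x')
    {lam : Finset (WV V)} (hne : lam.Nonempty) (hlam : ∀ w ∈ lam, 1 ≤ Φ (gW a w))
    (hFl : ∀ w ∈ lam, Fl (lam.erase w) ∈ F (C ×ˢ C) lam.card) :
    F2_Out a Fl R lam ∈ F (EE Y) lam.card := by
  rw [F2_Out, if_neg hne.ne_empty]
  refine Submodule.sum_mem _ fun w hw => ?_
  refine F2_far hfar (hFl w hw) ?_
  have h1 : Φ (1 : Γ × Γ) = 0 := by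
    have := hΦ 1 1
    rw [one_mul] at this
    omega
  have h2 : Fl (lam.erase w) ∈ F2_M Φ (Fl (lam.erase w)) 0 := by
    apply Submodule.subset_span
    exact ⟨1, h1.ge, (F2_aG_one _).symm⟩
  have h3 : F2_Q a Fl R (lam.erase w) ∈ F2_M Φ (Fl (lam.erase w)) 0 :=
    F2_M_prod hΦ R _ (fun u hu => hlam u (Finset.mem_of_mem_erase (by simpa using hu))) h2
  have h4 := F2_M_pow hΦ (hlam w hw) R h3
  rwa [zero_add] at h4

/-- fine germs are supported in the square of a compact set -/
theorem F2_exists_compact [TopologicalSpace Y] {c : GC (Y × Y)} {l : ℕ}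
    (hc : c ∈ F (Set.univ : Set (Y × Y)) l) : ∃ C : Set Y, IsCompact C ∧ c ∈ F (C ×ˢ C) l := by
  obtain ⟨r, ⟨K, hK, _, h1, h2⟩, rfl⟩ := hc
  refine ⟨Prod.fst '' K ∪ Prod.snd '' K,
    (hK.image continuous_fst).union (hK.image continuous_snd), r, ⟨K, hK, ?_, h1, h2⟩, rfl⟩
  intro q hq
  exact ⟨Or.inl ⟨q, hq, rfl⟩, Or.inr ⟨q, hq, rfl⟩⟩

end push

/-- the sign of a vertex of the deleted join -/
def F2_eps {V : Type*} (w : WV V) : ℤ := if xor w.2.1 w.2.2 then -1 else 1

theorem F2_eps_clique {V : Type*} {G : SimpleGraph V} {w w' : WV V}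
    (h : w = w' ∨ (XG G).Adj w w') (hv : w.1 = w'.1) : F2_eps w = F2_eps w' := by
  obtain ⟨v, s, i⟩ := w
  obtain ⟨v', s', i'⟩ := w'
  simp only at hv
  subst hv
  rcases h with h | ⟨h1, h2⟩ | ⟨h1, h2⟩
  · rw [h]
  · exact absurd h2 (G.irrefl)
  · simp only [ne_eq, Prod.mk.injEq, true_and] at h1 h2
    cases s <;> cases s' <;> cases i <;> cases i' <;> simp_all [F2_eps]

/-- module F2 (PUSHT), general form: `ab (a v)` is a positive multiple of the basis vector -/
theorem push_tower' {V : Type*} [DecidableEq V] [Finite V] (G : SimpleGraph V) (m : ℕ)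
    (hT : HasTower G m) {Γ : Type*} [Group Γ] (a : V → Γ)
    (hcomm : ∀ u v, G.Adj u v → Commute (a u) (a v)) (N : V → ℤ) (hN : ∀ v, 1 ≤ N v)
    (ab : Γ →* Multiplicative (V → ℤ))
    (hab : ∀ v, ab (a v) = Multiplicative.ofAdd (Pi.single v (N v)))
    {Y : Type*} [TopologicalSpace Y] [T2Space Y] [ContractibleSpace Y] [MulAction Γ Y]
    [ContinuousConstSMul Γ Y] [ProperlyDiscontinuousSMul Γ Y] :
    ∃ u : ℕ → GC (Y × Y), (∀ i ≤ m, u i ∈ F (EE Y) (i + 1)) ∧ dG (u 0) = cst (bs []) ∧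
      ∀ i < m, dG (u (i + 1)) = u i + mapG Prod.swap (u i) := by
  classical
  have hfin := Fintype.ofFinite V
  obtain ⟨y₀⟩ : Nonempty Y := inferInstance
  obtain ⟨Fl, hF0, hFm, hFd, hFs⟩ := exists_cubes G a hcomm y₀
  -- a compact set
  have hC : ∀ lam : Finset (WV V), ∃ C : Set Y, IsCompact C ∧
      ((XG G).IsClique (lam : Set (WV V)) → Fl lam ∈ F (C ×ˢ C) (lam.card + 1)) := by
    intro lam
    by_cases hl : (XG G).IsClique (lam : Set (WV V))
    · obtain ⟨C, h1, h2⟩ := F2_exists_compact (hFm lam hl)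
      exact ⟨C, h1, fun _ => h2⟩
    · exact ⟨∅, isCompact_empty, fun h => absurd h hl⟩
  choose C hCc hCF using hC
  let K : Set Y := ⋃ lam, C lam
  have hK : IsCompact K := isCompact_iUnion hCc
  have hFlK : ∀ lam : Finset (WV V), (XG G).IsClique (lam : Set (WV V)) →
      Fl lam ∈ F (K ×ˢ K) (lam.card + 1) := by
    intro lam hl
    exact F_mono (Set.prod_mono (Set.subset_iUnion C lam) (Set.subset_iUnion C lam)) (hCF lam hl)
  -- the bound
  let nrm : Γ → ℤ := fun g => ∑ v, |Multiplicative.toAdd (ab g) v|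
  have hbound : ∃ R : ℕ, ∀ g : Γ, (∃ x ∈ K, g • x ∈ K) → nrm g < R := by
    have hfinite : {g : Γ | ((g • ·) '' K ∩ K).Nonempty}.Finite := by
      have := ProperlyDiscontinuousSMul.finite_disjoint_inter_image (Γ := Γ) hK hK
      simpa [Set.nonempty_iff_ne_empty] using this
    obtain ⟨B, hB⟩ := (hfinite.image nrm).bddAbove
    refine ⟨(B + 1).toNat, fun g hg => ?_⟩
    obtain ⟨x, hx, hgx⟩ := hg
    have := hB ⟨g, ⟨g • x, ⟨x, hx, rfl⟩, hgx⟩, rfl⟩
    omega
  obtain ⟨R, hR⟩ := hbound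
  -- membership of the outer faces
  have hOut : ∀ lam : Finset (WV V), (XG G).IsClique (lam : Set (WV V)) → lam.Nonempty →
      F2_Out a Fl R lam ∈ F (EE Y) lam.card := by
    intro lam hl hne
    let σ : V → ℤ := fun v => if h : ∃ w ∈ lam, w.1 = v then F2_eps h.choose else 1
    have hσ : ∀ w ∈ lam, σ w.1 = F2_eps w := by
      intro w hw
      have h : ∃ w' ∈ lam, w'.1 = w.1 := ⟨w, hw, rfl⟩
      show (if h : ∃ w' ∈ lam, w'.1 = w.1 then F2_eps h.choose else 1) = _
      rw [dif_pos h]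
      obtain ⟨h1, h2⟩ := h.choose_spec
      apply F2_eps_clique (G := G) _ h2
      by_cases he : h.choose = w
      · exact Or.inl he
      · exact Or.inr (hl (Finset.mem_coe.mpr h1) (Finset.mem_coe.mpr hw) he)
    have hσ1 : ∀ v, |σ v| ≤ 1 := by
      intro v
      show |(if h : ∃ w' ∈ lam, w'.1 = v then F2_eps h.choose else 1)| ≤ 1
      split_ifs with h
      · unfold F2_eps
        split_ifs <;> simp
      · simp
    let Φ : Γ × Γ → ℤ := fun g =>
      ∑ v, σ v * (Multiplicative.toAdd (ab g.1) v - Multiplicative.toAdd (ab g.2) v)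
    have hΦ : ∀ g h, Φ (g * h) = Φ g + Φ h := by
      intro g h
      show ∑ v, _ = ∑ v, _ + ∑ v, _
      rw [← Finset.sum_add_distrib]
      refine Finset.sum_congr rfl fun v _ => ?_
      rw [Prod.fst_mul, Prod.snd_mul, map_mul ab, map_mul ab, toAdd_mul, toAdd_mul, Pi.add_apply,
        Pi.add_apply]
      ring
    have hΦw : ∀ w ∈ lam, 1 ≤ Φ (gW a w) := by
      intro w hw
      have h1 : ∀ v, Multiplicative.toAdd (ab (gW a w).1) v -
          Multiplicative.toAdd (ab (gW a w).2) v = if v = w.1 then F2_eps w * N w.1 else 0 := by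
        intro v
        obtain ⟨x, s, i⟩ := w
        cases s <;> cases i <;>
          simp [gW, F2_eps, hab, Pi.single_apply] <;> split_ifs <;> simp_all
      show 1 ≤ ∑ v, σ v * (Multiplicative.toAdd (ab (gW a w).1) v -
          Multiplicative.toAdd (ab (gW a w).2) v)
      simp only [h1, mul_ite, mul_zero, Finset.sum_ite_eq', Finset.mem_univ, if_true]
      rw [hσ w hw]
      have h2 : F2_eps w * F2_eps w = 1 := by
        unfold F2_eps
        split_ifs <;> simp
      rw [← mul_assoc, h2, one_mul]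
      exact hN _
    apply F2_Out_mem (Φ := Φ) hΦ (C := K) _ hne hΦw
    · intro w hw
      have := hFlK _ (F1_clique_erase hl w)
      rw [Finset.card_erase_of_mem hw] at this
      have hpos := Finset.card_pos.mpr hne
      rwa [Nat.sub_add_cancel (by omega)] at this
    · intro g hg x hx x' hx' heq
      have h1 : (g.2⁻¹ * g.1) • x ∈ K := by
        rw [mul_smul, heq, inv_smul_smul]
        exact hx'
      have h2 := hR _ ⟨x, hx, h1⟩
      have h3 : Φ g ≤ nrm (g.2⁻¹ * g.1) := by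
        show ∑ v, _ ≤ ∑ v, _
        refine Finset.sum_le_sum fun v _ => ?_
        rw [map_mul ab, map_inv ab, toAdd_mul, toAdd_inv, Pi.add_apply, Pi.neg_apply]
        calc σ v * (Multiplicative.toAdd (ab g.1) v - Multiplicative.toAdd (ab g.2) v)
            ≤ |σ v * (Multiplicative.toAdd (ab g.1) v - Multiplicative.toAdd (ab g.2) v)| :=
              le_abs_self _
          _ = |σ v| * |Multiplicative.toAdd (ab g.1) v - Multiplicative.toAdd (ab g.2) v| :=
              abs_mul _ _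
          _ ≤ 1 * |Multiplicative.toAdd (ab g.1) v - Multiplicative.toAdd (ab g.2) v| := by
              exact mul_le_mul_of_nonneg_right (hσ1 v) (abs_nonneg _)
          _ = |-Multiplicative.toAdd (ab g.2) v + Multiplicative.toAdd (ab g.1) v| := by
              rw [one_mul]; congr 1; ring
      omega
  -- the tower
  obtain ⟨u, hu1, hu2, hu3⟩ := hT
  let Lin : SC (WV V) →ₗ[ZMod 2] GC (Y × Y) := Finsupp.linearCombination (ZMod 2) (F2_Out a Fl R)
  have hLin : ∀ c : SC (WV V), Lin c = ∑ lam ∈ c.support, c lam • F2_Out a Fl R lam :=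
    fun c => rfl
  have hLs : ∀ lam : Finset (WV V), Lin (Finsupp.single lam 1) = F2_Out a Fl R lam := by
    intro lam
    simp [Lin]
  have hdS : ∀ c : SC (WV V), (∀ s ∈ c.support, (XG G).IsClique (s : Set (WV V)) ∧ s.Nonempty) →
      dG (Lin c) = Lin (dS c) := by
    intro c hc
    have h1 : dS c = ∑ lam ∈ c.support, c lam • dfin lam := by
      simp [dS, Finsupp.sum]
    rw [h1, hLin, map_sum, map_sum]
    refine Finset.sum_congr rfl fun lam hlam => ?_
    rw [map_smul, map_smul, F2_dG_Out R hcomm hF0 hFd (hc lam hlam).1 (hc lam hlam).2]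
    unfold dfin
    rw [map_sum]
    simp only [hLs]
  have hsw : ∀ c : SC (WV V), (∀ s ∈ c.support, (XG G).IsClique (s : Set (WV V))) →
      mapG Prod.swap (Lin c) = Lin (mapS TW c) := by
    intro c hc
    have h1 : mapS TW c = ∑ lam ∈ c.support, c lam • Finsupp.single (lam.image TW) 1 := by
      rw [mapS, Finsupp.lmapDomain_apply, Finsupp.mapDomain, Finsupp.sum]
      refine Finset.sum_congr rfl fun lam _ => ?_
      simp
    rw [h1, hLin, map_sum, map_sum]
    refine Finset.sum_congr rfl fun lam hlam => ?_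
    rw [map_smul, map_smul, F2_swap_Out R hcomm hFs (hc lam hlam), hLs]
  refine ⟨fun i => Lin (u i), fun i hi => ?_, ?_, fun i hi => ?_⟩
  · show Lin (u i) ∈ _
    rw [hLin]
    refine Submodule.sum_mem _ fun lam hlam => Submodule.smul_mem _ _ ?_
    obtain ⟨h1, h2⟩ := hu1 i hi lam hlam
    have h3 := hOut lam h1 (Finset.card_pos.mp (by omega))
    rwa [h2] at h3
  · show dG (Lin (u 0)) = _
    rw [hdS (u 0) (fun s hs => ⟨(hu1 0 (Nat.zero_le _) s hs).1,
      Finset.card_pos.mp (by have := (hu1 0 (Nat.zero_le _) s hs).2; omega)⟩), hu2, hLs]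
    unfold F2_Out
    rw [if_pos rfl]
  · show dG (Lin (u (i + 1))) = Lin (u i) + mapG Prod.swap (Lin (u i))
    rw [hdS (u (i + 1)) (fun s hs => ⟨(hu1 (i + 1) hi s hs).1,
      Finset.card_pos.mp (by have := (hu1 (i + 1) hi s hs).2; omega)⟩), hu3 i hi, map_add,
      hsw (u i) (fun s hs => (hu1 i hi.le s hs).1)]

/-- module F2 (PUSHT): file GrpB.lean -/
theorem push_tower {V : Type*} [DecidableEq V] [Finite V] (G : SimpleGraph V) (m : ℕ)
    (hT : HasTower G m) {Γ : Type*} [Group Γ] (a : V → Γ)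
    (hcomm : ∀ u v, G.Adj u v → Commute (a u) (a v))
    (ab : Γ →* Multiplicative (V → ℤ)) (hab : ∀ v, ab (a v) = Multiplicative.ofAdd (Pi.single v 1))
    {Y : Type*} [TopologicalSpace Y] [T2Space Y] [ContractibleSpace Y] [MulAction Γ Y]
    [ContinuousConstSMul Γ Y] [ProperlyDiscontinuousSMul Γ Y] :
    ∃ u : ℕ → GC (Y × Y), (∀ i ≤ m, u i ∈ F (EE Y) (i + 1)) ∧ dG (u 0) = cst (bs []) ∧
      ∀ i < m, dG (u (i + 1)) = u i + mapG Prod.swap (u i) :=
  push_tower' G m hT a hcomm (fun _ => 1) (fun _ => le_rfl) ab hab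

end OS
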