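import Mathlib

/-!
# Free resolutions of finite type with bases, square summable harmonic chains
-/

namespace OS

open Finsupp

universe u v w

section act

variable {Γ : Type v} {X : Type u} [Group Γ] [MulAction Γ X]

/-- the action of a group element on integral chains -/
noncomputable def gact (g : Γ) : (X →₀ ℤ) →ₗ[ℤ] (X →₀ ℤ) :=
  Finsupp.lmapDomain ℤ ℤ (fun x => g • x)

theorem gact_single (g : Γ) (x : X) (n : ℤ) : gact g (single x n) = single (g • x) n := by
  simp [gact]

theorem gact_one (c : X →₀ ℤ) : gact (1 : Γ) c = c := by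
  induction c using Finsupp.induction_linear with
  | zero => simp
  | add a b ha hb => rw [map_add, ha, hb]
  | single x n => rw [gact_single, one_smul]

theorem gact_mul (g h : Γ) (c : X →₀ ℤ) : gact (g * h) c = gact g (gact h c) := by
  induction c using Finsupp.induction_linear with
  | zero => simp
  | add a b ha hb => simp only [map_add, ha, hb]
  | single x n => rw [gact_single, gact_single, gact_single, mul_smul]

theorem gact_apply (g : Γ) (c : X →₀ ℤ) (x : X) : gact g c x = c (g⁻¹ • x) := by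
  have h : x = g • (g⁻¹ • x) := (smul_inv_smul g x).symm
  unfold gact
  rw [Finsupp.lmapDomain_apply]
  conv_lhs => rw [h]
  exact Finsupp.mapDomain_apply (MulAction.injective g) c (g⁻¹ • x)

end act

/-- A resolution of the trivial module `ℤ` of a group `Γ` by free modules with bases of finite
type: `X k` is the set of the (oriented) `k`-cells, a free `Γ`-set with finitely many orbits. -/
structure FreeRes (Γ : Type v) [Group Γ] where
  /-- the cells -/
  X : ℕ → Type u
  /-- the action on the cells -/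
  act : ∀ k, MulAction Γ (X k)
  /-- the action is free -/
  free : ∀ k (g : Γ) (x : X k), g • x = x → g = 1
  /-- there are finitely many orbits -/
  fin : ∀ k, ∃ s : Finset (X k), ∀ x, ∃ g : Γ, ∃ y ∈ s, g • y = x
  /-- the boundary operators -/
  d : ∀ k, (X (k + 1) →₀ ℤ) →ₗ[ℤ] (X k →₀ ℤ)
  /-- the augmentation -/
  eps : (X 0 →₀ ℤ) →ₗ[ℤ] ℤ
  d_act : ∀ k (g : Γ) c, d k (gact g c) = gact g (d k c)
  eps_act : ∀ (g : Γ) c, eps (gact g c) = eps c
  eps_surj : ∃ c, eps c = 1
  eps_d : ∀ c, eps (d 0 c) = 0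
  d_d : ∀ k c, d k (d (k + 1) c) = 0
  exact0 : ∀ c, eps c = 0 → ∃ b, d 0 b = c
  exact : ∀ k c, d k c = 0 → ∃ b, d (k + 1) b = c

attribute [instance] FreeRes.act

namespace FreeRes

variable {Γ : Type v} [Group Γ] (R : FreeRes.{u, v} Γ) {K : Type w} [RCLike K]

/-- coefficient of the `k`-cell `y` in the boundary of the `(k+1)`-cell `x` -/
noncomputable def coef (k : ℕ) (x : R.X (k + 1)) (y : R.X k) : ℤ := R.d k (single x 1) y

/-- `ξ` is orthogonal to the boundaries of all `(k+1)`-cells -/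
def IsCocyc (k : ℕ) (ξ : R.X k → K) : Prop :=
  ∀ z : R.X (k + 1), ∑ᶠ x : R.X k, (R.coef k z x : K) * ξ x = 0

/-- the (infinite) chain `ξ` is a cycle; no condition in degree zero -/
def IsCyc : (k : ℕ) → (R.X k → K) → Prop
  | 0, _ => True
  | k + 1, ξ => ∀ y : R.X k, ∑ᶠ x : R.X (k + 1), (R.coef k x y : K) * ξ x = 0

/-- square summable harmonic chains -/
structure IsHarm (k : ℕ) (ξ : R.X k → K) : Prop where
  sq : Summable fun x => ‖ξ x‖ ^ 2
  cocyc : R.IsCocyc k ξ
  cyc : R.IsCyc k ξ

/-- there are no nonzero harmonic square summable `k`-chains, over the scalars `K` -/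
def HarmZero (K : Type w) [RCLike K] (k : ℕ) : Prop := ∀ ξ : R.X k → K, R.IsHarm k ξ → ξ = 0

/-- The reduced square summable homology in degree `k` (complex scalars) is zero: every square
summable cycle can be approximated in the square norm by boundaries of finite chains. -/
def RedZero (k : ℕ) : Prop :=
  ∀ ξ : R.X k → ℂ, (Summable fun x => ‖ξ x‖ ^ 2) → R.IsCyc k ξ → ∀ e > 0,
    ∃ c : R.X (k + 1) →₀ ℂ,
      (Summable fun x => ‖ξ x - c.sum fun z n => n * (R.coef k z x : ℂ)‖ ^ 2) ∧
      ∑' x, ‖ξ x - c.sum fun z n => n * (R.coef k z x : ℂ)‖ ^ 2 < e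

theorem eq_of_smul_eq {k : ℕ} {g h : Γ} {x : R.X k} (e : g • x = h • x) : g = h := by
  have h1 : (h⁻¹ * g) • x = x := by rw [mul_smul, e, inv_smul_smul]
  have h2 := R.free k _ x h1
  exact (inv_mul_eq_one.1 h2).symm

theorem coef_smul (k : ℕ) (g : Γ) (x : R.X (k + 1)) (y : R.X k) :
    R.coef k (g • x) (g • y) = R.coef k x y := by
  unfold coef
  rw [← gact_single, R.d_act, gact_apply, inv_smul_smul]

/-- a cell has finitely many boundary cells -/
theorem finite_coef_left (k : ℕ) (x : R.X (k + 1)) : {y | R.coef k x y ≠ 0}.Finite := by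
  have : {y | R.coef k x y ≠ 0} = ((R.d k (single x 1)).support : Set (R.X k)) := by
    ext y; simp [coef]
  rw [this]
  exact Finset.finite_toSet _

/-- a cell is a face of finitely many cells -/
theorem finite_coef_right (k : ℕ) (y : R.X k) : {x | R.coef k x y ≠ 0}.Finite := by
  classical
  obtain ⟨s, hs⟩ := R.fin (k + 1)
  have h : ∀ z : R.X (k + 1), {x | (∃ g : Γ, g • z = x) ∧ R.coef k x y ≠ 0}.Finite := by
    intro z
    have h1 : {g : Γ | R.coef k (g • z) y ≠ 0}.Finite := by
      refine Set.Finite.preimage (f := fun g : Γ => g⁻¹ • y) ?_ (R.finite_coef_left k z) |>.subset ?_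
      · intro g _ h _ e
        exact inv_injective (R.eq_of_smul_eq e)
      · intro g hg
        simp only [Set.mem_preimage, Set.mem_ofPred_eq] at hg ⊢
        rwa [← R.coef_smul k g z, smul_inv_smul]
    refine (h1.image (fun g => g • z)).subset ?_
    rintro x ⟨⟨g, rfl⟩, hx⟩
    exact ⟨g, hx, rfl⟩
  refine ((s.finite_toSet).biUnion (fun z _ => h z)).subset ?_
  intro x hx
  obtain ⟨g, z, hz, e⟩ := hs x
  exact Set.mem_biUnion (Finset.mem_coe.2 hz) ⟨⟨g, e⟩, hx⟩

/-- the same resolution, for a group acting through an injective homomorphism with image of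
finite index -/
def comap {A : Type*} [Group A] (φ : A →* Γ) (hφ : Function.Injective φ)
    [hfin : φ.range.FiniteIndex] : FreeRes.{u} A where
  X := R.X
  act k := MulAction.compHom (R.X k) φ
  free k g x h := hφ ((R.free k (φ g) x h).trans (map_one φ).symm)
  fin k := by
    classical
    obtain ⟨s, hs⟩ := R.fin k
    have : Finite (Γ ⧸ φ.range) := inferInstance
    obtain ⟨t, ht⟩ : ∃ t : Finset Γ, ∀ g : Γ, ∃ a : A, ∃ h ∈ t, φ a * h = g := by
      have := Fintype.ofFinite (Γ ⧸ φ.range)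
      refine ⟨Finset.univ.image (fun q : Γ ⧸ φ.range => (q.out)⁻¹), ?_⟩
      intro g
      have h1 : ((g⁻¹ : Γ) : Γ ⧸ φ.range) = (((g⁻¹ : Γ) : Γ ⧸ φ.range).out : Γ ⧸ φ.range) :=
        (QuotientGroup.out_eq' _).symm
      rw [QuotientGroup.eq] at h1
      obtain ⟨a, ha⟩ := h1
      refine ⟨a, _, Finset.mem_image_of_mem _ (Finset.mem_univ ((g⁻¹ : Γ) : Γ ⧸ φ.range)), ?_⟩
      rw [ha]
      group
    refine ⟨(t ×ˢ s).image (fun p => p.1 • p.2), ?_⟩
    intro x
    obtain ⟨g, y, hy, rfl⟩ := hs x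
    obtain ⟨a, h, hh, rfl⟩ := ht g
    refine ⟨a, h • y, Finset.mem_image.2 ⟨(h, y), Finset.mem_product.2 ⟨hh, hy⟩, rfl⟩, ?_⟩
    exact (mul_smul (φ a) h y).symm
  d := R.d
  eps := R.eps
  d_act k g c := R.d_act k (φ g) c
  eps_act g c := R.eps_act (φ g) c
  eps_surj := R.eps_surj
  eps_d := R.eps_d
  d_d := R.d_d
  exact0 := R.exact0
  exact := R.exact

theorem comap_harmZero {A : Type*} [Group A] (φ : A →* Γ) (hφ : Function.Injective φ)
    [φ.range.FiniteIndex] (k : ℕ) : (R.comap φ hφ).HarmZero K k ↔ R.HarmZero K k := by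
  have h : ∀ ξ : R.X k → K, (R.comap φ hφ).IsHarm k ξ ↔ R.IsHarm k ξ := by
    intro ξ
    cases k with
    | zero => exact ⟨fun h => ⟨h.sq, h.cocyc, trivial⟩, fun h => ⟨h.sq, h.cocyc, trivial⟩⟩
    | succ k => exact ⟨fun h => ⟨h.sq, h.cocyc, h.cyc⟩, fun h => ⟨h.sq, h.cocyc, h.cyc⟩⟩
  exact forall_congr' fun ξ => imp_congr (h ξ) Iff.rfl

end FreeRes

end OS
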