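import Mathlib
import Pool.Agent.Lib.MP_8fe54c_gt.FreeRes

/-!
# Bounded operators on square summable chains, chain maps between free resolutions
-/

namespace OS

open Finsupp

universe u v w

section opL

variable {X Y Z : Type*} {K : Type*} [RCLike K]

/-- integral linear maps between free abelian groups -/
abbrev ZMap (X Y : Type*) := (X →₀ ℤ) →ₗ[ℤ] (Y →₀ ℤ)

/-- matrix coefficients -/
noncomputable def mc (T : ZMap X Y) (x : X) (y : Y) : ℤ := T (single x 1) y

/-- bounded integral matrices -/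
structure Bd (T : ZMap X Y) (A : ℝ) : Prop where
  nonneg : 0 ≤ A
  fin : ∀ y, {x | mc T x y ≠ 0}.Finite
  col : ∀ x (s : Finset Y), ∑ y ∈ s, |(mc T x y : ℝ)| ≤ A
  row : ∀ y (s : Finset X), ∑ x ∈ s, |(mc T x y : ℝ)| ≤ A

/-- action on infinite chains -/
noncomputable def push (T : ZMap X Y) (ξ : X → K) (y : Y) : K := ∑ᶠ x, (mc T x y : K) * ξ x

theorem push_eq_sum (T : ZMap X Y) (ξ : X → K) (y : Y) (F : Finset X)
    (hF : ∀ x, mc T x y ≠ 0 → x ∈ F) : push T ξ y = ∑ x ∈ F, (mc T x y : K) * ξ x := by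
  unfold push
  apply finsum_eq_sum_of_support_subset
  intro x hx
  rw [Function.mem_support] at hx
  apply Finset.mem_coe.2 (hF x _)
  intro h
  apply hx
  rw [h]; simp

theorem Bd.exists_fin {T : ZMap X Y} {A : ℝ} (h : Bd T A) (s : Finset Y) :
    ∃ F : Finset X, ∀ y ∈ s, ∀ x, mc T x y ≠ 0 → x ∈ F := by
  classical
  refine ⟨s.biUnion (fun y => (h.fin y).toFinset), fun y hy x hx => ?_⟩
  exact Finset.mem_biUnion.2 ⟨y, hy, (h.fin y).mem_toFinset.2 hx⟩

theorem Bd.push_bound {T : ZMap X Y} {A : ℝ} (h : Bd T A) (ξ : X → K) (C : ℝ)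
    (hC : ∀ F : Finset X, ∑ x ∈ F, ‖ξ x‖ ^ 2 ≤ C) (s : Finset Y) :
    ∑ y ∈ s, ‖push T ξ y‖ ^ 2 ≤ A ^ 2 * C := by
  obtain ⟨F, hF⟩ := h.exists_fin s
  have hA := h.nonneg
  have h1 : ∀ y ∈ s, ‖push T ξ y‖ ^ 2 ≤ A * ∑ x ∈ F, |(mc T x y : ℝ)| * ‖ξ x‖ ^ 2 := by
    intro y hy
    rw [push_eq_sum T ξ y F (hF y hy)]
    have h2 : ‖∑ x ∈ F, (mc T x y : K) * ξ x‖ ≤ ∑ x ∈ F, |(mc T x y : ℝ)| * ‖ξ x‖ := by
      refine (norm_sum_le _ _).trans (le_of_eq (Finset.sum_congr rfl (fun x _ => ?_)))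
      rw [norm_mul]
      congr 1
      have : ((mc T x y : ℤ) : K) = (((mc T x y : ℤ) : ℝ) : K) := by push_cast; rfl
      rw [this, RCLike.norm_ofReal]
    have h3 : (∑ x ∈ F, |(mc T x y : ℝ)| * ‖ξ x‖) ^ 2 ≤
        (∑ x ∈ F, |(mc T x y : ℝ)|) * ∑ x ∈ F, |(mc T x y : ℝ)| * ‖ξ x‖ ^ 2 := by
      apply Finset.sum_sq_le_sum_mul_sum_of_sq_le_mul
      · intro x _; positivity
      · intro x _; positivity
      · intro x _; exact le_of_eq (by ring)
    calc ‖∑ x ∈ F, (mc T x y : K) * ξ x‖ ^ 2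
        ≤ (∑ x ∈ F, |(mc T x y : ℝ)| * ‖ξ x‖) ^ 2 := by gcongr
      _ ≤ _ := h3
      _ ≤ A * ∑ x ∈ F, |(mc T x y : ℝ)| * ‖ξ x‖ ^ 2 :=
          mul_le_mul_of_nonneg_right (h.row y F) (Finset.sum_nonneg (fun x _ => by positivity))
  calc ∑ y ∈ s, ‖push T ξ y‖ ^ 2
      ≤ ∑ y ∈ s, A * ∑ x ∈ F, |(mc T x y : ℝ)| * ‖ξ x‖ ^ 2 := Finset.sum_le_sum h1
    _ = A * ∑ x ∈ F, (∑ y ∈ s, |(mc T x y : ℝ)|) * ‖ξ x‖ ^ 2 := by
        rw [← Finset.mul_sum, Finset.sum_comm]
        congr 1
        exact Finset.sum_congr rfl (fun x _ => (Finset.sum_mul _ _ _).symm)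
    _ ≤ A * ∑ x ∈ F, A * ‖ξ x‖ ^ 2 := by
        refine mul_le_mul_of_nonneg_left (Finset.sum_le_sum (fun x _ => ?_)) hA
        exact mul_le_mul_of_nonneg_right (h.col x s) (by positivity)
    _ = A ^ 2 * ∑ x ∈ F, ‖ξ x‖ ^ 2 := by rw [← Finset.mul_sum]; ring
    _ ≤ A ^ 2 * C := mul_le_mul_of_nonneg_left (hC F) (by positivity)

theorem push_add (T : ZMap X Y) {A : ℝ} (h : Bd T A) (ξ η : X → K) :
    push T (ξ + η) = push T ξ + push T η := by
  funext y
  obtain ⟨F, hF⟩ := h.exists_fin {y}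
  have hF' := hF y (Finset.mem_singleton_self y)
  rw [Pi.add_apply, push_eq_sum T _ y F hF', push_eq_sum T _ y F hF', push_eq_sum T _ y F hF',
    ← Finset.sum_add_distrib]
  exact Finset.sum_congr rfl (fun x _ => by rw [Pi.add_apply, mul_add])

theorem push_smul (T : ZMap X Y) {A : ℝ} (h : Bd T A) (c : K) (ξ : X → K) :
    push T (c • ξ) = c • push T ξ := by
  funext y
  obtain ⟨F, hF⟩ := h.exists_fin {y}
  have hF' := hF y (Finset.mem_singleton_self y)
  rw [Pi.smul_apply, push_eq_sum T _ y F hF', push_eq_sum T _ y F hF', Finset.smul_sum]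
  exact Finset.sum_congr rfl (fun x _ => by rw [Pi.smul_apply, smul_eq_mul, smul_eq_mul]; ring)

theorem mc_apply (S : ZMap Y Z) (c : Y →₀ ℤ) (z : Z) (F : Finset Y)
    (hF : ∀ y, mc S y z ≠ 0 → y ∈ F) : S c z = ∑ y ∈ F, c y * mc S y z := by
  induction c using Finsupp.induction_linear with
  | zero => simp
  | add a b ha hb =>
    rw [map_add, Finsupp.add_apply, ha, hb, ← Finset.sum_add_distrib]
    exact Finset.sum_congr rfl (fun y _ => by rw [Finsupp.add_apply, add_mul])
  | single y n =>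
    have e : (single y n : Y →₀ ℤ) = n • single y 1 := by simp
    rw [e, map_smul, Finsupp.smul_apply, smul_eq_mul]
    rw [Finset.sum_eq_single y]
    · rw [Finsupp.smul_apply, Finsupp.single_eq_same, smul_eq_mul, mul_one]; rfl
    · intro y' _ h'
      rw [Finsupp.smul_apply, Finsupp.single_eq_of_ne h', smul_zero, zero_mul]
    · intro hy
      have : mc S y z = 0 := by
        by_contra h
        exact hy (hF y h)
      rw [this, mul_zero]

theorem push_comp (S : ZMap Y Z) (T : ZMap X Y) {A B : ℝ} (hS : Bd S A) (hT : Bd T B)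
    (ξ : X → K) : push (S ∘ₗ T) ξ = push S (push T ξ) := by
  funext z
  obtain ⟨F, hF⟩ := hS.exists_fin {z}
  have hF' := hF z (Finset.mem_singleton_self z)
  obtain ⟨E, hE⟩ := hT.exists_fin F
  have h1 : ∀ x, mc (S ∘ₗ T) x z = ∑ y ∈ F, mc T x y * mc S y z := by
    intro x
    exact mc_apply S (T (single x 1)) z F hF'
  have h2 : ∀ x, mc (S ∘ₗ T) x z ≠ 0 → x ∈ E := by
    intro x hx
    rw [h1] at hx
    obtain ⟨y, hy, hxy⟩ := Finset.exists_ne_zero_of_sum_ne_zero hx
    exact hE y hy x (left_ne_zero_of_mul hxy)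
  rw [push_eq_sum _ _ z E h2, push_eq_sum _ _ z F hF']
  have h3 : ∀ y ∈ F, (mc S y z : K) * push T ξ y = ∑ x ∈ E, (mc S y z : K) * ((mc T x y : K) * ξ x) := by
    intro y hy
    rw [push_eq_sum T ξ y E (hE y hy), Finset.mul_sum]
  rw [Finset.sum_congr rfl h3, Finset.sum_comm]
  refine Finset.sum_congr rfl (fun x _ => ?_)
  rw [h1]
  push_cast
  rw [Finset.sum_mul]
  exact Finset.sum_congr rfl (fun y _ => by ring)

theorem push_add_left (S T : ZMap X Y) {A B : ℝ} (hS : Bd S A) (hT : Bd T B)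
    (ξ : X → K) : push (S + T) ξ = push S ξ + push T ξ := by
  classical
  funext y
  obtain ⟨F, hF⟩ := hS.exists_fin {y}
  have hF' := hF y (Finset.mem_singleton_self y)
  obtain ⟨E, hE⟩ := hT.exists_fin {y}
  have hE' := hE y (Finset.mem_singleton_self y)
  have h1 : ∀ x, mc (S + T) x y = mc S x y + mc T x y := fun x => rfl
  have h2 : ∀ x, mc (S + T) x y ≠ 0 → x ∈ F ∪ E := by
    intro x hx
    by_contra h
    rw [Finset.mem_union, not_or] at h
    apply hx
    rw [h1]
    have h3 : mc S x y = 0 := by by_contra h'; exact h.1 (hF' x h')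
    have h4 : mc T x y = 0 := by by_contra h'; exact h.2 (hE' x h')
    rw [h3, h4, add_zero]
  rw [Pi.add_apply, push_eq_sum _ _ y (F ∪ E) h2,
    push_eq_sum S _ y (F ∪ E) (fun x hx => Finset.mem_union_left _ (hF' x hx)),
    push_eq_sum T _ y (F ∪ E) (fun x hx => Finset.mem_union_right _ (hE' x hx)),
    ← Finset.sum_add_distrib]
  refine Finset.sum_congr rfl (fun x _ => ?_)
  rw [h1]
  push_cast
  ring

theorem push_id (ξ : X → K) : push (LinearMap.id : ZMap X X) ξ = ξ := by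
  classical
  funext y
  have h1 : ∀ x, mc (LinearMap.id : ZMap X X) x y = if x = y then 1 else 0 := by
    intro x
    unfold mc
    rw [LinearMap.id_apply, Finsupp.single_apply]
  rw [push_eq_sum _ _ y {y} (fun x hx => ?_)]
  · rw [Finset.sum_singleton, h1, if_pos rfl]; simp
  · rw [h1] at hx
    by_contra h
    rw [Finset.mem_singleton] at h
    exact hx (if_neg h)

variable (K) in
/-- square summable functions -/
abbrev L2 (X : Type*) := lp (fun _ : X => K) 2

theorem summable_sq (ξ : L2 K X) : Summable fun x => ‖ξ x‖ ^ 2 := by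
  have := lp.memℓp ξ
  rw [memℓp_gen_iff (by norm_num)] at this
  simpa using this

theorem norm_sq_eq (ξ : L2 K X) : ‖ξ‖ ^ 2 = ∑' x, ‖ξ x‖ ^ 2 := by
  have := lp.norm_rpow_eq_tsum (p := 2) (by norm_num) ξ
  simpa using this

/-- square summable functions as elements of the Hilbert space -/
def toL2 (ξ : X → K) (h : Summable fun x => ‖ξ x‖ ^ 2) : L2 K X :=
  ⟨ξ, (memℓp_gen_iff (E := fun _ : X => K) (by norm_num)).2 (by simpa using h)⟩

theorem toL2_apply (ξ : X → K) (h : Summable fun x => ‖ξ x‖ ^ 2) (x : X) : toL2 ξ h x = ξ x := rfl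

theorem Bd.summable {T : ZMap X Y} {A : ℝ} (h : Bd T A) (ξ : L2 K X) :
    Summable fun y => ‖push T (ξ : X → K) y‖ ^ 2 := by
  refine summable_of_sum_le (c := A ^ 2 * ∑' x, ‖ξ x‖ ^ 2) (fun y => by positivity) ?_
  intro s
  exact h.push_bound _ _ (fun F => (summable_sq ξ).sum_le_tsum F (fun x _ => by positivity)) s

/-- the bounded operator of a bounded matrix -/
noncomputable def opL (T : ZMap X Y) {A : ℝ} (h : Bd T A) : L2 K X →L[K] L2 K Y :=
  LinearMap.mkContinuous
    { toFun := fun ξ => toL2 (push T (ξ : X → K)) (h.summable ξ)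
      map_add' := fun ξ η => by
        ext y
        exact congrFun (push_add T h (ξ : X → K) (η : X → K)) y
      map_smul' := fun c ξ => by
        ext y
        exact congrFun (push_smul T h c (ξ : X → K)) y } A (by
    intro ξ
    rw [← sq_le_sq₀ (norm_nonneg _) (mul_nonneg h.nonneg (norm_nonneg _)), norm_sq_eq, mul_pow,
      norm_sq_eq ξ]
    refine Summable.tsum_le_of_sum_le (h.summable ξ) ?_
    intro s
    exact h.push_bound _ _ (fun F => (summable_sq ξ).sum_le_tsum F (fun x _ => by positivity)) s)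

theorem opL_apply (T : ZMap X Y) {A : ℝ} (h : Bd T A) (ξ : L2 K X) (y : Y) :
    opL T h ξ y = push T (ξ : X → K) y := rfl

theorem opL_coe (T : ZMap X Y) {A : ℝ} (h : Bd T A) (ξ : L2 K X) :
    ((opL T h ξ : L2 K Y) : Y → K) = push T (ξ : X → K) := rfl

open Classical in
theorem opL_single (T : ZMap X Y) {A : ℝ} (h : Bd T A) (x : X) (c : K) (y : Y) :
    opL T h (lp.single 2 x c) y = (mc T x y : K) * c := by
  rw [opL_apply]
  obtain ⟨F, hF⟩ := h.exists_fin {y}
  have hF' := hF y (Finset.mem_singleton_self y)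
  rw [push_eq_sum T _ y F hF', Finset.sum_eq_single x]
  · rw [lp.single_apply_self]
  · intro x' _ hx'
    rw [lp.single_apply_ne _ _ _ hx', mul_zero]
  · intro hx
    have : mc T x y = 0 := by
      by_contra h'
      exact hx (hF' x h')
    rw [this]; simp

open Classical in
/-- orthogonality to the range -/
theorem opL_inner_single (T : ZMap X Y) {A : ℝ} (h : Bd T A) (x : X) (c : K) (ξ : L2 K Y) :
    inner K (opL T h (lp.single 2 x c)) ξ = star c * ∑ᶠ y, (mc T x y : K) * ξ y := by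
  rw [lp.inner_eq_tsum]
  have hs : (fun y => inner K (opL T h (lp.single 2 x c) y) (ξ y)) =
      fun y => star c * ((mc T x y : K) * ξ y) := by
    funext y
    rw [opL_single, RCLike.inner_apply, map_mul]
    have : (starRingEnd K) ((mc T x y : ℤ) : K) = ((mc T x y : ℤ) : K) := by simp
    rw [this]
    show ξ y * (_ * star c) = _
    ring
  rw [hs]
  have hf : (Function.support fun y => (mc T x y : K) * ξ y) ⊆ ((T (single x 1)).support : Set Y) := by
    intro y hy
    rw [Function.mem_support] at hy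
    rw [Finset.mem_coe, Finsupp.mem_support_iff]
    intro h'
    apply hy
    have : mc T x y = 0 := h'
    rw [this]; simp
  rw [finsum_eq_sum_of_support_subset _ hf, Finset.mul_sum]
  apply tsum_eq_sum
  intro y hy
  have : mc T x y = 0 := by
    by_contra h'
    exact hy (Finsupp.mem_support_iff.2 h')
  rw [this]; simp

theorem opL_inner_zero (T : ZMap X Y) {A : ℝ} (h : Bd T A) (ξ : L2 K Y)
    (h0 : ∀ x, ∑ᶠ y, (mc T x y : K) * ξ y = 0) (ζ : L2 K X) : inner K (opL T h ζ) ξ = 0 := by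
  classical
  have h1 := lp.hasSum_single (p := 2) (by norm_num) ζ
  have h2 := (h1.mapL (opL T h)).mapL (innerSL K ξ)
  have h3 : ∀ x, (innerSL K ξ) (opL T h (lp.single 2 x (ζ x))) = 0 := by
    intro x
    rw [innerSL_apply_apply, ← inner_conj_symm, opL_inner_single, h0, mul_zero, map_zero]
  simp only [h3] at h2
  have h4 := h2.unique hasSum_zero
  rw [innerSL_apply_apply] at h4
  rw [← inner_conj_symm, h4, map_zero]

end opL

end OS
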