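import Mathlib
import Pool.Agent.Lib.MP_8fe54c_gt.FreeRes
import Pool.Agent.Lib.MP_8fe54c_gt.L2Op

/-!
# Comparison of free resolutions: vanishing of the harmonic chains does not depend on the
resolution
-/

namespace OS

open Finsupp

universe u v w

section equi

variable {Γ : Type*} [Group Γ] {X Y Z : Type*} [MulAction Γ X] [MulAction Γ Y] [MulAction Γ Z]

variable (Γ) in
/-- equivariant maps -/
def Eqv (T : ZMap X Y) : Prop := ∀ (g : Γ) c, T (gact g c) = gact g (T c)

theorem Eqv.mc_smul {T : ZMap X Y} (h : Eqv Γ T) (g : Γ) (x : X) (y : Y) :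
    mc T (g • x) (g • y) = mc T x y := by
  unfold mc
  rw [← gact_single, h, gact_apply, inv_smul_smul]

theorem Eqv.comp {S : ZMap Y Z} {T : ZMap X Y} (hS : Eqv Γ S) (hT : Eqv Γ T) :
    Eqv Γ (S ∘ₗ T) := fun g c => by
  rw [LinearMap.comp_apply, LinearMap.comp_apply, hT, hS]

theorem sum_le_of_ne {ι : Type*} (s t : Finset ι) (f : ι → ℝ) (hf : ∀ i, 0 ≤ f i)
    (h : ∀ i ∈ s, f i ≠ 0 → i ∈ t) : ∑ i ∈ s, f i ≤ ∑ i ∈ t, f i := by
  classical
  calc ∑ i ∈ s, f i = ∑ i ∈ s.filter (fun i => f i ≠ 0), f i := (Finset.sum_filter_ne_zero s).symm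
    _ ≤ ∑ i ∈ t, f i := Finset.sum_le_sum_of_subset_of_nonneg
        (fun i hi => h i (Finset.mem_filter.1 hi).1 (Finset.mem_filter.1 hi).2) (fun i _ _ => hf i)

theorem bd_of_eqv (T : ZMap X Y) (hT : Eqv Γ T) (hY : ∀ (g : Γ) (y : Y), g • y = y → g = 1)
    (s : Finset X) (hs : ∀ x : X, ∃ g : Γ, ∃ y ∈ s, g • y = x) : ∃ A, Bd T A := by
  classical
  choose g r hr hg using hs
  have hyy : ∀ (a b : Γ) (y : Y), a • y = b • y → a = b := by
    intro a b y e
    have h1 : (b⁻¹ * a) • y = y := by rw [mul_smul, e, inv_smul_smul]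
    exact (inv_mul_eq_one.1 (hY _ y h1)).symm
  have hmc : ∀ x y, mc T x y = mc T (r x) ((g x)⁻¹ • y) := by
    intro x y
    conv_lhs => rw [← hg x, ← smul_inv_smul (g x) y]
    exact hT.mc_smul _ _ _
  let P : Finset (Σ _ : X, Y) := s.sigma (fun x => (T (single x 1)).support)
  have hP : ∀ x ∈ s, ∀ y, mc T x y ≠ 0 → (⟨x, y⟩ : Σ _ : X, Y) ∈ P := by
    intro x hx y h
    exact Finset.mem_sigma.2 ⟨hx, Finsupp.mem_support_iff.2 h⟩
  let φ : Y → X → (Σ _ : X, Y) := fun y x => ⟨r x, (g x)⁻¹ • y⟩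
  have hφ : ∀ y, Function.Injective (φ y) := by
    intro y x x' e
    simp only [φ, Sigma.mk.injEq, heq_eq_eq] at e
    have h1 := inv_injective (hyy _ _ _ e.2)
    rw [← hg x, ← hg x', h1, e.1]
  refine ⟨∑ p ∈ P, |(mc T p.1 p.2 : ℝ)|, ?_, ?_, ?_, ?_⟩
  · exact Finset.sum_nonneg (fun p _ => abs_nonneg _)
  · intro y
    refine (Set.Finite.preimage (f := φ y) ((hφ y).injOn) P.finite_toSet).subset ?_
    intro x hx
    rw [Set.mem_preimage, Finset.mem_coe]
    refine hP _ (hr x) _ ?_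
    rw [← hmc]
    exact hx
  · intro x t
    have h1 : ∑ y ∈ t, |(mc T x y : ℝ)| =
        ∑ p ∈ t.image (fun y => (⟨r x, (g x)⁻¹ • y⟩ : Σ _ : X, Y)), |(mc T p.1 p.2 : ℝ)| := by
      rw [Finset.sum_image]
      · exact Finset.sum_congr rfl (fun y _ => by rw [hmc])
      · intro y _ y' _ e
        simp only [Sigma.mk.injEq, heq_eq_eq, true_and] at e
        exact MulAction.injective _ e
    rw [h1]
    refine sum_le_of_ne _ _ _ (fun _ => abs_nonneg _) ?_
    intro p hp h0
    obtain ⟨y, _, rfl⟩ := Finset.mem_image.1 hp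
    refine hP _ (hr x) _ ?_
    intro h'
    apply h0
    show |(mc T (r x) ((g x)⁻¹ • y) : ℝ)| = 0
    rw [h']; simp
  · intro y F
    have h1 : ∑ x ∈ F, |(mc T x y : ℝ)| = ∑ p ∈ F.image (φ y), |(mc T p.1 p.2 : ℝ)| := by
      rw [Finset.sum_image ((hφ y).injOn)]
      exact Finset.sum_congr rfl (fun x _ => by rw [hmc])
    rw [h1]
    refine sum_le_of_ne _ _ _ (fun _ => abs_nonneg _) ?_
    intro p hp h0
    obtain ⟨x, _, rfl⟩ := Finset.mem_image.1 hp
    refine hP _ (hr x) _ ?_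
    intro h'
    apply h0
    show |(mc T (r x) ((g x)⁻¹ • y) : ℝ)| = 0
    rw [h']; simp

/-- lifting along an equivariant map -/
theorem exists_lift (hX : ∀ (g : Γ) (x : X), g • x = x → g = 1) {N : Type*} [AddCommGroup N]
    (ρ : Γ → N → N) (φ : (X →₀ ℤ) →ₗ[ℤ] N) (π : (Z →₀ ℤ) →ₗ[ℤ] N)
    (hφ : ∀ (g : Γ) c, φ (gact g c) = ρ g (φ c)) (hπ : ∀ (g : Γ) c, π (gact g c) = ρ g (π c))
    (h : ∀ x, ∃ z, π z = φ (single x 1)) : ∃ ψ : ZMap X Z, Eqv Γ ψ ∧ ∀ c, π (ψ c) = φ c := by
  have hxx : ∀ (a b : Γ) (x : X), a • x = b • x → a = b := by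
    intro a b y e
    have h1 : (b⁻¹ * a) • y = y := by rw [mul_smul, e, inv_smul_smul]
    exact (inv_mul_eq_one.1 (hX _ y h1)).symm
  choose z hz using h
  let rep : X → X := fun x => Quotient.out (Quotient.mk (MulAction.orbitRel Γ X) x)
  have hrep : ∀ x, ∃ g : Γ, g • rep x = x := by
    intro x
    have h1 : (MulAction.orbitRel Γ X) x (rep x) :=
      (MulAction.orbitRel Γ X).symm (Quotient.mk_out (s := MulAction.orbitRel Γ X) x)
    exact MulAction.orbitRel_apply.1 h1
  have hrep2 : ∀ (g : Γ) x, rep (g • x) = rep x := by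
    intro g x
    show Quotient.out _ = Quotient.out _
    congr 1
    apply Quotient.sound
    exact MulAction.orbitRel_apply.2 ⟨g, rfl⟩
  choose g hg using hrep
  have hg2 : ∀ (a : Γ) x, g (a • x) = a * g x := by
    intro a x
    apply hxx _ _ (rep x)
    have h1 := hg (a • x)
    rw [hrep2] at h1
    rw [h1, mul_smul, hg]
  let ψ : ZMap X Z :=
    Finsupp.lsum ℤ (fun x => LinearMap.toSpanSingleton ℤ _ (gact (g x) (z (rep x))))
  have hψ : ∀ x, ψ (single x 1) = gact (g x) (z (rep x)) := by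
    intro x
    simp [ψ]
  refine ⟨ψ, ?_, ?_⟩
  · intro a c
    induction c using Finsupp.induction_linear with
    | zero => simp
    | add b c hb hc => simp only [map_add, hb, hc]
    | single x n =>
      have e : (single x n : X →₀ ℤ) = n • single x 1 := by simp
      rw [e, map_smul, map_smul, map_smul, map_smul, gact_single, hψ, hψ, hrep2, hg2, gact_mul]
  · intro c
    induction c using Finsupp.induction_linear with
    | zero => simp
    | add b c hb hc => simp only [map_add, hb, hc]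
    | single x n =>
      have e : (single x n : X →₀ ℤ) = n • single x 1 := by simp
      rw [e, map_smul, map_smul, map_smul, hψ, hπ, hz, ← hφ, gact_single, hg]

end equi

theorem dep_seq {A : ℕ → Type*} (Q : ∀ k, A k → Prop) (r : ∀ k, A k → A (k + 1) → Prop)
    (a0 : A 0) (h0 : Q 0 a0) (hs : ∀ k a, Q k a → ∃ b, Q (k + 1) b ∧ r k a b) :
    ∃ s : ∀ k, A k, s 0 = a0 ∧ (∀ k, Q k (s k)) ∧ ∀ k, r k (s k) (s (k + 1)) := by
  let s' : ∀ k, {a : A k // Q k a} := fun k =>
    Nat.rec (motive := fun k => {a : A k // Q k a}) ⟨a0, h0⟩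
      (fun k p => ⟨(hs k p.1 p.2).choose, (hs k p.1 p.2).choose_spec.1⟩) k
  exact ⟨fun k => (s' k).1, rfl, fun k => (s' k).2, fun k => (hs k (s' k).1 (s' k).2).choose_spec.2⟩

namespace FreeRes

universe u'

variable {Γ : Type v} [Group Γ] {K : Type w} [RCLike K]

theorem exists_chainMap (R : FreeRes.{u, v} Γ) (R' : FreeRes.{u', v} Γ) :
    ∃ f : ∀ k, ZMap (R.X k) (R'.X k), (∀ k, Eqv Γ (f k)) ∧ (∀ c, R'.eps (f 0 c) = R.eps c) ∧
      ∀ k c, R'.d k (f (k + 1) c) = f k (R.d k c) := by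
  obtain ⟨f0, hf0, hf0'⟩ := exists_lift (Γ := Γ) (R.free 0) (fun _ n => n) R.eps R'.eps
    R.eps_act R'.eps_act (by
      intro x
      obtain ⟨c, hc⟩ := R'.eps_surj
      exact ⟨R.eps (single x 1) • c, by rw [map_smul, hc, smul_eq_mul, mul_one]⟩)
  obtain ⟨f, h1, h2, h3⟩ := dep_seq (A := fun k => ZMap (R.X k) (R'.X k))
    (fun k a => Eqv Γ a ∧ ∀ x, ∃ z, R'.d k z = a (R.d k x))
    (fun k a b => ∀ c, R'.d k (b c) = a (R.d k c)) f0
    ⟨hf0, fun x => R'.exact0 _ (by rw [hf0', R.eps_d])⟩ (by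
      rintro k a ⟨ha, ha'⟩
      obtain ⟨b, hb, hb'⟩ := exists_lift (Γ := Γ) (R.free (k + 1)) (fun g c => gact g c) (a ∘ₗ R.d k) (R'.d k)
        (fun g c => by rw [LinearMap.comp_apply, LinearMap.comp_apply, R.d_act, ha])
        (R'.d_act k) (fun x => ha' _)
      refine ⟨b, ⟨hb, fun x => R'.exact k _ ?_⟩, hb'⟩
      rw [hb', LinearMap.comp_apply, R.d_d, map_zero])
  exact ⟨f, fun k => (h2 k).1, by rw [h1]; exact hf0', h3⟩

theorem exists_homotopy (R : FreeRes.{u, v} Γ) (F : ∀ k, ZMap (R.X k) (R.X k))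
    (hF : ∀ k, Eqv Γ (F k)) (h0 : ∀ c, R.eps (F 0 c) = R.eps c)
    (hd : ∀ k c, R.d k (F (k + 1) c) = F k (R.d k c)) :
    ∃ h : ∀ k, ZMap (R.X k) (R.X (k + 1)), (∀ k, Eqv Γ (h k)) ∧
      (∀ c, R.d 0 (h 0 c) = F 0 c - c) ∧
      ∀ k c, R.d (k + 1) (h (k + 1) c) = F (k + 1) c - c - h k (R.d k c) := by
  obtain ⟨a0, ha0, ha0'⟩ := exists_lift (Γ := Γ) (R.free 0) (fun g c => gact g c)
    (F 0 - LinearMap.id) (R.d 0) (fun g c => by
      rw [LinearMap.sub_apply, LinearMap.sub_apply, LinearMap.id_apply, LinearMap.id_apply,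
        map_sub, hF]) (R.d_act 0) (fun x => R.exact0 _ (by
      rw [LinearMap.sub_apply, LinearMap.id_apply, map_sub, h0, sub_self]))
  obtain ⟨h, h1, h2, h3⟩ := dep_seq (A := fun k => ZMap (R.X k) (R.X (k + 1)))
    (fun k a => Eqv Γ a ∧ ∀ x, ∃ z, R.d (k + 1) z = F (k + 1) x - x - a (R.d k x))
    (fun k a b => ∀ c, R.d (k + 1) (b c) = F (k + 1) c - c - a (R.d k c)) a0
    ⟨ha0, fun x => R.exact 0 _ (by
      rw [map_sub, map_sub, hd, ha0', LinearMap.sub_apply, LinearMap.id_apply, sub_self])⟩ (by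
      rintro k a ⟨ha, ha'⟩
      obtain ⟨b, hb, hb'⟩ := exists_lift (Γ := Γ) (R.free (k + 1)) (fun g c => gact g c)
        (F (k + 1) - LinearMap.id - a ∘ₗ R.d k) (R.d (k + 1))
        (fun g c => by
          simp only [LinearMap.sub_apply, LinearMap.id_apply, LinearMap.comp_apply, map_sub,
            R.d_act, ha g, hF (k + 1) g])
        (R.d_act (k + 1)) (fun x => ha' _)
      refine ⟨b, ⟨hb, fun x => R.exact (k + 1) _ ?_⟩, hb'⟩
      rw [map_sub, map_sub, hd, hb']
      simp only [LinearMap.sub_apply, LinearMap.id_apply, LinearMap.comp_apply, R.d_d, map_zero,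
        sub_zero, sub_self])
  exact ⟨h, fun k => (h2 k).1, by rw [h1]; exact ha0', h3⟩

theorem exists_bd (R : FreeRes.{u, v} Γ) (R' : FreeRes.{u', v} Γ) {k l : ℕ}
    (T : ZMap (R.X k) (R'.X l)) (hT : Eqv Γ T) : ∃ A, Bd T A := by
  obtain ⟨s, hs⟩ := R.fin k
  exact bd_of_eqv T hT (R'.free l) s hs

theorem isCyc_succ (R : FreeRes.{u, v} Γ) (k : ℕ) (ξ : R.X (k + 1) → K) :
    R.IsCyc (k + 1) ξ ↔ push (R.d k) ξ = 0 := by
  rw [funext_iff]
  exact Iff.rfl

theorem isCyc_closure (R : FreeRes.{u, v} Γ) (k : ℕ) {A : ℝ} (hA : Bd (R.d k) A)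
    (p : L2 K (R.X k)) (hp : p ∈ (LinearMap.range (opL (K := K) (R.d k) hA).toLinearMap).topologicalClosure) :
    R.IsCyc k (p : R.X k → K) := by
  cases k with
  | zero => trivial
  | succ k =>
    obtain ⟨B, hB⟩ := R.exists_bd R (R.d k) (R.d_act k)
    rw [isCyc_succ]
    have h1 : (LinearMap.range (opL (K := K) (R.d (k + 1)) hA).toLinearMap).topologicalClosure ≤
        LinearMap.ker (opL (K := K) (R.d k) hB).toLinearMap := by
      apply Submodule.topologicalClosure_minimal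
      · rintro _ ⟨ζ, rfl⟩
        rw [LinearMap.mem_ker]
        apply lp.ext
        show push (R.d k) (push (R.d (k + 1)) (ζ : R.X (k + 2) → K)) = 0
        rw [← push_comp _ _ hB hA]
        have : R.d k ∘ₗ R.d (k + 1) = 0 := by
          apply LinearMap.ext
          intro c
          exact R.d_d k c
        rw [this]
        funext y
        show ∑ᶠ x, (mc (0 : ZMap (R.X (k + 2)) (R.X k)) x y : K) * ζ x = 0
        have : ∀ x, mc (0 : ZMap (R.X (k + 2)) (R.X k)) x y = 0 := fun x => rfl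
        simp [this]
      · exact (opL (K := K) (R.d k) hB).isClosed_ker
    have h2 := h1 hp
    rw [LinearMap.mem_ker] at h2
    have h3 := congrArg (fun q : L2 K (R.X k) => (q : R.X k → K)) h2
    exact h3

/-- the Hodge decomposition of a cycle -/
theorem mem_closure_of_harmZero (R : FreeRes.{u, v} Γ) (k : ℕ) (h : R.HarmZero K k) {A : ℝ}
    (hA : Bd (R.d k) A) (η : L2 K (R.X k)) (hη : R.IsCyc k (η : R.X k → K)) :
    η ∈ (LinearMap.range (opL (K := K) (R.d k) hA).toLinearMap).topologicalClosure := by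
  classical
  set W := (LinearMap.range (opL (K := K) (R.d k) hA).toLinearMap).topologicalClosure with hW
  have : CompleteSpace W := (Submodule.isClosed_topologicalClosure _).completeSpace_coe
  obtain ⟨p, hp, q, hq, hpq⟩ := W.exists_add_mem_mem_orthogonal η
  have hharm : R.IsHarm k (q : R.X k → K) := by
    refine ⟨summable_sq q, ?_, ?_⟩
    · intro z
      have h1 := hq (opL (R.d k) hA (lp.single 2 z 1))
        (Submodule.le_topologicalClosure _ ⟨_, rfl⟩)
      rw [opL_inner_single, star_one, one_mul] at h1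
      exact h1
    · have hpc := R.isCyc_closure k hA p hp
      cases k with
      | zero => trivial
      | succ k =>
        obtain ⟨B, hB⟩ := R.exists_bd R (R.d k) (R.d_act k)
        rw [isCyc_succ] at hη hpc ⊢
        have h2 : (η : R.X (k + 1) → K) = (p : R.X (k + 1) → K) + (q : R.X (k + 1) → K) := by
          rw [hpq]; rfl
        rw [h2, push_add _ hB, hpc, zero_add] at hη
        exact hη
  have hq0 : q = 0 := by
    apply lp.ext
    exact h _ hharm
  rw [hpq, hq0, add_zero]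
  exact hp

/-- vanishing of the harmonic chains does not depend on the resolution -/
theorem harmZero_of (R : FreeRes.{u, v} Γ) (R' : FreeRes.{u', v} Γ) (k : ℕ)
    (h : R'.HarmZero K k) : R.HarmZero K k := by
  obtain ⟨f, hf, hf0, hfd⟩ := exists_chainMap R R'
  obtain ⟨g, hg, hg0, hgd⟩ := exists_chainMap R' R
  obtain ⟨a, ha, ha0, had⟩ := exists_homotopy R (fun k => g k ∘ₗ f k)
    (fun k => (hg k).comp (hf k)) (fun c => by rw [LinearMap.comp_apply, hg0, hf0])
    (fun k c => by rw [LinearMap.comp_apply, LinearMap.comp_apply, hgd, hfd])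
  obtain ⟨A, hA⟩ := R.exists_bd R (R.d k) (R.d_act k)
  obtain ⟨A', hA'⟩ := R'.exists_bd R' (R'.d k) (R'.d_act k)
  obtain ⟨B, hB⟩ := R.exists_bd R' (f k) (hf k)
  obtain ⟨C, hC⟩ := R'.exists_bd R (g k) (hg k)
  obtain ⟨C', hC'⟩ := R'.exists_bd R (g (k + 1)) (hg (k + 1))
  obtain ⟨E, hE⟩ := R.exists_bd R (a k) (ha k)
  intro ξ hξ
  set x : L2 K (R.X k) := toL2 ξ hξ.sq with hx
  -- the image is a cycle
  have hcyc : R'.IsCyc k ((opL (f k) hB x : L2 K (R'.X k)) : R'.X k → K) := by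
    have hc := hξ.cyc
    cases k with
    | zero => trivial
    | succ k =>
      rw [isCyc_succ] at hc ⊢
      obtain ⟨B1, hB1⟩ := R.exists_bd R' (f k) (hf k)
      obtain ⟨A1, hA1⟩ := R.exists_bd R (R.d k) (R.d_act k)
      obtain ⟨A2, hA2⟩ := R'.exists_bd R' (R'.d k) (R'.d_act k)
      show push (R'.d k) (push (f (k + 1)) ξ) = 0
      rw [← push_comp _ _ hA2 hB]
      have : R'.d k ∘ₗ f (k + 1) = f k ∘ₗ R.d k := by
        apply LinearMap.ext
        intro c
        exact hfd k c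
      rw [this, push_comp _ _ hB1 hA1, hc]
      funext y
      simp [push]
  have h1 := R'.mem_closure_of_harmZero k h hA' _ hcyc
  -- its image in the first resolution
  have h2 : opL (g k) hC (opL (f k) hB x) ∈
      (LinearMap.range (opL (K := K) (R.d k) hA).toLinearMap).topologicalClosure := by
    refine map_mem_closure (opL (K := K) (g k) hC).continuous h1 ?_
    rintro _ ⟨ζ, rfl⟩
    refine ⟨opL (g (k + 1)) hC' ζ, ?_⟩
    apply lp.ext
    show push (R.d k) (push (g (k + 1)) (ζ : R'.X (k + 1) → K)) =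
      push (g k) (push (R'.d k) (ζ : R'.X (k + 1) → K))
    rw [← push_comp _ _ hA hC', ← push_comp _ _ hC hA']
    congr 1
    apply LinearMap.ext
    intro c
    exact hgd k c
  -- the homotopy
  have h3 : opL (g k) hC (opL (f k) hB x) = opL (R.d k) hA (opL (a k) hE x) + x := by
    apply lp.ext
    show push (g k) (push (f k) ξ) = push (R.d k) (push (a k) ξ) + ξ
    have hc := hξ.cyc
    cases k with
    | zero =>
      rw [← push_comp _ _ hA hE, ← push_comp _ _ hC hB]
      have : g 0 ∘ₗ f 0 = R.d 0 ∘ₗ a 0 + LinearMap.id := by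
        apply LinearMap.ext
        intro c
        have := ha0 c
        rw [LinearMap.comp_apply] at this
        rw [LinearMap.comp_apply, LinearMap.add_apply, LinearMap.comp_apply, this,
          LinearMap.id_apply, sub_add_cancel]
      rw [this]
      obtain ⟨I, hI⟩ := R.exists_bd R (LinearMap.id : ZMap (R.X 0) (R.X 0)) (fun g c => rfl)
      obtain ⟨J, hJ⟩ := R.exists_bd R (R.d 0 ∘ₗ a 0) (Eqv.comp (R.d_act 0) (ha 0))
      rw [push_add_left _ _ hJ hI, push_id]
    | succ k =>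
      rw [isCyc_succ] at hc
      rw [← push_comp _ _ hA hE, ← push_comp _ _ hC hB]
      have : g (k + 1) ∘ₗ f (k + 1) =
          (R.d (k + 1) ∘ₗ a (k + 1) + LinearMap.id) + a k ∘ₗ R.d k := by
        apply LinearMap.ext
        intro c
        have := had k c
        rw [LinearMap.comp_apply] at this
        simp only [LinearMap.comp_apply, LinearMap.add_apply, this, LinearMap.id_apply]
        abel
      rw [this]
      obtain ⟨I, hI⟩ := R.exists_bd R (LinearMap.id : ZMap (R.X (k + 1)) (R.X (k + 1)))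
        (fun g c => rfl)
      obtain ⟨J, hJ⟩ := R.exists_bd R (R.d (k + 1) ∘ₗ a (k + 1))
        (Eqv.comp (R.d_act (k + 1)) (ha (k + 1)))
      obtain ⟨L, hL⟩ := R.exists_bd R (R.d (k + 1) ∘ₗ a (k + 1) + LinearMap.id) (fun g c => by
        rw [LinearMap.add_apply, LinearMap.add_apply, LinearMap.id_apply, LinearMap.id_apply,
          map_add, Eqv.comp (R.d_act (k + 1)) (ha (k + 1))])
      obtain ⟨M, hM⟩ := R.exists_bd R (a k ∘ₗ R.d k) (Eqv.comp (ha k) (R.d_act k))
      obtain ⟨A1, hA1⟩ := R.exists_bd R (R.d k) (R.d_act k)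
      obtain ⟨E1, hE1⟩ := R.exists_bd R (a k) (ha k)
      rw [push_add_left _ _ hL hM, push_add_left _ _ hJ hI, push_id,
        push_comp (a k) (R.d k) hE1 hA1, hc]
      have h0 : push (a k) (0 : R.X k → K) = 0 := by
        funext y; simp [push]
      rw [h0, add_zero]
  have h4 : x ∈ (LinearMap.range (opL (K := K) (R.d k) hA).toLinearMap).topologicalClosure := by
    rw [h3] at h2
    have := Submodule.sub_mem _ h2 (Submodule.le_topologicalClosure _
      (⟨opL (a k) hE x, rfl⟩ : (opL (R.d k) hA (opL (a k) hE x)) ∈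
        LinearMap.range (opL (K := K) (R.d k) hA).toLinearMap))
    rwa [add_sub_cancel_left] at this
  -- orthogonality
  have h5 : (LinearMap.range (opL (K := K) (R.d k) hA).toLinearMap).topologicalClosure ≤
      (Submodule.span K {x})ᗮ := by
    apply Submodule.topologicalClosure_minimal
    · rintro _ ⟨ζ, rfl⟩
      rw [Submodule.mem_orthogonal_singleton_iff_inner_left]
      exact opL_inner_zero (R.d k) hA x hξ.cocyc ζ
    · exact Submodule.isClosed_orthogonal _
  have h6 := h5 h4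
  rw [Submodule.mem_orthogonal_singleton_iff_inner_left, inner_self_eq_zero] at h6
  have h7 := congrArg (fun q : L2 K (R.X k) => (q : R.X k → K)) h6
  exact h7

theorem harmZero_iff (R : FreeRes.{u, v} Γ) (R' : FreeRes.{u', v} Γ) (k : ℕ) :
    R.HarmZero K k ↔ R'.HarmZero K k :=
  ⟨fun h => R'.harmZero_of R k h, fun h => R.harmZero_of R' k h⟩

end FreeRes

end OS
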