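import Mathlib
import Pool.Agent.Lib.MP_8fe54c_gt.FreeRes
import Pool.Agent.Lib.MP_8fe54c_gt.L2Op
import Pool.Agent.Lib.MP_8fe54c_gt.L2Cmp

/-!
# Real and complex harmonic chains, reduced square summable homology
-/

namespace OS

open Finsupp

universe u v w

namespace FreeRes

variable {Γ : Type v} [Group Γ]

theorem harmZero_complex (R : FreeRes.{u, v} Γ) (k : ℕ) (h : R.HarmZero ℝ k) : R.HarmZero ℂ k := by
  intro ξ hξ
  have key : ∀ φ : ℂ →+ ℝ, (∀ (n : ℤ) (z : ℂ), φ (n * z) = n * φ z) → (∀ z, |φ z| ≤ ‖z‖) →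
      ∀ x, φ (ξ x) = 0 := by
    intro φ h1 h2
    have hh : R.IsHarm k (fun x => φ (ξ x)) := by
      refine ⟨?_, ?_, ?_⟩
      · refine Summable.of_nonneg_of_le (fun x => by positivity) (fun x => ?_) hξ.sq
        rw [Real.norm_eq_abs]
        have := h2 (ξ x)
        gcongr
      · intro z
        have h3 := hξ.cocyc z
        have h4 := congrArg φ h3
        rw [map_zero, AddMonoidHom.map_finsum] at h4
        · simpa only [h1] using h4
        · refine (R.finite_coef_left k z).subset ?_
          intro x hx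
          rw [Function.mem_support] at hx
          intro h'
          apply hx
          rw [h']; simp
      · have hc := hξ.cyc
        cases k with
        | zero => trivial
        | succ k =>
          intro y
          have h4 := congrArg φ (hc y)
          rw [map_zero, AddMonoidHom.map_finsum] at h4
          · simpa only [h1] using h4
          · refine (R.finite_coef_right k y).subset ?_
            intro x hx
            rw [Function.mem_support] at hx
            intro h'
            apply hx
            rw [h']; simp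
    exact fun x => congrFun (h _ hh) x
  funext x
  apply Complex.ext
  · exact key Complex.reAddGroupHom (fun n z => by simp) (fun z => Complex.abs_re_le_norm z) x
  · exact key Complex.imAddGroupHom (fun n z => by simp) (fun z => Complex.abs_im_le_norm z) x

theorem redZero_of_harmZero (R : FreeRes.{u, v} Γ) (k : ℕ) (h : R.HarmZero ℂ k) : R.RedZero k := by
  classical
  intro ξ hξ hc e he
  obtain ⟨A, hA⟩ := R.exists_bd R (R.d k) (R.d_act k)
  have h1 := R.mem_closure_of_harmZero k h hA (toL2 ξ hξ) hc
  have hδ : 0 < Real.sqrt e / 2 := by positivity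
  have h2 := Metric.mem_closure_iff.1 h1 (Real.sqrt e / 2) hδ
  obtain ⟨_, ⟨ζ, rfl⟩, h3⟩ := h2
  have h4 := (lp.hasSum_single (p := 2) (by norm_num) ζ).mapL (opL (R.d k) hA)
  have h5 := Metric.tendsto_atTop.1 h4 (Real.sqrt e / 2) hδ
  obtain ⟨s, hs⟩ := h5
  have h6 := hs s le_rfl
  set y : L2 ℂ (R.X k) := ∑ z ∈ s, opL (R.d k) hA (lp.single 2 z (ζ z)) with hy
  have h7 : dist (toL2 ξ hξ) y < Real.sqrt e := by
    calc dist (toL2 ξ hξ) y ≤ dist (toL2 ξ hξ) (opL (R.d k) hA ζ) + dist (opL (R.d k) hA ζ) y :=
          dist_triangle _ _ _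
      _ < Real.sqrt e / 2 + Real.sqrt e / 2 := by
          refine add_lt_add h3 ?_
          rw [dist_comm]
          exact h6
      _ = Real.sqrt e := by ring
  rw [dist_eq_norm] at h7
  have h8 : ‖toL2 ξ hξ - y‖ ^ 2 < e := by
    calc ‖toL2 ξ hξ - y‖ ^ 2 < Real.sqrt e ^ 2 := by
          gcongr
      _ = e := Real.sq_sqrt he.le
  let c : R.X (k + 1) →₀ ℂ := ∑ z ∈ s, single z (ζ z)
  have h9 : ∀ x, (c.sum fun z n => n * (R.coef k z x : ℂ)) = y x := by
    intro x
    have h10 : (c.sum fun z n => n * (R.coef k z x : ℂ)) = ∑ z ∈ s, ζ z * (R.coef k z x : ℂ) := by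
      rw [← Finsupp.sum_finsetSum_index (fun z => zero_mul _) (fun z a b => add_mul a b _)]
      refine Finset.sum_congr rfl (fun z _ => ?_)
      rw [Finsupp.sum_single_index (zero_mul _)]
    rw [h10, hy, lp.coeFn_sum, Finset.sum_apply]
    refine Finset.sum_congr rfl (fun z _ => ?_)
    rw [opL_single, mul_comm]
    rfl
  have h11 : (fun x => ‖ξ x - c.sum fun z n => n * (R.coef k z x : ℂ)‖ ^ 2) =
      fun x => ‖(toL2 ξ hξ - y) x‖ ^ 2 := by
    funext x
    rw [h9]
    rfl
  refine ⟨c, ?_, ?_⟩
  · rw [h11]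
    exact summable_sq (toL2 ξ hξ - y)
  · rw [h11, ← norm_sq_eq]
    exact h8

end FreeRes

end OS
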