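import Mathlib

/-!
# Right-angled Artin groups: the Bass-Serre tree of a vertex

For `U' ⊆ V`, `v ∉ U'` and `K = U' ∩ lk v` the map `g A_K ↦ g A_{U'} - g a_v A_{U'}` is injective.
-/

namespace OS

open Finsupp
open scoped commutatorElement

variable {V : Type*} (G : SimpleGraph V)

/-- the relators of the right-angled Artin group: the commutators `[u, v]`, `u` adjacent to `v` -/
def raagRels : Set (FreeGroup V) :=
  {r | ∃ u v, G.Adj u v ∧
    r = FreeGroup.of u * FreeGroup.of v * (FreeGroup.of u)⁻¹ * (FreeGroup.of v)⁻¹}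

/-- the right-angled Artin group of the graph `G`: generators the vertices of `G`, adjacent
generators commute -/
abbrev RAAG := PresentedGroup (raagRels G)

variable {G}

/-- the generators -/
def ra (v : V) : RAAG G := PresentedGroup.of v

theorem ra_comm {u v : V} (h : G.Adj u v) : Commute (ra u : RAAG G) (ra v) := by
  have h1 : (PresentedGroup.mk (raagRels G)) ⁅FreeGroup.of u, FreeGroup.of v⁆ = 1 := by
    apply PresentedGroup.one_of_mem
    exact ⟨u, v, h, rfl⟩
  rw [map_commutatorElement, commutatorElement_eq_one_iff_commute] at h1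
  exact h1

/-- the universal property -/
def raLift {H : Type*} [Group H] (f : V → H) (hf : ∀ u v, G.Adj u v → Commute (f u) (f v)) :
    RAAG G →* H :=
  PresentedGroup.toGroup (f := f) (by
    rintro r ⟨u, v, h, rfl⟩
    rw [← commutatorElement_def, map_commutatorElement, FreeGroup.lift_apply_of, FreeGroup.lift_apply_of,
      commutatorElement_eq_one_iff_commute]
    exact hf u v h)

@[simp] theorem raLift_ra {H : Type*} [Group H] (f : V → H)
    (hf : ∀ u v, G.Adj u v → Commute (f u) (f v)) (v : V) : raLift f hf (ra v) = f v :=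
  PresentedGroup.toGroup.of _

variable (G) in
/-- the subgroup generated by the generators in `S` -/
def sg (S : Set V) : Subgroup (RAAG G) := Subgroup.closure (ra '' S)

theorem ra_mem_sg {S : Set V} {v : V} (h : v ∈ S) : (ra v : RAAG G) ∈ sg G S :=
  Subgroup.subset_closure ⟨v, h, rfl⟩

section tree

variable {v : V} {U K : Set V}

/-- the free abelian group on `A / A_K` -/
abbrev CosMod (K : Set V) (G : SimpleGraph V) := (RAAG G ⧸ sg G K) →₀ ℤ

/-- left multiplication on the free abelian group on `A / A_K` -/
noncomputable def lmul (g : RAAG G) : CosMod K G ≃ CosMod K G where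
  toFun m := m.mapDomain (g • ·)
  invFun m := m.mapDomain (g⁻¹ • ·)
  left_inv m := by
    simp only
    rw [← Finsupp.mapDomain_comp]
    conv_rhs => rw [← Finsupp.mapDomain_id (v := m)]
    congr 1
    funext x
    simp
  right_inv m := by
    simp only
    rw [← Finsupp.mapDomain_comp]
    conv_rhs => rw [← Finsupp.mapDomain_id (v := m)]
    congr 1
    funext x
    simp

theorem lmul_apply (g : RAAG G) (m : CosMod K G) : lmul g m = m.mapDomain (g • ·) := rfl

theorem lmul_mul (g h : RAAG G) (m : CosMod K G) : lmul g (lmul h m) = lmul (g * h) m := by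
  simp only [lmul_apply]
  rw [← Finsupp.mapDomain_comp]
  congr 1
  funext x
  simp [mul_smul]

theorem lmul_one (m : CosMod K G) : lmul (1 : RAAG G) m = m := by
  simp only [lmul_apply]
  conv_rhs => rw [← Finsupp.mapDomain_id (v := m)]
  congr 1
  funext x
  simp

theorem lmul_add (g : RAAG G) (m m' : CosMod K G) : lmul g (m + m') = lmul g m + lmul g m' :=
  Finsupp.mapDomain_add

theorem lmul_zero (g : RAAG G) : lmul g (0 : CosMod K G) = 0 := by
  rw [lmul_apply]; exact Finsupp.mapDomain_zero

theorem lmul_single (g x : RAAG G) (n : ℤ) :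
    lmul g (single (x : RAAG G ⧸ sg G K) n) = single ((g * x : RAAG G) : RAAG G ⧸ sg G K) n := by
  rw [lmul_apply, Finsupp.mapDomain_single]
  rfl

/-- affine maps -/
noncomputable def affE (g : RAAG G) (e : CosMod K G) : Equiv.Perm (CosMod K G) :=
  (lmul g).trans (Equiv.addRight e)

theorem affE_apply (g : RAAG G) (e m : CosMod K G) : affE g e m = lmul g m + e := rfl

open Classical in
/-- the affine representation -/
noncomputable def affGen (v : V) (U K : Set V) (G : SimpleGraph V) (u : V) :
    Equiv.Perm (CosMod K G) :=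
  if u = v then affE (ra v) (single ((1 : RAAG G) : RAAG G ⧸ sg G K) 1)
  else if u ∈ U then affE (ra u) 0 else 1

theorem commute_affE {g h : RAAG G} {e e' : CosMod K G} (hc : Commute g h)
    (h1 : lmul g e' + e = lmul h e + e') : Commute (affE g e) (affE h e') := by
  apply Equiv.ext
  intro m
  show affE g e (affE h e' m) = affE h e' (affE g e m)
  simp only [affE_apply, lmul_add, lmul_mul, hc.eq]
  rw [add_assoc, h1, add_assoc]

theorem affGen_comm (hv : v ∉ U) (hK : K = {u | u ∈ U ∧ G.Adj v u}) (u w : V) (h : G.Adj u w) :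
    Commute (affGen v U K G u) (affGen v U K G w) := by
  have key : ∀ u, u ∈ U → G.Adj v u → Commute (affE (ra v) (single ((1 : RAAG G) : RAAG G ⧸ sg G K) 1))
      (affE (ra u : RAAG G) (0 : CosMod K G)) := by
    intro u hu hvu
    apply commute_affE (ra_comm hvu)
    rw [lmul_zero, zero_add, add_zero, lmul_single, mul_one]
    congr 1
    rw [eq_comm, QuotientGroup.eq, mul_one]
    exact (sg G K).inv_mem (ra_mem_sg (by rw [hK]; exact ⟨hu, hvu⟩))
  unfold affGen
  split_ifs with h1 h2 h3 h4 h5 h6
  · subst h1; subst h2; exact absurd h G.irrefl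
  · subst h1; exact key w h3 h
  · exact Commute.one_right _
  · subst h5; exact (key u h4 h.symm).symm
  · apply commute_affE (ra_comm h)
    simp [lmul_zero]
  · exact Commute.one_right _
  · exact Commute.one_left _
  · exact Commute.one_left _
  · exact Commute.one_left _

variable (hv : v ∉ U) (hK : K = {u | u ∈ U ∧ G.Adj v u})

/-- the affine representation of the Artin group -/
noncomputable def affRep : RAAG G →* Equiv.Perm (CosMod K G) :=
  raLift (affGen v U K G) (affGen_comm hv hK)

/-- on the subgroup of `insert v U` the linear part is the left multiplication -/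
theorem affRep_lin {g : RAAG G} (hg : g ∈ sg G (insert v U)) (m : CosMod K G) :
    affRep hv hK g m = lmul g m + affRep hv hK g 0 := by
  revert m
  induction hg using Subgroup.closure_induction with
  | mem x hx =>
    intro m
    obtain ⟨u, hu, rfl⟩ := hx
    unfold affRep
    rw [raLift_ra]
    unfold affGen
    rcases hu with rfl | hu
    · simp only [if_true, affE_apply, lmul_zero, zero_add]
    · have : u ≠ v := by rintro rfl; exact hv hu
      simp only [if_neg this, if_pos hu, affE_apply, lmul_zero, zero_add]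
  | one => intro m; simp [lmul_one]
  | mul x y _ _ hx hy =>
    intro m
    simp only [map_mul, Equiv.Perm.mul_apply]
    rw [hx, hy m, hx (affRep hv hK y 0), lmul_add, lmul_mul, add_assoc]
  | inv x _ hx =>
    intro m
    have h1 : affRep hv hK x (affRep hv hK x⁻¹ m) = m := by
      rw [← Equiv.Perm.mul_apply, ← map_mul]; simp
    have h2 : affRep hv hK x (affRep hv hK x⁻¹ 0) = 0 := by
      rw [← Equiv.Perm.mul_apply, ← map_mul]; simp
    rw [hx] at h1 h2
    have h3 : lmul x⁻¹ (lmul x (affRep hv hK x⁻¹ m) + affRep hv hK x 0) = lmul x⁻¹ m := by rw [h1]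
    have h4 : lmul x⁻¹ (lmul x (affRep hv hK x⁻¹ 0) + affRep hv hK x 0) = 0 := by
      rw [h2, lmul_zero]
    rw [lmul_add, lmul_mul, inv_mul_cancel, lmul_one] at h3 h4
    rw [← h3, add_assoc, add_comm (lmul x⁻¹ _), h4, add_zero]

theorem affRep_U {g : RAAG G} (hg : g ∈ sg G U) : affRep hv hK g 0 = 0 := by
  have hsub : ∀ g ∈ sg G U, g ∈ sg G (insert v U) := fun g hg =>
    (Subgroup.closure_mono (Set.image_mono (Set.subset_insert v U))) hg
  induction hg using Subgroup.closure_induction with
  | mem x hx =>
    obtain ⟨u, hu, rfl⟩ := hx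
    have : u ≠ v := by rintro rfl; exact hv hu
    unfold affRep
    rw [raLift_ra]
    unfold affGen
    simp only [if_neg this, if_pos hu, affE_apply, lmul_zero, zero_add]
  | one => simp
  | mul x y hx0 _ hx hy =>
    rw [map_mul, Equiv.Perm.mul_apply, hy, hx]
  | inv x _ hx =>
    have h1 : affRep hv hK x⁻¹ (affRep hv hK x 0) = 0 := by
      rw [← Equiv.Perm.mul_apply, ← map_mul]; simp
    rwa [hx] at h1

theorem affRep_v : affRep hv hK (ra v) 0 = single ((1 : RAAG G) : RAAG G ⧸ sg G K) 1 := by
  unfold affRep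
  rw [raLift_ra]
  unfold affGen
  simp only [if_true, affE_apply, lmul_zero, zero_add]

/-- the geodesic from `g` to the base point of its component -/
noncomputable def geo (g : RAAG G) : CosMod K G :=
  lmul (g : RAAG G ⧸ sg G (insert v U)).out
    (affRep hv hK ((g : RAAG G ⧸ sg G (insert v U)).out⁻¹ * g) 0)

theorem geo_mul (g : RAAG G) {h : RAAG G} (hh : h ∈ sg G (insert v U)) :
    geo hv hK (g * h) = geo hv hK g + lmul g (affRep hv hK h 0) := by
  have hcos : ((g * h : RAAG G) : RAAG G ⧸ sg G (insert v U)) = g := by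
    rw [QuotientGroup.eq, mul_inv_rev, mul_assoc, inv_mul_cancel, mul_one]
    exact (sg G _).inv_mem hh
  unfold geo
  rw [hcos]
  set r := (g : RAAG G ⧸ sg G (insert v U)).out with hr
  have hrg : r⁻¹ * g ∈ sg G (insert v U) := by
    rw [← QuotientGroup.eq, hr]
    exact QuotientGroup.out_eq' _
  rw [← mul_assoc, map_mul, Equiv.Perm.mul_apply, affRep_lin hv hK hrg, lmul_add, lmul_mul,
    mul_inv_cancel_left, add_comm]

theorem geo_U (g : RAAG G) {h : RAAG G} (hh : h ∈ sg G U) : geo hv hK (g * h) = geo hv hK g := by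
  rw [geo_mul hv hK g ((Subgroup.closure_mono (Set.image_mono (Set.subset_insert v U))) hh),
    affRep_U hv hK hh, lmul_zero, add_zero]

theorem geo_v (g : RAAG G) : geo hv hK (g * ra v) =
    geo hv hK g + single (g : RAAG G ⧸ sg G K) 1 := by
  rw [geo_mul hv hK g (ra_mem_sg (Set.mem_insert v U)), affRep_v, lmul_single, mul_one]

/-- the projection `ℤ[A] → ℤ[A / A_S]` -/
noncomputable def prj (S : Set V) : (RAAG G →₀ ℤ) →+ ((RAAG G ⧸ sg G S) →₀ ℤ) :=
  Finsupp.mapDomain.addMonoidHom (fun g : RAAG G => (g : RAAG G ⧸ sg G S))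

/-- right multiplication -/
noncomputable def rmul (h : RAAG G) : (RAAG G →₀ ℤ) →+ (RAAG G →₀ ℤ) :=
  Finsupp.mapDomain.addMonoidHom (fun g : RAAG G => g * h)

theorem prj_single (S : Set V) (g : RAAG G) (n : ℤ) :
    prj S (single g n) = single (g : RAAG G ⧸ sg G S) n := by
  simp [prj, Finsupp.mapDomain.addMonoidHom]

theorem rmul_single (h g : RAAG G) (n : ℤ) : rmul h (single g n) = single (g * h) n := by
  simp [rmul, Finsupp.mapDomain.addMonoidHom]

/-- linear extension of `geo` -/
noncomputable def geoL : (RAAG G →₀ ℤ) →+ CosMod K G :=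
  Finsupp.liftAddHom (fun g => (AddMonoidHom.flip (smulAddHom ℤ (CosMod K G))) (geo hv hK g))

theorem geoL_single (g : RAAG G) (n : ℤ) : geoL hv hK (single g n) = n • geo hv hK g := by
  simp [geoL]

/-- `geoL` factors through the projection to `ℤ[A / A_U]` -/
theorem geoL_factor : ∃ f : ((RAAG G ⧸ sg G U) →₀ ℤ) →+ CosMod K G,
    ∀ x, geoL hv hK x = f (prj U x) := by
  classical
  have h0 : ∀ g g' : RAAG G, (g : RAAG G ⧸ sg G U) = g' → geo hv hK g = geo hv hK g' := by
    intro g g' h
    rw [QuotientGroup.eq] at h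
    have := geo_U hv hK g h
    rw [mul_inv_cancel_left] at this
    exact this.symm
  refine ⟨Finsupp.liftAddHom (fun q => (AddMonoidHom.flip (smulAddHom ℤ (CosMod K G)))
    (geo hv hK q.out)), fun x => ?_⟩
  have : (geoL hv hK) = (Finsupp.liftAddHom (fun q : RAAG G ⧸ sg G U =>
      (AddMonoidHom.flip (smulAddHom ℤ (CosMod K G))) (geo hv hK q.out))).comp (prj U) := by
    apply Finsupp.addHom_ext
    intro g n
    rw [geoL_single, AddMonoidHom.comp_apply, prj_single]
    simp only [Finsupp.liftAddHom_apply_single, AddMonoidHom.flip_apply, smulAddHom_apply]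
    rw [h0 g (g : RAAG G ⧸ sg G U).out (QuotientGroup.out_eq' _).symm]
  rw [this]
  rfl

include hv hK in
/-- (T1) injectivity -/
theorem tree_inj (y : RAAG G →₀ ℤ) (h : prj U (y - rmul (ra v) y) = 0) : prj K y = 0 := by
  obtain ⟨f, hf⟩ := geoL_factor hv hK
  have h1 : geoL hv hK (y - rmul (ra v) y) = 0 := by rw [hf, h, map_zero]
  have h2 : ∀ y : RAAG G →₀ ℤ, geoL hv hK (y - rmul (ra v) y) = - prj K y := by
    intro y
    have : (geoL hv hK).comp (AddMonoidHom.id _ - rmul (ra v)) = - (prj (G := G) K) := by
      apply Finsupp.addHom_ext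
      intro g n
      simp only [AddMonoidHom.comp_apply, AddMonoidHom.sub_apply, AddMonoidHom.id_apply,
        rmul_single, map_sub, geoL_single, geo_v, smul_add, AddMonoidHom.neg_apply, prj_single,
        Finsupp.smul_single, smul_eq_mul, mul_one]
      abel
    exact DFunLike.congr_fun this y
  rw [h2, neg_eq_zero] at h1
  exact h1

end tree

/-- the kernel of the projection -/
theorem mem_of_prj_eq_zero (S : Set V) (M : AddSubgroup (RAAG G →₀ ℤ))
    (hM : ∀ g : RAAG G, ∀ u ∈ S, single (g * ra u) 1 - single g (1 : ℤ) ∈ M) (x : RAAG G →₀ ℤ)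
    (hx : prj S x = 0) : x ∈ M := by
  classical
  have h1 : ∀ h ∈ sg G S, ∀ g : RAAG G, single (g * h) 1 - single g (1 : ℤ) ∈ M := by
    intro h hh
    induction hh using Subgroup.closure_induction with
    | mem x hx =>
      obtain ⟨u, hu, rfl⟩ := hx
      exact fun g => hM g u hu
    | one => intro g; simp [M.zero_mem]
    | mul x y _ _ hx hy =>
      intro g
      have := M.add_mem (hy (g * x)) (hx g)
      rwa [sub_add_sub_cancel, mul_assoc] at this
    | inv x _ hx =>
      intro g
      have := M.neg_mem (hx (g * x⁻¹))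
      rwa [neg_sub, inv_mul_cancel_right] at this
  have h2 : ∀ g : RAAG G, ∀ n : ℤ,
      single g n - single ((g : RAAG G ⧸ sg G S).out) n ∈ M := by
    intro g n
    set r := (g : RAAG G ⧸ sg G S).out with hr
    have hrg : r⁻¹ * g ∈ sg G S := by
      rw [← QuotientGroup.eq, hr]
      exact QuotientGroup.out_eq' _
    have := M.zsmul_mem (h1 _ hrg r) n
    rwa [mul_inv_cancel_left, smul_sub, Finsupp.smul_single, Finsupp.smul_single, smul_eq_mul,
      mul_one] at this
  -- the section
  let s : ((RAAG G ⧸ sg G S) →₀ ℤ) →+ (RAAG G →₀ ℤ) :=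
    Finsupp.mapDomain.addMonoidHom (fun q : RAAG G ⧸ sg G S => q.out)
  have h3 : ∀ x : RAAG G →₀ ℤ, x - s (prj S x) ∈ M := by
    intro x
    induction x using Finsupp.induction_linear with
    | zero => simp [M.zero_mem]
    | add f g hf hg =>
      have := M.add_mem hf hg
      rw [map_add, map_add]
      convert this using 1
      abel
    | single g n =>
      rw [prj_single]
      have : s (single (g : RAAG G ⧸ sg G S) n) = single ((g : RAAG G ⧸ sg G S).out) n := by
        simp [s, Finsupp.mapDomain.addMonoidHom]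
      rw [this]
      exact h2 g n
  have := h3 x
  rwa [hx, map_zero, sub_zero] at this

theorem prj_rmul_sub (S : Set V) {u : V} (hu : u ∈ S) (x : RAAG G →₀ ℤ) :
    prj S (x - rmul (ra u) x) = 0 := by
  have : (prj (G := G) S).comp (AddMonoidHom.id _ - rmul (ra u)) = 0 := by
    apply Finsupp.addHom_ext
    intro g n
    simp only [AddMonoidHom.comp_apply, AddMonoidHom.sub_apply, AddMonoidHom.id_apply,
      rmul_single, map_sub, prj_single, AddMonoidHom.zero_apply]
    rw [sub_eq_zero]
    congr 1
    rw [QuotientGroup.eq]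
    simpa using ra_mem_sg hu
  exact DFunLike.congr_fun this x

end OS
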