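import Mathlib
import Pool.Agent.Lib.MP_8fe54c_gt.SalTree

/-!
# The Salvetti complex of a right-angled Artin group is exact (core)

Chains on `A × Finset V`; the cell `(g, σ)`, `σ` a clique, has boundary
`∑_{v ∈ σ} (-1)^{#{u ∈ σ : u < v}} ((g, σ - v) - (g a_v, σ - v))`.
-/

namespace OS

open Finsupp

variable {V : Type*} [LinearOrder V] {G : SimpleGraph V}

/-- integral chains on `A × Finset V` -/
abbrev SCh (G : SimpleGraph V) := (RAAG G × Finset V) →₀ ℤ

/-- the sign -/
def sgnV (σ : Finset V) (v : V) : ℤ := (-1) ^ (σ.filter (fun u => u < v)).card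

/-- the boundary of a cell -/
noncomputable def bdy1 (p : RAAG G × Finset V) : SCh G :=
  ∑ v ∈ p.2, sgnV p.2 v • (single (p.1, p.2.erase v) 1 - single (p.1 * ra v, p.2.erase v) 1)

/-- the boundary operator -/
noncomputable def bdy : SCh G →ₗ[ℤ] SCh G :=
  Finsupp.lsum ℤ (fun p => LinearMap.toSpanSingleton ℤ _ (bdy1 p))

theorem bdy_single (p : RAAG G × Finset V) (n : ℤ) : bdy (single p n) = n • bdy1 p := by
  simp [bdy]

theorem bdy_one (p : RAAG G × Finset V) : bdy (single p 1) = bdy1 p := by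
  rw [bdy_single, one_smul]

/-- adding `v` to the cell -/
noncomputable def JJ (v : V) : SCh G →ₗ[ℤ] SCh G :=
  Finsupp.lmapDomain ℤ ℤ (fun p => (p.1, insert v p.2))

/-- right multiplication by `a_v` -/
noncomputable def RR (v : V) : SCh G →ₗ[ℤ] SCh G :=
  Finsupp.lmapDomain ℤ ℤ (fun p => (p.1 * ra v, p.2))

theorem JJ_single (v : V) (p : RAAG G × Finset V) (n : ℤ) :
    JJ v (single p n) = single (p.1, insert v p.2) n := by
  simp [JJ, Finsupp.lmapDomain_apply, Finsupp.mapDomain_single]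

theorem RR_single (v : V) (p : RAAG G × Finset V) (n : ℤ) :
    RR v (single p n) = single (p.1 * ra v, p.2) n := by
  simp [RR, Finsupp.lmapDomain_apply, Finsupp.mapDomain_single]

/-- chains supported on the cliques in `U` with `k` elements -/
def Lv (G : SimpleGraph V) (U : Set V) (k : ℕ) : Submodule ℤ (SCh G) :=
  Finsupp.supported ℤ ℤ {p | (p.2 : Set V) ⊆ U ∧ G.IsClique (p.2 : Set V) ∧ p.2.card = k}

theorem Lv_single {U : Set V} {k : ℕ} {p : RAAG G × Finset V} (h1 : (p.2 : Set V) ⊆ U)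
    (h2 : G.IsClique (p.2 : Set V)) (h3 : p.2.card = k) (n : ℤ) : single p n ∈ Lv G U k :=
  Finsupp.single_mem_supported ℤ n ⟨h1, h2, h3⟩

theorem Lv_induct {U : Set V} {k : ℕ} {P : SCh G → Prop} (h0 : P 0)
    (hadd : ∀ x y, P x → P y → P (x + y)) (hsmul : ∀ (n : ℤ) x, P x → P (n • x))
    (hs : ∀ p : RAAG G × Finset V, (p.2 : Set V) ⊆ U → G.IsClique (p.2 : Set V) →
      p.2.card = k → P (single p 1)) {c : SCh G} (hc : c ∈ Lv G U k) : P c := by
  unfold Lv at hc
  rw [Finsupp.supported_eq_span_single] at hc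
  induction hc using Submodule.span_induction with
  | mem x hx =>
    obtain ⟨p, hp, rfl⟩ := hx
    exact hs p hp.1 hp.2.1 hp.2.2
  | zero => exact h0
  | add x y _ _ hx hy => exact hadd x y hx hy
  | smul n x _ hx => exact hsmul n x hx

theorem Lv_mono {U U' : Set V} (h : U ⊆ U') (k : ℕ) : Lv G U k ≤ Lv G U' k := by
  apply Finsupp.supported_mono
  rintro p ⟨h1, h2⟩
  exact ⟨h1.trans h, h2⟩

theorem bdy_mem {U : Set V} {k : ℕ} {c : SCh G} (hc : c ∈ Lv G U (k + 1)) :
    bdy c ∈ Lv G U k := by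
  refine Lv_induct (P := fun c => bdy c ∈ Lv G U k) (by simp) ?_ ?_ ?_ hc
  · intro x y hx hy
    rw [map_add]; exact Submodule.add_mem _ hx hy
  · intro n x hx
    rw [map_smul]; exact Submodule.smul_mem _ n hx
  · intro p h1 h2 h3
    show bdy (single p 1) ∈ Lv G U k
    rw [bdy_one]
    unfold bdy1
    refine Submodule.sum_mem _ (fun v hv => Submodule.smul_mem _ _ (Submodule.sub_mem _ ?_ ?_))
    all_goals
      refine Lv_single ?_ ?_ ?_ _
      · exact (Finset.coe_subset.2 (Finset.erase_subset v p.2)).trans h1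
      · exact h2.subset (Finset.coe_subset.2 (Finset.erase_subset v p.2))
      · simp [Finset.card_erase_of_mem hv, h3]

theorem bdy_zero {U : Set V} {c : SCh G} (hc : c ∈ Lv G U 0) : bdy c = 0 := by
  refine Lv_induct (P := fun c => bdy c = 0) (by simp) ?_ ?_ ?_ hc
  · intro x y hx hy
    rw [map_add, hx, hy, add_zero]
  · intro n x hx
    rw [map_smul, hx, smul_zero]
  · intro p h1 h2 h3
    show bdy (single p 1) = 0
    rw [bdy_one]
    unfold bdy1
    rw [Finset.card_eq_zero.1 h3]
    simp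

theorem bdy_JJ {U : Set V} {k : ℕ} {v : V} (hU : ∀ u ∈ U, u < v) {c : SCh G}
    (hc : c ∈ Lv G U k) :
    bdy (JJ v c) = JJ v (bdy c) + (-1 : ℤ) ^ k • (c - RR v c) := by
  refine Lv_induct (P := fun c => bdy (JJ v c) = JJ v (bdy c) + (-1 : ℤ) ^ k • (c - RR v c))
    (by simp) ?_ ?_ ?_ hc
  · intro x y hx hy
    simp only [map_add, hx, hy, smul_sub, smul_add]
    abel
  · intro n x hx
    simp only [map_smul, hx, smul_add, smul_sub]
    simp only [smul_comm n ((-1 : ℤ) ^ k)]
  · intro p h1 h2 h3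
    obtain ⟨g, τ⟩ := p
    simp only at h1 h2 h3
    show bdy (JJ v (single (g, τ) 1)) = _
    have hv : v ∉ τ := fun h => lt_irrefl _ (hU v (h1 h))
    rw [JJ_single, bdy_one, bdy_one, RR_single]
    unfold bdy1
    simp only
    rw [Finset.sum_insert hv, add_comm]
    congr 1
    · rw [map_sum]
      refine Finset.sum_congr rfl (fun w hw => ?_)
      have hwv : w < v := hU w (h1 hw)
      rw [map_smul, map_sub, JJ_single, JJ_single]
      have e1 : (insert v τ).erase w = insert v (τ.erase w) :=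
        Finset.erase_insert_of_ne hwv.ne'
      have e2 : sgnV (insert v τ) w = sgnV τ w := by
        unfold sgnV
        rw [Finset.filter_insert, if_neg (not_lt.2 hwv.le)]
      rw [e1, e2]
    · have e1 : (insert v τ).erase v = τ := Finset.erase_insert hv
      have e2 : sgnV (insert v τ) v = (-1) ^ k := by
        unfold sgnV
        rw [Finset.filter_insert, if_neg (lt_irrefl v), ← h3]
        congr 2
        rw [Finset.filter_eq_self]
        exact fun u hu => hU u (h1 hu)
      rw [e1, e2]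

theorem bdy_RR {U : Set V} {k : ℕ} {v : V} (hU : ∀ u ∈ U, G.Adj v u) {c : SCh G}
    (hc : c ∈ Lv G U k) : bdy (RR v c) = RR v (bdy c) := by
  refine Lv_induct (P := fun c => bdy (RR v c) = RR v (bdy c)) (by simp) ?_ ?_ ?_ hc
  · intro x y hx hy
    simp only [map_add, hx, hy]
  · intro n x hx
    simp only [map_smul, hx]
  · intro p h1 h2 h3
    obtain ⟨g, τ⟩ := p
    simp only at h1 h2 h3
    show bdy (RR v (single (g, τ) 1)) = _
    rw [RR_single, bdy_one, bdy_one]
    unfold bdy1
    simp only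
    rw [map_sum]
    refine Finset.sum_congr rfl (fun w hw => ?_)
    rw [map_smul, map_sub, RR_single, RR_single]
    simp only
    rw [mul_assoc, mul_assoc, (ra_comm (hU w (h1 hw))).eq]

theorem bdy_bdy_single (g : RAAG G) (τ : Finset V) (hτ : G.IsClique (τ : Set V)) :
    bdy (bdy (single (g, τ) 1)) = 0 := by
  induction τ using Finset.induction_on_max with
  | empty =>
    rw [bdy_zero (U := Set.univ) (Lv_single (Set.subset_univ _) (by simp) (by simp) 1), map_zero]
  | insert v τ hlt ih =>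
    have hc : G.IsClique (τ : Set V) := hτ.subset (by simp)
    have hadj : ∀ u ∈ (τ : Set V), G.Adj v u := by
      intro u hu
      exact hτ (by simp) (by simp [Finset.mem_coe.1 hu]) (hlt u (Finset.mem_coe.1 hu)).ne'
    have hU : ∀ u ∈ (τ : Set V), u < v := fun u hu => hlt u (Finset.mem_coe.1 hu)
    have hs : (single (g, τ) 1 : SCh G) ∈ Lv G (τ : Set V) τ.card :=
      Lv_single subset_rfl hc rfl 1
    have e0 : (single (g, insert v τ) 1 : SCh G) = JJ v (single (g, τ) 1) := by
      rw [JJ_single]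
    rw [e0, bdy_JJ hU hs, map_add, map_smul, map_sub, bdy_RR hadj hs]
    rcases Nat.eq_zero_or_pos τ.card with h0 | hpos
    · have hz : bdy (single (g, τ) 1 : SCh G) = 0 := by
        rw [h0] at hs
        exact bdy_zero hs
      rw [hz]
      simp
    · obtain ⟨k, hk⟩ := Nat.exists_eq_succ_of_ne_zero hpos.ne'
      rw [hk] at hs
      rw [bdy_JJ hU (bdy_mem hs), ih hc, map_zero, zero_add, hk, Nat.succ_eq_add_one, pow_succ]
      rw [mul_neg_one, neg_smul, add_neg_cancel]

theorem bdy_bdy {U : Set V} {k : ℕ} {c : SCh G} (hc : c ∈ Lv G U k) : bdy (bdy c) = 0 := by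
  refine Lv_induct (P := fun c => bdy (bdy c) = 0) (by simp) ?_ ?_ ?_ hc
  · intro x y hx hy
    simp only [map_add, hx, hy, add_zero]
  · intro n x hx
    simp only [map_smul, hx, smul_zero]
  · intro p h1 h2 h3
    exact bdy_bdy_single p.1 p.2 h2

/-- decomposition of a chain with respect to `v` -/
theorem Lv_decomp {U : Set V} {v : V} (hv : v ∉ U) {k : ℕ} {c : SCh G}
    (hc : c ∈ Lv G (insert v U) (k + 1)) :
    ∃ x ∈ Lv G U (k + 1), ∃ y ∈ Lv G {u | u ∈ U ∧ G.Adj v u} k, c = x + JJ v y := by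
  refine Lv_induct (P := fun c => ∃ x ∈ Lv G U (k + 1), ∃ y ∈ Lv G {u | u ∈ U ∧ G.Adj v u} k,
    c = x + JJ v y) ?_ ?_ ?_ ?_ hc
  · exact ⟨0, Submodule.zero_mem _, 0, Submodule.zero_mem _, by simp⟩
  · rintro _ _ ⟨x, hx, y, hy, rfl⟩ ⟨x', hx', y', hy', rfl⟩
    exact ⟨x + x', Submodule.add_mem _ hx hx', y + y', Submodule.add_mem _ hy hy', by
      rw [map_add]; abel⟩
  · rintro n _ ⟨x, hx, y, hy, rfl⟩
    exact ⟨n • x, Submodule.smul_mem _ _ hx, n • y, Submodule.smul_mem _ _ hy, by
      rw [map_smul, smul_add]⟩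
  · rintro ⟨g, τ⟩ h1 h2 h3
    simp only at h1 h2 h3
    by_cases hvt : v ∈ τ
    · refine ⟨0, Submodule.zero_mem _, single (g, τ.erase v) 1, ?_, ?_⟩
      · refine Lv_single ?_ ?_ ?_ 1
        · intro u hu
          have hu' := Finset.mem_erase.1 (Finset.mem_coe.1 hu)
          refine ⟨(h1 (Finset.mem_coe.2 hu'.2)).resolve_left hu'.1, ?_⟩
          exact h2 (Finset.mem_coe.2 hvt) (Finset.mem_coe.2 hu'.2) (Ne.symm hu'.1)
        · exact h2.subset (Finset.coe_subset.2 (Finset.erase_subset v τ))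
        · simp [Finset.card_erase_of_mem hvt, h3]
      · rw [zero_add, JJ_single]
        simp only
        rw [Finset.insert_erase hvt]
    · refine ⟨single (g, τ) 1, ?_, 0, Submodule.zero_mem _, by simp⟩
      refine Lv_single ?_ h2 h3 1
      intro u hu
      exact (h1 hu).resolve_left (by rintro rfl; exact hvt (Finset.mem_coe.1 hu))

/-- removing `v` -/
noncomputable def EV (v : V) : SCh G →ₗ[ℤ] SCh G :=
  Finsupp.lsum ℤ (fun p => LinearMap.toSpanSingleton ℤ _
    (if v ∈ p.2 then single (p.1, p.2.erase v) 1 else 0))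

theorem EV_eq_zero {U : Set V} {v : V} (hv : v ∉ U) {k : ℕ} {c : SCh G} (hc : c ∈ Lv G U k) :
    EV v c = 0 := by
  refine Lv_induct (P := fun c => EV v c = 0) (by simp) ?_ ?_ ?_ hc
  · intro x y hx hy
    simp only [map_add, hx, hy, add_zero]
  · intro n x hx
    simp only [map_smul, hx, smul_zero]
  · intro p h1 h2 h3
    have : v ∉ p.2 := fun h => hv (h1 (Finset.mem_coe.2 h))
    simp [EV, this]

theorem EV_JJ {U : Set V} {v : V} (hv : v ∉ U) {k : ℕ} {c : SCh G} (hc : c ∈ Lv G U k) :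
    EV v (JJ v c) = c := by
  refine Lv_induct (P := fun c => EV v (JJ v c) = c) (by simp) ?_ ?_ ?_ hc
  · intro x y hx hy
    simp only [map_add, hx, hy]
  · intro n x hx
    simp only [map_smul, hx]
  · intro p h1 h2 h3
    have : v ∉ p.2 := fun h => hv (h1 (Finset.mem_coe.2 h))
    show EV v (JJ v (single p 1)) = _
    rw [JJ_single]
    simp [EV, Finset.erase_insert this]

theorem JJ_mem {U : Set V} {v : V} (hv : v ∉ U) {k : ℕ} {c : SCh G}
    (hc : c ∈ Lv G {u | u ∈ U ∧ G.Adj v u} k) : JJ v c ∈ Lv G (insert v U) (k + 1) := by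
  refine Lv_induct (P := fun c => JJ v c ∈ Lv G (insert v U) (k + 1)) (by simp) ?_ ?_ ?_ hc
  · intro x y hx hy
    rw [map_add]; exact Submodule.add_mem _ hx hy
  · intro n x hx
    rw [map_smul]; exact Submodule.smul_mem _ _ hx
  · rintro ⟨g, τ⟩ h1 h2 h3
    simp only at h1 h2 h3
    show JJ v (single (g, τ) 1) ∈ _
    rw [JJ_single]
    have hvt : v ∉ τ := fun h => hv (h1 (Finset.mem_coe.2 h)).1
    refine Lv_single ?_ ?_ ?_ 1
    · rw [Finset.coe_insert]
      exact Set.insert_subset_insert (fun u hu => (h1 hu).1)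
    · rw [Finset.coe_insert, SimpleGraph.isClique_insert]
      exact ⟨h2, fun u hu _ => (h1 hu).2⟩
    · simp [Finset.card_insert_of_notMem hvt, h3]

theorem RR_mem {U : Set V} {v : V} {k : ℕ} {c : SCh G} (hc : c ∈ Lv G U k) :
    RR v c ∈ Lv G U k := by
  refine Lv_induct (P := fun c => RR v c ∈ Lv G U k) (by simp) ?_ ?_ ?_ hc
  · intro x y hx hy
    rw [map_add]; exact Submodule.add_mem _ hx hy
  · intro n x hx
    rw [map_smul]; exact Submodule.smul_mem _ _ hx
  · rintro ⟨g, τ⟩ h1 h2 h3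
    show RR v (single (g, τ) 1) ∈ _
    rw [RR_single]
    exact Lv_single (p := (g * ra v, τ)) h1 h2 h3 1

/-- forget the cell -/
noncomputable def zz : SCh G →ₗ[ℤ] (RAAG G →₀ ℤ) :=
  Finsupp.lmapDomain ℤ ℤ Prod.fst

/-- chains of dimension zero -/
noncomputable def ii : (RAAG G →₀ ℤ) →ₗ[ℤ] SCh G :=
  Finsupp.lmapDomain ℤ ℤ (fun g => (g, ∅))

theorem zz_single (p : RAAG G × Finset V) (n : ℤ) : zz (single p n) = single p.1 n := by
  simp [zz, Finsupp.lmapDomain_apply, Finsupp.mapDomain_single]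

theorem ii_single (g : RAAG G) (n : ℤ) : ii (single g n) = single (g, ∅) n := by
  simp [ii, Finsupp.lmapDomain_apply, Finsupp.mapDomain_single]

theorem ii_zz {U : Set V} {c : SCh G} (hc : c ∈ Lv G U 0) : ii (zz c) = c := by
  refine Lv_induct (P := fun c => ii (zz c) = c) (by simp) ?_ ?_ ?_ hc
  · intro x y hx hy
    simp only [map_add, hx, hy]
  · intro n x hx
    simp only [map_smul, hx]
  · rintro ⟨g, τ⟩ h1 h2 h3
    show ii (zz (single (g, τ) 1)) = _
    have h4 : τ = ∅ := Finset.card_eq_zero.1 h3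
    rw [zz_single, ii_single, h4]

theorem zz_RR {v : V} (c : SCh G) : zz (RR v c) = rmul (ra v) (zz c) := by
  induction c using Finsupp.induction_linear with
  | zero => simp
  | add f g hf hg => simp only [map_add, hf, hg]
  | single p n => rw [RR_single, zz_single, zz_single, rmul_single]

theorem prj_zz_bdy {U : Set V} {c : SCh G} (hc : c ∈ Lv G U 1) : prj U (zz (bdy c)) = 0 := by
  refine Lv_induct (P := fun c => prj U (zz (bdy c)) = 0) (by simp) ?_ ?_ ?_ hc
  · intro x y hx hy
    simp only [map_add, hx, hy, add_zero]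
  · intro n x hx
    simp only [map_smul, map_zsmul, hx, smul_zero]
  · rintro ⟨g, τ⟩ h1 h2 h3
    obtain ⟨u, rfl⟩ := Finset.card_eq_one.1 h3
    show prj U (zz (bdy (single (g, {u}) 1))) = 0
    rw [bdy_one]
    unfold bdy1
    have hu : u ∈ U := h1 (by simp)
    have e : sgnV {u} u = 1 := by
      unfold sgnV
      rw [Finset.filter_singleton, if_neg (lt_irrefl u)]
      simp
    simp only [Finset.sum_singleton, e, one_smul, map_sub, zz_single]
    have := prj_rmul_sub U hu (single g 1 : RAAG G →₀ ℤ)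
    rw [rmul_single, map_sub] at this
    exact this

/-- exactness in degree zero -/
theorem exact_zero (U : Set V) {c : SCh G} (hc : c ∈ Lv G U 0) (h : prj U (zz c) = 0) :
    ∃ e ∈ Lv G U 1, bdy e = c := by
  let M : AddSubgroup (RAAG G →₀ ℤ) :=
    { carrier := {x | ∃ e ∈ Lv G U 1, bdy e = ii x}
      add_mem' := by
        rintro a b ⟨e, he, h1⟩ ⟨e', he', h1'⟩
        exact ⟨e + e', Submodule.add_mem _ he he', by rw [map_add, map_add, h1, h1']⟩
      zero_mem' := ⟨0, Submodule.zero_mem _, by simp⟩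
      neg_mem' := by
        rintro a ⟨e, he, h1⟩
        exact ⟨-e, Submodule.neg_mem _ he, by rw [map_neg, map_neg, h1]⟩ }
  have hM : ∀ g : RAAG G, ∀ u ∈ U, single (g * ra u) 1 - single g (1 : ℤ) ∈ M := by
    intro g u hu
    refine ⟨-(single (g, {u}) 1), Submodule.neg_mem _ (Lv_single (by simpa using hu) (by simp)
      (by simp) 1), ?_⟩
    rw [map_neg, bdy_one]
    unfold bdy1
    have e : sgnV {u} u = 1 := by
      unfold sgnV
      rw [Finset.filter_singleton, if_neg (lt_irrefl u)]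
      simp
    simp only [Finset.sum_singleton, e, one_smul, map_sub, ii_single, neg_sub,
      Finset.erase_singleton]
  obtain ⟨e, he, h1⟩ := mem_of_prj_eq_zero U M hM (zz c) h
  exact ⟨e, he, by rw [h1, ii_zz hc]⟩

/-- exactness in positive degrees -/
theorem exact_pos (T : Finset V) : ∀ S ⊆ T, ∀ k : ℕ, ∀ c ∈ Lv G (S : Set V) (k + 1), bdy c = 0 →
    ∃ e ∈ Lv G (S : Set V) (k + 2), bdy e = c := by
  classical
  induction T using Finset.induction_on_max with
  | empty =>
    intro S hS k c hc _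
    have hS' : S = ∅ := Finset.subset_empty.1 hS
    subst hS'
    refine ⟨0, Submodule.zero_mem _, ?_⟩
    rw [map_zero]
    refine (Lv_induct (P := fun c => c = 0) rfl ?_ ?_ ?_ hc).symm
    · rintro x y rfl rfl; simp
    · rintro n x rfl; simp
    · intro p h1 _ h3
      exfalso
      have : p.2 = ∅ := by
        rw [Finset.coe_empty, Set.subset_empty_iff, Finset.coe_eq_empty] at h1
        exact h1
      rw [this] at h3
      simp at h3
  | insert v T hlt ih =>
    intro S hS k c hc hcyc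
    by_cases hvS : v ∈ S
    swap
    · exact ih S (fun x hx => (Finset.mem_insert.1 (hS hx)).resolve_left
        (by rintro rfl; exact hvS hx)) k c hc hcyc
    set S' := S.erase v with hS'
    have hS'T : S' ⊆ T := fun x hx =>
      (Finset.mem_insert.1 (hS (Finset.mem_of_mem_erase hx))).resolve_left (Finset.ne_of_mem_erase hx)
    have hins : (S : Set V) = insert v (S' : Set V) := by
      rw [← Finset.coe_insert, hS', Finset.insert_erase hvS]
    set K := S'.filter (fun u => G.Adj v u) with hK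
    have hKT : K ⊆ T := (Finset.filter_subset _ _).trans hS'T
    have hKs : (K : Set V) = {u | u ∈ (S' : Set V) ∧ G.Adj v u} := by
      ext u; simp [hK]
    have hvS' : v ∉ (S' : Set V) := by simp [hS']
    have hltS : ∀ u ∈ (S' : Set V), u < v := fun u hu => hlt u (hS'T (Finset.mem_coe.1 hu))
    have hltK : ∀ u ∈ {u | u ∈ (S' : Set V) ∧ G.Adj v u}, u < v := fun u hu => hltS u hu.1
    have hadjK : ∀ u ∈ {u | u ∈ (S' : Set V) ∧ G.Adj v u}, G.Adj v u := fun u hu => hu.2
    have hvK : v ∉ {u | u ∈ (S' : Set V) ∧ G.Adj v u} := fun h => hvS' h.1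
    have hKsub : {u | u ∈ (S' : Set V) ∧ G.Adj v u} ⊆ (S' : Set V) := fun u hu => hu.1
    rw [hins] at hc
    obtain ⟨x, hx, y, hy, rfl⟩ := Lv_decomp hvS' hc
    rw [map_add, bdy_JJ hltK hy] at hcyc
    -- the two components vanish
    have hyS : y ∈ Lv G (S' : Set V) k := Lv_mono hKsub k hy
    have ha : bdy x + (-1 : ℤ) ^ k • (y - RR v y) ∈ Lv G (S' : Set V) k :=
      Submodule.add_mem _ (bdy_mem hx) (Submodule.smul_mem _ _ (Submodule.sub_mem _ hyS (RR_mem hyS)))
    have hsum : (bdy x + (-1 : ℤ) ^ k • (y - RR v y)) + JJ v (bdy y) = 0 := by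
      rw [← hcyc]; abel
    have hby : bdy y = 0 := by
      rcases Nat.eq_zero_or_pos k with rfl | hpos
      · exact bdy_zero hy
      · obtain ⟨k', rfl⟩ := Nat.exists_eq_succ_of_ne_zero hpos.ne'
        have := congrArg (EV v) hsum
        rw [map_add, EV_eq_zero hvS' ha, EV_JJ hvK (bdy_mem hy), zero_add, map_zero] at this
        exact this
    have hbx : bdy x + (-1 : ℤ) ^ k • (y - RR v y) = 0 := by
      rw [hby, map_zero, add_zero] at hsum
      exact hsum
    -- y is a boundary
    have hyb : ∃ y' ∈ Lv G {u | u ∈ (S' : Set V) ∧ G.Adj v u} (k + 1), bdy y' = y := by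
      rcases Nat.eq_zero_or_pos k with rfl | hpos
      · apply exact_zero _ hy
        apply tree_inj hvS' rfl
        rw [pow_zero, one_smul] at hbx
        have := congrArg (fun c => prj (S' : Set V) (zz c)) hbx
        simp only [map_add, map_sub, zz_RR, prj_zz_bdy hx, zero_add, map_zero] at this
        rw [map_sub]
        exact this
      · obtain ⟨k', rfl⟩ := Nat.exists_eq_succ_of_ne_zero hpos.ne'
        rw [← hKs] at hy ⊢
        exact ih K hKT k' y hy hby
    obtain ⟨y', hy', rfl⟩ := hyb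
    have hy'S : y' ∈ Lv G (S' : Set V) (k + 1) := Lv_mono hKsub _ hy'
    have hx' : x - (-1 : ℤ) ^ (k + 1) • (y' - RR v y') ∈ Lv G (S' : Set V) (k + 1) :=
      Submodule.sub_mem _ hx (Submodule.smul_mem _ _ (Submodule.sub_mem _ hy'S (RR_mem hy'S)))
    have hcx' : bdy (x - (-1 : ℤ) ^ (k + 1) • (y' - RR v y')) = 0 := by
      rw [map_sub, map_smul, map_sub, bdy_RR hadjK hy', pow_succ, mul_neg_one, neg_smul,
        sub_neg_eq_add]
      exact hbx
    obtain ⟨x'', hx'', h3⟩ := ih S' hS'T k _ hx' hcx'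
    refine ⟨x'' + JJ v y', ?_, ?_⟩
    · rw [hins]
      exact Submodule.add_mem _ (Lv_mono (Set.subset_insert _ _) _ hx'') (JJ_mem hvS' hy')
    · rw [map_add, h3, bdy_JJ hltK hy']
      abel

end OS
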