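import Mathlib
import Pool.Agent.Lib.MP_8fe54c_gt.CombDefs
import Pool.Agent.Lib.MP_8fe54c_gt.SalCore

/-!
# Vanishing of the homology of the clique complex modulo two implies vanishing over the reals
-/

namespace OS

universe u

variable {V : Type u} [LinearOrder V] (G : SimpleGraph V)

/-- cliques with `k` vertices -/
abbrev Cl (k : ℕ) := {σ : Finset V // G.IsClique (σ : Set V) ∧ σ.card = k}

/-- the simplicial boundary matrix -/
def DD (k : ℕ) : Matrix (Cl G k) (Cl G (k + 1)) ℤ :=
  fun ρ σ => ∑ v ∈ σ.1, if σ.1.erase v = ρ.1 then sgnV σ.1 v else 0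

variable [Fintype V]

section sum

variable {G} [∀ k, Fintype (Cl G k)]

/-- the boundary of a chain -/
theorem DD_sum {R : Type*} [CommRing R] (k : ℕ) (ρ : Cl G k) (z : Finset V → R)
    (hz : ∀ s : Finset V, ¬ (G.IsClique (s : Set V) ∧ s.card = k + 1) → z s = 0) :
    ∑ σ : Cl G (k + 1), ((DD G k ρ σ : ℤ) : R) * z σ.1 =
      ∑ v ∈ Finset.univ.filter (fun v => v ∉ ρ.1), (sgnV (insert v ρ.1) v : R) * z (insert v ρ.1) := by
  classical
  have h1 : ∀ σ : Cl G (k + 1), ((DD G k ρ σ : ℤ) : R) * z σ.1 =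
      ∑ v ∈ Finset.univ.filter (fun v => v ∉ ρ.1),
        if insert v ρ.1 = σ.1 then (sgnV (insert v ρ.1) v : R) * z (insert v ρ.1) else 0 := by
    intro σ
    unfold DD
    push_cast
    rw [Finset.sum_mul, Finset.sum_filter, ← Finset.sum_filter_add_sum_filter_not Finset.univ
      (fun v => v ∈ σ.1)]
    have h2 : ∑ x ∈ Finset.univ.filter (fun v => v ∉ σ.1), (if x ∉ ρ.1 then
        if insert x ρ.1 = σ.1 then (sgnV (insert x ρ.1) x : R) * z (insert x ρ.1) else 0 else 0) = 0 := by
      apply Finset.sum_eq_zero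
      intro x hx
      rw [Finset.mem_filter] at hx
      rw [if_neg (c := insert x ρ.1 = σ.1), ite_self]
      intro h
      exact hx.2 (h ▸ Finset.mem_insert_self x ρ.1)
    rw [h2, add_zero]
    have h3 : Finset.univ.filter (fun v => v ∈ σ.1) = σ.1 := by ext v; simp
    rw [h3]
    refine Finset.sum_congr rfl (fun v hv => ?_)
    by_cases h : σ.1.erase v = ρ.1
    · have h4 : v ∉ ρ.1 := by rw [← h]; exact Finset.notMem_erase v σ.1
      have h5 : insert v ρ.1 = σ.1 := by rw [← h]; exact Finset.insert_erase hv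
      rw [if_pos h, if_pos h4, if_pos h5, h5]
    · rw [if_neg h]
      by_cases h4 : v ∉ ρ.1
      · rw [if_pos h4, if_neg]
        · simp
        · intro h5
          apply h
          rw [← h5]
          exact Finset.erase_insert h4
      · rw [if_neg h4]; simp
  rw [Finset.sum_congr rfl (fun σ _ => h1 σ), Finset.sum_comm]
  refine Finset.sum_congr rfl (fun v hv => ?_)
  by_cases h : G.IsClique ((insert v ρ.1 : Finset V) : Set V) ∧ (insert v ρ.1).card = k + 1
  · rw [Finset.sum_eq_single (⟨insert v ρ.1, h⟩ : Cl G (k + 1))]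
    · rw [if_pos rfl]
    · intro σ _ hσ
      rw [if_neg]
      intro h'
      exact hσ (Subtype.ext h'.symm)
    · intro h'
      exact absurd (Finset.mem_univ _) h'
  · rw [hz _ h, mul_zero]
    simp

omit [Fintype V] [∀ k, Fintype (Cl G k)] in
theorem sgnV_erase_lt {τ : Finset V} {u v : V} (hu : u ∈ τ) (huv : u < v) :
    sgnV (τ.erase u) v = - sgnV τ v := by
  unfold sgnV
  have h1 : (τ.erase u).filter (fun x => x < v) = (τ.filter (fun x => x < v)).erase u := by
    ext x; simp only [Finset.mem_filter, Finset.mem_erase]; tauto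
  have h2 : u ∈ τ.filter (fun x => x < v) := Finset.mem_filter.2 ⟨hu, huv⟩
  rw [h1, ← Finset.card_erase_add_one h2, pow_succ]
  ring

omit [Fintype V] [∀ k, Fintype (Cl G k)] in
theorem sgnV_erase_gt {τ : Finset V} {u v : V} (huv : u < v) :
    sgnV (τ.erase v) u = sgnV τ u := by
  unfold sgnV
  congr 2
  ext x
  simp only [Finset.mem_filter, Finset.mem_erase]
  constructor
  · rintro ⟨⟨_, h⟩, h'⟩; exact ⟨h, h'⟩
  · rintro ⟨h, h'⟩
    exact ⟨⟨fun e => absurd (e ▸ h' : v < u) (not_lt.2 huv.le), h⟩, h'⟩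

omit [Fintype V] [∀ k, Fintype (Cl G k)] in
theorem sgnV_anti {τ : Finset V} {u v : V} (hu : u ∈ τ) (hv : v ∈ τ) (huv : u ≠ v) :
    sgnV τ u * sgnV (τ.erase u) v + sgnV τ v * sgnV (τ.erase v) u = 0 := by
  rcases lt_or_gt_of_ne huv with h | h
  · rw [sgnV_erase_lt hu h, sgnV_erase_gt h]; ring
  · rw [sgnV_erase_lt hv h, sgnV_erase_gt h]; ring

variable (G) in
theorem DD_mul (k : ℕ) : DD G k * DD G (k + 1) = 0 := by
  classical
  ext ρ τ
  rw [Matrix.mul_apply, Matrix.zero_apply]
  have h1 : ∀ σ : Cl G (k + 1), DD G k ρ σ * DD G (k + 1) σ τ =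
      ∑ u ∈ τ.1, if τ.1.erase u = σ.1 then
        sgnV τ.1 u * ∑ v ∈ τ.1.erase u, (if (τ.1.erase u).erase v = ρ.1 then sgnV (τ.1.erase u) v else 0)
        else 0 := by
    intro σ
    unfold DD
    rw [Finset.mul_sum]
    refine Finset.sum_congr rfl (fun u _ => ?_)
    by_cases h : τ.1.erase u = σ.1
    · rw [if_pos h, if_pos h, h, mul_comm]
    · rw [if_neg h, if_neg h, mul_zero]
  rw [Finset.sum_congr rfl (fun σ _ => h1 σ), Finset.sum_comm]
  have h2 : ∀ u ∈ τ.1, (∑ σ : Cl G (k + 1), if τ.1.erase u = σ.1 then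
        sgnV τ.1 u * ∑ v ∈ τ.1.erase u, (if (τ.1.erase u).erase v = ρ.1 then sgnV (τ.1.erase u) v else 0)
        else 0) = ∑ v ∈ τ.1.erase u, (if (τ.1.erase u).erase v = ρ.1 then
          sgnV τ.1 u * sgnV (τ.1.erase u) v else 0) := by
    intro u hu
    have hc : G.IsClique ((τ.1.erase u : Finset V) : Set V) ∧ (τ.1.erase u).card = k + 1 :=
      ⟨τ.2.1.subset (Finset.coe_subset.2 (Finset.erase_subset u τ.1)), by
        rw [Finset.card_erase_of_mem hu, τ.2.2]; rfl⟩
    rw [Finset.sum_eq_single (⟨τ.1.erase u, hc⟩ : Cl G (k + 1))]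
    · rw [if_pos rfl, Finset.mul_sum]
      refine Finset.sum_congr rfl (fun v _ => ?_)
      rw [mul_ite, mul_zero]
    · intro σ _ hσ
      rw [if_neg]
      intro h'
      exact hσ (Subtype.ext h'.symm)
    · intro h'
      exact absurd (Finset.mem_univ _) h'
  rw [Finset.sum_congr rfl h2, Finset.sum_sigma']
  refine Finset.sum_involution (fun p _ => ⟨p.2, p.1⟩) ?_ ?_ ?_ ?_
  · rintro ⟨u, v⟩ h
    simp only [Finset.mem_sigma, Finset.mem_erase] at h
    simp only
    rw [Finset.erase_right_comm (a := v)]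
    by_cases h' : (τ.1.erase u).erase v = ρ.1
    · rw [if_pos h', if_pos h']
      exact sgnV_anti h.1 h.2.2 (fun e => h.2.1 e.symm)
    · rw [if_neg h', if_neg h', add_zero]
  · rintro ⟨u, v⟩ h _ h2
    simp only [Finset.mem_sigma, Finset.mem_erase] at h
    simp only [Sigma.mk.injEq] at h2
    exact h.2.1 h2.1
  · rintro ⟨u, v⟩ h
    simp only [Finset.mem_sigma, Finset.mem_erase] at h ⊢
    exact ⟨h.2.2, fun h' => h.2.1 h'.symm, h.1⟩
  · rintro ⟨u, v⟩ h
    rfl

end sum

section lin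

variable {l m n : Type*} [Fintype l] [Fintype m] [Fintype n] [DecidableEq l] [DecidableEq m]
  [DecidableEq n]

theorem lin_inv {F : Type*} [Field F] (A : Matrix l m F) (B : Matrix m n F)
    (h : ∀ z : m → F, A.mulVec z = 0 → ∃ w : n → F, B.mulVec w = z) :
    ∃ (H : Matrix n m F) (E : Matrix m l F), B * H + E * A = 1 := by
  have hE : ∃ E' : Matrix m l F, A * E' * A = A := by
    obtain ⟨g, hg⟩ := A.mulVecLin.rangeRestrict.exists_rightInverse_of_surjective
      (LinearMap.range_rangeRestrict _)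
    obtain ⟨e, he⟩ := LinearMap.exists_extend g
    refine ⟨LinearMap.toMatrix' e, ?_⟩
    apply Matrix.toLin'.injective
    apply LinearMap.ext
    intro x
    rw [Matrix.toLin'_mul, Matrix.toLin'_mul, Matrix.toLin'_toMatrix', LinearMap.comp_apply,
      LinearMap.comp_apply]
    show A.mulVecLin (e (A.mulVecLin x)) = A.mulVecLin x
    have h2 : e (A.mulVecLin x) = g (A.mulVecLin.rangeRestrict x) := by
      have := LinearMap.congr_fun he (A.mulVecLin.rangeRestrict x)
      exact this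
    rw [h2]
    have h3 := LinearMap.congr_fun hg (A.mulVecLin.rangeRestrict x)
    have h4 := congrArg Subtype.val h3
    exact h4
  obtain ⟨E', hE'⟩ := hE
  have hw : ∀ i : m, ∃ w : n → F, B.mulVec w = (1 - E' * A).mulVec (Pi.single i 1) := by
    intro i
    apply h
    rw [Matrix.mulVec_mulVec]
    have : A * (1 - E' * A) = 0 := by
      rw [Matrix.mul_sub, Matrix.mul_one, ← Matrix.mul_assoc, hE', sub_self]
    rw [this, Matrix.zero_mulVec]
  choose w hw using hw
  refine ⟨Matrix.of fun a i => w i a, E', ?_⟩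
  have : (B * Matrix.of fun a i => w i a) = 1 - E' * A := by
    ext a i
    have h1 := congrFun (hw i) a
    rw [Matrix.mulVec_single_one] at h1
    exact h1
  rw [this, sub_add_cancel]

theorem lin_lift (A : Matrix l m ℤ) (B : Matrix m n ℤ)
    (h : ∀ z : m → ZMod 2, (A.map (Int.cast : ℤ → ZMod 2)).mulVec z = 0 →
      ∃ w : n → ZMod 2, (B.map (Int.cast : ℤ → ZMod 2)).mulVec w = z) :
    ∃ (H : Matrix n m ℤ) (E : Matrix m l ℤ), (B * H + E * A).det ≠ 0 := by
  obtain ⟨H', E', hH'⟩ := lin_inv _ _ h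
  let H : Matrix n m ℤ := H'.map (fun a => (a.cast : ℤ))
  let E : Matrix m l ℤ := E'.map (fun a => (a.cast : ℤ))
  refine ⟨H, E, ?_⟩
  intro h0
  have h1 : (B * H + E * A).map (Int.castRingHom (ZMod 2)) = 1 := by
    rw [← hH', Matrix.map_add _ (map_add _), Matrix.map_mul, Matrix.map_mul]
    have e1 : H.map (Int.castRingHom (ZMod 2)) = H' := by
      ext a i
      simp [H]
    have e2 : E.map (Int.castRingHom (ZMod 2)) = E' := by
      ext a i
      simp [E]
    rw [e1, e2]
    rfl
  have h2 := (Int.castRingHom (ZMod 2)).map_det (B * H + E * A)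
  rw [RingHom.mapMatrix_apply, h1, Matrix.det_one, h0, map_zero] at h2
  exact zero_ne_one h2

theorem lin_real (A : Matrix l m ℤ) (B : Matrix m n ℤ) (hAB : A * B = 0)
    (h : ∀ z : m → ZMod 2, (A.map (Int.cast : ℤ → ZMod 2)).mulVec z = 0 →
      ∃ w : n → ZMod 2, (B.map (Int.cast : ℤ → ZMod 2)).mulVec w = z)
    (z : m → ℝ) (hz : (A.map (Int.cast : ℤ → ℝ)).mulVec z = 0) :
    ∃ w : n → ℝ, (B.map (Int.cast : ℤ → ℝ)).mulVec w = z := by
  obtain ⟨H, E, hdet⟩ := lin_lift A B h
  set a := (A.map (Int.cast : ℤ → ℝ)) with ha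
  set b := (B.map (Int.cast : ℤ → ℝ)) with hb
  set U := (B * H + E * A).map (Int.cast : ℤ → ℝ) with hU
  have hU1 : U = b * H.map (Int.cast : ℤ → ℝ) + E.map (Int.cast : ℤ → ℝ) * a := by
    have e1 := Matrix.map_mul (L := B) (M := H) (f := Int.castRingHom ℝ)
    have e2 := Matrix.map_mul (L := E) (M := A) (f := Int.castRingHom ℝ)
    have e3 := Matrix.map_add (Int.castRingHom ℝ) (map_add _) (B * H) (E * A)
    rw [e1, e2] at e3
    exact e3
  have hab : a * b = 0 := by
    have e1 := Matrix.map_mul (L := A) (M := B) (f := Int.castRingHom ℝ)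
    rw [hAB] at e1
    have e2 : (0 : Matrix l n ℤ).map (Int.castRingHom ℝ) = 0 := by ext; simp
    rw [e2] at e1
    exact e1.symm
  have hUdet : U.det ≠ 0 := by
    have h2 := (Int.castRingHom ℝ).map_det (B * H + E * A)
    intro h0
    apply hdet
    have h3 : (Int.castRingHom ℝ) (B * H + E * A).det = 0 := by rw [h2]; exact h0
    have h4 : ((B * H + E * A).det : ℝ) = 0 := h3
    exact_mod_cast h4
  have hUinj : ∀ x, U.mulVec x = 0 → x = 0 := fun x hx => by
    by_contra hne
    exact hUdet (Matrix.exists_mulVec_eq_zero_iff.1 ⟨x, hne, hx⟩)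
  have hUker : ∀ x, a.mulVec x = 0 → U.mulVec x = b.mulVec ((H.map (Int.cast : ℤ → ℝ)).mulVec x) := by
    intro x hx
    rw [hU1, Matrix.add_mulVec, ← Matrix.mulVec_mulVec, ← Matrix.mulVec_mulVec, hx,
      Matrix.mulVec_zero, add_zero]
  have hmaps : ∀ x ∈ LinearMap.ker a.mulVecLin, U.mulVecLin x ∈ LinearMap.ker a.mulVecLin := by
    intro x hx
    rw [LinearMap.mem_ker, Matrix.mulVecLin_apply] at hx
    rw [LinearMap.mem_ker, Matrix.mulVecLin_apply, Matrix.mulVecLin_apply, hUker x hx,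
      Matrix.mulVec_mulVec, hab, Matrix.zero_mulVec]
  have hinj : Function.Injective (U.mulVecLin.restrict hmaps) := by
    rw [← LinearMap.ker_eq_bot, LinearMap.ker_eq_bot']
    rintro ⟨x, hx⟩ h0
    have h1 := congrArg Subtype.val h0
    exact Subtype.ext (hUinj x h1)
  have hsurj := LinearMap.injective_iff_surjective.1 hinj
  obtain ⟨⟨x, hx⟩, hxz⟩ := hsurj ⟨z, by rw [LinearMap.mem_ker]; exact hz⟩
  have h1 : U.mulVec x = z := congrArg Subtype.val hxz
  rw [LinearMap.mem_ker, Matrix.mulVecLin_apply] at hx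
  exact ⟨_, by rw [← h1, hUker x hx]⟩

end lin

section two

variable {G} [∀ k, Fintype (Cl G k)]

theorem sgnV_two (σ : Finset V) (v : V) : ((sgnV σ v : ℤ) : ZMod 2) = 1 := by
  unfold sgnV
  push_cast
  have : (-1 : ZMod 2) = 1 := by decide
  rw [this, one_pow]

/-- exactness modulo two from the vanishing of the homology -/
theorem exact_two (j : ℕ) (h : ¬ HasClass G j) (z : Cl G (j + 1) → ZMod 2)
    (hz : ((DD G j).map (Int.cast : ℤ → ZMod 2)).mulVec z = 0) :
    ∃ w : Cl G (j + 2) → ZMod 2, ((DD G (j + 1)).map (Int.cast : ℤ → ZMod 2)).mulVec w = z := by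
  classical
  by_contra hcon
  have hz1 : z ∉ LinearMap.range ((DD G (j + 1)).map (Int.cast : ℤ → ZMod 2)).mulVecLin := by
    rintro ⟨w, hw⟩
    exact hcon ⟨w, hw⟩
  obtain ⟨φ, hφz, hφ⟩ := Submodule.exists_le_ker_of_notMem hz1
  let P : Finset V → Prop := fun s => G.IsClique (s : Set V) ∧ s.card = j + 1
  let zz : Finset V → ZMod 2 := fun s => if h : P s then z ⟨s, h⟩ else 0
  let φs : Finset V → ZMod 2 := fun s => if h : P s then φ (Pi.single ⟨s, h⟩ 1) else 0
  have hzz : ∀ σ : Cl G (j + 1), zz σ.1 = z σ := by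
    rintro ⟨σ, hσ⟩
    show (if h : P σ then z ⟨σ, h⟩ else 0) = _
    rw [dif_pos hσ]
  have hφs : ∀ σ : Cl G (j + 1), φs σ.1 = φ (Pi.single σ 1) := by
    rintro ⟨σ, hσ⟩
    show (if h : P σ then φ (Pi.single ⟨σ, h⟩ 1) else 0) = _
    rw [dif_pos hσ]
  have hzn : ∀ s, ¬ P s → zz s = 0 := fun s hs => dif_neg hs
  let Z : Finset (Finset V) := Finset.univ.filter (fun s => zz s = 1)
  have two : ∀ a : ZMod 2, a = if a = 1 then 1 else 0 := by decide
  have hφsum : ∀ y : Cl G (j + 1) → ZMod 2, φ y = ∑ σ : Cl G (j + 1), y σ * φs σ.1 := by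
    intro y
    have h1 : y = ∑ σ : Cl G (j + 1), y σ • (Pi.single σ 1 : Cl G (j + 1) → ZMod 2) := by
      funext τ
      rw [Finset.sum_apply, Finset.sum_eq_single τ]
      · simp
      · intro b _ hb
        simp [Pi.single_apply, Ne.symm hb]
      · intro h'; exact absurd (Finset.mem_univ _) h'
    conv_lhs => rw [h1]
    rw [map_sum]
    refine Finset.sum_congr rfl (fun σ _ => ?_)
    rw [map_smul, smul_eq_mul, hφs]
  apply h
  refine ⟨Z, φs, ?_, ?_, ?_, ?_⟩
  · intro σ hσ
    have h1 : zz σ = 1 := (Finset.mem_filter.1 hσ).2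
    by_contra h2
    rw [hzn σ h2] at h1
    exact zero_ne_one h1
  · intro ρ hρ
    by_cases hcl : G.IsClique (ρ : Set V)
    · have h1 := DD_sum (R := ZMod 2) j (⟨ρ, hcl, hρ⟩ : Cl G j) zz hzn
      have h2 : ∑ σ : Cl G (j + 1), ((DD G j ⟨ρ, hcl, hρ⟩ σ : ℤ) : ZMod 2) * zz σ.1 = 0 := by
        have := congrFun hz ⟨ρ, hcl, hρ⟩
        rw [Pi.zero_apply] at this
        rw [← this]
        refine Finset.sum_congr rfl (fun σ _ => ?_)
        rw [hzz]
        rfl
      rw [h2] at h1
      have h3 : ∑ v ∈ Finset.univ.filter (fun v => v ∉ ρ),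
          ((sgnV (insert v ρ) v : ℤ) : ZMod 2) * zz (insert v ρ) =
          (((Finset.univ.filter (fun v => v ∉ ρ ∧ insert v ρ ∈ Z)).card : ℕ) : ZMod 2) := by
        have h4 : ∀ v, ((sgnV (insert v ρ) v : ℤ) : ZMod 2) * zz (insert v ρ) =
            if insert v ρ ∈ Z then 1 else 0 := by
          intro v
          rw [sgnV_two, one_mul, two (zz (insert v ρ))]
          have : (insert v ρ ∈ Z) ↔ zz (insert v ρ) = 1 := by
            show insert v ρ ∈ Finset.univ.filter (fun s => zz s = 1) ↔ _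
            rw [Finset.mem_filter]
            exact and_iff_right (Finset.mem_univ _)
          simp only [this]
        rw [Finset.sum_congr rfl (fun v _ => h4 v), Finset.sum_boole, Finset.filter_filter]
      rw [h3] at h1
      rw [← ZMod.natCast_eq_zero_iff_even]
      exact h1.symm
    · have : Finset.univ.filter (fun v => v ∉ ρ ∧ insert v ρ ∈ Z) = ∅ := by
        rw [Finset.filter_eq_empty_iff]
        rintro v _ ⟨_, h2⟩
        have h1 : zz (insert v ρ) = 1 := (Finset.mem_filter.1 h2).2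
        apply hcl
        have h3 : P (insert v ρ) := by
          by_contra h3
          rw [hzn _ h3] at h1
          exact zero_ne_one h1
        exact h3.1.subset (Finset.coe_subset.2 (Finset.subset_insert v ρ))
      rw [this]
      simp
  · intro τ hτ1 hτ2
    have h1 : ((DD G (j + 1)).map (Int.cast : ℤ → ZMod 2)).mulVecLin
        (Pi.single (⟨τ, hτ1, hτ2⟩ : Cl G (j + 2)) 1) ∈ LinearMap.ker φ := hφ ⟨_, rfl⟩
    rw [LinearMap.mem_ker, hφsum, Matrix.mulVecLin_apply, Matrix.mulVec_single_one] at h1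
    rw [← h1]
    have h2 : ∀ σ : Cl G (j + 1),
        ((DD G (j + 1)).map (Int.cast : ℤ → ZMod 2)).col ⟨τ, hτ1, hτ2⟩ σ * φs σ.1 =
        ∑ v ∈ τ, if τ.erase v = σ.1 then φs (τ.erase v) else 0 := by
      intro σ
      show ((DD G (j + 1) σ ⟨τ, hτ1, hτ2⟩ : ℤ) : ZMod 2) * φs σ.1 = _
      unfold DD
      push_cast
      rw [Finset.sum_mul]
      refine Finset.sum_congr rfl (fun v _ => ?_)
      by_cases h' : τ.erase v = σ.1
      · rw [if_pos h', if_pos h', sgnV_two, one_mul, h']
      · rw [if_neg h', if_neg h', zero_mul]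
    rw [Finset.sum_congr rfl (fun σ _ => h2 σ), Finset.sum_comm]
    refine Finset.sum_congr rfl (fun v hv => ?_)
    have hc : G.IsClique ((τ.erase v : Finset V) : Set V) ∧ (τ.erase v).card = j + 1 :=
      ⟨hτ1.subset (Finset.coe_subset.2 (Finset.erase_subset v τ)), by
        rw [Finset.card_erase_of_mem hv, hτ2]; rfl⟩
    rw [Finset.sum_eq_single (⟨τ.erase v, hc⟩ : Cl G (j + 1))]
    · rw [if_pos rfl]
    · intro σ _ hσ
      rw [if_neg]
      intro h'
      exact hσ (Subtype.ext h'.symm)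
    · intro h'
      exact absurd (Finset.mem_univ _) h'
  · have h1 := hφsum z
    have h2 : φ z = 1 := by
      rcases (two (φ z)) with h'
      by_cases h3 : φ z = 1
      · exact h3
      · rw [if_neg h3] at h'
        exact absurd h' hφz
    rw [h2] at h1
    rw [h1]
    have h4 : ∀ s, (if s ∈ Z then φs s else 0) = zz s * φs s := by
      intro s
      have h5 : (s ∈ Z) ↔ zz s = 1 := by
        show s ∈ Finset.univ.filter (fun s => zz s = 1) ↔ _
        rw [Finset.mem_filter]
        exact and_iff_right (Finset.mem_univ _)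
      rw [two (zz s)]
      simp only [h5, ite_mul, one_mul, zero_mul]
    have h6 : ∑ σ ∈ Z, φs σ = ∑ s : Finset V, zz s * φs s := by
      rw [← Finset.sum_congr rfl (fun s _ => h4 s), ← Finset.sum_filter, Finset.filter_mem_eq_inter,
        Finset.univ_inter]
    rw [h6]
    have h7 : ∑ σ : Cl G (j + 1), z σ * φs σ.1 = ∑ σ : Cl G (j + 1), zz σ.1 * φs σ.1 :=
      Finset.sum_congr rfl (fun σ _ => by rw [hzz])
    rw [h7]
    have h8 : ∑ s : Finset V, zz s * φs s =
        ∑ s ∈ Finset.univ.filter (fun s => P s), zz s * φs s := by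
      symm
      apply Finset.sum_filter_of_ne
      intro s _ hs
      by_contra h'
      exact hs (by rw [hzn s h', zero_mul])
    rw [h8]
    exact Finset.sum_subtype _ (fun s => by simp [P]) _

end two

end OS
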