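import Mathlib
import Pool.Agent.Lib.MP_8fe54c_gt.RankTwo

/-!
# RAAG, module G5: vanishing of the mod 2 homology implies exactness over the reals
-/

namespace OS

variable {V : Type*} [LinearOrder V] [Fintype V] {G : SimpleGraph V}

theorem real_acyclic (j : ℕ) (h : ¬ HasClass G j) (z : Finset V → ℝ)
    (hz : ∀ s : Finset V, ¬ (G.IsClique (s : Set V) ∧ s.card = j + 1) → z s = 0)
    (hc : ∀ s : Finset V, ∑ v ∈ sᶜ, (sgnV (insert v s) v : ℝ) * z (insert v s) = 0) :
    ∃ y : Finset V → ℝ,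
      (∀ s : Finset V, ¬ (G.IsClique (s : Set V) ∧ s.card = j + 1 + 1) → y s = 0) ∧
      ∀ s : Finset V, ∑ v ∈ sᶜ, (sgnV (insert v s) v : ℝ) * y (insert v s) = z s := by
  classical
  have : ∀ k, Fintype (Cl G k) := fun k => Fintype.ofFinite _
  have hcompl : ∀ s : Finset V, sᶜ = Finset.univ.filter (fun v => v ∉ s) := by
    intro s; ext v; simp
  have h1 : ((DD G j).map (Int.cast : ℤ → ℝ)).mulVec (fun σ : Cl G (j + 1) => z σ.1) = 0 := by
    funext ρ
    rw [Pi.zero_apply, ← hc ρ.1, hcompl, ← DD_sum (R := ℝ) j ρ z hz]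
    rfl
  obtain ⟨w, hw⟩ := lin_real (DD G j) (DD G (j + 1)) (DD_mul G j) (exact_two j h) _ h1
  let P : Finset V → Prop := fun s => G.IsClique (s : Set V) ∧ s.card = j + 1 + 1
  let y : Finset V → ℝ := fun s => if h : P s then w ⟨s, h⟩ else 0
  have hy : ∀ s, ¬ P s → y s = 0 := fun s hs => dif_neg hs
  have hyw : ∀ τ : Cl G (j + 2), y τ.1 = w τ := by
    rintro ⟨τ, hτ⟩
    exact dif_pos hτ
  refine ⟨y, hy, ?_⟩
  intro s
  rw [hcompl]
  by_cases hs : G.IsClique (s : Set V) ∧ s.card = j + 1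
  · have h2 := DD_sum (R := ℝ) (j + 1) (⟨s, hs⟩ : Cl G (j + 1)) y hy
    rw [← h2]
    have h3 := congrFun hw ⟨s, hs⟩
    rw [← h3]
    refine Finset.sum_congr rfl (fun τ _ => ?_)
    rw [hyw]
    rfl
  · rw [hz s hs]
    apply Finset.sum_eq_zero
    intro v hv
    have hv' : v ∉ s := (Finset.mem_filter.1 hv).2
    rw [hy, mul_zero]
    rintro ⟨h4, h5⟩
    apply hs
    refine ⟨h4.subset (Finset.coe_subset.2 (Finset.subset_insert v s)), ?_⟩
    rw [Finset.card_insert_of_notMem hv'] at h5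
    omega

end OS
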