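import Mathlib
import Pool.Agent.Lib.MP_46876e_al.Dim

/-!
# Square summable functions on a group: translations and the trace
-/

namespace OS

open scoped InnerProductSpace ENNReal

/-- real square summable functions -/
abbrev H2 (Γ : Type*) := lp (fun _ : Γ => ℝ) 2

section perm

variable {Γ : Type*}

theorem h2_memlp_iff {f : Γ → ℝ} : Memℓp (f : ∀ _ : Γ, ℝ) 2 ↔ Summable fun x => f x ^ 2 := by
  rw [memℓp_gen_iff (by norm_num)]
  have : ∀ x, ‖f x‖ ^ (2 : ℝ≥0∞).toReal = f x ^ 2 := by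
    intro x
    rw [ENNReal.toReal_ofNat, Real.rpow_ofNat, Real.norm_eq_abs, sq_abs]
  simp only [this]

theorem h2_summable (f : H2 Γ) : Summable fun x => f x ^ 2 := h2_memlp_iff.mp f.2

theorem h2_norm_sq (f : H2 Γ) : ‖f‖ ^ 2 = ∑' x, f x ^ 2 := by
  have h := lp.norm_rpow_eq_tsum (p := 2) (by norm_num) f
  have h2 : ∀ x, ‖f x‖ ^ (2 : ℝ≥0∞).toReal = f x ^ 2 := by
    intro x
    rw [ENNReal.toReal_ofNat, Real.rpow_ofNat, Real.norm_eq_abs, sq_abs]
  simp only [h2] at h
  rw [ENNReal.toReal_ofNat, Real.rpow_ofNat] at h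
  exact h

theorem h2_inner (f g : H2 Γ) : ⟪f, g⟫_ℝ = ∑' x, f x * g x := by
  rw [lp.inner_eq_tsum]
  refine tsum_congr fun x => ?_
  simp [mul_comm]

/-- reindexing of square summable functions -/
noncomputable def perm (e : Γ ≃ Γ) : H2 Γ →ₗᵢ[ℝ] H2 Γ where
  toFun f := ⟨fun x => f (e x), h2_memlp_iff.mpr ((h2_summable f).comp_injective e.injective)⟩
  map_add' f g := by
    ext x
    rfl
  map_smul' c f := by
    ext x
    rfl
  norm_map' f := by
    rw [← sq_eq_sq₀ (norm_nonneg _) (norm_nonneg _), h2_norm_sq, h2_norm_sq]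
    exact e.tsum_eq (fun x => f x ^ 2)

@[simp] theorem perm_apply (e : Γ ≃ Γ) (f : H2 Γ) (x : Γ) : perm e f x = f (e x) := rfl

/-- reindexing as a bounded operator -/
noncomputable def permL (e : Γ ≃ Γ) : H2 Γ →L[ℝ] H2 Γ := (perm e).toContinuousLinearMap

@[simp] theorem permL_apply (e : Γ ≃ Γ) (f : H2 Γ) (x : Γ) : permL e f x = f (e x) := rfl

theorem permL_inner (e : Γ ≃ Γ) (f g : H2 Γ) : ⟪permL e f, g⟫_ℝ = ⟪f, permL e.symm g⟫_ℝ := by
  rw [h2_inner, h2_inner, ← e.tsum_eq (fun x => f x * permL e.symm g x)]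
  refine tsum_congr fun x => ?_
  simp

theorem permL_adjoint (e : Γ ≃ Γ) :
    ContinuousLinearMap.adjoint (permL e) = permL e.symm := by
  symm
  rw [ContinuousLinearMap.eq_adjoint_iff]
  intro f g
  rw [permL_inner, Equiv.symm_symm]

theorem permL_comm {e e' : Γ ≃ Γ} (h : ∀ x, e (e' x) = e' (e x)) (f : H2 Γ) :
    permL e (permL e' f) = permL e' (permL e f) := by
  ext x
  simp [h]

/-- the basis vectors -/
noncomputable def dlt [DecidableEq Γ] (g : Γ) : H2 Γ := lp.single 2 g (1 : ℝ)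

theorem dlt_apply [DecidableEq Γ] (g x : Γ) : dlt g x = if x = g then 1 else 0 := by
  rw [dlt, lp.single_apply]
  by_cases h : x = g
  · subst h; simp
  · simp [h]

theorem inner_dlt [DecidableEq Γ] (f : H2 Γ) (g : Γ) : ⟪f, dlt g⟫_ℝ = f g := by
  rw [dlt, lp.inner_single_right]
  simp

theorem h2_closed_eq_top [DecidableEq Γ] (L : Submodule ℝ (H2 Γ)) (hL : IsClosed (L : Set (H2 Γ)))
    (h : ∀ g, dlt g ∈ L) : L = ⊤ := by
  have : CompleteSpace L := hL.completeSpace_coe
  rw [← Submodule.orthogonal_eq_bot_iff, Submodule.eq_bot_iff]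
  intro f hf
  ext g
  have h1 := (Submodule.mem_orthogonal L f).mp hf _ (h g)
  rw [real_inner_comm, inner_dlt] at h1
  rw [h1]
  rfl

end perm

section group

variable (Γ : Type*) [Group Γ]

/-- left translation -/
noncomputable def lamL (g : Γ) : H2 Γ →L[ℝ] H2 Γ := permL (Equiv.mulLeft g⁻¹)

variable {Γ}

@[simp] theorem lamL_apply (g : Γ) (f : H2 Γ) (x : Γ) : lamL Γ g f x = f (g⁻¹ * x) := rfl

theorem lamL_adjoint (g : Γ) :
    ContinuousLinearMap.adjoint (lamL Γ g) = lamL Γ g⁻¹ := by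
  rw [lamL, permL_adjoint, lamL]
  congr 1
  ext x
  simp

theorem lamL_dlt [DecidableEq Γ] (g h : Γ) : lamL Γ g (dlt h) = dlt (g * h) := by
  ext x
  rw [lamL_apply, dlt_apply, dlt_apply]
  congr 1
  exact propext inv_mul_eq_iff_eq_mul

open Classical in
/-- the trace system of a group -/
noncomputable def grpTr (Γ : Type*) [Group Γ] : Forest46876.TrSys (H2 Γ) where
  U := Set.range (lamL Γ)
  adj_mem := by
    rintro _ ⟨g, rfl⟩
    exact ⟨g⁻¹, (lamL_adjoint g).symm⟩
  v := dlt 1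
  J := perm (Equiv.inv Γ)
  J_comm := by
    intro A hA
    ext x
    have h1 : A (dlt x) = lamL Γ x (A (dlt 1)) := by
      rw [← hA _ ⟨x, rfl⟩, lamL_dlt, mul_one]
    rw [perm_apply, Equiv.inv_apply, ← inner_dlt (ContinuousLinearMap.adjoint A (dlt 1)) x,
      ContinuousLinearMap.adjoint_inner_left, h1, real_inner_comm, inner_dlt, lamL_apply, mul_one]
  total := by
    intro L hL h1 h2
    refine h2_closed_eq_top L hL fun g => ?_
    have := h2 _ ⟨g, rfl⟩ _ h1
    rwa [lamL_dlt, mul_one] at this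

theorem grpTr_v_norm : ‖(grpTr Γ).v‖ = 1 := by
  classical
  have h : ‖(grpTr Γ).v‖ ^ 2 = 1 := by
    rw [h2_norm_sq]
    have h1 : ∀ x, ((grpTr Γ).v x) ^ 2 = if x = 1 then 1 else 0 := by
      intro x
      change (dlt 1 x) ^ 2 = _
      rw [dlt_apply]
      by_cases hx : x = 1
      · simp [hx]
      · simp [hx]
    simp only [h1]
    rw [tsum_ite_eq]
  nlinarith [norm_nonneg (grpTr Γ).v]

end group

end OS
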