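import Mathlib
import Pool.Agent.Lib.MP_8fe54c_gt.L2Shift

/-!
# A relation between equivariant operators (direct finiteness)
-/

namespace OS

open scoped InnerProductSpace ENNReal Classical
open Forest46876 Forest46876.VMod

set_option linter.all false

section rel

variable {H : Type*} [NormedAddCommGroup H] [InnerProductSpace ℝ H] [CompleteSpace H]
  {ι κ : Type*} [Fintype ι] [Fintype κ]

/-- the first components -/
noncomputable def resL : HI (ι ⊕ κ) H →L[ℝ] HI ι H :=
  LinearMap.mkContinuous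
    { toFun := fun f => WithLp.toLp 2 (fun i => f (Sum.inl i))
      map_add' := fun f g => by ext i; simp
      map_smul' := fun c f => by ext i; simp } 1 (by
    intro f
    simp only [LinearMap.coe_mk, AddHom.coe_mk, one_mul]
    rw [← sq_le_sq₀ (norm_nonneg _) (norm_nonneg _), PiLp.norm_sq_eq_of_L2,
      PiLp.norm_sq_eq_of_L2, Fintype.sum_sum_type]
    have : 0 ≤ ∑ x : κ, ‖f (Sum.inr x)‖ ^ 2 := Finset.sum_nonneg fun _ _ => by positivity
    simpa using this)

/-- the second components -/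
noncomputable def resR : HI (ι ⊕ κ) H →L[ℝ] HI κ H :=
  LinearMap.mkContinuous
    { toFun := fun f => WithLp.toLp 2 (fun i => f (Sum.inr i))
      map_add' := fun f g => by ext i; simp
      map_smul' := fun c f => by ext i; simp } 1 (by
    intro f
    simp only [LinearMap.coe_mk, AddHom.coe_mk, one_mul]
    rw [← sq_le_sq₀ (norm_nonneg _) (norm_nonneg _), PiLp.norm_sq_eq_of_L2,
      PiLp.norm_sq_eq_of_L2, Fintype.sum_sum_type]
    have : 0 ≤ ∑ x : ι, ‖f (Sum.inl x)‖ ^ 2 := Finset.sum_nonneg fun _ _ => by positivity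
    simpa using this)

@[simp] theorem resL_apply (f : HI (ι ⊕ κ) H) (i : ι) : resL f i = f (Sum.inl i) := rfl

@[simp] theorem resR_apply (f : HI (ι ⊕ κ) H) (i : κ) : resR f i = f (Sum.inr i) := rfl

/-- the inclusion of the first components -/
noncomputable def embL (g : HI ι H) : HI (ι ⊕ κ) H :=
  WithLp.toLp 2 (Sum.elim (fun i => g i) (fun _ => 0))

@[simp] theorem embL_inl (g : HI ι H) (i : ι) : (embL g : HI (ι ⊕ κ) H) (Sum.inl i) = g i := rfl

@[simp] theorem embL_inr (g : HI ι H) (j : κ) : (embL g : HI (ι ⊕ κ) H) (Sum.inr j) = 0 := rfl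

theorem embL_inner (g : HI ι H) (f : HI (ι ⊕ κ) H) :
    ⟪(embL g : HI (ι ⊕ κ) H), f⟫_ℝ = ⟪g, resL f⟫_ℝ := by
  rw [PiLp.inner_apply, PiLp.inner_apply, Fintype.sum_sum_type]
  simp

theorem embL_norm_sq (g : HI ι H) : ‖(embL g : HI (ι ⊕ κ) H)‖ ^ 2 = ‖g‖ ^ 2 := by
  rw [PiLp.norm_sq_eq_of_L2, PiLp.norm_sq_eq_of_L2, Fintype.sum_sum_type]
  simp

variable {S : TrSys H}

/-- `M ⊕ H^κ` -/
noncomputable def sumMod (κ : Type*) [Fintype κ] (M : VMod S ι) : VMod S (ι ⊕ κ) where
  K := M.K.comap (resL : HI (ι ⊕ κ) H →L[ℝ] HI ι H).toLinearMap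
  closed := M.closed.preimage (resL : HI (ι ⊕ κ) H →L[ℝ] HI ι H).continuous
  inv := fun u hu f hf => M.inv u hu _ hf

theorem mem_sumMod {M : VMod S ι} {f : HI (ι ⊕ κ) H} : f ∈ (sumMod κ M).K ↔ resL f ∈ M.K :=
  Iff.rfl

theorem norm_w (i : ι) : ‖S.w i‖ = ‖S.v‖ := PiLp.norm_single 2 (fun _ : ι => H) i S.v

theorem sumMod_dim (M : VMod S ι) :
    (sumMod κ M).dim = M.dim + Fintype.card κ * ‖S.v‖ ^ 2 := by
  rw [VMod.dim, Fintype.sum_sum_type]
  congr 1
  · refine Finset.sum_congr rfl fun i _ => ?_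
    have h1 : (sumMod κ M).P (S.w (Sum.inl i)) = embL (M.P (S.w i)) := by
      refine P_eq_of _ ?_ ?_
      · rw [mem_sumMod]
        have : resL (embL (M.P (S.w i)) : HI (ι ⊕ κ) H) = M.P (S.w i) := by
          ext j; rfl
        rw [this]
        exact P_mem _ _
      · intro g hg
        have h2 : S.w (Sum.inl i) = (embL (S.w i) : HI (ι ⊕ κ) H) := by
          ext j
          rcases j with j | j
          · simp only [TrSys.w, inc_apply, embL_inl]
            by_cases h : j = i
            · simp [h]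
            · simp [h]
          · simp [TrSys.w, inc_apply]
        rw [h2, inner_sub_left, embL_inner, embL_inner, ← inner_sub_left]
        exact inner_sub_P M _ hg
    rw [h1, embL_norm_sq]
  · have h1 : ∀ j : κ, ‖(sumMod κ M).P (S.w (Sum.inr j))‖ ^ 2 = ‖S.v‖ ^ 2 := by
      intro j
      have h2 : S.w (Sum.inr j) ∈ (sumMod κ M).K := by
        rw [mem_sumMod]
        have : resL (S.w (Sum.inr j) : HI (ι ⊕ κ) H) = 0 := by
          ext i
          simp [TrSys.w, inc_apply]
        rw [this]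
        exact M.K.zero_mem
      rw [P_eq_self _ h2, norm_w]
    simp [h1]

/-- A relation between two equivariant operators (direct finiteness). -/
theorem exists_rel (M : VMod S ι) (hM : M.K ≠ ⊥)
    (T1 : HI ι H →L[ℝ] HI κ H) (T2 : HI κ H →L[ℝ] HI κ H)
    (h1 : S.IsInt T1) (h2 : S.IsInt T2) (hinj : ∀ x, T2 x = 0 → x = 0) :
    ∃ h ∈ M.K, h ≠ 0 ∧ ∃ x, T1 h = T2 x := by
  by_contra hcon
  push Not at hcon
  have hT : S.IsInt (T1 ∘L resL - T2 ∘L resR : HI (ι ⊕ κ) H →L[ℝ] HI κ H) := by
    intro u hu f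
    change T1 (resL (lift u f)) - T2 (resR (lift u f)) = lift u (T1 (resL f) - T2 (resR f))
    have e1 : resL (lift u f : HI (ι ⊕ κ) H) = lift u (resL f) := rfl
    have e2 : resR (lift u f : HI (ι ⊕ κ) H) = lift u (resR f) := rfl
    rw [e1, e2, h1 u hu, h2 u hu]
    ext j
    simp
  have hle := dim_le_of_injOn (sumMod κ M) (VMod.top S κ) _ hT (fun _ _ => trivial) ?_
  · rw [sumMod_dim, dim_top] at hle
    have := M.dim_pos hM
    linarith
  · intro f hf h0
    have h3 : T1 (resL f) = T2 (resR f) := sub_eq_zero.mp h0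
    have h4 : resL f = 0 := by
      by_contra hne
      exact hcon _ hf hne _ h3
    rw [h4, map_zero] at h3
    have h5 := hinj _ h3.symm
    ext j
    rcases j with j | j
    · have := congrArg (fun g : HI ι H => g j) h4
      simpa using this
    · have := congrArg (fun g : HI κ H => g j) h5
      simpa using this

end rel

end OS
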