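import Mathlib
import Pool.Agent.Lib.MP_8fe54c_gt.FreeRes
import Pool.Agent.Lib.MP_8fe54c_gt.SalCore

/-!
# The Salvetti resolution of a right-angled Artin group
-/

namespace OS

open Finsupp

universe u v w

set_option linter.unusedSectionVars false

variable {V : Type u} [LinearOrder V] (G : SimpleGraph V)

/-- the `k`-cells of the Salvetti complex -/
def Cell (k : ℕ) : Type u :=
  RAAG G × {σ : Finset V // G.IsClique (σ : Set V) ∧ σ.card = k}

variable {G}

/-- constructor of cells -/
def Cell.mk {k : ℕ} (g : RAAG G) (σ : Finset V) (h : G.IsClique (σ : Set V) ∧ σ.card = k) :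
    Cell G k := (g, ⟨σ, h⟩)

/-- a cell as a pair -/
def Cell.toP {k : ℕ} (p : Cell G k) : RAAG G × Finset V := (p.1, p.2.1)

theorem Cell.toP_inj {k : ℕ} : Function.Injective (Cell.toP (G := G) (k := k)) := by
  rintro ⟨g, σ, h⟩ ⟨g', σ', h'⟩ e
  simp only [Cell.toP, Prod.mk.injEq] at e
  obtain ⟨rfl, rfl⟩ := e
  rfl

theorem Cell.toP_mk {k : ℕ} (g : RAAG G) (σ : Finset V)
    (h : G.IsClique (σ : Set V) ∧ σ.card = k) : (Cell.mk g σ h).toP = (g, σ) := rfl

theorem Cell.clique {k : ℕ} (p : Cell G k) : G.IsClique (p.toP.2 : Set V) := p.2.2.1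

theorem Cell.card {k : ℕ} (p : Cell G k) : p.toP.2.card = k := p.2.2.2

instance cellAct (k : ℕ) : MulAction (RAAG G) (Cell G k) where
  smul g p := (g * p.1, p.2)
  one_smul p := by
    obtain ⟨g, σ⟩ := p
    show ((1 * g, σ) : RAAG G × _) = (g, σ)
    rw [one_mul]
  mul_smul a b p := by
    obtain ⟨g, σ⟩ := p
    show (((a * b) * g, σ) : RAAG G × _) = (a * (b * g), σ)
    rw [mul_assoc]

theorem Cell.toP_smul {k : ℕ} (g : RAAG G) (p : Cell G k) :
    (g • p).toP = (g * p.toP.1, p.toP.2) := rfl

theorem Cell.smul_mk {k : ℕ} (a g : RAAG G) (σ : Finset V)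
    (h : G.IsClique (σ : Set V) ∧ σ.card = k) : a • Cell.mk g σ h = Cell.mk (a * g) σ h := rfl

theorem Cell.eq_mk {k : ℕ} (p : Cell G k) : p = Cell.mk p.toP.1 p.toP.2 ⟨p.clique, p.card⟩ := rfl

/-- chains of cells as chains of pairs -/
noncomputable def emb (k : ℕ) : (Cell G k →₀ ℤ) →ₗ[ℤ] SCh G := Finsupp.lmapDomain ℤ ℤ Cell.toP

/-- restriction to the `k`-cells -/
noncomputable def unemb (k : ℕ) : SCh G →ₗ[ℤ] (Cell G k →₀ ℤ) where
  toFun c := Finsupp.comapDomain Cell.toP c Cell.toP_inj.injOn
  map_add' a b := by ext p; simp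
  map_smul' n a := by ext p; simp

theorem unemb_apply {k : ℕ} (c : SCh G) (p : Cell G k) : unemb k c p = c p.toP := rfl

theorem emb_single {k : ℕ} (p : Cell G k) (n : ℤ) : emb k (single p n) = single p.toP n := by
  simp [emb]

theorem emb_apply {k : ℕ} (c : Cell G k →₀ ℤ) (p : Cell G k) : emb k c p.toP = c p := by
  unfold emb
  rw [Finsupp.lmapDomain_apply]
  exact Finsupp.mapDomain_apply Cell.toP_inj c p

theorem unemb_emb {k : ℕ} (c : Cell G k →₀ ℤ) : unemb k (emb k c) = c := by
  ext p
  rw [unemb_apply, emb_apply]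

theorem emb_mem {k : ℕ} (c : Cell G k →₀ ℤ) : emb k c ∈ Lv G Set.univ k := by
  induction c using Finsupp.induction_linear with
  | zero => rw [map_zero]; exact Submodule.zero_mem _
  | add a b ha hb => rw [map_add]; exact Submodule.add_mem _ ha hb
  | single p n =>
    rw [emb_single]
    exact Lv_single (Set.subset_univ _) p.clique p.card n

theorem emb_unemb {k : ℕ} {c : SCh G} (hc : c ∈ Lv G Set.univ k) : emb k (unemb k c) = c := by
  refine Lv_induct (P := fun c => emb k (unemb k c) = c) (by simp) ?_ ?_ ?_ hc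
  · intro x y hx hy
    rw [map_add, map_add, hx, hy]
  · intro n x hx
    rw [map_smul, map_smul, hx]
  · intro p _ h2 h3
    show emb k (unemb k (single p 1)) = single p 1
    have : p = (Cell.mk p.1 p.2 ⟨h2, h3⟩ : Cell G k).toP := rfl
    conv_lhs => rw [this, ← emb_single]
    rw [unemb_emb, emb_single]
    rfl

theorem emb_inj {k : ℕ} : Function.Injective (emb (G := G) k) :=
  Function.LeftInverse.injective unemb_emb

/-- the boundary of the Salvetti complex -/
noncomputable def salD (k : ℕ) : (Cell G (k + 1) →₀ ℤ) →ₗ[ℤ] (Cell G k →₀ ℤ) :=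
  unemb k ∘ₗ bdy ∘ₗ emb (k + 1)

theorem emb_salD {k : ℕ} (c : Cell G (k + 1) →₀ ℤ) : emb k (salD k c) = bdy (emb (k + 1) c) :=
  emb_unemb (bdy_mem (emb_mem c))

/-- left multiplication on chains of pairs -/
noncomputable def LL (g : RAAG G) : SCh G →ₗ[ℤ] SCh G :=
  Finsupp.lmapDomain ℤ ℤ (fun p => (g * p.1, p.2))

theorem LL_single (g : RAAG G) (p : RAAG G × Finset V) (n : ℤ) :
    LL g (single p n) = single (g * p.1, p.2) n := by
  simp [LL, Finsupp.lmapDomain_apply, Finsupp.mapDomain_single]

theorem bdy_LL (g : RAAG G) (c : SCh G) : bdy (LL g c) = LL g (bdy c) := by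
  induction c using Finsupp.induction_linear with
  | zero => simp
  | add a b ha hb => simp only [map_add, ha, hb]
  | single p n =>
    rw [LL_single, bdy_single, bdy_single, map_smul]
    congr 1
    unfold bdy1
    rw [map_sum]
    refine Finset.sum_congr rfl (fun v _ => ?_)
    rw [map_smul, map_sub, LL_single, LL_single, mul_assoc]

theorem emb_gact {k : ℕ} (g : RAAG G) (c : Cell G k →₀ ℤ) : emb k (gact g c) = LL g (emb k c) := by
  induction c using Finsupp.induction_linear with
  | zero => simp
  | add a b ha hb => simp only [map_add, ha, hb]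
  | single p n => rw [gact_single, emb_single, emb_single, LL_single]; rfl

/-- the augmentation -/
noncomputable def salEps : (Cell G 0 →₀ ℤ) →ₗ[ℤ] ℤ :=
  Finsupp.lsum ℤ (fun _ => LinearMap.id)

theorem salEps_single (p : Cell G 0) (n : ℤ) : salEps (single p n) = n := by
  simp [salEps]

/-- the sum of the coefficients -/
noncomputable def epsP : SCh G →ₗ[ℤ] ℤ := Finsupp.lsum ℤ (fun _ => LinearMap.id)

theorem epsP_single (p : RAAG G × Finset V) (n : ℤ) : epsP (single p n) = n := by
  simp [epsP]

theorem epsP_bdy (c : SCh G) : epsP (bdy c) = 0 := by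
  induction c using Finsupp.induction_linear with
  | zero => simp
  | add a b ha hb => rw [map_add, map_add, ha, hb, add_zero]
  | single p n =>
    rw [bdy_single, map_smul]
    unfold bdy1
    rw [map_sum]
    simp [map_smul, map_sub, epsP_single]

theorem epsP_emb (c : Cell G 0 →₀ ℤ) : epsP (emb 0 c) = salEps c := by
  induction c using Finsupp.induction_linear with
  | zero => simp
  | add a b ha hb => simp only [map_add, ha, hb]
  | single p n => rw [emb_single, epsP_single, salEps_single]

theorem sg_univ : sg G Set.univ = ⊤ := by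
  unfold sg
  rw [Set.image_univ]
  exact PresentedGroup.closure_range_of _

theorem prj_univ (c : SCh G) :
    prj Set.univ (zz c) = single ((1 : RAAG G) : RAAG G ⧸ sg G Set.univ) (epsP c) := by
  induction c using Finsupp.induction_linear with
  | zero => simp
  | add a b ha hb => simp only [map_add, ha, hb, single_add]
  | single p n =>
    rw [zz_single, prj_single, epsP_single]
    congr 1
    rw [QuotientGroup.eq, sg_univ]
    trivial

variable (G) in
/-- the Salvetti resolution -/
noncomputable def salRes [Fintype V] : FreeRes.{u, u} (RAAG G) where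
  X k := Cell G k
  act k := cellAct k
  free k g p h := by
    have h1 := congrArg (fun q : Cell G k => q.toP.1) h
    simp only [Cell.toP_smul] at h1
    exact mul_eq_right.1 h1
  fin k := by
    classical
    refine ⟨(Finset.univ : Finset {σ : Finset V // G.IsClique (σ : Set V) ∧ σ.card = k}).image
      (fun σ => (Cell.mk 1 σ.1 σ.2 : Cell G k)), fun p => ⟨p.toP.1, Cell.mk 1 p.toP.2
        ⟨p.clique, p.card⟩, Finset.mem_image.2 ⟨p.2, Finset.mem_univ _, rfl⟩, ?_⟩⟩
    rw [Cell.smul_mk, mul_one]
    rfl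
  d k := salD k
  eps := salEps
  d_act k g c := by
    apply emb_inj
    rw [emb_salD, emb_gact, emb_gact, emb_salD, bdy_LL]
  eps_act g c := by
    induction c using Finsupp.induction_linear with
    | zero => simp
    | add a b ha hb => simp only [map_add, ha, hb]
    | single p n => rw [gact_single, salEps_single, salEps_single]
  eps_surj := ⟨single (Cell.mk 1 ∅ (by simp)) 1, salEps_single _ _⟩
  eps_d c := by rw [← epsP_emb, emb_salD, epsP_bdy]
  d_d k c := by
    apply emb_inj
    rw [emb_salD, emb_salD, map_zero]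
    exact bdy_bdy (emb_mem c)
  exact0 c hc := by
    have h1 : prj Set.univ (zz (emb 0 c)) = 0 := by
      rw [prj_univ, epsP_emb, hc, single_zero]
    obtain ⟨e, he, h2⟩ := exact_zero Set.univ (emb_mem c) h1
    refine ⟨unemb 1 e, emb_inj ?_⟩
    rw [emb_salD, emb_unemb he, h2]
  exact k c hc := by
    have h1 : bdy (emb (k + 1) c) = 0 := by rw [← emb_salD, hc, map_zero]
    have h3 : emb (k + 1) c ∈ Lv G ((Finset.univ : Finset V) : Set V) (k + 1) := by
      rw [Finset.coe_univ]; exact emb_mem c
    obtain ⟨e, he, h2⟩ := exact_pos (Finset.univ : Finset V) Finset.univ (le_refl _) k _ h3 h1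
    rw [Finset.coe_univ] at he
    refine ⟨unemb (k + 2) e, emb_inj ?_⟩
    rw [emb_salD, emb_unemb he, h2]

variable [Fintype V]

theorem salRes_X (k : ℕ) : (salRes G).X k = Cell G k := rfl

/-- the coefficients of the boundary -/
theorem salRes_coef (k : ℕ) (p : Cell G (k + 1)) (q : Cell G k) :
    (salRes G).coef k p q = bdy1 p.toP q.toP := by
  show salD k (single p 1) q = _
  unfold salD
  rw [LinearMap.comp_apply, unemb_apply, LinearMap.comp_apply, emb_single, bdy_one]

open Classical in
theorem salRes_coef_mk (k : ℕ) (g h : RAAG G) (σ τ : Finset V)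
    (hσ : G.IsClique (σ : Set V) ∧ σ.card = k + 1) (hτ : G.IsClique (τ : Set V) ∧ τ.card = k) :
    (salRes G).coef k (Cell.mk g σ hσ) (Cell.mk h τ hτ) =
      ∑ v ∈ σ, sgnV σ v * ((if (g, σ.erase v) = (h, τ) then 1 else 0) -
        (if (g * ra v, σ.erase v) = (h, τ) then 1 else 0)) := by
  rw [salRes_coef, Cell.toP_mk, Cell.toP_mk]
  unfold bdy1
  rw [Finsupp.finsetSum_apply]
  refine Finset.sum_congr rfl (fun v _ => ?_)
  rw [Finsupp.smul_apply, Finsupp.sub_apply, Finsupp.single_apply, Finsupp.single_apply,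
    smul_eq_mul]

end OS
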