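import Mathlib
import Pool.Agent.Lib.MP_8fe54c_gt.L2Rel
import Pool.Agent.Lib.MP_8fe54c_gt.SalRes

/-!
# Square summable harmonic chains of the Salvetti complex (core)
-/

namespace OS

open scoped InnerProductSpace ENNReal Classical
open Forest46876 Forest46876.VMod

set_option linter.all false

section gen

variable {H : Type*} [NormedAddCommGroup H] [InnerProductSpace ℝ H] [CompleteSpace H]
  {ι κ : Type*} [Fintype ι] [Fintype κ] {S : TrSys H}

/-- the operator with the matrix `a` -/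
noncomputable def matOp (a : κ → ι → H →L[ℝ] H) : HI ι H →L[ℝ] HI κ H :=
  ∑ j, ∑ i, (inc j : H →L[ℝ] HI κ H) ∘L (a j i) ∘L (cmp i : HI ι H →L[ℝ] H)

theorem matOp_apply (a : κ → ι → H →L[ℝ] H) (f : HI ι H) (j : κ) :
    matOp a f j = ∑ i, a j i (f i) := by
  have h1 : matOp a f = ∑ j, (inc j : H →L[ℝ] HI κ H) (∑ i, a j i (f i)) := by
    unfold matOp
    rw [ContinuousLinearMap.sum_apply]
    refine Finset.sum_congr rfl fun j _ => ?_
    rw [ContinuousLinearMap.sum_apply, map_sum]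
    rfl
  rw [h1]
  have h2 := map_sum (cmp j : HI κ H →L[ℝ] H)
    (fun j => (inc j : H →L[ℝ] HI κ H) (∑ i, a j i (f i))) Finset.univ
  simp only [cmp_apply] at h2
  rw [h2, Finset.sum_eq_single j]
  · rw [inc_same]
  · intro b _ hb
    rw [inc_apply, if_neg (Ne.symm hb)]
  · simp

theorem matOp_isInt (a : κ → ι → H →L[ℝ] H)
    (ha : ∀ j i, ∀ u ∈ S.U, ∀ f, a j i (u f) = u (a j i f)) : S.IsInt (matOp a) := by
  intro u hu f
  ext j
  rw [matOp_apply, lift_apply, matOp_apply, map_sum]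
  refine Finset.sum_congr rfl fun i _ => ?_
  rw [lift_apply, ha j i u hu]

/-- common kernel of intertwiners -/
noncomputable def kerMod {I : Type*} (Φ : I → HI ι H →L[ℝ] H)
    (hΦ : ∀ i, ∀ u ∈ S.U, ∀ f, Φ i (lift u f) = u (Φ i f)) : VMod S ι where
  K := ⨅ i, (Φ i).toLinearMap.ker
  closed := by
    rw [Submodule.coe_iInf]
    exact isClosed_iInter fun i => ContinuousLinearMap.isClosed_ker (Φ i)
  inv := by
    intro u hu f hf
    rw [Submodule.mem_iInf] at hf ⊢
    intro i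
    have h1 : Φ i f = 0 := hf i
    change Φ i (lift u f) = 0
    rw [hΦ i u hu, h1, map_zero]

theorem mem_kerMod {I : Type*} {Φ : I → HI ι H →L[ℝ] H}
    {hΦ : ∀ i, ∀ u ∈ S.U, ∀ f, Φ i (lift u f) = u (Φ i f)} {f : HI ι H} :
    f ∈ (kerMod Φ hΦ).K ↔ ∀ i, Φ i f = 0 := by
  change f ∈ ⨅ i, (Φ i).toLinearMap.ker ↔ _
  rw [Submodule.mem_iInf]
  rfl

end gen

section grp

variable {Γ : Type*} [Group Γ]

/-- right translation `f ↦ (x ↦ f (x b))` -/
noncomputable def rop (b : Γ) : H2 Γ →L[ℝ] H2 Γ := permL (Equiv.mulRight b)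

@[simp] theorem rop_apply (b : Γ) (f : H2 Γ) (x : Γ) : rop b f x = f (x * b) := rfl

theorem rop_inner (b : Γ) (f g : H2 Γ) : ⟪rop b f, g⟫_ℝ = ⟪f, rop b⁻¹ g⟫_ℝ := by
  rw [rop, permL_inner, rop]
  congr 2

theorem rop_lamL (b g : Γ) (f : H2 Γ) : rop b (lamL Γ g f) = lamL Γ g (rop b f) := by
  ext x
  simp [mul_assoc]

theorem rop_comm {b c : Γ} (h : Commute b c) (f : H2 Γ) : rop b (rop c f) = rop c (rop b f) := by
  ext x
  simp only [rop_apply, mul_assoc]
  rw [h.eq]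

/-- `1 - rop b` -/
noncomputable def dop (b : Γ) : H2 Γ →L[ℝ] H2 Γ := ContinuousLinearMap.id ℝ _ - rop b

theorem dop_apply (b : Γ) (f : H2 Γ) : dop b f = f - rop b f := rfl

theorem dop_inner (b : Γ) (f g : H2 Γ) : ⟪dop b f, g⟫_ℝ = ⟪f, dop b⁻¹ g⟫_ℝ := by
  rw [dop_apply, dop_apply, inner_sub_left, inner_sub_right, rop_inner]

theorem dop_lamL (b g : Γ) (f : H2 Γ) : dop b (lamL Γ g f) = lamL Γ g (dop b f) := by
  rw [dop_apply, dop_apply, map_sub, rop_lamL]

theorem dop_comm {b c : Γ} (h : Commute b c) : Commute (dop b) (dop c) := by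
  refine ContinuousLinearMap.ext fun f => ?_
  change dop b (dop c f) = dop c (dop b f)
  simp only [dop_apply, map_sub]
  rw [rop_comm h]
  abel

theorem dop_inj {b : Γ} (hb : ∀ n : ℕ, b ^ n = 1 → n = 0) {f : H2 Γ} (h : dop b f = 0) :
    f = 0 := by
  rw [dop_apply, sub_eq_zero] at h
  have h1 : ∀ x, f x = f (x * b) := fun x => by
    conv_lhs => rw [h]
    rfl
  have h2 : ∀ (n : ℕ) x, f (x * b ^ n) = f x := by
    intro n
    induction n with
    | zero => simp
    | succ n ih =>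
      intro x
      rw [pow_succ, ← mul_assoc, ← h1, ih]
  ext x
  have hinj : Function.Injective fun n : ℕ => x * b ^ n := by
    intro n m hnm
    have h3 : b ^ n = b ^ m := mul_left_cancel hnm
    rcases le_total n m with hle | hle
    · obtain ⟨d, rfl⟩ := Nat.exists_eq_add_of_le hle
      rw [pow_add] at h3
      have := hb d (left_eq_mul.mp h3)
      omega
    · obtain ⟨d, rfl⟩ := Nat.exists_eq_add_of_le hle
      rw [pow_add] at h3
      have := hb d (mul_eq_left.mp h3)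
      omega
  have h4 := (h2_summable f).comp_injective hinj
  have h5 : (fun y => f y ^ 2) ∘ (fun n : ℕ => x * b ^ n) = fun _ => f x ^ 2 := by
    funext n
    simp only [Function.comp_apply, h2]
  rw [h5, summable_const_iff] at h4
  exact pow_eq_zero_iff (two_ne_zero) |>.mp h4

end grp

section sal

variable {V : Type*} [LinearOrder V] [Fintype V] {G : SimpleGraph V} {Γ : Type*} [Group Γ]

/-- the products of the operators `1 - R_v` over cliques -/
theorem exists_Mop (a : V → Γ) (hcomm : ∀ u v, G.Adj u v → Commute (a u) (a v))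
    (hinf : ∀ v, ∀ n : ℕ, a v ^ n = 1 → n = 0) :
    ∃ M : Finset V → (H2 Γ →L[ℝ] H2 Γ),
      (∀ σ v, v ∉ σ → G.IsClique ((insert v σ : Finset V) : Set V) →
        ∀ f, M (insert v σ) f = M σ (dop (a v)⁻¹ f)) ∧
      (∀ σ f, M σ f = 0 → f = 0) ∧ (∀ σ g f, M σ (lamL Γ g f) = lamL Γ g (M σ f)) := by
  have hc : ∀ σ : Finset V, G.IsClique (σ : Set V) →
      (σ : Set V).Pairwise (Function.onFun Commute fun v => dop (a v)⁻¹) := by
    intro σ hσ u hu v hv huv
    exact dop_comm ((hcomm u v (hσ hu hv huv)).inv_inv)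
  have hinf' : ∀ v, ∀ n : ℕ, (a v)⁻¹ ^ n = 1 → n = 0 := by
    intro v n h
    rw [inv_pow, inv_eq_one] at h
    exact hinf v n h
  let M : Finset V → (H2 Γ →L[ℝ] H2 Γ) := fun σ =>
    if h : G.IsClique (σ : Set V) then σ.noncommProd (fun v => dop (a v)⁻¹) (hc σ h) else 1
  have hM : ∀ (σ : Finset V) (h : G.IsClique (σ : Set V)),
      M σ = σ.noncommProd (fun v => dop (a v)⁻¹) (hc σ h) := fun σ h => dif_pos h
  have hins : ∀ (σ : Finset V) v, v ∉ σ → G.IsClique ((insert v σ : Finset V) : Set V) →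
      M (insert v σ) = M σ * dop (a v)⁻¹ := by
    intro σ v hv h
    have hσ : G.IsClique (σ : Set V) := h.subset (Finset.coe_subset.mpr (Finset.subset_insert v σ))
    rw [hM _ h, hM _ hσ]
    exact Finset.noncommProd_insert_of_notMem' _ _ _ _ hv
  have hcl : ∀ (P : (H2 Γ →L[ℝ] H2 Γ) → Prop), P 1 → (∀ A v, P A → P (A * dop (a v)⁻¹)) →
      ∀ σ, P (M σ) := by
    intro P h1 h2 σ
    by_cases h : G.IsClique (σ : Set V)
    · induction σ using Finset.induction_on with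
      | empty =>
        rw [hM _ h, Finset.noncommProd_empty]
        exact h1
      | insert v σ hv ih =>
        rw [hins σ v hv h]
        exact h2 _ v (ih (h.subset (Finset.coe_subset.mpr (Finset.subset_insert v σ))))
    · have : M σ = 1 := dif_neg h
      rw [this]
      exact h1
  refine ⟨M, ?_, ?_, ?_⟩
  · intro σ v hv h f
    rw [hins σ v hv h]
    rfl
  · refine hcl (fun A => ∀ f, A f = 0 → f = 0) (fun f h => h) ?_
    intro A v hA f h
    exact dop_inj (hinf' v) (hA _ h)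
  · refine hcl (fun A => ∀ g f, A (lamL Γ g f) = lamL Γ g (A f)) (fun g f => rfl) ?_
    intro A v hA g f
    change A (dop (a v)⁻¹ (lamL Γ g f)) = lamL Γ g (A (dop (a v)⁻¹ f))
    rw [dop_lamL, hA]

/-- supported on the cliques with `k` elements -/
def SuppK (G : SimpleGraph V) (k : ℕ) (z : Finset V → ℝ) : Prop :=
  ∀ σ : Finset V, ¬ (G.IsClique (σ : Set V) ∧ σ.card = k) → z σ = 0

/-- the simplicial boundary of a real chain -/
noncomputable def bdR (y : Finset V → ℝ) (σ : Finset V) : ℝ :=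
  ∑ v ∈ σᶜ, (sgnV (insert v σ) v : ℝ) * y (insert v σ)

/-- every real cycle on the cliques with `k` elements is a boundary -/
def RealAcyc (G : SimpleGraph V) (k : ℕ) : Prop :=
  ∀ z : Finset V → ℝ, SuppK G k z → (∀ σ, bdR z σ = 0) →
    ∃ y, SuppK G (k + 1) y ∧ ∀ σ, bdR y σ = z σ

theorem exists_section {k : ℕ} (h : RealAcyc G k) :
    ∃ Hm : Finset V → Finset V → ℝ,
      (∀ ρ σ : Finset V, ¬ (G.IsClique (ρ : Set V) ∧ ρ.card = k + 1) → Hm ρ σ = 0) ∧
      ∀ z : Finset V → ℝ, SuppK G k z → (∀ σ, bdR z σ = 0) →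
        ∀ σ, bdR (fun ρ => ∑ σ', Hm ρ σ' * z σ') σ = z σ := by
  let B : (Finset V → ℝ) →ₗ[ℝ] (Finset V → ℝ) :=
    { toFun := bdR
      map_add' := by
        intro x y
        funext σ
        simp only [bdR, Pi.add_apply, mul_add, Finset.sum_add_distrib]
      map_smul' := by
        intro c x
        funext σ
        simp only [bdR, Pi.smul_apply, smul_eq_mul, RingHom.id_apply, Finset.mul_sum]
        exact Finset.sum_congr rfl fun v _ => by ring }
  let Sk : ℕ → Submodule ℝ (Finset V → ℝ) := fun k =>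
    { carrier := {z | SuppK G k z}
      add_mem' := fun {x y} hx hy σ hσ => by rw [Pi.add_apply, hx σ hσ, hy σ hσ, add_zero]
      zero_mem' := fun σ _ => rfl
      smul_mem' := fun c x hx σ hσ => by rw [Pi.smul_apply, hx σ hσ, smul_zero] }
  let Z : Submodule ℝ (Finset V → ℝ) := Sk k ⊓ LinearMap.ker B
  let b := Module.Free.chooseBasis ℝ Z
  have hb : ∀ i, ∃ y : Sk (k + 1), B y = (b i : Finset V → ℝ) := by
    intro i
    obtain ⟨y, hy1, hy2⟩ := h (b i) (b i).2.1 (fun σ => congrFun (LinearMap.mem_ker.mp (b i).2.2) σ)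
    exact ⟨⟨y, hy1⟩, funext hy2⟩
  choose y hy using hb
  let s : Z →ₗ[ℝ] Sk (k + 1) := b.constr ℝ y
  have hs : ∀ z : Z, B (s z) = (z : Finset V → ℝ) := by
    intro z
    have h1 : (B ∘ₗ (Sk (k + 1)).subtype) ∘ₗ s = Z.subtype := by
      refine b.ext fun i => ?_
      simp only [LinearMap.comp_apply, Submodule.subtype_apply, s, Module.Basis.constr_basis]
      exact hy i
    exact congrArg (fun g => g z) h1
  obtain ⟨g, hg⟩ := LinearMap.exists_extend s
  refine ⟨fun ρ σ => (g (fun j => if σ = j then 1 else 0) : Finset V → ℝ) ρ, ?_, ?_⟩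
  · intro ρ σ hρ
    exact (g (fun j => if σ = j then 1 else 0)).2 ρ hρ
  · intro z hz1 hz2 σ
    have hzZ : z ∈ Z := ⟨hz1, LinearMap.mem_ker.mpr (funext hz2)⟩
    have h2 : g z = s ⟨z, hzZ⟩ := by
      rw [← hg]
      rfl
    have h3 : (fun ρ => ∑ σ', (g (fun j => if σ' = j then 1 else 0) : Finset V → ℝ) ρ * z σ') =
        (g z : Finset V → ℝ) := by
      funext ρ
      conv_rhs => rw [LinearMap.pi_apply_eq_sum_univ g z]
      rw [Submodule.coe_sum, Finset.sum_apply]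
      refine Finset.sum_congr rfl fun σ' _ => ?_
      rw [Submodule.coe_smul, Pi.smul_apply, smul_eq_mul, mul_comm]
    rw [h3, h2]
    exact congrFun (hs ⟨z, hzZ⟩) σ

omit [LinearOrder V] in
theorem sum_faces [DecidableEq V] (F : Finset V → V → ℝ) :
    ∑ σ : Finset V, ∑ v ∈ σᶜ, F σ v = ∑ τ : Finset V, ∑ v ∈ τ, F (τ.erase v) v := by
  rw [Finset.sum_sigma', Finset.sum_sigma']
  refine Finset.sum_bij' (fun p _ => ⟨insert p.2 p.1, p.2⟩) (fun p _ => ⟨p.1.erase p.2, p.2⟩)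
    ?_ ?_ ?_ ?_ ?_
  · rintro ⟨σ, v⟩ h
    simp only [Finset.mem_sigma, Finset.mem_univ, true_and, Finset.mem_compl] at h ⊢
    exact Finset.mem_insert_self _ _
  · rintro ⟨τ, v⟩ h
    simp only [Finset.mem_sigma, Finset.mem_univ, true_and, Finset.mem_compl] at h ⊢
    exact Finset.notMem_erase _ _
  · rintro ⟨σ, v⟩ h
    simp only [Finset.mem_sigma, Finset.mem_univ, true_and, Finset.mem_compl] at h
    simp only [Finset.erase_insert h]
  · rintro ⟨τ, v⟩ h
    simp only [Finset.mem_sigma, Finset.mem_univ, true_and] at h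
    simp only [Finset.insert_erase h]
  · rintro ⟨σ, v⟩ h
    simp only [Finset.mem_sigma, Finset.mem_univ, true_and, Finset.mem_compl] at h
    simp only [Finset.erase_insert h]

/-- No nonzero square summable harmonic chains. -/
theorem harm_core (a : V → Γ) (hcomm : ∀ u v, G.Adj u v → Commute (a u) (a v))
    (hinf : ∀ v, ∀ n : ℕ, a v ^ n = 1 → n = 0) {k : ℕ} (hac : RealAcyc G k)
    (f : HI (Finset V) (H2 Γ))
    (h1 : ∀ σ : Finset V, ¬ (G.IsClique (σ : Set V) ∧ σ.card = k) → f σ = 0)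
    (h2 : ∀ ρ : Finset V, ∑ v ∈ ρᶜ, (sgnV (insert v ρ) v : ℝ) • dop (a v)⁻¹ (f (insert v ρ)) = 0)
    (h3 : ∀ τ : Finset V, G.IsClique (τ : Set V) ∧ τ.card = k + 1 →
      ∑ v ∈ τ, (sgnV τ v : ℝ) • dop (a v) (f (τ.erase v)) = 0) : f = 0 := by
  obtain ⟨M, hMins, hMinj, hMlam⟩ := exists_Mop (Γ := Γ) a hcomm hinf
  obtain ⟨Hm, hHm, hH⟩ := exists_section hac
  -- the module of harmonic chains
  let I := Finset V ⊕ Finset V ⊕ Finset V
  let Φ : I → HI (Finset V) (H2 Γ) →L[ℝ] H2 Γ := fun i => match i with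
    | Sum.inl σ => if G.IsClique (σ : Set V) ∧ σ.card = k then 0 else cmp σ
    | Sum.inr (Sum.inl ρ) => ∑ v ∈ ρᶜ, (sgnV (insert v ρ) v : ℝ) • (dop (a v)⁻¹ ∘L cmp (insert v ρ))
    | Sum.inr (Sum.inr τ) => if G.IsClique (τ : Set V) ∧ τ.card = k + 1 then
        ∑ v ∈ τ, (sgnV τ v : ℝ) • (dop (a v) ∘L cmp (τ.erase v)) else 0
  have hΦ1 : ∀ (σ : Finset V) (g : HI (Finset V) (H2 Γ)), Φ (Sum.inl σ) g =
      if G.IsClique (σ : Set V) ∧ σ.card = k then 0 else g σ := by
    intro σ g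
    simp only [Φ]
    split_ifs
    · rfl
    · rfl
  have hΦ2 : ∀ (ρ : Finset V) (g : HI (Finset V) (H2 Γ)), Φ (Sum.inr (Sum.inl ρ)) g =
      ∑ v ∈ ρᶜ, (sgnV (insert v ρ) v : ℝ) • dop (a v)⁻¹ (g (insert v ρ)) := by
    intro ρ g
    simp only [Φ]
    rw [ContinuousLinearMap.sum_apply]
    rfl
  have hΦ3 : ∀ (τ : Finset V) (g : HI (Finset V) (H2 Γ)), Φ (Sum.inr (Sum.inr τ)) g =
      if G.IsClique (τ : Set V) ∧ τ.card = k + 1 then
        ∑ v ∈ τ, (sgnV τ v : ℝ) • dop (a v) (g (τ.erase v)) else 0 := by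
    intro τ g
    simp only [Φ]
    split_ifs
    · rw [ContinuousLinearMap.sum_apply]
      rfl
    · rfl
  have hΦ : ∀ i, ∀ u ∈ (grpTr Γ).U, ∀ g, Φ i (lift u g) = u (Φ i g) := by
    rintro i _ ⟨x, rfl⟩ g
    rcases i with σ | ρ | τ
    · rw [hΦ1, hΦ1]
      split_ifs
      · rw [map_zero]
      · rfl
    · rw [hΦ2, hΦ2, map_sum]
      refine Finset.sum_congr rfl fun v _ => ?_
      rw [map_smul, lift_apply, dop_lamL]
    · rw [hΦ3, hΦ3]
      split_ifs
      · rw [map_sum]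
        refine Finset.sum_congr rfl fun v _ => ?_
        rw [map_smul, lift_apply, dop_lamL]
      · rw [map_zero]
  let MM : VMod (grpTr Γ) (Finset V) := kerMod Φ hΦ
  by_contra hf
  have hfM : f ∈ MM.K := by
    rw [mem_kerMod]
    intro i
    rcases i with σ | ρ | τ
    · rw [hΦ1]
      split_ifs with h
      · rfl
      · exact h1 σ h
    · rw [hΦ2]
      exact h2 ρ
    · rw [hΦ3]
      split_ifs with h
      · exact h3 τ h
      · rfl
  have hMM : MM.K ≠ ⊥ := by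
    intro h
    rw [h, Submodule.mem_bot] at hfM
    exact hf hfM
  -- the two operators
  let T1 : HI (Finset V) (H2 Γ) →L[ℝ] HI (Finset V) (H2 Γ) := matOp fun ρ σ => Hm ρ σ • M σ
  let T2 : HI (Finset V) (H2 Γ) →L[ℝ] HI (Finset V) (H2 Γ) :=
    matOp fun ρ σ => if σ = ρ then M ρ else 0
  have hT1 : ∀ g ρ, T1 g ρ = ∑ σ, Hm ρ σ • M σ (g σ) := by
    intro g ρ
    rw [matOp_apply]
    rfl
  have hT2 : ∀ g ρ, T2 g ρ = M ρ (g ρ) := by
    intro g ρ
    rw [matOp_apply, Finset.sum_eq_single ρ]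
    · rw [if_pos rfl]
    · intro b _ hb
      rw [if_neg hb]
      rfl
    · simp
  obtain ⟨h, hhM, hh0, x, hx⟩ := exists_rel MM hMM T1 T2
    (matOp_isInt _ (by
      rintro ρ σ _ ⟨g, rfl⟩ u
      change Hm ρ σ • M σ (lamL Γ g u) = lamL Γ g (Hm ρ σ • M σ u)
      rw [hMlam, map_smul]))
    (matOp_isInt _ (by
      rintro ρ σ _ ⟨g, rfl⟩ u
      split_ifs
      · exact hMlam _ _ _
      · change (0 : H2 Γ) = lamL Γ g 0
        rw [map_zero]))
    (by
      intro y hy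
      ext ρ : 1
      have := congrArg (fun z : HI (Finset V) (H2 Γ) => z ρ) hy
      simp only [hT2] at this
      exact hMinj ρ _ this)
  rw [mem_kerMod] at hhM
  have hh1 : ∀ σ : Finset V, ¬ (G.IsClique (σ : Set V) ∧ σ.card = k) → h σ = 0 := by
    intro σ hσ
    have := hhM (Sum.inl σ)
    rwa [hΦ1, if_neg hσ] at this
  have hh2 : ∀ ρ : Finset V, ∑ v ∈ ρᶜ, (sgnV (insert v ρ) v : ℝ) •
      dop (a v)⁻¹ (h (insert v ρ)) = 0 := by
    intro ρ
    have := hhM (Sum.inr (Sum.inl ρ))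
    rwa [hΦ2] at this
  have hh3 : ∀ τ : Finset V, G.IsClique (τ : Set V) ∧ τ.card = k + 1 →
      ∑ v ∈ τ, (sgnV τ v : ℝ) • dop (a v) (h (τ.erase v)) = 0 := by
    intro τ hτ
    have := hhM (Sum.inr (Sum.inr τ))
    rwa [hΦ3, if_pos hτ] at this
  have hTx : ∀ ρ, ∑ σ, Hm ρ σ • M σ (h σ) = M ρ (x ρ) := by
    intro ρ
    rw [← hT1, ← hT2, hx]
  have hx0 : ∀ τ : Finset V, ¬ (G.IsClique (τ : Set V) ∧ τ.card = k + 1) → x τ = 0 := by
    intro τ hτ
    apply hMinj τ
    rw [← hTx τ]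
    refine Finset.sum_eq_zero fun σ _ => ?_
    rw [hHm τ σ hτ, zero_smul]
  -- the simplicial cycle
  let z : Finset V → H2 Γ := fun σ => M σ (h σ)
  have hz1 : ∀ σ : Finset V, ¬ (G.IsClique (σ : Set V) ∧ σ.card = k) → z σ = 0 := by
    intro σ hσ
    simp only [z, hh1 σ hσ, map_zero]
  have hstep : ∀ (y : Finset V → H2 Γ) (m : ℕ), (∀ σ : Finset V,
      ¬ (G.IsClique (σ : Set V) ∧ σ.card = m) → y σ = 0) → ∀ ρ : Finset V, ∀ v ∈ ρᶜ,
      M (insert v ρ) (y (insert v ρ)) = M ρ (dop (a v)⁻¹ (y (insert v ρ))) := by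
    intro y m hy ρ v hv
    rw [Finset.mem_compl] at hv
    by_cases hcl : G.IsClique ((insert v ρ : Finset V) : Set V) ∧ (insert v ρ).card = m
    · exact hMins ρ v hv hcl.1 _
    · rw [hy _ hcl, map_zero, map_zero, map_zero]
  have hz2 : ∀ ρ : Finset V, ∑ v ∈ ρᶜ, (sgnV (insert v ρ) v : ℝ) • z (insert v ρ) = 0 := by
    intro ρ
    have : ∑ v ∈ ρᶜ, (sgnV (insert v ρ) v : ℝ) • z (insert v ρ) =
        M ρ (∑ v ∈ ρᶜ, (sgnV (insert v ρ) v : ℝ) • dop (a v)⁻¹ (h (insert v ρ))) := by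
      rw [map_sum]
      refine Finset.sum_congr rfl fun v hv => ?_
      rw [map_smul]
      congr 1
      exact hstep (fun σ => h σ) k hh1 ρ v hv
    rw [this, hh2, map_zero]
  have hz3 : ∀ σ : Finset V, z σ = ∑ v ∈ σᶜ, (sgnV (insert v σ) v : ℝ) •
      M (insert v σ) (x (insert v σ)) := by
    intro σ
    ext g
    have hc1 : SuppK G k fun σ => z σ g := by
      intro σ hσ
      simp only [hz1 σ hσ]
      rfl
    have hc2 : ∀ σ, bdR (fun σ => z σ g) σ = 0 := by
      intro σ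
      have := congrArg (fun u : H2 Γ => u g) (hz2 σ)
      simp only [lp.coeFn_sum, Finset.sum_apply, lp.coeFn_smul, Pi.smul_apply, smul_eq_mul,
        lp.coeFn_zero, Pi.zero_apply] at this
      exact this
    have hc3 := hH _ hc1 hc2 σ
    rw [← hc3, bdR]
    simp only [lp.coeFn_sum, Finset.sum_apply, lp.coeFn_smul, Pi.smul_apply, smul_eq_mul]
    refine Finset.sum_congr rfl fun v _ => ?_
    rw [← hTx]
    simp only [lp.coeFn_sum, Finset.sum_apply, lp.coeFn_smul, Pi.smul_apply, smul_eq_mul, z]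
  have hh4 : ∀ σ : Finset V, h σ = ∑ v ∈ σᶜ, (sgnV (insert v σ) v : ℝ) •
      dop (a v)⁻¹ (x (insert v σ)) := by
    intro σ
    rw [← sub_eq_zero]
    apply hMinj σ
    rw [map_sub, map_sum, sub_eq_zero]
    change z σ = _
    rw [hz3]
    refine Finset.sum_congr rfl fun v hv => ?_
    rw [map_smul]
    congr 1
    exact hstep (fun σ => x σ) (k + 1) hx0 σ v hv
  apply hh0
  have hin : ⟪h, h⟫_ℝ = 0 := by
    rw [PiLp.inner_apply]
    have e1 : ∀ σ : Finset V, ⟪h σ, h σ⟫_ℝ = ∑ v ∈ σᶜ, (sgnV (insert v σ) v : ℝ) *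
        ⟪dop (a v) (h σ), x (insert v σ)⟫_ℝ := by
      intro σ
      rw [congrArg (fun u => ⟪u, h σ⟫_ℝ) (hh4 σ), sum_inner]
      refine Finset.sum_congr rfl fun v _ => ?_
      rw [real_inner_smul_left, dop_inner, inv_inv, real_inner_comm]
    rw [Finset.sum_congr rfl fun σ _ => e1 σ, sum_faces (fun σ v => (sgnV (insert v σ) v : ℝ) *
        ⟪dop (a v) (h σ), x (insert v σ)⟫_ℝ)]
    refine Finset.sum_eq_zero fun τ _ => ?_
    by_cases hτ : G.IsClique (τ : Set V) ∧ τ.card = k + 1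
    · have e2 : ∑ v ∈ τ, (sgnV (insert v (τ.erase v)) v : ℝ) *
          ⟪dop (a v) (h (τ.erase v)), x (insert v (τ.erase v))⟫_ℝ =
          ⟪∑ v ∈ τ, (sgnV τ v : ℝ) • dop (a v) (h (τ.erase v)), x τ⟫_ℝ := by
        rw [sum_inner]
        refine Finset.sum_congr rfl fun v hv => ?_
        rw [Finset.insert_erase hv, real_inner_smul_left]
      rw [e2, hh3 τ hτ, inner_zero_left]
    · refine Finset.sum_eq_zero fun v hv => ?_
      rw [Finset.insert_erase hv, hx0 τ hτ, inner_zero_right, mul_zero]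
  exact inner_self_eq_zero.mp hin

end sal

end OS
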