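import Mathlib
import Pool.Agent.Lib.MP_8fe54c_gt.L2Sal

/-!
# The square summable harmonic chains of the Salvetti resolution

If every real cycle on the cliques with `k` elements is a boundary, then the Salvetti resolution
has no nonzero real square summable harmonic `k`-chains.
-/

namespace OS

open scoped InnerProductSpace ENNReal Classical
open Forest46876

set_option linter.all false

section harm

variable {V : Type*} [LinearOrder V] {G : SimpleGraph V} {k : ℕ}

/-- a function on the cells, extended by zero -/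
noncomputable def extC (ξ : Cell G k → ℝ) (p : RAAG G × Finset V) : ℝ :=
  if h : G.IsClique (p.2 : Set V) ∧ p.2.card = k then ξ (Cell.mk p.1 p.2 h) else 0

theorem extC_toP (ξ : Cell G k → ℝ) (q : Cell G k) : extC ξ q.toP = ξ q := by
  unfold extC
  rw [dif_pos ⟨q.clique, q.card⟩]
  rfl

theorem extC_off (ξ : Cell G k → ℝ) (p : RAAG G × Finset V)
    (h : ¬ (G.IsClique (p.2 : Set V) ∧ p.2.card = k)) : extC ξ p = 0 := dif_neg h

/-- the pairing with a finite chain -/
noncomputable def prC (F : RAAG G × Finset V → ℝ) : SCh G →ₗ[ℤ] ℝ :=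
  Finsupp.lsum ℤ fun p => (LinearMap.toSpanSingleton ℤ ℝ (F p))

theorem prC_single (F : RAAG G × Finset V → ℝ) (p : RAAG G × Finset V) (n : ℤ) :
    prC F (Finsupp.single p n) = n * F p := by
  simp [prC]

theorem prC_apply (F : RAAG G × Finset V → ℝ) (c : SCh G) :
    prC F c = ∑ p ∈ c.support, (c p : ℝ) * F p := by
  unfold prC
  rw [Finsupp.lsum_apply, Finsupp.sum]
  refine Finset.sum_congr rfl fun p _ => ?_
  simp

theorem finsum_eq (ξ : Cell G k → ℝ) (c : SCh G) :
    ∑ᶠ q : Cell G k, ((c q.toP : ℤ) : ℝ) * ξ q = prC (extC ξ) c := by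
  rw [prC_apply]
  have h1 : (∑ p ∈ c.support, (c p : ℝ) * extC ξ p) =
      ∑ᶠ p : RAAG G × Finset V, (c p : ℝ) * extC ξ p := by
    rw [finsum_eq_sum_of_support_subset]
    intro p hp
    rw [Function.mem_support] at hp
    rw [Finset.mem_coe, Finsupp.mem_support_iff]
    intro h
    apply hp
    rw [h, Int.cast_zero, zero_mul]
  rw [h1]
  have h2 : (Function.support fun p : RAAG G × Finset V => (c p : ℝ) * extC ξ p) ⊆
      Set.range (Cell.toP (G := G) (k := k)) := by
    intro p hp
    rw [Function.mem_support] at hp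
    by_cases h : G.IsClique (p.2 : Set V) ∧ p.2.card = k
    · exact ⟨Cell.mk p.1 p.2 h, rfl⟩
    · exact absurd (by rw [extC_off ξ p h, mul_zero]) hp
  rw [← finsum_mem_univ (fun p : RAAG G × Finset V => (c p : ℝ) * extC ξ p),
    ← finsum_mem_inter_support, Set.univ_inter,
    ← Set.inter_eq_right.mpr h2, finsum_mem_inter_support, finsum_mem_range Cell.toP_inj]
  refine finsum_congr fun q => ?_
  rw [extC_toP]

variable [Fintype V]

theorem cocyc_eq {ξ : Cell G k → ℝ} (h : (salRes G).IsCocyc k ξ) (g : RAAG G) (τ : Finset V)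
    (hτ : G.IsClique (τ : Set V) ∧ τ.card = k + 1) :
    ∑ v ∈ τ, (sgnV τ v : ℝ) * (extC ξ (g, τ.erase v) - extC ξ (g * ra v, τ.erase v)) = 0 := by
  have h1 := h (Cell.mk g τ hτ)
  have h2 : ∀ x : Cell G k, (salRes G).coef k (Cell.mk g τ hτ) x = bdy1 (g, τ) x.toP := by
    intro x
    rw [salRes_coef, Cell.toP_mk]
  have h3 : ∑ᶠ x : Cell G k, ((bdy1 (g, τ) x.toP : ℤ) : ℝ) * ξ x = 0 := by
    rw [← h1]
    refine finsum_congr fun x => ?_
    rw [h2]
  rw [finsum_eq, bdy1, map_sum] at h3
  rw [← h3]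
  refine Finset.sum_congr rfl fun v _ => ?_
  rw [map_smul, map_sub, prC_single, prC_single, Int.cast_one, one_mul, one_mul, zsmul_eq_mul]

/-- the coboundary of a cell -/
noncomputable def cbd (h : RAAG G) (ρ : Finset V) : SCh G :=
  ∑ v ∈ ρᶜ, sgnV (insert v ρ) v • (Finsupp.single (h, insert v ρ) 1 -
    Finsupp.single (h * (ra v)⁻¹, insert v ρ) 1)

theorem bdy1_eq_cbd (g h : RAAG G) (σ ρ : Finset V) : bdy1 (g, σ) (h, ρ) = cbd h ρ (g, σ) := by
  unfold bdy1 cbd
  rw [Finsupp.finsetSum_apply, Finsupp.finsetSum_apply]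
  rw [← Finset.sum_filter_add_sum_filter_not σ (fun v => σ.erase v = ρ),
    ← Finset.sum_filter_add_sum_filter_not ρᶜ (fun v => insert v ρ = σ)]
  have e1 : (σ.filter fun v => σ.erase v = ρ) = ρᶜ.filter fun v => insert v ρ = σ := by
    ext v
    simp only [Finset.mem_filter, Finset.mem_compl]
    constructor
    · rintro ⟨h1, rfl⟩
      exact ⟨Finset.notMem_erase v σ, Finset.insert_erase h1⟩
    · rintro ⟨h1, rfl⟩
      exact ⟨Finset.mem_insert_self v ρ, Finset.erase_insert h1⟩
  have e2 : ∑ v ∈ σ.filter (fun v => ¬ σ.erase v = ρ), ((sgnV σ v •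
      (Finsupp.single (g, σ.erase v) 1 - Finsupp.single (g * ra v, σ.erase v) 1) : SCh G))
      (h, ρ) = 0 := by
    refine Finset.sum_eq_zero fun v hv => ?_
    have hv := (Finset.mem_filter.mp hv).2
    rw [Finsupp.smul_apply, Finsupp.sub_apply, Finsupp.single_eq_of_ne, Finsupp.single_eq_of_ne]
    · simp
    · intro e
      exact hv (Prod.ext_iff.mp e).2.symm
    · intro e
      exact hv (Prod.ext_iff.mp e).2.symm
  have e3 : ∑ v ∈ ρᶜ.filter (fun v => ¬ insert v ρ = σ), ((sgnV (insert v ρ) v •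
      (Finsupp.single (h, insert v ρ) 1 - Finsupp.single (h * (ra v)⁻¹, insert v ρ) 1) : SCh G))
      (g, σ) = 0 := by
    refine Finset.sum_eq_zero fun v hv => ?_
    have hv := (Finset.mem_filter.mp hv).2
    rw [Finsupp.smul_apply, Finsupp.sub_apply, Finsupp.single_eq_of_ne, Finsupp.single_eq_of_ne]
    · simp
    · intro e
      exact hv (Prod.ext_iff.mp e).2.symm
    · intro e
      exact hv (Prod.ext_iff.mp e).2.symm
  have e4 : ∑ v ∈ σ.filter (fun v => σ.erase v = ρ), ((sgnV σ v •
      (Finsupp.single (g, σ.erase v) 1 - Finsupp.single (g * ra v, σ.erase v) 1) : SCh G))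
      (h, ρ) = ∑ v ∈ ρᶜ.filter (fun v => insert v ρ = σ), ((sgnV (insert v ρ) v •
      (Finsupp.single (h, insert v ρ) 1 - Finsupp.single (h * (ra v)⁻¹, insert v ρ) 1) : SCh G))
      (g, σ) := by
    rw [e1]
    refine Finset.sum_congr rfl fun v hv => ?_
    obtain ⟨hv1, hv2⟩ := Finset.mem_filter.mp hv
    rw [Finset.mem_compl] at hv1
    subst hv2
    rw [Finset.erase_insert hv1, Finsupp.smul_apply, Finsupp.smul_apply, Finsupp.sub_apply,
      Finsupp.sub_apply, Finsupp.single_apply, Finsupp.single_apply, Finsupp.single_apply,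
      Finsupp.single_apply]
    have a1 : ((g, ρ) = (h, ρ)) ↔ ((h, insert v ρ) = (g, insert v ρ)) := by
      simp only [Prod.mk.injEq, and_true]
      exact eq_comm
    have a2 : ((g * ra v, ρ) = (h, ρ)) ↔ ((h * (ra v)⁻¹, insert v ρ) = (g, insert v ρ)) := by
      simp only [Prod.mk.injEq, and_true]
      constructor
      · rintro rfl
        rw [mul_inv_cancel_right]
      · rintro rfl
        rw [inv_mul_cancel_right]
    congr 2
    · exact if_congr a1 rfl rfl
    · exact if_congr a2 rfl rfl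
  change _ + ∑ v ∈ σ.filter (fun v => ¬ σ.erase v = ρ), ((sgnV σ v •
      (Finsupp.single (g, σ.erase v) 1 - Finsupp.single (g * ra v, σ.erase v) 1) : SCh G))
      (h, ρ) = _
  rw [e2, e3]
  congr 1

theorem cyc_eq {ξ : Cell G (k + 1) → ℝ} (hc : (salRes G).IsCyc (k + 1) ξ) (g : RAAG G)
    (ρ : Finset V) (hρ : G.IsClique (ρ : Set V) ∧ ρ.card = k) :
    ∑ v ∈ ρᶜ, (sgnV (insert v ρ) v : ℝ) * (extC ξ (g, insert v ρ) -
      extC ξ (g * (ra v)⁻¹, insert v ρ)) = 0 := by
  have h1 := hc (Cell.mk g ρ hρ)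
  have h2 : ∀ x : Cell G (k + 1), (salRes G).coef k x (Cell.mk g ρ hρ) = cbd g ρ x.toP := by
    intro x
    rw [salRes_coef, Cell.toP_mk]
    exact bdy1_eq_cbd _ _ _ _
  have h3 : ∑ᶠ x : Cell G (k + 1), ((cbd g ρ x.toP : ℤ) : ℝ) * ξ x = 0 := by
    rw [← h1]
    refine finsum_congr fun x => ?_
    rw [h2]
  rw [finsum_eq, cbd, map_sum] at h3
  rw [← h3]
  refine Finset.sum_congr rfl fun v _ => ?_
  rw [map_smul, map_sub, prC_single, prC_single, Int.cast_one, one_mul, one_mul, zsmul_eq_mul]

omit [LinearOrder V] [Fintype V] in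
/-- the generators have infinite order -/
theorem ra_pow (v : V) (n : ℕ) (h : (ra v : RAAG G) ^ n = 1) : n = 0 := by
  let φ : RAAG G →* Multiplicative ℤ := raLift (fun _ : V => Multiplicative.ofAdd (1 : ℤ))
    (fun _ _ _ => Commute.all _ _)
  have h0 : φ (ra v) = Multiplicative.ofAdd (1 : ℤ) := raLift_ra _ _ v
  have h1 : φ ((ra v) ^ n) = φ 1 := congrArg φ h
  rw [map_pow, h0, φ.map_one, ← ofAdd_nsmul, ofAdd_eq_one] at h1
  simpa using h1

/-- No nonzero square summable harmonic `k`-chains on the Salvetti resolution if every real cycle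
on the cliques with `k` elements is a boundary. -/
theorem salRes_harmZero (hac : RealAcyc G k) : (salRes G).HarmZero ℝ k := by
  intro ξ hξ
  have hsq : ∀ σ : Finset V, Summable fun g : RAAG G => extC ξ (g, σ) ^ 2 := by
    intro σ
    by_cases h : G.IsClique (σ : Set V) ∧ σ.card = k
    · have hinj : Function.Injective fun g : RAAG G => (Cell.mk g σ h : Cell G k) := by
        intro g g' e
        exact congrArg (fun q : Cell G k => q.toP.1) e
      have h1 : (fun g : RAAG G => extC ξ (g, σ) ^ 2) =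
          (fun x : Cell G k => ‖ξ x‖ ^ 2) ∘ fun g : RAAG G => (Cell.mk g σ h : Cell G k) := by
        funext g
        rw [Function.comp_apply, Real.norm_eq_abs, sq_abs]
        unfold extC
        rw [dif_pos h]
      rw [h1]
      exact Summable.comp_injective hξ.sq hinj
    · refine summable_zero.congr fun g => ?_
      rw [extC_off ξ (g, σ) h]
      norm_num
  let f : HI (Finset V) (H2 (RAAG G)) :=
    WithLp.toLp 2 fun σ => ⟨fun g => extC ξ (g, σ), h2_memlp_iff.mpr (hsq σ)⟩
  have hf : ∀ σ g, f σ g = extC ξ (g, σ) := fun σ g => rfl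
  have hdop : ∀ (b g : RAAG G) (σ : Finset V),
      dop b (f σ) g = extC ξ (g, σ) - extC ξ (g * b, σ) := fun b g σ => rfl
  have hf0 : ∀ σ : Finset V, ¬ (G.IsClique (σ : Set V) ∧ σ.card = k) → f σ = 0 := by
    intro σ hσ
    ext g
    rw [hf, extC_off ξ (g, σ) hσ]
    rfl
  have key : f = 0 := by
    refine harm_core (G := G) (fun v => (ra v : RAAG G)) (fun u v h => ra_comm h)
      (fun v n h => ra_pow v n h) hac f hf0 ?_ ?_
    · intro ρ
      by_cases hk : ∃ k', k = k' + 1 ∧ G.IsClique (ρ : Set V) ∧ ρ.card = k'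
      · obtain ⟨k', rfl, hρ⟩ := hk
        ext g
        have := cyc_eq hξ.cyc g ρ hρ
        simp only [lp.coeFn_sum, Finset.sum_apply, lp.coeFn_smul, Pi.smul_apply, smul_eq_mul,
          hdop]
        rw [this]
        rfl
      · refine Finset.sum_eq_zero fun v hv => ?_
        rw [Finset.mem_compl] at hv
        rw [hf0, map_zero, smul_zero]
        rintro ⟨h1, h2⟩
        rw [Finset.card_insert_of_notMem hv] at h2
        exact hk ⟨ρ.card, h2.symm,
          h1.subset (Finset.coe_subset.mpr (Finset.subset_insert v ρ)), rfl⟩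
    · intro τ hτ
      ext g
      have := cocyc_eq hξ.cocyc g τ hτ
      simp only [lp.coeFn_sum, Finset.sum_apply, lp.coeFn_smul, Pi.smul_apply, smul_eq_mul,
        hdop]
      rw [this]
      rfl
  funext q
  have h1 : extC ξ q.toP = 0 := by
    have := hf q.toP.2 q.toP.1
    rw [key] at this
    exact this.symm
  exact (extC_toP ξ q).symm.trans h1

end harm

end OS
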