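import Mathlib
import Pool.Agent.Lib.MP_8fe54c_gt.TopDefs
import Pool.Agent.Lib.MP_8fe54c_gt.Sper

/-!
# The sphere around a point does not bound in the punctured manifold (module D2)
-/

namespace OS

open Filter Topology Finsupp

section deg

variable {n : ℕ} {Y : Type*}

open Classical in
/-- the local degree functional in the chart `e` -/
noncomputable def degDD (e : Rn n → Y) : LC Y →ₗ[ZMod 2] ZMod 2 :=
  Finsupp.lsum (ZMod 2) (fun t : List Y => LinearMap.toSpanSingleton (ZMod 2) (ZMod 2)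
    (if (∀ y ∈ t, y ∈ e '' {x | ‖x‖ ≤ 1}) ∧
      (t.map (fun y => lab n (Function.invFun e y))).Perm (List.range (n + 1)) then 1 else 0))

open Classical in
theorem degDD_bs (e : Rn n → Y) (t : List Y) : degDD e (bs t) =
    if (∀ y ∈ t, y ∈ e '' {x | ‖x‖ ≤ 1}) ∧
      (t.map (fun y => lab n (Function.invFun e y))).Perm (List.range (n + 1)) then 1 else 0 := by
  simp [degDD]

open Classical in
theorem deg_Dn_bs (t : List (Rn n)) : Dn n (bs t) =
    if (t.map (lab n)).Perm (List.range (n + 1)) then 1 else 0 := by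
  simp [Dn]

/-- two functionals which agree on the support agree -/
theorem deg_congr {X : Type*} {f g : LC X →ₗ[ZMod 2] ZMod 2} {c : LC X}
    (h : ∀ t ∈ c.support, f (bs t) = g (bs t)) : f c = g c := by
  have hc : c = ∑ t ∈ c.support, c t • bs t := by
    conv_lhs => rw [← Finsupp.sum_single c]
    unfold Finsupp.sum
    refine Finset.sum_congr rfl fun t _ => ?_
    simp [bs]
  rw [hc, map_sum, map_sum]
  refine Finset.sum_congr rfl fun t ht => ?_
  rw [map_smul, map_smul, h t ht]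

theorem degDD_map {e : Rn n → Y} (he : Function.Injective e) {c : LC (Rn n)}
    (hc : ∀ t ∈ c.support, ∀ x ∈ t, ‖x‖ ≤ 1) : degDD e (mapL e c) = Dn n c := by
  refine deg_congr (f := degDD e ∘ₗ mapL e) (g := Dn n) fun t ht => ?_
  rw [LinearMap.comp_apply, mapL_bs, degDD_bs, deg_Dn_bs, List.map_map]
  have h1 : ∀ y ∈ t.map e, y ∈ e '' {x | ‖x‖ ≤ 1} := by
    intro y hy
    obtain ⟨x, hx, rfl⟩ := List.mem_map.mp hy
    exact ⟨x, hc t ht x hx, rfl⟩
  have h2 : ((fun y => lab n (Function.invFun e y)) ∘ e) = lab n := by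
    funext x
    simp only [Function.comp_apply]
    rw [Function.leftInverse_invFun he x]
  rw [h2]
  by_cases hp : (t.map (lab n)).Perm (List.range (n + 1))
  · rw [if_pos hp, if_pos ⟨h1, hp⟩]
  · rw [if_neg hp, if_neg fun h => hp h.2]

variable [TopologicalSpace Y] [T2Space Y]

omit [T2Space Y] in
theorem deg_cont {e : Rn n → Y} (he : IsOpenEmbedding e) (x : Rn n) :
    ContinuousAt (Function.invFun e) (e x) := by
  rw [← he.continuousAt_iff]
  have : Function.invFun e ∘ e = id := by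
    funext x
    exact Function.leftInverse_invFun he.injective x
  rw [this]
  exact continuousAt_id

omit [T2Space Y] in
theorem deg_compact {e : Rn n → Y} (he : IsOpenEmbedding e) (r : ℝ) :
    IsCompact (e '' {x | ‖x‖ ≤ r}) := by
  have : {x : Rn n | ‖x‖ ≤ r} = Metric.closedBall 0 r := by
    ext x; simp
  rw [this]
  exact (isCompact_closedBall _ _).image he.continuous

/-- small distance in the chart, for pairs in the unit ball of the chart -/
theorem deg_nhds {e : Rn n → Y} (he : IsOpenEmbedding e) {δ : ℝ} (hδ : 0 < δ) :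
    {q : Y × Y | q.1 ∈ e '' {x | ‖x‖ ≤ 1} → q.2 ∈ e '' {x | ‖x‖ ≤ 1} →
      ‖Function.invFun e q.1 - Function.invFun e q.2‖ < δ} ∈ 𝓝ˢ (Set.diagonal Y) := by
  rw [mem_nhdsSet_iff_forall]
  rintro ⟨y, y'⟩ hy
  obtain rfl : y = y' := hy
  by_cases hy : y ∈ e '' {x | ‖x‖ ≤ 1}
  · obtain ⟨x, hx, rfl⟩ := hy
    have h1 : ContinuousAt (fun q : Y × Y => ‖Function.invFun e q.1 - Function.invFun e q.2‖)
        (e x, e x) := by
      refine ContinuousAt.norm (ContinuousAt.sub ?_ ?_)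
      · exact ContinuousAt.comp (g := Function.invFun e) (deg_cont he x) continuousAt_fst
      · exact ContinuousAt.comp (g := Function.invFun e) (deg_cont he x) continuousAt_snd
    have h2 : ∀ᶠ q : Y × Y in 𝓝 (e x, e x),
        ‖Function.invFun e q.1 - Function.invFun e q.2‖ < δ := by
      refine h1.eventually_lt continuousAt_const ?_
      simpa using hδ
    filter_upwards [h2] with q hq _ _
    exact hq
  · have hC : IsClosed (e '' {x | ‖x‖ ≤ 1}) := (deg_compact he 1).isClosed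
    have : (e '' {x | ‖x‖ ≤ 1})ᶜ ×ˢ (e '' {x | ‖x‖ ≤ 1})ᶜ ∈ 𝓝 (y, y) :=
      (hC.isOpen_compl.prod hC.isOpen_compl).mem_nhds ⟨hy, hy⟩
    filter_upwards [this] with q hq h1
    exact absurd h1 hq.1

/-- points close to the half ball are in the unit ball -/
theorem deg_nhds' {e : Rn n → Y} (he : IsOpenEmbedding e) :
    {q : Y × Y | q.1 ∈ e '' {x | ‖x‖ ≤ 1 / 2} → q.2 ∈ e '' {x | ‖x‖ ≤ 1}} ∈
      𝓝ˢ (Set.diagonal Y) := by
  rw [mem_nhdsSet_iff_forall]
  rintro ⟨y, y'⟩ hy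
  obtain rfl : y = y' := hy
  by_cases hy : y ∈ e '' {x | ‖x‖ ≤ 1 / 2}
  · obtain ⟨x, hx, rfl⟩ := hy
    have hO : IsOpen (e '' {x | ‖x‖ < 1}) :=
      he.isOpenMap _ (isOpen_lt continuous_norm continuous_const)
    have h1 : (Set.univ ×ˢ (e '' {x | ‖x‖ < 1}) : Set (Y × Y)) ∈ 𝓝 (e x, e x) := by
      refine (isOpen_univ.prod hO).mem_nhds ⟨trivial, x, ?_, rfl⟩
      have : ‖x‖ ≤ 1 / 2 := hx
      show ‖x‖ < 1
      linarith
    filter_upwards [h1] with q hq _
    obtain ⟨z, hz, hz'⟩ := hq.2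
    have hz1 : ‖z‖ < 1 := hz
    exact ⟨z, hz1.le, hz'⟩
  · have hC : IsClosed (e '' {x | ‖x‖ ≤ 1 / 2}) := (deg_compact he (1 / 2)).isClosed
    have : (e '' {x | ‖x‖ ≤ 1 / 2})ᶜ ×ˢ (Set.univ : Set Y) ∈ 𝓝 (y, y) :=
      (hC.isOpen_compl.prod isOpen_univ).mem_nhds ⟨hy, trivial⟩
    filter_upwards [this] with q hq h1
    exact absurd h1 hq.1

omit [TopologicalSpace Y] [T2Space Y] in
/-- a counted list whose points are close is near the centre -/
theorem deg_near {e : Rn n → Y} (he : Function.Injective e) {δ : ℝ} {t : List Y}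
    (hd : ∀ x ∈ t, ∀ y ∈ t, x ∈ e '' {x | ‖x‖ ≤ 1} → y ∈ e '' {x | ‖x‖ ≤ 1} →
      ‖Function.invFun e x - Function.invFun e y‖ < δ) (h : degDD e (bs t) ≠ 0) :
    (∀ y ∈ t, y ∈ e '' {x | ‖x‖ ≤ 1}) ∧ ∀ y ∈ t, ∃ x, ‖x‖ < δ ∧ e x = y := by
  classical
  rw [degDD_bs] at h
  split_ifs at h with h1
  · refine ⟨h1.1, fun y hy => ?_⟩
    have h2 : ((t.map (Function.invFun e)).map (lab n)).Perm (List.range (n + 1)) := by
      rw [List.map_map]; exact h1.2
    have h3 := near_of_full h2 (δ := δ) (by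
      intro x hx z hz
      obtain ⟨x', hx', rfl⟩ := List.mem_map.mp hx
      obtain ⟨z', hz', rfl⟩ := List.mem_map.mp hz
      exact hd x' hx' z' hz' (h1.1 _ hx') (h1.1 _ hz'))
    obtain ⟨x, hx, rfl⟩ := h1.1 y hy
    refine ⟨x, ?_, rfl⟩
    have := h3 (Function.invFun e (e x)) (List.mem_map.mpr ⟨e x, hy, rfl⟩)
    rwa [Function.leftInverse_invFun he x] at this
  · exact absurd rfl h

omit [TopologicalSpace Y] [T2Space Y] in
/-- the functional kills the boundary of a fine list -/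
theorem deg_dlist {e : Rn n → Y} (he : Function.Injective e) {t : List Y}
    (hl : t.length = n + 2)
    (hd : ∀ x ∈ t, ∀ y ∈ t, x ∈ e '' {x | ‖x‖ ≤ 1} → y ∈ e '' {x | ‖x‖ ≤ 1} →
      ‖Function.invFun e x - Function.invFun e y‖ < 1 / 2)
    (hd' : ∀ x ∈ t, ∀ y ∈ t, x ∈ e '' {x | ‖x‖ ≤ 1 / 2} → y ∈ e '' {x | ‖x‖ ≤ 1}) :
    degDD e (dlist t) = 0 := by
  by_cases hall : ∀ y ∈ t, y ∈ e '' {x | ‖x‖ ≤ 1}
  · set t' : List (Rn n) := t.map (Function.invFun e) with ht'
    have h1 : t = t'.map e := by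
      rw [ht', List.map_map]
      conv_lhs => rw [← List.map_id t]
      refine List.map_congr_left fun y hy => ?_
      obtain ⟨x, hx, rfl⟩ := hall y hy
      simp only [id, Function.comp_apply]
      rw [Function.leftInverse_invFun he x]
    have h2 : ∀ x ∈ t', ‖x‖ ≤ 1 := by
      intro x hx
      obtain ⟨y, hy, rfl⟩ := List.mem_map.mp hx
      obtain ⟨z, hz, rfl⟩ := hall y hy
      rw [Function.leftInverse_invFun he z]
      exact hz
    have h3 : dlist t = mapL e (dlist t') := by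
      rw [h1, ← dL_bs, ← dL_bs, ← dL_mapL, mapL_bs]
    rw [h3, degDD_map he, ← dL_bs, Dn_eq_Bn, dL_dL, map_zero]
    intro s hs x hx
    exact h2 x ((supp_dlist hs).2 x hx)
  · refine deg_congr (f := degDD e) (g := 0) fun s hs => ?_
    by_contra hne
    apply hall
    obtain ⟨h4, h5⟩ := supp_dlist hs
    obtain ⟨h6, h7⟩ := deg_near he (t := s) (δ := 1 / 2)
      (fun x hx y hy => hd x (h5 x hx) y (h5 y hy)) hne
    obtain ⟨a, ha⟩ : ∃ a, a ∈ s := by
      rcases s with _ | ⟨a, s⟩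
      · simp at h4; omega
      · exact ⟨a, List.mem_cons_self⟩
    obtain ⟨x, hx, hxa⟩ := h7 a ha
    intro y hy
    exact hd' a (h5 a ha) y hy ⟨x, le_of_lt hx, hxa⟩

/-- the sphere around a point does not bound in the complement of the point -/
theorem NB_punc [ContractibleSpace Y] (_hY : LocEuc n Y) {e : Rn n → Y} (he : IsOpenEmbedding e) :
    NB ({e 0}ᶜ : Set Y) n (mapG e (Sph n)) := by
  intro b hb hdb
  obtain ⟨B, hB, β, hβ, hβF, hβ1⟩ := ball_fill n
  -- the cycle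
  have hBF : B ∈ F (Set.univ : Set (Rn n)) (n + 1) := ⟨β, hβF, hβ⟩
  have hz : b + mapG e B ∈ F (Set.univ : Set Y) (n + 1) := by
    refine add_mem (F_mono (Set.subset_univ _) hb) ?_
    exact mapG_mem isOpen_univ he.continuous.continuousOn (Set.mapsTo_univ _ _) hBF
  have hdz : dG (b + mapG e B) = 0 := by
    rw [map_add, hdb, dG_mapG, hB]
    exact add_self_LC _
  obtain ⟨w, hw, hdw⟩ := Ex_univ (n + 1) _ hz hdz
  obtain ⟨ω, hωF, rfl⟩ := hw
  obtain ⟨r, hrF, rfl⟩ := hb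
  subst hβ
  -- eventually dL ω = r + e β
  have h1 : ∀ᶠ N in atTop, dL (ω N) = r N + mapL e (β N) := Germ.coe_eq.mp hdw
  -- claim 1
  have h2 : ∀ᶠ N in atTop, degDD e (dL (ω N)) = 0 := by
    obtain ⟨K, hK, hKU, hl, hfine⟩ := hωF
    filter_upwards [hfine _ (deg_nhds he (δ := 1 / 2) (by norm_num)), hfine _ (deg_nhds' he)]
      with N hN hN'
    refine deg_congr (f := degDD e ∘ₗ dL) (g := 0) fun t ht => ?_
    rw [LinearMap.comp_apply, dL_bs]
    exact deg_dlist he.injective (hl N t ht).1 (hN t ht) (hN' t ht)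
  -- claim 2
  have h3 : ∀ᶠ N in atTop, degDD e (r N) = 0 := by
    obtain ⟨K, hK, hKU, hl, hfine⟩ := hrF
    obtain ⟨δ, hδ, hδ'⟩ : ∃ δ > 0, ∀ x : Rn n, ‖x‖ < δ → e x ∉ K := by
      have hO : IsOpen (e ⁻¹' Kᶜ) := hK.isClosed.isOpen_compl.preimage he.continuous
      have h0 : (0 : Rn n) ∈ e ⁻¹' Kᶜ := fun h => hKU h rfl
      obtain ⟨δ, hδ, hδ'⟩ := Metric.isOpen_iff.mp hO 0 h0
      refine ⟨δ, hδ, fun x hx => hδ' ?_⟩
      simpa using hx
    filter_upwards [hfine _ (deg_nhds he hδ)] with N hN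
    refine deg_congr (f := degDD e) (g := 0) fun t ht => ?_
    by_contra hne
    obtain ⟨h6, h7⟩ := deg_near he.injective (t := t) (δ := δ) (hN t ht) hne
    obtain ⟨h8, h9⟩ := hl N t ht
    obtain ⟨a, ha⟩ : ∃ a, a ∈ t := by
      rcases t with _ | ⟨a, s⟩
      · simp at h8
      · exact ⟨a, List.mem_cons_self⟩
    obtain ⟨x, hx, rfl⟩ := h7 a ha
    exact hδ' x hx (h9 _ ha)
  -- claim 5
  have h4 : ∀ᶠ N in atTop, Bn n (dL (β N)) = 1 := Bn_Sph n (fun N => dL (β N)) hB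
  obtain ⟨N, h1, h2, h3, h4⟩ := (h1.and (h2.and (h3.and h4))).exists
  rw [h1, map_add, h3, zero_add, degDD_map he.injective (hβ1 N), Dn_eq_Bn, h4] at h2
  exact one_ne_zero h2

end deg

end OS
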