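import Mathlib

/-!
# The point pushing isotopy (part D3)

`Y` a Hausdorff space every point of which is the centre of an open embedding of `R^n`,
`H : Y x I -> Y` continuous with `H x 0 = x`, `K` compact.  There are an open `O` containing `K` and a
continuous `Phi : Y x I x Y -> Y` such that every `Phi x t` is a homeomorphism of `Y`,
`Phi x 0 = id` and `Phi x t x = H x t` for `x` in `O`.
-/

set_option autoImplicit false

namespace Pool.Agent.MP_8fe54c_gt

open Set Topology unitInterval

namespace Iso

section Push

variable {E : Type*} [NormedAddCommGroup E]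

/-- the cut-off function: `1` on the ball of radius `1`, `0` outside the ball of radius `3`. -/
noncomputable def rho (w : E) : ℝ := min 1 (max 0 ((3 - ‖w‖) / 2))

lemma rho_continuous : Continuous (rho : E → ℝ) := by
  unfold rho
  fun_prop

lemma rho_one {w : E} (h : ‖w‖ ≤ 1) : rho w = 1 := by
  unfold rho
  apply min_eq_left
  apply le_max_of_le_right
  linarith

lemma rho_zero {w : E} (h : 3 ≤ ‖w‖) : rho w = 0 := by
  unfold rho
  rw [max_eq_left (by linarith), min_eq_right (by norm_num)]

lemma rho_lip (w w' : E) : |rho w - rho w'| ≤ (1 / 2) * ‖w - w'‖ := by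
  unfold rho
  have h1 : |‖w‖ - ‖w'‖| ≤ ‖w - w'‖ := abs_norm_sub_norm_le w w'
  have h2 : |min 1 (max 0 ((3 - ‖w‖) / 2)) - min 1 (max 0 ((3 - ‖w'‖) / 2))| ≤
      |max 0 ((3 - ‖w‖) / 2) - max 0 ((3 - ‖w'‖) / 2)| := by
    have := abs_min_sub_min_le_max (1 : ℝ) (max 0 ((3 - ‖w‖) / 2)) 1 (max 0 ((3 - ‖w'‖) / 2))
    simpa using this
  have h3 : |max 0 ((3 - ‖w‖) / 2) - max 0 ((3 - ‖w'‖) / 2)| ≤
      |(3 - ‖w‖) / 2 - (3 - ‖w'‖) / 2| := by
    have := abs_max_sub_max_le_max (0 : ℝ) ((3 - ‖w‖) / 2) 0 ((3 - ‖w'‖) / 2)
    simpa using this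
  have h4 : |(3 - ‖w‖) / 2 - (3 - ‖w'‖) / 2| = (1 / 2) * |‖w‖ - ‖w'‖| := by
    have : (3 - ‖w‖) / 2 - (3 - ‖w'‖) / 2 = (-(1 / 2)) * (‖w‖ - ‖w'‖) := by ring
    rw [this, abs_mul]
    norm_num
  linarith

variable [NormedSpace ℝ E]

/-- the push of `a` to `b`. -/
noncomputable def pushE (a b w : E) : E := w + rho w • (b - a)

lemma pushE_far {a b w : E} (h : 3 ≤ ‖w‖) : pushE a b w = w := by
  simp [pushE, rho_zero h]

lemma pushE_self (a w : E) : pushE a a w = w := by
  simp [pushE]

lemma pushE_apply {a : E} (b : E) (h : ‖a‖ ≤ 1) : pushE a b a = b := by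
  simp [pushE, rho_one h]

lemma pushE_continuous : Continuous (fun p : (E × E) × E => pushE p.1.1 p.1.2 p.2) := by
  unfold pushE
  have := (rho_continuous (E := E))
  fun_prop

lemma pushE_homeo [CompleteSpace E] {a b : E} (ha : ‖a‖ ≤ 3 / 4) (hb : ‖b‖ ≤ 3 / 4) :
    ∃ g : E ≃ₜ E, ∀ w, g w = pushE a b w := by
  have hab : ‖b - a‖ ≤ 3 / 2 := by
    have := norm_sub_le b a
    linarith
  have happ : ApproximatesLinearOn (pushE a b)
      ((ContinuousLinearEquiv.refl ℝ E : E ≃L[ℝ] E) : E →L[ℝ] E) univ (3 / 4) := by
    intro x _ y _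
    have : pushE a b x - pushE a b y -
        ((ContinuousLinearEquiv.refl ℝ E : E ≃L[ℝ] E) : E →L[ℝ] E) (x - y) =
        (rho x - rho y) • (b - a) := by
      simp only [pushE, ContinuousLinearEquiv.coe_coe, ContinuousLinearEquiv.coe_refl', id]
      rw [sub_smul]
      abel
    rw [this, norm_smul, Real.norm_eq_abs]
    have h1 := rho_lip x y
    have h2 : (0 : ℝ) ≤ ‖x - y‖ := norm_nonneg _
    calc |rho x - rho y| * ‖b - a‖ ≤ ((1 / 2) * ‖x - y‖) * (3 / 2) := by
          apply mul_le_mul h1 hab (norm_nonneg _) (by positivity)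
      _ = ((3 / 4 : NNReal) : ℝ) * ‖x - y‖ := by
          push_cast
          ring
  by_cases hs : Subsingleton E
  · exact ⟨happ.toHomeomorph _ (Or.inl hs), fun w => rfl⟩
  · have : Nontrivial E := not_subsingleton_iff_nontrivial.mp hs
    refine ⟨happ.toHomeomorph _ (Or.inr ?_), fun w => rfl⟩
    have h1 : ‖(((ContinuousLinearEquiv.refl ℝ E).symm : E ≃L[ℝ] E) : E →L[ℝ] E)‖₊ = 1 := by
      have : ((((ContinuousLinearEquiv.refl ℝ E).symm : E ≃L[ℝ] E) : E →L[ℝ] E)) =
          ContinuousLinearMap.id ℝ E := by
        ext x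
        rfl
      rw [this]
      exact ContinuousLinearMap.nnnorm_id
    rw [h1, inv_one]
    have : (3 / 4 : NNReal) < 1 := by
      rw [← NNReal.coe_lt_coe]
      push_cast
      norm_num
    exact this

end Push

section Transport

variable {E : Type*} {Y : Type*} [Nonempty E]

open Classical in
/-- transport of a self map of `E` to `Y` by an injective map `e`, identity elsewhere. -/
noncomputable def tr (e : E → Y) (g : E → E) (y : Y) : Y :=
  if y ∈ range e then e (g (Function.invFun e y)) else y

lemma tr_apply {e : E → Y} (he : Function.Injective e) (g : E → E) (w : E) :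
    tr e g (e w) = e (g w) := by
  unfold tr
  rw [if_pos (mem_range_self w), Function.leftInverse_invFun he]

lemma tr_not {e : E → Y} (g : E → E) {y : Y} (h : y ∉ range e) : tr e g y = y := by
  unfold tr
  rw [if_neg h]

lemma tr_id {e : E → Y} (he : Function.Injective e) {g : E → E} (hg : ∀ w, g w = w) (y : Y) :
    tr e g y = y := by
  by_cases h : y ∈ range e
  · obtain ⟨w, rfl⟩ := h
    rw [tr_apply he, hg]
  · exact tr_not g h

lemma tr_comp {e : E → Y} (he : Function.Injective e) (g g' : E → E) (y : Y) :
    tr e g (tr e g' y) = tr e (g ∘ g') y := by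
  by_cases h : y ∈ range e
  · obtain ⟨w, rfl⟩ := h
    rw [tr_apply he, tr_apply he, tr_apply he]
    rfl
  · rw [tr_not g' h, tr_not g h, tr_not _ h]

end Transport

section TransportTop

variable {E : Type*} [NormedAddCommGroup E] {Y : Type*} [TopologicalSpace Y]

lemma invFun_continuousAt {e : E → Y} (he : IsOpenEmbedding e) (w : E) :
    ContinuousAt (Function.invFun e) (e w) := by
  rw [← he.continuousAt_iff]
  have : Function.invFun e ∘ e = id := Function.invFun_comp he.injective
  rw [this]
  exact continuousAt_id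

variable [ProperSpace E] [T2Space Y]

lemma tr_continuous {Z : Type*} [TopologicalSpace Z] {e : E → Y} (he : IsOpenEmbedding e)
    {f : Z → E → E} (hf : Continuous (fun p : Z × E => f p.1 p.2))
    (h3 : ∀ z w, 3 ≤ ‖w‖ → f z w = w) :
    Continuous (fun p : Z × Y => tr e (f p.1) p.2) := by
  rw [continuous_iff_continuousAt]
  rintro ⟨z, y⟩
  by_cases hy : y ∈ range e
  · obtain ⟨w, rfl⟩ := hy
    have h1 : ContinuousAt (fun p : Z × Y => e (f p.1 (Function.invFun e p.2))) (z, e w) := by
      have h2 : ContinuousAt (fun p : Z × Y => (p.1, Function.invFun e p.2)) (z, e w) := by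
        apply ContinuousAt.prodMk continuousAt_fst
        have h5 : ContinuousAt (Function.invFun e) ((fun p : Z × Y => p.2) (z, e w)) :=
          invFun_continuousAt he w
        exact ContinuousAt.comp (f := fun p : Z × Y => p.2) h5 continuousAt_snd
      have h3 : ContinuousAt (fun p : Z × E => e (f p.1 p.2)) (z, Function.invFun e (e w)) :=
        (he.continuous.comp hf).continuousAt
      exact ContinuousAt.comp (f := fun p : Z × Y => (p.1, Function.invFun e p.2))
        (g := fun p : Z × E => e (f p.1 p.2)) h3 h2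
    apply h1.congr
    have h4 : {p : Z × Y | p.2 ∈ range e} ∈ 𝓝 (z, e w) := by
      apply IsOpen.mem_nhds
      · exact he.isOpen_range.preimage continuous_snd
      · exact mem_range_self w
    filter_upwards [h4] with p hp
    simp only [tr, if_pos hp]
  · have hc : IsClosed (e '' (Metric.closedBall 0 3)) :=
      ((isCompact_closedBall (0 : E) 3).image he.continuous).isClosed
    have h1 : ContinuousAt (fun p : Z × Y => p.2) (z, y) := continuousAt_snd
    apply h1.congr
    have h4 : {p : Z × Y | p.2 ∈ (e '' (Metric.closedBall 0 3))ᶜ} ∈ 𝓝 (z, y) := by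
      apply IsOpen.mem_nhds
      · exact hc.isOpen_compl.preimage continuous_snd
      · intro hm
        obtain ⟨w, _, hw⟩ := hm
        exact hy ⟨w, hw⟩
    filter_upwards [h4] with p hp
    by_cases hp2 : p.2 ∈ range e
    · obtain ⟨w, hw⟩ := hp2
      have hw3 : 3 ≤ ‖w‖ := by
        by_contra hlt
        apply hp
        refine ⟨w, ?_, hw⟩
        rw [mem_closedBall_zero_iff]
        linarith
      rw [← hw, tr_apply he.injective, h3 p.1 w hw3]
    · rw [tr_not _ hp2]

lemma tr_homeo {e : E → Y} (he : IsOpenEmbedding e) (g : E ≃ₜ E)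
    (h3 : ∀ w, 3 ≤ ‖w‖ → g w = w) : IsHomeomorph (tr e g) := by
  have h3' : ∀ w, 3 ≤ ‖w‖ → g.symm w = w := by
    intro w hw
    rw [Homeomorph.symm_apply_eq, h3 w hw]
  have hc : Continuous (tr e g) := by
    have := tr_continuous (Z := Unit) he (f := fun _ w => g w)
      (g.continuous.comp continuous_snd) (fun _ w hw => h3 w hw)
    exact this.comp (Continuous.prodMk continuous_const continuous_id : Continuous
      (fun y : Y => ((), y)))
  have hc' : Continuous (tr e g.symm) := by
    have := tr_continuous (Z := Unit) he (f := fun _ w => g.symm w)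
      (g.symm.continuous.comp continuous_snd) (fun _ w hw => h3' w hw)
    exact this.comp (Continuous.prodMk continuous_const continuous_id : Continuous
      (fun y : Y => ((), y)))
  have hl : ∀ y, tr e g.symm (tr e g y) = y := by
    intro y
    rw [tr_comp he.injective]
    exact tr_id he.injective (fun w => by simp) y
  have hr : ∀ y, tr e g (tr e g.symm y) = y := by
    intro y
    rw [tr_comp he.injective]
    exact tr_id he.injective (fun w => by simp) y
  exact (Homeomorph.mk (Equiv.mk _ _ hl hr) hc hc' : Y ≃ₜ Y).isHomeomorph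

end TransportTop

section Moves

variable {Y : Type*} [TopologicalSpace Y]

/-- a family of homeomorphisms moving `H x (min (s x) t)` to `H x (min (s' x) t)`. -/
def Mv (H : Y → I → Y) (s s' : Y → I) : Prop :=
  ∃ Φ : Y → I → Y → Y, Continuous (fun p : Y × I × Y => Φ p.1 p.2.1 p.2.2) ∧
    (∀ x y, Φ x 0 y = y) ∧ (∀ x t, IsHomeomorph (Φ x t)) ∧
    (∀ x t, Φ x t (H x (min (s x) t)) = H x (min (s' x) t))

lemma Mv.refl (H : Y → I → Y) (s : Y → I) : Mv H s s :=
  ⟨fun _ _ y => y, by fun_prop, fun _ _ => rfl, fun _ _ => IsHomeomorph.id, fun _ _ => rfl⟩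

lemma Mv.trans {H : Y → I → Y} {s s' s'' : Y → I} (h1 : Mv H s s') (h2 : Mv H s' s'') :
    Mv H s s'' := by
  obtain ⟨Φ, hc, h0, hh, hm⟩ := h1
  obtain ⟨Ψ, hc', h0', hh', hm'⟩ := h2
  refine ⟨fun x t y => Ψ x t (Φ x t y), ?_, ?_, ?_, ?_⟩
  · have : Continuous (fun p : Y × I × Y => (p.1, p.2.1, Φ p.1 p.2.1 p.2.2)) := by
      apply Continuous.prodMk continuous_fst
      apply Continuous.prodMk (continuous_fst.comp continuous_snd) hc
    exact hc'.comp this
  · intro x y
    simp only [h0, h0']
  · intro x t
    exact (hh' x t).comp (hh x t)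
  · intro x t
    simp only [hm, hm']

variable {E : Type*} [NormedAddCommGroup E] [NormedSpace ℝ E] [ProperSpace E]

/-- The basic move. -/
lemma Mv.basic [T2Space Y] {H : Y → I → Y} (hH : Continuous (fun p : Y × I => H p.1 p.2))
    {s s' : Y → I} (hs : Continuous s) (hs' : Continuous s') (hss : ∀ x, s x ≤ s' x)
    {U C : Set Y} (hU : IsOpen U) (hC : IsClosed C) (hCU : C ⊆ U)
    (hout : ∀ x, x ∉ C → s x = s' x)
    {a b : I} (hab : a ≤ b) (hin : ∀ x, s x ≠ s' x → a ≤ s x ∧ s' x ≤ b)
    {e : E → Y} (he : IsOpenEmbedding e)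
    (hball : ∀ x ∈ U, ∀ r, a ≤ r → r ≤ b → H x r ∈ e '' (Metric.closedBall 0 (3 / 4))) :
    Mv H s s' := by
  classical
  -- the clamp
  have : CompleteSpace E := inferInstance
  set cl : I → I := fun r => max a (min b r) with hcl
  have hclc : Continuous cl := by
    rw [hcl]
    exact continuous_const.max (continuous_const.min continuous_id)
  have hcla : ∀ r, a ≤ cl r := fun r => le_max_left _ _
  have hclb : ∀ r, cl r ≤ b := fun r => max_le hab (min_le_left _ _)
  have hclid : ∀ r, a ≤ r → r ≤ b → cl r = r := by
    intro r h1 h2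
    rw [hcl]
    simp only
    rw [min_eq_right h2, max_eq_right h1]
  set src : Y → E := fun x => Function.invFun e (H x (cl (s x))) with hsrc
  set tgt : Y → I → E := fun x t => Function.invFun e (H x (cl (max (s x) (min (s' x) t))))
    with htgt
  have hinv : ∀ x ∈ U, ∀ r : I, ∃ w : E, ‖w‖ ≤ 3 / 4 ∧ e w = H x (cl r) ∧
      Function.invFun e (H x (cl r)) = w := by
    intro x hx r
    obtain ⟨w, hw, hew⟩ := hball x hx (cl r) (hcla r) (hclb r)
    refine ⟨w, by simpa using hw, hew, ?_⟩
    rw [← hew]
    exact Function.leftInverse_invFun he.injective w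
  have hsrc_norm : ∀ x ∈ U, ‖src x‖ ≤ 3 / 4 := by
    intro x hx
    obtain ⟨w, hw, -, hw2⟩ := hinv x hx (s x)
    rw [hsrc]
    simp only
    rw [hw2]
    exact hw
  have htgt_norm : ∀ x ∈ U, ∀ t, ‖tgt x t‖ ≤ 3 / 4 := by
    intro x hx t
    obtain ⟨w, hw, -, hw2⟩ := hinv x hx (max (s x) (min (s' x) t))
    rw [htgt]
    simp only
    rw [hw2]
    exact hw
  have he_src : ∀ x ∈ U, e (src x) = H x (cl (s x)) := by
    intro x hx
    obtain ⟨w, -, hw1, hw2⟩ := hinv x hx (s x)
    rw [hsrc]
    simp only
    rw [hw2, hw1]
  have he_tgt : ∀ x ∈ U, ∀ t, e (tgt x t) = H x (cl (max (s x) (min (s' x) t))) := by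
    intro x hx t
    obtain ⟨w, -, hw1, hw2⟩ := hinv x hx (max (s x) (min (s' x) t))
    rw [htgt]
    simp only
    rw [hw2, hw1]
  -- the family
  set Φ : Y → I → Y → Y := fun x t y =>
    if x ∈ U then tr e (pushE (src x) (tgt x t)) y else y with hΦ
  have hid : ∀ x t y, s x = s' x → Φ x t y = y := by
    intro x t y hx
    by_cases hxU : x ∈ U
    · rw [hΦ]
      simp only [if_pos hxU]
      have : tgt x t = src x := by
        rw [htgt, hsrc]
        simp only
        rw [← hx, max_eq_left (min_le_left _ _)]
      rw [this]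
      exact tr_id he.injective (pushE_self _) y
    · rw [hΦ]
      simp only [if_neg hxU]
  refine ⟨Φ, ?_, ?_, ?_, ?_⟩
  · rw [continuous_iff_continuousAt]
    rintro ⟨x, t, y⟩
    by_cases hx : x ∈ C
    · have hxU : x ∈ U := hCU hx
      -- work on U
      have hsrcc : ContinuousOn (fun p : Y × I => src p.1) (U ×ˢ univ) := by
        rintro ⟨x', t'⟩ ⟨hx', -⟩
        apply ContinuousAt.continuousWithinAt
        obtain ⟨w, -, hw1, hw2⟩ := hinv x' hx' (s x')
        have h1 : ContinuousAt (Function.invFun e) (H x' (cl (s x'))) := by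
          rw [← hw1]
          exact invFun_continuousAt he w
        have h2 : ContinuousAt (fun p : Y × I => H p.1 (cl (s p.1))) (x', t') := by
          apply Continuous.continuousAt
          exact hH.comp (continuous_fst.prodMk (hclc.comp (hs.comp continuous_fst)))
        exact ContinuousAt.comp (f := fun p : Y × I => H p.1 (cl (s p.1))) h1 h2
      have htgtc : ContinuousOn (fun p : Y × I => tgt p.1 p.2) (U ×ˢ univ) := by
        rintro ⟨x', t'⟩ ⟨hx', -⟩
        apply ContinuousAt.continuousWithinAt
        obtain ⟨w, -, hw1, hw2⟩ := hinv x' hx' (max (s x') (min (s' x') t'))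
        have h1 : ContinuousAt (Function.invFun e)
            (H x' (cl (max (s x') (min (s' x') t')))) := by
          rw [← hw1]
          exact invFun_continuousAt he w
        have h2 : ContinuousAt (fun p : Y × I => H p.1 (cl (max (s p.1) (min (s' p.1) p.2))))
            (x', t') := by
          apply Continuous.continuousAt
          exact hH.comp (continuous_fst.prodMk (hclc.comp
            ((hs.comp continuous_fst).max ((hs'.comp continuous_fst).min continuous_snd))))
        exact ContinuousAt.comp
          (f := fun p : Y × I => H p.1 (cl (max (s p.1) (min (s' p.1) p.2)))) h1 h2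
      -- on the subtype
      have hF : Continuous (fun q : (↥(U ×ˢ (univ : Set I))) × Y =>
          tr e (pushE (src q.1.1.1) (tgt q.1.1.1 q.1.1.2)) q.2) := by
        apply tr_continuous (Z := ↥(U ×ˢ (univ : Set I))) he
          (f := fun z w => pushE (src z.1.1) (tgt z.1.1 z.1.2) w)
        · have h1 : Continuous (fun z : ↥(U ×ˢ (univ : Set I)) => src z.1.1) :=
            continuousOn_iff_continuous_domRestrict.mp hsrcc
          have h2 : Continuous (fun z : ↥(U ×ˢ (univ : Set I)) => tgt z.1.1 z.1.2) :=
            continuousOn_iff_continuous_domRestrict.mp htgtc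
          exact pushE_continuous.comp
            (((h1.comp continuous_fst).prodMk (h2.comp continuous_fst)).prodMk continuous_snd)
        · intro z w hw
          exact pushE_far hw
      have hon : ContinuousOn (fun p : (Y × I) × Y =>
          tr e (pushE (src p.1.1) (tgt p.1.1 p.1.2)) p.2) ((U ×ˢ (univ : Set I)) ×ˢ univ) := by
        rw [continuousOn_iff_continuous_domRestrict]
        have hmap : Continuous (fun q : ↥((U ×ˢ (univ : Set I)) ×ˢ (univ : Set Y)) =>
            ((⟨q.1.1, q.2.1⟩ : ↥(U ×ˢ (univ : Set I))), q.1.2)) := by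
          apply Continuous.prodMk
          · exact Continuous.subtype_mk (continuous_fst.comp continuous_subtype_val) _
          · exact continuous_snd.comp continuous_subtype_val
        exact hF.comp hmap
      have hat : ContinuousAt (fun p : (Y × I) × Y =>
          tr e (pushE (src p.1.1) (tgt p.1.1 p.1.2)) p.2) ((x, t), y) := by
        apply hon.continuousAt
        apply IsOpen.mem_nhds
        · exact (hU.prod isOpen_univ).prod isOpen_univ
        · exact ⟨⟨hxU, mem_univ _⟩, mem_univ _⟩
      have hassoc : Continuous (fun p : Y × I × Y => ((p.1, p.2.1), p.2.2)) := by fun_prop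
      have hat2 : ContinuousAt (fun p : Y × I × Y =>
          tr e (pushE (src p.1) (tgt p.1 p.2.1)) p.2.2) (x, t, y) :=
        ContinuousAt.comp (f := fun p : Y × I × Y => ((p.1, p.2.1), p.2.2))
          (x := (x, t, y)) hat hassoc.continuousAt
      apply hat2.congr
      have h4 : {p : Y × I × Y | p.1 ∈ U} ∈ 𝓝 (x, t, y) :=
        (hU.preimage continuous_fst).mem_nhds hxU
      filter_upwards [h4] with p hp
      have hp' : p.1 ∈ U := hp
      rw [hΦ]
      simp only [if_pos hp']
    · have h1 : ContinuousAt (fun p : Y × I × Y => p.2.2) (x, t, y) := by fun_prop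
      apply h1.congr
      have h4 : {p : Y × I × Y | p.1 ∈ Cᶜ} ∈ 𝓝 (x, t, y) :=
        (hC.isOpen_compl.preimage continuous_fst).mem_nhds hx
      filter_upwards [h4] with p hp
      exact (hid p.1 p.2.1 p.2.2 (hout p.1 hp)).symm
  · intro x y
    by_cases hx : x ∈ U
    · rw [hΦ]
      simp only [if_pos hx]
      have : tgt x 0 = src x := by
        rw [htgt, hsrc]
        simp only
        have h0 : min (s' x) (0 : I) = 0 := min_eq_right unitInterval.nonneg'
        rw [h0, max_eq_left unitInterval.nonneg']
      rw [this]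
      exact tr_id he.injective (pushE_self _) y
    · rw [hΦ]
      simp only [if_neg hx]
  · intro x t
    by_cases hx : x ∈ U
    · obtain ⟨g, hg⟩ := pushE_homeo (hsrc_norm x hx) (htgt_norm x hx t)
      have h1 : Φ x t = tr e g := by
        funext y
        have h2 : (g : E → E) = pushE (src x) (tgt x t) := funext hg
        rw [hΦ]
        simp only [if_pos hx]
        rw [h2]
      rw [h1]
      apply tr_homeo he
      intro w hw
      rw [hg, pushE_far hw]
    · have h1 : Φ x t = id := by
        funext y
        rw [hΦ]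
        simp only [if_neg hx, id]
      rw [h1]
      exact IsHomeomorph.id
  · intro x t
    by_cases hne : s x = s' x
    · rw [hid x t _ hne, hne]
    · have hxC : x ∈ C := by
        by_contra h
        exact hne (hout x h)
      have hx : x ∈ U := hCU hxC
      obtain ⟨h1, h2⟩ := hin x hne
      rcases le_total t (s x) with ht | ht
      · have h3 : min (s x) t = t := min_eq_right ht
        have h4 : min (s' x) t = t := min_eq_right (ht.trans (hss x))
        rw [h3, h4]
        rw [hΦ]
        simp only [if_pos hx]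
        have : tgt x t = src x := by
          rw [htgt, hsrc]
          simp only
          rw [h4, max_eq_left ht]
        rw [this]
        exact tr_id he.injective (pushE_self _) _
      · have h3 : min (s x) t = s x := min_eq_left ht
        have h4 : cl (s x) = s x := hclid _ h1 ((hss x).trans h2)
        have h5 : s x ≤ min (s' x) t := le_min (hss x) ht
        have h6 : cl (min (s' x) t) = min (s' x) t :=
          hclid _ (h1.trans h5) ((min_le_left _ _).trans h2)
        rw [h3]
        have h7 : H x (s x) = e (src x) := by rw [he_src x hx, h4]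
        rw [h7, hΦ]
        simp only [if_pos hx]
        rw [tr_apply he.injective, pushE_apply _ (by linarith [hsrc_norm x hx]), he_tgt x hx,
          max_eq_right h5, h6]

end Moves

section Main

variable {Y : Type*} [TopologicalSpace Y] [T2Space Y]
variable {E : Type*} [NormedAddCommGroup E] [NormedSpace ℝ E] [ProperSpace E]

/-- Over a small open set the time can be raised to any bump function. -/
lemma exists_nhd_raise (hY : ∀ y : Y, ∃ e : E → Y, IsOpenEmbedding e ∧ e 0 = y)
    {H : Y → I → Y} (hH : Continuous (fun p : Y × I => H p.1 p.2)) (x : Y) :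
    ∃ U : Set Y, IsOpen U ∧ x ∈ U ∧ ∀ s u : Y → I, Continuous s → Continuous u →
      closure {y | u y ≠ 0} ⊆ U → Mv H s (fun y => max (s y) (u y)) := by
  classical
  choose e he he0 using hY
  -- the open cover of the interval
  have hopen : ∀ r : I, IsOpen (e (H x r) '' (Metric.ball 0 (3 / 4))) := fun r =>
    (he (H x r)).isOpenMap _ Metric.isOpen_ball
  have hmem : ∀ r : I, H x r ∈ e (H x r) '' (Metric.ball 0 (3 / 4)) := fun r =>
    ⟨0, by simp, he0 _⟩
  have hcov : ∀ r : I, ∃ A : Set Y, ∃ B : Set I, IsOpen A ∧ IsOpen B ∧ x ∈ A ∧ r ∈ B ∧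
      ∀ x' ∈ A, ∀ r' ∈ B, H x' r' ∈ e (H x r) '' (Metric.ball 0 (3 / 4)) := by
    intro r
    have h1 : (fun p : Y × I => H p.1 p.2) ⁻¹' (e (H x r) '' (Metric.ball 0 (3 / 4))) ∈
        𝓝 (x, r) := ((hopen r).preimage hH).mem_nhds (hmem r)
    obtain ⟨A, B, hA, hxA, hB, hrB, hsub⟩ := mem_nhds_prod_iff'.mp h1
    exact ⟨A, B, hA, hB, hxA, hrB, fun x' hx' r' hr' => hsub (mk_mem_prod hx' hr')⟩
  choose A B hA hB hxA hrB hAB using hcov
  obtain ⟨t, ht0, htm, ⟨N, hN⟩, hsub⟩ :=
    exists_monotone_Icc_subset_open_cover_unitInterval hB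
      (fun r _ => mem_iUnion.mpr ⟨r, hrB r⟩)
  choose c hc using hsub
  refine ⟨⋂ l ∈ Finset.range N, A (c l), ?_, ?_, ?_⟩
  · exact isOpen_biInter_finset fun l _ => hA _
  · simp only [mem_iInter]
    exact fun l _ => hxA _
  · intro s u hs hu hsupp
    set U : Set Y := ⋂ l ∈ Finset.range N, A (c l) with hUdef
    have hstep : ∀ l, l ≤ N → Mv H s (fun y => max (s y) (min (u y) (t l))) := by
      intro l
      induction l with
      | zero =>
        intro _
        have : (fun y => max (s y) (min (u y) (t 0))) = s := by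
          funext y
          rw [ht0, min_eq_right unitInterval.nonneg', max_eq_left unitInterval.nonneg']
        rw [this]
        exact Mv.refl H s
      | succ l ih =>
        intro hl
        refine (ih (by omega)).trans ?_
        have hmono : t l ≤ t (l + 1) := htm (Nat.le_succ l)
        apply Mv.basic (E := E) hH (U := U) (C := closure {y | u y ≠ 0}) (a := t l)
          (b := t (l + 1)) (e := e (H x (c l)))
        · exact hs.max (hu.min continuous_const)
        · exact hs.max (hu.min continuous_const)
        · intro y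
          exact max_le_max le_rfl (min_le_min le_rfl hmono)
        · exact isOpen_biInter_finset fun l _ => hA _
        · exact isClosed_closure
        · exact hsupp
        · intro y hy
          have h0 : u y = 0 := by
            by_contra h
            exact hy (subset_closure h)
          rw [h0, min_eq_left unitInterval.nonneg', min_eq_left unitInterval.nonneg']
        · exact hmono
        · intro y hne
          have h1 : t l < u y := by
            by_contra h
            apply hne
            push Not at h
            rw [min_eq_left h, min_eq_left (h.trans hmono)]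
          have h2 : s y < min (u y) (t (l + 1)) := by
            by_contra h
            push Not at h
            apply hne
            rw [max_eq_left h]
            exact max_eq_left ((min_le_min le_rfl hmono).trans h)
          refine ⟨?_, ?_⟩
          · rw [min_eq_right h1.le]
            exact le_max_right _ _
          · rw [max_eq_right h2.le]
            exact min_le_right _ _
        · exact he _
        · intro y hy r har hrb
          have hyA : y ∈ A (c l) := by
            have := mem_iInter₂.mp hy l (Finset.mem_range.mpr hl)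
            exact this
          have h1 := hAB (c l) y hyA r (hc l ⟨har, hrb⟩)
          exact image_mono Metric.ball_subset_closedBall h1
    have := hstep N le_rfl
    have h1 : (fun y => max (s y) (min (u y) (t N))) = fun y => max (s y) (u y) := by
      funext y
      rw [hN N le_rfl, min_eq_left unitInterval.le_one']
    rwa [h1] at this

/-- **The point pushing isotopy.** -/
theorem exists_isotopy (hY : ∀ y : Y, ∃ e : E → Y, IsOpenEmbedding e ∧ e 0 = y)
    {H : Y → I → Y} (hH : Continuous (fun p : Y × I => H p.1 p.2)) (h0 : ∀ x, H x 0 = x)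
    {K : Set Y} (hK : IsCompact K) :
    ∃ O : Set Y, IsOpen O ∧ K ⊆ O ∧ ∃ Φ : Y → I → Y → Y,
      Continuous (fun p : Y × I × Y => Φ p.1 p.2.1 p.2.2) ∧
      (∀ x y, Φ x 0 y = y) ∧ (∀ x t, IsHomeomorph (Φ x t)) ∧
      (∀ x ∈ O, ∀ t, Φ x t x = H x t) := by
  classical
  -- local compactness
  have hlc : LocallyCompactSpace Y := by
    have : WeaklyLocallyCompactSpace Y := by
      constructor
      intro y
      obtain ⟨e, he, he0⟩ := hY y
      refine ⟨e '' (Metric.closedBall 0 1), (isCompact_closedBall (0 : E) 1).image he.continuous,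
        ?_⟩
      rw [← he0]
      exact he.isOpenMap.image_mem_nhds (Metric.closedBall_mem_nhds 0 one_pos)
    infer_instance
  choose U hU hxU hraise using fun x => exists_nhd_raise (E := E) hY hH x
  have hex : ∀ x : Y, ∃ V : Set Y, ∃ u : Y → I, IsOpen V ∧ x ∈ V ∧ Continuous u ∧
      (∀ y ∈ V, u y = 1) ∧ closure {y | u y ≠ 0} ⊆ U x := by
    intro x
    obtain ⟨L, hL, hxL, hLU⟩ := exists_compact_subset (hU x) (hxU x)
    obtain ⟨L', hL', hLL', hL'U⟩ := exists_compact_between hL (hU x) hLU
    obtain ⟨f, hf1, hf0, -, hf01⟩ := exists_continuous_one_zero_of_isCompact hL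
      (isOpen_interior (s := L')).isClosed_compl
      (disjoint_compl_right_iff_subset.mpr hLL')
    refine ⟨interior L, fun y => ⟨f y, hf01 y⟩, isOpen_interior, hxL, ?_, ?_, ?_⟩
    · exact Continuous.subtype_mk f.continuous _
    · intro y hy
      apply Subtype.ext
      exact hf1 (interior_subset hy)
    · refine subset_trans (closure_minimal ?_ hL'.isClosed) hL'U
      intro y hy
      by_contra hyL
      apply hy
      apply Subtype.ext
      exact hf0 (fun h => hyL (interior_subset h))
  choose V u hV hxV hu hu1 husupp using hex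
  obtain ⟨F, hF⟩ := hK.elim_finite_subcover V hV (fun x _ => mem_iUnion.mpr ⟨x, hxV x⟩)
  have hall : ∀ G : Finset Y, ∃ s : Y → I, Continuous s ∧ Mv H (fun _ => 0) s ∧
      ∀ x ∈ G, ∀ y ∈ V x, s y = 1 := by
    intro G
    induction G using Finset.induction_on with
    | empty => exact ⟨fun _ => 0, continuous_const, Mv.refl _ _, by simp⟩
    | insert x G hx ih =>
      obtain ⟨s, hs, hmv, hone⟩ := ih
      refine ⟨fun y => max (s y) (u x y), hs.max (hu x), hmv.trans (hraise x s (u x) hs (hu x)
        (husupp x)), ?_⟩
      intro z hz y hy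
      rcases Finset.mem_insert.mp hz with rfl | hz
      · show max (s y) (u z y) = 1
        rw [hu1 z y hy]
        exact max_eq_right unitInterval.le_one'
      · show max (s y) (u x y) = 1
        rw [hone z hz y hy]
        exact max_eq_left unitInterval.le_one'
  obtain ⟨s, hs, ⟨Φ, hc, hz, hh, hm⟩, hone⟩ := hall F
  refine ⟨⋃ x ∈ F, V x, isOpen_biUnion fun x _ => hV x, hF, Φ, hc, hz, hh, ?_⟩
  intro x hx t
  obtain ⟨z, hzF, hxz⟩ := mem_iUnion₂.mp hx
  have h1 := hm x t
  rw [hone z hzF x hxz] at h1
  have h2 : min (0 : I) t = 0 := min_eq_left unitInterval.nonneg'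
  have h3 : min (1 : I) t = t := min_eq_right unitInterval.le_one'
  rw [h2, h3, h0] at h1
  exact h1

end Main

end Iso

end Pool.Agent.MP_8fe54c_gt
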