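import Mathlib
import Pool.Agent.Lib.MP_8fe54c_gt.TopDefs
import Pool.Agent.Lib.MP_8fe54c_gt.Isotopy

/-!
# The isotopy following a homotopy (part D4)
-/

namespace OS

open Filter Topology

/-- the isotopy following a homotopy: globally continuous, every `Φ x t` is a homeomorphism -/
theorem isotopy' {n : ℕ} {Y : Type*} [TopologicalSpace Y] [T2Space Y] (hY : LocEuc n Y)
    (H : Y → ℝ → Y) (hH : Continuous (fun q : Y × ℝ => H q.1 q.2)) (hH0 : ∀ x, H x 0 = x)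
    {K : Set Y} (hK : IsCompact K) : ∃ (O : Set Y) (Φ : Y → ℝ → Y → Y), IsOpen O ∧ K ⊆ O ∧
      Continuous (fun q : Y × ℝ × Y => Φ q.1 q.2.1 q.2.2) ∧
      (∀ x y, Φ x 0 y = y) ∧
      (∀ x ∈ O, ∀ t ∈ Set.Icc (0 : ℝ) 1, Φ x t x = H x t) ∧
      (∀ x t, ∃ h : Y ≃ₜ Y, ∀ y, h y = Φ x t y) := by
  obtain ⟨O, hO, hKO, Φ, hc, h0, hh, hm⟩ :=
    Pool.Agent.MP_8fe54c_gt.Iso.exists_isotopy (E := Rn n) hY
      (H := fun x t => H x (t : ℝ))
      (hH.comp (continuous_fst.prodMk (continuous_subtype_val.comp continuous_snd)))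
      (fun x => by
        have : ((0 : unitInterval) : ℝ) = 0 := rfl
        rw [this, hH0]) hK
  refine ⟨O, fun x t y => Φ x (Set.projIcc 0 1 zero_le_one t) y, hO, hKO, ?_, ?_, ?_, ?_⟩
  · have h1 : Continuous (fun q : Y × ℝ × Y =>
        ((q.1, Set.projIcc (0 : ℝ) 1 zero_le_one q.2.1, q.2.2) : Y × unitInterval × Y)) := by
      apply Continuous.prodMk continuous_fst
      apply Continuous.prodMk
      · exact continuous_projIcc.comp (continuous_fst.comp continuous_snd)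
      · exact continuous_snd.comp continuous_snd
    exact hc.comp h1
  · intro x y
    have : Set.projIcc (0 : ℝ) 1 zero_le_one 0 = 0 := by
      apply Subtype.ext
      simp
    simp only [this]
    exact h0 x y
  · intro x hx t ht
    have := hm x hx (Set.projIcc 0 1 zero_le_one t)
    simp only
    rw [this, Set.projIcc_of_mem zero_le_one ht]
  · intro x t
    exact ⟨(hh x (Set.projIcc 0 1 zero_le_one t)).homeomorph, fun y => rfl⟩

/-- the isotopy following a homotopy, over a neighbourhood of a compact set -/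
theorem isotopy {n : ℕ} {Y : Type*} [TopologicalSpace Y] [T2Space Y] (hY : LocEuc n Y)
    (H : Y → ℝ → Y) (hH : Continuous (fun q : Y × ℝ => H q.1 q.2)) (hH0 : ∀ x, H x 0 = x)
    {K : Set Y} (hK : IsCompact K) : ∃ (O : Set Y) (Φ : Y → ℝ → Y → Y), IsOpen O ∧ K ⊆ O ∧
      ContinuousOn (fun q : Y × ℝ × Y => Φ q.1 q.2.1 q.2.2)
        (O ×ˢ (Set.Icc 0 1 ×ˢ Set.univ)) ∧
      (∀ x ∈ O, ∀ y, Φ x 0 y = y) ∧
      (∀ x ∈ O, ∀ t ∈ Set.Icc (0 : ℝ) 1, Φ x t x = H x t) ∧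
      (∀ x ∈ O, ∀ t ∈ Set.Icc (0 : ℝ) 1, ∃ h : Y ≃ₜ Y, ∀ y, h y = Φ x t y) := by
  obtain ⟨O, Φ, hO, hKO, hc, h0, hm, hh⟩ := isotopy' hY H hH hH0 hK
  exact ⟨O, Φ, hO, hKO, hc.continuousOn, fun x _ y => h0 x y, hm, fun x _ t _ => hh x t⟩

end OS
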