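import Mathlib
import Pool.Agent.Lib.MP_8fe54c_gt.TopDefs
import Pool.Agent.Lib.MP_8fe54c_gt.Sph

/-!
# Fine homology of `R^n` minus the origin (module C3)
-/

namespace OS

open Filter Topology Finsupp

/-! ### the operator `scG` -/

theorem scG_coe {X : Type*} (μ : ℕ → ZMod 2) (c : ℕ → LC X) :
    scG μ (c : GC X) = ((fun N => μ N • c N : ℕ → LC X) : GC X) := rfl

theorem scG_dG {X : Type*} (μ : ℕ → ZMod 2) (c : GC X) : dG (scG μ c) = scG μ (dG c) := by
  induction c using Germ.inductionOn with | _ c => ?_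
  refine Germ.coe_eq.mpr (Eventually.of_forall fun N => ?_)
  exact map_smul dL (μ N) (c N)

theorem scG_mapG {X Y : Type*} (f : X → Y) (μ : ℕ → ZMod 2) (c : GC X) :
    mapG f (scG μ c) = scG μ (mapG f c) := by
  induction c using Germ.inductionOn with | _ c => ?_
  refine Germ.coe_eq.mpr (Eventually.of_forall fun N => ?_)
  exact map_smul (mapL f) (μ N) (c N)

theorem scG_consG {X : Type*} (p : X) (μ : ℕ → ZMod 2) (c : GC X) :
    consG p (scG μ c) = scG μ (consG p c) := by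
  induction c using Germ.inductionOn with | _ c => ?_
  refine Germ.coe_eq.mpr (Eventually.of_forall fun N => ?_)
  exact map_smul (consL p) (μ N) (c N)

theorem scG_hop {X Y : Type*} (h : X → ℝ → Y) (μ : ℕ → ZMod 2) (c : GC X) :
    hop h (scG μ c) = scG μ (hop h c) := by
  induction c using Germ.inductionOn with | _ c => ?_
  refine Germ.coe_eq.mpr (Eventually.of_forall fun N => ?_)
  exact map_smul _ (μ N) (c N)

theorem scG_coneG {X : Type*} (h : X → ℝ → X) (p : X) (μ : ℕ → ZMod 2) (c : GC X) :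
    coneG h p (scG μ c) = scG μ (coneG h p c) := by
  unfold coneG
  rw [scG_hop, scG_mapG, scG_consG, map_add]

theorem scG_mem {X : Type*} [TopologicalSpace X] {U : Set X} {l : ℕ} (μ : ℕ → ZMod 2) {c : GC X}
    (hc : c ∈ F U l) : scG μ c ∈ F U l := by
  obtain ⟨r, ⟨K, hK, hKU, h1, h2⟩, rfl⟩ := hc
  have hs : ∀ N, ∀ t ∈ (μ N • r N).support, t ∈ (r N).support := fun N t ht =>
    Finsupp.support_smul ht
  refine ⟨fun N => μ N • r N, ⟨K, hK, hKU, fun N t ht => h1 N t (hs N t ht), fun O hO => ?_⟩, rfl⟩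
  filter_upwards [h2 O hO] with N hN t ht
  exact hN t (hs N t ht)

theorem exp_add_self {X : Type*} (c : GC X) : c + c = 0 := add_self_LC c

/-- in characteristic two, `a + b = 0` iff `a = b` -/
theorem exp_eq_of_add {X : Type*} {a b : GC X} (h : a + b = 0) : a = b := by
  have h2 : a + b + b = 0 + b := by rw [h]
  rw [add_assoc, exp_add_self, add_zero, zero_add] at h2
  exact h2

/-- a germ of chains of length zero is a multiple of the augmentation element -/
theorem exp_F_zero_len {X : Type*} [TopologicalSpace X] {U : Set X} {c : GC X} (hc : c ∈ F U 0) :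
    ∃ μ : ℕ → ZMod 2, c = scG μ (cst (bs [])) := by
  obtain ⟨r, ⟨K, hK, hKU, h1, h2⟩, rfl⟩ := hc
  refine ⟨fun N => r N [], ?_⟩
  refine Germ.coe_eq.mpr (Eventually.of_forall fun N => ?_)
  show r N = r N [] • bs []
  ext t
  rw [Finsupp.smul_apply, smul_eq_mul]
  by_cases ht : t = []
  · subst ht
    simp [bs]
  · have h0 : r N t = 0 := by
      by_contra h
      have := (h1 N t (Finsupp.mem_support_iff.mpr h)).1
      exact ht (List.length_eq_zero_iff.mp this)
    rw [h0]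
    simp [bs, Ne.symm ht]

/-- fine chains of positive length in the empty set vanish -/
theorem exp_F_empty {X : Type*} [TopologicalSpace X] {l : ℕ} {c : GC X} (hc : c ∈ F (∅ : Set X) (l + 1)) :
    c = 0 := by
  obtain ⟨r, ⟨K, hK, hKU, h1, h2⟩, rfl⟩ := hc
  refine Germ.coe_eq.mpr (Eventually.of_forall fun N => ?_)
  show r N = 0
  by_contra h
  obtain ⟨t, ht⟩ := Finsupp.support_nonempty_iff.mpr h
  obtain ⟨h3, h4⟩ := h1 N t ht
  match t, h3 with
  | x :: t, _ => exact hKU (h4 x List.mem_cons_self)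

theorem exp_Ex_zero {X : Type*} [TopologicalSpace X] {U : Set X} {p : X} (hp : p ∈ U) : Ex U 0 := by
  intro c hc _
  obtain ⟨μ, rfl⟩ := exp_F_zero_len hc
  refine ⟨scG μ (cst (bs [p])), scG_mem μ (cst_mem hp [p] (by simp)), ?_⟩
  rw [scG_dG, dG_cst]
  congr 1
  simp [dlist]

/-! ### the intersection of `U_+` and `U_-` -/

theorem exp_mem_UpUm {n : ℕ} {x : Rn (n + 1)} : x ∈ Up n ∩ Um n ↔ Fin.tail x ≠ 0 := by
  constructor
  · rintro ⟨h1, h2⟩ h
    rcases h1 with h1 | h1
    · exact h1 h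
    · rcases h2 with h2 | h2
      · exact h2 h
      · exact absurd h1 (not_lt.mpr h2.le)
  · intro h
    exact ⟨Or.inl h, Or.inl h⟩

theorem exp_continuous_tail {n : ℕ} : Continuous (fun x : Rn (n + 1) => (Fin.tail x : Rn n)) := by
  refine continuous_pi fun i => ?_
  exact continuous_apply i.succ

theorem exp_continuous_jN {n : ℕ} : Continuous (jN n) := by
  refine continuous_pi fun i => ?_
  refine Fin.cases ?_ (fun i => ?_) i
  · simp only [jN, Fin.cons_zero]
    exact continuous_const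
  · simp only [jN, Fin.cons_succ]
    exact continuous_apply i

theorem exp_isOpen_UpUm (n : ℕ) : IsOpen (Up n ∩ Um n) := (isOpen_Up n).inter (isOpen_Um n)

/-- the homotopy `x ↦ ((1 - t) x_0, tail x)` -/
noncomputable def expFlat (n : ℕ) (x : Rn (n + 1)) (t : ℝ) : Rn (n + 1) :=
  Fin.cons ((1 - t) * x 0) (Fin.tail x)

theorem exp_flat_zero {n : ℕ} (x : Rn (n + 1)) : expFlat n x 0 = x := by
  unfold expFlat
  rw [sub_zero, one_mul]
  exact Fin.cons_self_tail x

theorem exp_flat_one {n : ℕ} (x : Rn (n + 1)) : expFlat n x 1 = jN n (Fin.tail x) := by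
  unfold expFlat jN
  rw [sub_self, zero_mul]

theorem exp_flat_continuous (n : ℕ) : Continuous (fun q : Rn (n + 1) × ℝ => expFlat n q.1 q.2) := by
  refine continuous_pi fun i => ?_
  refine Fin.cases ?_ (fun i => ?_) i
  · simp only [expFlat, Fin.cons_zero]
    fun_prop
  · simp only [expFlat, Fin.cons_succ, Fin.tail]
    fun_prop

theorem exp_flat_mem {n : ℕ} {x : Rn (n + 1)} (hx : x ∈ Up n ∩ Um n) (t : ℝ) :
    expFlat n x t ∈ Up n ∩ Um n := by
  rw [exp_mem_UpUm] at hx ⊢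
  unfold expFlat
  rwa [Fin.tail_cons]

/-- every cycle in `U_+ ∩ U_-` is homologous to the push forward of its tail -/
theorem exp_flat_homology {n l : ℕ} {c : GC (Rn (n + 1))} (hc : c ∈ F (Up n ∩ Um n) l)
    (hd : dG c = 0) : ∃ e ∈ F (Up n ∩ Um n) (l + 1),
      dG e = c + mapG (jN n) (mapG (fun x => Fin.tail x) c) := by
  refine ⟨hop (expFlat n) c, hop_mem (exp_flat_continuous n).continuousOn
    (fun x hx s _ => exp_flat_mem hx s) hc, ?_⟩
  rw [dG_hop, hd, map_zero, add_zero, mapG_mapG]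
  congr 1
  · exact mapG_eq_self (U := Up n ∩ Um n) (fun x _ => exp_flat_zero x) hc
  · congr 2
    funext x
    exact exp_flat_one x

theorem exp_tail_mem {n l : ℕ} {c : GC (Rn (n + 1))} (hc : c ∈ F (Up n ∩ Um n) l) :
    mapG (fun x => (Fin.tail x : Rn n)) c ∈ F (Pn n) l :=
  mapG_mem (exp_isOpen_UpUm n) exp_continuous_tail.continuousOn (fun _ hx => exp_mem_UpUm.mp hx) hc

theorem exp_Ex_UpUm {n l : ℕ} (h : Ex (Pn n) l) : Ex (Up n ∩ Um n) l := by
  intro c hc hd
  obtain ⟨e, he, hde⟩ := exp_flat_homology hc hd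
  obtain ⟨f, hf, hdf⟩ := h _ (exp_tail_mem hc) (by rw [dG_mapG, hd, map_zero])
  refine ⟨e + mapG (jN n) f, (F _ _).add_mem he (jN_mem hf), ?_⟩
  rw [map_add, hde, dG_mapG, hdf]
  rw [add_assoc, exp_add_self, add_zero]

theorem exp_Gen_UpUm {n : ℕ} (h : Gen (Pn n) n (Sph n)) :
    Gen (Up n ∩ Um n) n (mapG (jN n) (Sph n)) := by
  intro c hc hd
  obtain ⟨e, he, hde⟩ := exp_flat_homology hc hd
  obtain ⟨μ, f, hf, hdf⟩ := h _ (exp_tail_mem hc) (by rw [dG_mapG, hd, map_zero])
  refine ⟨μ, e + mapG (jN n) f, (F _ _).add_mem he (jN_mem hf), ?_⟩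
  rw [map_add, hde, dG_mapG, hdf, map_add, scG_mapG]
  (rw [← sub_eq_zero]; abel_nf; try simp only [OS.zsmul2, OS.zsmulm2, OS.zsmul4,
    OS.zsmulm4, OS.zsmul6, OS.zsmulm6, OS.nsmul2, add_zero, zero_add])

theorem exp_Pn_succ (n : ℕ) : Pn (n + 1) = Up n ∪ Um n := by
  ext x
  constructor
  · intro hx
    by_cases h : Fin.tail x = 0
    · have h0 : x 0 ≠ 0 := by
        intro h0
        apply hx
        rw [← Fin.cons_self_tail x, h, h0]
        funext i
        refine Fin.cases rfl (fun i => rfl) i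
      rcases lt_or_gt_of_ne h0 with h1 | h1
      · exact Or.inr (Or.inr h1)
      · exact Or.inl (Or.inr h1)
    · exact Or.inl (Or.inl h)
  · intro hx h
    subst h
    rcases hx with (h | h) | (h | h)
    · exact h rfl
    · exact lt_irrefl _ h
    · exact h rfl
    · exact lt_irrefl _ h

theorem exp_Up_sub (n : ℕ) : Up n ⊆ Pn (n + 1) := by
  rw [exp_Pn_succ]; exact Set.subset_union_left

theorem exp_Um_sub (n : ℕ) : Um n ⊆ Pn (n + 1) := by
  rw [exp_Pn_succ]; exact Set.subset_union_right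

/-- splitting a cycle of `R^(n+1) - 0` -/
theorem exp_split_cycle {n l : ℕ} {c : GC (Rn (n + 1))} (hc : c ∈ F (Pn (n + 1)) (l + 1))
    (hd : dG c = 0) : ∃ c₁ ∈ F (Up n) (l + 1), ∃ c₂ ∈ F (Um n) (l + 1), c = c₁ + c₂ ∧
      dG c₁ = dG c₂ ∧ dG c₁ ∈ F (Up n ∩ Um n) l := by
  rw [exp_Pn_succ] at hc
  obtain ⟨c₁, h₁, c₂, h₂, rfl⟩ := split (isOpen_Up n) (isOpen_Um n) hc
  have he : dG c₁ = dG c₂ := by
    rw [map_add] at hd
    exact exp_eq_of_add hd
  refine ⟨c₁, h₁, c₂, h₂, rfl, he, inter_mem (dG_mem h₁) ?_⟩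
  rw [he]
  exact dG_mem h₂

/-! ### module C3 (EXP): file ExP.lean -/

theorem Ex_Pn {n l : ℕ} (h : l < n) : Ex (Pn n) l := by
  induction n generalizing l with
  | zero => omega
  | succ n ih =>
    match l with
    | 0 =>
      refine exp_Ex_zero (p := eN n) ?_
      intro h0
      have := congrFun h0 0
      simp [eN] at this
    | l + 1 =>
      intro c hc hd
      obtain ⟨c₁, h₁, c₂, h₂, rfl, he, hm⟩ := exp_split_cycle hc hd
      obtain ⟨e, he1, he2⟩ := exp_Ex_UpUm (ih (by omega : l < n)) _ hm (dG_dG _)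
      obtain ⟨f₁, hf₁, hf₁'⟩ := Ex_Up n (l + 1) (c₁ + e)
        ((F _ _).add_mem h₁ (F_mono Set.inter_subset_left he1))
        (by rw [map_add, he2, exp_add_self])
      obtain ⟨f₂, hf₂, hf₂'⟩ := Ex_Um n (l + 1) (c₂ + e)
        ((F _ _).add_mem h₂ (F_mono Set.inter_subset_right he1))
        (by rw [map_add, he2, he, exp_add_self])
      refine ⟨f₁ + f₂, (F _ _).add_mem (F_mono (exp_Up_sub n) hf₁) (F_mono (exp_Um_sub n) hf₂), ?_⟩
      rw [map_add, hf₁', hf₂']
      (rw [← sub_eq_zero]; abel_nf; try simp only [OS.zsmul2, OS.zsmulm2, OS.zsmul4,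
        OS.zsmulm4, OS.zsmul6, OS.zsmulm6, OS.nsmul2, add_zero, zero_add])

theorem Gen_Pn (n : ℕ) : Gen (Pn n) n (Sph n) := by
  induction n with
  | zero =>
    intro c hc _
    obtain ⟨μ, hμ⟩ := exp_F_zero_len hc
    refine ⟨μ, 0, (F _ _).zero_mem, ?_⟩
    rw [map_zero, hμ]
    show 0 = scG μ (cst (bs [])) + scG μ (cst (bs []))
    rw [exp_add_self]
  | succ n ih =>
    intro c hc hd
    obtain ⟨c₁, h₁, c₂, h₂, rfl, he, hm⟩ := exp_split_cycle hc hd
    obtain ⟨μ, e, he1, he2⟩ := exp_Gen_UpUm ih _ hm (dG_dG _)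
    have hS := jN_mem (Sph_mem n)
    have hS1 := F_mono Set.inter_subset_left hS
    have hS2 := F_mono Set.inter_subset_right hS
    have hdS : dG (mapG (jN n) (Sph n)) = 0 := by rw [dG_mapG, Sph_d, map_zero]
    have hz : ∀ (h : Rn (n + 1) → ℝ → Rn (n + 1)) (p : Rn (n + 1)), coneG h p 0 = 0 := by
      intro h p
      simp [coneG]
    obtain ⟨f₁, hf₁, hf₁'⟩ := Ex_Up n (n + 1)
        (c₁ + e + scG μ (coneG (hP n) (eN n) (mapG (jN n) (Sph n))))
        ((F _ _).add_mem ((F _ _).add_mem h₁ (F_mono Set.inter_subset_left he1))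
          (scG_mem μ (coneP_mem hS1)))
        (by
          rw [map_add, map_add, he2, scG_dG, dG_coneP hS1, hdS, hz, add_zero]
          (rw [← sub_eq_zero]; abel_nf; try simp only [OS.zsmul2, OS.zsmulm2, OS.zsmul4,
            OS.zsmulm4, OS.zsmul6, OS.zsmulm6, OS.nsmul2, add_zero, zero_add]))
    obtain ⟨f₂, hf₂, hf₂'⟩ := Ex_Um n (n + 1)
        (c₂ + e + scG μ (coneG (hM n) (-(eN n)) (mapG (jN n) (Sph n))))
        ((F _ _).add_mem ((F _ _).add_mem h₂ (F_mono Set.inter_subset_right he1))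
          (scG_mem μ (coneM_mem hS2)))
        (by
          rw [map_add, map_add, he2, he, scG_dG, dG_coneM hS2, hdS, hz, add_zero]
          (rw [← sub_eq_zero]; abel_nf; try simp only [OS.zsmul2, OS.zsmulm2, OS.zsmul4,
            OS.zsmulm4, OS.zsmul6, OS.zsmulm6, OS.nsmul2, add_zero, zero_add]))
    refine ⟨μ, f₁ + f₂, (F _ _).add_mem (F_mono (exp_Up_sub n) hf₁) (F_mono (exp_Um_sub n) hf₂), ?_⟩
    rw [map_add, hf₁', hf₂']
    show _ = c₁ + c₂ + scG μ (coneG (hP n) (eN n) (mapG (jN n) (Sph n)) +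
      coneG (hM n) (-(eN n)) (mapG (jN n) (Sph n)))
    rw [map_add]
    (rw [← sub_eq_zero]; abel_nf; try simp only [OS.zsmul2, OS.zsmulm2, OS.zsmul4,
      OS.zsmulm4, OS.zsmul6, OS.zsmulm6, OS.nsmul2, add_zero, zero_add])

end OS
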