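import Mathlib
import Pool.Agent.Lib.MP_8fe54c_gt.ExP

/-!
# Punctured manifolds (module D1)
-/

namespace OS

open Filter Topology Finsupp

section D
variable {n : ℕ} {Y : Type*} [TopologicalSpace Y] [T2Space Y]

omit [T2Space Y] in
theorem LocEuc.locallyCompact (h : LocEuc n Y) : LocallyCompactSpace Y := by
  refine ⟨fun y s hs => ?_⟩
  obtain ⟨e, he, rfl⟩ := h y
  rw [← he.map_nhds_eq] at hs ⊢
  obtain ⟨K, hK, hKs, hKc⟩ := LocallyCompactSpace.local_compact_nhds (0 : Rn n) _ hs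
  exact ⟨e '' K, image_mem_map hK, Set.image_subset_iff.mpr hKs, hKc.image he.continuous⟩

omit [T2Space Y] in
/-- the inverse of an open embedding of `R^n` -/
theorem punc_inv {e : Rn n → Y} (he : IsOpenEmbedding e) : ∃ g : Y → Rn n,
    ContinuousOn g (Set.range e) ∧ ∀ x, g (e x) = x := by
  refine ⟨he.toOpenPartialHomeomorph.symm, ?_, fun x => ?_⟩
  · have := he.toOpenPartialHomeomorph.continuousOn_symm
    rwa [he.toOpenPartialHomeomorph_target] at this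
  · exact he.toOpenPartialHomeomorph.left_inv (by simp)

/-- pull back of fine chains in a punctured chart -/
theorem punc_pull {e : Rn n → Y} (he : IsOpenEmbedding e) {l : ℕ} {c : GC Y}
    (hc : c ∈ F ({e 0}ᶜ ∩ Set.range e) l) (hd : dG c = 0) :
    ∃ c' ∈ F (Pn n) l, dG c' = 0 ∧ mapG e c' = c := by
  obtain ⟨g, hg, hge⟩ := punc_inv he
  have ho : IsOpen (({e 0}ᶜ : Set Y) ∩ Set.range e) :=
    isClosed_singleton.isOpen_compl.inter he.isOpen_range
  refine ⟨mapG g c, mapG_mem ho (hg.mono Set.inter_subset_right) ?_ hc, ?_, ?_⟩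
  · rintro _ ⟨h1, ⟨x, rfl⟩⟩
    rw [hge]
    intro hx
    exact h1 (by rw [hx]; rfl)
  · rw [dG_mapG, hd, map_zero]
  · rw [mapG_mapG]
    refine mapG_eq_self (U := {e 0}ᶜ ∩ Set.range e) ?_ hc
    rintro _ ⟨_, ⟨x, rfl⟩⟩
    show e (g (e x)) = e x
    rw [hge]

omit [T2Space Y] in
theorem punc_push {e : Rn n → Y} (he : IsOpenEmbedding e) {l : ℕ} {c : GC (Rn n)}
    (hc : c ∈ F (Pn n) l) : mapG e c ∈ F ({e 0}ᶜ : Set Y) l := by
  refine mapG_mem (isOpen_Pn n) he.continuous.continuousOn ?_ hc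
  intro x hx h
  exact hx (he.injective h)

/-- reduction of a cycle of the punctured manifold to a cycle in a punctured chart -/
theorem punc_reduce [ContractibleSpace Y] (hY : LocEuc n Y) {e : Rn n → Y}
    (he : IsOpenEmbedding e) {l : ℕ} {c : GC Y} (hc : c ∈ F ({e 0}ᶜ : Set Y) l)
    (hd : dG c = 0) : ∃ w ∈ F ({e 0}ᶜ : Set Y) (l + 1), ∃ c' ∈ F (Pn n) l, dG c' = 0 ∧
      dG w = c + mapG e c' := by
  have := hY.locallyCompact
  obtain ⟨w, hw, hdw⟩ := Ex_univ l c (F_mono (Set.subset_univ _) hc) hd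
  have hcov : (Set.univ : Set Y) ⊆ {e 0}ᶜ ∪ Set.range e := by
    intro y _
    by_cases h : y = e 0
    · exact Or.inr ⟨0, h.symm⟩
    · exact Or.inl h
  obtain ⟨w₁, h₁, w₂, h₂, rfl⟩ := split isClosed_singleton.isOpen_compl he.isOpen_range
    (F_mono hcov hw)
  have h3 : dG w₂ = c + dG w₁ := by
    rw [← hdw, map_add]
    (rw [← sub_eq_zero]; abel_nf; try simp only [OS.zsmul2, OS.zsmulm2, OS.zsmul4,
      OS.zsmulm4, OS.zsmul6, OS.zsmulm6, OS.nsmul2, add_zero, zero_add])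
  obtain ⟨c', hc', hd', he'⟩ := punc_pull he (c := dG w₂)
    (inter_mem (by rw [h3]; exact (F _ _).add_mem hc (dG_mem h₁)) (dG_mem h₂)) (dG_dG _)
  refine ⟨w₁, h₁, c', hc', hd', ?_⟩
  rw [he', h3]
  (rw [← sub_eq_zero]; abel_nf; try simp only [OS.zsmul2, OS.zsmulm2, OS.zsmul4,
    OS.zsmulm4, OS.zsmul6, OS.zsmulm6, OS.nsmul2, add_zero, zero_add])

theorem Ex_punc [ContractibleSpace Y] (hY : LocEuc n Y) (y : Y) {l : ℕ} (hl : l < n) :
    Ex ({y}ᶜ : Set Y) l := by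
  intro c hc hd
  obtain ⟨e, he, rfl⟩ := hY y
  obtain ⟨w, hw, c', hc', hd', hdw⟩ := punc_reduce hY he hc hd
  obtain ⟨v, hv, hdv⟩ := Ex_Pn hl c' hc' hd'
  refine ⟨w + mapG e v, (F _ _).add_mem hw (punc_push he hv), ?_⟩
  rw [map_add, hdw, dG_mapG, hdv]
  (rw [← sub_eq_zero]; abel_nf; try simp only [OS.zsmul2, OS.zsmulm2, OS.zsmul4,
    OS.zsmulm4, OS.zsmul6, OS.zsmulm6, OS.nsmul2, add_zero, zero_add])

theorem Gen_punc [ContractibleSpace Y] (hY : LocEuc n Y) {e : Rn n → Y} (he : IsOpenEmbedding e) :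
    Gen ({e 0}ᶜ : Set Y) n (mapG e (Sph n)) := by
  intro c hc hd
  obtain ⟨w, hw, c', hc', hd', hdw⟩ := punc_reduce hY he hc hd
  obtain ⟨μ, v, hv, hdv⟩ := Gen_Pn n c' hc' hd'
  refine ⟨μ, w + mapG e v, (F _ _).add_mem hw (punc_push he hv), ?_⟩
  rw [map_add, hdw, dG_mapG, hdv, map_add, scG_mapG]
  (rw [← sub_eq_zero]; abel_nf; try simp only [OS.zsmul2, OS.zsmulm2, OS.zsmul4,
    OS.zsmulm4, OS.zsmul6, OS.zsmulm6, OS.nsmul2, add_zero, zero_add])

end D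

end OS
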