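import Mathlib
import Pool.Agent.Lib.MP_8fe54c_gt.TopDefs
import Pool.Agent.Lib.MP_8fe54c_gt.Iso
import Pool.Agent.Lib.MP_8fe54c_gt.Sph
import Pool.Agent.Lib.MP_8fe54c_gt.Punc
import Pool.Agent.Lib.MP_8fe54c_gt.Deg

/-!
# The configuration space of two points of a contractible manifold (part D5 - D7)
-/

set_option linter.unusedSimpArgs false

namespace OS

open Filter Topology Finsupp

/-- scaled spheres -/
theorem cf_Sph_scale (n : ℕ) {ε : ℝ} (hε : ε ≠ 0) :
    ∃ e ∈ F (Pn n) (n + 1), dG e = mapG (fun x : Rn n => ε • x) (Sph n) + Sph n := by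
  have pos : ∀ ε : ℝ, 0 < ε →
      ∃ e ∈ F (Pn n) (n + 1), dG e = mapG (fun x : Rn n => ε • x) (Sph n) + Sph n := by
    intro ε hε
    refine ⟨hop (fun (x : Rn n) s => ((1 - s) * ε + s) • x) (Sph n), ?_, ?_⟩
    · refine hop_mem (U := Pn n) ?_ ?_ (Sph_mem n)
      · exact Continuous.continuousOn (by fun_prop)
      · intro x hx s hs h
        rcases smul_eq_zero.mp h with h1 | h1
        · obtain ⟨hs0, hs1⟩ := hs
          nlinarith [mul_nonneg (sub_nonneg.mpr hs1) hε.le]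
        · exact hx h1
    · rw [dG_hop, Sph_d, map_zero, add_zero]
      congr 1
      · congr 2
        funext x
        simp
      · apply mapG_eq_self (U := Pn n) _ (Sph_mem n)
        intro x _
        simp
  rcases lt_or_gt_of_ne hε with h | h
  · obtain ⟨e, he, hde⟩ := pos (-ε) (by linarith)
    refine ⟨e, he, ?_⟩
    rw [hde]
    congr 1
    nth_rewrite 1 [← Sph_neg n]
    rw [mapG_mapG]
    congr 2
    funext x
    simp
  · exact pos ε h

section D
variable {n : ℕ} {Y : Type*} [TopologicalSpace Y] [T2Space Y]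

theorem isOpen_EE : IsOpen (EE Y) := by
  have h : EE Y = (Set.diagonal Y)ᶜ := by
    ext q
    rfl
  rw [h]
  exact isClosed_diagonal.isOpen_compl

omit [T2Space Y] in
/-- a contraction of a contractible space to a given point -/
theorem exists_contraction [ContractibleSpace Y] (y0 : Y) : ∃ H : Y → ℝ → Y,
    Continuous (fun q : Y × ℝ => H q.1 q.2) ∧ (∀ x, H x 0 = x) ∧ ∀ x, H x 1 = y0 := by
  obtain ⟨p, hp⟩ := id_nullhomotopic Y
  have hpy : Joined p y0 := PathConnectedSpace.joined p y0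
  have : Nonempty Y := ⟨y0⟩
  have h2 : (ContinuousMap.const Y p).Homotopic (ContinuousMap.const Y y0) :=
    ContinuousMap.homotopic_const_iff.mpr hpy
  obtain ⟨H⟩ := hp.trans h2
  refine ⟨fun x s => H (Set.projIcc 0 1 zero_le_one s, x), ?_, fun x => ?_, fun x => ?_⟩
  · exact H.continuous.comp ((continuous_projIcc.comp continuous_snd).prodMk continuous_fst)
  · have : Set.projIcc (0 : ℝ) 1 zero_le_one 0 = 0 := by
      apply Subtype.ext; simp
    simp only [this]
    exact H.apply_zero x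
  · have : Set.projIcc (0 : ℝ) 1 zero_le_one 1 = 1 := by
      apply Subtype.ext; simp
    simp only [this]
    exact H.apply_one x

omit [TopologicalSpace Y] [T2Space Y] in
theorem cf_mapG_scG {X : Type*} (f : X → Y) (μ : ℕ → ZMod 2) (c : GC X) :
    mapG f (scG μ c) = scG μ (mapG f c) := by
  induction c using Germ.inductionOn with | _ c => ?_
  refine Germ.coe_eq.mpr (Eventually.of_forall fun N => ?_)
  show mapL f (μ N • c N) = μ N • mapL f (c N)
  rw [map_smul]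

omit [TopologicalSpace Y] [T2Space Y] in
theorem cf_dG_scG (μ : ℕ → ZMod 2) (c : GC Y) : dG (scG μ c) = scG μ (dG c) := by
  induction c using Germ.inductionOn with | _ c => ?_
  refine Germ.coe_eq.mpr (Eventually.of_forall fun N => ?_)
  show dL (μ N • c N) = μ N • dL (c N)
  rw [map_smul]

omit [T2Space Y] in
theorem cf_scG_mem (μ : ℕ → ZMod 2) {U : Set Y} {l : ℕ} {c : GC Y} (hc : c ∈ F U l) :
    scG μ c ∈ F U l := by
  obtain ⟨r, ⟨K, hK, hKU, h1, h2⟩, rfl⟩ := hc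
  refine ⟨fun N => μ N • r N, ⟨K, hK, hKU, fun N t ht => h1 N t (Finsupp.support_smul ht),
    fun O hO => ?_⟩, rfl⟩
  filter_upwards [h2 O hO] with N hN t ht
  exact hN t (Finsupp.support_smul ht)

/-- the support of a germ of pairs, and the isotopy over its first coordinates -/
theorem exists_theta [ContractibleSpace Y] (hY : LocEuc n Y) (y0 : Y) {l : ℕ} {c : GC (Y × Y)}
    (hc : c ∈ F (EE Y) l) : ∃ (U : Set (Y × Y)) (H : Y → ℝ → Y) (Φ : Y → ℝ → Y → Y),
      IsOpen U ∧ c ∈ F U l ∧ U ⊆ EE Y ∧ (∀ q : Y × Y, q ∈ U → (q.1, q.1) ∉ U) ∧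
      Continuous (fun q : Y × ℝ => H q.1 q.2) ∧ (∀ x, H x 0 = x) ∧ (∀ x, H x 1 = y0) ∧
      Continuous (fun q : Y × ℝ × Y => Φ q.1 q.2.1 q.2.2) ∧
      (∀ x y, Φ x 0 y = y) ∧
      (∀ q ∈ U, ∀ t ∈ Set.Icc (0 : ℝ) 1, Φ q.1 t q.1 = H q.1 t) ∧
      (∀ t ∈ Set.Icc (0 : ℝ) 1, Φ y0 t y0 = H y0 t) ∧
      (∀ x t, ∃ h : Y ≃ₜ Y, ∀ y, h y = Φ x t y) := by
  obtain ⟨H, hH, hH0, hH1⟩ := exists_contraction y0
  obtain ⟨r, ⟨K', hK', hKU, h1, h2⟩, rfl⟩ := hc
  obtain ⟨O, Φ, hO, hKO, hΦ, hΦ0, hΦ1, hΦ2⟩ := isotopy' hY H hH hH0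
    (K := Prod.fst '' K' ∪ {y0}) ((hK'.image continuous_fst).union isCompact_singleton)
  refine ⟨EE Y ∩ (Prod.fst ⁻¹' O), H, Φ, isOpen_EE.inter (hO.preimage continuous_fst), ?_,
    Set.inter_subset_left, ?_, hH, hH0, hH1, hΦ, hΦ0, ?_, ?_, hΦ2⟩
  · exact ⟨r, ⟨K', hK', Set.subset_inter hKU
      (fun q hq => hKO (Or.inl ⟨q, hq, rfl⟩)), h1, h2⟩, rfl⟩
  · intro q _ h
    exact h.1 rfl
  · intro q hq t ht
    exact hΦ1 q.1 hq.2 t ht
  · intro t ht
    exact hΦ1 y0 (hKO (Or.inr rfl)) t ht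

/-- every fine cycle of the configuration space is homologous to one in a fibre -/
theorem to_fibre [ContractibleSpace Y] (hY : LocEuc n Y) (y0 : Y) {l : ℕ} {c : GC (Y × Y)}
    (hc : c ∈ F (EE Y) l) (hd : dG c = 0) : ∃ c' ∈ F ({y0}ᶜ : Set Y) l, dG c' = 0 ∧
      ∃ e ∈ F (EE Y) (l + 1), dG e = c + mapG (fun y => (y0, y)) c' := by
  obtain ⟨U, H, Φ, hU, hcU, hUE, -, hH, hH0, hH1, hΦ, hΦ0, hΦ1, -, hΦ2⟩ := exists_theta hY y0 hc
  have hinj : ∀ x t, Function.Injective (Φ x t) := by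
    intro x t y y' hyy
    obtain ⟨h, hh⟩ := hΦ2 x t
    apply h.injective
    rw [hh, hh, hyy]
  refine ⟨mapG (fun q : Y × Y => Φ q.1 1 q.2) c, ?_, ?_, hop (fun (q : Y × Y) t => (H q.1 t, Φ q.1 t q.2)) c, ?_, ?_⟩
  · refine mapG_mem hU ?_ ?_ hcU
    · exact (hΦ.comp (f := fun q : Y × Y => ((q.1, (1 : ℝ), q.2) : Y × ℝ × Y))
        (by fun_prop)).continuousOn
    · intro q hq h
      have h1 := hΦ1 q hq 1 ⟨zero_le_one, le_rfl⟩
      rw [hH1] at h1
      have h2 : Φ q.1 1 q.2 = Φ q.1 1 q.1 := h.trans h1.symm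
      exact hUE hq (hinj _ _ h2).symm
  · rw [dG_mapG, hd, map_zero]
  · refine hop_mem ?_ ?_ hcU
    · refine Continuous.continuousOn ?_
      refine Continuous.prodMk ?_ ?_
      · exact hH.comp (f := fun p : (Y × Y) × ℝ => ((p.1.1, p.2) : Y × ℝ)) (by fun_prop)
      · exact hΦ.comp (f := fun p : (Y × Y) × ℝ => ((p.1.1, p.2, p.1.2) : Y × ℝ × Y))
          (by fun_prop)
    · intro q hq s hs h
      have h1 := hΦ1 q hq s hs
      have h2 : Φ q.1 s q.1 = Φ q.1 s q.2 := h1.trans h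
      exact hUE hq (hinj _ _ h2)
  · rw [dG_hop, hd, map_zero, add_zero, mapG_mapG]
    congr 1
    · apply mapG_eq_self (U := U) _ hcU
      intro q _
      rw [hH0, hΦ0]
    · congr 2
      funext q
      rw [hH1]
      rfl

theorem fibre_mem {y0 : Y} {l : ℕ} {c : GC Y} (hc : c ∈ F ({y0}ᶜ : Set Y) l) :
    mapG (fun y => (y0, y)) c ∈ F (EE Y) l := by
  refine mapG_mem isClosed_singleton.isOpen_compl (by fun_prop) ?_ hc
  intro y hy h
  exact hy h.symm

theorem Ex_EE [ContractibleSpace Y] (hY : LocEuc n Y) {l : ℕ} (hl : l < n) : Ex (EE Y) l := by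
  intro c hc hd
  obtain ⟨y0⟩ : Nonempty Y := inferInstance
  obtain ⟨c', hc', hd', e, he, hde⟩ := to_fibre hY y0 hc hd
  obtain ⟨e', he', hde'⟩ := Ex_punc hY y0 hl c' hc' hd'
  refine ⟨e + mapG (fun y => (y0, y)) e', (F _ _).add_mem he (fibre_mem he'), ?_⟩
  rw [map_add, dG_mapG, hde, hde']
  rw [← sub_eq_zero]
  abel_nf
  try simp only [OS.zsmul2, OS.zsmulm2, OS.zsmul4, OS.zsmulm4, OS.zsmul6, OS.zsmulm6,
    OS.nsmul2, add_zero, zero_add]

theorem Gen_EE [ContractibleSpace Y] (hY : LocEuc n Y) {e : Rn n → Y} (he : IsOpenEmbedding e) :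
    Gen (EE Y) n (mapG (fun x => (e 0, e x)) (Sph n)) := by
  intro c hc hd
  obtain ⟨c', hc', hd', b, hb, hdb⟩ := to_fibre hY (e 0) hc hd
  obtain ⟨μ, b', hb', hdb'⟩ := Gen_punc hY he c' hc' hd'
  refine ⟨μ, b + mapG (fun y => (e 0, y)) b', (F _ _).add_mem hb (fibre_mem hb'), ?_⟩
  rw [map_add, dG_mapG, hdb, hdb', map_add, cf_mapG_scG, mapG_mapG]
  have : (fun y => (e 0, y)) ∘ e = fun x => (e 0, e x) := rfl
  rw [this]
  rw [← sub_eq_zero]
  abel_nf
  try simp only [OS.zsmul2, OS.zsmulm2, OS.zsmul4, OS.zsmulm4, OS.zsmul6, OS.zsmulm6,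
    OS.nsmul2, add_zero, zero_add]

theorem NB_EE [ContractibleSpace Y] (hY : LocEuc n Y) {e : Rn n → Y} (he : IsOpenEmbedding e) :
    NB (EE Y) n (mapG (fun x => (e 0, e x)) (Sph n)) := by
  intro b hb hdb
  obtain ⟨U, H, Φ, hU, hbU, hUE, -, hH, hH0, hH1, hΦ, hΦ0, hΦ1, hΦy, hΦ2⟩ :=
    exists_theta hY (e 0) hb
  obtain ⟨h, hh⟩ := hΦ2 (e 0) 1
  have hfix : h (e 0) = e 0 := by
    rw [hh, hΦy 1 ⟨zero_le_one, le_rfl⟩, hH1]
  have hinj : ∀ x t, Function.Injective (Φ x t) := by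
    intro x t y y' hyy
    obtain ⟨h, hh⟩ := hΦ2 x t
    apply h.injective
    rw [hh, hh, hyy]
  have h1 : mapG (fun q : Y × Y => Φ q.1 1 q.2) b ∈ F ({e 0}ᶜ : Set Y) (n + 1) := by
    refine mapG_mem hU ?_ ?_ hbU
    · exact (hΦ.comp (f := fun q : Y × Y => ((q.1, (1 : ℝ), q.2) : Y × ℝ × Y))
        (by fun_prop)).continuousOn
    · intro q hq hq2
      have h1 := hΦ1 q hq 1 ⟨zero_le_one, le_rfl⟩
      rw [hH1] at h1
      have h2 : Φ q.1 1 q.2 = Φ q.1 1 q.1 := hq2.trans h1.symm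
      exact hUE hq (hinj _ _ h2).symm
  have h2 : mapG (h.symm : Y → Y) (mapG (fun q : Y × Y => Φ q.1 1 q.2) b) ∈
      F ({e 0}ᶜ : Set Y) (n + 1) := by
    refine mapG_mem isClosed_singleton.isOpen_compl h.symm.continuous.continuousOn ?_ h1
    intro y hy hy2
    apply hy
    have h3 : h (h.symm y) = h (e 0) := congrArg h hy2
    rw [h.apply_symm_apply, hfix] at h3
    exact h3
  refine NB_punc hY he _ h2 ?_
  rw [dG_mapG, dG_mapG, hdb, mapG_mapG, mapG_mapG]
  congr 2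
  funext x
  show h.symm (Φ (e 0) 1 (e x)) = e x
  rw [← hh, h.symm_apply_apply]

omit [T2Space Y] in
theorem fibre_sphere_maps {e : Rn n → Y} (he : IsOpenEmbedding e) :
    Set.MapsTo (fun x => (e 0, e x)) (Pn n) (EE Y) := by
  intro x hx h
  exact hx (he.injective h).symm

omit [T2Space Y] in
/-- D6 -/
theorem swap_sphere {e : Rn n → Y} (he : IsOpenEmbedding e) : ∃ b ∈ F (EE Y) (n + 1),
    dG b = mapG (fun x => (e 0, e x)) (Sph n) + mapG (fun x => (e x, e 0)) (Sph n) := by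
  refine ⟨hop (fun (x : Rn n) s => (e (-(s • x)), e ((1 - s) • x))) (Sph n), ?_, ?_⟩
  · refine hop_mem (U := Pn n) ?_ ?_ (Sph_mem n)
    · refine Continuous.continuousOn ?_
      refine Continuous.prodMk ?_ ?_
      · exact he.continuous.comp (by fun_prop)
      · exact he.continuous.comp (by fun_prop)
    · intro x hx s _ h
      have h1 := he.injective h
      apply hx
      have h2 : x = (1 - s) • x + s • x := by
        rw [← add_smul]; simp
      rw [h2, ← h1]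
      simp
  · rw [dG_hop, Sph_d, map_zero, add_zero]
    congr 1
    · congr 2
      funext x
      simp
    · have h1 : (fun x : Rn n => (e (-((1 : ℝ) • x)), e ((1 - (1 : ℝ)) • x))) =
          (fun x => (e x, e 0)) ∘ (fun x : Rn n => -x) := by
        funext x
        simp
      rw [h1, ← mapG_mapG, Sph_neg]

omit [T2Space Y] in
/-- D7 -/
theorem antipodal_sphere {e : Rn n → Y} (he : IsOpenEmbedding e) : ∃ b ∈ F (EE Y) (n + 1),
    dG b = mapG (fun x => (e x, e (-x))) (Sph n) + mapG (fun x => (e 0, e x)) (Sph n) := by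
  obtain ⟨b', hb', hdb'⟩ := cf_Sph_scale n (ε := -2) (by norm_num)
  refine ⟨hop (fun (x : Rn n) s => (e ((1 - s) • x), e (-((1 + s) • x)))) (Sph n) +
    mapG (fun x => (e 0, e x)) b', (F _ _).add_mem ?_ ?_, ?_⟩
  · refine hop_mem (U := Pn n) ?_ ?_ (Sph_mem n)
    · refine Continuous.continuousOn ?_
      refine Continuous.prodMk ?_ ?_
      · exact he.continuous.comp (by fun_prop)
      · exact he.continuous.comp (by fun_prop)
    · intro x hx s _ h
      have h1 := he.injective h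
      apply hx
      have h2 : (2 : ℝ) • x = (1 - s) • x + (1 + s) • x := by
        rw [← add_smul]; congr 1; ring
      have h3 : (2 : ℝ) • x = 0 := by
        rw [h2, h1]; simp
      simpa using h3
  · refine mapG_mem (isOpen_Pn n) ?_ (fibre_sphere_maps he) hb'
    refine Continuous.continuousOn ?_
    exact continuous_const.prodMk he.continuous
  · rw [map_add, dG_hop, Sph_d, map_zero, add_zero, dG_mapG, hdb', map_add, mapG_mapG]
    have h1 : (fun x : Rn n => (e ((1 - (0 : ℝ)) • x), e (-((1 + (0 : ℝ)) • x)))) =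
        (fun x => (e x, e (-x))) := by
      funext x
      simp
    have h2 : (fun x : Rn n => (e ((1 - (1 : ℝ)) • x), e (-((1 + (1 : ℝ)) • x)))) =
        (fun x => (e 0, e x)) ∘ (fun x : Rn n => (-2 : ℝ) • x) := by
      funext x
      simp only [sub_self, zero_smul, Function.comp_apply, Prod.mk.injEq, true_and]
      congr 1
      rw [← neg_smul]
      norm_num
    rw [h1, h2]
    rw [← sub_eq_zero]
    abel_nf
    try simp only [OS.zsmul2, OS.zsmulm2, OS.zsmul4, OS.zsmulm4, OS.zsmul6, OS.zsmulm6,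
      OS.nsmul2, add_zero, zero_add]

end D

end OS
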