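import Mathlib
import Pool.Agent.Lib.MP_8fe54c_gt.Conf

/-!
# The tower bound (part D8): there is no tower of height `n` off the diagonal of a contractible
`n`-manifold
-/

set_option linter.unusedSimpArgs false

namespace OS

open Filter Topology Finsupp

section D
variable {n : ℕ} {Y : Type*} [TopologicalSpace Y] [T2Space Y]

theorem swap_mem {l : ℕ} {c : GC (Y × Y)} (hc : c ∈ F (EE Y) l) :
    mapG Prod.swap c ∈ F (EE Y) l := by
  refine mapG_mem isOpen_EE continuous_swap.continuousOn ?_ hc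
  intro q hq h
  exact hq h.symm

omit [TopologicalSpace Y] [T2Space Y] in
theorem swap_swap_G (c : GC (Y × Y)) : mapG Prod.swap (mapG Prod.swap c) = c := by
  rw [mapG_mapG]
  have : (Prod.swap ∘ Prod.swap : Y × Y → Y × Y) = id := by
    funext q
    rfl
  rw [this, mapG_id]

/-- correcting the difference of two towers to cycles -/
theorem correct_tower {m : ℕ} (hE : ∀ l, l < m + 1 → Ex (EE Y) l) (w : ℕ → GC (Y × Y))
    (hw : ∀ i ≤ m, w i ∈ F (EE Y) (i + 1)) (h0 : dG (w 0) = 0)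
    (hs : ∀ i < m, dG (w (i + 1)) = w i + mapG Prod.swap (w i)) :
    ∀ i ≤ m, ∃ y ∈ F (EE Y) (i + 1), dG (w i + (y + mapG Prod.swap y)) = 0 := by
  intro i
  induction i with
  | zero =>
    intro _
    exact ⟨0, (F _ _).zero_mem, by simp [h0]⟩
  | succ i ih =>
    intro hi
    obtain ⟨y, hy, hd⟩ := ih (by omega)
    obtain ⟨y', hy', hd'⟩ := hE (i + 1) (by omega) _
      ((F _ _).add_mem (hw i (by omega)) ((F _ _).add_mem hy (swap_mem hy))) hd
    refine ⟨y', hy', ?_⟩
    rw [map_add, hs i (by omega), map_add, dG_mapG, hd', map_add, map_add, swap_swap_G]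
    rw [← sub_eq_zero]
    abel_nf
    try simp only [OS.zsmul2, OS.zsmulm2, OS.zsmul4, OS.zsmulm4, OS.zsmul6, OS.zsmulm6,
      OS.nsmul2, add_zero, zero_add]

theorem tower_bound [ContractibleSpace Y] (hY : LocEuc n Y) (hn : 0 < n) :
    ¬ ∃ u : ℕ → GC (Y × Y), (∀ i ≤ n, u i ∈ F (EE Y) (i + 1)) ∧ dG (u 0) = cst (bs []) ∧
      ∀ i < n, dG (u (i + 1)) = u i + mapG Prod.swap (u i) := by
  obtain ⟨m, rfl⟩ : ∃ m, n = m + 1 := ⟨n - 1, by omega⟩
  rintro ⟨u, hu, hu0, hus⟩
  obtain ⟨y0⟩ : Nonempty Y := inferInstance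
  obtain ⟨e, he, -⟩ := hY y0
  obtain ⟨t, ht, ht0, hts, htS⟩ := sph_tower m
  -- the antipodal map
  have hJm : Set.MapsTo (fun x : Rn (m + 1) => (e x, e (-x))) (Pn (m + 1)) (EE Y) := by
    intro x hx h
    have h1 : x = -x := he.injective h
    apply hx
    have h2 : (2 : ℝ) • x = 0 := by
      rw [two_smul]
      nth_rewrite 1 [h1]
      simp
    simpa using h2
  have hJc : Continuous (fun x : Rn (m + 1) => (e x, e (-x))) :=
    he.continuous.prodMk (he.continuous.comp continuous_neg)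
  have hJT : ∀ c, mapG Prod.swap (mapG (fun x : Rn (m + 1) => (e x, e (-x))) c) =
      mapG (fun x : Rn (m + 1) => (e x, e (-x))) (mapG (fun x => -x) c) := by
    intro c
    rw [mapG_mapG, mapG_mapG]
    congr 2
    funext x
    simp
  generalize hJ : (fun x : Rn (m + 1) => (e x, e (-x))) = J at hJm hJc hJT
  have hs : ∀ i ≤ m, mapG J (t i) ∈ F (EE Y) (i + 1) := fun i hi =>
    mapG_mem (isOpen_Pn _) hJc.continuousOn hJm (ht i hi)
  obtain ⟨y, hy, hyd⟩ := correct_tower (Y := Y) (m := m) (fun l hl => Ex_EE hY hl)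
    (fun i => u i + mapG J (t i)) (fun i hi => (F _ _).add_mem (hu i (by omega)) (hs i hi))
    (by
      rw [map_add, hu0, dG_mapG, ht0, mapG_cst]
      have : mapL J (bs []) = bs [] := by simp
      rw [this]
      rw [← sub_eq_zero]
      abel_nf
      try simp only [OS.zsmul2, OS.zsmulm2, OS.zsmul4, OS.zsmulm4, OS.zsmul6, OS.zsmulm6,
        OS.nsmul2, add_zero, zero_add])
    (fun i hi => by
      rw [map_add, hus i (by omega), dG_mapG, hts i hi, map_add, map_add, hJT]
      rw [← sub_eq_zero]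
      abel_nf
      try simp only [OS.zsmul2, OS.zsmulm2, OS.zsmul4, OS.zsmulm4, OS.zsmul6, OS.zsmulm6,
        OS.nsmul2, add_zero, zero_add]) m le_rfl
  have hz : u m + mapG J (t m) + (y + mapG Prod.swap y) ∈ F (EE Y) (m + 1) :=
    (F _ _).add_mem ((F _ _).add_mem (hu m (by omega)) (hs m le_rfl))
      ((F _ _).add_mem hy (swap_mem hy))
  obtain ⟨μ, e', he', hde'⟩ := Gen_EE hY he _ hz hyd
  obtain ⟨b1, hb1, hdb1⟩ := swap_sphere he
  obtain ⟨b2, hb2, hdb2⟩ := antipodal_sphere he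
  rw [hJ] at hdb2
  have hTG : mapG (fun x => (e x, e 0)) (Sph (m + 1)) =
      mapG Prod.swap (mapG (fun x => (e 0, e x)) (Sph (m + 1))) := by
    rw [mapG_mapG]
    rfl
  rw [hTG] at hdb1
  generalize hG : mapG (fun x => (e 0, e x)) (Sph (m + 1)) = G at hde' hdb1 hdb2
  refine NB_EE hY he (b2 + (e' + mapG Prod.swap e') + scG μ b1 + u (m + 1)) ?_ ?_
  · exact (F _ _).add_mem ((F _ _).add_mem ((F _ _).add_mem hb2
      ((F _ _).add_mem he' (swap_mem he'))) (cf_scG_mem μ hb1)) (hu _ le_rfl)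
  · rw [hG]
    simp only [map_add]
    rw [hdb2, hde', dG_mapG, hde', cf_dG_scG, hdb1, hus m (by omega)]
    simp only [map_add, swap_swap_G, cf_mapG_scG, hJT]
    have h1 : mapG J (Sph (m + 1)) = mapG J (t m) + mapG J (mapG (fun x => -x) (t m)) := by
      rw [← htS, map_add]
    rw [h1]
    rw [← sub_eq_zero]
    abel_nf
    try simp only [OS.zsmul2, OS.zsmulm2, OS.zsmul4, OS.zsmulm4, OS.zsmul6, OS.zsmulm6,
      OS.nsmul2, add_zero, zero_add]

end D

end OS
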