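import Mathlib
import Pool.Agent.Lib.MP_8fe54c_gt.CombMain
import Pool.Agent.Lib.MP_8fe54c_gt.TowerBound
import Pool.Agent.Lib.MP_8fe54c_gt.Coll
import Pool.Agent.Lib.MP_8fe54c_gt.GrpB
import Pool.Agent.Lib.MP_8fe54c_gt.SalHarm
import Pool.Agent.Lib.MP_8fe54c_gt.RealAc
import Pool.Agent.Lib.MP_8fe54c_gt.L2Red
import Pool.Agent.Lib.MP_8fe54c_gt.Cov
import Pool.Agent.Lib.MP_8fe54c_gt.Deck

/-!
# Okun-Schreve's question for groups commensurable with right-angled Artin groups: assembly
-/

namespace OS

open Finsupp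

/-- Theorem 1 (dimension bound) -/
theorem dim_bound {V : Type*} [Fintype V] [DecidableEq V] (G : SimpleGraph V) (j : ℕ)
    (hT : HasTower G (2 * j + 1)) {Γ : Type*} [Group Γ] (a : V → Γ)
    (hcomm : ∀ u v, G.Adj u v → Commute (a u) (a v)) (N : V → ℤ) (hN : ∀ v, 1 ≤ N v)
    (ab : Γ →* Multiplicative (V → ℤ))
    (hab : ∀ v, ab (a v) = Multiplicative.ofAdd (Pi.single v (N v)))
    {m : ℕ} {Y : Type*} [TopologicalSpace Y] [T2Space Y] [ContractibleSpace Y] (hY : LocHalf m Y)
    [MulAction Γ Y] [ContinuousConstSMul Γ Y] [ProperlyDiscontinuousSMul Γ Y] :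
    2 * j + 2 ≤ m + 1 := by
  by_contra hlt
  push Not at hlt
  obtain ⟨Yp, _, _, _, ι, hYp, hι, hinj⟩ := collar hY
  obtain ⟨u, h1, h2, h3⟩ := push_tower' G (2 * j + 1) hT a hcomm N hN ab hab (Y := Y)
  refine tower_bound hYp (Nat.succ_pos m) ⟨fun i => mapG (Prod.map ι ι) (u i), ?_, ?_, ?_⟩
  · intro i hi
    refine mapG_mem (isOpen_EE) (by fun_prop) ?_ (h1 i (by omega))
    intro q hq h
    exact hq (hinj h)
  · rw [dG_mapG, h2, mapG_cst]
    simp
  · intro i hi
    rw [dG_mapG, h3 i (by omega), map_add, mapG_mapG, mapG_mapG]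
    rfl

/-- the abelianisation of a right-angled Artin group -/
theorem exists_abel {V : Type*} [DecidableEq V] (G : SimpleGraph V) :
    ∃ ab : RAAG G →* Multiplicative (V → ℤ),
      ∀ v, ab (ra v) = Multiplicative.ofAdd (Pi.single v 1) :=
  ⟨raLift (fun v => Multiplicative.ofAdd (Pi.single v 1)) (fun _ _ _ => Commute.all _ _),
    fun v => raLift_ra _ _ v⟩

/-- the main theorem -/
theorem okun_schreve {n : ℕ} [NeZero n] {M : Type*} [TopologicalSpace M] [T2Space M]
    [ConnectedSpace M] [ChartedSpace (EuclideanHalfSpace n) M]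
    {Y : Type*} [TopologicalSpace Y] [ContractibleSpace Y] {p : Y → M} (hp : IsCoveringMap p)
    (x : M) {V : Type*} [Finite V] (G : SimpleGraph V) (H : Subgroup (FundamentalGroup M x))
    [H.FiniteIndex] (K : Subgroup (RAAG G)) [K.FiniteIndex] (e : H ≃* K)
    (C : FreeRes (FundamentalGroup M x)) {k : ℕ}
    (hk : n < 2 * k) : C.HarmZero ℂ k := by
  classical
  have hfin : Fintype V := Fintype.ofFinite V
  let hlin : LinearOrder V := IsWellOrder.linearOrder (WellOrderingRel (α := V))
  obtain ⟨j, rfl⟩ : ∃ j, k = j + 1 := ⟨k - 1, by omega⟩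
  obtain ⟨m, rfl⟩ : ∃ m, n = m + 1 := ⟨n - 1, by have := NeZero.pos n; omega⟩
  -- the inclusions of the common subgroup
  let φ : K →* FundamentalGroup M x := H.subtype.comp e.symm.toMonoidHom
  have hφ : Function.Injective φ := H.subtype_injective.comp e.symm.injective
  have hrange : φ.range = H := by
    ext g
    constructor
    · rintro ⟨a, rfl⟩
      exact (e.symm a).2
    · intro hg
      exact ⟨e ⟨g, hg⟩, by simp [φ]⟩
  have hfi : φ.range.FiniteIndex := by rw [hrange]; infer_instance
  have hfi' : K.subtype.range.FiniteIndex := by rw [Subgroup.range_subtype]; infer_instance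
  suffices hS : (salRes G).HarmZero ℝ (j + 1) by
    refine C.harmZero_complex (j + 1) ?_
    rw [← C.comap_harmZero φ hφ (j + 1)]
    rw [← (salRes G).comap_harmZero K.subtype K.subtype_injective (j + 1)] at hS
    exact (FreeRes.harmZero_iff _ (C.comap φ hφ) (j + 1)).mp hS
  by_cases hG : HasClass G j
  · exfalso
    -- the dimension bound
    have : T2Space Y := covering_t2 hp
    obtain ⟨Γ, _, _, hq⟩ := exists_deck (n := m + 1) hp
    have : ContinuousConstSMul Γ Y := hq.toContinuousConstSMul
    have : ProperlyDiscontinuousSMul Γ Y := covering_properly hq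
    have : SimplyConnectedSpace Y := inferInstance
    obtain ⟨y, hy⟩ := hq.surjective x
    let E : FundamentalGroup M x ≃* Γ :=
      (hq.fundamentalGroupEquiv ⟨y, hy⟩).trans (MulEquiv.inv' Γ).symm
    let ψ : K →* Γ := E.toMonoidHom.comp φ
    have hψ : Function.Injective ψ := E.injective.comp hφ
    let act : MulAction K Y := MulAction.compHom Y ψ
    have hsm : ∀ (g : K) (y : Y), g • y = ψ g • y := fun _ _ => rfl
    have h1 : ContinuousConstSMul K Y := ⟨fun g => by
      simp only [hsm]
      exact continuous_const_smul (ψ g)⟩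
    have h2 : ProperlyDiscontinuousSMul K Y := ⟨fun {A B} hA hB => by
      have h3 := ProperlyDiscontinuousSMul.finite_disjoint_inter_image (Γ := Γ) hA hB
      exact Set.Finite.preimage (f := ψ) hψ.injOn h3⟩
    obtain ⟨ab, hab⟩ := exists_abel G
    have hpow : ∀ v : V, ∃ n : ℕ, 0 < n ∧ (ra v : RAAG G) ^ n ∈ K := fun v => by
      obtain ⟨n, h3, _, h4⟩ := K.exists_pow_mem_of_index_ne_zero
        Subgroup.FiniteIndex.index_ne_zero (ra v)
      exact ⟨n, h3, h4⟩
    choose N hN0 hNK using hpow
    have h4 := dim_bound G j (hasTower_of_hasClass G j hG) (Γ := K)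
      (fun v => ⟨(ra v) ^ N v, hNK v⟩)
      (fun u v h => by
        have h5 : Commute ((ra u : RAAG G) ^ N u) ((ra v) ^ N v) := (ra_comm h).pow_pow _ _
        exact Subtype.ext h5.eq)
      (fun v => (N v : ℤ)) (fun v => by have := hN0 v; omega) (ab.comp K.subtype)
      (fun v => by
        show ab ((ra v) ^ N v) = _
        rw [map_pow, hab, ← ofAdd_nsmul]
        congr 1
        ext w
        by_cases h : w = v
        · subst h; simp
        · simp [h]) (covering_locHalf (m := m) hp)
    omega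
  · refine salRes_harmZero ?_
    exact fun z hz hc => real_acyclic j hG z hz hc

end OS
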