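import Mathlib
import Pool.Agent.Lib.MP_8fe54c_gt.ArtDiag
import Pool.Agent.Lib.MP_8fe54c_gt.ArtNest
import Pool.Agent.Lib.MP_8fe54c_gt.Final

/-!
# Dimension bound for actions of finite index subgroups of Artin groups
-/

namespace OS

variable {B : Type*} (M : CoxeterMatrix B)

/-- dimension bound for actions of finite index subgroups of Artin groups -/
theorem artin_dim_bound [Fintype B] [DecidableEq B] {j : ℕ} (h : HasClassC (Spher M) j)
    (K : Subgroup (Artin M)) [K.FiniteIndex] {m : ℕ} {Y : Type*} [TopologicalSpace Y] [T2Space Y]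
    [ContractibleSpace Y] (hY : LocHalf m Y) [MulAction K Y] [ContinuousConstSMul K Y]
    [ProperlyDiscontinuousSMul K Y] : 2 * j + 2 ≤ m + 1 := by
  classical
  have hfin : Fintype (IS M) := Fintype.ofFinite (IS M)
  let hlin : LinearOrder (IS M) := IsWellOrder.linearOrder (WellOrderingRel (α := IS M))
  obtain ⟨hdec, hdec'⟩ : ∃ d : DecidableEq (IS M), d = fun a b => hlin.toDecidableEq a b :=
    ⟨_, rfl⟩
  have hTow : @HasTower (IS M) hdec (nestG M) (2 * j + 1) := by
    subst hdec'
    exact hasTower_of_hasClass (nestG M) j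
      (@hasClass_nest B M _ _ hfin (fun a b => hlin.toDecidableEq a b) j h)
  obtain ⟨ab, z, hz, hcomm⟩ := @exists_diag B M _ hdec
  -- the kernel of the map to the Coxeter group, restricted to `K`
  let Γ : Subgroup K := ((qA M.toCoxeterSystem).comp K.subtype).ker
  let r : Γ →* (qA M.toCoxeterSystem).ker :=
    (K.subtype.comp Γ.subtype).codRestrict _ (fun g => by
      have h1 : ((qA M.toCoxeterSystem).comp K.subtype) (g : K) = 1 := g.2
      rw [MonoidHom.mem_ker]
      exact h1)
  have hsm : ∀ (g : Γ) (y : Y), g • y = (g : K) • y := fun _ _ => rfl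
  have h1 : ContinuousConstSMul Γ Y := ⟨fun g => by
    simp only [hsm]
    exact continuous_const_smul (g : K)⟩
  have h2 : ProperlyDiscontinuousSMul Γ Y := ⟨fun {A B} hA hB => by
    have h3 := ProperlyDiscontinuousSMul.finite_disjoint_inter_image (Γ := K) hA hB
    exact Set.Finite.preimage (f := (Subtype.val : Γ → K)) Subtype.val_injective.injOn h3⟩
  have hpow : ∀ T : IS M, ∃ n : ℕ, 0 < n ∧ ((z T : Artin M)) ^ n ∈ K := fun T => by
    obtain ⟨n, h3, _, h4⟩ := K.exists_pow_mem_of_index_ne_zero
      Subgroup.FiniteIndex.index_ne_zero (z T : Artin M)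
    exact ⟨n, h3, h4⟩
  choose N hN0 hNK using hpow
  have hker : ∀ T : IS M, (⟨((z T : Artin M)) ^ N T, hNK T⟩ : K) ∈ Γ := fun T => by
    show (qA M.toCoxeterSystem) (((z T : Artin M)) ^ N T) = 1
    rw [map_pow, (MonoidHom.mem_ker).1 (z T).2, one_pow]
  have hr : ∀ T : IS M, r ⟨⟨((z T : Artin M)) ^ N T, hNK T⟩, hker T⟩ = (z T) ^ N T := fun T =>
    Subtype.ext (by simp [r])
  exact @dim_bound (IS M) hfin hdec (nestG M) j hTow Γ _
    (fun T => ⟨⟨((z T : Artin M)) ^ N T, hNK T⟩, hker T⟩)
    (fun T T' hTT => by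
      have h4 : Commute (z T : Artin M) (z T' : Artin M) :=
        congrArg Subtype.val (hcomm T T' hTT).eq
      have h5 : Commute ((z T : Artin M) ^ N T) ((z T' : Artin M) ^ N T') := h4.pow_pow _ _
      exact Subtype.ext (Subtype.ext h5.eq))
    (fun T => 2 * (N T : ℤ)) (fun T => by have := hN0 T; omega) (ab.comp r)
    (fun T => by
      rw [MonoidHom.comp_apply, hr, map_pow, hz, ← ofAdd_nsmul]
      congr 1
      ext w
      by_cases hw : w = T
      · subst hw
        simp [mul_comm]
      · simp [hw]) m Y _ _ _ hY _ h1 h2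

end OS
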