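import Mathlib

/-!
# Graph products and flag systems (definitions used in the statement)
-/

namespace OS

namespace GP

universe u v w

section gp

variable {V : Type v} (L : SimpleGraph V) (G : V → Type w) [∀ v, Group (G v)]

/-- the relators of the graph product -/
def gpRels : Set (Monoid.CoprodI G) :=
  {x | ∃ u v, L.Adj u v ∧ ∃ (a : G u) (b : G v),
    x = Monoid.CoprodI.of a * Monoid.CoprodI.of b * (Monoid.CoprodI.of a)⁻¹ *
      (Monoid.CoprodI.of b)⁻¹}

/-- The graph product of the groups `G v` over the graph `L`: the free product, with the relations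
that the elements of `G u` and `G v` commute whenever `u` and `v` are adjacent. -/
def GraphProd : Type (max v w) := Monoid.CoprodI G ⧸ Subgroup.normalClosure (gpRels L G)

instance : Group (GraphProd L G) :=
  inferInstanceAs (Group (Monoid.CoprodI G ⧸ Subgroup.normalClosure (gpRels L G)))

end gp

section cls

variable {V : Type*} [Fintype V] [DecidableEq V]

/-- nonvanishing of the reduced mod 2 homology of the simplicial complex `K` (a family of finite
sets closed under subsets) at the sets with `m` elements (degree `m - 1`): a cycle `Z` (a set of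
simplices with `m` vertices) and a cocycle `φ` with `φ(Z) = 1`. -/
def HasClsC (K : Finset V → Prop) (m : ℕ) : Prop :=
  ∃ (Z : Finset (Finset V)) (φ : Finset V → ZMod 2),
    (∀ σ ∈ Z, K σ ∧ σ.card = m) ∧
    (∀ ρ : Finset V, ρ.card + 1 = m →
      Even (Finset.univ.filter (fun v => v ∉ ρ ∧ insert v ρ ∈ Z)).card) ∧
    (∀ τ : Finset V, K τ → τ.card = m + 1 → ∑ v ∈ τ, φ (τ.erase v) = 0) ∧
    ∑ σ ∈ Z, φ σ = 1

/-- the clique complex of a graph -/
def cliq {V : Type*} (L : SimpleGraph V) (σ : Finset V) : Prop := L.IsClique (σ : Set V)

/-- A flag system of degree `k` in a group: elements of infinite order indexed by the vertices of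
a finite graph whose clique complex has nonzero mod 2 homology on the cliques with `k` vertices,
commuting along the edges, such that the subgroups generated by disjoint cliques meet trivially -/
def Flag (G : Type*) [Group G] (k : ℕ) : Prop :=
  ∃ (m : ℕ) (K : SimpleGraph (Fin m)) (a : Fin m → G), HasClsC (cliq K) k ∧
    (∀ i j, K.Adj i j → Commute (a i) (a j)) ∧ (∀ (i) (n : ℤ), a i ^ n = 1 → n = 0) ∧
    ∀ s t : Finset (Fin m), K.IsClique (s : Set (Fin m)) → K.IsClique (t : Set (Fin m)) →
      Disjoint s t → Subgroup.closure (a '' s) ⊓ Subgroup.closure (a '' t) = ⊥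

end cls

end GP

end OS
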