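import Mathlib
import Pool.Agent.Lib.MP_8fe54c_gt.GPBase
import Pool.Agent.Lib.MP_8fe54c_gt.FreeRes
import Pool.Agent.Lib.MP_8fe54c_gt.L2Cmp
import Pool.Agent.Lib.MP_8fe54c_gt.SalCore
import Pool.Agent.Lib.MP_8fe54c_gt.CombDefs

/-!
# Graph products, definitions

* `HV φ R M k`: the homology in degree `k` of the free resolution `R` of the group `H` with
  coefficients in the `Γ`-module `M`, restricted along `φ : H →* Γ`, is zero;
* `TW E M`: finitely supported functions on the `Γ`-set `E` with values in the `Γ`-module `M`,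
  with the diagonal action;
* `RAc K q`: real exactness of the simplicial chain complex of the family `K` of finite sets, at
  the sets with `q` elements;
* `CSys`, `CC`, `cd`, `DExact`: the cubical complex of a system of sets (cosets of a family of
  subgroups);
* `GraphProd L G`: the graph product;
* `HasClsC K m`: the simplicial complex `K` has a nonzero mod 2 homology class on the simplices
  with `m` elements;
* `Flag G k`: commuting elements of infinite order indexed by the vertices of a flag complex with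
  such a class (the groups generated by disjoint simplices meeting trivially).
-/

namespace OS

namespace GP

open Finsupp

universe u v w

section hv

variable {H : Type*} [Group H] {Γ : Type*} [Group Γ] (φ : H →* Γ) (R : FreeRes H)
  (M : Type*) [AddCommGroup M] [DistribMulAction Γ M]

/-- equivariant functions on the cells -/
def IsEq (k : ℕ) (f : R.X k → M) : Prop := ∀ (h : H) (x : R.X k), f (h • x) = φ h • f x

/-- the boundary of an equivariant function -/
noncomputable def bdM {M : Type*} [AddCommGroup M] (k : ℕ) (f : R.X (k + 1) → M) : R.X k → M :=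
  fun y => ∑ᶠ x : R.X (k + 1), R.coef k x y • f x

/-- cycles -/
def CycM {M : Type*} [AddCommGroup M] : (k : ℕ) → (R.X k → M) → Prop
  | 0, _ => True
  | k + 1, f => bdM R k f = 0

/-- the homology in degree `k` with coefficients in `M` is zero -/
def HV (k : ℕ) : Prop :=
  ∀ f : R.X k → M, IsEq φ R M k f → CycM R k f → ∃ f' : R.X (k + 1) → M,
    IsEq φ R M (k + 1) f' ∧ bdM R k f' = f

end hv

section tw

/-- finitely supported functions on a `Γ`-set with values in a `Γ`-module -/
def TW (E : Type*) (M : Type*) [Zero M] : Type _ := E →₀ M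

variable {E : Type*} {M : Type*} {Γ : Type*} [Group Γ]

noncomputable instance [AddCommGroup M] : AddCommGroup (TW E M) :=
  inferInstanceAs (AddCommGroup (E →₀ M))

noncomputable instance [AddCommGroup M] [Module ℝ M] : Module ℝ (TW E M) :=
  inferInstanceAs (Module ℝ (E →₀ M))

/-- the diagonal action -/
noncomputable def twAct [AddCommGroup M] [MulAction Γ E] [DistribMulAction Γ M] (g : Γ) :
    (E →₀ M) →+ (E →₀ M) :=
  (Finsupp.mapDomain.addMonoidHom (fun e : E => g • e)).comp
    (Finsupp.mapRange.addMonoidHom (DistribSMul.toAddMonoidHom M g))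

theorem twAct_apply [AddCommGroup M] [MulAction Γ E] [DistribMulAction Γ M] (g : Γ)
    (f : E →₀ M) (e : E) : twAct g f e = g • f (g⁻¹ • e) := by
  unfold twAct
  rw [AddMonoidHom.comp_apply]
  have h : e = g • (g⁻¹ • e) := (smul_inv_smul g e).symm
  conv_lhs => rw [h]
  change (Finsupp.mapDomain (fun e : E => g • e) _) (g • (g⁻¹ • e)) = _
  rw [Finsupp.mapDomain_apply (MulAction.injective g)]
  rfl

noncomputable instance [AddCommGroup M] [MulAction Γ E] [DistribMulAction Γ M] :
    DistribMulAction Γ (TW E M) where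
  smul g f := twAct g f
  one_smul f := by
    refine Finsupp.ext fun e => ?_
    change twAct (1 : Γ) f e = _
    rw [twAct_apply, inv_one, one_smul, one_smul]
  mul_smul g h f := by
    refine Finsupp.ext fun e => ?_
    change twAct (g * h) f e = twAct g (twAct h f) e
    rw [twAct_apply, twAct_apply, twAct_apply, mul_inv_rev, mul_smul, mul_smul]
  smul_zero g := map_zero (twAct g)
  smul_add g f f' := map_add (twAct g) f f'

theorem tw_smul_apply [AddCommGroup M] [MulAction Γ E] [DistribMulAction Γ M] (g : Γ)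
    (f : TW E M) (e : E) : (show E →₀ M from g • f) e = g • (show E →₀ M from f) (g⁻¹ • e) :=
  twAct_apply g f e

instance [AddCommGroup M] [Module ℝ M] [MulAction Γ E] [DistribMulAction Γ M]
    [SMulCommClass Γ ℝ M] : SMulCommClass Γ ℝ (TW E M) where
  smul_comm g r f := by
    refine Finsupp.ext fun e => ?_
    change twAct g (r • (show E →₀ M from f)) e = (r • twAct g (show E →₀ M from f)) e
    rw [Finsupp.smul_apply, twAct_apply, twAct_apply, Finsupp.smul_apply, smul_comm]

end tw

section rac

variable {V : Type*} [Fintype V] [LinearOrder V]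

/-- real exactness of the chain complex of the family `K` at the sets with `q` elements -/
def RAc (K : Finset V → Prop) (q : ℕ) : Prop :=
  ∀ z : Finset V → ℝ, (∀ s : Finset V, ¬ (K s ∧ s.card = q) → z s = 0) →
    (∀ s : Finset V, ∑ v ∈ sᶜ, (sgnV (insert v s) v : ℝ) * z (insert v s) = 0) →
    ∃ y : Finset V → ℝ, (∀ s : Finset V, ¬ (K s ∧ s.card = q + 1) → y s = 0) ∧
      ∀ s : Finset V, ∑ v ∈ sᶜ, (sgnV (insert v s) v : ℝ) * y (insert v s) = z s

/-- the link of `σ` -/
def lk (Lc : Finset V → Prop) (σ ρ : Finset V) : Prop := Disjoint σ ρ ∧ Lc (σ ∪ ρ)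

end rac

section cos

/-- A system of sets indexed by the finite sets of vertices, with compatible maps.  In the main
examples `Q σ` is the set of cosets of a subgroup `Gs σ`. -/
structure CSys (V : Type v) where
  /-- the sets -/
  Q : Finset V → Type w
  /-- the maps -/
  pr : ∀ {σ τ : Finset V}, σ ⊆ τ → Q σ → Q τ
  pr_id : ∀ {σ : Finset V} (h : σ ⊆ σ) (x : Q σ), pr h x = x
  pr_comp : ∀ {σ τ υ : Finset V} (h : σ ⊆ τ) (h' : τ ⊆ υ) (x : Q σ),
    pr h' (pr h x) = pr (h.trans h') x

/-- the cosets of a monotone family of subgroups -/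
def cosSys {V : Type v} {Γ : Type w} [Group Γ] (Gs : Finset V → Subgroup Γ) (hm : Monotone Gs) :
    CSys.{v, w} V where
  Q σ := Γ ⧸ Gs σ
  pr h := Subgroup.quotientMapOfLE (hm h)
  pr_id h x := by
    induction x using QuotientGroup.induction_on with
    | H g => rfl
  pr_comp h h' x := by
    induction x using QuotientGroup.induction_on with
    | H g => rfl

instance {V : Type v} {Γ : Type w} [Group Γ] (Gs : Finset V → Subgroup Γ) (hm : Monotone Gs)
    (σ : Finset V) : MulAction Γ ((cosSys Gs hm).Q σ) :=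
  inferInstanceAs (MulAction Γ (Γ ⧸ Gs σ))

theorem cosSys_pr_smul {V : Type v} {Γ : Type w} [Group Γ] (Gs : Finset V → Subgroup Γ)
    (hm : Monotone Gs) (g : Γ) {σ τ : Finset V} (h : σ ⊆ τ) (x : (cosSys Gs hm).Q σ) :
    (cosSys Gs hm).pr h (g • x) = g • (cosSys Gs hm).pr h x := by
  change Γ ⧸ Gs σ at x
  induction x using QuotientGroup.induction_on with
  | H g => rfl

variable {V : Type v}

/-- cubical chains: the component `x σ τ` is a combination of the cubes `(q, σ ⊆ τ)`, `q ∈ Q σ`,
of dimension `|τ \ σ|` -/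
def CC (S : CSys.{v, w} V) (A : Type*) [Zero A] : Type _ :=
  ∀ σ _τ : Finset V, S.Q σ →₀ A

noncomputable instance (S : CSys.{v, w} V) (A : Type*) [AddCommGroup A] : AddCommGroup (CC S A) :=
  inferInstanceAs (AddCommGroup (∀ σ _τ : Finset V, S.Q σ →₀ A))

/-- the projection -/
noncomputable def qm (S : CSys.{v, w} V) {A : Type*} [AddCommGroup A] {σ τ : Finset V}
    (h : σ ⊆ τ) : (S.Q σ →₀ A) →+ (S.Q τ →₀ A) :=
  Finsupp.mapDomain.addMonoidHom (S.pr h)

variable [Fintype V] [LinearOrder V]

/-- the cubical boundary -/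
noncomputable def cd (S : CSys.{v, w} V) {A : Type*} [AddCommGroup A] (x : CC S A) : CC S A :=
  fun σ τ =>
  if σ ⊆ τ then
    (∑ v ∈ τᶜ, sgnV (insert v τ \ σ) v • x σ (insert v τ)) -
      ∑ v ∈ σ, sgnV (insert v (τ \ σ)) v • qm S (Finset.erase_subset v σ) (x (σ.erase v) τ)
  else 0

/-- the chains of dimension `q` with `τ` in the family `Lc` -/
def CSup (Lc : Finset V → Prop) {S : CSys.{v, w} V} {A : Type*} [AddCommGroup A] (q : ℕ)
    (x : CC S A) : Prop :=
  ∀ σ τ : Finset V, ¬ (σ ⊆ τ ∧ Lc τ ∧ (τ \ σ).card = q) → x σ τ = 0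

/-- exactness of the augmented cubical complex with coefficients in the abelian group `A` -/
def DExact (S : CSys.{v, w} V) (Lc : Finset V → Prop) (A : Type*) [AddCommGroup A] : Prop :=
  (∀ (q : ℕ) (x : CC S A), CSup Lc (q + 1) x → cd S x = 0 →
      ∃ y : CC S A, CSup Lc (q + 2) y ∧ cd S y = x) ∧
    ∀ x : CC S A, CSup Lc 0 x → (∑ σ : Finset V, (x σ σ).sum fun _ a => a) = 0 →
      ∃ y : CC S A, CSup Lc 1 y ∧ cd S y = x

/-- exactness of `0 → A[X₀] → A[X₁] ⊕ A[X₂] → A[X]`: the Bass-Serre tree of an amalgam, in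
algebraic form -/
def TreeEx (A : Type*) [AddCommGroup A] {X₀ X₁ X₂ X : Type*} (p₁ : X₀ → X₁) (p₂ : X₀ → X₂)
    (q₁ : X₁ → X) (q₂ : X₂ → X) : Prop :=
  (∀ x : X₀ →₀ A, Finsupp.mapDomain p₁ x = 0 → Finsupp.mapDomain p₂ x = 0 → x = 0) ∧
    ∀ (a : X₁ →₀ A) (b : X₂ →₀ A), Finsupp.mapDomain q₁ a = Finsupp.mapDomain q₂ b →
      ∃ x : X₀ →₀ A, Finsupp.mapDomain p₁ x = a ∧ Finsupp.mapDomain p₂ x = b

end cos

section gp

variable {V : Type v} (L : SimpleGraph V) (G : V → Type w) [∀ v, Group (G v)]

/-- the inclusion of a vertex group -/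
def gof {L : SimpleGraph V} {G : V → Type w} [∀ v, Group (G v)] (v : V) : G v →* GraphProd L G :=
  (QuotientGroup.mk' (Subgroup.normalClosure (gpRels L G))).comp Monoid.CoprodI.of

/-- the subgroup generated by the vertex groups of a set of vertices -/
def sgp (L : SimpleGraph V) (G : V → Type w) [∀ v, Group (G v)] (S : Set V) :
    Subgroup (GraphProd L G) := ⨆ v : S, (gof (L := L) (G := G) v.1).range

theorem sgp_mono : Monotone fun σ : Finset V => sgp L G (σ : Set V) := by
  intro σ τ h
  refine iSup_le fun v => ?_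
  exact le_iSup (fun v : (τ : Set V) => (gof (L := L) (G := G) v.1).range) ⟨v.1, h v.2⟩

end gp

end GP

end OS
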