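import Mathlib
import Pool.Agent.Lib.MP_8fe54c_gt.GPDefs
import Pool.Agent.Lib.MP_8fe54c_gt.RankTwo

/-!
# Exactness of cubical coset complexes by induction (amalgams)
-/

namespace OS

open Finsupp

namespace GP

universe v w

theorem AR15a_sgn_sq {V : Type*} [LinearOrder V] (σ : Finset V) (v : V) :
    sgnV σ v * sgnV σ v = 1 := by
  unfold sgnV
  rw [← mul_pow]
  norm_num

section cells

variable {V : Type v} [LinearOrder V] (D : CSys.{v, w} V) {A : Type*} [AddCommGroup A]

/-- the cells `(σ, τ, x)` -/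
abbrev AR15a_Cel := Σ σ : Finset V, Finset V × D.Q σ

/-- the boundary of a cell, with coefficient `a` -/
noncomputable def AR15a_dcel (c : AR15a_Cel D) (a : A) : AR15a_Cel D →₀ A :=
  ∑ v ∈ c.2.1 \ c.1, sgnV (c.2.1 \ c.1) v •
    (single ⟨c.1, (c.2.1.erase v, c.2.2)⟩ a -
      single ⟨insert v c.1, (c.2.1, D.pr (Finset.subset_insert v c.1) c.2.2)⟩ a)

/-- the boundary operator -/
noncomputable def AR15a_dC : (AR15a_Cel D →₀ A) →+ (AR15a_Cel D →₀ A) :=
  Finsupp.liftAddHom (fun c : AR15a_Cel D => AddMonoidHom.mk' (AR15a_dcel D c) (by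
    intro a b
    unfold AR15a_dcel
    rw [← Finset.sum_add_distrib]
    refine Finset.sum_congr rfl fun v _ => ?_
    rw [← smul_add]
    congr 1
    rw [Finsupp.single_add, Finsupp.single_add]
    abel))

/-- the cells of dimension `p` over the subsets of `T`, for the simplicial complex `K` -/
def AR15a_IsCel (K : Finset V → Prop) (T : Finset V) (p : ℕ) (c : AR15a_Cel D) : Prop :=
  c.1 ⊆ c.2.1 ∧ K c.2.1 ∧ c.2.1 ⊆ T ∧ (c.2.1 \ c.1).card = p

/-- the chains of dimension `p` over the subsets of `T` -/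
def AR15a_Chn (K : Finset V → Prop) (T : Finset V) (p : ℕ) (x : AR15a_Cel D →₀ A) : Prop :=
  ∀ c ∈ x.support, AR15a_IsCel D K T p c

open Classical in
/-- the augmentation to the chains of `Q T` -/
noncomputable def AR15a_eps (T : Finset V) : (AR15a_Cel D →₀ A) →+ (D.Q T →₀ A) :=
  Finsupp.liftAddHom (fun c : AR15a_Cel D =>
    (if h : c.1 ⊆ T then Finsupp.singleAddHom (D.pr h c.2.2) else 0))

/-- the cell `(σ', τ', f x)` -/
def AR15a_mk {σ : Finset V} (x : D.Q σ) (σ' τ' : Finset V) (h : σ ⊆ σ') : AR15a_Cel D :=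
  ⟨σ', (τ', D.pr h x)⟩

omit [LinearOrder V] in
theorem AR15a_mk_congr {σ : Finset V} (x : D.Q σ) {σ' σ'' τ' τ'' : Finset V} (h : σ ⊆ σ')
    (h' : σ ⊆ σ'') (e : σ' = σ'') (e' : τ' = τ'') :
    AR15a_mk D x σ' τ' h = AR15a_mk D x σ'' τ'' h' := by
  subst e e'
  rfl

theorem AR15a_dC_single (c : AR15a_Cel D) (a : A) :
    AR15a_dC D (single c a) = AR15a_dcel D c a := by
  unfold AR15a_dC
  rw [Finsupp.liftAddHom_apply_single]
  rfl

omit [LinearOrder V] in
theorem AR15a_cell_eq (σ τ : Finset V) (x : D.Q σ) :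
    (⟨σ, (τ, x)⟩ : AR15a_Cel D) = AR15a_mk D x σ τ (subset_refl σ) := by
  unfold AR15a_mk
  rw [D.pr_id]

theorem AR15a_dcel_mk (σ : Finset V) (x : D.Q σ) (σ' τ' : Finset V) (h : σ ⊆ σ') (a : A) :
    AR15a_dcel D (AR15a_mk D x σ' τ' h) a = ∑ v ∈ τ' \ σ', sgnV (τ' \ σ') v •
      (single (AR15a_mk D x σ' (τ'.erase v) h) a -
        single (AR15a_mk D x (insert v σ') τ' (h.trans (Finset.subset_insert v σ'))) a) := by
  unfold AR15a_dcel AR15a_mk
  refine Finset.sum_congr rfl fun v _ => ?_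
  simp only [D.pr_comp]

omit D in
theorem AR15a_sd1 (σ τ : Finset V) (v : V) : (τ.erase v) \ σ = (τ \ σ).erase v := by
  ext w
  simp only [Finset.mem_sdiff, Finset.mem_erase]
  tauto

omit D in
theorem AR15a_sd2 (σ τ : Finset V) (v : V) : τ \ (insert v σ) = (τ \ σ).erase v := by
  ext w
  simp only [Finset.mem_sdiff, Finset.mem_erase, Finset.mem_insert]
  tauto

theorem AR15a_dd_cell (c : AR15a_Cel D) (a : A) : AR15a_dC D (AR15a_dcel D c a) = 0 := by
  obtain ⟨σ, τ, x⟩ := c
  set d := τ \ σ with hd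
  let E : V → V → (AR15a_Cel D →₀ A) := fun v w =>
    single (AR15a_mk D x σ ((τ.erase v).erase w) (subset_refl σ)) a -
    single (AR15a_mk D x (insert w σ) (τ.erase v) (Finset.subset_insert w σ)) a -
    (single (AR15a_mk D x (insert v σ) (τ.erase w) (Finset.subset_insert v σ)) a -
    single (AR15a_mk D x (insert w (insert v σ)) τ
      ((Finset.subset_insert v σ).trans (Finset.subset_insert w _))) a)
  have hE : ∀ v w, E v w = E w v := by
    intro v w
    show _ - _ - (_ - _) = _ - _ - (_ - _)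
    rw [AR15a_mk_congr D x (subset_refl σ) (subset_refl σ) rfl (Finset.erase_right_comm (a := v)),
      AR15a_mk_congr D x ((Finset.subset_insert v σ).trans (Finset.subset_insert w _))
        ((Finset.subset_insert w σ).trans (Finset.subset_insert v _))
        (Finset.insert_comm w v σ) rfl]
    abel
  have h1 : AR15a_dC D (AR15a_dcel D ⟨σ, (τ, x)⟩ a) =
      ∑ v ∈ d, ∑ w ∈ d.erase v, (sgnV d v * sgnV (d.erase v) w) • E v w := by
    rw [AR15a_cell_eq, AR15a_dcel_mk, map_sum]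
    refine Finset.sum_congr rfl fun v _ => ?_
    rw [map_zsmul, map_sub, AR15a_dC_single, AR15a_dC_single,
      AR15a_dcel_mk, AR15a_dcel_mk, AR15a_sd1, AR15a_sd2, ← hd, ← Finset.sum_sub_distrib,
      Finset.smul_sum]
    refine Finset.sum_congr rfl fun w _ => ?_
    rw [← smul_sub, smul_smul]
  rw [h1, Finset.sum_sigma']
  refine Finset.sum_involution (fun p _ => ⟨p.2, p.1⟩) ?_ ?_ ?_ ?_
  · rintro ⟨v, w⟩ h
    simp only [Finset.mem_sigma, Finset.mem_erase] at h
    simp only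
    rw [hE w v, ← add_smul, sgnV_anti h.1 h.2.2 (fun e => h.2.1 e.symm), zero_smul]
  · rintro ⟨v, w⟩ h _ h2
    simp only [Finset.mem_sigma, Finset.mem_erase] at h
    simp only [Sigma.mk.injEq] at h2
    exact h.2.1 h2.1
  · rintro ⟨v, w⟩ h
    simp only [Finset.mem_sigma, Finset.mem_erase] at h ⊢
    exact ⟨h.2.2, fun h' => h.2.1 h'.symm, h.1⟩
  · rintro ⟨v, w⟩ h
    rfl

omit [LinearOrder V] in
/-- an additive map which vanishes on the cells of a chain vanishes on the chain -/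
theorem AR15a_ext {N : Type*} [AddCommGroup N] {F G : (AR15a_Cel D →₀ A) →+ N}
    {x : AR15a_Cel D →₀ A}
    (h : ∀ c ∈ x.support, ∀ a, F (single c a) = G (single c a)) : F x = G x := by
  rw [← Finsupp.sum_single x, Finsupp.sum, map_sum, map_sum]
  exact Finset.sum_congr rfl fun c hc => h c hc _

theorem AR15a_dd (x : AR15a_Cel D →₀ A) : AR15a_dC D (AR15a_dC D x) = 0 := by
  have := AR15a_ext D (F := (AR15a_dC D).comp (AR15a_dC D)) (G := 0) (x := x) (fun c _ a => by
    rw [AddMonoidHom.comp_apply, AR15a_dC_single, AR15a_dd_cell, AddMonoidHom.zero_apply])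
  exact this

omit [LinearOrder V] in
/-- an additive map maps chains to chains if it does so for cells -/
theorem AR15a_maps {x : AR15a_Cel D →₀ A} {F : (AR15a_Cel D →₀ A) →+ (AR15a_Cel D →₀ A)}
    (S : Set (AR15a_Cel D))
    (h : ∀ c ∈ x.support, ∀ a, F (single c a) ∈ Finsupp.supported A ℤ S) :
    F x ∈ Finsupp.supported A ℤ S := by
  rw [← Finsupp.sum_single x, Finsupp.sum, map_sum]
  exact Submodule.sum_mem _ fun c hc => h c hc _

theorem AR15a_Chn_iff (K : Finset V → Prop) (T : Finset V) (p : ℕ) (x : AR15a_Cel D →₀ A) :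
    AR15a_Chn D K T p x ↔ x ∈ Finsupp.supported A ℤ {c | AR15a_IsCel D K T p c} := by
  rw [Finsupp.mem_supported]
  rfl

theorem AR15a_dC_chn (K : Finset V → Prop) (hK : ∀ s t, s ⊆ t → K t → K s) (T : Finset V) (p : ℕ)
    (x : AR15a_Cel D →₀ A) (hx : AR15a_Chn D K T (p + 1) x) :
    AR15a_Chn D K T p (AR15a_dC D x) := by
  rw [AR15a_Chn_iff]
  refine AR15a_maps D _ fun c hc a => ?_
  obtain ⟨σ, τ, y⟩ := c
  obtain ⟨h1, h2, h3, h4⟩ := hx _ hc
  simp only at h1 h2 h3 h4
  rw [AR15a_dC_single D]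
  unfold AR15a_dcel
  refine Submodule.sum_mem _ fun v hv => Submodule.smul_mem _ _ (Submodule.sub_mem _ ?_ ?_)
  · refine Finsupp.single_mem_supported _ _ ⟨?_, hK _ _ (Finset.erase_subset v τ) h2,
      (Finset.erase_subset v τ).trans h3, ?_⟩
    · show σ ⊆ τ.erase v
      rw [Finset.mem_sdiff] at hv
      exact Finset.subset_erase.2 ⟨h1, hv.2⟩
    · show ((τ.erase v) \ σ).card = p
      rw [AR15a_sd1, Finset.card_erase_of_mem hv, h4]
      rfl
  · refine Finsupp.single_mem_supported _ _ ⟨?_, h2, h3, ?_⟩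
    · show insert v σ ⊆ τ
      rw [Finset.mem_sdiff] at hv
      exact Finset.insert_subset hv.1 h1
    · show (τ \ insert v σ).card = p
      rw [AR15a_sd2, Finset.card_erase_of_mem hv, h4]
      rfl

theorem AR15a_eps_single (T : Finset V) (σ τ : Finset V) (x : D.Q σ) (h : σ ⊆ T) (a : A) :
    AR15a_eps D T (single ⟨σ, (τ, x)⟩ a) = single (D.pr h x) a := by
  unfold AR15a_eps
  rw [Finsupp.liftAddHom_apply_single, dif_pos h]
  rfl

theorem AR15a_eps_dC (K : Finset V → Prop) (T : Finset V) (p : ℕ)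
    (x : AR15a_Cel D →₀ A) (hx : AR15a_Chn D K T p x) : AR15a_eps D T (AR15a_dC D x) = 0 := by
  have := AR15a_ext D (F := (AR15a_eps D T).comp (AR15a_dC D)) (G := 0) (x := x)
    (fun c hc a => by
      obtain ⟨σ, τ, y⟩ := c
      obtain ⟨h1, h2, h3, h4⟩ := hx _ hc
      simp only at h1 h2 h3 h4
      rw [AddMonoidHom.comp_apply, AR15a_dC_single D, AddMonoidHom.zero_apply]
      unfold AR15a_dcel
      rw [map_sum]
      refine Finset.sum_eq_zero fun v hv => ?_
      simp only at hv ⊢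
      rw [Finset.mem_sdiff] at hv
      have h5 : insert v σ ⊆ T := Finset.insert_subset (h3 hv.1) (h1.trans h3)
      rw [map_zsmul, map_sub, AR15a_eps_single D T σ _ y (h1.trans h3),
        AR15a_eps_single D T _ _ _ h5, D.pr_comp, sub_self, smul_zero])
  exact this

theorem AR15a_eps_nat (K : Finset V → Prop) {T' T : Finset V} (h : T' ⊆ T) (p : ℕ)
    (x : AR15a_Cel D →₀ A) (hx : AR15a_Chn D K T' p x) :
    mapDomain (D.pr h) (AR15a_eps D T' x) = AR15a_eps D T x := by
  have := AR15a_ext D (F := (Finsupp.mapDomain.addMonoidHom (D.pr h)).comp (AR15a_eps D T'))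
    (G := AR15a_eps D T) (x := x)
    (fun c hc a => by
      obtain ⟨σ, τ, y⟩ := c
      obtain ⟨h1, h2, h3, h4⟩ := hx _ hc
      simp only at h1 h2 h3 h4
      rw [AddMonoidHom.comp_apply, AR15a_eps_single D T' σ _ y (h1.trans h3),
        AR15a_eps_single D T σ _ y ((h1.trans h3).trans h)]
      show mapDomain (D.pr h) (single (D.pr _ y) a) = _
      rw [Finsupp.mapDomain_single, D.pr_comp])
  exact this

theorem AR15a_chn_mono (K : Finset V → Prop) {T' T : Finset V} (h : T' ⊆ T) (p : ℕ)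
    (x : AR15a_Cel D →₀ A) (hx : AR15a_Chn D K T' p x) : AR15a_Chn D K T p x := by
  intro c hc
  obtain ⟨h1, h2, h3, h4⟩ := hx c hc
  exact ⟨h1, h2, h3.trans h, h4⟩

theorem AR15a_chn_add (K : Finset V → Prop) (T : Finset V) (p : ℕ) {x y : AR15a_Cel D →₀ A}
    (hx : AR15a_Chn D K T p x) (hy : AR15a_Chn D K T p y) : AR15a_Chn D K T p (x + y) := by
  rw [AR15a_Chn_iff] at *
  exact Submodule.add_mem _ hx hy

theorem AR15a_chn_sub (K : Finset V → Prop) (T : Finset V) (p : ℕ) {x y : AR15a_Cel D →₀ A}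
    (hx : AR15a_Chn D K T p x) (hy : AR15a_Chn D K T p y) : AR15a_Chn D K T p (x - y) := by
  rw [AR15a_Chn_iff] at *
  exact Submodule.sub_mem _ hx hy

theorem AR15a_chn_neg (K : Finset V → Prop) (T : Finset V) (p : ℕ) {x : AR15a_Cel D →₀ A}
    (hx : AR15a_Chn D K T p x) : AR15a_Chn D K T p (-x) := by
  rw [AR15a_Chn_iff] at *
  exact Submodule.neg_mem _ hx

theorem AR15a_chn_zero (K : Finset V → Prop) (T : Finset V) (p : ℕ) :
    AR15a_Chn D K T p (0 : AR15a_Cel D →₀ A) := by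
  rw [AR15a_Chn_iff]
  exact Submodule.zero_mem _

/-- the homotopy in the direction `v` -/
noncomputable def AR15a_H (v : V) : (AR15a_Cel D →₀ A) →+ (AR15a_Cel D →₀ A) :=
  Finsupp.liftAddHom (fun c : AR15a_Cel D =>
    (if v ∈ c.2.1 then 0 else
      sgnV (insert v c.2.1 \ c.1) v • Finsupp.singleAddHom ⟨c.1, (insert v c.2.1, c.2.2)⟩))

/-- the projection in the direction `v` -/
noncomputable def AR15a_P (v : V) : (AR15a_Cel D →₀ A) →+ (AR15a_Cel D →₀ A) :=
  Finsupp.liftAddHom (fun c : AR15a_Cel D =>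
    (if v ∈ c.1 then Finsupp.singleAddHom c else if v ∈ c.2.1 then 0 else
      Finsupp.singleAddHom
        ⟨insert v c.1, (insert v c.2.1, D.pr (Finset.subset_insert v c.1) c.2.2)⟩))

theorem AR15a_H_single (v : V) (c : AR15a_Cel D) (a : A) : AR15a_H D v (single c a) =
    if v ∈ c.2.1 then 0 else
      sgnV (insert v c.2.1 \ c.1) v • single ⟨c.1, (insert v c.2.1, c.2.2)⟩ a := by
  unfold AR15a_H
  rw [Finsupp.liftAddHom_apply_single]
  split_ifs <;> rfl

theorem AR15a_P_single (v : V) (c : AR15a_Cel D) (a : A) : AR15a_P D v (single c a) =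
    if v ∈ c.1 then single c a else if v ∈ c.2.1 then 0 else
      single ⟨insert v c.1, (insert v c.2.1, D.pr (Finset.subset_insert v c.1) c.2.2)⟩ a := by
  unfold AR15a_P
  rw [Finsupp.liftAddHom_apply_single]
  split_ifs <;> rfl

theorem AR15a_H_mk (v : V) {σ : Finset V} (x : D.Q σ) (σ' τ' : Finset V) (h : σ ⊆ σ') (a : A) :
    AR15a_H D v (single (AR15a_mk D x σ' τ' h) a) =
    if v ∈ τ' then 0 else
      sgnV (insert v τ' \ σ') v • single (AR15a_mk D x σ' (insert v τ') h) a :=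
  AR15a_H_single D v _ a

theorem AR15a_P_mk (v : V) {σ : Finset V} (x : D.Q σ) (σ' τ' : Finset V) (h : σ ⊆ σ') (a : A) :
    AR15a_P D v (single (AR15a_mk D x σ' τ' h) a) =
    if v ∈ σ' then single (AR15a_mk D x σ' τ' h) a else if v ∈ τ' then 0 else
      single (AR15a_mk D x (insert v σ') (insert v τ') (h.trans (Finset.subset_insert v σ'))) a := by
  rw [AR15a_P_single D]
  unfold AR15a_mk
  simp only [D.pr_comp]

omit D in
theorem AR15a_sgn_koszul {e : Finset V} {v w : V} (hv : v ∈ e) (hw : w ∈ e) (h : v ≠ w) :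
    sgnV e v * sgnV e w + sgnV (e.erase v) w * sgnV (e.erase w) v = 0 := by
  have h1 := sgnV_anti hv hw h
  have h2 := AR15a_sgn_sq (e.erase v) w
  have h3 := AR15a_sgn_sq e w
  have h4 : sgnV e v * sgnV e w + sgnV (e.erase v) w * sgnV (e.erase w) v =
      (sgnV e v * sgnV (e.erase v) w + sgnV e w * sgnV (e.erase w) v) *
        (sgnV (e.erase v) w * sgnV e w) := by
    linear_combination (-(sgnV e v * sgnV e w)) * h2 - (sgnV (e.erase v) w * sgnV (e.erase w) v) * h3
  rw [h4, h1, zero_mul]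

/-- the homotopy formula -/
theorem AR15a_hom_cell (v : V) (σ τ : Finset V) (x : D.Q σ) (h : σ ⊆ τ) (a : A) :
    AR15a_dC D (AR15a_H D v (single ⟨σ, (τ, x)⟩ a)) + AR15a_H D v (AR15a_dC D (single ⟨σ, (τ, x)⟩ a)) =
      single ⟨σ, (τ, x)⟩ a - AR15a_P D v (single ⟨σ, (τ, x)⟩ a) := by
  rw [AR15a_cell_eq D, AR15a_dC_single D, AR15a_dcel_mk D, AR15a_H_mk D, AR15a_P_mk D,
    map_sum]
  by_cases h1 : v ∈ σ
  · have h2 : v ∈ τ := h h1
    rw [if_pos h2, if_pos h1, map_zero, sub_self, zero_add]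
    refine Finset.sum_eq_zero fun w hw => ?_
    rw [Finset.mem_sdiff] at hw
    have h3 : v ≠ w := fun e => hw.2 (e ▸ h1)
    rw [map_zsmul, map_sub, AR15a_H_mk D, AR15a_H_mk D, if_pos h2,
      if_pos (Finset.mem_erase.2 ⟨h3, h2⟩), sub_self, smul_zero]
  · by_cases h2 : v ∈ τ
    · rw [if_pos h2, if_neg h1, if_pos h2, map_zero, zero_add, sub_zero]
      rw [Finset.sum_eq_single v]
      · rw [map_zsmul, map_sub, AR15a_H_mk D, AR15a_H_mk D, if_pos h2,
          if_neg (Finset.notMem_erase v τ), sub_zero, smul_smul]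
        rw [AR15a_mk_congr D x (subset_refl σ) (subset_refl σ) rfl (Finset.insert_erase h2),
          Finset.insert_erase h2, AR15a_sgn_sq, one_smul]
      · intro w hw hwv
        rw [Finset.mem_sdiff] at hw
        rw [map_zsmul, map_sub, AR15a_H_mk D, AR15a_H_mk D, if_pos h2,
          if_pos (Finset.mem_erase.2 ⟨hwv.symm, h2⟩), sub_self, smul_zero]
      · intro h3
        exact absurd (Finset.mem_sdiff.2 ⟨h2, h1⟩) h3
    · rw [if_neg h2, if_neg h1, if_neg h2, map_zsmul, AR15a_dC_single D, AR15a_dcel_mk D]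
      have h3 : insert v τ \ σ = insert v (τ \ σ) := Finset.insert_sdiff_of_notMem τ h1
      have h4 : v ∉ τ \ σ := fun h => h2 (Finset.mem_sdiff.1 h).1
      rw [h3, Finset.sum_insert h4, smul_add, smul_smul, AR15a_sgn_sq, one_smul,
        AR15a_mk_congr D x (subset_refl σ) (subset_refl σ) rfl (Finset.erase_insert h2)]
      rw [add_assoc, Finset.smul_sum, ← Finset.sum_add_distrib]
      rw [Finset.sum_eq_zero, add_zero]
      intro w hw
      have hw' := Finset.mem_sdiff.1 hw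
      have hvw : v ≠ w := fun e => h2 (e ▸ hw'.1)
      have h5 : v ∉ τ.erase w := fun h => h2 (Finset.mem_erase.1 h).2
      rw [map_zsmul, map_sub, AR15a_H_mk D, AR15a_H_mk D, if_neg h5, if_neg h2]
      set e := insert v (τ \ σ) with he
      have h6 : insert v (τ.erase w) \ σ = e.erase w := by
        rw [he]
        ext u
        simp only [Finset.mem_sdiff, Finset.mem_insert, Finset.mem_erase]
        constructor
        · rintro ⟨h7 | h7, h8⟩
          · exact ⟨h7 ▸ hvw, Or.inl h7⟩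
          · exact ⟨h7.1, Or.inr ⟨h7.2, h8⟩⟩
        · rintro ⟨h7, h8 | h8⟩
          · exact ⟨Or.inl h8, h8 ▸ h1⟩
          · exact ⟨Or.inr ⟨h7, h8.1⟩, h8.2⟩
      have h7 : insert v τ \ insert w σ = e.erase w := by
        rw [AR15a_sd2, h3]
      have h8 : (τ \ σ) = e.erase v := (Finset.erase_insert h4).symm
      have h9 : (insert v τ).erase w = insert v (τ.erase w) := by
        ext u
        simp only [Finset.mem_insert, Finset.mem_erase]
        constructor
        · rintro ⟨h7, h8 | h8⟩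
          · exact Or.inl h8
          · exact Or.inr ⟨h7, h8⟩
        · rintro (h7 | h7)
          · exact ⟨h7 ▸ hvw, Or.inl h7⟩
          · exact ⟨h7.1, Or.inr h7.2⟩
      rw [h6, h7, ← smul_sub, smul_smul, smul_smul, h8,
        AR15a_mk_congr D x (subset_refl σ) (subset_refl σ) rfl h9, ← add_smul,
        AR15a_sgn_koszul (e := e) (Finset.mem_insert_self v _) (Finset.mem_insert_of_mem hw) hvw,
        zero_smul]

theorem AR15a_hom (K : Finset V → Prop) (T : Finset V) (p : ℕ) (v : V)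
    (x : AR15a_Cel D →₀ A) (hx : AR15a_Chn D K T p x) :
    AR15a_dC D (AR15a_H D v x) + AR15a_H D v (AR15a_dC D x) = x - AR15a_P D v x := by
  have := AR15a_ext D (F := (AR15a_dC D).comp (AR15a_H D v) + (AR15a_H D v).comp (AR15a_dC D))
    (G := AddMonoidHom.id _ - AR15a_P D v) (x := x)
    (fun c hc a => by
      obtain ⟨σ, τ, y⟩ := c
      obtain ⟨h1, h2, h3, h4⟩ := hx _ hc
      simp only at h1 h2 h3 h4
      exact AR15a_hom_cell D v σ τ y h1 a)
  exact this

theorem AR15a_H_chn (K : Finset V → Prop) (hK : ∀ s t, s ⊆ t → K t → K s) (T : Finset V)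
    (hT : K T) (p : ℕ) {v : V} (hv : v ∈ T) (x : AR15a_Cel D →₀ A) (hx : AR15a_Chn D K T p x) :
    AR15a_Chn D K T (p + 1) (AR15a_H D v x) := by
  rw [AR15a_Chn_iff]
  refine AR15a_maps D _ fun c hc a => ?_
  obtain ⟨σ, τ, y⟩ := c
  obtain ⟨h1, h2, h3, h4⟩ := hx _ hc
  simp only at h1 h2 h3 h4
  rw [AR15a_H_single D]
  simp only
  split_ifs with h
  · exact Submodule.zero_mem _
  · have h5 : insert v τ ⊆ T := Finset.insert_subset hv h3
    refine Submodule.smul_mem _ _ (Finsupp.single_mem_supported _ _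
      ⟨h1.trans (Finset.subset_insert v τ), hK _ _ h5 hT, h5, ?_⟩)
    show (insert v τ \ σ).card = p + 1
    have h6 : v ∉ σ := fun h' => h (h1 h')
    rw [Finset.insert_sdiff_of_notMem τ h6, Finset.card_insert_of_notMem, h4]
    exact fun h' => h (Finset.mem_sdiff.1 h').1

theorem AR15a_P_chn (K : Finset V → Prop) (hK : ∀ s t, s ⊆ t → K t → K s) (T : Finset V)
    (hT : K T) (p : ℕ) {v : V} (hv : v ∈ T) (R : Finset V) (x : AR15a_Cel D →₀ A)
    (hx : ∀ c ∈ x.support, AR15a_IsCel D K T p c ∧ R ⊆ c.1) :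
    ∀ c ∈ (AR15a_P D v x).support, AR15a_IsCel D K T p c ∧ insert v R ⊆ c.1 := by
  have := AR15a_maps D (F := AR15a_P D v) {c | AR15a_IsCel D K T p c ∧ insert v R ⊆ c.1} (x := x)
    (fun c hc a => ?_)
  · rw [Finsupp.mem_supported] at this
    exact this
  · obtain ⟨σ, τ, y⟩ := c
    obtain ⟨⟨h1, h2, h3, h4⟩, h5⟩ := hx _ hc
    simp only at h1 h2 h3 h4 h5
    rw [AR15a_P_single D]
    simp only
    split_ifs with h h'
    · exact Finsupp.single_mem_supported _ _ ⟨⟨h1, h2, h3, h4⟩, Finset.insert_subset h h5⟩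
    · exact Submodule.zero_mem _
    · have h6 : insert v τ ⊆ T := Finset.insert_subset hv h3
      refine Finsupp.single_mem_supported _ _
        ⟨⟨Finset.insert_subset_insert v h1, hK _ _ h6 hT, h6, ?_⟩, Finset.insert_subset_insert v h5⟩
      show (insert v τ \ insert v σ).card = p
      rw [Finset.insert_sdiff_insert, Finset.sdiff_insert, Finset.erase_eq_of_notMem, h4]
      exact fun h7 => h' (Finset.mem_sdiff.1 h7).1

/-- pushing a chain to the cells with large first component -/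
theorem AR15a_push (K : Finset V → Prop) (hK : ∀ s t, s ⊆ t → K t → K s) (T : Finset V)
    (hT : K T) (p : ℕ) (x : AR15a_Cel D →₀ A) (hx : AR15a_Chn D K T p x) (hd : AR15a_dC D x = 0) (R : Finset V)
    (hR : R ⊆ T) :
    ∃ b, AR15a_Chn D K T (p + 1) b ∧ ∀ c ∈ (x - AR15a_dC D b).support, AR15a_IsCel D K T p c ∧ R ⊆ c.1 := by
  induction R using Finset.induction_on with
  | empty =>
    refine ⟨0, AR15a_chn_zero D K T _, fun c hc => ?_⟩
    rw [map_zero, sub_zero] at hc
    exact ⟨hx c hc, Finset.empty_subset _⟩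
  | insert v R hv ih =>
    obtain ⟨b, hb1, hb2⟩ := ih ((Finset.subset_insert v R).trans hR)
    have hvT : v ∈ T := hR (Finset.mem_insert_self v R)
    set x' := x - AR15a_dC D b with hx'
    have h1 : AR15a_Chn D K T p x' := fun c hc => (hb2 c hc).1
    have h2 : AR15a_dC D x' = 0 := by rw [hx', map_sub, hd, AR15a_dd D, sub_zero]
    have h3 := AR15a_hom D K T p v x' h1
    rw [h2, map_zero, add_zero] at h3
    refine ⟨b + AR15a_H D v x', AR15a_chn_add D K T _ hb1 (AR15a_H_chn D K hK T hT p hvT x' h1), ?_⟩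
    have h4 : x - AR15a_dC D (b + AR15a_H D v x') = AR15a_P D v x' := by
      rw [map_add, h3, hx']
      abel
    rw [h4]
    exact AR15a_P_chn D K hK T hT p hvT R x' hb2

/-- the chain of top vertices -/
noncomputable def AR15a_J (T : Finset V) : (D.Q T →₀ A) →+ (AR15a_Cel D →₀ A) :=
  Finsupp.mapDomain.addMonoidHom (fun x : D.Q T => (⟨T, (T, x)⟩ : AR15a_Cel D))

omit [LinearOrder V] in
theorem AR15a_J_single (T : Finset V) (x : D.Q T) (a : A) :
    AR15a_J D T (single x a) = single ⟨T, (T, x)⟩ a := by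
  unfold AR15a_J
  exact Finsupp.mapDomain_single

theorem AR15a_ext' {X N : Type*} [AddCommGroup N] {F G : (X →₀ A) →+ N} (x : X →₀ A)
    (h : ∀ c a, F (single c a) = G (single c a)) : F x = G x := by
  have : F = G := Finsupp.addHom_ext h
  rw [this]

theorem AR15a_eps_J (T : Finset V) (y : D.Q T →₀ A) : AR15a_eps D T (AR15a_J D T y) = y := by
  have := AR15a_ext' (F := (AR15a_eps D T).comp (AR15a_J D T)) (G := AddMonoidHom.id _) y
    (fun c a => by
      rw [AddMonoidHom.comp_apply, AR15a_J_single D, AR15a_eps_single D T T T c (subset_refl T),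
        D.pr_id]
      rfl)
  exact this

theorem AR15a_J_eps (K : Finset V → Prop) (T : Finset V) (x : AR15a_Cel D →₀ A)
    (hx : ∀ c ∈ x.support, AR15a_IsCel D K T 0 c ∧ T ⊆ c.1) :
    AR15a_J D T (AR15a_eps D T x) = x := by
  have := AR15a_ext D (F := (AR15a_J D T).comp (AR15a_eps D T)) (G := AddMonoidHom.id _) (x := x)
    (fun c hc a => by
      obtain ⟨σ, τ, y⟩ := c
      obtain ⟨⟨h1, h2, h3, h4⟩, h5⟩ := hx _ hc
      simp only at h1 h2 h3 h4 h5
      have e1 : σ = T := Finset.Subset.antisymm (h1.trans h3) h5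
      have e2 : τ = T := Finset.Subset.antisymm h3 (h5.trans h1)
      subst e1
      subst e2
      rw [AddMonoidHom.comp_apply, AR15a_eps_single D _ _ _ y (subset_refl _), D.pr_id,
        AR15a_J_single D]
      rfl)
  exact this

variable (A) in
/-- the augmented cubical complex over the subsets of `T` is exact -/
structure AR15a_Ex (K : Finset V → Prop) (T : Finset V) : Prop where
  surj : ∀ y : D.Q T →₀ A, ∃ x, AR15a_Chn D K T 0 x ∧ AR15a_eps D T x = y
  zero : ∀ x : AR15a_Cel D →₀ A, AR15a_Chn D K T 0 x → AR15a_eps D T x = 0 →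
    ∃ y, AR15a_Chn D K T 1 y ∧ AR15a_dC D y = x
  succ : ∀ (p : ℕ) (x : AR15a_Cel D →₀ A), AR15a_Chn D K T (p + 1) x → AR15a_dC D x = 0 →
    ∃ y, AR15a_Chn D K T (p + 2) y ∧ AR15a_dC D y = x

/-- exactness over a simplex -/
theorem AR15a_base (K : Finset V → Prop) (hK : ∀ s t, s ⊆ t → K t → K s) (T : Finset V)
    (hT : K T) : AR15a_Ex D A K T where
  surj y := by
    classical
    refine ⟨AR15a_J D T y, ?_, AR15a_eps_J D T y⟩
    intro c hc
    have hc' : c ∈ (mapDomain (fun x : D.Q T => (⟨T, (T, x)⟩ : AR15a_Cel D)) y).support := hc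
    have := Finsupp.mapDomain_support hc'
    rw [Finset.mem_image] at this
    obtain ⟨x, -, rfl⟩ := this
    refine ⟨subset_refl _, hT, subset_refl _, ?_⟩
    show (T \ T).card = 0
    simp
  zero x hx h0 := by
    have hd : AR15a_dC D x = 0 := by
      have := AR15a_ext D (F := AR15a_dC D) (G := 0) (x := x) (fun c hc a => by
        obtain ⟨σ, τ, y⟩ := c
        obtain ⟨h1, h2, h3, h4⟩ := hx _ hc
        simp only at h1 h2 h3 h4
        rw [AR15a_dC_single D, AddMonoidHom.zero_apply]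
        unfold AR15a_dcel
        simp only
        rw [Finset.card_eq_zero.1 h4, Finset.sum_empty])
      exact this
    obtain ⟨b, hb1, hb2⟩ := AR15a_push D K hK T hT 0 x hx hd T (subset_refl T)
    refine ⟨b, hb1, ?_⟩
    have h1 := AR15a_J_eps D K T _ hb2
    rw [map_sub, h0, AR15a_eps_dC D K T 1 b hb1, sub_zero, map_zero] at h1
    exact (sub_eq_zero.1 h1.symm).symm
  succ p x hx hd := by
    obtain ⟨b, hb1, hb2⟩ := AR15a_push D K hK T hT (p + 1) x hx hd T (subset_refl T)
    refine ⟨b, hb1, ?_⟩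
    have h1 : (x - AR15a_dC D b).support = ∅ := by
      rw [Finset.eq_empty_iff_forall_notMem]
      intro c hc
      obtain ⟨⟨h1, h2, h3, h4⟩, h5⟩ := hb2 c hc
      have : c.2.1 \ c.1 = ∅ := Finset.sdiff_eq_empty_iff_subset.2 (h3.trans h5)
      rw [this, Finset.card_empty] at h4
      exact absurd h4 (by omega)
    rw [Finsupp.support_eq_empty] at h1
    exact (sub_eq_zero.1 h1).symm

theorem AR15a_split (K : Finset V → Prop) (hK : ∀ s t, s ⊆ t → K t → K s) (T : Finset V)
    {s t : V} (hst : ¬ K {s, t}) (p : ℕ) (x : AR15a_Cel D →₀ A) (hx : AR15a_Chn D K T p x) :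
    ∃ x1 x2, AR15a_Chn D K (T.erase s) p x1 ∧ AR15a_Chn D K (T.erase t) p x2 ∧ x1 + x2 = x := by
  classical
  refine ⟨x.filter (fun c => s ∉ c.2.1), x.filter (fun c => ¬ s ∉ c.2.1), ?_, ?_,
    Finsupp.filter_add_filter_not x _⟩
  · intro c hc
    rw [Finsupp.support_filter, Finset.mem_filter] at hc
    obtain ⟨h1, h2, h3, h4⟩ := hx c hc.1
    exact ⟨h1, h2, Finset.subset_erase.2 ⟨h3, hc.2⟩, h4⟩
  · intro c hc
    rw [Finsupp.support_filter, Finset.mem_filter, not_not] at hc
    obtain ⟨h1, h2, h3, h4⟩ := hx c hc.1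
    refine ⟨h1, h2, Finset.subset_erase.2 ⟨h3, fun ht => hst (hK _ _ ?_ h2)⟩, h4⟩
    intro u hu
    rw [Finset.mem_insert, Finset.mem_singleton] at hu
    rcases hu with rfl | rfl
    · exact hc.2
    · exact ht

/-- the induction step -/
theorem AR15a_step (K : Finset V → Prop) (hK : ∀ s t, s ⊆ t → K t → K s) (hK0 : K ∅)
    (T : Finset V) (hsurj : Function.Surjective (D.pr (Finset.empty_subset T)))
    {s t : V} (hst : ¬ K {s, t})
    (h1 : (T.erase s).erase t ⊆ T.erase s) (h2 : (T.erase s).erase t ⊆ T.erase t)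
    (h3 : T.erase s ⊆ T) (h4 : T.erase t ⊆ T)
    (hinj : ∀ x : D.Q ((T.erase s).erase t) →₀ A,
      mapDomain (D.pr h1) x = 0 → mapDomain (D.pr h2) x = 0 → x = 0)
    (hmid : ∀ (a : D.Q (T.erase s) →₀ A) (b : D.Q (T.erase t) →₀ A),
      mapDomain (D.pr h3) a = mapDomain (D.pr h4) b →
      ∃ x : D.Q ((T.erase s).erase t) →₀ A,
        mapDomain (D.pr h1) x = a ∧ mapDomain (D.pr h2) x = b)
    (e0 : AR15a_Ex D A K ((T.erase s).erase t)) (e1 : AR15a_Ex D A K (T.erase s))
    (e2 : AR15a_Ex D A K (T.erase t)) : AR15a_Ex D A K T where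
  surj y := by
    classical
    let g : D.Q T → AR15a_Cel D := fun q => ⟨∅, (∅, Function.surjInv hsurj q)⟩
    refine ⟨mapDomain g y, ?_, ?_⟩
    · intro c hc
      have := Finsupp.mapDomain_support hc
      rw [Finset.mem_image] at this
      obtain ⟨x, -, rfl⟩ := this
      refine ⟨subset_refl _, hK0, Finset.empty_subset _, ?_⟩
      show ((∅ : Finset V) \ ∅).card = 0
      simp
    · have := AR15a_ext' (F := (AR15a_eps D T).comp (Finsupp.mapDomain.addMonoidHom g))
        (G := AddMonoidHom.id _) y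
        (fun c a => by
          rw [AddMonoidHom.comp_apply]
          have e : (Finsupp.mapDomain.addMonoidHom g) (single c a) = single (g c) a :=
            Finsupp.mapDomain_single
          rw [e, AR15a_eps_single D T ∅ ∅ _ (Finset.empty_subset T), Function.surjInv_eq hsurj]
          rfl)
      exact this
  zero x hx h0 := by
    obtain ⟨x1, x2, hx1, hx2, hx12⟩ := AR15a_split D K hK T hst 0 x hx
    have n1 := AR15a_eps_nat D K h3 0 x1 hx1
    have n2 := AR15a_eps_nat D K h4 0 x2 hx2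
    have n3 : AR15a_eps D T x1 + AR15a_eps D T x2 = 0 := by rw [← map_add, hx12, h0]
    obtain ⟨x0, m1, m2⟩ := hmid (AR15a_eps D (T.erase s) x1) (- AR15a_eps D (T.erase t) x2) (by
      have : mapDomain (D.pr h4) (- AR15a_eps D (T.erase t) x2) =
          - mapDomain (D.pr h4) (AR15a_eps D (T.erase t) x2) :=
        map_neg (Finsupp.mapDomain.addMonoidHom (D.pr h4)) _
      rw [this, n1, n2]
      exact eq_neg_of_add_eq_zero_left n3)
    obtain ⟨y, hy, hy0⟩ := e0.surj x0
    have n4 := AR15a_eps_nat D K h1 0 y hy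
    have n5 := AR15a_eps_nat D K h2 0 y hy
    rw [hy0] at n4 n5
    obtain ⟨y1, hy1, hd1⟩ := e1.zero (x1 - y)
      (AR15a_chn_sub D K _ 0 hx1 (AR15a_chn_mono D K h1 0 y hy)) (by
        rw [map_sub, ← n4, m1, sub_self])
    obtain ⟨y2, hy2, hd2⟩ := e2.zero (x2 + y)
      (AR15a_chn_add D K _ 0 hx2 (AR15a_chn_mono D K h2 0 y hy)) (by
        rw [map_add, ← n5, m2, add_neg_cancel])
    refine ⟨y1 + y2, AR15a_chn_add D K T 1 (AR15a_chn_mono D K h3 1 y1 hy1)
      (AR15a_chn_mono D K h4 1 y2 hy2), ?_⟩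
    rw [map_add, hd1, hd2, ← hx12]
    abel
  succ p x hx hd := by
    obtain ⟨x1, x2, hx1, hx2, hx12⟩ := AR15a_split D K hK T hst (p + 1) x hx
    have hs : AR15a_dC D x1 = - AR15a_dC D x2 := by
      apply eq_neg_of_add_eq_zero_left
      rw [← map_add, hx12, hd]
    have c1 := AR15a_dC_chn D K hK _ p x1 hx1
    have c2 := AR15a_chn_neg D K _ p (AR15a_dC_chn D K hK _ p x2 hx2)
    rw [← hs] at c2
    have c0 : AR15a_Chn D K ((T.erase s).erase t) p (AR15a_dC D x1) := by
      intro c hc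
      obtain ⟨a1, a2, a3, a4⟩ := c1 c hc
      obtain ⟨b1, b2, b3, b4⟩ := c2 c hc
      exact ⟨a1, a2, Finset.subset_erase.2 ⟨a3, fun h => (Finset.mem_erase.1 (b3 h)).1 rfl⟩, a4⟩
    have hy : ∃ y, AR15a_Chn D K ((T.erase s).erase t) (p + 1) y ∧ AR15a_dC D y = AR15a_dC D x1 := by
      cases p with
      | zero =>
        refine e0.zero _ c0 (hinj _ ?_ ?_)
        · rw [AR15a_eps_nat D K h1 0 _ c0, AR15a_eps_dC D K _ 1 x1 hx1]
        · rw [AR15a_eps_nat D K h2 0 _ c0, hs, map_neg, AR15a_eps_dC D K _ 1 x2 hx2, neg_zero]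
      | succ p => exact e0.succ p _ c0 (AR15a_dd D x1)
    obtain ⟨y, hy, hyd⟩ := hy
    obtain ⟨y1, hy1, hd1⟩ := e1.succ p (x1 - y)
      (AR15a_chn_sub D K _ _ hx1 (AR15a_chn_mono D K h1 _ y hy)) (by
        rw [map_sub, hyd, sub_self])
    obtain ⟨y2, hy2, hd2⟩ := e2.succ p (x2 + y)
      (AR15a_chn_add D K _ _ hx2 (AR15a_chn_mono D K h2 _ y hy)) (by
        rw [map_add, hyd, hs, add_neg_cancel])
    refine ⟨y1 + y2, AR15a_chn_add D K T _ (AR15a_chn_mono D K h3 _ y1 hy1)
      (AR15a_chn_mono D K h4 _ y2 hy2), ?_⟩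
    rw [map_add, hd1, hd2, ← hx12]
    abel


variable (A) in
theorem AR15a_ex_of_trees (K : Finset V → Prop) (hK : ∀ s t, s ⊆ t → K t → K s) (hK0 : K ∅)
    (hsurj : ∀ T : Finset V, Function.Surjective (D.pr (Finset.empty_subset T)))
    (htree : ∀ T : Finset V, ¬ K T → ∃ s ∈ T, ∃ t ∈ T, s ≠ t ∧ ¬ K {s, t} ∧
      ∀ (h1 : (T.erase s).erase t ⊆ T.erase s) (h2 : (T.erase s).erase t ⊆ T.erase t)
        (h3 : T.erase s ⊆ T) (h4 : T.erase t ⊆ T),
        TreeEx A (D.pr h1) (D.pr h2) (D.pr h3) (D.pr h4)) (T : Finset V) :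
    AR15a_Ex D A K T := by
  induction T using Finset.strongInduction with
  | H T ih =>
    by_cases hT : K T
    · exact AR15a_base D K hK T hT
    · obtain ⟨s, hs, t, ht, hst, hstK, h⟩ := htree T hT
      have h1 : (T.erase s).erase t ⊆ T.erase s := Finset.erase_subset _ _
      have h3 : T.erase s ⊆ T := Finset.erase_subset _ _
      have h4 : T.erase t ⊆ T := Finset.erase_subset _ _
      have h2 : (T.erase s).erase t ⊆ T.erase t := Finset.erase_subset_erase t h3
      obtain ⟨hinj, hmid⟩ := h h1 h2 h3 h4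
      have l1 : T.erase s ⊂ T := Finset.erase_ssubset hs
      exact AR15a_step D K hK hK0 T (hsurj T) hstK h1 h2 h3 h4 hinj hmid
        (ih _ (lt_of_le_of_lt h1 l1)) (ih _ l1) (ih _ (Finset.erase_ssubset ht))

end cells

section bridge

variable {V : Type v} [Fintype V] [LinearOrder V] (S : CSys.{v, w} V) {A : Type*} [AddCommGroup A]

/-- the cells over `(σ, τ)` -/
def AR15a_in (σ τ : Finset V) (q : S.Q σ) : AR15a_Cel S := ⟨σ, (τ, q)⟩

omit [Fintype V] [LinearOrder V] in
theorem AR15a_in_inj (σ τ : Finset V) : Function.Injective (AR15a_in S σ τ) := by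
  intro q q' h
  simpa [AR15a_in] using h

/-- from finitely supported functions on the cells to cubical chains -/
noncomputable def AR15a_Psi (y : AR15a_Cel S →₀ A) : CC S A := fun σ τ =>
  Finsupp.comapDomain (AR15a_in S σ τ) y (AR15a_in_inj S σ τ).injOn

omit [Fintype V] [LinearOrder V] in
theorem AR15a_Psi_apply (y : AR15a_Cel S →₀ A) (σ τ : Finset V) (q : S.Q σ) :
    (AR15a_Psi S y σ τ) q = y ⟨σ, (τ, q)⟩ := rfl

omit [LinearOrder V] in
theorem AR15a_Phi_fin (x : CC S A) :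
    (Function.support fun c : AR15a_Cel S => (x c.1 c.2.1) c.2.2).Finite := by
  have h : (⋃ p : Finset V × Finset V, AR15a_in S p.1 p.2 '' ((x p.1 p.2).support : Set _)).Finite :=
    Set.finite_iUnion fun p => ((x p.1 p.2).support.finite_toSet).image _
  refine h.subset ?_
  rintro ⟨σ, τ, q⟩ hc
  rw [Set.mem_iUnion]
  exact ⟨(σ, τ), q, Finsupp.mem_support_iff.2 hc, rfl⟩

/-- from cubical chains to finitely supported functions on the cells -/
noncomputable def AR15a_Phi (x : CC S A) : AR15a_Cel S →₀ A :=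
  Finsupp.ofSupportFinite (fun c : AR15a_Cel S => (x c.1 c.2.1) c.2.2) (AR15a_Phi_fin S x)

omit [LinearOrder V] in
theorem AR15a_Phi_apply (x : CC S A) (σ τ : Finset V) (q : S.Q σ) :
    AR15a_Phi S x ⟨σ, (τ, q)⟩ = (x σ τ) q := rfl

omit [LinearOrder V] in
theorem AR15a_Psi_Phi (x : CC S A) : AR15a_Psi S (AR15a_Phi S x) = x := by
  funext σ τ
  exact Finsupp.ext fun q => rfl

omit [Fintype V] [LinearOrder V] in
theorem AR15a_Psi_inj {y : AR15a_Cel S →₀ A} (h : AR15a_Psi S y = 0) : y = 0 := by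
  refine Finsupp.ext fun c => ?_
  obtain ⟨σ, τ, q⟩ := c
  rw [← AR15a_Psi_apply, h]
  rfl

omit [Fintype V] [LinearOrder V] in
theorem AR15a_Psi_add (y y' : AR15a_Cel S →₀ A) :
    AR15a_Psi S (y + y') = AR15a_Psi S y + AR15a_Psi S y' := by
  funext σ τ
  exact Finsupp.ext fun q => rfl

theorem AR15a_cd_add (x x' : CC S A) : cd S (x + x') = cd S x + cd S x' := by
  funext σ τ
  show cd S (x + x') σ τ = cd S x σ τ + cd S x' σ τ
  unfold cd
  by_cases h : σ ⊆ τ
  · rw [if_pos h, if_pos h, if_pos h, sub_add_sub_comm, ← Finset.sum_add_distrib,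
      ← Finset.sum_add_distrib]
    congr 1
    · refine Finset.sum_congr rfl fun v _ => ?_
      rw [← smul_add]
      rfl
    · refine Finset.sum_congr rfl fun v _ => ?_
      rw [← smul_add, ← map_add]
      rfl
  · rw [if_neg h, if_neg h, if_neg h, add_zero]

omit [Fintype V] in
open Classical in
theorem AR15a_qm_single (σ τ : Finset V) {v : V} (hv : v ∈ σ) (σ₀ τ₀ : Finset V) (q₀ : S.Q σ₀)
    (a : A) (q : S.Q σ) :
    (qm S (Finset.erase_subset v σ) (AR15a_Psi S (single ⟨σ₀, (τ₀, q₀)⟩ a) (σ.erase v) τ)) q =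
      if v ∉ σ₀ ∧ (⟨insert v σ₀, (τ₀, S.pr (Finset.subset_insert v σ₀) q₀)⟩ : AR15a_Cel S) =
        ⟨σ, (τ, q)⟩ then a else 0 := by
  show (mapDomain (S.pr (Finset.erase_subset v σ))
    (AR15a_Psi S (single ⟨σ₀, (τ₀, q₀)⟩ a) (σ.erase v) τ)) q = _
  by_cases h : σ₀ = σ.erase v ∧ τ₀ = τ
  · obtain ⟨h1, h2⟩ := h
    subst h1 h2
    have e1 : AR15a_Psi S (single (⟨σ.erase v, (τ₀, q₀)⟩ : AR15a_Cel S) a) (σ.erase v) τ₀ =
        single q₀ a := by
      refine Finsupp.ext fun q' => ?_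
      rw [AR15a_Psi_apply, Finsupp.single_apply, Finsupp.single_apply]
      have : ((⟨σ.erase v, (τ₀, q₀)⟩ : AR15a_Cel S) = ⟨σ.erase v, (τ₀, q')⟩) ↔ q₀ = q' :=
        ⟨fun h => AR15a_in_inj S _ _ h, fun h => by rw [h]⟩
      simp only [this]
    rw [e1, Finsupp.mapDomain_single, Finsupp.single_apply]
    have e2 : (⟨insert v (σ.erase v), (τ₀, S.pr (Finset.subset_insert v _) q₀)⟩ : AR15a_Cel S) =
        ⟨σ, (τ₀, S.pr (Finset.erase_subset v σ) q₀)⟩ :=
      AR15a_mk_congr S q₀ _ _ (Finset.insert_erase hv) rfl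
    rw [e2]
    have e3 : ((⟨σ, (τ₀, S.pr (Finset.erase_subset v σ) q₀)⟩ : AR15a_Cel S) = ⟨σ, (τ₀, q)⟩) ↔
        S.pr (Finset.erase_subset v σ) q₀ = q :=
      ⟨fun h => AR15a_in_inj S _ _ h, fun h => by rw [h]⟩
    have e4 : v ∉ σ.erase v := Finset.notMem_erase v σ
    simp only [e3, e4, not_false_eq_true, true_and]
  · have e1 : AR15a_Psi S (single (⟨σ₀, (τ₀, q₀)⟩ : AR15a_Cel S) a) (σ.erase v) τ = 0 := by
      refine Finsupp.ext fun q' => ?_
      rw [AR15a_Psi_apply, Finsupp.single_apply, if_neg]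
      · rfl
      · intro h'
        apply h
        have h1 := congrArg (fun c : AR15a_Cel S => c.1) h'
        have h2 := congrArg (fun c : AR15a_Cel S => c.2.1) h'
        exact ⟨h1, h2⟩
    rw [e1, Finsupp.mapDomain_zero, if_neg]
    · rfl
    · rintro ⟨h3, h'⟩
      apply h
      have h1 := congrArg (fun c : AR15a_Cel S => c.1) h'
      have h2 := congrArg (fun c : AR15a_Cel S => c.2.1) h'
      simp only at h1 h2
      refine ⟨?_, h2⟩
      rw [← h1, Finset.erase_insert h3]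

theorem AR15a_cd_single (c : AR15a_Cel S) (hc : c.1 ⊆ c.2.1) (a : A) :
    cd S (AR15a_Psi S (single c a)) = AR15a_Psi S (AR15a_dcel S c a) := by
  classical
  obtain ⟨σ₀, τ₀, q₀⟩ := c
  simp only at hc
  funext σ τ
  refine Finsupp.ext fun q => ?_
  rw [AR15a_Psi_apply]
  unfold AR15a_dcel
  simp only
  rw [Finsupp.finsetSum_apply]
  simp only [Finsupp.smul_apply, Finsupp.sub_apply, Finsupp.single_apply]
  unfold cd
  by_cases h : σ ⊆ τ
  · rw [if_pos h, Finsupp.sub_apply, Finsupp.finsetSum_apply, Finsupp.finsetSum_apply]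
    simp only [smul_sub]
    rw [Finset.sum_sub_distrib]
    congr 1
    · simp only [Finsupp.smul_apply, AR15a_Psi_apply, Finsupp.single_apply, smul_ite, smul_zero]
      rw [← Finset.sum_filter, ← Finset.sum_filter]
      have hs : τᶜ.filter (fun v => (⟨σ₀, (τ₀, q₀)⟩ : AR15a_Cel S) = ⟨σ, (insert v τ, q)⟩) =
          (τ₀ \ σ₀).filter (fun v => (⟨σ₀, (τ₀.erase v, q₀)⟩ : AR15a_Cel S) = ⟨σ, (τ, q)⟩) := by
        ext v
        simp only [Finset.mem_filter, Finset.mem_compl, Finset.mem_sdiff]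
        constructor
        · rintro ⟨h1, h2⟩
          have h3 := congrArg (fun c : AR15a_Cel S => c.1) h2
          have h4 := congrArg (fun c : AR15a_Cel S => c.2.1) h2
          have h5 := congrArg (fun c : AR15a_Cel S => (⟨c.1, (c.2.1.erase v, c.2.2)⟩ : AR15a_Cel S)) h2
          simp only at h3 h4 h5
          refine ⟨⟨h4 ▸ Finset.mem_insert_self v τ, fun h6 => h1 (h (h3 ▸ h6))⟩, ?_⟩
          rw [h5, Finset.erase_insert h1]
        · rintro ⟨⟨h1, h1'⟩, h2⟩
          have h4 := congrArg (fun c : AR15a_Cel S => c.2.1) h2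
          have h5 := congrArg (fun c : AR15a_Cel S => (⟨c.1, (insert v c.2.1, c.2.2)⟩ : AR15a_Cel S)) h2
          simp only at h4 h5
          refine ⟨fun h6 => ?_, ?_⟩
          · rw [← h4] at h6
            exact Finset.notMem_erase v τ₀ h6
          · rw [← h5, Finset.insert_erase h1]
      rw [hs]
      refine Finset.sum_congr rfl fun v hv => ?_
      rw [Finset.mem_filter, Finset.mem_sdiff] at hv
      obtain ⟨⟨h1, h1'⟩, h2⟩ := hv
      have h3 := congrArg (fun c : AR15a_Cel S => c.1) h2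
      have h4 := congrArg (fun c : AR15a_Cel S => c.2.1) h2
      simp only at h3 h4
      rw [← h3, ← h4, Finset.insert_erase h1]
    · simp only [Finsupp.smul_apply]
      rw [Finset.sum_congr rfl fun v hv => by
        rw [AR15a_qm_single S σ τ hv σ₀ τ₀ q₀ a q]]
      simp only [smul_ite, smul_zero]
      rw [← Finset.sum_filter, ← Finset.sum_filter]
      have hs : σ.filter (fun v => v ∉ σ₀ ∧
          (⟨insert v σ₀, (τ₀, S.pr (Finset.subset_insert v σ₀) q₀)⟩ : AR15a_Cel S) =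
            ⟨σ, (τ, q)⟩) =
          (τ₀ \ σ₀).filter (fun v =>
            (⟨insert v σ₀, (τ₀, S.pr (Finset.subset_insert v σ₀) q₀)⟩ : AR15a_Cel S) =
            ⟨σ, (τ, q)⟩) := by
        ext v
        simp only [Finset.mem_filter, Finset.mem_sdiff]
        constructor
        · rintro ⟨h1, h2, h2'⟩
          have h4 := congrArg (fun c : AR15a_Cel S => c.2.1) h2'
          simp only at h4
          exact ⟨⟨h4 ▸ h h1, h2⟩, h2'⟩
        · rintro ⟨⟨h1, h1'⟩, h2⟩
          have h3 := congrArg (fun c : AR15a_Cel S => c.1) h2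
          simp only at h3
          exact ⟨h3 ▸ Finset.mem_insert_self v σ₀, h1', h2⟩
      rw [hs]
      refine Finset.sum_congr rfl fun v hv => ?_
      rw [Finset.mem_filter, Finset.mem_sdiff] at hv
      obtain ⟨⟨h1, h1'⟩, h2⟩ := hv
      have h3 := congrArg (fun c : AR15a_Cel S => c.1) h2
      have h4 := congrArg (fun c : AR15a_Cel S => c.2.1) h2
      simp only at h3 h4
      have h5 : insert v (τ \ σ) = τ₀ \ σ₀ := by
        rw [← h3, ← h4, AR15a_sd2, Finset.insert_erase (Finset.mem_sdiff.2 ⟨h1, h1'⟩)]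
      rw [h5]
  · rw [if_neg h]
    symm
    apply Finset.sum_eq_zero
    intro v hv
    rw [Finset.mem_sdiff] at hv
    rw [if_neg, if_neg, sub_zero, smul_zero]
    · intro h2
      have h3 := congrArg (fun c : AR15a_Cel S => c.1) h2
      have h4 := congrArg (fun c : AR15a_Cel S => c.2.1) h2
      simp only at h3 h4
      apply h
      rw [← h3, ← h4]
      exact Finset.insert_subset hv.1 hc
    · intro h2
      have h3 := congrArg (fun c : AR15a_Cel S => c.1) h2
      have h4 := congrArg (fun c : AR15a_Cel S => c.2.1) h2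
      simp only at h3 h4
      apply h
      rw [← h3, ← h4]
      exact Finset.subset_erase.2 ⟨hc, hv.2⟩

theorem AR15a_cd_Psi (K : Finset V → Prop) (T : Finset V) (p : ℕ) (y : AR15a_Cel S →₀ A)
    (hy : AR15a_Chn S K T p y) : cd S (AR15a_Psi S y) = AR15a_Psi S (AR15a_dC S y) := by
  let F : (AR15a_Cel S →₀ A) →+ CC S A :=
    AddMonoidHom.mk' (fun y => cd S (AR15a_Psi S y)) (fun y y' => by
      rw [AR15a_Psi_add, AR15a_cd_add])
  let G : (AR15a_Cel S →₀ A) →+ CC S A :=
    AddMonoidHom.mk' (fun y => AR15a_Psi S (AR15a_dC S y)) (fun y y' => by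
      rw [map_add, AR15a_Psi_add])
  have := AR15a_ext S (F := F) (G := G) (x := y) (fun c hc a => by
    show cd S (AR15a_Psi S (single c a)) = AR15a_Psi S (AR15a_dC S (single c a))
    rw [AR15a_dC_single]
    exact AR15a_cd_single S c (hy c hc).1 a)
  exact this

theorem AR15a_Phi_chn (Lc : Finset V → Prop) (q : ℕ) (x : CC S A) (hx : CSup Lc q x) :
    AR15a_Chn S Lc Finset.univ q (AR15a_Phi S x) := by
  rintro ⟨σ, τ, y⟩ hc
  rw [Finsupp.mem_support_iff, AR15a_Phi_apply] at hc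
  by_contra h
  apply hc
  have h2 : ¬ (σ ⊆ τ ∧ Lc τ ∧ (τ \ σ).card = q) := fun h' =>
    h ⟨h'.1, h'.2.1, Finset.subset_univ _, h'.2.2⟩
  rw [hx σ τ h2]
  rfl

theorem AR15a_Psi_sup (Lc : Finset V → Prop) (q : ℕ) (y : AR15a_Cel S →₀ A)
    (hy : AR15a_Chn S Lc Finset.univ q y) : CSup Lc q (AR15a_Psi S y) := by
  intro σ τ h
  refine Finsupp.ext fun x => ?_
  rw [AR15a_Psi_apply]
  by_contra h2
  obtain ⟨h3, h4, h5, h6⟩ := hy ⟨σ, (τ, x)⟩ (Finsupp.mem_support_iff.2 h2)
  exact h ⟨h3, h4, h6⟩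

theorem AR15a_Phi_zero (Lc : Finset V → Prop) (x : CC S A) (hx : CSup Lc 0 x) :
    AR15a_Phi S x = ∑ σ : Finset V, mapDomain (AR15a_in S σ σ) (x σ σ) := by
  refine Finsupp.ext fun c => ?_
  obtain ⟨σ, τ, q⟩ := c
  rw [AR15a_Phi_apply, Finsupp.finsetSum_apply, Finset.sum_eq_single σ]
  · by_cases h : τ = σ
    · subst h
      have := Finsupp.mapDomain_apply (AR15a_in_inj S τ τ) (x τ τ) q
      exact this.symm
    · rw [Finsupp.mapDomain_of_notMem_range, hx σ τ]
      · rfl
      · rintro ⟨h1, h2, h3⟩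
        apply h
        rw [Finset.card_eq_zero, Finset.sdiff_eq_empty_iff_subset] at h3
        exact Finset.Subset.antisymm h3 h1
      · rintro ⟨q', hq'⟩
        have h4 := congrArg (fun c : AR15a_Cel S => c.2.1) hq'
        exact h h4.symm
  · intro σ' _ hσ'
    rw [Finsupp.mapDomain_of_notMem_range]
    rintro ⟨q', hq'⟩
    have h4 := congrArg (fun c : AR15a_Cel S => c.1) hq'
    exact hσ' h4
  · intro h
    exact absurd (Finset.mem_univ _) h

omit [LinearOrder V] in
theorem AR15a_zero_of_sum {Q : Type*} [Subsingleton Q] (g : Q →₀ A)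
    (h : (g.sum fun _ a => a) = 0) : g = 0 := by
  refine Finsupp.ext fun q => ?_
  have h1 : g = single q (g q) := by
    refine Finsupp.ext fun q' => ?_
    rw [Subsingleton.elim q' q, Finsupp.single_eq_same]
  rw [h1, Finsupp.sum_single_index rfl] at h
  rw [h]
  rfl

end bridge

/-- exactness by induction over vertex sets: if every `T` not in `Lc` splits as an amalgam along
two vertices `s, t` with `{s, t}` not in `Lc` -/
theorem dexact_of_trees {V : Type*} [Fintype V] [LinearOrder V] (S : CSys V)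
    (Lc : Finset V → Prop) (hdown : ∀ s t, s ⊆ t → Lc t → Lc s)
    (A : Type*) [AddCommGroup A]
    (hsurj : ∀ (s t : Finset V) (h : s ⊆ t), Function.Surjective (S.pr h))
    [Subsingleton (S.Q Finset.univ)]
    (hT : ∀ T : Finset V, ¬ Lc T → ∃ s ∈ T, ∃ t ∈ T, s ≠ t ∧ ¬ Lc {s, t} ∧
      ∀ (h1 : (T.erase s).erase t ⊆ T.erase s) (h2 : (T.erase s).erase t ⊆ T.erase t)
        (h3 : T.erase s ⊆ T) (h4 : T.erase t ⊆ T),
        TreeEx A (S.pr h1) (S.pr h2) (S.pr h3) (S.pr h4)) : DExact S Lc A := by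
  have h0 : Lc ∅ := by
    by_contra h
    obtain ⟨s, hs, -⟩ := hT ∅ h
    exact absurd hs (Finset.notMem_empty s)
  have hex := AR15a_ex_of_trees S A Lc hdown h0 (fun T => hsurj _ _ _) hT Finset.univ
  constructor
  · intro q x hx hd
    have h1 := AR15a_Phi_chn S Lc (q + 1) x hx
    have h2 := AR15a_cd_Psi S Lc _ _ _ h1
    rw [AR15a_Psi_Phi, hd] at h2
    obtain ⟨z, hz1, hz2⟩ := hex.succ q _ h1 (AR15a_Psi_inj S h2.symm)
    refine ⟨AR15a_Psi S z, AR15a_Psi_sup S Lc _ z hz1, ?_⟩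
    rw [AR15a_cd_Psi S Lc _ _ z hz1, hz2, AR15a_Psi_Phi]
  · intro x hx hs
    have h1 := AR15a_Phi_chn S Lc 0 x hx
    have h2 : AR15a_eps S Finset.univ (AR15a_Phi S x) = 0 := by
      apply AR15a_zero_of_sum
      let tot : (S.Q Finset.univ →₀ A) →+ A := Finsupp.liftAddHom fun _ => AddMonoidHom.id A
      have htot : ∀ g, tot g = g.sum fun _ a => a := fun g => rfl
      rw [← htot, AR15a_Phi_zero S Lc x hx, map_sum, map_sum, ← hs]
      refine Finset.sum_congr rfl fun σ _ => ?_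
      have := AR15a_ext' (F := (tot.comp (AR15a_eps S Finset.univ)).comp
          (Finsupp.mapDomain.addMonoidHom (AR15a_in S σ σ)))
        (G := Finsupp.liftAddHom fun _ => AddMonoidHom.id A) (x σ σ) (fun c a => by
          rw [AddMonoidHom.comp_apply, AddMonoidHom.comp_apply]
          have e : (Finsupp.mapDomain.addMonoidHom (AR15a_in S σ σ)) (single c a) =
            single (AR15a_in S σ σ c) a := Finsupp.mapDomain_single
          have e2 := AR15a_eps_single S Finset.univ σ σ c (Finset.subset_univ σ) a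
          rw [e]
          show tot (AR15a_eps S Finset.univ (single ⟨σ, (σ, c)⟩ a)) = _
          rw [e2, Finsupp.liftAddHom_apply_single, Finsupp.liftAddHom_apply_single])
      exact this
    obtain ⟨z, hz1, hz2⟩ := hex.zero _ h1 h2
    refine ⟨AR15a_Psi S z, AR15a_Psi_sup S Lc _ z hz1, ?_⟩
    rw [AR15a_cd_Psi S Lc _ _ z hz1, hz2, AR15a_Psi_Phi]

end GP

end OS
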