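import Mathlib
import Pool.Agent.Lib.MP_8fe54c_gt.GPDefs
import Pool.Agent.Lib.MP_8fe54c_gt.ArtCub

/-!
# Exactness over the integers implies exactness with coefficients in any abelian group

The proof uses a contracting homotopy, constructed on cells.
-/

namespace OS

open Finsupp

namespace GP

universe v w

section flat

variable {V : Type v} [LinearOrder V] (D : CSys.{v, w} V)

section ops

variable {A : Type*} [AddCommGroup A]

/-- the integral chain `z` times the coefficient `a` -/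
noncomputable def AR18_T (a : A) : (AR15a_Cel D →₀ ℤ) →+ (AR15a_Cel D →₀ A) :=
  Finsupp.mapRange.addMonoidHom (zmultiplesHom A a)

omit [LinearOrder V] in
theorem AR18_T_apply (a : A) (z : AR15a_Cel D →₀ ℤ) (c : AR15a_Cel D) :
    AR18_T D a z c = z c • a := by
  unfold AR18_T
  simp

omit [LinearOrder V] in
theorem AR18_T_single (a : A) (c : AR15a_Cel D) (n : ℤ) :
    AR18_T D a (single c n) = single c (n • a) := by
  classical
  refine Finsupp.ext fun c' => ?_
  rw [AR18_T_apply, Finsupp.single_apply, Finsupp.single_apply]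
  split_ifs
  · rfl
  · exact zero_smul _ _

omit [LinearOrder V] in
theorem AR18_T_chn [LinearOrder V] (K : Finset V → Prop) (T : Finset V) (p : ℕ) (a : A)
    {z : AR15a_Cel D →₀ ℤ}
    (hz : AR15a_Chn D K T p z) : AR15a_Chn D K T p (AR18_T D a z) := by
  intro c hc
  apply hz
  rw [Finsupp.mem_support_iff] at hc ⊢
  intro h
  apply hc
  rw [AR18_T_apply, h, zero_smul]

theorem AR18_dC_T (a : A) (z : AR15a_Cel D →₀ ℤ) :
    AR15a_dC D (AR18_T D a z) = AR18_T D a (AR15a_dC D z) := by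
  have := AR15a_ext D (F := (AR15a_dC D).comp (AR18_T D a))
    (G := (AR18_T D a).comp (AR15a_dC D)) (x := z) (fun c _ n => by
      rw [AddMonoidHom.comp_apply, AddMonoidHom.comp_apply, AR18_T_single, AR15a_dC_single,
        AR15a_dC_single]
      unfold AR15a_dcel
      rw [map_sum]
      refine Finset.sum_congr rfl fun v _ => ?_
      rw [map_zsmul, map_sub, AR18_T_single, AR18_T_single])
  exact this

/-- the additive operator given by an integral operator on cells -/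
noncomputable def AR18_H (h : AR15a_Cel D → (AR15a_Cel D →₀ ℤ)) :
    (AR15a_Cel D →₀ A) →+ (AR15a_Cel D →₀ A) :=
  Finsupp.liftAddHom (fun c => AddMonoidHom.mk' (fun a => AR18_T D a (h c)) (by
    intro a b
    refine Finsupp.ext fun c' => ?_
    rw [Finsupp.add_apply, AR18_T_apply, AR18_T_apply, AR18_T_apply, smul_add]))

omit [LinearOrder V] in
theorem AR18_H_single (h : AR15a_Cel D → (AR15a_Cel D →₀ ℤ)) (c : AR15a_Cel D) (a : A) :
    AR18_H D h (single c a) = AR18_T D a (h c) := by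
  unfold AR18_H
  rw [Finsupp.liftAddHom_apply_single]
  rfl

omit [LinearOrder V] in
theorem AR18_H_T (h : AR15a_Cel D → (AR15a_Cel D →₀ ℤ)) (a : A) (z : AR15a_Cel D →₀ ℤ) :
    AR18_H D h (AR18_T D a z) = AR18_T D a (AR18_H D h z) := by
  have := AR15a_ext D (F := (AR18_H (A := A) D h).comp (AR18_T D a))
    (G := (AR18_T D a).comp (AR18_H D h)) (x := z) (fun c _ n => by
      rw [AddMonoidHom.comp_apply, AddMonoidHom.comp_apply, AR18_T_single, AR18_H_single,
        AR18_H_single]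
      refine Finsupp.ext fun c' => ?_
      rw [AR18_T_apply, AR18_T_apply, AR18_T_apply, smul_smul, smul_eq_mul])
  exact this

theorem AR18_H_chn (K : Finset V → Prop) (T : Finset V) (p q : ℕ)
    (h : AR15a_Cel D → (AR15a_Cel D →₀ ℤ))
    (hh : ∀ c, AR15a_IsCel D K T p c → AR15a_Chn D K T q (h c))
    {x : AR15a_Cel D →₀ A} (hx : AR15a_Chn D K T p x) : AR15a_Chn D K T q (AR18_H D h x) := by
  rw [AR15a_Chn_iff]
  refine AR15a_maps D _ fun c hc a => ?_
  rw [AR18_H_single, ← AR15a_Chn_iff]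
  exact AR18_T_chn D K T q a (hh c (hx c hc))

/-- the sum of the coefficients -/
noncomputable def AR18_tot : (AR15a_Cel D →₀ A) →+ A :=
  Finsupp.liftAddHom fun _ => AddMonoidHom.id A

omit [LinearOrder V] in
theorem AR18_tot_single (c : AR15a_Cel D) (a : A) : AR18_tot D (single c a) = a := by
  unfold AR18_tot
  rw [Finsupp.liftAddHom_apply_single]
  rfl

theorem AR18_tot_dC (x : AR15a_Cel D →₀ A) : AR18_tot D (AR15a_dC D x) = 0 := by
  have := AR15a_ext D (F := (AR18_tot (A := A) D).comp (AR15a_dC D)) (G := 0) (x := x)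
    (fun c _ a => by
      rw [AddMonoidHom.comp_apply, AR15a_dC_single, AddMonoidHom.zero_apply]
      unfold AR15a_dcel
      rw [map_sum]
      refine Finset.sum_eq_zero fun v _ => ?_
      rw [map_zsmul, map_sub, AR18_tot_single, AR18_tot_single, sub_self, smul_zero])
  exact this

end ops

/-- the homotopy in positive degrees -/
def AR18_P (K : Finset V → Prop) (T : Finset V) (p : ℕ)
    (h g : AR15a_Cel D → (AR15a_Cel D →₀ ℤ)) : Prop :=
  ∀ c, AR15a_IsCel D K T (p + 1) c → AR15a_Chn D K T (p + 2) (h c) ∧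
    AR15a_dC D (h c) = single c 1 - AR18_H D g (AR15a_dC D (single c 1))

/-- the homotopy in degree zero -/
def AR18_P0 (K : Finset V → Prop) (T : Finset V) (b : AR15a_Cel D)
    (h : AR15a_Cel D → (AR15a_Cel D →₀ ℤ)) : Prop :=
  ∀ c, AR15a_IsCel D K T 0 c → AR15a_Chn D K T 1 (h c) ∧
    AR15a_dC D (h c) = single c 1 - single b 1

theorem AR18_fill {K : Finset V → Prop} {T : Finset V} {p : ℕ}
    {h g : AR15a_Cel D → (AR15a_Cel D →₀ ℤ)} (hP : AR18_P D K T p h g)
    {A : Type*} [AddCommGroup A] (x : AR15a_Cel D →₀ A) (hx : AR15a_Chn D K T (p + 1) x)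
    (hd : AR15a_dC D x = 0) :
    AR15a_Chn D K T (p + 2) (AR18_H D h x) ∧ AR15a_dC D (AR18_H D h x) = x := by
  refine ⟨AR18_H_chn D K T _ _ h (fun c hc => (hP c hc).1) hx, ?_⟩
  have := AR15a_ext D (F := (AR15a_dC D).comp (AR18_H (A := A) D h))
    (G := AddMonoidHom.id _ - (AR18_H (A := A) D g).comp (AR15a_dC D)) (x := x)
    (fun c hc a => by
      rw [AddMonoidHom.comp_apply, AddMonoidHom.sub_apply, AddMonoidHom.comp_apply,
        AddMonoidHom.id_apply, AR18_H_single, AR18_dC_T, (hP c (hx c hc)).2, map_sub,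
        ← AR18_H_T, ← AR18_dC_T, AR18_T_single, one_smul])
  rw [AddMonoidHom.comp_apply, AddMonoidHom.sub_apply, AddMonoidHom.comp_apply,
    AddMonoidHom.id_apply, hd, map_zero, sub_zero] at this
  exact this

theorem AR18_fill0 {K : Finset V → Prop} {T : Finset V} {b : AR15a_Cel D}
    {h : AR15a_Cel D → (AR15a_Cel D →₀ ℤ)} (hP : AR18_P0 D K T b h)
    {A : Type*} [AddCommGroup A] (x : AR15a_Cel D →₀ A) (hx : AR15a_Chn D K T 0 x)
    (hd : AR18_tot D x = 0) :
    AR15a_Chn D K T 1 (AR18_H D h x) ∧ AR15a_dC D (AR18_H D h x) = x := by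
  refine ⟨AR18_H_chn D K T _ _ h (fun c hc => (hP c hc).1) hx, ?_⟩
  have := AR15a_ext D (F := (AR15a_dC D).comp (AR18_H (A := A) D h))
    (G := AddMonoidHom.id _ - (Finsupp.singleAddHom b).comp (AR18_tot D)) (x := x)
    (fun c hc a => by
      rw [AddMonoidHom.comp_apply, AddMonoidHom.sub_apply, AddMonoidHom.comp_apply,
        AddMonoidHom.id_apply, AR18_H_single, AR18_dC_T, (hP c (hx c hc)).2, map_sub,
        AR18_T_single, AR18_T_single, one_smul, AR18_tot_single, Finsupp.singleAddHom_apply])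
  rw [AddMonoidHom.comp_apply, AddMonoidHom.sub_apply, AddMonoidHom.comp_apply,
    AddMonoidHom.id_apply, hd, map_zero, sub_zero] at this
  exact this

theorem AR18_single_chn (K : Finset V → Prop) (T : Finset V) (p : ℕ) {c : AR15a_Cel D}
    (hc : AR15a_IsCel D K T p c) {A : Type*} [AddCommGroup A] (a : A) :
    AR15a_Chn D K T p (single c a) := by
  rw [AR15a_Chn_iff]
  exact Finsupp.single_mem_supported _ _ hc

/-- construction of the homotopy -/
theorem AR18_exists (K : Finset V → Prop) (hK : ∀ s t, s ⊆ t → K t → K s) (T : Finset V)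
    (b : AR15a_Cel D) (hb : AR15a_IsCel D K T 0 b)
    (E0 : ∀ x : AR15a_Cel D →₀ ℤ, AR15a_Chn D K T 0 x → AR18_tot D x = 0 →
      ∃ z, AR15a_Chn D K T 1 z ∧ AR15a_dC D z = x)
    (E1 : ∀ (q : ℕ) (x : AR15a_Cel D →₀ ℤ), AR15a_Chn D K T (q + 1) x → AR15a_dC D x = 0 →
      ∃ z, AR15a_Chn D K T (q + 2) z ∧ AR15a_dC D z = x) :
    (∃ h, AR18_P0 D K T b h) ∧ ∀ p, ∃ h g, AR18_P D K T p h g := by
  classical
  have h0 : ∃ h, AR18_P0 D K T b h := by
    have h1 : ∀ c, AR15a_IsCel D K T 0 c → ∃ z : AR15a_Cel D →₀ ℤ, AR15a_Chn D K T 1 z ∧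
        AR15a_dC D z = single c 1 - single b 1 := by
      intro c hc
      refine E0 _ (AR15a_chn_sub D K T 0 (AR18_single_chn D K T 0 hc 1)
        (AR18_single_chn D K T 0 hb 1)) ?_
      rw [map_sub, AR18_tot_single, AR18_tot_single, sub_self]
    choose! f hf using h1
    exact ⟨f, hf⟩
  -- the general step
  have step : ∀ (p : ℕ) (g : AR15a_Cel D → (AR15a_Cel D →₀ ℤ)),
      (∀ c, AR15a_IsCel D K T (p + 1) c →
        AR15a_Chn D K T (p + 1) (AR18_H D g (AR15a_dC D (single c (1 : ℤ)))) ∧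
        AR15a_dC D (AR18_H D g (AR15a_dC D (single c (1 : ℤ)))) = AR15a_dC D (single c 1)) →
      ∃ h, AR18_P D K T p h g := by
    intro p g hg
    have h1 : ∀ c, AR15a_IsCel D K T (p + 1) c → ∃ z : AR15a_Cel D →₀ ℤ,
        AR15a_Chn D K T (p + 2) z ∧
        AR15a_dC D z = single c 1 - AR18_H D g (AR15a_dC D (single c 1)) := by
      intro c hc
      refine E1 _ _ (AR15a_chn_sub D K T _ (AR18_single_chn D K T _ hc 1) (hg c hc).1) ?_
      rw [map_sub, (hg c hc).2, sub_self]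
    choose! f hf using h1
    exact ⟨f, hf⟩
  refine ⟨h0, ?_⟩
  intro p
  induction p with
  | zero =>
    obtain ⟨g, hg⟩ := h0
    obtain ⟨h, hh⟩ := step 0 g (fun c hc =>
      AR18_fill0 D hg _ (AR15a_dC_chn D K hK T 0 _ (AR18_single_chn D K T _ hc 1))
        (AR18_tot_dC D _))
    exact ⟨h, g, hh⟩
  | succ p ih =>
    obtain ⟨g, g', hg⟩ := ih
    obtain ⟨h, hh⟩ := step (p + 1) g (fun c hc =>
      AR18_fill D hg _ (AR15a_dC_chn D K hK T (p + 1) _ (AR18_single_chn D K T _ hc 1))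
        (AR15a_dd D _))
    exact ⟨h, g, hh⟩

end flat

section bridge

variable {V : Type v} [Fintype V] [LinearOrder V] (S : CSys.{v, w} V) {A : Type*} [AddCommGroup A]

theorem AR18_tot_Phi (Lc : Finset V → Prop) (x : CC S A) (hx : CSup Lc 0 x) :
    AR18_tot S (AR15a_Phi S x) = ∑ σ : Finset V, (x σ σ).sum fun _ a => a := by
  rw [AR15a_Phi_zero S Lc x hx, map_sum]
  refine Finset.sum_congr rfl fun σ _ => ?_
  have := AR15a_ext' (F := (AR18_tot (A := A) S).comp
      (Finsupp.mapDomain.addMonoidHom (AR15a_in S σ σ)))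
    (G := Finsupp.liftAddHom fun _ => AddMonoidHom.id A) (x σ σ) (fun c a => by
      rw [AddMonoidHom.comp_apply]
      have e : (Finsupp.mapDomain.addMonoidHom (AR15a_in S σ σ)) (single c a) =
        single (AR15a_in S σ σ c) a := Finsupp.mapDomain_single
      rw [e, AR18_tot_single, Finsupp.liftAddHom_apply_single]
      rfl)
  exact this

omit [LinearOrder V] in
theorem AR18_Phi_Psi (y : AR15a_Cel S →₀ A) : AR15a_Phi S (AR15a_Psi S y) = y := by
  refine Finsupp.ext fun c => ?_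
  obtain ⟨σ, τ, q⟩ := c
  rw [AR15a_Phi_apply, AR15a_Psi_apply]

end bridge

/-- exactness with integral coefficients implies exactness with coefficients in any abelian
group -/
theorem dexact_coeff {V : Type*} [Fintype V] [LinearOrder V] (S : CSys V)
    (Lc : Finset V → Prop) (hdown : ∀ s t : Finset V, s ⊆ t → Lc t → Lc s)
    (h0 : Lc ∅) [Nonempty (S.Q ∅)] (h : DExact S Lc ℤ) (A : Type*)
    [AddCommGroup A] : DExact S Lc A := by
  have E1 : ∀ (q : ℕ) (x : AR15a_Cel S →₀ ℤ), AR15a_Chn S Lc Finset.univ (q + 1) x →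
      AR15a_dC S x = 0 → ∃ z, AR15a_Chn S Lc Finset.univ (q + 2) z ∧ AR15a_dC S z = x := by
    intro q x hx hd
    have h1 := AR15a_Psi_sup S Lc (q + 1) x hx
    have h2 := AR15a_cd_Psi S Lc Finset.univ (q + 1) x hx
    have h3 : AR15a_Psi S (0 : AR15a_Cel S →₀ ℤ) = 0 := by
      funext σ τ
      exact Finsupp.ext fun q => rfl
    rw [hd, h3] at h2
    obtain ⟨y, hy1, hy2⟩ := h.1 q _ h1 h2
    have h4 := AR15a_Phi_chn S Lc (q + 2) y hy1
    refine ⟨AR15a_Phi S y, h4, ?_⟩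
    have h5 := AR15a_cd_Psi S Lc Finset.univ (q + 2) _ h4
    rw [AR15a_Psi_Phi, hy2] at h5
    rw [← AR18_Phi_Psi S (AR15a_dC S (AR15a_Phi S y)), ← h5, AR18_Phi_Psi]
  have E0 : ∀ x : AR15a_Cel S →₀ ℤ, AR15a_Chn S Lc Finset.univ 0 x → AR18_tot S x = 0 →
      ∃ z, AR15a_Chn S Lc Finset.univ 1 z ∧ AR15a_dC S z = x := by
    intro x hx hs
    have h1 := AR15a_Psi_sup S Lc 0 x hx
    have h2 := AR18_tot_Phi S Lc _ h1
    rw [AR18_Phi_Psi, hs] at h2
    obtain ⟨y, hy1, hy2⟩ := h.2 _ h1 h2.symm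
    have h4 := AR15a_Phi_chn S Lc 1 y hy1
    refine ⟨AR15a_Phi S y, h4, ?_⟩
    have h5 := AR15a_cd_Psi S Lc Finset.univ 1 _ h4
    rw [AR15a_Psi_Phi, hy2] at h5
    rw [← AR18_Phi_Psi S (AR15a_dC S (AR15a_Phi S y)), ← h5, AR18_Phi_Psi]
  obtain ⟨q0⟩ := (inferInstance : Nonempty (S.Q ∅))
  obtain ⟨⟨g, hg⟩, hP⟩ := AR18_exists S Lc hdown Finset.univ ⟨∅, (∅, q0)⟩
    ⟨subset_refl _, h0, Finset.subset_univ _, by simp⟩ E0 E1
  constructor
  · intro q x hx hd
    obtain ⟨k, k', hk⟩ := hP q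
    have h1 := AR15a_Phi_chn S Lc (q + 1) x hx
    have h2 := AR15a_cd_Psi S Lc _ _ _ h1
    rw [AR15a_Psi_Phi, hd] at h2
    obtain ⟨hz1, hz2⟩ := AR18_fill S hk _ h1 (AR15a_Psi_inj S h2.symm)
    refine ⟨AR15a_Psi S _, AR15a_Psi_sup S Lc _ _ hz1, ?_⟩
    rw [AR15a_cd_Psi S Lc _ _ _ hz1, hz2, AR15a_Psi_Phi]
  · intro x hx hs
    have h1 := AR15a_Phi_chn S Lc 0 x hx
    have h2 := AR18_tot_Phi S Lc x hx
    rw [hs] at h2
    obtain ⟨hz1, hz2⟩ := AR18_fill0 S hg _ h1 h2
    refine ⟨AR15a_Psi S _, AR15a_Psi_sup S Lc _ _ hz1, ?_⟩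
    rw [AR15a_cd_Psi S Lc _ _ _ hz1, hz2, AR15a_Psi_Phi]

end GP

end OS
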