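import Mathlib
import Pool.Agent.Lib.MP_8fe54c_gt.ArtDefs
import Pool.Agent.Lib.MP_8fe54c_gt.ArtGeo
import Pool.Agent.Lib.MP_8fe54c_gt.ArtPara

/-!
# Standard parabolic subgroups of Artin groups have the standard presentation (module AR13)
-/

namespace OS

open CoxeterSystem

section AR13

variable {B : Type*} {M : CoxeterMatrix B} {W : Type*} [Group W] (cs : CoxeterSystem M W)

/-! ## the reduced part -/

theorem AR13_exists_red (X : Set B) (w : W) : ∃ v, LRed cs X v ∧ w * v⁻¹ ∈ WP cs X := by
  obtain ⟨u, hu, v, hv, rfl⟩ := exists_factor cs X w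
  exact ⟨v, hv, by simpa using hu⟩

/-- the `X`-reduced part of `w` -/
noncomputable def AR13_red (X : Set B) (w : W) : W := (AR13_exists_red cs X w).choose

theorem AR13_red_LRed (X : Set B) (w : W) : LRed cs X (AR13_red cs X w) :=
  (AR13_exists_red cs X w).choose_spec.1

theorem AR13_red_mem (X : Set B) (w : W) : w * (AR13_red cs X w)⁻¹ ∈ WP cs X :=
  (AR13_exists_red cs X w).choose_spec.2

variable {cs}

theorem AR13_red_eq {X : Set B} {u v : W} (hu : u ∈ WP cs X) (hv : LRed cs X v) :
    AR13_red cs X (u * v) = v := by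
  refine (factor_unique cs hu (AR13_red_mem cs X (u * v)) hv (AR13_red_LRed cs X _) ?_).2.symm
  group

theorem AR13_red_self {X : Set B} {v : W} (hv : LRed cs X v) : AR13_red cs X v = v := by
  have := AR13_red_eq (WP cs X).one_mem hv
  rwa [one_mul] at this

theorem AR13_red_mul {X : Set B} {u : W} (hu : u ∈ WP cs X) (w : W) :
    AR13_red cs X (u * w) = AR13_red cs X w := by
  have h : u * w = (u * (w * (AR13_red cs X w)⁻¹)) * AR13_red cs X w := by group
  rw [h]
  exact AR13_red_eq ((WP cs X).mul_mem hu (AR13_red_mem cs X w)) (AR13_red_LRed cs X w)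

/-! ## the cocycle -/

variable {G : Type*} [Group G]

open Classical in
/-- the value on the `i`-edge at `w` -/
noncomputable def AR13_gam (cs : CoxeterSystem M W) (X : Set B) (f : B → G) (w : W) (i : B) : G :=
  if h : ∃ x, x ∈ X ∧ AR13_red cs X w * cs.simple i = cs.simple x * AR13_red cs X w then
    f h.choose else 1

theorem AR13_gam_mul {X : Set B} (f : B → G) {u : W} (hu : u ∈ WP cs X) (w : W) (i : B) :
    AR13_gam cs X f (u * w) i = AR13_gam cs X f w i := by
  unfold AR13_gam
  rw [AR13_red_mul hu]

theorem AR13_gam_eq {X : Set B} (f : B → G) {w : W} {i x : B} (hx : x ∈ X)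
    (h : AR13_red cs X w * cs.simple i = cs.simple x * AR13_red cs X w) :
    AR13_gam cs X f w i = f x := by
  unfold AR13_gam
  have h0 : ∃ x, x ∈ X ∧ AR13_red cs X w * cs.simple i = cs.simple x * AR13_red cs X w :=
    ⟨x, hx, h⟩
  rw [dif_pos h0]
  have h1 := h.symm.trans h0.choose_spec.2
  have h2 := mul_right_cancel h1
  exact congrArg f (simple_inj cs h2).symm

theorem AR13_gam_one {X : Set B} (f : B → G) {w : W} {i : B}
    (h : ¬ ∃ x, x ∈ X ∧ AR13_red cs X w * cs.simple i = cs.simple x * AR13_red cs X w) :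
    AR13_gam cs X f w i = 1 := by
  unfold AR13_gam
  rw [dif_neg h]

/-- the product of the values along a path which starts at `w` -/
noncomputable def AR13_P (cs : CoxeterSystem M W) (X : Set B) (f : B → G) : W → List B → G
  | _, [] => 1
  | w, i :: ω => AR13_gam cs X f w i * AR13_P cs X f (w * cs.simple i) ω

theorem AR13_P_mul {X : Set B} (f : B → G) {u : W} (hu : u ∈ WP cs X) (w : W) (ω : List B) :
    AR13_P cs X f (u * w) ω = AR13_P cs X f w ω := by
  induction ω generalizing w with
  | nil => rfl
  | cons i ω ih =>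
    rw [AR13_P, AR13_P, AR13_gam_mul f hu, mul_assoc u, ih]

/-! ## alternating words -/

/-- the alternating word which begins with `i` -/
def AR13_alt (i j : B) : ℕ → List B
  | 0 => []
  | m + 1 => i :: AR13_alt j i m

theorem AR13_alternatingWord (i j : B) (m : ℕ) :
    alternatingWord i j m = if Even m then AR13_alt i j m else AR13_alt j i m := by
  induction m with
  | zero => rfl
  | succ m ih =>
    rw [alternatingWord_succ', ih]
    by_cases h : Even m
    · have h' : ¬ Even (m + 1) := by rw [Nat.even_add_one]; exact not_not.2 h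
      rw [if_pos h, if_pos h, if_neg h']
      rfl
    · have h' : Even (m + 1) := by rw [Nat.even_add_one]; exact h
      rw [if_neg h, if_neg h, if_pos h']
      rfl

theorem AR13_alt_iff {α : Type*} (F : List B → α) (i j : B) (m : ℕ) :
    F (alternatingWord i j m) = F (alternatingWord j i m) ↔
      F (AR13_alt i j m) = F (AR13_alt j i m) := by
  rw [AR13_alternatingWord, AR13_alternatingWord]
  by_cases h : Even m
  · rw [if_pos h, if_pos h]
  · rw [if_neg h, if_neg h]
    exact eq_comm

/-! ## counting reflections in words -/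

open Classical in
/-- the number of times the path of the word crosses the wall of `t` -/
noncomputable def AR13_cnt (cs : CoxeterSystem M W) : W → List B → ℕ
  | _, [] => 0
  | t, r :: ω => (if cs.simple r = t then 1 else 0) +
      AR13_cnt cs (cs.simple r * t * cs.simple r) ω

theorem AR13_pow_swap (a b : G) (k : ℕ) : b * (a * b) ^ k = (b * a) ^ k * b := by
  induction k with
  | zero => simp
  | succ k ih =>
    rw [pow_succ', pow_succ', mul_assoc (b * a), ← ih]
    simp only [mul_assoc]

open Classical in
theorem AR13_cnt_alt (cs : CoxeterSystem M W) (i j : B) (m : ℕ) (t : W) :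
    AR13_cnt cs t (AR13_alt i j m) = ∑ k ∈ Finset.range m,
      if (cs.simple i * cs.simple j) ^ k * cs.simple i = t then 1 else 0 := by
  induction m generalizing i j t with
  | zero => rfl
  | succ m ih =>
    rw [AR13_alt, AR13_cnt, ih, Finset.sum_range_succ', add_comm]
    congr 1
    · apply Finset.sum_congr rfl
      intro k _
      have h : (cs.simple i * cs.simple j) ^ (k + 1) * cs.simple i =
          cs.simple i * ((cs.simple j * cs.simple i) ^ k * cs.simple j) * cs.simple i := by
        rw [pow_succ', mul_assoc (cs.simple i), AR13_pow_swap]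
      have h3 : ∀ y : W, y = cs.simple i * t * cs.simple i ↔
          cs.simple i * y * cs.simple i = t := by
        intro y
        constructor
        · rintro rfl
          simp [mul_assoc]
        · rintro rfl
          simp [mul_assoc]
      rw [h]
      by_cases h4 : (cs.simple j * cs.simple i) ^ k * cs.simple j =
          cs.simple i * t * cs.simple i
      · rw [if_pos h4, if_pos ((h3 _).1 h4)]
      · rw [if_neg h4, if_neg (fun h5 => h4 ((h3 _).2 h5))]
    · simp

theorem AR13_cnt_swap (cs : CoxeterSystem M W) (i j : B) (t : W) :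
    AR13_cnt cs t (AR13_alt i j (M i j)) = AR13_cnt cs t (AR13_alt j i (M i j)) := by
  classical
  rw [AR13_cnt_alt, AR13_cnt_alt, ← Finset.sum_range_reflect]
  apply Finset.sum_congr rfl
  intro k hk
  rw [Finset.mem_range] at hk
  have h : (cs.simple i * cs.simple j) ^ (M i j - 1 - k) * cs.simple i =
      (cs.simple j * cs.simple i) ^ k * cs.simple j := by
    have h1 : (cs.simple j * cs.simple i) = (cs.simple i * cs.simple j)⁻¹ := by simp
    have h2 : (cs.simple i * cs.simple j) ^ (M i j - 1 - k) * (cs.simple i * cs.simple j) *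
        (cs.simple i * cs.simple j) ^ k = 1 := by
      rw [← pow_succ, ← pow_add]
      have : M i j - 1 - k + 1 + k = M i j := by omega
      rw [this, cs.simple_mul_simple_pow]
    rw [h1, inv_pow]
    have h3 : (cs.simple i * cs.simple j) ^ (M i j - 1 - k) * (cs.simple i * cs.simple j) =
        ((cs.simple i * cs.simple j) ^ k)⁻¹ := eq_inv_of_mul_eq_one_left h2
    rw [← h3]
    simp [mul_assoc]
  rw [h]

/-! ## the rank two analysis -/

section rank2

variable {X : Set B} {f : B → G} {i j : B} {v : W}

/-- `v` is reduced on the left for `X` and on the right for `i, j` -/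
structure AR13_Dbl (cs : CoxeterSystem M W) (X : Set B) (i j : B) (v : W) : Prop where
  left : LRed cs X v
  right : LRed cs ({i, j} : Set B) v⁻¹

theorem AR13_Dbl.length_mul (h : AR13_Dbl cs X i j v) {d : W} (hd : d ∈ WP cs ({i, j} : Set B)) :
    cs.length (v * d) = cs.length v + cs.length d := by
  have h1 := length_mul_of_LRed cs ((WP cs ({i, j} : Set B)).inv_mem hd) h.right
  rw [← mul_inv_rev, cs.length_inv, cs.length_inv, cs.length_inv] at h1
  omega

theorem AR13_Dbl.key (h : AR13_Dbl cs X i j v) {d : W} (hd : d ∈ WP cs ({i, j} : Set B)) {y : B}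
    (hy : y ∈ X) (he : v * d = cs.simple y * v) :
    ∃ k ∈ ({i, j} : Set B), d = cs.simple k := by
  have h1 := h.length_mul hd
  rw [he] at h1
  have h2 := h.left y hy
  rw [cs.not_isLeftDescent_iff] at h2
  have h3 : cs.length d = 1 := by omega
  obtain ⟨k, hk⟩ := cs.length_eq_one_iff.1 h3
  refine ⟨k, ?_, hk⟩
  rw [hk] at hd
  exact (simple_mem_WP_iff cs).1 hd

/-- `r` is conjugated by `v` to an element of `X` -/
def AR13_K (cs : CoxeterSystem M W) (X : Set B) (v : W) (r : B) : Prop :=
  ∃ x ∈ X, v * cs.simple r = cs.simple x * v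

theorem AR13_Dbl.LRed_mul (h : AR13_Dbl cs X i j v) (n : ℕ) {d : W} (hn : cs.length d = n)
    (hd : d ∈ WP cs ({i, j} : Set B))
    (hK : ∀ r ∈ ({i, j} : Set B), AR13_K cs X v r → ¬ cs.IsLeftDescent d r) :
    LRed cs X (v * d) := by
  induction n generalizing d with
  | zero =>
    rw [cs.length_eq_zero_iff] at hn
    rw [hn, mul_one]
    exact h.left
  | succ n ih =>
    obtain ⟨ω, hω, hred, hprod⟩ := exists_word_of_mem_WP cs hd
    rcases List.eq_nil_or_concat ω with rfl | ⟨ω1, r, rfl⟩
    · simp at hprod
      rw [← hprod, cs.length_one] at hn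
      omega
    · have hr : r ∈ ({i, j} : Set B) := hω r (by simp)
      have hω1 : ∀ s ∈ ω1, s ∈ ({i, j} : Set B) := fun s hs => hω s (by simp [hs])
      rw [List.concat_eq_append] at hprod hred
      have hlen : cs.length d = ω1.length + 1 := by
        rw [← hprod]
        have := hred.eq
        rw [this]
        simp
      set d1 := cs.wordProd ω1 with hd1
      have hd' : d = d1 * cs.simple r := by
        rw [← hprod, cs.wordProd_append, cs.wordProd_singleton]
      have hl1 : cs.length d1 = n := by
        have h1 : cs.length d1 ≤ ω1.length := cs.length_wordProd_le ω1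
        have h2 : cs.length d ≤ cs.length d1 + 1 := by
          rw [hd']
          refine (cs.length_mul_le _ _).trans ?_
          rw [cs.length_simple]
        omega
      have hd1m : d1 ∈ WP cs ({i, j} : Set B) := wordProd_mem_WP cs hω1
      have hK1 : ∀ s ∈ ({i, j} : Set B), AR13_K cs X v s → ¬ cs.IsLeftDescent d1 s := by
        intro s hs hsK hdes
        apply hK s hs hsK
        unfold IsLeftDescent at hdes ⊢
        rw [hd', ← mul_assoc]
        have h1 := cs.length_mul_le (cs.simple s * d1) (cs.simple r)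
        rw [cs.length_simple] at h1
        rw [← hd']
        omega
      have h1 := ih hl1 hd1m hK1
      rcases deodhar cs h1 r with h2 | ⟨y, hy, h2⟩
      · rw [hd', ← mul_assoc]
        exact h2
      · exfalso
        have h3 : v * (d1 * cs.simple r * d1⁻¹) = cs.simple y * v := by
          rw [← mul_assoc, ← mul_assoc, h2]
          group
        obtain ⟨k, hk, h4⟩ := h.key ((WP cs _).mul_mem ((WP cs _).mul_mem hd1m
          (simple_mem_WP cs hr)) ((WP cs _).inv_mem hd1m)) hy h3
        have h5 : d1 * cs.simple r = cs.simple k * d1 := by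
          rw [← h4]
          group
        apply hK k hk ⟨y, hy, by rw [← h4]; exact h3⟩
        unfold IsLeftDescent
        rw [hd', h5, cs.simple_mul_simple_cancel_left, ← h5, ← hd']
        omega

/-- no letter is conjugated into `X` -/
theorem AR13_Dbl.case0 (h : AR13_Dbl cs X i j v)
    (hK : ∀ r ∈ ({i, j} : Set B), ¬ AR13_K cs X v r) (ω : List B)
    (hω : ∀ r ∈ ω, r ∈ ({i, j} : Set B)) {d : W} (hd : d ∈ WP cs ({i, j} : Set B)) :
    AR13_P cs X f (v * d) ω = 1 := by
  induction ω generalizing d with
  | nil => rfl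
  | cons r ω ih =>
    have hr : r ∈ ({i, j} : Set B) := hω r (by simp)
    have hω1 : ∀ s ∈ ω, s ∈ ({i, j} : Set B) := fun s hs => hω s (by simp [hs])
    rw [AR13_P, mul_assoc, ih hω1 ((WP cs _).mul_mem hd (simple_mem_WP cs hr)), mul_one]
    have hred : AR13_red cs X (v * d) = v * d :=
      AR13_red_self (h.LRed_mul _ rfl hd (fun s hs hsK => absurd hsK (hK s hs)))
    apply AR13_gam_one
    rintro ⟨y, hy, h2⟩
    rw [hred] at h2
    have h3 : v * (d * cs.simple r * d⁻¹) = cs.simple y * v := by
      rw [← mul_assoc, ← mul_assoc, h2]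
      group
    obtain ⟨k, hk, h4⟩ := h.key ((WP cs _).mul_mem ((WP cs _).mul_mem hd
      (simple_mem_WP cs hr)) ((WP cs _).inv_mem hd)) hy h3
    exact hK k hk ⟨y, hy, by rw [← h4]; exact h3⟩

/-- the value of the cocycle when exactly one letter is conjugated into `X` -/
theorem AR13_Dbl.gam1 (h : AR13_Dbl cs X i j v) {k x : B} (hk : k ∈ ({i, j} : Set B))
    (hx : x ∈ X) (hkx : v * cs.simple k = cs.simple x * v)
    (hK : ∀ r ∈ ({i, j} : Set B), AR13_K cs X v r → r = k) {r : B} (hr : r ∈ ({i, j} : Set B))
    {d : W} (hd : d ∈ WP cs ({i, j} : Set B)) :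
    (d * cs.simple r * d⁻¹ = cs.simple k → AR13_gam cs X f (v * d) r = f x) ∧
    (d * cs.simple r * d⁻¹ ≠ cs.simple k → AR13_gam cs X f (v * d) r = 1) := by
  -- first the case when `k` is not a left descent of `d`
  have main : ∀ {d : W}, d ∈ WP cs ({i, j} : Set B) → ¬ cs.IsLeftDescent d k →
      (d * cs.simple r * d⁻¹ = cs.simple k → AR13_gam cs X f (v * d) r = f x) ∧
      (d * cs.simple r * d⁻¹ ≠ cs.simple k → AR13_gam cs X f (v * d) r = 1) := by
    intro d hd hdes
    have hred : AR13_red cs X (v * d) = v * d :=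
      AR13_red_self (h.LRed_mul _ rfl hd (fun s hs hsK => by rw [hK s hs hsK]; exact hdes))
    constructor
    · intro h1
      apply AR13_gam_eq f hx
      rw [hred, ← mul_assoc, ← hkx, ← h1]
      group
    · intro h1
      apply AR13_gam_one
      rintro ⟨y, hy, h2⟩
      rw [hred] at h2
      have h3 : v * (d * cs.simple r * d⁻¹) = cs.simple y * v := by
        rw [← mul_assoc, ← mul_assoc, h2]
        group
      obtain ⟨k', hk', h4⟩ := h.key ((WP cs _).mul_mem ((WP cs _).mul_mem hd
        (simple_mem_WP cs hr)) ((WP cs _).inv_mem hd)) hy h3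
      have h5 := hK k' hk' ⟨y, hy, by rw [← h4]; exact h3⟩
      rw [h5] at h4
      exact h1 h4
  by_cases hdes : cs.IsLeftDescent d k
  · have h1 : ¬ cs.IsLeftDescent (cs.simple k * d) k := by
      rw [← cs.isLeftDescent_iff_not_isLeftDescent_mul]
      exact hdes
    have h2 : v * d = cs.simple x * (v * (cs.simple k * d)) := by
      rw [← mul_assoc v, hkx, mul_assoc, cs.simple_mul_simple_cancel_left]
    have h3 := main ((WP cs _).mul_mem (simple_mem_WP cs hk) hd) h1
    have h4 : cs.simple k * d * cs.simple r * (cs.simple k * d)⁻¹ = cs.simple k ↔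
        d * cs.simple r * d⁻¹ = cs.simple k := by
      rw [mul_inv_rev, cs.inv_simple]
      constructor
      · intro h5
        have h6 := congrArg (fun z => cs.simple k * z * cs.simple k) h5
        simpa [mul_assoc] using h6
      · intro h5
        have h6 := congrArg (fun z => cs.simple k * z * cs.simple k) h5
        simpa [mul_assoc] using h6
    rw [h2, AR13_gam_mul f (simple_mem_WP cs hx)]
    exact ⟨fun h5 => h3.1 (h4.2 h5), fun h5 => h3.2 (fun h6 => h5 (h4.1 h6))⟩
  · exact main hd hdes

theorem AR13_Dbl.case1 (h : AR13_Dbl cs X i j v) {k x : B} (hk : k ∈ ({i, j} : Set B))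
    (hx : x ∈ X) (hkx : v * cs.simple k = cs.simple x * v)
    (hK : ∀ r ∈ ({i, j} : Set B), AR13_K cs X v r → r = k) (ω : List B)
    (hω : ∀ r ∈ ω, r ∈ ({i, j} : Set B)) {d : W} (hd : d ∈ WP cs ({i, j} : Set B)) :
    AR13_P cs X f (v * d) ω = f x ^ AR13_cnt cs (d⁻¹ * cs.simple k * d) ω := by
  induction ω generalizing d with
  | nil => simp [AR13_P, AR13_cnt]
  | cons r ω ih =>
    have hr : r ∈ ({i, j} : Set B) := hω r (by simp)
    have hω1 : ∀ s ∈ ω, s ∈ ({i, j} : Set B) := fun s hs => hω s (by simp [hs])
    have h1 : (d * cs.simple r)⁻¹ * cs.simple k * (d * cs.simple r) =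
        cs.simple r * (d⁻¹ * cs.simple k * d) * cs.simple r := by
      rw [mul_inv_rev, cs.inv_simple]
      group
    rw [AR13_P, mul_assoc, ih hω1 ((WP cs _).mul_mem hd (simple_mem_WP cs hr)), AR13_cnt, h1,
      pow_add]
    congr 1
    have h2 := h.gam1 (f := f) hk hx hkx hK hr hd
    by_cases h3 : cs.simple r = d⁻¹ * cs.simple k * d
    · rw [if_pos h3, pow_one]
      apply h2.1
      rw [h3]
      group
    · rw [if_neg h3, pow_zero]
      apply h2.2
      intro h4
      apply h3
      rw [← h4]
      group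

/-- both letters are conjugated into `X` -/
theorem AR13_case2 (hv : LRed cs X v) {i j x y : B} (hx : x ∈ X) (hy : y ∈ X)
    (hix : v * cs.simple i = cs.simple x * v) (hjy : v * cs.simple j = cs.simple y * v) (m : ℕ) :
    AR13_P cs X f v (AR13_alt i j m) = wp f (AR13_alt x y m) := by
  induction m generalizing i j x y with
  | zero => rfl
  | succ m ih =>
    rw [AR13_alt, AR13_alt, AR13_P, wp_cons, hix, AR13_P_mul f (simple_mem_WP cs hx),
      ih hy hx hjy hix]
    congr 1
    apply AR13_gam_eq f hx
    rw [AR13_red_self hv]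
    exact hix

end rank2

theorem AR13_mem_alt {i j : B} {m : ℕ} : ∀ r ∈ AR13_alt i j m, r ∈ ({i, j} : Set B) := by
  induction m generalizing i j with
  | zero => intro r hr; simp [AR13_alt] at hr
  | succ m ih =>
    intro r hr
    rw [AR13_alt, List.mem_cons] at hr
    rcases hr with rfl | hr
    · exact Or.inl rfl
    · rw [Set.pair_comm]
      exact ih r hr

theorem AR13_exists_dbl (cs : CoxeterSystem M W) (X : Set B) (i j : B) (x : W) :
    ∃ u ∈ WP cs X, ∃ d ∈ WP cs ({i, j} : Set B), ∃ v, AR13_Dbl cs X i j v ∧ x = u * (v * d) := by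
  obtain ⟨d, hd, y, hy, hxy⟩ := exists_factor cs ({i, j} : Set B) x⁻¹
  obtain ⟨u, hu, v, hv, huv⟩ := exists_factor cs X y⁻¹
  refine ⟨u, hu, d⁻¹, (WP cs _).inv_mem hd, v, ⟨hv, ?_⟩, ?_⟩
  · intro r hr hdes
    rw [cs.isLeftDescent_inv_iff] at hdes
    apply hy r hr
    rw [← cs.isRightDescent_inv_iff]
    unfold IsRightDescent at hdes ⊢
    have h1 := length_mul_of_LRed cs hu hv
    rw [huv, h1, mul_assoc]
    have h2 := cs.length_mul_le u (v * cs.simple r)
    omega
  · rw [← mul_assoc, ← huv, ← mul_inv_rev, ← hxy, inv_inv]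

theorem AR13_conj_mem {X : Set B} {i j x y : B} {v : W} (hx : x ∈ X) (hy : y ∈ X)
    (hix : v * cs.simple i = cs.simple x * v) (hjy : v * cs.simple j = cs.simple y * v) {d : W}
    (hd : d ∈ WP cs ({i, j} : Set B)) : v * d * v⁻¹ ∈ WP cs X := by
  have h1 : WP cs ({i, j} : Set B) ≤ (WP cs X).comap (MulAut.conj v).toMonoidHom := by
    rw [WP, Subgroup.closure_le]
    rintro _ ⟨r, hr, rfl⟩
    rcases hr with rfl | hr
    · change v * cs.simple r * v⁻¹ ∈ WP cs X
      rw [hix, mul_inv_cancel_right]
      exact simple_mem_WP cs hx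
    · rw [Set.mem_singleton_iff] at hr
      subst hr
      change v * cs.simple r * v⁻¹ ∈ WP cs X
      rw [hjy, mul_inv_cancel_right]
      exact simple_mem_WP cs hy
  exact h1 hd

theorem AR13_M_eq {i j x y : B} {v : W}
    (hix : v * cs.simple i = cs.simple x * v) (hjy : v * cs.simple j = cs.simple y * v) :
    M x y = M i j := by
  rw [← orderOf_simple_mul cs, ← orderOf_simple_mul cs]
  have h1 : cs.simple x * cs.simple y =
      (MulAut.conj v).toMonoidHom (cs.simple i * cs.simple j) := by
    change _ = v * (cs.simple i * cs.simple j) * v⁻¹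
    rw [← mul_assoc, hix, mul_assoc (cs.simple x), hjy]
    group
  rw [h1]
  exact orderOf_injective _ (MulAut.conj v).injective _

/-- the braid relations along paths -/
theorem AR13_braid {X : Set B} {f : B → G} (hf : ∀ i ∈ X, ∀ j ∈ X, Braid M f i j) (i j : B)
    (x : W) : AR13_P cs X f x (alternatingWord i j (M i j)) =
      AR13_P cs X f x (alternatingWord j i (M i j)) := by
  rw [AR13_alt_iff (AR13_P cs X f x)]
  obtain ⟨u, hu, d, hd, v, hv, rfl⟩ := AR13_exists_dbl cs X i j x
  rw [AR13_P_mul f hu, AR13_P_mul f hu]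
  have hji : ∀ r ∈ AR13_alt j i (M i j), r ∈ ({i, j} : Set B) := by
    intro r hr
    rw [Set.pair_comm]
    exact AR13_mem_alt r hr
  by_cases hi : AR13_K cs X v i
  · obtain ⟨x, hx, hix⟩ := hi
    by_cases hj : AR13_K cs X v j
    · obtain ⟨y, hy, hjy⟩ := hj
      have h1 : v * d = (v * d * v⁻¹) * v := by group
      rw [h1, AR13_P_mul f (AR13_conj_mem hx hy hix hjy hd),
        AR13_P_mul f (AR13_conj_mem hx hy hix hjy hd),
        AR13_case2 hv.left hx hy hix hjy, AR13_case2 hv.left hy hx hjy hix,
        ← AR13_M_eq hix hjy, ← AR13_alt_iff (wp f)]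
      exact hf x hx y hy
    · have hK : ∀ r ∈ ({i, j} : Set B), AR13_K cs X v r → r = i := by
        intro r hr hrK
        rcases hr with hr | hr
        · exact hr
        · rw [Set.mem_singleton_iff] at hr
          rw [hr] at hrK
          exact absurd hrK hj
      rw [hv.case1 (Or.inl rfl) hx hix hK _ AR13_mem_alt hd,
        hv.case1 (Or.inl rfl) hx hix hK _ hji hd, AR13_cnt_swap]
  · by_cases hj : AR13_K cs X v j
    · obtain ⟨y, hy, hjy⟩ := hj
      have hK : ∀ r ∈ ({i, j} : Set B), AR13_K cs X v r → r = j := by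
        intro r hr hrK
        rcases hr with hr | hr
        · rw [hr] at hrK
          exact absurd hrK hi
        · exact hr
      rw [hv.case1 (Or.inr rfl) hy hjy hK _ AR13_mem_alt hd,
        hv.case1 (Or.inr rfl) hy hjy hK _ hji hd, AR13_cnt_swap]
    · have hK : ∀ r ∈ ({i, j} : Set B), ¬ AR13_K cs X v r := by
        intro r hr
        rcases hr with hr | hr
        · rw [hr]; exact hi
        · rw [Set.mem_singleton_iff] at hr
          rw [hr]; exact hj
      rw [hv.case0 hK _ AR13_mem_alt hd, hv.case0 hK _ hji hd]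

/-! ## the wreath product -/

/-- `W` acts on functions by right translation -/
def AR13_act (W G : Type*) [Group W] [Group G] : W →* MulAut (W → G) where
  toFun w :=
    { toFun := fun h x => h (x * w)
      invFun := fun h x => h (x * w⁻¹)
      left_inv := fun h => by funext x; simp [mul_assoc]
      right_inv := fun h => by funext x; simp [mul_assoc]
      map_mul' := fun _ _ => rfl }
  map_one' := by
    ext h x
    simp
  map_mul' w w' := by
    ext h x
    simp [mul_assoc]

theorem AR13_act_apply (w : W) (h : W → G) (x : W) : AR13_act W G w h x = h (x * w) := rfl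

/-- the images of the generators in the wreath product -/
noncomputable def AR13_Phi (cs : CoxeterSystem M W) (X : Set B) (f : B → G) (i : B) :
    (W → G) ⋊[AR13_act W G] W :=
  ⟨fun x => AR13_gam cs X f x i, cs.simple i⟩

theorem AR13_wp_Phi (cs : CoxeterSystem M W) (X : Set B) (f : B → G) (ω : List B) :
    wp (AR13_Phi cs X f) ω = ⟨fun x => AR13_P cs X f x ω, cs.wordProd ω⟩ := by
  induction ω with
  | nil =>
    rw [wp_nil, cs.wordProd_nil]
    rfl
  | cons i ω ih =>
    rw [wp_cons, ih, cs.wordProd_cons]
    rfl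

theorem AR13_Phi_braid {X : Set B} {f : B → G} (hf : ∀ i ∈ X, ∀ j ∈ X, Braid M f i j) (i j : B) :
    Braid M (AR13_Phi cs X f) i j := by
  unfold Braid
  rw [AR13_wp_Phi, AR13_wp_Phi]
  have h1 : cs.wordProd (alternatingWord i j (M i j)) =
      cs.wordProd (alternatingWord j i (M i j)) := by
    have h := cs.wordProd_braidWord_eq i j
    rw [braidWord, braidWord, M.symmetric j i] at h
    exact h
  rw [h1]
  congr 1
  funext x
  exact AR13_braid hf i j x

/-- the elements of the wreath product whose first part is invariant -/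
def AR13_inv (cs : CoxeterSystem M W) (X : Set B) (G : Type*) [Group G] :
    Subgroup ((W → G) ⋊[AR13_act W G] W) where
  carrier := {p | ∀ u ∈ WP cs X, ∀ x, p.left (u * x) = p.left x}
  one_mem' := fun _ _ _ => rfl
  mul_mem' := by
    intro p q hp hq u hu x
    rw [SemidirectProduct.mul_left]
    change p.left (u * x) * q.left (u * x * p.right) = p.left x * q.left (x * p.right)
    rw [hp u hu, mul_assoc, hq u hu]
  inv_mem' := by
    intro p hp u hu x
    rw [SemidirectProduct.inv_left]
    change (p.left (u * x * p.right⁻¹))⁻¹ = (p.left (x * p.right⁻¹))⁻¹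
    rw [mul_assoc, hp u hu]

/-- standard parabolic subgroups have the standard presentation -/
theorem exists_hom_AP (T : Set B) {G : Type*} [Group G] (f : B → G)
    (hf : ∀ i ∈ T, ∀ j ∈ T, Braid M f i j) :
    ∃ F : AP M T →* G, ∀ (i : B) (hi : i ∈ T), F ⟨ar i, ar_mem_AP hi⟩ = f i := by
  set cs := M.toCoxeterSystem with hcs
  set Ψ := arLift (AR13_Phi cs T f) (AR13_Phi_braid hf) with hΨ
  have hright : ∀ a, (Ψ a).right = qA cs a := by
    intro a
    have h1 : SemidirectProduct.rightHom.comp Ψ = qA cs := by
      apply artin_hom_ext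
      intro i
      rw [MonoidHom.comp_apply, hΨ, arLift_ar, qA_ar]
      rfl
    rw [← h1]
    rfl
  have hinv : ∀ a, Ψ a ∈ AR13_inv cs T G := by
    intro a
    have h1 : (⊤ : Subgroup (Artin M)) ≤ (AR13_inv cs T G).comap Ψ := by
      rw [← AP_univ, AP, Subgroup.closure_le]
      rintro _ ⟨i, _, rfl⟩
      change Ψ (ar i) ∈ AR13_inv cs T G
      rw [hΨ, arLift_ar]
      intro u hu x
      exact AR13_gam_mul f hu x i
    exact h1 (Subgroup.mem_top a)
  have hmul : ∀ a b, a ∈ AP M T → (Ψ (a * b)).left 1 = (Ψ a).left 1 * (Ψ b).left 1 := by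
    intro a b ha
    rw [map_mul, SemidirectProduct.mul_left]
    change (Ψ a).left 1 * (Ψ b).left (1 * (Ψ a).right) = _
    have h1 := hinv b _ (qA_mem_WP cs ha) 1
    rw [hright, one_mul, ← h1, mul_one]
  refine ⟨MonoidHom.mk' (fun a => (Ψ a.1).left 1) (fun a b => hmul a.1 b.1 a.2), ?_⟩
  intro i hi
  change (Ψ (ar i)).left 1 = f i
  rw [hΨ, arLift_ar]
  change AR13_gam cs T f 1 i = f i
  apply AR13_gam_eq f hi
  have h1 : AR13_red cs T 1 = 1 := AR13_red_self (fun i _ => cs.not_isLeftDescent_one i)
  rw [h1, one_mul, mul_one]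

end AR13

end OS
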