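import Mathlib
import Pool.Agent.Lib.MP_8fe54c_gt.ArtHom

/-!
# The Bass-Serre tree of an amalgam of Artin groups
-/

namespace OS

open CoxeterSystem Finsupp

section tree

variable {B : Type*} {M : CoxeterMatrix B}

/-- the map of cosets -/
def cmap {T T' : Set B} (h : T ⊆ T') : Artin M ⧸ AP M T → Artin M ⧸ AP M T' :=
  Subgroup.quotientMapOfLE (AP_mono h)

theorem cmap_mk {T T' : Set B} (h : T ⊆ T') (g : Artin M) :
    cmap h (g : Artin M ⧸ AP M T) = (g : Artin M ⧸ AP M T') := rfl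

/-! ### the action of the group on functions on cosets -/

/-- the action on `ℤ[A/A_T]` -/
noncomputable def AR14_act {T : Set B} (a : Artin M) :
    ((Artin M ⧸ AP M T) →₀ ℤ) →+ ((Artin M ⧸ AP M T) →₀ ℤ) :=
  Finsupp.mapDomain.addMonoidHom (fun q => a • q)

theorem AR14_act_single {T : Set B} (a : Artin M) (q : Artin M ⧸ AP M T) (c : ℤ) :
    AR14_act a (single q c) = single (a • q) c := by
  simp [AR14_act]

theorem AR14_act_mul {T : Set B} (a b : Artin M) (v : (Artin M ⧸ AP M T) →₀ ℤ) :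
    AR14_act (a * b) v = AR14_act a (AR14_act b v) := by
  show mapDomain _ v = mapDomain _ (mapDomain _ v)
  rw [← mapDomain_comp]
  congr 1
  funext q
  exact mul_smul a b q

theorem AR14_act_one {T : Set B} (v : (Artin M ⧸ AP M T) →₀ ℤ) :
    AR14_act (1 : Artin M) v = v := by
  show mapDomain _ v = v
  have : (fun q : Artin M ⧸ AP M T => (1 : Artin M) • q) = id := by
    funext q
    exact one_smul _ q
  rw [this, mapDomain_id]

/-- the linear permutations -/
noncomputable def AR14_L {T : Set B} : Artin M →* Equiv.Perm ((Artin M ⧸ AP M T) →₀ ℤ) where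
  toFun a :=
    { toFun := AR14_act a
      invFun := AR14_act a⁻¹
      left_inv := fun v => by rw [← AR14_act_mul, inv_mul_cancel, AR14_act_one]
      right_inv := fun v => by rw [← AR14_act_mul, mul_inv_cancel, AR14_act_one] }
  map_one' := by
    ext1 v
    exact AR14_act_one v
  map_mul' a b := by
    ext1 v
    exact AR14_act_mul a b v

theorem AR14_L_apply {T : Set B} (a : Artin M) (v : (Artin M ⧸ AP M T) →₀ ℤ) :
    AR14_L a v = AR14_act a v := rfl

theorem AR14_wp_congr {G : Type*} [Monoid G] {f f' : B → G} {ω : List B}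
    (h : ∀ i ∈ ω, f i = f' i) : wp f ω = wp f' ω := by
  unfold wp
  congr 1
  exact List.map_congr_left h

theorem AR14_mem_alt {i j k : B} {n : ℕ} (h : k ∈ alternatingWord i j n) : k = i ∨ k = j := by
  induction n generalizing i j with
  | zero => simp [alternatingWord] at h
  | succ n ih =>
    rw [alternatingWord_succ] at h
    simp only [List.concat_eq_append, List.mem_append, List.mem_singleton] at h
    rcases h with h | h
    · rcases ih h with h | h
      · exact Or.inr h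
      · exact Or.inl h
    · exact Or.inr h

theorem AR14_braid_congr {G : Type*} [Monoid G] {f f' : B → G} {i j : B} (hi : f i = f' i)
    (hj : f j = f' j) (h : Braid M f' i j) : Braid M f i j := by
  have key : ∀ n, wp f (alternatingWord i j n) = wp f' (alternatingWord i j n) ∧
      wp f (alternatingWord j i n) = wp f' (alternatingWord j i n) := by
    intro n
    constructor
    · refine AR14_wp_congr fun k hk => ?_
      rcases AR14_mem_alt hk with h | h
      · rw [h, hi]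
      · rw [h, hj]
    · refine AR14_wp_congr fun k hk => ?_
      rcases AR14_mem_alt hk with h | h
      · rw [h, hj]
      · rw [h, hi]
  unfold Braid at h ⊢
  rw [(key _).1, (key _).2, h]

theorem AR14_hom_eq {G : Type*} [Group G] {T T' : Set B} (h : T' ⊆ T) (F : AP M T →* G)
    (L : Artin M →* G) (hFL : ∀ i (hi : i ∈ T'), F ⟨ar i, ar_mem_AP (h hi)⟩ = L (ar i)) :
    ∀ a (ha : a ∈ AP M T'), F ⟨a, AP_mono h ha⟩ = L a := by
  intro a ha
  induction ha using Subgroup.closure_induction with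
  | mem x hx =>
    obtain ⟨i, hi, rfl⟩ := hx
    exact hFL i hi
  | one =>
    rw [map_one]
    exact map_one F
  | mul x y hx hy ihx ihy =>
    rw [map_mul, ← ihx, ← ihy, ← map_mul]
    rfl
  | inv x hx ih =>
    rw [map_inv, ← ih, ← map_inv]
    rfl

/-- the cocycle -/
theorem AR14_cocycle {T T0 T1 T2 : Set B} (h1 : T1 ⊆ T) (h2 : T2 ⊆ T)
    (hU : T ⊆ T1 ∪ T2) (hI : T1 ∩ T2 ⊆ T0)
    (hM : ∀ i ∈ T1, i ∉ T2 → ∀ j ∈ T2, j ∉ T1 → M i j = 0) :
    ∃ D : Artin M → ((Artin M ⧸ AP M T0) →₀ ℤ),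
      (∀ a ∈ AP M T, ∀ b ∈ AP M T, D (a * b) = D a + AR14_act a (D b)) ∧
      (∀ a ∈ AP M T1, D a = 0) ∧
      (∀ a ∈ AP M T2, D a = AR14_act a (single ((1 : Artin M) : Artin M ⧸ AP M T0) 1) -
        single ((1 : Artin M) : Artin M ⧸ AP M T0) 1) := by
  classical
  set e : (Artin M ⧸ AP M T0) →₀ ℤ := single ((1 : Artin M) : Artin M ⧸ AP M T0) 1 with he
  let τ : Equiv.Perm ((Artin M ⧸ AP M T0) →₀ ℤ) := Equiv.addRight e
  let C : Artin M →* Equiv.Perm ((Artin M ⧸ AP M T0) →₀ ℤ) :=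
    (MulAut.conj τ⁻¹).toMonoidHom.comp AR14_L
  have hC : ∀ a v, C a v = AR14_act a v + (AR14_act a e - e) := by
    intro a v
    show τ.symm (AR14_act a (τ⁻¹.symm v)) = _
    have h1 : τ⁻¹.symm v = v + e := rfl
    rw [h1]
    show AR14_act a (v + e) + -e = _
    rw [map_add]
    abel
  let f : B → Equiv.Perm ((Artin M ⧸ AP M T0) →₀ ℤ) := fun i =>
    if i ∈ T1 then AR14_L (ar i) else C (ar i)
  have hf1 : ∀ i ∈ T1, f i = AR14_L (ar i) := fun i hi => if_pos hi
  have hfix : ∀ i ∈ T0, AR14_act (ar i : Artin M) e = e := by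
    intro i hi
    rw [he, AR14_act_single]
    congr 1
    show ((ar i * 1 : Artin M) : Artin M ⧸ AP M T0) = ((1 : Artin M) : Artin M ⧸ AP M T0)
    rw [mul_one, QuotientGroup.eq, mul_one]
    exact inv_mem (ar_mem_AP hi)
  have hf2 : ∀ i ∈ T2, f i = C (ar i) := by
    intro i hi
    by_cases h : i ∈ T1
    · rw [hf1 i h]
      ext1 v
      rw [hC, hfix i (hI ⟨h, hi⟩), sub_self, add_zero]
      rfl
    · exact if_neg h
  have hbr : ∀ i ∈ T, ∀ j ∈ T, Braid M f i j := by
    intro i hi j hj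
    by_cases h11 : i ∈ T1 ∧ j ∈ T1
    · exact AR14_braid_congr (hf1 i h11.1) (hf1 j h11.2) ((ar_braid i j).map AR14_L)
    · by_cases h22 : i ∈ T2 ∧ j ∈ T2
      · exact AR14_braid_congr (hf2 i h22.1) (hf2 j h22.2) ((ar_braid i j).map C)
      · have h0 : M i j = 0 := by
          rcases hU hi with hi1 | hi2
          · rcases hU hj with hj1 | hj2
            · exact absurd ⟨hi1, hj1⟩ h11
            · exact hM i hi1 (fun h => h22 ⟨h, hj2⟩) j hj2 (fun h => h11 ⟨hi1, h⟩)
          · rcases hU hj with hj1 | hj2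
            · rw [M.symmetric]
              exact hM j hj1 (fun h => h22 ⟨hi2, h⟩) i hi2 (fun h => h11 ⟨h, hj1⟩)
            · exact absurd ⟨hi2, hj2⟩ h22
        unfold Braid
        rw [h0]
        rfl
  obtain ⟨F, hF⟩ := exists_hom_AP T f hbr
  have haff : ∀ a : AP M T, ∃ d, ∀ v, F a v = AR14_act (a : Artin M) v + d := by
    rintro ⟨a, ha⟩
    induction ha using Subgroup.closure_induction with
    | mem x hx =>
      obtain ⟨i, hi, rfl⟩ := hx
      have h3 := hF i hi
      by_cases h : i ∈ T1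
      · refine ⟨0, fun v => ?_⟩
        rw [add_zero]
        have h4 : F ⟨ar i, ar_mem_AP hi⟩ v = AR14_act (ar i : Artin M) v := by
          rw [h3, hf1 i h]
          rfl
        exact h4
      · refine ⟨AR14_act (ar i : Artin M) e - e, fun v => ?_⟩
        have h4 : F ⟨ar i, ar_mem_AP hi⟩ v =
            AR14_act (ar i : Artin M) v + (AR14_act (ar i : Artin M) e - e) := by
          rw [h3]
          have : f i = C (ar i) := if_neg h
          rw [this, hC]
        exact h4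
    | one =>
      refine ⟨0, fun v => ?_⟩
      have : (⟨1, (AP M T).one_mem⟩ : AP M T) = 1 := rfl
      rw [add_zero, AR14_act_one]
      show F 1 v = v
      rw [map_one]
      rfl
    | mul x y hx hy ihx ihy =>
      obtain ⟨d, hd⟩ := ihx
      obtain ⟨d', hd'⟩ := ihy
      refine ⟨AR14_act x d' + d, fun v => ?_⟩
      have h3 : F ⟨x * y, mul_mem hx hy⟩ v = F ⟨x, hx⟩ (F ⟨y, hy⟩ v) := by
        have : (⟨x * y, mul_mem hx hy⟩ : AP M T) = ⟨x, hx⟩ * ⟨y, hy⟩ := rfl
        rw [this, map_mul]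
        rfl
      show F ⟨x * y, mul_mem hx hy⟩ v = AR14_act (x * y) v + _
      rw [h3, hd' v, hd, map_add, AR14_act_mul]
      abel
    | inv x hx ih =>
      obtain ⟨d, hd⟩ := ih
      refine ⟨-AR14_act x⁻¹ d, fun v => ?_⟩
      have h3 : F ⟨x, hx⟩ (F ⟨x⁻¹, inv_mem hx⟩ v) = v := by
        have : (⟨x⁻¹, inv_mem hx⟩ : AP M T) = (⟨x, hx⟩ : AP M T)⁻¹ := rfl
        rw [this, map_inv]
        exact (F ⟨x, hx⟩).apply_symm_apply v
      rw [hd] at h3
      have h4 := congrArg (AR14_act x⁻¹) h3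
      rw [map_add, ← AR14_act_mul, inv_mul_cancel, AR14_act_one] at h4
      show F ⟨x⁻¹, inv_mem hx⟩ v = AR14_act x⁻¹ v + _
      rw [← h4]
      abel
  let D : Artin M → ((Artin M ⧸ AP M T0) →₀ ℤ) := fun a => if h : a ∈ AP M T then F ⟨a, h⟩ 0 else 0
  have hD : ∀ a (h : a ∈ AP M T), D a = F ⟨a, h⟩ 0 := fun a h => dif_pos h
  have hD' : ∀ a (h : a ∈ AP M T) v, F ⟨a, h⟩ v = AR14_act a v + D a := by
    intro a h v
    obtain ⟨d, hd⟩ := haff ⟨a, h⟩
    rw [hD a h, hd v, hd 0, map_zero, zero_add]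
  refine ⟨D, ?_, ?_, ?_⟩
  · intro a ha b hb
    rw [hD (a * b) (mul_mem ha hb)]
    have : (⟨a * b, mul_mem ha hb⟩ : AP M T) = ⟨a, ha⟩ * ⟨b, hb⟩ := rfl
    rw [this, map_mul]
    show F ⟨a, ha⟩ (F ⟨b, hb⟩ 0) = _
    rw [hD' b hb, hD' a ha, map_zero, zero_add, add_comm]
  · intro a ha
    have h3 := AR14_hom_eq h1 F AR14_L (fun i hi => by rw [hF i (h1 hi), hf1 i hi]) a ha
    rw [hD a (AP_mono h1 ha), h3, AR14_L_apply, map_zero]
  · intro a ha
    have h3 := AR14_hom_eq h2 F C (fun i hi => by rw [hF i (h2 hi), hf2 i hi]) a ha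
    rw [hD a (AP_mono h2 ha), h3, hC, map_zero, zero_add]

theorem artin_tree_inj {T T0 T1 T2 : Set B} (h1 : T1 ⊆ T) (h2 : T2 ⊆ T) (h01 : T0 ⊆ T1)
    (h02 : T0 ⊆ T2) (hU : T ⊆ T1 ∪ T2) (hI : T1 ∩ T2 ⊆ T0)
    (hM : ∀ i ∈ T1, i ∉ T2 → ∀ j ∈ T2, j ∉ T1 → M i j = 0)
    (x : (Artin M ⧸ AP M T0) →₀ ℤ) (hx1 : mapDomain (cmap h01) x = 0)
    (hx2 : mapDomain (cmap h02) x = 0) : x = 0 := by
  obtain ⟨D, hD, hD1, hD2⟩ := AR14_cocycle h1 h2 hU hI hM
  set e : (Artin M ⧸ AP M T0) →₀ ℤ := single ((1 : Artin M) : Artin M ⧸ AP M T0) 1 with he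
  -- representatives
  let ρ : Artin M → Artin M := fun g => (Quotient.out (g : Artin M ⧸ AP M T))
  have hρ : ∀ g, (ρ g)⁻¹ * g ∈ AP M T := by
    intro g
    rw [← QuotientGroup.eq]
    exact Quotient.out_eq (g : Artin M ⧸ AP M T)
  have hρ' : ∀ g k, k ∈ AP M T → ρ (g * k) = ρ g := by
    intro g k hk
    have : ((g * k : Artin M) : Artin M ⧸ AP M T) = (g : Artin M ⧸ AP M T) := by
      rw [QuotientGroup.eq]
      have : (g * k)⁻¹ * g = k⁻¹ := by group
      rw [this]
      exact inv_mem hk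
    show Quotient.out _ = Quotient.out _
    rw [this]
  let v1 : Artin M → ((Artin M ⧸ AP M T0) →₀ ℤ) := fun g => AR14_act (ρ g) (D ((ρ g)⁻¹ * g))
  let v2 : Artin M → ((Artin M ⧸ AP M T0) →₀ ℤ) := fun g =>
    AR14_act (ρ g) (D ((ρ g)⁻¹ * g) - (AR14_act ((ρ g)⁻¹ * g) e - e))
  have hv1 : ∀ g k, k ∈ AP M T1 → v1 (g * k) = v1 g := by
    intro g k hk
    show AR14_act (ρ (g * k)) (D ((ρ (g * k))⁻¹ * (g * k))) = _
    rw [hρ' g k (AP_mono h1 hk), ← mul_assoc, hD _ (hρ g) _ (AP_mono h1 hk), hD1 k hk, map_zero,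
      add_zero]
  have hv2 : ∀ g k, k ∈ AP M T2 → v2 (g * k) = v2 g := by
    intro g k hk
    show AR14_act (ρ (g * k)) (D ((ρ (g * k))⁻¹ * (g * k)) -
      (AR14_act ((ρ (g * k))⁻¹ * (g * k)) e - e)) = _
    rw [hρ' g k (AP_mono h2 hk), ← mul_assoc, hD _ (hρ g) _ (AP_mono h2 hk), hD2 k hk,
      AR14_act_mul ((ρ g)⁻¹ * g) k e, map_sub (AR14_act ((ρ g)⁻¹ * g))]
    show _ = AR14_act (ρ g) (D ((ρ g)⁻¹ * g) - (AR14_act ((ρ g)⁻¹ * g) e - e))
    congr 1
    abel
  let Φ1 : Artin M ⧸ AP M T1 → ((Artin M ⧸ AP M T0) →₀ ℤ) := fun q => v1 (Quotient.out q)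
  let Φ2 : Artin M ⧸ AP M T2 → ((Artin M ⧸ AP M T0) →₀ ℤ) := fun q => v2 (Quotient.out q)
  have hΦ1 : ∀ g : Artin M, Φ1 (g : Artin M ⧸ AP M T1) = v1 g := by
    intro g
    have h3 : (Quotient.out (g : Artin M ⧸ AP M T1))⁻¹ * g ∈ AP M T1 := by
      rw [← QuotientGroup.eq]
      exact Quotient.out_eq (g : Artin M ⧸ AP M T1)
    have h4 := hv1 (Quotient.out (g : Artin M ⧸ AP M T1)) _ h3
    rw [mul_inv_cancel_left] at h4
    exact h4.symm
  have hΦ2 : ∀ g : Artin M, Φ2 (g : Artin M ⧸ AP M T2) = v2 g := by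
    intro g
    have h3 : (Quotient.out (g : Artin M ⧸ AP M T2))⁻¹ * g ∈ AP M T2 := by
      rw [← QuotientGroup.eq]
      exact Quotient.out_eq (g : Artin M ⧸ AP M T2)
    have h4 := hv2 (Quotient.out (g : Artin M ⧸ AP M T2)) _ h3
    rw [mul_inv_cancel_left] at h4
    exact h4.symm
  let Ψ : Artin M ⧸ AP M T → ((Artin M ⧸ AP M T0) →₀ ℤ) := fun q => AR14_act (Quotient.out q) e
  have h0 : T0 ⊆ T := h01.trans h1
  have key : ∀ q : Artin M ⧸ AP M T0, Φ1 (cmap h01 q) - Φ2 (cmap h02 q) =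
      single q 1 - Ψ (cmap h1 (cmap h01 q)) := by
    intro q
    induction q using QuotientGroup.induction_on with
    | H g =>
      rw [cmap_mk, cmap_mk, cmap_mk, hΦ1, hΦ2]
      show AR14_act (ρ g) (D ((ρ g)⁻¹ * g)) -
        AR14_act (ρ g) (D ((ρ g)⁻¹ * g) - (AR14_act ((ρ g)⁻¹ * g) e - e)) =
        single (g : Artin M ⧸ AP M T0) 1 - AR14_act (ρ g) e
      rw [map_sub, map_sub, ← AR14_act_mul, mul_inv_cancel_left]
      have h5 : AR14_act g e = single (g : Artin M ⧸ AP M T0) 1 := by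
        rw [he, AR14_act_single]
        congr 1
        show ((g * 1 : Artin M) : Artin M ⧸ AP M T0) = _
        rw [mul_one]
      rw [h5]
      abel
  have e1 : Finsupp.linearCombination ℤ (fun q => Φ1 (cmap h01 q)) x = 0 := by
    have := Finsupp.linearCombination_mapDomain ℤ (v' := Φ1) (cmap h01) x
    rw [hx1, map_zero] at this
    exact this.symm
  have e2 : Finsupp.linearCombination ℤ (fun q => Φ2 (cmap h02 q)) x = 0 := by
    have := Finsupp.linearCombination_mapDomain ℤ (v' := Φ2) (cmap h02) x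
    rw [hx2, map_zero] at this
    exact this.symm
  have e3 : Finsupp.linearCombination ℤ (fun q => Ψ (cmap h1 (cmap h01 q))) x = 0 := by
    have := Finsupp.linearCombination_mapDomain ℤ (v' := fun q => Ψ (cmap h1 q)) (cmap h01) x
    rw [hx1, map_zero] at this
    exact this.symm
  have e4 : Finsupp.linearCombination ℤ (fun q : Artin M ⧸ AP M T0 =>
      (single q 1 : (Artin M ⧸ AP M T0) →₀ ℤ)) x = x := by
    rw [Finsupp.linearCombination_apply]
    simp
  have e5 : Finsupp.linearCombination ℤ (fun q => Φ1 (cmap h01 q) - Φ2 (cmap h02 q)) x =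
      Finsupp.linearCombination ℤ (fun q : Artin M ⧸ AP M T0 => single q 1 -
        Ψ (cmap h1 (cmap h01 q))) x := by
    congr 2
    funext q
    exact key q
  rw [Finsupp.linearCombination_apply, Finsupp.linearCombination_apply] at e5
  simp only [smul_sub, Finsupp.sum_sub] at e5
  rw [← Finsupp.linearCombination_apply, ← Finsupp.linearCombination_apply,
    ← Finsupp.linearCombination_apply, ← Finsupp.linearCombination_apply, e1, e2, e3, e4] at e5
  rw [sub_zero, sub_zero] at e5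
  exact e5.symm

/-- pairs of images -/
noncomputable def AR14_R {T0 T1 T2 : Set B} (h01 : T0 ⊆ T1) (h02 : T0 ⊆ T2) :
    AddSubgroup (((Artin M ⧸ AP M T1) →₀ ℤ) × ((Artin M ⧸ AP M T2) →₀ ℤ)) :=
  ((Finsupp.mapDomain.addMonoidHom (cmap h01)).prod
    (Finsupp.mapDomain.addMonoidHom (cmap h02))).range

theorem AR14_mem_R {T0 T1 T2 : Set B} (h01 : T0 ⊆ T1) (h02 : T0 ⊆ T2) (g : Artin M) (c : ℤ) :
    ((single (g : Artin M ⧸ AP M T1) c, single (g : Artin M ⧸ AP M T2) c) :
      ((Artin M ⧸ AP M T1) →₀ ℤ) × ((Artin M ⧸ AP M T2) →₀ ℤ)) ∈ AR14_R h01 h02 := by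
  refine ⟨single (g : Artin M ⧸ AP M T0) c, ?_⟩
  refine Prod.ext ?_ ?_
  · show mapDomain _ _ = _
    rw [mapDomain_single, cmap_mk]
  · show mapDomain _ _ = _
    rw [mapDomain_single, cmap_mk]

theorem AR14_R_left {T T0 T1 T2 : Set B} (h01 : T0 ⊆ T1) (h02 : T0 ⊆ T2) (hU : T ⊆ T1 ∪ T2)
    {h : Artin M} (hh : h ∈ AP M T) : ∀ (g : Artin M) (c : ℤ),
    ((single (g : Artin M ⧸ AP M T1) c - single ((g * h : Artin M) : Artin M ⧸ AP M T1) c, 0) :
      ((Artin M ⧸ AP M T1) →₀ ℤ) × ((Artin M ⧸ AP M T2) →₀ ℤ)) ∈ AR14_R h01 h02 := by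
  induction hh using Subgroup.closure_induction with
  | mem x hx =>
    obtain ⟨i, hi, rfl⟩ := hx
    intro g c
    rcases hU hi with h | h
    · have h3 : ((g * ar i : Artin M) : Artin M ⧸ AP M T1) = (g : Artin M ⧸ AP M T1) := by
        rw [QuotientGroup.eq]
        have : (g * ar i)⁻¹ * g = (ar i)⁻¹ := by group
        rw [this]
        exact inv_mem (ar_mem_AP h)
      rw [h3, sub_self]
      exact (AR14_R h01 h02).zero_mem
    · have h3 : ((g * ar i : Artin M) : Artin M ⧸ AP M T2) = (g : Artin M ⧸ AP M T2) := by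
        rw [QuotientGroup.eq]
        have : (g * ar i)⁻¹ * g = (ar i)⁻¹ := by group
        rw [this]
        exact inv_mem (ar_mem_AP h)
      have h4 := (AR14_R h01 h02).sub_mem (AR14_mem_R h01 h02 g c) (AR14_mem_R h01 h02 (g * ar i) c)
      rw [h3] at h4
      convert! h4 using 1
      refine Prod.ext rfl ?_
      show (0 : (Artin M ⧸ AP M T2) →₀ ℤ) = _ - _
      rw [sub_self]
  | one =>
    intro g c
    rw [mul_one, sub_self]
    exact (AR14_R h01 h02).zero_mem
  | mul x y hx hy ihx ihy =>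
    intro g c
    have h4 := (AR14_R h01 h02).add_mem (ihx g c) (ihy (g * x) c)
    convert! h4 using 1
    refine Prod.ext ?_ ?_
    · show _ = (_ - _) + (_ - _)
      rw [mul_assoc]
      abel
    · show _ = (0 : (Artin M ⧸ AP M T2) →₀ ℤ) + 0
      rw [add_zero]
  | inv x hx ih =>
    intro g c
    have h4 := (AR14_R h01 h02).neg_mem (ih (g * x⁻¹) c)
    rw [inv_mul_cancel_right] at h4
    convert! h4 using 1
    refine Prod.ext ?_ ?_
    · show _ = -(_ - _)
      abel
    · show _ = -(0 : (Artin M ⧸ AP M T2) →₀ ℤ)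
      rw [neg_zero]

theorem artin_tree_mid {T T0 T1 T2 : Set B} (h1 : T1 ⊆ T) (h2 : T2 ⊆ T) (h01 : T0 ⊆ T1)
    (h02 : T0 ⊆ T2) (hU : T ⊆ T1 ∪ T2)
    (a : (Artin M ⧸ AP M T1) →₀ ℤ) (b : (Artin M ⧸ AP M T2) →₀ ℤ)
    (h : mapDomain (cmap h1) a = mapDomain (cmap h2) b) :
    ∃ x : (Artin M ⧸ AP M T0) →₀ ℤ, mapDomain (cmap h01) x = a ∧ mapDomain (cmap h02) x = b := by
  set R := AR14_R (M := M) h01 h02 with hR
  let s1 : Artin M ⧸ AP M T → Artin M ⧸ AP M T1 := fun q => ((Quotient.out q : Artin M) :)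
  let s2 : Artin M ⧸ AP M T → Artin M ⧸ AP M T2 := fun q => ((Quotient.out q : Artin M) :)
  have hout : ∀ g : Artin M, (Quotient.out (g : Artin M ⧸ AP M T))⁻¹ * g ∈ AP M T := by
    intro g
    rw [← QuotientGroup.eq]
    exact Quotient.out_eq (g : Artin M ⧸ AP M T)
  have hc1 : ∀ g : Artin M, ∀ c : ℤ, ((single (g : Artin M ⧸ AP M T1) c -
      single (s1 (g : Artin M ⧸ AP M T)) c, 0) :
      ((Artin M ⧸ AP M T1) →₀ ℤ) × ((Artin M ⧸ AP M T2) →₀ ℤ)) ∈ R := by
    intro g c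
    have h3 := R.neg_mem (AR14_R_left h01 h02 hU (hout g)
      (Quotient.out (g : Artin M ⧸ AP M T)) c)
    rw [mul_inv_cancel_left] at h3
    convert! h3 using 1
    refine Prod.ext ?_ ?_
    · show _ = -(_ - _)
      rw [neg_sub]
    · show _ = -(0 : (Artin M ⧸ AP M T2) →₀ ℤ)
      rw [neg_zero]
  have hc2 : ∀ g : Artin M, ∀ c : ℤ, ((0, single (g : Artin M ⧸ AP M T2) c -
      single (s2 (g : Artin M ⧸ AP M T)) c) :
      ((Artin M ⧸ AP M T1) →₀ ℤ) × ((Artin M ⧸ AP M T2) →₀ ℤ)) ∈ R := by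
    intro g c
    have h3 := R.sub_mem (R.sub_mem (AR14_mem_R h01 h02 g c)
      (AR14_mem_R h01 h02 (Quotient.out (g : Artin M ⧸ AP M T)) c)) (hc1 g c)
    convert! h3 using 1
    refine Prod.ext ?_ ?_
    · show (0 : (Artin M ⧸ AP M T1) →₀ ℤ) = (_ - _) - (_ - _)
      exact (sub_self _).symm
    · show _ = (_ - _) - (0 : (Artin M ⧸ AP M T2) →₀ ℤ)
      rw [sub_zero]
  have ha : ((a - mapDomain s1 (mapDomain (cmap h1) a), 0) :
      ((Artin M ⧸ AP M T1) →₀ ℤ) × ((Artin M ⧸ AP M T2) →₀ ℤ)) ∈ R := by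
    clear h
    induction a using Finsupp.induction_linear with
    | zero =>
      rw [mapDomain_zero, mapDomain_zero, sub_zero]
      exact R.zero_mem
    | add f g hf hg =>
      have h3 := R.add_mem hf hg
      convert! h3 using 1
      refine Prod.ext ?_ ?_
      · show _ = (_ - _) + (_ - _)
        rw [mapDomain_add, mapDomain_add]
        abel
      · show _ = (0 : (Artin M ⧸ AP M T2) →₀ ℤ) + 0
        rw [add_zero]
    | single q c =>
      induction q using QuotientGroup.induction_on with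
      | H g =>
        rw [mapDomain_single, mapDomain_single, cmap_mk]
        exact hc1 g c
  have hb : ((0, b - mapDomain s2 (mapDomain (cmap h2) b)) :
      ((Artin M ⧸ AP M T1) →₀ ℤ) × ((Artin M ⧸ AP M T2) →₀ ℤ)) ∈ R := by
    clear h
    induction b using Finsupp.induction_linear with
    | zero =>
      rw [mapDomain_zero, mapDomain_zero, sub_zero]
      exact R.zero_mem
    | add f g hf hg =>
      have h3 := R.add_mem hf hg
      convert! h3 using 1
      refine Prod.ext ?_ ?_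
      · show _ = (0 : (Artin M ⧸ AP M T1) →₀ ℤ) + 0
        rw [add_zero]
      · show _ = (_ - _) + (_ - _)
        rw [mapDomain_add, mapDomain_add]
        abel
    | single q c =>
      induction q using QuotientGroup.induction_on with
      | H g =>
        rw [mapDomain_single, mapDomain_single, cmap_mk]
        exact hc2 g c
  have hz : ∀ z : (Artin M ⧸ AP M T) →₀ ℤ, ((mapDomain s1 z, mapDomain s2 z) :
      ((Artin M ⧸ AP M T1) →₀ ℤ) × ((Artin M ⧸ AP M T2) →₀ ℤ)) ∈ R := by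
    intro z
    induction z using Finsupp.induction_linear with
    | zero =>
      rw [mapDomain_zero, mapDomain_zero]
      exact R.zero_mem
    | add f g hf hg =>
      rw [mapDomain_add, mapDomain_add]
      exact R.add_mem hf hg
    | single q c =>
      rw [mapDomain_single, mapDomain_single]
      exact AR14_mem_R h01 h02 _ c
  have hab : ((a, b) : ((Artin M ⧸ AP M T1) →₀ ℤ) × ((Artin M ⧸ AP M T2) →₀ ℤ)) ∈ R := by
    have h3 := R.add_mem (R.add_mem ha hb) (hz (mapDomain (cmap h1) a))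
    convert! h3 using 1
    refine Prod.ext ?_ ?_
    · show _ = (_ - _) + (0 : (Artin M ⧸ AP M T1) →₀ ℤ) + _
      abel
    · show _ = (0 : (Artin M ⧸ AP M T2) →₀ ℤ) + (_ - _) + mapDomain s2 (mapDomain (cmap h1) a)
      rw [h]
      abel
  obtain ⟨x, hx⟩ := hab
  exact ⟨x, congrArg Prod.fst hx, congrArg Prod.snd hx⟩

end tree

end OS
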