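import Mathlib
import Pool.Agent.Lib.MP_8fe54c_gt.GPDefs

/-!
# Change of coefficients for trees (module K17)
-/

namespace OS

namespace GP

open Finsupp

section coeff

variable {X Y Z : Type*} (A : Type*) [AddCommGroup A]

/-- the extension to `A[Y]` of a map `Y → ℤ[X]` -/
noncomputable def K17_ext (P : Y → (X →₀ ℤ)) : (Y →₀ A) →+ (X →₀ A) :=
  Finsupp.liftAddHom fun y =>
    { toFun := fun a => (P y).mapRange (fun n : ℤ => n • a) (zero_zsmul a)
      map_zero' := by
        ext x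
        simp
      map_add' := fun a b => by
        ext x
        simp }

variable {A}

theorem K17_ext_single (P : Y → (X →₀ ℤ)) (y : Y) (a : A) (x : X) :
    K17_ext A P (single y a) x = P y x • a := by
  simp [K17_ext]

theorem K17_ext_hom {P : Y → (X →₀ ℤ)} {F : (Y →₀ A) →+ (X →₀ A)}
    (h : ∀ y a x, F (single y a) x = P y x • a) : K17_ext A P = F := by
  refine Finsupp.addHom_ext fun y a => Finsupp.ext fun x => ?_
  rw [K17_ext_single, h]

theorem K17_add (P Q : Y → (X →₀ ℤ)) (c : Y →₀ A) :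
    K17_ext A (fun y => P y + Q y) c = K17_ext A P c + K17_ext A Q c := by
  have h : K17_ext A (fun y => P y + Q y) = K17_ext A P + K17_ext A Q := by
    refine K17_ext_hom fun y a x => ?_
    rw [AddMonoidHom.add_apply, Finsupp.add_apply, K17_ext_single, K17_ext_single,
      Finsupp.add_apply, add_zsmul]
  rw [h]
  rfl

theorem K17_sub (P Q : Y → (X →₀ ℤ)) (c : Y →₀ A) :
    K17_ext A (fun y => P y - Q y) c = K17_ext A P c - K17_ext A Q c := by
  have h : K17_ext A (fun y => P y - Q y) = K17_ext A P - K17_ext A Q := by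
    refine K17_ext_hom fun y a x => ?_
    rw [AddMonoidHom.sub_apply, Finsupp.sub_apply, K17_ext_single, K17_ext_single,
      Finsupp.sub_apply, sub_zsmul, sub_eq_add_neg]
  rw [h]
  rfl

theorem K17_zero (c : Y →₀ A) : K17_ext A (fun _ => (0 : X →₀ ℤ)) c = 0 := by
  have h : K17_ext A (fun _ : Y => (0 : X →₀ ℤ)) = 0 := by
    refine K17_ext_hom fun y a x => ?_
    simp
  rw [h]
  rfl

theorem K17_single (f : Y → X) (c : Y →₀ A) :
    K17_ext A (fun y => single (f y) (1 : ℤ)) c = mapDomain f c := by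
  classical
  have h : K17_ext A (fun y => single (f y) (1 : ℤ)) = mapDomain.addMonoidHom f := by
    refine K17_ext_hom fun y a x => ?_
    change mapDomain f (single y a) x = _
    rw [mapDomain_single, Finsupp.single_apply, Finsupp.single_apply]
    split_ifs <;> simp
  rw [h]
  rfl

/-- precomposition -/
theorem K17_pre (g : Y → Z) (P : Z → (X →₀ ℤ)) (c : Y →₀ A) :
    K17_ext A (fun y => P (g y)) c = K17_ext A P (mapDomain g c) := by
  have h : K17_ext A (fun y => P (g y)) = (K17_ext A P).comp (mapDomain.addMonoidHom g) := by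
    refine K17_ext_hom fun y a x => ?_
    change K17_ext A P (mapDomain g (single y a)) x = _
    rw [mapDomain_single, K17_ext_single]
  rw [h]
  rfl

/-- postcomposition -/
theorem K17_post (g : X → Z) (P : Y → (X →₀ ℤ)) (c : Y →₀ A) :
    mapDomain g (K17_ext A P c) = K17_ext A (fun y => mapDomain g (P y)) c := by
  classical
  have h : K17_ext A (fun y => mapDomain g (P y)) =
      (mapDomain.addMonoidHom g).comp (K17_ext A P) := by
    refine K17_ext_hom fun y a z => ?_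
    change mapDomain g (K17_ext A P (single y a)) z = _
    have h1 : K17_ext A P (single y a) = (P y).mapRange (fun n : ℤ => n • a) (zero_zsmul a) := by
      ext x
      rw [K17_ext_single, mapRange_apply]
    have h2 : mapDomain g ((P y).mapRange (fun n : ℤ => n • a) (zero_zsmul a)) =
        (mapDomain g (P y)).mapRange (fun n : ℤ => n • a) (zero_zsmul a) :=
      mapDomain_mapRange g (P y) (fun n : ℤ => n • a) (zero_zsmul a)
        (fun m n => add_zsmul a m n)
    rw [h1, h2, mapRange_apply]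
  rw [h]
  rfl

end coeff

theorem tree_coeff {X₀ X₁ X₂ X : Type*} (p₁ : X₀ → X₁) (p₂ : X₀ → X₂) (q₁ : X₁ → X)
    (q₂ : X₂ → X) (hpq : ∀ x, q₁ (p₁ x) = q₂ (p₂ x)) (h : TreeEx ℤ p₁ p₂ q₁ q₂) (A : Type*)
    [AddCommGroup A] : TreeEx A p₁ p₂ q₁ q₂ := by
  classical
  obtain ⟨hinj, hmid⟩ := h
  -- the sections
  obtain ⟨S₁, hS₁, hS₁'⟩ : ∃ S₁ : X → (X₁ →₀ ℤ), (∀ x, mapDomain q₁ (S₁ (q₁ x)) = single (q₁ x) 1) ∧
      ∀ x, x ∉ Set.range q₁ → S₁ x = 0 := by
    refine ⟨fun x => if hx : ∃ a, q₁ a = x then single hx.choose 1 else 0, ?_, ?_⟩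
    · intro x
      have hx : ∃ a, q₁ a = q₁ x := ⟨x, rfl⟩
      beta_reduce
      rw [dif_pos hx, mapDomain_single, hx.choose_spec]
    · intro x hx
      have hx' : ¬ ∃ a, q₁ a = x := fun h => hx h
      beta_reduce
      rw [dif_neg hx']
  obtain ⟨S₂, hS₂, hS₂'⟩ : ∃ S₂ : X → (X₂ →₀ ℤ), (∀ x, S₂ (q₁ x) = 0) ∧
      ∀ x, q₂ x ∉ Set.range q₁ → mapDomain q₂ (S₂ (q₂ x)) = single (q₂ x) 1 := by
    refine ⟨fun x => if x ∈ Set.range q₁ then 0 else
      if hx : ∃ a, q₂ a = x then single hx.choose 1 else 0, ?_, ?_⟩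
    · intro x
      beta_reduce
      rw [if_pos ⟨x, rfl⟩]
    · intro x hx
      have hx2 : ∃ a, q₂ a = q₂ x := ⟨x, rfl⟩
      beta_reduce
      rw [if_neg hx, dif_pos hx2, mapDomain_single, hx2.choose_spec]
  -- the lifts
  have e1 : ∀ x : X₁, ∃ y : X₀ →₀ ℤ, mapDomain p₁ y = single x 1 - S₁ (q₁ x) ∧
      mapDomain p₂ y = 0 := by
    intro x
    refine hmid _ _ ?_
    have h1 : mapDomain q₁ (single x 1 - S₁ (q₁ x)) =
        mapDomain q₁ (single x (1 : ℤ)) - mapDomain q₁ (S₁ (q₁ x)) :=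
      map_sub (mapDomain.addMonoidHom q₁ : (X₁ →₀ ℤ) →+ (X →₀ ℤ)) _ _
    rw [h1, hS₁, mapDomain_single, sub_self, mapDomain_zero]
  have e2 : ∀ x : X₂, ∃ y : X₀ →₀ ℤ, mapDomain p₁ y = S₁ (q₂ x) ∧
      mapDomain p₂ y = single x 1 - S₂ (q₂ x) := by
    intro x
    refine hmid _ _ ?_
    have h1 : mapDomain q₂ (single x 1 - S₂ (q₂ x)) =
        mapDomain q₂ (single x (1 : ℤ)) - mapDomain q₂ (S₂ (q₂ x)) :=
      map_sub (mapDomain.addMonoidHom q₂ : (X₂ →₀ ℤ) →+ (X →₀ ℤ)) _ _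
    rw [h1, mapDomain_single]
    by_cases hx : q₂ x ∈ Set.range q₁
    · obtain ⟨y, hy⟩ := hx
      rw [← hy, hS₁, hS₂, mapDomain_zero, sub_zero]
    · rw [hS₁' _ hx, hS₂' _ hx, mapDomain_zero, sub_self]
  choose P₁ hP₁ hP₁' using e1
  choose P₂ hP₂ hP₂' using e2
  refine ⟨?_, ?_⟩
  · intro x hx1 hx2
    have h1 : ∀ x₀ : X₀, single x₀ (1 : ℤ) = P₁ (p₁ x₀) + P₂ (p₂ x₀) := by
      intro x₀
      have h2 : single x₀ (1 : ℤ) - (P₁ (p₁ x₀) + P₂ (p₂ x₀)) = 0 := by
        refine hinj _ ?_ ?_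
        · have h3 : mapDomain p₁ (single x₀ (1 : ℤ) - (P₁ (p₁ x₀) + P₂ (p₂ x₀))) =
              mapDomain p₁ (single x₀ (1 : ℤ)) -
                (mapDomain p₁ (P₁ (p₁ x₀)) + mapDomain p₁ (P₂ (p₂ x₀))) := by
            rw [← mapDomain_add]
            exact map_sub (mapDomain.addMonoidHom p₁ : (X₀ →₀ ℤ) →+ (X₁ →₀ ℤ)) _ _
          rw [h3, hP₁, hP₂, hpq, mapDomain_single]
          abel
        · have h3 : mapDomain p₂ (single x₀ (1 : ℤ) - (P₁ (p₁ x₀) + P₂ (p₂ x₀))) =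
              mapDomain p₂ (single x₀ (1 : ℤ)) -
                (mapDomain p₂ (P₁ (p₁ x₀)) + mapDomain p₂ (P₂ (p₂ x₀))) := by
            rw [← mapDomain_add]
            exact map_sub (mapDomain.addMonoidHom p₂ : (X₀ →₀ ℤ) →+ (X₂ →₀ ℤ)) _ _
          rw [h3, hP₁', hP₂', ← hpq, hS₂, mapDomain_single]
          abel
      exact sub_eq_zero.mp h2
    have h2 : x = K17_ext A P₁ (mapDomain p₁ x) + K17_ext A P₂ (mapDomain p₂ x) := by
      rw [← K17_pre, ← K17_pre, ← K17_add]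
      have h3 : (fun y => P₁ (p₁ y) + P₂ (p₂ y)) = fun y => single (id y) (1 : ℤ) :=
        funext fun y => (h1 y).symm
      rw [h3, K17_single, mapDomain_id]
    rw [h2, hx1, hx2, map_zero, map_zero, add_zero]
  · intro a b hab
    refine ⟨K17_ext A P₁ a + K17_ext A P₂ b, ?_, ?_⟩
    · rw [mapDomain_add, K17_post, K17_post]
      simp only [hP₁, hP₂]
      have h3 : (fun y : X₁ => single y (1 : ℤ) - S₁ (q₁ y)) =
          fun y => single (id y) (1 : ℤ) - S₁ (q₁ y) := rfl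
      rw [h3, K17_sub, K17_single, mapDomain_id, K17_pre q₁ S₁, K17_pre q₂ S₁, hab]
      abel
    · rw [mapDomain_add, K17_post, K17_post]
      simp only [hP₁', hP₂']
      have h3 : (fun y : X₂ => single y (1 : ℤ) - S₂ (q₂ y)) =
          fun y => single (id y) (1 : ℤ) - S₂ (q₂ y) := rfl
      rw [h3, K17_zero, K17_sub, K17_single, mapDomain_id, K17_pre q₂ S₂, ← hab,
        ← K17_pre q₁ S₂]
      simp only [hS₂]
      rw [K17_zero]
      abel

end GP

end OS
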