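import Mathlib
import Pool.Agent.Lib.MP_8fe54c_gt.ArtTree
import Pool.Agent.Lib.MP_8fe54c_gt.ArtCub
import Pool.Agent.Lib.MP_8fe54c_gt.ArtDelta
import Pool.Agent.Lib.MP_8fe54c_gt.ArtPsi
import Pool.Agent.Lib.MP_8fe54c_gt.ArtGeo
import Pool.Agent.Lib.MP_8fe54c_gt.GPDefs
import Pool.Agent.Lib.MP_8fe54c_gt.KTree

namespace OS

open CoxeterSystem Finsupp

open GP


/-! ## AR15b (file ArtCos) -/

section cos

variable {B : Type*}

theorem spher_mono {M : CoxeterMatrix B} (s t : Finset B) (h : s ⊆ t) (ht : Spher M t) :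
    Spher M s := by
  have h1 : WP M.toCoxeterSystem (s : Set B) ≤ WP M.toCoxeterSystem (t : Set B) :=
    WP_mono _ (Finset.coe_subset.mpr h)
  have : Finite (WP M.toCoxeterSystem (t : Set B)) := ht
  exact Finite.of_injective _ (Subgroup.inclusion_injective h1)

theorem spher_empty {M : CoxeterMatrix B} : Spher M ∅ := by
  have h1 : WP M.toCoxeterSystem ((∅ : Finset B) : Set B) = ⊥ := by
    simp [WP]
  show Finite (WP M.toCoxeterSystem ((∅ : Finset B) : Set B))
  rw [h1]
  infer_instance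

/-- the system of the cosets of the standard parabolic subgroups -/
def artinSys (M : CoxeterMatrix B) : CSys B :=
  cosSys (fun σ : Finset B => AP M (σ : Set B)) (fun _ _ h => AP_mono (Finset.coe_subset.mpr h))

instance (M : CoxeterMatrix B) (σ : Finset B) : MulAction (Artin M) ((artinSys M).Q σ) :=
  inferInstanceAs (MulAction (Artin M) (Artin M ⧸ AP M (σ : Set B)))

theorem artin_one (M : CoxeterMatrix B) [Fintype B] :
    Subsingleton ((artinSys M).Q Finset.univ) := by
  change Subsingleton (Artin M ⧸ AP M ((Finset.univ : Finset B) : Set B))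
  refine ⟨fun x y => ?_⟩
  obtain ⟨a, rfl⟩ := QuotientGroup.mk_surjective x
  obtain ⟨b, rfl⟩ := QuotientGroup.mk_surjective y
  rw [QuotientGroup.eq, Finset.coe_univ, AP_univ]
  exact Subgroup.mem_top _

theorem artin_surj (M : CoxeterMatrix B) (s t : Finset B) (h : s ⊆ t) :
    Function.Surjective ((artinSys M).pr h) := by
  intro x
  obtain ⟨a, rfl⟩ := QuotientGroup.mk_surjective x
  exact ⟨(a : Artin M ⧸ AP M (s : Set B)), rfl⟩

theorem artin_free (M : CoxeterMatrix B) (g : Artin M) (x : (artinSys M).Q ∅) (h : g • x = x) :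
    g = 1 := by
  obtain ⟨a, rfl⟩ := QuotientGroup.mk_surjective x
  have h1 : (((g * a : Artin M)) : Artin M ⧸ AP M ((∅ : Finset B) : Set B))
      = ((a : Artin M) : Artin M ⧸ AP M ((∅ : Finset B) : Set B)) := h
  rw [QuotientGroup.eq] at h1
  have h2 : AP M ((∅ : Finset B) : Set B) = ⊥ := by simp [AP]
  rw [h2, Subgroup.mem_bot] at h1
  have h4 : g * a = a := by
    rw [← inv_mul_eq_one]
    exact h1
  simpa using h4

theorem AR15b_reps {G : Type*} [Group G] (K : Subgroup G) [K.FiniteIndex] :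
    ∃ t : Finset G, ∀ g : G, ∃ a : K, ∃ h ∈ t, (a : G) * h = g := by
  classical
  have : Finite (G ⧸ K) := inferInstance
  have := Fintype.ofFinite (G ⧸ K)
  refine ⟨Finset.univ.image (fun q : G ⧸ K => (q.out)⁻¹), ?_⟩
  intro g
  have h1 : ((g⁻¹ : G) : G ⧸ K) = (((g⁻¹ : G) : G ⧸ K).out : G ⧸ K) :=
    (QuotientGroup.out_eq' _).symm
  rw [QuotientGroup.eq] at h1
  refine ⟨⟨_, h1⟩, _, Finset.mem_image_of_mem _ (Finset.mem_univ ((g⁻¹ : G) : G ⧸ K)), ?_⟩
  show g⁻¹⁻¹ * _ * _ = g
  group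

theorem artin_fin (M : CoxeterMatrix B) (K : Subgroup (Artin M)) [K.FiniteIndex] (σ : Finset B) :
    ∃ s : Finset ((artinSys M).Q σ), ∀ x, ∃ g : K, ∃ y ∈ s, g • y = x := by
  classical
  obtain ⟨t, ht⟩ := AR15b_reps K
  refine ⟨t.image (fun a : Artin M => (a : Artin M ⧸ AP M (σ : Set B))), ?_⟩
  intro x
  obtain ⟨a, rfl⟩ := QuotientGroup.mk_surjective x
  obtain ⟨g, h, hh, rfl⟩ := ht a
  exact ⟨g, _, Finset.mem_image_of_mem _ hh, rfl⟩

/-- the count on the powers of an element of the kernel -/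
theorem AR15b_count {M : CoxeterMatrix B} {W : Type*} [Group W] (cs : CoxeterSystem M W)
    {c : Artin M → W → ℤ} (hc : IsCount cs c) {z : Artin M} (hz : qA cs z = 1) {t : W}
    (ht : c z t = 2) (k : ℤ) : c (z ^ k) t = 2 * k := by
  have h1 : c 1 t = 0 := by
    have h := hc.mul 1 1 t
    simp only [map_one, inv_one, one_mul, mul_one] at h
    omega
  have h2 : ∀ k : ℤ, c (z ^ (k + 1)) t = c (z ^ k) t + 2 := by
    intro k
    rw [zpow_add_one, hc.mul]
    have h3 : qA cs (z ^ k) = 1 := by rw [map_zpow, hz, one_zpow]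
    rw [h3]
    simp only [inv_one, one_mul, mul_one]
    rw [ht]
  induction k using Int.induction_on with
  | zero => simpa using h1
  | succ n ih => rw [h2, ih]; ring
  | pred n ih =>
    have h3 := h2 (-(n : ℤ) - 1)
    rw [sub_add_cancel, ih] at h3
    linarith

/-- an equivariant choice of elements of infinite order in the stabilisers, central in the
stabilisers -/
theorem artin_cent (M : CoxeterMatrix B) (K : Subgroup (Artin M)) [K.FiniteIndex] (σ : Finset B)
    (hσ : Spher M σ) (hne : σ.Nonempty) :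
    ∃ z : (artinSys M).Q σ → K, (∀ q, z q • q = q) ∧ (∀ (g : K) q, z (g • q) = g * z q * g⁻¹) ∧
      ∀ q (n : ℤ), z q ^ n = 1 → n = 0 := by
  classical
  obtain ⟨i, hi⟩ := hne
  obtain ⟨c, hc⟩ := exists_count M.toCoxeterSystem
  obtain ⟨w, hw, hqw, hcomm, hcw⟩ := exists_delta M.toCoxeterSystem hc (σ : Set B) hσ
  have hct : c w (M.toCoxeterSystem.simple i) = 2 := by
    rw [hcw, if_pos]
    exact ⟨M.toCoxeterSystem.isReflection_simple i,
      simple_mem_WP _ (Finset.mem_coe.mpr hi)⟩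
  set N : ℕ := K.normalCore.index with hN
  have hN0 : N ≠ 0 := Subgroup.FiniteIndex.index_ne_zero
  have hNK : ∀ a : Artin M, a ^ N ∈ K := fun a =>
    K.normalCore_le (Subgroup.pow_index_mem K.normalCore a)
  have hmem : ∀ g : Artin M, g * w ^ N * g⁻¹ ∈ K := fun g => by
    rw [← conj_pow]
    exact hNK _
  set z : (Artin M ⧸ AP M (σ : Set B)) → K := fun q => ⟨q.out * w ^ N * q.out⁻¹, hmem _⟩ with hz
  have hzg : ∀ g : Artin M, (z (g : Artin M ⧸ AP M (σ : Set B)) : Artin M) = g * w ^ N * g⁻¹ := by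
    intro g
    obtain ⟨⟨a, ha⟩, h1⟩ := QuotientGroup.mk_out_eq_mul (AP M (σ : Set B)) g
    have h2 : Commute (w ^ N) a := (hcomm a ha).pow_left N
    change (g : Artin M ⧸ AP M (σ : Set B)).out * w ^ N *
      ((g : Artin M ⧸ AP M (σ : Set B)).out)⁻¹ = g * w ^ N * g⁻¹
    rw [h1]
    change g * a * w ^ N * (g * a)⁻¹ = g * w ^ N * g⁻¹
    have h3 : a * w ^ N = w ^ N * a := h2.eq.symm
    rw [mul_inv_rev, mul_assoc g a, h3]
    group
  refine ⟨z, ?_, ?_, ?_⟩
  · intro q
    obtain ⟨g, rfl⟩ := QuotientGroup.mk_surjective q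
    change (((z (g : Artin M ⧸ AP M (σ : Set B)) : Artin M) * g : Artin M) :
      Artin M ⧸ AP M (σ : Set B)) = (g : Artin M)
    rw [QuotientGroup.eq, hzg]
    have h1 : (g * w ^ N * g⁻¹ * g)⁻¹ * g = (w ^ N)⁻¹ := by group
    rw [h1]
    exact (AP M _).inv_mem ((AP M _).pow_mem hw N)
  · intro g q
    obtain ⟨a, rfl⟩ := QuotientGroup.mk_surjective q
    refine Subtype.ext ?_
    change (z (((g : Artin M) * a : Artin M) : Artin M ⧸ AP M (σ : Set B)) : Artin M) =
      (g : Artin M) * (z (a : Artin M ⧸ AP M (σ : Set B)) : Artin M) * (g : Artin M)⁻¹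
    rw [hzg, hzg]
    group
  · intro q m hm
    obtain ⟨a, rfl⟩ := QuotientGroup.mk_surjective q
    have h1 : (z (a : Artin M ⧸ AP M (σ : Set B)) : Artin M) ^ m = 1 := by
      have := congrArg Subtype.val hm
      simpa using this
    rw [hzg, conj_zpow] at h1
    have h2 : (w ^ N) ^ m = 1 := by
      have h3 : (w ^ N) ^ m = a⁻¹ * (a * (w ^ N) ^ m * a⁻¹) * a := by group
      rw [h3, h1]
      group
    have h3 : w ^ ((N : ℤ) * m) = 1 := by
      rw [zpow_mul, zpow_natCast]
      exact h2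
    have h4 := AR15b_count M.toCoxeterSystem hc hqw hct ((N : ℤ) * m)
    have h5 := AR15b_count M.toCoxeterSystem hc hqw hct 0
    rw [h3] at h4
    rw [zpow_zero] at h5
    rw [h5] at h4
    have h6 : (N : ℤ) * m = 0 := by linarith
    rcases mul_eq_zero.mp h6 with h7 | h7
    · exact absurd (by exact_mod_cast h7) hN0
    · exact h7

/-- two generators without relation do not generate a finite group -/
theorem AR15b_pair (M : CoxeterMatrix B) [DecidableEq B] {s t : B} (hst : M s t = 0) :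
    ¬ Spher M {s, t} := by
  intro hfin
  have hfin' : Finite (WP M.toCoxeterSystem (({s, t} : Finset B) : Set B)) := hfin
  have hmem : M.toCoxeterSystem.simple s * M.toCoxeterSystem.simple t
      ∈ WP M.toCoxeterSystem (({s, t} : Finset B) : Set B) :=
    (WP _ _).mul_mem (simple_mem_WP _ (by simp)) (simple_mem_WP _ (by simp))
  have h3 := isOfFinOrder_of_finite
    (⟨_, hmem⟩ : WP M.toCoxeterSystem (({s, t} : Finset B) : Set B))
  have h4 := (WP M.toCoxeterSystem (({s, t} : Finset B) : Set B)).subtype.isOfFinOrder h3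
  have h5 : IsOfFinOrder (M.toCoxeterSystem.simple s * M.toCoxeterSystem.simple t) := h4
  have h6 := orderOf_simple_mul M.toCoxeterSystem s t
  rw [hst, orderOf_eq_zero_iff] at h6
  exact h6 h5

theorem AR15b_pr {M : CoxeterMatrix B} {s t : Finset B} (h : s ⊆ t) :
    (artinSys M).pr h = cmap (M := M) (Finset.coe_subset.mpr h) := rfl


theorem AR15b_comm {M : CoxeterMatrix B} {T T0 T1 T2 : Finset B} (h1 : T0 ⊆ T1) (h2 : T0 ⊆ T2)
    (h3 : T1 ⊆ T) (h4 : T2 ⊆ T) (x : (artinSys M).Q T0) :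
    (artinSys M).pr h3 ((artinSys M).pr h1 x) = (artinSys M).pr h4 ((artinSys M).pr h2 x) := by
  rw [(artinSys M).pr_comp, (artinSys M).pr_comp]

theorem AR15b_tree {M : CoxeterMatrix B} {T T0 T1 T2 : Finset B} (h1 : T0 ⊆ T1) (h2 : T0 ⊆ T2)
    (h3 : T1 ⊆ T) (h4 : T2 ⊆ T) (hU : (T : Set B) ⊆ (T1 : Set B) ∪ (T2 : Set B))
    (hI : (T1 : Set B) ∩ (T2 : Set B) ⊆ (T0 : Set B))
    (hM0 : ∀ i ∈ (T1 : Set B), i ∉ (T2 : Set B) → ∀ j ∈ (T2 : Set B), j ∉ (T1 : Set B) →
      M i j = 0) :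
    TreeEx ℤ ((artinSys M).pr h1) ((artinSys M).pr h2) ((artinSys M).pr h3)
      ((artinSys M).pr h4) := by
  rw [AR15b_pr, AR15b_pr, AR15b_pr, AR15b_pr]
  exact ⟨fun x hx1 hx2 => artin_tree_inj (Finset.coe_subset.mpr h3) (Finset.coe_subset.mpr h4)
          (Finset.coe_subset.mpr h1) (Finset.coe_subset.mpr h2) hU hI hM0 x hx1 hx2,
    fun a b hab => artin_tree_mid (Finset.coe_subset.mpr h3) (Finset.coe_subset.mpr h4)
          (Finset.coe_subset.mpr h1) (Finset.coe_subset.mpr h2) hU a b hab⟩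

/-- the coset complex of an Artin group of FC type is exact, for all coefficients -/
theorem artin_dexact [LinearOrder B] [Fintype B] (M : CoxeterMatrix B) (hM : FCType M)
    (A : Type*) [AddCommGroup A] : DExact (artinSys M) (Spher M) A := by
  have : Subsingleton ((artinSys M).Q Finset.univ) := artin_one M
  refine dexact_of_trees (artinSys M) (Spher M) spher_mono A (artin_surj M) ?_
  intro T hT
  have h1 : ¬ ∀ i ∈ T, ∀ j ∈ T, M i j ≠ 0 := fun h => hT (hM T h)
  push Not at h1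
  obtain ⟨s, hs, t, ht, hst⟩ := h1
  have hne : s ≠ t := by
    rintro rfl
    rw [M.diagonal] at hst
    exact one_ne_zero hst
  refine ⟨s, hs, t, ht, hne, AR15b_pair M hst, ?_⟩
  intro h1 h2 h3 h4
  refine tree_coeff _ _ _ _ (fun x => AR15b_comm h1 h2 h3 h4 x)
    (AR15b_tree h1 h2 h3 h4 ?_ ?_ ?_) A
  · intro i hi
    have hi' : i ∈ T := hi
    by_cases his : i = s
    · right
      subst his
      exact Finset.mem_coe.mpr (Finset.mem_erase.mpr ⟨hne, hi'⟩)
    · left
      exact Finset.mem_coe.mpr (Finset.mem_erase.mpr ⟨his, hi'⟩)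
  · rintro i ⟨hi1, hi2⟩
    have hi1' := Finset.mem_erase.mp (Finset.mem_coe.mp hi1)
    have hi2' := Finset.mem_erase.mp (Finset.mem_coe.mp hi2)
    exact Finset.mem_coe.mpr (Finset.mem_erase.mpr ⟨hi2'.1, Finset.mem_erase.mpr hi1'⟩)
  · intro i hi1 hi2 j hj1 hj2
    have hi1' := Finset.mem_erase.mp (Finset.mem_coe.mp hi1)
    have hj1' := Finset.mem_erase.mp (Finset.mem_coe.mp hj1)
    have hi : i = t := by
      by_contra h
      exact hi2 (Finset.mem_coe.mpr (Finset.mem_erase.mpr ⟨h, hi1'.2⟩))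
    have hj : j = s := by
      by_contra h
      exact hj2 (Finset.mem_coe.mpr (Finset.mem_erase.mpr ⟨h, hj1'.2⟩))
    subst hi hj
    rw [M.symmetric]
    exact hst

end cos

end OS
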