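import Mathlib
import Pool.Agent.Lib.MP_8fe54c_gt.ArtDefs
import Pool.Agent.Lib.MP_8fe54c_gt.RankTwo

/-!
# ARTIN, module AR16: mod 2 vanishing implies exactness over the reals, for complexes
-/

namespace OS

universe u

variable {V : Type u} [LinearOrder V] (K : Finset V → Prop)

/-- cliques with `k` vertices -/
abbrev ClC (k : ℕ) := {σ : Finset V // K σ ∧ σ.card = k}

/-- the simplicial boundary matrix -/
def DDC (k : ℕ) : Matrix (ClC K k) (ClC K (k + 1)) ℤ :=
  fun ρ σ => ∑ v ∈ σ.1, if σ.1.erase v = ρ.1 then sgnV σ.1 v else 0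

variable [Fintype V]

section sum

variable {K} [∀ k, Fintype (ClC K k)]

/-- the boundary of a chain -/
theorem DDC_sum {R : Type*} [CommRing R] (k : ℕ) (ρ : ClC K k) (z : Finset V → R)
    (hz : ∀ s : Finset V, ¬ (K s ∧ s.card = k + 1) → z s = 0) :
    ∑ σ : ClC K (k + 1), ((DDC K k ρ σ : ℤ) : R) * z σ.1 =
      ∑ v ∈ Finset.univ.filter (fun v => v ∉ ρ.1), (sgnV (insert v ρ.1) v : R) * z (insert v ρ.1) := by
  classical
  have h1 : ∀ σ : ClC K (k + 1), ((DDC K k ρ σ : ℤ) : R) * z σ.1 =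
      ∑ v ∈ Finset.univ.filter (fun v => v ∉ ρ.1),
        if insert v ρ.1 = σ.1 then (sgnV (insert v ρ.1) v : R) * z (insert v ρ.1) else 0 := by
    intro σ
    unfold DDC
    push_cast
    rw [Finset.sum_mul, Finset.sum_filter, ← Finset.sum_filter_add_sum_filter_not Finset.univ
      (fun v => v ∈ σ.1)]
    have h2 : ∑ x ∈ Finset.univ.filter (fun v => v ∉ σ.1), (if x ∉ ρ.1 then
        if insert x ρ.1 = σ.1 then (sgnV (insert x ρ.1) x : R) * z (insert x ρ.1) else 0 else 0) = 0 := by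
      apply Finset.sum_eq_zero
      intro x hx
      rw [Finset.mem_filter] at hx
      rw [if_neg (c := insert x ρ.1 = σ.1), ite_self]
      intro h
      exact hx.2 (h ▸ Finset.mem_insert_self x ρ.1)
    rw [h2, add_zero]
    have h3 : Finset.univ.filter (fun v => v ∈ σ.1) = σ.1 := by ext v; simp
    rw [h3]
    refine Finset.sum_congr rfl (fun v hv => ?_)
    by_cases h : σ.1.erase v = ρ.1
    · have h4 : v ∉ ρ.1 := by rw [← h]; exact Finset.notMem_erase v σ.1
      have h5 : insert v ρ.1 = σ.1 := by rw [← h]; exact Finset.insert_erase hv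
      rw [if_pos h, if_pos h4, if_pos h5, h5]
    · rw [if_neg h]
      by_cases h4 : v ∉ ρ.1
      · rw [if_pos h4, if_neg]
        · simp
        · intro h5
          apply h
          rw [← h5]
          exact Finset.erase_insert h4
      · rw [if_neg h4]; simp
  rw [Finset.sum_congr rfl (fun σ _ => h1 σ), Finset.sum_comm]
  refine Finset.sum_congr rfl (fun v hv => ?_)
  by_cases h : K (insert v ρ.1) ∧ (insert v ρ.1).card = k + 1
  · rw [Finset.sum_eq_single (⟨insert v ρ.1, h⟩ : ClC K (k + 1))]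
    · rw [if_pos rfl]
    · intro σ _ hσ
      rw [if_neg]
      intro h'
      exact hσ (Subtype.ext h'.symm)
    · intro h'
      exact absurd (Finset.mem_univ _) h'
  · rw [hz _ h, mul_zero]
    simp

variable (K) in
theorem DDC_mul (hK : ∀ s t, s ⊆ t → K t → K s) (k : ℕ) : DDC K k * DDC K (k + 1) = 0 := by
  classical
  ext ρ τ
  rw [Matrix.mul_apply, Matrix.zero_apply]
  have h1 : ∀ σ : ClC K (k + 1), DDC K k ρ σ * DDC K (k + 1) σ τ =
      ∑ u ∈ τ.1, if τ.1.erase u = σ.1 then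
        sgnV τ.1 u * ∑ v ∈ τ.1.erase u, (if (τ.1.erase u).erase v = ρ.1 then sgnV (τ.1.erase u) v else 0)
        else 0 := by
    intro σ
    unfold DDC
    rw [Finset.mul_sum]
    refine Finset.sum_congr rfl (fun u _ => ?_)
    by_cases h : τ.1.erase u = σ.1
    · rw [if_pos h, if_pos h, h, mul_comm]
    · rw [if_neg h, if_neg h, mul_zero]
  rw [Finset.sum_congr rfl (fun σ _ => h1 σ), Finset.sum_comm]
  have h2 : ∀ u ∈ τ.1, (∑ σ : ClC K (k + 1), if τ.1.erase u = σ.1 then
        sgnV τ.1 u * ∑ v ∈ τ.1.erase u, (if (τ.1.erase u).erase v = ρ.1 then sgnV (τ.1.erase u) v else 0)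
        else 0) = ∑ v ∈ τ.1.erase u, (if (τ.1.erase u).erase v = ρ.1 then
          sgnV τ.1 u * sgnV (τ.1.erase u) v else 0) := by
    intro u hu
    have hc : K (τ.1.erase u) ∧ (τ.1.erase u).card = k + 1 :=
      ⟨hK _ _ (Finset.erase_subset u τ.1) τ.2.1, by
        rw [Finset.card_erase_of_mem hu, τ.2.2]; rfl⟩
    rw [Finset.sum_eq_single (⟨τ.1.erase u, hc⟩ : ClC K (k + 1))]
    · rw [if_pos rfl, Finset.mul_sum]
      refine Finset.sum_congr rfl (fun v _ => ?_)
      rw [mul_ite, mul_zero]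
    · intro σ _ hσ
      rw [if_neg]
      intro h'
      exact hσ (Subtype.ext h'.symm)
    · intro h'
      exact absurd (Finset.mem_univ _) h'
  rw [Finset.sum_congr rfl h2, Finset.sum_sigma']
  refine Finset.sum_involution (fun p _ => ⟨p.2, p.1⟩) ?_ ?_ ?_ ?_
  · rintro ⟨u, v⟩ h
    simp only [Finset.mem_sigma, Finset.mem_erase] at h
    simp only
    rw [Finset.erase_right_comm (a := v)]
    by_cases h' : (τ.1.erase u).erase v = ρ.1
    · rw [if_pos h', if_pos h']
      exact sgnV_anti h.1 h.2.2 (fun e => h.2.1 e.symm)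
    · rw [if_neg h', if_neg h', add_zero]
  · rintro ⟨u, v⟩ h _ h2
    simp only [Finset.mem_sigma, Finset.mem_erase] at h
    simp only [Sigma.mk.injEq] at h2
    exact h.2.1 h2.1
  · rintro ⟨u, v⟩ h
    simp only [Finset.mem_sigma, Finset.mem_erase] at h ⊢
    exact ⟨h.2.2, fun h' => h.2.1 h'.symm, h.1⟩
  · rintro ⟨u, v⟩ h
    rfl

end sum

section two

variable {K} [∀ k, Fintype (ClC K k)]

/-- exactness modulo two from the vanishing of the homology -/
theorem exact_twoC (hK : ∀ s t, s ⊆ t → K t → K s) (j : ℕ) (h : ¬ HasClassC K j) (z : ClC K (j + 1) → ZMod 2)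
    (hz : ((DDC K j).map (Int.cast : ℤ → ZMod 2)).mulVec z = 0) :
    ∃ w : ClC K (j + 2) → ZMod 2, ((DDC K (j + 1)).map (Int.cast : ℤ → ZMod 2)).mulVec w = z := by
  classical
  by_contra hcon
  have hz1 : z ∉ LinearMap.range ((DDC K (j + 1)).map (Int.cast : ℤ → ZMod 2)).mulVecLin := by
    rintro ⟨w, hw⟩
    exact hcon ⟨w, hw⟩
  obtain ⟨φ, hφz, hφ⟩ := Submodule.exists_le_ker_of_notMem hz1
  let P : Finset V → Prop := fun s => K s ∧ s.card = j + 1
  let zz : Finset V → ZMod 2 := fun s => if h : P s then z ⟨s, h⟩ else 0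
  let φs : Finset V → ZMod 2 := fun s => if h : P s then φ (Pi.single ⟨s, h⟩ 1) else 0
  have hzz : ∀ σ : ClC K (j + 1), zz σ.1 = z σ := by
    rintro ⟨σ, hσ⟩
    show (if h : P σ then z ⟨σ, h⟩ else 0) = _
    rw [dif_pos hσ]
  have hφs : ∀ σ : ClC K (j + 1), φs σ.1 = φ (Pi.single σ 1) := by
    rintro ⟨σ, hσ⟩
    show (if h : P σ then φ (Pi.single ⟨σ, h⟩ 1) else 0) = _
    rw [dif_pos hσ]
  have hzn : ∀ s, ¬ P s → zz s = 0 := fun s hs => dif_neg hs
  let Z : Finset (Finset V) := Finset.univ.filter (fun s => zz s = 1)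
  have two : ∀ a : ZMod 2, a = if a = 1 then 1 else 0 := by decide
  have hφsum : ∀ y : ClC K (j + 1) → ZMod 2, φ y = ∑ σ : ClC K (j + 1), y σ * φs σ.1 := by
    intro y
    have h1 : y = ∑ σ : ClC K (j + 1), y σ • (Pi.single σ 1 : ClC K (j + 1) → ZMod 2) := by
      funext τ
      rw [Finset.sum_apply, Finset.sum_eq_single τ]
      · simp
      · intro b _ hb
        simp [Pi.single_apply, Ne.symm hb]
      · intro h'; exact absurd (Finset.mem_univ _) h'
    conv_lhs => rw [h1]
    rw [map_sum]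
    refine Finset.sum_congr rfl (fun σ _ => ?_)
    rw [map_smul, smul_eq_mul, hφs]
  apply h
  refine ⟨Z, φs, ?_, ?_, ?_, ?_⟩
  · intro σ hσ
    have h1 : zz σ = 1 := (Finset.mem_filter.1 hσ).2
    by_contra h2
    rw [hzn σ h2] at h1
    exact zero_ne_one h1
  · intro ρ hρ
    by_cases hcl : K ρ
    · have h1 := DDC_sum (R := ZMod 2) j (⟨ρ, hcl, hρ⟩ : ClC K j) zz hzn
      have h2 : ∑ σ : ClC K (j + 1), ((DDC K j ⟨ρ, hcl, hρ⟩ σ : ℤ) : ZMod 2) * zz σ.1 = 0 := by
        have := congrFun hz ⟨ρ, hcl, hρ⟩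
        rw [Pi.zero_apply] at this
        rw [← this]
        refine Finset.sum_congr rfl (fun σ _ => ?_)
        rw [hzz]
        rfl
      rw [h2] at h1
      have h3 : ∑ v ∈ Finset.univ.filter (fun v => v ∉ ρ),
          ((sgnV (insert v ρ) v : ℤ) : ZMod 2) * zz (insert v ρ) =
          (((Finset.univ.filter (fun v => v ∉ ρ ∧ insert v ρ ∈ Z)).card : ℕ) : ZMod 2) := by
        have h4 : ∀ v, ((sgnV (insert v ρ) v : ℤ) : ZMod 2) * zz (insert v ρ) =
            if insert v ρ ∈ Z then 1 else 0 := by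
          intro v
          rw [sgnV_two, one_mul, two (zz (insert v ρ))]
          have : (insert v ρ ∈ Z) ↔ zz (insert v ρ) = 1 := by
            show insert v ρ ∈ Finset.univ.filter (fun s => zz s = 1) ↔ _
            rw [Finset.mem_filter]
            exact and_iff_right (Finset.mem_univ _)
          simp only [this]
        rw [Finset.sum_congr rfl (fun v _ => h4 v), Finset.sum_boole, Finset.filter_filter]
      rw [h3] at h1
      rw [← ZMod.natCast_eq_zero_iff_even]
      exact h1.symm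
    · have : Finset.univ.filter (fun v => v ∉ ρ ∧ insert v ρ ∈ Z) = ∅ := by
        rw [Finset.filter_eq_empty_iff]
        rintro v _ ⟨_, h2⟩
        have h1 : zz (insert v ρ) = 1 := (Finset.mem_filter.1 h2).2
        apply hcl
        have h3 : P (insert v ρ) := by
          by_contra h3
          rw [hzn _ h3] at h1
          exact zero_ne_one h1
        exact hK _ _ (Finset.subset_insert v ρ) h3.1
      rw [this]
      simp
  · intro τ hτ1 hτ2
    have h1 : ((DDC K (j + 1)).map (Int.cast : ℤ → ZMod 2)).mulVecLin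
        (Pi.single (⟨τ, hτ1, hτ2⟩ : ClC K (j + 2)) 1) ∈ LinearMap.ker φ := hφ ⟨_, rfl⟩
    rw [LinearMap.mem_ker, hφsum, Matrix.mulVecLin_apply, Matrix.mulVec_single_one] at h1
    rw [← h1]
    have h2 : ∀ σ : ClC K (j + 1),
        ((DDC K (j + 1)).map (Int.cast : ℤ → ZMod 2)).col ⟨τ, hτ1, hτ2⟩ σ * φs σ.1 =
        ∑ v ∈ τ, if τ.erase v = σ.1 then φs (τ.erase v) else 0 := by
      intro σ
      show ((DDC K (j + 1) σ ⟨τ, hτ1, hτ2⟩ : ℤ) : ZMod 2) * φs σ.1 = _
      unfold DDC
      push_cast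
      rw [Finset.sum_mul]
      refine Finset.sum_congr rfl (fun v _ => ?_)
      by_cases h' : τ.erase v = σ.1
      · rw [if_pos h', if_pos h', sgnV_two, one_mul, h']
      · rw [if_neg h', if_neg h', zero_mul]
    rw [Finset.sum_congr rfl (fun σ _ => h2 σ), Finset.sum_comm]
    refine Finset.sum_congr rfl (fun v hv => ?_)
    have hc : K (τ.erase v) ∧ (τ.erase v).card = j + 1 :=
      ⟨hK _ _ (Finset.erase_subset v τ) hτ1, by
        rw [Finset.card_erase_of_mem hv, hτ2]; rfl⟩
    rw [Finset.sum_eq_single (⟨τ.erase v, hc⟩ : ClC K (j + 1))]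
    · rw [if_pos rfl]
    · intro σ _ hσ
      rw [if_neg]
      intro h'
      exact hσ (Subtype.ext h'.symm)
    · intro h'
      exact absurd (Finset.mem_univ _) h'
  · have h1 := hφsum z
    have h2 : φ z = 1 := by
      rcases (two (φ z)) with h'
      by_cases h3 : φ z = 1
      · exact h3
      · rw [if_neg h3] at h'
        exact absurd h' hφz
    rw [h2] at h1
    rw [h1]
    have h4 : ∀ s, (if s ∈ Z then φs s else 0) = zz s * φs s := by
      intro s
      have h5 : (s ∈ Z) ↔ zz s = 1 := by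
        show s ∈ Finset.univ.filter (fun s => zz s = 1) ↔ _
        rw [Finset.mem_filter]
        exact and_iff_right (Finset.mem_univ _)
      rw [two (zz s)]
      simp only [h5, ite_mul, one_mul, zero_mul]
    have h6 : ∑ σ ∈ Z, φs σ = ∑ s : Finset V, zz s * φs s := by
      rw [← Finset.sum_congr rfl (fun s _ => h4 s), ← Finset.sum_filter, Finset.filter_mem_eq_inter,
        Finset.univ_inter]
    rw [h6]
    have h7 : ∑ σ : ClC K (j + 1), z σ * φs σ.1 = ∑ σ : ClC K (j + 1), zz σ.1 * φs σ.1 :=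
      Finset.sum_congr rfl (fun σ _ => by rw [hzz])
    rw [h7]
    have h8 : ∑ s : Finset V, zz s * φs s =
        ∑ s ∈ Finset.univ.filter (fun s => P s), zz s * φs s := by
      symm
      apply Finset.sum_filter_of_ne
      intro s _ hs
      by_contra h'
      exact hs (by rw [hzn s h', zero_mul])
    rw [h8]
    exact Finset.sum_subtype _ (fun s => by simp [P]) _

end two

theorem real_acyclicC {V : Type*} [LinearOrder V] [Fintype V] (K : Finset V → Prop)
    (hK : ∀ s t, s ⊆ t → K t → K s) (j : ℕ) (h : ¬ HasClassC K j) (z : Finset V → ℝ)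
    (hz : ∀ s : Finset V, ¬ (K s ∧ s.card = j + 1) → z s = 0)
    (hc : ∀ s : Finset V, ∑ v ∈ sᶜ, (sgnV (insert v s) v : ℝ) * z (insert v s) = 0) :
    ∃ y : Finset V → ℝ,
      (∀ s : Finset V, ¬ (K s ∧ s.card = j + 1 + 1) → y s = 0) ∧
      ∀ s : Finset V, ∑ v ∈ sᶜ, (sgnV (insert v s) v : ℝ) * y (insert v s) = z s := by
  classical
  have : ∀ k, Fintype (ClC K k) := fun k => Fintype.ofFinite _
  have hcompl : ∀ s : Finset V, sᶜ = Finset.univ.filter (fun v => v ∉ s) := by
    intro s; ext v; simp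
  have h1 : ((DDC K j).map (Int.cast : ℤ → ℝ)).mulVec (fun σ : ClC K (j + 1) => z σ.1) = 0 := by
    funext ρ
    rw [Pi.zero_apply, ← hc ρ.1, hcompl, ← DDC_sum (R := ℝ) j ρ z hz]
    rfl
  obtain ⟨w, hw⟩ := lin_real (DDC K j) (DDC K (j + 1)) (DDC_mul K hK j) (exact_twoC hK j h) _ h1
  let P : Finset V → Prop := fun s => K s ∧ s.card = j + 1 + 1
  let y : Finset V → ℝ := fun s => if h : P s then w ⟨s, h⟩ else 0
  have hy : ∀ s, ¬ P s → y s = 0 := fun s hs => dif_neg hs
  have hyw : ∀ τ : ClC K (j + 2), y τ.1 = w τ := by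
    rintro ⟨τ, hτ⟩
    exact dif_pos hτ
  refine ⟨y, hy, ?_⟩
  intro s
  rw [hcompl]
  by_cases hs : K s ∧ s.card = j + 1
  · have h2 := DDC_sum (R := ℝ) (j + 1) (⟨s, hs⟩ : ClC K (j + 1)) y hy
    rw [← h2]
    have h3 := congrFun hw ⟨s, hs⟩
    rw [← h3]
    refine Finset.sum_congr rfl (fun τ _ => ?_)
    rw [hyw]
    rfl
  · rw [hz s hs]
    apply Finset.sum_eq_zero
    intro v hv
    have hv' : v ∉ s := (Finset.mem_filter.1 hv).2
    rw [hy, mul_zero]
    rintro ⟨h4, h5⟩
    apply hs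
    refine ⟨hK _ _ (Finset.subset_insert v s) h4, ?_⟩
    rw [Finset.card_insert_of_notMem hv'] at h5
    omega

end OS
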