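import Mathlib
import Pool.Agent.Lib.MP_8fe54c_gt.GPDefs
import Pool.Agent.Lib.MP_8fe54c_gt.ArtReal

/-!
# Project K, module K20: homology classes of complexes, joins, links
-/

namespace OS

namespace GP

open Finsupp

universe u v w

theorem K20_cliq {V : Type*} (L : SimpleGraph V) (σ : Finset V) :
    cliq L σ ↔ ∀ a ∈ σ, ∀ b ∈ σ, a ≠ b → L.Adj a b := by
  unfold cliq
  constructor
  · intro h a ha b hb hab
    exact h (Finset.mem_coe.mpr ha) (Finset.mem_coe.mpr hb) hab
  · intro h a ha b hb hab
    exact h a (Finset.mem_coe.mp ha) b (Finset.mem_coe.mp hb) hab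

/-- transport of a class along an embedding whose image contains all simplices -/
theorem K20_transport {V W : Type*} [Fintype V] [DecidableEq V] [Fintype W] [DecidableEq W]
    (emb : W ↪ V) (K : Finset V → Prop) (K' : Finset W → Prop)
    (h1 : ∀ s : Finset W, K' s ↔ K (s.map emb))
    (h2 : ∀ s : Finset V, K s → ∀ v ∈ s, v ∈ Set.range emb) (m : ℕ) (h : HasClsC K m) :
    HasClsC K' m := by
  classical
  obtain ⟨Z, φ, hZ, hb, hc, hs⟩ := h
  have key : ∀ s : Finset V, K s → ∃ s' : Finset W, s'.map emb = s := by
    intro s hKs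
    refine ⟨Finset.univ.filter (fun w => emb w ∈ s), ?_⟩
    ext v
    simp only [Finset.mem_map, Finset.mem_filter, Finset.mem_univ, true_and]
    constructor
    · rintro ⟨w, hw, rfl⟩; exact hw
    · intro hv
      obtain ⟨w, rfl⟩ := h2 s hKs v hv
      exact ⟨w, hv, rfl⟩
  refine ⟨Finset.univ.filter (fun s' : Finset W => s'.map emb ∈ Z), fun s' => φ (s'.map emb),
    ?_, ?_, ?_, ?_⟩
  · intro s' hs'
    rw [Finset.mem_filter] at hs'
    have := hZ _ hs'.2
    exact ⟨(h1 s').mpr this.1, by rw [← this.2, Finset.card_map]⟩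
  · intro ρ hρ
    have := hb (ρ.map emb) (by rw [Finset.card_map]; exact hρ)
    have e1 : (Finset.univ.filter (fun v => v ∉ ρ.map emb ∧ insert v (ρ.map emb) ∈ Z)) =
        (Finset.univ.filter (fun v => v ∉ ρ ∧ insert v ρ ∈
          Finset.univ.filter (fun s' : Finset W => s'.map emb ∈ Z))).map emb := by
      ext v
      simp only [Finset.mem_filter, Finset.mem_univ, true_and, Finset.mem_map]
      constructor
      · rintro ⟨hv, hi⟩
        obtain ⟨w, rfl⟩ := h2 _ (hZ _ hi).1 v (Finset.mem_insert_self _ _)
        refine ⟨w, ⟨?_, ?_⟩, rfl⟩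
        · intro hw
          exact hv ⟨w, hw, rfl⟩
        · rw [Finset.map_insert]; exact hi
      · rintro ⟨w, ⟨hw, hi⟩, rfl⟩
        refine ⟨?_, ?_⟩
        · rintro ⟨a, ha, hae⟩
          exact hw (emb.injective hae ▸ ha)
        · rw [Finset.map_insert] at hi; exact hi
    rw [e1, Finset.card_map] at this
    exact this
  · intro τ hτ hcard
    have := hc (τ.map emb) ((h1 τ).mp hτ) (by rw [Finset.card_map]; exact hcard)
    rw [Finset.sum_map] at this
    simpa only [Finset.map_erase] using this
  · rw [← hs]
    have e1 : Z = (Finset.univ.filter (fun s' : Finset W => s'.map emb ∈ Z)).image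
        (fun s' => s'.map emb) := by
      ext s
      simp only [Finset.mem_image, Finset.mem_filter, Finset.mem_univ, true_and]
      constructor
      · intro hsZ
        obtain ⟨s', rfl⟩ := key s (hZ _ hsZ).1
        exact ⟨s', hsZ, rfl⟩
      · rintro ⟨s', h, rfl⟩; exact h
    conv_rhs => rw [e1]
    rw [Finset.sum_image]
    intro a _ b _ hab
    exact Finset.map_injective emb hab

theorem rac_of_not_hasClsC {V : Type*} [Fintype V] [LinearOrder V] (K : Finset V → Prop)
    (hK : ∀ s t, s ⊆ t → K t → K s) (q : ℕ) (h : ¬ HasClsC K q) : RAc K q := by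
  classical
  intro z hz hc
  rcases q with _ | j
  · by_cases hK0 : K ∅
    · have hv : ∃ v : V, K {v} := by
        by_contra hcon
        push Not at hcon
        apply h
        refine ⟨{∅}, fun _ => 1, ?_, ?_, ?_, ?_⟩
        · intro σ hσ
          rw [Finset.mem_singleton] at hσ
          subst hσ
          exact ⟨hK0, rfl⟩
        · intro ρ hρ
          omega
        · intro τ hτ hcard
          exfalso
          rw [zero_add, Finset.card_eq_one] at hcard
          obtain ⟨v, rfl⟩ := hcard
          exact hcon v hτ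
        · simp
      obtain ⟨v0, hv0⟩ := hv
      have hsq : (sgnV ({v0} : Finset V) v0 : ℝ) * (sgnV ({v0} : Finset V) v0 : ℝ) = 1 := by
        have e : sgnV ({v0} : Finset V) v0 = 1 := by
          unfold sgnV
          rw [Finset.filter_singleton, if_neg (lt_irrefl _)]
          simp
        rw [e]
        simp
      refine ⟨fun s => if s = {v0} then (sgnV ({v0} : Finset V) v0 : ℝ) * z ∅ else 0, ?_, ?_⟩
      · intro s hs
        dsimp only
        rw [if_neg]
        rintro rfl
        exact hs ⟨hv0, by simp⟩
      · intro s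
        by_cases hs : s = ∅
        · subst hs
          rw [Finset.sum_eq_single v0]
          · have e1 : insert v0 (∅ : Finset V) = {v0} := rfl
            dsimp only
            rw [e1, if_pos rfl, ← mul_assoc, hsq, one_mul]
          · intro b _ hb
            have e1 : insert b (∅ : Finset V) = {b} := rfl
            dsimp only
            rw [e1, if_neg, mul_zero]
            intro hcon
            exact hb (Finset.singleton_injective hcon)
          · intro hcon
            exact absurd (by simp) hcon
        · have hzs : z s = 0 := by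
            apply hz
            rintro ⟨_, h2⟩
            exact hs (Finset.card_eq_zero.mp h2)
          rw [hzs]
          apply Finset.sum_eq_zero
          intro v hv
          dsimp only
          rw [if_neg, mul_zero]
          intro hcon
          rw [Finset.mem_compl] at hv
          have : (insert v s).card = 1 := by rw [hcon]; simp
          rw [Finset.card_insert_of_notMem hv] at this
          exact hs (Finset.card_eq_zero.mp (by omega))
    · refine ⟨fun _ => 0, fun _ _ => rfl, ?_⟩
      intro s
      have hzs : z s = 0 := by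
        apply hz
        rintro ⟨h1, h2⟩
        rw [Finset.card_eq_zero] at h2
        subst h2
        exact hK0 h1
      rw [hzs]
      simp
  · have h' : ¬ HasClassC K j := by
      rintro ⟨Z, φ, a1, a2, a3, a4⟩
      apply h
      refine ⟨Z, φ, a1, ?_, ?_, a4⟩
      · intro ρ hρ
        exact a2 ρ (by omega)
      · intro τ hτ hcard
        exact a3 τ hτ (by omega)
    exact real_acyclicC K hK j h' z hz hc

/-- the graph induced on the common neighbours of `σ` -/
def lkG {V : Type*} (L : SimpleGraph V) (σ : Finset V) :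
    SimpleGraph {u : V // u ∉ σ ∧ ∀ w ∈ σ, L.Adj u w} := L.comap Subtype.val

theorem hasClsC_lkG {V : Type*} [Fintype V] [LinearOrder V] (L : SimpleGraph V)
    (σ : Finset V) (hσ : cliq L σ) (q : ℕ) [DecidableEq {u : V // u ∉ σ ∧ ∀ w ∈ σ, L.Adj u w}]
    [Fintype {u : V // u ∉ σ ∧ ∀ w ∈ σ, L.Adj u w}] (h : HasClsC (lk (cliq L) σ) q) :
    HasClsC (cliq (lkG L σ)) q := by
  refine K20_transport (Function.Embedding.subtype _) (lk (cliq L) σ) (cliq (lkG L σ)) ?_ ?_ q h
  · intro s
    unfold lk
    rw [K20_cliq, K20_cliq]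
    constructor
    · intro hs
      refine ⟨?_, ?_⟩
      · rw [Finset.disjoint_left]
        intro a ha has
        rw [Finset.mem_map] at has
        obtain ⟨b, _, rfl⟩ := has
        exact b.2.1 ha
      · intro a ha b hb hab
        rw [Finset.mem_union, Finset.mem_map] at ha hb
        rcases ha with ha | ⟨a', ha', rfl⟩
        · rcases hb with hb | ⟨b', hb', rfl⟩
          · exact (K20_cliq L σ).mp hσ a ha b hb hab
          · exact (b'.2.2 a ha).symm
        · rcases hb with hb | ⟨b', hb', rfl⟩
          · exact a'.2.2 b hb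
          · have hne : a' ≠ b' := by
              rintro rfl
              exact hab rfl
            exact hs a' ha' b' hb' hne
    · rintro ⟨_, hs⟩
      intro a ha b hb hab
      exact hs a.1 (Finset.mem_union_right _ (Finset.mem_map.mpr ⟨a, ha, rfl⟩)) b.1
        (Finset.mem_union_right _ (Finset.mem_map.mpr ⟨b, hb, rfl⟩))
        (fun hcon => hab (Subtype.ext hcon))
  · rintro s ⟨hd, hs⟩ v hv
    rw [K20_cliq] at hs
    refine ⟨⟨v, ?_, ?_⟩, rfl⟩
    · intro hvσ
      exact (Finset.disjoint_left.mp hd) hvσ hv
    · intro w hw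
      refine hs v (Finset.mem_union_right _ hv) w (Finset.mem_union_left _ hw) ?_
      rintro rfl
      exact (Finset.disjoint_left.mp hd) hw hv

/-- the join of two graphs -/
def joinG {V W : Type*} (K : SimpleGraph V) (K' : SimpleGraph W) : SimpleGraph (V ⊕ W) where
  Adj
    | Sum.inl a, Sum.inl b => K.Adj a b
    | Sum.inr a, Sum.inr b => K'.Adj a b
    | _, _ => True
  symm := ⟨by rintro (a | a) (b | b) h <;> first | exact h.symm | trivial⟩
  loopless := ⟨by rintro (a | a) h <;> exact SimpleGraph.irrefl _ h⟩

theorem K20_cliq_join {V W : Type*} [DecidableEq V] [DecidableEq W]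
    (K : SimpleGraph V) (K' : SimpleGraph W) (u : Finset (V ⊕ W)) :
    cliq (joinG K K') u ↔ cliq K u.toLeft ∧ cliq K' u.toRight := by
  rw [K20_cliq, K20_cliq, K20_cliq]
  constructor
  · intro h
    refine ⟨?_, ?_⟩
    · intro a ha b hb hab
      exact h (Sum.inl a) (Finset.mem_toLeft.mp ha) (Sum.inl b) (Finset.mem_toLeft.mp hb)
        (fun hcon => hab (Sum.inl_injective hcon))
    · intro a ha b hb hab
      exact h (Sum.inr a) (Finset.mem_toRight.mp ha) (Sum.inr b) (Finset.mem_toRight.mp hb)
        (fun hcon => hab (Sum.inr_injective hcon))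
  · rintro ⟨h1, h2⟩
    rintro (a | a) ha (b | b) hb hab
    · exact h1 a (Finset.mem_toLeft.mpr ha) b (Finset.mem_toLeft.mpr hb)
        (fun hcon => hab (by rw [hcon]))
    · trivial
    · trivial
    · exact h2 a (Finset.mem_toRight.mpr ha) b (Finset.mem_toRight.mpr hb)
        (fun hcon => hab (by rw [hcon]))

theorem hasClsC_join {V W : Type*} [Fintype V] [DecidableEq V] [Fintype W] [DecidableEq W]
    (K : SimpleGraph V) (K' : SimpleGraph W) (m m' : ℕ) (h : HasClsC (cliq K) m)
    (h' : HasClsC (cliq K') m') : HasClsC (cliq (joinG K K')) (m + m') := by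
  obtain ⟨Z, φ, hZ, hb, hc, hs⟩ := h
  obtain ⟨Z', φ', hZ', hb', hc', hs'⟩ := h'
  have hmem : ∀ u : Finset (V ⊕ W),
      u ∈ (Z ×ˢ Z').image (fun p => p.1.disjSum p.2) ↔ u.toLeft ∈ Z ∧ u.toRight ∈ Z' := by
    intro u
    simp only [Finset.mem_image, Finset.mem_product, Prod.exists]
    constructor
    · rintro ⟨a, b, ⟨ha, hb⟩, rfl⟩
      simpa using ⟨ha, hb⟩
    · intro hu
      exact ⟨u.toLeft, u.toRight, hu, Finset.toLeft_disjSum_toRight⟩
  refine ⟨(Z ×ˢ Z').image (fun p => p.1.disjSum p.2),
    fun u => if u.toLeft.card = m ∧ u.toRight.card = m' then φ u.toLeft * φ' u.toRight else 0,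
    ?_, ?_, ?_, ?_⟩
  · intro u hu
    rw [hmem] at hu
    have h1 := hZ _ hu.1
    have h2 := hZ' _ hu.2
    refine ⟨(K20_cliq_join K K' u).mpr ⟨h1.1, h2.1⟩, ?_⟩
    rw [← Finset.card_toLeft_add_card_toRight, h1.2, h2.2]
  · intro ρ hρ
    have hρc : ρ.toLeft.card + ρ.toRight.card = ρ.card := Finset.card_toLeft_add_card_toRight
    have e1 : (Finset.univ.filter (fun v => v ∉ ρ ∧
        insert v ρ ∈ (Z ×ˢ Z').image (fun p => p.1.disjSum p.2))) =
        (Finset.univ.filter (fun x : V => x ∉ ρ.toLeft ∧ insert x ρ.toLeft ∈ Z ∧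
          ρ.toRight ∈ Z')).disjSum
        (Finset.univ.filter (fun y : W => y ∉ ρ.toRight ∧ insert y ρ.toRight ∈ Z' ∧
          ρ.toLeft ∈ Z)) := by
      ext v
      rcases v with x | y
      · simp only [Finset.mem_filter, Finset.mem_univ, true_and, hmem, Finset.toLeft_insert_inl,
          Finset.toRight_insert_inl, Finset.inl_mem_disjSum, Finset.mem_toLeft]
      · simp only [Finset.mem_filter, Finset.mem_univ, true_and, hmem, Finset.toLeft_insert_inr,
          Finset.toRight_insert_inr, Finset.inr_mem_disjSum, Finset.mem_toRight]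
        tauto
    rw [e1, Finset.card_disjSum]
    apply Even.add
    · by_cases hr : ρ.toRight ∈ Z'
      · simp only [hr, and_true]
        apply hb
        have := (hZ' _ hr).2
        omega
      · simp [hr]
    · by_cases hr : ρ.toLeft ∈ Z
      · simp only [hr, and_true]
        apply hb'
        have := (hZ _ hr).2
        omega
      · simp [hr]
  · intro τ hτ hcard
    rw [K20_cliq_join] at hτ
    have hτc : τ.toLeft.card + τ.toRight.card = τ.card := Finset.card_toLeft_add_card_toRight
    have hsum : ∀ F : V ⊕ W → ZMod 2, ∑ v ∈ τ, F v =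
        ∑ x ∈ τ.toLeft, F (Sum.inl x) + ∑ y ∈ τ.toRight, F (Sum.inr y) := by
      intro F
      conv_lhs => rw [← Finset.toLeft_disjSum_toRight (u := τ)]
      exact Finset.sum_disjSum _ _ _
    rw [hsum]
    have eL : ∀ x : V, (τ.erase (Sum.inl x)).toLeft = τ.toLeft.erase x := by
      intro x; ext a; simp
    have eR : ∀ x : V, (τ.erase (Sum.inl x)).toRight = τ.toRight := by
      intro x; ext a; simp
    have eL' : ∀ x : W, (τ.erase (Sum.inr x)).toLeft = τ.toLeft := by
      intro x; ext a; simp
    have eR' : ∀ x : W, (τ.erase (Sum.inr x)).toRight = τ.toRight.erase x := by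
      intro x; ext a; simp
    simp only [eL, eR, eL', eR']
    have s1 : ∑ x ∈ τ.toLeft, (if (τ.toLeft.erase x).card = m ∧ τ.toRight.card = m' then
        φ (τ.toLeft.erase x) * φ' τ.toRight else 0) = 0 := by
      by_cases hcc : τ.toLeft.card = m + 1 ∧ τ.toRight.card = m'
      · have : ∀ x ∈ τ.toLeft, (if (τ.toLeft.erase x).card = m ∧ τ.toRight.card = m' then
            φ (τ.toLeft.erase x) * φ' τ.toRight else 0) =
            φ (τ.toLeft.erase x) * φ' τ.toRight := by
          intro x hx
          rw [if_pos]
          refine ⟨?_, hcc.2⟩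
          rw [Finset.card_erase_of_mem hx, hcc.1]
          rfl
        rw [Finset.sum_congr rfl this, ← Finset.sum_mul, hc _ hτ.1 hcc.1, zero_mul]
      · apply Finset.sum_eq_zero
        intro x hx
        rw [if_neg]
        rintro ⟨h1, h2⟩
        apply hcc
        rw [Finset.card_erase_of_mem hx] at h1
        have : 0 < τ.toLeft.card := Finset.card_pos.mpr ⟨x, hx⟩
        exact ⟨by omega, h2⟩
    have s2 : ∑ x ∈ τ.toRight, (if τ.toLeft.card = m ∧ (τ.toRight.erase x).card = m' then
        φ τ.toLeft * φ' (τ.toRight.erase x) else 0) = 0 := by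
      by_cases hcc : τ.toLeft.card = m ∧ τ.toRight.card = m' + 1
      · have : ∀ x ∈ τ.toRight, (if τ.toLeft.card = m ∧ (τ.toRight.erase x).card = m' then
            φ τ.toLeft * φ' (τ.toRight.erase x) else 0) =
            φ τ.toLeft * φ' (τ.toRight.erase x) := by
          intro x hx
          rw [if_pos]
          refine ⟨hcc.1, ?_⟩
          rw [Finset.card_erase_of_mem hx, hcc.2]
          rfl
        rw [Finset.sum_congr rfl this, ← Finset.mul_sum, hc' _ hτ.2 hcc.2, mul_zero]
      · apply Finset.sum_eq_zero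
        intro x hx
        rw [if_neg]
        rintro ⟨h1, h2⟩
        apply hcc
        rw [Finset.card_erase_of_mem hx] at h2
        have : 0 < τ.toRight.card := Finset.card_pos.mpr ⟨x, hx⟩
        exact ⟨h1, by omega⟩
    rw [s1, s2, add_zero]
  · rw [Finset.sum_image]
    · have : ∀ p ∈ Z ×ˢ Z', (if (p.1.disjSum p.2).toLeft.card = m ∧
          (p.1.disjSum p.2).toRight.card = m' then
          φ (p.1.disjSum p.2).toLeft * φ' (p.1.disjSum p.2).toRight else 0) = φ p.1 * φ' p.2 := by
        intro p hp
        rw [Finset.mem_product] at hp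
        simp only [Finset.toLeft_disjSum, Finset.toRight_disjSum]
        rw [if_pos ⟨(hZ _ hp.1).2, (hZ' _ hp.2).2⟩]
      rw [Finset.sum_congr rfl this, Finset.sum_product]
      simp only [← Finset.mul_sum]
      rw [← Finset.sum_mul, hs, hs', mul_one]
    · rintro ⟨a, b⟩ _ ⟨c, d⟩ _ hab
      have h1 := congrArg Finset.toLeft hab
      have h2 := congrArg Finset.toRight hab
      simp only [Finset.toLeft_disjSum, Finset.toRight_disjSum] at h1 h2
      rw [h1, h2]

theorem hasClsC_iso {V W : Type*} [Fintype V] [DecidableEq V] [Fintype W] [DecidableEq W]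
    (K : SimpleGraph V) (K' : SimpleGraph W) (e : K ≃g K') (m : ℕ) (h : HasClsC (cliq K) m) :
    HasClsC (cliq K') m := by
  refine K20_transport e.symm.toEquiv.toEmbedding (cliq K) (cliq K') ?_ ?_ m h
  · intro s
    rw [K20_cliq, K20_cliq]
    constructor
    · intro hs a ha b hb hab
      rw [Finset.mem_map] at ha hb
      obtain ⟨a', ha', rfl⟩ := ha
      obtain ⟨b', hb', rfl⟩ := hb
      have hne : a' ≠ b' := by
        rintro rfl
        exact hab rfl
      exact (e.symm.map_adj_iff).mpr (hs a' ha' b' hb' hne)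
    · intro hs a ha b hb hab
      have h1 := hs (e.symm a) (Finset.mem_map.mpr ⟨a, ha, rfl⟩) (e.symm b)
        (Finset.mem_map.mpr ⟨b, hb, rfl⟩) (fun hcon => hab (e.symm.injective hcon))
      exact (e.symm.map_adj_iff).mp h1
  · intro s _ v _
    exact ⟨e v, e.symm_apply_apply v⟩

end GP

end OS
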