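import Mathlib
import Pool.Agent.Lib.MP_8fe54c_gt.GPDefs
import Pool.Agent.Lib.MP_8fe54c_gt.KCls

/-!
# Flag systems
-/

namespace OS

namespace GP

open Finsupp MulOpposite

universe u v w u' v' w'

/-! ## K21 (file KFlag): flag systems -/

/-- general index sets -/
theorem flag_of {G : Type*} [Group G] {k : ℕ} {ι : Type*} [Fintype ι] [DecidableEq ι]
    (K : SimpleGraph ι) (a : ι → G) (hK : HasClsC (cliq K) k)
    (hc : ∀ i j, K.Adj i j → Commute (a i) (a j)) (ho : ∀ (i) (n : ℤ), a i ^ n = 1 → n = 0)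
    (hd : ∀ s t : Finset ι, K.IsClique (s : Set ι) → K.IsClique (t : Set ι) → Disjoint s t →
      Subgroup.closure (a '' s) ⊓ Subgroup.closure (a '' t) = ⊥) : Flag G k := by
  let ε : ι ≃ Fin (Fintype.card ι) := Fintype.equivFin ι
  let K' : SimpleGraph (Fin (Fintype.card ι)) := K.comap ε.symm
  let e : K ≃g K' := ⟨ε, by
    intro x y
    show K.Adj (ε.symm (ε x)) (ε.symm (ε y)) ↔ K.Adj x y
    rw [ε.symm_apply_apply, ε.symm_apply_apply]⟩
  refine ⟨Fintype.card ι, K', a ∘ ε.symm, hasClsC_iso K K' e k hK, fun i j h => hc _ _ h,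
    fun i n h => ho _ n h, fun s t hs ht hst => ?_⟩
  have himg : ∀ s : Finset (Fin (Fintype.card ι)),
      (a ∘ ε.symm) '' (s : Set (Fin (Fintype.card ι))) =
        a '' ((s.map ε.symm.toEmbedding : Finset ι) : Set ι) := by
    intro s
    rw [Finset.coe_map, Set.image_comp]
    rfl
  have hcl : ∀ s : Finset (Fin (Fintype.card ι)), K'.IsClique (s : Set (Fin (Fintype.card ι))) →
      K.IsClique ((s.map ε.symm.toEmbedding : Finset ι) : Set ι) := by
    intro s hs x hx y hy hxy
    obtain ⟨i, hi, rfl⟩ := Finset.mem_map.mp (Finset.mem_coe.mp hx)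
    obtain ⟨j, hj, rfl⟩ := Finset.mem_map.mp (Finset.mem_coe.mp hy)
    exact hs (Finset.mem_coe.mpr hi) (Finset.mem_coe.mpr hj) (fun h => hxy (by rw [h]))
  rw [himg, himg]
  exact hd _ _ (hcl s hs) (hcl t ht) ((Finset.disjoint_map _).mpr hst)

theorem flag_zero (G : Type*) [Group G] : Flag G 0 := by
  refine ⟨0, ⊥, Fin.elim0, ⟨{∅}, fun _ => 1, ?_, ?_, ?_, by simp⟩, fun i => i.elim0,
    fun i => i.elim0, ?_⟩
  · intro σ hσ
    rw [Finset.mem_singleton.mp hσ]
    exact ⟨by simp [cliq], rfl⟩
  · intro ρ h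
    omega
  · intro τ _ h
    have : τ = ∅ := Subsingleton.elim _ _
    rw [this] at h
    simp at h
  · intro s t _ _ _
    have : s = ∅ := Subsingleton.elim _ _
    rw [this]
    simp

theorem flag_map {G G' : Type*} [Group G] [Group G'] (f : G →* G') (hf : Function.Injective f)
    {k : ℕ} (h : Flag G k) : Flag G' k := by
  obtain ⟨m, K, a, hK, hc, ho, hd⟩ := h
  refine ⟨m, K, f ∘ a, hK, fun i j hij => (hc i j hij).map f, fun i n h => ho i n (hf ?_), ?_⟩
  · rw [map_zpow, map_one]
    exact h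
  · intro s t hs ht hst
    rw [Set.image_comp, Set.image_comp, ← MonoidHom.map_closure, ← MonoidHom.map_closure,
      ← Subgroup.map_inf _ _ f hf, hd s t hs ht hst, Subgroup.map_bot]

theorem flag_finiteIndex {G : Type*} [Group G] (H : Subgroup G) [H.FiniteIndex] {k : ℕ}
    (h : Flag G k) : Flag H k := by
  obtain ⟨m, K, a, hK, hc, ho, hd⟩ := h
  have hpow : ∀ i, ∃ n : ℕ, 0 < n ∧ a i ^ n ∈ H := fun i => by
    obtain ⟨n, h3, _, h4⟩ := H.exists_pow_mem_of_index_ne_zero
      Subgroup.FiniteIndex.index_ne_zero (a i)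
    exact ⟨n, h3, h4⟩
  choose N hN0 hNH using hpow
  refine ⟨m, K, fun i => ⟨a i ^ N i, hNH i⟩, hK, fun i j hij => ?_, fun i n h => ?_, ?_⟩
  · exact Subtype.ext ((hc i j hij).pow_pow (N i) (N j)).eq
  · have h1 := congrArg Subtype.val h
    have h2 : (a i ^ N i) ^ n = 1 := by simpa using h1
    rw [← zpow_natCast, ← zpow_mul] at h2
    have h3 := ho i _ h2
    rcases mul_eq_zero.mp h3 with h4 | h4
    · have := hN0 i
      omega
    · exact h4
  · intro s t hs ht hst
    have key : ∀ s : Finset (Fin m), ∀ x : H,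
        x ∈ Subgroup.closure ((fun i => (⟨a i ^ N i, hNH i⟩ : H)) '' (s : Set (Fin m))) →
        (x : G) ∈ Subgroup.closure (a '' (s : Set (Fin m))) := by
      intro s x hx
      have h1 : Subgroup.closure ((fun i => (⟨a i ^ N i, hNH i⟩ : H)) '' (s : Set (Fin m))) ≤
          (Subgroup.closure (a '' (s : Set (Fin m)))).comap H.subtype := by
        rw [Subgroup.closure_le]
        rintro _ ⟨i, hi, rfl⟩
        exact Subgroup.pow_mem _ (Subgroup.subset_closure (Set.mem_image_of_mem a hi)) _
      exact h1 hx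
    rw [eq_bot_iff]
    intro x hx
    obtain ⟨h1, h2⟩ := Subgroup.mem_inf.mp hx
    have h3 : (x : G) ∈ (⊥ : Subgroup G) := by
      rw [← hd s t hs ht hst]
      exact Subgroup.mem_inf.mpr ⟨key s x h1, key t x h2⟩
    rw [Subgroup.mem_bot] at h3 ⊢
    exact Subtype.ext h3

theorem flag_prod {G G' : Type*} [Group G] [Group G'] {k k' : ℕ} (h : Flag G k)
    (h' : Flag G' k') : Flag (G × G') (k + k') := by
  obtain ⟨m, K, a, hK, hc, ho, hd⟩ := h
  obtain ⟨m', K', a', hK', hc', ho', hd'⟩ := h'
  let b : Fin m ⊕ Fin m' → G × G' := Sum.elim (fun i => (a i, 1)) (fun j => (1, a' j))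
  have hl : ∀ s : Finset (Fin m ⊕ Fin m'), (joinG K K').IsClique (s : Set (Fin m ⊕ Fin m')) →
      K.IsClique ((s.toLeft : Finset (Fin m)) : Set (Fin m)) := by
    intro s hs x hx y hy hxy
    exact hs (Finset.mem_coe.mpr (Finset.mem_toLeft.mp (Finset.mem_coe.mp hx)))
      (Finset.mem_coe.mpr (Finset.mem_toLeft.mp (Finset.mem_coe.mp hy)))
      (fun h => hxy (Sum.inl_injective h))
  have hr : ∀ s : Finset (Fin m ⊕ Fin m'), (joinG K K').IsClique (s : Set (Fin m ⊕ Fin m')) →
      K'.IsClique ((s.toRight : Finset (Fin m')) : Set (Fin m')) := by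
    intro s hs x hx y hy hxy
    exact hs (Finset.mem_coe.mpr (Finset.mem_toRight.mp (Finset.mem_coe.mp hx)))
      (Finset.mem_coe.mpr (Finset.mem_toRight.mp (Finset.mem_coe.mp hy)))
      (fun h => hxy (Sum.inr_injective h))
  have hcl : ∀ s : Finset (Fin m ⊕ Fin m'), Subgroup.closure (b '' (s : Set (Fin m ⊕ Fin m'))) ≤
      (Subgroup.closure (a '' ((s.toLeft : Finset (Fin m)) : Set (Fin m)))).prod
        (Subgroup.closure (a' '' ((s.toRight : Finset (Fin m')) : Set (Fin m')))) := by
    intro s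
    rw [Subgroup.closure_le]
    rintro _ ⟨i, hi, rfl⟩
    rcases i with i | i
    · exact Subgroup.mem_prod.mpr ⟨Subgroup.subset_closure (Set.mem_image_of_mem a
        (Finset.mem_coe.mpr (Finset.mem_toLeft.mpr (Finset.mem_coe.mp hi)))), Subgroup.one_mem _⟩
    · exact Subgroup.mem_prod.mpr ⟨Subgroup.one_mem _, Subgroup.subset_closure
        (Set.mem_image_of_mem a' (Finset.mem_coe.mpr (Finset.mem_toRight.mpr
          (Finset.mem_coe.mp hi))))⟩
  refine flag_of (joinG K K') b (hasClsC_join K K' k k' hK hK') ?_ ?_ ?_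
  · rintro (i | i) (j | j) hij
    · exact Commute.prod (hc i j hij) (Commute.one_left _)
    · exact Commute.prod (Commute.one_right _) (Commute.one_left _)
    · exact Commute.prod (Commute.one_left _) (Commute.one_right _)
    · exact Commute.prod (Commute.one_left _) (hc' i j hij)
  · rintro (i | i) n hn
    · exact ho i n (congrArg Prod.fst hn)
    · exact ho' i n (congrArg Prod.snd hn)
  · intro s t hs ht hst
    rw [eq_bot_iff]
    rintro ⟨x, y⟩ hx
    obtain ⟨h1, h2⟩ := Subgroup.mem_inf.mp hx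
    obtain ⟨h3, h4⟩ := Subgroup.mem_prod.mp (hcl s h1)
    obtain ⟨h5, h6⟩ := Subgroup.mem_prod.mp (hcl t h2)
    have h7 : Disjoint s.toLeft t.toLeft := by
      rw [Finset.disjoint_left] at hst ⊢
      intro i hi hi'
      exact hst (Finset.mem_toLeft.mp hi) (Finset.mem_toLeft.mp hi')
    have h8 : Disjoint s.toRight t.toRight := by
      rw [Finset.disjoint_left] at hst ⊢
      intro i hi hi'
      exact hst (Finset.mem_toRight.mp hi) (Finset.mem_toRight.mp hi')
    have h9 : x ∈ (⊥ : Subgroup G) := by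
      rw [← hd _ _ (hl s hs) (hl t ht) h7]
      exact Subgroup.mem_inf.mpr ⟨h3, h5⟩
    have h10 : y ∈ (⊥ : Subgroup G') := by
      rw [← hd' _ _ (hr s hs) (hr t ht) h8]
      exact Subgroup.mem_inf.mpr ⟨h4, h6⟩
    rw [Subgroup.mem_bot] at h9 h10 ⊢
    rw [h9, h10]
    rfl

/-- commuting subgroups with trivial intersection -/
theorem flag_mul {G : Type*} [Group G] (A A' : Subgroup G) (hc : ∀ a ∈ A, ∀ b ∈ A', Commute a b)
    (hA : A ⊓ A' = ⊥) {k k' : ℕ} (h : Flag A k) (h' : Flag A' k') : Flag G (k + k') := by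
  let F : A × A' →* G := MonoidHom.noncommCoprod A.subtype A'.subtype
    (fun a b => hc a a.2 b b.2)
  refine flag_map F ?_ (flag_prod h h')
  rw [injective_iff_map_eq_one]
  rintro ⟨a, b⟩ hab
  have h1 : (a : G) * b = 1 := hab
  have h2 : (a : G) = (b : G)⁻¹ := eq_inv_of_mul_eq_one_left h1
  have h3 : (a : G) ∈ (⊥ : Subgroup G) := by
    rw [← hA]
    exact Subgroup.mem_inf.mpr ⟨a.2, h2 ▸ A'.inv_mem b.2⟩
  rw [Subgroup.mem_bot] at h3
  have h4 : (b : G) = 1 := by
    rw [h3, one_mul] at h1
    exact h1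
  exact Prod.ext (Subtype.ext h3) (Subtype.ext h4)

/-- the functions supported in a finite set -/
def K21_supp {ι : Type*} (G : ι → Type*) [∀ i, Group (G i)] (s : Finset ι) :
    Subgroup (∀ i, G i) where
  carrier := {f | ∀ i, i ∉ s → f i = 1}
  one_mem' := fun _ _ => rfl
  mul_mem' := by
    intro f g hf hg i hi
    rw [Pi.mul_apply, hf i hi, hg i hi, one_mul]
  inv_mem' := by
    intro f hf i hi
    rw [Pi.inv_apply, hf i hi, inv_one]

theorem flag_pi {ι : Type*} [Fintype ι] (G : ι → Type*) [∀ i, Group (G i)] (e : ι → ℕ)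
    (h : ∀ i, Flag (G i) (e i)) : Flag (∀ i, G i) (∑ i, e i) := by
  classical
  have key : ∀ s : Finset ι, Flag (K21_supp G s) (∑ i ∈ s, e i) := by
    intro s
    induction s using Finset.induction_on with
    | empty => simpa using flag_zero _
    | insert i s hi ih =>
      rw [Finset.sum_insert hi]
      have hcomm : ∀ (g : G i) (f : K21_supp G s),
          Commute (MonoidHom.mulSingle G i g) ((K21_supp G s).subtype f) := by
        intro g f
        funext j
        by_cases hj : j = i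
        · subst hj
          have : (f : ∀ i, G i) j = 1 := f.2 j hi
          simp [this]
        · simp [hj]
      let F : G i × K21_supp G s →* ∀ i, G i :=
        MonoidHom.noncommCoprod (MonoidHom.mulSingle G i) (K21_supp G s).subtype hcomm
      have hF : ∀ (g : G i) (f : K21_supp G s) (j : ι),
          F (g, f) j = Pi.mulSingle (M := G) i g j * (f : ∀ i, G i) j := fun _ _ _ => rfl
      have hmem : ∀ p, F p ∈ K21_supp G (insert i s) := by
        rintro ⟨g, f⟩ j hj
        rw [hF]
        have h1 : j ≠ i := fun h => hj (h ▸ Finset.mem_insert_self _ _)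
        have h2 : (f : ∀ i, G i) j = 1 := f.2 j (fun h => hj (Finset.mem_insert_of_mem h))
        rw [Pi.mulSingle_eq_of_ne h1, h2, one_mul]
      refine flag_map (F.codRestrict (K21_supp G (insert i s)) hmem) ?_ (flag_prod (h i) ih)
      rw [injective_iff_map_eq_one]
      rintro ⟨g, f⟩ hgf
      have h1 : ∀ j, Pi.mulSingle (M := G) i g j * (f : ∀ i, G i) j = 1 := by
        intro j
        rw [← hF]
        exact congrFun (congrArg Subtype.val hgf) j
      have h2 : (f : ∀ i, G i) i = 1 := f.2 i hi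
      have h3 : g = 1 := by
        have := h1 i
        rwa [Pi.mulSingle_eq_same, h2, mul_one] at this
      refine Prod.ext h3 (Subtype.ext (funext fun j => ?_))
      have := h1 j
      rw [h3, Pi.mulSingle_one, Pi.one_apply, one_mul] at this
      exact this
  exact flag_map (K21_supp G Finset.univ).subtype (Subgroup.subtype_injective _) (key Finset.univ)

end GP

end OS
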