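import Mathlib
import Pool.Agent.Lib.MP_8fe54c_gt.ArtDiag
import Pool.Agent.Lib.MP_8fe54c_gt.ArtNest
import Pool.Agent.Lib.MP_8fe54c_gt.KFlag

/-!
# Flag systems in Artin groups
-/

namespace OS

open GP

section ab

variable {V : Type*} [DecidableEq V] {Γ : Type*} [Group Γ] (a : V → Γ) (N : V → ℤ)
  (ab : Γ →* Multiplicative (V → ℤ))

theorem AR19_order (hN : ∀ v, N v ≠ 0)
    (hab : ∀ v, ab (a v) = Multiplicative.ofAdd (Pi.single v (N v))) (v : V) (n : ℤ)
    (h : a v ^ n = 1) : n = 0 := by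
  have h1 := congrArg ab h
  rw [map_zpow, hab, map_one, ← ofAdd_zsmul] at h1
  have h2 : n • (Pi.single v (N v) : V → ℤ) = 0 := Multiplicative.ofAdd.injective h1
  have h3 := congrFun h2 v
  simp only [Pi.smul_apply, Pi.single_eq_same, smul_eq_mul, Pi.zero_apply, mul_eq_zero] at h3
  exact h3.resolve_right (hN v)

omit [DecidableEq V] in
theorem AR19_comm {s : Finset V} (hc : ∀ u ∈ s, ∀ v ∈ s, Commute (a u) (a v)) (n m : V → ℤ) :
    (s : Set V).Pairwise fun x y => Commute (a x ^ n x) (a y ^ m y) :=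
  fun x hx y hy _ => (hc x hx y hy).zpow_zpow _ _

omit [DecidableEq V] in
theorem AR19_one (s : Finset V) (f : V → Γ) (comm) (h : ∀ v ∈ s, f v = 1) :
    s.noncommProd f comm = 1 := by
  rw [Finset.noncommProd_eq_pow_card s f comm 1 h, one_pow]

/-- the elements of the subgroup generated by commuting elements -/
theorem AR19_form (s : Finset V) (hc : ∀ u ∈ s, ∀ v ∈ s, Commute (a u) (a v)) {x : Γ}
    (hx : x ∈ Subgroup.closure (a '' s)) :
    ∃ n : V → ℤ, x = s.noncommProd (fun v => a v ^ n v) (AR19_comm a hc n n) := by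
  induction hx using Subgroup.closure_induction with
  | mem x hx =>
    obtain ⟨v, hv, rfl⟩ := hx
    refine ⟨Pi.single v 1, ?_⟩
    refine Eq.trans ?_ (Finset.noncommProd_erase_mul s hv
      (fun w => a w ^ (Pi.single v (1 : ℤ) : V → ℤ) w) (AR19_comm a hc _ _))
    refine Eq.trans ?_ (congrArg₂ (· * ·) (AR19_one (s.erase v)
      (fun w => a w ^ (Pi.single v (1 : ℤ) : V → ℤ) w) _ (fun w hw => ?_)).symm rfl)
    · simp
    · show a w ^ (Pi.single v (1 : ℤ) : V → ℤ) w = 1
      rw [Pi.single_eq_of_ne (Finset.ne_of_mem_erase hw), zpow_zero]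
  | one =>
    exact ⟨0, (AR19_one s _ _ (fun w _ => by simp)).symm⟩
  | mul x y _ _ hx hy =>
    obtain ⟨n, rfl⟩ := hx
    obtain ⟨m, rfl⟩ := hy
    refine ⟨n + m, ?_⟩
    rw [← Finset.noncommProd_mul_distrib (comm_gf := AR19_comm a hc m n)]
    refine Finset.noncommProd_congr rfl (fun v hv => ?_) _
    simp [zpow_add]
  | inv x _ hx =>
    obtain ⟨n, rfl⟩ := hx
    refine ⟨-n, ?_⟩
    refine inv_eq_of_mul_eq_one_right ?_
    rw [← Finset.noncommProd_mul_distrib (comm_gf := AR19_comm a hc (-n) n)]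
    exact AR19_one s _ _ (fun w _ => by simp)

theorem AR19_ab (s : Finset V) (hc : ∀ u ∈ s, ∀ v ∈ s, Commute (a u) (a v))
    (hab : ∀ v, ab (a v) = Multiplicative.ofAdd (Pi.single v (N v))) (n : V → ℤ) (v : V) :
    Multiplicative.toAdd (ab (s.noncommProd (fun v => a v ^ n v) (AR19_comm a hc n n))) v =
      if v ∈ s then n v * N v else 0 := by
  rw [Finset.map_noncommProd, Finset.noncommProd_eq_prod, toAdd_prod, Finset.sum_apply]
  have h : ∀ w ∈ s, Multiplicative.toAdd (ab (a w ^ n w)) v = if w = v then n v * N v else 0 := by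
    intro w _
    rw [map_zpow, hab, ← ofAdd_zsmul, toAdd_ofAdd, Pi.smul_apply, smul_eq_mul]
    by_cases hw : w = v
    · subst hw
      simp
    · rw [Pi.single_eq_of_ne (Ne.symm hw), mul_zero, if_neg hw]
  rw [Finset.sum_congr rfl h, Finset.sum_ite_eq']

/-- disjoint cliques generate subgroups with trivial intersection -/
theorem AR19_disj (hN : ∀ v, N v ≠ 0) (s t : Finset V)
    (hs : ∀ u ∈ s, ∀ v ∈ s, Commute (a u) (a v)) (ht : ∀ u ∈ t, ∀ v ∈ t, Commute (a u) (a v))
    (hab : ∀ v, ab (a v) = Multiplicative.ofAdd (Pi.single v (N v))) (hst : Disjoint s t) :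
    Subgroup.closure (a '' s) ⊓ Subgroup.closure (a '' t) = ⊥ := by
  rw [eq_bot_iff]
  rintro x ⟨h1, h2⟩
  obtain ⟨n, hn⟩ := AR19_form a s hs h1
  obtain ⟨m, hm⟩ := AR19_form a t ht h2
  rw [Subgroup.mem_bot, hn]
  refine AR19_one s _ _ (fun v hv => ?_)
  · have h3 := AR19_ab a N ab s hs hab n v
    have h4 := AR19_ab a N ab t ht hab m v
    rw [← hn] at h3
    rw [← hm, if_neg (Finset.disjoint_left.mp hst hv)] at h4
    rw [h4, if_pos hv] at h3
    have h5 : n v = 0 := by
      rcases mul_eq_zero.mp h3.symm with h | h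
      · exact h
      · exact absurd h (hN v)
    rw [h5, zpow_zero]

end ab

/-- nonvanishing homology of the nerve gives a flag system -/
theorem artin_flag {B : Type*} (M : CoxeterMatrix B) [Fintype B] [DecidableEq B] {j : ℕ}
    (h : HasClassC (Spher M) j) : Flag (Artin M) (j + 1) := by
  classical
  have hfin : Fintype (IS M) := Fintype.ofFinite _
  obtain ⟨ab, z, hab, hcomm⟩ := exists_diag M
  refine flag_map (qA M.toCoxeterSystem).ker.subtype (Subgroup.subtype_injective _)
    (flag_of (nestG M) z ?_ hcomm (fun T n hn => AR19_order z (fun _ => 2) ab (by norm_num) hab T n hn)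
      (fun s t hs ht hst => AR19_disj z (fun _ => 2) ab (by norm_num) s t ?_ ?_ hab hst))
  · obtain ⟨Z, φ, h1, h2, h3, h4⟩ := hasClass_nest M h
    refine ⟨Z, φ, h1, fun ρ hρ => h2 ρ (by omega), fun τ hτ hc => h3 τ hτ (by omega), h4⟩
  · intro u hu v hv
    by_cases huv : u = v
    · exact huv ▸ Commute.refl _
    · exact hcomm u v (hs hu hv huv)
  · intro u hu v hv
    by_cases huv : u = v
    · exact huv ▸ Commute.refl _
    · exact hcomm u v (ht hu hv huv)

end OS
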