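import Mathlib
import Pool.Agent.Lib.MP_8fe54c_gt.FreeRes
import Pool.Agent.Lib.MP_8fe54c_gt.L2Red
import Pool.Agent.Lib.MP_8fe54c_gt.Cov
import Pool.Agent.Lib.MP_8fe54c_gt.Deck

/-!
# Assembly: the dichotomy (dimension bound, or no harmonic chains) implies the vanishing theorem
-/

namespace OS

universe u v w uY uX

/-- the dimension bound for proper actions of `K` on contractible manifolds with boundary -/
def DimBound (K : Type u) [Group K] (d : ℕ) : Prop :=
  ∀ (m : ℕ) (Y : Type uY) [TopologicalSpace Y] [T2Space Y] [ContractibleSpace Y]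
    [MulAction K Y] [ContinuousConstSMul K Y] [ProperlyDiscontinuousSMul K Y],
    LocHalf m Y → d ≤ m + 1

/-- the common finite index subgroup `K` acts on the universal cover with dimension `n`, so
`DimBound K d` gives `d ≤ n` -/
theorem dim_le_of_dimBound {n : ℕ} [NeZero n] {X : Type uX} [TopologicalSpace X] [T2Space X]
    [ConnectedSpace X] [ChartedSpace (EuclideanHalfSpace n) X]
    {Y : Type uY} [TopologicalSpace Y] [ContractibleSpace Y] {p : Y → X} (hp : IsCoveringMap p)
    (x : X) {K : Type u} [Group K] (φ : K →* FundamentalGroup X x) (hφ : Function.Injective φ)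
    {d : ℕ} (h : DimBound.{u, uY} K d) : d ≤ n := by
  obtain ⟨m, rfl⟩ : ∃ m, n = m + 1 := ⟨n - 1, by have := NeZero.pos n; omega⟩
  have : T2Space Y := covering_t2 hp
  obtain ⟨Γ, _, _, hq⟩ := exists_deck (n := m + 1) hp
  have : ContinuousConstSMul Γ Y := hq.toContinuousConstSMul
  have : ProperlyDiscontinuousSMul Γ Y := covering_properly hq
  have : SimplyConnectedSpace Y := inferInstance
  obtain ⟨y, hy⟩ := hq.surjective x
  let E : FundamentalGroup X x ≃* Γ :=
    (hq.fundamentalGroupEquiv ⟨y, hy⟩).trans (MulEquiv.inv' Γ).symm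
  let ψ : K →* Γ := E.toMonoidHom.comp φ
  have hψ : Function.Injective ψ := E.injective.comp hφ
  let act : MulAction K Y := MulAction.compHom Y ψ
  have hsm : ∀ (g : K) (y : Y), g • y = ψ g • y := fun _ _ => rfl
  have h1 : ContinuousConstSMul K Y := ⟨fun g => by
    simp only [hsm]
    exact continuous_const_smul (ψ g)⟩
  have h2 : ProperlyDiscontinuousSMul K Y := ⟨fun {A B} hA hB => by
    have h3 := ProperlyDiscontinuousSMul.finite_disjoint_inter_image (Γ := Γ) hA hB
    exact Set.Finite.preimage (f := ψ) hψ.injOn h3⟩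
  exact h m Y (covering_locHalf (m := m) hp)

/-- assembly -/
theorem harmZero_of_dichotomy {n : ℕ} [NeZero n] {X : Type uX} [TopologicalSpace X] [T2Space X]
    [ConnectedSpace X] [ChartedSpace (EuclideanHalfSpace n) X]
    {Y : Type uY} [TopologicalSpace Y] [ContractibleSpace Y] {p : Y → X} (hp : IsCoveringMap p)
    (x : X) {K : Type u} [Group K] (φ : K →* FundamentalGroup X x) (hφ : Function.Injective φ)
    [φ.range.FiniteIndex] (C : FreeRes.{w} (FundamentalGroup X x)) {k : ℕ} (hk : n < 2 * k)
    (h : DimBound.{u, uY} K (2 * k) ∨ ∀ R : FreeRes.{w} K, R.HarmZero ℝ k) : C.HarmZero ℂ k := by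
  rcases h with h | h
  · have := dim_le_of_dimBound (n := n) hp x φ hφ h
    omega
  · refine C.harmZero_complex k ?_
    rw [← C.comap_harmZero φ hφ k]
    exact h _

/-- the inclusion of the common subgroup -/
theorem exists_incl {Γ : Type v} [Group Γ] (H : Subgroup Γ) [H.FiniteIndex] {K : Type u} [Group K]
    (e : H ≃* K) : ∃ φ : K →* Γ, Function.Injective φ ∧ φ.range.FiniteIndex := by
  refine ⟨H.subtype.comp e.symm.toMonoidHom, H.subtype_injective.comp e.symm.injective, ?_⟩
  have hrange : (H.subtype.comp e.symm.toMonoidHom).range = H := by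
    ext g
    constructor
    · rintro ⟨a, rfl⟩
      exact (e.symm a).2
    · intro hg
      exact ⟨e ⟨g, hg⟩, by simp⟩
  rw [hrange]
  infer_instance

end OS
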