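import Mathlib
import Pool.Agent.Lib.MP_8fe54c_gt.L2Sal
import Pool.Agent.Lib.MP_8fe54c_gt.L2Rel
import Pool.Agent.Lib.MP_8fe54c_gt.GPDefs

/-!
# The Ore localisation of the right von Neumann algebra (graph products, module U1)

`NN Γ` is the algebra of the bounded operators of `ℓ²(Γ)` which commute with left translations,
`SS Γ` the injective ones in the opposite algebra, `UM Γ` the Ore localisation (the opposite of the
ring of affiliated operators).  `g • m = m * numU (op (rho g))` where `rho g` is right translation.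
-/

namespace OS

namespace GP

open scoped InnerProductSpace ENNReal
open MulOpposite

universe u v

variable (Γ : Type u) [Group Γ]

/-- the bounded operators which commute with left translations -/
noncomputable def NN : Subalgebra ℝ (H2 Γ →L[ℝ] H2 Γ) where
  carrier := {T | ∀ (g : Γ) (f : H2 Γ), T (lamL Γ g f) = lamL Γ g (T f)}
  mul_mem' := by
    intro S T hS hT g f
    change S (T (lamL Γ g f)) = lamL Γ g (S (T f))
    rw [hT, hS]
  add_mem' := by
    intro S T hS hT g f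
    change S (lamL Γ g f) + T (lamL Γ g f) = lamL Γ g (S f + T f)
    rw [hS, hT, map_add]
  algebraMap_mem' := by
    intro r g f
    change r • (lamL Γ g f) = lamL Γ g (r • f)
    rw [map_smul]

/-- the injective operators, in the opposite algebra -/
def SS : Submonoid (NN Γ)ᵐᵒᵖ where
  carrier := {t | ∀ f : H2 Γ, (t.unop : H2 Γ →L[ℝ] H2 Γ) f = 0 → f = 0}
  mul_mem' := by
    intro s t hs ht f hf
    exact hs f (ht _ hf)
  one_mem' := fun f hf => hf

variable {Γ}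

open Forest46876 Forest46876.VMod

/-- an operator on `ℓ²` as an operator on `(ℓ²)^1` -/
noncomputable def K1_hat (T : H2 Γ →L[ℝ] H2 Γ) : HI Unit (H2 Γ) →L[ℝ] HI Unit (H2 Γ) :=
  (inc () : H2 Γ →L[ℝ] HI Unit (H2 Γ)) ∘L T ∘L cmp ()

omit [Group Γ] in
theorem K1_hat_apply (T : H2 Γ →L[ℝ] H2 Γ) (f : HI Unit (H2 Γ)) :
    (K1_hat T f) () = T (f ()) := inc_same () (T (f ()))

theorem K1_hat_isInt (T : NN Γ) : (grpTr Γ).IsInt (K1_hat (T : H2 Γ →L[ℝ] H2 Γ)) := by
  rintro _ ⟨g, rfl⟩ f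
  change (inc () ((T : H2 Γ →L[ℝ] H2 Γ) (lamL Γ g (f ()))) : HI Unit (H2 Γ)) =
    lift (lamL Γ g) (inc () ((T : H2 Γ →L[ℝ] H2 Γ) (f ())))
  rw [lift_inc, T.2]

omit [Group Γ] in
theorem K1_hat_inj {T : H2 Γ →L[ℝ] H2 Γ} (hT : ∀ f : H2 Γ, T f = 0 → f = 0)
    (x : HI Unit (H2 Γ)) (h : K1_hat T x = 0) : x = 0 := by
  have h1 : T (x ()) = 0 := by
    rw [← K1_hat_apply, h]
    rfl
  have h2 := hT _ h1
  ext i
  rw [h2]
  rfl

/-- the graph relation -/
noncomputable def K1_T (a s : H2 Γ →L[ℝ] H2 Γ) : HI Bool (H2 Γ) →L[ℝ] H2 Γ :=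
  a ∘L cmp true - s ∘L cmp false

omit [Group Γ] in
theorem K1_T_apply (a s : H2 Γ →L[ℝ] H2 Γ) (f : HI Bool (H2 Γ)) :
    K1_T a s f = a (f true) - s (f false) := rfl

/-- the pairs with `a x = s y` -/
noncomputable def K1_mod (a s : NN Γ) : VMod (grpTr Γ) Bool where
  K := LinearMap.ker (K1_T (a : H2 Γ →L[ℝ] H2 Γ) (s : H2 Γ →L[ℝ] H2 Γ)).toLinearMap
  closed := ContinuousLinearMap.isClosed_ker _
  inv := by
    rintro _ ⟨g, rfl⟩ f hf
    have hf' : (a : H2 Γ →L[ℝ] H2 Γ) (f true) - (s : H2 Γ →L[ℝ] H2 Γ) (f false) = 0 := hf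
    change (a : H2 Γ →L[ℝ] H2 Γ) (lamL Γ g (f true)) -
      (s : H2 Γ →L[ℝ] H2 Γ) (lamL Γ g (f false)) = 0
    rw [a.2, s.2, ← map_sub, hf', map_zero]

theorem K1_mem (a s : NN Γ) (f : HI Bool (H2 Γ)) :
    f ∈ (K1_mod a s).K ↔ (a : H2 Γ →L[ℝ] H2 Γ) (f true) = (s : H2 Γ →L[ℝ] H2 Γ) (f false) := by
  change (a : H2 Γ →L[ℝ] H2 Γ) (f true) - (s : H2 Γ →L[ℝ] H2 Γ) (f false) = 0 ↔ _
  exact sub_eq_zero

/-- the pull back of the orthogonal complement under the first inclusion -/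
noncomputable def K1_pull (M : VMod (grpTr Γ) Bool) : VMod (grpTr Γ) Unit where
  K := M.Kᗮ.comap ((inc true : H2 Γ →L[ℝ] HI Bool (H2 Γ)) ∘L cmp ()).toLinearMap
  closed := (Submodule.isClosed_orthogonal M.K).preimage
    ((inc true : H2 Γ →L[ℝ] HI Bool (H2 Γ)) ∘L cmp ()).continuous
  inv := by
    rintro _ ⟨g, rfl⟩ f hf
    have hf' : (inc true (f ()) : HI Bool (H2 Γ)) ∈ M.Kᗮ := hf
    change (inc true (lamL Γ g (f ())) : HI Bool (H2 Γ)) ∈ M.Kᗮ
    rw [← lift_inc]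
    exact M.orth.inv _ ⟨g, rfl⟩ _ hf'

/-- the orthogonal complement of the range -/
noncomputable def K1_perp (s : NN Γ) : VMod (grpTr Γ) Unit where
  K := (LinearMap.range (K1_hat (s : H2 Γ →L[ℝ] H2 Γ)).toLinearMap)ᗮ
  closed := Submodule.isClosed_orthogonal _
  inv := by
    intro u hu f hf
    rw [Submodule.mem_orthogonal'] at hf ⊢
    rintro _ ⟨x, rfl⟩
    have h1 : ContinuousLinearMap.adjoint (ContinuousLinearMap.adjoint u) = u :=
      ContinuousLinearMap.adjoint_adjoint u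
    rw [← h1, inner_lift_adj]
    have h2 := K1_hat_isInt s _ ((grpTr Γ).adj_mem u hu) x
    change ⟪f, lift (ContinuousLinearMap.adjoint u) (K1_hat (s : H2 Γ →L[ℝ] H2 Γ) x)⟫_ℝ = 0
    rw [← h2]
    exact hf _ ⟨_, rfl⟩

/-- Ore condition for operators: for `a` and an injective `s` there are `a'` and an injective `s'`
with `a s' = s a'`. -/
theorem exists_ore (a s : NN Γ) (hs : ∀ f : H2 Γ, (s : H2 Γ →L[ℝ] H2 Γ) f = 0 → f = 0) :
    ∃ a' s' : NN Γ, (∀ f : H2 Γ, (s' : H2 Γ →L[ℝ] H2 Γ) f = 0 → f = 0) ∧ a * s' = s * a' := by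
  classical
  set M := K1_mod a s with hM
  have hP := M.P_isInt
  have hcomm : ∀ j i : Bool, ∀ (g : Γ) (f : H2 Γ),
      (cmp j ∘L M.P ∘L inc i) (lamL Γ g f) = lamL Γ g ((cmp j ∘L M.P ∘L inc i) f) :=
    fun j i g f => hP.entry j i _ ⟨g, rfl⟩ f
  refine ⟨⟨cmp false ∘L M.P ∘L inc true, hcomm false true⟩,
    ⟨cmp true ∘L M.P ∘L inc true, hcomm true true⟩, ?_, ?_⟩
  · intro f hf
    have hf' : (M.P (inc true f)) true = 0 := hf
    have h1 : M.P (inc true f) = 0 := by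
      have h2 : ⟪M.P (inc true f), M.P (inc true f)⟫_ℝ = 0 := by
        rw [inner_P, P_eq_self _ (P_mem M _), real_inner_comm, inner_inc_right, hf',
          inner_zero_left]
      exact inner_self_eq_zero.mp h2
    have h2 : (inc true f : HI Bool (H2 Γ)) ∈ M.Kᗮ :=
      (Submodule.starProjection_apply_eq_zero_iff _).1 h1
    have hbot : (K1_pull M).K = ⊥ := by
      by_contra hne
      obtain ⟨h, hh, hh0, x, hx⟩ := exists_rel (K1_pull M) hne
        (K1_hat (a : H2 Γ →L[ℝ] H2 Γ)) (K1_hat (s : H2 Γ →L[ℝ] H2 Γ)) (K1_hat_isInt a)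
        (K1_hat_isInt s) (K1_hat_inj hs)
      have hx' : (a : H2 Γ →L[ℝ] H2 Γ) (h ()) = (s : H2 Γ →L[ℝ] H2 Γ) (x ()) := by
        rw [← K1_hat_apply, ← K1_hat_apply, hx]
      have hmem : (WithLp.toLp 2 (fun b : Bool => if b then h () else x ()) : HI Bool (H2 Γ))
          ∈ M.K := by
        rw [hM, K1_mem]
        simpa using hx'
      have hh' : (inc true (h ()) : HI Bool (H2 Γ)) ∈ M.Kᗮ := hh
      have h3 := (Submodule.mem_orthogonal' _ _).1 hh' _ hmem
      rw [inner_inc_left] at h3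
      have h4 : ⟪h (), h ()⟫_ℝ = 0 := by simpa using h3
      apply hh0
      ext i
      rw [inner_self_eq_zero.mp h4]
      rfl
    have h3 : (inc () f : HI Unit (H2 Γ)) ∈ (K1_pull M).K := by
      change (inc true ((inc () f : HI Unit (H2 Γ)) ()) : HI Bool (H2 Γ)) ∈ M.Kᗮ
      rw [inc_same]
      exact h2
    rw [hbot, Submodule.mem_bot] at h3
    have h4 := congrArg (fun g : HI Unit (H2 Γ) => g ()) h3
    simpa using h4
  · refine Subtype.ext (ContinuousLinearMap.ext fun f => ?_)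
    have h1 := (K1_mem a s _).1 (P_mem M (inc true f))
    exact h1

/-- an injective operator of `NN Γ` has dense range -/
theorem dense_of_inj (s : NN Γ) (hs : ∀ f : H2 Γ, (s : H2 Γ →L[ℝ] H2 Γ) f = 0 → f = 0) :
    DenseRange (s : H2 Γ →L[ℝ] H2 Γ) := by
  classical
  have hbot : (K1_perp s).K = ⊥ := by
    by_contra hne
    obtain ⟨h, hh, hh0, x, hx⟩ := exists_rel (K1_perp s) hne
      (ContinuousLinearMap.id ℝ _) (K1_hat (s : H2 Γ →L[ℝ] H2 Γ)) TrSys.isInt_id
      (K1_hat_isInt s) (K1_hat_inj hs)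
    have h1 := (Submodule.mem_orthogonal' _ _).1 hh _ ⟨x, rfl⟩
    have h2 : ⟪h, h⟫_ℝ = 0 := by
      have h3 : (K1_hat (s : H2 Γ →L[ℝ] H2 Γ)).toLinearMap x = h := hx.symm
      rw [h3] at h1
      exact h1
    exact hh0 (inner_self_eq_zero.mp h2)
  have h1 : (LinearMap.range (s : H2 Γ →L[ℝ] H2 Γ).toLinearMap).topologicalClosure = ⊤ := by
    rw [Submodule.topologicalClosure_eq_top_iff, Submodule.eq_bot_iff]
    intro f hf
    have h2 : (inc () f : HI Unit (H2 Γ)) ∈ (K1_perp s).K := by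
      change (inc () f : HI Unit (H2 Γ)) ∈ (LinearMap.range _)ᗮ
      rw [Submodule.mem_orthogonal']
      rintro _ ⟨x, rfl⟩
      rw [inner_inc_left]
      change ⟪f, (K1_hat (s : H2 Γ →L[ℝ] H2 Γ) x) ()⟫_ℝ = 0
      rw [K1_hat_apply]
      exact (Submodule.mem_orthogonal' _ _).1 hf _ ⟨x (), rfl⟩
    rw [hbot, Submodule.mem_bot] at h2
    have h3 := congrArg (fun g : HI Unit (H2 Γ) => g ()) h2
    simpa using h3
  have h2 : Dense ((LinearMap.range (s : H2 Γ →L[ℝ] H2 Γ).toLinearMap : Submodule ℝ (H2 Γ)) :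
      Set (H2 Γ)) := by
    rw [Submodule.dense_iff_topologicalClosure_eq_top]
    exact h1
  exact h2

noncomputable instance : OreLocalization.OreSet (SS Γ) where
  ore_right_cancel := by
    intro r₁ r₂ s h
    refine ⟨1, ?_⟩
    have h1 : s.1.unop * r₁.unop = s.1.unop * r₂.unop := congrArg unop h
    have h2 : r₁.unop = r₂.unop := by
      refine Subtype.ext (ContinuousLinearMap.ext fun f => ?_)
      have h3 : ((s.1.unop * r₁.unop : NN Γ) : H2 Γ →L[ℝ] H2 Γ) f =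
          ((s.1.unop * r₂.unop : NN Γ) : H2 Γ →L[ℝ] H2 Γ) f := by rw [h1]
      have h4 : (s.1.unop : H2 Γ →L[ℝ] H2 Γ) ((r₁.unop : H2 Γ →L[ℝ] H2 Γ) f -
          (r₂.unop : H2 Γ →L[ℝ] H2 Γ) f) = 0 := by
        rw [map_sub, sub_eq_zero]
        exact h3
      exact sub_eq_zero.mp (s.2 _ h4)
    have h5 : r₁ = r₂ := unop_injective h2
    rw [h5]
  oreNum r s := op (Classical.choose (exists_ore r.unop s.1.unop s.2))
  oreDenom r s := ⟨op (Classical.choose (Classical.choose_spec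
    (exists_ore r.unop s.1.unop s.2))), (Classical.choose_spec (Classical.choose_spec
    (exists_ore r.unop s.1.unop s.2))).1⟩
  ore_eq := by
    intro r s
    exact congrArg op (Classical.choose_spec (Classical.choose_spec
      (exists_ore r.unop s.1.unop s.2))).2

variable (Γ) in
/-- the Ore localisation -/
def UM : Type u := OreLocalization (SS Γ) (NN Γ)ᵐᵒᵖ

noncomputable instance : Ring (UM Γ) :=
  inferInstanceAs (Ring (OreLocalization (SS Γ) (NN Γ)ᵐᵒᵖ))

noncomputable instance : Algebra ℝ (UM Γ) :=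
  inferInstanceAs (Algebra ℝ (OreLocalization (SS Γ) (NN Γ)ᵐᵒᵖ))

/-- the embedding of the opposite algebra -/
noncomputable def numU : (NN Γ)ᵐᵒᵖ →+* UM Γ :=
  (OreLocalization.numeratorRingHom : (NN Γ)ᵐᵒᵖ →+* OreLocalization (SS Γ) (NN Γ)ᵐᵒᵖ)

/-- right translation -/
noncomputable def rho (g : Γ) : NN Γ := ⟨rop g, fun h f => rop_lamL g h f⟩

theorem rho_mul (g h : Γ) : rho (g * h) = rho g * rho h := by
  refine Subtype.ext (ContinuousLinearMap.ext fun f => ?_)
  ext x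
  change f (x * (g * h)) = f (x * g * h)
  rw [mul_assoc]

theorem rho_one : rho (1 : Γ) = 1 := by
  refine Subtype.ext (ContinuousLinearMap.ext fun f => ?_)
  ext x
  change f (x * 1) = f x
  rw [mul_one]

noncomputable instance : DistribMulAction Γ (UM Γ) where
  smul g m := m * numU (op (rho g))
  one_smul m := by
    change m * numU (op (rho 1)) = m
    rw [rho_one, op_one, map_one, mul_one]
  mul_smul g h m := by
    change m * numU (op (rho (g * h))) = m * numU (op (rho h)) * numU (op (rho g))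
    rw [rho_mul, op_mul, map_mul, mul_assoc]
  smul_zero g := zero_mul _
  smul_add g m m' := add_mul _ _ _

theorem um_smul_def (g : Γ) (m : UM Γ) : g • m = m * numU (op (rho g)) := rfl

instance : SMulCommClass Γ ℝ (UM Γ) where
  smul_comm g r m := by
    change (r • m) * numU (op (rho g)) = r • (m * numU (op (rho g)))
    rw [smul_mul_assoc]

theorem numU_inj : Function.Injective (numU : (NN Γ)ᵐᵒᵖ →+* UM Γ) := by
  refine OreLocalization.numeratorHom_inj (S := SS Γ) ?_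
  intro s hs r hr
  have h1 : r.unop * s.unop = 0 := congrArg unop hr
  have h2 : (r.unop : H2 Γ →L[ℝ] H2 Γ) = 0 := by
    have h3 : Set.EqOn (r.unop : H2 Γ →L[ℝ] H2 Γ) (0 : H2 Γ →L[ℝ] H2 Γ)
        (Set.range (s.unop : H2 Γ →L[ℝ] H2 Γ)) := by
      rintro _ ⟨f, rfl⟩
      have h4 : ((r.unop * s.unop : NN Γ) : H2 Γ →L[ℝ] H2 Γ) f = 0 := by
        rw [h1]
        rfl
      exact h4
    have h5 := Continuous.ext_on (dense_of_inj s.unop hs)
      (r.unop : H2 Γ →L[ℝ] H2 Γ).continuous (0 : H2 Γ →L[ℝ] H2 Γ).continuous h3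
    exact ContinuousLinearMap.ext fun f => congrFun h5 f
  have h3 : r.unop = 0 := Subtype.ext h2
  exact unop_injective h3

theorem numU_isUnit (s : SS Γ) : IsUnit (numU (s : (NN Γ)ᵐᵒᵖ)) :=
  OreLocalization.numerator_isUnit s

/-- common denominators -/
theorem um_common {ι : Type*} [Finite ι] (m : ι → UM Γ) :
    ∃ (s : SS Γ) (a : ι → (NN Γ)ᵐᵒᵖ), ∀ i, numU (s : (NN Γ)ᵐᵒᵖ) * m i = numU (a i) := by
  classical
  have hone : ∀ x : UM Γ, ∃ (s : SS Γ) (a : (NN Γ)ᵐᵒᵖ), numU (s : (NN Γ)ᵐᵒᵖ) * x = numU a := by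
    intro x
    induction x using OreLocalization.ind with
    | _ r s =>
      refine ⟨s, r, ?_⟩
      change ((s : (NN Γ)ᵐᵒᵖ) /ₒ (1 : SS Γ)) * (r /ₒ s) = r /ₒ (1 : SS Γ)
      exact OreLocalization.mul_cancel
  have hfin : ∀ F : Finset ι, ∃ (s : SS Γ) (a : ι → (NN Γ)ᵐᵒᵖ),
      ∀ i ∈ F, numU (s : (NN Γ)ᵐᵒᵖ) * m i = numU (a i) := by
    intro F
    induction F using Finset.induction_on with
    | empty => exact ⟨1, fun _ => 0, fun i hi => absurd hi (Finset.notMem_empty i)⟩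
    | insert j F hj ih =>
      obtain ⟨s, a, ha⟩ := ih
      obtain ⟨s₁, b, hb⟩ := hone (m j)
      have hore := OreLocalization.ore_eq (s : (NN Γ)ᵐᵒᵖ) s₁
      set r' := OreLocalization.oreNum (s : (NN Γ)ᵐᵒᵖ) s₁
      set s' := OreLocalization.oreDenom (s : (NN Γ)ᵐᵒᵖ) s₁
      refine ⟨s' * s, fun i => if i = j then r' * b else (s' : (NN Γ)ᵐᵒᵖ) * a i, ?_⟩
      intro i hi
      have hcoe : ((s' * s : SS Γ) : (NN Γ)ᵐᵒᵖ) = (s' : (NN Γ)ᵐᵒᵖ) * (s : (NN Γ)ᵐᵒᵖ) := rfl
      beta_reduce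
      by_cases hij : i = j
      · subst hij
        rw [if_pos rfl, hcoe, hore, map_mul, mul_assoc, hb, map_mul]
      · rw [if_neg hij, hcoe, map_mul, mul_assoc,
          ha i (Finset.mem_of_mem_insert_of_ne hi hij), map_mul]
  have := Fintype.ofFinite ι
  obtain ⟨s, a, ha⟩ := hfin Finset.univ
  exact ⟨s, a, fun i => ha i (Finset.mem_univ i)⟩

end GP

end OS
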