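import Mathlib
import Pool.Agent.Lib.MP_8fe54c_gt.GPUm
import Pool.Agent.Lib.MP_8fe54c_gt.L2Cmp
import Pool.Agent.Lib.MP_8fe54c_gt.L2Op
import Pool.Agent.Lib.MP_8fe54c_gt.L2Rel
import Pool.Agent.Lib.MP_8fe54c_gt.L2Sal

/-!
# Vanishing of the homology with coefficients in the affiliated operators (module K2)
-/

namespace OS

namespace GP

open Finsupp MulOpposite
open scoped InnerProductSpace ENNReal

universe u v

section comap

variable {A B : Type*}

/-- restriction of square summable functions along an injective map -/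
noncomputable def K2_com (i : A → B) (hi : Function.Injective i) : H2 B →L[ℝ] H2 A :=
  LinearMap.mkContinuous
    { toFun := fun f => (⟨fun x => f (i x),
        h2_memlp_iff.mpr ((h2_summable f).comp_injective hi)⟩ : H2 A)
      map_add' := fun f g => by
        ext x
        rfl
      map_smul' := fun c f => by
        ext x
        rfl } 1 (by
    intro f
    rw [one_mul, ← sq_le_sq₀ (norm_nonneg _) (norm_nonneg _), h2_norm_sq, h2_norm_sq]
    exact tsum_comp_le_tsum_of_inj (h2_summable f) (fun x => sq_nonneg _) hi)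

theorem K2_com_apply (i : A → B) (hi : Function.Injective i) (f : H2 B) (x : A) :
    K2_com i hi f x = f (i x) := rfl

end comap

section harm

variable {Γ : Type v} [Group Γ] (R : FreeRes.{u, v} Γ)

/-- the linear conditions of a harmonic chain: cocycle -/
def K2_coF (k : ℕ) : Set (R.X k → ℤ) := {c | ∃ z : R.X (k + 1), c = fun x => R.coef k z x}

/-- the linear conditions of a harmonic chain: cycle -/
def K2_cyF : (k : ℕ) → Set (R.X k → ℤ)
  | 0 => ∅
  | k + 1 => {c | ∃ y : R.X k, c = fun x => R.coef k x y}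

/-- the linear conditions of a harmonic chain -/
def K2_F (k : ℕ) : Set (R.X k → ℤ) := K2_coF R k ∪ K2_cyF R k

theorem K2_F_iff (k : ℕ) (ξ : R.X k → ℝ) :
    (∀ c ∈ K2_F R k, ∑ᶠ x, (c x : ℝ) * ξ x = 0) ↔ R.IsCocyc k ξ ∧ R.IsCyc k ξ := by
  constructor
  · intro h
    refine ⟨fun z => h _ (Or.inl ⟨z, rfl⟩), ?_⟩
    cases k with
    | zero => trivial
    | succ k => exact fun y => h _ (Or.inr ⟨y, rfl⟩)
  · rintro ⟨h1, h2⟩ c (⟨z, rfl⟩ | hc)
    · exact h1 z
    · cases k with
      | zero => exact hc.elim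
      | succ k =>
        obtain ⟨y, rfl⟩ := hc
        exact h2 y

theorem K2_F_fin (k : ℕ) (c : R.X k → ℤ) (hc : c ∈ K2_F R k) : {x | c x ≠ 0}.Finite := by
  rcases hc with ⟨z, rfl⟩ | hc
  · exact R.finite_coef_left k z
  · cases k with
    | zero => exact hc.elim
    | succ k =>
      obtain ⟨y, rfl⟩ := hc
      exact R.finite_coef_right k y

theorem K2_F_smul (k : ℕ) (c : R.X k → ℤ) (hc : c ∈ K2_F R k) (g : Γ) :
    (fun x => c (g • x)) ∈ K2_F R k := by
  rcases hc with ⟨z, rfl⟩ | hc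
  · refine Or.inl ⟨g⁻¹ • z, ?_⟩
    funext x
    rw [← R.coef_smul k g (g⁻¹ • z) x, smul_inv_smul]
  · cases k with
    | zero => exact hc.elim
    | succ k =>
      obtain ⟨y, rfl⟩ := hc
      refine Or.inr ⟨g⁻¹ • y, ?_⟩
      funext x
      rw [← R.coef_smul k g x (g⁻¹ • y), smul_inv_smul]

open Classical in
/-- the functional of a condition -/
noncomputable def K2_fun {X : Type*} (c : X → ℤ) : H2 X →L[ℝ] ℝ :=
  if h : {x | c x ≠ 0}.Finite then
    ∑ x ∈ h.toFinset, (c x : ℝ) • (innerSL ℝ (dlt x : H2 X)) else 0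

open Classical in
theorem K2_fun_apply {X : Type*} (c : X → ℤ) (h : {x | c x ≠ 0}.Finite) (ξ : H2 X) :
    K2_fun c ξ = ∑ᶠ x, (c x : ℝ) * ξ x := by
  have h1 : ∑ᶠ x, (c x : ℝ) * ξ x = ∑ x ∈ h.toFinset, (c x : ℝ) * ξ x := by
    apply finsum_eq_sum_of_support_subset
    intro x hx
    rw [Function.mem_support] at hx
    rw [Finset.mem_coe, Set.Finite.mem_toFinset]
    intro h0
    exact hx (by rw [h0]; simp)
  rw [h1, K2_fun, dif_pos h, _root_.sum_apply]
  refine Finset.sum_congr rfl fun x _ => ?_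
  rw [_root_.smul_apply, innerSL_apply_apply, real_inner_comm, inner_dlt,
    smul_eq_mul]

/-- the closed subspace of the harmonic chains -/
noncomputable def K2_H (k : ℕ) : Submodule ℝ (H2 (R.X k)) :=
  ⨅ c : K2_F R k, LinearMap.ker (K2_fun c.1).toLinearMap

theorem K2_mem_H (k : ℕ) (ξ : H2 (R.X k)) :
    ξ ∈ K2_H R k ↔ R.IsCocyc k (ξ : R.X k → ℝ) ∧ R.IsCyc k (ξ : R.X k → ℝ) := by
  rw [← K2_F_iff, K2_H, Submodule.mem_iInf]
  constructor
  · intro h c hc
    rw [← K2_fun_apply c (K2_F_fin R k c hc)]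
    exact h ⟨c, hc⟩
  · rintro h ⟨c, hc⟩
    have := h c hc
    rw [← K2_fun_apply c (K2_F_fin R k c hc)] at this
    exact this

theorem K2_H_closed (k : ℕ) : IsClosed (K2_H R k : Set (H2 (R.X k))) := by
  rw [K2_H, Submodule.coe_iInf]
  exact isClosed_iInter fun c => ContinuousLinearMap.isClosed_ker (K2_fun c.1)

/-- translation of chains -/
noncomputable def K2_tr (k : ℕ) (g : Γ) : H2 (R.X k) →L[ℝ] H2 (R.X k) :=
  permL (MulAction.toPerm g⁻¹)

theorem K2_tr_apply (k : ℕ) (g : Γ) (ξ : H2 (R.X k)) (x : R.X k) :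
    K2_tr R k g ξ x = ξ (g⁻¹ • x) := rfl

theorem K2_tr_inner (k : ℕ) (g : Γ) (ξ η : H2 (R.X k)) :
    ⟪K2_tr R k g ξ, η⟫_ℝ = ⟪ξ, K2_tr R k g⁻¹ η⟫_ℝ := by
  rw [K2_tr, permL_inner, K2_tr]
  congr 2

theorem K2_tr_mem (k : ℕ) (g : Γ) (ξ : H2 (R.X k)) (hξ : ξ ∈ K2_H R k) :
    K2_tr R k g ξ ∈ K2_H R k := by
  rw [K2_mem_H, ← K2_F_iff] at hξ ⊢
  intro c hc
  have h1 := hξ _ (K2_F_smul R k c hc g)
  rw [← h1]
  rw [← finsum_comp_equiv (MulAction.toPerm g : Equiv.Perm (R.X k))]
  refine finsum_congr fun x => ?_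
  rw [K2_tr_apply]
  simp

end harm

section main

variable {Γ : Type v} [Group Γ] (R : FreeRes.{u, v} Γ) (k : ℕ)

theorem K2_inj (x : R.X k) : Function.Injective fun h : Γ => h • x :=
  fun _ _ e => R.eq_of_smul_eq e

/-- restriction to the orbit of `x` -/
noncomputable def K2_res (x : R.X k) : H2 (R.X k) →L[ℝ] H2 Γ := K2_com _ (K2_inj R k x)

theorem K2_res_apply (x : R.X k) (ξ : H2 (R.X k)) (h : Γ) : K2_res R k x ξ h = ξ (h • x) := rfl

/-- extension by zero from the orbit of `x` -/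
noncomputable def K2_ext (x : R.X k) : H2 Γ →L[ℝ] H2 (R.X k) :=
  ContinuousLinearMap.adjoint (K2_res R k x)

theorem K2_res_tr (x : R.X k) (g : Γ) (ξ : H2 (R.X k)) :
    K2_res R k x (K2_tr R k g ξ) = lamL Γ g (K2_res R k x ξ) := by
  ext h
  rw [K2_res_apply, K2_tr_apply, lamL_apply, K2_res_apply, mul_smul]

theorem K2_ext_inner (x : R.X k) (η : H2 Γ) (ξ : H2 (R.X k)) :
    ⟪K2_ext R k x η, ξ⟫_ℝ = ⟪η, K2_res R k x ξ⟫_ℝ := by
  rw [K2_ext, ContinuousLinearMap.adjoint_inner_left]

theorem K2_lamL_inner (g : Γ) (f h : H2 Γ) : ⟪lamL Γ g f, h⟫_ℝ = ⟪f, lamL Γ g⁻¹ h⟫_ℝ := by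
  rw [← lamL_adjoint, ContinuousLinearMap.adjoint_inner_right]

theorem K2_ext_lam (x : R.X k) (g : Γ) (η : H2 Γ) :
    K2_ext R k x (lamL Γ g η) = K2_tr R k g (K2_ext R k x η) := by
  refine ext_inner_right ℝ fun ξ => ?_
  rw [K2_ext_inner, K2_tr_inner, K2_ext_inner, K2_lamL_inner, K2_res_tr]

instance : CompleteSpace (K2_H R k) := (K2_H_closed R k).completeSpace_coe

theorem K2_P_tr (g : Γ) (ξ : H2 (R.X k)) : (K2_H R k).starProjection (K2_tr R k g ξ) =
    K2_tr R k g ((K2_H R k).starProjection ξ) := by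
  refine Submodule.eq_starProjection_of_mem_of_inner_eq_zero ?_ ?_
  · exact K2_tr_mem R k g _ (Submodule.starProjection_apply_mem _ _)
  · intro w hw
    rw [← map_sub, K2_tr_inner]
    exact Submodule.starProjection_inner_eq_zero _ _ (K2_tr_mem R k g⁻¹ w hw)

/-- the compressions of the projection -/
noncomputable def K2_T (j x : R.X k) : NN Γ :=
  ⟨K2_res R k x ∘L (K2_H R k).starProjection ∘L K2_ext R k j, fun g f => by
    change K2_res R k x ((K2_H R k).starProjection (K2_ext R k j (lamL Γ g f))) =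
      lamL Γ g (K2_res R k x ((K2_H R k).starProjection (K2_ext R k j f)))
    rw [K2_ext_lam, K2_P_tr, K2_res_tr]⟩

theorem K2_T_apply (j x : R.X k) (η : H2 Γ) (h : Γ) :
    (K2_T R k j x : H2 Γ →L[ℝ] H2 Γ) η h =
      (K2_H R k).starProjection (K2_ext R k j η) (h • x) := rfl

theorem K2_T_smul (j x : R.X k) (g : Γ) : K2_T R k j (g • x) = rho g * K2_T R k j x := by
  apply Subtype.ext
  refine ContinuousLinearMap.ext fun η => ?_
  ext h
  change (K2_T R k j (g • x) : H2 Γ →L[ℝ] H2 Γ) η h =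
    (K2_T R k j x : H2 Γ →L[ℝ] H2 Γ) η (h * g)
  rw [K2_T_apply, K2_T_apply, mul_smul]

theorem K2_sum_numU {ι : Type*} (s : Finset ι) (c : ι → ℤ) (T : ι → NN Γ) :
    ∑ x ∈ s, c x • numU (op (T x)) = numU (op (∑ x ∈ s, c x • T x)) := by
  rw [Finset.op_sum, map_sum]
  refine Finset.sum_congr rfl fun x _ => ?_
  rw [MulOpposite.op_smul, map_zsmul]

theorem K2_bdM {M : Type*} [AddCommGroup M] (f : R.X (k + 1) → M) (y : R.X k) :
    bdM R k f y = ∑ x ∈ (R.finite_coef_right k y).toFinset, R.coef k x y • f x := by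
  unfold bdM
  apply finsum_eq_sum_of_support_subset
  intro x hx
  rw [Function.mem_support] at hx
  rw [Finset.mem_coe, Set.Finite.mem_toFinset]
  intro h0
  exact hx (by rw [h0, zero_smul])

theorem K2_coe_sum {ι : Type*} (s : Finset ι) (c : ι → ℤ) (T : ι → NN Γ) (η : H2 Γ) (h : Γ) :
    ((∑ x ∈ s, c x • T x : NN Γ) : H2 Γ →L[ℝ] H2 Γ) η h =
      ∑ x ∈ s, (c x : ℝ) * (T x : H2 Γ →L[ℝ] H2 Γ) η h := by
  induction s using Finset.cons_induction with
  | empty => simp
  | cons a s ha ih =>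
    rw [Finset.sum_cons, Finset.sum_cons, ← ih]
    change ((c a • T a : NN Γ) : H2 Γ →L[ℝ] H2 Γ) η h + _ = _
    congr 1
    change (c a • (T a : H2 Γ →L[ℝ] H2 Γ)) η h = _
    rw [← Int.cast_smul_eq_zsmul ℝ]
    rfl

end main

theorem harmZero_of_HV {Γ : Type v} [Group Γ] (R : FreeRes.{u, v} Γ) (k : ℕ)
    (h : HV (MonoidHom.id Γ) R (UM Γ) k) : R.HarmZero ℝ k := by
  classical
  -- the projection of every cell is zero
  have key : ∀ (j : R.X k) (η : H2 Γ), (K2_H R k).starProjection (K2_ext R k j η) = 0 := by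
    intro j
    set P := (K2_H R k).starProjection with hP
    obtain ⟨w, hw1, hw2⟩ := h (fun x => numU (op (K2_T R k j x))) (by
      intro g x
      change numU (op (K2_T R k j (g • x))) = numU (op (K2_T R k j x)) * numU (op (rho g))
      rw [K2_T_smul, op_mul, map_mul]) (by
      cases k with
      | zero => trivial
      | succ k =>
        funext y
        rw [K2_bdM, K2_sum_numU]
        have h0 : (∑ x ∈ (R.finite_coef_right k y).toFinset,
            R.coef k x y • K2_T R (k + 1) j x : NN Γ) = 0 := by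
          apply Subtype.ext
          refine ContinuousLinearMap.ext fun η => ?_
          ext g
          rw [K2_coe_sum]
          simp only [K2_T_apply]
          have hmem := Submodule.starProjection_apply_mem (K2_H R (k + 1))
            (K2_ext R (k + 1) j η)
          have hc := ((K2_mem_H R (k + 1) _).1 hmem).2 (g • y)
          rw [← finsum_comp_equiv (MulAction.toPerm g : Equiv.Perm (R.X (k + 1)))] at hc
          simp only [MulAction.toPerm_apply, R.coef_smul] at hc
          rw [finsum_eq_sum_of_support_subset (s := (R.finite_coef_right k y).toFinset)] at hc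
          · exact hc
          · intro x hx
            rw [Function.mem_support] at hx
            rw [Finset.mem_coe, Set.Finite.mem_toFinset]
            intro h0
            exact hx (by rw [h0]; simp)
        rw [h0, op_zero, map_zero]
        rfl)
    obtain ⟨s, hs⟩ := R.fin (k + 1)
    obtain ⟨S, a, ha⟩ := um_common (fun e : s => w e.1)
    choose g e he hge using hs
    -- the operators of the cells
    let V : R.X (k + 1) → NN Γ := fun x => rho (g x) * (a ⟨e x, he x⟩).unop
    have hV : ∀ x, numU (S : (NN Γ)ᵐᵒᵖ) * w x = numU (op (V x)) := by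
      intro x
      have h1 : w x = w (e x) * numU (op (rho (g x))) := by
        conv_lhs => rw [← hge x]
        exact hw1 (g x) (e x)
      have h2 := ha ⟨e x, he x⟩
      simp only at h2
      rw [h1, ← mul_assoc, h2, ← map_mul]
      rfl
    have hrel : ∀ y : R.X k, K2_T R k j y * (S : (NN Γ)ᵐᵒᵖ).unop =
        ∑ x ∈ (R.finite_coef_right k y).toFinset, R.coef k x y • V x := by
      intro y
      apply op_injective
      apply numU_inj
      rw [← K2_sum_numU, op_mul, op_unop, map_mul]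
      have h1 := congrFun hw2 y
      rw [K2_bdM] at h1
      rw [← h1, Finset.mul_sum]
      refine Finset.sum_congr rfl fun x _ => ?_
      rw [mul_smul_comm, hV]
    -- evaluation
    have hzero : ∀ η : H2 Γ, P (K2_ext R k j (((S : (NN Γ)ᵐᵒᵖ).unop : H2 Γ →L[ℝ] H2 Γ) η)) = 0 := by
      intro η
      set ξ := P (K2_ext R k j (((S : (NN Γ)ᵐᵒᵖ).unop : H2 Γ →L[ℝ] H2 Γ) η)) with hξ
      let ζ : R.X (k + 1) → ℝ := fun x => (V x : H2 Γ →L[ℝ] H2 Γ) η 1
      have hζ : ∀ x, ζ x = ((a ⟨e x, he x⟩).unop : H2 Γ →L[ℝ] H2 Γ) η (g x) := by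
        intro x
        change ((a ⟨e x, he x⟩).unop : H2 Γ →L[ℝ] H2 Γ) η (1 * g x) = _
        rw [one_mul]
      have hsum : Summable fun x => ‖ζ x‖ ^ 2 := by
        have h1 : Summable fun p : (Σ _ : s, Γ) =>
            ‖((a p.1).unop : H2 Γ →L[ℝ] H2 Γ) η p.2‖ ^ 2 := by
          rw [summable_sigma_of_nonneg (fun p => by positivity)]
          refine ⟨fun i => ?_, (hasSum_fintype _).summable⟩
          exact summable_sq (K := ℝ) (((a i).unop : H2 Γ →L[ℝ] H2 Γ) η)
        have hinj : Function.Injective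
            (fun x : R.X (k + 1) => (⟨⟨e x, he x⟩, g x⟩ : Σ _ : s, Γ)) := by
          intro x x' hx
          simp only [Sigma.mk.injEq, Subtype.mk.injEq, heq_eq_eq] at hx
          rw [← hge x, ← hge x', hx.1, hx.2]
        have h2 := h1.comp_injective hinj
        refine h2.congr fun x => ?_
        rw [hζ]
        rfl
      obtain ⟨A, hA⟩ := R.exists_bd R (R.d k) (R.d_act k)
      have hξζ : ξ = opL (K := ℝ) (R.d k) hA (toL2 ζ hsum) := by
        apply lp.ext
        funext y
        have h1 := congrArg (fun T : NN Γ => (T : H2 Γ →L[ℝ] H2 Γ) η 1) (hrel y)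
        simp only at h1
        rw [K2_coe_sum] at h1
        have h2 : ((K2_T R k j y * (S : (NN Γ)ᵐᵒᵖ).unop : NN Γ) : H2 Γ →L[ℝ] H2 Γ) η 1 =
            ξ ((1 : Γ) • y) := rfl
        rw [h2, one_smul] at h1
        rw [h1]
        change _ = push (R.d k) ζ y
        rw [push_eq_sum (R.d k) ζ y (R.finite_coef_right k y).toFinset]
        · rfl
        · intro x hx
          rw [Set.Finite.mem_toFinset]
          exact hx
      have hmem := Submodule.starProjection_apply_mem (K2_H R k)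
        (K2_ext R k j (((S : (NN Γ)ᵐᵒᵖ).unop : H2 Γ →L[ℝ] H2 Γ) η))
      have hco := ((K2_mem_H R k _).1 hmem).1
      have h3 : inner ℝ (opL (K := ℝ) (R.d k) hA (toL2 ζ hsum)) ξ = 0 :=
        opL_inner_zero (R.d k) hA ξ hco _
      rw [← hξζ, inner_self_eq_zero] at h3
      exact h3
    -- density
    have hd := dense_of_inj (S : (NN Γ)ᵐᵒᵖ).unop S.2
    have hcont : Continuous fun η : H2 Γ => P (K2_ext R k j η) :=
      P.continuous.comp (K2_ext R k j).continuous
    have hext := hd.equalizer hcont (continuous_const (y := (0 : H2 (R.X k)))) (funext hzero)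
    exact fun η => congrFun hext η
  intro ξ hξ
  have hmem : (toL2 ξ hξ.sq : H2 (R.X k)) ∈ K2_H R k :=
    (K2_mem_H R k _).2 ⟨hξ.cocyc, hξ.cyc⟩
  funext j
  have h1 : ⟪(toL2 ξ hξ.sq : H2 (R.X k)), K2_ext R k j (dlt 1)⟫_ℝ = ξ j := by
    rw [real_inner_comm, K2_ext_inner, real_inner_comm, inner_dlt, K2_res_apply, one_smul]
    rfl
  have h2 : (K2_H R k).starProjection (toL2 ξ hξ.sq : H2 (R.X k)) = toL2 ξ hξ.sq :=
    Submodule.starProjection_eq_self_iff.2 hmem
  rw [← h1, ← h2, Submodule.inner_starProjection_left_eq_right, key, inner_zero_right]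
  rfl

end GP

end OS
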