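import Mathlib
import Pool.Agent.Lib.MP_8fe54c_gt.GPUm
import Pool.Agent.Lib.MP_8fe54c_gt.KHarm

/-!
# PROJECT K, module K5: central elements

`HV_set_of_central`: if every point `q` of a `Γ`-set `Q` is fixed by an element `z q` of infinite
order, with `z (g q) = g (z q) g⁻¹`, then the homology with coefficients in the finitely supported
functions on `Q` with values in `UM Γ` vanishes.
-/

namespace OS

namespace GP

open Finsupp MulOpposite

universe u v w w'

set_option linter.unusedSectionVars false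

section psh

variable {Γ : Type*} [Group Γ] {W W' W'' : Type*} [MulAction Γ W] [MulAction Γ W']
  [MulAction Γ W''] {M : Type*} [AddCommGroup M] [DistribMulAction Γ M]

variable (Γ) in
/-- supported on finitely many orbits -/
def K5_FS (F : W → M) : Prop := ∃ s : Finset W, ∀ w, F w ≠ 0 → ∃ g : Γ, ∃ e ∈ s, g • e = w

variable (Γ) in
/-- equivariant functions -/
def K5_Eq (F : W → M) : Prop := ∀ (g : Γ) (w : W), F (g • w) = g • F w

/-- the push forward of a function along an integral matrix -/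
noncomputable def K5_psh (T : ZMap W W') (F : W → M) (w' : W') : M := ∑ᶠ w, mc T w w' • F w

theorem K5_eq_of_smul_eq (hW : ∀ (g : Γ) (w : W), g • w = w → g = 1) {g h : Γ} {x : W}
    (e : g • x = h • x) : g = h := by
  have h1 : (h⁻¹ * g) • x = x := by rw [mul_smul, e, inv_smul_smul]
  exact (inv_mul_eq_one.1 (hW _ x h1)).symm

theorem K5_mc_ne {T : ZMap W W'} (hT : Eqv Γ T) (g : Γ) (e : W) (w' : W')
    (h : mc T (g • e) w' ≠ 0) : ∃ v ∈ (T (single e 1)).support, g • v = w' := by
  refine ⟨g⁻¹ • w', ?_, smul_inv_smul g w'⟩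
  rw [Finsupp.mem_support_iff]
  intro h0
  apply h
  rw [← smul_inv_smul g w', hT.mc_smul]
  exact h0

/-- finiteness for the composition of two matrices -/
theorem K5_fin2 (hW : ∀ (g : Γ) (w : W''), g • w = w → g = 1) {T : ZMap W W'} (hT : Eqv Γ T)
    {S : ZMap W' W''} (hS : Eqv Γ S) {F : W → M} (hF : K5_FS Γ F) (w'' : W'') :
    {p : W × W' | F p.1 ≠ 0 ∧ mc T p.1 p.2 ≠ 0 ∧ mc S p.2 w'' ≠ 0}.Finite := by
  classical
  obtain ⟨s, hs⟩ := hF
  have hfin : ∀ (e : W) (v : W') (u : W''), {p : W × W' | ∃ g : Γ, g • u = w'' ∧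
      p = (g • e, g • v)}.Finite := by
    intro e v u
    refine Set.Subsingleton.finite ?_
    rintro p ⟨g, hg, rfl⟩ p' ⟨g', hg', rfl⟩
    have : g = g' := K5_eq_of_smul_eq hW (hg.trans hg'.symm)
    rw [this]
  refine (s.finite_toSet.biUnion (fun e _ =>
    ((T (single e 1)).support).finite_toSet.biUnion (fun v _ =>
      ((S (single v 1)).support).finite_toSet.biUnion (fun u _ => hfin e v u)))).subset ?_
  rintro ⟨w, w'⟩ ⟨h1, h2, h3⟩
  obtain ⟨g, e, he, rfl⟩ := hs w h1
  obtain ⟨v, hv, rfl⟩ := K5_mc_ne hT g e w' h2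
  obtain ⟨u, hu, rfl⟩ := K5_mc_ne hS g v w'' h3
  refine Set.mem_biUnion (Finset.mem_coe.2 he) (Set.mem_biUnion (Finset.mem_coe.2 hv)
    (Set.mem_biUnion (Finset.mem_coe.2 hu) ⟨g, rfl, rfl⟩))

theorem K5_fin1 (hW : ∀ (g : Γ) (w : W'), g • w = w → g = 1) {T : ZMap W W'} (hT : Eqv Γ T)
    {F : W → M} (hF : K5_FS Γ F) (w' : W') :
    {w : W | F w ≠ 0 ∧ mc T w w' ≠ 0}.Finite := by
  classical
  obtain ⟨s, hs⟩ := hF
  have hfin : ∀ (e : W) (v : W'), {p : W | ∃ g : Γ, g • v = w' ∧ p = g • e}.Finite := by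
    intro e v
    refine Set.Subsingleton.finite ?_
    rintro p ⟨g, hg, rfl⟩ p' ⟨g', hg', rfl⟩
    have : g = g' := K5_eq_of_smul_eq hW (hg.trans hg'.symm)
    rw [this]
  refine (s.finite_toSet.biUnion (fun e _ =>
    ((T (single e 1)).support).finite_toSet.biUnion (fun v _ => hfin e v))).subset ?_
  rintro w ⟨h1, h2⟩
  obtain ⟨g, e, he, rfl⟩ := hs w h1
  obtain ⟨v, hv, rfl⟩ := K5_mc_ne hT g e w' h2
  exact Set.mem_biUnion (Finset.mem_coe.2 he) (Set.mem_biUnion (Finset.mem_coe.2 hv) ⟨g, rfl, rfl⟩)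

theorem K5_supp_fin (hW : ∀ (g : Γ) (w : W'), g • w = w → g = 1) {T : ZMap W W'}
    (hT : Eqv Γ T) {F : W → M} (hF : K5_FS Γ F) (w' : W') :
    (Function.support fun w => mc T w w' • F w).Finite := by
  refine (K5_fin1 hW hT hF w').subset ?_
  intro w hw
  rw [Function.mem_support] at hw
  constructor
  · intro h
    exact hw (by rw [h, smul_zero])
  · intro h
    exact hw (by rw [h, zero_smul])

theorem K5_psh_FS {T : ZMap W W'} (hT : Eqv Γ T) {F : W → M} (hF : K5_FS Γ F) :
    K5_FS Γ (K5_psh T F) := by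
  classical
  obtain ⟨s, hs⟩ := hF
  refine ⟨s.biUnion fun e => (T (single e 1)).support, fun w' hw' => ?_⟩
  obtain ⟨w, hw⟩ : ∃ w, mc T w w' • F w ≠ 0 := by
    by_contra h
    push Not at h
    exact hw' (by unfold K5_psh; rw [finsum_congr h, finsum_zero])
  have h1 : F w ≠ 0 := fun h => hw (by rw [h, smul_zero])
  have h2 : mc T w w' ≠ 0 := fun h => hw (by rw [h, zero_smul])
  obtain ⟨g, e, he, rfl⟩ := hs w h1
  obtain ⟨v, hv, rfl⟩ := K5_mc_ne hT g e w' h2
  exact ⟨g, v, Finset.mem_biUnion.2 ⟨e, he, hv⟩, rfl⟩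

theorem K5_psh_Eq (hW : ∀ (g : Γ) (w : W'), g • w = w → g = 1) {T : ZMap W W'} (hT : Eqv Γ T)
    {F : W → M} (hF : K5_FS Γ F) (hE : K5_Eq Γ F) : K5_Eq Γ (K5_psh T F) := by
  intro g w'
  unfold K5_psh
  rw [← finsum_comp_equiv (MulAction.toPerm g)]
  have h1 : ∀ w, mc T ((MulAction.toPerm g) w) (g • w') • F ((MulAction.toPerm g) w) =
      (DistribSMul.toAddMonoidHom M g) (mc T w w' • F w) := by
    intro w
    rw [MulAction.toPerm_apply, hT.mc_smul, hE, map_zsmul]
    rfl
  rw [finsum_congr h1, ← AddMonoidHom.map_finsum _ (K5_supp_fin hW hT hF w')]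
  rfl

theorem K5_psh_add (hW : ∀ (g : Γ) (w : W'), g • w = w → g = 1) {S T : ZMap W W'}
    (hS : Eqv Γ S) (hT : Eqv Γ T) {F : W → M} (hF : K5_FS Γ F) (w' : W') :
    K5_psh (S + T) F w' = K5_psh S F w' + K5_psh T F w' := by
  unfold K5_psh
  rw [← finsum_add_distrib (K5_supp_fin hW hS hF w') (K5_supp_fin hW hT hF w')]
  refine finsum_congr fun w => ?_
  rw [← add_smul]
  rfl

theorem K5_mc_comp (S : ZMap W' W'') (T : ZMap W W') (w : W) (w'' : W'') :
    mc (S ∘ₗ T) w w'' = ∑ w' ∈ (T (single w 1)).support, mc T w w' * mc S w' w'' := by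
  unfold mc
  rw [LinearMap.comp_apply]
  conv_lhs => rw [← Finsupp.sum_single (T (single w 1))]
  rw [Finsupp.sum, map_sum, Finsupp.finsetSum_apply]
  refine Finset.sum_congr rfl fun w' _ => ?_
  have e : (single w' (T (single w 1) w') : W' →₀ ℤ) = T (single w 1) w' • single w' 1 := by simp
  rw [e, map_smul, Finsupp.smul_apply, smul_eq_mul]

theorem K5_psh_comp (hW : ∀ (g : Γ) (w : W''), g • w = w → g = 1)
    (hW' : ∀ (g : Γ) (w : W'), g • w = w → g = 1) {T : ZMap W W'} (hT : Eqv Γ T)
    {S : ZMap W' W''} (hS : Eqv Γ S) {F : W → M} (hF : K5_FS Γ F) (w'' : W'') :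
    K5_psh (S ∘ₗ T) F w'' = K5_psh S (K5_psh T F) w'' := by
  have hfin := K5_fin2 hW hT hS hF w''
  let H : W × W' → M := fun p => (mc T p.1 p.2 * mc S p.2 w'') • F p.1
  have hH : (Function.support H).Finite := by
    refine hfin.subset ?_
    rintro ⟨w, w'⟩ h
    rw [Function.mem_support] at h
    refine ⟨fun h0 => h ?_, fun h0 => h ?_, fun h0 => h ?_⟩
    · change (_ : ℤ) • F w = 0
      rw [show F w = 0 from h0, smul_zero]
    · change (mc T w w' * mc S w' w'') • F w = 0
      rw [show mc T w w' = 0 from h0, zero_mul, zero_smul]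
    · change (mc T w w' * mc S w' w'') • F w = 0
      rw [show mc S w' w'' = 0 from h0, mul_zero, zero_smul]
  have h1 : K5_psh (S ∘ₗ T) F w'' = ∑ᶠ w, ∑ᶠ w', H (w, w') := by
    unfold K5_psh
    refine finsum_congr fun w => ?_
    rw [K5_mc_comp, Finset.sum_smul]
    rw [finsum_eq_sum_of_support_subset (s := (T (single w 1)).support)]
    intro w' hw'
    rw [Function.mem_support] at hw'
    rw [Finset.mem_coe, Finsupp.mem_support_iff]
    intro h0
    apply hw'
    change (mc T w w' * mc S w' w'') • F w = 0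
    rw [show mc T w w' = 0 from h0, zero_mul, zero_smul]
  have h2 : K5_psh S (K5_psh T F) w'' = ∑ᶠ w', ∑ᶠ w, H (w, w') := by
    unfold K5_psh
    refine finsum_congr fun w' => ?_
    have h3 := AddMonoidHom.map_finsum (zsmulAddGroupHom (mc S w' w'') : M →+ M)
      (K5_supp_fin hW' hT hF w')
    have h4 : mc S w' w'' • ∑ᶠ w, mc T w w' • F w =
      (zsmulAddGroupHom (mc S w' w'') : M →+ M) (∑ᶠ w, mc T w w' • F w) := rfl
    rw [h4, h3]
    refine finsum_congr fun w => ?_
    change mc S w' w'' • mc T w w' • F w = (mc T w w' * mc S w' w'') • F w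
    rw [smul_smul, mul_comm]
  rw [h1, h2, ← finsum_curry H hH]
  have hsw : (Function.support fun p : W' × W => H (p.2, p.1)).Finite := by
    have h5 := hH.preimage (f := Prod.swap) (Prod.swap_injective.injOn (s := _))
    exact h5.subset fun p hp => hp
  rw [← finsum_curry (fun p : W' × W => H (p.2, p.1)) hsw]
  exact (finsum_comp_equiv (Equiv.prodComm W' W) (f := H)).symm

end psh

section fam

variable {Γ : Type*} [Group Γ] {Q X Y Z : Type*} [MulAction Γ Q] [MulAction Γ X]
  [MulAction Γ Y] [MulAction Γ Z]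

/-- equivariant families of matrices -/
def K5_EqF (Γ : Type*) [Group Γ] {Q X Y : Type*} [MulAction Γ Q] [MulAction Γ X] [MulAction Γ Y]
    (A : Q → ZMap X Y) : Prop :=
  ∀ (g : Γ) (q : Q) c, A (g • q) (gact g c) = gact g (A q c)

/-- the matrix over `Q` defined by a family of matrices -/
noncomputable def K5_up (A : Q → ZMap X Y) : ZMap (X × Q) (Y × Q) :=
  Finsupp.lsum ℤ (fun p : X × Q => LinearMap.toSpanSingleton ℤ _
    (Finsupp.mapDomain (fun y => (y, p.2)) (A p.2 (single p.1 1))))

omit [Group Γ] [MulAction Γ Q] [MulAction Γ X] [MulAction Γ Y] [MulAction Γ Z] in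
theorem K5_up_single (A : Q → ZMap X Y) (x : X) (q : Q) :
    K5_up A (single (x, q) 1) = Finsupp.mapDomain (fun y => (y, q)) (A q (single x 1)) := by
  simp [K5_up]

omit [Group Γ] [MulAction Γ Q] [MulAction Γ X] [MulAction Γ Y] [MulAction Γ Z] in
theorem K5_up_mapDomain (A : Q → ZMap X Y) (c : X →₀ ℤ) (q : Q) :
    K5_up A (Finsupp.mapDomain (fun y => (y, q)) c) =
      Finsupp.mapDomain (fun y => (y, q)) (A q c) := by
  induction c using Finsupp.induction_linear with
  | zero => simp
  | add b c hb hc => simp only [map_add, Finsupp.mapDomain_add, hb, hc]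
  | single x n =>
    have e : (single x n : X →₀ ℤ) = n • single x 1 := by simp
    rw [e, Finsupp.mapDomain_smul, map_smul, map_smul, Finsupp.mapDomain_smul,
      Finsupp.mapDomain_single, K5_up_single]

theorem K5_gact_mapDomain (g : Γ) (c : Y →₀ ℤ) (q : Q) :
    gact g (Finsupp.mapDomain (fun y => (y, q)) c) =
      Finsupp.mapDomain (fun y => (y, g • q)) (gact g c) := by
  induction c using Finsupp.induction_linear with
  | zero => simp
  | add b c hb hc => simp only [map_add, Finsupp.mapDomain_add, hb, hc]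
  | single x n =>
    rw [Finsupp.mapDomain_single, gact_single, gact_single, Finsupp.mapDomain_single]
    rfl

theorem K5_up_eqv {A : Q → ZMap X Y} (hA : K5_EqF Γ A) : Eqv Γ (K5_up A) := by
  intro g c
  induction c using Finsupp.induction_linear with
  | zero => simp
  | add b c hb hc => simp only [map_add, hb, hc]
  | single p n =>
    obtain ⟨x, q⟩ := p
    have e : (single (x, q) n : X × Q →₀ ℤ) = n • single (x, q) 1 := by simp
    rw [e, map_smul, map_smul, map_smul, map_smul, gact_single]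
    change n • K5_up A (single (g • x, g • q) 1) = _
    rw [K5_up_single, K5_up_single, K5_gact_mapDomain, ← gact_single, hA]

omit [Group Γ] [MulAction Γ Q] [MulAction Γ X] [MulAction Γ Y] [MulAction Γ Z] in
theorem K5_mc_up [DecidableEq Q] (A : Q → ZMap X Y) (x : X) (q : Q) (y : Y) (q' : Q) :
    mc (K5_up A) (x, q) (y, q') = if q = q' then mc (A q) x y else 0 := by
  unfold mc
  rw [K5_up_single]
  split_ifs with h
  · subst h
    exact Finsupp.mapDomain_apply (f := fun y => (y, q)) (fun a b hab => (Prod.ext_iff.1 hab).1)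
      (A q (single x 1)) y
  · refine Finsupp.mapDomain_of_notMem_range _ _ ?_
    rintro ⟨a, ha⟩
    exact h (Prod.ext_iff.1 ha).2

omit [Group Γ] [MulAction Γ Q] [MulAction Γ X] [MulAction Γ Y] [MulAction Γ Z] in
theorem K5_psh_up {M : Type*} [AddCommGroup M] (A : Q → ZMap X Y) (F : X × Q → M) (y : Y)
    (q : Q) : K5_psh (K5_up A) F (y, q) = ∑ᶠ x, mc (A q) x y • F (x, q) := by
  classical
  unfold K5_psh
  have hinj : Function.Injective fun x : X => (x, q) := fun a b hab => (Prod.ext_iff.1 hab).1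
  have h1 : ∀ x, mc (A q) x y • F (x, q) =
      (fun w : X × Q => mc (K5_up A) w (y, q) • F w) ((fun x : X => (x, q)) x) := by
    intro x
    change _ = mc (K5_up A) (x, q) (y, q) • F (x, q)
    rw [K5_mc_up, if_pos rfl]
  rw [finsum_congr h1]
  have h2 := finsum_mem_range (f := fun w : X × Q => mc (K5_up A) w (y, q) • F w) hinj
  have h3 := finsum_mem_univ (fun x : X =>
    (fun w : X × Q => mc (K5_up A) w (y, q) • F w) ((fun x : X => (x, q)) x))
  rw [← h2]
  rw [finsum_mem_def]
  refine finsum_congr fun w => ?_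
  by_cases hw : w ∈ Set.range fun x : X => (x, q)
  · rw [Set.indicator_of_mem hw]
  · rw [Set.indicator_of_notMem hw]
    obtain ⟨x, q'⟩ := w
    have : q' ≠ q := by
      rintro rfl
      exact hw ⟨x, rfl⟩
    rw [K5_mc_up, if_neg this, zero_smul]

omit [Group Γ] [MulAction Γ Q] [MulAction Γ X] [MulAction Γ Y] [MulAction Γ Z] in
theorem K5_up_comp (A : Q → ZMap X Y) (B : Q → ZMap Y Z) :
    K5_up (fun q => B q ∘ₗ A q) = K5_up B ∘ₗ K5_up A := by
  refine LinearMap.ext fun c => ?_
  induction c using Finsupp.induction_linear with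
  | zero => simp
  | add b c hb hc => simp only [map_add, hb, hc]
  | single p n =>
    obtain ⟨x, q⟩ := p
    have e : (single (x, q) n : X × Q →₀ ℤ) = n • single (x, q) 1 := by simp
    rw [e, map_smul, map_smul, LinearMap.comp_apply, K5_up_single, K5_up_single,
      K5_up_mapDomain]
    rfl

omit [Group Γ] [MulAction Γ Q] [MulAction Γ X] [MulAction Γ Y] [MulAction Γ Z] in
theorem K5_up_add (A B : Q → ZMap X Y) :
    K5_up (fun q => A q + B q) = K5_up A + K5_up B := by
  refine LinearMap.ext fun c => ?_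
  induction c using Finsupp.induction_linear with
  | zero => simp
  | add b c hb hc => simp only [map_add, hb, hc]
  | single p n =>
    obtain ⟨x, q⟩ := p
    have e : (single (x, q) n : X × Q →₀ ℤ) = n • single (x, q) 1 := by simp
    rw [e, map_smul, map_smul, LinearMap.add_apply, K5_up_single, K5_up_single,
      K5_up_single, LinearMap.add_apply, Finsupp.mapDomain_add]

/-- lifting families -/
theorem K5_lift (hX : ∀ (g : Γ) (x : X), g • x = x → g = 1) {φ : Q → ZMap X Y}
    (hφ : K5_EqF Γ φ) {π : ZMap Z Y} (hπ : Eqv Γ π)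
    (h : ∀ q x, ∃ z, π z = φ q (single x 1)) :
    ∃ ψ : Q → ZMap X Z, K5_EqF Γ ψ ∧ ∀ q c, π (ψ q c) = φ q c := by
  have hXQ : ∀ (g : Γ) (x : X × Q), g • x = x → g = 1 := fun g x hx =>
    hX g x.1 (Prod.ext_iff.1 hx).1
  let Φ : ZMap (X × Q) Y := Finsupp.lsum ℤ (fun p : X × Q =>
    LinearMap.toSpanSingleton ℤ _ (φ p.2 (single p.1 1)))
  have hΦ1 : ∀ p : X × Q, Φ (single p 1) = φ p.2 (single p.1 1) := by
    intro p
    simp [Φ]
  have hΦ2 : ∀ (q : Q) c, Φ (Finsupp.mapDomain (fun x => (x, q)) c) = φ q c := by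
    intro q c
    induction c using Finsupp.induction_linear with
    | zero => simp
    | add b c hb hc => simp only [map_add, Finsupp.mapDomain_add, hb, hc]
    | single x n =>
      have e : (single x n : X →₀ ℤ) = n • single x 1 := by simp
      rw [e, Finsupp.mapDomain_smul, map_smul, map_smul, Finsupp.mapDomain_single, hΦ1]
  have hΦ3 : ∀ (g : Γ) c, Φ (gact g c) = gact g (Φ c) := by
    intro g c
    induction c using Finsupp.induction_linear with
    | zero => simp
    | add b c hb hc => simp only [map_add, hb, hc]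
    | single p n =>
      have e : (single p n : X × Q →₀ ℤ) = n • single p 1 := by simp
      rw [e, map_smul, map_smul, map_smul, map_smul, gact_single, hΦ1, hΦ1]
      change n • φ (g • p.2) (single (g • p.1) 1) = _
      rw [← gact_single, hφ]
  obtain ⟨ψ, h1, h2⟩ := exists_lift (Γ := Γ) hXQ (fun g c => gact g c) Φ π hΦ3 hπ (by
    intro p
    obtain ⟨z, hz⟩ := h p.2 p.1
    exact ⟨z, by rw [hz, hΦ1]⟩)
  refine ⟨fun q => ψ ∘ₗ Finsupp.lmapDomain ℤ ℤ (fun x => (x, q)), ?_, ?_⟩
  · intro g q c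
    rw [LinearMap.comp_apply, LinearMap.comp_apply, Finsupp.lmapDomain_apply,
      Finsupp.lmapDomain_apply, ← h1, K5_gact_mapDomain]
  · intro q c
    rw [LinearMap.comp_apply, Finsupp.lmapDomain_apply, h2, hΦ2]

end fam

section hom

variable {Γ : Type v} [Group Γ]

/-- the homotopy between the action of the elements `z q` and the identity -/
theorem K5_homotopy (R : FreeRes.{u, v} Γ) {Q : Type w} [MulAction Γ Q] (z : Q → Γ)
    (hzg : ∀ g q, z (g • q) = g * z q * g⁻¹) :
    ∃ h : ∀ k, Q → ZMap (R.X k) (R.X (k + 1)), (∀ k, K5_EqF Γ (h k)) ∧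
      (∀ q c, R.d 0 (h 0 q c) = gact (z q) c - c) ∧
      ∀ k q c, R.d (k + 1) (h (k + 1) q c) = gact (z q) c - c - h k q (R.d k c) := by
  have hZ : ∀ k (g : Γ) (q : Q) (c : R.X k →₀ ℤ),
      gact (z (g • q)) (gact g c) = gact g (gact (z q) c) := by
    intro k g q c
    rw [hzg, ← gact_mul, ← gact_mul, inv_mul_cancel_right]
  obtain ⟨a0, ha0, ha0'⟩ := K5_lift (Γ := Γ) (R.free 0)
    (φ := fun q => (gact (z q) : ZMap (R.X 0) (R.X 0)) - LinearMap.id)
    (fun g q c => by
      rw [LinearMap.sub_apply, LinearMap.sub_apply, LinearMap.id_apply, LinearMap.id_apply,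
        map_sub, hZ]) (R.d_act 0) (fun q x => R.exact0 _ (by
      rw [LinearMap.sub_apply, LinearMap.id_apply, map_sub, R.eps_act, sub_self]))
  obtain ⟨h, h1, h2, h3⟩ := dep_seq (A := fun k => Q → ZMap (R.X k) (R.X (k + 1)))
    (fun k a => K5_EqF Γ a ∧ ∀ q x, ∃ y, R.d (k + 1) y = gact (z q) x - x - a q (R.d k x))
    (fun k a b => ∀ q c, R.d (k + 1) (b q c) = gact (z q) c - c - a q (R.d k c)) a0
    ⟨ha0, fun q x => R.exact 0 _ (by
      rw [map_sub, map_sub, R.d_act, ha0', LinearMap.sub_apply, LinearMap.id_apply, sub_self])⟩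
    (by
      rintro k a ⟨ha, ha'⟩
      obtain ⟨b, hb, hb'⟩ := K5_lift (Γ := Γ) (R.free (k + 1))
        (φ := fun q => (gact (z q) : ZMap (R.X (k + 1)) (R.X (k + 1))) - LinearMap.id -
          a q ∘ₗ R.d k) (fun g q c => by
          simp only [LinearMap.sub_apply, LinearMap.comp_apply, LinearMap.id_apply, map_sub]
          rw [hZ, R.d_act, ha]) (R.d_act (k + 1)) (fun q x => by
          obtain ⟨y, hy⟩ := ha' q (single x 1)
          exact ⟨y, by simpa using hy⟩)
      have hb'' : ∀ q c, R.d (k + 1) (b q c) = gact (z q) c - c - a q (R.d k c) := fun q c => by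
        rw [hb']
        rfl
      refine ⟨b, ⟨hb, fun q x => R.exact (k + 1) _ ?_⟩, hb''⟩
      rw [map_sub, map_sub, R.d_act, hb'', R.d_d, map_zero, sub_zero, sub_self])
  refine ⟨h, fun k => (h2 k).1, fun q c => ?_, h3⟩
  rw [h1, ha0']
  rfl

/-- right multiplication by `rho b - 1` is invertible -/
theorem K5_unit {b : Γ} (hb : ∀ n : ℕ, b ^ n = 1 → n = 0) :
    IsUnit (numU (op (rho b - 1 : NN Γ))) := by
  refine numU_isUnit (⟨op (rho b - 1 : NN Γ), ?_⟩ : SS Γ)
  intro f hf
  apply dop_inj hb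
  have h1 : ((rho b - 1 : NN Γ) : H2 Γ →L[ℝ] H2 Γ) f = rop b f - f := rfl
  have h2 : rop b f - f = 0 := h1.symm.trans hf
  rw [dop_apply, ← neg_sub, h2, neg_zero]

theorem HV_set_of_central_gen (R : FreeRes.{u, v} Γ) (Q : Type w) [MulAction Γ Q]
    (M : Type w') [AddCommGroup M] [DistribMulAction Γ M]
    (z : Q → Γ) (hz : ∀ q, z q • q = q) (hzg : ∀ g q, z (g • q) = g * z q * g⁻¹)
    (hinv : ∀ q, Function.Bijective (fun m : M => z q • m - m)) (p : ℕ) :
    HV (MonoidHom.id Γ) R (TW Q M) p := by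
  classical
  intro f hf hcyc
  obtain ⟨h, hh, hh0, hhd⟩ := K5_homotopy R z hzg
  have hfree : ∀ k (g : Γ) (x : R.X k × Q), g • x = x → g = 1 := fun k g x hx =>
    R.free k g x.1 (Prod.ext_iff.1 hx).1
  -- the function on the product
  let F : R.X p × Q → M := fun w => (show Q →₀ M from f w.1) w.2
  have hFE : K5_Eq Γ F := by
    rintro g ⟨x, q⟩
    change (show Q →₀ M from f (g • x)) (g • q) = g • (show Q →₀ M from f x) q
    rw [hf g x]
    change (show Q →₀ M from g • f x) (g • q) = _
    rw [tw_smul_apply, inv_smul_smul]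
  have hFS : K5_FS Γ F := by
    obtain ⟨s, hs⟩ := R.fin p
    refine ⟨s.biUnion fun e => (show Q →₀ M from f e).support.image fun q => (e, q), ?_⟩
    rintro ⟨x, q⟩ hx
    obtain ⟨g, e, he, rfl⟩ := hs x
    refine ⟨g, (e, g⁻¹ • q), Finset.mem_biUnion.2 ⟨e, he, Finset.mem_image_of_mem _ ?_⟩, ?_⟩
    · rw [Finsupp.mem_support_iff]
      intro h0
      apply hx
      have h1 := hFE g (e, g⁻¹ • q)
      have h2 : g • ((e, g⁻¹ • q) : R.X p × Q) = (g • e, q) := by
        change (g • e, g • g⁻¹ • q) = _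
        rw [smul_inv_smul]
      rw [h2] at h1
      rw [h1]
      change g • (show Q →₀ M from f e) (g⁻¹ • q) = 0
      rw [h0, smul_zero]
    · change (g • e, g • g⁻¹ • q) = _
      rw [smul_inv_smul]
  -- the operators `z⁻¹ - 1`
  let A : Q → M →+ M := fun q => DistribSMul.toAddMonoidHom M (z q)⁻¹ - AddMonoidHom.id M
  have hAa : ∀ q m, A q m = (z q)⁻¹ • m - m := fun q m => rfl
  have hAb : ∀ q, Function.Bijective (A q) := by
    intro q
    have h1 : ∀ m, A q m = (z q)⁻¹ • (-(z q • m - m)) := by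
      intro m
      rw [hAa, neg_sub, smul_sub, inv_smul_smul]
    constructor
    · intro m m' e
      rw [h1, h1] at e
      exact (hinv q).1 (neg_injective (MulAction.injective (z q)⁻¹ e))
    · intro m
      obtain ⟨m', hm'⟩ := (hinv q).2 (-(z q • m))
      refine ⟨m', ?_⟩
      have hm'' : z q • m' - m' = -(z q • m) := hm'
      rw [h1, hm'', neg_neg, inv_smul_smul]
  let E : Q → M ≃+ M := fun q => AddEquiv.ofBijective (A q) (hAb q)
  have hEa : ∀ q m, E q m = (z q)⁻¹ • m - m := fun q m => rfl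
  have hEg : ∀ (g : Γ) (q : Q) (m : M), E (g • q) (g • m) = g • E q m := by
    intro g q m
    rw [hEa, hEa, hzg, smul_sub]
    congr 1
    rw [mul_inv_rev, mul_inv_rev, inv_inv, ← mul_smul, ← mul_smul]
    congr 1
    group
  have hEs : ∀ (g : Γ) (q : Q) (m : M), (E (g • q)).symm (g • m) = g • (E q).symm m := by
    intro g q m
    rw [AddEquiv.symm_apply_eq, hEg, AddEquiv.apply_symm_apply]
  -- the basic identity
  have hdh : Eqv Γ (K5_up (fun q => R.d p ∘ₗ h p q)) := by
    apply K5_up_eqv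
    intro g q c
    rw [LinearMap.comp_apply, LinearMap.comp_apply, hh, R.d_act]
  have hbasic : ∀ w, K5_psh (K5_up (fun q => R.d p ∘ₗ h p q)) F w + F w =
      (z w.2)⁻¹ • F w := by
    rintro ⟨y, q⟩
    have hid : ∀ {k : ℕ} (G : R.X k × Q → M) (w : R.X k × Q),
        K5_psh (K5_up (fun _ : Q => (LinearMap.id : ZMap (R.X k) (R.X k)))) G w = G w := by
      rintro k G ⟨y, q⟩
      rw [K5_psh_up, finsum_eq_single _ y]
      · simp [mc]
      · intro x hx
        have : mc (LinearMap.id : ZMap (R.X k) (R.X k)) x y = 0 := by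
          unfold mc
          rw [LinearMap.id_apply, Finsupp.single_apply, if_neg hx]
        rw [this, zero_smul]
    have hidE : Eqv Γ (K5_up (fun _ : Q => (LinearMap.id : ZMap (R.X p) (R.X p)))) :=
      K5_up_eqv (fun g q c => rfl)
    have hzF : K5_psh (K5_up (fun q => (gact (z q) : ZMap (R.X p) (R.X p)))) F (y, q) =
        (z q)⁻¹ • F (y, q) := by
      rw [K5_psh_up, finsum_eq_single _ ((z q)⁻¹ • y)]
      · have h1 : mc (gact (z q) : ZMap (R.X p) (R.X p)) ((z q)⁻¹ • y) y = 1 := by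
          unfold mc
          rw [gact_single, smul_inv_smul, Finsupp.single_eq_same]
        rw [h1, one_smul, ← hFE]
        congr 1
        change _ = ((z q)⁻¹ • y, (z q)⁻¹ • q)
        rw [inv_smul_eq_iff.2 (hz q).symm]
      · intro x hx
        have h1 : mc (gact (z q) : ZMap (R.X p) (R.X p)) x y = 0 := by
          unfold mc
          rw [gact_single, Finsupp.single_apply, if_neg]
          intro h0
          exact hx (by rw [← h0, inv_smul_smul])
        rw [h1, zero_smul]
    cases p with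
    | zero =>
      have e : (fun q => (gact (z q) : ZMap (R.X 0) (R.X 0))) =
          fun q => R.d 0 ∘ₗ h 0 q + LinearMap.id := by
        funext q
        refine LinearMap.ext fun c => ?_
        rw [LinearMap.add_apply, LinearMap.comp_apply, hh0, LinearMap.id_apply, sub_add_cancel]
      rw [← hzF, e, K5_up_add (fun q => R.d 0 ∘ₗ h 0 q) (fun _ => LinearMap.id),
        K5_psh_add (hfree 0) hdh hidE hFS, hid]
    | succ p =>
      have hhE : Eqv Γ (K5_up (fun q => h p q ∘ₗ R.d p)) := by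
        apply K5_up_eqv
        intro g q c
        rw [LinearMap.comp_apply, LinearMap.comp_apply, R.d_act, hh]
      have hsE : Eqv Γ (K5_up (fun q => R.d (p + 1) ∘ₗ h (p + 1) q) +
          K5_up (fun _ : Q => (LinearMap.id : ZMap (R.X (p + 1)) (R.X (p + 1))))) := by
        intro g c
        rw [LinearMap.add_apply, LinearMap.add_apply, map_add, hdh, hidE]
      have e : (fun q => (gact (z q) : ZMap (R.X (p + 1)) (R.X (p + 1)))) =
          fun q => (R.d (p + 1) ∘ₗ h (p + 1) q + LinearMap.id) + h p q ∘ₗ R.d p := by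
        funext q
        refine LinearMap.ext fun c => ?_
        rw [LinearMap.add_apply, LinearMap.add_apply, LinearMap.comp_apply, hhd,
          LinearMap.id_apply, LinearMap.comp_apply]
        abel
      have hdE : Eqv Γ (K5_up (fun _ : Q => R.d p)) := K5_up_eqv (fun g q c => R.d_act p g c)
      have hz0 : K5_psh (K5_up (fun _ : Q => R.d p)) F = 0 := by
        funext w
        obtain ⟨y, q⟩ := w
        rw [K5_psh_up]
        have h1 := congrArg (fun t : Q →₀ M => t q) (congrFun hcyc y)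
        have h2 := AddMonoidHom.map_finsum (Finsupp.applyAddHom q : (Q →₀ M) →+ M)
          (f := fun x : R.X (p + 1) => R.coef p x y • (show Q →₀ M from f x))
          ((R.finite_coef_right p y).subset fun x hx => by
            rw [Function.mem_support] at hx
            intro h0
            exact hx (by rw [h0, zero_smul]))
        have h3 : (Finsupp.applyAddHom q : (Q →₀ M) →+ M)
            (∑ᶠ x : R.X (p + 1), R.coef p x y • (show Q →₀ M from f x)) = 0 := h1
        rw [h2] at h3
        exact h3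
      rw [← hzF, e, K5_up_add (fun q => R.d (p + 1) ∘ₗ h (p + 1) q + LinearMap.id)
        (fun q => h p q ∘ₗ R.d p), K5_up_add (fun q => R.d (p + 1) ∘ₗ h (p + 1) q)
        (fun _ => LinearMap.id), K5_psh_add (hfree (p + 1)) hsE hhE hFS,
        K5_psh_add (hfree (p + 1)) hdh hidE hFS, hid, K5_up_comp (fun _ => R.d p) (h p),
        K5_psh_comp (hfree (p + 1)) (hfree p) hdE (K5_up_eqv (hh p)) hFS, hz0]
      have h0 : K5_psh (K5_up (h p)) (0 : R.X p × Q → M) (y, q) = 0 := by
        unfold K5_psh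
        simp
      rw [h0, add_zero]
  -- the solution
  let G0 : R.X (p + 1) × Q → M := K5_psh (K5_up (h p)) F
  have hG0E : K5_Eq Γ G0 := K5_psh_Eq (hfree (p + 1)) (K5_up_eqv (hh p)) hFS hFE
  have hG0S : K5_FS Γ G0 := K5_psh_FS (K5_up_eqv (hh p)) hFS
  have hG0 : ∀ y q, ∑ᶠ x, R.coef p x y • G0 (x, q) = E q (F (y, q)) := by
    intro y q
    have h1 := K5_psh_comp (hfree p) (hfree (p + 1)) (K5_up_eqv (hh p))
      (K5_up_eqv (A := fun _ : Q => R.d p) (fun g q c => R.d_act p g c)) hFS (y, q)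
    rw [← K5_up_comp (h p) (fun _ => R.d p), K5_psh_up (fun _ => R.d p)] at h1
    have h2 := hbasic (y, q)
    rw [h1] at h2
    exact eq_sub_of_add_eq h2
  have hfinG : ∀ x : R.X (p + 1), {q | G0 (x, q) ≠ 0}.Finite := by
    intro x
    obtain ⟨s, hs⟩ := hG0S
    have hfin : ∀ e : R.X (p + 1) × Q, {q : Q | ∃ g : Γ, g • e.1 = x ∧ q = g • e.2}.Finite := by
      intro e
      refine Set.Subsingleton.finite ?_
      rintro q ⟨g, hg, rfl⟩ q' ⟨g', hg', rfl⟩
      rw [R.eq_of_smul_eq (hg.trans hg'.symm)]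
    refine (s.finite_toSet.biUnion (fun e _ => hfin e)).subset ?_
    intro q hq
    obtain ⟨g, e, he, hge⟩ := hs _ hq
    exact Set.mem_biUnion (Finset.mem_coe.2 he)
      ⟨g, (Prod.ext_iff.1 hge).1, (Prod.ext_iff.1 hge).2.symm⟩
  let f' : R.X (p + 1) → TW Q M := fun x =>
    (Finsupp.ofSupportFinite (fun q => (E q).symm (G0 (x, q)))
      ((hfinG x).subset fun q hq h0 => hq (by
        change (E q).symm (G0 (x, q)) = 0
        rw [h0, map_zero])) : Q →₀ M)
  have hf'a : ∀ x q, (show Q →₀ M from f' x) q = (E q).symm (G0 (x, q)) := fun x q => rfl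
  refine ⟨f', ?_, ?_⟩
  · intro g x
    refine Finsupp.ext fun q => ?_
    change (show Q →₀ M from f' (g • x)) q = (show Q →₀ M from g • f' x) q
    rw [tw_smul_apply, hf'a, hf'a]
    have h1 := hG0E g (x, g⁻¹ • q)
    have h2 : g • ((x, g⁻¹ • q) : R.X (p + 1) × Q) = (g • x, q) := by
      change (g • x, g • g⁻¹ • q) = _
      rw [smul_inv_smul]
    rw [h2] at h1
    rw [h1, ← hEs, smul_inv_smul]
  · funext y
    refine Finsupp.ext fun q => ?_
    have h2 := AddMonoidHom.map_finsum (Finsupp.applyAddHom q : (Q →₀ M) →+ M)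
      (f := fun x : R.X (p + 1) => R.coef p x y • (show Q →₀ M from f' x))
      ((R.finite_coef_right p y).subset fun x hx => by
        rw [Function.mem_support] at hx
        intro h0
        exact hx (by rw [h0, zero_smul]))
    have h3 : (show Q →₀ M from bdM R p f' y) q =
        ∑ᶠ x : R.X (p + 1), R.coef p x y • (E q).symm (G0 (x, q)) := h2
    have h4 := AddMonoidHom.map_finsum (E q).symm.toAddMonoidHom
      (f := fun x : R.X (p + 1) => R.coef p x y • G0 (x, q))
      ((R.finite_coef_right p y).subset fun x hx => by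
        rw [Function.mem_support] at hx
        intro h0
        exact hx (by rw [h0, zero_smul]))
    rw [hG0] at h4
    have h5 : (E q).symm.toAddMonoidHom (E q (F (y, q))) = F (y, q) := (E q).symm_apply_apply _
    rw [h5] at h4
    change (show Q →₀ M from bdM R p f' y) q = F (y, q)
    rw [h3, h4]
    refine finsum_congr fun x => ?_
    exact (map_zsmul (E q).symm.toAddMonoidHom (R.coef p x y) (G0 (x, q))).symm

theorem HV_set_of_central (R : FreeRes.{u, v} Γ) (Q : Type w)
    [MulAction Γ Q] (z : Q → Γ) (hz : ∀ q, z q • q = q) (hzg : ∀ g q, z (g • q) = g * z q * g⁻¹)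
    (hinf : ∀ q (n : ℕ), z q ^ n = 1 → n = 0) (p : ℕ) :
    HV (MonoidHom.id Γ) R (TW Q (UM Γ)) p := by
  refine HV_set_of_central_gen R Q (UM Γ) z hz hzg (fun q => ?_) p
  obtain ⟨U, hU⟩ := K5_unit (hinf q)
  have h1 : (fun m : UM Γ => z q • m - m) = fun m => m * (U : UM Γ) := by
    funext m
    rw [hU, op_sub, map_sub, op_one, map_one, mul_sub, mul_one]
    rfl
  rw [h1]
  exact Units.mulRight_bijective U

theorem K5_HV_central (R : FreeRes.{u, v} Γ) (z : Γ)
    (hz : ∀ g, g * z = z * g) (hinf : ∀ n : ℕ, z ^ n = 1 → n = 0) (k : ℕ) :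
    HV (MonoidHom.id Γ) R (UM Γ) k := by
  classical
  have h1 := HV_set_of_central R PUnit.{1} (fun _ => z) (fun _ => rfl)
    (fun g _ => by rw [hz, mul_inv_cancel_right]) (fun _ => hinf) k
  intro f hf hcyc
  let F : R.X k → TW PUnit.{1} (UM Γ) := fun x => (single PUnit.unit (f x) : PUnit.{1} →₀ UM Γ)
  have hval : ∀ (j : ℕ) (G : R.X (j + 1) → TW PUnit.{1} (UM Γ)) (y : R.X j),
      (show PUnit.{1} →₀ UM Γ from bdM R j G y) PUnit.unit =
        ∑ᶠ x, R.coef j x y • (show PUnit.{1} →₀ UM Γ from G x) PUnit.unit := by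
    intro j G y
    exact AddMonoidHom.map_finsum (Finsupp.applyAddHom PUnit.unit : (PUnit.{1} →₀ UM Γ) →+ UM Γ)
      (f := fun x : R.X (j + 1) => R.coef j x y • (show PUnit.{1} →₀ UM Γ from G x))
      ((R.finite_coef_right j y).subset fun x hx => by
        rw [Function.mem_support] at hx
        intro h0
        exact hx (by rw [h0, zero_smul]))
  have hFa : ∀ x, (show PUnit.{1} →₀ UM Γ from F x) PUnit.unit = f x := fun x =>
    Finsupp.single_eq_same
  have hFE : IsEq (MonoidHom.id Γ) R (TW PUnit.{1} (UM Γ)) k F := by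
    intro g x
    refine Finsupp.ext fun q => ?_
    change (show PUnit.{1} →₀ UM Γ from F (g • x)) q = (show PUnit.{1} →₀ UM Γ from g • F x) q
    rw [tw_smul_apply]
    change (show PUnit.{1} →₀ UM Γ from F (g • x)) PUnit.unit =
      g • (show PUnit.{1} →₀ UM Γ from F x) PUnit.unit
    rw [hFa, hFa]
    exact hf g x
  have hFC : CycM R k F := by
    cases k with
    | zero => trivial
    | succ k =>
      funext y
      refine Finsupp.ext fun q => ?_
      change (show PUnit.{1} →₀ UM Γ from bdM R k F y) PUnit.unit = 0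
      rw [hval, finsum_congr fun x => by rw [hFa x]]
      exact congrFun hcyc y
  obtain ⟨G, hGE, hG⟩ := h1 F hFE hFC
  refine ⟨fun x => (show PUnit.{1} →₀ UM Γ from G x) PUnit.unit, ?_, ?_⟩
  · intro g x
    change (show PUnit.{1} →₀ UM Γ from G (g • x)) PUnit.unit = _
    rw [hGE g x]
    change (show PUnit.{1} →₀ UM Γ from g • G x) PUnit.unit = _
    rw [tw_smul_apply]
    rfl
  · funext y
    have h2 := hval k G y
    have h3 : (show PUnit.{1} →₀ UM Γ from bdM R k G y) PUnit.unit = f y :=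
      (congrArg (fun t : PUnit.{1} →₀ UM Γ => t PUnit.unit) (congrFun hG y)).trans (hFa y)
    exact h2.symm.trans h3

theorem harmZero_of_central (R : FreeRes.{u, v} Γ) (z : Γ)
    (hz : ∀ g, g * z = z * g) (hinf : ∀ n : ℕ, z ^ n = 1 → n = 0) (k : ℕ) :
    R.HarmZero ℝ k :=
  harmZero_of_HV R k (K5_HV_central R z hz hinf k)

end hom

end GP

end OS
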