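import Mathlib
import Pool.Agent.Lib.MP_8fe54c_gt.GPDefs

/-!
# PROJECT K, module K9: the cubical complex
-/

namespace OS

namespace GP

open Finsupp MulOpposite

universe u v w u' v' w'

section K9aux

variable {V : Type v} [LinearOrder V]

theorem K9_sgn_erase_lt {τ : Finset V} {u v : V} (hu : u ∈ τ) (huv : u < v) :
    sgnV (τ.erase u) v = - sgnV τ v := by
  unfold sgnV
  have h1 : (τ.erase u).filter (fun x => x < v) = (τ.filter (fun x => x < v)).erase u := by
    ext x; simp only [Finset.mem_filter, Finset.mem_erase]; tauto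
  have h2 : u ∈ τ.filter (fun x => x < v) := Finset.mem_filter.2 ⟨hu, huv⟩
  rw [h1, ← Finset.card_erase_add_one h2, pow_succ]
  ring

theorem K9_sgn_erase_gt {τ : Finset V} {u v : V} (huv : u < v) :
    sgnV (τ.erase v) u = sgnV τ u := by
  unfold sgnV
  congr 2
  ext x
  simp only [Finset.mem_filter, Finset.mem_erase]
  constructor
  · rintro ⟨⟨_, h⟩, h'⟩; exact ⟨h, h'⟩
  · rintro ⟨h, h'⟩
    exact ⟨⟨fun e => absurd (e ▸ h' : v < u) (not_lt.2 huv.le), h⟩, h'⟩

theorem K9_sgn_anti {τ : Finset V} {u v : V} (hu : u ∈ τ) (hv : v ∈ τ) (huv : u ≠ v) :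
    sgnV (τ.erase u) v * sgnV τ u = - (sgnV (τ.erase v) u * sgnV τ v) := by
  rcases lt_or_gt_of_ne huv with h | h
  · rw [K9_sgn_erase_lt hu h, K9_sgn_erase_gt h]; ring
  · rw [K9_sgn_erase_lt hv h, K9_sgn_erase_gt h]; ring

/-- the same with explicit sets -/
theorem K9_anti {A B C : Finset V} {u v : V} (hu : u ∈ A) (hv : v ∈ A) (huv : u ≠ v)
    (hB : B = A.erase u) (hC : C = A.erase v) :
    sgnV B v * sgnV A u = - (sgnV C u * sgnV A v) := by
  rw [hB, hC]
  exact K9_sgn_anti hu hv huv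

/-- an antisymmetric double sum vanishes -/
theorem K9_double {M : Type*} [AddCommGroup M] (s : Finset V) (f : V → V → M)
    (hf : ∀ a ∈ s, ∀ b ∈ s, a ≠ b → f a b = - f b a) :
    ∑ a ∈ s, ∑ b ∈ s.erase a, f a b = 0 := by
  induction s using Finset.induction_on with
  | empty => simp
  | insert c s hc ih =>
    have h1 : ∀ a ∈ s, ∑ b ∈ (insert c s).erase a, f a b = f a c + ∑ b ∈ s.erase a, f a b := by
      intro a ha
      have hne : c ≠ a := fun h => hc (h ▸ ha)
      rw [Finset.erase_insert_of_ne hne, Finset.sum_insert (fun h => hc (Finset.mem_of_mem_erase h))]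
    rw [Finset.sum_insert hc, Finset.erase_insert hc, Finset.sum_congr rfl h1,
      Finset.sum_add_distrib, ih (fun a ha b hb => hf a (Finset.mem_insert_of_mem ha) b
        (Finset.mem_insert_of_mem hb)), add_zero, ← Finset.sum_add_distrib]
    refine Finset.sum_eq_zero fun b hb => ?_
    rw [hf c (Finset.mem_insert_self c s) b (Finset.mem_insert_of_mem hb)
      (fun h => hc (h ▸ hb)), neg_add_cancel]

end K9aux

section K9

variable {V : Type v} (S : CSys.{v, w} V) {A : Type*} [AddCommGroup A]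

theorem K9_qm_qm {σ τ υ : Finset V} (h : σ ⊆ τ) (h' : τ ⊆ υ) (f : S.Q σ →₀ A) :
    qm S h' (qm S h f) = qm S (h.trans h') f := by
  unfold qm
  change mapDomain (S.pr h') (mapDomain (S.pr h) f) = mapDomain (S.pr (h.trans h')) f
  rw [← mapDomain_comp]
  congr 1
  funext x
  exact S.pr_comp h h' x

theorem K9_qm_congr (x : CC S A) {σ ρ ρ' τ : Finset V} (h : ρ ⊆ σ) (h' : ρ' ⊆ σ) (he : ρ = ρ') :
    qm S h (x ρ τ) = qm S h' (x ρ' τ) := by
  subst he
  rfl

variable [Fintype V] [LinearOrder V]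

theorem K9_cd_pos (x : CC S A) {σ τ : Finset V} (h : σ ⊆ τ) :
    cd S x σ τ = (∑ v ∈ τᶜ, sgnV (insert v τ \ σ) v • x σ (insert v τ)) -
      ∑ v ∈ σ, sgnV (insert v (τ \ σ)) v • qm S (Finset.erase_subset v σ) (x (σ.erase v) τ) := by
  unfold cd
  rw [if_pos h]

theorem K9_cd_neg (x : CC S A) {σ τ : Finset V} (h : ¬ σ ⊆ τ) : cd S x σ τ = 0 := by
  unfold cd
  rw [if_neg h]

theorem K9_cd_cd (x : CC S A) : cd S (cd S x) = 0 := by
  funext σ τ
  change cd S (cd S x) σ τ = 0
  by_cases h : σ ⊆ τ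
  swap
  · exact K9_cd_neg S _ h
  rw [K9_cd_pos S _ h]
  have e1 : ∀ v ∈ τᶜ, sgnV (insert v τ \ σ) v • cd S x σ (insert v τ) =
      (∑ w ∈ τᶜ.erase v, (sgnV (insert v τ \ σ) v * sgnV (insert w (insert v τ) \ σ) w) •
        x σ (insert w (insert v τ))) -
      ∑ w ∈ σ, (sgnV (insert v τ \ σ) v * sgnV (insert w (insert v τ \ σ)) w) •
        qm S (Finset.erase_subset w σ) (x (σ.erase w) (insert v τ)) := by
    intro v _
    rw [K9_cd_pos S _ (h.trans (Finset.subset_insert v τ)), smul_sub, Finset.smul_sum,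
      Finset.smul_sum, Finset.compl_insert]
    simp only [smul_smul]
  have e2 : ∀ v ∈ σ, sgnV (insert v (τ \ σ)) v •
      qm S (Finset.erase_subset v σ) (cd S x (σ.erase v) τ) =
      (∑ w ∈ τᶜ, (sgnV (insert v (τ \ σ)) v * sgnV (insert w τ \ σ.erase v) w) •
        qm S (Finset.erase_subset v σ) (x (σ.erase v) (insert w τ))) -
      ∑ w ∈ σ.erase v, (sgnV (insert v (τ \ σ)) v * sgnV (insert w (τ \ σ.erase v)) w) •
        qm S ((Finset.erase_subset w (σ.erase v)).trans (Finset.erase_subset v σ))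
          (x ((σ.erase v).erase w) τ) := by
    intro v _
    rw [K9_cd_pos S _ ((Finset.erase_subset v σ).trans h), map_sub, smul_sub, map_sum, map_sum,
      Finset.smul_sum, Finset.smul_sum]
    simp only [map_zsmul, smul_smul, K9_qm_qm]
  rw [Finset.sum_congr rfl e1, Finset.sum_congr rfl e2, Finset.sum_sub_distrib,
    Finset.sum_sub_distrib]
  -- first double sum
  have z1 : ∑ v ∈ τᶜ, ∑ w ∈ τᶜ.erase v,
      (sgnV (insert v τ \ σ) v * sgnV (insert w (insert v τ) \ σ) w) •
        x σ (insert w (insert v τ)) = 0 := by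
    refine K9_double _ _ fun v hv w hw hvw => ?_
    rw [Finset.mem_compl] at hv hw
    rw [Finset.insert_comm v w τ, ← neg_smul]
    congr 1
    refine K9_anti (A := insert w (insert v τ) \ σ) ?_ ?_ (Ne.symm hvw) ?_ ?_
    · simp only [Finset.mem_sdiff, Finset.mem_insert, true_or, true_and]
      exact fun h' => hw (h h')
    · simp only [Finset.mem_sdiff, Finset.mem_insert, true_or, or_true, true_and]
      exact fun h' => hv (h h')
    · ext y
      simp only [Finset.mem_sdiff, Finset.mem_insert, Finset.mem_erase]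
      constructor
      · rintro ⟨h1, h2⟩
        refine ⟨?_, Or.inr h1, h2⟩
        rintro rfl
        rcases h1 with h1 | h1
        · exact hvw h1.symm
        · exact hw h1
      · rintro ⟨h1, h2 | h2, h3⟩
        · exact absurd h2 h1
        · exact ⟨h2, h3⟩
    · ext y
      simp only [Finset.mem_sdiff, Finset.mem_insert, Finset.mem_erase]
      constructor
      · rintro ⟨h1, h2⟩
        refine ⟨?_, ?_, h2⟩
        · rintro rfl
          rcases h1 with h1 | h1
          · exact hvw h1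
          · exact hv h1
        · rcases h1 with h1 | h1
          · exact Or.inl h1
          · exact Or.inr (Or.inr h1)
      · rintro ⟨h1, h2 | h2 | h2, h3⟩
        · exact ⟨Or.inl h2, h3⟩
        · exact absurd h2 h1
        · exact ⟨Or.inr h2, h3⟩
  -- last double sum
  have z4 : ∑ v ∈ σ, ∑ w ∈ σ.erase v,
      (sgnV (insert v (τ \ σ)) v * sgnV (insert w (τ \ σ.erase v)) w) •
        qm S ((Finset.erase_subset w (σ.erase v)).trans (Finset.erase_subset v σ))
          (x ((σ.erase v).erase w) τ) = 0 := by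
    refine K9_double _ _ fun v hv w hw hvw => ?_
    rw [K9_qm_congr S x _ ((Finset.erase_subset v (σ.erase w)).trans (Finset.erase_subset w σ))
      (Finset.erase_right_comm (a := v) (b := w) (s := σ)), ← neg_smul]
    congr 1
    have hA : insert w (τ \ σ.erase v) = insert v (insert w (τ \ σ)) := by
      ext y
      simp only [Finset.mem_sdiff, Finset.mem_insert, Finset.mem_erase]
      constructor
      · rintro (h1 | ⟨h1, h2⟩)
        · exact Or.inr (Or.inl h1)
        · by_cases hy : y = v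
          · exact Or.inl hy
          · exact Or.inr (Or.inr ⟨h1, fun h3 => h2 ⟨hy, h3⟩⟩)
      · rintro (h1 | h1 | ⟨h1, h2⟩)
        · refine Or.inr ⟨h1 ▸ h hv, fun h2 => h2.1 h1⟩
        · exact Or.inl h1
        · exact Or.inr ⟨h1, fun h3 => h2 h3.2⟩
    have hA' : insert v (τ \ σ.erase w) = insert v (insert w (τ \ σ)) := by
      ext y
      simp only [Finset.mem_sdiff, Finset.mem_insert, Finset.mem_erase]
      constructor
      · rintro (h1 | ⟨h1, h2⟩)
        · exact Or.inl h1
        · by_cases hy : y = w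
          · exact Or.inr (Or.inl hy)
          · exact Or.inr (Or.inr ⟨h1, fun h3 => h2 ⟨hy, h3⟩⟩)
      · rintro (h1 | h1 | ⟨h1, h2⟩)
        · exact Or.inl h1
        · refine Or.inr ⟨h1 ▸ h hw, fun h2 => h2.1 h1⟩
        · exact Or.inr ⟨h1, fun h3 => h2 h3.2⟩
    rw [hA, hA']
    refine K9_anti (A := insert v (insert w (τ \ σ))) ?_ ?_ (Ne.symm hvw) ?_ ?_
    · simp
    · simp
    · rw [Finset.erase_insert_of_ne hvw, Finset.erase_insert (by simp [hw])]
    · rw [Finset.erase_insert]
      simp only [Finset.mem_insert, Finset.mem_sdiff, not_or, not_and, not_not]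
      exact ⟨hvw, fun _ => hv⟩
  -- the mixed sums
  have z3 : ∑ v ∈ τᶜ, ∑ w ∈ σ, (sgnV (insert v τ \ σ) v * sgnV (insert w (insert v τ \ σ)) w) •
        qm S (Finset.erase_subset w σ) (x (σ.erase w) (insert v τ)) +
      ∑ v ∈ σ, ∑ w ∈ τᶜ, (sgnV (insert v (τ \ σ)) v * sgnV (insert w τ \ σ.erase v) w) •
        qm S (Finset.erase_subset v σ) (x (σ.erase v) (insert w τ)) = 0 := by
    rw [Finset.sum_comm, ← Finset.sum_add_distrib]
    refine Finset.sum_eq_zero fun w hw => ?_
    rw [← Finset.sum_add_distrib]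
    refine Finset.sum_eq_zero fun v hv => ?_
    rw [Finset.mem_compl] at hv
    rw [← add_smul]
    have hvσ : v ∉ σ := fun h' => hv (h h')
    have hvw : v ≠ w := fun h' => hvσ (h' ▸ hw)
    have hA : insert v τ \ σ.erase w = insert w (insert v τ \ σ) := by
      ext y
      simp only [Finset.mem_sdiff, Finset.mem_insert, Finset.mem_erase]
      constructor
      · rintro ⟨h1, h2⟩
        by_cases hy : y = w
        · exact Or.inl hy
        · exact Or.inr ⟨h1, fun h3 => h2 ⟨hy, h3⟩⟩
      · rintro (h1 | ⟨h1, h2⟩)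
        · exact ⟨Or.inr (h1 ▸ h hw), fun h2 => h2.1 h1⟩
        · exact ⟨h1, fun h3 => h2 h3.2⟩
    rw [hA]
    have key := K9_anti (A := insert w (insert v τ \ σ)) (B := insert v τ \ σ)
      (C := insert w (τ \ σ)) (u := w) (v := v) (by simp) (by simp [hvσ]) (Ne.symm hvw)
      (by rw [Finset.erase_insert (by simp [hw])])
      (by
        ext y
        simp only [Finset.mem_sdiff, Finset.mem_insert, Finset.mem_erase]
        constructor
        · rintro (h1 | ⟨h1, h2⟩)
          · exact ⟨fun h2 => hvw (h2.symm.trans h1), Or.inl h1⟩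
          · exact ⟨fun h3 => hv (h3 ▸ h1), Or.inr ⟨Or.inr h1, h2⟩⟩
        · rintro ⟨h1, h2 | ⟨h2 | h2, h3⟩⟩
          · exact Or.inl h2
          · exact absurd h2 h1
          · exact Or.inr ⟨h2, h3⟩)
    rw [key, neg_add_cancel, zero_smul]
  rw [z1, z4]
  have := z3
  rw [add_eq_zero_iff_eq_neg] at this
  rw [this]
  abel

end K9

/-! ## K9 (file KCd): the cubical complex -/

section cdfacts

variable {V : Type v} [Fintype V] [LinearOrder V] (S : CSys.{v, w} V) (Lc : Finset V → Prop)
  (hdown : ∀ s t, s ⊆ t → Lc t → Lc s)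

include hdown

theorem cd_cSup {A : Type*} [AddCommGroup A] (q : ℕ) (x : CC S A) (hx : CSup Lc (q + 1) x) :
    CSup Lc q (cd S x) := by
  intro σ τ hne
  by_cases h : σ ⊆ τ
  swap
  · exact K9_cd_neg S _ h
  rw [K9_cd_pos S _ h]
  have e1 : ∀ v ∈ τᶜ, sgnV (insert v τ \ σ) v • x σ (insert v τ) = 0 := by
    intro v hv
    rw [Finset.mem_compl] at hv
    rw [hx σ (insert v τ), smul_zero]
    rintro ⟨_, h2, h3⟩
    refine hne ⟨h, hdown τ (insert v τ) (Finset.subset_insert v τ) h2, ?_⟩
    have hvσ : v ∉ σ := fun h' => hv (h h')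
    rw [Finset.insert_sdiff_of_notMem _ hvσ, Finset.card_insert_of_notMem (by simp [hv])] at h3
    omega
  have e2 : ∀ v ∈ σ, sgnV (insert v (τ \ σ)) v •
      qm S (Finset.erase_subset v σ) (x (σ.erase v) τ) = 0 := by
    intro v hv
    rw [hx (σ.erase v) τ, map_zero, smul_zero]
    rintro ⟨_, h2, h3⟩
    refine hne ⟨h, h2, ?_⟩
    have hs : τ \ σ.erase v = insert v (τ \ σ) := Finset.sdiff_erase (h hv)
    rw [hs, Finset.card_insert_of_notMem (by simp [hv])] at h3
    omega
  rw [Finset.sum_eq_zero e1, Finset.sum_eq_zero e2, sub_zero]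

theorem cd_cd {A : Type*} [AddCommGroup A] (q : ℕ) (x : CC S A) (hx : CSup Lc (q + 2) x) :
    cd S (cd S x) = 0 :=
  K9_cd_cd S x

theorem aug_cd {A : Type*} [AddCommGroup A] (x : CC S A) (hx : CSup Lc 1 x) :
    (∑ σ : Finset V, (cd S x σ σ).sum fun _ a => a) = 0 := by
  have hE : ∀ {X : Type w} (f : X →₀ A), (f.sum fun _ a => a) =
      (Finsupp.liftAddHom fun _ : X => AddMonoidHom.id A) f := fun f => rfl
  have hq : ∀ {σ τ : Finset V} (h : σ ⊆ τ) (f : S.Q σ →₀ A),
      (Finsupp.liftAddHom fun _ : S.Q τ => AddMonoidHom.id A) (qm S h f) =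
        (Finsupp.liftAddHom fun _ : S.Q σ => AddMonoidHom.id A) f := by
    intro σ τ h f
    rw [← hE, ← hE]
    exact Finsupp.sum_mapDomain_index (fun _ => rfl) (fun _ _ _ => rfl)
  have e1 : ∀ σ : Finset V, ((cd S x σ σ).sum fun _ a => a) =
      (∑ v ∈ σᶜ, (x σ (insert v σ)).sum fun _ a => a) -
        ∑ v ∈ σ, (x (σ.erase v) σ).sum fun _ a => a := by
    intro σ
    rw [K9_cd_pos S _ (Finset.Subset.refl σ), hE, map_sub, map_sum, map_sum]
    congr 1
    · refine Finset.sum_congr rfl fun v hv => ?_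
      rw [Finset.mem_compl] at hv
      have hs : insert v σ \ σ = {v} := by
        ext y
        simp only [Finset.mem_sdiff, Finset.mem_insert, Finset.mem_singleton]
        constructor
        · rintro ⟨h1 | h1, h2⟩
          · exact h1
          · exact absurd h1 h2
        · rintro rfl
          exact ⟨Or.inl rfl, hv⟩
      have hsg : sgnV ({v} : Finset V) v = 1 := by
        simp [sgnV, Finset.filter_singleton]
      rw [map_zsmul, hs, hsg, one_smul, hE]
    · refine Finset.sum_congr rfl fun v hv => ?_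
      have hs : insert v (σ \ σ) = {v} := by simp
      have hsg : sgnV ({v} : Finset V) v = 1 := by
        simp [sgnV, Finset.filter_singleton]
      rw [map_zsmul, hs, hsg, one_smul, hq, hE]
  rw [Finset.sum_congr rfl fun σ _ => e1 σ, Finset.sum_sub_distrib, sub_eq_zero]
  rw [Finset.sum_sigma', Finset.sum_sigma']
  refine Finset.sum_bij' (fun p _ => ⟨insert p.2 p.1, p.2⟩) (fun p _ => ⟨p.1.erase p.2, p.2⟩)
    ?_ ?_ ?_ ?_ ?_
  · rintro ⟨σ, v⟩ h
    simp
  · rintro ⟨σ, v⟩ h
    simp
  · rintro ⟨σ, v⟩ h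
    simp only [Finset.mem_sigma, Finset.mem_compl] at h
    simp [Finset.erase_insert h.2]
  · rintro ⟨σ, v⟩ h
    simp only [Finset.mem_sigma] at h
    simp [Finset.insert_erase h.2]
  · rintro ⟨σ, v⟩ h
    simp only [Finset.mem_sigma, Finset.mem_compl] at h
    simp only
    rw [Finset.erase_insert h.2]

end cdfacts

theorem cd_add {V : Type v} [Fintype V] [LinearOrder V] (S : CSys.{v, w} V) {A : Type*}
    [AddCommGroup A] (x y : CC S A) : cd S (x + y) = cd S x + cd S y := by
  funext σ τ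
  change cd S (x + y) σ τ = cd S x σ τ + cd S y σ τ
  by_cases h : σ ⊆ τ
  · rw [K9_cd_pos S _ h, K9_cd_pos S _ h, K9_cd_pos S _ h]
    have h1 : ∀ v ∈ τᶜ, sgnV (insert v τ \ σ) v • (x + y) σ (insert v τ) =
        sgnV (insert v τ \ σ) v • x σ (insert v τ) + sgnV (insert v τ \ σ) v • y σ (insert v τ) :=
      fun v _ => smul_add _ _ _
    have h2 : ∀ v ∈ σ, sgnV (insert v (τ \ σ)) v •
        qm S (Finset.erase_subset v σ) ((x + y) (σ.erase v) τ) =
        sgnV (insert v (τ \ σ)) v • qm S (Finset.erase_subset v σ) (x (σ.erase v) τ) +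
        sgnV (insert v (τ \ σ)) v • qm S (Finset.erase_subset v σ) (y (σ.erase v) τ) := by
      intro v _
      rw [← smul_add, ← map_add]
      rfl
    rw [Finset.sum_congr rfl h1, Finset.sum_congr rfl h2, Finset.sum_add_distrib,
      Finset.sum_add_distrib]
    abel
  · rw [K9_cd_neg S _ h, K9_cd_neg S _ h, K9_cd_neg S _ h, add_zero]

/-- equivariance; `g • x` is the componentwise diagonal action -/
theorem cd_twAct {V : Type v} [Fintype V] [LinearOrder V] (S : CSys.{v, w} V) {Γ : Type v'}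
    [Group Γ] [∀ σ, MulAction Γ (S.Q σ)]
    (hS : ∀ (g : Γ) {σ τ : Finset V} (h : σ ⊆ τ) (x : S.Q σ), S.pr h (g • x) = g • S.pr h x)
    {A : Type*} [AddCommGroup A] [DistribMulAction Γ A] (g : Γ) (x : CC S A) :
    cd S (fun σ τ => twAct g (x σ τ)) = fun σ τ => twAct g (cd S x σ τ) := by
  have hq : ∀ {σ τ : Finset V} (h : σ ⊆ τ) (f : S.Q σ →₀ A),
      qm S h (twAct g f) = twAct g (qm S h f) := by
    intro σ τ h f
    induction f using Finsupp.induction_linear with
    | zero => simp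
    | add f f' ih ih' => rw [map_add, map_add, map_add, map_add, ih, ih']
    | single e a =>
      simp only [qm, twAct, AddMonoidHom.comp_apply, Finsupp.mapDomain.addMonoidHom_apply,
        Finsupp.mapRange.addMonoidHom_apply, Finsupp.mapRange_single, Finsupp.mapDomain_single, hS]
  obtain ⟨y, hy⟩ : ∃ y : CC S A, y = fun σ τ => twAct g (x σ τ) := ⟨_, rfl⟩
  have hy' : ∀ σ τ, y σ τ = twAct g (x σ τ) := fun σ τ => by rw [hy]
  rw [← hy]
  funext σ τ
  change cd S y σ τ = twAct g (cd S x σ τ)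
  by_cases h : σ ⊆ τ
  · rw [K9_cd_pos S _ h, K9_cd_pos S _ h, map_sub, map_sum, map_sum]
    simp only [map_zsmul, hy', hq]
  · rw [K9_cd_neg S _ h, K9_cd_neg S _ h, map_zero]

/-- the lemma for K10: below the filtration degree the boundary vanishes -/
theorem K9_cd_lt {V : Type v} [Fintype V] [LinearOrder V] (S : CSys.{v, w} V)
    {A : Type*} [AddCommGroup A] (i : ℕ) (x : CC S A)
    (hx : ∀ σ τ, σ.card < i → x σ τ = 0) {σ τ : Finset V} (h : σ.card < i) :
    cd S x σ τ = 0 := by
  by_cases hs : σ ⊆ τ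
  · rw [K9_cd_pos S _ hs]
    have e1 : ∀ v ∈ τᶜ, sgnV (insert v τ \ σ) v • x σ (insert v τ) = 0 := by
      intro v _
      rw [hx σ _ h, smul_zero]
    have e2 : ∀ v ∈ σ, sgnV (insert v (τ \ σ)) v •
        qm S (Finset.erase_subset v σ) (x (σ.erase v) τ) = 0 := by
      intro v _
      rw [hx (σ.erase v) τ ((Finset.card_le_card (Finset.erase_subset v σ)).trans_lt h),
        map_zero, smul_zero]
    rw [Finset.sum_eq_zero e1, Finset.sum_eq_zero e2, sub_zero]
  · exact K9_cd_neg S _ hs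

/-- the lemma for K10: in the filtration degree only the first sum survives -/
theorem K9_cd_eq {V : Type v} [Fintype V] [LinearOrder V] (S : CSys.{v, w} V)
    {A : Type*} [AddCommGroup A] (i : ℕ) (x : CC S A)
    (hx : ∀ σ τ, σ.card < i → x σ τ = 0) {σ τ : Finset V} (h : σ.card = i) (hs : σ ⊆ τ) :
    cd S x σ τ = ∑ v ∈ τᶜ, sgnV (insert v τ \ σ) v • x σ (insert v τ) := by
  rw [K9_cd_pos S _ hs]
  have e2 : ∀ v ∈ σ, sgnV (insert v (τ \ σ)) v •
      qm S (Finset.erase_subset v σ) (x (σ.erase v) τ) = 0 := by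
    intro v hv
    rw [hx (σ.erase v) τ ((Finset.card_lt_card (Finset.erase_ssubset hv)).trans_eq h),
      map_zero, smul_zero]
  rw [Finset.sum_eq_zero e2, sub_zero]

end GP

end OS
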