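import Mathlib
import Pool.Agent.Lib.MP_8fe54c_gt.GPDefs
import Pool.Agent.Lib.MP_8fe54c_gt.RankTwo

/-!
# K7: the tensor product of a free resolution with a simplicial complex
-/

namespace OS

namespace GP

open Finsupp MulOpposite

universe u v w u' v' w'

set_option linter.unusedSectionVars false

/-! ## linear algebra -/

theorem K7_ginv {E F : Type*} [AddCommGroup E] [Module ℝ E] [AddCommGroup F] [Module ℝ F]
    (D : E →ₗ[ℝ] F) : ∃ g : F →ₗ[ℝ] E, ∀ x, D (g (D x)) = D x := by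
  obtain ⟨k, hk⟩ := D.rangeRestrict.exists_rightInverse_of_surjective
    (LinearMap.range_rangeRestrict D)
  obtain ⟨π, hπ⟩ := (LinearMap.range D).subtype.exists_leftInverse_of_injective
    (Submodule.ker_subtype _)
  refine ⟨k ∘ₗ π, fun x => ?_⟩
  have h1 : π (D x) = ⟨D x, LinearMap.mem_range_self D x⟩ :=
    LinearMap.congr_fun hπ ⟨D x, LinearMap.mem_range_self D x⟩
  have h2 : D.rangeRestrict (k ⟨D x, LinearMap.mem_range_self D x⟩) =
      ⟨D x, LinearMap.mem_range_self D x⟩ := LinearMap.congr_fun hk _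
  rw [LinearMap.comp_apply, h1]
  exact congrArg Subtype.val h2

/-- linear algebra -/
theorem exists_deformation {E : ℕ → Type u} [∀ q, AddCommGroup (E q)] [∀ q, Module ℝ (E q)]
    (D : ∀ q, E (q + 1) →ₗ[ℝ] E q) (hD : ∀ q x, D q (D (q + 1) x) = 0) :
    ∃ (h : ∀ q, E q →ₗ[ℝ] E (q + 1)) (P : ∀ q, E q →ₗ[ℝ] E q),
      (∀ x, x - P 0 x = D 0 (h 0 x)) ∧
      (∀ q x, x - P (q + 1) x = D (q + 1) (h (q + 1) x) + h q (D q x)) ∧
      (∀ q x, D q (P (q + 1) x) = 0) ∧
      (∀ q, (∀ x, D q x = 0 → ∃ y, D (q + 1) y = x) → P (q + 1) = 0) ∧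
      ((∀ x, ∃ y, D 0 y = x) → P 0 = 0) := by
  choose g hg using fun q => K7_ginv (D q)
  let f : ∀ q, E q →ₗ[ℝ] E q := fun q => match q with
    | 0 => 0
    | q + 1 => g q ∘ₗ D q
  have hf0 : ∀ x, f 0 x = 0 := fun _ => rfl
  have hf : ∀ q x, f (q + 1) x = g q (D q x) := fun _ _ => rfl
  have hfD : ∀ q x, f q (D q x) = 0 := by
    intro q x
    cases q with
    | zero => rfl
    | succ q => rw [hf, hD, map_zero]
  refine ⟨fun q => g q ∘ₗ (LinearMap.id - f q),
    fun q => (LinearMap.id - D q ∘ₗ g q) ∘ₗ (LinearMap.id - f q), ?_, ?_, ?_, ?_, ?_⟩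
  · intro x
    simp [hf0]
  · intro q x
    simp only [LinearMap.comp_apply, LinearMap.sub_apply, LinearMap.id_apply, hf, hfD, map_sub,
      sub_zero]
    abel
  · intro q x
    simp only [LinearMap.comp_apply, LinearMap.sub_apply, LinearMap.id_apply, hf, map_sub,
      hg, hD, sub_self]
  · intro q hex
    refine LinearMap.ext fun x => ?_
    have h1 : D q (x - g q (D q x)) = 0 := by rw [map_sub, hg, sub_self]
    obtain ⟨y, hy⟩ := hex _ h1
    simp only [LinearMap.comp_apply, LinearMap.sub_apply, LinearMap.id_apply, hf,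
      LinearMap.zero_apply]
    rw [← hy, hg, sub_self]
  · intro hex
    refine LinearMap.ext fun x => ?_
    obtain ⟨y, hy⟩ := hex x
    simp only [LinearMap.comp_apply, LinearMap.sub_apply, LinearMap.id_apply, hf0,
      LinearMap.zero_apply, sub_zero]
    rw [← hy, hg, sub_self]

/-! ## real linear maps acting on functions with values in a real vector space -/

section mact

variable {I : Type*} [Fintype I] [DecidableEq I] {J : Type*} [Fintype J] [DecidableEq J]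
  {L : Type*} {N : Type*} [AddCommGroup N] [Module ℝ N]

/-- a real linear map acting on `N`-valued functions -/
noncomputable def K7_mact (A : (I → ℝ) →ₗ[ℝ] (J → ℝ)) (t : I → N) (ρ : J) : N :=
  ∑ τ, A (Pi.single τ 1) ρ • t τ

theorem K7_sum_single (A : (J → ℝ) →ₗ[ℝ] (L → ℝ)) (z : J → ℝ) (ρ : L) :
    A z ρ = ∑ σ, A (Pi.single σ 1) ρ * z σ := by
  have h1 : z = ∑ σ, z σ • (Pi.single σ (1 : ℝ) : J → ℝ) := by
    conv_lhs => rw [← Finset.univ_sum_single z]
    refine Finset.sum_congr rfl fun σ _ => ?_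
    rw [← Pi.single_smul, smul_eq_mul, mul_one]
  conv_lhs => rw [h1]
  rw [map_sum, Finset.sum_apply]
  refine Finset.sum_congr rfl fun σ _ => ?_
  rw [map_smul, Pi.smul_apply, smul_eq_mul, mul_comm]

variable [Fintype L] [DecidableEq L]

theorem K7_mact_comp (A : (J → ℝ) →ₗ[ℝ] (L → ℝ)) (B : (I → ℝ) →ₗ[ℝ] (J → ℝ)) (t : I → N) (ρ : L) :
    K7_mact A (K7_mact B t) ρ = K7_mact (A ∘ₗ B) t ρ := by
  unfold K7_mact
  simp only [Finset.smul_sum, smul_smul]
  rw [Finset.sum_comm]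
  refine Finset.sum_congr rfl fun τ _ => ?_
  rw [← Finset.sum_smul, LinearMap.comp_apply, K7_sum_single A]

theorem K7_mact_add (A : (I → ℝ) →ₗ[ℝ] (J → ℝ)) (t t' : I → N) (ρ : J) :
    K7_mact A (fun τ => t τ + t' τ) ρ = K7_mact A t ρ + K7_mact A t' ρ := by
  unfold K7_mact
  simp only [smul_add, Finset.sum_add_distrib]

theorem K7_mact_int (A : (I → ℝ) →ₗ[ℝ] (J → ℝ)) (n : ℤ) (t : I → N) (ρ : J) :
    K7_mact A (fun τ => n • t τ) ρ = n • K7_mact A t ρ := by
  unfold K7_mact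
  rw [Finset.smul_sum]
  exact Finset.sum_congr rfl fun τ _ => smul_comm _ _ _

theorem K7_mact_zero (A : (I → ℝ) →ₗ[ℝ] (J → ℝ)) (ρ : J) :
    K7_mact A (fun _ => (0 : N)) ρ = 0 := by
  unfold K7_mact
  simp

theorem K7_mact_map_zero (t : I → N) (ρ : J) :
    K7_mact (0 : (I → ℝ) →ₗ[ℝ] (J → ℝ)) t ρ = 0 := by
  unfold K7_mact
  simp

theorem K7_mact_map_add (A B : (I → ℝ) →ₗ[ℝ] (J → ℝ)) (t : I → N) (ρ : J) :
    K7_mact (A + B) t ρ = K7_mact A t ρ + K7_mact B t ρ := by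
  unfold K7_mact
  simp only [LinearMap.add_apply, Pi.add_apply, add_smul, Finset.sum_add_distrib]

theorem K7_mact_map_sub (A B : (I → ℝ) →ₗ[ℝ] (J → ℝ)) (t : I → N) (ρ : J) :
    K7_mact (A - B) t ρ = K7_mact A t ρ - K7_mact B t ρ := by
  unfold K7_mact
  simp only [LinearMap.sub_apply, Pi.sub_apply, sub_smul, Finset.sum_sub_distrib]

theorem K7_mact_id (t : I → N) (ρ : I) :
    K7_mact (LinearMap.id : (I → ℝ) →ₗ[ℝ] (I → ℝ)) t ρ = t ρ := by
  unfold K7_mact
  rw [Finset.sum_eq_single_of_mem ρ (Finset.mem_univ _)]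
  · simp
  · intro τ _ h
    rw [LinearMap.id_apply, Pi.single_eq_of_ne (Ne.symm h), zero_smul]

end mact

/-! ## the boundary commutes with real linear maps -/

section bd

variable {Γ : Type v} [Group Γ] (R : FreeRes.{u, v} Γ) {N : Type w} [AddCommGroup N]

theorem K7_bdM_eq (k : ℕ) (f : R.X (k + 1) → N) (y : R.X k) :
    bdM R k f y = ∑ x ∈ (R.finite_coef_right k y).toFinset, R.coef k x y • f x := by
  unfold bdM
  refine finsum_eq_sum_of_support_subset _ fun x hx => ?_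
  rw [Set.Finite.coe_toFinset, Set.mem_ofPred_eq]
  intro h0
  rw [Function.mem_support, h0, zero_smul] at hx
  exact hx rfl

theorem K7_bdM_add (k : ℕ) (f f' : R.X (k + 1) → N) (y : R.X k) :
    bdM R k (fun x => f x + f' x) y = bdM R k f y + bdM R k f' y := by
  simp only [K7_bdM_eq, smul_add, Finset.sum_add_distrib]

theorem K7_bdM_int (k : ℕ) (n : ℤ) (f : R.X (k + 1) → N) (y : R.X k) :
    bdM R k (fun x => n • f x) y = n • bdM R k f y := by
  simp only [K7_bdM_eq, Finset.smul_sum]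
  exact Finset.sum_congr rfl fun x _ => smul_comm _ _ _

theorem K7_bdM_zero (k : ℕ) (y : R.X k) : bdM R k (fun _ => (0 : N)) y = 0 := by
  simp [K7_bdM_eq]

variable [Module ℝ N] {I : Type*} [Fintype I] [DecidableEq I] {J : Type*} [Fintype J]
  [DecidableEq J]

theorem K7_bdM_mact (k : ℕ) (A : (I → ℝ) →ₗ[ℝ] (J → ℝ)) (S : I → R.X (k + 1) → N) (ρ : J)
    (y : R.X k) : bdM R k (fun x => K7_mact A (fun τ => S τ x) ρ) y =
      K7_mact A (fun τ => bdM R k (S τ) y) ρ := by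
  simp only [K7_bdM_eq, K7_mact, Finset.smul_sum]
  rw [Finset.sum_comm]
  exact Finset.sum_congr rfl fun τ _ => Finset.sum_congr rfl fun x _ => smul_comm _ _ _

end bd

/-! ## the abstract statement -/

section abs

variable {Γ : Type v} [Group Γ] (R : FreeRes.{u, v} Γ) {N : Type w} [AddCommGroup N] [Module ℝ N]
  {I : ℕ → Type w'} [∀ q, Fintype (I q)] [∀ q, DecidableEq (I q)]

/-- the total differential -/
noncomputable def K7_tot (D : ∀ q, (I (q + 1) → ℝ) →ₗ[ℝ] (I q → ℝ))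
    (S : ∀ p q, I q → R.X p → N) (p q : ℕ) (ρ : I q) (x : R.X p) : N :=
  bdM R p (S (p + 1) q ρ) x + (-1 : ℤ) ^ p • K7_mact (D q) (fun τ => S p (q + 1) τ x) ρ

/-- the homotopy -/
noncomputable def K7_hom (h : ∀ q, (I q → ℝ) →ₗ[ℝ] (I (q + 1) → ℝ))
    (S : ∀ p q, I q → R.X p → N) (p : ℕ) : ∀ q, I q → R.X p → N
  | 0, _, _ => 0
  | q + 1, ρ, x => (-1 : ℤ) ^ p • K7_mact (h q) (fun τ => S p q τ x) ρ

/-- the projection -/
noncomputable def K7_map (P : ∀ q, (I q → ℝ) →ₗ[ℝ] (I q → ℝ))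
    (S : ∀ p q, I q → R.X p → N) (p q : ℕ) (ρ : I q) (x : R.X p) : N :=
  K7_mact (P q) (fun τ => S p q τ x) ρ

theorem K7_neg_pow (p : ℕ) (y : N) : (-1 : ℤ) ^ p • (-1 : ℤ) ^ p • y = y := by
  rw [smul_smul, ← mul_pow]
  norm_num

variable {R}

theorem K7_homotopy {D : ∀ q, (I (q + 1) → ℝ) →ₗ[ℝ] (I q → ℝ)}
    {h : ∀ q, (I q → ℝ) →ₗ[ℝ] (I (q + 1) → ℝ)} {P : ∀ q, (I q → ℝ) →ₗ[ℝ] (I q → ℝ)}
    (h1 : ∀ x, x - P 0 x = D 0 (h 0 x))
    (h2 : ∀ q x, x - P (q + 1) x = D (q + 1) (h (q + 1) x) + h q (D q x))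
    (S : ∀ p q, I q → R.X p → N) (hS : ∀ p q ρ x, K7_tot R D S p q ρ x = 0) (p q : ℕ) (ρ : I q)
    (x : R.X p) :
    K7_tot R D (K7_hom R h S) p q ρ x = S p q ρ x - K7_map R P S p q ρ x := by
  cases q with
  | zero =>
    have e1 : K7_tot R D (K7_hom R h S) p 0 ρ x = bdM R p (fun _ => (0 : N)) x + (-1 : ℤ) ^ p •
        K7_mact (D 0) (fun τ => (-1 : ℤ) ^ p • K7_mact (h 0) (fun τ => S p 0 τ x) τ) ρ := rfl
    rw [e1, K7_bdM_zero, zero_add, K7_mact_int, K7_neg_pow, K7_mact_comp]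
    have e2 : D 0 ∘ₗ h 0 = LinearMap.id - P 0 := by
      refine LinearMap.ext fun x => ?_
      rw [LinearMap.comp_apply, ← h1]
      rfl
    rw [e2, K7_mact_map_sub, K7_mact_id]
    rfl
  | succ q =>
    have e1 : K7_tot R D (K7_hom R h S) p (q + 1) ρ x =
        bdM R p (fun x => (-1 : ℤ) ^ (p + 1) • K7_mact (h q) (fun τ => S (p + 1) q τ x) ρ) x +
        (-1 : ℤ) ^ p • K7_mact (D (q + 1))
          (fun τ => (-1 : ℤ) ^ p • K7_mact (h (q + 1)) (fun τ => S p (q + 1) τ x) τ) ρ := rfl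
    have e3 : K7_mact (h q) (fun τ => K7_tot R D S p q τ x) ρ = 0 := by
      have : (fun τ => K7_tot R D S p q τ x) = fun _ => (0 : N) := funext fun τ => hS p q τ x
      rw [this, K7_mact_zero]
    have e4 : K7_mact (h q) (fun τ => K7_tot R D S p q τ x) ρ =
        K7_mact (h q) (fun τ => bdM R p (S (p + 1) q τ) x) ρ +
        (-1 : ℤ) ^ p • K7_mact (h q ∘ₗ D q) (fun τ => S p (q + 1) τ x) ρ := by
      rw [← K7_mact_comp, ← K7_mact_int, ← K7_mact_add]
      rfl
    rw [e4] at e3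
    have e5 : K7_mact (h q) (fun τ => bdM R p (S (p + 1) q τ) x) ρ =
        -((-1 : ℤ) ^ p • K7_mact (h q ∘ₗ D q) (fun τ => S p (q + 1) τ x) ρ) :=
      eq_neg_of_add_eq_zero_left e3
    rw [e1, K7_bdM_int, K7_bdM_mact, e5, K7_mact_int, K7_neg_pow, K7_mact_comp, pow_succ,
      mul_neg_one, neg_smul, smul_neg, neg_neg, K7_neg_pow]
    have e2 : D (q + 1) ∘ₗ h (q + 1) = LinearMap.id - P (q + 1) - h q ∘ₗ D q := by
      refine LinearMap.ext fun x => ?_
      rw [LinearMap.comp_apply, LinearMap.sub_apply, LinearMap.sub_apply, LinearMap.comp_apply,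
        LinearMap.id_apply, h2]
      abel
    rw [e2, K7_mact_map_sub, K7_mact_map_sub, K7_mact_id]
    change _ = S p (q + 1) ρ x - K7_mact (P (q + 1)) (fun τ => S p (q + 1) τ x) ρ
    abel

/-- exactness -/
def K7_ex (D : ∀ q, (I (q + 1) → ℝ) →ₗ[ℝ] (I q → ℝ)) : ℕ → Prop
  | 0 => ∀ x, ∃ y, D 0 y = x
  | q + 1 => ∀ x, D q x = 0 → ∃ y, D (q + 1) y = x

variable [DistribMulAction Γ N] [SMulCommClass Γ ℝ N]

theorem K7_isEq_mact {J J' : Type*} [Fintype J] [DecidableEq J] [Fintype J'] [DecidableEq J']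
    {p : ℕ} (A : (J → ℝ) →ₗ[ℝ] (J' → ℝ)) (S : J → R.X p → N)
    (hS : ∀ τ, IsEq (MonoidHom.id Γ) R N p (S τ)) (ρ : J') :
    IsEq (MonoidHom.id Γ) R N p (fun x => K7_mact A (fun τ => S τ x) ρ) := by
  intro g x
  unfold K7_mact
  rw [Finset.smul_sum]
  refine Finset.sum_congr rfl fun τ _ => ?_
  change A (Pi.single τ 1) ρ • S τ (g • x) = _
  rw [hS τ g x]
  exact (smul_comm _ _ _).symm

theorem K7_isEq_int {p : ℕ} (n : ℤ) (f : R.X p → N) (hf : IsEq (MonoidHom.id Γ) R N p f) :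
    IsEq (MonoidHom.id Γ) R N p (fun x => n • f x) := by
  intro g x
  change n • f (g • x) = _
  rw [hf g x]
  exact (smul_comm _ _ _)

theorem K7_isEq_add {p : ℕ} (f f' : R.X p → N) (hf : IsEq (MonoidHom.id Γ) R N p f)
    (hf' : IsEq (MonoidHom.id Γ) R N p f') :
    IsEq (MonoidHom.id Γ) R N p (fun x => f x + f' x) := by
  intro g x
  change f (g • x) + f' (g • x) = _
  rw [hf g x, hf' g x, smul_add]

theorem K7_isEq_zero (p : ℕ) : IsEq (MonoidHom.id Γ) R N p (fun _ => 0) := by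
  intro g x
  exact (smul_zero _).symm

theorem K7_isEq_hom (h : ∀ q, (I q → ℝ) →ₗ[ℝ] (I (q + 1) → ℝ)) (S : ∀ p q, I q → R.X p → N)
    (hS : ∀ p q ρ, IsEq (MonoidHom.id Γ) R N p (S p q ρ)) (p q : ℕ) (ρ : I q) :
    IsEq (MonoidHom.id Γ) R N p (K7_hom R h S p q ρ) := by
  cases q with
  | zero => exact K7_isEq_zero p
  | succ q => exact K7_isEq_int _ _ (K7_isEq_mact (h q) (S p q) (hS p q) ρ)

theorem K7_abs (D : ∀ q, (I (q + 1) → ℝ) →ₗ[ℝ] (I q → ℝ)) (hD : ∀ q x, D q (D (q + 1) x) = 0)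
    (T : ∀ p q, I q → R.X p → N) (hT : ∀ p q ρ, IsEq (MonoidHom.id Γ) R N p (T p q ρ))
    (hc : ∀ p q ρ x, K7_tot R D T p q ρ x = 0)
    (hv : ∀ p q, HV (MonoidHom.id Γ) R N p ∨ K7_ex D q ∨ ∀ ρ x, T p q ρ x = 0) :
    ∃ S : ∀ p q, I q → R.X p → N, (∀ p q ρ, IsEq (MonoidHom.id Γ) R N p (S p q ρ)) ∧
      ∀ p q ρ x, K7_tot R D S p q ρ x = T p q ρ x := by
  obtain ⟨h, P, h1, h2, h3, h4, h5⟩ :=
    exists_deformation (E := fun q => I q → ℝ) D hD
  have hDhD : ∀ q x, D q (h q (D q x)) = D q x := by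
    intro q x
    have e := congrArg (D q) (h2 q x)
    rw [map_sub, h3, sub_zero, map_add, hD, zero_add] at e
    exact e.symm
  have hPD : ∀ q, P q ∘ₗ D q = 0 := by
    intro q
    refine LinearMap.ext fun x => ?_
    rw [LinearMap.comp_apply, LinearMap.zero_apply]
    cases q with
    | zero =>
      have e := h1 (D 0 x)
      rw [hDhD] at e
      exact sub_eq_self.1 e
    | succ q =>
      have e := h2 q (D (q + 1) x)
      rw [hDhD, hD, map_zero, add_zero] at e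
      exact sub_eq_self.1 e
  have hDP : ∀ q, D q ∘ₗ P (q + 1) = 0 := by
    intro q
    refine LinearMap.ext fun x => ?_
    rw [LinearMap.comp_apply, LinearMap.zero_apply, h3]
  -- the projection of `T`
  set PT := K7_map R P T with hPT
  have hPTeq : ∀ p q ρ, IsEq (MonoidHom.id Γ) R N p (PT p q ρ) :=
    fun p q ρ => K7_isEq_mact (P q) (T p q) (hT p q) ρ
  have hbd : ∀ p q ρ x, bdM R p (PT (p + 1) q ρ) x = 0 := by
    intro p q ρ x
    have e1 : bdM R p (PT (p + 1) q ρ) x =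
        K7_mact (P q) (fun τ => bdM R p (T (p + 1) q τ) x) ρ :=
      K7_bdM_mact R p (P q) (T (p + 1) q) ρ x
    have e2 : (fun τ => bdM R p (T (p + 1) q τ) x) =
        fun τ => (-(-1 : ℤ) ^ p) • K7_mact (D q) (fun τ => T p (q + 1) τ x) τ := by
      funext τ
      rw [neg_smul]
      exact eq_neg_of_add_eq_zero_left (hc p q τ x)
    rw [e1, e2, K7_mact_int, K7_mact_comp, hPD, K7_mact_map_zero, smul_zero]
  have hPTc : ∀ p q ρ x, K7_tot R D PT p q ρ x = 0 := by
    intro p q ρ x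
    have e1 : K7_tot R D PT p q ρ x = bdM R p (PT (p + 1) q ρ) x + (-1 : ℤ) ^ p •
      K7_mact (D q) (K7_mact (P (q + 1)) (fun τ => T p (q + 1) τ x)) ρ := rfl
    rw [e1, hbd, K7_mact_comp, hDP, K7_mact_map_zero, smul_zero, add_zero]
  -- lifting
  have hlift : ∀ p q (ρ : I q), ∃ s : R.X (p + 1) → N, IsEq (MonoidHom.id Γ) R N (p + 1) s ∧
      bdM R p s = PT p q ρ := by
    intro p q ρ
    have hzero : (∀ x, PT p q ρ x = 0) → ∃ s : R.X (p + 1) → N,
        IsEq (MonoidHom.id Γ) R N (p + 1) s ∧ bdM R p s = PT p q ρ := by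
      intro hz
      refine ⟨fun _ => 0, K7_isEq_zero (p + 1), ?_⟩
      funext x
      rw [K7_bdM_zero, hz]
    rcases hv p q with hp | hq | hT0
    · refine hp (PT p q ρ) (hPTeq p q ρ) ?_
      cases p with
      | zero => trivial
      | succ p => exact funext fun x => hbd p q ρ x
    · apply hzero
      intro x
      have hP0 : P q = 0 := by
        cases q with
        | zero => exact h5 hq
        | succ q => exact h4 q hq
      have e1 : PT p q ρ x = K7_mact (P q) (fun τ => T p q τ x) ρ := rfl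
      rw [e1, hP0, K7_mact_map_zero]
    · apply hzero
      intro x
      have e1 : PT p q ρ x = K7_mact (P q) (fun τ => T p q τ x) ρ := rfl
      have e2 : (fun τ => T p q τ x) = fun _ => (0 : N) := funext fun τ => hT0 τ x
      rw [e1, e2, K7_mact_zero]
  choose s' hs1 hs2 using hlift
  let S' : ∀ p q, I q → R.X p → N := fun p => match p with
    | 0 => fun _ _ _ => 0
    | p + 1 => fun q ρ => s' p q ρ
  have hS'eq : ∀ p q ρ, IsEq (MonoidHom.id Γ) R N p (S' p q ρ) := by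
    intro p q ρ
    cases p with
    | zero => exact K7_isEq_zero 0
    | succ p => exact hs1 p q ρ
  have hS' : ∀ p q ρ x, bdM R p (S' (p + 1) q ρ) x = PT p q ρ x :=
    fun p q ρ x => congrFun (hs2 p q ρ) x
  refine ⟨fun p q ρ x => K7_map R P S' p q ρ x + (K7_hom R h PT p q ρ x + K7_hom R h T p q ρ x),
    ?_, ?_⟩
  · intro p q ρ
    exact K7_isEq_add _ _ (K7_isEq_mact (P q) (S' p q) (hS'eq p q) ρ)
      (K7_isEq_add _ _ (K7_isEq_hom h PT hPTeq p q ρ) (K7_isEq_hom h T hT p q ρ))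
  · intro p q ρ x
    have hadd : ∀ A B : ∀ p q, I q → R.X p → N,
        K7_tot R D (fun p q ρ x => A p q ρ x + B p q ρ x) p q ρ x =
          K7_tot R D A p q ρ x + K7_tot R D B p q ρ x := by
      intro A B
      have e1 : K7_tot R D (fun p q ρ x => A p q ρ x + B p q ρ x) p q ρ x =
          bdM R p (fun x => A (p + 1) q ρ x + B (p + 1) q ρ x) x +
          (-1 : ℤ) ^ p • K7_mact (D q) (fun τ => A p (q + 1) τ x + B p (q + 1) τ x) ρ := rfl
      rw [e1, K7_bdM_add, K7_mact_add, smul_add]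
      unfold K7_tot
      abel
    rw [hadd (K7_map R P S') (fun p q ρ x => K7_hom R h PT p q ρ x + K7_hom R h T p q ρ x),
      hadd (K7_hom R h PT) (K7_hom R h T), K7_homotopy h1 h2 PT hPTc, K7_homotopy h1 h2 T hc]
    have e1 : K7_tot R D (K7_map R P S') p q ρ x =
        bdM R p (fun x => K7_mact (P q) (fun τ => S' (p + 1) q τ x) ρ) x + (-1 : ℤ) ^ p •
      K7_mact (D q) (K7_mact (P (q + 1)) (fun τ => S' p (q + 1) τ x)) ρ := rfl
    have e2 : (fun τ => bdM R p (S' (p + 1) q τ) x) = fun τ => PT p q τ x :=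
      funext fun τ => hS' p q τ x
    rw [e1, K7_bdM_mact, e2, K7_mact_comp, hDP, K7_mact_map_zero, smul_zero, add_zero]
    change K7_mact (P q) (fun τ => PT p q τ x) ρ + (PT p q ρ x -
      K7_mact (P q) (fun τ => PT p q τ x) ρ + (T p q ρ x - PT p q ρ x)) = T p q ρ x
    abel

end abs

/-! ## the simplicial complex -/

section simp

variable {V : Type*} [Fintype V] [LinearOrder V]

/-- the simplices with `q` elements -/
abbrev K7_Ix (K : Finset V → Prop) (q : ℕ) := {τ : Finset V // K τ ∧ τ.card = q}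

/-- the boundary of real functions on finite sets -/
noncomputable def K7_dd (z : Finset V → ℝ) (s : Finset V) : ℝ :=
  ∑ v ∈ sᶜ, (sgnV (insert v s) v : ℝ) * z (insert v s)

theorem K7_dd_dd (z : Finset V → ℝ) (s : Finset V) : K7_dd (K7_dd z) s = 0 := by
  set F : V → V → ℝ := fun v w => if v = w then 0 else
    (sgnV (insert v s) v : ℝ) * ((sgnV (insert w (insert v s)) w : ℝ) *
      z (insert w (insert v s))) with hF
  have h1 : K7_dd (K7_dd z) s = ∑ v ∈ sᶜ, ∑ w ∈ sᶜ, F v w := by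
    unfold K7_dd
    refine Finset.sum_congr rfl fun v hv => ?_
    rw [Finset.mem_compl] at hv
    have h2 : (insert v s)ᶜ = sᶜ.erase v := by
      ext w
      simp only [Finset.mem_compl, Finset.mem_insert, Finset.mem_erase]
      tauto
    rw [h2, Finset.mul_sum, ← Finset.add_sum_erase sᶜ (F v) (Finset.mem_compl.2 hv)]
    have h3 : F v v = 0 := by rw [hF]; simp
    rw [h3, zero_add]
    refine Finset.sum_congr rfl fun w hw => ?_
    rw [Finset.mem_erase] at hw
    rw [hF]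
    simp only
    rw [if_neg (Ne.symm hw.1)]
  have h4 : ∀ v ∈ sᶜ, ∀ w ∈ sᶜ, F v w = - F w v := by
    intro v hv w hw
    rw [Finset.mem_compl] at hv hw
    by_cases hvw : v = w
    · rw [hF]
      simp only
      rw [if_pos hvw, if_pos hvw.symm, neg_zero]
    · rw [hF]
      simp only
      rw [if_neg hvw, if_neg (Ne.symm hvw)]
      have h5 : insert v (insert w s) = insert w (insert v s) := Finset.insert_comm v w s
      rw [h5]
      set τ := insert w (insert v s) with hτ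
      have hvτ : v ∈ τ := by simp [hτ]
      have hwτ : w ∈ τ := by simp [hτ]
      have h6 := sgnV_anti hvτ hwτ hvw
      have h7 : τ.erase v = insert w s := by
        rw [hτ, Finset.insert_comm, Finset.erase_insert]
        simp only [Finset.mem_insert]
        tauto
      have h8 : τ.erase w = insert v s := by
        rw [hτ, Finset.erase_insert]
        simp only [Finset.mem_insert]
        tauto
      rw [h7, h8] at h6
      have h9 : (sgnV τ v : ℝ) * (sgnV (insert w s) w : ℝ) +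
          (sgnV τ w : ℝ) * (sgnV (insert v s) v : ℝ) = 0 := by exact_mod_cast h6
      linear_combination z τ * h9
  have h5 : ∑ v ∈ sᶜ, ∑ w ∈ sᶜ, F v w = - ∑ v ∈ sᶜ, ∑ w ∈ sᶜ, F v w := by
    conv_lhs => rw [Finset.sum_congr rfl fun v hv => Finset.sum_congr rfl fun w hw => h4 v hv w hw]
    rw [Finset.sum_comm]
    simp only [Finset.sum_neg_distrib]
  rw [h1]
  linarith

open Classical in
/-- extension by zero -/
noncomputable def K7_ext {K : Finset V → Prop} {q : ℕ} {N : Type*} [Zero N] (z : K7_Ix K q → N)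
    (s : Finset V) : N := if h : K s ∧ s.card = q then z ⟨s, h⟩ else 0

theorem K7_ext_pos {K : Finset V → Prop} {q : ℕ} {N : Type*} [Zero N] (z : K7_Ix K q → N)
    (ρ : K7_Ix K q) : K7_ext z ρ.1 = z ρ := by
  unfold K7_ext
  rw [dif_pos ρ.2]

theorem K7_ext_neg {K : Finset V → Prop} {q : ℕ} {N : Type*} [Zero N] (z : K7_Ix K q → N)
    {s : Finset V} (h : ¬ (K s ∧ s.card = q)) : K7_ext z s = 0 := by
  unfold K7_ext
  rw [dif_neg h]

noncomputable instance K7_fintype (K : Finset V → Prop) (q : ℕ) : Fintype (K7_Ix K q) :=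
  Fintype.ofFinite _

/-- the boundary -/
noncomputable def K7_D (K : Finset V → Prop) (q : ℕ) :
    (K7_Ix K (q + 1) → ℝ) →ₗ[ℝ] (K7_Ix K q → ℝ) where
  toFun z ρ := K7_dd (K7_ext z) ρ.1
  map_add' z z' := by
    have h : ∀ s, K7_ext (z + z') s = K7_ext z s + K7_ext z' s := by
      intro s
      unfold K7_ext
      split_ifs <;> simp
    funext ρ
    simp only [K7_dd, h, mul_add, Finset.sum_add_distrib, Pi.add_apply]
  map_smul' a z := by
    have h : ∀ s, K7_ext (a • z) s = a * K7_ext z s := by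
      intro s
      unfold K7_ext
      split_ifs <;> simp
    funext ρ
    simp only [K7_dd, h, Finset.mul_sum, Pi.smul_apply, smul_eq_mul, RingHom.id_apply]
    exact Finset.sum_congr rfl fun v _ => by ring

variable {K : Finset V → Prop} (hK : ∀ s t, s ⊆ t → K t → K s)

include hK

theorem K7_ext_D (q : ℕ) (z : K7_Ix K (q + 1) → ℝ) (s : Finset V) :
    K7_ext (K7_D K q z) s = K7_dd (K7_ext z) s := by
  by_cases h : K s ∧ s.card = q
  · exact K7_ext_pos (K7_D K q z) ⟨s, h⟩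
  · rw [K7_ext_neg _ h]
    unfold K7_dd
    symm
    refine Finset.sum_eq_zero fun v hv => ?_
    rw [Finset.mem_compl] at hv
    rw [K7_ext_neg, mul_zero]
    rintro ⟨h1, h2⟩
    rw [Finset.card_insert_of_notMem hv] at h2
    exact h ⟨hK _ _ (Finset.subset_insert v s) h1, by omega⟩

theorem K7_D_D (q : ℕ) (z : K7_Ix K (q + 1 + 1) → ℝ) : K7_D K q (K7_D K (q + 1) z) = 0 := by
  funext ρ
  rw [← K7_ext_pos (K7_D K q (K7_D K (q + 1) z)) ρ, K7_ext_D hK]
  have h : K7_ext (K7_D K (q + 1) z) = K7_dd (K7_ext z) := funext fun s => K7_ext_D hK _ z s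
  rw [h, K7_dd_dd]
  rfl

theorem K7_ex_of_rac (q : ℕ) (h : RAc K q) : K7_ex (K7_D K) q := by
  have key : ∀ x : K7_Ix K q → ℝ, (∀ s, K7_dd (K7_ext x) s = 0) → ∃ y, K7_D K q y = x := by
    intro x hx
    obtain ⟨y, hy1, hy2⟩ := h (K7_ext x) (fun s hs => K7_ext_neg x hs) hx
    refine ⟨fun τ => y τ.1, ?_⟩
    have h1 : K7_ext (K := K) (q := q + 1) (fun τ => y τ.1) = y := by
      funext s
      by_cases hs : K s ∧ s.card = q + 1
      · exact K7_ext_pos (fun τ : K7_Ix K (q + 1) => y τ.1) ⟨s, hs⟩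
      · rw [K7_ext_neg _ hs, hy1 s hs]
    funext ρ
    rw [← K7_ext_pos (K7_D K q fun τ => y τ.1) ρ, K7_ext_D hK, h1, ← K7_ext_pos x ρ]
    exact hy2 ρ.1
  cases q with
  | zero =>
    intro x
    refine key x fun s => ?_
    refine Finset.sum_eq_zero fun v hv => ?_
    rw [K7_ext_neg, mul_zero]
    rintro ⟨_, h2⟩
    rw [Finset.card_eq_zero] at h2
    exact Finset.insert_ne_empty _ _ h2
  | succ q =>
    intro x hx
    refine key x fun s => ?_
    rw [← K7_ext_D hK q x s, hx]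
    unfold K7_ext
    split_ifs <;> rfl

omit hK in
theorem K7_mact_D {N : Type*} [AddCommGroup N] [Module ℝ N] (q : ℕ) (t : K7_Ix K (q + 1) → N)
    (ρ : K7_Ix K q) : K7_mact (K7_D K q) t ρ =
      ∑ v ∈ ρ.1ᶜ, sgnV (insert v ρ.1) v • K7_ext t (insert v ρ.1) := by
  have h1 : ∀ τ, K7_D K q (Pi.single τ 1) ρ • t τ = ∑ v ∈ ρ.1ᶜ, sgnV (insert v ρ.1) v •
      (K7_ext (Pi.single τ (1 : ℝ) : K7_Ix K (q + 1) → ℝ) (insert v ρ.1) • t τ) := by
    intro τ
    change K7_dd (K7_ext (Pi.single τ (1 : ℝ) : K7_Ix K (q + 1) → ℝ)) ρ.1 • t τ = _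
    unfold K7_dd
    rw [Finset.sum_smul]
    refine Finset.sum_congr rfl fun v _ => ?_
    rw [mul_smul, Int.cast_smul_eq_zsmul]
  unfold K7_mact
  rw [Finset.sum_congr rfl fun τ _ => h1 τ, Finset.sum_comm]
  refine Finset.sum_congr rfl fun v _ => ?_
  rw [← Finset.smul_sum]
  congr 1
  by_cases h : K (insert v ρ.1) ∧ (insert v ρ.1).card = q + 1
  · rw [Finset.sum_eq_single_of_mem (⟨insert v ρ.1, h⟩ : K7_Ix K (q + 1)) (Finset.mem_univ _)]
    · have e1 := K7_ext_pos (Pi.single (⟨insert v ρ.1, h⟩ : K7_Ix K (q + 1)) (1 : ℝ) :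
        K7_Ix K (q + 1) → ℝ) ⟨insert v ρ.1, h⟩
      have e2 := K7_ext_pos t ⟨insert v ρ.1, h⟩
      rw [e1, e2, Pi.single_eq_same, one_smul]
    · intro τ _ hτ
      have e1 := K7_ext_pos (Pi.single τ (1 : ℝ) : K7_Ix K (q + 1) → ℝ) ⟨insert v ρ.1, h⟩
      rw [e1, Pi.single_eq_of_ne (Ne.symm hτ), zero_smul]
  · rw [K7_ext_neg t h]
    refine Finset.sum_eq_zero fun τ _ => ?_
    rw [K7_ext_neg _ h, zero_smul]

end simp

theorem tot_simplicial {V : Type*} [Fintype V] [LinearOrder V] {Γ : Type v} [Group Γ]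
    (R : FreeRes.{u, v} Γ) (N : Type w) [AddCommGroup N] [Module ℝ N] [DistribMulAction Γ N]
    [SMulCommClass Γ ℝ N] (K : Finset V → Prop) (hK : ∀ s t, s ⊆ t → K t → K s) (n : ℕ)
    (hv : ∀ p q, p + q = n → HV (MonoidHom.id Γ) R N p ∨ RAc K q)
    (t : ∀ p, Finset V → R.X p → N) (ht : ∀ p ρ, IsEq (MonoidHom.id Γ) R N p (t p ρ))
    (hs : ∀ p ρ, ¬ K ρ → t p ρ = 0)
    (hc : ∀ p (ρ : Finset V), p + ρ.card + 1 = n → ∀ x,
      bdM R p (t (p + 1) ρ) x +
        (-1 : ℤ) ^ p • ∑ v ∈ ρᶜ, sgnV (insert v ρ) v • t p (insert v ρ) x = 0) :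
    ∃ s : ∀ p, Finset V → R.X p → N, (∀ p ρ, IsEq (MonoidHom.id Γ) R N p (s p ρ)) ∧
      (∀ p ρ, ¬ K ρ → s p ρ = 0) ∧
      ∀ p (ρ : Finset V), p + ρ.card = n → ∀ x,
        bdM R p (s (p + 1) ρ) x +
          (-1 : ℤ) ^ p • ∑ v ∈ ρᶜ, sgnV (insert v ρ) v • s p (insert v ρ) x = t p ρ x := by
  classical
  -- the graded cycle
  let T : ∀ p q, K7_Ix K q → R.X p → N := fun p q ρ x => if p + q = n then t p ρ.1 x else 0
  have hTpos : ∀ p q (ρ : K7_Ix K q) x, p + q = n → T p q ρ x = t p ρ.1 x :=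
    fun p q ρ x h => if_pos h
  have hTneg : ∀ p q (ρ : K7_Ix K q) x, p + q ≠ n → T p q ρ x = 0 :=
    fun p q ρ x h => if_neg h
  have hT : ∀ p q ρ, IsEq (MonoidHom.id Γ) R N p (T p q ρ) := by
    intro p q ρ
    by_cases h : p + q = n
    · have : T p q ρ = t p ρ.1 := funext fun x => hTpos p q ρ x h
      rw [this]
      exact ht p ρ.1
    · have : T p q ρ = fun _ => 0 := funext fun x => hTneg p q ρ x h
      rw [this]
      exact K7_isEq_zero p
  have hcT : ∀ p q (ρ : K7_Ix K q) x, K7_tot R (K7_D K) T p q ρ x = 0 := by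
    intro p q ρ x
    unfold K7_tot
    rw [K7_mact_D]
    by_cases h : p + q + 1 = n
    · have h1 : T (p + 1) q ρ = t (p + 1) ρ.1 := funext fun x => hTpos _ _ _ _ (by omega)
      have h2 : ∑ v ∈ ρ.1ᶜ, sgnV (insert v ρ.1) v •
          K7_ext (fun τ => T p (q + 1) τ x) (insert v ρ.1) =
          ∑ v ∈ ρ.1ᶜ, sgnV (insert v ρ.1) v • t p (insert v ρ.1) x := by
        refine Finset.sum_congr rfl fun v hv' => ?_
        rw [Finset.mem_compl] at hv'
        congr 1
        by_cases h3 : K (insert v ρ.1)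
        · have h4 : (insert v ρ.1).card = q + 1 := by
            rw [Finset.card_insert_of_notMem hv', ρ.2.2]
          have e2 := K7_ext_pos (fun τ => T p (q + 1) τ x) ⟨insert v ρ.1, h3, h4⟩
          rw [e2]
          exact hTpos _ _ _ _ (by omega)
        · rw [K7_ext_neg _ (fun h5 => h3 h5.1), hs p _ h3]
          rfl
      rw [h1, h2]
      exact hc p ρ.1 (by rw [ρ.2.2]; exact h) x
    · have h1 : T (p + 1) q ρ = fun _ => 0 := funext fun x => hTneg _ _ _ _ (by omega)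
      have h2 : (fun τ => T p (q + 1) τ x) = fun _ => (0 : N) :=
        funext fun τ => hTneg _ _ _ _ (by omega)
      rw [h1, h2, K7_bdM_zero, zero_add]
      have h3 : ∀ s, K7_ext (K := K) (q := q + 1) (fun _ => (0 : N)) s = 0 := by
        intro s
        unfold K7_ext
        split_ifs <;> rfl
      simp only [h3, smul_zero, Finset.sum_const_zero]
  have hvT : ∀ p q, HV (MonoidHom.id Γ) R N p ∨ K7_ex (K7_D K) q ∨ ∀ ρ x, T p q ρ x = 0 := by
    intro p q
    by_cases h : p + q = n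
    · rcases hv p q h with h1 | h1
      · exact Or.inl h1
      · exact Or.inr (Or.inl (K7_ex_of_rac hK q h1))
    · exact Or.inr (Or.inr fun ρ x => hTneg p q ρ x h)
  obtain ⟨S, hS1, hS2⟩ := K7_abs (K7_D K) (K7_D_D hK) T hT hcT hvT
  have hcast : ∀ p q (τ : Finset V) (h : K τ ∧ τ.card = q) (x : R.X p),
      S p q ⟨τ, h⟩ x = S p τ.card ⟨τ, h.1, rfl⟩ x := by
    intro p q τ h x
    obtain ⟨h1, rfl⟩ := h
    rfl
  refine ⟨fun p ρ x => if h : K ρ then S p ρ.card ⟨ρ, h, rfl⟩ x else 0, ?_, ?_, ?_⟩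
  · intro p ρ
    by_cases h : K ρ
    · simp only [dif_pos h]
      exact hS1 p ρ.card ⟨ρ, h, rfl⟩
    · simp only [dif_neg h]
      exact K7_isEq_zero p
  · intro p ρ h
    funext x
    simp only [dif_neg h]
    rfl
  · intro p ρ hpρ x
    by_cases h : K ρ
    · have h1 := hS2 p ρ.card ⟨ρ, h, rfl⟩ x
      unfold K7_tot at h1
      rw [K7_mact_D, hTpos _ _ _ _ hpρ] at h1
      rw [← h1]
      simp only [dif_pos h]
      congr 2
      refine Finset.sum_congr rfl fun v hv' => ?_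
      rw [Finset.mem_compl] at hv'
      congr 1
      by_cases h3 : K (insert v ρ)
      · have h4 : (insert v ρ).card = ρ.card + 1 := Finset.card_insert_of_notMem hv'
        have e2 := K7_ext_pos (fun τ => S p (ρ.card + 1) τ x) ⟨insert v ρ, h3, h4⟩
        rw [e2, dif_pos h3, hcast p _ _ ⟨h3, h4⟩ x]
      · rw [K7_ext_neg _ (fun h5 => h3 h5.1), dif_neg h3]
    · have h1 : ∀ v, ¬ K (insert v ρ) := fun v h2 => h (hK _ _ (Finset.subset_insert v ρ) h2)
      simp only [dif_neg h, dif_neg (h1 _), smul_zero, Finset.sum_const_zero, add_zero]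
      rw [K7_bdM_zero, hs p ρ h]
      rfl

end GP

end OS
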