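import Mathlib
import Pool.Agent.Lib.MP_8fe54c_gt.GPDefs
import Pool.Agent.Lib.MP_8fe54c_gt.L2Cmp

/-!
# Equivariant lifts, rules for the boundary with coefficients, the zigzag (project K, module K8)
-/

namespace OS

namespace GP

open Finsupp

universe u v w u' v' w'

/-- equivariant lifts on free sets of cells -/
theorem exists_eqlift {Γ : Type v} [Group Γ] (R : FreeRes.{u, v} Γ) (k : ℕ) {A : Type w}
    {B : Type w'} [AddCommGroup A] [AddCommGroup B] [DistribMulAction Γ A] [DistribMulAction Γ B]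
    (π : A → B) (hπ : ∀ (g : Γ) a, π (g • a) = g • π a) (f : R.X k → B)
    (hf : IsEq (MonoidHom.id Γ) R B k f) (h : ∀ x, ∃ a, π a = f x) :
    ∃ f' : R.X k → A, IsEq (MonoidHom.id Γ) R A k f' ∧ ∀ x, π (f' x) = f x := by
  choose z hz using h
  let rep : R.X k → R.X k := fun x => Quotient.out (Quotient.mk (MulAction.orbitRel Γ (R.X k)) x)
  have hrep : ∀ x, ∃ g : Γ, g • rep x = x := by
    intro x
    have h1 : (MulAction.orbitRel Γ (R.X k)) x (rep x) :=
      (MulAction.orbitRel Γ (R.X k)).symm (Quotient.mk_out (s := MulAction.orbitRel Γ (R.X k)) x)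
    exact MulAction.orbitRel_apply.1 h1
  have hrep2 : ∀ (g : Γ) x, rep (g • x) = rep x := by
    intro g x
    show Quotient.out _ = Quotient.out _
    congr 1
    apply Quotient.sound
    exact MulAction.orbitRel_apply.2 ⟨g, rfl⟩
  choose g hg using hrep
  have hg2 : ∀ (a : Γ) x, g (a • x) = a * g x := by
    intro a x
    apply R.eq_of_smul_eq (x := rep x)
    have h1 := hg (a • x)
    rw [hrep2] at h1
    rw [h1, mul_smul, hg]
  refine ⟨fun x => g x • z (rep x), ?_, ?_⟩
  · intro a x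
    show g (a • x) • z (rep (a • x)) = a • (g x • z (rep x))
    rw [hg2, hrep2, mul_smul]
  · intro x
    show π (g x • z (rep x)) = f x
    rw [hπ, hz]
    have h1 := hf (g x) (rep x)
    rw [hg] at h1
    exact h1.symm

theorem K8_support {Γ : Type v} [Group Γ] (R : FreeRes.{u, v} Γ) (k : ℕ) {A : Type w}
    [AddCommGroup A] (f : R.X (k + 1) → A) (y : R.X k) :
    (Function.support fun x => R.coef k x y • f x) ⊆ (R.finite_coef_right k y).toFinset := by
  intro x hx
  rw [Set.Finite.coe_toFinset]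
  intro h
  apply hx
  show R.coef k x y • f x = 0
  rw [h, zero_smul]

theorem bdM_eq_sum {Γ : Type v} [Group Γ] (R : FreeRes.{u, v} Γ) (k : ℕ) {A : Type w}
    [AddCommGroup A] (f : R.X (k + 1) → A) (y : R.X k) :
    bdM R k f y = ∑ x ∈ (R.finite_coef_right k y).toFinset, R.coef k x y • f x :=
  finsum_eq_sum_of_support_subset _ (K8_support R k f y)

theorem bdM_eq_sum_of_subset {Γ : Type v} [Group Γ] (R : FreeRes.{u, v} Γ) (k : ℕ) {A : Type w}
    [AddCommGroup A] (f : R.X (k + 1) → A) (y : R.X k) (s : Finset (R.X (k + 1)))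
    (hs : ∀ x, R.coef k x y ≠ 0 → x ∈ s) :
    bdM R k f y = ∑ x ∈ s, R.coef k x y • f x := by
  refine finsum_eq_sum_of_support_subset _ ?_
  intro x hx
  refine hs x ?_
  intro h
  apply hx
  show R.coef k x y • f x = 0
  rw [h, zero_smul]

/-- basic rules for `bdM` -/
theorem bdM_map {Γ : Type v} [Group Γ] (R : FreeRes.{u, v} Γ) (k : ℕ) {A : Type w}
    {B : Type w'} [AddCommGroup A] [AddCommGroup B] (π : A →+ B) (f : R.X (k + 1) → A)
    (y : R.X k) : bdM R k (fun x => π (f x)) y = π (bdM R k f y) := by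
  rw [bdM_eq_sum, bdM_eq_sum, map_sum]
  exact Finset.sum_congr rfl fun x _ => (map_zsmul π _ _).symm

theorem bdM_add {Γ : Type v} [Group Γ] (R : FreeRes.{u, v} Γ) (k : ℕ) {A : Type w}
    [AddCommGroup A] (f g : R.X (k + 1) → A) : bdM R k (f + g) = bdM R k f + bdM R k g := by
  funext y
  rw [Pi.add_apply, bdM_eq_sum, bdM_eq_sum, bdM_eq_sum, ← Finset.sum_add_distrib]
  exact Finset.sum_congr rfl fun x _ => by rw [Pi.add_apply, smul_add]

theorem bdM_zero {Γ : Type v} [Group Γ] (R : FreeRes.{u, v} Γ) (k : ℕ) {A : Type w}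
    [AddCommGroup A] : bdM R k (0 : R.X (k + 1) → A) = 0 := by
  funext y
  rw [bdM_eq_sum]
  exact Finset.sum_eq_zero fun x _ => by rw [Pi.zero_apply, smul_zero]

theorem bdM_neg {Γ : Type v} [Group Γ] (R : FreeRes.{u, v} Γ) (k : ℕ) {A : Type w}
    [AddCommGroup A] (f : R.X (k + 1) → A) : bdM R k (-f) = -bdM R k f := by
  have h := bdM_add R k f (-f)
  rw [add_neg_cancel, bdM_zero] at h
  exact (neg_eq_of_add_eq_zero_right h.symm).symm

theorem bdM_sub {Γ : Type v} [Group Γ] (R : FreeRes.{u, v} Γ) (k : ℕ) {A : Type w}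
    [AddCommGroup A] (f g : R.X (k + 1) → A) : bdM R k (f - g) = bdM R k f - bdM R k g := by
  rw [sub_eq_add_neg, bdM_add, bdM_neg, sub_eq_add_neg]

theorem bdM_zsmul {Γ : Type v} [Group Γ] (R : FreeRes.{u, v} Γ) (k : ℕ) {A : Type w}
    [AddCommGroup A] (n : ℤ) (f : R.X (k + 1) → A) : bdM R k (n • f) = n • bdM R k f := by
  funext y
  rw [Pi.smul_apply, bdM_eq_sum, bdM_eq_sum, Finset.smul_sum]
  exact Finset.sum_congr rfl fun x _ => by rw [Pi.smul_apply, smul_comm]

/-- the coefficients of `d ∘ d` -/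
theorem K8_coef_coef {Γ : Type v} [Group Γ] (R : FreeRes.{u, v} Γ) (k : ℕ) (x : R.X (k + 2))
    (y : R.X k) (s : Finset (R.X (k + 1))) (hs : ∀ z, R.coef (k + 1) x z ≠ 0 → z ∈ s) :
    ∑ z ∈ s, R.coef (k + 1) x z * R.coef k z y = 0 := by
  have h1 : R.d k (R.d (k + 1) (single x 1)) y = 0 := by rw [R.d_d]; rfl
  have h2 : R.d (k + 1) (single x 1) = ∑ z ∈ s, R.coef (k + 1) x z • single z (1 : ℤ) := by
    ext z'
    rw [Finsupp.finsetSum_apply]
    by_cases hz : z' ∈ s
    · rw [Finset.sum_eq_single z']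
      · simp [FreeRes.coef]
      · intro b _ hb
        simp [Finsupp.single_apply, hb]
      · intro h; exact absurd hz h
    · rw [Finset.sum_eq_zero]
      · by_contra h
        exact hz (hs z' h)
      · intro b hb
        have : b ≠ z' := fun h => hz (h ▸ hb)
        simp [Finsupp.single_apply, this]
  rw [h2, map_sum, Finsupp.finsetSum_apply] at h1
  rw [← h1]
  refine Finset.sum_congr rfl fun z _ => ?_
  rw [map_smul, Finsupp.smul_apply, smul_eq_mul]
  rfl

theorem bdM_bdM {Γ : Type v} [Group Γ] (R : FreeRes.{u, v} Γ) (k : ℕ) {A : Type w}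
    [AddCommGroup A] (f : R.X (k + 2) → A) : bdM R k (bdM R (k + 1) f) = 0 := by
  classical
  funext y
  rw [bdM_eq_sum]
  set s := (R.finite_coef_right k y).toFinset with hs
  let t : Finset (R.X (k + 2)) := s.biUnion fun z => (R.finite_coef_right (k + 1) z).toFinset
  have ht : ∀ z ∈ s, bdM R (k + 1) f z = ∑ x ∈ t, R.coef (k + 1) x z • f x := by
    intro z hz
    refine bdM_eq_sum_of_subset R (k + 1) f z t fun x hx => ?_
    exact Finset.mem_biUnion.2 ⟨z, hz, (Set.Finite.mem_toFinset _).2 hx⟩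
  rw [Finset.sum_congr rfl fun z hz => by rw [ht z hz]]
  simp only [Finset.smul_sum]
  rw [Finset.sum_comm]
  refine Finset.sum_eq_zero fun x _ => ?_
  have h1 : ∑ z ∈ s, R.coef k z y • R.coef (k + 1) x z • f x =
      (∑ z ∈ s, R.coef (k + 1) x z * R.coef k z y) • f x := by
    rw [Finset.sum_smul]
    exact Finset.sum_congr rfl fun z _ => by rw [← mul_smul, mul_comm]
  rw [h1]
  have h2 : ∑ z ∈ s, R.coef (k + 1) x z * R.coef k z y = 0 := by
    let s' : Finset (R.X (k + 1)) := s ∪ (R.finite_coef_left (k + 1) x).toFinset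
    rw [← K8_coef_coef R k x y s' fun z hz =>
      Finset.mem_union_right _ ((Set.Finite.mem_toFinset _).2 hz)]
    refine Finset.sum_subset Finset.subset_union_left fun z _ hz => ?_
    have h3 : R.coef k z y = 0 := by
      by_contra h
      exact hz ((Set.Finite.mem_toFinset _).2 h)
    rw [h3, mul_zero]
  rw [h2, zero_smul]

theorem bdM_isEq {H : Type v} [Group H] {Γ : Type v'} [Group Γ] (φ : H →* Γ)
    (R : FreeRes.{u, v} H) (k : ℕ) {A : Type w} [AddCommGroup A] [DistribMulAction Γ A]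
    (f : R.X (k + 1) → A) (hf : IsEq φ R A (k + 1) f) : IsEq φ R A k (bdM R k f) := by
  classical
  intro h y
  rw [bdM_eq_sum R k f y, Finset.smul_sum]
  rw [bdM_eq_sum_of_subset R k f (h • y)
    ((R.finite_coef_right k y).toFinset.image (fun x => h • x))]
  · rw [Finset.sum_image (fun a _ b _ e => MulAction.injective h e)]
    refine Finset.sum_congr rfl fun x _ => ?_
    rw [R.coef_smul, hf, smul_comm]
  · intro x hx
    refine Finset.mem_image.2 ⟨h⁻¹ • x, (Set.Finite.mem_toFinset _).2 ?_, smul_inv_smul h x⟩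
    show R.coef k (h⁻¹ • x) y ≠ 0
    rw [← R.coef_smul k h, smul_inv_smul]
    exact hx

/-- the zigzag -/
theorem zigzag {Γ : Type v} [Group Γ] (R : FreeRes.{u, v} Γ) (M : Type w) [AddCommGroup M]
    [DistribMulAction Γ M] (D : ℕ → Type w') [∀ q, AddCommGroup (D q)]
    [∀ q, DistribMulAction Γ (D q)] (b : ∀ q, D (q + 1) →+ D q) (ε : D 0 →+ M)
    (hb : ∀ q (g : Γ) x, b q (g • x) = g • b q x) (hε : ∀ (g : Γ) x, ε (g • x) = g • ε x)
    (hεb : ∀ x, ε (b 0 x) = 0) (hsurj : Function.Surjective ε)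
    (hex0 : ∀ x, ε x = 0 → ∃ y, b 0 y = x) (hex : ∀ q x, b q x = 0 → ∃ y, b (q + 1) y = x)
    (n : ℕ)
    (htot : ∀ t : ∀ p q, R.X p → D q, (∀ p q, IsEq (MonoidHom.id Γ) R (D q) p (t p q)) →
      (∀ p q, p + q + 1 = n → ∀ x,
        bdM R p (t (p + 1) q) x + (-1 : ℤ) ^ p • b q (t p (q + 1) x) = 0) →
      ∃ s : ∀ p q, R.X p → D q, (∀ p q, IsEq (MonoidHom.id Γ) R (D q) p (s p q)) ∧
        ∀ p q, p + q = n → ∀ x,
          bdM R p (s (p + 1) q) x + (-1 : ℤ) ^ p • b q (s p (q + 1) x) = t p q x) :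
    HV (MonoidHom.id Γ) R M n := by
  classical
  intro f hf hcyc
  obtain ⟨f0, hf0, hf0'⟩ := exists_eqlift R n ε hε f hf fun x => hsurj (f x)
  have hsq : ∀ p : ℕ, ((-1 : ℤ) ^ p) * (-1) ^ p = 1 := fun p => by
    rw [← mul_pow]; simp
  -- the start
  let t0 : ∀ p, R.X p → D 0 := Function.update (fun _ => 0) n f0
  have ht0 : ∀ p, IsEq (MonoidHom.id Γ) R (D 0) p (t0 p) := by
    intro p
    by_cases h : p = n
    · subst h
      simp only [t0, Function.update_self]
      exact hf0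
    · simp only [t0, Function.update_of_ne h]
      intro g x
      simp
  have ht0' : ∀ p x, ∃ y, b 0 y = bdM R p (t0 (p + 1)) x := by
    intro p x
    refine hex0 _ ?_
    rw [← bdM_map]
    by_cases h : p + 1 = n
    · subst h
      simp only [t0, Function.update_self]
      have h1 : (fun x => ε (f0 x)) = f := funext hf0'
      rw [h1]
      exact congrFun hcyc x
    · simp only [t0, Function.update_of_ne h]
      have h1 : (fun x : R.X (p + 1) => ε ((0 : R.X (p + 1) → D 0) x)) = 0 := by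
        funext x; simp
      rw [h1, bdM_zero]
      rfl
  obtain ⟨t, h1, h2, h3⟩ := dep_seq (A := fun q => ∀ p, R.X p → D q)
    (fun q a => (∀ p, IsEq (MonoidHom.id Γ) R (D q) p (a p)) ∧
      ∀ p x, ∃ y, b q y = bdM R p (a (p + 1)) x)
    (fun q a a' => ∀ p x, b q (a' p x) = -((-1 : ℤ) ^ p • bdM R p (a (p + 1)) x)) t0
    ⟨ht0, ht0'⟩ (by
      rintro q a ⟨ha, ha'⟩
      have h4 : ∀ p, ∃ f' : R.X p → D (q + 1), IsEq (MonoidHom.id Γ) R (D (q + 1)) p f' ∧
          ∀ x, b q (f' x) = -((-1 : ℤ) ^ p • bdM R p (a (p + 1)) x) := by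
        intro p
        refine exists_eqlift R p (b q) (hb q) (fun x => -((-1 : ℤ) ^ p • bdM R p (a (p + 1)) x))
          ?_ ?_
        · intro g x
          have h5 := bdM_isEq (MonoidHom.id Γ) R p (a (p + 1)) (ha (p + 1)) g x
          simp only [h5, MonoidHom.id_apply, smul_neg]
          rw [smul_comm]
        · intro x
          obtain ⟨y, hy⟩ := ha' p x
          exact ⟨-((-1 : ℤ) ^ p • y), by rw [map_neg, map_zsmul, hy]⟩
      choose a' h5 h6 using h4
      refine ⟨a', ⟨h5, fun p x => ?_⟩, h6⟩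
      refine hex q _ ?_
      rw [← bdM_map]
      have h7 : (fun x => b q (a' (p + 1) x)) =
          (-((-1 : ℤ) ^ (p + 1))) • bdM R (p + 1) (a (p + 1 + 1)) := by
        funext x
        rw [h6, Pi.smul_apply, neg_smul]
      rw [h7, bdM_zsmul, bdM_bdM, smul_zero]
      rfl)
  obtain ⟨s, hs1, hs2⟩ := htot (fun p q => t q p) (fun p q => (h2 q).1 p) (by
    intro p q _ x
    rw [h3 q p x, smul_neg, ← mul_smul, hsq, one_smul, add_neg_cancel])
  refine ⟨fun x => ε (s (n + 1) 0 x), ?_, ?_⟩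
  · intro g x
    show ε (s (n + 1) 0 (g • x)) = g • ε (s (n + 1) 0 x)
    rw [hs1, MonoidHom.id_apply, hε]
  · funext x
    rw [bdM_map]
    have h4 := hs2 n 0 (add_zero n) x
    have h5 := congrArg ε h4
    rw [map_add, map_zsmul, hεb, smul_zero, add_zero] at h5
    rw [h5, h1]
    simp only [t0, Function.update_self]
    exact hf0' x

end GP

end OS
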