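import Mathlib
import Pool.Agent.Lib.MP_8fe54c_gt.KTot
import Pool.Agent.Lib.MP_8fe54c_gt.KZig
import Pool.Agent.Lib.MP_8fe54c_gt.KCd

/-!
# PROJECT K, module K10: the engine
-/

namespace OS

namespace GP

open Finsupp MulOpposite

universe u v w u' v' w'

section keng

variable {V : Type v} [Fintype V] [LinearOrder V] {Γ : Type v'} [Group Γ]
  (R : FreeRes.{u, v'} Γ) {M : Type w'} [AddCommGroup M] [DistribMulAction Γ M]
  (S : CSys.{v, w} V) [∀ σ, MulAction Γ (S.Q σ)]

/-- evaluation of cubical chains -/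
def KEng_ev (S : CSys.{v, w} V) (M : Type w') [AddCommGroup M] (σ τ : Finset V) :
    CC S M →+ (S.Q σ →₀ M) where
  toFun x := x σ τ
  map_zero' := rfl
  map_add' _ _ := rfl

/-- the cubical boundary as an additive map -/
noncomputable def KEng_cdHom (S : CSys.{v, w} V) (M : Type w') [AddCommGroup M] :
    CC S M →+ CC S M := AddMonoidHom.mk' (cd S) (cd_add S)

theorem KEng_cdHom_apply (x : CC S M) : KEng_cdHom S M x = cd S x := rfl

theorem KEng_bdM_zero {A : Type*} [AddCommGroup A] (k : ℕ) (f : R.X (k + 1) → A)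
    (hf : ∀ x, f x = 0) (y : R.X k) : bdM R k f y = 0 := by
  unfold bdM
  simp [hf]

theorem KEng_bdM_eval (p : ℕ) (f : R.X (p + 1) → CC S M) (y : R.X p) (σ τ : Finset V) :
    bdM R p f y σ τ = bdM R p (fun x => f x σ τ) y :=
  (bdM_map R p (KEng_ev S M σ τ) f y).symm

/-- the total boundary -/
noncomputable def KEng_bd (T : ∀ p, R.X p → CC S M) (p : ℕ) (y : R.X p) : CC S M :=
  bdM R p (T (p + 1)) y + (-1 : ℤ) ^ p • cd S (T p y)

theorem KEng_bd_eval (T : ∀ p, R.X p → CC S M) (p : ℕ) (y : R.X p) (σ τ : Finset V) :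
    KEng_bd R S T p y σ τ =
      bdM R p (fun x => T (p + 1) x σ τ) y + (-1 : ℤ) ^ p • cd S (T p y) σ τ := by
  unfold KEng_bd
  rw [← KEng_bdM_eval]
  rfl

/-- total chains of degree `n` supported on the cubes with at least `i` elements in the first
set -/
structure KEng_TC (Lc : Finset V → Prop) (n i : ℕ) (T : ∀ p, R.X p → CC S M) : Prop where
  eq : ∀ p (g : Γ) (x : R.X p), T p (g • x) = fun σ τ => twAct g (T p x σ τ)
  sup : ∀ p x σ τ, ¬ (σ ⊆ τ ∧ Lc τ ∧ p + (τ \ σ).card = n ∧ i ≤ σ.card) → T p x σ τ = 0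

theorem KEng_isEq {Lc : Finset V → Prop} {n i : ℕ} {T : ∀ p, R.X p → CC S M}
    (hT : KEng_TC R S Lc n i T) (p : ℕ) (σ τ : Finset V) :
    IsEq (MonoidHom.id Γ) R (TW (S.Q σ) M) p (fun x => T p x σ τ) := by
  intro g x
  show T p (g • x) σ τ = twAct g (T p x σ τ)
  rw [hT.eq]

theorem KEng_card_insert {σ τ : Finset V} {v : V} (h : σ ⊆ τ) (hv : v ∉ τ) :
    (insert v τ \ σ).card = (τ \ σ).card + 1 := by
  have h1 : v ∉ σ := fun h2 => hv (h h2)
  rw [Finset.insert_sdiff_of_notMem _ h1, Finset.card_insert_of_notMem]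
  simp [hv]

theorem KEng_card_erase {σ τ : Finset V} {v : V} (h : σ ⊆ τ) (hv : v ∈ σ) :
    (τ \ σ.erase v).card = (τ \ σ).card + 1 := by
  have h1 : τ \ σ.erase v = insert v (τ \ σ) := by
    ext u
    simp only [Finset.mem_sdiff, Finset.mem_erase, Finset.mem_insert]
    constructor
    · rintro ⟨h2, h3⟩
      by_cases h4 : u = v
      · exact Or.inl h4
      · exact Or.inr ⟨h2, fun h5 => h3 ⟨h4, h5⟩⟩
    · rintro (h2 | h2)
      · rw [h2]; exact ⟨h hv, fun h3 => h3.1 rfl⟩
      · exact ⟨h2.1, fun h3 => h2.2 h3.2⟩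
  rw [h1, Finset.card_insert_of_notMem]
  simp [hv]

theorem KEng_cd_zero (Lc : Finset V → Prop) (x : CC S M) (hx : CSup Lc 0 x) : cd S x = 0 := by
  funext σ τ
  show cd S x σ τ = 0
  unfold cd
  split_ifs with h
  · have h1 : ∀ v ∈ τᶜ, sgnV (insert v τ \ σ) v • x σ (insert v τ) = 0 := by
      intro v hv
      rw [hx, smul_zero]
      rintro ⟨-, -, h3⟩
      rw [KEng_card_insert h (Finset.mem_compl.1 hv)] at h3
      omega
    have h2 : ∀ v ∈ σ, sgnV (insert v (τ \ σ)) v • qm S (Finset.erase_subset v σ)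
        (x (σ.erase v) τ) = 0 := by
      intro v hv
      rw [hx, map_zero, smul_zero]
      rintro ⟨-, -, h3⟩
      rw [KEng_card_erase h hv] at h3
      omega
    rw [Finset.sum_eq_zero h1, Finset.sum_eq_zero h2, sub_zero]
  · rfl

theorem KEng_cd_cd (Lc : Finset V → Prop) (hdown : ∀ s t, s ⊆ t → Lc t → Lc s) (q : ℕ)
    (x : CC S M) (hx : CSup Lc q x) : cd S (cd S x) = 0 := by
  rcases q with _ | _ | q
  · rw [KEng_cd_zero S Lc x hx]
    exact (KEng_cdHom S M).map_zero
  · exact KEng_cd_zero S Lc _ (cd_cSup S Lc hdown 0 x hx)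
  · exact cd_cd S Lc hdown q x hx

theorem KEng_bd_TC
    (hS : ∀ (g : Γ) {σ τ : Finset V} (h : σ ⊆ τ) (x : S.Q σ), S.pr h (g • x) = g • S.pr h x)
    (Lc : Finset V → Prop) (hdown : ∀ s t, s ⊆ t → Lc t → Lc s) (n i : ℕ)
    (U : ∀ p, R.X p → CC S M) (hU : KEng_TC R S Lc (n + 1) i U) :
    KEng_TC R S Lc n i (KEng_bd R S U) := by
  constructor
  · intro p g x
    funext σ τ
    rw [KEng_bd_eval, KEng_bd_eval, map_add, map_zsmul]
    congr 1
    · exact bdM_isEq (MonoidHom.id Γ) R p _ (KEng_isEq R S hU (p + 1) σ τ) g x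
    · rw [hU.eq, cd_twAct S hS]
  · intro p x σ τ h
    rw [KEng_bd_eval]
    by_cases hστ : σ ⊆ τ
    · have h1 : bdM R p (fun x => U (p + 1) x σ τ) x = 0 := by
        refine KEng_bdM_zero R p _ (fun x => hU.sup _ _ _ _ ?_) x
        rintro ⟨h2, h3, h4, h5⟩
        exact h ⟨h2, h3, by omega, h5⟩
      rw [h1, zero_add]
      unfold cd
      rw [if_pos hστ]
      have h1 : ∀ v ∈ τᶜ, sgnV (insert v τ \ σ) v • U p x σ (insert v τ) = 0 := by
        intro v hv
        rw [hU.sup, smul_zero]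
        rintro ⟨-, h3, h4, h5⟩
        rw [KEng_card_insert hστ (Finset.mem_compl.1 hv)] at h4
        exact h ⟨hστ, hdown _ _ (Finset.subset_insert v τ) h3, by omega, h5⟩
      have h2 : ∀ v ∈ σ, sgnV (insert v (τ \ σ)) v • qm S (Finset.erase_subset v σ)
          (U p x (σ.erase v) τ) = 0 := by
        intro v hv
        rw [hU.sup, map_zero, smul_zero]
        rintro ⟨-, h3, h4, h5⟩
        rw [KEng_card_erase hστ hv] at h4
        exact h ⟨hστ, h3, by omega, h5.trans (Finset.card_le_card (Finset.erase_subset v σ))⟩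
      rw [Finset.sum_eq_zero h1, Finset.sum_eq_zero h2, sub_zero, smul_zero]
    · have h1 : bdM R p (fun x => U (p + 1) x σ τ) x = 0 :=
        KEng_bdM_zero R p _ (fun x => hU.sup _ _ _ _ (fun h2 => hστ h2.1)) x
      rw [h1, zero_add]
      unfold cd
      rw [if_neg hστ, smul_zero]

theorem KEng_cSup {Lc : Finset V → Prop} {n i : ℕ} {T : ∀ p, R.X p → CC S M}
    (hT : KEng_TC R S Lc n i T) (p : ℕ) (x : R.X p) : CSup Lc (n - p) (T p x) := by
  intro σ τ h
  refine hT.sup _ _ _ _ ?_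
  rintro ⟨h1, h2, h3, -⟩
  exact h ⟨h1, h2, by omega⟩

theorem KEng_bd_bd (Lc : Finset V → Prop) (hdown : ∀ s t, s ⊆ t → Lc t → Lc s) (n i : ℕ)
    (U : ∀ p, R.X p → CC S M) (hU : KEng_TC R S Lc n i U) (p : ℕ) (y : R.X p) :
    KEng_bd R S (KEng_bd R S U) p y = 0 := by
  have e1 : KEng_bd R S U (p + 1) = bdM R (p + 1) (U (p + 2)) +
      fun x => ((-1 : ℤ) ^ (p + 1)) • cd S (U (p + 1) x) := rfl
  have e2 : bdM R p (fun x => ((-1 : ℤ) ^ (p + 1)) • cd S (U (p + 1) x)) y =
      ((-1 : ℤ) ^ (p + 1)) • cd S (bdM R p (U (p + 1)) y) := by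
    have := bdM_map R p (((-1 : ℤ) ^ (p + 1)) • KEng_cdHom S M) (U (p + 1)) y
    exact this
  have e3 : cd S (KEng_bd R S U p y) = cd S (bdM R p (U (p + 1)) y) := by
    unfold KEng_bd
    rw [cd_add]
    have h1 : cd S ((-1 : ℤ) ^ p • cd S (U p y)) = (-1 : ℤ) ^ p • cd S (cd S (U p y)) :=
      map_zsmul (KEng_cdHom S M) _ _
    rw [h1, KEng_cd_cd S Lc hdown (n - p) _ (KEng_cSup R S hU p y), smul_zero, add_zero]
  show bdM R p (KEng_bd R S U (p + 1)) y + (-1 : ℤ) ^ p • cd S (KEng_bd R S U p y) = 0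
  rw [e3, e1, bdM_add, bdM_bdM]
  show (0 : R.X p → CC S M) y + bdM R p (fun x => ((-1 : ℤ) ^ (p + 1)) • cd S (U (p + 1) x)) y +
    (-1 : ℤ) ^ p • cd S (bdM R p (U (p + 1)) y) = 0
  rw [e2, pow_succ]
  simp

theorem KEng_cd_low (x : CC S M) (σ τ : Finset V) (hστ : σ ⊆ τ)
    (hlow : ∀ v ∈ σ, x (σ.erase v) τ = 0) (f : Finset V → (S.Q σ →₀ M))
    (hf : ∀ v, v ∉ τ → x σ (insert v τ) = f (insert v (τ \ σ)))
    (hf0 : ∀ v ∈ σ, f (insert v (τ \ σ)) = 0) :
    cd S x σ τ = ∑ v ∈ (τ \ σ)ᶜ, sgnV (insert v (τ \ σ)) v • f (insert v (τ \ σ)) := by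
  unfold cd
  rw [if_pos hστ]
  have h2 : ∀ v ∈ σ, sgnV (insert v (τ \ σ)) v • qm S (Finset.erase_subset v σ)
      (x (σ.erase v) τ) = 0 := by
    intro v hv
    rw [hlow v hv, map_zero, smul_zero]
  rw [Finset.sum_eq_zero h2, sub_zero]
  have hsub : τᶜ ⊆ (τ \ σ)ᶜ := by
    intro v hv
    simp only [Finset.mem_compl, Finset.mem_sdiff, not_and, not_not] at hv ⊢
    exact fun h => absurd h hv
  rw [← Finset.sum_subset hsub]
  · refine Finset.sum_congr rfl fun v hv => ?_
    have hv' := Finset.mem_compl.1 hv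
    have h1 : v ∉ σ := fun h => hv' (hστ h)
    rw [hf v hv', Finset.insert_sdiff_of_notMem _ h1]
  · intro v hv hv'
    have h1 : v ∈ σ := by
      simp only [Finset.mem_compl, Finset.mem_sdiff, not_and, not_not] at hv hv'
      exact hv hv'
    rw [hf0 v h1, smul_zero]

open Classical in
/-- the components of a total chain at `σ`, as a total chain over the link -/
noncomputable def KEng_t (Lc : Finset V → Prop) (T : ∀ p, R.X p → CC S M) (σ : Finset V)
    (p : ℕ) (ρ : Finset V) (x : R.X p) : TW (S.Q σ) M :=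
  if lk Lc σ ρ then T p x σ (σ ∪ ρ) else 0

theorem KEng_t_pos {Lc : Finset V → Prop} (T : ∀ p, R.X p → CC S M) {σ ρ : Finset V}
    (p : ℕ) (h : lk Lc σ ρ) (x : R.X p) :
    KEng_t R S Lc T σ p ρ x = (T p x σ (σ ∪ ρ) : S.Q σ →₀ M) := if_pos h

theorem KEng_t_neg {Lc : Finset V → Prop} (T : ∀ p, R.X p → CC S M) {σ ρ : Finset V}
    (p : ℕ) (h : ¬ lk Lc σ ρ) (x : R.X p) :
    KEng_t R S Lc T σ p ρ x = 0 := if_neg h

theorem KEng_lk_down {Lc : Finset V → Prop} (hdown : ∀ s t, s ⊆ t → Lc t → Lc s)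
    (σ : Finset V) : ∀ s t, s ⊆ t → lk Lc σ t → lk Lc σ s := by
  rintro s t hst ⟨h1, h2⟩
  exact ⟨h1.mono_right hst, hdown _ _ (Finset.union_subset_union_right hst) h2⟩

theorem KEng_lk_of {Lc : Finset V → Prop} {σ τ : Finset V} (h : σ ⊆ τ) (hL : Lc τ) :
    lk Lc σ (τ \ σ) := by
  refine ⟨Finset.disjoint_sdiff, ?_⟩
  rw [Finset.union_sdiff_of_subset h]
  exact hL

theorem KEng_local [Module ℝ M] [SMulCommClass Γ ℝ M]
    (Lc : Finset V → Prop) (hdown : ∀ s t, s ⊆ t → Lc t → Lc s) (n i : ℕ)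
    (hv : ∀ σ, Lc σ → σ.card = i → ∀ p q, p + q = n →
      HV (MonoidHom.id Γ) R (TW (S.Q σ) M) p ∨ RAc (lk Lc σ) q)
    (T : ∀ p, R.X p → CC S M) (hT : KEng_TC R S Lc n i T)
    (hcyc : ∀ p y σ τ, σ.card = i → KEng_bd R S T p y σ τ = 0)
    (σ : Finset V) : ∃ s : ∀ p, Finset V → R.X p → TW (S.Q σ) M,
      (∀ p ρ, IsEq (MonoidHom.id Γ) R (TW (S.Q σ) M) p (s p ρ)) ∧
      (∀ p ρ, ¬ lk Lc σ ρ → s p ρ = 0) ∧
      (σ.card = i → ∀ p (ρ : Finset V), p + ρ.card = n → ∀ x,
        bdM R p (s (p + 1) ρ) x +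
          (-1 : ℤ) ^ p • ∑ v ∈ ρᶜ, sgnV (insert v ρ) v • s p (insert v ρ) x =
            KEng_t R S Lc T σ p ρ x) := by
  classical
  have hzero : (σ.card = i → ∀ p ρ x, KEng_t R S Lc T σ p ρ x = 0) →
      ∃ s : ∀ p, Finset V → R.X p → TW (S.Q σ) M,
      (∀ p ρ, IsEq (MonoidHom.id Γ) R (TW (S.Q σ) M) p (s p ρ)) ∧
      (∀ p ρ, ¬ lk Lc σ ρ → s p ρ = 0) ∧
      (σ.card = i → ∀ p (ρ : Finset V), p + ρ.card = n → ∀ x,
        bdM R p (s (p + 1) ρ) x +
          (-1 : ℤ) ^ p • ∑ v ∈ ρᶜ, sgnV (insert v ρ) v • s p (insert v ρ) x =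
            KEng_t R S Lc T σ p ρ x) := by
    intro h
    refine ⟨fun p ρ x => 0, fun p ρ g x => (smul_zero g).symm, fun p ρ _ => rfl, ?_⟩
    intro hi p ρ _ x
    rw [h hi, KEng_bdM_zero R p _ (fun x => rfl) x]
    simp
  by_cases hL : Lc σ
  swap
  · refine hzero (fun _ p ρ x => KEng_t_neg R S T p ?_ x)
    rintro ⟨-, h2⟩
    exact hL (hdown _ _ Finset.subset_union_left h2)
  by_cases hi : σ.card = i
  swap
  · exact hzero (fun h => absurd h hi)
  obtain ⟨s, hs1, hs2, hs3⟩ := tot_simplicial R (TW (S.Q σ) M) (lk Lc σ) (KEng_lk_down hdown σ) n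
    (hv σ hL hi) (KEng_t R S Lc T σ) (by
      intro p ρ g x
      show KEng_t R S Lc T σ p ρ (g • x) = g • KEng_t R S Lc T σ p ρ x
      by_cases h : lk Lc σ ρ
      · rw [KEng_t_pos R S T p h, KEng_t_pos R S T p h]
        exact KEng_isEq R S hT p σ (σ ∪ ρ) g x
      · rw [KEng_t_neg R S T p h, KEng_t_neg R S T p h]
        exact (smul_zero g).symm) (by
      intro p ρ h
      funext x
      exact KEng_t_neg R S T p h x) (by
      intro p ρ hpρ x
      by_cases hK : lk Lc σ ρ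
      · have h2 : KEng_bd R S T p x σ (σ ∪ ρ) = 0 := hcyc p x σ (σ ∪ ρ) hi
        rw [KEng_bd_eval] at h2
        have hd : (σ ∪ ρ) \ σ = ρ := by
          rw [Finset.union_sdiff_left]
          exact Finset.sdiff_eq_self_of_disjoint hK.1.symm
        rw [KEng_cd_low S (T p x) σ (σ ∪ ρ) Finset.subset_union_left (fun v hv => by
            refine hT.sup _ _ _ _ ?_
            rintro ⟨-, -, -, h5⟩
            rw [Finset.card_erase_of_mem hv] at h5
            have : 0 < σ.card := Finset.card_pos.2 ⟨v, hv⟩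
            omega)
          (fun μ => KEng_t R S Lc T σ p μ x) (fun v hv => by
            rw [hd]
            have e1 : insert v (σ ∪ ρ) = σ ∪ insert v ρ := (Finset.union_insert v σ ρ).symm
            rw [e1]
            by_cases h5 : lk Lc σ (insert v ρ)
            · exact (KEng_t_pos R S T p h5 x).symm
            · refine (hT.sup _ _ _ _ ?_).trans (KEng_t_neg R S T p h5 x).symm
              rintro ⟨-, h6, -, -⟩
              refine h5 ⟨?_, h6⟩
              rw [Finset.disjoint_insert_right]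
              exact ⟨fun h7 => hv (Finset.mem_union_left _ h7), hK.1⟩) (fun v hv => by
            refine KEng_t_neg R S T p ?_ x
            rintro ⟨h5, -⟩
            rw [Finset.disjoint_insert_right] at h5
            exact h5.1 hv)] at h2
        rw [hd] at h2
        have e2 : KEng_t R S Lc T σ (p + 1) ρ = fun x => T (p + 1) x σ (σ ∪ ρ) := by
          funext x
          exact KEng_t_pos R S T (p + 1) hK x
        rw [e2]
        exact h2
      · have e1 : ∀ x, KEng_t R S Lc T σ (p + 1) ρ x = 0 := fun x => KEng_t_neg R S T (p + 1) hK x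
        rw [KEng_bdM_zero R p _ e1, zero_add]
        rw [Finset.sum_eq_zero, smul_zero]
        intro v hv
        have e2 : KEng_t R S Lc T σ p (insert v ρ) x = 0 :=
          KEng_t_neg R S T p
            (fun h => hK (KEng_lk_down hdown σ _ _ (Finset.subset_insert v ρ) h)) x
        rw [e2, smul_zero])
  exact ⟨s, hs1, hs2, fun _ => hs3⟩

/-- one step of the filtration: the chain `T` needs to be a cycle only in the lowest degree; the
correcting chain `U` lives in the lowest degree only -/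
theorem KEng_step [Module ℝ M] [SMulCommClass Γ ℝ M]
    (hS : ∀ (g : Γ) {σ τ : Finset V} (h : σ ⊆ τ) (x : S.Q σ), S.pr h (g • x) = g • S.pr h x)
    (Lc : Finset V → Prop) (hdown : ∀ s t, s ⊆ t → Lc t → Lc s) (n i : ℕ)
    (hv : ∀ σ, Lc σ → σ.card = i → ∀ p q, p + q = n →
      HV (MonoidHom.id Γ) R (TW (S.Q σ) M) p ∨ RAc (lk Lc σ) q)
    (T : ∀ p, R.X p → CC S M) (hT : KEng_TC R S Lc n i T)
    (hcyc : ∀ p y σ τ, σ.card = i → KEng_bd R S T p y σ τ = 0) :
    ∃ U : ∀ p, R.X p → CC S M, KEng_TC R S Lc (n + 1) i U ∧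
      (∀ p y σ τ, σ.card ≠ i → U p y σ τ = 0) ∧
      KEng_TC R S Lc n (i + 1) (fun p y => T p y - KEng_bd R S U p y) := by
  classical
  choose s hs1 hs2 hs3 using KEng_local R S Lc hdown n i hv T hT hcyc
  let U : ∀ p, R.X p → CC S M := fun p x σ τ =>
    if σ.card = i ∧ σ ⊆ τ ∧ Lc τ ∧ p + (τ \ σ).card = n + 1 then s σ p (τ \ σ) x else 0
  have hUpos : ∀ p x σ τ, (σ.card = i ∧ σ ⊆ τ ∧ Lc τ ∧ p + (τ \ σ).card = n + 1) →
    U p x σ τ = (s σ p (τ \ σ) x : TW (S.Q σ) M) := fun _ _ _ _ h => if_pos h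
  have hUneg : ∀ p x σ τ, ¬ (σ.card = i ∧ σ ⊆ τ ∧ Lc τ ∧ p + (τ \ σ).card = n + 1) →
    U p x σ τ = 0 := fun _ _ _ _ h => if_neg h
  clear_value U
  have hU : KEng_TC R S Lc (n + 1) i U := by
    constructor
    · intro p g x
      funext σ τ
      by_cases h : σ.card = i ∧ σ ⊆ τ ∧ Lc τ ∧ p + (τ \ σ).card = n + 1
      · rw [hUpos _ _ _ _ h, hUpos _ _ _ _ h]
        exact hs1 σ p (τ \ σ) g x
      · rw [hUneg _ _ _ _ h, hUneg _ _ _ _ h]
        exact (map_zero (twAct g)).symm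
    · intro p x σ τ h
      refine hUneg _ _ _ _ ?_
      rintro ⟨h1, h2, h3, h4⟩
      exact h ⟨h2, h3, h4, h1.ge⟩
  refine ⟨U, hU, fun p y σ τ h => hUneg p y σ τ (fun h' => h h'.1), ?_⟩
  have hbd := KEng_bd_TC R S hS Lc hdown n i U hU
  constructor
  · intro p g x
    funext σ τ
    show T p (g • x) σ τ - KEng_bd R S U p (g • x) σ τ =
      twAct g (T p x σ τ - KEng_bd R S U p x σ τ)
    rw [hT.eq, hbd.eq, map_sub]
  · intro p x σ τ h
    show T p x σ τ - KEng_bd R S U p x σ τ = 0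
    by_cases h1 : σ ⊆ τ ∧ Lc τ ∧ p + (τ \ σ).card = n ∧ i ≤ σ.card
    swap
    · rw [hT.sup _ _ _ _ h1, hbd.sup _ _ _ _ h1, sub_zero]
    obtain ⟨h2, h3, h4, h5⟩ := h1
    have h6 : σ.card = i := by
      by_contra h7
      exact h ⟨h2, h3, h4, by omega⟩
    rw [KEng_bd_eval]
    rw [KEng_cd_low S (U p x) σ τ h2 (fun v hv => by
        refine hUneg _ _ _ _ ?_
        rintro ⟨h7, -⟩
        rw [Finset.card_erase_of_mem hv] at h7
        have : 0 < σ.card := Finset.card_pos.2 ⟨v, hv⟩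
        omega)
      (fun μ => s σ p μ x) (fun v hv => by
        have h7 : v ∉ σ := fun h8 => hv (h2 h8)
        have e1 : insert v τ \ σ = insert v (τ \ σ) := Finset.insert_sdiff_of_notMem _ h7
        by_cases h8 : σ.card = i ∧ σ ⊆ insert v τ ∧ Lc (insert v τ) ∧
            p + (insert v τ \ σ).card = n + 1
        · rw [hUpos _ _ _ _ h8, e1]
        · rw [hUneg _ _ _ _ h8, hs2 σ p _ (fun h9 => h8 ?_)]
          · rfl
          · refine ⟨h6, h2.trans (Finset.subset_insert v τ), ?_, ?_⟩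
            · have h10 := h9.2
              rwa [← e1, Finset.union_sdiff_of_subset (h2.trans (Finset.subset_insert v τ))]
                at h10
            · rw [KEng_card_insert h2 hv]
              omega) (fun v hv => by
        show s σ p _ x = 0
        rw [hs2 σ p _ (fun h9 => ?_)]
        · rfl
        · have := h9.1
          rw [Finset.disjoint_insert_right] at this
          exact this.1 hv)]
    have e3 : (fun x => U (p + 1) x σ τ) = s σ (p + 1) (τ \ σ) := by
      funext x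
      exact hUpos _ _ _ _ ⟨h6, h2, h3, by omega⟩
    have h7 := hs3 σ h6 p (τ \ σ) h4 x
    have e4 : KEng_t R S Lc T σ p (τ \ σ) x = (T p x σ τ : S.Q σ →₀ M) := by
      rw [KEng_t_pos R S T p (KEng_lk_of h2 h3), Finset.union_sdiff_of_subset h2]
    rw [e4] at h7
    rw [e3]
    exact sub_eq_zero.2 h7.symm

theorem KEng_bd_add (A B : ∀ p, R.X p → CC S M) (p : ℕ) (y : R.X p) :
    KEng_bd R S (fun p y => A p y + B p y) p y = KEng_bd R S A p y + KEng_bd R S B p y := by
  unfold KEng_bd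
  show bdM R p (A (p + 1) + B (p + 1)) y + (-1 : ℤ) ^ p • cd S (A p y + B p y) = _
  rw [bdM_add, cd_add, smul_add]
  show bdM R p (A (p + 1)) y + bdM R p (B (p + 1)) y + _ = _
  abel

theorem KEng_bd_zero (p : ℕ) (y : R.X p) :
    KEng_bd R S (M := M) (fun _ _ => 0) p y = 0 := by
  unfold KEng_bd
  rw [KEng_bdM_zero R p _ (fun x => rfl) y]
  have : cd S (0 : CC S M) = 0 := (KEng_cdHom S M).map_zero
  rw [this]
  simp

theorem KEng_bd_sub (A B : ∀ p, R.X p → CC S M) (p : ℕ) (y : R.X p) :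
    KEng_bd R S (fun p y => A p y - B p y) p y = KEng_bd R S A p y - KEng_bd R S B p y := by
  have h1 := KEng_bd_add R S (fun p y => A p y - B p y) B p y
  have h2 : (fun p (y : R.X p) => (fun p y => A p y - B p y) p y + B p y) = A := by
    funext p y
    exact sub_add_cancel _ _
  rw [h2] at h1
  exact (sub_eq_of_eq_add h1).symm

/-- the iterated step: the chain `T` is supported on `|σ| ≥ i` and its boundary on
`|σ| ≥ i + k` -/
theorem KEng_iter [Module ℝ M] [SMulCommClass Γ ℝ M]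
    (hS : ∀ (g : Γ) {σ τ : Finset V} (h : σ ⊆ τ) (x : S.Q σ), S.pr h (g • x) = g • S.pr h x)
    (Lc : Finset V → Prop) (hdown : ∀ s t, s ⊆ t → Lc t → Lc s) (n : ℕ) :
    ∀ (k i : ℕ), (∀ σ, Lc σ → i ≤ σ.card → σ.card < i + k → ∀ p q, p + q = n →
      HV (MonoidHom.id Γ) R (TW (S.Q σ) M) p ∨ RAc (lk Lc σ) q) →
      ∀ T : ∀ p, R.X p → CC S M, KEng_TC R S Lc n i T →
      (∀ p y σ τ, σ.card < i + k → KEng_bd R S T p y σ τ = 0) →
      ∃ U : ∀ p, R.X p → CC S M, KEng_TC R S Lc (n + 1) i U ∧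
        KEng_TC R S Lc n (i + k) (fun p y => T p y - KEng_bd R S U p y) := by
  intro k
  induction k with
  | zero =>
    intro i _ T hT _
    refine ⟨fun p y => 0, ⟨?_, ?_⟩, ?_⟩
    · intro p g x
      funext σ τ
      exact (map_zero (twAct g)).symm
    · intro p x σ τ _
      rfl
    · have e : (fun p (y : R.X p) => T p y - KEng_bd R S (M := M) (fun _ _ => 0) p y) = T := by
        funext p y
        rw [KEng_bd_zero, sub_zero]
      rw [e]
      exact hT
  | succ k ih =>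
    intro i hv T hT hcyc
    obtain ⟨U, hU, -, hT'⟩ := KEng_step R S hS Lc hdown n i
      (fun σ h1 h2 => hv σ h1 h2.ge (by omega)) T hT
      (fun p y σ τ h => hcyc p y σ τ (by omega))
    have hcyc' : ∀ p y σ τ, σ.card < i + 1 + k →
        KEng_bd R S (fun p y => T p y - KEng_bd R S U p y) p y σ τ = 0 := by
      intro p y σ τ h
      rw [KEng_bd_sub, KEng_bd_bd R S Lc hdown (n + 1) i U hU, sub_zero]
      exact hcyc p y σ τ (by omega)
    obtain ⟨U', hU', hb⟩ := ih (i + 1) (fun σ h1 h2 h3 => hv σ h1 (by omega) (by omega)) _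
      hT' hcyc'
    refine ⟨fun p y => U p y + U' p y, ⟨?_, ?_⟩, ?_⟩
    · intro p g x
      funext σ τ
      show U p (g • x) σ τ + U' p (g • x) σ τ = twAct g (U p x σ τ + U' p x σ τ)
      rw [hU.eq, hU'.eq, map_add]
    · intro p x σ τ h
      show U p x σ τ + U' p x σ τ = 0
      rw [hU.sup _ _ _ _ h, hU'.sup _ _ _ _ (fun h' => h ⟨h'.1, h'.2.1, h'.2.2.1, by
        have := h'.2.2.2; omega⟩), add_zero]
    · have e : (fun p (y : R.X p) => T p y - KEng_bd R S (fun p y => U p y + U' p y) p y) =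
          fun p y => (fun p y => T p y - KEng_bd R S U p y) p y - KEng_bd R S U' p y := by
        funext p y
        rw [KEng_bd_add, sub_add_eq_sub_sub]
      rw [e, show i + (k + 1) = i + 1 + k by ring]
      exact hb

theorem KEng_total [Module ℝ M] [SMulCommClass Γ ℝ M]
    (hS : ∀ (g : Γ) {σ τ : Finset V} (h : σ ⊆ τ) (x : S.Q σ), S.pr h (g • x) = g • S.pr h x)
    (Lc : Finset V → Prop) (hdown : ∀ s t, s ⊆ t → Lc t → Lc s) (n : ℕ)
    (hv : ∀ σ, Lc σ → ∀ p q, p + q = n →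
      HV (MonoidHom.id Γ) R (TW (S.Q σ) M) p ∨ RAc (lk Lc σ) q)
    (T : ∀ p, R.X p → CC S M) (hT : KEng_TC R S Lc n 0 T)
    (hcyc : ∀ p y, KEng_bd R S T p y = 0) :
    ∃ U : ∀ p, R.X p → CC S M, KEng_TC R S Lc (n + 1) 0 U ∧
      ∀ p y, KEng_bd R S U p y = T p y := by
  obtain ⟨U, hU, h⟩ := KEng_iter R S hS Lc hdown n (Fintype.card V + 1) 0
    (fun σ h1 _ _ => hv σ h1) T hT (fun p y σ τ _ => by rw [hcyc]; rfl)
  refine ⟨U, hU, fun p y => ?_⟩
  have h1 : T p y - KEng_bd R S U p y = 0 := by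
    funext σ τ
    refine h.sup p y σ τ ?_
    rintro ⟨-, -, -, h2⟩
    have := Finset.card_le_univ σ
    omega
  exact (sub_eq_zero.1 h1).symm

/-- the chains of dimension `q` as a subgroup -/
def KEng_D (S : CSys.{v, w} V) (M : Type w') [AddCommGroup M] (Lc : Finset V → Prop) (q : ℕ) :
    AddSubgroup (CC S M) where
  carrier := {x | CSup Lc q x}
  zero_mem' := fun σ τ _ => rfl
  add_mem' := by
    intro x y hx hy σ τ h
    show x σ τ + y σ τ = 0
    rw [hx _ _ h, hy _ _ h, add_zero]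
  neg_mem' := by
    intro x hx σ τ h
    show - x σ τ = 0
    rw [hx _ _ h, neg_zero]

/-- the action on the chains of dimension `q` -/
@[reducible] noncomputable def KEng_act (Lc : Finset V → Prop) (q : ℕ) :
    DistribMulAction Γ (KEng_D S M Lc q) where
  smul g x := ⟨fun σ τ => twAct g (x.1 σ τ), fun σ τ h => by
    show twAct g (x.1 σ τ) = 0
    rw [x.2 _ _ h, map_zero]⟩
  one_smul x := Subtype.ext (funext fun σ => funext fun τ =>
    one_smul Γ (show TW (S.Q σ) M from x.1 σ τ))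
  mul_smul g h x := Subtype.ext (funext fun σ => funext fun τ =>
    mul_smul g h (show TW (S.Q σ) M from x.1 σ τ))
  smul_zero g := Subtype.ext (funext fun σ => funext fun τ => map_zero (twAct g))
  smul_add g x y := Subtype.ext (funext fun σ => funext fun τ =>
    map_add (twAct g) (x.1 σ τ) (y.1 σ τ))

theorem KEng_sum_twAct {E : Type*} [MulAction Γ E] (g : Γ) (f : E →₀ M) :
    (twAct g f).sum (fun _ a => a) = g • f.sum (fun _ a => a) := by
  induction f using Finsupp.induction_linear with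
  | zero => simp
  | add f h hf hh =>
    rw [map_add, Finsupp.sum_add_index' (fun _ => rfl) (fun _ _ _ => rfl), hf, hh,
      Finsupp.sum_add_index' (fun _ => rfl) (fun _ _ _ => rfl), smul_add]
  | single e m =>
    have h1 : twAct g (single e m) = single (g • e) (g • m) := by
      unfold twAct
      simp
    rw [h1, Finsupp.sum_single_index rfl, Finsupp.sum_single_index rfl]

/-- the augmentation -/
noncomputable def KEng_aug (S : CSys.{v, w} V) (M : Type w') [AddCommGroup M]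
    (Lc : Finset V → Prop) : KEng_D S M Lc 0 →+ M where
  toFun x := ∑ σ : Finset V, (x.1 σ σ).sum fun _ a => a
  map_zero' := Finset.sum_eq_zero fun σ _ => Finsupp.sum_zero_index
  map_add' x y := by
    rw [← Finset.sum_add_distrib]
    refine Finset.sum_congr rfl fun σ _ => ?_
    exact Finsupp.sum_add_index' (fun _ => rfl) (fun _ _ _ => rfl)

/-- the boundary on the chains of dimension `q + 1` -/
noncomputable def KEng_b (S : CSys.{v, w} V) (M : Type w') [AddCommGroup M]
    (Lc : Finset V → Prop) (hdown : ∀ s t, s ⊆ t → Lc t → Lc s) (q : ℕ) :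
    KEng_D S M Lc (q + 1) →+ KEng_D S M Lc q :=
  AddMonoidHom.mk' (fun x => ⟨cd S x.1, cd_cSup S Lc hdown q x.1 x.2⟩)
    (fun x y => Subtype.ext (cd_add S x.1 y.1))

end keng

theorem engine {V : Type v} [Fintype V] [LinearOrder V] {Γ : Type v'} [Group Γ]
    (R : FreeRes.{u, v'} Γ) (M : Type w') [AddCommGroup M] [Module ℝ M] [DistribMulAction Γ M]
    [SMulCommClass Γ ℝ M] (S : CSys.{v, w} V) [∀ σ, MulAction Γ (S.Q σ)]
    (hS : ∀ (g : Γ) {σ τ : Finset V} (h : σ ⊆ τ) (x : S.Q σ), S.pr h (g • x) = g • S.pr h x)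
    (Lc : Finset V → Prop) (hdown : ∀ s t, s ⊆ t → Lc t → Lc s)
    (hempty : Lc ∅) [Nonempty (S.Q ∅)] (hD : DExact S Lc M) (n : ℕ)
    (hv : ∀ σ, Lc σ → ∀ p q, p + q = n →
      HV (MonoidHom.id Γ) R (TW (S.Q σ) M) p ∨ RAc (lk Lc σ) q) :
    HV (MonoidHom.id Γ) R M n := by
  classical
  let _ : ∀ q, DistribMulAction Γ (KEng_D S M Lc q) := fun q => KEng_act S Lc q
  refine zigzag R M (fun q => KEng_D S M Lc q) (KEng_b S M Lc hdown) (KEng_aug S M Lc)
    ?_ ?_ ?_ ?_ ?_ ?_ n ?_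
  · intro q g x
    exact Subtype.ext (cd_twAct S hS g x.1)
  · intro g x
    show ∑ σ : Finset V, (twAct g (x.1 σ σ)).sum (fun _ a => a) =
      g • ∑ σ : Finset V, (x.1 σ σ).sum (fun _ a => a)
    rw [Finset.smul_sum]
    exact Finset.sum_congr rfl fun σ _ => KEng_sum_twAct g _
  · intro x
    exact aug_cd S Lc hdown x.1 x.2
  · intro m
    obtain ⟨q0⟩ := (inferInstance : Nonempty (S.Q ∅))
    refine ⟨⟨Pi.single ∅ (Pi.single ∅ (single q0 m)), ?_⟩, ?_⟩
    · intro σ τ h
      by_cases h1 : σ = ∅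
      · subst h1
        rw [Pi.single_eq_same]
        by_cases h2 : τ = ∅
        · subst h2
          exact absurd ⟨Finset.Subset.refl _, hempty, by simp⟩ h
        · exact Pi.single_eq_of_ne h2 _
      · rw [Pi.single_eq_of_ne h1]
        rfl
    · show ∑ σ : Finset V, ((Pi.single ∅ (Pi.single ∅ (single q0 m)) :
        ∀ σ _τ : Finset V, S.Q σ →₀ M) σ σ).sum (fun _ a => a) = m
      rw [Finset.sum_eq_single ∅]
      · rw [Pi.single_eq_same, Pi.single_eq_same, Finsupp.sum_single_index rfl]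
      · intro σ _ h
        rw [Pi.single_eq_of_ne h]
        exact Finsupp.sum_zero_index
      · intro h
        exact absurd (Finset.mem_univ _) h
  · intro x hx
    obtain ⟨y, hy, e⟩ := hD.2 x.1 x.2 hx
    exact ⟨⟨y, hy⟩, Subtype.ext e⟩
  · intro q x hx
    obtain ⟨y, hy, e⟩ := hD.1 q x.1 x.2 (congrArg Subtype.val hx)
    exact ⟨⟨y, hy⟩, Subtype.ext e⟩
  · intro t ht hc
    let T : ∀ p, R.X p → CC S M := fun p x => if p ≤ n then (t p (n - p) x).1 else 0
    have hT1 : ∀ p, p ≤ n → ∀ x, T p x = (t p (n - p) x).1 := fun p h x => if_pos h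
    have hT2 : ∀ p, ¬ p ≤ n → ∀ x, T p x = 0 := fun p h x => if_neg h
    have hTC : KEng_TC R S Lc n 0 T := by
      constructor
      · intro p g x
        by_cases h : p ≤ n
        · rw [hT1 p h, hT1 p h]
          exact congrArg Subtype.val (ht p (n - p) g x)
        · rw [hT2 p h, hT2 p h]
          funext σ τ
          exact (map_zero (twAct g)).symm
      · intro p x σ τ h
        by_cases hp : p ≤ n
        · rw [hT1 p hp]
          refine (t p (n - p) x).2 σ τ ?_
          rintro ⟨h1, h2, h3⟩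
          exact h ⟨h1, h2, by omega, Nat.zero_le _⟩
        · rw [hT2 p hp]
          rfl
    have hcyc : ∀ p y, KEng_bd R S T p y = 0 := by
      intro p y
      by_cases hp : p + 1 ≤ n
      · obtain ⟨q, hq⟩ : ∃ q, p + q + 1 = n := ⟨n - p - 1, by omega⟩
        have h1 := congrArg Subtype.val (hc p q hq y)
        have e1 : n - (p + 1) = q := by omega
        have e2 : n - p = q + 1 := by omega
        have e3 : T (p + 1) = fun x => (t (p + 1) q x).1 := by
          funext x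
          rw [hT1 (p + 1) hp, e1]
        have e4 : T p y = (t p (q + 1) y).1 := by
          rw [hT1 p (by omega), e2]
        unfold KEng_bd
        rw [e3, e4]
        have e5 := bdM_map R p (AddSubgroup.subtype (KEng_D S M Lc q)) (t (p + 1) q) y
        have e6 : bdM R p (fun x => (t (p + 1) q x).1) y = (bdM R p (t (p + 1) q) y).1 := e5
        rw [e6]
        exact h1
      · unfold KEng_bd
        rw [KEng_bdM_zero R p _ (fun x => hT2 (p + 1) hp x) y, zero_add]
        by_cases hp' : p ≤ n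
        · have e2 : n - p = 0 := by omega
          have h0 : CSup Lc 0 (T p y) := by
            have := KEng_cSup R S hTC p y
            rwa [e2] at this
          rw [KEng_cd_zero S Lc _ h0, smul_zero]
        · rw [hT2 p hp']
          have : cd S (0 : CC S M) = 0 := (KEng_cdHom S M).map_zero
          rw [this, smul_zero]
    obtain ⟨U, hU, hUT⟩ := KEng_total R S hS Lc hdown n hv T hTC hcyc
    have hUs : ∀ p q, p + q = n + 1 → ∀ x, CSup Lc q (U p x) := by
      intro p q hpq x σ τ h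
      refine hU.sup _ _ _ _ ?_
      rintro ⟨h1, h2, h3, -⟩
      exact h ⟨h1, h2, by omega⟩
    refine ⟨fun p q x => if h : p + q = n + 1 then ⟨U p x, hUs p q h x⟩ else 0, ?_, ?_⟩
    · intro p q g x
      by_cases h : p + q = n + 1
      · simp only [dif_pos h]
        exact Subtype.ext (hU.eq p g x)
      · simp only [dif_neg h]
        exact (smul_zero g).symm
    · intro p q hpq x
      have h1 : p + 1 + q = n + 1 := by omega
      have h2 : p + (q + 1) = n + 1 := by omega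
      simp only [dif_pos h1, dif_pos h2]
      apply Subtype.ext
      have e5 := bdM_map R p (AddSubgroup.subtype (KEng_D S M Lc q))
        (fun x => (⟨U (p + 1) x, hUs (p + 1) q h1 x⟩ : KEng_D S M Lc q)) x
      have e6 : bdM R p (U (p + 1)) x = (bdM R p
        (fun x => (⟨U (p + 1) x, hUs (p + 1) q h1 x⟩ : KEng_D S M Lc q)) x).1 := e5
      have e7 := hUT p x
      have e8 : T p x = (t p q x).1 := by
        rw [hT1 p (by omega), show n - p = q by omega]
      rw [← e8, ← e7]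
      unfold KEng_bd
      rw [e6]
      rfl

end GP

end OS
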