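import Mathlib
import Pool.Agent.Lib.MP_8fe54c_gt.L2Cmp

/-!
# Comparison of complexes of free `Γ`-sets, without finiteness (project K, module K4)
-/

namespace OS

namespace GP

open Finsupp

universe u v w u' v' w'

/-- chain maps -/
theorem exists_chainMapG {Γ : Type v} [Group Γ] {X : ℕ → Type u} {Y : ℕ → Type w}
    [∀ k, MulAction Γ (X k)] [∀ k, MulAction Γ (Y k)]
    (hX : ∀ k (g : Γ) (x : X k), g • x = x → g = 1)
    (dX : ∀ k, ZMap (X (k + 1)) (X k)) (dY : ∀ k, ZMap (Y (k + 1)) (Y k))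
    (hdX : ∀ k, Eqv Γ (dX k)) (hdY : ∀ k, Eqv Γ (dY k))
    {N : Type w'} [AddCommGroup N] (ρ : Γ → N → N) (eX : (X 0 →₀ ℤ) →ₗ[ℤ] N)
    (eY : (Y 0 →₀ ℤ) →ₗ[ℤ] N) (heX : ∀ (g : Γ) c, eX (gact g c) = ρ g (eX c))
    (heY : ∀ (g : Γ) c, eY (gact g c) = ρ g (eY c))
    (hXe : ∀ c, eX (dX 0 c) = 0) (hXd : ∀ k c, dX k (dX (k + 1) c) = 0)
    (hYs : ∀ x, ∃ c, eY c = eX (single x 1)) (hY0 : ∀ c, eY c = 0 → ∃ b, dY 0 b = c)
    (hY : ∀ k c, dY k c = 0 → ∃ b, dY (k + 1) b = c) :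
    ∃ f : ∀ k, ZMap (X k) (Y k), (∀ k, Eqv Γ (f k)) ∧ (∀ c, eY (f 0 c) = eX c) ∧
      ∀ k c, dY k (f (k + 1) c) = f k (dX k c) := by
  obtain ⟨f0, hf0, hf0'⟩ := exists_lift (Γ := Γ) (hX 0) ρ eX eY heX heY hYs
  obtain ⟨f, h1, h2, h3⟩ := dep_seq (A := fun k => ZMap (X k) (Y k))
    (fun k a => Eqv Γ a ∧ ∀ x, ∃ z, dY k z = a (dX k x))
    (fun k a b => ∀ c, dY k (b c) = a (dX k c)) f0
    ⟨hf0, fun x => hY0 _ (by rw [hf0', hXe])⟩ (by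
      rintro k a ⟨ha, ha'⟩
      obtain ⟨b, hb, hb'⟩ := exists_lift (Γ := Γ) (hX (k + 1)) (fun g c => gact g c)
        (a ∘ₗ dX k) (dY k)
        (fun g c => by rw [LinearMap.comp_apply, LinearMap.comp_apply, hdX, ha])
        (hdY k) (fun x => ha' _)
      refine ⟨b, ⟨hb, fun x => hY k _ ?_⟩, hb'⟩
      rw [hb', LinearMap.comp_apply, hXd, map_zero])
  exact ⟨f, fun k => (h2 k).1, by rw [h1]; exact hf0', h3⟩

/-- homotopies -/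
theorem exists_homotopyG {Γ : Type v} [Group Γ] {X : ℕ → Type u} {Y : ℕ → Type w}
    [∀ k, MulAction Γ (X k)] [∀ k, MulAction Γ (Y k)]
    (hX : ∀ k (g : Γ) (x : X k), g • x = x → g = 1)
    (dX : ∀ k, ZMap (X (k + 1)) (X k)) (dY : ∀ k, ZMap (Y (k + 1)) (Y k))
    (hdX : ∀ k, Eqv Γ (dX k)) (hdY : ∀ k, Eqv Γ (dY k))
    {N : Type w'} [AddCommGroup N] (eY : (Y 0 →₀ ℤ) →ₗ[ℤ] N)
    (hXd : ∀ k c, dX k (dX (k + 1) c) = 0) (hYd : ∀ k c, dY k (dY (k + 1) c) = 0)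
    (hY0 : ∀ c, eY c = 0 → ∃ b, dY 0 b = c)
    (hY : ∀ k c, dY k c = 0 → ∃ b, dY (k + 1) b = c)
    (f f' : ∀ k, ZMap (X k) (Y k)) (hf : ∀ k, Eqv Γ (f k)) (hf' : ∀ k, Eqv Γ (f' k))
    (h0 : ∀ c, eY (f 0 c) = eY (f' 0 c))
    (hfd : ∀ k c, dY k (f (k + 1) c) = f k (dX k c))
    (hfd' : ∀ k c, dY k (f' (k + 1) c) = f' k (dX k c)) :
    ∃ h : ∀ k, ZMap (X k) (Y (k + 1)), (∀ k, Eqv Γ (h k)) ∧
      (∀ c, dY 0 (h 0 c) = f 0 c - f' 0 c) ∧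
      ∀ k c, dY (k + 1) (h (k + 1) c) = f (k + 1) c - f' (k + 1) c - h k (dX k c) := by
  obtain ⟨a0, ha0, ha0'⟩ := exists_lift (Γ := Γ) (hX 0) (fun g c => gact g c)
    (f 0 - f' 0) (dY 0) (fun g c => by
      rw [LinearMap.sub_apply, LinearMap.sub_apply, map_sub, hf, hf']) (hdY 0)
    (fun x => hY0 _ (by rw [LinearMap.sub_apply, map_sub, h0, sub_self]))
  obtain ⟨h, h1, h2, h3⟩ := dep_seq (A := fun k => ZMap (X k) (Y (k + 1)))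
    (fun k a => Eqv Γ a ∧ ∀ x, ∃ z, dY (k + 1) z = f (k + 1) x - f' (k + 1) x - a (dX k x))
    (fun k a b => ∀ c, dY (k + 1) (b c) = f (k + 1) c - f' (k + 1) c - a (dX k c)) a0
    ⟨ha0, fun x => hY 0 _ (by
      rw [map_sub, map_sub, hfd, hfd', ha0', LinearMap.sub_apply, sub_self])⟩ (by
      rintro k a ⟨ha, ha'⟩
      obtain ⟨b, hb, hb'⟩ := exists_lift (Γ := Γ) (hX (k + 1)) (fun g c => gact g c)
        (f (k + 1) - f' (k + 1) - a ∘ₗ dX k) (dY (k + 1))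
        (fun g c => by
          simp only [LinearMap.sub_apply, LinearMap.comp_apply, map_sub, hdX k g, ha g,
            hf (k + 1) g, hf' (k + 1) g])
        (hdY (k + 1)) (fun x => ha' _)
      refine ⟨b, ⟨hb, fun x => hY (k + 1) _ ?_⟩, hb'⟩
      rw [map_sub, map_sub, hfd, hfd', hb']
      simp only [LinearMap.sub_apply, LinearMap.comp_apply, hXd, map_zero, sub_zero, sub_self])
  exact ⟨h, fun k => (h2 k).1, by rw [h1]; exact ha0', h3⟩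

end GP

end OS
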