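import Mathlib
import Pool.Agent.Lib.MP_8fe54c_gt.GPDefs
import Pool.Agent.Lib.MP_8fe54c_gt.KCmp

/-!
# Shapiro's lemma for `Γ`-sets
-/

namespace OS

namespace GP

open Finsupp MulOpposite

universe u v w u' v' w'

section push

variable {H : Type*} [Group H] {Γ : Type*} [Group Γ] (φ : H →* Γ) {M : Type*} [AddCommGroup M]
  [DistribMulAction Γ M] {X Y Z : Type*} [MulAction H X] [MulAction H Y] [MulAction H Z]

/-- equivariant functions with support in finitely many orbits -/
structure K6_Eq (F : X → M) : Prop where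
  eqv : ∀ (h : H) (x : X), F (h • x) = φ h • F x
  fs : ∃ s : Finset X, ∀ x, F x ≠ 0 → ∃ h : H, ∃ y ∈ s, h • y = x

/-- the image of a function under an integral map -/
noncomputable def K6_push (T : ZMap X Y) (F : X → M) (y : Y) : M := ∑ᶠ x, mc T x y • F x

variable {φ}

/-- finiteness, for a function supported on the translates of a finite set -/
theorem K6_fin (T : ZMap X Y) (hT : Eqv H T) (hY : ∀ (g : H) (y : Y), g • y = y → g = 1)
    (P : X → Prop) (s : Finset X) (hs : ∀ x, P x → ∃ h : H, ∃ y ∈ s, h • y = x) (y : Y) :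
    {x | mc T x y ≠ 0 ∧ P x}.Finite := by
  classical
  have hyy : ∀ (a b : H) (y : Y), a • y = b • y → a = b := by
    intro a b y e
    have h1 : (b⁻¹ * a) • y = y := by rw [mul_smul, e, inv_smul_smul]
    exact (inv_mul_eq_one.1 (hY _ y h1)).symm
  have h1 : ∀ x0 ∈ s, {x | (∃ h : H, h • x0 = x) ∧ mc T x y ≠ 0}.Finite := by
    intro x0 _
    have h2 : {h : H | mc T (h • x0) y ≠ 0}.Finite := by
      refine Set.Finite.subset (Set.Finite.preimage (f := fun h : H => h⁻¹ • y) ?_
        (T (single x0 1)).support.finite_toSet) ?_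
      · intro a _ b _ e
        exact inv_injective (hyy _ _ _ e)
      · intro h hh
        rw [Set.mem_preimage, Finset.mem_coe, Finsupp.mem_support_iff]
        have h3 := hT.mc_smul h x0 (h⁻¹ • y)
        rw [smul_inv_smul] at h3
        have h4 : mc T (h • x0) y ≠ 0 := hh
        rw [h3] at h4
        exact h4
    refine (h2.image (fun h => h • x0)).subset ?_
    rintro x ⟨⟨h, rfl⟩, hx⟩
    exact ⟨h, hx, rfl⟩
  refine ((s.finite_toSet).biUnion h1).subset ?_
  rintro x ⟨hx, hP⟩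
  obtain ⟨h, y0, hy0, e⟩ := hs x hP
  exact Set.mem_biUnion (Finset.mem_coe.2 hy0) ⟨⟨h, e⟩, hx⟩

theorem K6_fin' (T : ZMap X Y) (hT : Eqv H T) (hY : ∀ (g : H) (y : Y), g • y = y → g = 1)
    {F : X → M} (hF : K6_Eq φ F) (y : Y) : {x | mc T x y ≠ 0 ∧ F x ≠ 0}.Finite := by
  obtain ⟨s, hs⟩ := hF.fs
  exact K6_fin T hT hY (fun x => F x ≠ 0) s hs y

theorem K6_supp (T : ZMap X Y) (F : X → M) (y : Y) :
    (Function.support fun x => mc T x y • F x) ⊆ {x | mc T x y ≠ 0 ∧ F x ≠ 0} := by
  intro x hx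
  rw [Function.mem_support] at hx
  refine ⟨fun h => hx ?_, fun h => hx ?_⟩
  · rw [h, zero_smul]
  · rw [h, smul_zero]

theorem K6_push_eq_sum (T : ZMap X Y) (F : X → M) (y : Y) (A : Finset X)
    (hA : ∀ x, mc T x y ≠ 0 → F x ≠ 0 → x ∈ A) : K6_push T F y = ∑ x ∈ A, mc T x y • F x := by
  refine finsum_eq_sum_of_support_subset _ fun x hx => ?_
  have h := K6_supp T F y hx
  exact Finset.mem_coe.2 (hA x h.1 h.2)

theorem K6_push_eqv (T : ZMap X Y) (hT : Eqv H T) {F : X → M} (hF : K6_Eq φ F) :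
    K6_Eq φ (K6_push T F) := by
  classical
  refine ⟨?_, ?_⟩
  · intro h y
    unfold K6_push
    rw [← finsum_comp_equiv (MulAction.toPerm h)]
    have h1 : ∀ x : X, mc T (MulAction.toPerm h x) (h • y) • F (MulAction.toPerm h x) =
        (DistribSMul.toAddMonoidHom M (φ h)) (mc T x y • F x) := by
      intro x
      rw [MulAction.toPerm_apply, hT.mc_smul, hF.eqv, map_zsmul]
      rfl
    rw [finsum_congr h1]
    have hinj : Function.Injective (DistribSMul.toAddMonoidHom M (φ h)) := by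
      intro a b e
      exact MulAction.injective (φ h) e
    exact (AddMonoidHom.map_finsum_of_injective (DistribSMul.toAddMonoidHom M (φ h)) hinj _).symm
  · obtain ⟨s, hs⟩ := hF.fs
    refine ⟨s.biUnion fun x => (T (single x 1)).support, ?_⟩
    intro y hy
    have h1 : ∃ x, mc T x y • F x ≠ 0 := by
      by_contra hcon
      push Not at hcon
      apply hy
      unfold K6_push
      rw [finsum_congr hcon, finsum_zero]
    obtain ⟨x, hx⟩ := h1
    have h2 := K6_supp T F y (Function.mem_support.2 hx)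
    obtain ⟨h, x0, hx0, rfl⟩ := hs x h2.2
    refine ⟨h, h⁻¹ • y, ?_, smul_inv_smul h y⟩
    rw [Finset.mem_biUnion]
    refine ⟨x0, hx0, ?_⟩
    rw [Finsupp.mem_support_iff]
    have h3 := hT.mc_smul h x0 (h⁻¹ • y)
    rw [smul_inv_smul] at h3
    have h4 := h2.1
    rw [h3] at h4
    exact h4

theorem K6_push_comp (S : ZMap Y Z) (T : ZMap X Y) (hS : Eqv H S) (hT : Eqv H T)
    (hY : ∀ (g : H) (y : Y), g • y = y → g = 1) (hZ : ∀ (g : H) (z : Z), g • z = z → g = 1)
    {F : X → M} (hF : K6_Eq φ F) : K6_push S (K6_push T F) = K6_push (S ∘ₗ T) F := by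
  classical
  funext z
  obtain ⟨s, hs⟩ := hF.fs
  -- the cells hit by `T` from the support of `F`
  set P : Y → Prop := fun y => ∃ x, F x ≠ 0 ∧ mc T x y ≠ 0 with hP
  have hPfs : ∀ y, P y → ∃ h : H, ∃ y' ∈ s.biUnion (fun x => (T (single x 1)).support),
      h • y' = y := by
    rintro y ⟨x, hx, hxy⟩
    obtain ⟨h, x0, hx0, rfl⟩ := hs x hx
    refine ⟨h, h⁻¹ • y, ?_, smul_inv_smul h y⟩
    rw [Finset.mem_biUnion]
    refine ⟨x0, hx0, ?_⟩
    rw [Finsupp.mem_support_iff]
    have h3 := hT.mc_smul h x0 (h⁻¹ • y)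
    rw [smul_inv_smul] at h3
    rw [h3] at hxy
    exact hxy
  have hA := K6_fin S hS hZ P _ hPfs z
  set A : Finset Y := hA.toFinset with hAdef
  have hAmem : ∀ y, y ∈ A ↔ mc S y z ≠ 0 ∧ P y := by
    intro y; rw [hAdef, Set.Finite.mem_toFinset]; rfl
  set B : Finset X := A.biUnion (fun y => (K6_fin' T hT hY hF y).toFinset) with hB
  have hBmem : ∀ x, x ∈ B ↔ ∃ y ∈ A, mc T x y ≠ 0 ∧ F x ≠ 0 := by
    intro x
    rw [hB, Finset.mem_biUnion]
    refine exists_congr fun y => and_congr Iff.rfl ?_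
    rw [Set.Finite.mem_toFinset]; rfl
  have e1 : K6_push S (K6_push T F) z = ∑ y ∈ A, mc S y z • K6_push T F y := by
    refine K6_push_eq_sum S _ z A fun y hy hy' => (hAmem y).2 ⟨hy, ?_⟩
    by_contra hcon
    apply hy'
    have h1 : ∀ x, mc T x y • F x = 0 := by
      intro x
      by_cases hx : F x = 0
      · rw [hx, smul_zero]
      · by_cases hx' : mc T x y = 0
        · rw [hx', zero_smul]
        · exact absurd ⟨x, hx, hx'⟩ hcon
    unfold K6_push
    rw [finsum_congr h1, finsum_zero]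
  have e2 : ∀ y ∈ A, K6_push T F y = ∑ x ∈ B, mc T x y • F x := by
    intro y hy
    exact K6_push_eq_sum T F y B fun x hx hx' => (hBmem x).2 ⟨y, hy, hx, hx'⟩
  have e3 : ∀ x, F x ≠ 0 → mc (S ∘ₗ T) x z = ∑ y ∈ A, mc T x y * mc S y z := by
    intro x hx
    have h1 : mc (S ∘ₗ T) x z = ∑ y ∈ (T (single x 1)).support, mc T x y * mc S y z := by
      unfold mc
      rw [LinearMap.comp_apply]
      have h2 : T (single x 1) = ∑ y ∈ (T (single x 1)).support,
          (T (single x 1) y) • single y (1 : ℤ) := by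
        conv_lhs => rw [← Finsupp.sum_single (T (single x 1))]
        unfold Finsupp.sum
        exact Finset.sum_congr rfl fun y _ => by simp
      conv_lhs => rw [h2]
      rw [map_sum, Finsupp.finsetSum_apply]
      refine Finset.sum_congr rfl fun y _ => ?_
      rw [map_smul, Finsupp.smul_apply, smul_eq_mul]
    have h3 : ∑ y ∈ A, mc T x y * mc S y z =
        ∑ y ∈ A ∪ (T (single x 1)).support, mc T x y * mc S y z := by
      refine Finset.sum_subset Finset.subset_union_left fun y _ hy => ?_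
      by_contra hne
      apply hy
      refine (hAmem y).2 ⟨right_ne_zero_of_mul hne, x, hx, left_ne_zero_of_mul hne⟩
    have h4 : ∑ y ∈ (T (single x 1)).support, mc T x y * mc S y z =
        ∑ y ∈ A ∪ (T (single x 1)).support, mc T x y * mc S y z := by
      refine Finset.sum_subset Finset.subset_union_right fun y _ hy => ?_
      rw [Finsupp.mem_support_iff, not_not] at hy
      have : mc T x y = 0 := hy
      rw [this, zero_mul]
    rw [h1, h3, h4]
  have e4 : K6_push (S ∘ₗ T) F z = ∑ x ∈ B, mc (S ∘ₗ T) x z • F x := by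
    refine K6_push_eq_sum _ F z B fun x hx hx' => ?_
    rw [e3 x hx'] at hx
    obtain ⟨y, hy, hxy⟩ := Finset.exists_ne_zero_of_sum_ne_zero hx
    exact (hBmem x).2 ⟨y, hy, left_ne_zero_of_mul hxy, hx'⟩
  rw [e1, e4, Finset.sum_congr rfl fun y hy => by rw [e2 y hy]]
  simp only [Finset.smul_sum]
  rw [Finset.sum_comm]
  refine Finset.sum_congr rfl fun x hx => ?_
  obtain ⟨y, _, _, hx'⟩ := (hBmem x).1 hx
  rw [e3 x hx', Finset.sum_smul]
  refine Finset.sum_congr rfl fun y _ => ?_
  rw [smul_smul, mul_comm]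

theorem K6_push_sub_left (S T : ZMap X Y) (hS : Eqv H S) (hT : Eqv H T)
    (hY : ∀ (g : H) (y : Y), g • y = y → g = 1) {F : X → M} (hF : K6_Eq φ F) :
    K6_push (S - T) F = K6_push S F - K6_push T F := by
  classical
  funext y
  set A : Finset X := (K6_fin' S hS hY hF y).toFinset ∪ (K6_fin' T hT hY hF y).toFinset with hA
  have h1 : ∀ x, mc S x y ≠ 0 → F x ≠ 0 → x ∈ A := fun x hx hx' =>
    Finset.mem_union_left _ ((Set.Finite.mem_toFinset _).2 ⟨hx, hx'⟩)
  have h2 : ∀ x, mc T x y ≠ 0 → F x ≠ 0 → x ∈ A := fun x hx hx' =>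
    Finset.mem_union_right _ ((Set.Finite.mem_toFinset _).2 ⟨hx, hx'⟩)
  have h0 : ∀ x, mc (S - T) x y = mc S x y - mc T x y := fun x => by
    unfold mc
    rw [LinearMap.sub_apply, Finsupp.sub_apply]
  have h3 : ∀ x, mc (S - T) x y ≠ 0 → F x ≠ 0 → x ∈ A := by
    intro x hx hx'
    by_cases h : mc S x y = 0
    · refine h2 x ?_ hx'
      intro h4
      rw [h0, h, h4, sub_zero] at hx
      exact hx rfl
    · exact h1 x h hx'
  rw [Pi.sub_apply, K6_push_eq_sum S F y A h1, K6_push_eq_sum T F y A h2,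
    K6_push_eq_sum _ F y A h3, ← Finset.sum_sub_distrib]
  refine Finset.sum_congr rfl fun x _ => ?_
  rw [h0, sub_smul]

theorem K6_push_sub_right (T : ZMap X Y) (hT : Eqv H T)
    (hY : ∀ (g : H) (y : Y), g • y = y → g = 1) {F G : X → M} (hF : K6_Eq φ F)
    (hG : K6_Eq φ G) : K6_push T (F - G) = K6_push T F - K6_push T G := by
  classical
  funext y
  set A : Finset X := (K6_fin' T hT hY hF y).toFinset ∪ (K6_fin' T hT hY hG y).toFinset with hA
  have h1 : ∀ x, mc T x y ≠ 0 → F x ≠ 0 → x ∈ A := fun x hx hx' =>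
    Finset.mem_union_left _ ((Set.Finite.mem_toFinset _).2 ⟨hx, hx'⟩)
  have h2 : ∀ x, mc T x y ≠ 0 → G x ≠ 0 → x ∈ A := fun x hx hx' =>
    Finset.mem_union_right _ ((Set.Finite.mem_toFinset _).2 ⟨hx, hx'⟩)
  have h3 : ∀ x, mc T x y ≠ 0 → (F - G) x ≠ 0 → x ∈ A := by
    intro x hx hx'
    by_cases h : F x = 0
    · refine h2 x hx ?_
      intro h4
      rw [Pi.sub_apply, h, h4, sub_zero] at hx'
      exact hx' rfl
    · exact h1 x hx h
  rw [Pi.sub_apply, K6_push_eq_sum T F y A h1, K6_push_eq_sum T G y A h2,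
    K6_push_eq_sum _ _ y A h3, ← Finset.sum_sub_distrib]
  refine Finset.sum_congr rfl fun x _ => ?_
  rw [Pi.sub_apply, smul_sub]

theorem K6_sub {F G : X → M} (hF : K6_Eq φ F) (hG : K6_Eq φ G) : K6_Eq φ (F - G) := by
  classical
  refine ⟨fun h x => ?_, ?_⟩
  · rw [Pi.sub_apply, Pi.sub_apply, hF.eqv, hG.eqv, smul_sub]
  · obtain ⟨s, hs⟩ := hF.fs
    obtain ⟨t, ht⟩ := hG.fs
    refine ⟨s ∪ t, fun x hx => ?_⟩
    by_cases h : F x = 0
    · have h1 : G x ≠ 0 := by
        intro h4
        rw [Pi.sub_apply, h, h4, sub_zero] at hx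
        exact hx rfl
      obtain ⟨a, y, hy, e⟩ := ht x h1
      exact ⟨a, y, Finset.mem_union_right _ hy, e⟩
    · obtain ⟨a, y, hy, e⟩ := hs x h
      exact ⟨a, y, Finset.mem_union_left _ hy, e⟩

theorem K6_push_id (F : X → M) : K6_push (LinearMap.id : ZMap X X) F = F := by
  classical
  funext y
  have h1 : ∀ x, mc (LinearMap.id : ZMap X X) x y = if x = y then 1 else 0 := by
    intro x
    unfold mc
    rw [LinearMap.id_apply, Finsupp.single_apply]
  rw [K6_push_eq_sum _ F y {y}]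
  · rw [Finset.sum_singleton, h1, if_pos rfl, one_smul]
  · intro x hx _
    rw [h1] at hx
    rw [Finset.mem_singleton]
    by_contra hne
    rw [if_neg hne] at hx
    exact hx rfl

theorem K6_push_zero (T : ZMap X Y) : K6_push T (0 : X → M) = 0 := by
  funext y
  unfold K6_push
  have h1 : ∀ x : X, mc T x y • (0 : X → M) x = 0 := fun x => by rw [Pi.zero_apply, smul_zero]
  rw [finsum_congr h1, finsum_zero]
  rfl

end push

/-- cycles -/
def K6_Cyc {X : ℕ → Type*} {M : Type*} [AddCommGroup M] (dX : ∀ k, ZMap (X (k + 1)) (X k)) :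
    (k : ℕ) → (X k → M) → Prop
  | 0, _ => True
  | k + 1, f => K6_push (dX k) f = 0

/-- transfer from one free complex to a resolution of finite type -/
theorem K6_transfer {H : Type v'} [Group H] {Γ : Type v} [Group Γ] (φ : H →* Γ) {M : Type w'}
    [AddCommGroup M] [DistribMulAction Γ M] {X : ℕ → Type u} [∀ k, MulAction H (X k)]
    (hX : ∀ k (g : H) (x : X k), g • x = x → g = 1)
    (dX : ∀ k, ZMap (X (k + 1)) (X k)) (hdX : ∀ k, Eqv H (dX k))
    (eX : (X 0 →₀ ℤ) →ₗ[ℤ] ℤ) (heX : ∀ (g : H) c, eX (gact g c) = eX c)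
    (heXs : ∃ c, eX c = 1) (hXe : ∀ c, eX (dX 0 c) = 0)
    (hXd : ∀ k c, dX k (dX (k + 1) c) = 0) (hX0 : ∀ c, eX c = 0 → ∃ b, dX 0 b = c)
    (hXex : ∀ k c, dX k c = 0 → ∃ b, dX (k + 1) b = c)
    (F : FreeRes.{u', v'} H) (p : ℕ) (hF : HV φ F M p) (f : X p → M) (hf : K6_Eq φ f)
    (hcyc : K6_Cyc dX p f) : ∃ W : X (p + 1) → M, K6_Eq φ W ∧ K6_push (dX p) W = f := by
  obtain ⟨β, hβ, hβe, hβd⟩ := exists_chainMapG (Γ := H) (X := F.X) (Y := X) F.free F.d dX
    (fun k => F.d_act k) hdX (fun _ n => n) F.eps eX F.eps_act heX F.eps_d F.d_d (by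
      intro x
      obtain ⟨c, hc⟩ := heXs
      exact ⟨F.eps (single x 1) • c, by rw [map_smul, hc, smul_eq_mul, mul_one]⟩) hX0 hXex
  obtain ⟨α', hα', hαe, hαd'⟩ := exists_chainMapG (Γ := H) (X := X) (Y := F.X) hX dX F.d hdX
    (fun k => F.d_act k) (fun _ n => n) eX F.eps heX F.eps_act hXe hXd (by
      intro x
      obtain ⟨c, hc⟩ := F.eps_surj
      exact ⟨eX (single x 1) • c, by rw [map_smul, hc, smul_eq_mul, mul_one]⟩) F.exact0 F.exact
  obtain ⟨h, hh, hh0, hhd⟩ := exists_homotopyG (Γ := H) (X := X) (Y := X) hX dX dX hdX hdX eX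
    hXd hXd hX0 hXex (fun k => β k ∘ₗ α' k) (fun _ => LinearMap.id)
    (fun k => (hβ k).comp (hα' k)) (fun _ _ _ => rfl)
    (fun c => by rw [LinearMap.comp_apply, hβe, hαe, LinearMap.id_apply])
    (fun k c => by rw [LinearMap.comp_apply, hβd, hαd', LinearMap.comp_apply])
    (fun _ _ => rfl)
  have hg := K6_push_eqv (α' p) (hα' p) hf
  -- the image is a cycle
  have hgc : CycM F p (K6_push (α' p) f) := by
    cases p with
    | zero => trivial
    | succ k =>
      have h1 : bdM F k (K6_push (α' (k + 1)) f) = K6_push (F.d k) (K6_push (α' (k + 1)) f) := rfl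
      have h2 : (F.d k) ∘ₗ (α' (k + 1)) = (α' k) ∘ₗ (dX k) :=
        LinearMap.ext fun c => hαd' k c
      have h3 : K6_push (dX k) f = 0 := hcyc
      change bdM F k (K6_push (α' (k + 1)) f) = 0
      rw [h1, K6_push_comp (F.d k) (α' (k + 1)) (fun g c => F.d_act k g c) (hα' (k + 1))
        (F.free (k + 1)) (F.free k) hf, h2,
        ← K6_push_comp (α' k) (dX k) (hα' k) (hdX k) (hX k) (F.free k) hf, h3, K6_push_zero]
  obtain ⟨w0, hw0, hw0d⟩ := hF _ hg.eqv hgc
  have hw : K6_Eq φ w0 := by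
    refine ⟨hw0, ?_⟩
    obtain ⟨s, hs⟩ := F.fin (p + 1)
    exact ⟨s, fun x _ => hs x⟩
  have hw0d' : K6_push (F.d p) w0 = K6_push (α' p) f := hw0d
  have e1 : K6_push (β p ∘ₗ α' p) f = K6_push (dX p) (K6_push (β (p + 1)) w0) := by
    have h2 : (dX p) ∘ₗ (β (p + 1)) = (β p) ∘ₗ (F.d p) := LinearMap.ext fun c => hβd p c
    rw [← K6_push_comp (β p) (α' p) (hβ p) (hα' p) (F.free p) (hX p) hf, ← hw0d',
      K6_push_comp (β p) (F.d p) (hβ p) (fun g c => F.d_act p g c) (F.free p) (hX p) hw, ← h2,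
      K6_push_comp (dX p) (β (p + 1)) (hdX p) (hβ (p + 1)) (hX (p + 1)) (hX p) hw]
  have e2 : K6_push (dX p) (K6_push (h p) f) = K6_push (β p ∘ₗ α' p) f - f := by
    rw [K6_push_comp (dX p) (h p) (hdX p) (hh p) (hX (p + 1)) (hX p) hf]
    cases p with
    | zero =>
      have h2 : (dX 0) ∘ₗ (h 0) = (β 0 ∘ₗ α' 0) - LinearMap.id :=
        LinearMap.ext fun c => hh0 c
      rw [h2, K6_push_sub_left (β 0 ∘ₗ α' 0) LinearMap.id ((hβ 0).comp (hα' 0))
        (fun _ _ => rfl) (hX 0) hf, K6_push_id]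
    | succ k =>
      have h3 : K6_push (dX k) f = 0 := hcyc
      have h2 : (dX (k + 1)) ∘ₗ (h (k + 1)) =
          ((β (k + 1) ∘ₗ α' (k + 1)) - LinearMap.id) - (h k ∘ₗ dX k) :=
        LinearMap.ext fun c => hhd k c
      have h4 : Eqv H ((β (k + 1) ∘ₗ α' (k + 1)) - LinearMap.id) := by
        intro g c
        rw [LinearMap.sub_apply, LinearMap.sub_apply, map_sub, LinearMap.id_apply,
          LinearMap.id_apply, ((hβ (k + 1)).comp (hα' (k + 1))) g c]
      rw [h2, K6_push_sub_left _ (h k ∘ₗ dX k) h4 ((hh k).comp (hdX k)) (hX (k + 1)) hf,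
        K6_push_sub_left (β (k + 1) ∘ₗ α' (k + 1)) LinearMap.id
          ((hβ (k + 1)).comp (hα' (k + 1))) (fun _ _ => rfl) (hX (k + 1)) hf, K6_push_id,
        ← K6_push_comp (h k) (dX k) (hh k) (hdX k) (hX k) (hX (k + 1)) hf, h3, K6_push_zero,
        sub_zero]
  have hA := K6_push_eqv (β (p + 1)) (hβ (p + 1)) hw
  have hB := K6_push_eqv (h p) (hh p) hf
  refine ⟨K6_push (β (p + 1)) w0 - K6_push (h p) f, K6_sub hA hB, ?_⟩
  rw [K6_push_sub_right (dX p) (hdX p) (hX p) hA hB, ← e1, e2]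
  abel

/-- the solution at one point -/
theorem K6_point {Γ : Type v} [Group Γ] (R : FreeRes.{u, v} Γ) (Q : Type w)
    [MulAction Γ Q] (M : Type w') [AddCommGroup M] [DistribMulAction Γ M] (p : ℕ) (x : Q)
    (H : Type v') [Group H] (φ : H →* Γ) (F : FreeRes.{u', v'} H) (hφ : Function.Injective φ)
    (hr : φ.range = MulAction.stabilizer Γ x) (hv : HV φ F M p) (f : R.X p → TW Q M)
    (hf : IsEq (MonoidHom.id Γ) R (TW Q M) p f) (hc : CycM R p f) :
    ∃ W : R.X (p + 1) → M, (∀ g ∈ MulAction.stabilizer Γ x, ∀ c, W (g • c) = g • W c) ∧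
      (∃ s : Finset (R.X (p + 1)), ∀ c, W c ≠ 0 →
        ∃ g ∈ MulAction.stabilizer Γ x, ∃ y ∈ s, g • y = c) ∧
      (∀ y, ∑ᶠ c, R.coef p c y • W c = (show Q →₀ M from f y) x) ∧
      ((∀ c, (show Q →₀ M from f c) x = 0) → W = 0) := by
  classical
  by_cases h0 : ∀ c, (show Q →₀ M from f c) x = 0
  · refine ⟨0, ?_, ⟨∅, ?_⟩, ?_, fun _ => rfl⟩
    · intro g _ c
      rw [Pi.zero_apply, Pi.zero_apply, smul_zero]
    · intro c hc
      exact absurd rfl hc
    · intro y
      rw [h0 y, finsum_congr (g := fun _ => (0 : M)) fun c => by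
        rw [Pi.zero_apply, smul_zero], finsum_zero]
  -- the action of `H`
  let _ : ∀ k, MulAction H (R.X k) := fun k => MulAction.compHom (R.X k) φ
  have hsm : ∀ (k : ℕ) (h : H) (c : R.X k), h • c = φ h • c := fun _ _ _ => rfl
  have hga : ∀ (k : ℕ) (h : H) (c : R.X k →₀ ℤ), gact h c = gact (φ h) c := fun _ _ _ => rfl
  have hstab : ∀ h : H, φ h • x = x := by
    intro h
    have h1 : φ h ∈ MulAction.stabilizer Γ x := by
      rw [← hr]; exact ⟨h, rfl⟩
    exact h1
  have hfe : ∀ (g : Γ) (c : R.X p) (q : Q),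
      (show Q →₀ M from f (g • c)) q = g • (show Q →₀ M from f c) (g⁻¹ • q) := by
    intro g c q
    have h1 : f (g • c) = g • f c := hf g c
    rw [h1]
    exact tw_smul_apply g (f c) q
  obtain ⟨W, hW1, hW2⟩ := K6_transfer φ (M := M) (X := R.X)
    (fun k g c h => hφ ((R.free k (φ g) c h).trans (map_one φ).symm)) R.d
    (fun k g c => R.d_act k (φ g) c) R.eps (fun g c => R.eps_act (φ g) c) R.eps_surj R.eps_d
    R.d_d R.exact0 R.exact F p hv (fun c => (show Q →₀ M from f c) x) (by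
      refine ⟨?_, ?_⟩
      · intro h c
        change (show Q →₀ M from f (φ h • c)) x = _
        rw [hfe]
        have h1 : (φ h)⁻¹ • x = x := by
          rw [inv_smul_eq_iff]; exact (hstab h).symm
        rw [h1]
      · -- finiteness
        obtain ⟨s, hs⟩ := R.fin p
        have hch : ∀ q : Q, ∃ g : Γ, (∃ g' : Γ, g' • q = x) → g • q = x := by
          intro q
          by_cases h1 : ∃ g' : Γ, g' • q = x
          · exact ⟨h1.choose, fun _ => h1.choose_spec⟩
          · exact ⟨1, fun h2 => absurd h2 h1⟩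
        choose γ hγ using hch
        refine ⟨s.biUnion fun e => ((show Q →₀ M from f e).support).image
          (fun q => γ q • e), ?_⟩
        intro c hcne
        obtain ⟨g, e, he, rfl⟩ := hs c
        have h1 : (show Q →₀ M from f (g • e)) x ≠ 0 := hcne
        rw [hfe] at h1
        have h2 : (show Q →₀ M from f e) (g⁻¹ • x) ≠ 0 := by
          intro h3
          rw [h3, smul_zero] at h1
          exact h1 rfl
        have h3 : γ (g⁻¹ • x) • (g⁻¹ • x) = x := hγ _ ⟨g, smul_inv_smul g x⟩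
        have h4 : g * (γ (g⁻¹ • x))⁻¹ ∈ φ.range := by
          rw [hr, MulAction.mem_stabilizer_iff]
          have h5 : (γ (g⁻¹ • x))⁻¹ • x = g⁻¹ • x := by
            rw [inv_smul_eq_iff]; exact h3.symm
          rw [mul_smul, h5, smul_inv_smul]
        obtain ⟨h, hh⟩ := h4
        refine ⟨h, γ (g⁻¹ • x) • e, ?_, ?_⟩
        · rw [Finset.mem_biUnion]
          exact ⟨e, he, Finset.mem_image.2 ⟨g⁻¹ • x, Finsupp.mem_support_iff.2 h2, rfl⟩⟩
        · rw [hsm, hh, smul_smul, inv_mul_cancel_right])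
    (by
      cases p with
      | zero => trivial
      | succ k =>
        have h1 : bdM R k f = 0 := hc
        change K6_push (R.d k) (fun c => (show Q →₀ M from f c) x) = 0
        funext y
        have h2 : (show Q →₀ M from bdM (M := TW Q M) R k f y) x = 0 := by
          rw [h1]; rfl
        have hfin : (Function.support fun c => R.coef k c y • (show Q →₀ M from f c)).Finite := by
          refine (R.finite_coef_right k y).subset fun c hc hc' => ?_
          rw [Function.mem_support] at hc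
          exact hc (by rw [hc', zero_smul])
        have h3 : (show Q →₀ M from bdM (M := TW Q M) R k f y) x =
            ∑ᶠ c, R.coef k c y • (show Q →₀ M from f c) x := by
          have h4 := AddMonoidHom.map_finsum (Finsupp.applyAddHom (M := M) x) hfin
          exact h4
        rw [h3] at h2
        exact h2)
  refine ⟨W, ?_, ?_, ?_, fun h => absurd h h0⟩
  · intro g hg c
    rw [← hr] at hg
    obtain ⟨h, rfl⟩ := hg
    exact hW1.eqv h c
  · obtain ⟨s, hs⟩ := hW1.fs
    refine ⟨s, fun c hc => ?_⟩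
    obtain ⟨h, y, hy, e⟩ := hs c hc
    refine ⟨φ h, ?_, y, hy, e⟩
    rw [← hr]; exact ⟨h, rfl⟩
  · intro y
    exact congrFun hW2 y

/-! ## K6 (file KShap): Shapiro's lemma for `Γ`-sets -/

theorem HV_set_of_stab {Γ : Type v} [Group Γ] (R : FreeRes.{u, v} Γ) (Q : Type w)
    [MulAction Γ Q] (M : Type w') [AddCommGroup M] [DistribMulAction Γ M] (p : ℕ)
    (h : ∀ x : Q, ∃ (H : Type v') (_ : Group H) (φ : H →* Γ) (F : FreeRes.{u', v'} H),
      Function.Injective φ ∧ φ.range = MulAction.stabilizer Γ x ∧ HV φ F M p) :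
    HV (MonoidHom.id Γ) R (TW Q M) p := by
  classical
  intro f hf hc
  have hfe : ∀ (g : Γ) (c : R.X p) (q : Q),
      (show Q →₀ M from f (g • c)) q = g • (show Q →₀ M from f c) (g⁻¹ • q) := by
    intro g c q
    have h1 : f (g • c) = g • f c := hf g c
    rw [h1]
    exact tw_smul_apply g (f c) q
  have hpt : ∀ x : Q, ∃ W : R.X (p + 1) → M,
      (∀ g ∈ MulAction.stabilizer Γ x, ∀ c, W (g • c) = g • W c) ∧
      (∃ s : Finset (R.X (p + 1)), ∀ c, W c ≠ 0 →
        ∃ g ∈ MulAction.stabilizer Γ x, ∃ y ∈ s, g • y = c) ∧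
      (∀ y, ∑ᶠ c, R.coef p c y • W c = (show Q →₀ M from f y) x) ∧
      ((∀ c, (show Q →₀ M from f c) x = 0) → W = 0) := by
    intro x
    obtain ⟨H, hH, φ, F, hφ, hr, hv⟩ := h x
    exact K6_point R Q M p x H φ F hφ hr hv f hf hc
  choose W hW1 hW2 hW3 hW4 using hpt
  choose S hS using hW2
  -- orbit representatives
  let rep : Q → Q := fun x => Quotient.out (Quotient.mk (MulAction.orbitRel Γ Q) x)
  have hrep : ∀ x, ∃ g : Γ, g • rep x = x := by
    intro x
    have h1 : (MulAction.orbitRel Γ Q) x (rep x) :=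
      (MulAction.orbitRel Γ Q).symm (Quotient.mk_out (s := MulAction.orbitRel Γ Q) x)
    exact MulAction.orbitRel_apply.1 h1
  have hrep2 : ∀ (g : Γ) x, rep (g • x) = rep x := by
    intro g x
    show Quotient.out _ = Quotient.out _
    congr 1
    apply Quotient.sound
    exact MulAction.orbitRel_apply.2 ⟨g, rfl⟩
  choose γ hγ using hrep
  have hrep3 : ∀ x, rep (rep x) = rep x := by
    intro x
    have h1 := hrep2 (γ x) (rep x)
    rw [hγ] at h1
    exact h1.symm
  -- the values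
  let G : Q → R.X (p + 1) → M := fun q c => γ q • W (rep q) ((γ q)⁻¹ • c)
  have hG : ∀ (q : Q) (g : Γ), g • rep q = q → ∀ c, G q c = g • W (rep q) (g⁻¹ • c) := by
    intro q g hg c
    have h1 : g⁻¹ * γ q ∈ MulAction.stabilizer Γ (rep q) := by
      rw [MulAction.mem_stabilizer_iff, mul_smul, hγ, inv_smul_eq_iff]
      exact hg.symm
    have h2 := hW1 (rep q) _ h1 ((γ q)⁻¹ • c)
    rw [mul_smul, smul_inv_smul] at h2
    rw [h2, smul_smul, mul_inv_cancel_left]
  have hGe : ∀ (g : Γ) (q : Q) (c : R.X (p + 1)), G (g • q) (g • c) = g • G q c := by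
    intro g q c
    rw [hG (g • q) (g * γ q) (by rw [hrep2, mul_smul, hγ]) (g • c), hrep2, mul_inv_rev,
      mul_smul, mul_smul, inv_smul_smul]
  -- finite supports
  have hGfin : ∀ c, (Function.support fun q => G q c).Finite := by
    intro c
    obtain ⟨s, hs⟩ := R.fin p
    let P : Finset Q := (s.biUnion fun e => (show Q →₀ M from f e).support).image rep
    have hP : ∀ x : Q, W (rep x) ≠ 0 → rep x ∈ P := by
      intro x hx
      have h1 : ¬ ∀ c, (show Q →₀ M from f c) (rep x) = 0 := fun h => hx (hW4 _ h)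
      push Not at h1
      obtain ⟨c', hc'⟩ := h1
      obtain ⟨g, e, he, rfl⟩ := hs c'
      rw [hfe] at hc'
      have h2 : (show Q →₀ M from f e) (g⁻¹ • rep x) ≠ 0 := by
        intro h3
        rw [h3, smul_zero] at hc'
        exact hc' rfl
      refine Finset.mem_image.2 ⟨g⁻¹ • rep x, ?_, ?_⟩
      · rw [Finset.mem_biUnion]
        exact ⟨e, he, Finsupp.mem_support_iff.2 h2⟩
      · rw [hrep2, hrep3]
    have hfin : (⋃ x0 ∈ (P : Set Q), ⋃ y ∈ (S x0 : Set (R.X (p + 1))),
        {q | ∃ g : Γ, g • y = c ∧ q = g • x0}).Finite := by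
      refine P.finite_toSet.biUnion fun x0 _ => (S x0).finite_toSet.biUnion fun y _ => ?_
      refine Set.Subsingleton.finite ?_
      rintro q ⟨g, hg, rfl⟩ q' ⟨g', hg', rfl⟩
      rw [R.eq_of_smul_eq (hg.trans hg'.symm)]
    refine hfin.subset ?_
    intro q hq
    have hq1 : W (rep q) ((γ q)⁻¹ • c) ≠ 0 := by
      intro h3
      apply hq
      change γ q • W (rep q) ((γ q)⁻¹ • c) = 0
      rw [h3, smul_zero]
    have hq2 : W (rep q) ≠ 0 := by
      intro h3
      rw [h3] at hq1
      exact hq1 rfl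
    obtain ⟨g, hg, y, hy, e⟩ := hS (rep q) _ hq1
    refine Set.mem_biUnion (x := rep q) (Finset.mem_coe.2 (hP q hq2)) ?_
    refine Set.mem_biUnion (x := y) (Finset.mem_coe.2 hy) ?_
    refine ⟨γ q * g, ?_, ?_⟩
    · rw [mul_smul, e, smul_inv_smul]
    · rw [mul_smul, MulAction.mem_stabilizer_iff.1 hg, hγ]
  refine ⟨fun c => (Finsupp.ofSupportFinite (fun q => G q c) (hGfin c) : Q →₀ M), ?_, ?_⟩
  · intro g c
    refine Finsupp.ext fun q => ?_
    change G q (g • c) = _
    have h1 : q = g • (g⁻¹ • q) := (smul_inv_smul g q).symm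
    have h2 : (show Q →₀ M from ((MonoidHom.id Γ) g • (show TW Q M from
        (Finsupp.ofSupportFinite (fun q => G q c) (hGfin c) : Q →₀ M)))) q =
        g • G (g⁻¹ • q) c := tw_smul_apply g _ q
    refine Eq.trans ?_ h2.symm
    conv_lhs => rw [h1]
    rw [hGe]
  · funext y
    refine Finsupp.ext fun q => ?_
    have hfin : (Function.support fun c => R.coef p c y •
        (Finsupp.ofSupportFinite (fun q => G q c) (hGfin c) : Q →₀ M)).Finite := by
      refine (R.finite_coef_right p y).subset fun c hc hc' => ?_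
      rw [Function.mem_support] at hc
      exact hc (by rw [hc', zero_smul])
    have h3 : (show Q →₀ M from bdM (M := TW Q M) R p (fun c =>
        (Finsupp.ofSupportFinite (fun q => G q c) (hGfin c) : Q →₀ M)) y) q =
        ∑ᶠ c, R.coef p c y • G q c := by
      have h4 := AddMonoidHom.map_finsum (Finsupp.applyAddHom (M := M) q) hfin
      exact h4
    refine h3.trans ?_
    -- change of variables
    rw [← finsum_comp_equiv (MulAction.toPerm (γ q))]
    have h5 : ∀ c : R.X (p + 1), R.coef p (MulAction.toPerm (γ q) c) y •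
        G q (MulAction.toPerm (γ q) c) =
        (DistribSMul.toAddMonoidHom M (γ q)) (R.coef p c ((γ q)⁻¹ • y) • W (rep q) c) := by
      intro c
      rw [MulAction.toPerm_apply]
      have h6 : R.coef p (γ q • c) y = R.coef p c ((γ q)⁻¹ • y) := by
        have h7 := R.coef_smul p (γ q) c ((γ q)⁻¹ • y)
        rwa [smul_inv_smul] at h7
      rw [h6, map_zsmul]
      change _ • (γ q • W (rep q) ((γ q)⁻¹ • (γ q • c))) = _
      rw [inv_smul_smul]
      rfl
    rw [finsum_congr h5]
    have hinj : Function.Injective (DistribSMul.toAddMonoidHom M (γ q)) := by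
      intro a b e
      exact MulAction.injective (γ q) e
    rw [← AddMonoidHom.map_finsum_of_injective (DistribSMul.toAddMonoidHom M (γ q)) hinj,
      hW3 (rep q)]
    change γ q • (show Q →₀ M from f ((γ q)⁻¹ • y)) (rep q) = _
    rw [hfe, inv_inv, hγ, smul_inv_smul]

end GP

end OS
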