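import Mathlib
import Pool.Agent.Lib.MP_8fe54c_gt.KHarm
import Pool.Agent.Lib.MP_8fe54c_gt.KCent
import Pool.Agent.Lib.MP_8fe54c_gt.KShap
import Pool.Agent.Lib.MP_8fe54c_gt.KEng

/-!
# The form of the engine for the Artin side (project K, module K11')
-/

namespace OS

namespace GP

open Finsupp

universe u v w u' v' w'

/-- the resolution of the trivial group -/
noncomputable def trivRes : FreeRes.{0, 0} PUnit where
  X k := if k = 0 then PUnit else PEmpty
  act k := by
    split_ifs <;> infer_instance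
  free k g x _ := Subsingleton.elim _ _
  fin k := by
    rcases Nat.eq_zero_or_pos k with rfl | hk
    · exact ⟨{PUnit.unit}, fun x => ⟨1, PUnit.unit, by simp, Subsingleton.elim (α := PUnit) _ _⟩⟩
    · have h : IsEmpty (if k = 0 then PUnit else PEmpty) := by
        rw [if_neg (by omega)]; infer_instance
      exact ⟨∅, fun x => h.elim x⟩
  d k := 0
  eps := Finsupp.lapply PUnit.unit
  d_act k g c := (map_zero _).symm
  eps_act g c := by
    have h : g = 1 := Subsingleton.elim _ _
    rw [h, gact_one]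
  eps_surj := ⟨single PUnit.unit 1, by simp⟩
  eps_d c := map_zero _
  d_d k c := rfl
  exact0 c h := ⟨0, by
    ext x
    have h1 : x = PUnit.unit := Subsingleton.elim (α := PUnit) _ _
    rw [h1]
    simpa using h.symm⟩
  exact k c h := ⟨0, by
    ext x
    have h2 : IsEmpty (if k + 1 = 0 then PUnit else PEmpty) := by
      rw [if_neg (by omega)]; infer_instance
    exact h2.elim x⟩

/-- free `Γ`-sets -/
theorem HV_set_of_free {Γ : Type v} [Group Γ] (R : FreeRes.{u, v} Γ) (Q : Type w)
    [MulAction Γ Q] (hQ : ∀ (g : Γ) (x : Q), g • x = x → g = 1) (M : Type w') [AddCommGroup M]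
    [DistribMulAction Γ M] (p : ℕ) (hp : p ≠ 0) : HV (MonoidHom.id Γ) R (TW Q M) p := by
  refine HV_set_of_stab.{u, v, w, 0, 0, w'} R Q M p fun x =>
    ⟨PUnit, inferInstance, 1, trivRes, ?_, ?_, ?_⟩
  · intro a b _
    exact Subsingleton.elim _ _
  · ext g
    rw [MonoidHom.mem_range, MulAction.mem_stabilizer_iff]
    constructor
    · rintro ⟨a, rfl⟩
      simp
    · intro h
      exact ⟨1, by rw [hQ g x h, map_one]⟩
  · intro f _ _
    have h : IsEmpty (trivRes.X p) := by
      show IsEmpty (if p = 0 then PUnit else PEmpty)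
      rw [if_neg hp]; infer_instance
    have h' : IsEmpty (trivRes.X (p + 1)) := by
      show IsEmpty (if p + 1 = 0 then PUnit else PEmpty)
      rw [if_neg (by omega)]; infer_instance
    exact ⟨fun x => (h'.false x).elim, fun g x => (h'.false x).elim, funext fun x => (h.false x).elim⟩

theorem harmZero_of_cent {V : Type v} [Fintype V] [LinearOrder V] {Γ : Type v'} [Group Γ]
    (R : FreeRes.{u, v'} Γ) (S : CSys.{v, w} V) [∀ σ, MulAction Γ (S.Q σ)]
    (hS : ∀ (g : Γ) {σ τ : Finset V} (h : σ ⊆ τ) (x : S.Q σ), S.pr h (g • x) = g • S.pr h x)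
    (Lc : Finset V → Prop) (hdown : ∀ s t, s ⊆ t → Lc t → Lc s)
    (hempty : Lc ∅) [Nonempty (S.Q ∅)] (hD : DExact S Lc (UM Γ))
    (hfree : ∀ (g : Γ) (x : S.Q ∅), g • x = x → g = 1)
    (hz : ∀ σ, Lc σ → σ.Nonempty → ∃ z : S.Q σ → Γ, (∀ q, z q • q = q) ∧
      (∀ g q, z (g • q) = g * z q * g⁻¹) ∧ ∀ q (n : ℕ), z q ^ n = 1 → n = 0)
    (n : ℕ) (hn : RAc Lc n) : R.HarmZero ℝ n := by
  refine harmZero_of_HV R n (engine R (UM Γ) S hS Lc hdown hempty hD n ?_)
  intro σ hσ p q hpq
  rcases σ.eq_empty_or_nonempty with rfl | hne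
  · by_cases hp : p = 0
    · right
      obtain rfl : q = n := by omega
      have h1 : lk Lc (∅ : Finset V) = Lc := by
        funext ρ
        simp [lk]
      rw [h1]
      exact hn
    · left
      exact HV_set_of_free R (S.Q ∅) hfree (UM Γ) p hp
  · left
    obtain ⟨z, h1, h2, h3⟩ := hz σ hσ hne
    exact HV_set_of_central R (S.Q σ) z h1 h2 h3 p

end GP

end OS
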