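import Mathlib
import Pool.Agent.Lib.MP_8fe54c_gt.GrpB
import Pool.Agent.Lib.MP_8fe54c_gt.TowerBound
import Pool.Agent.Lib.MP_8fe54c_gt.Coll

/-!
# The general obstructor lemma

The elements `a v` of the group `Γ` commute along the edges of the graph `G`, have infinite order,
and for disjoint cliques `s`, `t` of `G` the subgroups generated by `a v`, `v ∈ s`, and by `a v`,
`v ∈ t`, intersect trivially.  Then a tower in the deleted join of the octahedralisation of the
clique complex of `G` gives a tower off the diagonal of each contractible space on which `Γ` acts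
properly.
-/

namespace OS

open Filter Topology Finsupp

section monomials

variable {V : Type*} [DecidableEq V] {Γ : Type*} [Group Γ] (a : V → Γ)

omit [DecidableEq V] in
theorem F3_comm {s : Finset V} (hs : ∀ u ∈ s, ∀ v ∈ s, Commute (a u) (a v)) (n m : V → ℤ) :
    (s : Set V).Pairwise fun u v => Commute (a u ^ n u) (a v ^ m v) :=
  fun u hu v hv _ => (hs u hu v hv).zpow_zpow _ _

/-- the monomial `∏_{v ∈ s} a_v ^ n_v` -/
noncomputable def F3_E {s : Finset V} (hs : ∀ u ∈ s, ∀ v ∈ s, Commute (a u) (a v))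
    (n : V → ℤ) : Γ :=
  s.noncommProd (fun v => a v ^ n v) (F3_comm a hs n n)

variable {a} {s t : Finset V} (hs : ∀ u ∈ s, ∀ v ∈ s, Commute (a u) (a v))
  (ht : ∀ u ∈ t, ∀ v ∈ t, Commute (a u) (a v))

omit [DecidableEq V] in
theorem F3_E_add (n m : V → ℤ) : F3_E a hs (n + m) = F3_E a hs n * F3_E a hs m := by
  unfold F3_E
  rw [← Finset.noncommProd_mul_distrib _ _ (F3_comm a hs n n) (F3_comm a hs m m)
    (F3_comm a hs m n)]
  exact Finset.noncommProd_congr rfl (fun v _ => by simp [zpow_add]) _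

omit [DecidableEq V] in
theorem F3_E_congr {n m : V → ℤ} (h : ∀ v ∈ s, n v = m v) : F3_E a hs n = F3_E a hs m := by
  unfold F3_E
  exact Finset.noncommProd_congr rfl (fun v hv => by rw [h v hv]) _

omit [DecidableEq V] in
theorem F3_E_zero {n : V → ℤ} (h : ∀ v ∈ s, n v = 0) : F3_E a hs n = 1 := by
  unfold F3_E
  rw [Finset.noncommProd_eq_pow_card s _ _ 1 (fun v hv => by rw [h v hv, zpow_zero]), one_pow]

omit [DecidableEq V] in
theorem F3_E_sub (n m : V → ℤ) : F3_E a hs (n - m) = F3_E a hs n * (F3_E a hs m)⁻¹ := by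
  rw [eq_mul_inv_iff_mul_eq, ← F3_E_add, sub_add_cancel]

omit [DecidableEq V] in
theorem F3_E_mem (n : V → ℤ) : F3_E a hs n ∈ Subgroup.closure (a '' (s : Set V)) := by
  unfold F3_E
  exact Subgroup.noncommProd_mem _ _ fun v hv =>
    Subgroup.zpow_mem _ (Subgroup.subset_closure (Set.mem_image_of_mem a (Finset.mem_coe.mpr hv))) _

theorem F3_E_single {v : V} (hv : v ∈ s) (c : ℤ) : F3_E a hs (Pi.single v c) = a v ^ c := by
  have h1 := Finset.mul_noncommProd_erase s hv (fun u => a u ^ (Pi.single v c : V → ℤ) u)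
    (F3_comm a hs _ _)
  have h2 : (s.erase v).noncommProd (fun u => a u ^ (Pi.single v c : V → ℤ) u)
      ((F3_comm a hs _ _).mono (Finset.coe_subset.mpr (Finset.erase_subset v s))) = 1 := by
    rw [Finset.noncommProd_eq_pow_card _ _ _ 1, one_pow]
    intro u hu
    rw [Pi.single_eq_of_ne (Finset.ne_of_mem_erase hu), zpow_zero]
  rw [h2, mul_one] at h1
  unfold F3_E
  rw [← h1]
  simp

theorem F3_E_mul {v : V} (hv : v ∈ s) (c : ℤ) (n : V → ℤ) :
    F3_E a hs n * a v ^ c = F3_E a hs (n + Pi.single v c) := by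
  rw [F3_E_add, F3_E_single hs hv]

theorem F3_mul_E {v : V} (hv : v ∈ s) (c : ℤ) (n : V → ℤ) :
    a v ^ c * F3_E a hs n = F3_E a hs (n + Pi.single v c) := by
  rw [add_comm, F3_E_add, F3_E_single hs hv]

omit [DecidableEq V] in
theorem F3_E_commute {u : V} (hu : ∀ v ∈ s, Commute (a u) (a v)) (c : ℤ) (n : V → ℤ) :
    Commute (a u ^ c) (F3_E a hs n) := by
  unfold F3_E
  exact Finset.noncommProd_commute _ _ _ _ fun v hv => (hu v hv).zpow_zpow _ _

variable {G : SimpleGraph V}

theorem F3_indep (hord : ∀ v, ∀ n : ℤ, a v ^ n = 1 → n = 0)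
    (hdis : ∀ s t : Finset V, G.IsClique (s : Set V) → G.IsClique (t : Set V) → Disjoint s t →
      Subgroup.closure (a '' (s : Set V)) ⊓ Subgroup.closure (a '' (t : Set V)) = ⊥)
    (hG : G.IsClique (s : Set V)) {n : V → ℤ} (h : F3_E a hs n = 1) : ∀ v ∈ s, n v = 0 := by
  intro v hv
  apply hord v
  have h1 : a v ^ n v ∈ Subgroup.closure (a '' (({v} : Finset V) : Set V)) :=
    Subgroup.zpow_mem _ (Subgroup.subset_closure (Set.mem_image_of_mem a
      (Finset.mem_coe.mpr (Finset.mem_singleton_self v)))) _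
  have h2 : a v ^ n v ∈ Subgroup.closure (a '' ((s.erase v : Finset V) : Set V)) := by
    have h3 : F3_E a hs n = a v ^ n v * F3_E a (s := s.erase v)
        (fun u hu w hw => hs u (Finset.mem_of_mem_erase hu) w (Finset.mem_of_mem_erase hw)) n :=
      (Finset.mul_noncommProd_erase s hv (fun u => a u ^ n u) (F3_comm a hs n n)).symm
    rw [h] at h3
    rw [eq_inv_of_mul_eq_one_left h3.symm]
    exact Subgroup.inv_mem _ (F3_E_mem _ _)
  have h4 := hdis {v} (s.erase v) (by simp) (hG.subset (by simp)) (by simp)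
  have h5 : a v ^ n v ∈ (⊥ : Subgroup Γ) := h4 ▸ Subgroup.mem_inf.mpr ⟨h1, h2⟩
  exact Subgroup.mem_bot.mp h5

theorem F3_inj (hord : ∀ v, ∀ n : ℤ, a v ^ n = 1 → n = 0)
    (hdis : ∀ s t : Finset V, G.IsClique (s : Set V) → G.IsClique (t : Set V) → Disjoint s t →
      Subgroup.closure (a '' (s : Set V)) ⊓ Subgroup.closure (a '' (t : Set V)) = ⊥)
    (hGs : G.IsClique (s : Set V)) (hGt : G.IsClique (t : Set V)) (hst : Disjoint s t)
    {n n' : V → ℤ} (h : F3_E a ht n * F3_E a hs n = F3_E a ht n' * F3_E a hs n') :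
    ∀ v ∈ s ∪ t, n v = n' v := by
  have h1 : F3_E a ht (-n' + n) = F3_E a hs (n' - n) := by
    have h2 : F3_E a ht (-n' + n) = (F3_E a ht n')⁻¹ * F3_E a ht n := by
      rw [F3_E_add]
      congr 1
      rw [eq_comm, inv_eq_iff_mul_eq_one, ← F3_E_add]
      exact F3_E_zero ht (by simp)
    rw [h2, F3_E_sub, inv_mul_eq_iff_eq_mul, ← mul_assoc, eq_mul_inv_iff_mul_eq]
    exact h
  have h3 : F3_E a ht (-n' + n) ∈ (⊥ : Subgroup Γ) := by
    rw [← hdis s t hGs hGt hst, Subgroup.mem_inf]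
    exact ⟨h1 ▸ F3_E_mem hs _, F3_E_mem ht _⟩
  have h4 := Subgroup.mem_bot.mp h3
  have h5 := F3_indep ht hord hdis hGt h4
  have h6 := F3_indep hs hord hdis hGs (h1 ▸ h4)
  intro v hv
  rcases Finset.mem_union.mp hv with hv | hv
  · have := h6 v hv
    simp only [Pi.sub_apply] at this
    omega
  · have := h5 v hv
    simp only [Pi.add_apply, Pi.neg_apply] at this
    omega

end monomials

section words

variable {V : Type*} [DecidableEq V] {Γ : Type*} [Group Γ] {a : V → Γ} {G : SimpleGraph V}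

/-- first coordinates of the elements of the first copy -/
def F3_p1 (lam : Finset (WV V)) : Finset V :=
  (lam.filter (fun w => w.2.2 = false)).image Prod.fst

/-- first coordinates of the elements of the second copy -/
def F3_p2 (lam : Finset (WV V)) : Finset V :=
  (lam.filter (fun w => w.2.2 = true)).image Prod.fst

theorem F3_p1_clique {lam : Finset (WV V)} (hl : (XG G).IsClique (lam : Set (WV V))) :
    G.IsClique ((F3_p1 lam : Finset V) : Set V) := by
  intro u hu v hv huv
  obtain ⟨w, hw, rfl⟩ := Finset.mem_image.mp (Finset.mem_coe.mp hu)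
  obtain ⟨w', hw', rfl⟩ := Finset.mem_image.mp (Finset.mem_coe.mp hv)
  obtain ⟨h1, h2⟩ := Finset.mem_filter.mp hw
  obtain ⟨h3, h4⟩ := Finset.mem_filter.mp hw'
  rcases hl (Finset.mem_coe.mpr h1) (Finset.mem_coe.mpr h3) (fun h => huv (by rw [h])) with h | h
  · exact h.2
  · exact absurd (h2.trans h4.symm) h.1

theorem F3_p2_clique {lam : Finset (WV V)} (hl : (XG G).IsClique (lam : Set (WV V))) :
    G.IsClique ((F3_p2 lam : Finset V) : Set V) := by
  intro u hu v hv huv
  obtain ⟨w, hw, rfl⟩ := Finset.mem_image.mp (Finset.mem_coe.mp hu)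
  obtain ⟨w', hw', rfl⟩ := Finset.mem_image.mp (Finset.mem_coe.mp hv)
  obtain ⟨h1, h2⟩ := Finset.mem_filter.mp hw
  obtain ⟨h3, h4⟩ := Finset.mem_filter.mp hw'
  rcases hl (Finset.mem_coe.mpr h1) (Finset.mem_coe.mpr h3) (fun h => huv (by rw [h])) with h | h
  · exact h.2
  · exact absurd (h2.trans h4.symm) h.1

theorem F3_clique_comm (hcomm : ∀ u v, G.Adj u v → Commute (a u) (a v)) {s : Finset V}
    (hs : G.IsClique (s : Set V)) : ∀ u ∈ s, ∀ v ∈ s, Commute (a u) (a v) := by
  intro u hu v hv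
  by_cases h : u = v
  · rw [h]
  · exact hcomm u v (hs (Finset.mem_coe.mpr hu) (Finset.mem_coe.mpr hv) h)

/-- the exponents of a word -/
def F3_N (L : List (WV V)) (v : V) : ℤ := (L.map fun w => if w.1 = v then F2_eps w else 0).sum

theorem F3_N_append (L : List (WV V)) (w : WV V) :
    F3_N (L ++ [w]) = F3_N L + Pi.single w.1 (F2_eps w) := by
  funext v
  by_cases h : w.1 = v
  · subst h
    simp [F3_N]
  · simp [F3_N, h]

theorem F3_N_le (L : List (WV V)) (v : V) : |F3_N L v| ≤ L.length := by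
  induction L with
  | nil => simp [F3_N]
  | cons w L ih =>
    have h1 : F3_N (w :: L) v = (if w.1 = v then F2_eps w else 0) + F3_N L v := by
      simp [F3_N]
    have h2 : |(if w.1 = v then F2_eps w else 0)| ≤ 1 := by
      unfold F2_eps
      split_ifs <;> simp
    rw [h1]
    calc _ ≤ _ := abs_add_le _ _
      _ ≤ 1 + (L.length : ℤ) := add_le_add h2 ih
      _ = _ := by push_cast [List.length_cons]; ring

theorem F3_count_le {lam : Finset (WV V)} (hl : (XG G).IsClique (lam : Set (WV V)))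
    (L : List (WV V)) (hL : ∀ u ∈ L, u ∈ lam) {w : WV V} (hw : w ∈ lam) :
    (L.count w : ℤ) ≤ F2_eps w * F3_N L w.1 := by
  induction L with
  | nil => simp [F3_N]
  | cons u L ih =>
    have h1 : F3_N (u :: L) w.1 = (if u.1 = w.1 then F2_eps u else 0) + F3_N L w.1 := by
      simp [F3_N]
    have h2 := ih (fun x hx => hL x (List.mem_cons_of_mem _ hx))
    rw [h1, mul_add]
    have h3 : F2_eps w * F2_eps w = 1 := by
      unfold F2_eps
      split_ifs <;> simp
    by_cases h : u.1 = w.1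
    · have h4 : F2_eps u = F2_eps w := by
        apply F2_eps_clique (G := G) _ h
        by_cases he : u = w
        · exact Or.inl he
        · exact Or.inr (hl (Finset.mem_coe.mpr (hL u List.mem_cons_self)) (Finset.mem_coe.mpr hw) he)
      rw [if_pos h, h4, h3, List.count_cons]
      split_ifs <;> push_cast <;> omega
    · rw [if_neg h, List.count_cons_of_ne (fun he => h (by rw [he]))]
      simpa using h2

omit [DecidableEq V] in
theorem F3_gW_false (v : V) (σ : Bool) : gW a (v, σ, false) = (a v ^ F2_eps (v, σ, false), 1) := by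
  cases σ <;> simp [gW, F2_eps]

omit [DecidableEq V] in
theorem F3_gW_true (v : V) (σ : Bool) :
    gW a (v, σ, true) = (1, (a v ^ F2_eps (v, σ, true))⁻¹) := by
  cases σ <;> simp [gW, F2_eps]

theorem F3_gamma (hcomm : ∀ u v, G.Adj u v → Commute (a u) (a v)) {lam : Finset (WV V)}
    (hl : (XG G).IsClique (lam : Set (WV V)))
    (hs : ∀ u ∈ F3_p1 lam, ∀ v ∈ F3_p1 lam, Commute (a u) (a v))
    (ht : ∀ u ∈ F3_p2 lam \ F3_p1 lam, ∀ v ∈ F3_p2 lam \ F3_p1 lam, Commute (a u) (a v))
    (L : List (WV V)) (hL : ∀ u ∈ L, u ∈ lam) :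
    ((L.map (gW a)).prod.2)⁻¹ * (L.map (gW a)).prod.1 =
      F3_E a ht (F3_N L) * F3_E a hs (F3_N L) := by
  induction L using List.reverseRecOn with
  | nil =>
    rw [F3_E_zero ht (by simp [F3_N]), F3_E_zero hs (by simp [F3_N])]
    simp
  | append_singleton L w ih =>
    have ih' := ih (fun u hu => hL u (List.mem_append_left _ hu))
    have hw : w ∈ lam := hL w (by simp)
    rw [F3_N_append, List.map_append, List.prod_append, List.map_singleton, List.prod_singleton,
      Prod.fst_mul, Prod.snd_mul, mul_inv_rev]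
    obtain ⟨v, σ, i⟩ := w
    cases i
    · have hv : v ∈ F3_p1 lam := Finset.mem_image.mpr ⟨_, Finset.mem_filter.mpr ⟨hw, rfl⟩, rfl⟩
      rw [F3_gW_false]
      simp only [inv_one, one_mul]
      rw [← mul_assoc, ih', ← F3_E_mul hs hv, mul_assoc]
      congr 1
      apply F3_E_congr
      intro u hu
      have : u ≠ v := fun h => (Finset.mem_sdiff.mp hu).2 (h ▸ hv)
      simp [Pi.single_eq_of_ne this]
    · have hv : v ∈ F3_p2 lam := Finset.mem_image.mpr ⟨_, Finset.mem_filter.mpr ⟨hw, rfl⟩, rfl⟩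
      rw [F3_gW_true]
      simp only [inv_inv, mul_one]
      rw [mul_assoc, ih']
      by_cases hv1 : v ∈ F3_p1 lam
      · have hc : ∀ u ∈ F3_p2 lam \ F3_p1 lam, Commute (a v) (a u) := fun u hu =>
          F3_clique_comm hcomm (F3_p2_clique hl) v hv u (Finset.mem_sdiff.mp hu).1
        rw [← mul_assoc, (F3_E_commute ht hc _ _).eq, mul_assoc, F3_mul_E hs hv1]
        congr 1
        apply F3_E_congr
        intro u hu
        have : u ≠ v := fun h => (Finset.mem_sdiff.mp hu).2 (h ▸ hv1)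
        simp [Pi.single_eq_of_ne this]
      · rw [← mul_assoc, F3_mul_E ht (Finset.mem_sdiff.mpr ⟨hv, hv1⟩)]
        congr 1
        apply F3_E_congr
        intro u hu
        have : u ≠ v := fun h => hv1 (h ▸ hu)
        simp [Pi.single_eq_of_ne this]

theorem F3_bound (hcomm : ∀ u v, G.Adj u v → Commute (a u) (a v))
    (hord : ∀ v, ∀ n : ℤ, a v ^ n = 1 → n = 0)
    (hdis : ∀ s t : Finset V, G.IsClique (s : Set V) → G.IsClique (t : Set V) → Disjoint s t →
      Subgroup.closure (a '' (s : Set V)) ⊓ Subgroup.closure (a '' (t : Set V)) = ⊥)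
    {lam : Finset (WV V)} (hl : (XG G).IsClique (lam : Set (WV V))) {B : Set Γ} (hB : B.Finite) :
    ∃ R : ℕ, ∀ L : List (WV V), (∀ u ∈ L, u ∈ lam) →
      ((L.map (gW a)).prod.2)⁻¹ * (L.map (gW a)).prod.1 ∈ B → ∀ w ∈ lam, L.count w < R := by
  classical
  let ℓ : Γ → ℕ := fun b => if h : ∃ L : List (WV V), (∀ u ∈ L, u ∈ lam) ∧
    ((L.map (gW a)).prod.2)⁻¹ * (L.map (gW a)).prod.1 = b then h.choose.length else 0
  obtain ⟨R, hR⟩ := (hB.image ℓ).bddAbove
  refine ⟨R + 1, fun L hL hb w hw => ?_⟩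
  have h : ∃ L' : List (WV V), (∀ u ∈ L', u ∈ lam) ∧
      ((L'.map (gW a)).prod.2)⁻¹ * (L'.map (gW a)).prod.1 =
      ((L.map (gW a)).prod.2)⁻¹ * (L.map (gW a)).prod.1 := ⟨L, hL, rfl⟩
  have h1 := hR ⟨_, hb, rfl⟩
  have h2 : ℓ (((L.map (gW a)).prod.2)⁻¹ * (L.map (gW a)).prod.1) = h.choose.length := dif_pos h
  rw [h2] at h1
  obtain ⟨h3, h4⟩ := h.choose_spec
  set L' := h.choose with hL'
  have hs := F3_clique_comm hcomm (F3_p1_clique hl)
  have hGt : G.IsClique ((F3_p2 lam \ F3_p1 lam : Finset V) : Set V) :=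
    (F3_p2_clique hl).subset (by intro u hu; exact (Finset.mem_sdiff.mp (Finset.mem_coe.mp hu)).1)
  have ht := F3_clique_comm hcomm hGt
  rw [F3_gamma hcomm hl hs ht L' h3, F3_gamma hcomm hl hs ht L hL] at h4
  have h5 := F3_inj hs ht hord hdis (F3_p1_clique hl) hGt Finset.disjoint_sdiff h4 w.1 (by
    rw [Finset.union_sdiff_self_eq_union, Finset.mem_union]
    by_cases h : w.2.2 = false
    · exact Or.inl (Finset.mem_image.mpr ⟨w, Finset.mem_filter.mpr ⟨hw, h⟩, rfl⟩)
    · exact Or.inr (Finset.mem_image.mpr ⟨w, Finset.mem_filter.mpr ⟨hw, by simpa using h⟩, rfl⟩))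
  have h6 := F3_count_le hl L hL hw
  have h7 : F2_eps w * F3_N L w.1 ≤ |F3_N L w.1| := by
    unfold F2_eps
    split_ifs
    · rw [neg_one_mul]; exact neg_le_abs _
    · rw [one_mul]; exact le_abs_self _
  have h8 := F3_N_le L' w.1
  rw [h5] at h8
  have : (L.count w : ℤ) ≤ R := by
    calc (L.count w : ℤ) ≤ _ := h6
      _ ≤ _ := h7
      _ ≤ _ := h8
      _ ≤ _ := by exact_mod_cast h1
  omega

end words

section push

variable {V : Type*} [DecidableEq V] {Γ : Type*} [Group Γ] (a : V → Γ)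
  {Y : Type*} [MulAction Γ Y]

/-- translates of `c` by words in `lam` which contain `w` at least `n` times -/
noncomputable def F3_M (lam : Finset (WV V)) (w : WV V) (c : GC (Y × Y)) (n : ℕ) :
    Submodule (ZMod 2) (GC (Y × Y)) :=
  Submodule.span (ZMod 2) {x | ∃ L : List (WV V), (∀ u ∈ L, u ∈ lam) ∧ n ≤ L.count w ∧
    x = aG (L.map (gW a)).prod c}

variable {a}

theorem F3_M_mono {lam : Finset (WV V)} {w : WV V} {c : GC (Y × Y)} {n n' : ℕ} (h : n ≤ n') :
    F3_M a lam w c n' ≤ F3_M a lam w c n := by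
  apply Submodule.span_mono
  rintro x ⟨L, h1, h2, rfl⟩
  exact ⟨L, h1, h.trans h2, rfl⟩

omit [DecidableEq V] in
theorem F3_aG_cons (u : WV V) (L : List (WV V)) (c : GC (Y × Y)) :
    F2_A a u (aG (L.map (gW a)).prod c) = aG (((u :: L).map (gW a)).prod) c := by
  rw [F2_A, F1_aG_aG, List.map_cons, List.prod_cons]
  rfl

theorem F3_M_A {lam : Finset (WV V)} {w u : WV V} (hu : u ∈ lam) {c : GC (Y × Y)} {n : ℕ}
    {x : GC (Y × Y)} (hx : x ∈ F3_M a lam w c n) : F2_A a u x ∈ F3_M a lam w c n := by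
  induction hx using Submodule.span_induction with
  | mem x hx =>
    obtain ⟨L, h1, h2, rfl⟩ := hx
    apply Submodule.subset_span
    refine ⟨u :: L, ?_, h2.trans List.count_le_count_cons, F3_aG_cons u L c⟩
    intro v hv
    rcases List.mem_cons.mp hv with rfl | hv
    · exact hu
    · exact h1 v hv
  | zero => rw [map_zero]; exact Submodule.zero_mem _
  | add x y _ _ hx hy => rw [map_add]; exact Submodule.add_mem _ hx hy
  | smul m x _ hx => rw [map_smul]; exact Submodule.smul_mem _ _ hx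

theorem F3_M_A' {lam : Finset (WV V)} {w : WV V} (hw : w ∈ lam) {c : GC (Y × Y)} {n : ℕ}
    {x : GC (Y × Y)} (hx : x ∈ F3_M a lam w c n) : F2_A a w x ∈ F3_M a lam w c (n + 1) := by
  induction hx using Submodule.span_induction with
  | mem x hx =>
    obtain ⟨L, h1, h2, rfl⟩ := hx
    apply Submodule.subset_span
    refine ⟨w :: L, ?_, ?_, F3_aG_cons w L c⟩
    · intro v hv
      rcases List.mem_cons.mp hv with rfl | hv
      · exact hw
      · exact h1 v hv
    · rw [List.count_cons_self]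
      omega
  | zero => rw [map_zero]; exact Submodule.zero_mem _
  | add x y _ _ hx hy => rw [map_add]; exact Submodule.add_mem _ hx hy
  | smul m x _ hx => rw [map_smul]; exact Submodule.smul_mem _ _ hx

theorem F3_M_pow {lam : Finset (WV V)} {w u : WV V} (hu : u ∈ lam) {c : GC (Y × Y)} {n : ℕ}
    (i : ℕ) {x : GC (Y × Y)} (hx : x ∈ F3_M a lam w c n) :
    (F2_A a u ^ i) x ∈ F3_M a lam w c n := by
  induction i generalizing x with
  | zero => simpa using hx
  | succ i ih =>
    rw [pow_succ, Module.End.mul_apply]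
    exact ih (F3_M_A hu hx)

theorem F3_M_pow' {lam : Finset (WV V)} {w : WV V} (hw : w ∈ lam) {c : GC (Y × Y)} {n : ℕ}
    (i : ℕ) {x : GC (Y × Y)} (hx : x ∈ F3_M a lam w c n) :
    (F2_A a w ^ i) x ∈ F3_M a lam w c (n + i) := by
  induction i generalizing x n with
  | zero => simpa using hx
  | succ i ih =>
    rw [pow_succ, Module.End.mul_apply]
    have := ih (F3_M_A' hw hx)
    rwa [Nat.add_assoc, Nat.add_comm 1 i] at this

theorem F3_M_P {lam : Finset (WV V)} {w u : WV V} (hu : u ∈ lam) {c : GC (Y × Y)} {n : ℕ}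
    (R : ℕ) {x : GC (Y × Y)} (hx : x ∈ F3_M a lam w c n) :
    F2_P a R u x ∈ F3_M a lam w c n := by
  unfold F2_P
  rw [LinearMap.sum_apply]
  exact Submodule.sum_mem _ fun i _ => F3_M_pow hu i hx

theorem F3_M_prod {lam : Finset (WV V)} {w : WV V} {c : GC (Y × Y)} {n : ℕ}
    (R : ℕ) (L : List (WV V)) (hL : ∀ u ∈ L, u ∈ lam) {x : GC (Y × Y)}
    (hx : x ∈ F3_M a lam w c n) : (L.map (F2_P a R)).prod x ∈ F3_M a lam w c n := by
  induction L with
  | nil => simpa using hx
  | cons u L ih =>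
    rw [List.map_cons, List.prod_cons, Module.End.mul_apply]
    exact F3_M_P (hL u List.mem_cons_self) R (ih fun v hv => hL v (List.mem_cons_of_mem _ hv))

/-- translates by words with many letters `w` miss the diagonal -/
theorem F3_far [TopologicalSpace Y] [T2Space Y] [ContinuousConstSMul Γ Y]
    {lam : Finset (WV V)} {w : WV V} {C : Set Y} {R : ℕ}
    (hfar : ∀ L : List (WV V), (∀ u ∈ L, u ∈ lam) → R ≤ L.count w →
      ∀ x ∈ C, ∀ x' ∈ C, (L.map (gW a)).prod.1 • x ≠ (L.map (gW a)).prod.2 • x')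
    {c : GC (Y × Y)} {l : ℕ} (hc : c ∈ F (C ×ˢ C) l) {x : GC (Y × Y)}
    (hx : x ∈ F3_M a lam w c R) : x ∈ F (EE Y) l := by
  refine (Submodule.span_le.mpr ?_ : F3_M a lam w c R ≤ F (EE Y) l) hx
  rintro x ⟨L, hL, hg, rfl⟩
  set g := (L.map (gW a)).prod with hgdef
  have hcont : Continuous (fun q : Y × Y => (g.1 • q.1, g.2 • q.2)) :=
    (continuous_fst.const_smul g.1).prodMk (continuous_snd.const_smul g.2)
  refine mapG_mem (U := (fun q : Y × Y => (g.1 • q.1, g.2 • q.2)) ⁻¹' (EE Y))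
    (F2_isOpen_EE.preimage hcont) hcont.continuousOn (fun q hq => hq) ?_
  refine F_mono ?_ hc
  rintro ⟨x, x'⟩ ⟨hx, hx'⟩
  exact hfar L hL hg x hx x' hx'

theorem F3_Out_mem [TopologicalSpace Y] [T2Space Y] [ContinuousConstSMul Γ Y]
    {Fl : Finset (WV V) → GC (Y × Y)} {C : Set Y} {R : ℕ} {lam : Finset (WV V)}
    (hfar : ∀ w ∈ lam, ∀ L : List (WV V), (∀ u ∈ L, u ∈ lam) → R ≤ L.count w →
      ∀ x ∈ C, ∀ x' ∈ C, (L.map (gW a)).prod.1 • x ≠ (L.map (gW a)).prod.2 • x')
    (hne : lam.Nonempty)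
    (hFl : ∀ w ∈ lam, Fl (lam.erase w) ∈ F (C ×ˢ C) lam.card) :
    F2_Out a Fl R lam ∈ F (EE Y) lam.card := by
  rw [F2_Out, if_neg hne.ne_empty]
  refine Submodule.sum_mem _ fun w hw => ?_
  refine F3_far (hfar w hw) (hFl w hw) ?_
  have h2 : Fl (lam.erase w) ∈ F3_M a lam w (Fl (lam.erase w)) 0 := by
    apply Submodule.subset_span
    exact ⟨[], by simp, Nat.zero_le _, (F2_aG_one _).symm⟩
  have h3 : F2_Q a Fl R (lam.erase w) ∈ F3_M a lam w (Fl (lam.erase w)) 0 :=
    F3_M_prod R _ (fun u hu => Finset.mem_of_mem_erase (by simpa using hu)) h2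
  have h4 := F3_M_pow' hw R h3
  rwa [zero_add] at h4

end push

/-- the tower of the deleted join can be pushed off the diagonal -/
theorem push_tower_gen {V : Type*} [DecidableEq V] [Finite V] (G : SimpleGraph V) (m : ℕ)
    (hT : HasTower G m) {Γ : Type*} [Group Γ] (a : V → Γ)
    (hcomm : ∀ u v, G.Adj u v → Commute (a u) (a v))
    (hord : ∀ v, ∀ n : ℤ, a v ^ n = 1 → n = 0)
    (hdis : ∀ s t : Finset V, G.IsClique (s : Set V) → G.IsClique (t : Set V) → Disjoint s t →
      Subgroup.closure (a '' (s : Set V)) ⊓ Subgroup.closure (a '' (t : Set V)) = ⊥)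
    {Y : Type*} [TopologicalSpace Y] [T2Space Y] [ContractibleSpace Y] [MulAction Γ Y]
    [ContinuousConstSMul Γ Y] [ProperlyDiscontinuousSMul Γ Y] :
    ∃ u : ℕ → GC (Y × Y), (∀ i ≤ m, u i ∈ F (EE Y) (i + 1)) ∧ dG (u 0) = cst (bs []) ∧
      ∀ i < m, dG (u (i + 1)) = u i + mapG Prod.swap (u i) := by
  classical
  have hfin := Fintype.ofFinite V
  obtain ⟨y₀⟩ : Nonempty Y := inferInstance
  obtain ⟨Fl, hF0, hFm, hFd, hFs⟩ := exists_cubes G a hcomm y₀
  -- a compact set
  have hC : ∀ lam : Finset (WV V), ∃ C : Set Y, IsCompact C ∧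
      ((XG G).IsClique (lam : Set (WV V)) → Fl lam ∈ F (C ×ˢ C) (lam.card + 1)) := by
    intro lam
    by_cases hl : (XG G).IsClique (lam : Set (WV V))
    · obtain ⟨C, h1, h2⟩ := F2_exists_compact (hFm lam hl)
      exact ⟨C, h1, fun _ => h2⟩
    · exact ⟨∅, isCompact_empty, fun h => absurd h hl⟩
  choose C hCc hCF using hC
  let K : Set Y := ⋃ lam, C lam
  have hK : IsCompact K := isCompact_iUnion hCc
  have hFlK : ∀ lam : Finset (WV V), (XG G).IsClique (lam : Set (WV V)) →
      Fl lam ∈ F (K ×ˢ K) (lam.card + 1) := by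
    intro lam hl
    exact F_mono (Set.prod_mono (Set.subset_iUnion C lam) (Set.subset_iUnion C lam)) (hCF lam hl)
  -- the bound
  have hfinite : {g : Γ | ((g • ·) '' K ∩ K).Nonempty}.Finite := by
    have := ProperlyDiscontinuousSMul.finite_disjoint_inter_image (Γ := Γ) hK hK
    simpa [Set.nonempty_iff_ne_empty] using this
  have hb : ∀ lam : Finset (WV V), ∃ R : ℕ, (XG G).IsClique (lam : Set (WV V)) →
      ∀ L : List (WV V), (∀ u ∈ L, u ∈ lam) →
      ((L.map (gW a)).prod.2)⁻¹ * (L.map (gW a)).prod.1 ∈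
        {g : Γ | ((g • ·) '' K ∩ K).Nonempty} → ∀ w ∈ lam, L.count w < R := by
    intro lam
    by_cases hl : (XG G).IsClique (lam : Set (WV V))
    · obtain ⟨R, hR⟩ := F3_bound hcomm hord hdis hl hfinite
      exact ⟨R, fun _ => hR⟩
    · exact ⟨0, fun h => absurd h hl⟩
  choose R' hR' using hb
  let R : ℕ := ∑ lam, R' lam
  have hRle : ∀ lam, R' lam ≤ R := fun lam =>
    Finset.single_le_sum (f := R') (fun _ _ => Nat.zero_le _) (Finset.mem_univ lam)
  -- membership of the outer faces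
  have hOut : ∀ lam : Finset (WV V), (XG G).IsClique (lam : Set (WV V)) → lam.Nonempty →
      F2_Out a Fl R lam ∈ F (EE Y) lam.card := by
    intro lam hl hne
    apply F3_Out_mem (C := K) _ hne
    · intro w hw
      have := hFlK _ (F1_clique_erase hl w)
      rw [Finset.card_erase_of_mem hw] at this
      have hpos := Finset.card_pos.mpr hne
      rwa [Nat.sub_add_cancel (by omega)] at this
    · intro w hw L hL hcount x hx x' hx' heq
      have h1 : (((L.map (gW a)).prod.2)⁻¹ * (L.map (gW a)).prod.1) • x ∈ K := by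
        rw [mul_smul, heq, inv_smul_smul]
        exact hx'
      have h2 := hR' lam hl L hL ⟨_, ⟨x, hx, rfl⟩, h1⟩ w hw
      have h3 := hRle lam
      omega
  -- the tower
  obtain ⟨u, hu1, hu2, hu3⟩ := hT
  let Lin : SC (WV V) →ₗ[ZMod 2] GC (Y × Y) := Finsupp.linearCombination (ZMod 2) (F2_Out a Fl R)
  have hLin : ∀ c : SC (WV V), Lin c = ∑ lam ∈ c.support, c lam • F2_Out a Fl R lam :=
    fun c => rfl
  have hLs : ∀ lam : Finset (WV V), Lin (Finsupp.single lam 1) = F2_Out a Fl R lam := by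
    intro lam
    simp [Lin]
  have hdS : ∀ c : SC (WV V), (∀ s ∈ c.support, (XG G).IsClique (s : Set (WV V)) ∧ s.Nonempty) →
      dG (Lin c) = Lin (dS c) := by
    intro c hc
    have h1 : dS c = ∑ lam ∈ c.support, c lam • dfin lam := by
      simp [dS, Finsupp.sum]
    rw [h1, hLin, map_sum, map_sum]
    refine Finset.sum_congr rfl fun lam hlam => ?_
    rw [map_smul, map_smul, F2_dG_Out R hcomm hF0 hFd (hc lam hlam).1 (hc lam hlam).2]
    unfold dfin
    rw [map_sum]
    simp only [hLs]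
  have hsw : ∀ c : SC (WV V), (∀ s ∈ c.support, (XG G).IsClique (s : Set (WV V))) →
      mapG Prod.swap (Lin c) = Lin (mapS TW c) := by
    intro c hc
    have h1 : mapS TW c = ∑ lam ∈ c.support, c lam • Finsupp.single (lam.image TW) 1 := by
      rw [mapS, Finsupp.lmapDomain_apply, Finsupp.mapDomain, Finsupp.sum]
      refine Finset.sum_congr rfl fun lam _ => ?_
      simp
    rw [h1, hLin, map_sum, map_sum]
    refine Finset.sum_congr rfl fun lam hlam => ?_
    rw [map_smul, map_smul, F2_swap_Out R hcomm hFs (hc lam hlam), hLs]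
  refine ⟨fun i => Lin (u i), fun i hi => ?_, ?_, fun i hi => ?_⟩
  · show Lin (u i) ∈ _
    rw [hLin]
    refine Submodule.sum_mem _ fun lam hlam => Submodule.smul_mem _ _ ?_
    obtain ⟨h1, h2⟩ := hu1 i hi lam hlam
    have h3 := hOut lam h1 (Finset.card_pos.mp (by omega))
    rwa [h2] at h3
  · show dG (Lin (u 0)) = _
    rw [hdS (u 0) (fun s hs => ⟨(hu1 0 (Nat.zero_le _) s hs).1,
      Finset.card_pos.mp (by have := (hu1 0 (Nat.zero_le _) s hs).2; omega)⟩), hu2, hLs]
    unfold F2_Out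
    rw [if_pos rfl]
  · show dG (Lin (u (i + 1))) = Lin (u i) + mapG Prod.swap (Lin (u i))
    rw [hdS (u (i + 1)) (fun s hs => ⟨(hu1 (i + 1) hi s hs).1,
      Finset.card_pos.mp (by have := (hu1 (i + 1) hi s hs).2; omega)⟩), hu3 i hi, map_add,
      hsw (u i) (fun s hs => (hu1 i hi.le s hs).1)]

/-- the dimension bound, general form: `Γ` acts properly on a contractible manifold (possibly with
boundary) of dimension `m + 1`; the elements `a v` commute along the edges of `G`, have infinite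
order, and disjoint cliques generate subgroups with trivial intersection. -/
theorem dim_bound_gen {V : Type*} [DecidableEq V] [Finite V] (G : SimpleGraph V) (j : ℕ)
    (hT : HasTower G (2 * j + 1)) {Γ : Type*} [Group Γ] (a : V → Γ)
    (hcomm : ∀ u v, G.Adj u v → Commute (a u) (a v))
    (hord : ∀ v, ∀ n : ℤ, a v ^ n = 1 → n = 0)
    (hdis : ∀ s t : Finset V, G.IsClique (s : Set V) → G.IsClique (t : Set V) → Disjoint s t →
      Subgroup.closure (a '' (s : Set V)) ⊓ Subgroup.closure (a '' (t : Set V)) = ⊥)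
    {m : ℕ} {Y : Type*} [TopologicalSpace Y] [T2Space Y] [ContractibleSpace Y] (hY : LocHalf m Y)
    [MulAction Γ Y] [ContinuousConstSMul Γ Y] [ProperlyDiscontinuousSMul Γ Y] :
    2 * j + 2 ≤ m + 1 := by
  by_contra hlt
  push Not at hlt
  obtain ⟨Yp, _, _, _, ι, hYp, hι, hinj⟩ := collar hY
  obtain ⟨u, h1, h2, h3⟩ := push_tower_gen G (2 * j + 1) hT a hcomm hord hdis (Y := Y)
  refine tower_bound hYp (Nat.succ_pos m) ⟨fun i => mapG (Prod.map ι ι) (u i), ?_, ?_, ?_⟩
  · intro i hi
    refine mapG_mem (isOpen_EE) (by fun_prop) ?_ (h1 i (by omega))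
    intro q hq h
    exact hq (hinj h)
  · rw [dG_mapG, h2, mapG_cst]
    simp
  · intro i hi
    rw [dG_mapG, h3 i (by omega), map_add, mapG_mapG, mapG_mapG]
    rfl

/-- the hypotheses of the general form follow from the existence of a homomorphism to `ℤ^V` which
maps `a v` to a positive multiple of the basis vector `v` -/
theorem hord_of_ab {V : Type*} [DecidableEq V] {Γ : Type*} [Group Γ] (a : V → Γ) (N : V → ℤ)
    (hN : ∀ v, 1 ≤ N v) (ab : Γ →* Multiplicative (V → ℤ))
    (hab : ∀ v, ab (a v) = Multiplicative.ofAdd (Pi.single v (N v))) (v : V) (n : ℤ)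
    (h : a v ^ n = 1) : n = 0 := by
  have h1 := congrArg (fun g => Multiplicative.toAdd (ab g) v) h
  simp only [map_zpow, hab, map_one, toAdd_one, Pi.zero_apply, toAdd_zpow, toAdd_ofAdd,
    Pi.smul_apply, Pi.single_eq_same, smul_eq_mul] at h1
  have h2 := hN v
  rcases mul_eq_zero.mp h1 with h3 | h3
  · exact h3
  · omega

end OS
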