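import Mathlib
import Pool.Agent.Lib.MP_8fe54c_gt.GPDefs
import Pool.Agent.Lib.MP_8fe54c_gt.GrpC
import Pool.Agent.Lib.MP_8fe54c_gt.Final

/-!
# The dimension bound for flag systems (project K, module K23)
-/

namespace OS

namespace GP

theorem flag_dim {Γ : Type*} [Group Γ] {k : ℕ} (h : Flag Γ (k + 1)) {m : ℕ} {Y : Type*}
    [TopologicalSpace Y] [T2Space Y] [ContractibleSpace Y] (hY : LocHalf m Y)
    [MulAction Γ Y] [ContinuousConstSMul Γ Y] [ProperlyDiscontinuousSMul Γ Y] :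
    2 * k + 2 ≤ m + 1 := by
  obtain ⟨N, K, a, ⟨Z, φ, h1, h2, h3, h4⟩, hc, ho, hd⟩ := h
  have hK : HasClass K k := by
    refine ⟨Z, φ, h1, ?_, ?_, h4⟩
    · intro ρ hρ
      exact h2 ρ (by rw [hρ])
    · intro τ h5 h6
      exact h3 τ h5 h6
  exact dim_bound_gen K k (hasTower_of_hasClass K k hK) a hc ho hd hY

end GP

end OS
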