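import Mathlib
import Pool.Agent.Lib.MP_8fe54c_gt.ArtFlag
import Pool.Agent.Lib.MP_8fe54c_gt.ArtCos
import Pool.Agent.Lib.MP_8fe54c_gt.ArtReal
import Pool.Agent.Lib.MP_8fe54c_gt.ArtCoef
import Pool.Agent.Lib.MP_8fe54c_gt.KArt
import Pool.Agent.Lib.MP_8fe54c_gt.KDim
import Pool.Agent.Lib.MP_8fe54c_gt.Assem

/-!
# Okun-Schreve's question for groups commensurable with Artin groups
-/

namespace OS

open CoxeterSystem Finsupp GP

universe u v w uY uX

variable {B : Type*}

/-- vanishing of the homology of the nerve implies the vanishing of the `ℓ²`-homology, if the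
coset complex is acyclic -/
theorem artin_harmZero [Finite B] (M : CoxeterMatrix B)
    (hM : ∀ [Fintype B] [LinearOrder B], DExact (artinSys M) (Spher M) ℤ)
    (K : Subgroup (Artin M)) [K.FiniteIndex] {j : ℕ}
    (h : ∀ [Fintype B] [DecidableEq B], ¬ HasClassC (Spher M) j) (R : FreeRes K) :
    R.HarmZero ℝ (j + 1) := by
  classical
  have hfin : Fintype B := Fintype.ofFinite B
  let hlin : LinearOrder B := IsWellOrder.linearOrder (WellOrderingRel (α := B))
  have h' : ¬ HasClassC (Spher M) j := h
  have hne : Nonempty ((artinSys M).Q ∅) := ⟨((1 : Artin M) : Artin M ⧸ AP M ((∅ : Finset B) : Set B))⟩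
  refine harmZero_of_cent R (artinSys M) ?_ (Spher M) spher_mono spher_empty
    (dexact_coeff (artinSys M) (Spher M) spher_mono spher_empty hM _) ?_
    (fun σ hσ hne => ?_) (j + 1) ?_
  · intro g σ τ h x
    exact cosSys_pr_smul _ _ (g : Artin M) h x
  · intro g x hx
    exact Subtype.ext (artin_free M (g : Artin M) x hx)
  · obtain ⟨z, h1, h2, h3⟩ := artin_cent M K σ hσ hne
    refine ⟨z, h1, h2, fun q n hn => ?_⟩
    have := h3 q (n : ℤ) (by rw [zpow_natCast]; exact hn)
    exact_mod_cast this
  · intro z hz hc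
    exact real_acyclicC (Spher M) spher_mono j h' z hz hc

/-- nonvanishing homology of the nerve gives flag systems in the subgroups of finite index -/
theorem artin_flag' [Finite B] (M : CoxeterMatrix B) (K : Subgroup (Artin M)) [K.FiniteIndex]
    {j : ℕ} (h : ¬ ∀ [Fintype B] [DecidableEq B], ¬ HasClassC (Spher M) j) : Flag K (j + 1) := by
  classical
  push Not at h
  obtain ⟨_, _, h⟩ := h
  exact flag_finiteIndex K (artin_flag M h)

/-- the alternative for the subgroups of finite index -/
theorem artin_dichotomy [Finite B] (M : CoxeterMatrix B)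
    (hM : ∀ [Fintype B] [LinearOrder B], DExact (artinSys M) (Spher M) ℤ)
    (K : Subgroup (Artin M)) [K.FiniteIndex] (k : ℕ) :
    (∀ R : FreeRes K, R.HarmZero ℝ k) ∨ Flag K k := by
  rcases k with _ | j
  · exact Or.inr (flag_zero K)
  · by_cases h : ∀ [Fintype B] [DecidableEq B], ¬ HasClassC (Spher M) j
    · exact Or.inl fun R => artin_harmZero M hM K h R
    · exact Or.inr (artin_flag' M K h)

/-- Okun-Schreve's question for groups commensurable with an Artin group with acyclic coset
complex -/
theorem okun_schreve_artin {n : ℕ} [NeZero n] {X : Type*} [TopologicalSpace X] [T2Space X]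
    [ConnectedSpace X] [ChartedSpace (EuclideanHalfSpace n) X]
    {Y : Type*} [TopologicalSpace Y] [ContractibleSpace Y] {p : Y → X} (hp : IsCoveringMap p)
    (x : X) [Finite B] (M : CoxeterMatrix B)
    (hM : ∀ [Fintype B] [LinearOrder B], DExact (artinSys M) (Spher M) ℤ)
    (H : Subgroup (FundamentalGroup X x)) [H.FiniteIndex] (K : Subgroup (Artin M)) [K.FiniteIndex]
    (e : H ≃* K) (C : FreeRes (FundamentalGroup X x)) {k : ℕ} (hk : n < 2 * k) :
    C.HarmZero ℂ k := by
  obtain ⟨φ, hφ, hfi⟩ := exists_incl H e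
  refine harmZero_of_dichotomy (n := n) hp x φ hφ C hk ?_
  rcases artin_dichotomy M hM K k with h | h
  · exact Or.inr h
  · left
    obtain ⟨j, rfl⟩ : ∃ j, k = j + 1 := ⟨k - 1, by omega⟩
    intro m Y _ _ _ _ _ _ hY
    have := flag_dim h hY
    omega

end OS
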