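import Mathlib
import Pool.Agent.Lib.MP_8fe54c_gt.KZig

/-!
# Project BB, module BB5a: augmentation of invariant functions
-/

namespace OS

namespace GP

open Finsupp

universe u v w u' v' w'

/-- a sum over a free `Γ`-set, orbit by orbit -/
theorem BB5a_sum {Γ : Type v} [Group Γ] {X : Type u} [MulAction Γ X]
    (hX : ∀ (g : Γ) (x : X), g • x = x → g = 1)
    [Fintype (MulAction.orbitRel.Quotient Γ X)] (F : X → ℝ) (hF : (Function.support F).Finite) :
    ∑ o : MulAction.orbitRel.Quotient Γ X, ∑ᶠ g : Γ, F (g • o.out) = ∑ᶠ x, F x := by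
  classical
  -- the bijection between pairs and points
  let E : (MulAction.orbitRel.Quotient Γ X) × Γ → X := fun p => p.2 • p.1.out
  have hE : Function.Bijective E := by
    constructor
    · rintro ⟨o, g⟩ ⟨o', g'⟩ h
      have h0 : g • o.out = g' • o'.out := h
      have h1 : o = o' := by
        have h2 : (Quotient.mk'' (g • o.out) : MulAction.orbitRel.Quotient Γ X) =
            Quotient.mk'' (g' • o'.out) := by rw [h0]
        have h3 : ∀ (g : Γ) (o : MulAction.orbitRel.Quotient Γ X),
            (Quotient.mk'' (g • o.out) : MulAction.orbitRel.Quotient Γ X) = o := by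
          intro g o
          have h4 : (Quotient.mk'' (g • o.out) : MulAction.orbitRel.Quotient Γ X) =
              Quotient.mk'' o.out := Quotient.sound' ⟨g, rfl⟩
          rw [h4]
          exact Quotient.out_eq' o
        rwa [h3, h3] at h2
      subst h1
      have h2 : g = g' := by
        have h3 : (g'⁻¹ * g) • o.out = o.out := by rw [mul_smul, h0, inv_smul_smul]
        have h4 := hX _ _ h3
        exact (inv_mul_eq_one.1 h4).symm
      rw [h2]
    · intro x
      have h1 : (MulAction.orbitRel Γ X)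
          (Quotient.mk'' x : MulAction.orbitRel.Quotient Γ X).out x :=
        Quotient.exact' (Quotient.out_eq' _)
      obtain ⟨g, hg⟩ := h1
      refine ⟨(Quotient.mk'' x, g⁻¹), ?_⟩
      change g⁻¹ • _ = x
      rw [inv_smul_eq_iff]
      exact hg.symm
  have h1 : ∑ᶠ x, F x = ∑ᶠ p : (MulAction.orbitRel.Quotient Γ X) × Γ, F (E p) :=
    (finsum_comp_equiv (Equiv.ofBijective E hE) (f := F)).symm
  have h2 : (Function.support fun p : (MulAction.orbitRel.Quotient Γ X) × Γ => F (E p)).Finite :=
    Set.Finite.preimage hE.injective.injOn hF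
  rw [h1, finsum_curry _ h2, finsum_eq_sum_of_fintype]

theorem BB5a_eps {Γ : Type v} [Group Γ] (R : FreeRes.{u, v} Γ) (c : R.X 0 →₀ ℤ) :
    ∑ᶠ x, ((R.eps (single x 1) : ℤ) : ℝ) * ((c x : ℤ) : ℝ) = (R.eps c : ℝ) := by
  classical
  rw [finsum_eq_sum_of_support_subset (s := c.support) _ (by
    intro x hx
    rw [Finset.mem_coe, Finsupp.mem_support_iff]
    intro h
    rw [Function.mem_support, h] at hx
    simp at hx)]
  have h1 : R.eps c = ∑ x ∈ c.support, c x * R.eps (single x 1) := by
    conv_lhs => rw [← Finsupp.sum_single c]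
    rw [Finsupp.sum, map_sum]
    refine Finset.sum_congr rfl fun x _ => ?_
    rw [← smul_eq_mul, ← map_smul, Finsupp.smul_single, smul_eq_mul, mul_one]
  rw [h1, Int.cast_sum]
  refine Finset.sum_congr rfl fun x _ => ?_
  rw [Int.cast_mul, mul_comm]

theorem exists_aug {Γ : Type v} [Group Γ] (R : FreeRes.{u, v} Γ) :
    ∃ Aug : (R.X 0 → ℝ) →ₗ[ℝ] ℝ,
      (∀ b : R.X 1 → ℝ, (∀ (g : Γ) x, b (g • x) = b x) → Aug (bdM R 0 b) = 0) ∧
      ∀ c : R.X 0 →₀ ℤ, Aug (fun y => ∑ᶠ g : Γ, ((c (g • y) : ℤ) : ℝ)) = (R.eps c : ℝ) := by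
  classical
  have hfinq : ∀ k, Finite (MulAction.orbitRel.Quotient Γ (R.X k)) := by
    intro k
    obtain ⟨s, hs⟩ := R.fin k
    have h1 : Function.Surjective (fun x : s =>
        (Quotient.mk'' x.1 : MulAction.orbitRel.Quotient Γ (R.X k))) := by
      intro q
      induction q using Quotient.inductionOn' with
      | h x =>
        obtain ⟨g, y, hy, rfl⟩ := hs x
        refine ⟨⟨y, hy⟩, ?_⟩
        apply Quotient.sound'
        exact ⟨g⁻¹, inv_smul_smul g y⟩
    exact Finite.of_surjective _ h1
  have := hfinq 0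
  have := hfinq 1
  have hf0 : Fintype (MulAction.orbitRel.Quotient Γ (R.X 0)) := Fintype.ofFinite _
  have hf1 : Fintype (MulAction.orbitRel.Quotient Γ (R.X 1)) := Fintype.ofFinite _
  have heps : ∀ (g : Γ) (x : R.X 0), R.eps (single (g • x) 1) = R.eps (single x 1) := by
    intro g x
    have h := R.eps_act g (single x 1)
    rwa [gact_single] at h
  let Aug : (R.X 0 → ℝ) →ₗ[ℝ] ℝ :=
    { toFun := fun a => ∑ o : MulAction.orbitRel.Quotient Γ (R.X 0),
        ((R.eps (single o.out 1) : ℤ) : ℝ) * a o.out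
      map_add' := fun a a' => by
        rw [← Finset.sum_add_distrib]
        exact Finset.sum_congr rfl fun o _ => mul_add _ _ _
      map_smul' := fun r a => by
        rw [RingHom.id_apply, smul_eq_mul, Finset.mul_sum]
        refine Finset.sum_congr rfl fun o _ => ?_
        rw [Pi.smul_apply, smul_eq_mul]
        ring }
  have hAug : ∀ a, Aug a = ∑ o : MulAction.orbitRel.Quotient Γ (R.X 0),
        ((R.eps (single o.out 1) : ℤ) : ℝ) * a o.out := fun _ => rfl
  have h2 : ∀ c : R.X 0 →₀ ℤ,
      Aug (fun y => ∑ᶠ g : Γ, ((c (g • y) : ℤ) : ℝ)) = (R.eps c : ℝ) := by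
    intro c
    rw [← BB5a_eps, ← BB5a_sum (R.free 0)]
    · rw [hAug]
      refine Finset.sum_congr rfl fun o _ => ?_
      have h3 : ∀ g : Γ, ((R.eps (single (g • o.out) 1) : ℤ) : ℝ) * ((c (g • o.out) : ℤ) : ℝ) =
          ((R.eps (single o.out 1) : ℤ) : ℝ) * ((c (g • o.out) : ℤ) : ℝ) := by
        intro g
        rw [heps]
      rw [finsum_congr h3, mul_finsum]
    · refine c.support.finite_toSet.subset fun x hx => ?_
      rw [Finset.mem_coe, Finsupp.mem_support_iff]
      intro h
      rw [Function.mem_support, h] at hx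
      simp at hx
  refine ⟨Aug, ?_, h2⟩
  intro b hb
  have h3 : bdM R 0 b = ∑ o : MulAction.orbitRel.Quotient Γ (R.X 1),
      b o.out • (fun y => ∑ᶠ g : Γ, ((R.d 0 (single o.out 1) (g • y) : ℤ) : ℝ)) := by
    funext y
    rw [Finset.sum_apply]
    change ∑ᶠ x : R.X 1, R.coef 0 x y • b x = _
    have hfin : (Function.support fun x : R.X 1 => R.coef 0 x y • b x).Finite := by
      refine (R.finite_coef_right 0 y).subset fun x hx h => ?_
      rw [Function.mem_support] at hx
      exact hx (by rw [h, zero_smul])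
    rw [← BB5a_sum (R.free 1) _ hfin]
    refine Finset.sum_congr rfl fun o _ => ?_
    rw [Pi.smul_apply, smul_eq_mul, mul_finsum]
    · rw [← finsum_comp_equiv (Equiv.inv Γ)]
      refine finsum_congr fun g => ?_
      change R.coef 0 (g⁻¹ • o.out) y • b (g⁻¹ • o.out) = _
      rw [hb, zsmul_eq_mul, mul_comm]
      congr 2
      have h4 := R.coef_smul 0 g (g⁻¹ • o.out) y
      rw [smul_inv_smul] at h4
      exact h4.symm
  rw [h3, map_sum]
  refine Finset.sum_eq_zero fun o _ => ?_
  rw [map_smul, h2, R.eps_d]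
  simp

end GP

end OS
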