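import Mathlib
import Pool.Agent.Lib.MP_8fe54c_gt.SalTree
import Pool.Agent.Lib.MP_8fe54c_gt.GPDefs

/-!
# Coabelian subgroups of right-angled Artin groups: definitions

* `RCh φ`: the real line, the group acting through the character `φ`;
* `expC L`: the character `exp ∘ L`;
* `raSys G`: the system of the cosets of the standard flats of a right-angled Artin group;
* `Coab A₀ N`: `N` is a subgroup of `A₀` which contains the commutators of `A₀`.
-/

namespace OS

namespace GP

universe u v w

section rch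

variable {Γ : Type*} [Group Γ]

/-- the real line, the group acting through the character `φ` -/
def RCh (_φ : Γ →* ℝˣ) : Type := ℝ

noncomputable instance (φ : Γ →* ℝˣ) : AddCommGroup (RCh φ) := inferInstanceAs (AddCommGroup ℝ)

noncomputable instance (φ : Γ →* ℝˣ) : Module ℝ (RCh φ) := inferInstanceAs (Module ℝ ℝ)

noncomputable instance (φ : Γ →* ℝˣ) : DistribMulAction Γ (RCh φ) :=
  DistribMulAction.compHom ℝ φ

/-- an element of `RCh φ` as a real number -/
def RCh.val {φ : Γ →* ℝˣ} (m : RCh φ) : ℝ := m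

/-- a real number as an element of `RCh φ` -/
def RCh.of (φ : Γ →* ℝˣ) (r : ℝ) : RCh φ := r

theorem RCh.val_smul {φ : Γ →* ℝˣ} (g : Γ) (m : RCh φ) :
    (g • m).val = ((φ g : ℝˣ) : ℝ) * m.val := rfl

theorem RCh.val_add {φ : Γ →* ℝˣ} (m m' : RCh φ) : (m + m').val = m.val + m'.val := rfl

theorem RCh.val_zero {φ : Γ →* ℝˣ} : (0 : RCh φ).val = 0 := rfl

theorem RCh.val_rsmul {φ : Γ →* ℝˣ} (r : ℝ) (m : RCh φ) : (r • m).val = r * m.val := rfl

theorem RCh.ext {φ : Γ →* ℝˣ} {m m' : RCh φ} (h : m.val = m'.val) : m = m' := h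

instance (φ : Γ →* ℝˣ) : SMulCommClass Γ ℝ (RCh φ) where
  smul_comm g r m := by
    apply RCh.ext
    rw [RCh.val_smul, RCh.val_rsmul, RCh.val_rsmul, RCh.val_smul]
    ring

/-- the character `exp ∘ L` -/
noncomputable def expC (L : Γ →* Multiplicative ℝ) : Γ →* ℝˣ where
  toFun g := Units.mk0 (Real.exp (L g).toAdd) (Real.exp_ne_zero _)
  map_one' := by
    ext
    simp
  map_mul' a b := by
    ext
    simp [Real.exp_add]

theorem expC_apply (L : Γ →* Multiplicative ℝ) (g : Γ) :
    ((expC L g : ℝˣ) : ℝ) = Real.exp (L g).toAdd := rfl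

end rch

section ra

/-- the system of the cosets of the standard flats -/
abbrev raSys {V : Type u} (G : SimpleGraph V) : CSys.{u, u} V :=
  cosSys (fun σ : Finset V => sg G (σ : Set V))
    (fun _ _ h => Subgroup.closure_mono (Set.image_mono (Finset.coe_subset.mpr h)))

instance {V : Type u} (G : SimpleGraph V) (σ : Finset V) : MulAction (RAAG G) ((raSys G).Q σ) :=
  inferInstanceAs (MulAction (RAAG G) (RAAG G ⧸ sg G (σ : Set V)))

theorem raSys_pr_smul {V : Type u} {G : SimpleGraph V} (A₀ : Subgroup (RAAG G)) (a : A₀)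
    {σ τ : Finset V} (h : σ ⊆ τ) (x : (raSys G).Q σ) :
    (raSys G).pr h (a • x) = a • (raSys G).pr h x := by
  change RAAG G ⧸ sg G (σ : Set V) at x
  induction x using QuotientGroup.induction_on with
  | H g => rfl

/-- a coset of the flat of `σ` -/
def raC {V : Type u} {G : SimpleGraph V} (σ : Finset V) (g : RAAG G) : (raSys G).Q σ :=
  (g : RAAG G ⧸ sg G (σ : Set V))

theorem raC_surj {V : Type u} {G : SimpleGraph V} (σ : Finset V) (x : (raSys G).Q σ) :
    ∃ g, raC σ g = x := by
  change RAAG G ⧸ sg G (σ : Set V) at x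
  induction x using QuotientGroup.induction_on with
  | H g => exact ⟨g, rfl⟩

theorem smul_raC {V : Type u} {G : SimpleGraph V} (A₀ : Subgroup (RAAG G)) (a : A₀)
    (σ : Finset V) (g : RAAG G) : a • raC σ g = raC σ ((a : RAAG G) * g) := rfl

theorem raC_eq {V : Type u} {G : SimpleGraph V} (σ : Finset V) (g h : RAAG G) :
    raC σ g = raC σ h ↔ g⁻¹ * h ∈ sg G (σ : Set V) := QuotientGroup.eq

theorem smul_raC_eq {V : Type u} {G : SimpleGraph V} (A₀ : Subgroup (RAAG G)) (a : A₀)
    (σ : Finset V) (g : RAAG G) :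
    a • raC σ g = raC σ g ↔ g⁻¹ * (a : RAAG G) * g ∈ sg G (σ : Set V) := by
  rw [smul_raC, eq_comm, raC_eq, mul_assoc]

/-- `N` is a subgroup of `A₀` which contains the commutators of the elements of `A₀` -/
structure Coab {A : Type*} [Group A] (A₀ N : Subgroup A) : Prop where
  le : N ≤ A₀
  comm : ∀ a ∈ A₀, ∀ b ∈ A₀, a * b * a⁻¹ * b⁻¹ ∈ N

end ra

end GP

end OS
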