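import Mathlib
import Pool.Agent.Lib.MP_8fe54c_gt.BBDefs
import Pool.Agent.Lib.MP_8fe54c_gt.KShap

/-!
# The homology of a group of finite type with coefficients in a character is finite dimensional
-/

namespace OS

namespace GP

open Finsupp MulOpposite

universe u v w u' v' w'

section lin

variable {X Y : Type*} {M : Type*} [AddCommGroup M]

theorem BB7_push_add (T : ZMap X Y) (hT : ∀ y, {x | mc T x y ≠ 0}.Finite) (F G : X → M) :
    K6_push T (F + G) = K6_push T F + K6_push T G := by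
  funext y
  have hA : ∀ (E : X → M) x, mc T x y ≠ 0 → E x ≠ 0 → x ∈ (hT y).toFinset :=
    fun E x hx _ => (Set.Finite.mem_toFinset _).2 hx
  rw [Pi.add_apply, K6_push_eq_sum T (F + G) y _ (hA _), K6_push_eq_sum T F y _ (hA _),
    K6_push_eq_sum T G y _ (hA _), ← Finset.sum_add_distrib]
  refine Finset.sum_congr rfl fun x _ => ?_
  rw [Pi.add_apply, smul_add]

theorem BB7_push_smul [Module ℝ M] (T : ZMap X Y) (hT : ∀ y, {x | mc T x y ≠ 0}.Finite) (r : ℝ)
    (F : X → M) : K6_push T (r • F) = r • K6_push T F := by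
  funext y
  have hA : ∀ (E : X → M) x, mc T x y ≠ 0 → E x ≠ 0 → x ∈ (hT y).toFinset :=
    fun E x hx _ => (Set.Finite.mem_toFinset _).2 hx
  rw [Pi.smul_apply, K6_push_eq_sum T (r • F) y _ (hA _), K6_push_eq_sum T F y _ (hA _),
    Finset.smul_sum]
  refine Finset.sum_congr rfl fun x _ => ?_
  rw [Pi.smul_apply, smul_comm]

end lin

section tr

/-- comparison of a free complex with a resolution of finite type, up to boundaries -/
theorem BB7_transfer {H : Type v'} [Group H] {Γ : Type v} [Group Γ] (φ : H →* Γ) (M : Type w')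
    [AddCommGroup M] [DistribMulAction Γ M] {X : ℕ → Type u} [∀ k, MulAction H (X k)]
    (hX : ∀ k (g : H) (x : X k), g • x = x → g = 1)
    (dX : ∀ k, ZMap (X (k + 1)) (X k)) (hdX : ∀ k, Eqv H (dX k))
    (eX : (X 0 →₀ ℤ) →ₗ[ℤ] ℤ) (heX : ∀ (g : H) c, eX (gact g c) = eX c)
    (heXs : ∃ c, eX c = 1) (hXe : ∀ c, eX (dX 0 c) = 0)
    (hXd : ∀ k c, dX k (dX (k + 1) c) = 0) (hX0 : ∀ c, eX c = 0 → ∃ b, dX 0 b = c)
    (hXex : ∀ k c, dX k c = 0 → ∃ b, dX (k + 1) b = c)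
    (F : FreeRes.{u', v'} H) (p : ℕ) :
    ∃ β : ZMap (F.X p) (X p), Eqv H β ∧ ∀ f : X p → M, K6_Eq φ f → K6_Cyc dX p f →
      ∃ u : F.X p → M, (∀ (h : H) x, u (h • x) = φ h • u x) ∧
        ∃ W : X (p + 1) → M, K6_Eq φ W ∧ f = K6_push β u + K6_push (dX p) W := by
  obtain ⟨β, hβ, hβe, hβd⟩ := exists_chainMapG (Γ := H) (X := F.X) (Y := X) F.free F.d dX
    (fun k => F.d_act k) hdX (fun _ n => n) F.eps eX F.eps_act heX F.eps_d F.d_d (by
      intro x
      obtain ⟨c, hc⟩ := heXs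
      exact ⟨F.eps (single x 1) • c, by rw [map_smul, hc, smul_eq_mul, mul_one]⟩) hX0 hXex
  obtain ⟨α', hα', hαe, hαd'⟩ := exists_chainMapG (Γ := H) (X := X) (Y := F.X) hX dX F.d hdX
    (fun k => F.d_act k) (fun _ n => n) eX F.eps heX F.eps_act hXe hXd (by
      intro x
      obtain ⟨c, hc⟩ := F.eps_surj
      exact ⟨eX (single x 1) • c, by rw [map_smul, hc, smul_eq_mul, mul_one]⟩) F.exact0 F.exact
  obtain ⟨h, hh, hh0, hhd⟩ := exists_homotopyG (Γ := H) (X := X) (Y := X) hX dX dX hdX hdX eX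
    hXd hXd hX0 hXex (fun k => β k ∘ₗ α' k) (fun _ => LinearMap.id)
    (fun k => (hβ k).comp (hα' k)) (fun _ _ _ => rfl)
    (fun c => by rw [LinearMap.comp_apply, hβe, hαe, LinearMap.id_apply])
    (fun k c => by rw [LinearMap.comp_apply, hβd, hαd', LinearMap.comp_apply])
    (fun _ _ => rfl)
  refine ⟨β p, hβ p, fun f hf hcyc => ?_⟩
  have hg := K6_push_eqv (α' p) (hα' p) hf
  have e1 : K6_push (β p ∘ₗ α' p) f = K6_push (β p) (K6_push (α' p) f) :=
    (K6_push_comp (β p) (α' p) (hβ p) (hα' p) (F.free p) (hX p) hf).symm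
  have e2 : K6_push (dX p) (K6_push (h p) f) = K6_push (β p ∘ₗ α' p) f - f := by
    rw [K6_push_comp (dX p) (h p) (hdX p) (hh p) (hX (p + 1)) (hX p) hf]
    cases p with
    | zero =>
      have h2 : (dX 0) ∘ₗ (h 0) = (β 0 ∘ₗ α' 0) - LinearMap.id :=
        LinearMap.ext fun c => hh0 c
      rw [h2, K6_push_sub_left (β 0 ∘ₗ α' 0) LinearMap.id ((hβ 0).comp (hα' 0))
        (fun _ _ => rfl) (hX 0) hf, K6_push_id]
    | succ k =>
      have h3 : K6_push (dX k) f = 0 := hcyc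
      have h2 : (dX (k + 1)) ∘ₗ (h (k + 1)) =
          ((β (k + 1) ∘ₗ α' (k + 1)) - LinearMap.id) - (h k ∘ₗ dX k) :=
        LinearMap.ext fun c => hhd k c
      have h4 : Eqv H ((β (k + 1) ∘ₗ α' (k + 1)) - LinearMap.id) := by
        intro g c
        rw [LinearMap.sub_apply, LinearMap.sub_apply, map_sub, LinearMap.id_apply,
          LinearMap.id_apply, ((hβ (k + 1)).comp (hα' (k + 1))) g c]
      rw [h2, K6_push_sub_left _ (h k ∘ₗ dX k) h4 ((hh k).comp (hdX k)) (hX (k + 1)) hf,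
        K6_push_sub_left (β (k + 1) ∘ₗ α' (k + 1)) LinearMap.id
          ((hβ (k + 1)).comp (hα' (k + 1))) (fun _ _ => rfl) (hX (k + 1)) hf, K6_push_id,
        ← K6_push_comp (h k) (dX k) (hh k) (hdX k) (hX k) (hX (k + 1)) hf, h3, K6_push_zero,
        sub_zero]
  have hB := K6_push_eqv (h p) (hh p) hf
  have h0 : K6_Eq φ (0 : X (p + 1) → M) := by
    refine ⟨fun g x => ?_, ⟨∅, fun x hx => absurd rfl hx⟩⟩
    rw [Pi.zero_apply, Pi.zero_apply, smul_zero]
  refine ⟨K6_push (α' p) f, hg.eqv, 0 - K6_push (h p) f, K6_sub h0 hB, ?_⟩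
  rw [K6_push_sub_right (dX p) (hdX p) (hX p) h0 hB, K6_push_zero, ← e1, e2]
  abel

end tr

section av

variable {Γ : Type*} [Group Γ] {N : Subgroup Γ} (L : Subgroup N) [Fintype (N ⧸ L)]
  {M : Type*} [AddCommGroup M] [Module ℝ M] [DistribMulAction Γ M] {X : Type*} [MulAction Γ X]

/-- the average of a function over the cosets of a subgroup of finite index -/
noncomputable def BB7_av (w : X → M) (c : X) : M :=
  (Fintype.card (N ⧸ L) : ℝ)⁻¹ •
    ∑ q : N ⧸ L, ((q.out : N) : Γ) • w (((q.out : N) : Γ)⁻¹ • c)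

theorem BB7_av_add (w w' : X → M) : BB7_av L (w + w') = BB7_av L w + BB7_av L w' := by
  funext c
  unfold BB7_av
  rw [Pi.add_apply, ← smul_add, ← Finset.sum_add_distrib]
  congr 1
  refine Finset.sum_congr rfl fun q _ => ?_
  rw [Pi.add_apply, smul_add]

theorem BB7_av_smul [SMulCommClass Γ ℝ M] (r : ℝ) (w : X → M) :
    BB7_av L (r • w) = r • BB7_av L w := by
  funext c
  unfold BB7_av
  rw [Pi.smul_apply, smul_comm r (Fintype.card (N ⧸ L) : ℝ)⁻¹, Finset.smul_sum (r := r)]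
  refine congrArg _ (Finset.sum_congr rfl fun q _ => ?_)
  rw [Pi.smul_apply, smul_comm]

theorem BB7_av_inv (w : X → M) (hw : ∀ (n : N) c, w ((n : Γ) • c) = (n : Γ) • w c) :
    BB7_av L w = w := by
  funext c
  unfold BB7_av
  have h1 : ∀ q ∈ (Finset.univ : Finset (N ⧸ L)),
      ((q.out : N) : Γ) • w (((q.out : N) : Γ)⁻¹ • c) = w c := by
    intro q _
    rw [← hw, smul_inv_smul]
  rw [Finset.sum_congr rfl h1, Finset.sum_const, Finset.card_univ, ← Nat.cast_smul_eq_nsmul ℝ,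
    smul_smul, inv_mul_cancel₀, one_smul]
  exact Nat.cast_ne_zero.2 Fintype.card_ne_zero

theorem BB7_term {w : X → M} (hw : ∀ l : N, l ∈ L → ∀ c, w ((l : Γ) • c) = (l : Γ) • w c)
    (n : N) (q : N ⧸ L) (hq : QuotientGroup.mk n = q) (c : X) :
    ((q.out : N) : Γ) • w (((q.out : N) : Γ)⁻¹ • c) = (n : Γ) • w ((n : Γ)⁻¹ • c) := by
  have h1 : n⁻¹ * q.out ∈ L := by
    rw [← QuotientGroup.eq, hq, QuotientGroup.out_eq']
  have h2 : ((n⁻¹ * q.out : N) : Γ) = (n : Γ)⁻¹ * ((q.out : N) : Γ) := by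
    rw [Subgroup.coe_mul, Subgroup.coe_inv]
  have h3 : (n : Γ)⁻¹ • c =
      ((n⁻¹ * q.out : N) : Γ) • (((q.out : N) : Γ)⁻¹ • c) := by
    rw [h2, smul_smul, mul_assoc, mul_inv_cancel, mul_one]
  rw [h3, hw _ h1, h2, smul_smul, mul_inv_cancel_left]

theorem BB7_av_eqv [SMulCommClass Γ ℝ M] {w : X → M}
    (hw : ∀ l : N, l ∈ L → ∀ c, w ((l : Γ) • c) = (l : Γ) • w c) (n : N) (c : X) :
    BB7_av L w ((n : Γ) • c) = (n : Γ) • BB7_av L w c := by
  unfold BB7_av
  rw [smul_comm (n : Γ) (Fintype.card (N ⧸ L) : ℝ)⁻¹, Finset.smul_sum (r := (n : Γ))]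
  refine congrArg _ ?_
  rw [← Equiv.sum_comp (MulAction.toPerm n : Equiv.Perm (N ⧸ L))]
  refine Finset.sum_congr rfl fun q _ => ?_
  rw [MulAction.toPerm_apply]
  have h1 : (QuotientGroup.mk (n * q.out) : N ⧸ L) = n • q := by
    conv_rhs => rw [← QuotientGroup.out_eq' q]
    rfl
  rw [BB7_term L hw (n * q.out) (n • q) h1, Subgroup.coe_mul, smul_smul, smul_smul,
    mul_inv_rev, mul_assoc, inv_mul_cancel, mul_one]

theorem BB7_av_push [SMulCommClass Γ ℝ M] {Y : Type*} [MulAction Γ Y] (T : ZMap X Y)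
    (hT : Eqv Γ T) (hfin : ∀ y, {x | mc T x y ≠ 0}.Finite) (w : X → M) :
    K6_push T (BB7_av L w) = BB7_av L (K6_push T w) := by
  funext y
  have hA : ∀ (E : X → M) y x, mc T x y ≠ 0 → E x ≠ 0 → x ∈ (hfin y).toFinset :=
    fun E y x hx _ => (Set.Finite.mem_toFinset _).2 hx
  have h1 : ∀ g : Γ, g • K6_push T w (g⁻¹ • y) =
      ∑ x ∈ (hfin y).toFinset, mc T x y • (g • w (g⁻¹ • x)) := by
    intro g
    refine Eq.trans ?_ (K6_push_eq_sum T (fun x => g • w (g⁻¹ • x)) y _ (hA _ y))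
    unfold K6_push
    rw [← finsum_comp_equiv (f := fun x => mc T x y • (fun x => g • w (g⁻¹ • x)) x)
      (MulAction.toPerm g)]
    have h5 : ∀ x : X, mc T (MulAction.toPerm g x) y •
        (fun x => g • w (g⁻¹ • x)) (MulAction.toPerm g x) =
        (DistribSMul.toAddMonoidHom M g) (mc T x (g⁻¹ • y) • w x) := by
      intro x
      rw [MulAction.toPerm_apply]
      change mc T (g • x) y • (g • w (g⁻¹ • (g • x))) = _
      rw [inv_smul_smul]
      have h6 := hT.mc_smul g x (g⁻¹ • y)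
      rw [smul_inv_smul] at h6
      rw [h6, map_zsmul]
      rfl
    rw [finsum_congr h5]
    have hinj : Function.Injective (DistribSMul.toAddMonoidHom M g) := by
      intro a b e
      exact MulAction.injective g e
    exact AddMonoidHom.map_finsum_of_injective (DistribSMul.toAddMonoidHom M g) hinj _
  rw [K6_push_eq_sum T _ y _ (hA _ y)]
  unfold BB7_av
  simp only [h1]
  rw [Finset.sum_comm, Finset.smul_sum]
  refine Finset.sum_congr rfl fun x _ => ?_
  rw [smul_comm, Finset.smul_sum]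

end av

section rch

variable {Γ : Type*} [Group Γ]

instance BB7_fin (ψ : Γ →* ℝˣ) : FiniteDimensional ℝ (RCh ψ) :=
  inferInstanceAs (FiniteDimensional ℝ ℝ)

/-- the equivariant functions -/
def BB7_E {K : Type*} [Group K] (κ : K →* Γ) (ψ : Γ →* ℝˣ) (Y : Type*) [MulAction K Y] :
    Submodule ℝ (Y → RCh ψ) where
  carrier := {u | ∀ (a : K) y, u (a • y) = κ a • u y}
  add_mem' := by
    intro u u' hu hu' a y
    rw [Pi.add_apply, Pi.add_apply, hu, hu', smul_add]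
  zero_mem' := by
    intro a y
    rw [Pi.zero_apply, Pi.zero_apply, smul_zero]
  smul_mem' := by
    intro r u hu a y
    rw [Pi.smul_apply, Pi.smul_apply, hu]
    exact (smul_comm (κ a) r (u y)).symm

theorem BB7_E_fin {K : Type*} [Group K] (κ : K →* Γ) (ψ : Γ →* ℝˣ) (Y : Type*) [MulAction K Y]
    (s : Finset Y) (hs : ∀ x, ∃ g : K, ∃ y ∈ s, g • y = x) :
    FiniteDimensional ℝ (BB7_E κ ψ Y) := by
  let res : BB7_E κ ψ Y →ₗ[ℝ] (s → RCh ψ) :=
    { toFun := fun u y => (u : Y → RCh ψ) y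
      map_add' := fun _ _ => rfl
      map_smul' := fun _ _ => rfl }
  refine FiniteDimensional.of_injective res ?_
  intro u u' h
  refine Subtype.ext (funext fun x => ?_)
  obtain ⟨g, y, hy, rfl⟩ := hs x
  have h1 : (u : Y → RCh ψ) y = (u' : Y → RCh ψ) y := congrFun h ⟨y, hy⟩
  rw [u.2 g y, u'.2 g y, h1]

end rch

section ind

variable {Γ : Type v} [Group Γ] (R : FreeRes.{u, v} Γ) (N : Subgroup Γ) {M : Type w'}
  [AddCommGroup M] [DistribMulAction Γ M]

/-- the value at the trivial coset -/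
noncomputable def BB7_ev {X : Type*} (f : X → TW (Γ ⧸ N) M) (c : X) : M :=
  (show (Γ ⧸ N) →₀ M from f c) ((1 : Γ) : Γ ⧸ N)

variable {N}

theorem BB7_val {k : ℕ} {f : R.X k → TW (Γ ⧸ N) M}
    (hf : IsEq (MonoidHom.id Γ) R (TW (Γ ⧸ N) M) k f) (g : Γ) (c : R.X k) :
    (show (Γ ⧸ N) →₀ M from f c) (g : Γ ⧸ N) = g • BB7_ev N f (g⁻¹ • c) := by
  have h1 : f c = g • f (g⁻¹ • c) := by
    have h2 := hf g (g⁻¹ • c)
    rw [smul_inv_smul] at h2
    exact h2
  have h3 := tw_smul_apply g (f (g⁻¹ • c)) (g : Γ ⧸ N)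
  rw [← h1] at h3
  rw [h3]
  have h4 : g⁻¹ • (g : Γ ⧸ N) = ((1 : Γ) : Γ ⧸ N) := by
    rw [← inv_mul_cancel g]
    rfl
  rw [h4]
  rfl

theorem BB7_ev_eqv {k : ℕ} {f : R.X k → TW (Γ ⧸ N) M}
    (hf : IsEq (MonoidHom.id Γ) R (TW (Γ ⧸ N) M) k f) (n : N) (c : R.X k) :
    BB7_ev N f ((n : Γ) • c) = (n : Γ) • BB7_ev N f c := by
  have h1 := BB7_val R hf (n : Γ) ((n : Γ) • c)
  rw [inv_smul_smul] at h1
  rw [← h1]
  have h2 : ((n : Γ) : Γ ⧸ N) = ((1 : Γ) : Γ ⧸ N) := by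
    rw [QuotientGroup.eq, mul_one]
    exact N.inv_mem n.2
  rw [h2]
  rfl

theorem BB7_ev_bd {k : ℕ} (f : R.X (k + 1) → TW (Γ ⧸ N) M) :
    BB7_ev N (bdM R k f) = K6_push (R.d k) (BB7_ev N f) := by
  funext y
  have hfin : (Function.support fun c => R.coef k c y • (show (Γ ⧸ N) →₀ M from f c)).Finite := by
    refine (R.finite_coef_right k y).subset fun c hc hc' => ?_
    rw [Function.mem_support] at hc
    exact hc (by rw [hc', zero_smul])
  exact AddMonoidHom.map_finsum (Finsupp.applyAddHom (M := M) ((1 : Γ) : Γ ⧸ N)) hfin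

theorem BB7_ind {k : ℕ} (G : R.X k → M) (hG : ∀ (n : N) c, G ((n : Γ) • c) = (n : Γ) • G c)
    (S : Finset (R.X k)) (hS : ∀ c, G c ≠ 0 → ∃ n : N, ∃ y ∈ S, (n : Γ) • y = c) :
    ∃ f : R.X k → TW (Γ ⧸ N) M, IsEq (MonoidHom.id Γ) R (TW (Γ ⧸ N) M) k f ∧
      BB7_ev N f = G := by
  classical
  have hrep : ∀ (g : Γ) (q : Γ ⧸ N), (g : Γ ⧸ N) = q → ∀ c : R.X k,
      q.out • G (q.out⁻¹ • c) = g • G (g⁻¹ • c) := by
    intro g q hq c
    have h1 : g⁻¹ * q.out ∈ N := by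
      rw [← QuotientGroup.eq, hq, QuotientGroup.out_eq']
    have h3 : g⁻¹ • c = ((⟨g⁻¹ * q.out, h1⟩ : N) : Γ) • (q.out⁻¹ • c) := by
      rw [smul_smul, mul_assoc, mul_inv_cancel, mul_one]
    rw [h3, hG, smul_smul, mul_inv_cancel_left]
  have hfin : ∀ c, (Function.support fun q : Γ ⧸ N => q.out • G (q.out⁻¹ • c)).Finite := by
    intro c
    have h1 : (⋃ y ∈ (S : Set (R.X k)), {q : Γ ⧸ N | ∃ g : Γ, g • y = c ∧ q = g}).Finite := by
      refine S.finite_toSet.biUnion fun y _ => ?_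
      refine Set.Subsingleton.finite ?_
      rintro q ⟨g, hg, rfl⟩ q' ⟨g', hg', rfl⟩
      rw [R.eq_of_smul_eq (hg.trans hg'.symm)]
    refine h1.subset ?_
    intro q hq
    rw [Function.mem_support] at hq
    have h2 : G (q.out⁻¹ • c) ≠ 0 := by
      intro h3
      rw [h3, smul_zero] at hq
      exact hq rfl
    obtain ⟨n, y, hy, e⟩ := hS _ h2
    refine Set.mem_biUnion (Finset.mem_coe.2 hy) ⟨q.out * n, ?_, ?_⟩
    · rw [mul_smul, e, smul_inv_smul]
    · rw [QuotientGroup.mk_mul_of_mem _ n.2, QuotientGroup.out_eq']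
  refine ⟨fun c => (Finsupp.ofSupportFinite (fun q : Γ ⧸ N => q.out • G (q.out⁻¹ • c))
    (hfin c) : (Γ ⧸ N) →₀ M), ?_, ?_⟩
  · intro g c
    refine Finsupp.ext fun q => ?_
    have h2 : (show (Γ ⧸ N) →₀ M from ((MonoidHom.id Γ) g • (show TW (Γ ⧸ N) M from
        (Finsupp.ofSupportFinite (fun q : Γ ⧸ N => q.out • G (q.out⁻¹ • c))
          (hfin c) : (Γ ⧸ N) →₀ M)))) q =
        g • ((g⁻¹ • q).out • G ((g⁻¹ • q).out⁻¹ • c)) := tw_smul_apply g _ q
    refine Eq.trans ?_ h2.symm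
    change q.out • G (q.out⁻¹ • (g • c)) = _
    have h3 : ((g⁻¹ * q.out : Γ) : Γ ⧸ N) = g⁻¹ • q := by
      conv_rhs => rw [← QuotientGroup.out_eq' q]
      rfl
    rw [hrep (g⁻¹ * q.out) (g⁻¹ • q) h3, smul_smul g (g⁻¹ * q.out), mul_inv_cancel_left,
      mul_inv_rev, inv_inv, mul_smul]
  · funext c
    change (((1 : Γ) : Γ ⧸ N)).out • G ((((1 : Γ) : Γ ⧸ N)).out⁻¹ • c) = G c
    rw [hrep 1 _ rfl, inv_one, one_smul, one_smul]

end ind

/-! ## BB7 -/

theorem exists_finite_span {Γ : Type v} [Group Γ] (R : FreeRes.{u, v} Γ) (N : Subgroup Γ)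
    {K : Type v'} [Group K] (κ : K →* Γ) (hκ : Function.Injective κ) (hKN : κ.range ≤ N)
    (hfi : (κ.range.subgroupOf N).FiniteIndex) (F : FreeRes.{u', v'} K) (ψ : Γ →* ℝˣ) (k : ℕ) :
    ∃ W : Submodule ℝ (R.X k → TW (Γ ⧸ N) (RCh ψ)), FiniteDimensional ℝ W ∧
      ∀ f, IsEq (MonoidHom.id Γ) R (TW (Γ ⧸ N) (RCh ψ)) k f → CycM R k f →
        ∃ w ∈ W, ∃ f', IsEq (MonoidHom.id Γ) R (TW (Γ ⧸ N) (RCh ψ)) (k + 1) f' ∧
          ∀ x, f x = w x + bdM R k f' x := by
  classical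
  set L : Subgroup N := κ.range.subgroupOf N with hL
  have _ : Fintype (N ⧸ L) := Fintype.ofFinite _
  -- the action of `K`
  let _ : ∀ k, MulAction K (R.X k) := fun k => MulAction.compHom (R.X k) κ
  have hsm : ∀ (k : ℕ) (h : K) (c : R.X k), h • c = κ h • c := fun _ _ _ => rfl
  have hKfree : ∀ k (g : K) (x : R.X k), g • x = x → g = 1 :=
    fun k g c h => hκ ((R.free k (κ g) c h).trans (map_one κ).symm)
  obtain ⟨β, hβ, hβ'⟩ := BB7_transfer κ (RCh ψ) (X := R.X) hKfree R.d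
    (fun k g c => R.d_act k (κ g) c) R.eps (fun g c => R.eps_act (κ g) c) R.eps_surj R.eps_d
    R.d_d R.exact0 R.exact F k
  -- the linear map
  have hβfin : ∀ y, {x | mc β x y ≠ 0}.Finite := by
    intro y
    obtain ⟨s, hs⟩ := F.fin k
    refine (K6_fin β hβ (hKfree k) (fun _ => True) s (fun x _ => hs x) y).subset ?_
    intro x hx
    exact ⟨hx, trivial⟩
  let Λ : (F.X k → RCh ψ) →ₗ[ℝ] (R.X k → RCh ψ) :=
    { toFun := fun u => BB7_av L (K6_push β u)
      map_add' := fun u u' => by rw [BB7_push_add β hβfin, BB7_av_add]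
      map_smul' := fun r u => by
        rw [BB7_push_smul β hβfin, BB7_av_smul, RingHom.id_apply] }
  obtain ⟨s, hs⟩ := F.fin k
  have hE : FiniteDimensional ℝ (BB7_E κ ψ (F.X k)) := BB7_E_fin κ ψ (F.X k) s hs
  have hW0 : FiniteDimensional ℝ ((BB7_E κ ψ (F.X k)).map Λ) := inferInstance
  -- the submodule
  let W : Submodule ℝ (R.X k → TW (Γ ⧸ N) (RCh ψ)) :=
    { carrier := {w | IsEq (MonoidHom.id Γ) R (TW (Γ ⧸ N) (RCh ψ)) k w ∧
        BB7_ev N w ∈ (BB7_E κ ψ (F.X k)).map Λ}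
      add_mem' := by
        rintro a b ⟨ha, ha'⟩ ⟨hb, hb'⟩
        refine ⟨fun g x => ?_, ?_⟩
        · rw [Pi.add_apply, Pi.add_apply, ha, hb, smul_add]
        · exact Submodule.add_mem _ ha' hb'
      zero_mem' := by
        refine ⟨fun g x => ?_, ?_⟩
        · rw [Pi.zero_apply, Pi.zero_apply, smul_zero]
        · exact Submodule.zero_mem _
      smul_mem' := by
        rintro r a ⟨ha, ha'⟩
        refine ⟨fun g x => ?_, ?_⟩
        · rw [Pi.smul_apply, Pi.smul_apply, ha]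
          exact (smul_comm ((MonoidHom.id Γ) g) r (a x)).symm
        · exact Submodule.smul_mem _ r ha' }
  refine ⟨W, ?_, ?_⟩
  · let ev : W →ₗ[ℝ] ((BB7_E κ ψ (F.X k)).map Λ) :=
      { toFun := fun w => ⟨BB7_ev N w.1, w.2.2⟩
        map_add' := fun _ _ => rfl
        map_smul' := fun _ _ => rfl }
    refine FiniteDimensional.of_injective ev ?_
    intro a b hab
    refine Subtype.ext (funext fun c => Finsupp.ext fun q => ?_)
    have h1 : BB7_ev N a.1 = BB7_ev N b.1 := congrArg Subtype.val hab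
    induction q using QuotientGroup.induction_on with
    | H g =>
      have h2 := BB7_val R a.2.1 g c
      have h3 := BB7_val R b.2.1 g c
      rw [h1] at h2
      exact h2.trans h3.symm
  · intro f hf hc
    have hNe := BB7_ev_eqv R hf
    -- `F0` is supported in finitely many orbits of `K`
    have hcoset : ∀ n : N, ∃ (a : K) (q : N ⧸ L), (n : Γ) = κ a * (((q.out : N) : Γ))⁻¹ := by
      intro n
      have h1 : n * (QuotientGroup.mk n⁻¹ : N ⧸ L).out ∈ L := by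
        have h2 : (n⁻¹)⁻¹ * (QuotientGroup.mk n⁻¹ : N ⧸ L).out ∈ L := by
          rw [← QuotientGroup.eq, QuotientGroup.out_eq']
        rwa [inv_inv] at h2
      rw [hL, Subgroup.mem_subgroupOf] at h1
      obtain ⟨a, ha⟩ := h1
      refine ⟨a, QuotientGroup.mk n⁻¹, ?_⟩
      rw [ha, Subgroup.coe_mul, mul_inv_cancel_right]
    have hF0 : K6_Eq κ (BB7_ev N f) := by
      refine ⟨?_, ?_⟩
      · intro a c
        exact hNe ⟨κ a, hKN ⟨a, rfl⟩⟩ c
      · obtain ⟨s, hs⟩ := R.fin k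
        refine ⟨s.biUnion fun e => ((show (Γ ⧸ N) →₀ RCh ψ from f e).support ×ˢ
          (Finset.univ : Finset (N ⧸ L))).image
          (fun p => (((p.2.out : N) : Γ))⁻¹ • (p.1.out⁻¹ • e)), ?_⟩
        intro c hcne
        obtain ⟨g, e, he, rfl⟩ := hs c
        have h1 : (show (Γ ⧸ N) →₀ RCh ψ from f e) ((g⁻¹ : Γ) : Γ ⧸ N) ≠ 0 := by
          intro h2
          rw [BB7_val R hf, inv_inv] at h2
          exact hcne ((smul_eq_zero_iff_eq g⁻¹).1 h2)
        -- `g = n * out⁻¹`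
        have h2 : g * (((g⁻¹ : Γ) : Γ ⧸ N)).out ∈ N := by
          have h3 : (g⁻¹)⁻¹ * (((g⁻¹ : Γ) : Γ ⧸ N)).out ∈ N := by
            rw [← QuotientGroup.eq, QuotientGroup.out_eq']
          rwa [inv_inv] at h3
        obtain ⟨a, q, haq⟩ := hcoset ⟨_, h2⟩
        refine ⟨a, (((q.out : N) : Γ))⁻¹ • ((((g⁻¹ : Γ) : Γ ⧸ N)).out⁻¹ • e), ?_, ?_⟩
        · rw [Finset.mem_biUnion]
          refine ⟨e, he, Finset.mem_image.2 ⟨(((g⁻¹ : Γ) : Γ ⧸ N), q), ?_, rfl⟩⟩
          rw [Finset.mem_product]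
          exact ⟨Finsupp.mem_support_iff.2 h1, Finset.mem_univ _⟩
        · rw [hsm, smul_smul, smul_smul]
          have h4 : κ a * (((q.out : N) : Γ))⁻¹ = g * (((g⁻¹ : Γ) : Γ ⧸ N)).out := haq.symm
          rw [h4, mul_inv_cancel_right]
    have hcyc : K6_Cyc R.d k (BB7_ev N f) := by
      cases k with
      | zero => trivial
      | succ j =>
        have h1 : bdM R j f = 0 := hc
        change K6_push (R.d j) (BB7_ev N f) = 0
        rw [← BB7_ev_bd R, h1]
        rfl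
    obtain ⟨u, hu, W1, hW1, hfu⟩ := hβ' _ hF0 hcyc
    -- the average of `W1`
    have hL1 : ∀ l : N, l ∈ L → ∀ c, W1 ((l : Γ) • c) = (l : Γ) • W1 c := by
      intro l hl c
      rw [hL, Subgroup.mem_subgroupOf] at hl
      obtain ⟨a, ha⟩ := hl
      rw [← ha]
      exact hW1.eqv a c
    have hGeq := BB7_av_eqv L hL1
    obtain ⟨S, hS⟩ := hW1.fs
    obtain ⟨f', hf', hf'G⟩ := BB7_ind R (N := N) (BB7_av L W1) hGeq S (by
      intro c hcne
      have h1 : ∃ q : N ⧸ L, W1 (((q.out : N) : Γ)⁻¹ • c) ≠ 0 := by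
        by_contra hcon
        push Not at hcon
        apply hcne
        unfold BB7_av
        have h2 : ∀ q ∈ (Finset.univ : Finset (N ⧸ L)),
            ((q.out : N) : Γ) • W1 (((q.out : N) : Γ)⁻¹ • c) = 0 := by
          intro q _
          rw [hcon q, smul_zero]
        rw [Finset.sum_eq_zero h2, smul_zero]
      obtain ⟨q, hq⟩ := h1
      obtain ⟨a, y, hy, e⟩ := hS _ hq
      refine ⟨q.out * ⟨κ a, hKN ⟨a, rfl⟩⟩, y, hy, ?_⟩
      rw [Subgroup.coe_mul, mul_smul]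
      have h3 : κ a • y = ((q.out : N) : Γ)⁻¹ • c := e
      rw [h3, smul_inv_smul])
    -- the boundary is equivariant
    have hbd : IsEq (MonoidHom.id Γ) R (TW (Γ ⧸ N) (RCh ψ)) k (bdM R k f') := by
      have h1 : K6_Eq (MonoidHom.id Γ) f' := by
        refine ⟨hf', ?_⟩
        obtain ⟨s, hs⟩ := R.fin (k + 1)
        exact ⟨s, fun x _ => hs x⟩
      exact (K6_push_eqv (R.d k) (fun g c => R.d_act k g c) h1).eqv
    refine ⟨fun x => f x - bdM R k f' x, ⟨?_, ?_⟩, f', hf', fun x => (sub_add_cancel _ _).symm⟩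
    · intro g x
      change f (g • x) - bdM R k f' (g • x) = _
      rw [hf, hbd, ← smul_sub]
    · refine ⟨u, hu, ?_⟩
      change BB7_av L (K6_push β u) = _
      have h1 : BB7_ev N (fun x => f x - bdM R k f' x) =
          BB7_ev N f - BB7_ev N (bdM R k f') := rfl
      have h2 : BB7_ev N f = BB7_av L (K6_push β u) + K6_push (R.d k) (BB7_av L W1) := by
        have h3 : BB7_av L (BB7_ev N f) = BB7_ev N f := BB7_av_inv L _ hNe
        have h4 : ∀ y, {x | mc (R.d k) x y ≠ 0}.Finite := fun y => R.finite_coef_right k y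
        rw [BB7_av_push L (R.d k) (fun g c => R.d_act k g c) h4, ← BB7_av_add, ← hfu, h3]
      rw [h1, BB7_ev_bd R, hf'G, h2, add_sub_cancel_right]

end GP

end OS
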