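import Mathlib

/-!
# Free resolutions of finite type and their `ℓ²`-Betti numbers (definitions)
-/

namespace OS

universe u v

/-- The data of an augmented chain complex of free `ℤ[Γ]`-modules with bases: `X k` is the set of
`k`-cells with the action of `Γ`, `d k x` is the boundary of the `(k+1)`-cell `x`, a finite integral
chain of `k`-cells, and `eps` is the augmentation. -/
structure CellComplex (Γ : Type v) [Group Γ] where
  /-- the cells -/
  X : ℕ → Type u
  /-- the action of the group on the cells -/
  act : ∀ k, MulAction Γ (X k)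
  /-- the boundary of a cell -/
  d : ∀ k, X (k + 1) → (X k →₀ ℤ)
  /-- the augmentation -/
  eps : X 0 → ℤ

attribute [instance] CellComplex.act

namespace CellComplex

variable {Γ : Type v} [Group Γ] (C : CellComplex.{u, v} Γ)

/-- the boundary of a finite integral chain -/
noncomputable def bd (k : ℕ) (c : C.X (k + 1) →₀ ℤ) : C.X k →₀ ℤ := c.sum fun x n => n • C.d k x

/-- the augmentation of a finite integral chain -/
noncomputable def aug (c : C.X 0 →₀ ℤ) : ℤ := c.sum fun x n => n * C.eps x

/-- The group acts freely on the cells, with finitely many orbits in each dimension, and the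
boundaries and the augmentation are equivariant: the chain modules are finitely generated free
`ℤ[Γ]`-modules and the differentials are `ℤ[Γ]`-linear. -/
structure IsFree : Prop where
  free : ∀ k (g : Γ) (x : C.X k), g • x = x → g = 1
  fin : ∀ k, Finite (MulAction.orbitRel.Quotient Γ (C.X k))
  d_smul : ∀ k (g : Γ) (x : C.X (k + 1)) (y : C.X k), C.d k (g • x) (g • y) = C.d k x y
  eps_smul : ∀ (g : Γ) (x : C.X 0), C.eps (g • x) = C.eps x

/-- the augmented complex `⋯ → ℤ[X 1] → ℤ[X 0] → ℤ → 0` is exact (in particular it is a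
complex) -/
structure IsExact : Prop where
  surj : ∃ c, C.aug c = 1
  exact_zero : ∀ c, C.aug c = 0 ↔ ∃ e, C.bd 0 e = c
  exact_succ : ∀ k c, C.bd k c = 0 ↔ ∃ e, C.bd (k + 1) e = c

/-- the square summable (complex) `k`-chains -/
def L2Chain (k : ℕ) : Type u := lp (fun _ : C.X k => ℂ) 2

noncomputable instance (k : ℕ) : NormedAddCommGroup (C.L2Chain k) :=
  (lp.normedAddCommGroup : NormedAddCommGroup (lp (fun _ : C.X k => ℂ) 2))

noncomputable instance (k : ℕ) : InnerProductSpace ℂ (C.L2Chain k) :=
  (lp.instInnerProductSpace : InnerProductSpace ℂ (lp (fun _ : C.X k => ℂ) 2))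

instance (k : ℕ) : CompleteSpace (C.L2Chain k) :=
  (inferInstance : CompleteSpace (lp (fun _ : C.X k => ℂ) 2))

/-- the coefficient of a chain at a cell -/
def at' {k : ℕ} (ξ : C.L2Chain k) (x : C.X k) : ℂ :=
  (show lp (fun _ : C.X k => ℂ) 2 from ξ) x

/-- the chain `ξ` is orthogonal to the boundaries of all `(k+1)`-cells -/
def IsCocycle {k : ℕ} (ξ : C.L2Chain k) : Prop :=
  ∀ z : C.X (k + 1), ∑ᶠ x : C.X k, (C.d k z x : ℂ) * C.at' ξ x = 0

/-- the chain `ξ` is a cycle: its boundary, a sum which has finitely many nonzero terms at each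
cell, is zero.  Every `0`-chain is a cycle. -/
def IsCycle : ∀ {k : ℕ}, C.L2Chain k → Prop
  | 0, _ => True
  | k + 1, ξ => ∀ y : C.X k, ∑ᶠ x : C.X (k + 1), (C.d k x y : ℂ) * C.at' ξ x = 0

/-- The space of harmonic square summable `k`-chains: the closed span of the `ℓ²`-cycles which are
orthogonal to all boundaries.  It is the reduced `ℓ²`-homology of the complex in degree `k`. -/
noncomputable def harm (k : ℕ) : Submodule ℂ (C.L2Chain k) :=
  (Submodule.span ℂ {ξ | C.IsCycle ξ ∧ C.IsCocycle ξ}).topologicalClosure

instance (k : ℕ) : CompleteSpace (C.harm k) :=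
  inferInstanceAs (CompleteSpace
    (Submodule.span ℂ {ξ : C.L2Chain k | C.IsCycle ξ ∧ C.IsCocycle ξ}).topologicalClosure)

open Classical in
/-- the basis vector of a cell -/
noncomputable def basisVec {k : ℕ} (x : C.X k) : C.L2Chain k :=
  (lp.single 2 x (1 : ℂ) : lp (fun _ : C.X k => ℂ) 2)

/-- The `k`-th `ℓ²`-Betti number of the complex: the von Neumann dimension `∑ ‖P e‖²` of the
space of harmonic `k`-chains.  Here `P` is the orthogonal projection to this space and the sum is
over one `k`-cell `q.out` in each orbit `q` of `k`-cells. -/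
noncomputable def l2Betti (k : ℕ) : ℝ :=
  ∑ᶠ q : MulAction.orbitRel.Quotient Γ (C.X k),
    ‖(C.harm k).starProjection (C.basisVec q.out)‖ ^ 2

end CellComplex

end OS
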