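import Mathlib
import Pool.Agent.Lib.MP_8fe54c_gt.ResDefs

/-!
# Predicates on groups used in the definition of the class `ClassK`
-/

namespace OS

universe u v w

/-- the boundaries and the augmentation are equivariant -/
structure CellComplex.IsEquiv {Γ : Type v} [Group Γ] (C : CellComplex.{u, v} Γ) : Prop where
  d_smul : ∀ k (g : Γ) (x : C.X (k + 1)) (y : C.X k), C.d k (g • x) (g • y) = C.d k x y
  eps_smul : ∀ (g : Γ) (x : C.X 0), C.eps (g • x) = C.eps x

/-- the stabiliser of a cell -/
def CellComplex.stab {Γ : Type v} [Group Γ] (C : CellComplex.{u, v} Γ) {k : ℕ} (x : C.X k) :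
    Subgroup Γ := MulAction.stabilizer Γ x

namespace GP

/-- the group has an element of infinite order -/
def InfOrd (Γ : Type u) [Group Γ] : Prop := ∃ g : Γ, ∀ n : ℕ, g ^ n = 1 → n = 0

/-- The group has type `FP_∞`: there is a resolution of `ℤ` by finitely generated free modules. -/
def HasRes (Γ : Type u) [Group Γ] : Prop := ∃ C : CellComplex.{u, u} Γ, C.IsFree ∧ C.IsExact

/-- The group has type `FP_∞` and its `k`-th `ℓ²`-Betti number is zero. -/
def BZero (Γ : Type u) [Group Γ] (k : ℕ) : Prop :=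
  ∃ C : CellComplex.{u, u} Γ, C.IsFree ∧ C.IsExact ∧ C.harm k = ⊥

/-- The group has type `FP_∞` and its `k`-th `ℓ²`-Betti number is not zero. -/
def BPos (Γ : Type u) [Group Γ] (k : ℕ) : Prop :=
  ∃ C : CellComplex.{u, u} Γ, C.IsFree ∧ C.IsExact ∧ C.harm k ≠ ⊥

end GP

end OS
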