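import Mathlib
import Pool.Agent.Lib.MP_8fe54c_gt.KBase
import Pool.Agent.Lib.MP_8fe54c_gt.GPBase

/-!
# The class of groups `ClassK`
-/

namespace OS

universe u v w

namespace GP

/-- The smallest class of groups (of type `FP_∞`) which
* contains the groups with `b_k = 0` for all `k ≥ 2` which have `b_1 = 0` or an element of infinite
  order (`low`);
* contains the groups which have a flag system of some degree `d` and `b_k = 0` for all `k > d`
  (`flag`);
* contains the graph products over finite graphs of its members which have elements of infinite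
  order (`graphProd`);
* contains the groups with a finite index subgroup isomorphic to a finite index subgroup of a
  member (`commens`);
* contains the groups `Γ` which act on an acyclic complex such that the stabilisers of the vertices
  are members and, for some `d`, the stabilisers of the `q`-cells, `q ≥ 1`, have `b_p = 0` for
  `p + q > d`; here `d = 0`, or `d = 1` and `Γ` has an element of infinite order, or some vertex
  stabiliser has `b_d ≠ 0` (`act`). -/
inductive ClassK : (Γ : Type u) → [Group Γ] → Prop
  | low (Γ : Type u) [Group Γ] (h2 : ∀ k, 2 ≤ k → BZero Γ k) (h1 : BZero Γ 1 ∨ InfOrd Γ) :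
      ClassK Γ
  | flag (Γ : Type u) [Group Γ] (d : ℕ) (hd : Flag Γ d) (hk : ∀ k, d < k → BZero Γ k) : ClassK Γ
  | graphProd {V : Type u} [Finite V] (L : SimpleGraph V) (G : V → Type u) [∀ v, Group (G v)]
      (hG : ∀ v, ClassK (G v)) (hinf : ∀ v, InfOrd (G v)) (hR : HasRes (GraphProd L G)) :
      ClassK (GraphProd L G)
  | commens (Γ Γ' : Type u) [Group Γ] [Group Γ'] (h : ClassK Γ) (H : Subgroup Γ)
      (H' : Subgroup Γ') [H.FiniteIndex] [H'.FiniteIndex] (e : H ≃* H') (hR : HasRes Γ') :
      ClassK Γ'
  | act (Γ : Type u) [Group Γ] (X : CellComplex.{u, u} Γ) (hX : X.IsEquiv) (hE : X.IsExact)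
      (d : ℕ) (hd : d = 0 ∨ (d = 1 ∧ InfOrd Γ) ∨ ∃ x : X.X 0, BPos (X.stab x) d)
      (h0 : ∀ x : X.X 0, ClassK (X.stab x))
      (h1 : ∀ (q : ℕ) (x : X.X (q + 1)) (p : ℕ), d < p + (q + 1) → BZero (X.stab x) p)
      (hR : HasRes Γ) : ClassK Γ

end GP

end OS
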