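import Mathlib
import Pool.Agent.Lib.MP_8fe54c_gt.GPDefs
import Pool.Agent.Lib.MP_8fe54c_gt.KDefs
import Pool.Agent.Lib.MP_8fe54c_gt.KZig

/-!
# PROJECT K, module K11: groups acting on acyclic complexes
-/

namespace OS

namespace GP

open Finsupp

universe u v w u' v' w'

section ext

variable {X : Type*} {Y : Type*} {Z : Type*} {M : Type*} [AddCommGroup M]

/-- multiples of an element, with coefficients a finite integral chain -/
noncomputable def K11_mul (c : X →₀ ℤ) : M →+ (X →₀ M) where
  toFun m := Finsupp.mapRange (fun n : ℤ => n • m) (zero_smul ℤ m) c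
  map_zero' := by
    ext x
    simp
  map_add' m m' := by
    ext x
    simp [smul_add]

theorem K11_mul_apply (c : X →₀ ℤ) (m : M) (x : X) : K11_mul c m x = c x • m := rfl

theorem K11_mul_add (c c' : X →₀ ℤ) (m : M) :
    K11_mul (c + c') m = K11_mul c m + K11_mul c' m := by
  ext x
  rw [Finsupp.add_apply, K11_mul_apply, K11_mul_apply, K11_mul_apply, Finsupp.add_apply, add_smul]

theorem K11_mul_zero (m : M) : K11_mul (0 : X →₀ ℤ) m = 0 := by
  ext x
  rw [K11_mul_apply]
  simp

theorem K11_mul_smul (n : ℤ) (c : X →₀ ℤ) (m : M) :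
    K11_mul (n • c) m = n • K11_mul c m := by
  ext x
  rw [Finsupp.smul_apply, K11_mul_apply, K11_mul_apply, Finsupp.smul_apply, smul_eq_mul, mul_smul]

theorem K11_mul_single (x : X) (m : M) : K11_mul (single x (1 : ℤ)) m = single x m := by
  classical
  ext y
  rw [K11_mul_apply, Finsupp.single_apply, Finsupp.single_apply]
  split_ifs
  · rw [one_smul]
  · rw [zero_smul]

/-- extension of the coefficients of a linear map -/
noncomputable def K11_ext (M : Type*) [AddCommGroup M] (T : (X →₀ ℤ) →ₗ[ℤ] (Y →₀ ℤ)) :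
    (X →₀ M) →+ (Y →₀ M) :=
  Finsupp.liftAddHom fun x => K11_mul (T (single x 1))

theorem K11_ext_single (T : (X →₀ ℤ) →ₗ[ℤ] (Y →₀ ℤ)) (x : X) (m : M) :
    K11_ext M T (single x m) = K11_mul (T (single x 1)) m := by
  unfold K11_ext
  rw [Finsupp.liftAddHom_apply_single]

theorem K11_ext_mul (T : (X →₀ ℤ) →ₗ[ℤ] (Y →₀ ℤ)) (c : X →₀ ℤ) (m : M) :
    K11_ext M T (K11_mul c m) = K11_mul (T c) m := by
  induction c using Finsupp.induction_linear with
  | zero => rw [K11_mul_zero, map_zero, map_zero, K11_mul_zero]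
  | add a b ha hb => rw [K11_mul_add, map_add, ha, hb, map_add, K11_mul_add]
  | single x n =>
    have e : (single x n : X →₀ ℤ) = n • single x 1 := by simp
    rw [e, K11_mul_smul, map_zsmul, map_smul, K11_mul_smul, K11_mul_single, K11_ext_single]

theorem K11_ext_comp (S : (Y →₀ ℤ) →ₗ[ℤ] (Z →₀ ℤ)) (T : (X →₀ ℤ) →ₗ[ℤ] (Y →₀ ℤ))
    (x : X →₀ M) : K11_ext M S (K11_ext M T x) = K11_ext M (S ∘ₗ T) x := by
  induction x using Finsupp.induction_linear with
  | zero => simp
  | add a b ha hb => rw [map_add, map_add, ha, hb, map_add]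
  | single x n => rw [K11_ext_single, K11_ext_mul, K11_ext_single, LinearMap.comp_apply]

theorem K11_ext_add (S T : (X →₀ ℤ) →ₗ[ℤ] (Y →₀ ℤ)) (x : X →₀ M) :
    K11_ext M (S + T) x = K11_ext M S x + K11_ext M T x := by
  induction x using Finsupp.induction_linear with
  | zero => simp
  | add a b ha hb => rw [map_add, map_add, ha, hb, map_add]; abel
  | single x n =>
    rw [K11_ext_single, K11_ext_single, K11_ext_single, LinearMap.add_apply, K11_mul_add]

theorem K11_ext_id (x : X →₀ M) : K11_ext M (LinearMap.id : (X →₀ ℤ) →ₗ[ℤ] (X →₀ ℤ)) x = x := by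
  induction x using Finsupp.induction_linear with
  | zero => simp
  | add a b ha hb => rw [map_add, ha, hb]
  | single x n => rw [K11_ext_single, LinearMap.id_apply, K11_mul_single]

theorem K11_ext_zero (x : X →₀ M) : K11_ext M (0 : (X →₀ ℤ) →ₗ[ℤ] (Y →₀ ℤ)) x = 0 := by
  induction x using Finsupp.induction_linear with
  | zero => simp
  | add a b ha hb => rw [map_add, ha, hb, add_zero]
  | single x n => rw [K11_ext_single, LinearMap.zero_apply, K11_mul_zero]

/-- extension of the coefficients of a linear form -/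
noncomputable def K11_form (M : Type*) [AddCommGroup M] (e : (X →₀ ℤ) →ₗ[ℤ] ℤ) :
    (X →₀ M) →+ M :=
  Finsupp.liftAddHom fun x => zsmulAddGroupHom (e (single x 1))

theorem K11_form_single (e : (X →₀ ℤ) →ₗ[ℤ] ℤ) (x : X) (m : M) :
    K11_form M e (single x m) = e (single x 1) • m := by
  unfold K11_form
  rw [Finsupp.liftAddHom_apply_single]
  rfl

theorem K11_form_mul (e : (X →₀ ℤ) →ₗ[ℤ] ℤ) (c : X →₀ ℤ) (m : M) :
    K11_form M e (K11_mul c m) = e c • m := by
  induction c using Finsupp.induction_linear with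
  | zero => rw [K11_mul_zero, map_zero, map_zero, zero_smul]
  | add a b ha hb => rw [K11_mul_add, map_add, ha, hb, map_add, add_smul]
  | single x n =>
    have h : (single x n : X →₀ ℤ) = n • single x 1 := by simp
    rw [h, K11_mul_smul, map_zsmul, map_smul, K11_mul_single, K11_form_single, smul_eq_mul,
      mul_smul]

theorem K11_form_ext (e : (Y →₀ ℤ) →ₗ[ℤ] ℤ) (T : (X →₀ ℤ) →ₗ[ℤ] (Y →₀ ℤ))
    (x : X →₀ M) : K11_form M e (K11_ext M T x) = K11_form M (e ∘ₗ T) x := by
  induction x using Finsupp.induction_linear with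
  | zero => simp
  | add a b ha hb => rw [map_add, map_add, ha, hb, map_add]
  | single x n => rw [K11_ext_single, K11_form_mul, K11_form_single, LinearMap.comp_apply]

theorem K11_form_zero (x : X →₀ M) : K11_form M (0 : (X →₀ ℤ) →ₗ[ℤ] ℤ) x = 0 := by
  induction x using Finsupp.induction_linear with
  | zero => simp
  | add a b ha hb => rw [map_add, ha, hb, add_zero]
  | single x n => rw [K11_form_single, LinearMap.zero_apply, zero_smul]

/-- a linear form times a chain -/
theorem K11_ext_form (e : (X →₀ ℤ) →ₗ[ℤ] ℤ) (c : Y →₀ ℤ) (x : X →₀ M) :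
    K11_ext M (LinearMap.toSpanSingleton ℤ _ c ∘ₗ e) x = K11_mul c (K11_form M e x) := by
  induction x using Finsupp.induction_linear with
  | zero => simp
  | add a b ha hb => rw [map_add, map_add, ha, hb, map_add]
  | single x n =>
    rw [K11_ext_single, K11_form_single, LinearMap.comp_apply, LinearMap.toSpanSingleton_apply,
      K11_mul_smul, map_zsmul]

end ext

/-- an exact complex of free abelian groups remains exact with coefficients -/
theorem K11_exact {X : ℕ → Type u} (d : ∀ k, (X (k + 1) →₀ ℤ) →ₗ[ℤ] (X k →₀ ℤ))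
    (e : (X 0 →₀ ℤ) →ₗ[ℤ] ℤ) (hs : ∃ c, e c = 1) (h0 : ∀ c, e c = 0 → ∃ b, d 0 b = c)
    (he : ∀ c, e (d 0 c) = 0) (hd : ∀ k c, d k (d (k + 1) c) = 0)
    (h : ∀ k c, d k c = 0 → ∃ b, d (k + 1) b = c) (M : Type w) [AddCommGroup M] :
    (∀ x : X 0 →₀ M, K11_form M e x = 0 → ∃ y, K11_ext M (d 0) y = x) ∧
      ∀ q (x : X (q + 1) →₀ M), K11_ext M (d q) x = 0 → ∃ y, K11_ext M (d (q + 1)) y = x := by
  obtain ⟨c0, hc0⟩ := hs
  -- lifting of linear maps
  have hlift : ∀ {A B C : Type u} (p : (B →₀ ℤ) →ₗ[ℤ] (C →₀ ℤ)) (f : (A →₀ ℤ) →ₗ[ℤ] (C →₀ ℤ)),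
      (∀ x, ∃ y, p y = f x) → ∃ g : (A →₀ ℤ) →ₗ[ℤ] (B →₀ ℤ), ∀ x, p (g x) = f x := by
    intro A B C p f hpf
    choose z hz using hpf
    refine ⟨Finsupp.lsum ℤ (fun x => LinearMap.toSpanSingleton ℤ _ (z (single x 1))), ?_⟩
    intro c
    induction c using Finsupp.induction_linear with
    | zero => simp
    | add b c hb hc => simp only [map_add, hb, hc]
    | single x n =>
      have e : (single x n : A →₀ ℤ) = n • single x 1 := by simp
      rw [e, map_smul, map_smul, map_smul]
      simp [hz]
  obtain ⟨s0, hs0⟩ := hlift (d 0) (LinearMap.id - LinearMap.toSpanSingleton ℤ _ c0 ∘ₗ e) (by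
    intro x
    apply h0
    rw [LinearMap.sub_apply, LinearMap.comp_apply, LinearMap.toSpanSingleton_apply, map_sub,
      map_smul, hc0]
    simp)
  obtain ⟨s, h1, h2, h3⟩ := dep_seq (A := fun k => (X k →₀ ℤ) →ₗ[ℤ] (X (k + 1) →₀ ℤ))
    (fun k a => ∀ x, d k (a (d k x)) = d k x)
    (fun k a b => ∀ c, d (k + 1) (b c) = c - a (d k c)) s0
    (by
      intro x
      rw [hs0, LinearMap.sub_apply, LinearMap.comp_apply, he]
      simp) (by
      intro k a ha
      obtain ⟨b, hb⟩ := hlift (d (k + 1)) (LinearMap.id - a ∘ₗ d k) (by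
        intro x
        apply h
        rw [LinearMap.sub_apply, LinearMap.comp_apply, map_sub, ha, LinearMap.id_apply, sub_self])
      refine ⟨b, ?_, fun c => ?_⟩
      · intro x
        rw [hb, LinearMap.sub_apply, LinearMap.comp_apply, hd, map_zero, sub_zero,
          LinearMap.id_apply]
      · rw [hb, LinearMap.sub_apply, LinearMap.comp_apply, LinearMap.id_apply])
  constructor
  · intro x hx
    refine ⟨K11_ext M s0 x, ?_⟩
    rw [K11_ext_comp]
    have e1 : d 0 ∘ₗ s0 + LinearMap.toSpanSingleton ℤ _ c0 ∘ₗ e = LinearMap.id := by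
      apply LinearMap.ext
      intro c
      rw [LinearMap.add_apply, LinearMap.comp_apply, hs0, LinearMap.sub_apply, sub_add_cancel]
    have e2 : K11_ext M (LinearMap.id : (X 0 →₀ ℤ) →ₗ[ℤ] (X 0 →₀ ℤ)) x = x := K11_ext_id x
    rw [← e1, K11_ext_add, K11_ext_form, hx, map_zero, add_zero] at e2
    exact e2
  · intro q x hx
    refine ⟨K11_ext M (s (q + 1)) x, ?_⟩
    rw [K11_ext_comp]
    have e1 : d (q + 1) ∘ₗ s (q + 1) + s q ∘ₗ d q = LinearMap.id := by
      apply LinearMap.ext
      intro c
      rw [LinearMap.add_apply, LinearMap.comp_apply, LinearMap.comp_apply, h3, sub_add_cancel,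
        LinearMap.id_apply]
    have e2 : K11_ext M (LinearMap.id : (X (q + 1) →₀ ℤ) →ₗ[ℤ] (X (q + 1) →₀ ℤ)) x = x :=
      K11_ext_id x
    rw [← e1, K11_ext_add, ← K11_ext_comp (s q) (d q), hx, map_zero, add_zero] at e2
    exact e2

/-- the total complex -/
theorem K11_tot {Γ : Type v} [Group Γ] (R : FreeRes.{u, v} Γ) (D : ℕ → Type w')
    [∀ q, AddCommGroup (D q)] [∀ q, DistribMulAction Γ (D q)] (b : ∀ q, D (q + 1) →+ D q)
    (hb : ∀ q (g : Γ) x, b q (g • x) = g • b q x) (hbb : ∀ q x, b q (b (q + 1) x) = 0) (n : ℕ)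
    (hv : ∀ p q, p + q = n → HV (MonoidHom.id Γ) R (D q) p)
    (t : ∀ p q, R.X p → D q) (ht : ∀ p q, IsEq (MonoidHom.id Γ) R (D q) p (t p q))
    (hc : ∀ p q, p + q + 1 = n → ∀ x,
      bdM R p (t (p + 1) q) x + (-1 : ℤ) ^ p • b q (t p (q + 1) x) = 0) :
    ∃ s : ∀ p q, R.X p → D q, (∀ p q, IsEq (MonoidHom.id Γ) R (D q) p (s p q)) ∧
      ∀ p q, p + q = n → ∀ x,
        bdM R p (s (p + 1) q) x + (-1 : ℤ) ^ p • b q (s p (q + 1) x) = t p q x := by
  classical
  have key : ∀ k : ℕ, ∃ s : ∀ p q, R.X p → D q,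
      (∀ p q, IsEq (MonoidHom.id Γ) R (D q) p (s p q)) ∧
      ∀ p q, p + q = n → p < k → ∀ x,
        bdM R p (s (p + 1) q) x + (-1 : ℤ) ^ p • b q (s p (q + 1) x) = t p q x := by
    intro k
    induction k with
    | zero =>
      refine ⟨fun p q x => 0, fun p q g x => ?_, fun p q _ hp => absurd hp (Nat.not_lt_zero _)⟩
      rw [smul_zero]
    | succ k ih =>
      obtain ⟨s, hs1, hs2⟩ := ih
      by_cases hkn : n < k
      · refine ⟨s, hs1, fun p q hpq _ => hs2 p q hpq (by omega)⟩
      push Not at hkn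
      obtain ⟨q0, rfl⟩ : ∃ q0, n = k + q0 := ⟨n - k, by omega⟩
      have hbe : ∀ p q, IsEq (MonoidHom.id Γ) R (D q) p (fun x => b q (s p (q + 1) x)) := by
        intro p q g x
        show b q (s p (q + 1) (g • x)) = g • b q (s p (q + 1) x)
        rw [hs1 p (q + 1) g x, MonoidHom.id_apply, hb]
      obtain ⟨s', hs', hs'2⟩ := hv k q0 rfl
        (fun x => t k q0 x - (-1 : ℤ) ^ k • b q0 (s k (q0 + 1) x)) (by
          intro g x
          show t k q0 (g • x) - (-1 : ℤ) ^ k • b q0 (s k (q0 + 1) (g • x)) =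
            g • (t k q0 x - (-1 : ℤ) ^ k • b q0 (s k (q0 + 1) x))
          have h1 := hbe k q0 g x
          simp only [MonoidHom.id_apply] at h1
          rw [ht k q0 g x, h1, smul_sub, MonoidHom.id_apply,
            smul_comm ((-1 : ℤ) ^ k) g (b q0 (s k (q0 + 1) x))]) (by
          cases k with
          | zero => trivial
          | succ k' =>
            show bdM R k' _ = 0
            funext x
            have e1 : (fun x => t (k' + 1) q0 x - (-1 : ℤ) ^ (k' + 1) •
                b q0 (s (k' + 1) (q0 + 1) x)) =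
                t (k' + 1) q0 - (-1 : ℤ) ^ (k' + 1) •
                  (fun x => b q0 (s (k' + 1) (q0 + 1) x)) := rfl
            rw [e1, bdM_sub, bdM_zsmul, Pi.sub_apply, Pi.smul_apply, bdM_map]
            have h2 := hs2 k' (q0 + 1) (by omega) (by omega) x
            have h3 := hc k' q0 (by omega) x
            have h4 : b q0 (bdM R k' (s (k' + 1) (q0 + 1)) x) = b q0 (t k' (q0 + 1) x) := by
              have h5 := congrArg (b q0) h2
              rw [map_add, map_zsmul, hbb, smul_zero, add_zero] at h5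
              exact h5
            rw [h4, pow_succ, mul_neg_one, neg_smul, sub_neg_eq_add, h3]
            rfl)
      refine ⟨Function.update s (k + 1) (Function.update (s (k + 1)) q0 s'), ?_, ?_⟩
      · intro p q
        by_cases hp : p = k + 1
        · subst hp
          rw [Function.update_self]
          by_cases hq : q = q0
          · subst hq
            rw [Function.update_self]
            exact hs'
          · rw [Function.update_of_ne hq]
            exact hs1 _ _
        · rw [Function.update_of_ne hp]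
          exact hs1 _ _
      · intro p q hpq hpk x
        have hp1 : p ≠ k + 1 := by omega
        rw [Function.update_of_ne hp1]
        by_cases hp : p = k
        · subst hp
          obtain rfl : q = q0 := by omega
          rw [Function.update_self, Function.update_self, hs'2, sub_add_cancel]
        · have hp2 : p + 1 ≠ k + 1 := by omega
          rw [Function.update_of_ne hp2]
          exact hs2 p q hpq (by omega) x
  obtain ⟨s, h1, h2⟩ := key (n + 1)
  exact ⟨s, h1, fun p q hpq => h2 p q hpq (by omega)⟩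

/-- groups acting on acyclic complexes -/
theorem engine_act {Γ : Type v} [Group Γ] (R : FreeRes.{u, v} Γ) (X : CellComplex.{u', v} Γ)
    (hX : X.IsEquiv) (hE : X.IsExact) (M : Type w) [AddCommGroup M] [DistribMulAction Γ M]
    (n : ℕ) (hv : ∀ p q, p + q = n → HV (MonoidHom.id Γ) R (TW (X.X q) M) p) :
    HV (MonoidHom.id Γ) R M n := by
  classical
  -- the linear boundaries and augmentation
  let dL : ∀ k, (X.X (k + 1) →₀ ℤ) →ₗ[ℤ] (X.X k →₀ ℤ) := fun k =>
    Finsupp.lsum ℤ (fun x => LinearMap.toSpanSingleton ℤ _ (X.d k x))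
  let eL : (X.X 0 →₀ ℤ) →ₗ[ℤ] ℤ :=
    Finsupp.lsum ℤ (fun x => LinearMap.toSpanSingleton ℤ _ (X.eps x))
  have hdL : ∀ k c, dL k c = X.bd k c := by
    intro k c
    show Finsupp.sum c _ = _
    rfl
  have heL : ∀ c, eL c = X.aug c := by
    intro c
    show Finsupp.sum c _ = Finsupp.sum c _
    rfl
  have hdL1 : ∀ k x, dL k (single x 1) = X.d k x := by
    intro k x
    simp [dL]
  have heL1 : ∀ x, eL (single x 1) = X.eps x := by
    intro x
    simp [eL]
  have he0 : ∀ c, eL (dL 0 c) = 0 := by
    intro c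
    rw [heL, hdL]
    exact (hE.exact_zero _).2 ⟨c, rfl⟩
  have hdd : ∀ k c, dL k (dL (k + 1) c) = 0 := by
    intro k c
    rw [hdL, hdL]
    exact (hE.exact_succ k _).2 ⟨c, rfl⟩
  have hEx := K11_exact dL eL (by
      obtain ⟨c, hc⟩ := hE.surj
      exact ⟨c, by rw [heL, hc]⟩) (by
      intro c hc
      rw [heL] at hc
      obtain ⟨e, he⟩ := (hE.exact_zero c).1 hc
      exact ⟨e, by rw [hdL, he]⟩) he0 hdd (by
      intro k c hc
      rw [hdL] at hc
      obtain ⟨e, he⟩ := (hE.exact_succ k c).1 hc
      exact ⟨e, by rw [hdL, he]⟩) M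
  let b : ∀ q, TW (X.X (q + 1)) M →+ TW (X.X q) M := fun q => K11_ext M (dL q)
  let ε : TW (X.X 0) M →+ M := K11_form M eL
  have hact : ∀ (q : ℕ) (g : Γ) (e : X.X q) (m : M),
      (g • (show TW (X.X q) M from single e m)) = (show TW (X.X q) M from single (g • e) (g • m)) := by
    intro q g e m
    refine Finsupp.ext fun y => ?_
    rw [tw_smul_apply]
    change g • (single e m) (g⁻¹ • y) = (single (g • e) (g • m)) y
    rw [Finsupp.single_apply, Finsupp.single_apply]
    by_cases h : g • e = y
    · rw [if_pos h, if_pos (by rw [← h, inv_smul_smul])]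
    · rw [if_neg h, if_neg (by intro h'; exact h (by rw [h', smul_inv_smul])), smul_zero]
  have hbb : ∀ q x, b q (b (q + 1) x) = 0 := by
    have h1 : ∀ q (x : X.X (q + 2) →₀ M), K11_ext M (dL q) (K11_ext M (dL (q + 1)) x) = 0 := by
      intro q x
      rw [K11_ext_comp]
      have : dL q ∘ₗ dL (q + 1) = 0 := LinearMap.ext fun c => hdd q c
      rw [this, K11_ext_zero]
    exact fun q x => h1 q x
  have hb : ∀ q (g : Γ) x, b q (g • x) = g • b q x := by
    intro q g x
    change X.X (q + 1) →₀ M at x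
    induction x using Finsupp.induction_linear with
    | zero =>
      change b q (g • (0 : TW (X.X (q + 1)) M)) = g • b q (0 : TW (X.X (q + 1)) M)
      rw [smul_zero, map_zero, smul_zero]
    | add x y hx hy =>
      change b q (g • ((show TW (X.X (q + 1)) M from x) + (show TW (X.X (q + 1)) M from y))) =
        g • b q ((show TW (X.X (q + 1)) M from x) + (show TW (X.X (q + 1)) M from y))
      rw [smul_add, map_add, hx, hy, map_add, smul_add]
    | single e m =>
      have h1 := hact (q + 1) g e m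
      change b q (g • (show TW (X.X (q + 1)) M from single e m)) =
        g • b q (show TW (X.X (q + 1)) M from single e m)
      rw [h1]
      refine Finsupp.ext fun y => ?_
      rw [tw_smul_apply]
      change (K11_ext M (dL q) (single (g • e) (g • m))) y =
        g • (K11_ext M (dL q) (single e m)) (g⁻¹ • y)
      rw [K11_ext_single, K11_ext_single, K11_mul_apply, K11_mul_apply, hdL1, hdL1]
      have h2 := hX.d_smul q g e (g⁻¹ • y)
      rw [smul_inv_smul] at h2
      rw [h2, smul_comm]
  have hε : ∀ (g : Γ) x, ε (g • x) = g • ε x := by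
    intro g x
    change X.X 0 →₀ M at x
    induction x using Finsupp.induction_linear with
    | zero =>
      change ε (g • (0 : TW (X.X 0) M)) = g • ε (0 : TW (X.X 0) M)
      rw [smul_zero, map_zero, smul_zero]
    | add x y hx hy =>
      change ε (g • ((show TW (X.X 0) M from x) + (show TW (X.X 0) M from y))) =
        g • ε ((show TW (X.X 0) M from x) + (show TW (X.X 0) M from y))
      rw [smul_add, map_add, hx, hy, map_add, smul_add]
    | single e m =>
      have h1 := hact 0 g e m
      change ε (g • (show TW (X.X 0) M from single e m)) =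
        g • ε (show TW (X.X 0) M from single e m)
      rw [h1]
      change K11_form M eL (single (g • e) (g • m)) = g • K11_form M eL (single e m)
      rw [K11_form_single, K11_form_single, heL1, heL1, hX.eps_smul, smul_comm]
  refine zigzag R M (fun q => TW (X.X q) M) b ε hb hε ?_ ?_ ?_ ?_ n ?_
  · have h1 : ∀ (x : X.X 1 →₀ M), K11_form M eL (K11_ext M (dL 0) x) = 0 := by
      intro x
      rw [K11_form_ext]
      have : eL ∘ₗ dL 0 = 0 := LinearMap.ext fun c => he0 c
      rw [this, K11_form_zero]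
    exact fun x => h1 x
  · intro m
    obtain ⟨c, hc⟩ := hE.surj
    refine ⟨K11_mul c m, ?_⟩
    show K11_form M eL (K11_mul c m) = m
    rw [K11_form_mul, heL, hc, one_smul]
  · intro x hx
    exact hEx.1 x hx
  · intro q x hx
    exact hEx.2 q x hx
  · intro t ht hc
    exact K11_tot R (fun q => TW (X.X q) M) b hb hbb n hv t ht hc

end GP

end OS
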