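import Mathlib
import Pool.Agent.Lib.MP_8fe54c_gt.KAct

/-!
# PROJECT BB, module BB9: from a normal subgroup to the group
-/

namespace OS

namespace GP

open Finsupp

universe u v w u' v' w'

section simp

variable {E : Type*}

/-- the boundary of a simplex -/
noncomputable def BB9_d1 (q : ℕ) (x : Fin (q + 1) → E) : (Fin q → E) →₀ ℤ :=
  ∑ i : Fin (q + 1), (-1 : ℤ) ^ (i : ℕ) • single (x ∘ i.succAbove) (1 : ℤ)

/-- the boundary -/
noncomputable def BB9_d (q : ℕ) : ((Fin (q + 1) → E) →₀ ℤ) →ₗ[ℤ] ((Fin q → E) →₀ ℤ) :=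
  Finsupp.lsum ℤ fun x => LinearMap.toSpanSingleton ℤ _ (BB9_d1 q x)

/-- the cone -/
noncomputable def BB9_c (a : E) (q : ℕ) : ((Fin q → E) →₀ ℤ) →ₗ[ℤ] ((Fin (q + 1) → E) →₀ ℤ) :=
  Finsupp.lsum ℤ fun x => LinearMap.toSpanSingleton ℤ _ (single (Fin.cons a x) (1 : ℤ))

theorem BB9_d_single (q : ℕ) (x : Fin (q + 1) → E) :
    BB9_d q (single x (1 : ℤ)) = BB9_d1 q x := by
  unfold BB9_d
  simp

theorem BB9_c_single (a : E) (q : ℕ) (x : Fin q → E) :
    BB9_c a q (single x (1 : ℤ)) = single (Fin.cons a x) (1 : ℤ) := by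
  unfold BB9_c
  simp

theorem BB9_ext {A B : Type*} [AddCommGroup B] [Module ℤ B] {f g : (A →₀ ℤ) →ₗ[ℤ] B}
    (h : ∀ x, f (single x 1) = g (single x 1)) : f = g := by
  refine Finsupp.lhom_ext' fun x => ?_
  refine LinearMap.ext_ring ?_
  exact h x

theorem BB9_cons_zero (a : E) {q : ℕ} (x : Fin q → E) :
    (Fin.cons a x : Fin (q + 1) → E) ∘ (0 : Fin (q + 1)).succAbove = x := by
  funext k
  simp

theorem BB9_cons_succ (a : E) {q : ℕ} (x : Fin (q + 1) → E) (i : Fin (q + 1)) :
    (Fin.cons a x : Fin (q + 2) → E) ∘ i.succ.succAbove = Fin.cons a (x ∘ i.succAbove) := by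
  funext k
  refine Fin.cases ?_ (fun k => ?_) k
  · simp
  · simp

theorem BB9_dc_zero (a : E) : BB9_d 0 ∘ₗ BB9_c a 0 = LinearMap.id := by
  refine BB9_ext fun x => ?_
  rw [LinearMap.comp_apply, BB9_c_single, BB9_d_single, LinearMap.id_apply]
  unfold BB9_d1
  rw [Fin.sum_univ_one, BB9_cons_zero]
  simp

theorem BB9_dc_succ (a : E) (q : ℕ) :
    BB9_d (q + 1) ∘ₗ BB9_c a (q + 1) = LinearMap.id - BB9_c a q ∘ₗ BB9_d q := by
  refine BB9_ext fun x => ?_
  rw [LinearMap.comp_apply, BB9_c_single, BB9_d_single, LinearMap.sub_apply, LinearMap.id_apply,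
    LinearMap.comp_apply, BB9_d_single]
  unfold BB9_d1
  rw [Fin.sum_univ_succ, BB9_cons_zero, map_sum, Fin.val_zero, pow_zero, one_smul, sub_eq_add_neg,
    ← Finset.sum_neg_distrib]
  congr 1
  refine Finset.sum_congr rfl fun i _ => ?_
  rw [map_smul, BB9_c_single, BB9_cons_succ, Fin.val_succ, pow_succ, mul_neg_one, neg_smul]

theorem BB9_dd' (q : ℕ) : BB9_d (E := E) q ∘ₗ BB9_d (q + 1) = 0 := by
    induction q with
    | zero =>
      refine BB9_ext fun x => ?_
      obtain ⟨a, y, rfl⟩ : ∃ (a : E) (y : Fin 1 → E), x = Fin.cons a y :=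
        ⟨x 0, Fin.tail x, (Fin.cons_self_tail x).symm⟩
      rw [← BB9_c_single, LinearMap.comp_apply]
      have h1 := LinearMap.congr_fun (BB9_dc_succ a 0) (single y 1)
      rw [LinearMap.comp_apply, LinearMap.sub_apply, LinearMap.id_apply, LinearMap.comp_apply] at h1
      have h2 := LinearMap.congr_fun (BB9_dc_zero a) (BB9_d 0 (single y 1))
      rw [LinearMap.comp_apply, LinearMap.id_apply] at h2
      rw [h1, map_sub, h2, sub_self, LinearMap.zero_apply]
    | succ q ih =>
      refine BB9_ext fun x => ?_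
      obtain ⟨a, y, rfl⟩ : ∃ (a : E) (y : Fin (q + 2) → E), x = Fin.cons a y :=
        ⟨x 0, Fin.tail x, (Fin.cons_self_tail x).symm⟩
      rw [← BB9_c_single, LinearMap.comp_apply]
      have h1 := LinearMap.congr_fun (BB9_dc_succ a (q + 1)) (single y 1)
      rw [LinearMap.comp_apply, LinearMap.sub_apply, LinearMap.id_apply, LinearMap.comp_apply] at h1
      have h2 := LinearMap.congr_fun (BB9_dc_succ a q) (BB9_d (q + 1) (single y 1))
      rw [LinearMap.comp_apply, LinearMap.sub_apply, LinearMap.id_apply, LinearMap.comp_apply] at h2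
      have h3 := LinearMap.congr_fun ih (single y 1)
      rw [LinearMap.comp_apply, LinearMap.zero_apply] at h3
      rw [h1, map_sub, h2, h3, map_zero, sub_zero, sub_self, LinearMap.zero_apply]

theorem BB9_dd (q : ℕ) (c : (Fin (q + 2) → E) →₀ ℤ) : BB9_d q (BB9_d (q + 1) c) = 0 :=
  LinearMap.congr_fun (BB9_dd' q) c

theorem BB9_exact (a : E) (q : ℕ) (c : (Fin (q + 1) → E) →₀ ℤ) (hc : BB9_d q c = 0) :
    BB9_d (q + 1) (BB9_c a (q + 1) c) = c := by
  have h1 := LinearMap.congr_fun (BB9_dc_succ a q) c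
  rw [LinearMap.comp_apply, LinearMap.sub_apply, LinearMap.id_apply, LinearMap.comp_apply, hc,
    map_zero, sub_zero] at h1
  exact h1

/-- the augmentation -/
theorem BB9_aug (c : (Fin 1 → E) →₀ ℤ) (z : Fin 0 → E) :
    (c.sum fun _ n => n * 1) = BB9_d 0 c z := by
  induction c using Finsupp.induction_linear with
  | zero => simp
  | add f g hf hg =>
    rw [map_add, Finsupp.add_apply, ← hf, ← hg, Finsupp.sum_add_index']
    · simp
    · intro x m n
      ring
  | single x n =>
    have e : (single x n : (Fin 1 → E) →₀ ℤ) = n • single x 1 := by simp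
    rw [Finsupp.sum_single_index (by simp), e, map_smul, BB9_d_single, Finsupp.smul_apply]
    unfold BB9_d1
    rw [Fin.sum_univ_one]
    have h : x ∘ (0 : Fin 1).succAbove = z := Subsingleton.elim _ _
    rw [h]
    simp

/-- the complex of all tuples -/
noncomputable def BB9_C (Γ : Type v) [Group Γ] (E : Type w) [MulAction Γ E] :
    CellComplex.{w, v} Γ where
  X q := Fin (q + 1) → E
  act q := inferInstanceAs (MulAction Γ (Fin (q + 1) → E))
  d q x := BB9_d1 (q + 1) x
  eps _ := 1

theorem BB9_bd (Γ : Type v) [Group Γ] (E : Type w) [MulAction Γ E] (q : ℕ)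
    (c : (BB9_C Γ E).X (q + 1) →₀ ℤ) : (BB9_C Γ E).bd q c = BB9_d (q + 1) c := rfl

theorem BB9_isEquiv (Γ : Type v) [Group Γ] (E : Type w) [MulAction Γ E] :
    (BB9_C Γ E).IsEquiv where
  d_smul q g x y := by
    change BB9_d1 (q + 1) (g • (show Fin (q + 2) → E from x)) (g • (show Fin (q + 1) → E from y)) =
      BB9_d1 (q + 1) (show Fin (q + 2) → E from x) (show Fin (q + 1) → E from y)
    unfold BB9_d1
    rw [Finsupp.finsetSum_apply, Finsupp.finsetSum_apply]
    refine Finset.sum_congr rfl fun i _ => ?_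
    rw [Finsupp.smul_apply, Finsupp.smul_apply]
    congr 1
    have h : (g • (show Fin (q + 2) → E from x)) ∘ i.succAbove =
        g • ((show Fin (q + 2) → E from x) ∘ i.succAbove) := rfl
    rw [h]
    classical
    rw [Finsupp.single_apply, Finsupp.single_apply]
    have h2 : (g • ((show Fin (q + 2) → E from x) ∘ i.succAbove) = g • y) ↔
        ((show Fin (q + 2) → E from x) ∘ i.succAbove) = y := (MulAction.injective g).eq_iff
    by_cases h3 : ((show Fin (q + 2) → E from x) ∘ i.succAbove) = y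
    · rw [if_pos h3]
      exact if_pos (h2.2 h3)
    · rw [if_neg h3]
      exact if_neg fun h4 => h3 (h2.1 h4)
  eps_smul g x := rfl

theorem BB9_isExact (Γ : Type v) [Group Γ] (E : Type w) [MulAction Γ E] (a : E) :
    (BB9_C Γ E).IsExact where
  surj := by
    refine ⟨(single (fun _ => a) 1 : (Fin 1 → E) →₀ ℤ), ?_⟩
    change (Finsupp.sum (single (fun _ => a) 1 : (Fin 1 → E) →₀ ℤ) fun _ n => n * 1) = 1
    rw [Finsupp.sum_single_index (by simp)]
    simp
  exact_zero c := by
    have h0 : (BB9_C Γ E).aug c = BB9_d 0 (show (Fin 1 → E) →₀ ℤ from c) Fin.elim0 :=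
      BB9_aug (show (Fin 1 → E) →₀ ℤ from c) Fin.elim0
    rw [h0]
    constructor
    · intro h
      refine ⟨BB9_c a 1 c, BB9_exact a 0 c ?_⟩
      refine Finsupp.ext fun z => ?_
      have hz : z = Fin.elim0 := Subsingleton.elim _ _
      rw [hz, h]
      rfl
    · rintro ⟨e, rfl⟩
      have h1 := BB9_dd 0 (show (Fin 2 → E) →₀ ℤ from e)
      have h2 : BB9_d 0 ((BB9_C Γ E).bd 0 e) = 0 := h1
      rw [h2]
      rfl
  exact_succ q c := by
    constructor
    · intro h
      exact ⟨BB9_c a (q + 2) c, BB9_exact a (q + 1) c h⟩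
    · rintro ⟨e, rfl⟩
      exact BB9_dd (q + 1) (show (Fin (q + 3) → E) →₀ ℤ from e)

end simp

section prod

/-- sets of the form `E × Y`, `Y` with the trivial action -/
theorem BB9_prod {Γ : Type v} [Group Γ] (R : FreeRes.{u, v} Γ) (E : Type w) [MulAction Γ E]
    (Q : Type u') [MulAction Γ Q] (Y : Type v') (j : E → Y → Q)
    (hj : ∀ (g : Γ) e y, j (g • e) y = g • j e y) (hinj : ∀ y, Function.Injective fun e => j e y)
    (M : Type w') [AddCommGroup M] [DistribMulAction Γ M] (py : Q → Y) (pe : Q → E)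
    (hp : ∀ x, j (pe x) (py x) = x) (hpy : ∀ e y, py (j e y) = y) (p : ℕ)
    (h : HV (MonoidHom.id Γ) R (TW E M) p) : HV (MonoidHom.id Γ) R (TW Q M) p := by
  classical
  intro f hf hc
  -- the components
  let π : Y → (TW Q M →+ TW E M) := fun y =>
    { toFun := fun m => Finsupp.comapDomain (fun e => j e y) (show Q →₀ M from m)
        ((hinj y).injOn)
      map_zero' := by
        refine Finsupp.ext fun e => ?_
        rfl
      map_add' := by
        intro m m'
        refine Finsupp.ext fun e => ?_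
        rfl }
  let ι : Y → (TW E M →+ TW Q M) := fun y => Finsupp.mapDomain.addMonoidHom (fun e => j e y)
  have hπa : ∀ y (m : TW Q M) e, (show E →₀ M from π y m) e = (show Q →₀ M from m) (j e y) :=
    fun y m e => rfl
  have hιa : ∀ y (m : TW E M) x, (show Q →₀ M from ι y m) x =
      if py x = y then (show E →₀ M from m) (pe x) else 0 := by
    intro y m x
    change Finsupp.mapDomain (fun e => j e y) (show E →₀ M from m) x = _
    split_ifs with hxy
    · have h1 : x = (fun e => j e y) (pe x) := by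
        show x = j (pe x) y
        rw [← hxy, hp]
      conv_lhs => rw [h1]
      exact Finsupp.mapDomain_apply (hinj y) _ _
    · apply Finsupp.mapDomain_of_notMem_range
      rintro ⟨e, rfl⟩
      exact hxy (hpy e y)
  have hgx : ∀ (g : Γ) x, g • x = j (g • pe x) (py x) := by
    intro g x
    conv_lhs => rw [← hp x]
    rw [hj]
  have hpyg : ∀ (g : Γ) x, py (g • x) = py x := by
    intro g x
    rw [hgx, hpy]
  have hpeg : ∀ (g : Γ) x, pe (g • x) = g • pe x := by
    intro g x
    apply hinj (py x)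
    show j (pe (g • x)) (py x) = j (g • pe x) (py x)
    rw [← hpyg g x, hp, hpyg, hgx]
  have hπe : ∀ y (g : Γ) m, π y (g • m) = g • π y m := by
    intro y g m
    refine Finsupp.ext fun e => ?_
    have h1 := tw_smul_apply g m (j e y)
    have h2 := tw_smul_apply g (π y m) e
    refine Eq.trans ?_ h2.symm
    refine (hπa y (g • m) e).trans (h1.trans ?_)
    rw [hπa, hj]
  have hιe : ∀ y (g : Γ) m, ι y (g • m) = g • ι y m := by
    intro y g m
    refine Finsupp.ext fun x => ?_
    have h1 := tw_smul_apply g (ι y m) x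
    refine Eq.trans ?_ h1.symm
    refine (hιa y (g • m) x).trans ?_
    rw [hιa, hpyg, hpeg]
    split_ifs
    · exact tw_smul_apply g m (pe x)
    · rw [smul_zero]
  obtain ⟨s, hs⟩ := R.fin p
  let Y0 : Finset Y := s.biUnion fun c => (show Q →₀ M from f c).support.image py
  have hY0 : ∀ c x, (show Q →₀ M from f c) x ≠ 0 → py x ∈ Y0 := by
    intro c x hx
    obtain ⟨g, c0, hc0, rfl⟩ := hs c
    have h1 : f (g • c0) = g • f c0 := hf g c0
    rw [h1] at hx
    have h2 := tw_smul_apply g (f c0) x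
    rw [h2] at hx
    refine Finset.mem_biUnion.2 ⟨c0, hc0, Finset.mem_image.2 ⟨g⁻¹ • x, ?_, hpyg _ _⟩⟩
    rw [Finsupp.mem_support_iff]
    intro h3
    rw [h3, smul_zero] at hx
    exact hx rfl
  have hex : ∀ y, ∃ F : R.X (p + 1) → TW E M, IsEq (MonoidHom.id Γ) R (TW E M) (p + 1) F ∧
      bdM R p F = fun c => π y (f c) := by
    intro y
    refine h (fun c => π y (f c)) ?_ ?_
    · intro g c
      show π y (f (g • c)) = g • π y (f c)
      rw [← hπe]
      exact congrArg _ (hf g c)
    · cases p with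
      | zero => trivial
      | succ p =>
        funext c
        rw [bdM_map]
        have h1 : bdM R p f = 0 := hc
        rw [h1, Pi.zero_apply, map_zero]
        rfl
  choose F hF1 hF2 using hex
  refine ⟨fun c => ∑ y ∈ Y0, ι y (F y c), ?_, ?_⟩
  · intro g c
    show ∑ y ∈ Y0, ι y (F y (g • c)) = g • ∑ y ∈ Y0, ι y (F y c)
    rw [Finset.smul_sum]
    refine Finset.sum_congr rfl fun y _ => ?_
    rw [← hιe]
    exact congrArg _ (hF1 y g c)
  · have hsum : ∀ t : Finset Y, bdM R p (fun c => ∑ y ∈ t, ι y (F y c)) =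
        fun c => ∑ y ∈ t, ι y (π y (f c)) := by
      intro t
      induction t using Finset.induction_on with
      | empty =>
        simp only [Finset.sum_empty]
        exact bdM_zero R p
      | insert y t hy ih =>
        have h1 : (fun c => ∑ y ∈ insert y t, ι y (F y c)) =
            (fun c => ι y (F y c)) + fun c => ∑ y ∈ t, ι y (F y c) := by
          funext c
          rw [Finset.sum_insert hy]
          rfl
        rw [h1, bdM_add, ih]
        funext c
        rw [Finset.sum_insert hy, Pi.add_apply, bdM_map, hF2]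
    rw [hsum]
    funext c
    refine Finsupp.ext fun x => ?_
    have h1 : (show Q →₀ M from ∑ y ∈ Y0, ι y (π y (f c))) x =
        ∑ y ∈ Y0, (show Q →₀ M from ι y (π y (f c))) x :=
      Finsupp.finsetSum_apply Y0 (fun y => (show Q →₀ M from ι y (π y (f c)))) x
    refine Eq.trans h1 ?_
    have h2 : ∀ y, (show Q →₀ M from ι y (π y (f c))) x =
        if py x = y then (show Q →₀ M from f c) x else 0 := by
      intro y
      rw [hιa]
      split_ifs with h3
      · rw [hπa, ← h3, hp]
      · rfl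
    rw [Finset.sum_congr rfl fun y _ => h2 y, Finset.sum_ite_eq]
    split_ifs with h3
    · rfl
    · by_contra h4
      exact h3 (hY0 c x fun h5 => h4 h5.symm)

end prod

/-- from a normal subgroup to the group -/
theorem HV_of_normal {Γ : Type v} [Group Γ] (R : FreeRes.{u, v} Γ) (N : Subgroup Γ) [N.Normal]
    (M : Type w) [AddCommGroup M] [DistribMulAction Γ M]
    (h : ∀ k, HV (MonoidHom.id Γ) R (TW (Γ ⧸ N) M) k) (k : ℕ) : HV (MonoidHom.id Γ) R M k := by
  have hsm : ∀ (g : Γ) (a b : Γ ⧸ N), g • (a * b) = (g • a) * b := by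
    intro g a b
    induction a using QuotientGroup.induction_on with
    | H a =>
      induction b using QuotientGroup.induction_on with
      | H b =>
        show ((g * (a * b) : Γ) : Γ ⧸ N) = ((g * a * b : Γ) : Γ ⧸ N)
        rw [mul_assoc]
  refine engine_act R (BB9_C Γ (Γ ⧸ N)) (BB9_isEquiv Γ (Γ ⧸ N)) (BB9_isExact Γ (Γ ⧸ N) 1) M k
    fun p q _ => ?_
  refine BB9_prod R (Γ ⧸ N) (Fin (q + 1) → Γ ⧸ N) (Fin q → Γ ⧸ N)
    (fun e y => Fin.cons e fun i => e * y i) ?_ ?_ M
    (fun x i => (x 0)⁻¹ * x i.succ) (fun x => x 0) ?_ ?_ p (h p)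
  · intro g e y
    funext i
    refine Fin.cases ?_ (fun i => ?_) i
    · rfl
    · show (g • e) * y i = g • (e * y i)
      rw [hsm]
  · intro y e e' he
    exact congrFun he 0
  · intro x
    funext i
    refine Fin.cases ?_ (fun i => ?_) i
    · rfl
    · show x 0 * ((x 0)⁻¹ * x i.succ) = x i.succ
      rw [mul_inv_cancel_left]
  · intro e y
    funext i
    show e⁻¹ * (e * y i) = y i
    rw [inv_mul_cancel_left]

end GP

end OS
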