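import Mathlib
import Pool.Agent.Lib.MP_8fe54c_gt.KZig

/-!
# Project BB, module BB8: the Wang sequence
-/

namespace OS

namespace GP

open Finsupp

universe u v w u' v' w'

theorem HV_wang {Γ : Type v} [Group Γ] (R : FreeRes.{u, v} Γ) (M : Type w) (M' : Type w')
    [AddCommGroup M] [DistribMulAction Γ M] [AddCommGroup M'] [DistribMulAction Γ M']
    (T : M →+ M) (π : M →+ M') (hT : ∀ (g : Γ) m, T (g • m) = g • T m)
    (hπ : ∀ (g : Γ) m, π (g • m) = g • π m) (hsurj : Function.Surjective π)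
    (hTπ : ∀ m, π (T m) = 0) (hker : ∀ m, π m = 0 → ∃ m', T m' = m) (hinj : Function.Injective T)
    (k : ℕ)
    (h1 : ∀ j, j + 1 = k → ∀ f, IsEq (MonoidHom.id Γ) R M j f → CycM R j f →
      (∃ f', IsEq (MonoidHom.id Γ) R M (j + 1) f' ∧ ∀ x, T (f x) = bdM R j f' x) →
      ∃ f', IsEq (MonoidHom.id Γ) R M (j + 1) f' ∧ f = bdM R j f')
    (h2 : ∀ f, IsEq (MonoidHom.id Γ) R M k f → CycM R k f →
      ∃ f₁, IsEq (MonoidHom.id Γ) R M k f₁ ∧ CycM R k f₁ ∧
        ∃ f', IsEq (MonoidHom.id Γ) R M (k + 1) f' ∧ ∀ x, f x = T (f₁ x) + bdM R k f' x) :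
    HV (MonoidHom.id Γ) R M' k := by
  intro f hf hcyc
  obtain ⟨f1, hf1, hf1'⟩ := exists_eqlift R k π hπ f hf fun x => hsurj (f x)
  -- a cycle of the form `f1 - T w`
  obtain ⟨g, hg, hgc, hgπ⟩ : ∃ g : R.X k → M, IsEq (MonoidHom.id Γ) R M k g ∧ CycM R k g ∧
      ∀ x, π (g x) = f x := by
    cases k with
    | zero => exact ⟨f1, hf1, trivial, hf1'⟩
    | succ j =>
      have h3 : ∀ x, ∃ m', T m' = bdM R j f1 x := by
        intro x
        refine hker _ ?_
        rw [← bdM_map]
        have h4 : (fun x => π (f1 x)) = f := funext hf1'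
        rw [h4]
        exact congrFun hcyc x
      obtain ⟨u, hu, hu'⟩ := exists_eqlift R j T hT (bdM R j f1)
        (bdM_isEq (MonoidHom.id Γ) R j f1 hf1) h3
      have huc : CycM R j u := by
        cases j with
        | zero => trivial
        | succ i =>
          change bdM R i u = 0
          funext x
          apply hinj
          rw [← bdM_map]
          have h4 : (fun x => T (u x)) = bdM R (i + 1) f1 := funext hu'
          rw [h4, bdM_bdM]
          exact (map_zero T).symm
      obtain ⟨w, hw, huw⟩ := h1 j rfl u hu huc ⟨f1, hf1, hu'⟩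
      refine ⟨fun x => f1 x - T (w x), ?_, ?_, ?_⟩
      · intro g x
        change f1 (g • x) - T (w (g • x)) = g • (f1 x - T (w x))
        rw [hf1, hw, MonoidHom.id_apply, hT, smul_sub]
      · change bdM R j (f1 - fun x => T (w x)) = 0
        rw [bdM_sub]
        funext x
        have h4 : bdM R j (fun x => T (w x)) x = bdM R j f1 x := by
          rw [bdM_map, ← huw, hu']
        rw [Pi.sub_apply, h4, sub_self]
        rfl
      · intro x
        rw [map_sub, hTπ, sub_zero, hf1']
  obtain ⟨f₁, -, -, f', hf', h3⟩ := h2 g hg hgc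
  refine ⟨fun x => π (f' x), ?_, ?_⟩
  · intro g x
    change π (f' (g • x)) = g • π (f' x)
    rw [hf', MonoidHom.id_apply, hπ]
  · funext x
    rw [bdM_map]
    have h4 := congrArg π (h3 x)
    rw [map_add, hTπ, zero_add, hgπ] at h4
    exact h4.symm

end GP

end OS
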