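import Mathlib
import Pool.Agent.Lib.MP_8fe54c_gt.BBDefs
import Pool.Agent.Lib.MP_8fe54c_gt.KZig
import Pool.Agent.Lib.MP_8fe54c_gt.BBDim
import Pool.Agent.Lib.MP_8fe54c_gt.BBWang
import Pool.Agent.Lib.MP_8fe54c_gt.BBNorm

/-!
# Good characters (project BB, module BB10)
-/

namespace OS

namespace GP

open Finsupp MulOpposite

universe u v w u' v' w'


/-- linear algebra: an operator acting on a finite dimensional quotient `Z / B` has only finitely
many eigenvalues -/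
theorem BB10_lin {V : Type*} [AddCommGroup V] [Module ℝ V] (Z B W : Submodule ℝ V)
    (hBZ : B ≤ Z) [FiniteDimensional ℝ W] (hW : ∀ f ∈ Z, ∃ w ∈ W, f - w ∈ B)
    (T : V →ₗ[ℝ] V) (hTZ : ∀ f ∈ Z, T f ∈ Z) (hTB : ∀ f ∈ B, T f ∈ B) :
    ∃ Bad : Set ℝ, Bad.Finite ∧ ∀ c ∉ Bad, (∀ f ∈ Z, T f - c • f ∈ B → f ∈ B) ∧
      ∀ f ∈ Z, ∃ f₁ ∈ Z, f - (T f₁ - c • f₁) ∈ B := by
  let B' : Submodule ℝ Z := B.comap Z.subtype
  let TZ : Z →ₗ[ℝ] Z := T.restrict hTZ
  have hTB' : B' ≤ B'.comap TZ := by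
    intro f hf
    exact hTB _ hf
  let TH : Module.End ℝ (Z ⧸ B') := B'.mapQ B' TZ hTB'
  have hfd : FiniteDimensional ℝ (Z ⧸ B') := by
    let W' : Submodule ℝ W := Z.comap W.subtype
    let e : W' →ₗ[ℝ] Z ⧸ B' := B'.mkQ ∘ₗ
      LinearMap.codRestrict Z (W.subtype ∘ₗ W'.subtype) (fun x => x.2)
    refine Module.Finite.of_surjective e ?_
    intro x
    obtain ⟨f, rfl⟩ := B'.mkQ_surjective x
    obtain ⟨w, hw, hfw⟩ := hW f.1 f.2
    have hwZ : w ∈ Z := by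
      have h1 : w = f.1 - (f.1 - w) := by abel
      rw [h1]
      exact Z.sub_mem f.2 (hBZ hfw)
    refine ⟨⟨⟨w, hw⟩, hwZ⟩, ?_⟩
    show B'.mkQ _ = B'.mkQ f
    symm
    rw [Submodule.mkQ_apply, Submodule.mkQ_apply, Submodule.Quotient.eq]
    exact hfw
  refine ⟨{c | TH.HasEigenvalue c}, Module.End.finite_hasEigenvalue TH, ?_⟩
  intro c hc
  have hinj : Function.Injective (TH - c • (1 : Module.End ℝ (Z ⧸ B'))) := by
    rw [← LinearMap.ker_eq_bot]
    by_contra hne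
    apply hc
    show TH.HasEigenvalue c
    rw [Module.End.hasEigenvalue_iff]
    intro h0
    apply hne
    rw [eq_bot_iff]
    intro x hx
    have h1 : x ∈ TH.eigenspace c := by
      rw [Module.End.mem_eigenspace_iff]
      rw [LinearMap.mem_ker, LinearMap.sub_apply, LinearMap.smul_apply, Module.End.one_apply,
        sub_eq_zero] at hx
      exact hx
    rw [h0] at h1
    exact h1
  have hsurj : Function.Surjective (TH - c • (1 : Module.End ℝ (Z ⧸ B'))) :=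
    LinearMap.injective_iff_surjective.mp hinj
  constructor
  · intro f hf hfB
    have h1 : (TH - c • (1 : Module.End ℝ (Z ⧸ B'))) (B'.mkQ ⟨f, hf⟩) = 0 := by
      have h2 : (TH - c • (1 : Module.End ℝ (Z ⧸ B'))) (B'.mkQ ⟨f, hf⟩) =
          B'.mkQ (TZ ⟨f, hf⟩ - c • ⟨f, hf⟩) := by
        rw [map_sub, map_smul]
        rfl
      rw [h2, Submodule.mkQ_apply, Submodule.Quotient.mk_eq_zero]
      exact hfB
    have h3 : B'.mkQ ⟨f, hf⟩ = 0 := hinj (by rw [h1, map_zero])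
    rw [Submodule.mkQ_apply, Submodule.Quotient.mk_eq_zero] at h3
    exact h3
  · intro f hf
    obtain ⟨x, hx⟩ := hsurj (B'.mkQ ⟨f, hf⟩)
    obtain ⟨f₁, rfl⟩ := B'.mkQ_surjective x
    refine ⟨f₁.1, f₁.2, ?_⟩
    have h2 : (TH - c • (1 : Module.End ℝ (Z ⧸ B'))) (B'.mkQ f₁) =
        B'.mkQ (TZ f₁ - c • f₁) := by
      rw [map_sub, map_smul]
      rfl
    rw [h2] at hx
    have h3 := hx.symm
    rw [Submodule.mkQ_apply, Submodule.mkQ_apply, Submodule.Quotient.eq] at h3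
    exact h3

section ev

variable {Γ : Type v} [Group Γ] {E : Type w} {E' : Type w'}

/-- the value of an element of `TW E (RCh φ)` as a real number -/
noncomputable def BB10_ev {φ : Γ →* ℝˣ} (m : TW E (RCh φ)) (x : E) : ℝ := ((show E →₀ RCh φ from m) x).val

theorem BB10_ev_ext {φ : Γ →* ℝˣ} {m m' : TW E (RCh φ)} (h : ∀ x, BB10_ev m x = BB10_ev m' x) :
    m = m' := Finsupp.ext fun x => RCh.ext (h x)

theorem BB10_ev_smul [MulAction Γ E] {φ : Γ →* ℝˣ} (g : Γ) (m : TW E (RCh φ)) (x : E) :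
    BB10_ev (g • m) x = ((φ g : ℝˣ) : ℝ) * BB10_ev m (g⁻¹ • x) := by
  unfold BB10_ev
  rw [tw_smul_apply, RCh.val_smul]

theorem BB10_ev_add {φ : Γ →* ℝˣ} (m m' : TW E (RCh φ)) (x : E) :
    BB10_ev (m + m') x = BB10_ev m x + BB10_ev m' x := rfl

theorem BB10_ev_zero {φ : Γ →* ℝˣ} (x : E) : BB10_ev (0 : TW E (RCh φ)) x = 0 := rfl

theorem BB10_ev_rsmul {φ : Γ →* ℝˣ} (r : ℝ) (m : TW E (RCh φ)) (x : E) :
    BB10_ev (r • m) x = r * BB10_ev m x := rfl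

/-- a real function with finite support as an element of `TW E (RCh φ)` -/
noncomputable def BB10_mk (φ : Γ →* ℝˣ) (f : E →₀ ℝ) : TW E (RCh φ) := f

theorem BB10_ev_mk (φ : Γ →* ℝˣ) (f : E →₀ ℝ) (x : E) : BB10_ev (BB10_mk φ f) x = f x := rfl

theorem BB10_fin {φ : Γ →* ℝˣ} (m : TW E (RCh φ)) : (Function.support (BB10_ev m)).Finite := by
  refine Set.Finite.subset (Finset.finite_toSet (show E →₀ ℝ from m).support) ?_
  intro x hx
  rw [Finset.mem_coe, Finsupp.mem_support_iff]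
  exact hx


/-- a linear map between spaces of finitely supported real functions as a map between the
modules `TW E (RCh φ)` and `TW E' (RCh ψ)` -/
noncomputable def BB10_map (φ ψ : Γ →* ℝˣ) (A : (E →₀ ℝ) →ₗ[ℝ] (E' →₀ ℝ)) :
    TW E (RCh φ) →ₗ[ℝ] TW E' (RCh ψ) := A

/-- an element of `TW E (RCh φ)` as a finitely supported real function -/
def BB10_un {φ : Γ →* ℝˣ} (m : TW E (RCh φ)) : E →₀ ℝ := m

theorem BB10_ev_un {φ : Γ →* ℝˣ} (m : TW E (RCh φ)) (x : E) : BB10_un m x = BB10_ev m x := rfl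

theorem BB10_ev_map (φ ψ : Γ →* ℝˣ) (A : (E →₀ ℝ) →ₗ[ℝ] (E' →₀ ℝ)) (m : TW E (RCh φ)) (x : E') :
    BB10_ev (BB10_map φ ψ A m) x = A (BB10_un m) x := rfl

/-- multiplication with a function -/
noncomputable def BB10_mul (c : E → ℝ) : (E →₀ ℝ) →ₗ[ℝ] (E →₀ ℝ) where
  toFun f := Finsupp.onFinset f.support (fun x => c x * f x) (by
    intro x hx
    rw [Finsupp.mem_support_iff]
    intro h
    exact hx (by rw [h, mul_zero]))
  map_add' f g := by
    ext x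
    simp [mul_add]
  map_smul' r f := by
    ext x
    simp only [Finsupp.onFinset_apply, Finsupp.smul_apply, smul_eq_mul, RingHom.id_apply]
    ring

theorem BB10_mul_apply (c : E → ℝ) (f : E →₀ ℝ) (x : E) : BB10_mul c f x = c x * f x := rfl

theorem BB10_shift_apply [MulAction Γ E] (γ : Γ) (f : E →₀ ℝ) (x : E) :
    Finsupp.lmapDomain ℝ ℝ (fun y : E => γ • y) f x = f (γ⁻¹ • x) := by
  rw [Finsupp.lmapDomain_apply]
  have h : x = γ • (γ⁻¹ • x) := (smul_inv_smul γ x).symm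
  conv_lhs => rw [h]
  exact Finsupp.mapDomain_apply (MulAction.injective γ) f (γ⁻¹ • x)

end ev

section fn

variable {Γ : Type v} [Group Γ] (R : FreeRes.{u, v} Γ) {M : Type w} {M' : Type w'}
  [AddCommGroup M] [DistribMulAction Γ M] [AddCommGroup M'] [DistribMulAction Γ M']

theorem BB10_isEq_map (A : M →+ M') (hA : ∀ (g : Γ) m, A (g • m) = g • A m) (k : ℕ)
    (f : R.X k → M) (hf : IsEq (MonoidHom.id Γ) R M k f) :
    IsEq (MonoidHom.id Γ) R M' k (fun x => A (f x)) := by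
  intro g x
  show A (f (g • x)) = _
  rw [hf g x, hA]

omit [DistribMulAction Γ M] [DistribMulAction Γ M'] in
theorem BB10_cyc_map (A : M →+ M') (k : ℕ) (f : R.X k → M) (hf : CycM R k f) :
    CycM R k (fun x => A (f x)) := by
  cases k with
  | zero => trivial
  | succ k =>
    have hf' : bdM R k f = 0 := hf
    show bdM R k (fun x => A (f x)) = 0
    funext y
    rw [bdM_map R k A f y, hf']
    exact map_zero A

/-- the space of the equivariant cycles -/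
def BB10_Z [Module ℝ M] [SMulCommClass Γ ℝ M] (k : ℕ) : Submodule ℝ (R.X k → M) where
  carrier := {f | IsEq (MonoidHom.id Γ) R M k f ∧ CycM R k f}
  add_mem' := by
    rintro f g ⟨hf, hf'⟩ ⟨hg, hg'⟩
    constructor
    · intro a x
      show f (a • x) + g (a • x) = _
      rw [hf a x, hg a x, ← smul_add]
      rfl
    · cases k with
      | zero => trivial
      | succ k =>
        have h1 : bdM R k f = 0 := hf'
        have h2 : bdM R k g = 0 := hg'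
        show bdM R k (f + g) = 0
        rw [bdM_add, h1, h2, add_zero]
  zero_mem' := by
    constructor
    · intro a x
      exact (smul_zero _).symm
    · cases k with
      | zero => trivial
      | succ k => exact bdM_zero R k
  smul_mem' := by
    rintro r f ⟨hf, hf'⟩
    constructor
    · intro a x
      show r • f (a • x) = _
      rw [hf a x]
      exact (smul_comm _ _ _).symm
    · exact BB10_cyc_map R (DistribSMul.toAddMonoidHom M r) k f hf'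

/-- the space of the boundaries of equivariant functions -/
def BB10_B [Module ℝ M] [SMulCommClass Γ ℝ M] (k : ℕ) : Submodule ℝ (R.X k → M) where
  carrier := {f | ∃ f', IsEq (MonoidHom.id Γ) R M (k + 1) f' ∧ f = bdM R k f'}
  add_mem' := by
    rintro _ _ ⟨f, hf, rfl⟩ ⟨g, hg, rfl⟩
    refine ⟨f + g, ?_, (bdM_add R k f g).symm⟩
    intro a x
    show f (a • x) + g (a • x) = _
    rw [hf a x, hg a x, ← smul_add]
    rfl
  zero_mem' := ⟨0, fun a x => (smul_zero _).symm, (bdM_zero R k).symm⟩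
  smul_mem' := by
    rintro r _ ⟨f, hf, rfl⟩
    refine ⟨r • f, ?_, ?_⟩
    · intro a x
      show r • f (a • x) = _
      rw [hf a x]
      exact (smul_comm _ _ _).symm
    · funext y
      exact (bdM_map R k (DistribSMul.toAddMonoidHom M r) f y).symm

theorem BB10_B_le_Z [Module ℝ M] [SMulCommClass Γ ℝ M] (k : ℕ) :
    BB10_B (M := M) R k ≤ BB10_Z R k := by
  rintro _ ⟨f, hf, rfl⟩
  refine ⟨bdM_isEq _ R k f hf, ?_⟩
  cases k with
  | zero => trivial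
  | succ k => exact bdM_bdM R k f

end fn

section quo

variable {Γ : Type v} [Group Γ] (N : Subgroup Γ)

theorem BB10_normal (hN : ∀ a b : Γ, a * b * a⁻¹ * b⁻¹ ∈ N) : N.Normal := by
  constructor
  intro n hn g
  have h := N.mul_mem (hN g n) hn
  have h1 : g * n * g⁻¹ * n⁻¹ * n = g * n * g⁻¹ := by group
  rwa [h1] at h

theorem BB10_comm (hN : ∀ a b : Γ, a * b * a⁻¹ * b⁻¹ ∈ N) (a b : Γ) (x : Γ ⧸ N) :
    a • b • x = b • a • x := by
  have hnor := BB10_normal N hN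
  induction x using QuotientGroup.induction_on with
  | H c =>
    show ((a * (b * c) : Γ) : Γ ⧸ N) = ((b * (a * c) : Γ) : Γ ⧸ N)
    rw [QuotientGroup.eq]
    have h1 := hnor.conj_mem _ (hN b⁻¹ a⁻¹) c⁻¹
    have h2 : c⁻¹ * (b⁻¹ * a⁻¹ * b⁻¹⁻¹ * a⁻¹⁻¹) * c⁻¹⁻¹ = (a * (b * c))⁻¹ * (b * (a * c)) := by
      group
    rwa [h2] at h1

/-- the subgroup generated by `N` and `γ` -/
def BB10_N1 [N.Normal] (γ : Γ) : Subgroup Γ :=
  (Subgroup.zpowers (γ : Γ ⧸ N)).comap (QuotientGroup.mk' N)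

theorem BB10_le [N.Normal] (γ : Γ) : N ≤ BB10_N1 N γ := by
  intro a ha
  show (a : Γ ⧸ N) ∈ Subgroup.zpowers (γ : Γ ⧸ N)
  rw [(QuotientGroup.eq_one_iff a).2 ha]
  exact Subgroup.one_mem _

theorem BB10_mem [N.Normal] (γ a : Γ) : a ∈ BB10_N1 N γ ↔ ∃ i : ℤ, (γ ^ i)⁻¹ * a ∈ N := by
  show (a : Γ ⧸ N) ∈ Subgroup.zpowers (γ : Γ ⧸ N) ↔ _
  rw [Subgroup.mem_zpowers_iff]
  refine exists_congr fun i => ?_
  rw [← QuotientGroup.eq, QuotientGroup.mk_zpow]

theorem BB10_pr_eq (hN : ∀ a b : Γ, a * b * a⁻¹ * b⁻¹ ∈ N) [N.Normal] (γ : Γ) (x y : Γ ⧸ N)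
    (h : Subgroup.quotientMapOfLE (BB10_le N γ) x = Subgroup.quotientMapOfLE (BB10_le N γ) y) :
    ∃ i : ℤ, γ ^ i • x = y := by
  induction x using QuotientGroup.induction_on with
  | H a =>
    induction y using QuotientGroup.induction_on with
    | H b =>
      have h1 : ((a : Γ) : Γ ⧸ BB10_N1 N γ) = ((b : Γ) : Γ ⧸ BB10_N1 N γ) := h
      rw [QuotientGroup.eq, BB10_mem] at h1
      obtain ⟨i, hi⟩ := h1
      refine ⟨i, ?_⟩
      have h2 := BB10_comm N hN (γ ^ i) a ((1 : Γ) : Γ ⧸ N)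
      have h3 : a • γ ^ i • ((1 : Γ) : Γ ⧸ N) = ((a * (γ ^ i * 1) : Γ) : Γ ⧸ N) := rfl
      have h4 : γ ^ i • a • ((1 : Γ) : Γ ⧸ N) = γ ^ i • ((a * 1 : Γ) : Γ ⧸ N) := rfl
      rw [h3, h4, mul_one, mul_one] at h2
      rw [h2, QuotientGroup.eq]
      have h5 : (a * γ ^ i)⁻¹ * b = (γ ^ i)⁻¹ * (a⁻¹ * b) := by group
      rw [h5]
      exact hi

theorem BB10_pr_smul (hN : ∀ a b : Γ, a * b * a⁻¹ * b⁻¹ ∈ N) [N.Normal] (γ : Γ) (x : Γ ⧸ N) :
    Subgroup.quotientMapOfLE (BB10_le N γ) (γ • x) =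
      Subgroup.quotientMapOfLE (BB10_le N γ) x := by
  induction x using QuotientGroup.induction_on with
  | H a =>
    show ((γ * a : Γ) : Γ ⧸ BB10_N1 N γ) = ((a : Γ) : Γ ⧸ BB10_N1 N γ)
    rw [QuotientGroup.eq, BB10_mem]
    refine ⟨-1, ?_⟩
    have h1 := hN γ a⁻¹
    have h2 : γ * a⁻¹ * γ⁻¹ * a⁻¹⁻¹ = (γ ^ (-1 : ℤ))⁻¹ * ((γ * a)⁻¹ * a) := by group
    rwa [h2] at h1

/-- an invariant finitely supported function is zero -/
theorem BB10_inv_zero (hN : ∀ a b : Γ, a * b * a⁻¹ * b⁻¹ ∈ N) (γ : Γ)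
    (hγ : ∀ n : ℕ, γ ^ n ∈ N → n = 0) (f : Γ ⧸ N →₀ ℝ) (hf : ∀ x, f (γ⁻¹ • x) = f x) : f = 0 := by
  have hnor := BB10_normal N hN
  by_contra hne
  obtain ⟨x, hx⟩ := Finsupp.ne_iff.1 hne
  have h1 : ∀ n : ℕ, f ((γ⁻¹) ^ n • x) = f x := by
    intro n
    induction n with
    | zero => rw [pow_zero, one_smul]
    | succ n ih => rw [pow_succ', mul_smul, hf, ih]
  have h2 : ∀ n m : ℕ, n ≤ m → (γ⁻¹) ^ n • x = (γ⁻¹) ^ m • x → n = m := by
    intro n m hnm he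
    obtain ⟨j, rfl⟩ := Nat.exists_eq_add_of_le hnm
    rw [pow_add, mul_smul] at he
    have he2 := MulAction.injective _ he
    have h3 : j = 0 := by
      induction x using QuotientGroup.induction_on with
      | H a =>
        have h4 : ((a : Γ) : Γ ⧸ N) = (((γ⁻¹) ^ j * a : Γ) : Γ ⧸ N) := he2
        rw [QuotientGroup.eq] at h4
        have h5 := hnor.conj_mem _ h4 a
        have h6 : a * (a⁻¹ * ((γ⁻¹) ^ j * a)) * a⁻¹ = (γ ^ j)⁻¹ := by
          rw [inv_pow]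
          group
        rw [h6] at h5
        exact hγ j ((Subgroup.inv_mem_iff N).1 h5)
    omega
  have h3 : Function.Injective fun n : ℕ => (γ⁻¹) ^ n • x := by
    intro n m he
    rcases le_total n m with h | h
    · exact h2 n m h he
    · exact (h2 m n h he.symm).symm
  refine Set.infinite_range_of_injective h3 (Set.Finite.subset (Finset.finite_toSet f.support) ?_)
  rintro _ ⟨n, rfl⟩
  rw [Finset.mem_coe, Finsupp.mem_support_iff]
  show f ((γ⁻¹) ^ n • x) ≠ 0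
  rw [h1]
  exact hx

/-- the kernel of the projection -/
theorem BB10_ker (hN : ∀ a b : Γ, a * b * a⁻¹ * b⁻¹ ∈ N) [N.Normal] (γ : Γ) (f : Γ ⧸ N →₀ ℝ)
    (hf : Finsupp.mapDomain (Subgroup.quotientMapOfLE (BB10_le N γ)) f = 0) :
    ∃ f' : Γ ⧸ N →₀ ℝ, Finsupp.lmapDomain ℝ ℝ (fun y : Γ ⧸ N => γ • y) f' - f' = f := by
  let D : (Γ ⧸ N →₀ ℝ) →ₗ[ℝ] (Γ ⧸ N →₀ ℝ) :=
    Finsupp.lmapDomain ℝ ℝ (fun y : Γ ⧸ N => γ • y) - LinearMap.id
  have hD : ∀ x : Γ ⧸ N, D (single x 1) = single (γ • x) 1 - single x 1 := by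
    intro x
    show Finsupp.lmapDomain ℝ ℝ (fun y : Γ ⧸ N => γ • y) (single x 1) - single x 1 = _
    rw [Finsupp.lmapDomain_apply, Finsupp.mapDomain_single]
  have h1 : ∀ (i : ℤ) (x : Γ ⧸ N), single (γ ^ i • x) (1 : ℝ) - single x 1 ∈ D.range := by
    intro i
    induction i using Int.induction_on with
    | zero => intro x; rw [zpow_zero, one_smul, sub_self]; exact Submodule.zero_mem _
    | succ i ih =>
      intro x
      have h2 : single (γ ^ ((i : ℤ) + 1) • x) (1 : ℝ) - single x 1 =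
          D (single (γ ^ (i : ℤ) • x) 1) + (single (γ ^ (i : ℤ) • x) 1 - single x 1) := by
        rw [hD, ← mul_smul, ← zpow_one_add, add_comm (1 : ℤ)]
        abel
      rw [h2]
      exact Submodule.add_mem _ (LinearMap.mem_range_self _ _) (ih x)
    | pred i ih =>
      intro x
      have h2 : single (γ ^ (-(i : ℤ) - 1) • x) (1 : ℝ) - single x 1 =
          -D (single (γ ^ (-(i : ℤ) - 1) • x) 1) + (single (γ ^ (-(i : ℤ)) • x) 1 - single x 1) := by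
        have h3 : γ • γ ^ (-(i : ℤ) - 1) • x = γ ^ (-(i : ℤ)) • x := by
          rw [← mul_smul, ← zpow_one_add]
          congr 2
          ring
        rw [hD, h3]
        abel
      rw [h2]
      exact Submodule.add_mem _ (Submodule.neg_mem _ (LinearMap.mem_range_self _ _)) (ih x)
  let p : Γ ⧸ N → Γ ⧸ BB10_N1 N γ := Subgroup.quotientMapOfLE (BB10_le N γ)
  have hps : Function.Surjective p := by
    intro y
    induction y using QuotientGroup.induction_on with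
    | H a => exact ⟨(a : Γ ⧸ N), rfl⟩
  let s : Γ ⧸ BB10_N1 N γ → Γ ⧸ N := Function.surjInv hps
  have hs : ∀ y, p (s y) = y := Function.surjInv_eq hps
  have h4 : ∀ g : Γ ⧸ N →₀ ℝ, g - Finsupp.lmapDomain ℝ ℝ s (Finsupp.lmapDomain ℝ ℝ p g) ∈
      D.range := by
    intro g
    induction g using Finsupp.induction_linear with
    | zero => rw [map_zero, map_zero, sub_zero]; exact Submodule.zero_mem _
    | add a b ha hb =>
      rw [map_add, map_add, add_sub_add_comm]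
      exact Submodule.add_mem _ ha hb
    | single x r =>
      rw [Finsupp.lmapDomain_apply, Finsupp.lmapDomain_apply, Finsupp.mapDomain_single,
        Finsupp.mapDomain_single]
      obtain ⟨i, hi⟩ := BB10_pr_eq N hN γ (s (p x)) x (hs (p x))
      have h5 := Submodule.smul_mem _ r (h1 i (s (p x)))
      rw [hi, smul_sub, Finsupp.smul_single, Finsupp.smul_single, smul_eq_mul, mul_one] at h5
      exact h5
  have h5 := h4 f
  have h6 : Finsupp.lmapDomain ℝ ℝ p f = 0 := hf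
  rw [h6, map_zero, sub_zero] at h5
  exact h5

end quo


section shift

variable {Γ : Type v} [Group Γ] (N : Subgroup Γ)

/-- the shift -/
noncomputable def BB10_T (φ : Γ →* ℝˣ) (γ : Γ) : TW (Γ ⧸ N) (RCh φ) →ₗ[ℝ] TW (Γ ⧸ N) (RCh φ) :=
  BB10_map φ φ (Finsupp.lmapDomain ℝ ℝ (fun y : Γ ⧸ N => γ • y))

theorem BB10_ev_T (φ : Γ →* ℝˣ) (γ : Γ) (m : TW (Γ ⧸ N) (RCh φ)) (x : Γ ⧸ N) :
    BB10_ev (BB10_T N φ γ m) x = BB10_ev m (γ⁻¹ • x) := by
  unfold BB10_T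
  rw [BB10_ev_map, BB10_shift_apply]
  rfl

theorem BB10_T_smul (hN : ∀ a b : Γ, a * b * a⁻¹ * b⁻¹ ∈ N) (φ : Γ →* ℝˣ) (γ g : Γ)
    (m : TW (Γ ⧸ N) (RCh φ)) : BB10_T N φ γ (g • m) = g • BB10_T N φ γ m := by
  apply BB10_ev_ext
  intro x
  rw [BB10_ev_T, BB10_ev_smul, BB10_ev_smul, BB10_ev_T, BB10_comm N hN]

/-- multiplication with a function on the quotient -/
noncomputable def BB10_M (φ ψ : Γ →* ℝˣ) (c : Γ ⧸ N → ℝ) :
    TW (Γ ⧸ N) (RCh φ) →ₗ[ℝ] TW (Γ ⧸ N) (RCh ψ) := BB10_map φ ψ (BB10_mul c)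

theorem BB10_ev_M (φ ψ : Γ →* ℝˣ) (c : Γ ⧸ N → ℝ) (m : TW (Γ ⧸ N) (RCh φ)) (x : Γ ⧸ N) :
    BB10_ev (BB10_M N φ ψ c m) x = c x * BB10_ev m x := rfl

theorem BB10_ev_sub {E : Type w} {φ : Γ →* ℝˣ} (m m' : TW E (RCh φ)) (x : E) :
    BB10_ev (m - m') x = BB10_ev m x - BB10_ev m' x := rfl

end shift

theorem exists_bad {Γ : Type v} [Group Γ] (R : FreeRes.{u, v} Γ) (N : Subgroup Γ)
    (hN : ∀ a b : Γ, a * b * a⁻¹ * b⁻¹ ∈ N)
    {K : Type v'} [Group K] (κ : K →* Γ) (hκ : Function.Injective κ) (hKN : κ.range ≤ N)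
    (hfi : (κ.range.subgroupOf N).FiniteIndex) (F : FreeRes.{u', v'} K) (ψ : Γ →* ℝˣ)
    (γ : Γ) (hγ : ∀ n : ℕ, γ ^ n ∈ N → n = 0) :
    ∃ Bad : Set ℝ, Bad.Countable ∧ ∀ χ : Γ →* ℝˣ, (∀ a ∈ N, χ a = 1) →
      ((χ γ : ℝˣ) : ℝ) ∉ Bad → ∀ k, HV (MonoidHom.id Γ) R (RCh (ψ * χ)) k := by
  have hnor := BB10_normal N hN
  have step : ∀ k, ∃ Bad : Set ℝ, Bad.Finite ∧ ∀ c ∉ Bad,
      (∀ f ∈ BB10_Z (M := TW (Γ ⧸ N) (RCh ψ)) R k,
        (fun x => BB10_T N ψ γ (f x)) - c • f ∈ BB10_B (M := TW (Γ ⧸ N) (RCh ψ)) R k →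
          f ∈ BB10_B (M := TW (Γ ⧸ N) (RCh ψ)) R k) ∧
      ∀ f ∈ BB10_Z (M := TW (Γ ⧸ N) (RCh ψ)) R k, ∃ f₁ ∈ BB10_Z (M := TW (Γ ⧸ N) (RCh ψ)) R k,
        f - ((fun x => BB10_T N ψ γ (f₁ x)) - c • f₁) ∈
          BB10_B (M := TW (Γ ⧸ N) (RCh ψ)) R k := by
    intro k
    obtain ⟨W, hW, hW2⟩ := exists_finite_span R N κ hκ hKN hfi F ψ k
    refine BB10_lin (BB10_Z R k) (BB10_B R k) W (BB10_B_le_Z R k) ?_
      ((BB10_T N ψ γ).compLeft (R.X k)) ?_ ?_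
    · rintro f ⟨hf1, hf2⟩
      obtain ⟨w, hw, f', hf', h⟩ := hW2 f hf1 hf2
      refine ⟨w, hw, f', hf', ?_⟩
      funext x
      rw [Pi.sub_apply, h x]
      abel
    · rintro f ⟨hf1, hf2⟩
      exact ⟨BB10_isEq_map R (BB10_T N ψ γ).toAddMonoidHom (fun g m => BB10_T_smul N hN ψ γ g m)
        k f hf1, BB10_cyc_map R (BB10_T N ψ γ).toAddMonoidHom k f hf2⟩
    · rintro _ ⟨f', hf', rfl⟩
      refine ⟨_, BB10_isEq_map R (BB10_T N ψ γ).toAddMonoidHom
        (fun g m => BB10_T_smul N hN ψ γ g m) (k + 1) f' hf', ?_⟩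
      funext y
      exact (bdM_map R k (BB10_T N ψ γ).toAddMonoidHom f' y).symm
  choose Bad hfin hBad using step
  refine ⟨⋃ k, Bad k, Set.countable_iUnion fun k => (hfin k).countable, ?_⟩
  intro χ hχ hc
  set c : ℝ := ((χ γ : ℝˣ) : ℝ) with hcdef
  have hc0 : c ≠ 0 := (χ γ).ne_zero
  have hcB : ∀ k, c ∉ Bad k := fun k hk => hc (Set.mem_iUnion.2 ⟨k, hk⟩)
  set φ : Γ →* ℝˣ := ψ * χ with hφ
  let χb : Γ ⧸ N →* ℝˣ := QuotientGroup.lift N χ (fun a ha => hχ a ha)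
  have hχb : ∀ (g : Γ) (x : Γ ⧸ N), χb (g • x) = χ g * χb x := by
    intro g x
    induction x using QuotientGroup.induction_on with
    | H a =>
      show χ (g * a) = χ g * χ a
      rw [map_mul]
  let e1 : Γ ⧸ N → ℝ := fun x => (((χb x)⁻¹ : ℝˣ) : ℝ)
  let e2 : Γ ⧸ N → ℝ := fun x => ((χb x : ℝˣ) : ℝ)
  have he12 : ∀ x, e1 x * e2 x = 1 := by
    intro x
    show (((χb x)⁻¹ : ℝˣ) : ℝ) * ((χb x : ℝˣ) : ℝ) = 1
    exact Units.inv_mul _
  have he2s : ∀ (g : Γ) x, e2 (g⁻¹ • x) * ((χ g : ℝˣ) : ℝ) = e2 x := by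
    intro g x
    show ((χb (g⁻¹ • x) : ℝˣ) : ℝ) * _ = _
    rw [hχb, map_inv, Units.val_mul, mul_comm, ← mul_assoc, Units.mul_inv, one_mul]
  have he1s : ∀ (g : Γ) x, e1 (g⁻¹ • x) = ((χ g : ℝˣ) : ℝ) * e1 x := by
    intro g x
    show (((χb (g⁻¹ • x))⁻¹ : ℝˣ) : ℝ) = _
    rw [hχb, map_inv, mul_inv, inv_inv, Units.val_mul]
  let θ : TW (Γ ⧸ N) (RCh φ) →ₗ[ℝ] TW (Γ ⧸ N) (RCh ψ) := BB10_M N φ ψ e1
  let θ' : TW (Γ ⧸ N) (RCh ψ) →ₗ[ℝ] TW (Γ ⧸ N) (RCh φ) := BB10_M N ψ φ e2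
  have hθθ' : ∀ m, θ' (θ m) = m := by
    intro m
    apply BB10_ev_ext
    intro x
    show e2 x * (e1 x * BB10_ev m x) = _
    rw [← mul_assoc, mul_comm (e2 x), he12, one_mul]
  have hθs : ∀ (g : Γ) m, θ (g • m) = g • θ m := by
    intro g m
    apply BB10_ev_ext
    intro x
    rw [BB10_ev_smul]
    show e1 x * BB10_ev (g • m) x = _ * (e1 (g⁻¹ • x) * BB10_ev m (g⁻¹ • x))
    rw [BB10_ev_smul, he1s, hφ]
    show e1 x * (((ψ g * χ g : ℝˣ) : ℝ) * _) = _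
    rw [Units.val_mul]
    ring
  have hθ's : ∀ (g : Γ) m, θ' (g • m) = g • θ' m := by
    intro g m
    apply BB10_ev_ext
    intro x
    rw [BB10_ev_smul]
    show e2 x * BB10_ev (g • m) x = _ * (e2 (g⁻¹ • x) * BB10_ev m (g⁻¹ • x))
    rw [BB10_ev_smul, ← he2s g x, hφ]
    show _ = (((ψ g * χ g : ℝˣ) : ℝ)) * _
    rw [Units.val_mul]
    ring
  let D : TW (Γ ⧸ N) (RCh φ) →ₗ[ℝ] TW (Γ ⧸ N) (RCh φ) := BB10_T N φ γ - LinearMap.id
  have hDv : ∀ m, D m = BB10_T N φ γ m - m := fun m => rfl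
  have hθD : ∀ m, BB10_T N ψ γ (θ m) - c • θ m = c • θ (D m) := by
    intro m
    apply BB10_ev_ext
    intro x
    rw [BB10_ev_sub, BB10_ev_T, BB10_ev_rsmul, BB10_ev_rsmul]
    show e1 (γ⁻¹ • x) * BB10_ev m (γ⁻¹ • x) - c * (e1 x * BB10_ev m x) =
      c * (e1 x * BB10_ev (D m) x)
    rw [hDv, BB10_ev_sub, BB10_ev_T, he1s]
    ring
  have hDs : ∀ (g : Γ) m, D (g • m) = g • D m := by
    intro g m
    rw [hDv, hDv, BB10_T_smul N hN, smul_sub]
  let p : Γ ⧸ N → Γ ⧸ BB10_N1 N γ := Subgroup.quotientMapOfLE (BB10_le N γ)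
  have hps : Function.Surjective p := by
    intro y
    induction y using QuotientGroup.induction_on with
    | H a => exact ⟨(a : Γ ⧸ N), rfl⟩
  have hpg : ∀ (g : Γ) x, p (g • x) = g • p x := by
    intro g x
    induction x using QuotientGroup.induction_on with
    | H a => rfl
  let π : TW (Γ ⧸ N) (RCh φ) →+ TW (Γ ⧸ BB10_N1 N γ) (RCh φ) :=
    Finsupp.mapDomain.addMonoidHom p
  have hN1 : ∀ a b : Γ, a * b * a⁻¹ * b⁻¹ ∈ BB10_N1 N γ := fun a b => BB10_le N γ (hN a b)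
  have hN1n : (BB10_N1 N γ).Normal := BB10_normal _ hN1
  refine HV_of_normal R (BB10_N1 N γ) (RCh φ) ?_
  intro k
  refine HV_wang R (TW (Γ ⧸ N) (RCh φ)) (TW (Γ ⧸ BB10_N1 N γ) (RCh φ)) D.toAddMonoidHom π
    hDs ?_ ?_ ?_ ?_ ?_ k ?_ ?_
  · -- equivariance of the projection
    intro g m
    show Finsupp.mapDomain p (twAct g m) = twAct g (Finsupp.mapDomain p m)
    induction m using Finsupp.induction_linear with
    | zero => rw [map_zero, Finsupp.mapDomain_zero, map_zero]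
    | add a b ha hb => rw [map_add, Finsupp.mapDomain_add, ha, hb, Finsupp.mapDomain_add, map_add]
    | single x r =>
      have h1 : ∀ {E : Type _} [MulAction Γ E] (x : E), twAct g (single x r) =
          single (g • x) (g • r) := by
        intro E _ x
        simp only [twAct, AddMonoidHom.comp_apply, Finsupp.mapDomain.addMonoidHom_apply,
          Finsupp.mapRange.addMonoidHom_apply, Finsupp.mapRange_single, Finsupp.mapDomain_single]
        rfl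
      rw [h1, Finsupp.mapDomain_single, Finsupp.mapDomain_single, h1, hpg]
  · exact Finsupp.mapDomain_surjective hps
  · intro m
    show Finsupp.mapDomain p (Finsupp.mapDomain (fun y : Γ ⧸ N => γ • y) (BB10_un m) -
      BB10_un m) = 0
    rw [← Finsupp.lmapDomain_apply ℝ ℝ p, map_sub, Finsupp.lmapDomain_apply,
      Finsupp.lmapDomain_apply, ← Finsupp.mapDomain_comp, sub_eq_zero]
    congr 1
    funext y
    exact BB10_pr_smul N hN γ y
  · intro m hm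
    obtain ⟨f', hf'⟩ := BB10_ker N hN γ (BB10_un m) hm
    exact ⟨BB10_mk φ f', hf'⟩
  · rw [injective_iff_map_eq_zero]
    intro m hm
    have h1 : BB10_T N φ γ m - m = 0 := hm
    refine BB10_inv_zero N hN γ hγ (BB10_un m) fun x => ?_
    have h2 : BB10_ev (BB10_T N φ γ m - m) x = 0 := by rw [h1]; rfl
    rw [BB10_ev_sub, BB10_ev_T, sub_eq_zero] at h2
    exact h2
  · intro j _ f hf1 hf2 hex
    obtain ⟨f', hf', h⟩ := hex
    have hF : (fun x => θ (f x)) ∈ BB10_Z (M := TW (Γ ⧸ N) (RCh ψ)) R j :=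
      ⟨BB10_isEq_map R θ.toAddMonoidHom hθs j f hf1, BB10_cyc_map R θ.toAddMonoidHom j f hf2⟩
    have hB : (fun x => BB10_T N ψ γ (θ (f x))) - c • (fun x => θ (f x)) ∈
        BB10_B (M := TW (Γ ⧸ N) (RCh ψ)) R j := by
      have h3 : (fun x => BB10_T N ψ γ (θ (f x))) - c • (fun x => θ (f x)) =
          c • fun x => θ (D (f x)) := by
        funext x
        exact hθD (f x)
      rw [h3]
      refine Submodule.smul_mem _ c ⟨_, BB10_isEq_map R θ.toAddMonoidHom hθs (j + 1) f' hf', ?_⟩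
      funext y
      have h4 := bdM_map R j θ.toAddMonoidHom f' y
      rw [h4]
      show θ (D (f y)) = θ (bdM R j f' y)
      rw [← h y]
      rfl
    obtain ⟨G, hG, hG2⟩ := (hBad j c (hcB j)).1 _ hF hB
    refine ⟨_, BB10_isEq_map R θ'.toAddMonoidHom hθ's (j + 1) G hG, ?_⟩
    funext y
    have h4 := bdM_map R j θ'.toAddMonoidHom G y
    rw [h4, ← hG2]
    exact (hθθ' (f y)).symm
  · intro f hf1 hf2
    have hF : (fun x => θ (f x)) ∈ BB10_Z (M := TW (Γ ⧸ N) (RCh ψ)) R k :=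
      ⟨BB10_isEq_map R θ.toAddMonoidHom hθs k f hf1, BB10_cyc_map R θ.toAddMonoidHom k f hf2⟩
    obtain ⟨F₁, hF₁, G, hG, hG2⟩ := (hBad k c (hcB k)).2 _ hF
    let f₁ : R.X k → TW (Γ ⧸ N) (RCh φ) := fun x => c • θ' (F₁ x)
    have hf₁ : f₁ ∈ BB10_Z (M := TW (Γ ⧸ N) (RCh φ)) R k := by
      refine Submodule.smul_mem _ c ⟨?_, ?_⟩
      · exact BB10_isEq_map R θ'.toAddMonoidHom hθ's k F₁ hF₁.1
      · exact BB10_cyc_map R θ'.toAddMonoidHom k F₁ hF₁.2
    refine ⟨f₁, hf₁.1, hf₁.2, _, BB10_isEq_map R θ'.toAddMonoidHom hθ's (k + 1) G hG, ?_⟩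
    intro x
    have h4 := bdM_map R k θ'.toAddMonoidHom G x
    rw [h4, ← hG2]
    show f x = (BB10_T N φ γ (c • θ' (F₁ x)) - c • θ' (F₁ x)) +
      θ' (θ (f x) - (BB10_T N ψ γ (F₁ x) - c • F₁ x))
    apply BB10_ev_ext
    intro y
    rw [BB10_ev_add, BB10_ev_sub, BB10_ev_T, BB10_ev_rsmul, BB10_ev_rsmul]
    show _ = c * (e2 (γ⁻¹ • y) * BB10_ev (F₁ x) (γ⁻¹ • y)) - c * (e2 y * BB10_ev (F₁ x) y) +
      e2 y * BB10_ev (θ (f x) - (BB10_T N ψ γ (F₁ x) - c • F₁ x)) y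
    rw [BB10_ev_sub, BB10_ev_sub, BB10_ev_T, BB10_ev_rsmul]
    show _ = _ + e2 y * (e1 y * BB10_ev (f x) y - _)
    have h5 := he2s γ y
    have h6 := he12 y
    rw [← hcdef] at h5
    have h7 : e2 y * (e1 y * BB10_ev (f x) y) = BB10_ev (f x) y := by
      rw [← mul_assoc, mul_comm (e2 y), h6, one_mul]
    rw [mul_sub, h7, ← h5]
    ring

end GP

end OS
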