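import Mathlib
import Pool.Agent.Lib.MP_8fe54c_gt.KZig

/-!
# Project BB, module BB3: the converse of the zigzag
-/

namespace OS

namespace GP

open Finsupp

universe u v w u' v' w'

theorem zigzag_conv {Γ : Type v} [Group Γ] (R : FreeRes.{u, v} Γ) (M : Type w) [AddCommGroup M]
    [DistribMulAction Γ M] (D : ℕ → Type w') [∀ q, AddCommGroup (D q)]
    [∀ q, DistribMulAction Γ (D q)] (b : ∀ q, D (q + 1) →+ D q) (ε : D 0 →+ M)
    (hb : ∀ q (g : Γ) x, b q (g • x) = g • b q x) (hε : ∀ (g : Γ) x, ε (g • x) = g • ε x)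
    (hεb : ∀ x, ε (b 0 x) = 0) (hbb : ∀ q x, b q (b (q + 1) x) = 0)
    (hsurj : Function.Surjective ε)
    (hex0 : ∀ x, ε x = 0 → ∃ y, b 0 y = x) (hex : ∀ q x, b q x = 0 → ∃ y, b (q + 1) y = x)
    (n : ℕ) (hM : HV (MonoidHom.id Γ) R M n)
    (t : ∀ p q, R.X p → D q) (ht : ∀ p q, IsEq (MonoidHom.id Γ) R (D q) p (t p q))
    (hc : ∀ p q, p + q + 1 = n → ∀ x,
      bdM R p (t (p + 1) q) x + (-1 : ℤ) ^ p • b q (t p (q + 1) x) = 0) :
    ∃ s : ∀ p q, R.X p → D q, (∀ p q, IsEq (MonoidHom.id Γ) R (D q) p (s p q)) ∧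
      ∀ p q, p + q = n → ∀ x,
        bdM R p (s (p + 1) q) x + (-1 : ℤ) ^ p • b q (s p (q + 1) x) = t p q x := by
  classical
  have hsq : ∀ p : ℕ, ((-1 : ℤ) ^ p) * (-1) ^ p = 1 := fun p => by
    rw [← mul_pow]; simp
  have hz : ∀ p q, IsEq (MonoidHom.id Γ) R (D q) p (fun _ => 0) := by
    intro p q g x
    exact (smul_zero _).symm
  -- the augmentation of the last column is a cycle
  have hcyc : CycM R n (fun x => ε (t n 0 x)) := by
    cases n with
    | zero => trivial
    | succ m =>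
      change bdM R m (fun x => ε (t (m + 1) 0 x)) = 0
      funext x
      rw [bdM_map]
      have h1 := congrArg ε (hc m 0 rfl x)
      rw [map_add, map_zsmul, hεb, smul_zero, add_zero, map_zero] at h1
      exact h1
  obtain ⟨f, hf, hfd⟩ := hM (fun x => ε (t n 0 x)) (fun g x => by
    change ε (t n 0 (g • x)) = g • ε (t n 0 x)
    rw [ht, MonoidHom.id_apply, hε]) hcyc
  obtain ⟨s0, hs0, hs0'⟩ := exists_eqlift R (n + 1) ε hε f hf fun x => hsurj (f x)
  let a0 : ∀ p, R.X p → D 0 := Function.update (fun _ _ => 0) (n + 1) s0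
  have ha0 : a0 (n + 1) = s0 := by
    simp only [a0, Function.update_self]
  have ha0' : ∀ p, IsEq (MonoidHom.id Γ) R (D 0) p (a0 p) := by
    intro p
    by_cases h : p = n + 1
    · subst h
      rw [ha0]
      exact hs0
    · have h1 : a0 p = fun _ => 0 := by
        simp only [a0, Function.update_of_ne h]
      rw [h1]
      exact hz p 0
  clear_value a0
  obtain ⟨s, h1, h2, h3⟩ := dep_seq (A := fun q => ∀ p, R.X p → D q)
    (fun q a => (∀ p, IsEq (MonoidHom.id Γ) R (D q) p (a p)) ∧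
      ∀ p, p + q = n → ∀ x, ∃ y, b q y = t p q x - bdM R p (a (p + 1)) x)
    (fun q a a' => ∀ p, p + q = n → ∀ x,
      bdM R p (a (p + 1)) x + (-1 : ℤ) ^ p • b q (a' p x) = t p q x) a0
    ⟨ha0', by
      intro p hp x
      obtain rfl : p = n := by omega
      refine hex0 _ ?_
      rw [map_sub, ha0, ← bdM_map]
      have h4 : (fun x => ε (s0 x)) = f := funext hs0'
      rw [h4, hfd, sub_self]⟩ (by
      rintro q a ⟨ha, ha'⟩
      have h4 : ∀ p, ∃ f' : R.X p → D (q + 1), IsEq (MonoidHom.id Γ) R (D (q + 1)) p f' ∧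
          (p + q = n → ∀ x, b q (f' x) = (-1 : ℤ) ^ p • (t p q x - bdM R p (a (p + 1)) x)) := by
        intro p
        by_cases hp : p + q = n
        · obtain ⟨f', h5, h6⟩ := exists_eqlift R p (b q) (hb q)
            (fun x => (-1 : ℤ) ^ p • (t p q x - bdM R p (a (p + 1)) x))
            (by
              intro g x
              have h5 := bdM_isEq (MonoidHom.id Γ) R p (a (p + 1)) (ha (p + 1)) g x
              simp only [h5, ht p q g x, MonoidHom.id_apply]
              rw [← smul_sub, smul_comm]) (by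
              intro x
              obtain ⟨y, hy⟩ := ha' p hp x
              exact ⟨(-1 : ℤ) ^ p • y, by rw [map_zsmul, hy]⟩)
          exact ⟨f', h5, fun _ => h6⟩
        · exact ⟨fun _ => 0, hz p (q + 1), fun h => absurd h hp⟩
      choose a' h5 h6 using h4
      refine ⟨a', ⟨h5, fun p hp x => ?_⟩, fun p hp x => ?_⟩
      · refine hex q _ ?_
        rw [map_sub, ← bdM_map]
        have hp' : p + 1 + q = n := by omega
        have h7 : (fun x => b q (a' (p + 1) x)) =
            ((-1 : ℤ) ^ (p + 1)) • (t (p + 1) q - bdM R (p + 1) (a (p + 1 + 1))) := by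
          funext x
          rw [h6 (p + 1) hp', Pi.smul_apply, Pi.sub_apply]
        rw [h7, bdM_zsmul, bdM_sub, bdM_bdM, sub_zero, Pi.smul_apply]
        have h8 := hc p q (by omega) x
        have h9 : b q (t p (q + 1) x) = (-1 : ℤ) ^ (p + 1) • bdM R p (t (p + 1) q) x := by
          have h10 : (-1 : ℤ) ^ p • b q (t p (q + 1) x) = - bdM R p (t (p + 1) q) x :=
            eq_neg_of_add_eq_zero_right h8
          have h11 : (-1 : ℤ) ^ p • (-1 : ℤ) ^ p • b q (t p (q + 1) x) =
            (-1 : ℤ) ^ p • (- bdM R p (t (p + 1) q) x) := by rw [h10]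
          rw [← mul_smul, hsq, one_smul] at h11
          rw [h11, pow_succ, smul_neg, mul_neg, mul_one, neg_smul]
        rw [h9, sub_self]
      · rw [h6 p hp, ← mul_smul, hsq, one_smul, add_sub_cancel])
  exact ⟨fun p q => s q p, fun p q => (h2 q).1 p, fun p q hpq x => h3 q p hpq x⟩

end GP

end OS
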