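import Mathlib
import Pool.Agent.Lib.MP_8fe54c_gt.KEng
import Pool.Agent.Lib.MP_8fe54c_gt.BBZig

/-!
# PROJECT BB, module BB4: exactness of the total complex
-/

namespace OS

namespace GP

open Finsupp MulOpposite

universe u v w u' v' w'

/-- if the homology of the group with coefficients in `M` is zero in degree `n`, then every total
cycle of degree `n` is a boundary -/
theorem tot_exact {V : Type v} [Fintype V] [LinearOrder V] {Γ : Type v'} [Group Γ]
    (R : FreeRes.{u, v'} Γ) (M : Type w') [AddCommGroup M] [DistribMulAction Γ M]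
    (S : CSys.{v, w} V) [∀ σ, MulAction Γ (S.Q σ)]
    (hS : ∀ (g : Γ) {σ τ : Finset V} (h : σ ⊆ τ) (x : S.Q σ), S.pr h (g • x) = g • S.pr h x)
    (Lc : Finset V → Prop) (hdown : ∀ s t, s ⊆ t → Lc t → Lc s)
    (hempty : Lc ∅) [Nonempty (S.Q ∅)] (hD : DExact S Lc M) (n : ℕ)
    (hM : HV (MonoidHom.id Γ) R M n)
    (T : ∀ p, R.X p → CC S M) (hT : KEng_TC R S Lc n 0 T)
    (hdT : ∀ p x, KEng_bd R S T p x = 0) :
    ∃ U : ∀ p, R.X p → CC S M, KEng_TC R S Lc (n + 1) 0 U ∧
      ∀ p x, KEng_bd R S U p x = T p x := by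
  classical
  let _ : ∀ q, DistribMulAction Γ (KEng_D S M Lc q) := fun q => KEng_act S Lc q
  have hTs : ∀ p q, p + q = n → ∀ x, CSup Lc q (T p x) := by
    intro p q hpq x σ τ h
    refine hT.sup _ _ _ _ ?_
    rintro ⟨h1, h2, h3, -⟩
    exact h ⟨h1, h2, by omega⟩
  obtain ⟨s, hs1, hs2⟩ := zigzag_conv R M (fun q => KEng_D S M Lc q) (KEng_b S M Lc hdown)
    (KEng_aug S M Lc)
    (by
      intro q g x
      exact Subtype.ext (cd_twAct S hS g x.1))
    (by
      intro g x
      show ∑ σ : Finset V, (twAct g (x.1 σ σ)).sum (fun _ a => a) =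
        g • ∑ σ : Finset V, (x.1 σ σ).sum (fun _ a => a)
      rw [Finset.smul_sum]
      exact Finset.sum_congr rfl fun σ _ => KEng_sum_twAct g _)
    (by
      intro x
      exact aug_cd S Lc hdown x.1 x.2)
    (by
      intro q x
      exact Subtype.ext (KEng_cd_cd S Lc hdown _ x.1 x.2))
    (by
      intro m
      obtain ⟨q0⟩ := (inferInstance : Nonempty (S.Q ∅))
      refine ⟨⟨Pi.single ∅ (Pi.single ∅ (single q0 m)), ?_⟩, ?_⟩
      · intro σ τ h
        by_cases h1 : σ = ∅
        · subst h1
          rw [Pi.single_eq_same]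
          by_cases h2 : τ = ∅
          · subst h2
            exact absurd ⟨Finset.Subset.refl _, hempty, by simp⟩ h
          · exact Pi.single_eq_of_ne h2 _
        · rw [Pi.single_eq_of_ne h1]
          rfl
      · show ∑ σ : Finset V, ((Pi.single ∅ (Pi.single ∅ (single q0 m)) :
          ∀ σ _τ : Finset V, S.Q σ →₀ M) σ σ).sum (fun _ a => a) = m
        rw [Finset.sum_eq_single ∅]
        · rw [Pi.single_eq_same, Pi.single_eq_same, Finsupp.sum_single_index rfl]
        · intro σ _ h
          rw [Pi.single_eq_of_ne h]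
          exact Finsupp.sum_zero_index
        · intro h
          exact absurd (Finset.mem_univ _) h)
    (by
      intro x hx
      obtain ⟨y, hy, e⟩ := hD.2 x.1 x.2 hx
      exact ⟨⟨y, hy⟩, Subtype.ext e⟩)
    (by
      intro q x hx
      obtain ⟨y, hy, e⟩ := hD.1 q x.1 x.2 (congrArg Subtype.val hx)
      exact ⟨⟨y, hy⟩, Subtype.ext e⟩)
    n hM
    (fun p q x => if h : p + q = n then ⟨T p x, hTs p q h x⟩ else 0)
    (by
      intro p q g x
      by_cases h : p + q = n
      · simp only [dif_pos h]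
        exact Subtype.ext (hT.eq p g x)
      · simp only [dif_neg h]
        exact (smul_zero g).symm)
    (by
      intro p q hpq x
      have h1 : p + 1 + q = n := by omega
      have h2 : p + (q + 1) = n := by omega
      simp only [dif_pos h1, dif_pos h2]
      apply Subtype.ext
      have e5 := bdM_map R p (AddSubgroup.subtype (KEng_D S M Lc q))
        (fun x => (⟨T (p + 1) x, hTs (p + 1) q h1 x⟩ : KEng_D S M Lc q)) x
      have e6 : bdM R p (T (p + 1)) x = (bdM R p
        (fun x => (⟨T (p + 1) x, hTs (p + 1) q h1 x⟩ : KEng_D S M Lc q)) x).1 := e5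
      have e7 := hdT p x
      unfold KEng_bd at e7
      rw [e6] at e7
      exact e7)
  let U : ∀ p, R.X p → CC S M := fun p x => if p ≤ n + 1 then (s p (n + 1 - p) x).1 else 0
  have hU1 : ∀ p, p ≤ n + 1 → ∀ x, U p x = (s p (n + 1 - p) x).1 := fun p h x => if_pos h
  have hU2 : ∀ p, ¬ p ≤ n + 1 → ∀ x, U p x = 0 := fun p h x => if_neg h
  clear_value U
  have hUC : KEng_TC R S Lc (n + 1) 0 U := by
    constructor
    · intro p g x
      by_cases h : p ≤ n + 1
      · rw [hU1 p h, hU1 p h]
        exact congrArg Subtype.val (hs1 p (n + 1 - p) g x)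
      · rw [hU2 p h, hU2 p h]
        funext σ τ
        exact (map_zero (twAct g)).symm
    · intro p x σ τ h
      by_cases hp : p ≤ n + 1
      · rw [hU1 p hp]
        refine (s p (n + 1 - p) x).2 σ τ ?_
        rintro ⟨h1, h2, h3⟩
        exact h ⟨h1, h2, by omega, Nat.zero_le _⟩
      · rw [hU2 p hp]
        rfl
  refine ⟨U, hUC, fun p y => ?_⟩
  by_cases hp : p ≤ n
  · obtain ⟨q, hq⟩ : ∃ q, p + q = n := ⟨n - p, by omega⟩
    have h1 := congrArg Subtype.val (hs2 p q hq y)
    simp only [dif_pos hq] at h1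
    have e1 : n + 1 - (p + 1) = q := by omega
    have e2 : n + 1 - p = q + 1 := by omega
    have e3 : U (p + 1) = fun x => (s (p + 1) q x).1 := by
      funext x
      rw [hU1 (p + 1) (by omega), e1]
    have e4 : U p y = (s p (q + 1) y).1 := by
      rw [hU1 p (by omega), e2]
    unfold KEng_bd
    rw [e3, e4]
    have e5 := bdM_map R p (AddSubgroup.subtype (KEng_D S M Lc q)) (s (p + 1) q) y
    have e6 : bdM R p (fun x => (s (p + 1) q x).1) y = (bdM R p (s (p + 1) q) y).1 := e5
    rw [e6]
    exact h1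
  · have hTz : T p y = 0 := by
      funext σ τ
      refine hT.sup _ _ _ _ ?_
      rintro ⟨-, -, h3, -⟩
      omega
    rw [hTz]
    unfold KEng_bd
    rw [KEng_bdM_zero R p _ (fun x => hU2 (p + 1) (by omega) x) y, zero_add]
    by_cases hp' : p ≤ n + 1
    · have e2 : n + 1 - p = 0 := by omega
      have h0 : CSup Lc 0 (U p y) := by
        have := KEng_cSup R S hUC p y
        rwa [e2] at this
      rw [KEng_cd_zero S Lc _ h0, smul_zero]
    · rw [hU2 p hp']
      have : cd S (0 : CC S M) = 0 := (KEng_cdHom S M).map_zero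
      rw [this, smul_zero]

end GP

end OS
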