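import Mathlib
import Pool.Agent.Lib.MP_8fe54c_gt.BBDefs
import Pool.Agent.Lib.MP_8fe54c_gt.KEng
import Pool.Agent.Lib.MP_8fe54c_gt.BBTot
import Pool.Agent.Lib.MP_8fe54c_gt.BBAug

/-!
# Project BB, module BB5: the converse theorem
-/

namespace OS

namespace GP

open Finsupp MulOpposite

universe u v w u' v' w'

section functional

variable {Γ : Type v} [Group Γ] {Q : Type w} [MulAction Γ Q] (φ : Γ →* ℝˣ)

theorem BB5_smul_single (g : Γ) (x : Q) (m : RCh φ) :
    g • (show TW Q (RCh φ) from single x m) = (show TW Q (RCh φ) from single (g • x) (g • m)) := by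
  change twAct g (single x m) = single (g • x) (g • m)
  unfold twAct
  simp

theorem BB5_functional (x₀ : Q) (hx₀ : ∀ g : Γ, g • x₀ = x₀ → φ g = 1) :
    ∃ lam : TW Q (RCh φ) →+ ℝ, (∀ (g : Γ) m, lam (g • m) = lam m) ∧
      lam (show TW Q (RCh φ) from single x₀ (RCh.of φ 1)) = 1 ∧
      ∀ (r : ℝ) (m : TW Q (RCh φ)), lam (r • m) = r * lam m := by
  classical
  let wt : Q → ℝ := fun x =>
    if h : ∃ g : Γ, g • x₀ = x then (((φ h.choose)⁻¹ : ℝˣ) : ℝ) else 0
  have hw : ∀ g : Γ, wt (g • x₀) = (((φ g)⁻¹ : ℝˣ) : ℝ) := by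
    intro g
    have h : ∃ g' : Γ, g' • x₀ = g • x₀ := ⟨g, rfl⟩
    have h1 : wt (g • x₀) = (((φ h.choose)⁻¹ : ℝˣ) : ℝ) := dif_pos h
    rw [h1]
    have h2 := h.choose_spec
    have h3 : φ (g⁻¹ * h.choose) = 1 := hx₀ _ (by rw [mul_smul, h2, inv_smul_smul])
    rw [map_mul, map_inv, inv_mul_eq_one] at h3
    rw [h3]
  have hwn : ∀ x, (¬ ∃ g : Γ, g • x₀ = x) → wt x = 0 := fun x h => dif_neg h
  have hwg : ∀ (g : Γ) (x : Q), wt (g • x) * ((φ g : ℝˣ) : ℝ) = wt x := by
    intro g x
    by_cases h : ∃ g' : Γ, g' • x₀ = x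
    · obtain ⟨g', rfl⟩ := h
      rw [← mul_smul, hw, hw, map_mul, mul_inv_rev, Units.val_mul, mul_assoc, ← Units.val_mul,
        inv_mul_cancel, Units.val_one, mul_one]
    · rw [hwn x h, hwn (g • x), zero_mul]
      rintro ⟨g', hg'⟩
      exact h ⟨g⁻¹ * g', by rw [mul_smul, hg', inv_smul_smul]⟩
  let lam : (Q →₀ RCh φ) →+ ℝ := Finsupp.liftAddHom
    (fun x => (AddMonoidHom.mulLeft (wt x)).comp
      (show RCh φ →+ ℝ from { toFun := RCh.val, map_zero' := rfl, map_add' := fun _ _ => rfl }))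
  have hl : ∀ x m, lam (single x m) = wt x * m.val := by
    intro x m
    change Finsupp.liftAddHom _ (single x m) = _
    rw [Finsupp.liftAddHom_apply_single]
    rfl
  refine ⟨lam, ?_, ?_, ?_⟩
  · intro g m
    change lam (twAct g m) = lam m
    have h : (lam.comp (twAct g)) = lam := by
      refine Finsupp.addHom_ext fun x m => ?_
      have h1 : twAct g (single x m) = single (g • x) (g • m) := BB5_smul_single φ g x m
      rw [AddMonoidHom.comp_apply, h1, hl, hl, RCh.val_smul, ← mul_assoc, hwg]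
    exact DFunLike.congr_fun h m
  · change lam (single x₀ (RCh.of φ 1)) = 1
    rw [hl]
    have h1 := hw 1
    rw [one_smul] at h1
    rw [h1, map_one, inv_one, Units.val_one, one_mul]
    rfl
  · intro r m
    change lam (r • (show Q →₀ RCh φ from m)) = r * lam m
    have h : lam.comp (DistribSMul.toAddMonoidHom (Q →₀ RCh φ) r) =
        (AddMonoidHom.mulLeft r).comp lam := by
      refine Finsupp.addHom_ext fun x m => ?_
      change lam (r • single x m) = r * lam (single x m)
      rw [Finsupp.smul_single, hl, hl, RCh.val_rsmul]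
      ring
    exact DFunLike.congr_fun h m

/-- the chain which represents the point `m₀` -/
theorem BB5_chain (R : FreeRes.{u, v} Γ) {M : Type w'} [AddCommGroup M] [DistribMulAction Γ M]
    (m₀ : M) (c₀ : R.X 0 →₀ ℤ) (lam : M →+ ℝ) (hlam : ∀ (g : Γ) m, lam (g • m) = lam m)
    (h0 : lam m₀ = 1) :
    ∃ f₀ : R.X 0 → M, IsEq (MonoidHom.id Γ) R M 0 f₀ ∧
      ∀ y, lam (f₀ y) = ∑ᶠ g : Γ, ((c₀ (g • y) : ℤ) : ℝ) := by
  classical
  have hfin : ∀ y : R.X 0, (Function.support fun g : Γ => c₀ (g⁻¹ • y)).Finite := by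
    intro y
    refine Set.Finite.preimage (f := fun g : Γ => g⁻¹ • y) ?_ c₀.support.finite_toSet |>.subset ?_
    · intro g _ h _ e
      exact inv_injective (R.eq_of_smul_eq e)
    · intro g hg
      exact Finsupp.mem_support_iff.2 hg
  have hfin' : ∀ y : R.X 0, (Function.support fun g : Γ => c₀ (g⁻¹ • y) • (g • m₀)).Finite := by
    intro y
    refine (hfin y).subset fun g hg h => ?_
    rw [Function.mem_support] at hg
    exact hg (by rw [show c₀ (g⁻¹ • y) = 0 from h, zero_smul])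
  refine ⟨fun y => ∑ᶠ g : Γ, c₀ (g⁻¹ • y) • (g • m₀), ?_, ?_⟩
  · intro h y
    change ∑ᶠ g : Γ, c₀ (g⁻¹ • h • y) • (g • m₀) = h • ∑ᶠ g : Γ, c₀ (g⁻¹ • y) • (g • m₀)
    have h1 := AddMonoidHom.map_finsum (DistribSMul.toAddMonoidHom M h) (hfin' y)
    rw [show h • ∑ᶠ g : Γ, c₀ (g⁻¹ • y) • (g • m₀) =
      (DistribSMul.toAddMonoidHom M h) (∑ᶠ g : Γ, c₀ (g⁻¹ • y) • (g • m₀)) from rfl, h1,
      ← finsum_comp_equiv (Equiv.mulLeft h)]
    refine finsum_congr fun g => ?_
    change c₀ ((h * g)⁻¹ • h • y) • ((h * g) • m₀) = h • (c₀ (g⁻¹ • y) • (g • m₀))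
    rw [mul_inv_rev, mul_smul, inv_smul_smul, mul_smul]
    exact (map_zsmul (DistribSMul.toAddMonoidHom M h) _ _).symm
  · intro y
    change lam (∑ᶠ g : Γ, c₀ (g⁻¹ • y) • (g • m₀)) = _
    rw [AddMonoidHom.map_finsum lam (hfin' y), ← finsum_comp_equiv (Equiv.inv Γ)]
    refine finsum_congr fun g => ?_
    change lam (c₀ ((g⁻¹)⁻¹ • y) • (g⁻¹ • m₀)) = _
    rw [map_zsmul, hlam, h0, inv_inv, zsmul_eq_mul, mul_one]

end functional

/-- a functional which separates a chain from a subspace -/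
theorem BB5_sep {E : Type*} [AddCommGroup E] [Module ℝ E] (p : Submodule ℝ E)
    (z : E) (hz : z ∉ p) : ∃ l : E →ₗ[ℝ] ℝ, l z = 1 ∧ ∀ y ∈ p, l y = 0 := by
  obtain ⟨f, hf, hp⟩ := Submodule.exists_le_ker_of_notMem hz
  refine ⟨(f z)⁻¹ • f, ?_, fun y hy => ?_⟩
  · rw [LinearMap.smul_apply, smul_eq_mul, inv_mul_cancel₀ hf]
  · rw [LinearMap.smul_apply, hp hy, smul_zero]

/-- the simplicial boundary as a linear map -/
noncomputable def BB5_dd (V : Type v) [Fintype V] [LinearOrder V] :
    (Finset V → ℝ) →ₗ[ℝ] (Finset V → ℝ) where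
  toFun y s := ∑ v ∈ sᶜ, (sgnV (insert v s) v : ℝ) * y (insert v s)
  map_add' a b := by
    funext s
    change ∑ v ∈ sᶜ, (sgnV (insert v s) v : ℝ) * (a (insert v s) + b (insert v s)) =
      ∑ v ∈ sᶜ, (sgnV (insert v s) v : ℝ) * a (insert v s) +
        ∑ v ∈ sᶜ, (sgnV (insert v s) v : ℝ) * b (insert v s)
    rw [← Finset.sum_add_distrib]
    exact Finset.sum_congr rfl fun v _ => mul_add _ _ _
  map_smul' r a := by
    funext s
    change _ = r * _
    rw [Finset.mul_sum]
    refine Finset.sum_congr rfl fun v _ => ?_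
    change _ * (r * a (insert v s)) = _
    ring

/-- the chains of the link -/
def BB5_sup (V : Type v) (K : Finset V → Prop) (q : ℕ) : Submodule ℝ (Finset V → ℝ) where
  carrier := {y | ∀ s : Finset V, ¬ (K s ∧ s.card = q) → y s = 0}
  add_mem' := by
    intro a b ha hb s h
    change a s + b s = 0
    rw [ha s h, hb s h, add_zero]
  zero_mem' := fun s _ => rfl
  smul_mem' := by
    intro r a ha s h
    change r * a s = 0
    rw [ha s h, mul_zero]

theorem BB5_lin {V : Type v} [Fintype V] [DecidableEq V] (l : (Finset V → ℝ) →ₗ[ℝ] ℝ) (y : Finset V → ℝ) :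
    l y = ∑ s : Finset V, l (Pi.single s 1) * y s := by
  classical
  conv_lhs => rw [← Finset.univ_sum_single y]
  rw [map_sum]
  refine Finset.sum_congr rfl fun s _ => ?_
  have h : (Pi.single s (y s) : Finset V → ℝ) = y s • Pi.single s 1 := by
    rw [← Pi.single_smul', smul_eq_mul, mul_one]
  rw [h, map_smul, smul_eq_mul, mul_comm]

theorem rac_of_HV {V : Type v} [Fintype V] [LinearOrder V] {Γ : Type v'} [Group Γ]
    (R : FreeRes.{u, v'} Γ) (φ : Γ →* ℝˣ) (S : CSys.{v, w} V) [∀ σ, MulAction Γ (S.Q σ)]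
    (hS : ∀ (g : Γ) {σ τ : Finset V} (h : σ ⊆ τ) (x : S.Q σ), S.pr h (g • x) = g • S.pr h x)
    (Lc : Finset V → Prop) (hdown : ∀ s t, s ⊆ t → Lc t → Lc s)
    (hempty : Lc ∅) [Nonempty (S.Q ∅)] (hD : DExact S Lc (RCh φ))
    (hM : ∀ n, HV (MonoidHom.id Γ) R (RCh φ) n)
    (ρ : Finset V) (hρ : Lc ρ) (x₀ : S.Q ρ) (hx₀ : ∀ g : Γ, g • x₀ = x₀ → φ g = 1)
    (hlarge : ∀ σ, Lc σ → ρ.card < σ.card → ∀ p, HV (MonoidHom.id Γ) R (TW (S.Q σ) (RCh φ)) p)
    (hsmall : ∀ σ, Lc σ → σ.card < ρ.card →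
      (∀ p, HV (MonoidHom.id Γ) R (TW (S.Q σ) (RCh φ)) p) ∨ ∀ q, RAc (lk Lc σ) q)
    (q : ℕ) : RAc (lk Lc ρ) q := by
  classical
  intro z hz hzc
  by_contra hno
  have hzP : z ∉ (BB5_sup V (lk Lc ρ) (q + 1)).map (BB5_dd V) := by
    rintro ⟨y, hy, hyz⟩
    exact hno ⟨y, hy, fun s => congrFun hyz s⟩
  obtain ⟨l, hl1, hl2⟩ := BB5_sep _ z hzP
  obtain ⟨c₀, hc₀⟩ := R.eps_surj
  obtain ⟨lam, hlam, hlam1, hlamr⟩ := BB5_functional φ x₀ hx₀
  obtain ⟨f₀, hf₀, hf₀'⟩ := BB5_chain R _ c₀ lam hlam hlam1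
  obtain ⟨Aug, hA1, hA2⟩ := exists_aug R
  -- the chain `u`
  obtain ⟨u, hu0, hu0', hu1⟩ : ∃ u : ∀ p, R.X p → CC S (RCh φ),
      (∀ y τ, u 0 y ρ τ = if ρ ⊆ τ then (z (τ \ ρ)) • (show S.Q ρ →₀ RCh φ from f₀ y) else 0) ∧
      (∀ y σ τ, σ ≠ ρ → u 0 y σ τ = 0) ∧ ∀ p y, u (p + 1) y = 0 := by
    refine ⟨fun p => match p with
      | 0 => fun y => Pi.single ρ
          (fun τ => if ρ ⊆ τ then (z (τ \ ρ)) • (show S.Q ρ →₀ RCh φ from f₀ y) else 0)
      | p + 1 => fun _ => 0, ?_, ?_, ?_⟩
    · intro y τ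
      exact congrFun (Pi.single_eq_same (M := fun σ => ∀ _τ : Finset V, S.Q σ →₀ RCh φ) ρ _) τ
    · intro y σ τ h
      exact congrFun (Pi.single_eq_of_ne (M := fun σ => ∀ _τ : Finset V, S.Q σ →₀ RCh φ) h _) τ
    · intro p y
      rfl
  have hlkd : ∀ s t, s ⊆ t → lk Lc ρ t → lk Lc ρ s := KEng_lk_down hdown ρ
  have huTC : KEng_TC R S Lc q ρ.card u := by
    constructor
    · intro p g x
      cases p with
      | zero =>
        funext σ τ
        by_cases h : σ = ρ
        · subst h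
          rw [hu0, hu0]
          split_ifs with h1
          · have h2 : f₀ (g • x) = g • f₀ x := hf₀ g x
            rw [h2]
            exact (smul_comm g (z (τ \ σ)) (f₀ x)).symm
          · exact (map_zero (twAct g)).symm
        · rw [hu0' _ _ _ h, hu0' _ _ _ h]
          exact (map_zero (twAct g)).symm
      | succ p =>
        rw [hu1, hu1]
        funext σ τ
        exact (map_zero (twAct g)).symm
    · intro p x σ τ h
      cases p with
      | zero =>
        by_cases h0 : σ = ρ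
        · subst h0
          rw [hu0]
          split_ifs with h1
          · rw [hz, zero_smul]
            rintro ⟨h2, h3⟩
            refine h ⟨h1, ?_, by omega, le_rfl⟩
            have := h2.2
            rwa [Finset.union_sdiff_of_subset h1] at this
          · rfl
        · exact hu0' _ _ _ h0
      | succ p =>
        rw [hu1]
        rfl
  have hbdu : ∀ p y σ τ, σ.card ≤ ρ.card → KEng_bd R S u p y σ τ = 0 := by
    intro p y σ τ hσ
    by_cases hστ : σ ⊆ τ
    swap
    · rw [KEng_bd_eval, KEng_bdM_zero R p _ (fun x => by rw [hu1]; rfl), zero_add, K9_cd_neg S _ hστ,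
        smul_zero]
    rw [KEng_bd_eval, KEng_bdM_zero R p _ (fun x => by rw [hu1]; rfl), zero_add]
    cases p with
    | succ p =>
      rw [hu1]
      have : cd S (0 : CC S (RCh φ)) = 0 := (KEng_cdHom S (RCh φ)).map_zero
      rw [this]
      exact smul_zero _
    | zero =>
      have hlow : ∀ v ∈ σ, u 0 y (σ.erase v) τ = 0 := by
        intro v hv
        refine hu0' _ _ _ fun h => ?_
        rw [← h] at hσ
        have := Finset.card_erase_lt_of_mem hv
        omega
      by_cases h : σ = ρ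
      · subst h
        rw [KEng_cd_low S (u 0 y) σ τ hστ hlow
          (fun s => z s • (show S.Q σ →₀ RCh φ from f₀ y)) (fun v hv => by
            rw [hu0, if_pos (hστ.trans (Finset.subset_insert v τ)),
              Finset.insert_sdiff_of_notMem _ (fun h => hv (hστ h))]) (fun v hv => by
            rw [hz, zero_smul]
            rintro ⟨h1, -⟩
            have := h1.1
            rw [Finset.disjoint_insert_right] at this
            exact this.1 hv)]
        have h1 : ∀ v ∈ (τ \ σ)ᶜ, sgnV (insert v (τ \ σ)) v •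
            (z (insert v (τ \ σ)) • (show S.Q σ →₀ RCh φ from f₀ y)) =
            ((sgnV (insert v (τ \ σ)) v : ℝ) * z (insert v (τ \ σ))) •
              (show S.Q σ →₀ RCh φ from f₀ y) := by
          intro v _
          rw [mul_smul, Int.cast_smul_eq_zsmul]
        rw [Finset.sum_congr rfl h1, ← Finset.sum_smul, hzc, zero_smul, smul_zero]
      · have h1 : cd S (u 0 y) σ τ = 0 := by
          rw [KEng_cd_low S (u 0 y) σ τ hστ hlow (fun s => 0) (fun v _ => hu0' _ _ _ h)
            (fun v _ => rfl)]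
          exact Finset.sum_eq_zero fun v _ => smul_zero _
        rw [h1, smul_zero]
  obtain ⟨S', hS', hS'bd⟩ : ∃ S' : ∀ p, R.X p → CC S (RCh φ),
      KEng_TC R S Lc q (ρ.card + 1) S' ∧ ∀ p y, KEng_bd R S S' p y = KEng_bd R S u p y := by
    rcases Nat.eq_zero_or_pos q with hq | hq
    · refine ⟨fun p y => 0, ⟨?_, ?_⟩, ?_⟩
      · intro p g x
        funext σ τ
        exact (map_zero (twAct g)).symm
      · intro p x σ τ _
        rfl
      · intro p y
        rw [KEng_bd_zero]
        funext σ τ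
        rw [KEng_bd_eval, KEng_bdM_zero R p _ (fun x => by rw [hu1]; rfl), zero_add]
        cases p with
        | zero =>
          have h1 : CSup Lc 0 (u 0 y) := by
            have := KEng_cSup R S huTC 0 y
            rwa [hq] at this
          rw [KEng_cd_zero S Lc _ h1]
          exact (smul_zero _).symm
        | succ p =>
          rw [hu1]
          have : cd S (0 : CC S (RCh φ)) = 0 := (KEng_cdHom S (RCh φ)).map_zero
          rw [this]
          exact (smul_zero _).symm
    · obtain ⟨q', rfl⟩ : ∃ q', q = q' + 1 := ⟨q - 1, by omega⟩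
      have h1 := KEng_bd_TC R S hS Lc hdown q' ρ.card u huTC
      have h2 : KEng_TC R S Lc q' (ρ.card + 1) (KEng_bd R S u) := by
        refine ⟨h1.eq, ?_⟩
        intro p x σ τ h
        by_cases h3 : σ ⊆ τ ∧ Lc τ ∧ p + (τ \ σ).card = q' ∧ ρ.card ≤ σ.card
        · refine hbdu p x σ τ ?_
          by_contra h4
          exact h ⟨h3.1, h3.2.1, h3.2.2.1, by omega⟩
        · exact h1.sup _ _ _ _ h3
      obtain ⟨S', hS', h3⟩ := KEng_iter R S hS Lc hdown q' (Fintype.card V) (ρ.card + 1)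
        (fun σ h1 h2 _ p _ _ => Or.inl (hlarge σ h1 (by omega) p)) _ h2
        (fun p y σ τ _ => by
          rw [KEng_bd_bd R S Lc hdown (q' + 1) ρ.card u huTC]
          rfl)
      refine ⟨S', hS', fun p y => ?_⟩
      have h4 : KEng_bd R S u p y - KEng_bd R S S' p y = 0 := by
        funext σ τ
        refine h3.sup p y σ τ ?_
        rintro ⟨-, -, -, h2⟩
        have := Finset.card_le_univ σ
        omega
      exact (sub_eq_zero.1 h4).symm
  -- the cycle `U`
  have hU : KEng_TC R S Lc q 0 (fun p y => u p y - S' p y) := by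
    constructor
    · intro p g x
      funext σ τ
      change u p (g • x) σ τ - S' p (g • x) σ τ = twAct g (u p x σ τ - S' p x σ τ)
      rw [huTC.eq, hS'.eq, map_sub]
    · intro p x σ τ h
      change u p x σ τ - S' p x σ τ = 0
      rw [huTC.sup _ _ _ _ (fun h' => h ⟨h'.1, h'.2.1, h'.2.2.1, Nat.zero_le _⟩),
        hS'.sup _ _ _ _ (fun h' => h ⟨h'.1, h'.2.1, h'.2.2.1, Nat.zero_le _⟩), sub_zero]
  obtain ⟨Y, hY, hYbd⟩ := tot_exact R (RCh φ) S hS Lc hdown hempty hD q (hM q) _ hU
    (fun p y => by rw [KEng_bd_sub, hS'bd, sub_self])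
  obtain ⟨Z, hZ, hY'⟩ := KEng_iter R S hS Lc hdown (q + 1) ρ.card 0
    (fun σ h1 _ h3 p q' _ => by
      rcases hsmall σ h1 (by omega) with h | h
      · exact Or.inl (h p)
      · exact Or.inr (h q')) Y hY
    (fun p y σ τ h => by
      rw [hYbd]
      change u p y σ τ - S' p y σ τ = 0
      rw [huTC.sup _ _ _ _ (fun h' => by have := h'.2.2.2; omega),
        hS'.sup _ _ _ _ (fun h' => by have := h'.2.2.2; omega), sub_zero])
  have hbd' : ∀ p y, KEng_bd R S (fun p y => Y p y - KEng_bd R S Z p y) p y =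
      u p y - S' p y := by
    intro p y
    rw [KEng_bd_sub, KEng_bd_bd R S Lc hdown (q + 1 + 1) 0 Z hZ, sub_zero, hYbd]
  rw [zero_add] at hY'
  generalize (fun p (y : R.X p) => Y p y - KEng_bd R S Z p y) = Y' at hY' hbd'
  -- evaluation
  let W : Finset V → R.X 1 → TW (S.Q ρ) (RCh φ) := fun s x =>
    if lk Lc ρ s then Y' 1 x ρ (ρ ∪ s) else 0
  let f : R.X 0 → Finset V → TW (S.Q ρ) (RCh φ) := fun y s =>
    if lk Lc ρ s then Y' 0 y ρ (ρ ∪ s) else 0
  have hWpos : ∀ s x, lk Lc ρ s → W s x = Y' 1 x ρ (ρ ∪ s) := fun s x h => if_pos h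
  have hWneg : ∀ s x, ¬ lk Lc ρ s → W s x = 0 := fun s x h => if_neg h
  have hfpos : ∀ y s, lk Lc ρ s → f y s = Y' 0 y ρ (ρ ∪ s) := fun y s h => if_pos h
  have hfneg : ∀ y s, ¬ lk Lc ρ s → f y s = 0 := fun y s h => if_neg h
  clear_value W f
  have key : ∀ y s, bdM R 0 (W s) y + ∑ v ∈ sᶜ, sgnV (insert v s) v • f y (insert v s) =
      z s • f₀ y := by
    intro y s
    by_cases hs : lk Lc ρ s
    · have hd : (ρ ∪ s) \ ρ = s := by
        rw [Finset.union_sdiff_left]
        exact Finset.sdiff_eq_self_of_disjoint hs.1.symm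
      have h1 := congrFun (congrFun (hbd' 0 y) ρ) (ρ ∪ s)
      rw [KEng_bd_eval] at h1
      have h2 : (u 0 y - S' 0 y) ρ (ρ ∪ s) = z s • (show S.Q ρ →₀ RCh φ from f₀ y) := by
        change u 0 y ρ (ρ ∪ s) - S' 0 y ρ (ρ ∪ s) = _
        rw [hS'.sup _ _ _ _ (fun h' => by have := h'.2.2.2; omega), sub_zero, hu0,
          if_pos Finset.subset_union_left, hd]
      rw [h2, pow_zero, one_smul] at h1
      rw [KEng_cd_low S (Y' 0 y) ρ (ρ ∪ s) Finset.subset_union_left (fun v hv => by
          refine hY'.sup _ _ _ _ ?_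
          rintro ⟨-, -, -, h5⟩
          have := Finset.card_erase_lt_of_mem hv
          omega) (f y) (fun v hv => by
          rw [hd]
          have e1 : insert v (ρ ∪ s) = ρ ∪ insert v s := (Finset.union_insert v ρ s).symm
          rw [e1]
          by_cases h5 : lk Lc ρ (insert v s)
          · exact (hfpos _ _ h5).symm
          · refine (hY'.sup _ _ _ _ ?_).trans (hfneg _ _ h5).symm
            rintro ⟨-, h6, -, -⟩
            refine h5 ⟨?_, h6⟩
            rw [Finset.disjoint_insert_right]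
            exact ⟨fun h7 => hv (Finset.mem_union_left _ h7), hs.1⟩) (fun v hv => by
          refine hfneg _ _ ?_
          rintro ⟨h5, -⟩
          rw [Finset.disjoint_insert_right] at h5
          exact h5.1 hv)] at h1
      rw [hd] at h1
      have e2 : W s = fun x => Y' 1 x ρ (ρ ∪ s) := funext fun x => hWpos s x hs
      rw [e2]
      exact h1
    · have e1 : ∀ x, W s x = 0 := fun x => hWneg s x hs
      rw [KEng_bdM_zero R 0 _ e1, zero_add, hz s (fun h => hs h.1), zero_smul]
      refine Finset.sum_eq_zero fun v _ => ?_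
      rw [hfneg y _ (fun h => hs (hlkd _ _ (Finset.subset_insert v s) h)), smul_zero]
  -- the invariant function `b`
  let b : R.X 1 → ℝ := fun x => ∑ s : Finset V, l (Pi.single s 1) * lam (W s x)
  have hb : ∀ (g : Γ) x, b (g • x) = b x := by
    intro g x
    refine Finset.sum_congr rfl fun s _ => ?_
    by_cases hs : lk Lc ρ s
    · rw [hWpos s _ hs, hWpos s _ hs]
      have h1 : Y' 1 (g • x) ρ (ρ ∪ s) = twAct g (Y' 1 x ρ (ρ ∪ s)) := by
        rw [hY'.eq]
      rw [h1]
      have h2 := hlam g (show TW (S.Q ρ) (RCh φ) from Y' 1 x ρ (ρ ∪ s))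
      rw [← h2]
      rfl
    · rw [hWneg s _ hs, hWneg s _ hs]
  have hbdb : bdM R 0 b = fun y => ∑ᶠ g : Γ, ((c₀ (g • y) : ℤ) : ℝ) := by
    funext y
    have h1 : bdM R 0 b y = ∑ s : Finset V, l (Pi.single s 1) * lam (bdM R 0 (W s) y) := by
      let Lam : (Finset V → TW (S.Q ρ) (RCh φ)) →+ ℝ :=
        { toFun := fun F => ∑ s : Finset V, l (Pi.single s 1) * lam (F s)
          map_zero' := Finset.sum_eq_zero fun s _ => by
            rw [Pi.zero_apply, map_zero, mul_zero]
          map_add' := fun F F' => by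
            rw [← Finset.sum_add_distrib]
            refine Finset.sum_congr rfl fun s _ => ?_
            rw [Pi.add_apply, map_add, mul_add] }
      have h2 := bdM_map R 0 Lam (fun x s => W s x) y
      rw [show bdM R 0 b y = bdM R 0 (fun x => Lam (fun s => W s x)) y from rfl, h2]
      refine Finset.sum_congr rfl fun s _ => ?_
      have h3 := bdM_map R 0 (Pi.evalAddMonoidHom (fun _ : Finset V => TW (S.Q ρ) (RCh φ)) s)
        (fun x s => W s x) y
      change _ * lam ((bdM R 0 (fun x s => W s x) y) s) = _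
      rw [show (bdM R 0 (fun x s => W s x) y) s =
        Pi.evalAddMonoidHom (fun _ : Finset V => TW (S.Q ρ) (RCh φ)) s
          (bdM R 0 (fun x s => W s x) y) from rfl, ← h3]
      rfl
    rw [h1, ← hf₀']
    have h4 : ∀ s, lam (bdM R 0 (W s) y) = z s * lam (f₀ y) -
        ∑ v ∈ sᶜ, (sgnV (insert v s) v : ℝ) * lam (f y (insert v s)) := by
      intro s
      have h5 := congrArg lam (key y s)
      rw [map_add, map_sum] at h5
      have h6 : lam (z s • f₀ y) = z s * lam (f₀ y) := hlamr _ _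
      rw [h6] at h5
      rw [← h5]
      have h7 : ∀ v ∈ sᶜ, lam (sgnV (insert v s) v • f y (insert v s)) =
          (sgnV (insert v s) v : ℝ) * lam (f y (insert v s)) := by
        intro v _
        rw [map_zsmul, zsmul_eq_mul]
      rw [Finset.sum_congr rfl h7]
      ring
    simp only [h4, mul_sub]
    rw [Finset.sum_sub_distrib]
    have h8 : ∑ s : Finset V, l (Pi.single s 1) *
        ∑ v ∈ sᶜ, (sgnV (insert v s) v : ℝ) * lam (f y (insert v s)) = 0 := by
      have h9 := hl2 (BB5_dd V (fun s => lam (f y s))) ⟨fun s => lam (f y s), ?_, rfl⟩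
      · rw [BB5_lin] at h9
        exact h9
      · intro s hs
        change lam (f y s) = 0
        by_cases h10 : lk Lc ρ s
        · rw [hfpos _ _ h10]
          have h11 : Y' 0 y ρ (ρ ∪ s) = 0 := by
            refine hY'.sup _ _ _ _ ?_
            rintro ⟨-, -, h12, -⟩
            have hd : (ρ ∪ s) \ ρ = s := by
              rw [Finset.union_sdiff_left]
              exact Finset.sdiff_eq_self_of_disjoint h10.1.symm
            rw [hd] at h12
            exact hs ⟨h10, by omega⟩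
          rw [h11]
          exact map_zero lam
        · rw [hfneg _ _ h10, map_zero]
    rw [h8, sub_zero]
    have h13 : ∑ s : Finset V, l (Pi.single s 1) * (z s * lam (f₀ y)) = l z * lam (f₀ y) := by
      rw [BB5_lin l z, Finset.sum_mul]
      exact Finset.sum_congr rfl fun s _ => (mul_assoc _ _ _).symm
    rw [h13, hl1, one_mul]
  have h14 := hA1 b hb
  rw [hbdb, hA2, hc₀] at h14
  norm_num at h14

end GP

end OS
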