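import Mathlib
import Pool.Agent.Lib.MP_8fe54c_gt.GPDefs

set_option autoImplicit false

/-!
# Graph products: basic facts
-/

namespace OS

namespace GP

open Finsupp MulOpposite

universe u v w u' v' w'

section gp

variable {V : Type v} {L : SimpleGraph V} {G : V → Type w} [∀ v, Group (G v)]

theorem gof_comm {u v : V} (h : L.Adj u v) (a : G u) (b : G v) :
    Commute (gof (L := L) (G := G) u a) (gof v b) := by
  have h1 : (QuotientGroup.mk' (Subgroup.normalClosure (gpRels L G)))
      (Monoid.CoprodI.of a * Monoid.CoprodI.of b * (Monoid.CoprodI.of a)⁻¹ *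
      (Monoid.CoprodI.of b)⁻¹) = 1 := by
    rw [← MonoidHom.mem_ker, QuotientGroup.ker_mk']
    exact Subgroup.subset_normalClosure ⟨u, v, h, a, b, rfl⟩
  rw [map_mul, map_mul, map_mul, map_inv, map_inv] at h1
  have h2 := mul_inv_eq_one.1 h1
  exact mul_inv_eq_iff_eq_mul.1 h2

theorem exists_glift {P : Type*} [Group P] (f : ∀ v, G v →* P)
    (hf : ∀ u v, L.Adj u v → ∀ a b, Commute (f u a) (f v b)) :
    ∃ F : GraphProd L G →* P, ∀ v a, F (gof v a) = f v a := by
  refine ⟨QuotientGroup.lift (Subgroup.normalClosure (gpRels L G)) (Monoid.CoprodI.lift f) ?_,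
    fun v a => ?_⟩
  · intro x hx
    have h1 : Subgroup.normalClosure (gpRels L G) ≤ (Monoid.CoprodI.lift f).ker := by
      refine Subgroup.normalClosure_le_normal ?_
      rintro x ⟨u, v, h, a, b, rfl⟩
      change (Monoid.CoprodI.lift f) _ = 1
      rw [map_mul, map_mul, map_mul, map_inv, map_inv, Monoid.CoprodI.lift_of,
        Monoid.CoprodI.lift_of, (hf u v h a b).eq]
      group
    exact h1 hx
  · change (Monoid.CoprodI.lift f) (Monoid.CoprodI.of a) = f v a
    rw [Monoid.CoprodI.lift_of]

theorem gp_induction {C : GraphProd L G → Prop} (h1 : C 1) (hof : ∀ v a, C (gof v a))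
    (hmul : ∀ x y, C x → C y → C (x * y)) (x : GraphProd L G) : C x := by
  obtain ⟨y, rfl⟩ := QuotientGroup.mk'_surjective (Subgroup.normalClosure (gpRels L G)) x
  induction y using Monoid.CoprodI.induction_on with
  | one => rw [map_one]; exact h1
  | of v a => exact hof v a
  | mul a b ha hb => rw [map_mul]; exact hmul _ _ ha hb

theorem mem_sgp_gof {S : Set V} {v : V} (hv : v ∈ S) (a : G v) :
    gof (L := L) (G := G) v a ∈ sgp L G S :=
  (le_iSup (fun v : S => (gof (L := L) (G := G) v.1).range) ⟨v, hv⟩) ⟨a, rfl⟩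

theorem sgp_induction {S : Set V} {C : GraphProd L G → Prop} (h1 : C 1)
    (hof : ∀ v ∈ S, ∀ a, C (gof v a)) (hmul : ∀ x y, C x → C y → C (x * y))
    {x : GraphProd L G} (hx : x ∈ sgp L G S) : C x := by
  refine Subgroup.iSup_induction (C := C) (fun v : S => (gof (L := L) (G := G) v.1).range) hx
    ?_ h1 hmul
  rintro ⟨v, hv⟩ _ ⟨a, rfl⟩
  exact hof v hv a

theorem sgp_univ : sgp L G Set.univ = ⊤ := by
  rw [eq_top_iff]
  intro x _
  exact gp_induction (C := fun x => x ∈ sgp L G Set.univ) (one_mem _)
    (fun v a => mem_sgp_gof (Set.mem_univ v) a) (fun x y hx hy => mul_mem hx hy) x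

theorem gof_inj (v : V) : Function.Injective (gof (L := L) (G := G) v) := by
  classical
  obtain ⟨F, hF⟩ := exists_glift (L := L) (G := G) (P := G v)
    (fun u => if h : u = v then h ▸ MonoidHom.id (G u) else 1) (by
      intro u w huw a b
      by_cases hu : u = v
      · subst hu
        have hw : w ≠ u := fun h => (huw.ne h.symm).elim
        rw [dif_neg hw]
        exact Commute.one_right _
      · rw [dif_neg hu]
        exact Commute.one_left _)
  intro a b hab
  have h1 := hF v a
  have h2 := hF v b
  rw [dif_pos rfl] at h1 h2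
  have h3 : a = F (gof v a) := h1.symm
  have h4 : b = F (gof v b) := h2.symm
  rw [h3, h4, hab]

/-- the retraction to the subgroup of a set of vertices -/
theorem exists_retr (S : Set V) : ∃ r : GraphProd L G →* GraphProd L G,
    (∀ x ∈ sgp L G S, r x = x) ∧ (∀ x, r x ∈ sgp L G S) ∧
      ∀ T : Set V, ∀ x ∈ sgp L G T, r x ∈ sgp L G (S ∩ T) := by
  classical
  obtain ⟨r, hr⟩ := exists_glift (L := L) (G := G) (P := GraphProd L G)
    (fun u => if u ∈ S then gof u else 1) (by
      intro u w huw a b
      by_cases hu : u ∈ S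
      · by_cases hw : w ∈ S
        · rw [if_pos hu, if_pos hw]
          exact gof_comm huw a b
        · rw [if_neg hw]
          exact Commute.one_right _
      · rw [if_neg hu]
        exact Commute.one_left _)
  refine ⟨r, ?_, ?_, ?_⟩
  · intro x hx
    refine sgp_induction (C := fun x => r x = x) (map_one r) ?_ ?_ hx
    · intro v hv a
      rw [hr, if_pos hv]
    · intro x y hx hy
      rw [map_mul, hx, hy]
  · intro x
    refine gp_induction (C := fun x => r x ∈ sgp L G S) ?_ ?_ ?_ x
    · rw [map_one]
      exact one_mem _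
    · intro v a
      rw [hr]
      by_cases hv : v ∈ S
      · rw [if_pos hv]
        exact mem_sgp_gof hv a
      · rw [if_neg hv]
        exact one_mem _
    · intro x y hx hy
      rw [map_mul]
      exact mul_mem hx hy
  · intro T x hx
    refine sgp_induction (C := fun x => r x ∈ sgp L G (S ∩ T)) ?_ ?_ ?_ hx
    · rw [map_one]
      exact one_mem _
    · intro v hv a
      rw [hr]
      by_cases hv' : v ∈ S
      · rw [if_pos hv']
        exact mem_sgp_gof (show v ∈ S ∩ T from ⟨hv', hv⟩) a
      · rw [if_neg hv']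
        exact one_mem _
    · intro x y hx hy
      rw [map_mul]
      exact mul_mem hx hy

theorem K15_sgp_mono {S T : Set V} (h : S ⊆ T) : sgp L G S ≤ sgp L G T := by
  refine iSup_le fun v => ?_
  exact le_iSup (fun v : T => (gof (L := L) (G := G) v.1).range) ⟨v.1, h v.2⟩

theorem sgp_inf (S T : Set V) : sgp L G S ⊓ sgp L G T = sgp L G (S ∩ T) := by
  apply le_antisymm
  · rintro x ⟨hS, hT⟩
    obtain ⟨r, h1, -, h3⟩ := exists_retr (L := L) (G := G) S
    have := h3 T x hT
    rwa [h1 x hS] at this
  · exact le_inf (K15_sgp_mono Set.inter_subset_left) (K15_sgp_mono Set.inter_subset_right)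

theorem sgp_commute {S T : Set V} (h : ∀ u ∈ S, ∀ v ∈ T, L.Adj u v) {x y : GraphProd L G}
    (hx : x ∈ sgp L G S) (hy : y ∈ sgp L G T) : Commute x y := by
  refine sgp_induction (C := fun x => Commute x y) (Commute.one_left _) ?_
    (fun _ _ => Commute.mul_left) hx
  intro u hu a
  refine sgp_induction (C := fun y => Commute (gof u a) y) (Commute.one_right _) ?_
    (fun _ _ => Commute.mul_right) hy
  intro v hv b
  exact gof_comm (h u hu v hv) a b

theorem exists_clique (σ : Finset V) (hσ : L.IsClique (σ : Set V)) :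
    ∃ φ : (∀ v : σ, G v.1) →* GraphProd L G, Function.Injective φ ∧
      φ.range = sgp L G (σ : Set V) := by
  classical
  have hcomm : Pairwise fun u v : σ => ∀ (x : G u.1) (y : G v.1),
      Commute (gof (L := L) (G := G) u.1 x) (gof v.1 y) := by
    intro u v huv x y
    exact gof_comm (hσ u.2 v.2 fun h => huv (Subtype.ext h)) x y
  set φ : (∀ v : σ, G v.1) →* GraphProd L G :=
    MonoidHom.noncommPiCoprod (fun v : σ => gof (L := L) (G := G) v.1) hcomm with hφ
  refine ⟨φ, ?_, ?_⟩
  · -- retraction to the product of the vertex groups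
    obtain ⟨F, hF⟩ := exists_glift (L := L) (G := G) (P := ∀ v : σ, G v.1)
      (fun u => if h : u ∈ σ then MonoidHom.mulSingle (fun v : σ => G v.1) ⟨u, h⟩ else 1) (by
        intro u w huw a b
        by_cases hu : u ∈ σ
        · by_cases hw : w ∈ σ
          · rw [dif_pos hu, dif_pos hw]
            have hne : (⟨u, hu⟩ : σ) ≠ ⟨w, hw⟩ := fun h => huw.ne (congrArg Subtype.val h)
            exact Pi.mulSingle_commute (f := fun v : σ => G v.1) hne a b
          · rw [dif_neg hw]
            exact Commute.one_right _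
        · rw [dif_neg hu]
          exact Commute.one_left _)
    have hcomp : F.comp φ = MonoidHom.id _ := by
      apply MonoidHom.pi_ext
      intro v x
      rw [MonoidHom.comp_apply, hφ, MonoidHom.noncommPiCoprod_mulSingle, hF, dif_pos v.2]
      rfl
    intro a b hab
    have h1 := DFunLike.congr_fun hcomp a
    have h2 := DFunLike.congr_fun hcomp b
    rw [MonoidHom.comp_apply, hab] at h1
    rw [MonoidHom.comp_apply] at h2
    exact h1.symm.trans h2
  · rw [hφ, MonoidHom.noncommPiCoprod_range]
    rfl

end gp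

/-- the coset system of a graph product -/
def gpSys {V : Type v} (L : SimpleGraph V) (G : V → Type w) [∀ v, Group (G v)] :
    CSys.{v, max v w} V := cosSys _ (sgp_mono L G)

end GP

end OS
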