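import Mathlib
import Pool.Agent.Lib.MP_8fe54c_gt.GPGrp

/-!
# K16: the Bass-Serre tree of a graph product, in algebraic form
-/

set_option autoImplicit false

namespace OS

namespace GP

open Finsupp MulOpposite

universe u v w u' v' w'

section K16

variable {A : Type*} [AddCommGroup A]

/-- integral chains times a coefficient -/
noncomputable def K16_ten {Y : Type*} (a : A) : (Y →₀ ℤ) →+ (Y →₀ A) :=
  Finsupp.mapRange.addMonoidHom ((zmultiplesHom A) a)

theorem K16_ten_apply {Y : Type*} (a : A) (f : Y →₀ ℤ) (y : Y) : K16_ten a f y = f y • a := by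
  simp [K16_ten]

theorem K16_ten_single {Y : Type*} (a : A) (y : Y) :
    K16_ten a (single y (1 : ℤ)) = single y a := by
  classical
  ext y'
  rw [K16_ten_apply, single_apply, single_apply]
  split_ifs
  · rw [one_smul]
  · rw [zero_smul]

theorem K16_ten_map {Y Z : Type*} (a : A) (p : Y → Z) (f : Y →₀ ℤ) :
    mapDomain p (K16_ten a f) = K16_ten a (mapDomain p f) := by
  unfold K16_ten
  rw [Finsupp.mapRange.addMonoidHom_apply, Finsupp.mapRange.addMonoidHom_apply]
  exact mapDomain_mapRange p f _ (map_zero _) (map_add _)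

/-- the extension of a function to chains with coefficients in `A` -/
noncomputable def K16_ext {X Y : Type*} (F : X → (Y →₀ ℤ)) : (X →₀ A) →+ (Y →₀ A) :=
  Finsupp.liftAddHom fun x =>
    { toFun := fun a => K16_ten a (F x)
      map_zero' := by
        ext y
        rw [K16_ten_apply, smul_zero]
        rfl
      map_add' := by
        intro a b
        ext y
        rw [Finsupp.add_apply, K16_ten_apply, K16_ten_apply, K16_ten_apply, smul_add] }

theorem K16_ext_single {X Y : Type*} (F : X → (Y →₀ ℤ)) (x : X) (a : A) :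
    K16_ext F (single x a) = K16_ten a (F x) := by
  rw [K16_ext, liftAddHom_apply_single]
  rfl

theorem K16_ext_map {X X' Y : Type*} (F : X' → (Y →₀ ℤ)) (q : X → X') (u : X →₀ A) :
    K16_ext F (mapDomain q u) = K16_ext (fun x => F (q x)) u := by
  induction u using Finsupp.induction_linear with
  | zero => rw [mapDomain_zero, map_zero, map_zero]
  | add f g hf hg => rw [mapDomain_add, map_add, map_add, hf, hg]
  | single x a => rw [mapDomain_single, K16_ext_single, K16_ext_single]

theorem K16_map_ext {X Y Z : Type*} (F : X → (Y →₀ ℤ)) (p : Y → Z) (u : X →₀ A) :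
    mapDomain p (K16_ext F u) = K16_ext (fun x => mapDomain p (F x)) u := by
  induction u using Finsupp.induction_linear with
  | zero => rw [map_zero, map_zero, mapDomain_zero]
  | add f g hf hg => rw [map_add, map_add, mapDomain_add, hf, hg]
  | single x a => rw [K16_ext_single, K16_ext_single, K16_ten_map]

theorem K16_ext_add {X Y : Type*} (F F' : X → (Y →₀ ℤ)) (u : X →₀ A) :
    K16_ext (fun x => F x + F' x) u = K16_ext F u + K16_ext F' u := by
  induction u using Finsupp.induction_linear with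
  | zero => simp only [map_zero, add_zero]
  | add f g hf hg => rw [map_add, map_add, map_add, hf, hg]; abel
  | single x a => simp only [K16_ext_single, map_add]

theorem K16_ext_sub {X Y : Type*} (F F' : X → (Y →₀ ℤ)) (u : X →₀ A) :
    K16_ext (fun x => F x - F' x) u = K16_ext F u - K16_ext F' u := by
  induction u using Finsupp.induction_linear with
  | zero => simp only [map_zero, sub_zero]
  | add f g hf hg => rw [map_add, map_add, map_add, hf, hg]; abel
  | single x a => simp only [K16_ext_single, map_sub]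

theorem K16_ext_one {X : Type*} (u : X →₀ A) :
    K16_ext (fun x => single x (1 : ℤ)) u = u := by
  induction u using Finsupp.induction_linear with
  | zero => simp only [map_zero]
  | add f g hf hg => rw [map_add, hf, hg]
  | single x a => rw [K16_ext_single, K16_ten_single]

/-- a tree from a system of maps -/
theorem K16_tree_of_maps {X₀ X₁ X₂ X : Type*} (p₁ : X₀ → X₁) (p₂ : X₀ → X₂)
    (q₁ : X₁ → X) (q₂ : X₂ → X) (P₁ : X₁ → (X₀ →₀ ℤ)) (P₂ : X₂ → (X₀ →₀ ℤ))
    (G₁ : X → (X₂ →₀ ℤ)) (G₂ : X → (X₁ →₀ ℤ))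
    (h0 : ∀ x, P₁ (p₁ x) - P₂ (p₂ x) = single x 1)
    (h1 : ∀ y, mapDomain p₁ (P₁ y) = G₂ (q₁ y) + single y 1)
    (h2 : ∀ z, mapDomain p₁ (P₂ z) = G₂ (q₂ z))
    (h3 : ∀ y, mapDomain p₂ (P₁ y) = G₁ (q₁ y))
    (h4 : ∀ z, mapDomain p₂ (P₂ z) = G₁ (q₂ z) - single z 1) :
    TreeEx A p₁ p₂ q₁ q₂ := by
  constructor
  · intro x hx1 hx2
    have e1 : K16_ext (fun x => P₁ (p₁ x) - P₂ (p₂ x)) x = x := by
      simp only [h0]
      exact K16_ext_one x
    rw [K16_ext_sub (fun x => P₁ (p₁ x)) (fun x => P₂ (p₂ x)), ← K16_ext_map P₁ p₁ x,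
      ← K16_ext_map P₂ p₂ x, hx1, hx2, map_zero, map_zero, sub_zero] at e1
    exact e1.symm
  · intro a b hab
    refine ⟨K16_ext P₁ a - K16_ext P₂ b, ?_, ?_⟩
    · have e1 : mapDomain p₁ (K16_ext P₁ a - K16_ext P₂ b)
          = mapDomain p₁ (K16_ext P₁ a) - mapDomain p₁ (K16_ext P₂ b) :=
        map_sub (mapDomain.addMonoidHom p₁) _ _
      rw [e1, K16_map_ext, K16_map_ext]
      simp only [h1, h2]
      rw [K16_ext_add (fun y => G₂ (q₁ y)) (fun y => single y 1), K16_ext_one,
        ← K16_ext_map G₂ q₁ a, ← K16_ext_map G₂ q₂ b, hab]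
      abel
    · have e1 : mapDomain p₂ (K16_ext P₁ a - K16_ext P₂ b)
          = mapDomain p₂ (K16_ext P₁ a) - mapDomain p₂ (K16_ext P₂ b) :=
        map_sub (mapDomain.addMonoidHom p₂) _ _
      rw [e1, K16_map_ext, K16_map_ext]
      simp only [h3, h4]
      rw [K16_ext_sub (fun z => G₁ (q₂ z)) (fun z => single z 1), K16_ext_one,
        ← K16_ext_map G₁ q₁ a, ← K16_ext_map G₁ q₂ b, hab]
      abel

end K16

section K16b

variable {Γ : Type*} [Group Γ]

/-- translation of integral chains on cosets -/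
noncomputable def K16_tr {Q : Type*} [MulAction Γ Q] (g : Γ) : (Q →₀ ℤ) →+ (Q →₀ ℤ) :=
  mapDomain.addMonoidHom (fun q => g • q)

theorem K16_tr_single {Q : Type*} [MulAction Γ Q] (g : Γ) (q : Q) (c : ℤ) :
    K16_tr g (single q c) = single (g • q) c := mapDomain_single

theorem K16_tr_one {Q : Type*} [MulAction Γ Q] (x : Q →₀ ℤ) : K16_tr (1 : Γ) x = x := by
  change mapDomain _ x = x
  simp only [one_smul]
  exact mapDomain_id

theorem K16_tr_mul {Q : Type*} [MulAction Γ Q] (g h : Γ) (x : Q →₀ ℤ) :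
    K16_tr (g * h) x = K16_tr g (K16_tr h x) := by
  change mapDomain _ x = mapDomain _ (mapDomain _ x)
  rw [← mapDomain_comp]
  congr 1
  funext q
  exact mul_smul g h q

theorem K16_map_tr {Q Q' : Type*} [MulAction Γ Q] [MulAction Γ Q'] (p : Q → Q')
    (hp : ∀ (g : Γ) q, p (g • q) = g • p q) (g : Γ) (x : Q →₀ ℤ) :
    mapDomain p (K16_tr g x) = K16_tr g (mapDomain p x) := by
  change mapDomain p (mapDomain _ x) = mapDomain _ (mapDomain p x)
  rw [← mapDomain_comp, ← mapDomain_comp]
  congr 1
  funext q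
  exact hp g q

/-- the abstract form -/
theorem K16_abs {A : Type*} [AddCommGroup A] {H₀ H₁ H₂ H : Subgroup Γ} (h01 : H₀ ≤ H₁)
    (h02 : H₀ ≤ H₂) (h1 : H₁ ≤ H) (h2 : H₂ ≤ H) (r : Γ → Γ) (hr : ∀ x y, r (x * y) = r x * r y)
    (hrH : ∀ h ∈ H, r h = h) (D : Γ → (Γ ⧸ H₀ →₀ ℤ))
    (hD : ∀ x y, D (x * y) = D x + K16_tr (r x) (D y)) (hD2 : ∀ h ∈ H₂, D h = 0)
    (hD1 : ∀ h ∈ H₁, D h = single ((1 : Γ) : Γ ⧸ H₀) 1 - single ((h : Γ) : Γ ⧸ H₀) 1)
    (hp1 : ∀ h ∈ H, mapDomain (Subgroup.quotientMapOfLE h01) (D h) = 0)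
    (hp2 : ∀ h ∈ H, mapDomain (Subgroup.quotientMapOfLE h02) (D h)
      = single ((1 : Γ) : Γ ⧸ H₂) 1 - single ((h : Γ) : Γ ⧸ H₂) 1) :
    TreeEx A (Subgroup.quotientMapOfLE h01) (Subgroup.quotientMapOfLE h02)
      (Subgroup.quotientMapOfLE h1) (Subgroup.quotientMapOfLE h2) := by
  have q01 : ∀ (g : Γ) (q : Γ ⧸ H₀), Subgroup.quotientMapOfLE h01 (g • q)
      = g • Subgroup.quotientMapOfLE h01 q := by
    intro g q
    induction q using QuotientGroup.induction_on with
    | H x => rfl
  have q02 : ∀ (g : Γ) (q : Γ ⧸ H₀), Subgroup.quotientMapOfLE h02 (g • q)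
      = g • Subgroup.quotientMapOfLE h02 q := by
    intro g q
    induction q using QuotientGroup.induction_on with
    | H x => rfl
  set geo : Γ → (Γ ⧸ H₀ →₀ ℤ) := fun g => K16_tr (g * (r g)⁻¹) (D g) with hgeo
  have hgm : ∀ g, ∀ h ∈ H, geo (g * h) = geo g + K16_tr g (D h) := by
    intro g h hh
    simp only [hgeo]
    rw [hr, hrH h hh, hD, map_add, ← K16_tr_mul]
    have e1 : g * h * (r g * h)⁻¹ = g * (r g)⁻¹ := by group
    rw [e1, inv_mul_cancel_right]
  -- the four maps
  have P1w : ∀ g h : Γ, g⁻¹ * h ∈ H₁ →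
      geo g + single ((g : Γ) : Γ ⧸ H₀) 1 = geo h + single ((h : Γ) : Γ ⧸ H₀) 1 := by
    intro g h hgh
    have e1 : h = g * (g⁻¹ * h) := by group
    rw [e1, hgm g _ (h1 hgh), hD1 _ hgh, map_sub, K16_tr_single, K16_tr_single]
    have e2 : g • ((1 : Γ) : Γ ⧸ H₀) = ((g : Γ) : Γ ⧸ H₀) := by
      change ((g * 1 : Γ) : Γ ⧸ H₀) = _
      rw [mul_one]
    have e3 : g • ((g⁻¹ * h : Γ) : Γ ⧸ H₀) = ((g * (g⁻¹ * h) : Γ) : Γ ⧸ H₀) := rfl
    rw [e2, e3]
    abel
  have P2w : ∀ g h : Γ, g⁻¹ * h ∈ H₂ → geo g = geo h := by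
    intro g h hgh
    have e1 : h = g * (g⁻¹ * h) := by group
    rw [e1, hgm g _ (h2 hgh), hD2 _ hgh, map_zero, add_zero]
  have G2w : ∀ g h : Γ, g⁻¹ * h ∈ H → mapDomain (Subgroup.quotientMapOfLE h01) (geo g)
      = mapDomain (Subgroup.quotientMapOfLE h01) (geo h) := by
    intro g h hgh
    have e1 : h = g * (g⁻¹ * h) := by group
    rw [e1, hgm g _ hgh, mapDomain_add, K16_map_tr _ q01 g (D (g⁻¹ * h)), hp1 _ hgh, map_zero,
      add_zero]
  have G1w : ∀ g h : Γ, g⁻¹ * h ∈ H → mapDomain (Subgroup.quotientMapOfLE h02) (geo g)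
      + single ((g : Γ) : Γ ⧸ H₂) 1
      = mapDomain (Subgroup.quotientMapOfLE h02) (geo h) + single ((h : Γ) : Γ ⧸ H₂) 1 := by
    intro g h hgh
    have e1 : h = g * (g⁻¹ * h) := by group
    rw [e1, hgm g _ hgh, mapDomain_add, K16_map_tr _ q02 g (D (g⁻¹ * h)), hp2 _ hgh, map_sub,
      K16_tr_single, K16_tr_single]
    have e2 : g • ((1 : Γ) : Γ ⧸ H₂) = ((g : Γ) : Γ ⧸ H₂) := by
      change ((g * 1 : Γ) : Γ ⧸ H₂) = _
      rw [mul_one]
    have e3 : g • ((g⁻¹ * h : Γ) : Γ ⧸ H₂) = ((g * (g⁻¹ * h) : Γ) : Γ ⧸ H₂) := rfl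
    rw [e2, e3]
    abel
  refine K16_tree_of_maps _ _ _ _
    (fun y => Quotient.liftOn' y (fun g : Γ => geo g + single ((g : Γ) : Γ ⧸ H₀) 1)
      (fun a b hab => P1w a b (QuotientGroup.leftRel_apply.mp hab)))
    (fun y => Quotient.liftOn' y geo
      (fun a b hab => P2w a b (QuotientGroup.leftRel_apply.mp hab)))
    (fun y => Quotient.liftOn' y (fun g : Γ => mapDomain (Subgroup.quotientMapOfLE h02) (geo g)
      + single ((g : Γ) : Γ ⧸ H₂) 1)
      (fun a b hab => G1w a b (QuotientGroup.leftRel_apply.mp hab)))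
    (fun y => Quotient.liftOn' y (fun g : Γ => mapDomain (Subgroup.quotientMapOfLE h01) (geo g))
      (fun a b hab => G2w a b (QuotientGroup.leftRel_apply.mp hab))) ?_ ?_ ?_ ?_ ?_
  · intro x
    induction x using QuotientGroup.induction_on with
    | H g =>
      change geo g + single ((g : Γ) : Γ ⧸ H₀) 1 - geo g = single ((g : Γ) : Γ ⧸ H₀) 1
      abel
  · intro x
    induction x using QuotientGroup.induction_on with
    | H g =>
      change mapDomain (Subgroup.quotientMapOfLE h01) (geo g + single ((g : Γ) : Γ ⧸ H₀) 1)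
        = mapDomain (Subgroup.quotientMapOfLE h01) (geo g) + single ((g : Γ) : Γ ⧸ H₁) 1
      rw [mapDomain_add, mapDomain_single]
      rfl
  · intro x
    induction x using QuotientGroup.induction_on with
    | H g => rfl
  · intro x
    induction x using QuotientGroup.induction_on with
    | H g =>
      change mapDomain (Subgroup.quotientMapOfLE h02) (geo g + single ((g : Γ) : Γ ⧸ H₀) 1)
        = mapDomain (Subgroup.quotientMapOfLE h02) (geo g) + single ((g : Γ) : Γ ⧸ H₂) 1
      rw [mapDomain_add, mapDomain_single]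
      rfl
  · intro x
    induction x using QuotientGroup.induction_on with
    | H g =>
      change mapDomain (Subgroup.quotientMapOfLE h02) (geo g)
        = mapDomain (Subgroup.quotientMapOfLE h02) (geo g) + single ((g : Γ) : Γ ⧸ H₂) 1
          - single ((g : Γ) : Γ ⧸ H₂) 1
      abel

/-- pairs of a group element and a chain -/
@[ext] structure K16_Aff (Γ : Type*) [Group Γ] (Q : Type*) [MulAction Γ Q] where
  /-- the linear part -/
  g : Γ
  /-- the translation -/
  m : Q →₀ ℤ

noncomputable instance K16_grp {Q : Type*} [MulAction Γ Q] : Group (K16_Aff Γ Q) :=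
  letI : Mul (K16_Aff Γ Q) := ⟨fun x y => ⟨x.g * y.g, x.m + K16_tr x.g y.m⟩⟩
  letI : One (K16_Aff Γ Q) := ⟨⟨1, 0⟩⟩
  letI : Inv (K16_Aff Γ Q) := ⟨fun x => ⟨x.g⁻¹, - K16_tr x.g⁻¹ x.m⟩⟩
  Group.ofLeftAxioms
    (by
      intro x y z
      refine K16_Aff.ext (mul_assoc _ _ _) ?_
      change x.m + K16_tr x.g y.m + K16_tr (x.g * y.g) z.m
        = x.m + K16_tr x.g (y.m + K16_tr y.g z.m)
      rw [map_add, K16_tr_mul, add_assoc])
    (by
      intro x
      refine K16_Aff.ext (one_mul _) ?_
      change 0 + K16_tr (1 : Γ) x.m = x.m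
      rw [K16_tr_one, zero_add])
    (by
      intro x
      refine K16_Aff.ext (inv_mul_cancel _) ?_
      change - K16_tr x.g⁻¹ x.m + K16_tr x.g⁻¹ x.m = 0
      rw [neg_add_cancel])

theorem K16_mul_g {Q : Type*} [MulAction Γ Q] (x y : K16_Aff Γ Q) : (x * y).g = x.g * y.g := rfl

theorem K16_mul_m {Q : Type*} [MulAction Γ Q] (x y : K16_Aff Γ Q) :
    (x * y).m = x.m + K16_tr x.g y.m := rfl

theorem K16_one_g {Q : Type*} [MulAction Γ Q] : (1 : K16_Aff Γ Q).g = 1 := rfl

theorem K16_one_m {Q : Type*} [MulAction Γ Q] : (1 : K16_Aff Γ Q).m = 0 := rfl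

theorem K16_smul_single {H₀ : Subgroup Γ} (g h : Γ) (c : ℤ) :
    K16_tr g (single ((h : Γ) : Γ ⧸ H₀) c) = single ((g * h : Γ) : Γ ⧸ H₀) c := by
  rw [K16_tr_single]
  rfl

theorem K16_coset_eq {H₀ : Subgroup Γ} {g h : Γ} (hh : h ∈ H₀) :
    ((g * h : Γ) : Γ ⧸ H₀) = ((g : Γ) : Γ ⧸ H₀) := by
  rw [QuotientGroup.eq]
  have : (g * h)⁻¹ * g = h⁻¹ := by group
  rw [this]
  exact H₀.inv_mem hh

end K16b

theorem gp_tree {V : Type v} [DecidableEq V] (L : SimpleGraph V) (G : V → Type w)
    [∀ v, Group (G v)] (A : Type*) [AddCommGroup A] (T : Finset V) (s t : V) (hs : s ∈ T)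
    (ht : t ∈ T) (hst : s ≠ t) (hadj : ¬ L.Adj s t) :
    TreeEx A ((gpSys L G).pr (Finset.erase_subset t (T.erase s)))
      ((gpSys L G).pr (show (T.erase s).erase t ⊆ T.erase t from
        Finset.erase_subset_erase _ (Finset.erase_subset s T)))
      ((gpSys L G).pr (Finset.erase_subset s T)) ((gpSys L G).pr (Finset.erase_subset t T)) := by
  classical
  set H₀ : Subgroup (GraphProd L G) := sgp L G (((T.erase s).erase t : Finset V) : Set V) with hH₀
  set H₁ : Subgroup (GraphProd L G) := sgp L G ((T.erase s : Finset V) : Set V) with hH₁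
  set H₂ : Subgroup (GraphProd L G) := sgp L G ((T.erase t : Finset V) : Set V) with hH₂
  set H : Subgroup (GraphProd L G) := sgp L G (T : Set V) with hH
  have h01 : H₀ ≤ H₁ := sgp_mono L G (Finset.erase_subset t (T.erase s))
  have h02 : H₀ ≤ H₂ := sgp_mono L G (show (T.erase s).erase t ⊆ T.erase t from
        Finset.erase_subset_erase _ (Finset.erase_subset s T))
  have h1 : H₁ ≤ H := sgp_mono L G (Finset.erase_subset s T)
  have h2 : H₂ ≤ H := sgp_mono L G (Finset.erase_subset t T)
  -- translation parts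
  set tp : ∀ v, G v → (GraphProd L G ⧸ H₀ →₀ ℤ) := fun v a =>
    if v = t then single ((1 : GraphProd L G) : GraphProd L G ⧸ H₀) 1
      - single ((gof (L := L) (G := G) v a : GraphProd L G) : GraphProd L G ⧸ H₀) 1 else 0
    with htp
  have htpt : ∀ a : G t, tp t a = single ((1 : GraphProd L G) : GraphProd L G ⧸ H₀) 1
      - single ((gof (L := L) (G := G) t a : GraphProd L G) : GraphProd L G ⧸ H₀) 1 := by
    intro a
    simp only [htp, if_true]
  have htpn : ∀ v, v ≠ t → ∀ a : G v, tp v a = 0 := by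
    intro v hv a
    simp only [htp, if_neg hv]
  let f : ∀ v, G v →* K16_Aff (GraphProd L G) (GraphProd L G ⧸ H₀) := fun v =>
    MonoidHom.mk' (fun a => if v ∈ T then ⟨gof v a, tp v a⟩ else 1) (by
      intro a b
      by_cases hv : v ∈ T
      · simp only [if_pos hv]
        refine K16_Aff.ext ?_ ?_
        · rw [K16_mul_g]
          exact map_mul _ a b
        · rw [K16_mul_m]
          change tp v (a * b) = tp v a + K16_tr (gof v a) (tp v b)
          by_cases hvt : v = t
          · subst hvt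
            rw [htpt, htpt, htpt, map_sub, K16_smul_single, K16_smul_single, mul_one, map_mul]
            abel
          · rw [htpn v hvt, htpn v hvt, htpn v hvt, map_zero, add_zero]
      · simp only [if_neg hv, mul_one])
  have hfT : ∀ v ∈ T, ∀ a, f v a = ⟨gof v a, tp v a⟩ := by
    intro v hv a
    change (if v ∈ T then (⟨gof v a, tp v a⟩ : K16_Aff (GraphProd L G) (GraphProd L G ⧸ H₀))
      else 1) = _
    rw [if_pos hv]
  have hfN : ∀ v, v ∉ T → ∀ a, f v a = 1 := by
    intro v hv a
    change (if v ∈ T then (⟨gof v a, tp v a⟩ : K16_Aff (GraphProd L G) (GraphProd L G ⧸ H₀))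
      else 1) = _
    rw [if_neg hv]
  -- the critical commutation
  have hcrit : ∀ v ∈ T, L.Adj t v → ∀ (a : G t) (b : G v),
      K16_tr (gof (L := L) (G := G) v b) (tp t a) = tp t a := by
    intro v hv hadj' a b
    have hvs : v ≠ s := fun e => hadj (e ▸ hadj'.symm)
    have hvt : v ≠ t := hadj'.ne'
    have hb : gof (L := L) (G := G) v b ∈ H₀ := by
      refine mem_sgp_gof ?_ b
      simp [hv, hvs, hvt]
    have hc : gof (L := L) (G := G) v b * gof t a = gof t a * gof v b :=
      ((gof_comm hadj' a b).eq).symm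
    have e1 := K16_coset_eq (g := (1 : GraphProd L G)) hb
    rw [one_mul] at e1
    rw [htpt, map_sub, K16_smul_single, K16_smul_single, hc, mul_one, e1,
      K16_coset_eq (g := gof t a) hb]
  have hf : ∀ u v, L.Adj u v → ∀ a b, Commute (f u a) (f v b) := by
    intro u v huv a b
    by_cases hu : u ∈ T
    · by_cases hv : v ∈ T
      · rw [Commute, SemiconjBy, hfT u hu, hfT v hv]
        refine K16_Aff.ext (gof_comm huv a b).eq ?_
        change tp u a + K16_tr (gof u a) (tp v b) = tp v b + K16_tr (gof v b) (tp u a)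
        by_cases hut : u = t
        · subst hut
          rw [hcrit v hv huv a b, htpn v huv.ne' b, map_zero, add_zero, zero_add]
        · by_cases hvt : v = t
          · subst hvt
            rw [hcrit u hu huv.symm b a, htpn u hut a, map_zero, add_zero, zero_add]
          · rw [htpn u hut, htpn v hvt, map_zero, map_zero]
      · rw [hfN v hv]
        exact Commute.one_right _
    · rw [hfN u hu]
      exact Commute.one_left _
  obtain ⟨F, hF⟩ := exists_glift f hf
  -- the retraction is the identity on H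
  have hrH : ∀ h ∈ H, (F h).g = h := by
    intro h hh
    refine sgp_induction (C := fun x => (F x).g = x) ?_ ?_ ?_ hh
    · rw [map_one, K16_one_g]
    · intro v hv a
      rw [hF, hfT v hv]
    · intro x y hx hy
      rw [map_mul, K16_mul_g, hx, hy]
  have key : ∀ {S : Set V} (Q : GraphProd L G → Prop), S ⊆ (T : Set V) → Q 1 →
      (∀ v ∈ S, ∀ a, Q (gof v a)) →
      (∀ x y, x ∈ H → y ∈ H → Q x → Q y → Q (x * y)) → ∀ h ∈ sgp L G S, Q h := by
    intro S Q hS hQ1 hQ2 hQ3 h hh
    refine (sgp_induction (C := fun x => x ∈ H ∧ Q x) ⟨H.one_mem, hQ1⟩ ?_ ?_ hh).2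
    · intro v hv a
      exact ⟨mem_sgp_gof (hS hv) a, hQ2 v hv a⟩
    · intro x y hx hy
      exact ⟨H.mul_mem hx.1 hy.1, hQ3 x y hx.1 hy.1 hx.2 hy.2⟩
  have hDm : ∀ x y, x ∈ H → (F (x * y)).m = (F x).m + K16_tr x (F y).m := by
    intro x y hx
    rw [map_mul, K16_mul_m, hrH x hx]
  have hD1' : (F 1).m = 0 := by rw [map_one, K16_one_m]
  have hFt : ∀ a : G t, (F (gof t a)).m = single ((1 : GraphProd L G) : GraphProd L G ⧸ H₀) 1
      - single ((gof (L := L) (G := G) t a : GraphProd L G) : GraphProd L G ⧸ H₀) 1 := by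
    intro a
    rw [hF, hfT t ht, htpt]
  have hFn : ∀ v ∈ T, v ≠ t → ∀ a : G v, (F (gof v a)).m = 0 := by
    intro v hv hvt a
    rw [hF, hfT v hv, htpn v hvt]
  refine K16_abs (A := A) h01 h02 h1 h2 (fun x => (F x).g) (fun x y => by rw [map_mul, K16_mul_g])
    hrH (fun x => (F x).m) (fun x y => by rw [map_mul, K16_mul_m]) ?_ ?_ ?_ ?_
  · refine key (fun h => (F h).m = 0) ?_ hD1' ?_ ?_
    · exact_mod_cast Finset.erase_subset t T
    · intro v hv a
      have hv' : v ∈ T.erase t := hv
      exact hFn v (Finset.mem_of_mem_erase hv') (Finset.ne_of_mem_erase hv') a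
    · intro x y hx _ hx' hy'
      change (F (x * y)).m = 0
      rw [hDm x y hx, hx', hy', map_zero, add_zero]
  · refine key (fun h => (F h).m = single ((1 : GraphProd L G) : GraphProd L G ⧸ H₀) 1
      - single ((h : GraphProd L G) : GraphProd L G ⧸ H₀) 1) ?_ ?_ ?_ ?_
    · exact_mod_cast Finset.erase_subset s T
    · change (F 1).m = _
      rw [hD1', sub_self]
    · intro v hv a
      have hv' : v ∈ T.erase s := hv
      by_cases hvt : v = t
      · subst hvt
        exact hFt a
      · change (F (gof v a)).m = _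
        rw [hFn v (Finset.mem_of_mem_erase hv') hvt a]
        have hb : gof (L := L) (G := G) v a ∈ H₀ := by
          refine mem_sgp_gof ?_ a
          simp [Finset.mem_of_mem_erase hv', Finset.ne_of_mem_erase hv', hvt]
        have e1 := K16_coset_eq (g := (1 : GraphProd L G)) hb
        rw [one_mul] at e1
        rw [e1, sub_self]
    · intro x y hx _ hx' hy'
      change (F (x * y)).m = _
      rw [hDm x y hx, hx', hy', map_sub, K16_smul_single, K16_smul_single, mul_one]
      abel
  · refine key (fun h => mapDomain (Subgroup.quotientMapOfLE h01) (F h).m = 0) subset_rfl ?_ ?_ ?_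
    · change mapDomain _ (F 1).m = 0
      rw [hD1', mapDomain_zero]
    · intro v hv a
      change mapDomain _ (F (gof v a)).m = 0
      by_cases hvt : v = t
      · subst hvt
        rw [hFt a]
        have hb : gof (L := L) (G := G) v a ∈ H₁ := by
          refine mem_sgp_gof ?_ a
          simp [ht, hst.symm]
        have e1 := K16_coset_eq (g := (1 : GraphProd L G)) hb
        rw [one_mul] at e1
        have e2 : mapDomain (Subgroup.quotientMapOfLE h01)
            (single ((1 : GraphProd L G) : GraphProd L G ⧸ H₀) (1 : ℤ)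
              - single ((gof (L := L) (G := G) v a : GraphProd L G) : GraphProd L G ⧸ H₀) 1)
            = mapDomain (Subgroup.quotientMapOfLE h01)
              (single ((1 : GraphProd L G) : GraphProd L G ⧸ H₀) (1 : ℤ))
              - mapDomain (Subgroup.quotientMapOfLE h01)
              (single ((gof (L := L) (G := G) v a : GraphProd L G) : GraphProd L G ⧸ H₀) 1) :=
          map_sub (mapDomain.addMonoidHom (Subgroup.quotientMapOfLE h01)) _ _
        rw [e2, mapDomain_single, mapDomain_single]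
        change single ((1 : GraphProd L G) : GraphProd L G ⧸ H₁) (1 : ℤ)
          - single ((gof (L := L) (G := G) v a : GraphProd L G) : GraphProd L G ⧸ H₁) 1 = 0
        rw [e1, sub_self]
      · rw [hFn v hv hvt a, mapDomain_zero]
    · intro x y hx _ hx' hy'
      change mapDomain _ (F (x * y)).m = 0
      rw [hDm x y hx, mapDomain_add, hx', zero_add, K16_map_tr _ (by
        intro g q
        induction q using QuotientGroup.induction_on with
        | H x => rfl) x (F y).m, hy', map_zero]
  · refine key (fun h => mapDomain (Subgroup.quotientMapOfLE h02) (F h).m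
      = single ((1 : GraphProd L G) : GraphProd L G ⧸ H₂) 1
        - single ((h : GraphProd L G) : GraphProd L G ⧸ H₂) 1) subset_rfl ?_ ?_ ?_
    · change mapDomain _ (F 1).m = _
      rw [hD1', mapDomain_zero, sub_self]
    · intro v hv a
      change mapDomain _ (F (gof v a)).m = _
      by_cases hvt : v = t
      · subst hvt
        rw [hFt a]
        have e2 : mapDomain (Subgroup.quotientMapOfLE h02)
            (single ((1 : GraphProd L G) : GraphProd L G ⧸ H₀) (1 : ℤ)
              - single ((gof (L := L) (G := G) v a : GraphProd L G) : GraphProd L G ⧸ H₀) 1)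
            = mapDomain (Subgroup.quotientMapOfLE h02)
              (single ((1 : GraphProd L G) : GraphProd L G ⧸ H₀) (1 : ℤ))
              - mapDomain (Subgroup.quotientMapOfLE h02)
              (single ((gof (L := L) (G := G) v a : GraphProd L G) : GraphProd L G ⧸ H₀) 1) :=
          map_sub (mapDomain.addMonoidHom (Subgroup.quotientMapOfLE h02)) _ _
        rw [e2, mapDomain_single, mapDomain_single]
        rfl
      · rw [hFn v hv hvt a, mapDomain_zero]
        have hb : gof (L := L) (G := G) v a ∈ H₂ := by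
          refine mem_sgp_gof ?_ a
          simpa [hvt] using hv
        have e1 := K16_coset_eq (g := (1 : GraphProd L G)) hb
        rw [one_mul] at e1
        rw [e1, sub_self]
    · intro x y hx _ hx' hy'
      change mapDomain _ (F (x * y)).m = _
      rw [hDm x y hx, mapDomain_add, hx', K16_map_tr _ (by
        intro g q
        induction q using QuotientGroup.induction_on with
        | H x => rfl) x (F y).m, hy', map_sub, K16_smul_single, K16_smul_single, mul_one]
      abel

end GP

end OS
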