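import Mathlib
import Pool.Agent.Lib.MP_8fe54c_gt.BBDefs
import Pool.Agent.Lib.MP_8fe54c_gt.GPTree
import Pool.Agent.Lib.MP_8fe54c_gt.ArtCub
import Pool.Agent.Lib.MP_8fe54c_gt.SalRes

/-!
# BB6: exactness of the cubical complex of a right-angled Artin group
-/

set_option autoImplicit false

namespace OS

namespace GP

open Finsupp MulOpposite

universe u v w u' v' w'

section BB6a

variable {Γ : Type*} [Group Γ] {Q : Type*} [MulAction Γ Q]

theorem BB6_coc_one (H : Subgroup Γ) (D : Γ → (Q →₀ ℤ))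
    (hD : ∀ x ∈ H, ∀ y, D (x * y) = D x + K16_tr x (D y)) : D 1 = 0 := by
  have h := hD 1 H.one_mem 1
  rw [mul_one, K16_tr_one] at h
  exact left_eq_add.1 h

theorem BB6_coc_inv (H : Subgroup Γ) (D : Γ → (Q →₀ ℤ))
    (hD : ∀ x ∈ H, ∀ y, D (x * y) = D x + K16_tr x (D y)) (x : Γ) (hx : x ∈ H) :
    D x⁻¹ = - K16_tr x⁻¹ (D x) := by
  have h := hD x⁻¹ (H.inv_mem hx) x
  rw [inv_mul_cancel, BB6_coc_one H D hD] at h
  exact eq_neg_of_add_eq_zero_left h.symm

/-- two cocycles which agree on generators agree -/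
theorem BB6_agree (H : Subgroup Γ) (D B : Γ → (Q →₀ ℤ))
    (hD : ∀ x ∈ H, ∀ y, D (x * y) = D x + K16_tr x (D y))
    (hB : ∀ x ∈ H, ∀ y, B (x * y) = B x + K16_tr x (B y)) (S : Set Γ) (hS : S ⊆ H)
    (h : ∀ s ∈ S, D s = B s) : ∀ x ∈ Subgroup.closure S, D x = B x := by
  intro x hx
  refine (Subgroup.closure_induction (p := fun x _ => x ∈ H ∧ D x = B x) ?_ ?_ ?_ ?_ hx).2
  · exact fun s hs => ⟨hS hs, h s hs⟩
  · exact ⟨H.one_mem, by rw [BB6_coc_one H D hD, BB6_coc_one H B hB]⟩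
  · intro x y _ _ hx hy
    exact ⟨H.mul_mem hx.1 hy.1, by rw [hD x hx.1, hB x hx.1, hx.2, hy.2]⟩
  · intro x _ hx
    exact ⟨H.inv_mem hx.1, by
      rw [BB6_coc_inv H D hD x hx.1, BB6_coc_inv H B hB x hx.1, hx.2]⟩

theorem BB6_coc_zero (H : Subgroup Γ) :
    ∀ x ∈ H, ∀ y, (fun _ : Γ => (0 : Q →₀ ℤ)) (x * y)
      = (fun _ : Γ => (0 : Q →₀ ℤ)) x + K16_tr x ((fun _ : Γ => (0 : Q →₀ ℤ)) y) := by
  intro x _ y
  simp

theorem BB6_coc_bd (H K : Subgroup Γ) :
    ∀ x ∈ H, ∀ y, (fun h : Γ => single ((1 : Γ) : Γ ⧸ K) (1 : ℤ) - single ((h : Γ) : Γ ⧸ K) 1) (x * y)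
      = (fun h : Γ => single ((1 : Γ) : Γ ⧸ K) (1 : ℤ) - single ((h : Γ) : Γ ⧸ K) 1) x
        + K16_tr x ((fun h : Γ => single ((1 : Γ) : Γ ⧸ K) (1 : ℤ)
          - single ((h : Γ) : Γ ⧸ K) 1) y) := by
  intro x _ y
  simp only
  rw [map_sub, K16_smul_single, K16_smul_single, mul_one]
  abel

theorem BB6_coc_map (H : Subgroup Γ) (D : Γ → (Q →₀ ℤ))
    (hD : ∀ x ∈ H, ∀ y, D (x * y) = D x + K16_tr x (D y)) {Q' : Type*} [MulAction Γ Q']
    (p : Q → Q') (hp : ∀ (g : Γ) q, p (g • q) = g • p q) :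
    ∀ x ∈ H, ∀ y, mapDomain p (D (x * y)) = mapDomain p (D x) + K16_tr x (mapDomain p (D y)) := by
  intro x hx y
  rw [hD x hx, mapDomain_add, K16_map_tr p hp]

theorem BB6_map_smul {H₀ H₁ : Subgroup Γ} (h : H₀ ≤ H₁) (g : Γ) (q : Γ ⧸ H₀) :
    Subgroup.quotientMapOfLE h (g • q) = g • Subgroup.quotientMapOfLE h q := by
  induction q using QuotientGroup.induction_on with
  | H x => rfl

end BB6a

section BB6b

variable {V : Type u} (G : SimpleGraph V)

theorem BB6_mono {S T : Set V} (h : S ⊆ T) : sg G S ≤ sg G T :=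
  Subgroup.closure_mono (Set.image_mono h)

theorem BB6_tree0 [DecidableEq V] (A : Type*) [AddCommGroup A] (T : Finset V) (s t : V)
    (ht : t ∈ T) (hst : s ≠ t) (hadj : ¬ G.Adj s t)
    (h01 : sg G (((T.erase s).erase t : Finset V) : Set V) ≤ sg G ((T.erase s : Finset V) : Set V))
    (h02 : sg G (((T.erase s).erase t : Finset V) : Set V) ≤ sg G ((T.erase t : Finset V) : Set V))
    (h1 : sg G ((T.erase s : Finset V) : Set V) ≤ sg G (T : Set V))
    (h2 : sg G ((T.erase t : Finset V) : Set V) ≤ sg G (T : Set V)) :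
    TreeEx A (Subgroup.quotientMapOfLE h01) (Subgroup.quotientMapOfLE h02)
      (Subgroup.quotientMapOfLE h1) (Subgroup.quotientMapOfLE h2) := by
  classical
  set H₀ : Subgroup (RAAG G) := sg G (((T.erase s).erase t : Finset V) : Set V) with hH₀
  set H₁ : Subgroup (RAAG G) := sg G ((T.erase s : Finset V) : Set V) with hH₁
  set H₂ : Subgroup (RAAG G) := sg G ((T.erase t : Finset V) : Set V) with hH₂
  set H : Subgroup (RAAG G) := sg G (T : Set V) with hH
  -- translation parts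
  obtain ⟨tp, htpt, htpn⟩ : ∃ tp : V → (RAAG G ⧸ H₀ →₀ ℤ),
      tp t = single ((1 : RAAG G) : RAAG G ⧸ H₀) 1 - single ((ra t : RAAG G) : RAAG G ⧸ H₀) 1 ∧
      ∀ v, v ≠ t → tp v = 0 :=
    ⟨fun v => if v = t then single ((1 : RAAG G) : RAAG G ⧸ H₀) 1
      - single ((ra t : RAAG G) : RAAG G ⧸ H₀) 1 else 0, by simp, fun v hv => by simp [hv]⟩
  obtain ⟨f, hfT, hfN⟩ : ∃ f : V → K16_Aff (RAAG G) (RAAG G ⧸ H₀),
      (∀ v ∈ T, f v = ⟨ra v, tp v⟩) ∧ ∀ v, v ∉ T → f v = 1 :=
    ⟨fun v => if v ∈ T then ⟨ra v, tp v⟩ else 1, fun v hv => if_pos hv, fun v hv => if_neg hv⟩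
  -- the critical commutation
  have hcrit : ∀ v ∈ T, G.Adj t v → K16_tr (ra v : RAAG G) (tp t) = tp t := by
    intro v hv hadj'
    have hvs : v ≠ s := fun e => hadj (e ▸ hadj'.symm)
    have hvt : v ≠ t := hadj'.ne'
    have hb : (ra v : RAAG G) ∈ H₀ := by
      refine ra_mem_sg ?_
      simp [hv, hvs, hvt]
    have hc : (ra v : RAAG G) * ra t = ra t * ra v := ((ra_comm hadj').eq).symm
    have e1 := K16_coset_eq (g := (1 : RAAG G)) hb
    rw [one_mul] at e1
    rw [htpt, map_sub, K16_smul_single, K16_smul_single, hc, mul_one, e1,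
      K16_coset_eq (g := ra t) hb]
  have hf : ∀ u v, G.Adj u v → Commute (f u) (f v) := by
    intro u v huv
    by_cases hu : u ∈ T
    · by_cases hv : v ∈ T
      · rw [Commute, SemiconjBy, hfT u hu, hfT v hv]
        refine K16_Aff.ext (ra_comm huv).eq ?_
        change tp u + K16_tr (ra u) (tp v) = tp v + K16_tr (ra v) (tp u)
        by_cases hut : u = t
        · subst hut
          rw [hcrit v hv huv, htpn v huv.ne', map_zero, add_zero, zero_add]
        · by_cases hvt : v = t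
          · subst hvt
            rw [hcrit u hu huv.symm, htpn u hut, map_zero, add_zero, zero_add]
          · rw [htpn u hut, htpn v hvt, map_zero, map_zero]
      · rw [hfN v hv]
        exact Commute.one_right _
    · rw [hfN u hu]
      exact Commute.one_left _
  obtain ⟨F, hF⟩ : ∃ F : RAAG G →* K16_Aff (RAAG G) (RAAG G ⧸ H₀), ∀ v, F (ra v) = f v :=
    ⟨raLift f hf, fun v => raLift_ra f hf v⟩
  -- the retraction is the identity on H
  have hrH : ∀ h ∈ H, (F h).g = h := by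
    intro h hh
    refine Subgroup.closure_induction (p := fun x _ => (F x).g = x) ?_ ?_ ?_ ?_ hh
    · rintro _ ⟨v, hv, rfl⟩
      rw [hF, hfT v hv]
    · rw [map_one, K16_one_g]
    · intro x y _ _ hx hy
      rw [map_mul, K16_mul_g, hx, hy]
    · intro x _ hx
      have h5 : (F x⁻¹).g * (F x).g = 1 := by
        rw [← K16_mul_g, ← map_mul, inv_mul_cancel, map_one, K16_one_g]
      rw [hx] at h5
      exact eq_inv_of_mul_eq_one_left h5
  have hDm : ∀ x ∈ H, ∀ y, (fun x => (F x).m) (x * y)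
      = (fun x => (F x).m) x + K16_tr x ((fun x => (F x).m) y) := by
    intro x hx y
    simp only
    rw [map_mul, K16_mul_m, hrH x hx]
  have hFt : (F (ra t)).m = single ((1 : RAAG G) : RAAG G ⧸ H₀) 1
      - single ((ra t : RAAG G) : RAAG G ⧸ H₀) 1 := by
    rw [hF, hfT t ht, htpt]
  have hFn : ∀ v ∈ T, v ≠ t → (F (ra v)).m = 0 := by
    intro v hv hvt
    rw [hF, hfT v hv, htpn v hvt]
  have q01 := BB6_map_smul (Γ := RAAG G) h01
  have q02 := BB6_map_smul (Γ := RAAG G) h02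
  have hmapsub : ∀ {Z : Type u} (p : RAAG G ⧸ H₀ → Z) (x y : RAAG G ⧸ H₀ →₀ ℤ),
      mapDomain p (x - y) = mapDomain p x - mapDomain p y := fun p x y =>
    map_sub (mapDomain.addMonoidHom p) x y
  refine K16_abs (A := A) h01 h02 h1 h2 (fun x => (F x).g) (fun x y => by rw [map_mul, K16_mul_g])
    hrH (fun x => (F x).m) (fun x y => by rw [map_mul, K16_mul_m]) ?_ ?_ ?_ ?_
  · refine BB6_agree H _ _ hDm (BB6_coc_zero H) _ ?_ ?_
    · rintro _ ⟨v, hv, rfl⟩
      exact h2 (ra_mem_sg hv)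
    · rintro _ ⟨v, hv, rfl⟩
      have hv' : v ∈ T.erase t := hv
      exact hFn v (Finset.mem_of_mem_erase hv') (Finset.ne_of_mem_erase hv')
  · refine BB6_agree H _ _ hDm (BB6_coc_bd H H₀) _ ?_ ?_
    · rintro _ ⟨v, hv, rfl⟩
      exact h1 (ra_mem_sg hv)
    · rintro _ ⟨v, hv, rfl⟩
      have hv' : v ∈ T.erase s := hv
      by_cases hvt : v = t
      · subst hvt
        exact hFt
      · change (F (ra v)).m = _
        rw [hFn v (Finset.mem_of_mem_erase hv') hvt]
        have hb : (ra v : RAAG G) ∈ H₀ := by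
          refine ra_mem_sg ?_
          simp [Finset.mem_of_mem_erase hv', Finset.ne_of_mem_erase hv', hvt]
        have e1 := K16_coset_eq (g := (1 : RAAG G)) hb
        rw [one_mul] at e1
        rw [e1, sub_self]
  · refine BB6_agree H _ _ (BB6_coc_map H (fun x => (F x).m) hDm (Subgroup.quotientMapOfLE h01) q01) (BB6_coc_zero H) _ ?_ ?_
    · rintro _ ⟨v, hv, rfl⟩
      exact ra_mem_sg hv
    · rintro _ ⟨v, hv, rfl⟩
      change mapDomain _ (F (ra v)).m = 0
      by_cases hvt : v = t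
      · subst hvt
        rw [hFt]
        have hb : (ra v : RAAG G) ∈ H₁ := by
          refine ra_mem_sg ?_
          simp [ht, hst.symm]
        have e1 := K16_coset_eq (g := (1 : RAAG G)) hb
        rw [one_mul] at e1
        rw [hmapsub, mapDomain_single, mapDomain_single]
        change single ((1 : RAAG G) : RAAG G ⧸ H₁) (1 : ℤ)
          - single ((ra v : RAAG G) : RAAG G ⧸ H₁) 1 = 0
        rw [e1, sub_self]
      · rw [hFn v hv hvt, mapDomain_zero]
  · refine BB6_agree H _ _ (BB6_coc_map H (fun x => (F x).m) hDm (Subgroup.quotientMapOfLE h02) q02) (BB6_coc_bd H H₂) _ ?_ ?_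
    · rintro _ ⟨v, hv, rfl⟩
      exact ra_mem_sg hv
    · rintro _ ⟨v, hv, rfl⟩
      change mapDomain _ (F (ra v)).m = single ((1 : RAAG G) : RAAG G ⧸ H₂) (1 : ℤ)
          - single ((ra v : RAAG G) : RAAG G ⧸ H₂) 1
      by_cases hvt : v = t
      · subst hvt
        rw [hFt, hmapsub, mapDomain_single, mapDomain_single]
        rfl
      · rw [hFn v hv hvt, mapDomain_zero]
        have hb : (ra v : RAAG G) ∈ H₂ := by
          refine ra_mem_sg ?_
          simpa [hvt] using hv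
        have e1 := K16_coset_eq (g := (1 : RAAG G)) hb
        rw [one_mul] at e1
        rw [e1, sub_self]

theorem BB6_tree [DecidableEq V] (A : Type*) [AddCommGroup A] (T : Finset V) (s t : V)
    (ht : t ∈ T) (hst : s ≠ t) (hadj : ¬ G.Adj s t)
    (h1' : (T.erase s).erase t ⊆ T.erase s) (h2' : (T.erase s).erase t ⊆ T.erase t)
    (h3' : T.erase s ⊆ T) (h4' : T.erase t ⊆ T) :
    TreeEx A ((raSys G).pr h1') ((raSys G).pr h2') ((raSys G).pr h3') ((raSys G).pr h4') :=
  BB6_tree0 G A T s t ht hst hadj (BB6_mono G (Finset.coe_subset.2 h1'))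
    (BB6_mono G (Finset.coe_subset.2 h2')) (BB6_mono G (Finset.coe_subset.2 h3'))
    (BB6_mono G (Finset.coe_subset.2 h4'))

end BB6b

theorem raSys_exact {V : Type u} [Fintype V] [LinearOrder V] (G : SimpleGraph V) (A : Type*)
    [AddCommGroup A] : DExact (raSys G) (cliq G) A := by
  classical
  have : Subsingleton ((raSys G).Q Finset.univ) := by
    change Subsingleton (RAAG G ⧸ sg G ((Finset.univ : Finset V) : Set V))
    rw [Finset.coe_univ, sg_univ]
    exact QuotientGroup.subsingleton_quotient_top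
  refine dexact_of_trees (raSys G) (cliq G) ?_ A ?_ ?_
  · intro s t hst ht
    exact ht.subset (Finset.coe_subset.2 hst)
  · intro s t h x
    obtain ⟨g, rfl⟩ := raC_surj t x
    exact ⟨raC s g, rfl⟩
  · intro T hT
    unfold cliq SimpleGraph.IsClique Set.Pairwise at hT
    push Not at hT
    obtain ⟨s, hs, t, ht, hst, hadj⟩ := hT
    refine ⟨s, hs, t, ht, hst, ?_, fun h1 h2 h3 h4 => ?_⟩
    · intro h
      exact hadj (h (by simp) (by simp) hst)
    · have := BB6_tree G A T s t ht hst hadj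
      convert this h1 h2 h3 h4

end GP

end OS
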