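import Mathlib
import Pool.Agent.Lib.MP_8fe54c_gt.BBDefs
import Pool.Agent.Lib.MP_8fe54c_gt.KCls
import Pool.Agent.Lib.MP_8fe54c_gt.KFlag
import Pool.Agent.Lib.MP_8fe54c_gt.GrpC

/-!
# Flag systems in coabelian subgroups of right-angled Artin groups
-/

namespace OS

namespace GP

open Finsupp MulOpposite

universe u v w u' v' w'

/-- an element of the group generated by finitely many commuting elements is determined by its
image in the abelianisation, when the images of the generators are multiples of distinct basis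
vectors -/
theorem BB14_inj {V : Type*} [DecidableEq V] {Γ : Type*} [Group Γ] (a : V → Γ) (N : V → ℤ)
    (hN : ∀ v, 1 ≤ N v) (ab : Γ →* Multiplicative (V → ℤ))
    (hab : ∀ v, ab (a v) = Multiplicative.ofAdd (Pi.single v (N v))) (s : Finset V)
    (hs : ∀ u ∈ s, ∀ v ∈ s, a u * a v = a v * a u) (x : Γ)
    (hx : x ∈ Subgroup.closure (a '' (s : Set V))) :
    (∀ v, v ∉ s → Multiplicative.toAdd (ab x) v = 0) ∧ (ab x = 1 → x = 1) := by
  classical
  have hcomm : ∀ x ∈ a '' (s : Set V), ∀ y ∈ a '' (s : Set V), x * y = y * x := by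
    rintro _ ⟨u, hu, rfl⟩ _ ⟨v, hv, rfl⟩
    exact hs u (Finset.mem_coe.mp hu) v (Finset.mem_coe.mp hv)
  let H : Subgroup Γ := Subgroup.closure (a '' (s : Set V))
  letI : CommGroup H := Subgroup.closureCommGroupOfComm hcomm
  let b : s → H := fun v => ⟨a v, Subgroup.subset_closure ⟨v, v.2, rfl⟩⟩
  let E : (V → ℤ) → H := fun e => ∏ v : s, b v ^ e v
  have hE : ∃ e : V → ℤ, ((E e : H) : Γ) = x := by
    refine Subgroup.closure_induction (p := fun x _ => ∃ e : V → ℤ, ((E e : H) : Γ) = x)
      ?_ ?_ ?_ ?_ hx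
    · rintro _ ⟨v, hv, rfl⟩
      refine ⟨Pi.single v 1, ?_⟩
      have h1 : E (Pi.single v 1) = b ⟨v, hv⟩ := by
        show ∏ w : s, b w ^ (Pi.single v 1 : V → ℤ) w = _
        rw [Finset.prod_eq_single ⟨v, hv⟩]
        · simp
        · intro w _ hw
          have : (w : V) ≠ v := fun h => hw (Subtype.ext h)
          simp [this]
        · intro h
          exact absurd (Finset.mem_univ _) h
      rw [h1]
    · refine ⟨0, ?_⟩
      have h1 : E 0 = 1 := by
        show ∏ w : s, b w ^ (0 : V → ℤ) w = _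
        simp
      rw [h1]
      rfl
    · rintro _ _ _ _ ⟨e, rfl⟩ ⟨f, rfl⟩
      refine ⟨e + f, ?_⟩
      have h1 : E (e + f) = E e * E f := by
        show ∏ w : s, b w ^ (e + f) w = (∏ w : s, b w ^ e w) * ∏ w : s, b w ^ f w
        rw [← Finset.prod_mul_distrib]
        refine Finset.prod_congr rfl fun w _ => ?_
        rw [Pi.add_apply, zpow_add]
      rw [h1]
      rfl
    · rintro _ _ ⟨e, rfl⟩
      refine ⟨-e, ?_⟩
      have h1 : E (-e) = (E e)⁻¹ := by
        show ∏ w : s, b w ^ (-e) w = (∏ w : s, b w ^ e w)⁻¹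
        rw [← Finset.prod_inv_distrib]
        refine Finset.prod_congr rfl fun w _ => ?_
        rw [Pi.neg_apply, zpow_neg]
      rw [h1]
      rfl
  obtain ⟨e, rfl⟩ := hE
  have hval : ∀ w, Multiplicative.toAdd (ab (E e : H)) w = if w ∈ s then e w * N w else 0 := by
    intro w
    let F : H →* Multiplicative ℤ :=
      ((Pi.evalAddMonoidHom (fun _ : V => ℤ) w).toMultiplicative.comp ab).comp H.subtype
    have h1 : Multiplicative.toAdd (ab (E e : H)) w = Multiplicative.toAdd (F (E e)) := rfl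
    have h2 : F (E e) = ∏ v : s, F (b v) ^ e v := by
      show F (∏ v : s, b v ^ e v) = _
      rw [map_prod]
      refine Finset.prod_congr rfl fun v _ => ?_
      rw [map_zpow]
    have h3 : ∀ v : s, F (b v) = Multiplicative.ofAdd ((Pi.single (v : V) (N v) : V → ℤ) w) := by
      intro v
      show Multiplicative.ofAdd (Multiplicative.toAdd (ab (a v)) w) = _
      rw [hab]
      rfl
    rw [h1, h2, toAdd_prod]
    simp only [h3, toAdd_zpow, toAdd_ofAdd, smul_eq_mul]
    split_ifs with hw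
    · rw [Finset.sum_eq_single ⟨w, hw⟩]
      · simp
      · intro v _ hv
        have : w ≠ (v : V) := fun h => hv (Subtype.ext h.symm)
        simp [this]
      · intro h
        exact absurd (Finset.mem_univ _) h
    · refine Finset.sum_eq_zero fun v _ => ?_
      have : w ≠ (v : V) := fun h => hw (h ▸ v.2)
      simp [this]
  refine ⟨fun v hv => ?_, fun h => ?_⟩
  · rw [hval, if_neg hv]
  · have h4 : ∀ v : s, e v = 0 := by
      intro v
      have h5 := hval v
      rw [h, if_pos v.2] at h5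
      have h6 : e v * N v = 0 := h5.symm
      have h7 := hN v
      rcases mul_eq_zero.mp h6 with h8 | h8
      · exact h8
      · omega
    have h9 : E e = 1 := by
      show ∏ w : s, b w ^ e w = 1
      refine Finset.prod_eq_one fun v _ => ?_
      rw [h4 v, zpow_zero]
    rw [h9]
    rfl

/-- disjoint sets of commuting elements generate subgroups with trivial intersection -/
theorem BB14_dis {V : Type*} [DecidableEq V] {Γ : Type*} [Group Γ] (a : V → Γ) (N : V → ℤ)
    (hN : ∀ v, 1 ≤ N v) (ab : Γ →* Multiplicative (V → ℤ))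
    (hab : ∀ v, ab (a v) = Multiplicative.ofAdd (Pi.single v (N v))) (s t : Finset V)
    (hs : ∀ u ∈ s, ∀ v ∈ s, a u * a v = a v * a u)
    (ht : ∀ u ∈ t, ∀ v ∈ t, a u * a v = a v * a u) (hst : Disjoint s t) :
    Subgroup.closure (a '' (s : Set V)) ⊓ Subgroup.closure (a '' (t : Set V)) = ⊥ := by
  rw [eq_bot_iff]
  rintro x ⟨hx1, hx2⟩
  rw [Subgroup.mem_bot]
  refine (BB14_inj a N hN ab hab s hs x hx1).2 ?_
  apply Multiplicative.toAdd.injective
  funext v
  by_cases hv : v ∈ s
  · exact (BB14_inj a N hN ab hab t ht x hx2).1 v (Finset.disjoint_left.mp hst hv)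
  · exact (BB14_inj a N hN ab hab s hs x hx1).1 v hv

/-- a generator commutes with the subgroup of a set of neighbours -/
theorem BB14_comm {V : Type u} {G : SimpleGraph V} {S : Set V} {y : RAAG G}
    (h : ∀ u ∈ S, Commute y (ra u)) {x : RAAG G} (hx : x ∈ sg G S) : Commute y x := by
  refine Subgroup.closure_induction (p := fun x _ => Commute y x) ?_ ?_ ?_ ?_ hx
  · rintro _ ⟨u, hu, rfl⟩
    exact h u hu
  · exact Commute.one_right y
  · intro x z _ _ h1 h2
    exact h1.mul_right h2
  · intro x _ h1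
    exact h1.inv_right

theorem flag_of_torsion {V : Type u} [Fintype V] [LinearOrder V] (G : SimpleGraph V)
    (A₀ N K : Subgroup (RAAG G)) [A₀.FiniteIndex] (hN : Coab A₀ N) (hK : K ≤ N)
    (hKf : (K.subgroupOf N).FiniteIndex) (ρ : Finset V) (hρ : cliq G ρ)
    (g : RAAG G)
    (hA : ∀ γ ∈ A₀, ∃ m : ℕ, m ≠ 0 ∧ ∃ x ∈ sg G (ρ : Set V), γ ^ m * (g * x * g⁻¹) ∈ N)
    (q : ℕ) (hq : HasClsC (lk (cliq G) ρ) q) : Flag K q := by
  classical
  let W := {w : V // w ∉ ρ ∧ ∀ u ∈ ρ, G.Adj w u}
  -- powers in `A₀`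
  have h1 : ∀ w : W, ∃ n : ℕ, 0 < n ∧ (g * ra (w : V) * g⁻¹) ^ n ∈ A₀ := fun w => by
    obtain ⟨n, h3, _, h4⟩ := A₀.exists_pow_mem_of_index_ne_zero
      Subgroup.FiniteIndex.index_ne_zero (g * ra (w : V) * g⁻¹)
    exact ⟨n, h3, h4⟩
  choose n hn0 hn using h1
  have h2 : ∀ w : W, ∃ m : ℕ, m ≠ 0 ∧ ∃ x ∈ sg G (ρ : Set V),
      ((g * ra (w : V) * g⁻¹) ^ n w) ^ m * (g * x * g⁻¹) ∈ N := fun w => hA _ (hn w)
  choose m hm0 x hx hxN using h2
  let h : W → RAAG G := fun w => ((g * ra (w : V) * g⁻¹) ^ n w) ^ m w * (g * x w * g⁻¹)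
  have h3 : ∀ w : W, ∃ r : ℕ, 0 < r ∧ h w ^ r ∈ K := fun w => by
    obtain ⟨r, h4, _, h5⟩ := (K.subgroupOf N).exists_pow_mem_of_index_ne_zero
      Subgroup.FiniteIndex.index_ne_zero (⟨h w, hxN w⟩ : N)
    exact ⟨r, h4, h5⟩
  choose r hr0 hr using h3
  let a : W → K := fun w => ⟨h w ^ r w, hr w⟩
  -- commutation
  have hh : ∀ w : W, h w = g * ((ra (w : V) ^ (n w * m w)) * x w) * g⁻¹ := by
    intro w
    show ((g * ra (w : V) * g⁻¹) ^ n w) ^ m w * (g * x w * g⁻¹) = _
    rw [← pow_mul, conj_pow]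
    group
  have hwx : ∀ w : W, ∀ y ∈ sg G (ρ : Set V), Commute (ra (w : V) : RAAG G) y := by
    intro w y hy
    exact BB14_comm (fun u hu => ra_comm (w.2.2 u (Finset.mem_coe.mp hu))) hy
  have hxx : ∀ y ∈ sg G (ρ : Set V), ∀ z ∈ sg G (ρ : Set V), Commute y z := by
    intro y hy z hz
    refine BB14_comm (fun u hu => Commute.symm ?_) hz
    refine BB14_comm (fun v hv => ?_) hy
    by_cases huv : u = v
    · subst huv
      exact Commute.refl _
    · exact ra_comm (hρ hu hv huv)
  have hhc : ∀ i j : W, (lkG G ρ).Adj i j → Commute (h i) (h j) := by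
    intro i j hij
    rw [hh i, hh j, Commute.conj_iff]
    have c1 : Commute (ra (i : V) : RAAG G) (ra (j : V)) := ra_comm hij
    refine Commute.mul_left (Commute.mul_right ?_ ?_) (Commute.mul_right ?_ ?_)
    · exact c1.pow_pow _ _
    · exact (hwx i _ (hx j)).pow_left _
    · exact ((hwx j _ (hx i)).pow_left _).symm
    · exact hxx _ (hx i) _ (hx j)
  have hac : ∀ i j : W, (lkG G ρ).Adj i j → Commute (a i) (a j) := by
    intro i j hij
    apply Subtype.ext
    exact ((hhc i j hij).pow_pow _ _).eq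
  -- the abelianisation
  let ab : RAAG G →* Multiplicative (V → ℤ) :=
    raLift (fun v => Multiplicative.ofAdd (Pi.single v 1)) (fun _ _ _ => Commute.all _ _)
  have hab : ∀ v, ab (ra v) = Multiplicative.ofAdd (Pi.single v 1) := fun v => raLift_ra _ _ v
  let res : (V → ℤ) →+ (W → ℤ) :=
    { toFun := fun f w => f w
      map_zero' := rfl
      map_add' := fun _ _ => rfl }
  let abW : RAAG G →* Multiplicative (W → ℤ) := (AddMonoidHom.toMultiplicative res).comp ab
  have habW : ∀ w : W, abW (ra (w : V)) = Multiplicative.ofAdd (Pi.single w 1) := by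
    intro w
    show Multiplicative.ofAdd (res (Multiplicative.toAdd (ab (ra (w : V))))) = _
    rw [hab]
    congr 1
    funext u
    show (Pi.single (w : V) (1 : ℤ) : V → ℤ) (u : V) = (Pi.single w (1 : ℤ) : W → ℤ) u
    by_cases huw : u = w
    · subst huw
      simp
    · have : (u : V) ≠ w := fun h => huw (Subtype.ext h)
      rw [Pi.single_eq_of_ne this, Pi.single_eq_of_ne huw]
  have habρ : ∀ y ∈ sg G (ρ : Set V), abW y = 1 := by
    intro y hy
    have : sg G (ρ : Set V) ≤ abW.ker := by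
      refine (Subgroup.closure_le _).mpr ?_
      rintro _ ⟨v, hv, rfl⟩
      show abW (ra v) = 1
      show Multiplicative.ofAdd (res (Multiplicative.toAdd (ab (ra v)))) = _
      rw [hab]
      apply Multiplicative.toAdd.injective
      funext u
      show (Pi.single v (1 : ℤ) : V → ℤ) (u : V) = 0
      have : (u : V) ≠ v := fun h => u.2.1 (h ▸ hv)
      rw [Pi.single_eq_of_ne this]
    exact this hy
  have haW : ∀ w : W, (abW.comp K.subtype) (a w) =
      Multiplicative.ofAdd (Pi.single w (((n w * m w) * r w : ℕ) : ℤ)) := by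
    intro w
    show abW (h w ^ r w) = _
    rw [hh w, map_pow, map_mul, map_mul, map_mul, map_pow, habW, habρ _ (hx w), mul_one, map_inv,
      mul_comm (abW g), mul_assoc, mul_inv_cancel, mul_one, ← pow_mul, ← ofAdd_nsmul]
    congr 1
    funext u
    by_cases huw : u = w
    · subst huw
      simp
    · simp [huw]
  have hN1 : ∀ w : W, (1 : ℤ) ≤ (((n w * m w) * r w : ℕ) : ℤ) := by
    intro w
    have h5 : 0 < n w * m w * r w :=
      Nat.mul_pos (Nat.mul_pos (hn0 w) (Nat.pos_of_ne_zero (hm0 w))) (hr0 w)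
    exact_mod_cast h5
  have hcl : ∀ s : Finset W, (lkG G ρ).IsClique (s : Set W) →
      ∀ u ∈ s, ∀ v ∈ s, a u * a v = a v * a u := by
    intro s hs u hu v hv
    by_cases huv : u = v
    · rw [huv]
    · exact (hac u v (hs (Finset.mem_coe.mpr hu) (Finset.mem_coe.mpr hv) huv)).eq
  refine flag_of (ι := W) (lkG G ρ) a (hasClsC_lkG G ρ hρ q hq) hac ?_ ?_
  · intro w k hk
    exact hord_of_ab a (fun w => (((n w * m w) * r w : ℕ) : ℤ)) hN1 (abW.comp K.subtype) haW w k hk
  · intro s t hs ht hst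
    exact BB14_dis a (fun w => (((n w * m w) * r w : ℕ) : ℤ)) hN1 (abW.comp K.subtype) haW s t
      (hcl s hs) (hcl t ht) hst

end GP

end OS
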