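import Mathlib

/-!
# Linear algebra, generic functionals (module BB11)
-/

namespace OS

namespace GP

/-- extension of additive maps into the reals -/
theorem BB11_extend {M N : Type*} [AddCommGroup M] [AddCommGroup N] (f : M →ₗ[ℤ] N)
    (hf : Function.Injective f) (g : M →ₗ[ℤ] ℝ) : ∃ h : N →ₗ[ℤ] ℝ, ∀ x, h (f x) = g x := by
  obtain ⟨h, hh⟩ := (Module.Baer.of_divisible ℝ).extension_property f hf g
  exact ⟨h, fun x => by rw [← hh]; rfl⟩

theorem BB11_lam0 {Q : Type*} [AddCommGroup Q] {s : ℕ} (b : Fin s → Q)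
    (hb : LinearIndependent ℤ b) (l : Fin s → ℝ) : ∃ h : Q →ₗ[ℤ] ℝ, ∀ j, h (b j) = l j := by
  obtain ⟨h, hh⟩ := BB11_extend (Finsupp.linearCombination ℤ b) hb (Finsupp.linearCombination ℤ l)
  refine ⟨h, fun j => ?_⟩
  have h1 := hh (Finsupp.single j 1)
  rw [Finsupp.linearCombination_single, Finsupp.linearCombination_single, one_smul,
    one_smul] at h1
  exact h1

theorem BB11_mu {Q : Type*} [AddCommGroup Q] (P : Submodule ℤ Q) (x : Q)
    (hx : ∀ m : ℕ, m • x ∈ P → m = 0) :
    ∃ h : Q →ₗ[ℤ] ℝ, (∀ y ∈ P, h y = 0) ∧ h x ≠ 0 := by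
  have hinj : Function.Injective (LinearMap.toSpanSingleton ℤ (Q ⧸ P) (P.mkQ x)) := by
    rw [← LinearMap.ker_eq_bot, LinearMap.ker_eq_bot']
    intro n hn
    rw [LinearMap.toSpanSingleton_apply, ← map_smul, Submodule.mkQ_apply,
      Submodule.Quotient.mk_eq_zero] at hn
    have h1 : n.natAbs • x ∈ P := by
      rw [← natCast_zsmul]
      rcases Int.natAbs_eq n with h | h
      · rw [← h]
        exact hn
      · have : ((n.natAbs : ℤ)) = - n := by omega
        rw [this, neg_smul]
        exact neg_mem hn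
    exact Int.natAbs_eq_zero.1 (hx _ h1)
  obtain ⟨h, hh⟩ := BB11_extend _ hinj (LinearMap.toSpanSingleton ℤ ℝ 1)
  refine ⟨h ∘ₗ P.mkQ, fun y hy => ?_, ?_⟩
  · rw [LinearMap.comp_apply, Submodule.mkQ_apply, (Submodule.Quotient.mk_eq_zero P).2 hy,
      map_zero]
  · have h1 := hh 1
    rw [LinearMap.toSpanSingleton_apply, LinearMap.toSpanSingleton_apply, one_smul,
      one_smul] at h1
    rw [LinearMap.comp_apply, h1]
    exact one_ne_zero

/-- one of `s + 1` independent elements has no multiple in the span of `s` elements -/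
theorem BB11_exists_free {Q : Type*} [AddCommGroup Q] {s : ℕ} (b : Fin s → Q)
    (y : Fin (s + 1) → Q) (hy : LinearIndependent ℤ y) :
    ∃ j, ∀ m : ℕ, m • y j ∈ Submodule.span ℤ (Set.range b) → m = 0 := by
  classical
  by_contra hcon
  push Not at hcon
  choose m hm hm0 using hcon
  have hli : LinearIndependent ℤ fun j => m j • y j := by
    rw [Fintype.linearIndependent_iff] at hy ⊢
    intro g hg j
    have h1 := hy (fun j => g j * (m j : ℤ)) (by
      rw [← hg]
      refine Finset.sum_congr rfl fun j _ => ?_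
      rw [mul_smul, natCast_zsmul]) j
    rcases mul_eq_zero.1 h1 with h2 | h2
    · exact h2
    · exact absurd (Nat.cast_eq_zero.1 h2) (hm0 j)
  have hle : Set.range (fun j => m j • y j) ≤
      (Submodule.span ℤ (Set.range b) : Set Q) := by
    rintro _ ⟨j, rfl⟩
    exact hm j
  have h1 := linearIndependent_le_span' _ hli (Set.range b) hle
  have h2 : Fintype.card (Set.range b) ≤ s := by
    have := Fintype.card_range_le b
    rwa [Fintype.card_fin] at this
  rw [Cardinal.mk_fin] at h1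
  have h3 : s + 1 ≤ Fintype.card (Set.range b) := by exact_mod_cast h1
  omega

/-- a functional which vanishes on `P` and on none of finitely many elements -/
theorem BB11_mu_fin {Q : Type*} [AddCommGroup Q] (P : Submodule ℤ Q) {κ : Type*} [Finite κ]
    (x : κ → Q) (hx : ∀ k, ∀ m : ℕ, m • x k ∈ P → m = 0) :
    ∃ h : Q →ₗ[ℤ] ℝ, (∀ y ∈ P, h y = 0) ∧ ∀ k, h (x k) ≠ 0 := by
  classical
  cases nonempty_fintype κ
  have key : ∀ S : Finset κ, ∃ h : Q →ₗ[ℤ] ℝ, (∀ y ∈ P, h y = 0) ∧ ∀ k ∈ S, h (x k) ≠ 0 := by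
    intro S
    induction S using Finset.induction_on with
    | empty => exact ⟨0, fun _ _ => rfl, fun k hk => absurd hk (Finset.notMem_empty k)⟩
    | insert i S hi ih =>
      obtain ⟨h, h1, h2⟩ := ih
      obtain ⟨h', h1', h2'⟩ := BB11_mu P (x i) (hx i)
      obtain ⟨t, ht⟩ := Infinite.exists_notMem_finset
        ((insert i S).image fun k => - h (x k) / h' (x k))
      refine ⟨h + t • h', fun y hy => ?_, fun k hk => ?_⟩
      · rw [LinearMap.add_apply, LinearMap.smul_apply, h1 y hy, h1' y hy, smul_zero, add_zero]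
      · rw [LinearMap.add_apply, LinearMap.smul_apply, smul_eq_mul]
        by_cases h0 : h' (x k) = 0
        · rw [h0, mul_zero, add_zero]
          rcases Finset.mem_insert.1 hk with rfl | hk'
          · exact absurd h0 h2'
          · exact h2 k hk'
        · intro heq
          refine ht (Finset.mem_image.2 ⟨k, hk, ?_⟩)
          rw [div_eq_iff h0]
          linarith
  obtain ⟨h, h1, h2⟩ := key Finset.univ
  exact ⟨h, h1, fun k => h2 k (Finset.mem_univ k)⟩

theorem exists_lambda {Q : Type*} [AddCommGroup Q] {s : ℕ} (b : Fin s → Q)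
    (hb : LinearIndependent ℤ b) (l : Fin s → ℝ) {ι : Type*} [Finite ι]
    (y : ι → Fin (s + 1) → Q) (hy : ∀ i, LinearIndependent ℤ (y i)) (l' : ι → Fin (s + 1) → ℝ)
    (c : Q) (hc : ∀ m : ℕ, m • c ∈ Submodule.span ℤ (Set.range b) → m = 0)
    (Bad : Set ℝ) (hBad : Bad.Countable) :
    ∃ lam : Q →+ ℝ, (∀ j, lam (b j) = l j) ∧ (∀ i, ∃ j, lam (y i j) ≠ l' i j) ∧
      lam c ∉ Bad := by
  obtain ⟨h0, hh0⟩ := BB11_lam0 b hb l
  choose j hj using fun i => BB11_exists_free b (y i) (hy i)
  obtain ⟨mu, hmP, hmx⟩ := BB11_mu_fin (Submodule.span ℤ (Set.range b))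
    (fun k : Option ι => k.elim c fun i => y i (j i)) (by
      rintro (_ | i)
      · exact hc
      · exact hj i)
  have hmc : mu c ≠ 0 := hmx none
  have hmi : ∀ i, mu (y i (j i)) ≠ 0 := fun i => hmx (some i)
  have hcount : ((Set.range fun i => (l' i (j i) - h0 (y i (j i))) / mu (y i (j i))) ∪
      ((fun β => (β - h0 c) / mu c) '' Bad)).Countable :=
    (Set.finite_range _).countable.union (hBad.image _)
  obtain ⟨t, ht⟩ := (hcount.dense_compl ℝ).nonempty
  have ht1 : ∀ i, t ≠ (l' i (j i) - h0 (y i (j i))) / mu (y i (j i)) := by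
    intro i hi
    exact ht (Or.inl ⟨i, hi.symm⟩)
  have ht2 : ∀ β ∈ Bad, t ≠ (β - h0 c) / mu c := by
    intro β hβ h
    exact ht (Or.inr ⟨β, hβ, h.symm⟩)
  refine ⟨(h0 + t • mu).toAddMonoidHom, fun i => ?_, fun i => ⟨j i, fun h => ?_⟩, fun h => ?_⟩
  · change h0 (b i) + t * mu (b i) = l i
    rw [hmP (b i) (Submodule.subset_span ⟨i, rfl⟩), mul_zero, add_zero, hh0]
  · change h0 (y i (j i)) + t * mu (y i (j i)) = l' i (j i) at h
    refine ht1 i ?_
    rw [eq_div_iff (hmi i)]
    linarith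
  · refine ht2 _ h ?_
    change t = (h0 c + t * mu c - h0 c) / mu c
    rw [eq_div_iff hmc]
    ring

theorem exists_indep_real (V : Type*) [Finite V] : ∃ l : V → ℝ, LinearIndependent ℤ l := by
  let B := Module.Basis.ofVectorSpace ℚ ℝ
  have hinf : Infinite (Module.Basis.ofVectorSpaceIndex ℚ ℝ) := by
    by_contra hfin
    rw [not_infinite_iff_finite] at hfin
    have h1 : Module.Finite ℚ ℝ := Module.Finite.of_basis B
    have e := B.equivFun.toEquiv
    have h2 : Countable ℝ := e.countable_iff.2 inferInstance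
    exact not_countable h2
  obtain ⟨n, ⟨e⟩⟩ := Finite.exists_equiv_fin V
  have f := Infinite.natEmbedding (Module.Basis.ofVectorSpaceIndex ℚ ℝ)
  have hli : LinearIndependent ℚ fun v : V => B (f (e v)) :=
    B.linearIndependent.comp _ (fun v w h => e.injective (Fin.ext (f.injective h)))
  exact ⟨_, hli.restrict_scalars' ℤ⟩

end GP

end OS
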