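import Mathlib
import Pool.Agent.Lib.MP_8fe54c_gt.SalTree

/-!
# BB12: facts on right-angled Artin groups
-/

namespace OS

namespace GP

open Finsupp MulOpposite

universe u v w u' v' w'

theorem exists_exponent {A : Type*} [Group A] (A₀ : Subgroup A) [A₀.FiniteIndex] :
    ∃ n : ℕ, n ≠ 0 ∧ ∀ a : A, a ^ n ∈ A₀ := by
  refine ⟨A₀.index.factorial, Nat.factorial_ne_zero _, fun a => ?_⟩
  obtain ⟨n, h1, h2, h3⟩ := A₀.exists_pow_mem_of_index_ne_zero
    Subgroup.FiniteIndex.index_ne_zero a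
  obtain ⟨k, hk⟩ := Nat.dvd_factorial h1 h2
  rw [hk, pow_mul]
  exact A₀.pow_mem h3 k

theorem exists_reps {A : Type*} [Group A] (A₀ : Subgroup A) [A₀.FiniteIndex] :
    ∃ t : Finset A, ∀ g : A, ∃ a ∈ A₀, ∃ h ∈ t, g = a * h := by
  classical
  have : Fintype (A ⧸ A₀) := Fintype.ofFinite _
  refine ⟨Finset.univ.image fun q : A ⧸ A₀ => (Quotient.out q)⁻¹, fun g => ?_⟩
  set q : A ⧸ A₀ := ((g⁻¹ : A) : A ⧸ A₀) with hq
  refine ⟨g * Quotient.out q, ?_, (Quotient.out q)⁻¹,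
    Finset.mem_image.2 ⟨q, Finset.mem_univ _, rfl⟩, by simp⟩
  have h1 : ((Quotient.out q : A) : A ⧸ A₀) = ((g⁻¹ : A) : A ⧸ A₀) := QuotientGroup.out_eq' q
  rw [QuotientGroup.eq] at h1
  have h2 := A₀.inv_mem h1
  rwa [mul_inv_rev, inv_inv, inv_inv] at h2

theorem BB12_indep (V : Type*) [Finite V] : ∃ l : V → ℝ, LinearIndependent ℤ l := by
  obtain ⟨n, ⟨e⟩⟩ := Finite.exists_equiv_fin V
  have h1 : (n : Cardinal) ≤ Module.rank ℚ ℝ := by
    rw [Real.rank_rat_real]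
    exact (Cardinal.natCast_lt_aleph0.le).trans Cardinal.aleph0_le_continuum
  obtain ⟨f, hf⟩ := exists_linearIndependent_of_le_rank h1
  have h2 : LinearIndependent ℤ f := by
    refine hf.restrict_scalars (R := ℤ) ?_
    intro a b hab
    simpa using hab
  exact ⟨f ∘ e, h2.comp e e.injective⟩

section raag

variable {V : Type u} [DecidableEq V]

theorem BB12_comm (G : SimpleGraph V) (ρ : Finset V) (hρ : G.IsClique (ρ : Set V)) :
    Pairwise fun v w : ρ => ∀ x y : Multiplicative ℤ,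
      Commute (zpowersHom (RAAG G) (ra v.1) x) (zpowersHom (RAAG G) (ra w.1) y) := by
  intro v w hvw x y
  rw [zpowersHom_apply, zpowersHom_apply]
  refine Commute.zpow_zpow ?_ _ _
  exact ra_comm (hρ v.2 w.2 (fun h => hvw (Subtype.ext h)))

/-- the subgroup of a clique as the image of a free abelian group -/
noncomputable def BB12_E (G : SimpleGraph V) (ρ : Finset V) (hρ : G.IsClique (ρ : Set V)) :
    Multiplicative (V → ℤ) →* RAAG G :=
  (MonoidHom.noncommPiCoprod (fun v : ρ => zpowersHom (RAAG G) (ra v.1))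
    (BB12_comm G ρ hρ)).comp
  { toFun := fun e v => Multiplicative.ofAdd (e.toAdd v.1)
    map_one' := rfl
    map_mul' := fun _ _ => rfl }

theorem BB12_E_apply (G : SimpleGraph V) (ρ : Finset V) (hρ : G.IsClique (ρ : Set V))
    {H : Type*} [CommGroup H] (f : RAAG G →* H) (e : V → ℤ) :
    f (BB12_E G ρ hρ (Multiplicative.ofAdd e)) = ∏ v ∈ ρ, f (ra v) ^ e v := by
  unfold BB12_E
  rw [MonoidHom.comp_apply, MonoidHom.noncommPiCoprod_apply, Finset.map_noncommProd,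
    Finset.noncommProd_eq_prod]
  rw [← Finset.prod_coe_sort ρ]
  refine Finset.prod_congr rfl fun v _ => ?_
  rw [← map_zpow]
  rfl

theorem BB12_E_congr (G : SimpleGraph V) (ρ : Finset V) (hρ : G.IsClique (ρ : Set V))
    (e e' : V → ℤ) (h : ∀ v ∈ ρ, e v = e' v) :
    BB12_E G ρ hρ (Multiplicative.ofAdd e) = BB12_E G ρ hρ (Multiplicative.ofAdd e') := by
  unfold BB12_E
  rw [MonoidHom.comp_apply, MonoidHom.comp_apply]
  congr 1
  funext v
  exact congrArg Multiplicative.ofAdd (h v.1 v.2)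

theorem BB12_E_single (G : SimpleGraph V) (ρ : Finset V) (hρ : G.IsClique (ρ : Set V)) {v : V}
    (hv : v ∈ ρ) (n : ℤ) :
    BB12_E G ρ hρ (Multiplicative.ofAdd (Pi.single v n)) = ra v ^ n := by
  unfold BB12_E
  rw [MonoidHom.comp_apply]
  have h1 : ({ toFun := fun e v => Multiplicative.ofAdd (e.toAdd v.1)
               map_one' := rfl
               map_mul' := fun _ _ => rfl } : Multiplicative (V → ℤ) →* (ρ → Multiplicative ℤ))
      (Multiplicative.ofAdd (Pi.single v n)) =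
      Pi.mulSingle (⟨v, hv⟩ : ρ) (Multiplicative.ofAdd n) := by
    funext w
    change Multiplicative.ofAdd ((Pi.single v n : V → ℤ) w.1) = _
    by_cases hw : w = ⟨v, hv⟩
    · rw [hw, Pi.mulSingle_eq_same]
      change Multiplicative.ofAdd ((Pi.single v n : V → ℤ) v) = _
      rw [Pi.single_eq_same]
    · rw [Pi.mulSingle_eq_of_ne hw, Pi.single_eq_of_ne (fun h => hw (Subtype.ext h))]
      rfl
  rw [h1, MonoidHom.noncommPiCoprod_mulSingle]
  rfl

theorem BB12_E_mem (G : SimpleGraph V) (ρ : Finset V) (hρ : G.IsClique (ρ : Set V))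
    (e : Multiplicative (V → ℤ)) : BB12_E G ρ hρ e ∈ sg G (ρ : Set V) := by
  unfold BB12_E
  rw [MonoidHom.comp_apply]
  have h1 : ∀ x, MonoidHom.noncommPiCoprod (fun v : ρ => zpowersHom (RAAG G) (ra v.1))
      (BB12_comm G ρ hρ) x ∈ ⨆ v : ρ, (zpowersHom (RAAG G) (ra v.1)).range := by
    intro x
    rw [← MonoidHom.noncommPiCoprod_range (hcomm := BB12_comm G ρ hρ)]
    exact ⟨x, rfl⟩
  have h2 : (⨆ v : ρ, (zpowersHom (RAAG G) (ra v.1)).range) ≤ sg G (ρ : Set V) := by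
    refine iSup_le fun v => ?_
    rintro _ ⟨n, rfl⟩
    rw [zpowersHom_apply]
    exact (sg G (ρ : Set V)).zpow_mem (ra_mem_sg v.2) _
  exact h2 (h1 _)

theorem BB12_E_surj (G : SimpleGraph V) (ρ : Finset V) (hρ : G.IsClique (ρ : Set V))
    {x : RAAG G} (hx : x ∈ sg G (ρ : Set V)) : ∃ e : V → ℤ, (∀ v, v ∉ ρ → e v = 0) ∧
      BB12_E G ρ hρ (Multiplicative.ofAdd e) = x := by
  have h1 : sg G (ρ : Set V) ≤ (BB12_E G ρ hρ).range := by
    rw [sg, Subgroup.closure_le]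
    rintro _ ⟨v, hv, rfl⟩
    refine ⟨Multiplicative.ofAdd (Pi.single v 1), ?_⟩
    rw [BB12_E_single G ρ hρ hv, zpow_one]
  obtain ⟨e, he⟩ := h1 hx
  refine ⟨fun v => if v ∈ ρ then e.toAdd v else 0, fun v hv => if_neg hv, ?_⟩
  rw [← he]
  exact BB12_E_congr G ρ hρ _ _ fun v hv => if_pos hv

/-- the subgroup of a clique is free abelian -/
theorem exists_flat (G : SimpleGraph V) (ρ : Finset V) (hρ : G.IsClique (ρ : Set V)) :
    ∃ E : Multiplicative (V → ℤ) →* RAAG G, (∀ e, E e ∈ sg G (ρ : Set V)) ∧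
      (∀ v ∈ ρ, ∀ n : ℤ, E (Multiplicative.ofAdd (Pi.single v n)) = ra v ^ n) ∧
      (∀ x ∈ sg G (ρ : Set V), ∃ e : V → ℤ, (∀ v, v ∉ ρ → e v = 0) ∧
        E (Multiplicative.ofAdd e) = x) ∧
      (∀ e : V → ℤ, (∀ v, v ∉ ρ → e v = 0) → E (Multiplicative.ofAdd e) = 1 → e = 0) ∧
      ∀ (H : Type u') [CommGroup H] (f : RAAG G →* H) (e : V → ℤ),
        f (E (Multiplicative.ofAdd e)) = ∏ v ∈ ρ, f (ra v) ^ e v := by
  refine ⟨BB12_E G ρ hρ, BB12_E_mem G ρ hρ, fun v hv n => BB12_E_single G ρ hρ hv n,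
    fun x hx => BB12_E_surj G ρ hρ hx, ?_, fun H _ f e => BB12_E_apply G ρ hρ f e⟩
  intro e he h1
  set ab : RAAG G →* Multiplicative (V → ℤ) :=
    raLift (fun v => Multiplicative.ofAdd (Pi.single v 1)) (fun _ _ _ => Commute.all _ _) with hab
  have h2 := BB12_E_apply G ρ hρ ab e
  rw [h1, map_one] at h2
  have h3 : ∀ v, ab (ra v) ^ e v = Multiplicative.ofAdd (Pi.single v (e v)) := by
    intro v
    rw [hab, raLift_ra, ← ofAdd_zsmul]
    congr 1
    rw [← Pi.single_smul, smul_eq_mul, mul_one]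
  simp only [h3] at h2
  rw [← ofAdd_sum] at h2
  have h4 : ∑ v ∈ ρ, (Pi.single v (e v) : V → ℤ) = 0 := by
    have := congrArg Multiplicative.toAdd h2
    exact this.symm
  funext w
  by_cases hw : w ∈ ρ
  · have h5 := congrFun h4 w
    rw [Finset.sum_apply, Finset.sum_eq_single_of_mem w hw] at h5
    · rwa [Pi.single_eq_same] at h5
    · intro v _ hvw
      exact Pi.single_eq_of_ne (Ne.symm hvw) _
  · exact he w hw

theorem sg_comm {G : SimpleGraph V} {ρ : Finset V} (hρ : G.IsClique (ρ : Set V)) {x y : RAAG G}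
    (hx : x ∈ sg G (ρ : Set V)) (hy : y ∈ sg G (ρ : Set V)) : x * y = y * x := by
  obtain ⟨e, -, rfl⟩ := BB12_E_surj G ρ hρ hx
  obtain ⟨e', -, rfl⟩ := BB12_E_surj G ρ hρ hy
  rw [← map_mul (BB12_E G ρ hρ), ← map_mul (BB12_E G ρ hρ), mul_comm]

/-- a real valued homomorphism which is injective on the flats -/
theorem exists_length (G : SimpleGraph V) [Finite V] :
    ∃ L : RAAG G →* Multiplicative ℝ, ∀ ρ : Finset V, G.IsClique (ρ : Set V) →
      ∀ x ∈ sg G (ρ : Set V), L x = 1 → x = 1 := by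
  obtain ⟨l, hl⟩ := BB12_indep V
  refine ⟨raLift (fun v => Multiplicative.ofAdd (l v)) (fun _ _ _ => Commute.all _ _), ?_⟩
  intro ρ hρ x hx h1
  obtain ⟨e, he, rfl⟩ := BB12_E_surj G ρ hρ hx
  rw [BB12_E_apply] at h1
  simp only [raLift_ra, ← ofAdd_zsmul] at h1
  rw [← ofAdd_sum] at h1
  have h2 : ∑ v ∈ ρ, e v • l v = 0 := congrArg Multiplicative.toAdd h1
  have h3 : ∀ v ∈ ρ, e v = 0 := by
    have := linearIndependent_iff'.1 hl ρ e h2
    exact this
  have h4 : e = 0 := by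
    funext v
    by_cases hv : v ∈ ρ
    · exact h3 v hv
    · exact he v hv
  rw [h4, ofAdd_zero, map_one]

end raag

end GP

end OS
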