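import Mathlib
import Pool.Agent.Lib.MP_8fe54c_gt.KCent
import Pool.Agent.Lib.MP_8fe54c_gt.KZig
import Pool.Agent.Lib.MP_8fe54c_gt.KArt
import Pool.Agent.Lib.MP_8fe54c_gt.BBDefs

/-!
# Project BB, module BB1: sets with trivial and with nontrivial stabilisers
-/

namespace OS

namespace GP

open Finsupp MulOpposite

universe u v w u' v' w'

section bb1

variable {Γ : Type*} [Group Γ] {Q : Type*} [MulAction Γ Q] {M : Type*} [AddCommGroup M]
  [DistribMulAction Γ M]

/-- restriction to a subset -/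
noncomputable def BB1_res (M : Type*) [AddCommGroup M] (P : Q → Prop) :
    TW Q M →+ TW {q // P q} M :=
  (Finsupp.subtypeDomainAddMonoidHom : (Q →₀ M) →+ ({q // P q} →₀ M))

theorem BB1_res_apply (P : Q → Prop) (f : TW Q M) (q : {q // P q}) :
    (show {q // P q} →₀ M from BB1_res M P f) q = (show Q →₀ M from f) (q : Q) := rfl

/-- extension by zero -/
noncomputable def BB1_ext (M : Type*) [AddCommGroup M] (P : Q → Prop) :
    TW {q // P q} M →+ TW Q M :=
  (Finsupp.mapDomain.addMonoidHom (Subtype.val : {q // P q} → Q) :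
    ({q // P q} →₀ M) →+ (Q →₀ M))

theorem BB1_ext_apply (P : Q → Prop) (f : TW {q // P q} M) (q : Q) (hq : P q) :
    (show Q →₀ M from BB1_ext M P f) q = (show {q // P q} →₀ M from f) ⟨q, hq⟩ :=
  Finsupp.mapDomain_apply Subtype.val_injective (show {q // P q} →₀ M from f) ⟨q, hq⟩

theorem BB1_ext_apply_not (P : Q → Prop) (f : TW {q // P q} M) (q : Q) (hq : ¬ P q) :
    (show Q →₀ M from BB1_ext M P f) q = 0 :=
  Finsupp.mapDomain_of_notMem_range (show {q // P q} →₀ M from f) q (by
    rintro ⟨x, rfl⟩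
    exact hq x.2)

theorem BB1_res_smul (P : Q → Prop) [MulAction Γ {q // P q}]
    (h1 : ∀ (g : Γ) (q : {q // P q}), ((g • q : {q // P q}) : Q) = g • (q : Q)) (g : Γ)
    (f : TW Q M) : BB1_res M P (g • f) = g • BB1_res M P f := by
  refine Finsupp.ext fun q => ?_
  change (show {q // P q} →₀ M from BB1_res M P (g • f)) q =
    (show {q // P q} →₀ M from g • BB1_res M P f) q
  rw [BB1_res_apply, tw_smul_apply, tw_smul_apply, BB1_res_apply, h1]

theorem BB1_ext_smul (P : Q → Prop) (hP : ∀ (g : Γ) q, P q → P (g • q))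
    [MulAction Γ {q // P q}]
    (h1 : ∀ (g : Γ) (q : {q // P q}), ((g • q : {q // P q}) : Q) = g • (q : Q)) (g : Γ)
    (f : TW {q // P q} M) : BB1_ext M P (g • f) = g • BB1_ext M P f := by
  refine Finsupp.ext fun q => ?_
  change (show Q →₀ M from BB1_ext M P (g • f)) q = (show Q →₀ M from g • BB1_ext M P f) q
  rw [tw_smul_apply]
  by_cases hq : P q
  · rw [BB1_ext_apply P _ q hq, BB1_ext_apply P _ _ (hP g⁻¹ q hq), tw_smul_apply]
    congr 2
    exact Subtype.ext (h1 _ _)
  · have hq' : ¬ P (g⁻¹ • q) := by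
      intro h
      apply hq
      have h2 := hP g _ h
      rwa [smul_inv_smul] at h2
    rw [BB1_ext_apply_not P _ q hq, BB1_ext_apply_not P _ _ hq', smul_zero]

theorem BB1_sum (P : Q → Prop) (f : TW Q M) :
    BB1_ext M P (BB1_res M P f) +
      BB1_ext M (fun q => ¬ P q) (BB1_res M (fun q => ¬ P q) f) = f := by
  refine Finsupp.ext fun q => ?_
  change (show Q →₀ M from BB1_ext M P (BB1_res M P f)) q +
    (show Q →₀ M from BB1_ext M (fun q => ¬ P q) (BB1_res M (fun q => ¬ P q) f)) q =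
      (show Q →₀ M from f) q
  by_cases hq : P q
  · rw [BB1_ext_apply P _ q hq, BB1_ext_apply_not (fun q => ¬ P q) _ q (not_not.2 hq),
      BB1_res_apply, add_zero]
  · rw [BB1_ext_apply_not P _ q hq, BB1_ext_apply (fun q => ¬ P q) _ q hq, BB1_res_apply,
      zero_add]

end bb1

/-- union of two invariant subsets -/
theorem HV_set_union {Γ : Type v} [Group Γ] (R : FreeRes.{u, v} Γ) (Q : Type w)
    [MulAction Γ Q] (M : Type w') [AddCommGroup M] [DistribMulAction Γ M] (P : Q → Prop)
    (hP : ∀ (g : Γ) q, P q → P (g • q)) [MulAction Γ {q // P q}] [MulAction Γ {q // ¬ P q}]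
    (h1 : ∀ (g : Γ) (q : {q // P q}), ((g • q : {q // P q}) : Q) = g • (q : Q))
    (h2 : ∀ (g : Γ) (q : {q // ¬ P q}), ((g • q : {q // ¬ P q}) : Q) = g • (q : Q)) (p : ℕ)
    (hv1 : HV (MonoidHom.id Γ) R (TW {q // P q} M) p)
    (hv2 : HV (MonoidHom.id Γ) R (TW {q // ¬ P q} M) p) :
    HV (MonoidHom.id Γ) R (TW Q M) p := by
  have hP' : ∀ (g : Γ) q, ¬ P q → ¬ P (g • q) := by
    intro g q hq h
    apply hq
    have h3 := hP g⁻¹ _ h
    rwa [inv_smul_smul] at h3
  intro f hf hc
  obtain ⟨f1, hf1, hb1⟩ := hv1 (fun x => BB1_res M P (f x)) (by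
    intro g x
    change BB1_res M P (f (g • x)) = g • BB1_res M P (f x)
    rw [hf g x, ← BB1_res_smul P h1]
    rfl) (by
    cases p with
    | zero => trivial
    | succ k =>
      change bdM R k (fun x => BB1_res M P (f x)) = 0
      funext y
      rw [bdM_map]
      have h3 : bdM R k f y = 0 := congrFun hc y
      rw [h3, map_zero]
      rfl)
  obtain ⟨f2, hf2, hb2⟩ := hv2 (fun x => BB1_res M (fun q => ¬ P q) (f x)) (by
    intro g x
    change BB1_res M (fun q => ¬ P q) (f (g • x)) = g • BB1_res M (fun q => ¬ P q) (f x)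
    rw [hf g x, ← BB1_res_smul (fun q => ¬ P q) h2]
    rfl) (by
    cases p with
    | zero => trivial
    | succ k =>
      change bdM R k (fun x => BB1_res M (fun q => ¬ P q) (f x)) = 0
      funext y
      rw [bdM_map]
      have h3 : bdM R k f y = 0 := congrFun hc y
      rw [h3, map_zero]
      rfl)
  refine ⟨(fun x => BB1_ext M P (f1 x)) + fun x => BB1_ext M (fun q => ¬ P q) (f2 x), ?_, ?_⟩
  · intro g x
    change BB1_ext M P (f1 (g • x)) + BB1_ext M (fun q => ¬ P q) (f2 (g • x)) =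
      g • (BB1_ext M P (f1 x) + BB1_ext M (fun q => ¬ P q) (f2 x))
    rw [hf1 g x, hf2 g x, smul_add, ← BB1_ext_smul P hP h1,
      ← BB1_ext_smul (fun q => ¬ P q) hP' h2]
    rfl
  · rw [bdM_add]
    funext y
    rw [Pi.add_apply, bdM_map, bdM_map, hb1, hb2]
    exact BB1_sum P (f y)

/-- stabilisers with central elements which act without eigenvalue one -/
theorem BB1_cent {Γ : Type v} [Group Γ] (R : FreeRes.{u, v} Γ) (Q : Type w)
    [MulAction Γ Q] (M : Type w') [AddCommGroup M] [DistribMulAction Γ M]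
    (h : ∀ q : Q, ∃ z : Γ, z • q = q ∧ (∀ g : Γ, g • q = q → g * z = z * g) ∧
        Function.Bijective (fun m : M => z • m - m))
    (p : ℕ) : HV (MonoidHom.id Γ) R (TW Q M) p := by
  choose z hz1 hz2 hz3 using h
  let rep : Q → Q := fun x => Quotient.out (Quotient.mk (MulAction.orbitRel Γ Q) x)
  have hrep : ∀ x, ∃ g : Γ, g • rep x = x := by
    intro x
    have h1 : (MulAction.orbitRel Γ Q) x (rep x) :=
      (MulAction.orbitRel Γ Q).symm (Quotient.mk_out (s := MulAction.orbitRel Γ Q) x)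
    exact MulAction.orbitRel_apply.1 h1
  have hrep2 : ∀ (g : Γ) x, rep (g • x) = rep x := by
    intro g x
    show Quotient.out _ = Quotient.out _
    congr 1
    apply Quotient.sound
    exact MulAction.orbitRel_apply.2 ⟨g, rfl⟩
  choose g hg using hrep
  refine HV_set_of_central_gen R Q M (fun q => g q * z (rep q) * (g q)⁻¹) ?_ ?_ ?_ p
  · intro q
    have h1 : (g q)⁻¹ • q = rep q := by
      rw [inv_smul_eq_iff]
      exact (hg q).symm
    rw [mul_smul, mul_smul, h1, hz1, hg]
  · intro a q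
    have h1 : g (a • q) • rep q = a • q := by
      have h2 := hg (a • q)
      rwa [hrep2] at h2
    have h2 : ((a * g q)⁻¹ * g (a • q)) • rep q = rep q := by
      rw [mul_smul, h1, inv_smul_eq_iff, mul_smul, hg]
    have h3 := hz2 (rep q) _ h2
    change g (a • q) * z (rep (a • q)) * (g (a • q))⁻¹ = a * (g q * z (rep q) * (g q)⁻¹) * a⁻¹
    rw [hrep2]
    have h4 : g (a • q) = (a * g q) * ((a * g q)⁻¹ * g (a • q)) := by group
    have h5 : g (a • q) * z (rep q) = (a * g q) * z (rep q) * ((a * g q)⁻¹ * g (a • q)) := by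
      conv_lhs => rw [h4]
      rw [mul_assoc, h3]
      group
    rw [h5]
    group
  · intro q
    have h1 : (fun m : M => (g q * z (rep q) * (g q)⁻¹) • m - m) =
        (fun m : M => g q • m) ∘ (fun m : M => z (rep q) • m - m) ∘
          (fun m : M => (g q)⁻¹ • m) := by
      funext m
      change (g q * z (rep q) * (g q)⁻¹) • m - m =
        g q • (z (rep q) • ((g q)⁻¹ • m) - (g q)⁻¹ • m)
      rw [smul_sub, smul_inv_smul, mul_smul, mul_smul]
    rw [h1]
    exact (MulAction.bijective (g q)).comp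
      ((hz3 (rep q)).comp (MulAction.bijective (g q)⁻¹))

theorem HV_set_mixed {Γ : Type v} [Group Γ] (R : FreeRes.{u, v} Γ) (Q : Type w)
    [MulAction Γ Q] (M : Type w') [AddCommGroup M] [DistribMulAction Γ M]
    (h : ∀ q : Q, (∀ g : Γ, g • q = q → g = 1) ∨
      ∃ z : Γ, z • q = q ∧ (∀ g : Γ, g • q = q → g * z = z * g) ∧
        Function.Bijective (fun m : M => z • m - m))
    (p : ℕ) (hp : p ≠ 0 ∨ ∀ q : Q, ∃ g : Γ, g • q = q ∧ g ≠ 1) :
    HV (MonoidHom.id Γ) R (TW Q M) p := by
  by_cases hp0 : p = 0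
  · have hp' := hp.resolve_left (not_not.2 hp0)
    refine BB1_cent R Q M (fun q => ?_) p
    rcases h q with h1 | h1
    · obtain ⟨g, hg, hg1⟩ := hp' q
      exact absurd (h1 g hg) hg1
    · exact h1
  · let P : Q → Prop := fun q => ∀ g : Γ, g • q = q → g = 1
    have hP : ∀ (g : Γ) q, P q → P (g • q) := by
      intro a q hq g hg
      have h1 : (a⁻¹ * g * a) • q = q := by
        rw [mul_smul, mul_smul, hg, inv_smul_smul]
      have h2 := hq _ h1
      have h3 : g = a * (a⁻¹ * g * a) * a⁻¹ := by group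
      rw [h3, h2]
      group
    have hP' : ∀ (g : Γ) q, ¬ P q → ¬ P (g • q) := by
      intro g q hq h
      apply hq
      have h3 := hP g⁻¹ _ h
      rwa [inv_smul_smul] at h3
    let i1 : MulAction Γ {q // P q} :=
      { smul := fun g q => ⟨g • (q : Q), hP g q q.2⟩
        one_smul := fun q => Subtype.ext (one_smul Γ (q : Q))
        mul_smul := fun a b q => Subtype.ext (mul_smul a b (q : Q)) }
    let i2 : MulAction Γ {q // ¬ P q} :=
      { smul := fun g q => ⟨g • (q : Q), hP' g q q.2⟩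
        one_smul := fun q => Subtype.ext (one_smul Γ (q : Q))
        mul_smul := fun a b q => Subtype.ext (mul_smul a b (q : Q)) }
    refine HV_set_union R Q M P hP (fun _ _ => rfl) (fun _ _ => rfl) p ?_ ?_
    · refine HV_set_of_free R {q // P q} ?_ M p hp0
      intro g x hx
      exact x.2 g (congrArg Subtype.val hx)
    · refine BB1_cent R {q // ¬ P q} M (fun q => ?_) p
      obtain ⟨z, hz1, hz2, hz3⟩ := (h (q : Q)).resolve_left q.2
      exact ⟨z, Subtype.ext hz1, fun g hg => hz2 g (congrArg Subtype.val hg), hz3⟩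

/-- an element of infinite order acts on `UM Γ` without eigenvalue one, invertibly -/
theorem um_bij {Γ : Type v} [Group Γ] (z : Γ) (hz : ∀ n : ℕ, z ^ n = 1 → n = 0) :
    Function.Bijective (fun m : UM Γ => z • m - m) := by
  obtain ⟨U, hU⟩ := K5_unit hz
  have h1 : (fun m : UM Γ => z • m - m) = fun m => m * (U : UM Γ) := by
    funext m
    rw [hU, op_sub, map_sub, op_one, map_one, mul_sub, mul_one]
    rfl
  rw [h1]
  exact Units.mulRight_bijective U

theorem rch_bij {Γ : Type v} [Group Γ] (φ : Γ →* ℝˣ) (z : Γ) (hz : φ z ≠ 1) :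
    Function.Bijective (fun m : RCh φ => z • m - m) := by
  have h0 : ((φ z : ℝˣ) : ℝ) - 1 ≠ 0 := by
    intro h
    apply hz
    ext
    rw [Units.val_one]
    linarith
  have h1 : (fun m : RCh φ => z • m - m) =
      fun m : ℝ => (((φ z : ℝˣ) : ℝ) - 1) * m := by
    funext m
    change ((φ z : ℝˣ) : ℝ) * (show ℝ from m) - (show ℝ from m) = _
    ring
  rw [h1]
  exact mulLeft_bijective₀ _ h0

end GP

end OS
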