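import Mathlib
import Pool.Agent.Lib.MP_8fe54c_gt.BBDefs
import Pool.Agent.Lib.MP_8fe54c_gt.SalRes
import Pool.Agent.Lib.MP_8fe54c_gt.BBMix
import Pool.Agent.Lib.MP_8fe54c_gt.BBConv
import Pool.Agent.Lib.MP_8fe54c_gt.BBExact
import Pool.Agent.Lib.MP_8fe54c_gt.BBChar
import Pool.Agent.Lib.MP_8fe54c_gt.BBLin
import Pool.Agent.Lib.MP_8fe54c_gt.BBRaag

/-!
# PROJECT BB, module BB13: finite type implies that links are acyclic (helper20)

Let `A` be a right-angled Artin group, `A₀` a subgroup of finite index, `N ≤ A₀` containing the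
commutators of `A₀`, `K` a subgroup of finite index of `N` with a free resolution of finite type.
If a conjugate of the flat of the clique `ρ` meets `N` trivially and does not contain, up to `N`,
a power of every element of `A₀`, then the link of `ρ` is acyclic over the reals.
-/

namespace OS

namespace GP

open Finsupp MulOpposite

universe u v w u' v' w'

/-! ## BB13 (file BBType): finite type implies that links are acyclic -/

section bbtype

/-- an additive function on `V → ℤ`, evaluated at a function supported on `σ` -/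
theorem BB13_supp {V : Type u} [DecidableEq V] {Q : Type*} [AddCommGroup Q]
    (T : (V → ℤ) →+ Q) (σ : Finset V) (e : V → ℤ) (he : ∀ v, v ∉ σ → e v = 0) :
    T e = ∑ v ∈ σ, e v • T (Pi.single v 1) := by
  have h1 : e = ∑ v ∈ σ, e v • (Pi.single v 1 : V → ℤ) := by
    funext w
    rw [Finset.sum_apply]
    by_cases hw : w ∈ σ
    · rw [Finset.sum_eq_single w]
      · simp
      · intro v _ hvw
        simp [Ne.symm hvw]
      · exact fun h => absurd hw h
    · rw [he w hw, Finset.sum_eq_zero]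
      intro v hv
      have : w ≠ v := fun h => hw (h ▸ hv)
      simp [this]
  conv_lhs => rw [h1]
  rw [map_sum]
  exact Finset.sum_congr rfl fun v _ => map_zsmul T _ _

/-- powers of conjugates of the generators -/
def BB13_cj {V : Type u} {G : SimpleGraph V} {A₀ : Subgroup (RAAG G)} {n₀ : ℕ}
    (hexp : ∀ a : RAAG G, a ^ n₀ ∈ A₀) (g x : RAAG G) : A₀ :=
  ⟨(g * x * g⁻¹) ^ n₀, hexp _⟩

theorem BB13_conj_pow {A : Type*} [Group A] (g x : A) (n : ℕ) :
    (g * x * g⁻¹) ^ n = g * x ^ n * g⁻¹ := by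
  rw [← MulAut.conj_apply, ← map_pow, MulAut.conj_apply]

/-- the homomorphism of a flat to the abelian quotient -/
theorem BB13_theta {V : Type u} [DecidableEq V] (G : SimpleGraph V)
    (A₀ N : Subgroup (RAAG G)) {n₀ : ℕ} (hn₀ : n₀ ≠ 0) (hexp : ∀ a : RAAG G, a ^ n₀ ∈ A₀)
    {Qa : Type u} [AddCommGroup Qa] (π : A₀ →* Multiplicative Qa)
    (hπ : ∀ a : A₀, π a = 1 ↔ (a : RAAG G) ∈ N) (L : RAAG G →* Multiplicative ℝ)
    (σ : Finset V) (hσ : G.IsClique (σ : Set V)) (g : RAAG G) :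
    ∃ T : (V → ℤ) →+ Qa,
      (∀ v ∈ σ, T (Pi.single v 1) = (π (BB13_cj hexp g (ra v))).toAdd) ∧
      ((∀ x ∈ sg G (σ : Set V), g * x * g⁻¹ ∈ N → x = 1) →
        ∀ e : V → ℤ, (∀ v, v ∉ σ → e v = 0) → T e = 0 → e = 0) ∧
      (∀ x ∈ sg G (σ : Set V), ∀ a : A₀, (a : RAAG G) = g * x * g⁻¹ → ∃ e : V → ℤ,
        (∀ v, v ∉ σ → e v = 0) ∧ n₀ • (π a).toAdd = T e ∧
          (L a).toAdd = ∑ v ∈ σ, (e v : ℝ) * (L (ra v)).toAdd) ∧
      ∀ e : V → ℤ, ∃ x ∈ sg G (σ : Set V), ∃ a : A₀, (a : RAAG G) = g * x * g⁻¹ ∧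
        T e = (π a).toAdd := by
  obtain ⟨E, hE1, hE2, hE3, hE4, hE5⟩ := exists_flat.{u, 0} G σ hσ
  have hmul : ∀ e f : Multiplicative (V → ℤ), BB13_cj hexp g (E (e * f)) =
      BB13_cj hexp g (E e) * BB13_cj hexp g (E f) := by
    intro e f
    apply Subtype.ext
    change (g * E (e * f) * g⁻¹) ^ n₀ = (g * E e * g⁻¹) ^ n₀ * (g * E f * g⁻¹) ^ n₀
    have hc : Commute (E e) (E f) := by
      change E e * E f = E f * E e
      rw [← map_mul, mul_comm e f, map_mul]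
    rw [BB13_conj_pow, BB13_conj_pow, BB13_conj_pow, map_mul, hc.mul_pow]
    group
  let θ : Multiplicative (V → ℤ) →* A₀ :=
    { toFun := fun e => BB13_cj hexp g (E e)
      map_one' := by
        apply Subtype.ext
        change (g * E 1 * g⁻¹) ^ n₀ = 1
        rw [map_one, mul_one, mul_inv_cancel, one_pow]
      map_mul' := hmul }
  have hθ : ∀ e : V → ℤ, ((θ (Multiplicative.ofAdd e) : A₀) : RAAG G) =
      g * E (Multiplicative.ofAdd e) ^ n₀ * g⁻¹ := by
    intro e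
    change (g * E (Multiplicative.ofAdd e) * g⁻¹) ^ n₀ = _
    rw [BB13_conj_pow]
  let T : (V → ℤ) →+ Qa := MonoidHom.toAdditive (π.comp θ)
  have hT : ∀ e : V → ℤ, T e = (π (θ (Multiplicative.ofAdd e))).toAdd := fun e => rfl
  refine ⟨T, ?_, ?_, ?_, ?_⟩
  · intro v hv
    rw [hT]
    congr 2
    apply Subtype.ext
    rw [hθ, hE2 v hv 1, zpow_one]
    exact (BB13_conj_pow g (ra v) n₀).symm
  · intro hfree e he h0
    rw [hT] at h0
    have h1 : π (θ (Multiplicative.ofAdd e)) = 1 := h0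
    rw [hπ, hθ] at h1
    have h2 := hfree _ ((sg G (σ : Set V)).pow_mem (hE1 _) n₀) h1
    have h3 : E (Multiplicative.ofAdd (n₀ • e)) = 1 := by
      rw [ofAdd_nsmul, map_pow, h2]
    have h4 := hE4 (n₀ • e) (fun v hv => by simp [he v hv]) h3
    funext v
    have h5 := congrFun h4 v
    simpa [hn₀] using h5
  · intro x hx a ha
    obtain ⟨e, he, hEe⟩ := hE3 x hx
    refine ⟨e, he, ?_, ?_⟩
    · rw [hT]
      have h1 : θ (Multiplicative.ofAdd e) = a ^ n₀ := by
        apply Subtype.ext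
        rw [hθ, hEe, SubmonoidClass.coe_pow, ha, BB13_conj_pow]
      rw [h1, map_pow]
      rfl
    · have h1 : L (a : RAAG G) = L x := by
        rw [ha, map_mul, map_mul, mul_right_comm, ← map_mul, mul_inv_cancel, map_one, one_mul]
      rw [h1, ← hEe, hE5 (Multiplicative ℝ) L e, toAdd_prod]
      refine Finset.sum_congr rfl fun v _ => ?_
      rw [toAdd_zpow, zsmul_eq_mul]
  · intro e
    exact ⟨_, (sg G (σ : Set V)).pow_mem (hE1 _) n₀, _, hθ e, hT e⟩

/-- independence -/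
theorem BB13_indep {V : Type u} [DecidableEq V] {Qa : Type*} [AddCommGroup Qa]
    (T : (V → ℤ) →+ Qa) (σ : Finset V)
    (hT : ∀ e : V → ℤ, (∀ v, v ∉ σ → e v = 0) → T e = 0 → e = 0) {k : ℕ} (w : Fin k → V)
    (hw : Function.Injective w) (hwσ : ∀ j, w j ∈ σ) :
    LinearIndependent ℤ (fun j => T (Pi.single (w j) 1)) := by
  rw [Fintype.linearIndependent_iff]
  intro c hc j
  have h1 : ∀ i, (∑ j, c j • (Pi.single (w j) 1 : V → ℤ)) (w i) = c i := by
    intro i
    rw [Finset.sum_apply, Finset.sum_eq_single i]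
    · simp
    · intro m _ hm
      have : w i ≠ w m := fun h => hm (hw h).symm
      simp [this]
    · intro h
      exact absurd (Finset.mem_univ i) h
  have h2 : (∑ j, c j • (Pi.single (w j) 1 : V → ℤ)) = 0 := by
    apply hT
    · intro v hv
      rw [Finset.sum_apply]
      refine Finset.sum_eq_zero fun m _ => ?_
      have : v ≠ w m := fun h => hv (h ▸ hwσ m)
      simp [this]
    · rw [map_sum, ← hc]
      exact Finset.sum_congr rfl fun m _ => map_zsmul T _ _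
  rw [← h1 j, h2]
  rfl

/-- a functional with prescribed values on the generators -/
theorem BB13_lam {V : Type u} [DecidableEq V] {Qa : Type*} [AddCommGroup Qa]
    (T : (V → ℤ) →+ Qa) (σ : Finset V) (lam : Qa →+ ℝ) (f : V → ℝ)
    (hlam : ∀ v ∈ σ, lam (T (Pi.single v 1)) = f v) (e : V → ℤ) (he : ∀ v, v ∉ σ → e v = 0) :
    lam (T e) = ∑ v ∈ σ, (e v : ℝ) * f v := by
  rw [BB13_supp T σ e he, map_sum]
  refine Finset.sum_congr rfl fun v hv => ?_
  rw [map_zsmul, hlam v hv, zsmul_eq_mul]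

/-- vanishing for the cosets of a flat -/
theorem BB13_HV {V : Type u} [Fintype V] [LinearOrder V] (G : SimpleGraph V)
    (A₀ : Subgroup (RAAG G)) (R : FreeRes.{u, u} A₀) (φ : A₀ →* ℝˣ) (σ : Finset V)
    (hσ : cliq G σ)
    (h : ∀ g : RAAG G, ∃ z : A₀, g⁻¹ * (z : RAAG G) * g ∈ sg G (σ : Set V) ∧ φ z ≠ 1) (p : ℕ) :
    HV (MonoidHom.id A₀) R (TW ((raSys G).Q σ) (RCh φ)) p := by
  have key : ∀ q : (raSys G).Q σ, ∃ z : A₀, z • q = q ∧ (∀ g : A₀, g • q = q → g * z = z * g) ∧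
      φ z ≠ 1 := by
    intro q
    obtain ⟨g, rfl⟩ := raC_surj σ q
    obtain ⟨z, hz, hφ⟩ := h g
    refine ⟨z, (smul_raC_eq A₀ z σ g).2 hz, ?_, hφ⟩
    intro y hy
    rw [smul_raC_eq] at hy
    apply Subtype.ext
    have h1 := sg_comm hσ hy hz
    have h2 : g⁻¹ * ((y : RAAG G) * (z : RAAG G)) * g = g⁻¹ * ((z : RAAG G) * (y : RAAG G)) * g := by
      calc g⁻¹ * ((y : RAAG G) * (z : RAAG G)) * g
          = (g⁻¹ * (y : RAAG G) * g) * (g⁻¹ * (z : RAAG G) * g) := by group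
        _ = (g⁻¹ * (z : RAAG G) * g) * (g⁻¹ * (y : RAAG G) * g) := h1
        _ = g⁻¹ * ((z : RAAG G) * (y : RAAG G)) * g := by group
    exact mul_left_cancel (mul_right_cancel h2)
  refine HV_set_mixed R _ _ (fun q => Or.inr ?_) p (Or.inr ?_)
  · obtain ⟨z, h1, h2, h3⟩ := key q
    exact ⟨z, h1, h2, rch_bij φ z h3⟩
  · intro q
    obtain ⟨z, h1, h2, h3⟩ := key q
    refine ⟨z, h1, ?_⟩
    rintro rfl
    exact h3 (map_one φ)

/-- the abelian quotient -/
theorem BB13_quot {A : Type u} [Group A] (A₀ N : Subgroup A) (hN : Coab A₀ N) :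
    ∃ (Qa : Type u) (_ : AddCommGroup Qa) (π : A₀ →* Multiplicative Qa),
      ∀ a : A₀, π a = 1 ↔ (a : A) ∈ N := by
  have hnor : (N.subgroupOf A₀).Normal := by
    refine ⟨fun n hn a => ?_⟩
    rw [Subgroup.mem_subgroupOf] at hn ⊢
    have h1 := N.mul_mem (hN.comm (a : A) a.2 (n : A) n.2) hn
    have h2 : ((a * n * a⁻¹ : A₀) : A) = (a : A) * n * (a : A)⁻¹ * (n : A)⁻¹ * n := by
      simp
    rw [h2]
    exact h1
  let _ : CommGroup (A₀ ⧸ N.subgroupOf A₀) :=
    { (inferInstance : Group (A₀ ⧸ N.subgroupOf A₀)) with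
      mul_comm := by
        intro x y
        induction x using QuotientGroup.induction_on with
        | H a =>
          induction y using QuotientGroup.induction_on with
          | H b =>
            change ((a * b : A₀) : A₀ ⧸ N.subgroupOf A₀) = ((b * a : A₀) : A₀ ⧸ N.subgroupOf A₀)
            rw [QuotientGroup.eq, Subgroup.mem_subgroupOf]
            have h1 := hN.comm ((b : A)⁻¹) (A₀.inv_mem b.2) ((a : A)⁻¹) (A₀.inv_mem a.2)
            have h2 : (((a * b)⁻¹ * (b * a) : A₀) : A) =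
                (b : A)⁻¹ * (a : A)⁻¹ * ((b : A)⁻¹)⁻¹ * ((a : A)⁻¹)⁻¹ := by
              simp [mul_assoc]
            rw [h2]
            exact h1 }
  refine ⟨Additive (A₀ ⧸ N.subgroupOf A₀), inferInstance,
    (MulEquiv.multiplicativeAdditive (A₀ ⧸ N.subgroupOf A₀)).symm.toMonoidHom.comp
      (QuotientGroup.mk' (N.subgroupOf A₀)), fun a => ?_⟩
  have h1 : ((MulEquiv.multiplicativeAdditive (A₀ ⧸ N.subgroupOf A₀)).symm.toMonoidHom.comp
      (QuotientGroup.mk' (N.subgroupOf A₀))) a = 1 ↔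
      ((a : A₀) : A₀ ⧸ N.subgroupOf A₀) = 1 := by
    change (MulEquiv.multiplicativeAdditive (A₀ ⧸ N.subgroupOf A₀)).symm
      ((a : A₀) : A₀ ⧸ N.subgroupOf A₀) = 1 ↔ _
    rw [map_eq_one_iff _ (MulEquiv.injective _)]
  rw [h1, QuotientGroup.eq_one_iff, Subgroup.mem_subgroupOf]

/-- the character -/
theorem BB13_phi {Γ : Type*} [Group Γ] {Qa : Type*} [AddCommGroup Qa]
    (π : Γ →* Multiplicative Qa) (L : Γ →* Multiplicative ℝ) (lam : Qa →+ ℝ) (a : Γ) :
    (expC L * expC (((AddMonoidHom.toMultiplicative lam).comp π)⁻¹)) a = 1 ↔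
      (L a).toAdd = lam (π a).toAdd := by
  have h1 : (((expC L * expC (((AddMonoidHom.toMultiplicative lam).comp π)⁻¹)) a : ℝˣ) : ℝ) =
      Real.exp ((L a).toAdd - lam (π a).toAdd) := by
    rw [MonoidHom.mul_apply, Units.val_mul, expC_apply, expC_apply, ← Real.exp_add]
    rfl
  rw [← Units.val_inj, h1, Units.val_one, Real.exp_eq_one_iff, sub_eq_zero]

theorem BB13_index {A : Type u} [Group A] (A₀ N K : Subgroup A) (hNA : N ≤ A₀) (hK : K ≤ N)
    (hKf : (K.subgroupOf N).FiniteIndex) :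
    ((Subgroup.inclusion (hK.trans hNA)).range.subgroupOf (N.subgroupOf A₀)).FiniteIndex := by
  rw [Subgroup.inclusion_range]
  have h1 := Subgroup.relIndex_subgroupOf (H := K) hNA
  constructor
  change (K.subgroupOf A₀).relIndex (N.subgroupOf A₀) ≠ 0
  rw [h1]
  exact hKf.index_ne_zero

/-- the induction -/
theorem BB13_main {V : Type u} [Fintype V] [LinearOrder V] (G : SimpleGraph V)
    (A₀ N K : Subgroup (RAAG G)) [A₀.FiniteIndex] (hN : Coab A₀ N) (hK : K ≤ N)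
    (hKf : (K.subgroupOf N).FiniteIndex) (F : FreeRes.{w, u} K)
    {n₀ : ℕ} (hn₀ : n₀ ≠ 0) (hexp : ∀ a : RAAG G, a ^ n₀ ∈ A₀) (t : Finset (RAAG G))
    (ht : ∀ g : RAAG G, ∃ a ∈ A₀, ∃ h ∈ t, g = a * h) (L : RAAG G →* Multiplicative ℝ)
    (hL : ∀ ρ : Finset V, G.IsClique (ρ : Set V) → ∀ x ∈ sg G (ρ : Set V), L x = 1 → x = 1)
    {Qa : Type u} [AddCommGroup Qa] (π : A₀ →* Multiplicative Qa)
    (hπ : ∀ a : A₀, π a = 1 ↔ (a : RAAG G) ∈ N) (s : ℕ) :
    ∀ ρ : Finset V, ρ.card = s → cliq G ρ → ∀ g : RAAG G,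
      (∀ x ∈ sg G (ρ : Set V), g * x * g⁻¹ ∈ N → x = 1) →
      (∃ γ ∈ A₀, ∀ m : ℕ, m ≠ 0 → ∀ x ∈ sg G (ρ : Set V), γ ^ m * (g * x * g⁻¹) ∉ N) →
      ∀ q, RAc (lk (cliq G) ρ) q := by
  induction s using Nat.strong_induction_on with
  | _ s ih =>
  intro ρ hρs hρ g hfree hB
  obtain ⟨γ, hγ, hBγ⟩ := hB
  have hfinr : A₀.subtype.range.FiniteIndex := by rw [Subgroup.range_subtype]; infer_instance
  let R : FreeRes.{u, u} A₀ := (salRes G).comap A₀.subtype A₀.subtype_injective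
  let L₀ : A₀ →* Multiplicative ℝ := L.comp A₀.subtype
  have hL₀ : ∀ a : A₀, L₀ a = L (a : RAAG G) := fun _ => rfl
  have hNn : ∀ a ∈ A₀, ∀ n ∈ N, a * n * a⁻¹ ∈ N := by
    intro a ha n hn
    have h1 := N.mul_mem (hN.comm a ha n (hN.le hn)) hn
    rwa [inv_mul_cancel_right] at h1
  -- the flat of `ρ`
  obtain ⟨T, hT1, hT2, hT3, hT4⟩ := BB13_theta G A₀ N hn₀ hexp π hπ L ρ hρ g
  obtain ⟨w, hw, hwρ⟩ : ∃ w : Fin s → V, Function.Injective w ∧ ∀ v, v ∈ ρ ↔ ∃ j, w j = v := by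
    refine ⟨ρ.orderEmbOfFin hρs, (ρ.orderEmbOfFin hρs).injective, fun v => ?_⟩
    have h1 := Finset.range_orderEmbOfFin ρ hρs
    rw [← Finset.mem_coe, ← h1, Set.mem_range]
  have hwρ' : ∀ j, w j ∈ ρ := fun j => (hwρ _).2 ⟨j, rfl⟩
  -- the bad characters
  obtain ⟨Bad, hBad, hbad⟩ := exists_bad R (N.subgroupOf A₀)
    (fun a b => by
      rw [Subgroup.mem_subgroupOf]
      exact hN.comm a a.2 b b.2)
    (Subgroup.inclusion (hK.trans hN.le)) (Subgroup.inclusion_injective _)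
    (by
      rintro _ ⟨k, rfl⟩
      rw [Subgroup.mem_subgroupOf]
      exact hK k.2)
    (BB13_index A₀ N K hN.le hK hKf) F (expC L₀) ⟨γ, hγ⟩
    (fun n hn => by
      by_contra h0
      refine hBγ n h0 1 (Subgroup.one_mem _) ?_
      rw [mul_one, mul_inv_cancel, mul_one]
      rwa [Subgroup.mem_subgroupOf] at hn)
  -- the flats of larger dimension
  let ι := {i : Finset V × {h : RAAG G // h ∈ t} // cliq G i.1 ∧ s < i.1.card ∧
    ∀ x ∈ sg G (i.1 : Set V), (i.2 : RAAG G) * x * (i.2 : RAAG G)⁻¹ ∈ N → x = 1}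
  have hι : Finite ι := inferInstance
  have hex : ∀ i : ι, ∃ (T' : (V → ℤ) →+ Qa) (w' : Fin (s + 1) → V), Function.Injective w' ∧
      (∀ j, w' j ∈ i.1.1) ∧
      (∀ v ∈ i.1.1, T' (Pi.single v 1) = (π (BB13_cj hexp i.1.2 (ra v))).toAdd) ∧
      (∀ e : V → ℤ, (∀ v, v ∉ i.1.1 → e v = 0) → T' e = 0 → e = 0) := by
    intro i
    obtain ⟨T', h1, h2, _, _⟩ := BB13_theta G A₀ N hn₀ hexp π hπ L i.1.1 i.2.1 i.1.2
    obtain ⟨σ', hσ', hcard⟩ := Finset.exists_subset_card_eq (show s + 1 ≤ i.1.1.card from i.2.2.1)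
    refine ⟨T', σ'.orderEmbOfFin hcard, (σ'.orderEmbOfFin hcard).injective,
      fun j => hσ' (Finset.orderEmbOfFin_mem _ _ _), h1, h2 i.2.2.2⟩
  choose T' w' hw' hwσ hT'1 hT'2 using hex
  obtain ⟨lam, hlam1, hlam2, hlam3⟩ := exists_lambda (fun j => T (Pi.single (w j) 1))
    (BB13_indep T ρ (hT2 hfree) w hw hwρ') (fun j => (n₀ : ℝ) * (L (ra (w j))).toAdd)
    (fun (i : ι) j => T' i (Pi.single (w' i j) 1))
    (fun i => BB13_indep (T' i) i.1.1 (hT'2 i) (w' i) (hw' i) (hwσ i))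
    (fun i j => (n₀ : ℝ) * (L (ra (w' i j))).toAdd) ((π ⟨γ, hγ⟩).toAdd)
    (by
      intro m hm
      rw [Submodule.mem_span_range_iff_exists_fun] at hm
      obtain ⟨d, hd⟩ := hm
      by_contra h0
      obtain ⟨x, hx, a, ha, hTa⟩ := hT4 (-∑ j, d j • (Pi.single (w j) 1 : V → ℤ))
      refine hBγ m h0 x hx ?_
      rw [← ha]
      have h1 : π (⟨γ, hγ⟩ ^ m * a) = 1 := by
        have h2 : (π (⟨γ, hγ⟩ ^ m * a)).toAdd = 0 := by
          rw [map_mul, map_pow, toAdd_mul, toAdd_pow, ← hTa, map_neg, map_sum, ← hd,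
            ← sub_eq_add_neg, sub_eq_zero]
          exact Finset.sum_congr rfl fun j _ => (map_zsmul T _ _).symm
        exact h2
      rw [hπ] at h1
      exact h1)
    ((fun r : ℝ => Real.exp (-r)) ⁻¹' Bad)
    (hBad.preimage_of_injOn (Function.Injective.injOn
      (fun a b h => neg_injective (Real.exp_injective h))))
  -- the character
  have hφ := BB13_phi π L₀ lam
  have hM := hbad (expC (((AddMonoidHom.toMultiplicative lam).comp π)⁻¹))
    (fun a ha => by
      rw [Subgroup.mem_subgroupOf, ← hπ] at ha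
      apply Units.ext
      rw [expC_apply, MonoidHom.inv_apply, MonoidHom.comp_apply, ha, map_one]
      simp)
    (by
      rw [expC_apply]
      exact hlam3)
  generalize (expC L₀ * expC (((AddMonoidHom.toMultiplicative lam).comp π)⁻¹)) = φ at hφ hM
  have hφN : ∀ (a : A₀) (x : RAAG G), (a : RAAG G) ∈ N → L (a : RAAG G) = L x →
      (φ a = 1 ↔ L x = 1) := by
    intro a x ha hx
    rw [hφ, hL₀, hx, (hπ a).2 ha]
    change (L x).toAdd = lam 0 ↔ _
    rw [map_zero]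
    rfl
  have hLc : ∀ y x : RAAG G, L (y * x * y⁻¹) = L x := by
    intro y x
    rw [map_mul, map_mul, mul_right_comm, ← map_mul, mul_inv_cancel, map_one, one_mul]
  have hempty : cliq G ∅ := by
    unfold cliq
    simp
  have hdown : ∀ s t : Finset V, s ⊆ t → cliq G t → cliq G s := by
    intro s t hst h
    exact Set.Pairwise.mono (Finset.coe_subset.2 hst) h
  have : Nonempty ((raSys G).Q ∅) := ⟨raC ∅ 1⟩
  refine rac_of_HV R φ (raSys G) (fun a _ _ h x => raSys_pr_smul A₀ a h x) (cliq G) hdown hempty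
    (raSys_exact G _) hM ρ hρ (raC ρ g) ?_ ?_ ?_
  · -- the stabiliser of the base point
    intro a ha
    rw [smul_raC_eq] at ha
    obtain ⟨e, he, h1, h2⟩ := hT3 _ ha a (by group)
    rw [hφ, hL₀, h2]
    have h3 : lam (T e) = (n₀ : ℝ) * ∑ v ∈ ρ, (e v : ℝ) * (L (ra v)).toAdd := by
      rw [BB13_lam T ρ lam (fun v => (n₀ : ℝ) * (L (ra v)).toAdd) ?_ e he, Finset.mul_sum]
      · exact Finset.sum_congr rfl fun v _ => by ring
      · intro v hv
        obtain ⟨j, rfl⟩ := (hwρ v).1 hv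
        exact hlam1 j
    rw [← h1, map_nsmul, nsmul_eq_mul] at h3
    exact (mul_left_cancel₀ (Nat.cast_ne_zero.2 hn₀) h3).symm
  · -- the larger flats
    intro σ hσ hcard p
    refine BB13_HV G A₀ R φ σ hσ ?_ p
    intro g₁
    obtain ⟨a, ha, h, hh, rfl⟩ := ht g₁
    by_cases hf : ∀ x ∈ sg G (σ : Set V), h * x * h⁻¹ ∈ N → x = 1
    · let i : ι := ⟨(σ, ⟨h, hh⟩), hσ, hρs ▸ hcard, hf⟩
      obtain ⟨j, hj⟩ := hlam2 i
      refine ⟨⟨a, ha⟩ * BB13_cj hexp h (ra (w' i j)) * ⟨a, ha⟩⁻¹, ?_, ?_⟩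
      · have h1 : (a * h)⁻¹ * ((⟨a, ha⟩ * BB13_cj hexp h (ra (w' i j)) * ⟨a, ha⟩⁻¹ : A₀) : RAAG G) *
            (a * h) = (ra (w' i j)) ^ n₀ := by
          change (a * h)⁻¹ * (a * (h * ra (w' i j) * h⁻¹) ^ n₀ * a⁻¹) * (a * h) = _
          rw [BB13_conj_pow]
          group
        rw [h1]
        exact Subgroup.pow_mem _ (ra_mem_sg (hwσ i j)) n₀
      · rw [map_mul, map_mul, mul_right_comm, ← map_mul, mul_inv_cancel, map_one, one_mul]
        rw [Ne, hφ]
        intro h2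
        apply hj
        rw [hT'1 i _ (hwσ i j), ← h2, hL₀]
        change (L ((h * ra (w' i j) * h⁻¹) ^ n₀)).toAdd = _
        rw [map_pow, hLc, toAdd_pow, nsmul_eq_mul]
    · push Not at hf
      obtain ⟨x, hx, hxN, hx1⟩ := hf
      refine ⟨⟨a * (h * x * h⁻¹) * a⁻¹, hN.le (hNn a ha _ hxN)⟩, ?_, ?_⟩
      · have h1 : (a * h)⁻¹ * (a * (h * x * h⁻¹) * a⁻¹) * (a * h) = x := by group
        change (a * h)⁻¹ * (a * (h * x * h⁻¹) * a⁻¹) * (a * h) ∈ _
        rw [h1]
        exact hx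
      · rw [Ne, hφN _ x (hNn a ha _ hxN) (by
          change L (a * (h * x * h⁻¹) * a⁻¹) = L x
          rw [hLc, hLc])]
        exact fun h2 => hx1 (hL σ hσ x hx h2)
  · -- the smaller flats
    intro σ hσ hcard
    by_cases hall : ∀ g₁ : RAAG G, ∃ z : A₀, g₁⁻¹ * (z : RAAG G) * g₁ ∈ sg G (σ : Set V) ∧ φ z ≠ 1
    · exact Or.inl fun p => BB13_HV G A₀ R φ σ hσ hall p
    right
    push Not at hall
    obtain ⟨g₁, hg₁⟩ := hall
    refine ih σ.card (hρs ▸ hcard) σ rfl hσ g₁ ?_ ?_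
    · intro x hx hxN
      have h1 : φ ⟨g₁ * x * g₁⁻¹, hN.le hxN⟩ = 1 := by
        apply hg₁
        change g₁⁻¹ * (g₁ * x * g₁⁻¹) * g₁ ∈ _
        have h2 : g₁⁻¹ * (g₁ * x * g₁⁻¹) * g₁ = x := by group
        rw [h2]
        exact hx
      rw [hφN _ x hxN (hLc g₁ x)] at h1
      exact hL σ hσ x hx h1
    · by_contra hno
      push Not at hno
      let _ : DecidableEq Qa := Classical.decEq Qa
      obtain ⟨S, hS1, hS2, hS3, hS4⟩ := BB13_theta G A₀ N hn₀ hexp π hπ L σ hσ g₁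
      have h1 : ∀ j : Fin s, ∃ m : ℕ, m ≠ 0 ∧ m • T (Pi.single (w j) 1) ∈
          Submodule.span ℤ ((σ.image fun v => S (Pi.single v 1) : Finset Qa) : Set Qa) := by
        intro j
        obtain ⟨m, hm, x, hx, hxN⟩ := hno _ (BB13_cj hexp g (ra (w j))).2
        have h2 : g₁ * x * g₁⁻¹ ∈ A₀ := by
          have h3 := A₀.mul_mem (A₀.inv_mem (A₀.pow_mem (BB13_cj hexp g (ra (w j))).2 m))
            (hN.le hxN)
          rwa [inv_mul_cancel_left] at h3
        obtain ⟨e, he, h3, _⟩ := hS3 x hx ⟨_, h2⟩ rfl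
        refine ⟨n₀ * m, mul_ne_zero hn₀ hm, ?_⟩
        have h4 : π (BB13_cj hexp g (ra (w j)) ^ m * ⟨_, h2⟩) = 1 := by
          rw [hπ]
          exact hxN
        have h5 : m • T (Pi.single (w j) 1) + (π ⟨_, h2⟩).toAdd = 0 := by
          rw [hT1 _ (hwρ' j), ← toAdd_pow, ← map_pow, ← toAdd_mul, ← map_mul, h4]
          rfl
        have h6 : (n₀ * m) • T (Pi.single (w j) 1) = - S e := by
          rw [← h3, mul_smul, eq_neg_iff_add_eq_zero, ← smul_add, h5, smul_zero]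
        rw [h6, BB13_supp S σ e he]
        refine Submodule.neg_mem _ (Submodule.sum_mem _ fun v hv => ?_)
        refine Submodule.smul_mem _ _ (Submodule.subset_span ?_)
        exact Finset.mem_coe.2 (Finset.mem_image_of_mem _ hv)
      choose m hm hmem using h1
      have hind : LinearIndependent ℤ (fun j => m j • T (Pi.single (w j) 1)) := by
        have h2 := BB13_indep T ρ (hT2 hfree) w hw hwρ'
        rw [Fintype.linearIndependent_iff] at h2 ⊢
        intro c hc j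
        have h3 := h2 (fun j => c j * m j) (by
          rw [← hc]
          refine Finset.sum_congr rfl fun j _ => ?_
          rw [mul_smul, natCast_zsmul]) j
        exact (mul_eq_zero.1 h3).resolve_right (Nat.cast_ne_zero.2 (hm j))
      have h7 := linearIndependent_le_span' _ hind
        ((σ.image fun v => S (Pi.single v 1) : Finset Qa) : Set Qa) (by
          rintro _ ⟨j, rfl⟩
          exact hmem j)
      have h8 : s ≤ σ.card := by
        have h9 : Fintype.card ((σ.image fun v => S (Pi.single v 1) : Finset Qa) : Set Qa) ≤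
            σ.card := by
          simp only [Finset.coe_sort_coe, Fintype.card_coe]
          exact Finset.card_image_le
        simpa using h7.trans (Nat.cast_le.2 h9)
      omega

theorem rac_of_finite_type {V : Type u} [Fintype V] [LinearOrder V] (G : SimpleGraph V)
    (A₀ N K : Subgroup (RAAG G)) [A₀.FiniteIndex] (hN : Coab A₀ N) (hK : K ≤ N)
    (hKf : (K.subgroupOf N).FiniteIndex) (F : FreeRes.{w, u} K) (ρ : Finset V) (hρ : cliq G ρ)
    (g : RAAG G) (hfree : ∀ x ∈ sg G (ρ : Set V), g * x * g⁻¹ ∈ N → x = 1)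
    (hB : ∃ γ ∈ A₀, ∀ m : ℕ, m ≠ 0 → ∀ x ∈ sg G (ρ : Set V), γ ^ m * (g * x * g⁻¹) ∉ N)
    (q : ℕ) : RAc (lk (cliq G) ρ) q := by
  obtain ⟨n₀, hn₀, hexp⟩ := exists_exponent A₀
  obtain ⟨t, ht⟩ := exists_reps A₀
  obtain ⟨L, hL⟩ := exists_length G
  obtain ⟨Qa, _, π, hπ⟩ := BB13_quot A₀ N hN
  exact BB13_main G A₀ N K hN hK hKf F hn₀ hexp t ht L hL π hπ ρ.card ρ rfl hρ g hfree hB q

end bbtype

end GP

end OS
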