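import Mathlib
import Pool.Agent.Lib.MP_8fe54c_gt.BBDefs
import Pool.Agent.Lib.MP_8fe54c_gt.KEng
import Pool.Agent.Lib.MP_8fe54c_gt.KHarm
import Pool.Agent.Lib.MP_8fe54c_gt.BBMix

/-!
# Project BB, module BB2: the vanishing theorem
-/

namespace OS

namespace GP

open Finsupp MulOpposite

universe u v w u' v' w'

theorem harmZero_of_cubical {V : Type v} [Fintype V] [LinearOrder V] {Γ : Type v'} [Group Γ]
    (R : FreeRes.{u, v'} Γ) (S : CSys.{v, w} V) [∀ σ, MulAction Γ (S.Q σ)]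
    (hS : ∀ (g : Γ) {σ τ : Finset V} (h : σ ⊆ τ) (x : S.Q σ), S.pr h (g • x) = g • S.pr h x)
    (Lc : Finset V → Prop) (hdown : ∀ s t, s ⊆ t → Lc t → Lc s)
    (hempty : Lc ∅) [Nonempty (S.Q ∅)] (hD : DExact S Lc (UM Γ))
    (hst : ∀ σ, Lc σ → ∀ q : S.Q σ, (∀ g : Γ, g • q = q → g = 1) ∨
      ∃ z : Γ, z • q = q ∧ (∀ g : Γ, g • q = q → g * z = z * g) ∧ ∀ n : ℕ, z ^ n = 1 → n = 0)
    (n : ℕ) (h : ∀ σ, Lc σ → (∀ q : S.Q σ, ∃ g : Γ, g • q = q ∧ g ≠ 1) ∨ RAc (lk Lc σ) n) :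
    R.HarmZero ℝ n := by
  refine harmZero_of_HV R n ?_
  refine engine R (UM Γ) S hS Lc hdown hempty hD n ?_
  intro σ hσ p q hpq
  have hm : (p ≠ 0 ∨ ∀ q : S.Q σ, ∃ g : Γ, g • q = q ∧ g ≠ 1) →
      HV (MonoidHom.id Γ) R (TW (S.Q σ) (UM Γ)) p := by
    intro hp
    refine HV_set_mixed R (S.Q σ) (UM Γ) (fun q => ?_) p hp
    rcases hst σ hσ q with h1 | ⟨z, h1, h2, h3⟩
    · exact Or.inl h1
    · exact Or.inr ⟨z, h1, h2, um_bij z h3⟩
  by_cases hp : p = 0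
  · rcases h σ hσ with h1 | h1
    · exact Or.inl (hm (Or.inr h1))
    · right
      have : q = n := by omega
      rw [this]
      exact h1
  · exact Or.inl (hm (Or.inl hp))

end GP

end OS
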