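import Mathlib
import Pool.Agent.Lib.MP_8fe54c_gt.Assem
import Pool.Agent.Lib.MP_8fe54c_gt.Final
import Pool.Agent.Lib.MP_8fe54c_gt.BBDefs
import Pool.Agent.Lib.MP_8fe54c_gt.KCls
import Pool.Agent.Lib.MP_8fe54c_gt.KFlag
import Pool.Agent.Lib.MP_8fe54c_gt.KDim
import Pool.Agent.Lib.MP_8fe54c_gt.KHarm
import Pool.Agent.Lib.MP_8fe54c_gt.BBVan
import Pool.Agent.Lib.MP_8fe54c_gt.BBExact
import Pool.Agent.Lib.MP_8fe54c_gt.BBRaag
import Pool.Agent.Lib.MP_8fe54c_gt.BBType
import Pool.Agent.Lib.MP_8fe54c_gt.BBFlag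

/-!
# Project BB, module BB15: assembly
-/

namespace OS

namespace GP

open Finsupp MulOpposite

universe u v w u' v' w'

theorem BB15_tf {V : Type u} [DecidableEq V] [Finite V] (G : SimpleGraph V) (ρ : Finset V)
    (hρ : G.IsClique (ρ : Set V)) (x : RAAG G) (hx : x ∈ sg G (ρ : Set V)) (n : ℕ) (hn : n ≠ 0)
    (h : x ^ n = 1) : x = 1 := by
  obtain ⟨L, hL⟩ := exists_length G
  refine hL ρ hρ x hx ?_
  have h1 : (L x) ^ n = 1 := by rw [← map_pow, h, map_one]
  have h2 : (n : ℝ) * (L x).toAdd = 0 := by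
    have := congrArg Multiplicative.toAdd h1
    rw [toAdd_pow, toAdd_one, nsmul_eq_mul] at this
    exact this
  have h3 : (L x).toAdd = 0 := by
    rcases mul_eq_zero.1 h2 with h4 | h4
    · exact absurd (Nat.cast_eq_zero.1 h4) hn
    · exact h4
  exact Multiplicative.toAdd.injective (h3.trans toAdd_one.symm)

theorem cliq_down {V : Type u} (G : SimpleGraph V) : ∀ s t : Finset V, s ⊆ t → cliq G t → cliq G s :=
  fun _ _ h ht => ht.subset (Finset.coe_subset.mpr h)

theorem coab_dichotomy' {V : Type u} [Fintype V] [LinearOrder V] (G : SimpleGraph V)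
    (A₀ N K : Subgroup (RAAG G)) [A₀.FiniteIndex] (hN : Coab A₀ N) (hK : K ≤ N)
    (hKf : (K.subgroupOf N).FiniteIndex) (F : FreeRes.{w, u} K) (k : ℕ) :
    F.HarmZero ℝ k ∨ Flag K k := by
  classical
  by_cases hfl : Flag K k
  · exact Or.inr hfl
  left
  have : Nonempty ((raSys G).Q ∅) := ⟨raC ∅ 1⟩
  refine harmZero_of_cubical F (raSys G) (fun g {σ τ} h x => raSys_pr_smul K g h x) (cliq G)
    (cliq_down G) ?_ (raSys_exact G (UM K)) ?_ k ?_
  · unfold cliq
    simp
  · intro σ hσ q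
    obtain ⟨g, rfl⟩ := raC_surj σ q
    by_cases h : ∀ a : K, a • raC σ g = raC σ g → a = 1
    · exact Or.inl h
    · right
      push Not at h
      obtain ⟨z, hz, hz1⟩ := h
      rw [smul_raC_eq] at hz
      refine ⟨z, (smul_raC_eq K z σ g).2 hz, ?_, ?_⟩
      · intro a ha
        rw [smul_raC_eq] at ha
        have h1 := sg_comm hσ ha hz
        apply Subtype.ext
        change (a : RAAG G) * z = z * a
        have h2 : g * (g⁻¹ * (a : RAAG G) * g * (g⁻¹ * (z : RAAG G) * g)) * g⁻¹ =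
          g * (g⁻¹ * (z : RAAG G) * g * (g⁻¹ * (a : RAAG G) * g)) * g⁻¹ := by rw [h1]
        have h3 : g * (g⁻¹ * (a : RAAG G) * g * (g⁻¹ * (z : RAAG G) * g)) * g⁻¹ = a * z := by
          group
        have h4 : g * (g⁻¹ * (z : RAAG G) * g * (g⁻¹ * (a : RAAG G) * g)) * g⁻¹ = z * a := by
          group
        rw [h3, h4] at h2
        exact h2
      · intro n hn
        by_contra hn0
        apply hz1
        have h1 : (g⁻¹ * (z : RAAG G) * g) ^ n = 1 := by
          have h2 : (z : RAAG G) ^ n = 1 := by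
            have := congrArg Subtype.val hn
            exact this
          have h3 : (g⁻¹ * (z : RAAG G) * g) ^ n = g⁻¹ * (z : RAAG G) ^ n * g := by
            have := conj_pow (i := n) (a := g⁻¹) (b := (z : RAAG G))
            rw [inv_inv] at this
            exact this
          rw [h3, h2, mul_one, inv_mul_cancel]
        have h2 := BB15_tf G σ hσ _ hz n hn0 h1
        apply Subtype.ext
        change (z : RAAG G) = 1
        have h3 : (z : RAAG G) = g * (g⁻¹ * (z : RAAG G) * g) * g⁻¹ := by group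
        rw [h3, h2, mul_one, mul_inv_cancel]
  · intro σ hσ
    by_cases hall : ∀ q : (raSys G).Q σ, ∃ a : K, a • q = q ∧ a ≠ 1
    · exact Or.inl hall
    right
    push Not at hall
    obtain ⟨q, hq⟩ := hall
    obtain ⟨g, rfl⟩ := raC_surj σ q
    have hfree : ∀ x ∈ sg G (σ : Set V), g * x * g⁻¹ ∈ N → x = 1 := by
      intro x hx hxN
      obtain ⟨n, hn0, -, hn⟩ := (K.subgroupOf N).exists_pow_mem_of_index_ne_zero
        hKf.index_ne_zero ⟨g * x * g⁻¹, hxN⟩
      have h1 : (g * x * g⁻¹) ^ n ∈ K := hn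
      have h2 := hq ⟨(g * x * g⁻¹) ^ n, h1⟩ (by
        rw [smul_raC_eq]
        change g⁻¹ * (g * x * g⁻¹) ^ n * g ∈ sg G (σ : Set V)
        rw [conj_pow]
        have : g⁻¹ * (g * x ^ n * g⁻¹) * g = x ^ n := by group
        rw [this]
        exact Subgroup.pow_mem _ hx n)
      have h3 : (g * x * g⁻¹) ^ n = 1 := congrArg Subtype.val h2
      rw [conj_pow, conj_eq_one_iff] at h3
      exact BB15_tf G σ hσ x hx n (by omega) h3
    by_cases hB : ∃ γ ∈ A₀, ∀ m : ℕ, m ≠ 0 → ∀ x ∈ sg G (σ : Set V), γ ^ m * (g * x * g⁻¹) ∉ N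
    · exact rac_of_finite_type G A₀ N K hN hK hKf F σ hσ g hfree hB k
    · push Not at hB
      by_contra hR
      apply hfl
      refine flag_of_torsion G A₀ N K hN hK hKf σ hσ g hB k ?_
      by_contra hcls
      refine hR (rac_of_not_hasClsC _ ?_ k hcls)
      rintro s t hst ⟨h1, h2⟩
      exact ⟨h1.mono_right hst, cliq_down G _ _ (Finset.union_subset_union_right hst) h2⟩

theorem coab_dichotomy {V : Type u} [Finite V] (G : SimpleGraph V)
    (A₀ N K : Subgroup (RAAG G)) [A₀.FiniteIndex] (hN : Coab A₀ N) (hK : K ≤ N)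
    (hKf : (K.subgroupOf N).FiniteIndex) (F : FreeRes.{w, u} K) (k : ℕ) :
    F.HarmZero ℝ k ∨ Flag K k := by
  classical
  have hfin : Fintype V := Fintype.ofFinite V
  let hlin : LinearOrder V := IsWellOrder.linearOrder (WellOrderingRel (α := V))
  exact coab_dichotomy' G A₀ N K hN hK hKf F k

theorem okun_schreve_coab {n : ℕ} [NeZero n] {M : Type*} [TopologicalSpace M] [T2Space M]
    [ConnectedSpace M] [ChartedSpace (EuclideanHalfSpace n) M]
    {Y : Type*} [TopologicalSpace Y] [ContractibleSpace Y] {p : Y → M} (hp : IsCoveringMap p)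
    (x : M) {V : Type u} [Finite V] (G : SimpleGraph V) (H : Subgroup (FundamentalGroup M x))
    [H.FiniteIndex] (A₀ N K : Subgroup (RAAG G)) [A₀.FiniteIndex] (hN : Coab A₀ N) (hK : K ≤ N)
    (hKf : (K.subgroupOf N).FiniteIndex) (e : H ≃* K)
    (C : FreeRes (FundamentalGroup M x)) {k : ℕ}
    (hk : n < 2 * k) : C.HarmZero ℂ k := by
  obtain ⟨j, rfl⟩ : ∃ j, k = j + 1 := ⟨k - 1, by omega⟩
  obtain ⟨φ, hφ, hfi⟩ := exists_incl H e
  refine harmZero_of_dichotomy (n := n) hp x φ hφ C hk ?_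
  rcases coab_dichotomy G A₀ N K hN hK hKf (C.comap φ hφ) (j + 1) with h | h
  · exact Or.inr fun R => (FreeRes.harmZero_iff _ R (j + 1)).mp h
  · left
    intro m Y' _ _ _ _ _ _ hY'
    have := flag_dim h hY'
    omega

end GP

end OS
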