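import Mathlib

/-!
# Direct finiteness of `ℓ²(Γ)^m` (RAAG, G3)

Hilbert spaces with a unitary action of a group `Γ` and a finite family of vectors whose translates
form a Hilbert basis.  If `T` is a bounded equivariant operator `E → F` then the dimension of
`(ker T)ᗮ` is at most the dimension of `F`.
-/

open scoped InnerProductSpace
open Filter Topology

namespace OS

namespace DF

variable {𝕜 : Type*} [RCLike 𝕜] {Γ : Type*} [Group Γ]

theorem mul_ap {E : Type*} [NormedAddCommGroup E] [InnerProductSpace 𝕜 E] (S T : E →L[𝕜] E)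
    (x : E) : (S * T) x = S (T x) := rfl

/-- The translates of the vectors `e i` form a Hilbert basis. -/
structure IsFrame {E : Type*} [NormedAddCommGroup E] [InnerProductSpace 𝕜 E]
    (ρ : Γ →* (E ≃ₗᵢ[𝕜] E)) {I : Type*} (e : I → E) : Prop where
  orth : Orthonormal 𝕜 (fun p : Γ × I => ρ p.1 (e p.2))
  total : (Submodule.span 𝕜 (Set.range fun p : Γ × I => ρ p.1 (e p.2))).topologicalClosure = ⊤

/-- Equivariant operators. -/
def Equi {E F : Type*} [NormedAddCommGroup E] [InnerProductSpace 𝕜 E] [NormedAddCommGroup F]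
    [InnerProductSpace 𝕜 F] (ρE : Γ →* (E ≃ₗᵢ[𝕜] E)) (ρF : Γ →* (F ≃ₗᵢ[𝕜] F))
    (S : E →L[𝕜] F) : Prop := ∀ g x, S (ρE g x) = ρF g (S x)

section basics

variable {E : Type*} [NormedAddCommGroup E] [InnerProductSpace 𝕜 E]
  {ρE : Γ →* (E ≃ₗᵢ[𝕜] E)} {F : Type*} [NormedAddCommGroup F] [InnerProductSpace 𝕜 F]
  {ρF : Γ →* (F ≃ₗᵢ[𝕜] F)} {I J : Type*} {e : I → E} {f : J → F}

theorem mul_app (g h : Γ) (x : E) : ρE (g * h) x = ρE g (ρE h x) := by
  rw [map_mul]
  rfl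

theorem one_app (x : E) : ρE 1 x = x := by
  rw [map_one]
  rfl

theorem app_inv (g : Γ) (x : E) : ρE g (ρE g⁻¹ x) = x := by
  rw [← mul_app, mul_inv_cancel, one_app]

theorem inner_inv (g : Γ) (x y : E) : ⟪ρE g x, y⟫_𝕜 = ⟪x, ρE g⁻¹ y⟫_𝕜 := by
  conv_lhs => rw [← app_inv (ρE := ρE) g y]
  rw [LinearIsometryEquiv.inner_map_map]

theorem inner_inv' (g : Γ) (x y : E) : ⟪x, ρE g y⟫_𝕜 = ⟪ρE g⁻¹ x, y⟫_𝕜 := by
  rw [inner_inv, inv_inv]

/-- The Hilbert basis of translates. -/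
noncomputable def IsFrame.basis [CompleteSpace E] (he : IsFrame ρE e) :
    HilbertBasis (Γ × I) 𝕜 E := HilbertBasis.mk he.orth he.total.ge

theorem IsFrame.basis_apply [CompleteSpace E] (he : IsFrame ρE e) (p : Γ × I) :
    he.basis p = ρE p.1 (e p.2) := by
  unfold IsFrame.basis
  rw [HilbertBasis.coe_mk]

theorem IsFrame.norm_eq (he : IsFrame ρE e) (i : I) : ‖e i‖ = 1 := by
  have := he.orth.1 (1, i)
  simpa [one_app] using this

theorem Equi.adjoint [CompleteSpace E] [CompleteSpace F] {S : E →L[𝕜] F} (hS : Equi ρE ρF S) :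
    Equi ρF ρE (ContinuousLinearMap.adjoint S) := by
  intro g y
  apply ext_inner_left 𝕜
  intro x
  rw [ContinuousLinearMap.adjoint_inner_right, inner_inv' g (S x) y, ← hS, inner_inv' g x,
    ContinuousLinearMap.adjoint_inner_right]

theorem Equi.comp {G : Type*} [NormedAddCommGroup G] [InnerProductSpace 𝕜 G]
    {ρG : Γ →* (G ≃ₗᵢ[𝕜] G)} {S : E →L[𝕜] F} {T : F →L[𝕜] G} (hT : Equi ρF ρG T)
    (hS : Equi ρE ρF S) : Equi ρE ρG (T.comp S) := by
  intro g x
  rw [ContinuousLinearMap.comp_apply, ContinuousLinearMap.comp_apply, hS, hT]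

theorem Equi.add {S T : E →L[𝕜] F} (hS : Equi ρE ρF S) (hT : Equi ρE ρF T) :
    Equi ρE ρF (S + T) := by
  intro g x
  rw [add_apply, add_apply, hS, hT, map_add]

theorem Equi.smul {S : E →L[𝕜] F} (hS : Equi ρE ρF S) (c : 𝕜) : Equi ρE ρF (c • S) := by
  intro g x
  rw [smul_apply, smul_apply, hS, map_smul]

theorem Equi.sub {S T : E →L[𝕜] F} (hS : Equi ρE ρF S) (hT : Equi ρE ρF T) :
    Equi ρE ρF (S - T) := by
  intro g x
  rw [sub_apply, sub_apply, hS, hT, map_sub]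

theorem Equi.zero : Equi ρE ρF (0 : E →L[𝕜] F) := by
  intro g x
  simp

theorem Equi.one : Equi ρE ρE (1 : E →L[𝕜] E) := by
  intro g x
  rfl

theorem Equi.mul {S T : E →L[𝕜] E} (hS : Equi ρE ρE S) (hT : Equi ρE ρE T) :
    Equi ρE ρE (S * T) := by
  intro g x
  rw [mul_ap, mul_ap, hT, hS]

theorem Equi.pow {S : E →L[𝕜] E} (hS : Equi ρE ρE S) (n : ℕ) : Equi ρE ρE (S ^ n) := by
  induction n with
  | zero => rw [pow_zero]; exact Equi.one
  | succ n ih => rw [pow_succ]; exact ih.mul hS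

theorem Equi.sum {α : Type*} {s : Finset α} {S : α → (E →L[𝕜] F)}
    (hS : ∀ a ∈ s, Equi ρE ρF (S a)) : Equi ρE ρF (∑ a ∈ s, S a) := by
  classical
  induction s using Finset.induction_on with
  | empty => rw [Finset.sum_empty]; exact Equi.zero
  | insert a s ha ih =>
    rw [Finset.sum_insert ha]
    exact (hS a (Finset.mem_insert_self a s)).add
      (ih fun b hb => hS b (Finset.mem_insert_of_mem hb))

end basics

/-! ### The trace -/

theorem tsum_prod_fintype {Γ J : Type*} [Fintype J] {c : Γ × J → 𝕜} (hc : Summable c) :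
    ∑' p, c p = ∑ j, ∑' g, c (g, j) := by
  have hc' : Summable fun p : J × Γ => c (p.2, p.1) := by
    have := (Equiv.prodComm J Γ).summable_iff.2 hc
    exact this
  rw [← (Equiv.prodComm J Γ).tsum_eq c]
  change ∑' p : J × Γ, c (p.2, p.1) = _
  rw [hc'.tsum_prod, tsum_fintype]

section trace

variable {E : Type*} [NormedAddCommGroup E] [InnerProductSpace 𝕜 E] [CompleteSpace E]
  {ρE : Γ →* (E ≃ₗᵢ[𝕜] E)} {F : Type*} [NormedAddCommGroup F] [InnerProductSpace 𝕜 F]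
  [CompleteSpace F] {ρF : Γ →* (F ≃ₗᵢ[𝕜] F)} {I J : Type*} [Fintype I] [Fintype J] {e : I → E}
  {f : J → F}

theorem trace_expand (hf : IsFrame ρF f) (S : E →L[𝕜] F) (T : F →L[𝕜] E) (hS : Equi ρE ρF S)
    (hT : Equi ρF ρE T) (x : E) :
    ⟪x, T (S x)⟫_𝕜 = ∑ j, ∑' g, ⟪ρE g x, T (f j)⟫_𝕜 * ⟪f j, S (ρE g x)⟫_𝕜 := by
  have h1 : ⟪x, T (S x)⟫_𝕜 = ⟪ContinuousLinearMap.adjoint T x, S x⟫_𝕜 := by
    rw [ContinuousLinearMap.adjoint_inner_left]
  have h2 := hf.basis.tsum_inner_mul_inner (ContinuousLinearMap.adjoint T x) (S x)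
  rw [h1, ← h2, tsum_prod_fintype (hf.basis.summable_inner_mul_inner _ _)]
  apply Finset.sum_congr rfl
  intro j _
  rw [← (Equiv.inv Γ).tsum_eq fun g => ⟪ρE g x, T (f j)⟫_𝕜 * ⟪f j, S (ρE g x)⟫_𝕜]
  apply tsum_congr
  intro g
  rw [hf.basis_apply, Equiv.inv_apply, ContinuousLinearMap.adjoint_inner_left, hT, inner_inv' g,
    inner_inv g, ← hS]

theorem trace_comm (he : IsFrame ρE e) (hf : IsFrame ρF f) (S : E →L[𝕜] F) (T : F →L[𝕜] E)
    (hS : Equi ρE ρF S) (hT : Equi ρF ρE T) :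
    ∑ i, ⟪e i, T (S (e i))⟫_𝕜 = ∑ j, ⟪f j, S (T (f j))⟫_𝕜 := by
  simp_rw [trace_expand hf S T hS hT]
  rw [Finset.sum_comm]
  apply Finset.sum_congr rfl
  intro j _
  have h1 : ⟪f j, S (T (f j))⟫_𝕜 = ⟪ContinuousLinearMap.adjoint S (f j), T (f j)⟫_𝕜 := by
    rw [ContinuousLinearMap.adjoint_inner_left]
  have h2 := he.basis.tsum_inner_mul_inner (ContinuousLinearMap.adjoint S (f j)) (T (f j))
  rw [h1, ← h2, tsum_prod_fintype (he.basis.summable_inner_mul_inner _ _)]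
  apply Finset.sum_congr rfl
  intro i _
  apply tsum_congr
  intro g
  rw [he.basis_apply, ContinuousLinearMap.adjoint_inner_left, mul_comm]

end trace

/-! ### Powers of `1 - c⁻¹ T* T` -/

section spectral

variable {E : Type*} [NormedAddCommGroup E] [InnerProductSpace 𝕜 E] [CompleteSpace E]
  {F : Type*} [NormedAddCommGroup F] [InnerProductSpace 𝕜 F] [CompleteSpace F]

/-- `1 - c⁻¹ T* T` -/
noncomputable def opB (T : E →L[𝕜] F) (c : ℝ) : E →L[𝕜] E :=
  1 - ((c⁻¹ : ℝ) : 𝕜) • ((ContinuousLinearMap.adjoint T).comp T)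

theorem opB_apply (T : E →L[𝕜] F) (c : ℝ) (x : E) :
    opB T c x = x - ((c⁻¹ : ℝ) : 𝕜) • (ContinuousLinearMap.adjoint T (T x)) := rfl

theorem opB_symm (T : E →L[𝕜] F) (c : ℝ) (x y : E) :
    ⟪opB T c x, y⟫_𝕜 = ⟪x, opB T c y⟫_𝕜 := by
  rw [opB_apply, opB_apply, inner_sub_left, inner_sub_right, inner_smul_left, inner_smul_right,
    ContinuousLinearMap.adjoint_inner_left, ContinuousLinearMap.adjoint_inner_right,
    RCLike.conj_ofReal]

theorem opB_pow_symm (T : E →L[𝕜] F) (c : ℝ) (k : ℕ) (x y : E) :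
    ⟪(opB T c ^ k) x, y⟫_𝕜 = ⟪x, (opB T c ^ k) y⟫_𝕜 := by
  induction k generalizing x y with
  | zero => rfl
  | succ k ih =>
    rw [pow_succ]
    change ⟪(opB T c ^ k) (opB T c x), y⟫_𝕜 = ⟪x, (opB T c ^ k) (opB T c y)⟫_𝕜
    rw [ih, opB_symm, ← mul_ap, ← pow_succ', pow_succ]
    rfl

theorem opB_key (T : E →L[𝕜] F) {c : ℝ} (hc : 0 < c) (hT : ‖T‖ ^ 2 ≤ c) (z : E) :
    ‖opB T c z‖ ^ 2 ≤ RCLike.re ⟪opB T c z, z⟫_𝕜 := by
  have h1 : RCLike.re ⟪opB T c z, z⟫_𝕜 - ‖opB T c z‖ ^ 2 =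
      RCLike.re ⟪opB T c z, z - opB T c z⟫_𝕜 := by
    rw [inner_sub_right, map_sub, inner_self_eq_norm_sq_to_K]
    norm_cast
  have h2 : z - opB T c z = ((c⁻¹ : ℝ) : 𝕜) • (ContinuousLinearMap.adjoint T (T z)) := by
    rw [opB_apply]
    abel
  have h3 : RCLike.re ⟪opB T c z, z - opB T c z⟫_𝕜 =
      c⁻¹ * (‖T z‖ ^ 2 - c⁻¹ * ‖ContinuousLinearMap.adjoint T (T z)‖ ^ 2) := by
    rw [h2, opB_apply, inner_smul_right, RCLike.re_ofReal_mul, inner_sub_left, inner_smul_left,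
      RCLike.conj_ofReal, map_sub, RCLike.re_ofReal_mul, inner_self_eq_norm_sq_to_K,
      ContinuousLinearMap.adjoint_inner_right, inner_self_eq_norm_sq_to_K]
    norm_cast
  have h4 : ‖ContinuousLinearMap.adjoint T (T z)‖ ≤ ‖T‖ * ‖T z‖ := by
    have := (ContinuousLinearMap.adjoint T).le_opNorm (T z)
    rwa [LinearIsometryEquiv.norm_map] at this
  have h5 : ‖ContinuousLinearMap.adjoint T (T z)‖ ^ 2 ≤ c * ‖T z‖ ^ 2 := by
    calc ‖ContinuousLinearMap.adjoint T (T z)‖ ^ 2 ≤ (‖T‖ * ‖T z‖) ^ 2 :=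
          pow_le_pow_left₀ (norm_nonneg _) h4 2
      _ = ‖T‖ ^ 2 * ‖T z‖ ^ 2 := by ring
      _ ≤ c * ‖T z‖ ^ 2 := mul_le_mul_of_nonneg_right hT (sq_nonneg _)
  have h6 : c⁻¹ * ‖ContinuousLinearMap.adjoint T (T z)‖ ^ 2 ≤ ‖T z‖ ^ 2 := by
    rw [inv_mul_le_iff₀ hc]
    exact h5
  have h7 : 0 ≤ RCLike.re ⟪opB T c z, z⟫_𝕜 - ‖opB T c z‖ ^ 2 := by
    rw [h1, h3]
    exact mul_nonneg (inv_nonneg.2 hc.le) (sub_nonneg.2 h6)
  linarith

theorem opB_norm_le (T : E →L[𝕜] F) {c : ℝ} (hc : 0 < c) (hT : ‖T‖ ^ 2 ≤ c) (z : E) :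
    ‖opB T c z‖ ≤ ‖z‖ := by
  have h1 := opB_key T hc hT z
  have h2 : RCLike.re ⟪opB T c z, z⟫_𝕜 ≤ ‖opB T c z‖ * ‖z‖ := re_inner_le_norm _ _
  by_contra h
  push Not at h
  have h3 : 0 < ‖opB T c z‖ := lt_of_le_of_lt (norm_nonneg _) h
  nlinarith

theorem opB_pow_norm_le (T : E →L[𝕜] F) {c : ℝ} (hc : 0 < c) (hT : ‖T‖ ^ 2 ≤ c) (k : ℕ) (z : E) :
    ‖(opB T c ^ k) z‖ ≤ ‖z‖ := by
  induction k generalizing z with
  | zero => exact le_rfl
  | succ k ih =>
    rw [pow_succ]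
    exact (ih _).trans (opB_norm_le T hc hT z)

theorem opB_diff (T : E →L[𝕜] F) {c : ℝ} (hc : 0 < c) (hT : ‖T‖ ^ 2 ≤ c) (z : E) :
    ‖z - opB T c z‖ ^ 2 ≤ ‖z‖ ^ 2 - ‖opB T c z‖ ^ 2 := by
  have h1 := opB_key T hc hT z
  have h2 : ‖z - opB T c z‖ ^ 2 = ‖z‖ ^ 2 - 2 * RCLike.re ⟪z, opB T c z⟫_𝕜 +
      ‖opB T c z‖ ^ 2 := norm_sub_sq z (opB T c z)
  have h3 : RCLike.re ⟪z, opB T c z⟫_𝕜 = RCLike.re ⟪opB T c z, z⟫_𝕜 := inner_re_symm _ _
  rw [h2, h3]
  linarith

/-- On the range of `T* T` the powers tend to `0`. -/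
theorem opB_tendsto_range (T : E →L[𝕜] F) {c : ℝ} (hc : 0 < c) (hT : ‖T‖ ^ 2 ≤ c) (y : E) :
    Tendsto (fun k : ℕ => (opB T c ^ k) (y - opB T c y)) atTop (𝓝 0) := by
  have hanti : Antitone fun k : ℕ => ‖(opB T c ^ k) y‖ ^ 2 := by
    refine antitone_nat_of_succ_le fun k => ?_
    have h0 : (opB T c ^ (k + 1)) y = opB T c ((opB T c ^ k) y) := by
      rw [pow_succ']
      rfl
    rw [h0]
    exact pow_le_pow_left₀ (norm_nonneg _) (opB_norm_le T hc hT _) 2
  have hbdd : BddBelow (Set.range fun k : ℕ => ‖(opB T c ^ k) y‖ ^ 2) :=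
    ⟨0, by rintro _ ⟨k, rfl⟩; positivity⟩
  have hlim := tendsto_atTop_ciInf hanti hbdd
  have hlim' := (tendsto_add_atTop_iff_nat 1).2 hlim
  have hdiff := hlim.sub hlim'
  rw [sub_self] at hdiff
  have hsq : Tendsto (fun k : ℕ => ‖(opB T c ^ k) (y - opB T c y)‖ ^ 2) atTop (𝓝 0) := by
    refine squeeze_zero (fun k => by positivity) (fun k => ?_) hdiff
    have h1 : (opB T c ^ k) (y - opB T c y) =
        (opB T c ^ k) y - opB T c ((opB T c ^ k) y) := by
      rw [map_sub]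
      congr 1
      rw [← mul_ap, ← mul_ap, ← pow_succ,
        ← pow_succ']
    rw [h1]
    have h2 := opB_diff T hc hT ((opB T c ^ k) y)
    have h3 : opB T c ((opB T c ^ k) y) = (opB T c ^ (k + 1)) y := by
      rw [pow_succ']
      rfl
    rw [h3] at h2 ⊢
    exact h2
  rw [tendsto_zero_iff_norm_tendsto_zero]
  have h4 := hsq.sqrt
  rw [Real.sqrt_zero] at h4
  refine h4.congr fun k => ?_
  rw [Real.sqrt_sq (norm_nonneg _)]

theorem ker_orthogonal_le (T : E →L[𝕜] F) :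
    T.kerᗮ ≤ ((ContinuousLinearMap.adjoint T).comp T).range.topologicalClosure := by
  rw [← ContinuousLinearMap.ker_adjoint_comp_self T]
  have h3 : ContinuousLinearMap.adjoint ((ContinuousLinearMap.adjoint T).comp T) =
      (ContinuousLinearMap.adjoint T).comp T := by
    rw [ContinuousLinearMap.adjoint_comp, ContinuousLinearMap.adjoint_adjoint]
  have h4 := ContinuousLinearMap.orthogonal_ker ((ContinuousLinearMap.adjoint T).comp T)
  rw [h3] at h4
  exact h4.le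

theorem opB_tendsto_orthogonal (T : E →L[𝕜] F) {c : ℝ} (hc : 0 < c) (hT : ‖T‖ ^ 2 ≤ c) {x : E}
    (hx : x ∈ T.kerᗮ) :
    Tendsto (fun k : ℕ => (opB T c ^ k) x) atTop (𝓝 0) := by
  have hx' := ker_orthogonal_le T hx
  have hx'' : x ∈ closure (((ContinuousLinearMap.adjoint T).comp T).range : Set E) :=
    hx'
  rw [Metric.tendsto_atTop]
  intro ε hε
  obtain ⟨y, ⟨w, rfl⟩, hy⟩ := Metric.mem_closure_iff.1 hx'' (ε / 2) (half_pos hε)
  have h1 := opB_tendsto_range T hc hT ((c : 𝕜) • w)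
  have h2 : (c : 𝕜) • w - opB T c ((c : 𝕜) • w) =
      ((ContinuousLinearMap.adjoint T).comp T) w := by
    rw [opB_apply, sub_sub_cancel, map_smul, map_smul, smul_smul, ← RCLike.ofReal_mul,
      inv_mul_cancel₀ hc.ne', RCLike.ofReal_one, one_smul]
    rfl
  rw [h2, Metric.tendsto_atTop] at h1
  obtain ⟨N, hN⟩ := h1 (ε / 2) (half_pos hε)
  refine ⟨N, fun n hn => ?_⟩
  have h3 := hN n hn
  rw [dist_zero_right] at h3 ⊢
  have h4 : ‖(opB T c ^ n) (x - ((ContinuousLinearMap.adjoint T).comp T) w)‖ < ε / 2 := by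
    refine lt_of_le_of_lt (opB_pow_norm_le T hc hT n _) ?_
    rwa [← dist_eq_norm]
  have h5 : (opB T c ^ n) x =
      (opB T c ^ n) (x - ((ContinuousLinearMap.adjoint T).comp T) w) +
        (opB T c ^ n) (((ContinuousLinearMap.adjoint T).comp T) w) := by
    rw [← map_add, sub_add_cancel]
  rw [h5]
  calc _ ≤ _ := norm_add_le _ _
    _ < ε / 2 + ε / 2 := add_lt_add h4 h3
    _ = ε := add_halves ε

theorem opB_pow_ker (T : E →L[𝕜] F) (c : ℝ) (k : ℕ) {x : E} (hx : T x = 0) :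
    (opB T c ^ k) x = x := by
  induction k with
  | zero => rfl
  | succ k ih =>
    rw [pow_succ]
    change (opB T c ^ k) (opB T c x) = x
    rw [opB_apply, hx, map_zero, smul_zero, sub_zero, ih]

/-- `1 - c⁻¹ T T*` -/
noncomputable def opD (T : E →L[𝕜] F) (c : ℝ) : F →L[𝕜] F :=
  opB (ContinuousLinearMap.adjoint T) c

theorem opD_apply (T : E →L[𝕜] F) (c : ℝ) (y : F) :
    opD T c y = y - ((c⁻¹ : ℝ) : 𝕜) • (T (ContinuousLinearMap.adjoint T y)) := by
  unfold opD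
  rw [opB_apply, ContinuousLinearMap.adjoint_adjoint]

theorem opB_adj (T : E →L[𝕜] F) (c : ℝ) (y : F) :
    opB T c (ContinuousLinearMap.adjoint T y) = ContinuousLinearMap.adjoint T (opD T c y) := by
  rw [opB_apply, opD_apply, map_sub, map_smul]

theorem opB_pow_adj (T : E →L[𝕜] F) (c : ℝ) (k : ℕ) (y : F) :
    (opB T c ^ k) (ContinuousLinearMap.adjoint T y) =
      ContinuousLinearMap.adjoint T ((opD T c ^ k) y) := by
  induction k generalizing y with
  | zero => rfl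
  | succ k ih =>
    rw [pow_succ, pow_succ, mul_ap, mul_ap, opB_adj, ih]

/-- the operator `c⁻¹ ∑_{l < n} D^l` -/
noncomputable def opG (T : E →L[𝕜] F) (c : ℝ) (n : ℕ) : F →L[𝕜] F :=
  ((c⁻¹ : ℝ) : 𝕜) • ∑ l ∈ Finset.range n, opD T c ^ l

theorem opG_zero (T : E →L[𝕜] F) (c : ℝ) : opG T c 0 = 0 := by
  unfold opG
  rw [Finset.sum_range_zero, smul_zero]

theorem opG_succ (T : E →L[𝕜] F) (c : ℝ) (n : ℕ) (y : F) :
    opG T c (n + 1) y = opG T c n y + ((c⁻¹ : ℝ) : 𝕜) • (opD T c ^ n) y := by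
  unfold opG
  rw [Finset.sum_range_succ, smul_add]
  rfl

theorem sub_opB_pow (T : E →L[𝕜] F) (c : ℝ) (n : ℕ) (x : E) :
    x - (opB T c ^ n) x = ContinuousLinearMap.adjoint T (opG T c n (T x)) := by
  induction n with
  | zero =>
    rw [opG_zero, pow_zero]
    change x - x = _
    rw [sub_self, zero_apply, map_zero]
  | succ n ih =>
    rw [opG_succ, map_add, ← ih, map_smul, ← opB_pow_adj, pow_succ, mul_ap, opB_apply, map_sub,
      map_smul]
    abel

theorem sub_opD_pow (T : E →L[𝕜] F) (c : ℝ) (n : ℕ) (y : F) :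
    y - (opD T c ^ n) y = T (ContinuousLinearMap.adjoint T (opG T c n y)) := by
  induction n with
  | zero =>
    rw [opG_zero, pow_zero]
    change y - y = _
    rw [sub_self, zero_apply, map_zero, map_zero]
  | succ n ih =>
    rw [opG_succ, map_add, map_add, ← ih, map_smul, map_smul, pow_succ', mul_ap,
      opD_apply T c ((opD T c ^ n) y)]
    abel

theorem inner_opB_pow_two (T : E →L[𝕜] F) (c : ℝ) (k : ℕ) (x : E) :
    ⟪x, (opB T c ^ (k + k)) x⟫_𝕜 = ((‖(opB T c ^ k) x‖ ^ 2 : ℝ) : 𝕜) := by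
  rw [pow_add, mul_ap, ← opB_pow_symm, inner_self_eq_norm_sq_to_K]
  norm_cast

section rank

variable {ρE : Γ →* (E ≃ₗᵢ[𝕜] E)} {ρF : Γ →* (F ≃ₗᵢ[𝕜] F)} {I J : Type*} [Fintype I] [Fintype J]
  {e : I → E} {f : J → F}

theorem opB_equi {T : E →L[𝕜] F} (hT : Equi ρE ρF T) (c : ℝ) : Equi ρE ρE (opB T c) :=
  Equi.one.sub ((hT.adjoint.comp hT).smul _)

theorem opG_equi {T : E →L[𝕜] F} (hT : Equi ρE ρF T) (c : ℝ) (n : ℕ) :
    Equi ρF ρF (opG T c n) :=
  (Equi.sum fun l _ => (opB_equi hT.adjoint c).pow l).smul _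

theorem trace_pow (he : IsFrame ρE e) (hf : IsFrame ρF f) {T : E →L[𝕜] F} (hT : Equi ρE ρF T)
    (c : ℝ) (k : ℕ) :
    ∑ i, (1 - ‖(opB T c ^ k) (e i)‖ ^ 2) = ∑ j, (1 - ‖(opD T c ^ k) (f j)‖ ^ 2) := by
  have h := trace_comm he hf T ((ContinuousLinearMap.adjoint T).comp (opG T c (k + k))) hT
    (hT.adjoint.comp (opG_equi hT c (k + k)))
  simp_rw [ContinuousLinearMap.comp_apply, ← sub_opB_pow, ← sub_opD_pow, inner_sub_right] at h
  have h1 : ∀ i, ⟪e i, e i⟫_𝕜 - ⟪e i, (opB T c ^ (k + k)) (e i)⟫_𝕜 =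
      ((1 - ‖(opB T c ^ k) (e i)‖ ^ 2 : ℝ) : 𝕜) := by
    intro i
    rw [inner_opB_pow_two, inner_self_eq_norm_sq_to_K, he.norm_eq]
    push_cast
    ring
  have h2 : ∀ j, ⟪f j, f j⟫_𝕜 - ⟪f j, (opD T c ^ (k + k)) (f j)⟫_𝕜 =
      ((1 - ‖(opD T c ^ k) (f j)‖ ^ 2 : ℝ) : 𝕜) := by
    intro j
    unfold opD
    rw [inner_opB_pow_two, inner_self_eq_norm_sq_to_K, hf.norm_eq]
    push_cast
    ring
  simp_rw [h1, h2, ← RCLike.ofReal_sum] at h
  exact RCLike.ofReal_injective h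

/-- The dimension of `(ker T)ᗮ` is at most the dimension of the target. -/
theorem rank_le (he : IsFrame ρE e) (hf : IsFrame ρF f) {T : E →L[𝕜] F} (hT : Equi ρE ρF T)
    {a b : I → E} (hab : ∀ i, e i = a i + b i) (ha : ∀ i, T (a i) = 0) (hb : ∀ i, b i ∈ T.kerᗮ) :
    ∑ i, ‖b i‖ ^ 2 ≤ (Fintype.card J : ℝ) := by
  have hc : (0 : ℝ) < ‖T‖ ^ 2 + 1 := by positivity
  have hTc : ‖T‖ ^ 2 ≤ ‖T‖ ^ 2 + 1 := by linarith
  have hk : ∀ k : ℕ, ∑ i, (1 - ‖(opB T (‖T‖ ^ 2 + 1) ^ k) (e i)‖ ^ 2) ≤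
      (Fintype.card J : ℝ) := by
    intro k
    rw [trace_pow he hf hT]
    calc ∑ j, (1 - ‖(opD T (‖T‖ ^ 2 + 1) ^ k) (f j)‖ ^ 2) ≤ ∑ _j : J, (1 : ℝ) :=
          Finset.sum_le_sum fun j _ => by
            have : 0 ≤ ‖(opD T (‖T‖ ^ 2 + 1) ^ k) (f j)‖ ^ 2 := by positivity
            linarith
      _ = Fintype.card J := by simp
  have hlim : ∀ i, Tendsto (fun k : ℕ => (opB T (‖T‖ ^ 2 + 1) ^ k) (e i)) atTop (𝓝 (a i)) := by
    intro i
    have h1 := (opB_tendsto_orthogonal T hc hTc (hb i)).const_add (a i)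
    rw [add_zero] at h1
    refine h1.congr fun k => ?_
    rw [hab i, map_add, opB_pow_ker T _ k (ha i)]
  have hlim' : Tendsto (fun k : ℕ => ∑ i, (1 - ‖(opB T (‖T‖ ^ 2 + 1) ^ k) (e i)‖ ^ 2)) atTop
      (𝓝 (∑ i, (1 - ‖a i‖ ^ 2))) :=
    tendsto_finsetSum _ fun i _ => ((hlim i).norm.pow 2).const_sub 1
  have h2 : ∀ i, ‖b i‖ ^ 2 = 1 - ‖a i‖ ^ 2 := by
    intro i
    have h3 : ⟪a i, b i⟫_𝕜 = 0 := hb i _ (ha i)
    have h4 : ‖a i + b i‖ * ‖a i + b i‖ = ‖a i‖ * ‖a i‖ + ‖b i‖ * ‖b i‖ :=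
      norm_add_sq_eq_norm_sq_add_norm_sq_of_inner_eq_zero _ _ h3
    rw [← hab i, he.norm_eq] at h4
    nlinarith
  simp_rw [h2]
  exact le_of_tendsto' hlim' hk

end rank

end spectral

/-! ### Products -/

section prod

variable {E : Type*} [NormedAddCommGroup E] [InnerProductSpace 𝕜 E]
  {ρE : Γ →* (E ≃ₗᵢ[𝕜] E)} {F : Type*} [NormedAddCommGroup F] [InnerProductSpace 𝕜 F]
  {ρF : Γ →* (F ≃ₗᵢ[𝕜] F)} {I J : Type*} {e : I → E} {f : J → F}

/-- The product representation. -/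
noncomputable def prodRep (ρE : Γ →* (E ≃ₗᵢ[𝕜] E)) (ρF : Γ →* (F ≃ₗᵢ[𝕜] F)) :
    Γ →* (WithLp 2 (E × F) ≃ₗᵢ[𝕜] WithLp 2 (E × F)) where
  toFun g := LinearIsometryEquiv.withLpProdCongr 2 (ρE g) (ρF g)
  map_one' := by
    ext x
    · rw [map_one, map_one]
      rfl
  map_mul' g h := by
    rw [map_mul, map_mul]
    ext x
    · rfl

theorem prodRep_apply (g : Γ) (x : WithLp 2 (E × F)) :
    prodRep ρE ρF g x = WithLp.toLp 2 (ρE g x.fst, ρF g x.snd) := rfl

/-- The product frame. -/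
def prodFrame (e : I → E) (f : J → F) : I ⊕ J → WithLp 2 (E × F)
  | Sum.inl i => WithLp.toLp 2 (e i, 0)
  | Sum.inr j => WithLp.toLp 2 (0, f j)

theorem prodFrame_isFrame [CompleteSpace E] [CompleteSpace F] (he : IsFrame ρE e)
    (hf : IsFrame ρF f) : IsFrame (prodRep ρE ρF) (prodFrame e f) := by
  classical
  have h1 : ∀ g i, prodRep ρE ρF g (prodFrame e f (Sum.inl i)) = WithLp.toLp 2 (ρE g (e i), 0) := by
    intro g i
    rw [prodRep_apply]
    change WithLp.toLp 2 (ρE g (e i), ρF g 0) = _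
    rw [map_zero]
  have h2 : ∀ g j, prodRep ρE ρF g (prodFrame e f (Sum.inr j)) = WithLp.toLp 2 (0, ρF g (f j)) := by
    intro g j
    rw [prodRep_apply]
    change WithLp.toLp 2 (ρE g 0, ρF g (f j)) = _
    rw [map_zero]
  refine ⟨?_, ?_⟩
  · rw [orthonormal_iff_ite]
    rintro ⟨g, i | j⟩ ⟨g', i' | j'⟩
    · have h3 := (orthonormal_iff_ite.1 he.orth) (g, i) (g', i')
      change ⟪prodRep ρE ρF g (prodFrame e f (Sum.inl i)),
        prodRep ρE ρF g' (prodFrame e f (Sum.inl i'))⟫_𝕜 = _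
      rw [h1, h1, WithLp.prod_inner_apply]
      change ⟪ρE g (e i), ρE g' (e i')⟫_𝕜 + ⟪(0 : F), 0⟫_𝕜 = _
      rw [inner_zero_left, add_zero]
      refine h3.trans ?_
      simp only [Prod.mk.injEq, Sum.inl.injEq]
    · change ⟪prodRep ρE ρF g (prodFrame e f (Sum.inl i)),
        prodRep ρE ρF g' (prodFrame e f (Sum.inr j'))⟫_𝕜 = _
      rw [h1, h2, WithLp.prod_inner_apply]
      change ⟪ρE g (e i), (0 : E)⟫_𝕜 + ⟪(0 : F), ρF g' (f j')⟫_𝕜 = _
      rw [inner_zero_left, inner_zero_right, add_zero, if_neg]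
      simp
    · change ⟪prodRep ρE ρF g (prodFrame e f (Sum.inr j)),
        prodRep ρE ρF g' (prodFrame e f (Sum.inl i'))⟫_𝕜 = _
      rw [h1, h2, WithLp.prod_inner_apply]
      change ⟪(0 : E), ρE g' (e i')⟫_𝕜 + ⟪ρF g (f j), (0 : F)⟫_𝕜 = _
      rw [inner_zero_left, inner_zero_right, add_zero, if_neg]
      simp
    · have h3 := (orthonormal_iff_ite.1 hf.orth) (g, j) (g', j')
      change ⟪prodRep ρE ρF g (prodFrame e f (Sum.inr j)),
        prodRep ρE ρF g' (prodFrame e f (Sum.inr j'))⟫_𝕜 = _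
      rw [h2, h2, WithLp.prod_inner_apply]
      change ⟪(0 : E), 0⟫_𝕜 + ⟪ρF g (f j), ρF g' (f j')⟫_𝕜 = _
      rw [inner_zero_left, zero_add]
      refine h3.trans ?_
      simp only [Prod.mk.injEq, Sum.inr.injEq]
  · rw [Submodule.topologicalClosure_eq_top_iff, Submodule.eq_bot_iff]
    intro x hx
    have hxe : ∀ g i, ⟪ρE g (e i), x.fst⟫_𝕜 = 0 := by
      intro g i
      have h3 := hx _ (Submodule.subset_span ⟨(g, Sum.inl i), rfl⟩)
      change ⟪prodRep ρE ρF g (prodFrame e f (Sum.inl i)), x⟫_𝕜 = 0 at h3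
      rw [h1, WithLp.prod_inner_apply] at h3
      change ⟪ρE g (e i), x.fst⟫_𝕜 + ⟪(0 : F), x.snd⟫_𝕜 = 0 at h3
      rwa [inner_zero_left, add_zero] at h3
    have hxf : ∀ g j, ⟪ρF g (f j), x.snd⟫_𝕜 = 0 := by
      intro g j
      have h3 := hx _ (Submodule.subset_span ⟨(g, Sum.inr j), rfl⟩)
      change ⟪prodRep ρE ρF g (prodFrame e f (Sum.inr j)), x⟫_𝕜 = 0 at h3
      rw [h2, WithLp.prod_inner_apply] at h3
      change ⟪(0 : E), x.fst⟫_𝕜 + ⟪ρF g (f j), x.snd⟫_𝕜 = 0 at h3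
      rwa [inner_zero_left, zero_add] at h3
    have hx1 : x.fst = 0 := by
      have h4 := Submodule.topologicalClosure_eq_top_iff.1 he.total
      have h5 : x.fst ∈ (Submodule.span 𝕜 (Set.range fun p : Γ × I => ρE p.1 (e p.2)))ᗮ := by
        rw [Submodule.mem_orthogonal]
        intro u hu
        induction hu using Submodule.span_induction with
        | mem u hu =>
          obtain ⟨p, rfl⟩ := hu
          exact hxe p.1 p.2
        | zero => exact inner_zero_left _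
        | add u v _ _ hu hv => rw [inner_add_left, hu, hv, add_zero]
        | smul c u _ hu => rw [inner_smul_left, hu, mul_zero]
      rw [h4] at h5
      exact (Submodule.mem_bot 𝕜).1 h5
    have hx2 : x.snd = 0 := by
      have h4 := Submodule.topologicalClosure_eq_top_iff.1 hf.total
      have h5 : x.snd ∈ (Submodule.span 𝕜 (Set.range fun p : Γ × J => ρF p.1 (f p.2)))ᗮ := by
        rw [Submodule.mem_orthogonal]
        intro u hu
        induction hu using Submodule.span_induction with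
        | mem u hu =>
          obtain ⟨p, rfl⟩ := hu
          exact hxf p.1 p.2
        | zero => exact inner_zero_left _
        | add u v _ _ hu hv => rw [inner_add_left, hu, hv, add_zero]
        | smul c u _ hu => rw [inner_smul_left, hu, mul_zero]
      rw [h4] at h5
      exact (Submodule.mem_bot 𝕜).1 h5
    change x = 0
    apply (WithLp.equiv 2 (E × F)).injective
    exact Prod.ext hx1 hx2

end prod

section main

variable {E : Type*} [NormedAddCommGroup E] [InnerProductSpace 𝕜 E] [CompleteSpace E]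
  {ρE : Γ →* (E ≃ₗᵢ[𝕜] E)} {F : Type*} [NormedAddCommGroup F] [InnerProductSpace 𝕜 F]
  [CompleteSpace F] {ρF : Γ →* (F ≃ₗᵢ[𝕜] F)} {I J : Type*} [Fintype I] [Fintype J] {e : I → E}
  {f : J → F}

omit [CompleteSpace E] in
/-- The projection to an invariant closed subspace is equivariant. -/
theorem proj_equi {H : Submodule 𝕜 E} [H.HasOrthogonalProjection]
    (hinv : ∀ g, ∀ x ∈ H, ρE g x ∈ H) : Equi ρE ρE H.starProjection := by
  intro g x
  apply Submodule.eq_starProjection_of_mem_of_inner_eq_zero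
  · exact hinv g _ (Submodule.starProjection_apply_mem H x)
  · intro w hw
    rw [← map_sub, inner_inv g]
    exact Submodule.starProjection_inner_eq_zero _ _ (hinv _ _ hw)

/-- **Direct finiteness**, in the form in which it is used: a nonzero closed invariant subspace of
`E` and the whole space `F` cannot be mapped injectively to `F`. -/
theorem exists_relation (he : IsFrame ρE e) (hf : IsFrame ρF f) {T1 : E →L[𝕜] F}
    {T2 : F →L[𝕜] F} (hT1 : Equi ρE ρF T1) (hT2 : Equi ρF ρF T2) (H : Submodule 𝕜 E)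
    (hcl : IsClosed (H : Set E)) (hinv : ∀ g, ∀ x ∈ H, ρE g x ∈ H) (hne : H ≠ ⊥) :
    ∃ h ∈ H, ∃ x : F, (h ≠ 0 ∨ x ≠ 0) ∧ T1 h = T2 x := by
  classical
  by_contra hcon
  push Not at hcon
  have : CompleteSpace H := hcl.completeSpace_coe
  set P := H.starProjection with hP
  have hPe : Equi ρE ρE P := proj_equi hinv
  set T : WithLp 2 (E × F) →L[𝕜] F :=
    (T1.comp P).comp (WithLp.fstL 2 𝕜 E F) - T2.comp (WithLp.sndL 2 𝕜 E F) with hTdef
  have hTap : ∀ z, T z = T1 (P z.fst) - T2 z.snd := fun z => rfl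
  have hTe : Equi (prodRep ρE ρF) ρF T := by
    intro g z
    rw [hTap, hTap, prodRep_apply]
    change T1 (P (ρE g z.fst)) - T2 (ρF g z.snd) = _
    rw [hPe, hT1, hT2, map_sub]
  have hker : ∀ z, T z = 0 → P z.fst = 0 ∧ z.snd = 0 := by
    intro z hz
    rw [hTap, sub_eq_zero] at hz
    by_contra hne'
    refine hcon (P z.fst) (Submodule.starProjection_apply_mem H _) z.snd ?_ hz
    by_contra h
    push Not at h
    exact hne' h
  have hle := rank_le (prodFrame_isFrame he hf) hf hTe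
    (a := fun
      | Sum.inl i => WithLp.toLp 2 (e i - P (e i), 0)
      | Sum.inr _ => 0)
    (b := fun
      | Sum.inl i => WithLp.toLp 2 (P (e i), 0)
      | Sum.inr j => WithLp.toLp 2 (0, f j)) ?_ ?_ ?_
  · rw [Fintype.sum_sum_type] at hle
    have h1 : ∀ j, ‖(WithLp.toLp 2 ((0 : E), f j) : WithLp 2 (E × F))‖ ^ 2 = 1 := by
      intro j
      rw [WithLp.prod_norm_sq_eq_of_L2]
      simp [hf.norm_eq]
    have h2 : ∀ i, ‖(WithLp.toLp 2 (P (e i), (0 : F)) : WithLp 2 (E × F))‖ ^ 2 = ‖P (e i)‖ ^ 2 := by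
      intro i
      rw [WithLp.prod_norm_sq_eq_of_L2]
      simp
    simp only [h1, h2, Finset.sum_const, Finset.card_univ, nsmul_eq_mul, mul_one] at hle
    have h3 : ∑ i, ‖P (e i)‖ ^ 2 ≤ 0 := by linarith
    have h4 : ∀ i, P (e i) = 0 := by
      intro i
      have h5 := (Finset.sum_eq_zero_iff_of_nonneg (fun i _ => by positivity)).1
        (le_antisymm h3 (Finset.sum_nonneg fun i _ => by positivity)) i (Finset.mem_univ i)
      simpa using h5
    apply hne
    rw [Submodule.eq_bot_iff]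
    intro x hx
    have h6 : ∀ y, P y = 0 := by
      have h7 : (Submodule.span 𝕜 (Set.range fun p : Γ × I => ρE p.1 (e p.2))).topologicalClosure ≤
          P.ker := by
        apply Submodule.topologicalClosure_minimal
        · rw [Submodule.span_le]
          rintro _ ⟨p, rfl⟩
          change P (ρE p.1 (e p.2)) = 0
          rw [hPe, h4, map_zero]
        · exact P.isClosed_ker
      rw [he.total] at h7
      intro y
      exact h7 Submodule.mem_top
    rw [← Submodule.starProjection_eq_self_iff.2 hx]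
    exact h6 x
  · rintro (i | j)
    · apply (WithLp.equiv 2 (E × F)).injective
      refine Prod.ext ?_ ?_
      · change e i = (e i - P (e i)) + P (e i)
        rw [sub_add_cancel]
      · change (0 : F) = 0 + 0
        rw [add_zero]
    · exact (zero_add _).symm
  · rintro (i | j)
    · rw [hTap]
      change T1 (P (e i - P (e i))) - T2 0 = 0
      rw [map_zero, sub_zero, map_sub]
      have : P (P (e i)) = P (e i) :=
        Submodule.starProjection_eq_self_iff.2 (Submodule.starProjection_apply_mem H _)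
      rw [this, sub_self, map_zero]
    · exact map_zero _
  · rintro (i | j)
    · rw [Submodule.mem_orthogonal]
      intro z hz
      have h1 := hker z hz
      rw [WithLp.prod_inner_apply]
      change ⟪z.fst, P (e i)⟫_𝕜 + ⟪z.snd, (0 : F)⟫_𝕜 = 0
      rw [inner_zero_right, add_zero]
      have h2 : ⟪z.fst - P z.fst, P (e i)⟫_𝕜 = 0 :=
        Submodule.starProjection_inner_eq_zero _ _ (Submodule.starProjection_apply_mem H _)
      rw [h1.1, sub_zero] at h2
      exact h2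
    · rw [Submodule.mem_orthogonal]
      intro z hz
      have h1 := hker z hz
      rw [WithLp.prod_inner_apply]
      change ⟪z.fst, (0 : E)⟫_𝕜 + ⟪z.snd, f j⟫_𝕜 = 0
      rw [inner_zero_right, zero_add, h1.2, inner_zero_left]

end main

/-! ### The `ℓ²` space of a free `Γ`-set with finitely many orbits -/

section ell2

variable {X : Type*}

theorem memlp_comp (σ : X ≃ X) {ξ : X → 𝕜} (hξ : Memℓp ξ 2) : Memℓp (fun x => ξ (σ x)) 2 := by
  rw [memℓp_gen_iff (by norm_num)] at hξ ⊢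
  exact σ.summable_iff.2 hξ

/-- Transport along a permutation. -/
noncomputable def permL (σ : X ≃ X) :
    lp (fun _ : X => 𝕜) 2 ≃ₗᵢ[𝕜] lp (fun _ : X => 𝕜) 2 where
  toFun ξ := ⟨fun x => ξ (σ.symm x), memlp_comp σ.symm ξ.2⟩
  map_add' ξ η := by
    ext x
    rfl
  map_smul' c ξ := by
    ext x
    rfl
  invFun ξ := ⟨fun x => ξ (σ x), memlp_comp σ ξ.2⟩
  left_inv ξ := by
    ext x
    change ξ (σ.symm (σ x)) = ξ x
    rw [Equiv.symm_apply_apply]
  right_inv ξ := by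
    ext x
    change ξ (σ (σ.symm x)) = ξ x
    rw [Equiv.apply_symm_apply]
  norm_map' ξ := by
    have h2 : (0 : ℝ) < (2 : ENNReal).toReal := by norm_num
    rw [lp.norm_eq_tsum_rpow h2, lp.norm_eq_tsum_rpow h2]
    congr 1
    exact σ.symm.tsum_eq fun x => ‖ξ x‖ ^ (2 : ENNReal).toReal

theorem permL_apply (σ : X ≃ X) (ξ : lp (fun _ : X => 𝕜) 2) (x : X) :
    permL σ ξ x = ξ (σ.symm x) := rfl

variable (𝕜 Γ X) in
/-- The permutation representation `(g ξ)(x) = ξ (g⁻¹ x)`. -/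
noncomputable def permRep [MulAction Γ X] :
    Γ →* (lp (fun _ : X => 𝕜) 2 ≃ₗᵢ[𝕜] lp (fun _ : X => 𝕜) 2) where
  toFun g := permL (MulAction.toPerm g)
  map_one' := by
    ext ξ x
    change ξ ((1 : Γ)⁻¹ • x) = ξ x
    rw [inv_one, one_smul]
  map_mul' g h := by
    ext ξ x
    change ξ ((g * h)⁻¹ • x) = ξ (h⁻¹ • (g⁻¹ • x))
    rw [mul_inv_rev, mul_smul]

theorem permRep_apply [MulAction Γ X] (g : Γ) (ξ : lp (fun _ : X => 𝕜) 2) (x : X) :
    permRep 𝕜 Γ X g ξ x = ξ (g⁻¹ • x) := rfl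

theorem permRep_single [MulAction Γ X] [DecidableEq X] (g : Γ) (x : X) (a : 𝕜) :
    permRep 𝕜 Γ X g (lp.single 2 x a) = lp.single 2 (g • x) a := by
  ext y
  rw [permRep_apply, lp.single_apply, lp.single_apply]
  by_cases h : y = g • x
  · subst h
    rw [inv_smul_smul, Pi.single_eq_same, Pi.single_eq_same]
  · rw [Pi.single_eq_of_ne h, Pi.single_eq_of_ne]
    rintro rfl
    exact h (smul_inv_smul g y).symm

/-- If `r i` represent the orbits of a free action then the `δ_{r i}` form a frame. -/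
theorem permRep_isFrame [MulAction Γ X] [DecidableEq X] {I : Type*} (r : I → X)
    (hr : Function.Bijective fun p : Γ × I => p.1 • r p.2) :
    IsFrame (permRep 𝕜 Γ X) (fun i => lp.single 2 (r i) (1 : 𝕜)) := by
  classical
  refine ⟨?_, ?_⟩
  · rw [orthonormal_iff_ite]
    intro p q
    rw [permRep_single, permRep_single, lp.inner_single_left, lp.single_apply]
    by_cases h : p = q
    · subst h
      rw [Pi.single_eq_same, if_pos rfl]
      simp
    · rw [Pi.single_eq_of_ne, if_neg h, inner_zero_right]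
      intro h'
      exact h (hr.1 h')
  · rw [Submodule.topologicalClosure_eq_top_iff, Submodule.eq_bot_iff]
    intro ξ hξ
    ext x
    obtain ⟨p, rfl⟩ := hr.2 x
    have h1 := hξ _ (Submodule.subset_span ⟨p, rfl⟩)
    beta_reduce at h1
    rw [permRep_single, lp.inner_single_left] at h1
    change ξ (p.1 • r p.2) = 0
    simpa using h1

/-! ### The free module `ℓ²(Γ × I)` -/

/-- Left multiplication on the first coordinate. -/
def freePerm (I : Type*) (g : Γ) : Γ × I ≃ Γ × I := (Equiv.mulLeft g).prodCongr (Equiv.refl I)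

variable (𝕜 Γ) in
/-- The left regular representation on `ℓ²(Γ × I)`: `(g ξ)(h, i) = ξ (g⁻¹ h, i)`. -/
noncomputable def freeRep (I : Type*) :
    Γ →* (lp (fun _ : Γ × I => 𝕜) 2 ≃ₗᵢ[𝕜] lp (fun _ : Γ × I => 𝕜) 2) where
  toFun g := permL (freePerm I g)
  map_one' := by
    ext ξ ⟨h, i⟩
    change ξ ((1 : Γ)⁻¹ * h, i) = ξ (h, i)
    rw [inv_one, one_mul]
  map_mul' a b := by
    ext ξ ⟨h, i⟩
    change ξ ((a * b)⁻¹ * h, i) = ξ (b⁻¹ * (a⁻¹ * h), i)
    rw [mul_inv_rev, mul_assoc]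

theorem freeRep_apply {I : Type*} (g : Γ) (ξ : lp (fun _ : Γ × I => 𝕜) 2) (p : Γ × I) :
    freeRep 𝕜 Γ I g ξ p = ξ (g⁻¹ * p.1, p.2) := rfl

theorem freeRep_single {I : Type*} [DecidableEq (Γ × I)] (g : Γ) (p : Γ × I) (a : 𝕜) :
    freeRep 𝕜 Γ I g (lp.single 2 p a) = lp.single 2 (g * p.1, p.2) a := by
  ext q
  rw [freeRep_apply, lp.single_apply, lp.single_apply]
  by_cases h : q = (g * p.1, p.2)
  · subst h
    have h1 : (g⁻¹ * (g * p.1), p.2) = p := by rw [inv_mul_cancel_left]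
    change Pi.single (M := fun _ => 𝕜) p a (g⁻¹ * (g * p.1), p.2) = _
    rw [h1, Pi.single_eq_same, Pi.single_eq_same]
  · rw [Pi.single_eq_of_ne h, Pi.single_eq_of_ne]
    rintro rfl
    apply h
    change q = (g * (g⁻¹ * q.1), q.2)
    rw [mul_inv_cancel_left]

theorem freeRep_isFrame {I : Type*} [DecidableEq (Γ × I)] :
    IsFrame (freeRep 𝕜 Γ I) (fun i => lp.single 2 ((1 : Γ), i) (1 : 𝕜)) := by
  classical
  have h0 : ∀ p : Γ × I, freeRep 𝕜 Γ I p.1 (lp.single 2 ((1 : Γ), p.2) (1 : 𝕜)) =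
      lp.single 2 p 1 := by
    intro p
    rw [freeRep_single, mul_one]
  refine ⟨?_, ?_⟩
  · rw [orthonormal_iff_ite]
    intro p q
    rw [h0, h0, lp.inner_single_left, lp.single_apply]
    by_cases h : p = q
    · subst h
      rw [Pi.single_eq_same, if_pos rfl]
      simp
    · rw [Pi.single_eq_of_ne h, if_neg h, inner_zero_right]
  · rw [Submodule.topologicalClosure_eq_top_iff, Submodule.eq_bot_iff]
    intro ξ hξ
    ext x
    have h1 := hξ _ (Submodule.subset_span ⟨x, rfl⟩)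
    beta_reduce at h1
    rw [h0, lp.inner_single_left] at h1
    change ξ x = 0
    simpa using h1

end ell2

end DF

end OS
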