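import Mathlib
import Pool.Agent.Lib.MP_8fe54c_gt.GPUm
import Pool.Agent.Lib.MP_8fe54c_gt.L2Cmp
import Pool.Agent.Lib.MP_8fe54c_gt.L2Op
import Pool.Agent.Lib.MP_8fe54c_gt.L2Rel
import Pool.Agent.Lib.MP_8fe54c_gt.L2Sal

/-!
# Vanishing of the harmonic chains of a subgroup implies vanishing of the homology with
coefficients in the ring `UM`
-/

namespace OS

namespace GP

open Finsupp MulOpposite
open scoped InnerProductSpace ENNReal Classical
open Forest46876 Forest46876.VMod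

universe u v w u' v' w'

section rel

variable {H : Type*} [NormedAddCommGroup H] [InnerProductSpace ℝ H] [CompleteSpace H]
  {ι κ μ : Type*} [Fintype ι] [Fintype κ] [Fintype μ] {S : TrSys H}

/-- the graph of the relation `A η = T ζ` -/
noncomputable def K3_graph (A : H →L[ℝ] HI κ H) (T : HI κ H →L[ℝ] HI κ H)
    (hA : ∀ u ∈ S.U, ∀ f, A (u f) = lift u (A f)) (hT : S.IsInt T) : VMod S (Unit ⊕ κ) where
  K := (A ∘L cmp (Sum.inl ()) - T ∘L resR : HI (Unit ⊕ κ) H →L[ℝ] HI κ H).toLinearMap.ker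
  closed := ContinuousLinearMap.isClosed_ker _
  inv := by
    intro u hu f hf
    have h1 : A (f (Sum.inl ())) - T (resR f) = 0 := hf
    change A (u (f (Sum.inl ()))) - T (resR (lift u f)) = 0
    have e2 : resR (lift u f : HI (Unit ⊕ κ) H) = lift u (resR f) := rfl
    rw [e2, hT u hu, hA u hu, sub_eq_zero, sub_eq_zero.1 h1]

theorem K3_mem_graph {A : H →L[ℝ] HI κ H} {T : HI κ H →L[ℝ] HI κ H}
    {hA : ∀ u ∈ S.U, ∀ f, A (u f) = lift u (A f)} {hT : S.IsInt T} {f : HI (Unit ⊕ κ) H} :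
    f ∈ (K3_graph A T hA hT).K ↔ A (f (Sum.inl ())) = T (resR f) := by
  rw [← sub_eq_zero]
  rfl

/-- the vectors orthogonal to a module -/
noncomputable def K3_perp (M : VMod S (Unit ⊕ κ)) : VMod S Unit where
  K :=
    { carrier := {f | ∀ g ∈ M.K, ⟪f (), g (Sum.inl ())⟫_ℝ = 0}
      add_mem' := by
        intro a b ha hb g hg
        change ⟪a () + b (), g (Sum.inl ())⟫_ℝ = 0
        rw [inner_add_left, ha g hg, hb g hg, add_zero]
      zero_mem' := by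
        intro g hg
        change ⟪(0 : H), g (Sum.inl ())⟫_ℝ = 0
        rw [inner_zero_left]
      smul_mem' := by
        intro c a ha g hg
        change ⟪c • a (), g (Sum.inl ())⟫_ℝ = 0
        rw [real_inner_smul_left, ha g hg, mul_zero] }
  closed := by
    have : {f : HI Unit H | ∀ g ∈ M.K, ⟪f (), g (Sum.inl ())⟫_ℝ = 0} =
        ⋂ g ∈ M.K, {f : HI Unit H | ⟪f (), g (Sum.inl ())⟫_ℝ = 0} := by
      ext f
      simp
    change IsClosed {f : HI Unit H | ∀ g ∈ M.K, ⟪f (), g (Sum.inl ())⟫_ℝ = 0}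
    rw [this]
    refine isClosed_biInter fun g _ => ?_
    refine isClosed_eq ?_ continuous_const
    exact ((cmp () : HI Unit H →L[ℝ] H).continuous).inner continuous_const
  inv := by
    intro u hu f hf g hg
    change ⟪u (f ()), g (Sum.inl ())⟫_ℝ = 0
    rw [← ContinuousLinearMap.adjoint_inner_right]
    exact hf _ (M.inv _ (S.adj_mem u hu) g hg)

theorem K3_rel (A : H →L[ℝ] HI κ H) (T : HI κ H →L[ℝ] HI κ H)
    (hA : ∀ u ∈ S.U, ∀ f, A (u f) = lift u (A f)) (hT : S.IsInt T)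
    (hinj : ∀ x, T x = 0 → x = 0) :
    ∃ (s : H →L[ℝ] H) (B : H →L[ℝ] HI κ H), (∀ u ∈ S.U, ∀ f, s (u f) = u (s f)) ∧
      (∀ u ∈ S.U, ∀ f, B (u f) = lift u (B f)) ∧ (∀ f, s f = 0 → f = 0) ∧
      ∀ f, A (s f) = T (B f) := by
  set M := K3_graph A T hA hT with hM
  refine ⟨cmp (Sum.inl ()) ∘L M.P ∘L inc (Sum.inl ()), resR ∘L M.P ∘L inc (Sum.inl ()),
    ?_, ?_, ?_, ?_⟩
  · intro u hu f
    change M.P (inc (Sum.inl ()) (u f)) (Sum.inl ()) = u (M.P (inc (Sum.inl ()) f) (Sum.inl ()))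
    rw [← lift_inc, M.P_isInt u hu]
    rfl
  · intro u hu f
    change resR (M.P (inc (Sum.inl ()) (u f))) = lift u (resR (M.P (inc (Sum.inl ()) f)))
    rw [← lift_inc, M.P_isInt u hu]
    rfl
  · intro f hf
    have hf' : M.P (inc (Sum.inl ()) f) (Sum.inl ()) = 0 := hf
    have h1 : M.P (inc (Sum.inl ()) f) = 0 := by
      have h2 : ⟪M.P (inc (Sum.inl ()) f), M.P (inc (Sum.inl ()) f)⟫_ℝ = 0 := by
        rw [M.inner_P, M.P_eq_self (M.P_mem _), inner_inc_left, hf', inner_zero_right]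
      exact inner_self_eq_zero.1 h2
    by_contra hne
    have h3 : (K3_perp M).K ≠ ⊥ := by
      intro hb
      have h4 : (inc () f : HI Unit H) ∈ (K3_perp M).K := by
        intro g hg
        rw [inc_same, ← inner_inc_left, ← M.P_eq_self hg, ← M.inner_P, h1, inner_zero_left]
      rw [hb, Submodule.mem_bot] at h4
      apply hne
      have := congrArg (fun z : HI Unit H => z ()) h4
      simpa using this
    obtain ⟨h, hh, hh0, x, hx⟩ := exists_rel (K3_perp M) h3 (A ∘L cmp ()) T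
      (fun u hu f => hA u hu _) hT hinj
    let g : HI (Unit ⊕ κ) H := WithLp.toLp 2 (Sum.elim (fun _ => h ()) (fun j => x j))
    have hg : g ∈ M.K := by
      rw [hM, K3_mem_graph]
      have e1 : g (Sum.inl ()) = h () := rfl
      have e2 : resR g = x := by
        ext j
        rfl
      rw [e1, e2]
      exact hx
    have h5 := hh g hg
    have h6 : ⟪h (), h ()⟫_ℝ = 0 := h5
    apply hh0
    ext j
    exact inner_self_eq_zero.1 h6
  · intro f
    have := K3_mem_graph.1 (M.P_mem (inc (Sum.inl ()) f))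
    exact this

/-- the abstract Laplacian argument -/
theorem K3_lap (A : H →L[ℝ] HI κ H) (D : HI ι H →L[ℝ] HI κ H) (C : HI κ H →L[ℝ] HI ι H)
    (D0 : HI κ H →L[ℝ] HI μ H) (C0 : HI μ H →L[ℝ] HI κ H)
    (hA : ∀ u ∈ S.U, ∀ f, A (u f) = lift u (A f)) (hD : S.IsInt D) (hC : S.IsInt C)
    (hD0 : S.IsInt D0) (hC0 : S.IsInt C0) (hDC : ∀ z w, ⟪D z, w⟫_ℝ = ⟪z, C w⟫_ℝ)
    (hDC0 : ∀ z w, ⟪D0 z, w⟫_ℝ = ⟪z, C0 w⟫_ℝ) (hDD : ∀ z, D0 (D z) = 0)
    (hinj : ∀ z, C z = 0 → D0 z = 0 → z = 0) (hDA : ∀ f, D0 (A f) = 0) :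
    ∃ (s : H →L[ℝ] H) (B : H →L[ℝ] HI ι H), (∀ u ∈ S.U, ∀ f, s (u f) = u (s f)) ∧
      (∀ u ∈ S.U, ∀ f, B (u f) = lift u (B f)) ∧ (∀ f, s f = 0 → f = 0) ∧
      ∀ f, A (s f) = D (B f) := by
  obtain ⟨s, B, h1, h2, h3, h4⟩ := K3_rel (S := S) A (D ∘L C + C0 ∘L D0) hA
    ((hD.comp hC).add (hC0.comp hD0)) (by
      intro z hz
      have hz' : D (C z) + C0 (D0 z) = 0 := hz
      have e1 : ⟪D (C z) + C0 (D0 z), z⟫_ℝ = 0 := by rw [hz', inner_zero_left]
      rw [inner_add_left, hDC, real_inner_comm, real_inner_comm z (C0 (D0 z)), ← hDC0] at e1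
      have e2 : 0 ≤ ⟪C z, C z⟫_ℝ := real_inner_self_nonneg
      have e3 : 0 ≤ ⟪D0 z, D0 z⟫_ℝ := real_inner_self_nonneg
      have e4 : ⟪C z, C z⟫_ℝ = 0 := by linarith
      have e5 : ⟪D0 z, D0 z⟫_ℝ = 0 := by linarith
      exact hinj z (inner_self_eq_zero.1 e4) (inner_self_eq_zero.1 e5))
  refine ⟨s, C ∘L B, h1, fun u hu f => ?_, h3, fun f => ?_⟩
  · change C (B (u f)) = lift u (C (B f))
    rw [h2 u hu, hC u hu]
  · have h5 : A (s f) = D (C (B f)) + C0 (D0 (B f)) := h4 f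
    have h6 : D0 (C0 (D0 (B f))) = 0 := by
      have := congrArg D0 h5
      rw [hDA, map_add, hDD, zero_add] at this
      exact this.symm
    have h7 : C0 (D0 (B f)) = 0 := by
      have : ⟪C0 (D0 (B f)), C0 (D0 (B f))⟫_ℝ = 0 := by
        rw [← hDC0, h6, inner_zero_left]
      exact inner_self_eq_zero.1 this
    rw [h5, h7, add_zero]
    rfl

end rel

section orb

variable {H : Type v'} [Group H] (F : FreeRes.{u', v'} H) (k : ℕ)

/-- the orbits of cells -/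
abbrev K3_Or := Quotient (MulAction.orbitRel H (F.X k))

instance K3_fin : Finite (K3_Or F k) := by
  obtain ⟨s, hs⟩ := F.fin k
  have : Function.Surjective (fun y : s => (Quotient.mk (MulAction.orbitRel H (F.X k)) y.1)) := by
    intro q
    obtain ⟨x, rfl⟩ := Quotient.exists_rep q
    obtain ⟨g, y, hy, hg⟩ := hs x
    refine ⟨⟨y, hy⟩, ?_⟩
    apply Quotient.sound
    exact (MulAction.orbitRel H (F.X k)).symm (MulAction.orbitRel_apply.2 ⟨g, hg⟩)
  exact Finite.of_surjective _ this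

noncomputable instance : Fintype (K3_Or F k) := Fintype.ofFinite _

variable {F k}

/-- the orbit of a cell -/
def K3_q (x : F.X k) : K3_Or F k := Quotient.mk (MulAction.orbitRel H (F.X k)) x

/-- representatives -/
noncomputable def K3_e (i : K3_Or F k) : F.X k := Quotient.out i

theorem K3_q_e (i : K3_Or F k) : K3_q (K3_e i) = i := Quotient.out_eq i

theorem K3_q_smul (a : H) (x : F.X k) : K3_q (a • x) = K3_q x := by
  apply Quotient.sound
  exact MulAction.orbitRel_apply.2 ⟨a, rfl⟩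

theorem K3_exists_h (x : F.X k) : ∃ a : H, a • K3_e (K3_q x) = x := by
  have h1 : (MulAction.orbitRel H (F.X k)) x (K3_e (K3_q x)) :=
    (MulAction.orbitRel H (F.X k)).symm (Quotient.mk_out (s := MulAction.orbitRel H (F.X k)) x)
  exact MulAction.orbitRel_apply.1 h1

/-- the translating element -/
noncomputable def K3_h (x : F.X k) : H := (K3_exists_h x).choose

theorem K3_h_spec (x : F.X k) : K3_h x • K3_e (K3_q x) = x := (K3_exists_h x).choose_spec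

theorem K3_h_smul (a : H) (x : F.X k) : K3_h (a • x) = a * K3_h x := by
  apply F.eq_of_smul_eq (x := K3_e (K3_q x))
  have h1 := K3_h_spec (a • x)
  rw [K3_q_smul] at h1
  rw [h1, mul_smul, K3_h_spec]

theorem K3_h_e (i : K3_Or F k) : K3_h (K3_e i) = 1 := by
  apply F.eq_of_smul_eq (x := K3_e i)
  have h1 := K3_h_spec (K3_e i)
  rw [K3_q_e] at h1
  rw [h1, one_smul]

/-- exchange of the order of summation over pairs of cells -/
theorem K3_swap {A : Type*} [AddCommMonoid A] (c : F.X (k + 1) → F.X k → A)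
    (hc : ∀ (a : H) x y, c (a • x) (a • y) = c x y) (s : F.X k → Finset (F.X (k + 1)))
    (t : F.X (k + 1) → Finset (F.X k)) (hst : ∀ x y, x ∈ s y ↔ y ∈ t x)
    (hs : ∀ (a : H) x y, a • x ∈ s (a • y) ↔ x ∈ s y) :
    ∑ i : K3_Or F k, ∑ x ∈ s (K3_e i), c x (K3_e i) =
      ∑ j : K3_Or F (k + 1), ∑ y ∈ t (K3_e j), c (K3_e j) y := by
  rw [Finset.sum_sigma', Finset.sum_sigma']
  refine Finset.sum_bij' (fun p _ => ⟨K3_q p.2, (K3_h p.2)⁻¹ • K3_e p.1⟩)
    (fun p _ => ⟨K3_q p.2, (K3_h p.2)⁻¹ • K3_e p.1⟩) ?_ ?_ ?_ ?_ ?_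
  · rintro ⟨i, x⟩ h
    simp only [Finset.mem_sigma, Finset.mem_univ, true_and] at h ⊢
    rw [← hst, ← hs (K3_h x), smul_inv_smul, K3_h_spec]
    exact h
  · rintro ⟨j, y⟩ h
    simp only [Finset.mem_sigma, Finset.mem_univ, true_and] at h ⊢
    rw [← hs (K3_h y), smul_inv_smul, K3_h_spec, hst]
    exact h
  · rintro ⟨i, x⟩ h
    simp only [K3_q_smul, K3_q_e, K3_h_smul, K3_h_e, mul_one, inv_inv, K3_h_spec]
  · rintro ⟨j, y⟩ h
    simp only [K3_q_smul, K3_q_e, K3_h_smul, K3_h_e, mul_one, inv_inv, K3_h_spec]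
  · rintro ⟨i, x⟩ h
    simp only
    rw [← hc (K3_h x) (K3_e (K3_q x)), K3_h_spec, smul_inv_smul]

end orb

section ops

variable {H : Type v'} [Group H] {Γ : Type v} [Group Γ] (φ : H →* Γ) (F : FreeRes.{u', v'} H)

/-- evaluation of an equivariant function, given on the representatives, at a cell -/
noncomputable def K3_ev (k : ℕ) (x : F.X k) : HI (K3_Or F k) (H2 Γ) →L[ℝ] H2 Γ :=
  rop (φ (K3_h x)) ∘L cmp (K3_q x)

theorem K3_rop_mul (a b : Γ) (f : H2 Γ) : rop (a * b) f = rop a (rop b f) := by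
  ext x
  rw [rop_apply, rop_apply, rop_apply, mul_assoc]

theorem K3_rop_one (f : H2 Γ) : rop (1 : Γ) f = f := by
  ext x
  rw [rop_apply, mul_one]

theorem K3_ev_smul (k : ℕ) (a : H) (x : F.X k) (z : HI (K3_Or F k) (H2 Γ)) :
    K3_ev φ F k (a • x) z = rop (φ a) (K3_ev φ F k x z) := by
  change rop (φ (K3_h (a • x))) (z (K3_q (a • x))) = rop (φ a) (rop (φ (K3_h x)) (z (K3_q x)))
  rw [K3_h_smul, K3_q_smul, map_mul, K3_rop_mul]

theorem K3_ev_e (k : ℕ) (i : K3_Or F k) (z : HI (K3_Or F k) (H2 Γ)) :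
    K3_ev φ F k (K3_e i) z = z i := by
  change rop (φ (K3_h (K3_e i))) (z (K3_q (K3_e i))) = z i
  rw [K3_h_e, K3_q_e, map_one, K3_rop_one]

theorem K3_ev_lift (k : ℕ) (x : F.X k) (g : Γ) (z : HI (K3_Or F k) (H2 Γ)) :
    K3_ev φ F k x (lift (lamL Γ g) z) = lamL Γ g (K3_ev φ F k x z) :=
  rop_lamL _ _ _

theorem K3_ev_ext {k : ℕ} {z z' : HI (K3_Or F k) (H2 Γ)}
    (h : ∀ x, K3_ev φ F k x z = K3_ev φ F k x z') : z = z' := by
  ext i : 1
  rw [← K3_ev_e φ F k i z, ← K3_ev_e φ F k i z', h]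

/-- assembling -/
noncomputable def K3_asm {E : Type*} [NormedAddCommGroup E] [NormedSpace ℝ E] {ι : Type*}
    [Fintype ι] (T : ι → E →L[ℝ] H2 Γ) : E →L[ℝ] HI ι (H2 Γ) := ∑ i, inc i ∘L T i

omit [Group Γ] in
theorem K3_asm_apply {E : Type*} [NormedAddCommGroup E] [NormedSpace ℝ E] {ι : Type*}
    [Fintype ι] (T : ι → E →L[ℝ] H2 Γ) (f : E) (i : ι) : K3_asm T f i = T i f := by
  have h1 : K3_asm T f = ∑ i, (inc i : H2 Γ →L[ℝ] HI ι (H2 Γ)) (T i f) := by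
    unfold K3_asm
    rw [_root_.sum_apply]
    rfl
  rw [h1]
  have h2 := map_sum (cmp i : HI ι (H2 Γ) →L[ℝ] H2 Γ)
    (fun j => (inc j : H2 Γ →L[ℝ] HI ι (H2 Γ)) (T j f)) Finset.univ
  simp only [cmp_apply] at h2
  rw [h2, Finset.sum_eq_single i]
  · rw [inc_same]
  · intro b _ hb
    rw [inc_apply, if_neg (Ne.symm hb)]
  · simp

/-- cells with `y` in the boundary -/
noncomputable def K3_S (k : ℕ) (y : F.X k) : Finset (F.X (k + 1)) :=
  (F.finite_coef_right k y).toFinset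

/-- cells in the boundary of `x` -/
noncomputable def K3_T (k : ℕ) (x : F.X (k + 1)) : Finset (F.X k) :=
  (F.finite_coef_left k x).toFinset

theorem K3_mem_S (k : ℕ) (y : F.X k) (x : F.X (k + 1)) : x ∈ K3_S F k y ↔ F.coef k x y ≠ 0 := by
  unfold K3_S
  rw [Set.Finite.mem_toFinset]
  rfl

theorem K3_mem_T (k : ℕ) (y : F.X k) (x : F.X (k + 1)) : y ∈ K3_T F k x ↔ F.coef k x y ≠ 0 := by
  unfold K3_T
  rw [Set.Finite.mem_toFinset]
  rfl

/-- the boundary -/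
noncomputable def K3_del (k : ℕ) :
    HI (K3_Or F (k + 1)) (H2 Γ) →L[ℝ] HI (K3_Or F k) (H2 Γ) :=
  K3_asm fun i => ∑ x ∈ K3_S F k (K3_e i), (F.coef k x (K3_e i) : ℝ) • K3_ev φ F (k + 1) x

/-- the coboundary -/
noncomputable def K3_cob (k : ℕ) :
    HI (K3_Or F k) (H2 Γ) →L[ℝ] HI (K3_Or F (k + 1)) (H2 Γ) :=
  K3_asm fun j => ∑ y ∈ K3_T F k (K3_e j), (F.coef k (K3_e j) y : ℝ) • K3_ev φ F k y

theorem K3_ev_del (k : ℕ) (y : F.X k) (z : HI (K3_Or F (k + 1)) (H2 Γ)) :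
    K3_ev φ F k y (K3_del φ F k z) =
      ∑ x ∈ K3_S F k y, (F.coef k x y : ℝ) • K3_ev φ F (k + 1) x z := by
  change rop (φ (K3_h y)) (K3_del φ F k z (K3_q y)) = _
  unfold K3_del
  rw [K3_asm_apply, _root_.sum_apply, map_sum]
  refine Finset.sum_bij' (fun x _ => K3_h y • x) (fun x _ => (K3_h y)⁻¹ • x) ?_ ?_ ?_ ?_ ?_
  · intro x hx
    rw [K3_mem_S] at hx ⊢
    rwa [← F.coef_smul k (K3_h y), K3_h_spec] at hx
  · intro x hx
    rw [K3_mem_S] at hx ⊢
    rwa [← F.coef_smul k (K3_h y), smul_inv_smul, K3_h_spec]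
  · intro x _
    rw [inv_smul_smul]
  · intro x _
    rw [smul_inv_smul]
  · intro x _
    rw [K3_ev_smul, _root_.smul_apply, map_smul]
    have h5 := F.coef_smul k (K3_h y) x (K3_e (K3_q y))
    rw [K3_h_spec] at h5
    rw [h5]

theorem K3_ev_cob (k : ℕ) (x : F.X (k + 1)) (z : HI (K3_Or F k) (H2 Γ)) :
    K3_ev φ F (k + 1) x (K3_cob φ F k z) =
      ∑ y ∈ K3_T F k x, (F.coef k x y : ℝ) • K3_ev φ F k y z := by
  change rop (φ (K3_h x)) (K3_cob φ F k z (K3_q x)) = _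
  unfold K3_cob
  rw [K3_asm_apply, _root_.sum_apply, map_sum]
  refine Finset.sum_bij' (fun y _ => K3_h x • y) (fun y _ => (K3_h x)⁻¹ • y) ?_ ?_ ?_ ?_ ?_
  · intro y hy
    rw [K3_mem_T] at hy ⊢
    rwa [← F.coef_smul k (K3_h x), K3_h_spec] at hy
  · intro y hy
    rw [K3_mem_T] at hy ⊢
    rwa [← F.coef_smul k (K3_h x), smul_inv_smul, K3_h_spec]
  · intro y _
    rw [inv_smul_smul]
  · intro y _
    rw [smul_inv_smul]
  · intro y _
    rw [K3_ev_smul, _root_.smul_apply, map_smul]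
    have h5 := F.coef_smul k (K3_h x) (K3_e (K3_q x)) y
    rw [K3_h_spec] at h5
    rw [h5]

theorem K3_del_int (k : ℕ) : (grpTr Γ).IsInt (K3_del φ F k) := by
  rintro _ ⟨g, rfl⟩ z
  apply K3_ev_ext φ F
  intro y
  rw [K3_ev_lift, K3_ev_del, K3_ev_del, map_sum]
  refine Finset.sum_congr rfl fun x _ => ?_
  rw [K3_ev_lift, map_smul]

theorem K3_cob_int (k : ℕ) : (grpTr Γ).IsInt (K3_cob φ F k) := by
  rintro _ ⟨g, rfl⟩ z
  apply K3_ev_ext φ F
  intro y
  rw [K3_ev_lift, K3_ev_cob, K3_ev_cob, map_sum]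
  refine Finset.sum_congr rfl fun x _ => ?_
  rw [K3_ev_lift, map_smul]

theorem K3_adj (k : ℕ) (z : HI (K3_Or F (k + 1)) (H2 Γ)) (w : HI (K3_Or F k) (H2 Γ)) :
    ⟪K3_del φ F k z, w⟫_ℝ = ⟪z, K3_cob φ F k w⟫_ℝ := by
  rw [PiLp.inner_apply, PiLp.inner_apply]
  have h1 : ∀ i : K3_Or F k, ⟪K3_del φ F k z i, w i⟫_ℝ = ∑ x ∈ K3_S F k (K3_e i),
      (F.coef k x (K3_e i) : ℝ) * ⟪K3_ev φ F (k + 1) x z, K3_ev φ F k (K3_e i) w⟫_ℝ := by
    intro i
    rw [← K3_ev_e φ F k i (K3_del φ F k z), K3_ev_del, sum_inner, K3_ev_e]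
    exact Finset.sum_congr rfl fun x _ => real_inner_smul_left _ _ _
  have h2 : ∀ j : K3_Or F (k + 1), ⟪z j, K3_cob φ F k w j⟫_ℝ = ∑ y ∈ K3_T F k (K3_e j),
      (F.coef k (K3_e j) y : ℝ) * ⟪K3_ev φ F (k + 1) (K3_e j) z, K3_ev φ F k y w⟫_ℝ := by
    intro j
    rw [← K3_ev_e φ F (k + 1) j (K3_cob φ F k w), K3_ev_cob, inner_sum, K3_ev_e]
    exact Finset.sum_congr rfl fun x _ => real_inner_smul_right _ _ _
  rw [Finset.sum_congr rfl fun i _ => h1 i, Finset.sum_congr rfl fun j _ => h2 j]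
  refine K3_swap (fun x y => (F.coef k x y : ℝ) * ⟪K3_ev φ F (k + 1) x z, K3_ev φ F k y w⟫_ℝ)
    ?_ _ _ ?_ ?_
  · intro a x y
    rw [F.coef_smul, K3_ev_smul, K3_ev_smul, rop_inner, ← K3_rop_mul, inv_mul_cancel, K3_rop_one]
  · intro x y
    rw [K3_mem_S, K3_mem_T]
  · intro a x y
    rw [K3_mem_S, K3_mem_S, F.coef_smul]

/-- the slice of an equivariant function at a group element -/
noncomputable def K3_sl (k : ℕ) (z : HI (K3_Or F k) (H2 Γ)) (g : Γ) : F.X k → ℝ :=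
  fun x => K3_ev φ F k x z g

theorem K3_sl_del (k : ℕ) (z : HI (K3_Or F (k + 1)) (H2 Γ)) (g : Γ) :
    K3_sl φ F k (K3_del φ F k z) g = push (F.d k) (K3_sl φ F (k + 1) z g) := by
  funext y
  unfold K3_sl
  rw [K3_ev_del, push_eq_sum _ _ y (K3_S F k y) (fun x hx => (K3_mem_S F k y x).2 hx),
    lp.coeFn_sum, Finset.sum_apply]
  rfl

theorem K3_del_del (k : ℕ) (z : HI (K3_Or F (k + 2)) (H2 Γ)) :
    K3_del φ F k (K3_del φ F (k + 1) z) = 0 := by
  apply K3_ev_ext φ F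
  intro y
  rw [map_zero]
  ext g
  change K3_sl φ F k (K3_del φ F k (K3_del φ F (k + 1) z)) g y = 0
  obtain ⟨A, hA⟩ := F.exists_bd F (F.d k) (F.d_act k)
  obtain ⟨B, hB⟩ := F.exists_bd F (F.d (k + 1)) (F.d_act (k + 1))
  rw [K3_sl_del, K3_sl_del, ← push_comp _ _ hA hB]
  have h0 : F.d k ∘ₗ F.d (k + 1) = 0 := by
    apply LinearMap.ext
    intro c
    exact F.d_d k c
  rw [h0]
  change ∑ᶠ x, ((mc (0 : ZMap (F.X (k + 2)) (F.X k)) x y : ℤ) : ℝ) * _ = 0
  have h1 : ∀ x, mc (0 : ZMap (F.X (k + 2)) (F.X k)) x y = 0 := fun x => rfl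
  simp [h1]

theorem K3_sl_sq (hφ : Function.Injective φ) (k : ℕ) (z : HI (K3_Or F k) (H2 Γ)) (g : Γ) :
    Summable fun x => ‖K3_sl φ F k z g x‖ ^ 2 := by
  have h1 : Summable fun p : K3_Or F k × Γ => (z p.1 p.2) ^ 2 := by
    rw [summable_prod_of_nonneg (fun p => by positivity)]
    exact ⟨fun i => h2_summable (z i), Summable.of_finite⟩
  have h2 : Function.Injective fun x : F.X k => ((K3_q x, g * φ (K3_h x)) : K3_Or F k × Γ) := by
    intro x x' e
    simp only [Prod.mk.injEq, mul_right_inj] at e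
    rw [← K3_h_spec x, ← K3_h_spec x', e.1, hφ e.2]
  have h3 := h1.comp_injective h2
  refine h3.congr fun x => ?_
  rw [Real.norm_eq_abs, sq_abs]
  rfl

theorem K3_inj (hφ : Function.Injective φ) {p : ℕ} (h : F.HarmZero ℝ p)
    (z : HI (K3_Or F p) (H2 Γ)) (hc : K3_cob φ F p z = 0)
    (hd : ∀ q, ∀ e : p = q + 1, K3_del φ F q (e ▸ z) = 0) : z = 0 := by
  apply K3_ev_ext φ F
  intro x
  rw [map_zero]
  ext g
  change K3_sl φ F p z g x = 0
  have hh : F.IsHarm p (K3_sl φ F p z g) := by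
    refine ⟨K3_sl_sq φ F hφ p z g, ?_, ?_⟩
    · intro x'
      have h1 := K3_ev_cob φ F p x' z
      rw [hc, map_zero] at h1
      have h2 := congrArg (fun f : H2 Γ => f g) h1
      simp only [lp.coeFn_sum, Finset.sum_apply] at h2
      rw [finsum_eq_sum_of_support_subset (s := K3_T F p x')]
      · exact h2.symm
      · intro y hy
        rw [Function.mem_support] at hy
        rw [Finset.mem_coe, K3_mem_T]
        intro h0
        apply hy
        rw [h0]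
        simp
    · cases p with
      | zero => trivial
      | succ q =>
        rw [FreeRes.isCyc_succ, ← K3_sl_del]
        have h1 : K3_del φ F q z = 0 := hd q rfl
        funext y
        unfold K3_sl
        rw [h1, map_zero]
        rfl
  exact congrFun (h _ hh) x

theorem K3_main (hφ : Function.Injective φ) (p : ℕ) (h : F.HarmZero ℝ p)
    (A : H2 Γ →L[ℝ] HI (K3_Or F p) (H2 Γ))
    (hA : ∀ u ∈ (grpTr Γ).U, ∀ f, A (u f) = lift u (A f))
    (hd : ∀ q, ∀ e : p = q + 1, ∀ f, K3_del φ F q (e ▸ A f) = 0) :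
    ∃ (s : H2 Γ →L[ℝ] H2 Γ) (B : H2 Γ →L[ℝ] HI (K3_Or F (p + 1)) (H2 Γ)),
      (∀ u ∈ (grpTr Γ).U, ∀ f, s (u f) = u (s f)) ∧
      (∀ u ∈ (grpTr Γ).U, ∀ f, B (u f) = lift u (B f)) ∧ (∀ f, s f = 0 → f = 0) ∧
      ∀ f, A (s f) = K3_del φ F p (B f) := by
  cases p with
  | zero =>
    have hz : (grpTr Γ).IsInt (0 : HI (K3_Or F 0) (H2 Γ) →L[ℝ] HI (K3_Or F 0) (H2 Γ)) := by
      intro u hu f
      change (0 : HI (K3_Or F 0) (H2 Γ)) = lift u 0
      ext i : 1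
      exact (map_zero u).symm
    refine K3_lap (S := grpTr Γ) A (K3_del φ F 0) (K3_cob φ F 0)
      (0 : HI (K3_Or F 0) (H2 Γ) →L[ℝ] HI (K3_Or F 0) (H2 Γ)) 0 hA (K3_del_int φ F 0)
      (K3_cob_int φ F 0) hz hz (K3_adj φ F 0) ?_ (fun z => rfl) ?_ (fun f => rfl)
    · intro z w
      change ⟪(0 : HI (K3_Or F 0) (H2 Γ)), w⟫_ℝ = ⟪z, (0 : HI (K3_Or F 0) (H2 Γ))⟫_ℝ
      rw [inner_zero_left, inner_zero_right]
    · intro z hz1 _
      exact K3_inj φ F hφ h z hz1 (fun q e => by omega)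
  | succ q =>
    refine K3_lap (S := grpTr Γ) A (K3_del φ F (q + 1)) (K3_cob φ F (q + 1))
      (K3_del φ F q) (K3_cob φ F q) hA (K3_del_int φ F (q + 1))
      (K3_cob_int φ F (q + 1)) (K3_del_int φ F q) (K3_cob_int φ F q) (K3_adj φ F (q + 1))
      (K3_adj φ F q) (K3_del_del φ F q) ?_ (fun f => hd q rfl f)
    intro z hz1 hz2
    refine K3_inj φ F hφ h z hz1 (fun q' e => ?_)
    obtain rfl : q' = q := by omega
    exact hz2

end ops

theorem HV_of_harmZero {Γ : Type v} [Group Γ] {H : Type v'} [Group H] (φ : H →* Γ)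
    (hφ : Function.Injective φ) (F : FreeRes.{u', v'} H) (p : ℕ) (h : F.HarmZero ℝ p) :
    HV φ F (UM Γ) p := by
  intro f hf hcyc
  obtain ⟨s, a, hs⟩ := um_common (fun i : K3_Or F p => f (K3_e i))
  -- the operators
  have hA : ∀ x : F.X p, ∃ b : NN Γ, numU (s : (NN Γ)ᵐᵒᵖ) * f x = numU (op b) := by
    intro x
    refine ⟨(a (K3_q x) * op (rho (φ (K3_h x)))).unop, ?_⟩
    have h1 := hf (K3_h x) (K3_e (K3_q x))
    rw [K3_h_spec, um_smul_def] at h1
    rw [h1, ← mul_assoc, hs, ← map_mul, op_unop]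
  choose Af hAf using hA
  have hAs : ∀ (b : H) (x : F.X p), Af (b • x) = rho (φ b) * Af x := by
    intro b x
    apply op_injective
    apply numU_inj
    rw [← hAf, hf b x, um_smul_def, ← mul_assoc, hAf, ← map_mul, ← op_mul]
  let A : H2 Γ →L[ℝ] HI (K3_Or F p) (H2 Γ) :=
    K3_asm fun i => (Af (K3_e i) : H2 Γ →L[ℝ] H2 Γ)
  have hAe : ∀ i η, A η i = (Af (K3_e i) : H2 Γ →L[ℝ] H2 Γ) η := fun i η =>
    K3_asm_apply _ _ _
  have hAev : ∀ (x : F.X p) η, K3_ev φ F p x (A η) = (Af x : H2 Γ →L[ℝ] H2 Γ) η := by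
    intro x η
    conv_rhs => rw [← K3_h_spec x]
    rw [hAs]
    change rop (φ (K3_h x)) (A η (K3_q x)) = rop (φ (K3_h x)) _
    rw [hAe]
    rfl
  have hAint : ∀ u ∈ (grpTr Γ).U, ∀ η, A (u η) = lift u (A η) := by
    rintro _ ⟨g, rfl⟩ η
    ext i : 1
    rw [hAe, Forest46876.lift_apply, hAe]
    exact (Af (K3_e i)).2 g η
  -- it is a cycle
  have hsum : ∀ {A : Type u'} (g : A → NN Γ) (c : A → ℤ) (t : Finset A) (η : H2 Γ),
      ((∑ x ∈ t, c x • g x : NN Γ) : H2 Γ →L[ℝ] H2 Γ) η =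
        ∑ x ∈ t, (c x : ℝ) • (g x : H2 Γ →L[ℝ] H2 Γ) η := by
    intro A g c t η
    have e1 : ((∑ x ∈ t, c x • g x : NN Γ) : H2 Γ →L[ℝ] H2 Γ) =
        ∑ x ∈ t, ((c x • g x : NN Γ) : H2 Γ →L[ℝ] H2 Γ) :=
      map_sum (NN Γ).val _ _
    rw [e1, _root_.sum_apply]
    refine Finset.sum_congr rfl fun x _ => ?_
    have e2 : ((c x • g x : NN Γ) : H2 Γ →L[ℝ] H2 Γ) = c x • (g x : H2 Γ →L[ℝ] H2 Γ) :=
      map_zsmul (NN Γ).val _ _
    rw [e2, Int.cast_smul_eq_zsmul]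
    rfl
  have hbd : ∀ (q : ℕ) (f : F.X (q + 1) → UM Γ) (y : F.X q),
      bdM F q f y = ∑ x ∈ K3_S F q y, F.coef q x y • f x := by
    intro q f y
    unfold bdM
    apply finsum_eq_sum_of_support_subset
    intro x hx
    rw [Function.mem_support] at hx
    rw [Finset.mem_coe, K3_mem_S]
    intro h0
    apply hx
    rw [h0, zero_smul]
  have hnum : ∀ {A : Type u'} (g : A → NN Γ) (c : A → ℤ) (t : Finset A),
      numU (op (∑ x ∈ t, c x • g x)) = ∑ x ∈ t, c x • numU (op (g x)) := by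
    intro A g c t
    rw [Finset.op_sum, map_sum]
    refine Finset.sum_congr rfl fun x _ => ?_
    rw [op_smul, map_zsmul]
  have hd : ∀ q, ∀ e : p = q + 1, ∀ η, K3_del φ F q (e ▸ A η) = 0 := by
    intro q e η
    subst e
    have hcyc' : bdM F q f = 0 := hcyc
    apply K3_ev_ext φ F
    intro y
    rw [map_zero, K3_ev_del]
    have e1 : ∑ x ∈ K3_S F q y, F.coef q x y • Af x = 0 := by
      apply op_injective
      apply numU_inj
      rw [hnum, op_zero, map_zero]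
      have e2 := congrFun hcyc' y
      rw [hbd] at e2
      have e3 := congrArg (fun m => numU (s : (NN Γ)ᵐᵒᵖ) * m) e2
      simp only [Finset.mul_sum, mul_smul_comm, hAf, Pi.zero_apply, mul_zero] at e3
      exact e3
    have e4 := hsum Af (fun x => F.coef q x y) (K3_S F q y) η
    rw [e1] at e4
    change ∑ x ∈ K3_S F q y, (F.coef q x y : ℝ) • K3_ev φ F (q + 1) x (A η) = 0
    rw [Finset.sum_congr rfl fun x _ => by rw [hAev x η]]
    rw [← e4]
    rfl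
  obtain ⟨s', B, hs1, hB1, hs2, hAB⟩ := K3_main φ F hφ p h A hAint hd
  let s1 : NN Γ := ⟨s', fun g η => hs1 _ ⟨g, rfl⟩ η⟩
  let s2 : SS Γ := ⟨op s1, hs2⟩
  let C : F.X (p + 1) → NN Γ := fun x => ⟨K3_ev φ F (p + 1) x ∘L B, fun g η => by
    change K3_ev φ F (p + 1) x (B (lamL Γ g η)) = lamL Γ g (K3_ev φ F (p + 1) x (B η))
    rw [hB1 _ ⟨g, rfl⟩, K3_ev_lift]⟩
  have hC : ∀ (b : H) (x : F.X (p + 1)), C (b • x) = rho (φ b) * C x := by
    intro b x
    apply Subtype.ext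
    refine ContinuousLinearMap.ext fun η => ?_
    exact K3_ev_smul φ F (p + 1) b x (B η)
  have hrel : ∀ y : F.X p, Af y * s1 = ∑ x ∈ K3_S F p y, F.coef p x y • C x := by
    intro y
    apply Subtype.ext
    refine ContinuousLinearMap.ext fun η => ?_
    rw [hsum]
    change (Af y : H2 Γ →L[ℝ] H2 Γ) (s' η) =
      ∑ x ∈ K3_S F p y, (F.coef p x y : ℝ) • K3_ev φ F (p + 1) x (B η)
    rw [← hAev, hAB, K3_ev_del]
  obtain ⟨u, hu⟩ := (numU_isUnit s2).mul (numU_isUnit s)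
  refine ⟨fun x => (↑u⁻¹ : UM Γ) * numU (op (C x)), ?_, ?_⟩
  · intro b x
    change (↑u⁻¹ : UM Γ) * numU (op (C (b • x))) = φ b • ((↑u⁻¹ : UM Γ) * numU (op (C x)))
    rw [um_smul_def, hC, op_mul, map_mul, mul_assoc]
  · funext y
    rw [hbd]
    simp only [← mul_smul_comm]
    rw [← Finset.mul_sum, ← hnum, ← hrel, op_mul, map_mul, ← hAf]
    have e5 : numU (op s1) = numU ((s2 : SS Γ) : (NN Γ)ᵐᵒᵖ) := rfl
    rw [e5, ← mul_assoc (numU _), ← hu, Units.inv_mul_cancel_left]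

end GP

end OS
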