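import Mathlib
import Pool.Agent.Lib.MP_8fe54c_gt.L2Cmp
import Pool.Agent.Lib.MP_8fe54c_gt.L2Op

/-!
# K12: the product of two free resolutions
-/

set_option autoImplicit false

namespace OS

namespace GP

open Finsupp

universe u v w u' v' w'

section tens

variable {X Y Z X' Y' Z' : Type*}

theorem K12_ext {S T : ZMap X Y} (h : ∀ x, S (single x 1) = T (single x 1)) : S = T :=
  Finsupp.lhom_ext' fun x => LinearMap.ext_ring (h x)

theorem K12_ext_mc {S T : ZMap X Y} (h : ∀ x y, mc S x y = mc T x y) : S = T :=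
  K12_ext fun x => Finsupp.ext fun y => h x y

/-- tensor product of integral matrices -/
noncomputable def K12_op (A : ZMap X Y) (B : ZMap X' Y') : ZMap (X × X') (Y × Y') :=
  (finsuppTensorFinsupp' ℤ Y Y').toLinearMap ∘ₗ TensorProduct.map A B ∘ₗ
    (finsuppTensorFinsupp' ℤ X X').symm.toLinearMap

theorem K12_mc_op (A : ZMap X Y) (B : ZMap X' Y') (z : X × X') (w : Y × Y') :
    mc (K12_op A B) z w = mc A z.1 w.1 * mc B z.2 w.2 := by
  show (finsuppTensorFinsupp' ℤ Y Y') (TensorProduct.map A B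
    ((finsuppTensorFinsupp' ℤ X X').symm (single z 1))) w = _
  have h1 := finsuppTensorFinsupp'_symm_single_eq_single_one_tmul (R := ℤ) (ι := X) (κ := X') z 1
  rw [h1, TensorProduct.map_tmul]
  exact finsuppTensorFinsupp'_apply_apply _ _ _ _ _ _ _

theorem K12_op_comp (A : ZMap Y Z) (B : ZMap Y' Z') (C : ZMap X Y) (D : ZMap X' Y') :
    K12_op A B ∘ₗ K12_op C D = K12_op (A ∘ₗ C) (B ∘ₗ D) := by
  apply LinearMap.ext
  intro c
  show (finsuppTensorFinsupp' ℤ Z Z') (TensorProduct.map A B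
    ((finsuppTensorFinsupp' ℤ Y Y').symm ((finsuppTensorFinsupp' ℤ Y Y')
      (TensorProduct.map C D ((finsuppTensorFinsupp' ℤ X X').symm c))))) =
    (finsuppTensorFinsupp' ℤ Z Z') (TensorProduct.map (A ∘ₗ C) (B ∘ₗ D)
      ((finsuppTensorFinsupp' ℤ X X').symm c))
  rw [LinearEquiv.symm_apply_apply, TensorProduct.map_comp]
  rfl

theorem K12_op_add_left (A B : ZMap X Y) (C : ZMap X' Y') :
    K12_op (A + B) C = K12_op A C + K12_op B C :=
  K12_ext_mc fun x y => by
    show mc _ x y = mc (K12_op A C) x y + mc (K12_op B C) x y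
    rw [K12_mc_op, K12_mc_op, K12_mc_op, ← add_mul]
    rfl

theorem K12_op_add_right (A : ZMap X Y) (B C : ZMap X' Y') :
    K12_op A (B + C) = K12_op A B + K12_op A C :=
  K12_ext_mc fun x y => by
    show mc _ x y = mc (K12_op A B) x y + mc (K12_op A C) x y
    rw [K12_mc_op, K12_mc_op, K12_mc_op, ← mul_add]
    rfl

theorem K12_op_zero_left (C : ZMap X' Y') : K12_op (0 : ZMap X Y) C = 0 :=
  K12_ext_mc fun x y => by
    show mc _ x y = 0
    rw [K12_mc_op]
    exact zero_mul _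

theorem K12_op_zero_right (C : ZMap X Y) : K12_op C (0 : ZMap X' Y') = 0 :=
  K12_ext_mc fun x y => by
    show mc _ x y = 0
    rw [K12_mc_op]
    exact mul_zero _

theorem K12_op_id : K12_op (LinearMap.id : ZMap X X) (LinearMap.id : ZMap X' X') =
    LinearMap.id :=
  K12_ext_mc fun x y => by
    rw [K12_mc_op]
    show (single x.1 1 : X →₀ ℤ) y.1 * (single x.2 1 : X' →₀ ℤ) y.2 = (single x 1 : X × X' →₀ ℤ) y
    classical
    rw [Finsupp.single_apply, Finsupp.single_apply, Finsupp.single_apply]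
    by_cases h1 : x.1 = y.1
    · by_cases h2 : x.2 = y.2
      · rw [if_pos h1, if_pos h2, if_pos (Prod.ext h1 h2), mul_one]
      · rw [if_neg h2, mul_zero, if_neg (fun h => h2 (congrArg Prod.snd h))]
    · rw [if_neg h1, zero_mul, if_neg (fun h => h1 (congrArg Prod.fst h))]

end tens

section tot

variable {Γ : Type v} [Group Γ] (R : FreeRes.{u, v} Γ)

/-- all cells -/
abbrev K12_Tot := Σ p, R.X p

/-- chains of one degree -/
noncomputable def K12_ib (p : ℕ) : (R.X p →₀ ℤ) →ₗ[ℤ] (K12_Tot R →₀ ℤ) :=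
  Finsupp.lmapDomain ℤ ℤ (Sigma.mk p)

theorem K12_ib_single (p : ℕ) (x : R.X p) (n : ℤ) :
    K12_ib R p (single x n) = single ⟨p, x⟩ n := by
  simp [K12_ib]

theorem K12_ib_apply (p : ℕ) (c : R.X p →₀ ℤ) (x : R.X p) : K12_ib R p c ⟨p, x⟩ = c x := by
  show Finsupp.mapDomain (Sigma.mk p) c ⟨p, x⟩ = c x
  exact Finsupp.mapDomain_apply sigma_mk_injective c x

theorem K12_ib_apply_ne (p q : ℕ) (c : R.X p →₀ ℤ) (x : R.X q) (h : q ≠ p) :
    K12_ib R p c ⟨q, x⟩ = 0 := by
  show Finsupp.mapDomain (Sigma.mk p) c ⟨q, x⟩ = 0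
  apply Finsupp.mapDomain_of_notMem_range
  rintro ⟨y, hy⟩
  exact h (congrArg Sigma.fst hy).symm

theorem K12_tot_ext {M : Type*} [AddCommGroup M] {S T : (K12_Tot R →₀ ℤ) →ₗ[ℤ] M}
    (h : ∀ p c, S (K12_ib R p c) = T (K12_ib R p c)) : S = T :=
  Finsupp.lhom_ext' fun x => LinearMap.ext_ring (by
    obtain ⟨p, x⟩ := x
    have := h p (single x 1)
    rw [K12_ib_single] at this
    exact this)

/-- a linear map given in every degree -/
noncomputable def K12_lift {M : Type*} [AddCommGroup M] (f : ∀ p, (R.X p →₀ ℤ) →ₗ[ℤ] M) :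
    (K12_Tot R →₀ ℤ) →ₗ[ℤ] M :=
  Finsupp.lsum ℤ (fun a : K12_Tot R => LinearMap.toSpanSingleton ℤ M (f a.1 (single a.2 1)))

theorem K12_lift_ib {M : Type*} [AddCommGroup M] (f : ∀ p, (R.X p →₀ ℤ) →ₗ[ℤ] M) (p : ℕ)
    (c : R.X p →₀ ℤ) : K12_lift R f (K12_ib R p c) = f p c := by
  have h : K12_lift R f ∘ₗ K12_ib R p = f p := by
    refine Finsupp.lhom_ext' fun x => LinearMap.ext_ring ?_
    show K12_lift R f (K12_ib R p (single x 1)) = f p (single x 1)
    rw [K12_ib_single]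
    simp [K12_lift]
  exact congrArg (fun g : (R.X p →₀ ℤ) →ₗ[ℤ] M => g c) h

/-- the boundary operator, with weights -/
noncomputable def K12_bd (c : ℕ → ℤ) : ZMap (K12_Tot R) (K12_Tot R) :=
  K12_lift R fun p => match p with
    | 0 => 0
    | p + 1 => c (p + 1) • (K12_ib R p ∘ₗ R.d p)

theorem K12_bd_zero (c : ℕ → ℤ) (x : R.X 0 →₀ ℤ) : K12_bd R c (K12_ib R 0 x) = 0 := by
  rw [K12_bd, K12_lift_ib]
  rfl

theorem K12_bd_succ (c : ℕ → ℤ) (p : ℕ) (x : R.X (p + 1) →₀ ℤ) :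
    K12_bd R c (K12_ib R (p + 1) x) = c (p + 1) • K12_ib R p (R.d p x) := by
  rw [K12_bd, K12_lift_ib]
  rfl

/-- the sign operator -/
noncomputable def K12_sg : ZMap (K12_Tot R) (K12_Tot R) :=
  K12_lift R fun p => (-1 : ℤ) ^ p • K12_ib R p

theorem K12_sg_ib (p : ℕ) (x : R.X p →₀ ℤ) :
    K12_sg R (K12_ib R p x) = (-1 : ℤ) ^ p • K12_ib R p x := by
  rw [K12_sg, K12_lift_ib]
  rfl

/-- the augmentation -/
noncomputable def K12_eps : (K12_Tot R →₀ ℤ) →ₗ[ℤ] ℤ :=
  K12_lift R fun p => match p with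
    | 0 => R.eps
    | _ + 1 => 0

theorem K12_eps_zero (x : R.X 0 →₀ ℤ) : K12_eps R (K12_ib R 0 x) = R.eps x := by
  rw [K12_eps, K12_lift_ib]

theorem K12_eps_succ (p : ℕ) (x : R.X (p + 1) →₀ ℤ) : K12_eps R (K12_ib R (p + 1) x) = 0 := by
  rw [K12_eps, K12_lift_ib]
  rfl

theorem K12_bd_bd (c c' : ℕ → ℤ) : K12_bd R c ∘ₗ K12_bd R c' = 0 := by
  apply K12_tot_ext
  intro p x
  show K12_bd R c (K12_bd R c' (K12_ib R p x)) = 0
  match p, x with
  | 0, x => rw [K12_bd_zero, map_zero]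
  | 1, x => rw [K12_bd_succ, map_smul, K12_bd_zero, smul_zero]
  | p + 2, x =>
    rw [K12_bd_succ, map_smul, K12_bd_succ, R.d_d, map_zero, smul_zero, smul_zero]

theorem K12_sg_sg : K12_sg R ∘ₗ K12_sg R = LinearMap.id := by
  apply K12_tot_ext
  intro p x
  show K12_sg R (K12_sg R (K12_ib R p x)) = K12_ib R p x
  rw [K12_sg_ib, map_smul, K12_sg_ib, smul_smul, ← mul_pow]
  simp

theorem K12_bd_sg (c : ℕ → ℤ) : K12_bd R c ∘ₗ K12_sg R = -(K12_sg R ∘ₗ K12_bd R c) := by
  apply K12_tot_ext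
  intro p x
  show K12_bd R c (K12_sg R (K12_ib R p x)) = -(K12_sg R (K12_bd R c (K12_ib R p x)))
  match p, x with
  | 0, x => rw [K12_sg_ib, map_smul, K12_bd_zero, smul_zero, map_zero, neg_zero]
  | p + 1, x =>
    rw [K12_sg_ib, map_smul, K12_bd_succ, map_smul, K12_sg_ib, pow_succ, mul_neg_one, neg_smul,
      smul_comm]

theorem K12_eps_bd (c : ℕ → ℤ) : K12_eps R ∘ₗ K12_bd R c = 0 := by
  apply K12_tot_ext
  intro p x
  show K12_eps R (K12_bd R c (K12_ib R p x)) = 0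
  match p, x with
  | 0, x => rw [K12_bd_zero, map_zero]
  | 1, x => rw [K12_bd_succ, map_smul, K12_eps_zero, R.eps_d, smul_zero]
  | p + 2, x => rw [K12_bd_succ, map_smul, K12_eps_succ, smul_zero]

theorem K12_gact_ib (g : Γ) (p : ℕ) (x : R.X p →₀ ℤ) :
    gact g (K12_ib R p x) = K12_ib R p (gact g x) := by
  have h : gact g ∘ₗ K12_ib R p = K12_ib R p ∘ₗ gact g := by
    refine Finsupp.lhom_ext' fun x => LinearMap.ext_ring ?_
    show gact g (K12_ib R p (single x 1)) = K12_ib R p (gact g (single x 1))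
    rw [K12_ib_single, gact_single, gact_single, K12_ib_single]
    rfl
  exact congrArg (fun f : (R.X p →₀ ℤ) →ₗ[ℤ] (K12_Tot R →₀ ℤ) => f x) h

theorem K12_bd_gact (c : ℕ → ℤ) (g : Γ) : K12_bd R c ∘ₗ gact g = gact g ∘ₗ K12_bd R c := by
  apply K12_tot_ext
  intro p x
  show K12_bd R c (gact g (K12_ib R p x)) = gact g (K12_bd R c (K12_ib R p x))
  match p, x with
  | 0, x => rw [K12_gact_ib, K12_bd_zero, K12_bd_zero, map_zero]
  | p + 1, x => rw [K12_gact_ib, K12_bd_succ, K12_bd_succ, map_smul, K12_gact_ib, R.d_act]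

theorem K12_sg_gact (g : Γ) : K12_sg R ∘ₗ gact g = gact g ∘ₗ K12_sg R := by
  apply K12_tot_ext
  intro p x
  show K12_sg R (gact g (K12_ib R p x)) = gact g (K12_sg R (K12_ib R p x))
  rw [K12_gact_ib, K12_sg_ib, K12_sg_ib, map_smul, K12_gact_ib]

theorem K12_eps_gact (g : Γ) : K12_eps R ∘ₗ gact g = K12_eps R := by
  apply K12_tot_ext
  intro p x
  show K12_eps R (gact g (K12_ib R p x)) = K12_eps R (K12_ib R p x)
  match p, x with
  | 0, x => rw [K12_gact_ib, K12_eps_zero, K12_eps_zero, R.eps_act]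
  | p + 1, x => rw [K12_gact_ib, K12_eps_succ, K12_eps_succ]

/-- a contraction -/
theorem K12_contr : ∃ (h : ZMap (K12_Tot R) (K12_Tot R)) (e : R.X 0 →₀ ℤ), R.eps e = 1 ∧
    K12_sg R ∘ₗ h = -(h ∘ₗ K12_sg R) ∧
    K12_bd R 1 ∘ₗ h + h ∘ₗ K12_bd R 1 =
      LinearMap.id - (K12_eps R).smulRight (K12_ib R 0 e) := by
  obtain ⟨e, he⟩ := R.eps_surj
  have hlift : ∀ {X Y : Type u} (T : (X →₀ ℤ) →ₗ[ℤ] (Y →₀ ℤ)) {Z : Type u}
      (S : (Z →₀ ℤ) →ₗ[ℤ] (Y →₀ ℤ)), (∀ x, ∃ z, S z = T x) →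
      ∃ b : (X →₀ ℤ) →ₗ[ℤ] (Z →₀ ℤ), ∀ x, S (b x) = T x := by
    intro X Y T Z S hS
    choose b hb using fun x : X => hS (single x 1)
    refine ⟨Finsupp.lsum ℤ (fun x => LinearMap.toSpanSingleton ℤ _ (b x)), fun x => ?_⟩
    have h : S ∘ₗ Finsupp.lsum ℤ (fun x => LinearMap.toSpanSingleton ℤ _ (b x)) = T := by
      refine Finsupp.lhom_ext' fun x => LinearMap.ext_ring ?_
      show S (Finsupp.lsum ℤ (fun x => LinearMap.toSpanSingleton ℤ _ (b x)) (single x 1)) =
        T (single x 1)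
      rw [← hb]
      simp
    exact congrArg (fun f : (X →₀ ℤ) →ₗ[ℤ] (Y →₀ ℤ) => f x) h
  obtain ⟨a0, ha0⟩ := hlift (LinearMap.id - R.eps.smulRight e) (R.d 0) (fun x => R.exact0 _ (by
    rw [LinearMap.sub_apply, map_sub, LinearMap.smulRight_apply, map_smul, he, LinearMap.id_apply,
      smul_eq_mul, mul_one, sub_self]))
  obtain ⟨h, h1, h2, h3⟩ := dep_seq (A := fun k => ZMap (R.X k) (R.X (k + 1)))
    (fun k a => ∀ x, ∃ z, R.d (k + 1) z = x - a (R.d k x))
    (fun k a b => ∀ x, R.d (k + 1) (b x) = x - a (R.d k x)) a0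
    (fun x => R.exact 0 _ (by
      rw [map_sub, ha0, LinearMap.sub_apply, LinearMap.smulRight_apply, R.eps_d, zero_smul,
        sub_zero, LinearMap.id_apply, sub_self])) (by
      intro k a ha
      obtain ⟨b, hb⟩ := hlift (LinearMap.id - a ∘ₗ R.d k) (R.d (k + 1)) (fun x => ha x)
      refine ⟨b, fun x => R.exact (k + 1) _ ?_, hb⟩
      rw [map_sub, hb, LinearMap.sub_apply, LinearMap.comp_apply, R.d_d, map_zero, sub_zero,
        LinearMap.id_apply, sub_self])
  obtain ⟨H, hH⟩ : ∃ H : ZMap (K12_Tot R) (K12_Tot R), ∀ p x,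
      H (K12_ib R p x) = K12_ib R (p + 1) (h p x) :=
    ⟨K12_lift R fun p => K12_ib R (p + 1) ∘ₗ h p, fun p x => by
      rw [K12_lift_ib, LinearMap.comp_apply]⟩
  refine ⟨H, e, he, ?_, ?_⟩
  · apply K12_tot_ext
    intro p x
    show K12_sg R (H (K12_ib R p x)) = -(H (K12_sg R (K12_ib R p x)))
    rw [hH, K12_sg_ib, K12_sg_ib, map_smul, hH, pow_succ, mul_neg_one, neg_smul]
  · apply K12_tot_ext
    intro p x
    show K12_bd R 1 (H (K12_ib R p x)) + H (K12_bd R 1 (K12_ib R p x)) =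
      K12_ib R p x - K12_eps R (K12_ib R p x) • K12_ib R 0 e
    rw [hH, K12_bd_succ]
    match p, x with
    | 0, x =>
      rw [K12_bd_zero, map_zero, add_zero, K12_eps_zero, h1, ha0, LinearMap.sub_apply,
        LinearMap.smulRight_apply, map_sub, map_smul, LinearMap.id_apply, Pi.one_apply, one_smul]
    | p + 1, x =>
      rw [K12_bd_succ, K12_eps_succ, map_smul, hH, h3 p, map_sub, Pi.one_apply, one_smul,
        Pi.one_apply, one_smul, zero_smul, sub_zero, sub_add_cancel]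

theorem K12_eps_fst (a : K12_Tot R) (ha : K12_eps R (single a 1) ≠ 0) : a.1 = 0 := by
  obtain ⟨p, x⟩ := a
  rw [← K12_ib_single] at ha
  match p, x with
  | 0, x => rfl
  | p + 1, x => rw [K12_eps_succ] at ha; exact absurd rfl ha

theorem K12_tot_free (a : K12_Tot R) (g : Γ) (ha : g • a = a) : g = 1 := by
  obtain ⟨p, x⟩ := a
  rw [Sigma.smul_mk, Sigma.mk.injEq] at ha
  exact R.free p g x (eq_of_heq ha.2)

end tot

section graded

variable {T : Type u} (deg : T → ℕ)

/-- the cells of degree `n` -/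
abbrev K12_Cell (n : ℕ) := {t : T // deg t = n}

/-- inclusion of the chains of degree `n` -/
noncomputable def K12_j (n : ℕ) : (K12_Cell deg n →₀ ℤ) →ₗ[ℤ] (T →₀ ℤ) :=
  Finsupp.lmapDomain ℤ ℤ Subtype.val

/-- projection to the chains of degree `n` -/
noncomputable def K12_r (n : ℕ) : (T →₀ ℤ) →ₗ[ℤ] (K12_Cell deg n →₀ ℤ) :=
  Finsupp.lcomapDomain Subtype.val Subtype.val_injective

theorem K12_r_apply (n : ℕ) (c : T →₀ ℤ) (z : K12_Cell deg n) : K12_r deg n c z = c z.1 := rfl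

theorem K12_j_apply (n : ℕ) (c : K12_Cell deg n →₀ ℤ) (z : K12_Cell deg n) :
    K12_j deg n c z.1 = c z :=
  Finsupp.mapDomain_apply Subtype.val_injective c z

theorem K12_j_apply_ne (n : ℕ) (c : K12_Cell deg n →₀ ℤ) (t : T) (h : deg t ≠ n) :
    K12_j deg n c t = 0 := by
  show Finsupp.mapDomain Subtype.val c t = 0
  apply Finsupp.mapDomain_of_notMem_range
  rintro ⟨z, rfl⟩
  exact h z.2

theorem K12_j_single (n : ℕ) (z : K12_Cell deg n) (m : ℤ) :
    K12_j deg n (single z m) = single z.1 m := by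
  simp [K12_j]

theorem K12_r_j (n : ℕ) (c : K12_Cell deg n →₀ ℤ) : K12_r deg n (K12_j deg n c) = c :=
  Finsupp.ext fun z => K12_j_apply deg n c z

theorem K12_j_inj (n : ℕ) {c c' : K12_Cell deg n →₀ ℤ}
    (h : K12_j deg n c = K12_j deg n c') : c = c' := by
  rw [← K12_r_j deg n c, h, K12_r_j]

theorem K12_j_r (n : ℕ) (c : T →₀ ℤ) (h : ∀ t, c t ≠ 0 → deg t = n) :
    K12_j deg n (K12_r deg n c) = c := by
  ext t
  by_cases ht : deg t = n
  · exact K12_j_apply deg n _ ⟨t, ht⟩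
  · rw [K12_j_apply_ne deg n _ t ht]
    by_contra h'
    exact ht (h t (fun e => h' e.symm))

/-- operators of degree `-1` -/
def K12_Low (D : ZMap T T) : Prop := ∀ t w, mc D t w ≠ 0 → deg w + 1 = deg t

variable {deg}

theorem K12_low_deg {D : ZMap T T} (hD : K12_Low deg D) (n : ℕ) (c : T →₀ ℤ)
    (hc : ∀ t, c t ≠ 0 → deg t = n + 1) (w : T) (hw : D c w ≠ 0) : deg w = n := by
  by_contra hne
  apply hw
  have h1 : c = ∑ t ∈ c.support, c t • single t 1 := by
    conv_lhs => rw [← c.sum_single]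
    unfold Finsupp.sum
    exact Finset.sum_congr rfl fun t _ => by simp
  rw [h1, map_sum, Finsupp.finsetSum_apply]
  refine Finset.sum_eq_zero fun t ht => ?_
  rw [map_smul, Finsupp.smul_apply, smul_eq_mul]
  by_cases h2 : mc D t w = 0
  · show c t * mc D t w = 0
    rw [h2, mul_zero]
  · have h3 := hD t w h2
    have h4 := hc t (Finsupp.mem_support_iff.1 ht)
    omega

theorem K12_supp_j (n : ℕ) (c : K12_Cell deg n →₀ ℤ) (t : T) (h : K12_j deg n c t ≠ 0) :
    deg t = n := by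
  by_contra h'
  exact h (K12_j_apply_ne deg n c t h')

theorem K12_j_d {D : ZMap T T} (hD : K12_Low deg D) (n : ℕ) (c : K12_Cell deg (n + 1) →₀ ℤ) :
    K12_j deg n (K12_r deg n (D (K12_j deg (n + 1) c))) = D (K12_j deg (n + 1) c) :=
  K12_j_r deg n _ fun w hw => K12_low_deg hD n _ (K12_supp_j (n + 1) c) w hw

theorem K12_D_zero {D : ZMap T T} (hD : K12_Low deg D) (c : K12_Cell deg 0 →₀ ℤ) :
    D (K12_j deg 0 c) = 0 := by
  induction c using Finsupp.induction_linear with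
  | zero => simp
  | add a b ha hb => rw [map_add, map_add, ha, hb, add_zero]
  | single z m =>
    rw [K12_j_single]
    have e : (single z.1 m : T →₀ ℤ) = m • single z.1 1 := by simp
    rw [e, map_smul]
    ext w
    show m • (D (single z.1 1) w) = 0
    by_cases h : mc D z.1 w = 0
    · have h' : D (single z.1 1) w = 0 := h
      rw [h', smul_zero]
    · have h1 := hD _ _ h
      have h2 := z.2
      omega

theorem K12_D_pr {D : ZMap T T} (hD : K12_Low deg D) (n : ℕ) (b : T →₀ ℤ) :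
    D (K12_j deg (n + 1) (K12_r deg (n + 1) b)) = K12_j deg n (K12_r deg n (D b)) := by
  induction b using Finsupp.induction_linear with
  | zero => simp
  | add a b ha hb => simp only [map_add, ha, hb]
  | single t m =>
    have e : (single t m : T →₀ ℤ) = m • single t 1 := by simp
    rw [e]
    simp only [map_smul]
    congr 1
    by_cases h : deg t = n + 1
    · have h1 : K12_j deg (n + 1) (K12_r deg (n + 1) (single t 1)) = single t 1 := by
        apply K12_j_r
        intro s hs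
        have : t = s := by
          by_contra h'
          exact hs (Finsupp.single_eq_of_ne (fun e => h' e.symm))
        rw [← this, h]
      rw [h1, K12_j_r]
      intro w hw
      have := hD t w hw
      omega
    · have h1 : K12_r deg (n + 1) (single t 1) = 0 := by
        ext z
        rw [K12_r_apply]
        apply Finsupp.single_eq_of_ne
        intro e
        exact h (by rw [← e]; exact z.2)
      have h2 : K12_r deg n (D (single t 1)) = 0 := by
        ext z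
        rw [K12_r_apply]
        by_contra h'
        have := hD t z.1 h'
        exact h (by rw [← this, z.2])
      rw [h1, h2, map_zero, map_zero, map_zero]

end graded

section ten

variable {X Y X' Y' : Type*}

/-- tensor product of linear forms -/
noncomputable def K12_ten (f : (X →₀ ℤ) →ₗ[ℤ] ℤ) (f' : (X' →₀ ℤ) →ₗ[ℤ] ℤ) :
    (X × X' →₀ ℤ) →ₗ[ℤ] ℤ :=
  LinearMap.mul' ℤ ℤ ∘ₗ TensorProduct.map f f' ∘ₗ (finsuppTensorFinsupp' ℤ X X').symm.toLinearMap

theorem K12_ten_single (f : (X →₀ ℤ) →ₗ[ℤ] ℤ) (f' : (X' →₀ ℤ) →ₗ[ℤ] ℤ) (z : X × X') :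
    K12_ten f f' (single z 1) = f (single z.1 1) * f' (single z.2 1) := by
  show LinearMap.mul' ℤ ℤ (TensorProduct.map f f'
    ((finsuppTensorFinsupp' ℤ X X').symm (single z 1))) = _
  have h1 := finsuppTensorFinsupp'_symm_single_eq_single_one_tmul (R := ℤ) (ι := X) (κ := X') z 1
  rw [h1, TensorProduct.map_tmul]
  exact LinearMap.mul'_apply

theorem K12_ten_comp (f : (Y →₀ ℤ) →ₗ[ℤ] ℤ) (f' : (Y' →₀ ℤ) →ₗ[ℤ] ℤ) (A : ZMap X Y)
    (B : ZMap X' Y') : K12_ten f f' ∘ₗ K12_op A B = K12_ten (f ∘ₗ A) (f' ∘ₗ B) := by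
  apply LinearMap.ext
  intro c
  show LinearMap.mul' ℤ ℤ (TensorProduct.map f f'
    ((finsuppTensorFinsupp' ℤ Y Y').symm ((finsuppTensorFinsupp' ℤ Y Y')
      (TensorProduct.map A B ((finsuppTensorFinsupp' ℤ X X').symm c))))) =
    LinearMap.mul' ℤ ℤ (TensorProduct.map (f ∘ₗ A) (f' ∘ₗ B)
      ((finsuppTensorFinsupp' ℤ X X').symm c))
  rw [LinearEquiv.symm_apply_apply, TensorProduct.map_comp]
  rfl

theorem K12_ten_zero_left (f' : (X' →₀ ℤ) →ₗ[ℤ] ℤ) :
    K12_ten (0 : (X →₀ ℤ) →ₗ[ℤ] ℤ) f' = 0 :=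
  Finsupp.lhom_ext' fun x => LinearMap.ext_ring (by
    show K12_ten (0 : (X →₀ ℤ) →ₗ[ℤ] ℤ) f' (single x 1) = 0
    rw [K12_ten_single, LinearMap.zero_apply, zero_mul])

theorem K12_ten_zero_right (f : (X →₀ ℤ) →ₗ[ℤ] ℤ) :
    K12_ten f (0 : (X' →₀ ℤ) →ₗ[ℤ] ℤ) = 0 :=
  Finsupp.lhom_ext' fun x => LinearMap.ext_ring (by
    show K12_ten f (0 : (X' →₀ ℤ) →ₗ[ℤ] ℤ) (single x 1) = 0
    rw [K12_ten_single, LinearMap.zero_apply, mul_zero])

/-- tensor product of chains -/
noncomputable def K12_tc (a : X →₀ ℤ) (b : X' →₀ ℤ) : X × X' →₀ ℤ :=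
  finsuppTensorFinsupp' ℤ X X' (a ⊗ₜ b)

theorem K12_tc_apply (a : X →₀ ℤ) (b : X' →₀ ℤ) (z : X × X') :
    K12_tc a b z = a z.1 * b z.2 := finsuppTensorFinsupp'_apply_apply _ _ _ _ _ _ _

theorem K12_ten_tc (f : (X →₀ ℤ) →ₗ[ℤ] ℤ) (f' : (X' →₀ ℤ) →ₗ[ℤ] ℤ) (a : X →₀ ℤ)
    (b : X' →₀ ℤ) : K12_ten f f' (K12_tc a b) = f a * f' b := by
  show LinearMap.mul' ℤ ℤ (TensorProduct.map f f'
    ((finsuppTensorFinsupp' ℤ X X').symm (finsuppTensorFinsupp' ℤ X X' (a ⊗ₜ b)))) = _
  rw [LinearEquiv.symm_apply_apply, TensorProduct.map_tmul, LinearMap.mul'_apply]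

theorem K12_op_smulRight (f : (X →₀ ℤ) →ₗ[ℤ] ℤ) (f' : (X' →₀ ℤ) →ₗ[ℤ] ℤ) (a : Y →₀ ℤ)
    (b : Y' →₀ ℤ) (c : X × X' →₀ ℤ) :
    K12_op (f.smulRight a) (f'.smulRight b) c = K12_ten f f' c • K12_tc a b := by
  have h : K12_op (f.smulRight a) (f'.smulRight b) = (K12_ten f f').smulRight (K12_tc a b) :=
    K12_ext_mc fun x y => by
      rw [K12_mc_op]
      show f (single x.1 1) * a y.1 * (f' (single x.2 1) * b y.2) =
        K12_ten f f' (single x 1) * K12_tc a b y
      rw [K12_ten_single, K12_tc_apply]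
      ring
  rw [h]
  rfl

end ten

section prod

variable {G : Type v} [Group G] {G' : Type v'} [Group G'] (R : FreeRes.{u, v} G)
  (R' : FreeRes.{u, v'} G')

/-- degree of a product cell -/
def K12_deg (z : K12_Tot R × K12_Tot R') : ℕ := z.1.1 + z.2.1

/-- the action on the product cells -/
@[reducible] def K12_actT : MulAction (G × G') (K12_Tot R × K12_Tot R') where
  smul g z := (g.1 • z.1, g.2 • z.2)
  one_smul z := Prod.ext (one_smul G z.1) (one_smul G' z.2)
  mul_smul g h z := Prod.ext (mul_smul g.1 h.1 z.1) (mul_smul g.2 h.2 z.2)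

/-- the action on the product cells of degree `n` -/
@[reducible] def K12_actC (n : ℕ) : MulAction (G × G') (K12_Cell (K12_deg R R') n) where
  smul g z := ⟨(g.1 • z.1.1, g.2 • z.1.2), z.2⟩
  one_smul z := Subtype.ext (Prod.ext (one_smul G z.1.1) (one_smul G' z.1.2))
  mul_smul g h z := Subtype.ext (Prod.ext (mul_smul g.1 h.1 z.1.1) (mul_smul g.2 h.2 z.1.2))

/-- the boundary of the product, with weights -/
noncomputable def K12_D (c c' : ℕ → ℤ) : ZMap (K12_Tot R × K12_Tot R') (K12_Tot R × K12_Tot R') :=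
  K12_op (K12_bd R c) LinearMap.id + K12_op (K12_sg R) (K12_bd R' c')

/-- the augmentation of the product -/
noncomputable def K12_epsT : (K12_Tot R × K12_Tot R' →₀ ℤ) →ₗ[ℤ] ℤ :=
  K12_ten (K12_eps R) (K12_eps R')

theorem K12_gact_op (g : G × G') (c : K12_Tot R × K12_Tot R' →₀ ℤ) :
    @gact _ _ _ (K12_actT R R') g c = K12_op (gact g.1) (gact g.2) c := by
  have h : @gact _ _ _ (K12_actT R R') g = K12_op (gact g.1) (gact g.2) := by
    refine K12_ext fun z => ?_
    have h1 := @gact_single _ _ _ (K12_actT R R') g z 1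
    rw [h1]
    ext w
    have h2 := K12_mc_op (gact g.1 : ZMap (K12_Tot R) (K12_Tot R))
      (gact g.2 : ZMap (K12_Tot R') (K12_Tot R')) z w
    unfold mc at h2
    rw [h2, gact_single, gact_single]
    exact (K12_tc_apply (single (g.1 • z.1) 1) (single (g.2 • z.2) 1) w ▸ by
      show (single (g.1 • z.1, g.2 • z.2) 1 : K12_Tot R × K12_Tot R' →₀ ℤ) w = _
      unfold K12_tc
      rw [finsuppTensorFinsupp'_single_tmul_single, mul_one])
  rw [h]

theorem K12_D_gact (c c' : ℕ → ℤ) (g : G × G') (x : K12_Tot R × K12_Tot R' →₀ ℤ) :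
    K12_D R R' c c' (K12_op (gact g.1) (gact g.2) x) =
      K12_op (gact g.1) (gact g.2) (K12_D R R' c c' x) := by
  have h : K12_D R R' c c' ∘ₗ K12_op (gact g.1) (gact g.2) =
      K12_op (gact g.1) (gact g.2) ∘ₗ K12_D R R' c c' := by
    unfold K12_D
    rw [LinearMap.add_comp, LinearMap.comp_add, K12_op_comp, K12_op_comp, K12_op_comp, K12_op_comp,
      K12_bd_gact, K12_bd_gact, K12_sg_gact, LinearMap.id_comp, LinearMap.comp_id]
  exact congrArg (fun f : ZMap (K12_Tot R × K12_Tot R') (K12_Tot R × K12_Tot R') => f x) h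

theorem K12_epsT_gact (g : G × G') (x : K12_Tot R × K12_Tot R' →₀ ℤ) :
    K12_epsT R R' (K12_op (gact g.1) (gact g.2) x) = K12_epsT R R' x := by
  have h : K12_epsT R R' ∘ₗ K12_op (gact g.1) (gact g.2) = K12_epsT R R' := by
    unfold K12_epsT
    rw [K12_ten_comp, K12_eps_gact, K12_eps_gact]
  exact congrArg (fun f : (K12_Tot R × K12_Tot R' →₀ ℤ) →ₗ[ℤ] ℤ => f x) h

theorem K12_DD (c c' : ℕ → ℤ) (x : K12_Tot R × K12_Tot R' →₀ ℤ) :
    K12_D R R' c c' (K12_D R R' c c' x) = 0 := by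
  have h : K12_D R R' c c' ∘ₗ K12_D R R' c c' = 0 := by
    unfold K12_D
    rw [LinearMap.add_comp, LinearMap.comp_add, LinearMap.comp_add, K12_op_comp, K12_op_comp,
      K12_op_comp, K12_op_comp, K12_bd_bd, K12_bd_bd, K12_op_zero_left, K12_op_zero_right,
      LinearMap.id_comp, LinearMap.comp_id, zero_add, add_zero, ← K12_op_add_left, K12_bd_sg,
      neg_add_cancel, K12_op_zero_left]
  exact congrArg (fun f : ZMap (K12_Tot R × K12_Tot R') (K12_Tot R × K12_Tot R') => f x) h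

theorem K12_eps_D (c c' : ℕ → ℤ) (x : K12_Tot R × K12_Tot R' →₀ ℤ) :
    K12_epsT R R' (K12_D R R' c c' x) = 0 := by
  have h : K12_epsT R R' ∘ₗ K12_D R R' c c' = 0 := by
    unfold K12_D K12_epsT
    rw [LinearMap.comp_add, K12_ten_comp, K12_ten_comp, K12_eps_bd, K12_eps_bd,
      K12_ten_zero_left, K12_ten_zero_right, add_zero]
  exact congrArg (fun f : (K12_Tot R × K12_Tot R' →₀ ℤ) →ₗ[ℤ] ℤ => f x) h

theorem K12_exactT : (∃ c, K12_epsT R R' c = 1) ∧
    ∀ c, K12_D R R' 1 1 c = 0 → K12_epsT R R' c = 0 → ∃ b, K12_D R R' 1 1 b = c := by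
  obtain ⟨h, e, he, hs, hh⟩ := K12_contr R
  obtain ⟨h', e', he', hs', hh'⟩ := K12_contr R'
  refine ⟨⟨K12_tc (K12_ib R 0 e) (K12_ib R' 0 e'), ?_⟩, ?_⟩
  · unfold K12_epsT
    rw [K12_ten_tc, K12_eps_zero, K12_eps_zero, he, he', mul_one]
  set η := (K12_eps R).smulRight (K12_ib R 0 e) with hη
  set η' := (K12_eps R').smulRight (K12_ib R' 0 e') with hη'
  have a1 : K12_bd R 1 ∘ₗ η = 0 := by
    apply LinearMap.ext
    intro x
    show K12_bd R 1 (K12_eps R x • K12_ib R 0 e) = 0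
    rw [map_smul, K12_bd_zero, smul_zero]
  have a2 : η ∘ₗ K12_bd R 1 = 0 := by
    apply LinearMap.ext
    intro x
    show (K12_eps R ∘ₗ K12_bd R 1) x • K12_ib R 0 e = 0
    rw [K12_eps_bd, LinearMap.zero_apply, zero_smul]
  have a3 : K12_sg R ∘ₗ η = η := by
    apply LinearMap.ext
    intro x
    show K12_sg R (K12_eps R x • K12_ib R 0 e) = K12_eps R x • K12_ib R 0 e
    rw [map_smul, K12_sg_ib, pow_zero, one_smul]
  have a4 : η ∘ₗ K12_sg R = η := by
    apply K12_tot_ext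
    intro p x
    show K12_eps R (K12_sg R (K12_ib R p x)) • K12_ib R 0 e =
      K12_eps R (K12_ib R p x) • K12_ib R 0 e
    rw [K12_sg_ib, map_smul]
    match p, x with
    | 0, x => rw [pow_zero, one_smul]
    | p + 1, x => rw [K12_eps_succ, smul_zero]
  have b1 : K12_bd R 1 ∘ₗ h + h ∘ₗ K12_bd R 1 + η = LinearMap.id := by
    rw [hh, sub_add_cancel]
  have b2 : K12_bd R' 1 ∘ₗ h' + h' ∘ₗ K12_bd R' 1 + η' = LinearMap.id := by
    rw [hh', sub_add_cancel]
  have key : K12_D R R' 1 1 ∘ₗ (K12_op h LinearMap.id + K12_op η h') +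
      (K12_op h LinearMap.id + K12_op η h') ∘ₗ K12_D R R' 1 1 + K12_op η η' = LinearMap.id := by
    unfold K12_D
    simp only [LinearMap.add_comp, LinearMap.comp_add, K12_op_comp, a1, a2, a3, a4,
      K12_op_zero_left, LinearMap.id_comp, LinearMap.comp_id, zero_add, add_zero, hs]
    have c1 : K12_op (K12_bd R 1 ∘ₗ h) LinearMap.id + K12_op (h ∘ₗ K12_bd R 1) LinearMap.id +
        K12_op η LinearMap.id = (LinearMap.id : ZMap (K12_Tot R × K12_Tot R') _) := by
      rw [← K12_op_add_left, ← K12_op_add_left, b1, K12_op_id]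
    have c2 : K12_op η (K12_bd R' 1 ∘ₗ h') + K12_op η (h' ∘ₗ K12_bd R' 1) + K12_op η η' =
        K12_op η LinearMap.id := by
      rw [← K12_op_add_right, ← K12_op_add_right, b2]
    have c3 : K12_op (-(h ∘ₗ K12_sg R)) (K12_bd R' 1) + K12_op (h ∘ₗ K12_sg R) (K12_bd R' 1) =
        0 := by
      rw [← K12_op_add_left, neg_add_cancel, K12_op_zero_left]
    rw [← c1, ← c2]
    have c4 : ∀ a b c d e f g : ZMap (K12_Tot R × K12_Tot R') (K12_Tot R × K12_Tot R'),
        c + f = 0 → a + c + d + (b + (f + e)) + g = a + b + (d + e + g) := by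
      intro a b c d e f g h0
      have : a + c + d + (b + (f + e)) + g = a + b + (d + e + g) + (c + f) := by abel
      rw [this, h0, add_zero]
    exact c4 _ _ _ _ _ _ _ c3
  intro c hc hec
  refine ⟨(K12_op h LinearMap.id + K12_op η h' : ZMap (K12_Tot R × K12_Tot R') _) c, ?_⟩
  have h1 := congrArg (fun f : ZMap (K12_Tot R × K12_Tot R') (K12_Tot R × K12_Tot R') => f c) key
  have h2 : K12_op η η' c = 0 := by
    rw [hη, hη', K12_op_smulRight]
    have h3 : K12_ten (K12_eps R) (K12_eps R') c = 0 := hec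
    rw [h3, zero_smul]
  have h4 : K12_D R R' 1 1 ((K12_op h LinearMap.id + K12_op η h' :
      ZMap (K12_Tot R × K12_Tot R') _) c) + (K12_op h LinearMap.id + K12_op η h' :
      ZMap (K12_Tot R × K12_Tot R') _) (K12_D R R' 1 1 c) + K12_op η η' c = c := h1
  rw [hc, map_zero, h2, add_zero, add_zero] at h4
  exact h4

theorem K12_mc_bd (c : ℕ → ℤ) (a b : K12_Tot R) (h : mc (K12_bd R c) a b ≠ 0) :
    b.1 + 1 = a.1 := by
  obtain ⟨p, x⟩ := a
  obtain ⟨q, y⟩ := b
  unfold mc at h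
  rw [← K12_ib_single] at h
  match p, x with
  | 0, x => rw [K12_bd_zero] at h; exact absurd rfl h
  | p + 1, x =>
    rw [K12_bd_succ, Finsupp.smul_apply] at h
    by_contra hne
    apply h
    rw [K12_ib_apply_ne R p q _ y (by intro e; apply hne; show q + 1 = p + 1; rw [e]), smul_zero]

theorem K12_mc_sg (a b : K12_Tot R) : mc (K12_sg R) a b = (-1) ^ a.1 * mc LinearMap.id a b := by
  obtain ⟨p, x⟩ := a
  unfold mc
  rw [← K12_ib_single, K12_sg_ib]
  rfl

theorem K12_mc_id {X : Type*} (a b : X) (h : mc (LinearMap.id : ZMap X X) a b ≠ 0) : a = b := by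
  by_contra hne
  exact h (Finsupp.single_eq_of_ne (fun e => hne e.symm))

theorem K12_low (c c' : ℕ → ℤ) : K12_Low (K12_deg R R') (K12_D R R' c c') := by
  intro z w h
  have h1 : mc (K12_D R R' c c') z w = mc (K12_op (K12_bd R c) LinearMap.id) z w +
      mc (K12_op (K12_sg R) (K12_bd R' c')) z w := rfl
  rw [h1, K12_mc_op, K12_mc_op] at h
  unfold K12_deg
  by_cases h2 : mc (K12_bd R c) z.1 w.1 * mc (LinearMap.id : ZMap (K12_Tot R') _) z.2 w.2 = 0
  · rw [h2, zero_add] at h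
    have h3 := K12_mc_bd R' c' _ _ (right_ne_zero_of_mul h)
    have h4 := left_ne_zero_of_mul h
    rw [K12_mc_sg] at h4
    have h5 := K12_mc_id _ _ (right_ne_zero_of_mul h4)
    rw [h5]
    omega
  · have h3 := K12_mc_bd R c _ _ (left_ne_zero_of_mul h2)
    have h5 := K12_mc_id _ _ (right_ne_zero_of_mul h2)
    rw [h5]
    omega

theorem K12_eps_ne (z : K12_Tot R × K12_Tot R') (h : K12_epsT R R' (single z 1) ≠ 0) :
    K12_deg R R' z = 0 := by
  unfold K12_epsT at h
  rw [K12_ten_single] at h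
  have h1 := K12_eps_fst R z.1 (left_ne_zero_of_mul h)
  have h2 := K12_eps_fst R' z.2 (right_ne_zero_of_mul h)
  unfold K12_deg
  omega

theorem K12_eps_pr (c : K12_Tot R × K12_Tot R' →₀ ℤ) :
    K12_epsT R R' (K12_j (K12_deg R R') 0 (K12_r (K12_deg R R') 0 c)) = K12_epsT R R' c := by
  induction c using Finsupp.induction_linear with
  | zero => simp
  | add a b ha hb => simp only [map_add, ha, hb]
  | single t m =>
    have e : (single t m : K12_Tot R × K12_Tot R' →₀ ℤ) = m • single t 1 := by simp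
    rw [e]
    simp only [map_smul]
    congr 1
    by_cases h : K12_deg R R' t = 0
    · rw [K12_j_r]
      intro s hs
      have : t = s := by
        by_contra h'
        exact hs (Finsupp.single_eq_of_ne (fun e => h' e.symm))
      rw [← this, h]
    · have h1 : K12_r (K12_deg R R') 0 (single t 1) = 0 := by
        ext z
        rw [K12_r_apply]
        apply Finsupp.single_eq_of_ne
        intro e
        exact h (by rw [← e]; exact z.2)
      rw [h1, map_zero, map_zero]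
      by_contra h'
      exact h (K12_eps_ne R R' t (fun e => h' e.symm))

theorem K12_eps_pos (n : ℕ) (c : K12_Cell (K12_deg R R') (n + 1) →₀ ℤ) :
    K12_epsT R R' (K12_j (K12_deg R R') (n + 1) c) = 0 := by
  induction c using Finsupp.induction_linear with
  | zero => simp
  | add a b ha hb => simp only [map_add, ha, hb, add_zero]
  | single t m =>
    rw [K12_j_single]
    have e : (single t.1 m : K12_Tot R × K12_Tot R' →₀ ℤ) = m • single t.1 1 := by simp
    rw [e, map_smul]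
    by_cases h : K12_epsT R R' (single t.1 1) = 0
    · rw [h, smul_zero]
    · have h1 := K12_eps_ne R R' t.1 h
      have h2 := t.2
      omega

theorem K12_j_gact (n : ℕ) (g : G × G') (c : K12_Cell (K12_deg R R') n →₀ ℤ) :
    K12_j (K12_deg R R') n (@gact _ _ _ (K12_actC R R' n) g c) =
      K12_op (gact g.1) (gact g.2) (K12_j (K12_deg R R') n c) := by
  rw [← K12_gact_op]
  induction c using Finsupp.induction_linear with
  | zero => simp
  | add a b ha hb => simp only [map_add, ha, hb]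
  | single t m =>
    rw [@gact_single _ _ _ (K12_actC R R' n), K12_j_single, K12_j_single,
      @gact_single _ _ _ (K12_actT R R')]
    rfl

/-- the product resolution -/
noncomputable def K12_prod : FreeRes.{u, max v v'} (G × G') where
  X n := K12_Cell (K12_deg R R') n
  act n := K12_actC R R' n
  free n g z h := by
    have h1 : g.1 • z.1.1 = z.1.1 := congrArg (fun w => w.1.1) h
    have h2 : g.2 • z.1.2 = z.1.2 := congrArg (fun w => w.1.2) h
    exact Prod.ext (K12_tot_free R _ _ h1) (K12_tot_free R' _ _ h2)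
  fin n := by
    classical
    choose s hs using R.fin
    choose s' hs' using R'.fin
    refine ⟨(((Finset.range (n + 1)).sigma s) ×ˢ ((Finset.range (n + 1)).sigma s')).subtype
      (fun z => K12_deg R R' z = n), ?_⟩
    rintro ⟨⟨⟨p, x⟩, ⟨q, y⟩⟩, hz⟩
    have hz' : p + q = n := hz
    obtain ⟨g, x', hx', hg⟩ := hs p x
    obtain ⟨g', y', hy', hg'⟩ := hs' q y
    refine ⟨(g, g'), ⟨(⟨p, x'⟩, ⟨q, y'⟩), hz⟩, ?_, ?_⟩
    · rw [Finset.mem_subtype, Finset.mem_product, Finset.mem_sigma, Finset.mem_sigma]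
      refine ⟨⟨?_, hx'⟩, ⟨?_, hy'⟩⟩
      · rw [Finset.mem_range]
        show p < n + 1
        omega
      · rw [Finset.mem_range]
        show q < n + 1
        omega
    · apply Subtype.ext
      show ((⟨p, g • x'⟩, ⟨q, g' • y'⟩) : K12_Tot R × K12_Tot R') = (⟨p, x⟩, ⟨q, y⟩)
      rw [hg, hg']
  d n := K12_r (K12_deg R R') n ∘ₗ K12_D R R' 1 1 ∘ₗ K12_j (K12_deg R R') (n + 1)
  eps := K12_epsT R R' ∘ₗ K12_j (K12_deg R R') 0
  d_act n g c := by
    apply K12_j_inj (K12_deg R R') n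
    rw [K12_j_gact]
    show K12_j (K12_deg R R') n (K12_r (K12_deg R R') n (K12_D R R' 1 1
      (K12_j (K12_deg R R') (n + 1) _))) = K12_op (gact g.1) (gact g.2)
        (K12_j (K12_deg R R') n (K12_r (K12_deg R R') n (K12_D R R' 1 1
          (K12_j (K12_deg R R') (n + 1) c))))
    rw [K12_j_d (K12_low R R' 1 1), K12_j_d (K12_low R R' 1 1), K12_j_gact, K12_D_gact]
  eps_act g c := by
    show K12_epsT R R' (K12_j (K12_deg R R') 0 _) = K12_epsT R R' (K12_j (K12_deg R R') 0 c)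
    rw [K12_j_gact, K12_epsT_gact]
  eps_surj := by
    obtain ⟨c, hc⟩ := (K12_exactT R R').1
    refine ⟨K12_r (K12_deg R R') 0 c, ?_⟩
    show K12_epsT R R' (K12_j (K12_deg R R') 0 (K12_r (K12_deg R R') 0 c)) = 1
    rw [K12_eps_pr, hc]
  eps_d c := by
    show K12_epsT R R' (K12_j (K12_deg R R') 0 (K12_r (K12_deg R R') 0 (K12_D R R' 1 1
      (K12_j (K12_deg R R') (0 + 1) c)))) = 0
    rw [K12_eps_pr, K12_eps_D]
  d_d n c := by
    apply K12_j_inj (K12_deg R R') n
    show K12_j (K12_deg R R') n (K12_r (K12_deg R R') n (K12_D R R' 1 1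
      (K12_j (K12_deg R R') (n + 1) (K12_r (K12_deg R R') (n + 1) (K12_D R R' 1 1
        (K12_j (K12_deg R R') (n + 1 + 1) c)))))) = K12_j (K12_deg R R') n 0
    rw [K12_j_d (K12_low R R' 1 1), K12_j_d (K12_low R R' 1 1), K12_DD, map_zero]
  exact0 c hc := by
    obtain ⟨b, hb⟩ := (K12_exactT R R').2 (K12_j (K12_deg R R') 0 c)
      (K12_D_zero (K12_low R R' 1 1) c) hc
    refine ⟨K12_r (K12_deg R R') (0 + 1) b, ?_⟩
    apply K12_j_inj (K12_deg R R') 0
    show K12_j (K12_deg R R') 0 (K12_r (K12_deg R R') 0 (K12_D R R' 1 1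
      (K12_j (K12_deg R R') (0 + 1) (K12_r (K12_deg R R') (0 + 1) b)))) = _
    rw [K12_D_pr (K12_low R R' 1 1), K12_r_j, hb, K12_r_j]
  exact n c hc := by
    have hc' : K12_D R R' 1 1 (K12_j (K12_deg R R') (n + 1) c) = 0 := by
      rw [← K12_j_d (K12_low R R' 1 1)]
      have h : K12_r (K12_deg R R') n (K12_D R R' 1 1 (K12_j (K12_deg R R') (n + 1) c)) = 0 := hc
      rw [h, map_zero]
    obtain ⟨b, hb⟩ := (K12_exactT R R').2 (K12_j (K12_deg R R') (n + 1) c) hc'
      (K12_eps_pos R R' n c)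
    refine ⟨K12_r (K12_deg R R') (n + 1 + 1) b, ?_⟩
    apply K12_j_inj (K12_deg R R') (n + 1)
    show K12_j (K12_deg R R') (n + 1) (K12_r (K12_deg R R') (n + 1) (K12_D R R' 1 1
      (K12_j (K12_deg R R') (n + 1 + 1) (K12_r (K12_deg R R') (n + 1 + 1) b)))) = _
    rw [K12_D_pr (K12_low R R' 1 1), K12_r_j, hb, K12_r_j]

end prod

end GP

end OS
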