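import Mathlib
import Pool.Agent.Lib.MP_8fe54c_gt.KProd

/-!
# K13: harmonic chains of the product of two free resolutions
-/

set_option autoImplicit false

namespace OS

namespace GP

open Finsupp

universe u v w u' v' w'

section gen

variable {X Y X' Y' : Type*}

theorem K13_finsum_inj {α T : Type*} (i : α → T) (hi : Function.Injective i) (f : T → ℝ)
    (hf : ∀ w, f w ≠ 0 → w ∈ Set.range i) : ∑ᶠ w, f w = ∑ᶠ a, f (i a) := by
  rw [← finsum_mem_range hi, finsum_mem_def]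
  congr 1
  symm
  rw [Set.indicator_eq_self]
  exact fun w hw => hf w hw

theorem K13_bd_op {A : ZMap X Y} {B : ZMap X' Y'} {a b : ℝ} (hA : Bd A a) (hB : Bd B b) :
    Bd (K12_op A B) (a * b) := by
  classical
  refine ⟨mul_nonneg hA.nonneg hB.nonneg, ?_, ?_, ?_⟩
  · intro w
    refine ((hA.fin w.1).prod (hB.fin w.2)).subset ?_
    intro z hz
    have hz' : mc (K12_op A B) z w ≠ 0 := hz
    rw [K12_mc_op] at hz'
    exact ⟨left_ne_zero_of_mul hz', right_ne_zero_of_mul hz'⟩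
  · intro z s
    calc ∑ w ∈ s, |(mc (K12_op A B) z w : ℝ)|
        ≤ ∑ w ∈ (s.image Prod.fst) ×ˢ (s.image Prod.snd), |(mc (K12_op A B) z w : ℝ)| := by
          refine Finset.sum_le_sum_of_subset_of_nonneg ?_ (fun _ _ _ => abs_nonneg _)
          intro w hw
          rw [Finset.mem_product]
          exact ⟨Finset.mem_image_of_mem _ hw, Finset.mem_image_of_mem _ hw⟩
      _ = (∑ w ∈ s.image Prod.fst, |(mc A z.1 w : ℝ)|) *
          ∑ w ∈ s.image Prod.snd, |(mc B z.2 w : ℝ)| := by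
          rw [Finset.sum_mul_sum, Finset.sum_product]
          refine Finset.sum_congr rfl fun i _ => Finset.sum_congr rfl fun j _ => ?_
          rw [K12_mc_op]
          push_cast
          rw [abs_mul]
      _ ≤ a * b := mul_le_mul (hA.col _ _) (hB.col _ _)
          (Finset.sum_nonneg fun _ _ => abs_nonneg _) hA.nonneg
  · intro w s
    calc ∑ z ∈ s, |(mc (K12_op A B) z w : ℝ)|
        ≤ ∑ z ∈ (s.image Prod.fst) ×ˢ (s.image Prod.snd), |(mc (K12_op A B) z w : ℝ)| := by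
          refine Finset.sum_le_sum_of_subset_of_nonneg ?_ (fun _ _ _ => abs_nonneg _)
          intro w hw
          rw [Finset.mem_product]
          exact ⟨Finset.mem_image_of_mem _ hw, Finset.mem_image_of_mem _ hw⟩
      _ = (∑ z ∈ s.image Prod.fst, |(mc A z w.1 : ℝ)|) *
          ∑ z ∈ s.image Prod.snd, |(mc B z w.2 : ℝ)| := by
          rw [Finset.sum_mul_sum, Finset.sum_product]
          refine Finset.sum_congr rfl fun i _ => Finset.sum_congr rfl fun j _ => ?_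
          rw [K12_mc_op]
          push_cast
          rw [abs_mul]
      _ ≤ a * b := mul_le_mul (hA.row _ _) (hB.row _ _)
          (Finset.sum_nonneg fun _ _ => abs_nonneg _) hA.nonneg

theorem K13_bd_id : Bd (LinearMap.id : ZMap X X) 1 := by
  classical
  have h : ∀ a b : X, mc (LinearMap.id : ZMap X X) a b = if a = b then 1 else 0 := by
    intro a b
    show (single a 1 : X →₀ ℤ) b = _
    rw [Finsupp.single_apply]
  refine ⟨zero_le_one, fun y => ?_, fun x s => ?_, fun y s => ?_⟩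
  · refine (Set.finite_singleton y).subset fun x hx => ?_
    exact K12_mc_id _ _ hx
  · simp only [h, Int.cast_ite, Int.cast_one, Int.cast_zero]
    have : ∀ w, |(if x = w then (1 : ℝ) else 0)| = if x = w then 1 else 0 := by
      intro w; split_ifs <;> simp
    simp only [this, Finset.sum_ite_eq]
    split_ifs <;> norm_num
  · simp only [h, Int.cast_ite, Int.cast_one, Int.cast_zero]
    have : ∀ w, |(if w = y then (1 : ℝ) else 0)| = if w = y then 1 else 0 := by
      intro w; split_ifs <;> simp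
    simp only [this, Finset.sum_ite_eq']
    split_ifs <;> norm_num

theorem K13_adj_apply {T : ZMap X Y} {A : ℝ} (h : Bd T A) (ζ : L2 ℝ Y) (x : X) :
    (ContinuousLinearMap.adjoint (opL (K := ℝ) T h) ζ) x = ∑ᶠ y, (mc T x y : ℝ) * ζ y := by
  classical
  have h1 : inner ℝ (lp.single 2 x (1 : ℝ)) (ContinuousLinearMap.adjoint (opL (K := ℝ) T h) ζ) =
      inner ℝ (opL (K := ℝ) T h (lp.single 2 x (1 : ℝ))) ζ :=
    ContinuousLinearMap.adjoint_inner_right _ _ _
  rw [opL_inner_single, lp.inner_single_left] at h1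
  simpa using h1

end gen

section tot

variable {Γ : Type v} [Group Γ] (R : FreeRes.{u, v} Γ)

theorem K13_mc_bd (c : ℕ → ℤ) (p : ℕ) (x : R.X (p + 1)) (y : R.X p) :
    mc (K12_bd R c) ⟨p + 1, x⟩ ⟨p, y⟩ = c (p + 1) * mc (R.d p) x y := by
  unfold mc
  rw [← K12_ib_single, K12_bd_succ, Finsupp.smul_apply, K12_ib_apply, smul_eq_mul]

theorem K13_bd_sg : Bd (K12_sg R) 1 := by
  have h : ∀ a b, |(mc (K12_sg R) a b : ℝ)| =
      |(mc (LinearMap.id : ZMap (K12_Tot R) (K12_Tot R)) a b : ℝ)| := by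
    intro a b
    rw [K12_mc_sg]
    push_cast
    rw [abs_mul, abs_pow, abs_neg, abs_one, one_pow, one_mul]
  have h0 := K13_bd_id (X := K12_Tot R)
  refine ⟨zero_le_one, fun y => ?_, fun x s => ?_, fun y s => ?_⟩
  · refine (h0.fin y).subset fun x hx => ?_
    have hx' : mc (K12_sg R) x y ≠ 0 := hx
    rw [K12_mc_sg] at hx'
    exact right_ne_zero_of_mul hx'
  · simp only [h]
    exact h0.col x s
  · simp only [h]
    exact h0.row y s

theorem K13_weight (c : ℕ → ℤ) (a b : K12_Tot R) :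
    mc (K12_bd R c) a b = c a.1 * mc (K12_bd R 1) a b := by
  obtain ⟨p, x⟩ := a
  unfold mc
  rw [← K12_ib_single]
  match p, x with
  | 0, x => rw [K12_bd_zero, K12_bd_zero]; simp
  | p + 1, x =>
    rw [K12_bd_succ, K12_bd_succ, Finsupp.smul_apply, Finsupp.smul_apply, Pi.one_apply, one_smul,
      smul_eq_mul]

/-- a finsum over the cells against the boundary, transposed -/
theorem K13_coface (c : ℕ → ℤ) (p : ℕ) (hc : c (p + 1) = 1) (z : R.X (p + 1))
    (f : K12_Tot R → ℝ) : ∑ᶠ a, (mc (K12_bd R c) ⟨p + 1, z⟩ a : ℝ) * f a =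
      ∑ᶠ x : R.X p, (R.coef p z x : ℝ) * f ⟨p, x⟩ := by
  rw [K13_finsum_inj (Sigma.mk p) sigma_mk_injective]
  · apply finsum_congr
    intro x
    rw [K13_mc_bd, hc, one_mul]
    rfl
  · rintro ⟨q, x⟩ hw
    have h1 : mc (K12_bd R c) ⟨p + 1, z⟩ ⟨q, x⟩ ≠ 0 := fun e => hw (by rw [e]; simp)
    have h2 : q + 1 = p + 1 := K12_mc_bd R c _ _ h1
    have h3 : q = p := by omega
    subst h3
    exact ⟨x, rfl⟩

theorem K13_face (c : ℕ → ℤ) (p : ℕ) (hc : c (p + 1) = 1) (y : R.X p)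
    (f : K12_Tot R → ℝ) : ∑ᶠ a, (mc (K12_bd R c) a ⟨p, y⟩ : ℝ) * f a =
      ∑ᶠ x : R.X (p + 1), (R.coef p x y : ℝ) * f ⟨p + 1, x⟩ := by
  rw [K13_finsum_inj (Sigma.mk (p + 1)) sigma_mk_injective]
  · apply finsum_congr
    intro x
    rw [K13_mc_bd, hc, one_mul]
    rfl
  · rintro ⟨q, x⟩ hw
    have h1 : mc (K12_bd R c) ⟨q, x⟩ ⟨p, y⟩ ≠ 0 := fun e => hw (by rw [e]; simp)
    have h2 : p + 1 = q := K12_mc_bd R c _ _ h1
    subst h2
    exact ⟨x, rfl⟩

/-- the cut-off weights -/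
def K13_cut (N : ℕ) (p : ℕ) : ℤ := if p ≤ N then 1 else 0

theorem K13_bd_bd (N : ℕ) : ∃ A, Bd (K12_bd R (K13_cut N)) A := by
  classical
  choose A hA using fun k => R.exists_bd R (R.d k) (R.d_act k)
  have hA0 : ∀ k, 0 ≤ A k := fun k => (hA k).nonneg
  have hle : ∀ k, k ≤ N → A k ≤ ∑ i ∈ Finset.range (N + 1), A i := fun k hk =>
    Finset.single_le_sum (fun i _ => hA0 i) (Finset.mem_range.2 (by omega))
  have hS : 0 ≤ ∑ i ∈ Finset.range (N + 1), A i := Finset.sum_nonneg fun i _ => hA0 i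
  have hcut : ∀ p, |(K13_cut N p : ℝ)| ≤ 1 := by
    intro p
    unfold K13_cut
    split_ifs <;> simp
  refine ⟨∑ i ∈ Finset.range (N + 1), A i, hS, ?_, ?_, ?_⟩
  · rintro ⟨q, y⟩
    refine (((hA q).fin y).image (fun x => (⟨q + 1, x⟩ : K12_Tot R))).subset ?_
    rintro ⟨p, x⟩ hx
    have hx' : mc (K12_bd R (K13_cut N)) ⟨p, x⟩ ⟨q, y⟩ ≠ 0 := hx
    have h1 := K12_mc_bd R _ _ _ hx'
    have h2 : q + 1 = p := h1
    subst h2
    rw [K13_mc_bd] at hx'
    exact ⟨x, right_ne_zero_of_mul hx', rfl⟩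
  · rintro ⟨p, x⟩ s
    match p, x with
    | 0, x =>
      have : ∀ w ∈ s, |(mc (K12_bd R (K13_cut N)) ⟨0, x⟩ w : ℝ)| = 0 := by
        intro w _
        rw [abs_eq_zero]
        by_contra h
        have h1 := K12_mc_bd R _ _ _ (fun e => h (by rw [e]; simp) :
          mc (K12_bd R (K13_cut N)) ⟨0, x⟩ w ≠ 0)
        have h2 : w.1 + 1 = 0 := h1
        omega
      rw [Finset.sum_eq_zero this]
      exact hS
    | p + 1, x =>
      have h1 : ∑ w ∈ s, |(mc (K12_bd R (K13_cut N)) ⟨p + 1, x⟩ w : ℝ)| =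
          ∑ y ∈ s.preimage (Sigma.mk p) sigma_mk_injective.injOn,
            |(mc (K12_bd R (K13_cut N)) ⟨p + 1, x⟩ ⟨p, y⟩ : ℝ)| := by
        symm
        apply Finset.sum_preimage (Sigma.mk p) s sigma_mk_injective.injOn
          (fun w => |(mc (K12_bd R (K13_cut N)) ⟨p + 1, x⟩ w : ℝ)|)
        rintro ⟨q, y⟩ _ hw
        show |(mc (K12_bd R (K13_cut N)) ⟨p + 1, x⟩ ⟨q, y⟩ : ℝ)| = 0
        rw [abs_eq_zero]
        by_contra h
        have h1 := K12_mc_bd R _ _ _ (fun e => h (by rw [e]; simp) :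
          mc (K12_bd R (K13_cut N)) ⟨p + 1, x⟩ ⟨q, y⟩ ≠ 0)
        have h2 : q + 1 = p + 1 := h1
        have h3 : q = p := by omega
        subst h3
        exact hw ⟨y, rfl⟩
      rw [h1]
      by_cases hp : p + 1 ≤ N
      · refine le_trans ?_ (hle p (by omega))
        refine le_trans (Finset.sum_le_sum fun y _ => ?_) ((hA p).col x
          (s.preimage (Sigma.mk p) sigma_mk_injective.injOn))
        rw [K13_mc_bd]
        push_cast
        rw [abs_mul]
        exact mul_le_of_le_one_left (abs_nonneg _) (hcut _)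
      · refine le_trans (le_of_eq (Finset.sum_eq_zero fun y _ => ?_)) hS
        rw [K13_mc_bd]
        unfold K13_cut
        rw [if_neg hp]
        simp
  · rintro ⟨q, y⟩ s
    have h1 : ∑ w ∈ s, |(mc (K12_bd R (K13_cut N)) w ⟨q, y⟩ : ℝ)| =
        ∑ x ∈ s.preimage (Sigma.mk (q + 1)) sigma_mk_injective.injOn,
          |(mc (K12_bd R (K13_cut N)) ⟨q + 1, x⟩ ⟨q, y⟩ : ℝ)| := by
      symm
      apply Finset.sum_preimage (Sigma.mk (q + 1)) s sigma_mk_injective.injOn
        (fun w => |(mc (K12_bd R (K13_cut N)) w ⟨q, y⟩ : ℝ)|)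
      rintro ⟨p, x⟩ _ hw
      show |(mc (K12_bd R (K13_cut N)) ⟨p, x⟩ ⟨q, y⟩ : ℝ)| = 0
      rw [abs_eq_zero]
      by_contra h
      have h1 := K12_mc_bd R _ _ _ (fun e => h (by rw [e]; simp) :
        mc (K12_bd R (K13_cut N)) ⟨p, x⟩ ⟨q, y⟩ ≠ 0)
      have h2 : q + 1 = p := h1
      subst h2
      exact hw ⟨x, rfl⟩
    rw [h1]
    by_cases hq : q + 1 ≤ N
    · refine le_trans ?_ (hle q (by omega))
      refine le_trans (Finset.sum_le_sum fun x _ => ?_) ((hA q).row y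
        (s.preimage (Sigma.mk (q + 1)) sigma_mk_injective.injOn))
      rw [K13_mc_bd]
      push_cast
      rw [abs_mul]
      exact mul_le_of_le_one_left (abs_nonneg _) (hcut _)
    · refine le_trans (le_of_eq (Finset.sum_eq_zero fun y _ => ?_)) hS
      rw [K13_mc_bd]
      unfold K13_cut
      rw [if_neg hq]
      simp

end tot

section sums

variable {X X' : Type*}

theorem K13_left (A : ZMap X X) (ζ : X × X' → ℝ) (a : X) (b : X') :
    ∑ᶠ w, (mc (K12_op A (LinearMap.id : ZMap X' X')) (a, b) w : ℝ) * ζ w =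
      ∑ᶠ a', (mc A a a' : ℝ) * ζ (a', b) := by
  rw [K13_finsum_inj (fun a' : X => (a', b)) (fun x y h => congrArg Prod.fst h)]
  · apply finsum_congr
    intro a'
    rw [K12_mc_op]
    have : mc (LinearMap.id : ZMap X' X') b b = 1 := Finsupp.single_eq_same
    simp only [this, mul_one]
  · intro w hw
    have h1 : mc (K12_op A (LinearMap.id : ZMap X' X')) (a, b) w ≠ 0 := by
      intro e
      apply hw
      rw [e]; simp
    rw [K12_mc_op] at h1
    have h2 := K12_mc_id _ _ (right_ne_zero_of_mul h1)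
    exact ⟨w.1, Prod.ext rfl h2⟩

theorem K13_left' (A : ZMap X X) (ζ : X × X' → ℝ) (a : X) (b : X') :
    ∑ᶠ w, (mc (K12_op A (LinearMap.id : ZMap X' X')) w (a, b) : ℝ) * ζ w =
      ∑ᶠ a', (mc A a' a : ℝ) * ζ (a', b) := by
  rw [K13_finsum_inj (fun a' : X => (a', b)) (fun x y h => congrArg Prod.fst h)]
  · apply finsum_congr
    intro a'
    rw [K12_mc_op]
    have : mc (LinearMap.id : ZMap X' X') b b = 1 := Finsupp.single_eq_same
    simp only [this, mul_one]
  · intro w hw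
    have h1 : mc (K12_op A (LinearMap.id : ZMap X' X')) w (a, b) ≠ 0 := by
      intro e
      apply hw
      rw [e]; simp
    rw [K12_mc_op] at h1
    have h2 := K12_mc_id _ _ (right_ne_zero_of_mul h1)
    exact ⟨w.1, Prod.ext rfl h2.symm⟩

variable {Γ : Type v} [Group Γ] (R : FreeRes.{u, v} Γ)

theorem K13_right (B : ZMap X' X') (ζ : K12_Tot R × X' → ℝ) (a : K12_Tot R) (b : X') :
    ∑ᶠ w, (mc (K12_op (K12_sg R) B) (a, b) w : ℝ) * ζ w =
      (-1) ^ a.1 * ∑ᶠ b', (mc B b b' : ℝ) * ζ (a, b') := by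
  rw [K13_finsum_inj (fun b' : X' => (a, b')) (fun x y h => congrArg Prod.snd h)]
  · rw [← smul_eq_mul, smul_finsum]
    apply finsum_congr
    intro b'
    rw [K12_mc_op, K12_mc_sg]
    have : mc (LinearMap.id : ZMap (K12_Tot R) (K12_Tot R)) a a = 1 := Finsupp.single_eq_same
    simp only [this, mul_one, smul_eq_mul]
    push_cast
    ring
  · intro w hw
    have h1 : mc (K12_op (K12_sg R) B) (a, b) w ≠ 0 := by
      intro e
      apply hw
      rw [e]; simp
    rw [K12_mc_op, K12_mc_sg] at h1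
    have h2 := K12_mc_id _ _ (right_ne_zero_of_mul (left_ne_zero_of_mul h1))
    exact ⟨w.2, Prod.ext h2 rfl⟩

theorem K13_right' (B : ZMap X' X') (ζ : K12_Tot R × X' → ℝ) (a : K12_Tot R) (b : X') :
    ∑ᶠ w, (mc (K12_op (K12_sg R) B) w (a, b) : ℝ) * ζ w =
      (-1) ^ a.1 * ∑ᶠ b', (mc B b' b : ℝ) * ζ (a, b') := by
  rw [K13_finsum_inj (fun b' : X' => (a, b')) (fun x y h => congrArg Prod.snd h)]
  · rw [← smul_eq_mul, smul_finsum]
    apply finsum_congr
    intro b'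
    rw [K12_mc_op, K12_mc_sg]
    have : mc (LinearMap.id : ZMap (K12_Tot R) (K12_Tot R)) a a = 1 := Finsupp.single_eq_same
    simp only [this, mul_one, smul_eq_mul]
    push_cast
    ring
  · intro w hw
    have h1 : mc (K12_op (K12_sg R) B) w (a, b) ≠ 0 := by
      intro e
      apply hw
      rw [e]; simp
    rw [K12_mc_op, K12_mc_sg] at h1
    have h2 := K12_mc_id _ _ (right_ne_zero_of_mul (left_ne_zero_of_mul h1))
    exact ⟨w.2, Prod.ext h2.symm rfl⟩

/-- the two boundaries anticommute, one of them transposed -/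
theorem K13_anti (c : ℕ → ℤ) {B : ZMap X' X'} {β : ℝ} (hB : Bd B β) (ζ : K12_Tot R × X' → ℝ)
    (z : K12_Tot R × X') :
    ∑ᶠ w, (mc (K12_op (K12_bd R c) (LinearMap.id : ZMap X' X')) z w : ℝ) *
        (∑ᶠ y, (mc (K12_op (K12_sg R) B) y w : ℝ) * ζ y) =
      -∑ᶠ w, (mc (K12_op (K12_sg R) B) w z : ℝ) *
        (∑ᶠ y, (mc (K12_op (K12_bd R c) (LinearMap.id : ZMap X' X')) w y : ℝ) * ζ y) := by
  classical
  obtain ⟨a, b⟩ := z
  rw [K13_left (K12_bd R c) (fun w => ∑ᶠ y, (mc (K12_op (K12_sg R) B) y w : ℝ) * ζ y) a b,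
    K13_right' R B (fun w => ∑ᶠ y, (mc (K12_op (K12_bd R c) (LinearMap.id : ZMap X' X')) w y : ℝ)
      * ζ y) a b]
  simp only [K13_right', K13_left]
  set F : Finset (K12_Tot R) := (K12_bd R c (single a 1)).support with hF
  have hF' : ∀ a', mc (K12_bd R c) a a' ≠ 0 → a' ∈ F := fun a' h => Finsupp.mem_support_iff.2 h
  set E : Finset X' := (hB.fin b).toFinset with hE
  have hE' : ∀ b', mc B b' b ≠ 0 → b' ∈ E := fun b' h => (hB.fin b).mem_toFinset.2 h
  have s1 : ∀ f : K12_Tot R → ℝ, ∑ᶠ a', (mc (K12_bd R c) a a' : ℝ) * f a' =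
      ∑ a' ∈ F, (mc (K12_bd R c) a a' : ℝ) * f a' := by
    intro f
    apply finsum_eq_sum_of_support_subset
    intro a' ha
    rw [Function.mem_support] at ha
    exact Finset.mem_coe.2 (hF' a' fun e => ha (by rw [e]; simp))
  have s2 : ∀ f : X' → ℝ, ∑ᶠ b', (mc B b' b : ℝ) * f b' = ∑ b' ∈ E, (mc B b' b : ℝ) * f b' := by
    intro f
    apply finsum_eq_sum_of_support_subset
    intro b' hb
    rw [Function.mem_support] at hb
    exact Finset.mem_coe.2 (hE' b' fun e => hb (by rw [e]; simp))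
  rw [s1 (fun a' => (-1) ^ a'.1 * ∑ᶠ b', (mc B b' b : ℝ) * ζ (a', b')),
    s2 (fun b' => ∑ᶠ a', (mc (K12_bd R c) a a' : ℝ) * ζ (a', b'))]
  have e1 : ∀ a' ∈ F, (mc (K12_bd R c) a a' : ℝ) *
      ((-1) ^ a'.1 * ∑ᶠ b', (mc B b' b : ℝ) * ζ (a', b')) =
      ∑ b' ∈ E, -((-1) ^ a.1 * ((mc B b' b : ℝ) * ((mc (K12_bd R c) a a' : ℝ) * ζ (a', b')))) := by
    intro a' ha'
    have h1 := K12_mc_bd R c a a' (Finsupp.mem_support_iff.1 ha')
    rw [s2 (fun b' => ζ (a', b')), ← h1, Finset.mul_sum, Finset.mul_sum]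
    refine Finset.sum_congr rfl fun b' _ => ?_
    rw [pow_succ]
    ring
  have e2 : ∀ b' ∈ E, (mc B b' b : ℝ) * ∑ᶠ a', (mc (K12_bd R c) a a' : ℝ) * ζ (a', b') =
      ∑ a' ∈ F, (mc B b' b : ℝ) * ((mc (K12_bd R c) a a' : ℝ) * ζ (a', b')) := by
    intro b' _
    rw [s1 (fun a' => ζ (a', b')), Finset.mul_sum]
  rw [Finset.sum_congr rfl e1, Finset.sum_congr rfl e2, Finset.sum_comm, Finset.mul_sum,
    ← Finset.sum_neg_distrib]
  refine Finset.sum_congr rfl fun b' _ => ?_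
  rw [Finset.mul_sum, ← Finset.sum_neg_distrib]

end sums

section main

variable {G : Type v} [Group G] {G' : Type v'} [Group G'] (R : FreeRes.{u, v} G)
  (R' : FreeRes.{u, v'} G')

/-- the abstract argument: a harmonic vector is harmonic for both boundaries -/
theorem K13_pos {T : Type*} {T1 T2 : ZMap T T} {A1 A2 : ℝ} (h1 : Bd T1 A1) (h2 : Bd T2 A2)
    (ha : ∀ (ζ : T → ℝ) z, ∑ᶠ w, (mc T1 z w : ℝ) * (∑ᶠ y, (mc T2 y w : ℝ) * ζ y) =
      -∑ᶠ w, (mc T2 w z : ℝ) * (∑ᶠ y, (mc T1 w y : ℝ) * ζ y))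
    (ζ : T → ℝ) (hs : Summable fun x => ‖ζ x‖ ^ 2)
    (hc : ∀ z, ∑ᶠ w, (mc (T1 + T2) w z : ℝ) * ζ w = 0)
    (hcc : ∀ z, ∑ᶠ w, (mc (T1 + T2) z w : ℝ) * ζ w = 0) :
    (∀ z, ∑ᶠ w, (mc T1 w z : ℝ) * ζ w = 0) ∧ (∀ z, ∑ᶠ w, (mc T1 z w : ℝ) * ζ w = 0) ∧
    (∀ z, ∑ᶠ w, (mc T2 w z : ℝ) * ζ w = 0) ∧ (∀ z, ∑ᶠ w, (mc T2 z w : ℝ) * ζ w = 0) := by
  set x : L2 ℝ T := toL2 ζ hs with hx
  set U1 := opL (K := ℝ) T1 h1 with hU1
  set U2 := opL (K := ℝ) T2 h2 with hU2
  set V1 := ContinuousLinearMap.adjoint U1 with hV1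
  set V2 := ContinuousLinearMap.adjoint U2 with hV2
  have u1 : ∀ z, U1 x z = ∑ᶠ w, (mc T1 w z : ℝ) * ζ w := fun z => rfl
  have u2 : ∀ z, U2 x z = ∑ᶠ w, (mc T2 w z : ℝ) * ζ w := fun z => rfl
  have v1 : ∀ z, V1 x z = ∑ᶠ w, (mc T1 z w : ℝ) * ζ w := fun z => K13_adj_apply h1 x z
  have v2 : ∀ z, V2 x z = ∑ᶠ w, (mc T2 z w : ℝ) * ζ w := fun z => K13_adj_apply h2 x z
  have e1 : U1 x + U2 x = 0 := by
    apply lp.ext
    funext z
    show U1 x z + U2 x z = 0
    rw [← hc z]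
    exact (congrFun (push_add_left T1 T2 h1 h2 ζ) z).symm
  have e2 : V1 x + V2 x = 0 := by
    apply lp.ext
    funext z
    show V1 x z + V2 x z = 0
    rw [v1, v2, ← hcc z, ← finsum_add_distrib]
    · apply finsum_congr
      intro w
      have : mc (T1 + T2) z w = mc T1 z w + mc T2 z w := rfl
      rw [this]
      push_cast
      ring
    · refine (T1 (single z 1)).support.finite_toSet.subset fun w hw => ?_
      rw [Function.mem_support] at hw
      exact Finset.mem_coe.2 (Finsupp.mem_support_iff.2 fun e => hw (by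
        have : mc T1 z w = 0 := e
        rw [this]; simp))
    · refine (T2 (single z 1)).support.finite_toSet.subset fun w hw => ?_
      rw [Function.mem_support] at hw
      exact Finset.mem_coe.2 (Finsupp.mem_support_iff.2 fun e => hw (by
        have : mc T2 z w = 0 := e
        rw [this]; simp))
  have e3 : V1 (U2 x) = -(U2 (V1 x)) := by
    apply lp.ext
    funext z
    show V1 (U2 x) z = -(U2 (V1 x) z)
    rw [hV1, hU1, K13_adj_apply h1 (U2 x) z]
    have r1 : U2 (V1 x) z = ∑ᶠ w, (mc T2 w z : ℝ) * V1 x w := rfl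
    rw [r1]
    simp only [v1, u2]
    exact ha ζ z
  have e4 : U2 x = -(U1 x) := by
    rw [eq_neg_iff_add_eq_zero, add_comm]; exact e1
  have e5 : V2 x = -(V1 x) := by
    rw [eq_neg_iff_add_eq_zero, add_comm]; exact e2
  have i1 : inner ℝ (U1 x) (U2 x) = inner ℝ x (V1 (U2 x)) :=
    (ContinuousLinearMap.adjoint_inner_right U1 x (U2 x)).symm
  have i2 : inner ℝ x (U2 (V1 x)) = inner ℝ (V2 x) (V1 x) :=
    (ContinuousLinearMap.adjoint_inner_left U2 (V1 x) x).symm
  have i3 : inner ℝ (U1 x) (U2 x) = -inner ℝ (V2 x) (V1 x) := by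
    rw [i1, e3, inner_neg_right, i2]
  rw [e4, e5, inner_neg_right, inner_neg_left, neg_neg, real_inner_self_eq_norm_sq,
    real_inner_self_eq_norm_sq] at i3
  have n1 := sq_nonneg ‖U1 x‖
  have n2 := sq_nonneg ‖V1 x‖
  have z1 : U1 x = 0 := by
    rw [← norm_eq_zero, ← sq_eq_zero_iff]
    linarith
  have z2 : V1 x = 0 := by
    rw [← norm_eq_zero, ← sq_eq_zero_iff]
    linarith
  have z3 : U2 x = 0 := by rw [e4, z1, neg_zero]
  have z4 : V2 x = 0 := by rw [e5, z2, neg_zero]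
  refine ⟨fun z => ?_, fun z => ?_, fun z => ?_, fun z => ?_⟩
  · rw [← u1, z1]; rfl
  · rw [← v1, z2]; rfl
  · rw [← u2, z3]; rfl
  · rw [← v2, z4]; rfl

theorem K13_D_cut (N : ℕ) (z w : K12_Tot R × K12_Tot R') (h : K12_deg R R' z ≤ N) :
    mc (K12_D R R' (K13_cut N) (K13_cut N)) z w = mc (K12_D R R' 1 1) z w := by
  have h0 : ∀ c : ℕ → ℤ, mc (K12_D R R' c c) z w =
      mc (K12_op (K12_bd R c) LinearMap.id) z w + mc (K12_op (K12_sg R) (K12_bd R' c)) z w :=
    fun c => rfl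
  unfold K12_deg at h
  have h1 : K13_cut N z.1.1 = 1 := if_pos (by omega)
  have h2 : K13_cut N z.2.1 = 1 := if_pos (by omega)
  rw [h0, h0, K12_mc_op, K12_mc_op, K12_mc_op, K12_mc_op, K13_weight R, K13_weight R' (K13_cut N),
    h1, h2, one_mul, one_mul]

theorem K13_coef (n : ℕ) (x : K12_Cell (K12_deg R R') (n + 1)) (y : K12_Cell (K12_deg R R') n) :
    (K12_prod R R').coef n x y = mc (K12_D R R' 1 1) x.1 y.1 := by
  show K12_D R R' 1 1 (K12_j (K12_deg R R') (n + 1) (single x 1)) y.1 = _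
  rw [K12_j_single]
  rfl

theorem K13_harm (n : ℕ) (ξ : K12_Cell (K12_deg R R') n → ℝ)
    (hξ : (K12_prod R R').IsHarm n ξ) :
    (Summable fun x : K12_Cell (K12_deg R R') n => ‖ξ x‖ ^ 2) ∧
    (∀ z : K12_Cell (K12_deg R R') (n + 1),
      ∑ᶠ x : K12_Cell (K12_deg R R') n, (mc (K12_D R R' 1 1) z.1 x.1 : ℝ) * ξ x = 0) ∧
    ∀ z, K12_deg R R' z + 1 = n →
      ∑ᶠ x : K12_Cell (K12_deg R R') n, (mc (K12_D R R' 1 1) x.1 z : ℝ) * ξ x = 0 := by
  refine ⟨hξ.sq, fun z => ?_, fun z hz => ?_⟩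
  · have h1 : ∑ᶠ x : K12_Cell (K12_deg R R') n, ((K12_prod R R').coef n z x : ℝ) * ξ x = 0 :=
      hξ.cocyc z
    rw [← h1]
    exact finsum_congr fun x => by rw [K13_coef]
  · subst hz
    have h1 : ∑ᶠ x : K12_Cell (K12_deg R R') (K12_deg R R' z + 1),
        ((K12_prod R R').coef (K12_deg R R' z) x (⟨z, rfl⟩ : K12_Cell (K12_deg R R')
          (K12_deg R R' z)) : ℝ) * ξ x = 0 := hξ.cyc (⟨z, rfl⟩ : K12_Cell (K12_deg R R') _)
    rw [← h1]
    exact finsum_congr fun x => by rw [K13_coef]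

/-- K12 + K13 -/
theorem exists_prod {G : Type v} [Group G] {G' : Type v'} [Group G'] (R : FreeRes.{u, v} G)
    (R' : FreeRes.{u, v'} G') :
    ∃ P : FreeRes.{u, max v v'} (G × G'), ∀ n,
      (∀ p q, p + q = n → R.HarmZero ℝ p ∨ R'.HarmZero ℝ q) → P.HarmZero ℝ n := by
  refine ⟨K12_prod R R', fun n hn => ?_⟩
  suffices main : ∀ ξ : K12_Cell (K12_deg R R') n → ℝ, (K12_prod R R').IsHarm n ξ → ξ = 0 from main
  intro ξ hξ
  obtain ⟨hsq, hco, hcy⟩ := K13_harm R R' n ξ hξ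
  obtain ⟨A, hA⟩ := K13_bd_bd R (n + 1)
  obtain ⟨A', hA'⟩ := K13_bd_bd R' (n + 1)
  have hT1 : Bd (K12_op (K12_bd R (K13_cut (n + 1)))
      (LinearMap.id : ZMap (K12_Tot R') (K12_Tot R'))) (A * 1) := K13_bd_op hA K13_bd_id
  have hT2 : Bd (K12_op (K12_sg R) (K12_bd R' (K13_cut (n + 1)))) (1 * A') :=
    K13_bd_op (K13_bd_sg R) hA'
  obtain ⟨ζ, hζ, hζ'⟩ : ∃ ζ : K12_Tot R × K12_Tot R' → ℝ,
      (∀ z, ζ z ≠ 0 → K12_deg R R' z = n) ∧
      ∀ z : K12_Cell (K12_deg R R') n, ζ z.1 = ξ z := by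
    classical
    refine ⟨fun z => if h : K12_deg R R' z = n then ξ ⟨z, h⟩ else 0, fun z hz => ?_, fun z => ?_⟩
    · by_contra h
      apply hz
      show (if h : K12_deg R R' z = n then ξ ⟨z, h⟩ else 0) = 0
      rw [dif_neg h]
    · show (if h : K12_deg R R' z.1 = n then ξ ⟨z.1, h⟩ else 0) = ξ z
      rw [dif_pos z.2]
  have hsum : Summable fun z => ‖ζ z‖ ^ 2 := by
    have h1 := hsq
    have h2 : (fun x : K12_Cell (K12_deg R R') n => ‖ξ x‖ ^ 2) =
        (fun z => ‖ζ z‖ ^ 2) ∘ (Subtype.val : K12_Cell (K12_deg R R') n → _) := by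
      funext x
      rw [Function.comp_apply, hζ']
    rw [h2] at h1
    refine (Function.Injective.summable_iff Subtype.val_injective ?_).1 h1
    intro z hz
    have : ζ z = 0 := by
      by_contra h
      exact hz ⟨⟨z, hζ z h⟩, rfl⟩
    rw [this]; simp
  have hcyc : ∀ z, ∑ᶠ w, (mc (K12_op (K12_bd R (K13_cut (n + 1))) LinearMap.id +
      K12_op (K12_sg R) (K12_bd R' (K13_cut (n + 1)))) w z : ℝ) * ζ w = 0 := by
    intro z
    have h1 : ∀ w, (mc (K12_op (K12_bd R (K13_cut (n + 1))) LinearMap.id +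
        K12_op (K12_sg R) (K12_bd R' (K13_cut (n + 1)))) w z : ℝ) * ζ w =
        (mc (K12_D R R' 1 1) w z : ℝ) * ζ w := by
      intro w
      by_cases h : ζ w = 0
      · rw [h, mul_zero, mul_zero]
      · rw [← K13_D_cut R R' (n + 1) w z (by rw [hζ w h]; omega)]
        rfl
    rw [finsum_congr h1]
    by_cases hz : K12_deg R R' z + 1 = n
    · rw [K13_finsum_inj (Subtype.val : K12_Cell (K12_deg R R') n → _)
        Subtype.val_injective]
      · rw [← hcy z hz]
        apply finsum_congr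
        intro x
        rw [hζ']
      · intro w hw
        exact ⟨⟨w, hζ w (fun e => hw (by rw [e, mul_zero]))⟩, rfl⟩
    · refine (finsum_congr fun w => ?_).trans finsum_zero
      by_contra h
      have h2 := hζ w (fun e => h (by rw [e, mul_zero]))
      have h3 := K12_low R R' 1 1 w z (fun e => h (by rw [e]; simp))
      omega
  have hcoc : ∀ z, ∑ᶠ w, (mc (K12_op (K12_bd R (K13_cut (n + 1))) LinearMap.id +
      K12_op (K12_sg R) (K12_bd R' (K13_cut (n + 1)))) z w : ℝ) * ζ w = 0 := by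
    intro z
    by_cases hz : K12_deg R R' z = n + 1
    · have h1 : ∀ w, (mc (K12_op (K12_bd R (K13_cut (n + 1))) LinearMap.id +
          K12_op (K12_sg R) (K12_bd R' (K13_cut (n + 1)))) z w : ℝ) * ζ w =
          (mc (K12_D R R' 1 1) z w : ℝ) * ζ w := by
        intro w
        rw [← K13_D_cut R R' (n + 1) z w (by rw [hz])]
        rfl
      rw [finsum_congr h1, K13_finsum_inj (Subtype.val : K12_Cell (K12_deg R R') n → _)
        Subtype.val_injective]
      · rw [← hco ⟨z, hz⟩]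
        apply finsum_congr
        intro x
        rw [hζ']
      · intro w hw
        exact ⟨⟨w, hζ w (fun e => hw (by rw [e, mul_zero]))⟩, rfl⟩
    · refine (finsum_congr fun w => ?_).trans finsum_zero
      by_contra h
      have h2 := hζ w (fun e => h (by rw [e, mul_zero]))
      have h3 := K12_low R R' (K13_cut (n + 1)) (K13_cut (n + 1)) z w
        (fun e => h (by
          have : mc (K12_op (K12_bd R (K13_cut (n + 1))) LinearMap.id +
            K12_op (K12_sg R) (K12_bd R' (K13_cut (n + 1)))) z w = 0 := e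
          rw [this]; simp))
      omega
  obtain ⟨r1, r2, r3, r4⟩ := K13_pos hT1 hT2 (fun ζ z => K13_anti R (K13_cut (n + 1)) hA' ζ z)
    ζ hsum hcyc hcoc
  funext z
  obtain ⟨⟨⟨p, x⟩, ⟨q, y⟩⟩, hz⟩ := z
  have hpq : p + q = n := hz
  have hcp : K13_cut (n + 1) (p + 1) = 1 := if_pos (by omega)
  have hcq : K13_cut (n + 1) (q + 1) = 1 := if_pos (by omega)
  have hlast := hζ' ⟨(⟨p, x⟩, ⟨q, y⟩), hz⟩
  rw [← hlast]
  show ζ (⟨p, x⟩, ⟨q, y⟩) = 0
  rcases hn p q hpq with h | h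
  · have h1 : R.IsHarm p (fun x : R.X p => ζ (⟨p, x⟩, ⟨q, y⟩)) := by
      refine ⟨?_, ?_, ?_⟩
      · exact hsum.comp_injective (i := fun x : R.X p => ((⟨p, x⟩, ⟨q, y⟩) : K12_Tot R × K12_Tot R'))
          (fun a b e => sigma_mk_injective (congrArg Prod.fst e))
      · intro z
        have h2 := r2 (⟨p + 1, z⟩, ⟨q, y⟩)
        rw [K13_left, K13_coface R _ p hcp] at h2
        exact h2
      · cases p with
        | zero => trivial
        | succ p =>
          intro z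
          have h2 := r1 (⟨p, z⟩, ⟨q, y⟩)
          rw [K13_left', K13_face R _ p (if_pos (by omega))] at h2
          exact h2
    exact congrFun (h _ h1) x
  · have h1 : R'.IsHarm q (fun y : R'.X q => ζ (⟨p, x⟩, ⟨q, y⟩)) := by
      refine ⟨?_, ?_, ?_⟩
      · exact hsum.comp_injective (i := fun y : R'.X q => ((⟨p, x⟩, ⟨q, y⟩) : K12_Tot R × K12_Tot R'))
          (fun a b e => sigma_mk_injective (congrArg Prod.snd e))
      · intro z
        have h2 := r4 (⟨p, x⟩, ⟨q + 1, z⟩)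
        rw [K13_right, K13_coface R' _ q hcq] at h2
        exact (mul_eq_zero.1 h2).resolve_left (pow_ne_zero _ (by norm_num))
      · cases q with
        | zero => trivial
        | succ q =>
          intro z
          have h2 := r3 (⟨p, x⟩, ⟨q, z⟩)
          rw [K13_right', K13_face R' _ q (if_pos (by omega))] at h2
          exact (mul_eq_zero.1 h2).resolve_left (pow_ne_zero _ (by norm_num))
    exact congrFun (h _ h1) y

end main

end GP

end OS
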