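import Mathlib
import Pool.Agent.Lib.MP_8fe54c_gt.FreeRes
import Pool.Agent.Lib.MP_8fe54c_gt.KProdH

/-!
# PROJECT K (MP_8fe54c_gt), module K14: free resolutions of finite products of groups
-/

namespace OS

namespace GP

open Finsupp MulOpposite

universe u v w u' v' w'

/-- transport of a resolution along an isomorphism -/
theorem K14_transport {Γ : Type v} [Group Γ] {A : Type v'} [Group A] (e : A ≃* Γ)
    (P : FreeRes.{u, v} Γ) :
    ∃ P' : FreeRes.{u, v'} A, ∀ n, P.HarmZero ℝ n → P'.HarmZero ℝ n := by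
  have hr : e.toMonoidHom.range = ⊤ := MonoidHom.range_eq_top.2 e.surjective
  have : e.toMonoidHom.range.FiniteIndex := by
    rw [hr]
    infer_instance
  exact ⟨P.comap e.toMonoidHom e.injective, fun n h => (P.comap_harmZero _ _ n).2 h⟩

/-- the resolution of a trivial group with a single cell -/
noncomputable def K14_triv (A : Type v) [Group A] [Subsingleton A] : FreeRes.{u, v} A where
  X k := match k with
    | 0 => PUnit.{u + 1}
    | _ + 1 => PEmpty.{u + 1}
  act k :=
    { smul := fun _ x => x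
      one_smul := fun _ => rfl
      mul_smul := fun _ _ _ => rfl }
  free _ _ _ _ := Subsingleton.elim _ _
  fin k := by
    cases k with
    | zero => exact ⟨{PUnit.unit}, fun x => ⟨1, PUnit.unit, by simp, rfl⟩⟩
    | succ k => exact ⟨∅, fun x => x.elim⟩
  d _ := 0
  eps := Finsupp.lapply PUnit.unit
  d_act k g c := by simp
  eps_act g c := by
    change (gact g c) PUnit.unit = c PUnit.unit
    rw [gact_apply]
  eps_surj := ⟨Finsupp.single PUnit.unit 1, by simp⟩
  eps_d c := by simp
  d_d k c := by simp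
  exact0 c h := by
    refine ⟨0, ?_⟩
    rw [map_zero]
    refine Finsupp.ext fun x => ?_
    exact h.symm
  exact k c h := by
    refine ⟨0, ?_⟩
    rw [map_zero]
    refine Finsupp.ext fun x => ?_
    exact x.elim

theorem K14_triv_harmZero (A : Type v) [Group A] [Subsingleton A] (n : ℕ) (hn : n ≠ 0) :
    (K14_triv.{u, v} A).HarmZero ℝ n := by
  obtain ⟨k, rfl⟩ := Nat.exists_eq_succ_of_ne_zero hn
  intro ξ _
  funext x
  exact PEmpty.elim x

/-- the statement of `exists_pi`, for the induction -/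
def K14_P (ι : Type w) [Fintype ι] : Prop :=
  ∀ (G : ι → Type v) [∀ i, Group (G i)] (R : ∀ i, FreeRes.{u, v} (G i)),
    ∃ P : FreeRes.{u, max v w} (∀ i, G i), ∀ n,
      (∀ e : ι → ℕ, ∑ i, e i = n → ∃ i, (R i).HarmZero ℝ (e i)) → P.HarmZero ℝ n

theorem K14_empty : K14_P.{u, v, w} PEmpty.{w + 1} := by
  intro G _ R
  have : Subsingleton (∀ i, G i) := ⟨fun a b => funext fun i => i.elim⟩
  refine ⟨K14_triv _, fun n h => K14_triv_harmZero _ n ?_⟩
  rintro rfl
  obtain ⟨i, _⟩ := h (fun _ => 0) (by simp)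
  exact i.elim

theorem K14_option {α : Type w} [Fintype α] (ih : K14_P.{u, v, w} α) :
    K14_P.{u, v, w} (Option α) := by
  intro G _ R
  obtain ⟨P₁, hP₁⟩ := ih (fun i => G (Option.some i)) (fun i => R (Option.some i))
  obtain ⟨P₂, hP₂⟩ := exists_prod (R Option.none) P₁
  let e : (∀ i, G i) ≃* G Option.none × (∀ i, G (Option.some i)) :=
    { toFun := fun f => (f Option.none, fun i => f (Option.some i))
      invFun := fun p i => match i with
        | Option.none => p.1
        | Option.some j => p.2 j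
      left_inv := fun f => by
        funext i
        cases i <;> rfl
      right_inv := fun p => rfl
      map_mul' := fun f g => rfl }
  obtain ⟨P₃, hP₃⟩ := K14_transport e P₂
  refine ⟨P₃, fun n h => hP₃ n (hP₂ n fun p q hpq => ?_)⟩
  by_contra hcon
  rw [not_or] at hcon
  refine hcon.2 (hP₁ q fun c hc => ?_)
  obtain ⟨i, hi⟩ := h (fun i => Option.elim i p c) (by
    rw [Fintype.sum_option]
    change p + ∑ i, c i = n
    rw [hc, hpq])
  cases i with
  | none => exact absurd hi hcon.1
  | some j => exact ⟨j, hi⟩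

theorem K14_equiv {α β : Type w} [Fintype β] (e : α ≃ β)
    (ih : @K14_P.{u, v, w} α (Fintype.ofEquiv β e.symm)) : K14_P.{u, v, w} β := by
  intro G _ R
  let _ : Fintype α := Fintype.ofEquiv β e.symm
  obtain ⟨P, hP⟩ := ih (fun i => G (e i)) (fun i => R (e i))
  let f : (∀ b, G b) ≃* (∀ a, G (e a)) :=
    { Equiv.piCongrLeft' G e.symm with
      map_mul' := fun f g => rfl }
  obtain ⟨P', hP'⟩ := K14_transport f P
  refine ⟨P', fun n h => hP' n (hP n fun c hc => ?_)⟩
  obtain ⟨i, hi⟩ := h (fun b => c (e.symm b)) (by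
    rw [← hc]
    exact e.symm.sum_comp c)
  refine ⟨e.symm i, ?_⟩
  have h1 : ∀ j, j = i → (R j).HarmZero ℝ (c (e.symm i)) := by
    rintro j rfl
    exact hi
  exact h1 _ (e.apply_symm_apply i)

/-- K14 (file KPi) -/
theorem exists_pi {ι : Type w} [Fintype ι] (G : ι → Type v) [∀ i, Group (G i)]
    (R : ∀ i, FreeRes.{u, v} (G i)) :
    ∃ P : FreeRes.{u, max v w} (∀ i, G i), ∀ n,
      (∀ e : ι → ℕ, ∑ i, e i = n → ∃ i, (R i).HarmZero ℝ (e i)) → P.HarmZero ℝ n := by
  have h : K14_P.{u, v, w} ι := by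
    refine Fintype.induction_empty_option (P := fun α _ => K14_P.{u, v, w} α) ?_ ?_ ?_ ι
    · intro α β _ e h
      exact K14_equiv e h
    · exact K14_empty
    · intro α _ h
      exact K14_option h
  exact h G R

end GP

end OS
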