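import Mathlib
import Pool.Agent.Lib.MP_8fe54c_gt.KHarm
import Pool.Agent.Lib.MP_8fe54c_gt.KLap
import Pool.Agent.Lib.MP_8fe54c_gt.KShap
import Pool.Agent.Lib.MP_8fe54c_gt.KEng
import Pool.Agent.Lib.MP_8fe54c_gt.KPi
import Pool.Agent.Lib.MP_8fe54c_gt.GPGrp
import Pool.Agent.Lib.MP_8fe54c_gt.GPTree
import Pool.Agent.Lib.MP_8fe54c_gt.ArtCub

/-!
# The l2 theorem for graph products (modules K18' and K19)
-/

namespace OS

namespace GP

open Finsupp MulOpposite

universe u v w u' v' w'

/-! ## K18': exactness of the cubical complex of a graph product -/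

theorem K19_cliq_down {V : Type v} (L : SimpleGraph V) :
    ∀ s t : Finset V, s ⊆ t → cliq L t → cliq L s :=
  fun _ _ h ht => Set.Pairwise.mono (Finset.coe_subset.2 h) ht

theorem K19_cliq_empty {V : Type v} (L : SimpleGraph V) : cliq L ∅ := by
  unfold cliq
  rw [Finset.coe_empty]
  exact Set.pairwise_empty _

theorem K19_pr_surj {V : Type v} (L : SimpleGraph V) (G : V → Type w) [∀ v, Group (G v)]
    (s t : Finset V) (h : s ⊆ t) : Function.Surjective ((gpSys L G).pr h) := by
  intro x
  change GraphProd L G ⧸ sgp L G (t : Set V) at x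
  induction x using QuotientGroup.induction_on with
  | H g => exact ⟨(QuotientGroup.mk g : GraphProd L G ⧸ sgp L G (s : Set V)), rfl⟩

instance K19_nonempty {V : Type v} (L : SimpleGraph V) (G : V → Type w) [∀ v, Group (G v)]
    (s : Finset V) : Nonempty ((gpSys L G).Q s) :=
  ⟨(QuotientGroup.mk (1 : GraphProd L G) : GraphProd L G ⧸ sgp L G (s : Set V))⟩

instance K19_subsingleton {V : Type v} [Fintype V] (L : SimpleGraph V) (G : V → Type w)
    [∀ v, Group (G v)] : Subsingleton ((gpSys L G).Q Finset.univ) := by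
  change Subsingleton (GraphProd L G ⧸ sgp L G ((Finset.univ : Finset V) : Set V))
  rw [Finset.coe_univ, sgp_univ]
  exact QuotientGroup.subsingleton_quotient_top

/-- K18' (file GPExact) -/
theorem gp_exact {V : Type v} [Fintype V] [LinearOrder V] (L : SimpleGraph V) (G : V → Type w)
    [∀ v, Group (G v)] (A : Type*) [AddCommGroup A] : DExact (gpSys L G) (cliq L) A := by
  refine dexact_of_trees (gpSys L G) (cliq L) (K19_cliq_down L) A (K19_pr_surj L G) ?_
  intro T hT
  have hT' : ∃ s ∈ T, ∃ t ∈ T, s ≠ t ∧ ¬ L.Adj s t := by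
    by_contra hcon
    push Not at hcon
    exact hT fun s hs t ht hst => hcon s hs t ht hst
  obtain ⟨s, hs, t, ht, hst, hadj⟩ := hT'
  refine ⟨s, hs, t, ht, hst, ?_, ?_⟩
  · intro h
    exact hadj (h (Finset.mem_coe.2 (Finset.mem_insert_self s {t}))
      (Finset.mem_coe.2 (Finset.mem_insert_of_mem (Finset.mem_singleton_self t))) hst)
  · intro h1 h2 h3 h4
    exact gp_tree L G A T s t hs ht hst hadj

/-! ## K19 (file GPL2): the l2 theorem for graph products -/

instance K19_act {V : Type v} (L : SimpleGraph V) (G : V → Type w) [∀ v, Group (G v)]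
    (σ : Finset V) : MulAction (GraphProd L G) ((gpSys L G).Q σ) :=
  inferInstanceAs (MulAction (GraphProd L G) (GraphProd L G ⧸ sgp L G (σ : Set V)))

theorem gp_l2 {V : Type v} [Fintype V] [LinearOrder V] (L : SimpleGraph V) (G : V → Type v)
    [∀ v, Group (G v)] (Rv : ∀ v, FreeRes.{u, v} (G v)) (R : FreeRes.{u', v} (GraphProd L G))
    (n : ℕ)
    (h : ∀ σ : Finset V, cliq L σ → ∀ (e : σ → ℕ) (q : ℕ), ∑ v, e v + q = n →
      (∃ v : σ, (Rv v.1).HarmZero ℝ (e v)) ∨ RAc (lk (cliq L) σ) q) :
    R.HarmZero ℝ n := by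
  refine harmZero_of_HV R n ?_
  refine engine R (UM (GraphProd L G)) (gpSys L G) (fun g σ τ hστ x => ?_) (cliq L)
    (K19_cliq_down L) (K19_cliq_empty L) (gp_exact L G _) n ?_
  · change GraphProd L G ⧸ sgp L G (σ : Set V) at x
    induction x using QuotientGroup.induction_on with
    | H y => rfl
  intro σ hσ p q hpq
  by_cases hq : RAc (lk (cliq L) σ) q
  · exact Or.inr hq
  refine Or.inl (HV_set_of_stab R _ (UM (GraphProd L G)) p ?_)
  intro x
  obtain ⟨φ, hφ, hrange⟩ := exists_clique (L := L) (G := G) σ hσ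
  obtain ⟨P, hP⟩ := exists_pi (fun v : σ => G v.1) (fun v : σ => Rv v.1)
  have hPz : P.HarmZero ℝ p := by
    refine hP p fun e he => ?_
    rcases h σ hσ e q (by rw [he]; exact hpq) with h1 | h1
    · exact h1
    · exact absurd h1 hq
  change GraphProd L G ⧸ sgp L G (σ : Set V) at x
  induction x using QuotientGroup.induction_on with
  | H g =>
    refine ⟨∀ v : σ, G v.1, inferInstance, (MulAut.conj g).toMonoidHom.comp φ, P, ?_, ?_, ?_⟩
    · exact (MulAut.conj g).injective.comp hφ
    · rw [MonoidHom.range_comp, hrange]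
      ext y
      rw [Subgroup.mem_map, MulAction.mem_stabilizer_iff]
      constructor
      · rintro ⟨z, hz, rfl⟩
        change (QuotientGroup.mk (g * z * g⁻¹ * g) : GraphProd L G ⧸ sgp L G (σ : Set V)) =
          QuotientGroup.mk g
        rw [inv_mul_cancel_right, QuotientGroup.mk_mul_of_mem g hz]
      · intro hy
        change (QuotientGroup.mk (y * g) : GraphProd L G ⧸ sgp L G (σ : Set V)) =
          QuotientGroup.mk g at hy
        rw [eq_comm, QuotientGroup.eq] at hy
        refine ⟨g⁻¹ * (y * g), hy, ?_⟩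
        change g * (g⁻¹ * (y * g)) * g⁻¹ = y
        group
    · refine HV_of_harmZero _ ?_ P p hPz
      exact (MulAut.conj g).injective.comp hφ

end GP

end OS
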