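import Mathlib
import Pool.Agent.Lib.MP_8fe54c_gt.GPDefs
import Pool.Agent.Lib.MP_8fe54c_gt.KCent

/-!
# Groups with a resolution of finite type are finitely generated; the base case of the class
(project K, module K24)
-/

namespace OS

namespace GP

open Finsupp

universe u v

/-- a group with a resolution of finite type is finitely generated -/
theorem fg_of_freeRes {Γ : Type v} [Group Γ] (R : FreeRes.{u, v} Γ) :
    ∃ S : Finset Γ, Subgroup.closure (S : Set Γ) = ⊤ := by
  classical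
  let rep : R.X 0 → R.X 0 := fun x => Quotient.out (Quotient.mk (MulAction.orbitRel Γ (R.X 0)) x)
  have hrep : ∀ x, ∃ g : Γ, g • rep x = x := by
    intro x
    have h1 : (MulAction.orbitRel Γ (R.X 0)) x (rep x) :=
      (MulAction.orbitRel Γ (R.X 0)).symm (Quotient.mk_out (s := MulAction.orbitRel Γ (R.X 0)) x)
    exact MulAction.orbitRel_apply.1 h1
  have hrep2 : ∀ (g : Γ) x, rep (g • x) = rep x := by
    intro g x
    show Quotient.out _ = Quotient.out _
    congr 1
    apply Quotient.sound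
    exact MulAction.orbitRel_apply.2 ⟨g, rfl⟩
  choose g hg using hrep
  have hg2 : ∀ (a : Γ) x, g (a • x) = a * g x := by
    intro a x
    apply R.eq_of_smul_eq (x := rep x)
    have h1 := hg (a • x)
    rw [hrep2] at h1
    rw [h1, mul_smul, hg]
  obtain ⟨s1, hs1⟩ := R.fin 1
  let S : Finset Γ := s1.biUnion fun e =>
    ((R.d 0 (single e 1)).support ×ˢ (R.d 0 (single e 1)).support).image
      fun p => (g p.1)⁻¹ * g p.2
  refine ⟨S, ?_⟩
  set H := Subgroup.closure (S : Set Γ) with hH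
  have hlam : ∀ e ∈ s1, ∀ x ∈ (R.d 0 (single e 1)).support,
      ∀ x' ∈ (R.d 0 (single e 1)).support, ((g x : Γ) : Γ ⧸ H) = ((g x' : Γ) : Γ ⧸ H) := by
    intro e he x hx x' hx'
    rw [QuotientGroup.eq]
    refine Subgroup.subset_closure ?_
    refine Finset.mem_coe.2 (Finset.mem_biUnion.2 ⟨e, he, Finset.mem_image.2 ⟨(x, x'), ?_, rfl⟩⟩)
    exact Finset.mem_product.2 ⟨hx, hx'⟩
  let lam : R.X 0 → Γ ⧸ H := fun x => ((g x : Γ) : Γ ⧸ H)
  have lam_smul : ∀ (a : Γ) x, lam (a • x) = a • lam x := by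
    intro a x
    show ((g (a • x) : Γ) : Γ ⧸ H) = a • ((g x : Γ) : Γ ⧸ H)
    rw [hg2]
    rfl
  let Λ : (R.X 0 →₀ ℤ) →ₗ[ℤ] (Γ ⧸ H →₀ ℤ) :=
    Finsupp.lsum ℤ fun x => (R.eps (single x 1)) • Finsupp.lsingle (lam x)
  have hΛ : ∀ x n, Λ (single x n) = single (lam x) (R.eps (single x 1) * n) := by
    intro x n
    simp [Λ]
  have heps : ∀ (a : Γ) x, R.eps (single (a • x) 1) = R.eps (single x 1) := by
    intro a x
    rw [← gact_single, R.eps_act]
  have hΛg : ∀ (a : Γ) c, Λ (gact a c) = gact a (Λ c) := by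
    intro a c
    induction c using Finsupp.induction_linear with
    | zero => simp only [map_zero]
    | add b c hb hc => simp only [map_add, hb, hc]
    | single x n => rw [gact_single, hΛ, hΛ, gact_single, lam_smul, heps]
  let tot : (Γ ⧸ H →₀ ℤ) →ₗ[ℤ] ℤ := Finsupp.lsum ℤ fun _ => LinearMap.id
  have htot : ∀ c, tot (Λ c) = R.eps c := by
    intro c
    induction c using Finsupp.induction_linear with
    | zero => simp only [map_zero]
    | add b c hb hc => simp only [map_add, hb, hc]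
    | single x n =>
      rw [hΛ]
      have e : (single x n : R.X 0 →₀ ℤ) = n • single x 1 := by simp
      conv_rhs => rw [e, map_smul, smul_eq_mul, mul_comm]
      show (single (lam x) (R.eps (single x 1) * n)).sum (fun _ k => (LinearMap.id : ℤ →ₗ[ℤ] ℤ) k) = _
      exact Finsupp.sum_single_index (h := fun _ k => (LinearMap.id : ℤ →ₗ[ℤ] ℤ) k) (map_zero _)
  have hΛd1 : ∀ e ∈ s1, Λ (R.d 0 (single e 1)) = 0 := by
    intro e he
    have h1 : ∀ c : R.X 0 →₀ ℤ, (∀ x ∈ c.support, x ∈ (R.d 0 (single e 1)).support) →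
        ∀ x0 ∈ (R.d 0 (single e 1)).support, Λ c = single (lam x0) (R.eps c) := by
      intro c hc x0 hx0
      have h2 : c = ∑ x ∈ c.support, single x (c x) := (Finsupp.sum_single c).symm
      conv_lhs => rw [h2, map_sum]
      conv_rhs => rw [h2, map_sum, Finsupp.single_finset_sum]
      refine Finset.sum_congr rfl fun x hx => ?_
      rw [hΛ]
      have h3 : lam x = lam x0 := hlam e he x (hc x hx) x0 hx0
      have e : (single x (c x) : R.X 0 →₀ ℤ) = c x • single x 1 := by simp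
      rw [h3, e, map_smul, smul_eq_mul, mul_comm]
    by_cases h0 : (R.d 0 (single e 1)).support.Nonempty
    · obtain ⟨x0, hx0⟩ := h0
      rw [h1 _ (fun x hx => hx) x0 hx0, R.eps_d, single_zero]
    · rw [Finset.not_nonempty_iff_eq_empty, Finsupp.support_eq_empty] at h0
      rw [h0, map_zero]
  have hΛd : ∀ c, Λ (R.d 0 c) = 0 := by
    intro c
    induction c using Finsupp.induction_linear with
    | zero => simp only [map_zero]
    | add b c hb hc => simp only [map_add, hb, hc, add_zero]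
    | single x n =>
      obtain ⟨a, e, he, rfl⟩ := hs1 x
      have e' : (single (a • e) n : R.X 1 →₀ ℤ) = n • gact a (single e 1) := by
        rw [gact_single]; simp
      rw [e', map_smul, map_smul, R.d_act, hΛg, hΛd1 e he, map_zero, smul_zero]
  obtain ⟨c0, hc0⟩ := R.eps_surj
  have hw : ∀ a : Γ, gact a (Λ c0) = Λ c0 := by
    intro a
    have h1 : R.eps (gact a c0 - c0) = 0 := by rw [map_sub, R.eps_act, sub_self]
    obtain ⟨b, hb⟩ := R.exact0 _ h1
    have h2 := hΛd b
    rw [hb, map_sub, hΛg, sub_eq_zero] at h2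
    exact h2
  have hconst : ∀ q : Γ ⧸ H, Λ c0 q = Λ c0 ((1 : Γ) : Γ ⧸ H) := by
    intro q
    induction q using QuotientGroup.induction_on with
    | H a =>
      have h1 := congrArg (fun f : Γ ⧸ H →₀ ℤ => f ((a : Γ) : Γ ⧸ H)) (hw a)
      simp only [gact_apply] at h1
      rw [← h1]
      congr 1
      show ((a⁻¹ * a : Γ) : Γ ⧸ H) = _
      rw [inv_mul_cancel]
  have htot1 : tot (Λ c0) = 1 := by rw [htot, hc0]
  have hne : Λ c0 ((1 : Γ) : Γ ⧸ H) ≠ 0 := by
    intro h0
    have h1 : Λ c0 = 0 := by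
      ext q
      rw [hconst, h0]
      rfl
    rw [h1, map_zero] at htot1
    exact zero_ne_one htot1
  have hfin : Finite (Γ ⧸ H) := by
    have h1 : (Set.univ : Set (Γ ⧸ H)) ⊆ ((Λ c0).support : Set (Γ ⧸ H)) := by
      intro q _
      rw [Finset.mem_coe, Finsupp.mem_support_iff, hconst]
      exact hne
    exact Set.finite_univ_iff.1 ((Finset.finite_toSet _).subset h1)
  have hft : Fintype (Γ ⧸ H) := Fintype.ofFinite _
  have hsum : (Fintype.card (Γ ⧸ H) : ℤ) * Λ c0 ((1 : Γ) : Γ ⧸ H) = 1 := by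
    have h1 : tot (Λ c0) = ∑ q : Γ ⧸ H, Λ c0 q := by
      show (Λ c0).sum (fun _ n => (LinearMap.id : ℤ →ₗ[ℤ] ℤ) n) = _
      rw [Finsupp.sum_fintype _ _ (fun _ => rfl)]
      rfl
    rw [← htot1, h1]
    simp only [hconst, Finset.sum_const, Finset.card_univ, nsmul_eq_mul]
  have hcard : Fintype.card (Γ ⧸ H) = 1 := by
    have h1 := Int.isUnit_iff.1 (IsUnit.of_mul_eq_one _ hsum)
    omega
  rw [← Subgroup.index_eq_one, Subgroup.index_eq_card, Nat.card_eq_fintype_card, hcard]

theorem K24_flag {Γ : Type v} [Group Γ] (a b : Γ) (ha : ∀ n : ℤ, a ^ n = 1 → n = 0)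
    (hb : ∀ n : ℤ, b ^ n = 1 → n = 0)
    (hab : ∀ m n : ℤ, a ^ m = b ^ n → a ^ m = 1) : Flag Γ 1 := by
  refine ⟨2, ⊥, ![a, b], ?_, ?_, ?_, ?_⟩
  · refine ⟨{{0}, {1}}, fun s => if s = {0} then 1 else 0, ?_, ?_, ?_, ?_⟩
    · intro σ hσ
      simp only [Finset.mem_insert, Finset.mem_singleton] at hσ
      rcases hσ with rfl | rfl <;> simp [cliq]
    · intro ρ hρ
      have h1 : ρ = ∅ := Finset.card_eq_zero.1 (by omega)
      subst h1
      decide
    · intro τ hτ hc
      exfalso
      have h1 : 1 < τ.card := by omega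
      obtain ⟨x, hx, y, hy, hxy⟩ := Finset.one_lt_card.1 h1
      exact (hτ (Finset.mem_coe.2 hx) (Finset.mem_coe.2 hy) hxy)
    · decide
  · intro i j h
    exact h.elim
  · intro i n h
    fin_cases i
    · exact ha n h
    · exact hb n h
  · intro s t hs ht hst
    rw [eq_bot_iff]
    intro x hx
    rw [Subgroup.mem_inf] at hx
    obtain ⟨h1, h2⟩ := hx
    have hsub : ∀ s : Finset (Fin 2), (⊥ : SimpleGraph (Fin 2)).IsClique (s : Set (Fin 2)) →
        s = ∅ ∨ s = {0} ∨ s = {1} := by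
      intro s hs
      have h3 : ¬ (0 ∈ s ∧ 1 ∈ s) := by
        rintro ⟨h4, h5⟩
        exact hs (Finset.mem_coe.2 h4) (Finset.mem_coe.2 h5) (by decide)
      revert h3
      clear hs hst h1
      revert s
      decide
    rw [Subgroup.mem_bot]
    rcases hsub s hs with rfl | rfl | rfl
    · simpa using h1
    · rcases hsub t ht with rfl | rfl | rfl
      · simpa using h2
      · simp at hst
      · simp only [Finset.coe_singleton, Set.image_singleton, Matrix.cons_val_zero,
          Matrix.cons_val_one, Subgroup.mem_closure_singleton] at h1 h2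
        obtain ⟨m, rfl⟩ := h1
        obtain ⟨n, hn⟩ := h2
        exact hab m n hn.symm
    · rcases hsub t ht with rfl | rfl | rfl
      · simpa using h2
      · simp only [Finset.coe_singleton, Set.image_singleton, Matrix.cons_val_zero,
          Matrix.cons_val_one, Subgroup.mem_closure_singleton] at h1 h2
        obtain ⟨n, hn⟩ := h1
        obtain ⟨m, rfl⟩ := h2
        exact hab m n hn.symm
      · simp at hst

theorem K24_conj {Γ : Type v} [Group Γ] (z g : Γ) (m n : ℤ) (h : g * z ^ m * g⁻¹ = z ^ n)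
    (r : ℕ) : g ^ r * z ^ (m ^ r) * (g ^ r)⁻¹ = z ^ (n ^ r) := by
  induction r with
  | zero => simp
  | succ r ih =>
    have h1 : g * (z ^ m) ^ (m ^ r) * g⁻¹ = (z ^ n) ^ (m ^ r) := by
      rw [← h, conj_zpow]
    have h2 : g ^ (r + 1) * z ^ (m ^ (r + 1)) * (g ^ (r + 1))⁻¹ =
        g ^ r * (g * (z ^ m) ^ (m ^ r) * g⁻¹) * (g ^ r)⁻¹ := by
      rw [pow_succ g r, pow_succ' m r, zpow_mul]
      group
    rw [h2, h1, ← zpow_mul, mul_comm n, zpow_mul]
    have h3 : g ^ r * (z ^ (m ^ r)) ^ n * (g ^ r)⁻¹ = (g ^ r * z ^ (m ^ r) * (g ^ r)⁻¹) ^ n :=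
      (conj_zpow).symm
    rw [h3, ih, ← zpow_mul, ← pow_succ]

theorem K24_int {Γ : Type v} [Group Γ] {z : Γ} (hz : ∀ n : ℕ, z ^ n = 1 → n = 0) (n : ℤ)
    (h : z ^ n = 1) : n = 0 := by
  have h1 := hz n.natAbs (by
    rcases Int.natAbs_eq n with h2 | h2
    · rw [h2, zpow_natCast] at h
      simpa using h
    · rw [h2, zpow_neg, zpow_natCast, inv_eq_one] at h
      simpa using h)
  exact Int.natAbs_eq_zero.1 h1

/-- some power of `z` is centralised or inverted by `g` -/
theorem K24_power {Γ : Type v} [Group Γ] (z : Γ) (hz : ∀ n : ℤ, z ^ n = 1 → n = 0)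
    (hcom : ∀ a b : Γ, (∀ n : ℤ, a ^ n = 1 → n = 0) → (∀ n : ℤ, b ^ n = 1 → n = 0) →
      ∃ m n : ℤ, a ^ m = b ^ n ∧ a ^ m ≠ 1) (g : Γ) :
    ∃ N : ℕ, 0 < N ∧ (g * z ^ N * g⁻¹ = z ^ N ∨ g * z ^ N * g⁻¹ = (z ^ N)⁻¹) := by
  have hinj : ∀ m n : ℤ, z ^ m = z ^ n → m = n := by
    intro m n h
    have h1 : z ^ (m - n) = 1 := by rw [zpow_sub, h, mul_inv_cancel]
    have := hz _ h1
    omega
  by_cases hg : ∀ n : ℕ, g ^ n = 1 → n = 0
  · obtain ⟨m, n, h1, h2⟩ := hcom g z (K24_int hg) hz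
    have hn : n ≠ 0 := by
      rintro rfl
      exact h2 (by rw [h1, zpow_zero])
    refine ⟨n.natAbs, Int.natAbs_pos.2 hn, Or.inl ?_⟩
    have h3 : Commute g (z ^ n) := by
      rw [← h1]
      exact (Commute.refl g).zpow_right m
    have h4 : Commute g (z ^ n.natAbs) := by
      rcases Int.natAbs_eq n with h5 | h5
      · rw [h5, zpow_natCast] at h3
        simpa using h3
      · rw [h5, zpow_neg, zpow_natCast] at h3
        have := h3.inv_right
        simpa using this
    rw [h4.eq, mul_inv_cancel_right]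
  · push Not at hg
    obtain ⟨r, hr, hr0⟩ := hg
    have ha : ∀ n : ℤ, (g * z * g⁻¹) ^ n = 1 → n = 0 := by
      intro n h
      rw [conj_zpow] at h
      refine hz n ?_
      have h1 : z ^ n = g⁻¹ * (g * z ^ n * g⁻¹) * g := by group
      rw [h1, h]
      group
    obtain ⟨m, n, h1, h2⟩ := hcom _ z ha hz
    rw [conj_zpow] at h1 h2
    have hm : m ≠ 0 := by
      rintro rfl
      exact h2 (by rw [zpow_zero, mul_one, mul_inv_cancel])
    have h3 := K24_conj z g m n h1 r
    rw [hr, one_mul, inv_one, mul_one] at h3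
    have h4 : m ^ r = n ^ r := hinj _ _ h3
    have h5 : m.natAbs = n.natAbs := by
      have h6 := congrArg Int.natAbs h4
      rw [Int.natAbs_pow, Int.natAbs_pow] at h6
      exact Nat.pow_left_injective hr0 h6
    refine ⟨m.natAbs, Int.natAbs_pos.2 hm, ?_⟩
    have h7 : g * z ^ m * g⁻¹ = z ^ m ∨ g * z ^ m * g⁻¹ = (z ^ m)⁻¹ := by
      rcases Int.natAbs_eq_natAbs_iff.1 h5 with h8 | h8
      · left; rw [h1, h8]
      · right; rw [h1, h8, zpow_neg, inv_inv]
    rcases Int.natAbs_eq m with h8 | h8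
    · have h9 : z ^ m = z ^ m.natAbs := by
        conv_lhs => rw [h8, zpow_natCast]
      rwa [h9] at h7
    · have h9 : z ^ m = (z ^ m.natAbs)⁻¹ := by
        conv_lhs => rw [h8, zpow_neg, zpow_natCast]
      rw [h9, inv_inv] at h7
      have h10 : g * (z ^ m.natAbs)⁻¹ * g⁻¹ = (g * z ^ m.natAbs * g⁻¹)⁻¹ := by group
      rw [h10] at h7
      rcases h7 with h7 | h7
      · left; exact inv_injective h7
      · right
        have h11 := congrArg (fun t => t⁻¹) h7
        simp only [inv_inv] at h11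
        exact h11

theorem flag_one_or {Γ : Type v} [Group Γ] (R : FreeRes.{u, v} Γ) (z : Γ)
    (hz : ∀ n : ℕ, z ^ n = 1 → n = 0) : Flag Γ 1 ∨ ∀ k, R.HarmZero ℝ k := by
  classical
  by_cases hF : Flag Γ 1
  · exact Or.inl hF
  right
  have hcom : ∀ a b : Γ, (∀ n : ℤ, a ^ n = 1 → n = 0) → (∀ n : ℤ, b ^ n = 1 → n = 0) →
      ∃ m n : ℤ, a ^ m = b ^ n ∧ a ^ m ≠ 1 := by
    intro a b ha hb
    by_contra h
    push Not at h
    exact hF (K24_flag a b ha hb h)
  obtain ⟨S, hS⟩ := fg_of_freeRes R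
  choose N hN0 hN using K24_power z (K24_int hz) hcom
  set w : Γ := z ^ (∏ s ∈ S, N s) with hw
  have hP0 : 0 < ∏ s ∈ S, N s := Finset.prod_pos fun s _ => hN0 s
  have hgen : ∀ s ∈ S, s * w * s⁻¹ = w ∨ s * w * s⁻¹ = w⁻¹ := by
    intro s hs
    obtain ⟨c, hc⟩ := Finset.dvd_prod_of_mem N hs
    have h1 : w = (z ^ N s) ^ c := by rw [hw, hc, pow_mul]
    have h2 : s * w * s⁻¹ = (s * z ^ N s * s⁻¹) ^ c := by rw [h1, conj_pow]
    rcases hN s with h3 | h3
    · left; rw [h2, h3, h1]
    · right; rw [h2, h3, h1, inv_pow]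
  have hall : ∀ g : Γ, g * w * g⁻¹ = w ∨ g * w * g⁻¹ = w⁻¹ := by
    intro g
    have hg : g ∈ Subgroup.closure (S : Set Γ) := by rw [hS]; trivial
    refine Subgroup.closure_induction (p := fun g _ => g * w * g⁻¹ = w ∨ g * w * g⁻¹ = w⁻¹)
      ?_ ?_ ?_ ?_ hg
    · intro s hs
      exact hgen s (Finset.mem_coe.1 hs)
    · left; simp
    · intro a b _ _ ha hb
      have h1 : a * b * w * (a * b)⁻¹ = a * (b * w * b⁻¹) * a⁻¹ := by group
      have h2 : a * w⁻¹ * a⁻¹ = (a * w * a⁻¹)⁻¹ := by group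
      rcases hb with hb | hb
      · rcases ha with ha | ha
        · left; rw [h1, hb, ha]
        · right; rw [h1, hb, ha]
      · rcases ha with ha | ha
        · right; rw [h1, hb, h2, ha]
        · left; rw [h1, hb, h2, ha, inv_inv]
    · intro a _ ha
      have h2 : a * w⁻¹ * a⁻¹ = (a * w * a⁻¹)⁻¹ := by group
      rcases ha with ha | ha
      · left
        have h1 : a⁻¹ * w * a⁻¹⁻¹ = a⁻¹ * (a * w * a⁻¹) * a := by rw [ha]; group
        rw [h1]; group
      · right
        have h1 : a⁻¹ * w * a⁻¹⁻¹ = (a⁻¹ * (a * w * a⁻¹) * a)⁻¹ := by rw [ha]; group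
        rw [h1]; group
  let C : Subgroup Γ := Subgroup.centralizer {w}
  have hC : ∀ g : Γ, g ∈ C ↔ g * w * g⁻¹ = w := by
    intro g
    rw [Subgroup.mem_centralizer_singleton_iff, mul_inv_eq_iff_eq_mul]
  have hfin : Finite (Γ ⧸ C) := by
    let f : Γ ⧸ C → Γ := Quotient.lift (fun g : Γ => g * w * g⁻¹) (by
      intro a b hab
      have h1 : a⁻¹ * b ∈ C := QuotientGroup.leftRel_apply.1 hab
      rw [hC] at h1
      have h2 : b * w * b⁻¹ = a * ((a⁻¹ * b) * w * (a⁻¹ * b)⁻¹) * a⁻¹ := by group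
      show a * w * a⁻¹ = b * w * b⁻¹
      rw [h2, h1])
    have hf : Function.Injective f := by
      intro q q' h
      induction q using QuotientGroup.induction_on with
      | H a =>
        induction q' using QuotientGroup.induction_on with
        | H b =>
          change a * w * a⁻¹ = b * w * b⁻¹ at h
          rw [QuotientGroup.eq, hC]
          have h2 : (a⁻¹ * b) * w * (a⁻¹ * b)⁻¹ = a⁻¹ * (b * w * b⁻¹) * a := by group
          rw [h2, ← h]
          group
    have hr : Set.range f ⊆ {w, w⁻¹} := by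
      rintro _ ⟨q, rfl⟩
      induction q using QuotientGroup.induction_on with
      | H a => exact hall a
    have h3 : (Set.range f).Finite := (Set.toFinite {w, w⁻¹}).subset hr
    exact Set.finite_range_iff hf |>.1 h3
  have hfi : C.FiniteIndex := Subgroup.finiteIndex_of_finite_quotient
  have hfi' : C.subtype.range.FiniteIndex := by rw [Subgroup.range_subtype]; infer_instance
  intro k
  rw [← R.comap_harmZero C.subtype C.subtype_injective k]
  have hwC : w ∈ C := by rw [hC]; group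
  refine harmZero_of_central _ (⟨w, hwC⟩ : C) ?_ ?_ k
  · intro g
    have h1 := (hC g.1).1 g.2
    rw [mul_inv_eq_iff_eq_mul] at h1
    exact Subtype.ext h1
  · intro n hn
    have h1 : w ^ n = 1 := congrArg Subtype.val hn
    rw [hw, ← pow_mul] at h1
    have h2 := hz _ h1
    rcases Nat.mul_eq_zero.1 h2 with h3 | h3
    · omega
    · exact h3

end GP

end OS
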