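import Mathlib
import Pool.Agent.Lib.MP_8fe54c_gt.KDefs
import Pool.Agent.Lib.MP_8fe54c_gt.KHarm
import Pool.Agent.Lib.MP_8fe54c_gt.KLap
import Pool.Agent.Lib.MP_8fe54c_gt.KShap
import Pool.Agent.Lib.MP_8fe54c_gt.KAct
import Pool.Agent.Lib.MP_8fe54c_gt.GPL2
import Pool.Agent.Lib.MP_8fe54c_gt.KCls
import Pool.Agent.Lib.MP_8fe54c_gt.KFlag
import Pool.Agent.Lib.MP_8fe54c_gt.GPFlag
import Pool.Agent.Lib.MP_8fe54c_gt.KDim
import Pool.Agent.Lib.MP_8fe54c_gt.KLow
import Pool.Agent.Lib.MP_8fe54c_gt.KRes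
import Pool.Agent.Lib.MP_8fe54c_gt.Assem

/-!
# Project K, assembly
-/

namespace OS

namespace GP

open Finsupp MulOpposite

universe u v w u' v' w'

/-- the property proved by induction: for every degree `k`, there are no harmonic chains in degree
`k`, or there is a flag system of degree at least `k` -/
def Good (Γ : Type u) [Group Γ] : Prop :=
  ∃ R : FreeRes.{u, u} Γ, ∀ k, R.HarmZero ℝ k ∨ ∃ d, k ≤ d ∧ Flag Γ d

theorem harm_eq_bot_of_real {Γ : Type v} [Group Γ] (C : CellComplex.{u, v} Γ) (hF : C.IsFree)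
    (hE : C.IsExact) (R : FreeRes.{u', v} Γ) (k : ℕ) (h : R.HarmZero ℝ k) : C.harm k = ⊥ := by
  refine C.harm_eq_bot hF hE k ?_
  refine FreeRes.harmZero_complex _ k ?_
  exact (FreeRes.harmZero_iff _ R k).mpr h

theorem harmZero_of_BZero {Γ : Type u} [Group Γ] (R : FreeRes.{u', u} Γ) (k : ℕ)
    (h : BZero Γ k) : R.HarmZero ℝ k := by
  obtain ⟨C, hF, hE, hC⟩ := h
  exact (FreeRes.harmZero_iff R _ k).mpr (harmZero_of_harm C hF hE k hC)

theorem hasRes_of_BZero {Γ : Type u} [Group Γ] {k : ℕ} (h : BZero Γ k) : HasRes Γ := by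
  obtain ⟨C, hF, hE, _⟩ := h
  exact ⟨C, hF, hE⟩

theorem K26_low (Γ : Type u) [Group Γ] (h2 : ∀ k, 2 ≤ k → BZero Γ k)
    (h1 : BZero Γ 1 ∨ InfOrd Γ) : Good Γ := by
  obtain ⟨C, hF, hE⟩ := hasRes_of_BZero (h2 2 (le_refl 2))
  refine ⟨C.toFreeRes hF hE, fun k => ?_⟩
  rcases Nat.lt_or_ge k 2 with hk | hk
  · interval_cases k
    · exact Or.inr ⟨0, le_refl 0, flag_zero Γ⟩
    · rcases h1 with h1 | ⟨g, hg⟩
      · exact Or.inl (harmZero_of_BZero _ 1 h1)
      · rcases flag_one_or (C.toFreeRes hF hE) g hg with h | h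
        · exact Or.inr ⟨1, le_refl 1, h⟩
        · exact Or.inl (h 1)
  · exact Or.inl (harmZero_of_BZero _ k (h2 k hk))

theorem K26_flag (Γ : Type u) [Group Γ] (d : ℕ) (hd : Flag Γ d)
    (hk : ∀ k, d < k → BZero Γ k) : Good Γ := by
  obtain ⟨C, hF, hE⟩ := hasRes_of_BZero (hk (d + 1) (Nat.lt_succ_self d))
  refine ⟨C.toFreeRes hF hE, fun k => ?_⟩
  rcases Nat.lt_or_ge d k with h | h
  · exact Or.inl (harmZero_of_BZero _ k (hk k h))
  · exact Or.inr ⟨d, h, hd⟩

theorem K26_graphProd {V : Type u} [Finite V] (L : SimpleGraph V) (G : V → Type u)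
    [∀ v, Group (G v)] (hG : ∀ v, Good (G v))
    (hinf : ∀ v, InfOrd (G v))
    (hR : HasRes (GraphProd L G)) : Good (GraphProd L G) := by
  classical
  have hfin : Fintype V := Fintype.ofFinite V
  let hlin : LinearOrder V := IsWellOrder.linearOrder (WellOrderingRel (α := V))
  obtain ⟨C, hF, hE⟩ := hR
  choose Rv hv using hG
  refine ⟨C.toFreeRes hF hE, fun k => ?_⟩
  by_cases hk : (C.toFreeRes hF hE).HarmZero ℝ k
  · exact Or.inl hk
  right
  by_contra hno
  apply hk
  refine gp_l2 L G Rv _ k ?_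
  intro σ hσ e q hq
  by_contra hcon
  push Not at hcon
  obtain ⟨hc1, hc2⟩ := hcon
  have h1 : ∀ v : σ, ∃ d, e v ≤ d ∧ Flag (G v.1) d := fun v =>
    (hv v.1 (e v)).resolve_left (hc1 v)
  choose d hd hfd using h1
  have h2 : HasClsC (lk (cliq L) σ) q := by
    by_contra h3
    refine hc2 (rac_of_not_hasClsC _ ?_ q h3)
    rintro s t hst ⟨h4, h5⟩
    refine ⟨h4.mono_right hst, ?_⟩
    intro a ha b hb hab
    refine h5 ?_ ?_ hab
    · simp only [Finset.coe_union, Set.mem_union, Finset.mem_coe] at ha ⊢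
      exact ha.imp id (fun h => hst h)
    · simp only [Finset.coe_union, Set.mem_union, Finset.mem_coe] at hb ⊢
      exact hb.imp id (fun h => hst h)
  refine hno ⟨∑ v, d v + q, ?_, flag_gp L G hinf σ hσ d q hfd h2⟩
  rw [← hq]
  exact Nat.add_le_add_right (Finset.sum_le_sum fun v _ => hd v) q

theorem K26_commens (Γ Γ' : Type u) [Group Γ] [Group Γ'] (h : Good Γ) (H : Subgroup Γ)
    (H' : Subgroup Γ') [H.FiniteIndex] [H'.FiniteIndex] (e : H ≃* H') (hR : HasRes Γ') :
    Good Γ' := by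
  obtain ⟨C, hF, hE⟩ := hR
  obtain ⟨R, hR⟩ := h
  refine ⟨C.toFreeRes hF hE, fun k => ?_⟩
  rcases hR k with h | ⟨d, hd, h⟩
  · left
    obtain ⟨φ, hφ, hfi⟩ := exists_incl H e
    have hfi' : H'.subtype.range.FiniteIndex := by rw [Subgroup.range_subtype]; infer_instance
    rw [← (C.toFreeRes hF hE).comap_harmZero H'.subtype H'.subtype_injective k]
    rw [← R.comap_harmZero φ hφ k] at h
    exact (FreeRes.harmZero_iff _ _ k).mp h
  · right
    refine ⟨d, hd, ?_⟩
    have h1 : Flag H d := flag_finiteIndex H h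
    have h2 : Flag H' d := flag_map e.toMonoidHom e.injective h1
    exact flag_map H'.subtype H'.subtype_injective h2

theorem K26_act (Γ : Type u) [Group Γ] (X : CellComplex.{u, u} Γ) (hX : X.IsEquiv)
    (hE : X.IsExact) (d : ℕ)
    (hd : d = 0 ∨ (d = 1 ∧ InfOrd Γ) ∨ ∃ x : X.X 0, BPos (X.stab x) d)
    (h0 : ∀ x : X.X 0, Good (X.stab x))
    (h1 : ∀ (q : ℕ) (x : X.X (q + 1)) (p : ℕ), d < p + (q + 1) → BZero (X.stab x) p)
    (hR : HasRes Γ) : Good Γ := by
  obtain ⟨C, hF, hCE⟩ := hR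
  refine ⟨C.toFreeRes hF hCE, fun n => ?_⟩
  rcases Nat.lt_or_ge d n with hn | hn
  · by_cases hall : ∀ x : X.X 0, ∃ R : FreeRes.{u, u} (X.stab x), R.HarmZero ℝ n
    · left
      refine harmZero_of_HV _ n ?_
      refine engine_act _ X hX hE (UM Γ) n ?_
      intro p q hpq
      refine HV_set_of_stab _ _ _ _ fun x => ?_
      have h2 : ∃ R : FreeRes.{u, u} (X.stab x), R.HarmZero ℝ p := by
        cases q with
        | zero =>
          obtain rfl : p = n := by omega
          exact hall x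
        | succ q =>
          obtain ⟨C', hF', hE', hp⟩ := h1 q x p (by omega)
          exact ⟨C'.toFreeRes hF' hE', harmZero_of_harm C' hF' hE' p hp⟩
      obtain ⟨R, hR⟩ := h2
      exact ⟨X.stab x, inferInstance, (X.stab x).subtype, R,
        Subgroup.subtype_injective _, Subgroup.range_subtype _,
        HV_of_harmZero _ (Subgroup.subtype_injective _) R p hR⟩
    · right
      push Not at hall
      obtain ⟨x, hx⟩ := hall
      obtain ⟨R, hR⟩ := h0 x
      rcases hR n with h | ⟨d', hd', h⟩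
      · exact absurd h (hx R)
      · exact ⟨d', hd', flag_map _ (Subgroup.subtype_injective _) h⟩
  · rcases hd with rfl | ⟨rfl, g, hg⟩ | ⟨x, C', hF', hE', hne⟩
    · exact Or.inr ⟨0, hn, flag_zero Γ⟩
    · rcases flag_one_or (C.toFreeRes hF hCE) g hg with h | h
      · exact Or.inr ⟨1, hn, h⟩
      · exact Or.inl (h n)
    · right
      obtain ⟨R, hR⟩ := h0 x
      rcases hR d with h | ⟨d', hd', h⟩
      · exact absurd (harm_eq_bot_of_real C' hF' hE' R d h) hne
      · exact ⟨d', hn.trans hd', flag_map _ (Subgroup.subtype_injective _) h⟩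

theorem good_of_classK {Γ : Type u} [Group Γ] (h : ClassK Γ) : Good Γ := by
  induction h with
  | low Γ h2 h1 => exact K26_low Γ h2 h1
  | flag Γ d hd hk => exact K26_flag Γ d hd hk
  | graphProd L G hG hinf hR ih => exact K26_graphProd L G ih hinf hR
  | commens Γ Γ' h H H' e hR ih => exact K26_commens Γ Γ' ih H H' e hR
  | act Γ X hX hE d hd h0 h1 hR ih => exact K26_act Γ X hX hE d hd ih h1 hR

theorem main {n : ℕ} [NeZero n] {M : Type u} [TopologicalSpace M] [T2Space M]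
    [ConnectedSpace M] [ChartedSpace (EuclideanHalfSpace n) M]
    {Y : Type v'} [TopologicalSpace Y] [ContractibleSpace Y] {p : Y → M} (hp : IsCoveringMap p)
    (x : M) (hK : ClassK (FundamentalGroup M x))
    (C : FreeRes.{v, u} (FundamentalGroup M x)) {k : ℕ}
    (hk : n < 2 * k) : C.HarmZero ℂ k := by
  obtain ⟨R, hR⟩ := good_of_classK hK
  rcases hR k with h | ⟨d, hd, h⟩
  · exact FreeRes.harmZero_complex _ k ((FreeRes.harmZero_iff _ _ k).mp h)
  · exfalso
    obtain ⟨j, rfl⟩ : ∃ j, d = j + 1 := ⟨d - 1, by omega⟩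
    have h1 : DimBound.{u, v'} (FundamentalGroup M x) (2 * j + 2) := by
      intro m Y _ _ _ _ _ _ hY
      exact flag_dim h hY
    have h2 := dim_le_of_dimBound (n := n) hp x (MonoidHom.id _) Function.injective_id h1
    omega

end GP

end OS
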