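import Mathlib
import Pool.Agent.Lib.MP_8fe54c_gt.FreeRes
import Pool.Agent.Lib.MP_8fe54c_gt.ResDefs

/-!
# From cell complexes to `FreeRes`
-/

namespace OS

open Finsupp

universe u v

namespace CellComplex

variable {Γ : Type v} [Group Γ] (C : CellComplex.{u, v} Γ)

theorem d_smul' (hF : C.IsFree) (k : ℕ) (g : Γ) (x : C.X (k + 1)) :
    C.d k (g • x) = gact g (C.d k x) := by
  ext y
  rw [gact_apply, ← hF.d_smul k g x (g⁻¹ • y), smul_inv_smul]

/-- the corresponding free resolution -/
noncomputable def toFreeRes (hF : C.IsFree) (hE : C.IsExact) : FreeRes.{u, v} Γ where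
  X := C.X
  act := C.act
  free := hF.free
  fin k := by
    classical
    have := hF.fin k
    have := Fintype.ofFinite (MulAction.orbitRel.Quotient Γ (C.X k))
    refine ⟨Finset.univ.image (fun q : MulAction.orbitRel.Quotient Γ (C.X k) => q.out),
      fun x => ?_⟩
    have h1 : MulAction.orbitRel Γ _ (Quotient.mk'' x : MulAction.orbitRel.Quotient Γ _).out x :=
      Quotient.exact' (Quotient.out_eq' _)
    obtain ⟨g, hg⟩ := h1
    refine ⟨g⁻¹, _, Finset.mem_image_of_mem _ (Finset.mem_univ (Quotient.mk'' x)), ?_⟩
    rw [inv_smul_eq_iff]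
    exact hg.symm
  d k := Finsupp.linearCombination ℤ (C.d k)
  eps := Finsupp.linearCombination ℤ C.eps
  d_act k g c := by
    induction c using Finsupp.induction_linear with
    | zero => simp
    | add a b ha hb => simp only [map_add, ha, hb]
    | single x n =>
      rw [gact_single, Finsupp.linearCombination_single, Finsupp.linearCombination_single,
        map_smul, C.d_smul' hF]
  eps_act g c := by
    induction c using Finsupp.induction_linear with
    | zero => simp
    | add a b ha hb => simp only [map_add, ha, hb]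
    | single x n =>
      rw [gact_single, Finsupp.linearCombination_single, Finsupp.linearCombination_single,
        hF.eps_smul]
  eps_surj := hE.surj
  eps_d c := (hE.exact_zero _).mpr ⟨c, rfl⟩
  d_d k c := (hE.exact_succ k _).mpr ⟨c, rfl⟩
  exact0 c h := (hE.exact_zero c).mp h
  exact k c h := (hE.exact_succ k c).mp h

theorem toFreeRes_coef (hF : C.IsFree) (hE : C.IsExact) (k : ℕ) (x : C.X (k + 1)) (y : C.X k) :
    (C.toFreeRes hF hE).coef k x y = C.d k x y := by
  show Finsupp.linearCombination ℤ (C.d k) (single x 1) y = _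
  rw [Finsupp.linearCombination_single, one_smul]

theorem harm_eq_bot (hF : C.IsFree) (hE : C.IsExact) (k : ℕ)
    (h : (C.toFreeRes hF hE).HarmZero ℂ k) : C.harm k = ⊥ := by
  have h1 : {ξ : C.L2Chain k | C.IsCycle ξ ∧ C.IsCocycle ξ} ⊆ {0} := by
    rintro ξ ⟨h1, h2⟩
    rw [Set.mem_singleton_iff]
    have h3 : (C.toFreeRes hF hE).IsHarm k (fun x => C.at' ξ x) := by
      refine ⟨?_, ?_, ?_⟩
      · have h5 : Summable fun x : C.X k => ‖C.at' ξ x‖ ^ 2 := by
          have := (lp.memℓp (show lp (fun _ : C.X k => ℂ) 2 from ξ)).summable (by norm_num)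
          simpa [at'] using this
        exact h5
      · intro z
        have h5 : ∑ᶠ x : C.X k, ((C.toFreeRes hF hE).coef k z x : ℂ) * C.at' ξ x = 0 := by
          simp only [toFreeRes_coef]
          exact h2 z
        exact h5
      · cases k with
        | zero => trivial
        | succ k =>
          intro y
          have h5 : ∑ᶠ x : C.X (k + 1), ((C.toFreeRes hF hE).coef k x y : ℂ) * C.at' ξ x = 0 := by
            simp only [toFreeRes_coef]
            exact h1 y
          exact h5
    have h4 := h _ h3
    exact Subtype.ext h4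
  have h2 : Submodule.span ℂ {ξ : C.L2Chain k | C.IsCycle ξ ∧ C.IsCocycle ξ} = ⊥ := by
    rw [Submodule.span_eq_bot]
    exact fun x hx => h1 hx
  unfold harm
  rw [h2]
  exact IsClosed.submodule_topologicalClosure_eq (by
    rw [Submodule.bot_coe]
    exact isClosed_singleton)

theorem l2Betti_eq_zero (hF : C.IsFree) (hE : C.IsExact) (k : ℕ)
    (h : (C.toFreeRes hF hE).HarmZero ℂ k) : C.l2Betti k = 0 := by
  refine finsum_eq_zero_of_forall_eq_zero fun q => ?_
  have h2 : (C.harm k).starProjection (C.basisVec q.out) ∈ C.harm k :=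
    Submodule.starProjection_apply_mem _ _
  have h3 := (C.harm_eq_bot hF hE k h).le h2
  rw [Submodule.mem_bot] at h3
  rw [h3]
  simp

/-- the space of harmonic chains consists of the chains which are cycles and cocycles -/
theorem harm_eq_bot_iff (k : ℕ) (h : C.harm k = ⊥) (ξ : C.L2Chain k) (h1 : C.IsCycle ξ)
    (h2 : C.IsCocycle ξ) : ξ = 0 := by
  have h3 : ξ ∈ C.harm k := Submodule.le_topologicalClosure _ (Submodule.subset_span ⟨h1, h2⟩)
  rw [h, Submodule.mem_bot] at h3
  exact h3

end CellComplex

end OS
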