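import Mathlib
import Pool.Agent.Lib.MP_8fe54c_gt.KDefs
import Pool.Agent.Lib.MP_8fe54c_gt.GPGrp
import Pool.Agent.Lib.MP_8fe54c_gt.Res
import Pool.Agent.Lib.MP_8fe54c_gt.Final

/-!
# Right-angled Artin groups belong to the class `ClassK`
-/

namespace OS

namespace GP

open Finsupp

universe u v w u'

section cellOf

variable {Γ : Type v} [Group Γ] (R : FreeRes.{u, v} Γ)

/-- the cell complex of a resolution -/
noncomputable def cellOf : CellComplex.{u, v} Γ where
  X := R.X
  act := R.act
  d k x := R.d k (single x 1)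
  eps x := R.eps (single x 1)

theorem cellOf_bd (k : ℕ) (c : R.X (k + 1) →₀ ℤ) : (cellOf R).bd k c = R.d k c := by
  have h1 : R.d k c = c.sum fun x n => n • R.d k (single x 1) := by
    calc R.d k c = R.d k (c.sum single) := by rw [Finsupp.sum_single]
      _ = c.sum fun x n => R.d k (single x n) := map_finsuppSum _ _ _
      _ = c.sum fun x n => n • R.d k (single x 1) :=
        Finsupp.sum_congr fun x _ => by
          rw [← map_smul, Finsupp.smul_single, smul_eq_mul, mul_one]
  rw [h1]
  rfl

theorem cellOf_aug (c : R.X 0 →₀ ℤ) : (cellOf R).aug c = R.eps c := by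
  have h1 : R.eps c = c.sum fun x n => n * R.eps (single x 1) := by
    calc R.eps c = R.eps (c.sum single) := by rw [Finsupp.sum_single]
      _ = c.sum fun x n => R.eps (single x n) := map_finsuppSum _ _ _
      _ = c.sum fun x n => n * R.eps (single x 1) :=
        Finsupp.sum_congr fun x _ => by
          rw [← smul_eq_mul, ← map_smul, Finsupp.smul_single, smul_eq_mul, mul_one]
  rw [h1]
  rfl

theorem cellOf_isFree : (cellOf R).IsFree where
  free := R.free
  fin k := by
    obtain ⟨s, hs⟩ := R.fin k
    have h1 : Function.Surjective (fun x : s =>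
        (Quotient.mk'' x.1 : MulAction.orbitRel.Quotient Γ (R.X k))) := by
      intro q
      induction q using Quotient.inductionOn' with
      | h x =>
        obtain ⟨g, y, hy, rfl⟩ := hs x
        refine ⟨⟨y, hy⟩, ?_⟩
        apply Quotient.sound'
        exact ⟨g⁻¹, inv_smul_smul g y⟩
    exact Finite.of_surjective _ h1
  d_smul k g x y := R.coef_smul k g x y
  eps_smul g x := by
    have h := R.eps_act g (single x 1)
    rw [gact_single] at h
    exact h

theorem cellOf_isExact : (cellOf R).IsExact where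
  surj := by
    obtain ⟨c, hc⟩ := R.eps_surj
    exact ⟨c, by rw [cellOf_aug]; exact hc⟩
  exact_zero c := by
    rw [cellOf_aug]
    constructor
    · intro h
      obtain ⟨b, hb⟩ := R.exact0 c h
      exact ⟨b, by rw [cellOf_bd]; exact hb⟩
    · rintro ⟨b, hb⟩
      rw [cellOf_bd] at hb
      rw [← hb]
      exact R.eps_d b
  exact_succ k c := by
    rw [cellOf_bd]
    constructor
    · intro h
      obtain ⟨b, hb⟩ := R.exact k c h
      exact ⟨b, by rw [cellOf_bd]; exact hb⟩
    · rintro ⟨b, hb⟩
      rw [cellOf_bd] at hb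
      rw [← hb]
      exact R.d_d k b

theorem cellOf_harm (k : ℕ) (h : R.HarmZero ℝ k) : (cellOf R).harm k = ⊥ := by
  refine (cellOf R).harm_eq_bot (cellOf_isFree R) (cellOf_isExact R) k ?_
  refine FreeRes.harmZero_complex _ k ?_
  exact (FreeRes.harmZero_iff _ R k).mpr h

end cellOf

theorem hasRes_of_freeRes {Γ : Type u} [Group Γ] (R : FreeRes.{u, u} Γ) : HasRes Γ :=
  ⟨cellOf R, cellOf_isFree R, cellOf_isExact R⟩

/-- right-angled Artin groups have type `FP_∞` -/
theorem hasRes_raag {V : Type u} [Finite V] (G : SimpleGraph V) : HasRes (RAAG G) := by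
  classical
  have hfin : Fintype V := Fintype.ofFinite V
  let hlin : LinearOrder V := IsWellOrder.linearOrder (WellOrderingRel (α := V))
  exact hasRes_of_freeRes (salRes G)

/-- the infinite cyclic group, as a right-angled Artin group -/
abbrev ZZ : Type u := RAAG (⊥ : SimpleGraph PUnit.{u + 1})

theorem ZZ_inf : InfOrd ZZ.{u} := by
  classical
  obtain ⟨ab, hab⟩ := exists_abel (⊥ : SimpleGraph PUnit.{u + 1})
  refine ⟨ra PUnit.unit, fun n hn => ?_⟩
  have h := congrArg ab hn
  rw [map_pow, hab, map_one, ← ofAdd_nsmul] at h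
  have h1 := congrFun (Multiplicative.ofAdd.injective (h.trans ofAdd_zero.symm)) PUnit.unit
  simpa using h1

theorem classK_ZZ : ClassK ZZ.{u} := by
  classical
  let R : FreeRes.{u, u} ZZ.{u} := salRes (⊥ : SimpleGraph PUnit.{u + 1})
  refine ClassK.low _ ?_ (Or.inr ZZ_inf)
  intro k hk
  refine ⟨cellOf R, cellOf_isFree R, cellOf_isExact R, cellOf_harm R k ?_⟩
  intro ξ _
  funext x
  exfalso
  obtain ⟨g, σ, hσ⟩ := (show Cell (⊥ : SimpleGraph PUnit.{u + 1}) k from x)
  have h1 : σ.card ≤ 1 := by
    have := Finset.card_le_univ σ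
    simpa using this
  omega

theorem ra_closure {V : Type u} (G : SimpleGraph V) :
    Subgroup.closure (Set.range (ra : V → RAAG G)) = ⊤ :=
  PresentedGroup.closure_range_of _

theorem ZZ_commute {P : Type*} [Group P] (f g : ZZ.{u} →* P)
    (h : Commute (f (ra PUnit.unit)) (g (ra PUnit.unit))) (a b : ZZ.{u}) :
    Commute (f a) (g b) := by
  have h1 : ∀ a : ZZ.{u}, a ∈ Subgroup.closure (Set.range (ra : PUnit.{u + 1} → ZZ.{u})) := by
    intro a
    rw [ra_closure]
    trivial
  have h2 : ∀ a : ZZ.{u}, Commute (f a) (g (ra PUnit.unit)) := by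
    intro a
    refine Subgroup.closure_induction (p := fun x _ => Commute (f x) (g (ra PUnit.unit)))
      ?_ ?_ ?_ ?_ (h1 a)
    · rintro _ ⟨v, rfl⟩
      exact h
    · rw [map_one]; exact Commute.one_left _
    · intro x y _ _ hx hy
      rw [map_mul]; exact hx.mul_left hy
    · intro x _ hx
      rw [map_inv]; exact hx.inv_left
  refine Subgroup.closure_induction (p := fun x _ => Commute (f a) (g x)) ?_ ?_ ?_ ?_ (h1 b)
  · rintro _ ⟨v, rfl⟩
    exact h2 a
  · rw [map_one]; exact Commute.one_right _
  · intro x y _ _ hx hy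
    rw [map_mul]; exact hx.mul_right hy
  · intro x _ hx
    rw [map_inv]; exact hx.inv_right

/-- a right-angled Artin group is a graph product of infinite cyclic groups -/
theorem exists_raag_equiv {V : Type u} (G : SimpleGraph V) :
    Nonempty (RAAG G ≃* GraphProd G (fun _ : V => ZZ.{u})) := by
  let f : RAAG G →* GraphProd G (fun _ : V => ZZ.{u}) :=
    raLift (fun v => gof (G := fun _ : V => ZZ.{u}) v (ra PUnit.unit))
      (fun u v h => gof_comm h _ _)
  let j : V → (ZZ.{u} →* RAAG G) := fun v => raLift (fun _ => ra v) (fun _ _ _ => Commute.refl _)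
  have hj : ∀ v, j v (ra PUnit.unit) = ra v := fun v => raLift_ra _ _ _
  obtain ⟨g, hg⟩ := exists_glift (L := G) (G := fun _ : V => ZZ.{u}) j (fun u v h a b => by
    refine ZZ_commute (j u) (j v) ?_ a b
    rw [hj, hj]
    exact ra_comm h)
  have h1 : g.comp f = MonoidHom.id _ := by
    refine PresentedGroup.ext fun v => ?_
    show g (f (ra v)) = ra v
    have h2 : f (ra v) = gof v (ra PUnit.unit) := raLift_ra _ _ _
    rw [h2, hg, hj]
  have h2 : ∀ x, f (g x) = x := by
    intro x
    refine gp_induction (C := fun x => f (g x) = x) ?_ ?_ ?_ x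
    · simp
    · intro v a
      show f (g (gof v a)) = gof v a
      rw [hg]
      have h3 : f.comp (j v) = gof (L := G) (G := fun _ : V => ZZ.{u}) v := by
        refine PresentedGroup.ext fun w => ?_
        show f (j v (ra w)) = gof v (ra w)
        have h4 : j v (ra w) = ra v := raLift_ra _ _ _
        rw [h4]
        exact raLift_ra _ _ _
      exact DFunLike.congr_fun h3 a
    · intro a b ha hb
      show f (g (a * b)) = a * b
      rw [map_mul, map_mul]
      exact congrArg₂ (· * ·) ha hb
  exact ⟨MulEquiv.ofBijective f ⟨fun a b h => by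
    have h3 := congrArg g h
    have h4 : ∀ x, g (f x) = x := fun x => DFunLike.congr_fun h1 x
    rwa [h4, h4] at h3, fun x => ⟨g x, h2 x⟩⟩⟩

/-- the class `ClassK` contains all right-angled Artin groups, and so all groups commensurable
with them which have type `FP_∞` -/
theorem classK_raag {V : Type u} [Finite V] (G : SimpleGraph V) : ClassK (RAAG G) := by
  obtain ⟨e⟩ := exists_raag_equiv G
  obtain ⟨C, hF, hE⟩ := hasRes_raag G
  have hfi : (e.symm.toMonoidHom : GraphProd G (fun _ : V => ZZ.{u}) →* RAAG G).range.FiniteIndex := by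
    have h1 : (e.symm.toMonoidHom : GraphProd G (fun _ : V => ZZ.{u}) →* RAAG G).range = ⊤ :=
      MonoidHom.range_eq_top.2 e.symm.surjective
    rw [h1]
    infer_instance
  have hR : HasRes (GraphProd G (fun _ : V => ZZ.{u})) :=
    hasRes_of_freeRes ((C.toFreeRes hF hE).comap e.symm.toMonoidHom e.symm.injective)
  have h1 : ClassK (GraphProd G (fun _ : V => ZZ.{u})) :=
    ClassK.graphProd G (fun _ : V => ZZ.{u}) (fun _ => classK_ZZ) (fun _ => ZZ_inf) hR
  exact ClassK.commens _ _ h1 ⊤ ⊤ (Subgroup.topEquiv.trans (e.symm.trans Subgroup.topEquiv.symm))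
    ⟨C, hF, hE⟩

end GP

end OS
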