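import Mathlib
import Pool.Agent.Lib.MP_8fe54c_gt.Res

/-!
# From `harm = ⊥` to `HarmZero` (project K, module K25)
-/

namespace OS

namespace GP

universe u v

theorem harmZero_of_harm {Γ : Type v} [Group Γ] (C : CellComplex.{u, v} Γ) (hF : C.IsFree)
    (hE : C.IsExact) (k : ℕ) (h : C.harm k = ⊥) : (C.toFreeRes hF hE).HarmZero ℝ k := by
  intro ξ hξ
  have hm : Memℓp (fun x : C.X k => (ξ x : ℂ)) 2 := by
    rw [memℓp_gen_iff (by norm_num)]
    have h1 : ∀ x : C.X k, ‖(ξ x : ℂ)‖ ^ (2 : ENNReal).toReal = ‖ξ x‖ ^ 2 := by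
      intro x
      rw [ENNReal.toReal_ofNat, Real.rpow_ofNat, Complex.norm_real]
    simp only [h1]
    exact hξ.sq
  let η : C.L2Chain k := (⟨fun x => (ξ x : ℂ), hm⟩ : lp (fun _ : C.X k => ℂ) 2)
  have hη : ∀ x, C.at' η x = (ξ x : ℂ) := fun x => rfl
  have key : ∀ {α : Type u} (c : α → ℤ) (f : α → ℝ), (∑ᶠ x, (c x : ℝ) * f x = 0) →
      {x | c x ≠ 0}.Finite → ∑ᶠ x, (c x : ℂ) * (f x : ℂ) = 0 := by
    intro α c f h1 h2
    have h3 : (Function.support fun x => (c x : ℝ) * f x) ⊆ h2.toFinset := by
      intro x hx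
      rw [Set.Finite.coe_toFinset]
      intro h4
      apply hx
      simp [h4]
    have h4 : (Function.support fun x => (c x : ℂ) * (f x : ℂ)) ⊆ h2.toFinset := by
      intro x hx
      rw [Set.Finite.coe_toFinset]
      intro h4
      apply hx
      simp [h4]
    rw [finsum_eq_sum_of_support_subset _ h3] at h1
    rw [finsum_eq_sum_of_support_subset _ h4]
    have h5 := congrArg (fun r : ℝ => (r : ℂ)) h1
    push_cast at h5
    exact h5
  have h1 : C.IsCycle η := by
    cases k with
    | zero => trivial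
    | succ k =>
      intro y
      have h2 := hξ.cyc y
      simp only [CellComplex.toFreeRes_coef] at h2
      have h3 := key (fun x => C.d k x y) ξ h2 (by
        have h4 : {x : C.X (k + 1) | (C.toFreeRes hF hE).coef k x y ≠ 0}.Finite :=
          (C.toFreeRes hF hE).finite_coef_right k y
        simp only [CellComplex.toFreeRes_coef] at h4
        exact h4)
      exact h3
  have h2 : C.IsCocycle η := by
    intro z
    have h2 := hξ.cocyc z
    simp only [CellComplex.toFreeRes_coef] at h2
    have h3 := key (fun x => C.d k z x) ξ h2 (by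
      have h4 : {x : C.X k | (C.toFreeRes hF hE).coef k z x ≠ 0}.Finite :=
        (C.toFreeRes hF hE).finite_coef_left k z
      simp only [CellComplex.toFreeRes_coef] at h4
      exact h4)
    exact h3
  have h3 := C.harm_eq_bot_iff k h η h1 h2
  funext x
  have h4 : C.at' η x = 0 := by rw [h3]; rfl
  rw [hη] at h4
  exact_mod_cast h4

end GP

end OS
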