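import Mathlib
import Pool.Agent.Lib.MP_8fe54c_gt.SalRes
import Pool.Agent.Lib.MP_8fe54c_gt.L2Red
import Pool.Agent.Lib.MP_8fe54c_gt.RealAc
import Pool.Agent.Lib.MP_8fe54c_gt.SalHarm

/-!
# The square summable homology of groups with a right-angled Artin subgroup of finite index
-/

namespace OS

universe u v w

/-- no harmonic chains in degree `j + 1` if the mod 2 homology of the clique complex is zero in
degree `j` -/
theorem l2_main {V : Type u} [Fintype V] [LinearOrder V] (G : SimpleGraph V) (j : ℕ)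
    (h : ¬ HasClass G j) (R : FreeRes.{v, u} (RAAG G)) : R.HarmZero ℝ (j + 1) :=
  R.harmZero_of (salRes G) (j + 1)
    (salRes_harmZero (G := G) (k := j + 1) (fun z h1 h2 => real_acyclic j h z h1 h2))

theorem l2_main_of_finiteIndex {V : Type u} [Fintype V] [LinearOrder V] (G : SimpleGraph V) (j : ℕ)
    (h : ¬ HasClass G j) {Γ : Type w} [Group Γ] (φ : RAAG G →* Γ) (hφ : Function.Injective φ)
    [φ.range.FiniteIndex] (R : FreeRes.{v, w} Γ) :
    R.HarmZero ℝ (j + 1) ∧ R.HarmZero ℂ (j + 1) ∧ R.RedZero (j + 1) := by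
  have h1 : R.HarmZero ℝ (j + 1) :=
    (R.comap_harmZero φ hφ (j + 1)).1 (l2_main G j h (R.comap φ hφ))
  exact ⟨h1, R.harmZero_complex _ h1, R.redZero_of_harmZero _ (R.harmZero_complex _ h1)⟩

end OS
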