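import Mathlib
import Pool.Agent.Lib.MP_8fe54c_gt.ArtDefs

/-!
# Braid relations for `1 + p` and `1 + r` in a Temperley-Lieb algebra
-/

namespace OS

open CoxeterSystem

theorem LT_wp_concat {B G : Type*} [Monoid G] (f : B → G) (ω : List B) (i : B) :
    wp f (ω.concat i) = wp f ω * f i := by
  rw [List.concat_eq_append, wp_append, wp_singleton]

theorem LT_wp_even {B G : Type*} [Monoid G] (f : B → G) (i j : B) (k : ℕ) :
    wp f (alternatingWord i j (2 * k)) = (f i * f j) ^ k := by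
  induction k with
  | zero => simp [alternatingWord]
  | succ k ih =>
    have h : 2 * (k + 1) = (2 * k + 1) + 1 := by ring
    rw [h, alternatingWord_succ, LT_wp_concat, alternatingWord_succ, LT_wp_concat, ih, pow_succ,
      mul_assoc]

theorem LT_wp_odd {B G : Type*} [Monoid G] (f : B → G) (i j : B) (k : ℕ) :
    wp f (alternatingWord i j (2 * k + 1)) = f j * (f i * f j) ^ k := by
  rw [alternatingWord_succ, LT_wp_concat, LT_wp_even, mul_pow_mul]

section tl

variable {R : Type*} [Ring R] [Algebra ℝ R] {p r : R} {q X : ℝ}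

/-- the relations of the Temperley-Lieb algebra -/
structure LT_TL (p r : R) (q X : ℝ) : Prop where
  pp : p * p = (-(1 + q)) • p
  rr : r * r = (-(1 + q)) • r
  prp : p * (r * p) = ((X + 2) * q) • p
  rpr : r * (p * r) = ((X + 2) * q) • r

theorem LT_TL.symm (h : LT_TL p r q X) : LT_TL r p q X := ⟨h.rr, h.pp, h.rpr, h.prp⟩

theorem LT_TL.pp' (h : LT_TL p r q X) (z : R) : p * (p * z) = (-(1 + q)) • (p * z) := by
  rw [← mul_assoc, h.pp, smul_mul_assoc]

theorem LT_TL.rr' (h : LT_TL p r q X) (z : R) : r * (r * z) = (-(1 + q)) • (r * z) := by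
  rw [← mul_assoc, h.rr, smul_mul_assoc]

theorem LT_TL.prp' (h : LT_TL p r q X) (z : R) :
    p * (r * (p * z)) = ((X + 2) * q) • (p * z) := by
  rw [← mul_assoc r, ← mul_assoc, h.prp, smul_mul_assoc]

theorem LT_TL.rpr' (h : LT_TL p r q X) (z : R) :
    r * (p * (r * z)) = ((X + 2) * q) • (r * z) := by
  rw [← mul_assoc p, ← mul_assoc, h.rpr, smul_mul_assoc]

/-- the quadratic element annihilates `p` -/
theorem LT_pi_p (h : LT_TL p r q X) :
    (((1 + p) * (1 + r)) * ((1 + p) * (1 + r)) - (X * q) • ((1 + p) * (1 + r)) +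
      (q ^ 2) • (1 : R)) * p = 0 := by
  simp only [mul_add, add_mul, sub_mul, one_mul, mul_one, mul_assoc, smul_mul_assoc, h.pp, h.rr,
    h.prp, h.rpr, h.pp', h.rr', h.prp', h.rpr', mul_smul_comm, smul_add]
  module

/-- the quadratic element annihilates `r` -/
theorem LT_pi_r (h : LT_TL p r q X) :
    (((1 + p) * (1 + r)) * ((1 + p) * (1 + r)) - (X * q) • ((1 + p) * (1 + r)) +
      (q ^ 2) • (1 : R)) * r = 0 := by
  simp only [mul_add, add_mul, sub_mul, one_mul, mul_one, mul_assoc, smul_mul_assoc, h.pp, h.rr,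
    h.prp, h.rpr, h.pp', h.rr', h.prp', h.rpr', mul_smul_comm, smul_add]
  module

/-- the quadratic elements agree -/
theorem LT_pi_eq (h : LT_TL p r q X) :
    ((1 + p) * (1 + r)) * ((1 + p) * (1 + r)) - (X * q) • ((1 + p) * (1 + r)) +
      (q ^ 2) • (1 : R) =
    ((1 + r) * (1 + p)) * ((1 + r) * (1 + p)) - (X * q) • ((1 + r) * (1 + p)) +
      (q ^ 2) • (1 : R) := by
  simp only [mul_add, add_mul, one_mul, mul_one, mul_assoc, smul_mul_assoc, h.pp, h.rr,
    h.prp, h.rpr, h.pp', h.rr', h.prp', h.rpr', mul_smul_comm, smul_add]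
  module

/-- the quadratic element absorbs the powers -/
theorem LT_pi_pow (h : LT_TL p r q X) (k : ℕ) :
    (((1 + p) * (1 + r)) * ((1 + p) * (1 + r)) - (X * q) • ((1 + p) * (1 + r)) +
      (q ^ 2) • (1 : R)) * ((1 + p) * (1 + r)) ^ k =
    ((1 + p) * (1 + r)) * ((1 + p) * (1 + r)) - (X * q) • ((1 + p) * (1 + r)) +
      (q ^ 2) • (1 : R) := by
  induction k with
  | zero => rw [pow_zero, mul_one]
  | succ k ih =>
    rw [pow_succ ((1 + p) * (1 + r)) k, ← mul_assoc, ih]
    rw [← mul_assoc (_ + _) (1 + p), mul_add _ 1 p, LT_pi_p h, mul_one, add_zero, mul_add _ 1 r,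
      LT_pi_r h, mul_one, add_zero]

/-- the general recursion -/
theorem LT_rec {x : R} (k : ℕ) (u : R) :
    x ^ (k + 2) * u = (X * q) • (x ^ (k + 1) * u) - (q ^ 2) • (x ^ k * u) +
      (x * x - (X * q) • x + (q ^ 2) • (1 : R)) * x ^ k * u := by
  have h1 : x ^ (k + 2) = x * x * x ^ k := by rw [pow_succ' x (k + 1), pow_succ' x k, mul_assoc]
  have h2 : x ^ (k + 1) = x * x ^ k := pow_succ' x k
  rw [h1, h2]
  simp only [add_mul, sub_mul, smul_mul_assoc, one_mul, mul_assoc]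
  abel

/-- odd case: the formula for `x ^ k * s - y ^ k * t` -/
theorem LT_odd_formula (h : LT_TL p r q X) {θ : ℝ} (hX : X = 2 * Real.cos (2 * θ)) (k : ℕ) :
    Real.sin θ • (((1 + p) * (1 + r)) ^ k * (1 + p) - ((1 + r) * (1 + p)) ^ k * (1 + r)) =
      (q ^ k * Real.sin ((2 * k + 1) * θ)) • (p - r) := by
  induction k using Nat.twoStepInduction with
  | zero =>
    simp only [pow_zero, one_mul, Nat.cast_zero, mul_zero, zero_add]
    congr 1
    abel
  | one =>
    have hs : Real.sin ((2 * ((1 : ℕ) : ℝ) + 1) * θ) = (X + 1) * Real.sin θ := by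
      have e : (2 * ((1 : ℕ) : ℝ) + 1) * θ = 2 * θ + θ := by push_cast; ring
      rw [e, Real.sin_add, Real.sin_two_mul, hX, Real.cos_two_mul]
      have := Real.sin_sq_add_cos_sq θ
      ring
    rw [hs]
    simp only [pow_one, mul_add, add_mul, one_mul, mul_one, mul_assoc, smul_mul_assoc, h.pp, h.rr,
      h.prp, h.rpr, h.pp', h.rr', h.prp', h.rpr', mul_smul_comm, smul_add]
    module
  | more k ih0 ih1 =>
    rw [LT_rec (X := X) (q := q) k (1 + p), LT_rec (X := X) (q := q) k (1 + r), LT_pi_pow h,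
      LT_pi_pow h.symm]
    have e1 : (((1 + p) * (1 + r)) * ((1 + p) * (1 + r)) - (X * q) • ((1 + p) * (1 + r)) +
        (q ^ 2) • (1 : R)) * (1 + p) =
        ((1 + p) * (1 + r)) * ((1 + p) * (1 + r)) - (X * q) • ((1 + p) * (1 + r)) +
        (q ^ 2) • (1 : R) := by rw [mul_add, LT_pi_p h, mul_one, add_zero]
    have e2 : (((1 + r) * (1 + p)) * ((1 + r) * (1 + p)) - (X * q) • ((1 + r) * (1 + p)) +
        (q ^ 2) • (1 : R)) * (1 + r) =
        ((1 + r) * (1 + p)) * ((1 + r) * (1 + p)) - (X * q) • ((1 + r) * (1 + p)) +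
        (q ^ 2) • (1 : R) := by rw [mul_add, LT_pi_p h.symm, mul_one, add_zero]
    rw [e1, e2, LT_pi_eq h]
    have hs : Real.sin ((2 * ((k + 2 : ℕ) : ℝ) + 1) * θ) =
        X * Real.sin ((2 * ((k + 1 : ℕ) : ℝ) + 1) * θ) - Real.sin ((2 * (k : ℝ) + 1) * θ) := by
      have a1 : (2 * ((k + 2 : ℕ) : ℝ) + 1) * θ = (2 * ((k + 1 : ℕ) : ℝ) + 1) * θ + 2 * θ := by
        push_cast; ring
      have a2 : (2 * (k : ℝ) + 1) * θ = (2 * ((k + 1 : ℕ) : ℝ) + 1) * θ - 2 * θ := by
        push_cast; ring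
      rw [a1, a2, Real.sin_add, Real.sin_sub, hX]
      ring
    have key : Real.sin θ • ((X * q) • (((1 + p) * (1 + r)) ^ (k + 1) * (1 + p)) -
        (q ^ 2) • (((1 + p) * (1 + r)) ^ k * (1 + p)) +
        (((1 + r) * (1 + p)) * ((1 + r) * (1 + p)) - (X * q) • ((1 + r) * (1 + p)) +
        (q ^ 2) • (1 : R)) -
        ((X * q) • (((1 + r) * (1 + p)) ^ (k + 1) * (1 + r)) -
        (q ^ 2) • (((1 + r) * (1 + p)) ^ k * (1 + r)) +
        (((1 + r) * (1 + p)) * ((1 + r) * (1 + p)) - (X * q) • ((1 + r) * (1 + p)) +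
        (q ^ 2) • (1 : R)))) =
        (X * q) • (Real.sin θ • (((1 + p) * (1 + r)) ^ (k + 1) * (1 + p) -
          ((1 + r) * (1 + p)) ^ (k + 1) * (1 + r))) -
        (q ^ 2) • (Real.sin θ • (((1 + p) * (1 + r)) ^ k * (1 + p) -
          ((1 + r) * (1 + p)) ^ k * (1 + r))) := by
      module
    rw [key, ih0, ih1, hs, smul_smul, smul_smul, ← sub_smul]
    congr 1
    ring

/-- even case: the formula for `x ^ k - y ^ k` -/
theorem LT_even_formula (h : LT_TL p r q X) {θ : ℝ} (hX : X = 2 * Real.cos (2 * θ)) (k : ℕ) :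
    (q * Real.sin (2 * θ)) • (((1 + p) * (1 + r)) ^ k - ((1 + r) * (1 + p)) ^ k) =
      (q ^ k * Real.sin (2 * k * θ)) • (p * r - r * p) := by
  induction k using Nat.twoStepInduction with
  | zero => simp
  | one =>
    simp only [pow_one, mul_add, add_mul, one_mul, mul_one, Nat.cast_one]
    module
  | more k ih0 ih1 =>
    have l1 := LT_rec (X := X) (q := q) (x := (1 + p) * (1 + r)) k 1
    have l2 := LT_rec (X := X) (q := q) (x := (1 + r) * (1 + p)) k 1
    simp only [mul_one] at l1 l2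
    rw [l1, l2, LT_pi_pow h, LT_pi_pow h.symm, LT_pi_eq h]
    have hs : Real.sin (2 * ((k + 2 : ℕ) : ℝ) * θ) =
        X * Real.sin (2 * ((k + 1 : ℕ) : ℝ) * θ) - Real.sin (2 * (k : ℝ) * θ) := by
      have a1 : 2 * ((k + 2 : ℕ) : ℝ) * θ = 2 * ((k + 1 : ℕ) : ℝ) * θ + 2 * θ := by
        push_cast; ring
      have a2 : 2 * (k : ℝ) * θ = 2 * ((k + 1 : ℕ) : ℝ) * θ - 2 * θ := by
        push_cast; ring
      rw [a1, a2, Real.sin_add, Real.sin_sub, hX]
      ring
    have key : (q * Real.sin (2 * θ)) • ((X * q) • (((1 + p) * (1 + r)) ^ (k + 1)) -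
        (q ^ 2) • (((1 + p) * (1 + r)) ^ k) +
        (((1 + r) * (1 + p)) * ((1 + r) * (1 + p)) - (X * q) • ((1 + r) * (1 + p)) +
        (q ^ 2) • (1 : R)) -
        ((X * q) • (((1 + r) * (1 + p)) ^ (k + 1)) -
        (q ^ 2) • (((1 + r) * (1 + p)) ^ k) +
        (((1 + r) * (1 + p)) * ((1 + r) * (1 + p)) - (X * q) • ((1 + r) * (1 + p)) +
        (q ^ 2) • (1 : R)))) =
        (X * q) • ((q * Real.sin (2 * θ)) • (((1 + p) * (1 + r)) ^ (k + 1) -
          ((1 + r) * (1 + p)) ^ (k + 1))) -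
        (q ^ 2) • ((q * Real.sin (2 * θ)) • (((1 + p) * (1 + r)) ^ k -
          ((1 + r) * (1 + p)) ^ k)) := by
      module
    rw [key, ih0, ih1, hs, smul_smul, smul_smul, ← sub_smul]
    congr 1
    ring

/-- the braid relation of length `m` -/
theorem LT_braid {B : Type*} {M : CoxeterMatrix B} {f : B → R} {i j : B} (hm : 3 ≤ M i j)
    (hq : q ≠ 0) (hi : f i = 1 + p) (hj : f j = 1 + r)
    (h : LT_TL p r q (2 * Real.cos (2 * (Real.pi / M i j)))) : Braid M f i j := by
  set m := M i j with hm'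
  set θ : ℝ := Real.pi / m with hθ
  have hm0 : (0 : ℝ) < m := by
    have : 0 < m := by omega
    exact_mod_cast this
  have hm3 : (3 : ℝ) ≤ m := by exact_mod_cast hm
  have hpi := Real.pi_pos
  have hθ0 : 0 < θ := div_pos hpi hm0
  have hmθ : (m : ℝ) * θ = Real.pi := by
    rw [hθ]
    field_simp
  unfold Braid
  rw [← hm']
  rcases Nat.even_or_odd' m with ⟨k, hk | hk⟩
  · rw [hk, LT_wp_even, LT_wp_even, hi, hj]
    have h1 := LT_even_formula h (θ := θ) rfl k
    have h2 : (2 : ℝ) * k * θ = Real.pi := by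
      rw [← hmθ, hk]; push_cast; ring
    rw [h2, Real.sin_pi, mul_zero, zero_smul] at h1
    have h3 : Real.sin (2 * θ) ≠ 0 := by
      apply ne_of_gt
      apply Real.sin_pos_of_pos_of_lt_pi (by positivity)
      rw [← hmθ]
      nlinarith
    rcases smul_eq_zero.mp h1 with h4 | h4
    · exact absurd h4 (mul_ne_zero hq h3)
    · exact sub_eq_zero.mp h4
  · rw [hk, LT_wp_odd, LT_wp_odd, hi, hj]
    have h1 := LT_odd_formula h (θ := θ) rfl k
    have h2 : (2 * (k : ℝ) + 1) * θ = Real.pi := by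
      rw [← hmθ, hk]; push_cast; ring
    rw [h2, Real.sin_pi, mul_zero, zero_smul] at h1
    have h3 : Real.sin θ ≠ 0 := by
      apply ne_of_gt
      apply Real.sin_pos_of_pos_of_lt_pi hθ0
      rw [← hmθ]
      nlinarith
    rcases smul_eq_zero.mp h1 with h4 | h4
    · exact absurd h4 h3
    · rw [sub_eq_zero, mul_pow_mul, mul_pow_mul] at h4
      exact h4.symm

end tl

end OS
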