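import Mathlib
import Pool.Agent.Lib.MP_8fe54c_gt.ArtCos
import Pool.Agent.Lib.MP_8fe54c_gt.ArtHom

/-!
# The coset complex of an Artin group is exact in degrees `0` and `1`
-/

set_option linter.unusedSectionVars false

namespace OS

open CoxeterSystem Finsupp GP

section lt

variable {B : Type*}

/-- two generators with a relation generate a finite Coxeter group -/
theorem LT_pair (M : CoxeterMatrix B) [DecidableEq B] {s t : B} (hst : M s t ≠ 0) :
    Spher M {s, t} := by
  set cs := M.toCoxeterSystem with hcs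
  set a := cs.simple s with ha
  set b := cs.simple t with hb
  have haa : a * a = 1 := cs.simple_mul_simple_self s
  have hbb : b * b = 1 := cs.simple_mul_simple_self t
  have hab : (a * b) ^ (M s t) = 1 := cs.simple_mul_simple_pow s t
  have hai : a⁻¹ = a := inv_eq_of_mul_eq_one_right haa
  have hbi : b⁻¹ = b := inv_eq_of_mul_eq_one_right hbb
  have hfo : IsOfFinOrder (a * b) := isOfFinOrder_iff_pow_eq_one.mpr
    ⟨M s t, Nat.pos_of_ne_zero hst, hab⟩
  have hfin : ((Subgroup.zpowers (a * b) : Subgroup _) : Set M.Group).Finite := by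
    have : Finite (Subgroup.zpowers (a * b)) := hfo.finite_zpowers
    exact Set.toFinite _
  have hconj : ∀ k : ℤ, a * (a * b) ^ k = (a * b) ^ (-k) * a := by
    intro k
    have h1 : a * (a * b) * a⁻¹ = (a * b)⁻¹ := by
      rw [mul_inv_rev, hai, hbi, ← mul_assoc, haa, one_mul]
    have h2 : a * (a * b) ^ k * a⁻¹ = (a * b) ^ (-k) := by
      rw [← conj_zpow, h1, inv_zpow, zpow_neg]
    rw [← h2, hai, mul_assoc, haa, mul_one]
  have hsub : ((WP cs (({s, t} : Finset B) : Set B) : Subgroup _) : Set M.Group) ⊆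
      (Subgroup.zpowers (a * b) : Set M.Group) ∪
        (fun x => x * a) '' (Subgroup.zpowers (a * b) : Set M.Group) := by
    intro x hx
    induction hx using Subgroup.closure_induction with
    | mem x hx =>
      obtain ⟨i, hi, rfl⟩ := hx
      have hi' : i = s ∨ i = t := by simpa using hi
      rcases hi' with rfl | rfl
      · exact Or.inr ⟨1, Subgroup.one_mem _, one_mul _⟩
      · refine Or.inr ⟨(a * b)⁻¹, Subgroup.inv_mem _ (Subgroup.mem_zpowers _), ?_⟩
        show (a * b)⁻¹ * a = b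
        rw [mul_inv_rev, hai, hbi, mul_assoc, haa, mul_one]
    | one => exact Or.inl (Subgroup.one_mem _)
    | mul x y _ _ ihx ihy =>
      rcases ihx with ⟨k, rfl⟩ | ⟨_, ⟨k, rfl⟩, rfl⟩ <;>
        rcases ihy with ⟨l, rfl⟩ | ⟨_, ⟨l, rfl⟩, rfl⟩
      · exact Or.inl ⟨k + l, zpow_add _ _ _⟩
      · exact Or.inr ⟨_, ⟨k + l, zpow_add _ _ _⟩, by simp only; rw [mul_assoc]⟩
      · refine Or.inr ⟨_, ⟨k + (-l), zpow_add _ _ _⟩, ?_⟩
        simp only
        rw [mul_assoc, mul_assoc, hconj]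
      · refine Or.inl ⟨k + (-l), ?_⟩
        simp only
        rw [zpow_add, mul_assoc _ a, ← mul_assoc a, hconj, mul_assoc _ a a, haa, mul_one]
    | inv x _ ih =>
      rcases ih with ⟨k, rfl⟩ | ⟨_, ⟨k, rfl⟩, rfl⟩
      · exact Or.inl ⟨-k, zpow_neg _ _⟩
      · refine Or.inr ⟨_, ⟨k, rfl⟩, ?_⟩
        simp only
        rw [mul_inv_rev, hai, ← zpow_neg, hconj, neg_neg]
  have h3 := (hfin.union (hfin.image (fun x => x * a))).subset hsub
  exact h3.to_subtype

variable [LinearOrder B] (M : CoxeterMatrix B)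

/-- the action on the cells -/
def LT_act (g : Artin M) (c : AR15a_Cel (artinSys M)) : AR15a_Cel (artinSys M) :=
  ⟨c.1, (c.2.1, g • c.2.2)⟩

/-- the action on the chains -/
noncomputable def LT_L (g : Artin M) :
    (AR15a_Cel (artinSys M) →₀ ℤ) →+ (AR15a_Cel (artinSys M) →₀ ℤ) :=
  Finsupp.mapDomain.addMonoidHom (LT_act M g)

theorem LT_L_single (g : Artin M) (c : AR15a_Cel (artinSys M)) (a : ℤ) :
    LT_L M g (single c a) = single (LT_act M g c) a := Finsupp.mapDomain_single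

theorem LT_L_one (x : AR15a_Cel (artinSys M) →₀ ℤ) : LT_L M 1 x = x := by
  have : LT_act M 1 = id := by
    funext c
    obtain ⟨σ, τ, q⟩ := c
    show (⟨σ, (τ, (1 : Artin M) • q)⟩ : AR15a_Cel (artinSys M)) = _
    rw [one_smul]
    rfl
  show mapDomain (LT_act M 1) x = x
  rw [this, mapDomain_id]

theorem LT_L_mul (g h : Artin M) (x : AR15a_Cel (artinSys M) →₀ ℤ) :
    LT_L M (g * h) x = LT_L M g (LT_L M h x) := by
  have : LT_act M (g * h) = LT_act M g ∘ LT_act M h := by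
    funext c
    obtain ⟨σ, τ, q⟩ := c
    show (⟨σ, (τ, (g * h : Artin M) • q)⟩ : AR15a_Cel (artinSys M)) = _
    rw [mul_smul]
    rfl
  show mapDomain (LT_act M (g * h)) x = mapDomain _ (mapDomain _ x)
  rw [this, mapDomain_comp]

theorem LT_L_dC (g : Artin M) (x : AR15a_Cel (artinSys M) →₀ ℤ) :
    AR15a_dC (artinSys M) (LT_L M g x) = LT_L M g (AR15a_dC (artinSys M) x) := by
  have := AR15a_ext (artinSys M) (F := (AR15a_dC (artinSys M)).comp (LT_L M g))
    (G := (LT_L M g).comp (AR15a_dC (artinSys M))) (x := x) (fun c _ a => by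
      obtain ⟨σ, τ, q⟩ := c
      rw [AddMonoidHom.comp_apply, AddMonoidHom.comp_apply, LT_L_single, AR15a_dC_single,
        AR15a_dC_single]
      unfold AR15a_dcel LT_act
      simp only
      rw [map_sum]
      refine Finset.sum_congr rfl fun v _ => ?_
      have hp : (artinSys M).pr (Finset.subset_insert v σ) (g • q) =
        g • (artinSys M).pr (Finset.subset_insert v σ) q := cosSys_pr_smul _ _ g _ q
      rw [map_zsmul, map_sub, LT_L_single, LT_L_single, hp]
      rfl)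
  exact this

theorem LT_L_chn (K : Finset B → Prop) (T : Finset B) (p : ℕ) (g : Artin M)
    {x : AR15a_Cel (artinSys M) →₀ ℤ} (hx : AR15a_Chn (artinSys M) K T p x) :
    AR15a_Chn (artinSys M) K T p (LT_L M g x) := by
  intro c hc
  have hc' : c ∈ (mapDomain (LT_act M g) x).support := hc
  classical
  have := Finsupp.mapDomain_support hc'
  rw [Finset.mem_image] at this
  obtain ⟨c', h', rfl⟩ := this
  exact hx c' h'

/-- the coset of `g` -/
def LT_q (g : Artin M) (σ : Finset B) : (artinSys M).Q σ :=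
  ((g : Artin M) : Artin M ⧸ AP M (σ : Set B))

theorem LT_pr (g : Artin M) {σ τ : Finset B} (h : σ ⊆ τ) :
    (artinSys M).pr h (LT_q M g σ) = LT_q M g τ := rfl

theorem LT_smul_q (g h : Artin M) (σ : Finset B) : g • LT_q M h σ = LT_q M (g * h) σ := rfl

theorem LT_q_surj {σ : Finset B} (x : (artinSys M).Q σ) : ∃ g, x = LT_q M g σ := by
  obtain ⟨g, rfl⟩ := QuotientGroup.mk_surjective x
  exact ⟨g, rfl⟩

theorem LT_q_eq {g h : Artin M} {σ : Finset B} :
    LT_q M g σ = LT_q M h σ ↔ g⁻¹ * h ∈ AP M (σ : Set B) := QuotientGroup.eq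

/-- the vertex `(g, σ)` -/
def LT_v (g : Artin M) (σ : Finset B) : AR15a_Cel (artinSys M) := ⟨σ, (σ, LT_q M g σ)⟩

/-- the edge `(g, σ ⊆ σ ∪ v)` -/
def LT_e (g : Artin M) (σ τ : Finset B) : AR15a_Cel (artinSys M) := ⟨σ, (τ, LT_q M g σ)⟩

theorem LT_act_v (g h : Artin M) (σ : Finset B) : LT_act M g (LT_v M h σ) = LT_v M (g * h) σ :=
  rfl

theorem LT_act_e (g h : Artin M) (σ τ : Finset B) :
    LT_act M g (LT_e M h σ τ) = LT_e M (g * h) σ τ := rfl

theorem LT_v_coset {g h : Artin M} {σ : Finset B} (hh : h ∈ AP M (σ : Set B)) :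
    LT_v M (g * h) σ = LT_v M g σ := by
  unfold LT_v
  have : LT_q M (g * h) σ = LT_q M g σ := by
    rw [LT_q_eq, mul_inv_rev, mul_assoc, inv_mul_cancel, mul_one]
    exact inv_mem hh
  rw [this]

theorem LT_dC_e (g : Artin M) (σ : Finset B) (v : B) (hv : v ∉ σ) :
    AR15a_dC (artinSys M) (single (LT_e M g σ (insert v σ)) (1 : ℤ)) =
      single (LT_v M g σ) 1 - single (LT_v M g (insert v σ)) 1 := by
  rw [AR15a_dC_single]
  unfold AR15a_dcel
  show ∑ w ∈ insert v σ \ σ, sgnV (insert v σ \ σ) w • _ = _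
  have h1 : insert v σ \ σ = {v} := by
    rw [Finset.insert_sdiff_of_notMem _ hv, Finset.sdiff_self]
    rfl
  rw [h1, Finset.sum_singleton]
  have h2 : sgnV {v} v = 1 := by
    have h4 : (({v} : Finset B).filter (fun u => u < v)) = ∅ := by
      ext w
      simp only [Finset.mem_filter, Finset.mem_singleton, Finset.notMem_empty, iff_false, not_and]
      rintro rfl
      exact lt_irrefl _
    unfold sgnV
    rw [h4, Finset.card_empty, pow_zero]
  have h3 : (insert v σ).erase v = σ := Finset.erase_insert hv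
  rw [h2, one_smul]
  show single (⟨σ, ((insert v σ).erase v, LT_q M g σ)⟩ : AR15a_Cel (artinSys M)) (1 : ℤ) - _ = _
  rw [h3]
  rfl

/-- the boundaries of the chains of dimension `p + 1` -/
def LT_Bd (T : Finset B) (p : ℕ) : AddSubgroup (AR15a_Cel (artinSys M) →₀ ℤ) where
  carrier := {z | ∃ y, AR15a_Chn (artinSys M) (Spher M) T (p + 1) y ∧ AR15a_dC (artinSys M) y = z}
  zero_mem' := ⟨0, AR15a_chn_zero _ _ _ _, map_zero _⟩
  add_mem' := by
    rintro _ _ ⟨y, hy, rfl⟩ ⟨y', hy', rfl⟩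
    exact ⟨y + y', AR15a_chn_add _ _ _ _ hy hy', map_add _ _ _⟩
  neg_mem' := by
    rintro _ ⟨y, hy, rfl⟩
    exact ⟨-y, AR15a_chn_neg _ _ _ _ hy, map_neg _ _⟩

/-- the quotient by the boundaries -/
abbrev LT_Q (T : Finset B) (p : ℕ) := (AR15a_Cel (artinSys M) →₀ ℤ) ⧸ LT_Bd M T p

/-- the quotient map -/
noncomputable abbrev LT_pi (T : Finset B) (p : ℕ) : (AR15a_Cel (artinSys M) →₀ ℤ) →+ LT_Q M T p :=
  QuotientAddGroup.mk' (LT_Bd M T p)

theorem LT_pi_eq_zero {T : Finset B} {p : ℕ} {x : AR15a_Cel (artinSys M) →₀ ℤ}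
    (h : LT_pi M T p x = 0) :
    ∃ y, AR15a_Chn (artinSys M) (Spher M) T (p + 1) y ∧ AR15a_dC (artinSys M) y = x := by
  have h1 : x ∈ LT_Bd M T p := (QuotientAddGroup.eq_zero_iff x).mp h
  exact h1

theorem LT_pi_dC {T : Finset B} {p : ℕ} {y : AR15a_Cel (artinSys M) →₀ ℤ}
    (h : AR15a_Chn (artinSys M) (Spher M) T (p + 1) y) :
    LT_pi M T p (AR15a_dC (artinSys M) y) = 0 :=
  (QuotientAddGroup.eq_zero_iff _).mpr ⟨y, h, rfl⟩

/-- the action on the quotient -/
noncomputable def LT_LQ (T : Finset B) (p : ℕ) (g : Artin M) : LT_Q M T p →+ LT_Q M T p :=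
  QuotientAddGroup.map _ _ (LT_L M g) (by
    rintro _ ⟨y, hy, rfl⟩
    exact ⟨LT_L M g y, LT_L_chn M _ _ _ g hy, LT_L_dC M g y⟩)

theorem LT_LQ_pi (T : Finset B) (p : ℕ) (g : Artin M) (x : AR15a_Cel (artinSys M) →₀ ℤ) :
    LT_LQ M T p g (LT_pi M T p x) = LT_pi M T p (LT_L M g x) := rfl

theorem LT_LQ_one (T : Finset B) (p : ℕ) (v : LT_Q M T p) : LT_LQ M T p 1 v = v := by
  obtain ⟨x, rfl⟩ := QuotientAddGroup.mk'_surjective _ v
  rw [LT_LQ_pi, LT_L_one]

theorem LT_LQ_mul (T : Finset B) (p : ℕ) (g h : Artin M) (v : LT_Q M T p) :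
    LT_LQ M T p (g * h) v = LT_LQ M T p g (LT_LQ M T p h v) := by
  obtain ⟨x, rfl⟩ := QuotientAddGroup.mk'_surjective _ v
  rw [LT_LQ_pi, LT_LQ_pi, LT_LQ_pi, LT_L_mul]

/-- the permutations of the quotient -/
noncomputable def LT_P (T : Finset B) (p : ℕ) : Artin M →* Equiv.Perm (LT_Q M T p) where
  toFun g :=
    { toFun := LT_LQ M T p g
      invFun := LT_LQ M T p g⁻¹
      left_inv := fun v => by rw [← LT_LQ_mul, inv_mul_cancel, LT_LQ_one]
      right_inv := fun v => by rw [← LT_LQ_mul, mul_inv_cancel, LT_LQ_one] }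
  map_one' := by
    ext1 v
    exact LT_LQ_one M T p v
  map_mul' g h := by
    ext1 v
    exact LT_LQ_mul M T p g h v

theorem LT_P_apply (T : Finset B) (p : ℕ) (g : Artin M) (v : LT_Q M T p) :
    LT_P M T p g v = LT_LQ M T p g v := rfl

theorem LT_single_supp {c : AR15a_Cel (artinSys M)} {K : Finset B → Prop} {T : Finset B} {p : ℕ}
    (h : AR15a_IsCel (artinSys M) K T p c) (a : ℤ) : AR15a_Chn (artinSys M) K T p (single c a) := by
  rw [AR15a_Chn_iff]
  exact Finsupp.single_mem_supported _ _ h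

theorem LT_v_isCel {T σ : Finset B} (hσ : Spher M σ) (h : σ ⊆ T) (g : Artin M) :
    AR15a_IsCel (artinSys M) (Spher M) T 0 (LT_v M g σ) :=
  ⟨subset_refl _, hσ, h, by
    show (σ \ σ).card = 0
    simp⟩

theorem LT_e_isCel {T σ : Finset B} {v : B} (hv : v ∉ σ) (hσ : Spher M (insert v σ))
    (h : insert v σ ⊆ T) (g : Artin M) :
    AR15a_IsCel (artinSys M) (Spher M) T 1 (LT_e M g σ (insert v σ)) :=
  ⟨Finset.subset_insert _ _, hσ, h, by
    show (insert v σ \ σ).card = 1
    rw [Finset.insert_sdiff_of_notMem _ hv, Finset.sdiff_self]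
    rfl⟩

/-- the edge path from `(1, ∅)` to `(1, σ)` -/
theorem LT_path (σ : Finset B) (hσ : Spher M σ) :
    ∃ b : AR15a_Cel (artinSys M) →₀ ℤ, AR15a_Chn (artinSys M) (Spher M) σ 1 b ∧
      AR15a_dC (artinSys M) b = single (LT_v M 1 ∅) 1 - single (LT_v M 1 σ) 1 := by
  have hbase := AR15a_base (artinSys M) (A := ℤ) (Spher M) spher_mono σ hσ
  refine hbase.zero _ (AR15a_chn_sub _ _ _ _
    (LT_single_supp M (LT_v_isCel M spher_empty (Finset.empty_subset _) 1) 1)
    (LT_single_supp M (LT_v_isCel M hσ (subset_refl _) 1) 1)) ?_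
  rw [map_sub]
  unfold LT_v
  rw [AR15a_eps_single _ σ ∅ ∅ _ (Finset.empty_subset σ), AR15a_eps_single _ σ σ σ _ (subset_refl σ)]
  exact sub_self _

/-- the potential on the vertices over the identity -/
theorem LT_pot (T : Finset B) : ∃ p : Finset B → LT_Q M T 1, p ∅ = 0 ∧
    ∀ (σ : Finset B) (v : B), v ∉ σ → insert v σ ⊆ T → Spher M (insert v σ) →
      LT_pi M T 1 (single (LT_e M 1 σ (insert v σ)) 1) = p σ - p (insert v σ) := by
  classical
  have hch : ∀ σ : Finset B, ∃ b : AR15a_Cel (artinSys M) →₀ ℤ, (σ = ∅ → b = 0) ∧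
      (Spher M σ → AR15a_Chn (artinSys M) (Spher M) σ 1 b ∧
        AR15a_dC (artinSys M) b = single (LT_v M 1 ∅) 1 - single (LT_v M 1 σ) 1) := by
    intro σ
    by_cases h0 : σ = ∅
    · refine ⟨0, fun _ => rfl, fun _ => ⟨AR15a_chn_zero _ _ _ _, ?_⟩⟩
      rw [h0, map_zero, sub_self]
    · by_cases h1 : Spher M σ
      · obtain ⟨b, hb⟩ := LT_path M σ h1
        exact ⟨b, fun h => absurd h h0, fun _ => hb⟩
      · exact ⟨0, fun _ => rfl, fun h => absurd h h1⟩
  choose b hb0 hb using hch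
  refine ⟨fun σ => - LT_pi M T 1 (b σ), ?_, ?_⟩
  · simp only
    rw [hb0 ∅ rfl, map_zero, neg_zero]
  · intro σ v hv hT hs
    have hs' : Spher M σ := spher_mono _ _ (Finset.subset_insert v σ) hs
    obtain ⟨c1, d1⟩ := hb σ hs'
    obtain ⟨c2, d2⟩ := hb (insert v σ) hs
    have hz : AR15a_Chn (artinSys M) (Spher M) (insert v σ) 1
        (b σ + single (LT_e M 1 σ (insert v σ)) 1 - b (insert v σ)) :=
      AR15a_chn_sub _ _ _ _ (AR15a_chn_add _ _ _ _
        (AR15a_chn_mono _ _ (Finset.subset_insert v σ) _ _ c1)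
        (LT_single_supp M (LT_e_isCel M hv hs (subset_refl _) 1) 1)) c2
    have hdz : AR15a_dC (artinSys M)
        (b σ + single (LT_e M 1 σ (insert v σ)) 1 - b (insert v σ)) = 0 := by
      rw [map_sub, map_add, d1, d2, LT_dC_e M 1 σ v hv]
      abel
    obtain ⟨y, hy, hyd⟩ := (AR15a_base (artinSys M) (A := ℤ) (Spher M) spher_mono _ hs).succ 0 _
      hz hdz
    have h1 := LT_pi_dC M (AR15a_chn_mono _ _ hT _ _ hy)
    rw [hyd, map_sub, map_add] at h1
    simp only
    have h2 : LT_pi M T 1 (single (LT_e M 1 σ (insert v σ)) 1) =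
        LT_pi M T 1 (b (insert v σ)) - LT_pi M T 1 (b σ) := by
      rw [← sub_eq_zero, ← h1]
      abel
    rw [h2]
    abel

end lt

end OS
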