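import Mathlib
import Pool.Agent.Lib.MP_8fe54c_gt.LtH1

/-!
# Exactness of the coset complex in degree `1`
-/

set_option linter.unusedSectionVars false

namespace OS

open CoxeterSystem Finsupp GP

section lt

variable {B : Type*} [LinearOrder B] (M : CoxeterMatrix B)

/-- the edges over the identity are fixed by the stabiliser of the start -/
theorem LT_edge_fix {T σ : Finset B} {τ : Finset B} {i : B} (hi : i ∈ σ) :
    LT_LQ M T 1 (ar i) (LT_pi M T 1 (single (LT_e M 1 σ τ) 1)) =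
      LT_pi M T 1 (single (LT_e M 1 σ τ) 1) := by
  rw [LT_LQ_pi, LT_L_single, LT_act_e]
  have : LT_e M (ar i * 1) σ τ = LT_e M 1 σ τ := by
    unfold LT_e
    have h : LT_q M (ar i * 1) σ = LT_q M 1 σ := by
      rw [LT_q_eq, mul_one, mul_one]
      exact inv_mem (ar_mem_AP (Finset.mem_coe.mpr hi))
    rw [h]
  rw [this]

/-- the translation part of a generator -/
theorem LT_u (T : Finset B) {p : Finset B → LT_Q M T 1}
    (hp : ∀ (σ : Finset B) (v : B), v ∉ σ → insert v σ ⊆ T → Spher M (insert v σ) →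
      LT_pi M T 1 (single (LT_e M 1 σ (insert v σ)) 1) = p σ - p (insert v σ))
    {i : B} (σ : Finset B) (hi : i ∈ σ) (hT : σ ⊆ T) (hs : Spher M σ) :
    p σ - LT_LQ M T 1 (ar i) (p σ) = p {i} - LT_LQ M T 1 (ar i) (p {i}) := by
  classical
  have key : ∀ ρ : Finset B, insert i ρ ⊆ T → Spher M (insert i ρ) →
      p (insert i ρ) - LT_LQ M T 1 (ar i) (p (insert i ρ)) =
        p {i} - LT_LQ M T 1 (ar i) (p {i}) := by
    intro ρ
    induction ρ using Finset.induction_on with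
    | empty => intro _ _; rfl
    | insert v ρ hv ih =>
      intro hT hs
      have e : insert i (insert v ρ) = insert v (insert i ρ) := Finset.insert_comm i v ρ
      rw [e] at hT hs ⊢
      by_cases hvi : v ∈ insert i ρ
      · rw [Finset.insert_eq_of_mem hvi] at hT hs ⊢
        exact ih hT hs
      · have h1 := hp _ v hvi hT hs
        have h2 := LT_edge_fix M (T := T) (σ := insert i ρ) (τ := insert v (insert i ρ))
          (Finset.mem_insert_self i ρ)
        rw [h1, map_sub] at h2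
        have h3 := ih ((Finset.subset_insert _ _).trans hT)
          (spher_mono _ _ (Finset.subset_insert _ _) hs)
        rw [← h3]
        have h4 : p (insert i ρ) - p (insert v (insert i ρ)) -
          (LT_LQ M T 1 (ar i) (p (insert i ρ)) -
            LT_LQ M T 1 (ar i) (p (insert v (insert i ρ)))) = 0 := by rw [h2, sub_self]
        rw [← sub_eq_zero, ← neg_eq_zero, ← h4]
        abel
  have h := key σ
  rw [Finset.insert_eq_of_mem hi] at h
  exact h hT hs

/-- the cocycle -/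
theorem LT_cocycle (T : Finset B) {p : Finset B → LT_Q M T 1}
    (hp : ∀ (σ : Finset B) (v : B), v ∉ σ → insert v σ ⊆ T → Spher M (insert v σ) →
      LT_pi M T 1 (single (LT_e M 1 σ (insert v σ)) 1) = p σ - p (insert v σ)) :
    ∃ D : Artin M → LT_Q M T 1,
      (∀ a ∈ AP M (T : Set B), ∀ b ∈ AP M (T : Set B), D (a * b) = D a + LT_LQ M T 1 a (D b)) ∧
      ∀ i ∈ T, D (ar i) = p {i} - LT_LQ M T 1 (ar i) (p {i}) := by
  classical
  let u : B → LT_Q M T 1 := fun i => p {i} - LT_LQ M T 1 (ar i) (p {i})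
  let f : B → Equiv.Perm (LT_Q M T 1) := fun i => Equiv.addRight (u i) * LT_P M T 1 (ar i)
  have hf : ∀ i v, f i v = LT_LQ M T 1 (ar i) v + u i := fun i v => rfl
  have hbr : ∀ i ∈ (T : Set B), ∀ j ∈ (T : Set B), Braid M f i j := by
    intro i hi j hj
    by_cases h0 : M i j = 0
    · unfold Braid
      rw [h0]
      rfl
    · have hs := LT_pair M h0
      have hT : ({i, j} : Finset B) ⊆ T := by
        intro x hx
        rw [Finset.mem_insert, Finset.mem_singleton] at hx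
        rcases hx with rfl | rfl
        · exact hi
        · exact hj
      let τ : Equiv.Perm (LT_Q M T 1) := Equiv.addRight (p {i, j})
      let C : Artin M →* Equiv.Perm (LT_Q M T 1) := (MulAut.conj τ).toMonoidHom.comp (LT_P M T 1)
      have hC : ∀ a v, C a v = LT_LQ M T 1 a v + (p {i, j} - LT_LQ M T 1 a (p {i, j})) := by
        intro a v
        show LT_P M T 1 a (v + -p {i, j}) + p {i, j} = _
        rw [LT_P_apply, map_add, map_neg]
        abel
      refine AR14_braid_congr (f' := fun k => C (ar k)) ?_ ?_ ((ar_braid i j).map C)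
      · ext1 v
        rw [hf, hC, LT_u M T hp {i, j} (by simp) hT hs]
      · ext1 v
        rw [hf, hC, LT_u M T hp {i, j} (by simp) hT hs]
  obtain ⟨F, hF⟩ := exists_hom_AP (T : Set B) f hbr
  have haff : ∀ a : AP M (T : Set B), ∃ d, ∀ v, F a v = LT_LQ M T 1 (a : Artin M) v + d := by
    rintro ⟨a, ha⟩
    induction ha using Subgroup.closure_induction with
    | mem x hx =>
      obtain ⟨i, hi, rfl⟩ := hx
      refine ⟨u i, fun v => ?_⟩
      have h4 : F ⟨ar i, ar_mem_AP hi⟩ v = LT_LQ M T 1 (ar i : Artin M) v + u i := by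
        rw [hF i hi, hf]
      exact h4
    | one =>
      refine ⟨0, fun v => ?_⟩
      rw [add_zero, LT_LQ_one]
      show F 1 v = v
      rw [map_one]
      rfl
    | mul x y hx hy ihx ihy =>
      obtain ⟨d, hd⟩ := ihx
      obtain ⟨d', hd'⟩ := ihy
      refine ⟨LT_LQ M T 1 x d' + d, fun v => ?_⟩
      have h3 : F ⟨x * y, mul_mem hx hy⟩ v = F ⟨x, hx⟩ (F ⟨y, hy⟩ v) := by
        have : (⟨x * y, mul_mem hx hy⟩ : AP M (T : Set B)) = ⟨x, hx⟩ * ⟨y, hy⟩ := rfl
        rw [this, map_mul]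
        rfl
      show F ⟨x * y, mul_mem hx hy⟩ v = LT_LQ M T 1 (x * y) v + _
      rw [h3, hd' v, hd, map_add, LT_LQ_mul]
      abel
    | inv x hx ih =>
      obtain ⟨d, hd⟩ := ih
      refine ⟨-LT_LQ M T 1 x⁻¹ d, fun v => ?_⟩
      have h3 : F ⟨x, hx⟩ (F ⟨x⁻¹, inv_mem hx⟩ v) = v := by
        have : (⟨x⁻¹, inv_mem hx⟩ : AP M (T : Set B)) = (⟨x, hx⟩ : AP M (T : Set B))⁻¹ := rfl
        rw [this, map_inv]
        exact (F ⟨x, hx⟩).apply_symm_apply v
      rw [hd] at h3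
      have h4 := congrArg (LT_LQ M T 1 x⁻¹) h3
      rw [map_add, ← LT_LQ_mul, inv_mul_cancel, LT_LQ_one] at h4
      show F ⟨x⁻¹, inv_mem hx⟩ v = LT_LQ M T 1 x⁻¹ v + _
      rw [← h4]
      abel
  let D : Artin M → LT_Q M T 1 :=
    fun a => if h : a ∈ AP M (T : Set B) then F ⟨a, h⟩ 0 else 0
  have hD : ∀ a (h : a ∈ AP M (T : Set B)), D a = F ⟨a, h⟩ 0 := fun a h => dif_pos h
  have hD' : ∀ a (h : a ∈ AP M (T : Set B)) v, F ⟨a, h⟩ v = LT_LQ M T 1 a v + D a := by
    intro a h v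
    obtain ⟨d, hd⟩ := haff ⟨a, h⟩
    rw [hD a h, hd v, hd 0, map_zero, zero_add]
  refine ⟨D, ?_, ?_⟩
  · intro a ha b hb
    rw [hD (a * b) (mul_mem ha hb)]
    have : (⟨a * b, mul_mem ha hb⟩ : AP M (T : Set B)) = ⟨a, ha⟩ * ⟨b, hb⟩ := rfl
    rw [this, map_mul]
    show F ⟨a, ha⟩ (F ⟨b, hb⟩ 0) = _
    rw [hD' b hb, hD' a ha, map_zero, zero_add, add_comm]
  · intro i hi
    rw [hD _ (ar_mem_AP (Finset.mem_coe.mpr hi)), hF i (Finset.mem_coe.mpr hi), hf, map_zero,
      zero_add]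

/-- the cocycle on the stabilisers -/
theorem LT_coc_stab (T : Finset B) {p : Finset B → LT_Q M T 1}
    (hp : ∀ (σ : Finset B) (v : B), v ∉ σ → insert v σ ⊆ T → Spher M (insert v σ) →
      LT_pi M T 1 (single (LT_e M 1 σ (insert v σ)) 1) = p σ - p (insert v σ))
    {D : Artin M → LT_Q M T 1}
    (hD : ∀ a ∈ AP M (T : Set B), ∀ b ∈ AP M (T : Set B), D (a * b) = D a + LT_LQ M T 1 a (D b))
    (hDi : ∀ i ∈ T, D (ar i) = p {i} - LT_LQ M T 1 (ar i) (p {i}))
    (σ : Finset B) (hT : σ ⊆ T) (hs : Spher M σ) :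
    ∀ a ∈ AP M (σ : Set B), D a + LT_LQ M T 1 a (p σ) = p σ := by
  have hsub : AP M (σ : Set B) ≤ AP M (T : Set B) := AP_mono (Finset.coe_subset.mpr hT)
  have hD1 : D 1 = 0 := by
    have h := hD 1 (one_mem _) 1 (one_mem _)
    rw [mul_one, LT_LQ_one] at h
    exact left_eq_add.mp h
  intro a ha
  induction ha using Subgroup.closure_induction with
  | mem x hx =>
    obtain ⟨i, hi, rfl⟩ := hx
    have hi' : i ∈ σ := Finset.mem_coe.mp hi
    rw [hDi i (hT hi'), ← LT_u M T hp σ hi' hT hs]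
    abel
  | one => rw [hD1, LT_LQ_one, zero_add]
  | mul x y hx hy ihx ihy =>
    rw [hD x (hsub hx) y (hsub hy), LT_LQ_mul, add_assoc, ← map_add, ihy, ihx]
  | inv x hx ih =>
    have h1 := hD x⁻¹ (inv_mem (hsub hx)) x (hsub hx)
    rw [inv_mul_cancel, hD1] at h1
    have h2 := congrArg (LT_LQ M T 1 x⁻¹) ih
    rw [map_add, ← LT_LQ_mul, inv_mul_cancel, LT_LQ_one] at h2
    rw [← h2]
    have h3 : D x⁻¹ = - LT_LQ M T 1 x⁻¹ (D x) := eq_neg_of_add_eq_zero_left h1.symm
    rw [h3]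
    abel

/-- exactness in degree `1` -/
theorem LT_H1 (T : Finset B) (x : AR15a_Cel (artinSys M) →₀ ℤ)
    (hx : AR15a_Chn (artinSys M) (Spher M) T 1 x) (hd : AR15a_dC (artinSys M) x = 0) :
    ∃ y, AR15a_Chn (artinSys M) (Spher M) T 2 y ∧ AR15a_dC (artinSys M) y = x := by
  classical
  obtain ⟨p, hp0, hp⟩ := LT_pot M T
  obtain ⟨D, hD, hDi⟩ := LT_cocycle M T hp
  have hst := LT_coc_stab M T hp hD hDi
  -- representatives of the cosets of `A_T`
  let ρ : Artin M → Artin M := fun g => (Quotient.out (g : Artin M ⧸ AP M (T : Set B)))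
  have hρ : ∀ g, (ρ g)⁻¹ * g ∈ AP M (T : Set B) := by
    intro g
    have : ((ρ g : Artin M) : Artin M ⧸ AP M (T : Set B)) = (g : Artin M ⧸ AP M (T : Set B)) :=
      Quotient.out_eq' _
    rwa [QuotientGroup.eq] at this
  have hρ' : ∀ g h, h ∈ AP M (T : Set B) → ρ (g * h) = ρ g := by
    intro g h hh
    have : ((g * h : Artin M) : Artin M ⧸ AP M (T : Set B)) = (g : Artin M ⧸ AP M (T : Set B)) := by
      rw [QuotientGroup.eq, mul_inv_rev, mul_assoc, inv_mul_cancel, mul_one]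
      exact inv_mem hh
    show Quotient.out ((g * h : Artin M) : Artin M ⧸ AP M (T : Set B)) = _
    rw [this]
  let P0 : Artin M → Finset B → LT_Q M T 1 := fun g σ =>
    LT_LQ M T 1 (ρ g) (D ((ρ g)⁻¹ * g) + LT_LQ M T 1 ((ρ g)⁻¹ * g) (p σ))
  have hP0 : ∀ g σ h, σ ⊆ T → Spher M σ → h ∈ AP M (σ : Set B) → P0 (g * h) σ = P0 g σ := by
    intro g σ h hT hs hh
    have hhT : h ∈ AP M (T : Set B) := AP_mono (Finset.coe_subset.mpr hT) hh
    show LT_LQ M T 1 (ρ (g * h)) (D ((ρ (g * h))⁻¹ * (g * h)) +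
      LT_LQ M T 1 ((ρ (g * h))⁻¹ * (g * h)) (p σ)) = _
    rw [hρ' g h hhT, ← mul_assoc, hD _ (hρ g) _ hhT, LT_LQ_mul M T 1 ((ρ g)⁻¹ * g) h, add_assoc,
      ← map_add, hst σ hT hs h hh]
  let P : AR15a_Cel (artinSys M) → LT_Q M T 1 := fun c => P0 (Quotient.out c.2.2) c.1
  have hP : ∀ g σ τ, σ ⊆ T → Spher M σ → P (⟨σ, (τ, LT_q M g σ)⟩ : AR15a_Cel (artinSys M)) = P0 g σ := by
    intro g σ τ hT hs
    obtain ⟨⟨a, ha⟩, h1⟩ := QuotientGroup.mk_out_eq_mul (AP M (σ : Set B)) g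
    show P0 (Quotient.out ((g : Artin M) : Artin M ⧸ AP M (σ : Set B))) σ = _
    rw [h1]
    exact hP0 g σ a hT hs ha
  let PP : (AR15a_Cel (artinSys M) →₀ ℤ) →+ LT_Q M T 1 :=
    Finsupp.liftAddHom fun c => (zmultiplesHom _ (P c))
  have hPP : ∀ c, PP (single c 1) = P c := by
    intro c
    show Finsupp.liftAddHom (fun c => (zmultiplesHom _ (P c))) (single c 1) = _
    rw [Finsupp.liftAddHom_apply_single, zmultiplesHom_apply, one_smul]
  have hmain : LT_pi M T 1 x = PP (AR15a_dC (artinSys M) x) := by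
    refine AR15a_ext (artinSys M) (F := LT_pi M T 1) (G := PP.comp (AR15a_dC (artinSys M)))
      (x := x) (fun c hc a => ?_)
    obtain ⟨σ, τ, y⟩ := c
    obtain ⟨h1, h2, h3, h4⟩ := hx _ hc
    simp only at h1 h2 h3 h4
    obtain ⟨g, rfl⟩ := LT_q_surj M y
    obtain ⟨v, hv⟩ := Finset.card_eq_one.mp h4
    have hvσ : v ∉ σ := by
      have : v ∈ τ \ σ := by rw [hv]; exact Finset.mem_singleton_self v
      exact (Finset.mem_sdiff.mp this).2
    have hτ : τ = insert v σ := by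
      rw [Finset.insert_eq, ← hv, Finset.sdiff_union_of_subset h1]
    subst hτ
    have hone : (single (⟨σ, (insert v σ, LT_q M g σ)⟩ : AR15a_Cel (artinSys M)) a) =
        a • single (LT_e M g σ (insert v σ)) (1 : ℤ) := by
      rw [Finsupp.smul_single, smul_eq_mul, mul_one]
      rfl
    rw [hone, map_zsmul, map_zsmul]
    congr 1
    rw [AddMonoidHom.comp_apply, LT_dC_e M g σ v hvσ, map_sub, hPP, hPP]
    have hs : Spher M σ := spher_mono _ _ (Finset.subset_insert _ _) h2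
    have hσT : σ ⊆ T := (Finset.subset_insert _ _).trans h3
    have e1 : P (LT_v M g σ) = P0 g σ := hP g σ σ hσT hs
    have e2 : P (LT_v M g (insert v σ)) = P0 g (insert v σ) := hP g _ _ h3 h2
    rw [e1, e2]
    show _ = LT_LQ M T 1 (ρ g) (D ((ρ g)⁻¹ * g) + LT_LQ M T 1 ((ρ g)⁻¹ * g) (p σ)) -
      LT_LQ M T 1 (ρ g) (D ((ρ g)⁻¹ * g) + LT_LQ M T 1 ((ρ g)⁻¹ * g) (p (insert v σ)))
    rw [← map_sub, add_sub_add_left_eq_sub, ← map_sub, ← hp σ v hvσ h3 h2, ← LT_LQ_mul,
      mul_inv_cancel_left, LT_LQ_pi, LT_L_single, LT_act_e, mul_one]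
  rw [hd, map_zero] at hmain
  exact LT_pi_eq_zero M hmain

end lt

end OS
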