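import Mathlib
import Pool.Agent.Lib.MP_8fe54c_gt.LtCoc

/-!
# Exactness of the coset complex in degree `0`
-/

set_option linter.unusedSectionVars false

namespace OS

open CoxeterSystem Finsupp GP

section lt

variable {B : Type*} [LinearOrder B] (M : CoxeterMatrix B)

theorem LT_single_spher (i : B) : Spher M {i} := by
  have h : Spher M {i, i} := LT_pair M (by rw [M.diagonal]; exact one_ne_zero)
  rwa [Finset.pair_eq_singleton] at h

theorem LT_v_pi {T σ : Finset B} (hT : σ ⊆ T) (hs : Spher M σ) (g : Artin M) :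
    LT_pi M T 0 (single (LT_v M g σ) 1) = LT_pi M T 0 (single (LT_v M g ∅) 1) := by
  obtain ⟨b, hb, hbd⟩ := LT_path M σ hs
  have h1 := LT_pi_dC M (LT_L_chn M _ _ _ g (AR15a_chn_mono _ _ hT _ _ hb))
  rw [LT_L_dC, hbd, map_sub, LT_L_single, LT_L_single, LT_act_v, LT_act_v, mul_one, map_sub,
    sub_eq_zero] at h1
  exact h1.symm

theorem LT_v_move {T : Finset B} : ∀ h ∈ AP M (T : Set B), ∀ g : Artin M,
    LT_pi M T 0 (single (LT_v M (g * h) ∅) 1) = LT_pi M T 0 (single (LT_v M g ∅) 1) := by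
  intro h hh
  induction hh using Subgroup.closure_induction with
  | mem x hx =>
    obtain ⟨i, hi, rfl⟩ := hx
    intro g
    have hT : ({i} : Finset B) ⊆ T := Finset.singleton_subset_iff.mpr (Finset.mem_coe.mp hi)
    rw [← LT_v_pi M hT (LT_single_spher M i), LT_v_coset M (ar_mem_AP (by simp)),
      LT_v_pi M hT (LT_single_spher M i)]
  | one => intro g; rw [mul_one]
  | mul x y _ _ ihx ihy =>
    intro g
    rw [← mul_assoc, ihy, ihx]
  | inv x _ ih =>
    intro g
    have := ih (g * x⁻¹)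
    rw [inv_mul_cancel_right] at this
    exact this.symm

/-- exactness in degree `0` -/
theorem LT_H0 (T : Finset B) (x : AR15a_Cel (artinSys M) →₀ ℤ)
    (hx : AR15a_Chn (artinSys M) (Spher M) T 0 x) (h0 : AR15a_eps (artinSys M) T x = 0) :
    ∃ y, AR15a_Chn (artinSys M) (Spher M) T 1 y ∧ AR15a_dC (artinSys M) y = x := by
  classical
  obtain ⟨o, ho⟩ : ∃ o : (artinSys M).Q T → Artin M, ∀ g, ∃ a ∈ AP M (T : Set B),
      o (LT_q M g T) = g * a := by
    refine ⟨fun q => Quotient.out (show Artin M ⧸ AP M (T : Set B) from q), fun g => ?_⟩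
    obtain ⟨⟨a, ha⟩, h5⟩ := QuotientGroup.mk_out_eq_mul (AP M (T : Set B)) g
    exact ⟨a, ha, h5⟩
  let Ψ : ((artinSys M).Q T →₀ ℤ) →+ LT_Q M T 0 :=
    Finsupp.liftAddHom fun q => (zmultiplesHom _
      (LT_pi M T 0 (single (LT_v M (o q) ∅) 1)))
  have hΨ : ∀ q, Ψ (single q 1) = LT_pi M T 0 (single (LT_v M (o q) ∅) 1) := by
    intro q
    show Finsupp.liftAddHom (fun q => (zmultiplesHom (LT_Q M T 0)
      (LT_pi M T 0 (single (LT_v M (o q) ∅) 1)))) (single q (1 : ℤ)) = _
    rw [Finsupp.liftAddHom_apply_single, zmultiplesHom_apply, one_smul]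
  have hmain : LT_pi M T 0 x = Ψ (AR15a_eps (artinSys M) T x) := by
    refine AR15a_ext (artinSys M) (F := LT_pi M T 0) (G := Ψ.comp (AR15a_eps (artinSys M) T))
      (x := x) (fun c hc a => ?_)
    obtain ⟨σ, τ, y⟩ := c
    obtain ⟨h1, h2, h3, h4⟩ := hx _ hc
    simp only at h1 h2 h3 h4
    obtain ⟨g, rfl⟩ := LT_q_surj M y
    have hτ : τ = σ := by
      refine Finset.Subset.antisymm ?_ h1
      rw [← Finset.sdiff_eq_empty_iff_subset]
      exact Finset.card_eq_zero.mp h4
    subst hτ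
    have hone : (single (⟨τ, (τ, LT_q M g τ)⟩ : AR15a_Cel (artinSys M)) a) =
        a • single (LT_v M g τ) (1 : ℤ) := by
      rw [Finsupp.smul_single, smul_eq_mul, mul_one]
      rfl
    rw [hone, map_zsmul, map_zsmul]
    congr 1
    rw [AddMonoidHom.comp_apply]
    have he : AR15a_eps (artinSys M) T (single (LT_v M g τ) 1) = single (LT_q M g T) (1 : ℤ) :=
      AR15a_eps_single _ T τ τ _ h3 1
    rw [he, hΨ, LT_v_pi M h3 h2]
    obtain ⟨a, ha, h6⟩ := ho g
    rw [h6, LT_v_move M a ha]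
  rw [h0, map_zero] at hmain
  exact LT_pi_eq_zero M hmain

end lt

end OS
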