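import Mathlib
import Pool.Agent.Lib.MP_8fe54c_gt.LtBraid
import Pool.Agent.Lib.MP_8fe54c_gt.ArtTree
import Pool.Agent.Lib.MP_8fe54c_gt.ArtHom

/-!
# A representation of the three-generator Artin groups of large type

The generators act on row vectors by `r ↦ r + r i • φ i`.  If `|r i|` is maximal among the
coordinates, then all the nontrivial powers of the `i`-th generator increase the norm of `r`.
-/

namespace OS

open CoxeterSystem Matrix

/-- the matrix whose only nonzero row is `φ`, in position `i` -/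
def LT_row (i : Fin 3) (φ : Fin 3 → ℝ) : Matrix (Fin 3) (Fin 3) ℝ :=
  Matrix.of fun a b => if a = i then φ b else 0

theorem LT_row_mul (i j : Fin 3) (φ ψ : Fin 3 → ℝ) :
    LT_row i φ * LT_row j ψ = φ j • LT_row i ψ := by
  ext a b
  rw [Matrix.mul_apply, Finset.sum_eq_single j]
  · simp only [LT_row, Matrix.of_apply, if_true, Matrix.smul_apply, smul_eq_mul]
    split_ifs <;> ring
  · intro k _ hk
    simp only [LT_row, Matrix.of_apply, if_neg hk, mul_zero]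
  · intro h
    exact absurd (Finset.mem_univ _) h

theorem LT_vec_row (i : Fin 3) (φ r : Fin 3 → ℝ) : r ᵥ* LT_row i φ = r i • φ := by
  ext b
  rw [Matrix.vecMul, dotProduct, Finset.sum_eq_single i]
  · simp [LT_row]
  · intro k _ hk
    simp [LT_row, hk]
  · intro h
    exact absurd (Finset.mem_univ _) h

/-- the rows -/
noncomputable def LT_phi (c : Fin 3 → ℝ) (i : Fin 3) : Fin 3 → ℝ :=
  fun b => if b = i then -3 else if b = i + 1 then 10 else c (i + 2) / 5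

theorem LT_phi_self (c : Fin 3 → ℝ) (i : Fin 3) : LT_phi c i i = -3 := by
  simp [LT_phi]

theorem LT_phi_next (c : Fin 3 → ℝ) (i : Fin 3) : LT_phi c i (i + 1) = 10 := by
  fin_cases i <;> simp [LT_phi]

theorem LT_phi_prev (c : Fin 3 → ℝ) (i : Fin 3) : LT_phi c (i + 1) i = c i / 5 := by
  fin_cases i <;> simp [LT_phi]

theorem LT_tl (c : Fin 3 → ℝ) (i : Fin 3) {X : ℝ} (hX : c i = X + 2) :
    LT_TL (LT_row i (LT_phi c i)) (LT_row (i + 1) (LT_phi c (i + 1))) 2 X where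
  pp := by
    rw [LT_row_mul, LT_phi_self]
    norm_num
  rr := by
    rw [LT_row_mul, LT_phi_self]
    norm_num
  prp := by
    rw [LT_row_mul, LT_phi_prev, Matrix.mul_smul, LT_row_mul, LT_phi_next, smul_smul, hX]
    congr 1
    ring
  rpr := by
    rw [LT_row_mul, LT_phi_next, Matrix.mul_smul, LT_row_mul, LT_phi_prev, smul_smul, hX]
    congr 1
    ring

/-- the invertible matrices -/
noncomputable def LT_U (c : Fin 3 → ℝ) (i : Fin 3) : (Matrix (Fin 3) (Fin 3) ℝ)ˣ where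
  val := 1 + LT_row i (LT_phi c i)
  inv := 1 + (1 / 2 : ℝ) • LT_row i (LT_phi c i)
  val_inv := by
    have h : LT_row i (LT_phi c i) * LT_row i (LT_phi c i) = (-3 : ℝ) • LT_row i (LT_phi c i) := by
      rw [LT_row_mul, LT_phi_self]
    rw [mul_add, mul_one, Matrix.mul_smul, add_mul, one_mul, h]
    module
  inv_val := by
    have h : LT_row i (LT_phi c i) * LT_row i (LT_phi c i) = (-3 : ℝ) • LT_row i (LT_phi c i) := by
      rw [LT_row_mul, LT_phi_self]
    rw [mul_add, mul_one, add_mul, one_mul, Matrix.smul_mul, h]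
    module

theorem LT_vec_U (c : Fin 3 → ℝ) (i : Fin 3) (r : Fin 3 → ℝ) :
    r ᵥ* ((LT_U c i : (Matrix (Fin 3) (Fin 3) ℝ)ˣ) : Matrix (Fin 3) (Fin 3) ℝ) =
      r + r i • LT_phi c i := by
  show r ᵥ* (1 + LT_row i (LT_phi c i)) = _
  rw [Matrix.vecMul_add, Matrix.vecMul_one, LT_vec_row]

theorem LT_vec_U_inv (c : Fin 3 → ℝ) (i : Fin 3) (r : Fin 3 → ℝ) :
    r ᵥ* (((LT_U c i)⁻¹ : (Matrix (Fin 3) (Fin 3) ℝ)ˣ) : Matrix (Fin 3) (Fin 3) ℝ) =
      r + (r i / 2) • LT_phi c i := by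
  show r ᵥ* (1 + (1 / 2 : ℝ) • LT_row i (LT_phi c i)) = _
  rw [Matrix.vecMul_add, Matrix.vecMul_one, Matrix.vecMul_smul, LT_vec_row, smul_smul]
  congr 2
  ring

theorem LT_pow_coord (c : Fin 3 → ℝ) (i : Fin 3) (r : Fin 3 → ℝ) (n : ℕ) :
    (r ᵥ* ((LT_U c i ^ n : (Matrix (Fin 3) (Fin 3) ℝ)ˣ) : Matrix (Fin 3) (Fin 3) ℝ)) i =
      (-2) ^ n * r i := by
  induction n with
  | zero => simp
  | succ n ih =>
    rw [pow_succ, Units.val_mul, ← Matrix.vecMul_vecMul, LT_vec_U, Pi.add_apply, Pi.smul_apply,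
      LT_phi_self, ih, smul_eq_mul]
    ring

theorem LT_inv_pow (c : Fin 3 → ℝ) (i : Fin 3) (r : Fin 3 → ℝ) (n : ℕ) :
    ∃ β : ℝ, 1 / 4 ≤ β ∧ β ≤ 1 / 2 ∧
      r ᵥ* ((((LT_U c i)⁻¹) ^ (n + 1) : (Matrix (Fin 3) (Fin 3) ℝ)ˣ) :
        Matrix (Fin 3) (Fin 3) ℝ) = r + (β * r i) • LT_phi c i := by
  induction n with
  | zero =>
    refine ⟨1 / 2, by norm_num, le_refl _, ?_⟩
    rw [zero_add, pow_one, LT_vec_U_inv]
    congr 2
    ring
  | succ n ih =>
    obtain ⟨β, h1, h2, h3⟩ := ih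
    refine ⟨1 / 2 - β / 2, by linarith, by linarith, ?_⟩
    rw [pow_succ, Units.val_mul, ← Matrix.vecMul_vecMul, h3, LT_vec_U_inv, Pi.add_apply,
      Pi.smul_apply, LT_phi_self, smul_eq_mul, add_assoc, ← add_smul]
    congr 2
    ring

/-- the nontrivial powers of the generator of a maximal coordinate increase the norm -/
theorem LT_grow (c : Fin 3 → ℝ) (i : Fin 3) (r : Fin 3 → ℝ) (hr : r ≠ 0)
    (hi : ∀ j, |r j| ≤ |r i|) (k : ℤ) (hk : k ≠ 0) :
    ‖r‖ < ‖r ᵥ* ((LT_U c i ^ k : (Matrix (Fin 3) (Fin 3) ℝ)ˣ) : Matrix (Fin 3) (Fin 3) ℝ)‖ := by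
  have hpos : 0 < |r i| := by
    rw [abs_pos]
    intro h
    apply hr
    ext j
    have := hi j
    rw [h, abs_zero] at this
    exact abs_nonpos_iff.mp this
  have hn : ‖r‖ ≤ |r i| := (pi_norm_le_iff_of_nonneg (abs_nonneg _)).mpr fun j => hi j
  refine lt_of_le_of_lt hn ?_
  rcases lt_or_gt_of_ne hk with h | h
  · obtain ⟨n, rfl⟩ : ∃ n : ℕ, k = -((n : ℤ) + 1) := ⟨(-k - 1).toNat, by omega⟩
    have e : LT_U c i ^ (-((n : ℤ) + 1)) = ((LT_U c i)⁻¹) ^ (n + 1) := by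
      rw [← _root_.inv_zpow']
      exact_mod_cast zpow_natCast ((LT_U c i)⁻¹) (n + 1)
    rw [e]
    obtain ⟨β, h1, h2, h3⟩ := LT_inv_pow c i r n
    rw [h3]
    refine lt_of_lt_of_le ?_ (norm_le_pi_norm _ (i + 1))
    rw [Pi.add_apply, Pi.smul_apply, LT_phi_next, smul_eq_mul, Real.norm_eq_abs]
    have h4 := hi (i + 1)
    have h5 : |β * r i * 10| ≤ |r (i + 1) + β * r i * 10| + |r (i + 1)| := by
      calc |β * r i * 10| = |(r (i + 1) + β * r i * 10) - r (i + 1)| := by congr 1; ring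
        _ ≤ _ := abs_sub _ _
    have h6 : |β * r i * 10| = 10 * β * |r i| := by
      rw [abs_mul, abs_mul, abs_of_nonneg (by linarith : (0 : ℝ) ≤ β)]
      norm_num
      ring
    have h7 : (10 / 4 : ℝ) * |r i| ≤ 10 * β * |r i| := by
      apply mul_le_mul_of_nonneg_right _ (abs_nonneg _)
      linarith
    linarith
  · obtain ⟨n, rfl⟩ : ∃ n : ℕ, k = (n : ℤ) + 1 := ⟨(k - 1).toNat, by omega⟩
    have e : LT_U c i ^ ((n : ℤ) + 1) = (LT_U c i) ^ (n + 1) := by
      exact_mod_cast zpow_natCast (LT_U c i) (n + 1)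
    rw [e]
    refine lt_of_lt_of_le ?_ (norm_le_pi_norm _ i)
    rw [LT_pow_coord, Real.norm_eq_abs, abs_mul, abs_pow]
    have h1 : (1 : ℝ) < |(-2 : ℝ)| ^ (n + 1) := one_lt_pow₀ (by norm_num) (Nat.succ_ne_zero n)
    exact lt_mul_of_one_lt_left hpos h1

section artin

variable {B : Type*} {M : CoxeterMatrix B}

theorem LT_braid_units {f : B → (Matrix (Fin 3) (Fin 3) ℝ)ˣ} {i j : B}
    (h : Braid M (fun b => ((f b : (Matrix (Fin 3) (Fin 3) ℝ)ˣ) : Matrix (Fin 3) (Fin 3) ℝ)) i j) :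
    Braid M f i j := by
  unfold Braid at *
  apply Units.ext
  have h1 : ∀ ω : List B, ((wp f ω : (Matrix (Fin 3) (Fin 3) ℝ)ˣ) : Matrix (Fin 3) (Fin 3) ℝ) =
      wp (fun b => ((f b : (Matrix (Fin 3) (Fin 3) ℝ)ˣ) : Matrix (Fin 3) (Fin 3) ℝ)) ω := by
    intro ω
    exact map_wp (Units.coeHom (Matrix (Fin 3) (Fin 3) ℝ)) f ω
  rw [h1, h1, h]

/-- the representation of the parabolic subgroup of a large triangle -/
theorem LT_rep (e : Fin 3 → B) (he : Function.Injective e)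
    (hM : ∀ i j, i ≠ j → 3 ≤ M (e i) (e j)) :
    ∃ (c : Fin 3 → ℝ) (F : AP M (Set.range e) →* (Matrix (Fin 3) (Fin 3) ℝ)ˣ),
      ∀ i : Fin 3, F ⟨ar (e i), ar_mem_AP ⟨i, rfl⟩⟩ = LT_U c i := by
  classical
  let c : Fin 3 → ℝ := fun i => 2 * Real.cos (2 * (Real.pi / M (e i) (e (i + 1)))) + 2
  let f : B → (Matrix (Fin 3) (Fin 3) ℝ)ˣ := fun b =>
    if h : ∃ i, e i = b then LT_U c h.choose else 1
  have hf : ∀ i, f (e i) = LT_U c i := by
    intro i
    have h : ∃ j, e j = e i := ⟨i, rfl⟩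
    show (if h : ∃ j, e j = e i then LT_U c h.choose else 1) = _
    rw [dif_pos h, he h.choose_spec]
  have hne : ∀ i : Fin 3, i ≠ i + 1 := by decide
  have hb : ∀ i : Fin 3, Braid M f (e i) (e (i + 1)) := by
    intro i
    apply LT_braid_units
    refine LT_braid (p := LT_row i (LT_phi c i)) (r := LT_row (i + 1) (LT_phi c (i + 1)))
      (q := 2) (hM i (i + 1) (hne i)) two_ne_zero ?_ ?_ (LT_tl c i rfl)
    · simp only [hf]
      rfl
    · simp only [hf]
      rfl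
  have hsymm : ∀ i j, Braid M f i j → Braid M f j i := by
    intro i j h
    unfold Braid at *
    rw [M.symmetric j i]
    exact h.symm
  have hbr : ∀ x ∈ Set.range e, ∀ y ∈ Set.range e, Braid M f x y := by
    rintro _ ⟨i, rfl⟩ _ ⟨j, rfl⟩
    have hcase : i = j ∨ j = i + 1 ∨ i = j + 1 := by
      revert i j
      decide
    rcases hcase with rfl | rfl | rfl
    · unfold Braid
      rfl
    · exact hb i
    · exact hsymm _ _ (hb j)
  obtain ⟨F, hF⟩ := exists_hom_AP (Set.range e) f hbr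
  exact ⟨c, F, fun i => by rw [hF (e i) ⟨i, rfl⟩, hf]⟩

end artin

end OS
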