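import Mathlib
import Pool.Agent.Lib.MP_8fe54c_gt.LtRep
import Pool.Agent.Lib.MP_8fe54c_gt.LtH0

/-!
# Large triangles: exactness in degree `2`
-/

namespace OS

open CoxeterSystem Finsupp GP Matrix

section lt

variable {B : Type*} [LinearOrder B] {M : CoxeterMatrix B}

/-- a combination of chambers over a large triangle which vanishes on all the panels is zero -/
theorem LT_h2 (e : Fin 3 → B) (he : Function.Injective e)
    (hM : ∀ i j, i ≠ j → 3 ≤ M (e i) (e j)) (x : (artinSys M).Q ∅ →₀ ℤ)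
    (hx : ∀ i, mapDomain ((artinSys M).pr (Finset.empty_subset {e i})) x = 0) : x = 0 := by
  classical
  by_contra hne
  obtain ⟨q0, hq0⟩ := Finsupp.support_nonempty_iff.mpr hne
  obtain ⟨c, F, hF⟩ := LT_rep e he hM
  obtain ⟨o, ho⟩ : ∃ o : (artinSys M).Q ∅ → Artin M, ∀ q, LT_q M (o q) ∅ = q := by
    have h := fun q : (artinSys M).Q ∅ => LT_q_surj M q
    choose o ho using h
    exact ⟨o, fun q => (ho q).symm⟩
  let r0 : Fin 3 → ℝ := fun _ => 1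
  let G : AP M (Set.range e) → (Fin 3 → ℝ) := fun h =>
    r0 ᵥ* ((F h : (Matrix (Fin 3) (Fin 3) ℝ)ˣ) : Matrix (Fin 3) (Fin 3) ℝ)
  let ℓ : (artinSys M).Q ∅ → ℝ := fun q =>
    if h : (o q0)⁻¹ * o q ∈ AP M (Set.range e) then ‖G ⟨_, h⟩‖ else 0
  let S' := x.support.filter (fun q => (o q0)⁻¹ * o q ∈ AP M (Set.range e))
  have hS' : S'.Nonempty := ⟨q0, Finset.mem_filter.mpr ⟨hq0, by
    rw [inv_mul_cancel]
    exact one_mem _⟩⟩
  obtain ⟨q1, hq1, hmax⟩ := Finset.exists_max_image S' ℓ hS'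
  obtain ⟨hq1s, h1⟩ := Finset.mem_filter.mp hq1
  set r : Fin 3 → ℝ := G ⟨_, h1⟩ with hr
  have hℓ1 : ℓ q1 = ‖r‖ := dif_pos h1
  have hr0 : r ≠ 0 := by
    intro h0
    have h2 : r ᵥ* (((F ⟨_, h1⟩)⁻¹ : (Matrix (Fin 3) (Fin 3) ℝ)ˣ) : Matrix (Fin 3) (Fin 3) ℝ)
        = r0 := by
      rw [hr]
      show (r0 ᵥ* _) ᵥ* _ = r0
      rw [Matrix.vecMul_vecMul, ← Units.val_mul, mul_inv_cancel, Units.val_one, Matrix.vecMul_one]
    rw [h0, Matrix.zero_vecMul] at h2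
    have h3 := congrFun h2 0
    exact zero_ne_one h3
  obtain ⟨i, hi⟩ := Finite.exists_max (fun j => |r j|)
  -- another chamber on the same panel
  have hex : ∃ q2 ∈ x.support, q2 ≠ q1 ∧ (artinSys M).pr (Finset.empty_subset {e i}) q2 =
      (artinSys M).pr (Finset.empty_subset {e i}) q1 := by
    by_contra hno
    push Not at hno
    have h2 := DFunLike.congr_fun (hx i) ((artinSys M).pr (Finset.empty_subset {e i}) q1)
    rw [Finsupp.mapDomain, Finsupp.sum_apply, Finsupp.sum, Finset.sum_eq_single_of_mem q1 hq1s,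
      Finsupp.single_eq_same] at h2
    · exact (Finsupp.mem_support_iff.mp hq1s) h2
    · intro q hq hqq
      exact Finsupp.single_eq_of_ne (fun h => hno q hq hqq h.symm)
  obtain ⟨q2, hq2s, hq2, hpr⟩ := hex
  rw [← ho q1, ← ho q2, LT_pr, LT_pr] at hpr
  have h2 : (o q1)⁻¹ * o q2 ∈ AP M (({e i} : Finset B) : Set B) := (LT_q_eq M).mp hpr.symm
  have h3 : (o q1)⁻¹ * o q2 ∈ Subgroup.zpowers (ar (e i) : Artin M) := by
    rw [Subgroup.zpowers_eq_closure]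
    have h4 : AP M (({e i} : Finset B) : Set B) = Subgroup.closure {(ar (e i) : Artin M)} := by
      rw [AP, Finset.coe_singleton, Set.image_singleton]
    rwa [h4] at h2
  obtain ⟨k, hk⟩ := Subgroup.mem_zpowers_iff.mp h3
  have hk0 : k ≠ 0 := by
    rintro rfl
    rw [zpow_zero] at hk
    have h5 : o q2 = o q1 := (inv_mul_eq_one.mp hk.symm).symm
    apply hq2
    rw [← ho q1, ← ho q2, h5]
  have hei : (ar (e i) : Artin M) ∈ AP M (Set.range e) := ar_mem_AP ⟨i, rfl⟩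
  have h5 : (o q0)⁻¹ * o q2 = ((o q0)⁻¹ * o q1) * ar (e i) ^ k := by
    rw [hk]
    group
  have h6 : (o q0)⁻¹ * o q2 ∈ AP M (Set.range e) := by
    rw [h5]
    exact mul_mem h1 (zpow_mem hei k)
  have hℓ2 : ℓ q2 = ‖r ᵥ* ((LT_U c i ^ k : (Matrix (Fin 3) (Fin 3) ℝ)ˣ) :
      Matrix (Fin 3) (Fin 3) ℝ)‖ := by
    have h7 : ℓ q2 = ‖G ⟨_, h6⟩‖ := dif_pos h6
    rw [h7]
    congr 1
    have h8 : (⟨(o q0)⁻¹ * o q2, h6⟩ : AP M (Set.range e)) =
        ⟨(o q0)⁻¹ * o q1, h1⟩ * ⟨ar (e i), hei⟩ ^ k := by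
      apply Subtype.ext
      exact h5
    show r0 ᵥ* ((F ⟨(o q0)⁻¹ * o q2, h6⟩ : (Matrix (Fin 3) (Fin 3) ℝ)ˣ) :
      Matrix (Fin 3) (Fin 3) ℝ) = _
    rw [h8, map_mul, map_zpow, hF i, Units.val_mul, ← Matrix.vecMul_vecMul]
  have h9 := LT_grow c i r hr0 hi k hk0
  have h10 := hmax q2 (Finset.mem_filter.mpr ⟨hq2s, h6⟩)
  rw [hℓ1, hℓ2] at h10
  exact absurd h9 (not_lt.mpr h10)

end lt

end OS
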