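import Mathlib
import Pool.Agent.Lib.MP_8fe54c_gt.LtH2

/-!
# Exactness of the coset complex: spherical pieces and large triangles
-/

set_option linter.unusedSectionVars false

namespace OS

open CoxeterSystem Finsupp GP

section lt

variable {B : Type*} [LinearOrder B] [Fintype B] {M : CoxeterMatrix B}

theorem LT_sgn_unit (σ : Finset B) (v : B) : sgnV σ v = 1 ∨ sgnV σ v = -1 := by
  unfold sgnV
  rcases Nat.even_or_odd (σ.filter (fun u => u < v)).card with h | h
  · exact Or.inl h.neg_one_pow
  · exact Or.inr h.neg_one_pow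

theorem LT_sgn_smul {G : Type*} [AddCommGroup G] (σ : Finset B) (v : B) {x : G}
    (h : sgnV σ v • x = 0) : x = 0 := by
  rcases LT_sgn_unit σ v with h1 | h1
  · rwa [h1, one_smul] at h
  · rw [h1, neg_smul, one_smul, neg_eq_zero] at h
    exact h

theorem LT_inj3 {B : Type*} {a b c : B} (hab : a ≠ b) (hac : a ≠ c) (hbc : b ≠ c) :
    Function.Injective ![a, b, c] := by
  intro i j hij
  fin_cases i <;> fin_cases j
  · rfl
  · exact absurd (show a = b from hij) hab
  · exact absurd (show a = c from hij) hac
  · exact absurd (show b = a from hij) hab.symm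
  · rfl
  · exact absurd (show b = c from hij) hbc
  · exact absurd (show c = a from hij) hac.symm
  · exact absurd (show c = b from hij) hbc.symm
  · rfl

section cyc

variable {T : Finset B} {X : CC (artinSys M) ℤ} (hd : cd (artinSys M) X = 0)
  (hX : ∀ σ τ, X σ τ ≠ 0 → σ = ∅ ∧ τ ⊆ T ∧ τ.card = 2)

include hd hX in
/-- the relation on a panel -/
theorem LT_panel {a b : B} (_hab : a ≠ b) :
    mapDomain ((artinSys M).pr (Finset.empty_subset {a})) (X ∅ {a, b}) = 0 := by
  classical
  have h1 := congrFun (congrFun hd {a}) {a, b}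
  have hsub : ({a} : Finset B) ⊆ {a, b} := by simp
  have h2 : cd (artinSys M) X {a} {a, b} = 0 := h1
  unfold cd at h2
  rw [if_pos hsub] at h2
  have h3 : ∀ v ∈ ({a, b} : Finset B)ᶜ,
      sgnV (insert v ({a, b} : Finset B) \ {a}) v • X {a} (insert v {a, b}) = 0 := by
    intro v _
    have h4 : X {a} (insert v {a, b}) = 0 := by
      by_contra h
      have := (hX _ _ h).1
      exact absurd this (Finset.singleton_ne_empty a)
    rw [h4, smul_zero]
  rw [Finset.sum_eq_zero h3, zero_sub, neg_eq_zero, Finset.sum_singleton] at h2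
  have h5 := LT_sgn_smul _ _ h2
  have h6 : ∀ (ρ : Finset B) (hρ : ρ = ∅) (h : ρ ⊆ {a}),
      qm (artinSys M) h (X ρ {a, b}) =
        mapDomain ((artinSys M).pr (Finset.empty_subset {a})) (X ∅ {a, b}) := by
    intro ρ hρ h
    subst hρ
    rfl
  rw [← h6 _ (by simp) (Finset.erase_subset a {a})]
  exact h5

include hd hX in
/-- the relation at a vertex -/
theorem LT_vertex {a b c : B} (hab : a ≠ b) (hac : a ≠ c) (hbc : b ≠ c) (hT : T = {a, b, c}) :
    ∃ n : ℤ, X ∅ {a, b} = n • X ∅ {a, c} := by
  classical
  have h1 : cd (artinSys M) X ∅ {a} = 0 := congrFun (congrFun hd ∅) {a}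
  unfold cd at h1
  rw [if_pos (Finset.empty_subset _), Finset.sum_empty, sub_zero, Finset.sum_eq_add b c hbc] at h1
  · have e1 : insert b ({a} : Finset B) = {a, b} := Finset.pair_comm b a
    have e2 : insert c ({a} : Finset B) = {a, c} := Finset.pair_comm c a
    rw [e1, e2] at h1
    rcases LT_sgn_unit ({a, b} \ ∅) b with h3 | h3 <;>
      rcases LT_sgn_unit ({a, c} \ ∅) c with h4 | h4 <;> rw [h3, h4] at h1
    · refine ⟨-1, ?_⟩
      rw [one_smul, one_smul] at h1
      rw [neg_smul, one_smul]
      exact eq_neg_of_add_eq_zero_left h1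
    · refine ⟨1, ?_⟩
      rw [one_smul, neg_smul, one_smul, ← sub_eq_add_neg, sub_eq_zero] at h1
      rw [one_smul]
      exact h1
    · refine ⟨1, ?_⟩
      rw [one_smul, neg_smul, one_smul, neg_add_eq_zero] at h1
      rw [one_smul]
      exact h1
    · refine ⟨-1, ?_⟩
      rw [neg_smul, neg_smul, one_smul, one_smul, ← neg_add, neg_eq_zero] at h1
      rw [neg_smul, one_smul]
      exact eq_neg_of_add_eq_zero_left h1
  · intro v hv hvbc
    have h4 : X ∅ (insert v {a}) = 0 := by
      by_contra h
      have h5 := (hX _ _ h).2.1 (Finset.mem_insert_self v {a})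
      rw [hT] at h5
      simp only [Finset.mem_insert, Finset.mem_singleton] at h5
      rcases h5 with h5 | h5 | h5
      · rw [Finset.mem_compl, Finset.mem_singleton] at hv
        exact hv h5
      · exact hvbc.1 h5
      · exact hvbc.2 h5
    rw [h4, smul_zero]
  · intro h
    exact absurd (Finset.mem_compl.mpr (by rw [Finset.mem_singleton]; exact hab.symm)) h
  · intro h
    exact absurd (Finset.mem_compl.mpr (by rw [Finset.mem_singleton]; exact hac.symm)) h

include hd hX in
theorem LT_pair_zero {a b c : B} (hab : a ≠ b) (hac : a ≠ c) (hbc : b ≠ c) (hT : T = {a, b, c})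
    (hM : ∀ i ∈ T, ∀ j ∈ T, i ≠ j → 3 ≤ M i j) : X ∅ {a, b} = 0 := by
  classical
  have he : Function.Injective ![a, b, c] := LT_inj3 hab hac hbc
  have hmem : ∀ i : Fin 3, ![a, b, c] i ∈ T := by
    intro i
    rw [hT]
    fin_cases i
    · exact Finset.mem_insert_self _ _
    · exact Finset.mem_insert_of_mem (Finset.mem_insert_self _ _)
    · exact Finset.mem_insert_of_mem (Finset.mem_insert_of_mem (Finset.mem_singleton_self _))
  refine LT_h2 (M := M) ![a, b, c] he (fun i j hij => hM _ (hmem i) _ (hmem j)
    (fun h => hij (he h))) (X ∅ {a, b}) ?_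
  intro i
  fin_cases i
  · exact LT_panel hd hX hab
  · have h := LT_panel hd hX hab.symm
    rw [Finset.pair_comm] at h
    exact h
  · obtain ⟨n, hn⟩ := LT_vertex hd hX hab hac hbc hT
    have h := LT_panel hd hX hac.symm
    rw [Finset.pair_comm] at h
    rw [hn]
    show (Finsupp.mapDomain.addMonoidHom ((artinSys M).pr (Finset.empty_subset {c})))
      (n • X ∅ {a, c}) = 0
    rw [map_zsmul]
    have h' : (Finsupp.mapDomain.addMonoidHom ((artinSys M).pr (Finset.empty_subset {c})))
      (X ∅ {a, c}) = 0 := h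
    rw [h', smul_zero]

end cyc

/-- exactness in degree `2` for large triangles -/
theorem LT_H2 {T : Finset B} (hT : T.card = 3) (hM : ∀ i ∈ T, ∀ j ∈ T, i ≠ j → 3 ≤ M i j)
    (hs : ¬ Spher M T) (x : AR15a_Cel (artinSys M) →₀ ℤ)
    (hx : AR15a_Chn (artinSys M) (Spher M) T 2 x) (hd : AR15a_dC (artinSys M) x = 0) : x = 0 := by
  classical
  have hcard : ∀ τ ⊆ T, Spher M τ → τ.card ≤ 2 := by
    intro τ h1 h2
    by_contra h
    have h3 : τ = T := Finset.eq_of_subset_of_card_le h1 (by omega)
    exact hs (h3 ▸ h2)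
  have hd' : cd (artinSys M) (AR15a_Psi (artinSys M) x) = 0 := by
    rw [AR15a_cd_Psi (artinSys M) _ _ _ x hx, hd]
    funext σ τ
    exact Finsupp.ext fun q => rfl
  have hX : ∀ σ τ, AR15a_Psi (artinSys M) x σ τ ≠ 0 → σ = ∅ ∧ τ ⊆ T ∧ τ.card = 2 := by
    intro σ τ h
    obtain ⟨q, hq⟩ := Finsupp.ne_iff.mp h
    obtain ⟨h1, h2, h3, h4⟩ := hx ⟨σ, (τ, q)⟩ (Finsupp.mem_support_iff.mpr hq)
    simp only at h1 h2 h3 h4
    have h5 := hcard τ h3 h2
    have h6 := Finset.card_sdiff_add_card_eq_card h1
    refine ⟨Finset.card_eq_zero.mp (by omega), h3, by omega⟩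
  obtain ⟨s, t, u, hst, hsu, htu, hTe⟩ := Finset.card_eq_three.mp hT
  apply AR15a_Psi_inj (artinSys M)
  funext σ τ
  by_contra h
  obtain ⟨rfl, h1, h2⟩ := hX σ τ h
  obtain ⟨v, hv, hvτ⟩ : ∃ v ∈ T, v ∉ τ := by
    by_contra hno
    push Not at hno
    have := Finset.card_le_card (show T ⊆ τ from hno)
    omega
  have h3 : τ = T.erase v := Finset.eq_of_subset_of_card_le (Finset.subset_erase.mpr ⟨h1, hvτ⟩)
    (by rw [Finset.card_erase_of_mem hv]; omega)
  apply h
  rw [hTe] at hv
  simp only [Finset.mem_insert, Finset.mem_singleton] at hv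
  rcases hv with rfl | rfl | rfl
  · have e : τ = {t, u} := by
      rw [h3, hTe, Finset.erase_insert]
      simp only [Finset.mem_insert, Finset.mem_singleton, not_or]
      exact ⟨hst, hsu⟩
    rw [e]
    exact LT_pair_zero hd' hX htu hst.symm hsu.symm
      (by rw [hTe]; ext y; simp only [Finset.mem_insert, Finset.mem_singleton]; tauto) hM
  · have e : τ = {s, u} := by
      rw [h3, hTe]
      ext y
      simp only [Finset.mem_erase, Finset.mem_insert, Finset.mem_singleton]
      constructor
      · rintro ⟨h5, h6 | h6 | h6⟩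
        · exact Or.inl h6
        · exact absurd h6 h5
        · exact Or.inr h6
      · rintro (h5 | h5)
        · exact ⟨by rw [h5]; exact hst, Or.inl h5⟩
        · exact ⟨by rw [h5]; exact htu.symm, Or.inr (Or.inr h5)⟩
    rw [e]
    exact LT_pair_zero hd' hX hsu hst htu.symm
      (by rw [hTe]; ext y; simp only [Finset.mem_insert, Finset.mem_singleton]; tauto) hM
  · have e : τ = {s, t} := by
      rw [h3, hTe]
      ext y
      simp only [Finset.mem_erase, Finset.mem_insert, Finset.mem_singleton]
      constructor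
      · rintro ⟨h5, h6 | h6 | h6⟩
        · exact Or.inl h6
        · exact Or.inr h6
        · exact absurd h6 h5
      · rintro (h5 | h5)
        · exact ⟨by rw [h5]; exact hsu, Or.inl h5⟩
        · exact ⟨by rw [h5]; exact htu, Or.inr (Or.inl h5)⟩
    rw [e]
    exact LT_pair_zero hd' hX hst hsu htu hTe hM

/-- the coset complex of a large triangle is exact -/
theorem LT_ex_large {T : Finset B} (hT : T.card = 3) (hM : ∀ i ∈ T, ∀ j ∈ T, i ≠ j → 3 ≤ M i j)
    (hs : ¬ Spher M T) : AR15a_Ex (artinSys M) ℤ (Spher M) T where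
  surj y := by
    classical
    have hsurj := artin_surj M ∅ T (Finset.empty_subset T)
    let g : (artinSys M).Q T → AR15a_Cel (artinSys M) :=
      fun q => ⟨∅, (∅, Function.surjInv hsurj q)⟩
    refine ⟨mapDomain g y, ?_, ?_⟩
    · intro c hc
      have := Finsupp.mapDomain_support hc
      rw [Finset.mem_image] at this
      obtain ⟨x, -, rfl⟩ := this
      refine ⟨subset_refl _, spher_empty, Finset.empty_subset _, ?_⟩
      show ((∅ : Finset B) \ ∅).card = 0
      simp
    · have := AR15a_ext' (F := (AR15a_eps (artinSys M) T).comp (Finsupp.mapDomain.addMonoidHom g))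
        (G := AddMonoidHom.id _) y
        (fun c a => by
          rw [AddMonoidHom.comp_apply]
          have e : (Finsupp.mapDomain.addMonoidHom g) (single c a) = single (g c) a :=
            Finsupp.mapDomain_single
          rw [e, AR15a_eps_single (artinSys M) T ∅ ∅ _ (Finset.empty_subset T),
            Function.surjInv_eq hsurj]
          rfl)
      exact this
  zero x hx h0 := LT_H0 M T x hx h0
  succ p x hx hd := by
    rcases p with _ | _ | p
    · exact LT_H1 M T x hx hd
    · have h := LT_H2 hT hM hs x hx hd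
      refine ⟨0, AR15a_chn_zero _ _ _ _, ?_⟩
      rw [h, map_zero]
    · have h : x = 0 := by
        rw [← Finsupp.support_eq_empty, Finset.eq_empty_iff_forall_notMem]
        intro c hc
        obtain ⟨h1, h2, h3, h4⟩ := hx c hc
        have h5 := Finset.card_le_card (Finset.sdiff_subset (s := c.2.1) (t := c.1))
        have h6 : c.2.1 = T := Finset.eq_of_subset_of_card_le h3 (by omega)
        exact hs (h6 ▸ h2)
      refine ⟨0, AR15a_chn_zero _ _ _ _, ?_⟩
      rw [h, map_zero]

/-- exactness over all sets, if every set of pairwise related generators is spherical or a large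
triangle -/
theorem LT_ex (hM : ∀ T : Finset B, (∀ i ∈ T, ∀ j ∈ T, M i j ≠ 0) →
      Spher M T ∨ (T.card = 3 ∧ ∀ i ∈ T, ∀ j ∈ T, i ≠ j → 3 ≤ M i j)) (T : Finset B) :
    AR15a_Ex (artinSys M) ℤ (Spher M) T := by
  classical
  induction T using Finset.strongInduction with
  | H T ih =>
    by_cases hT : Spher M T
    · exact AR15a_base (artinSys M) (Spher M) spher_mono T hT
    · by_cases h0 : ∀ i ∈ T, ∀ j ∈ T, M i j ≠ 0
      · rcases hM T h0 with h | ⟨h1, h2⟩
        · exact absurd h hT
        · exact LT_ex_large h1 h2 hT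
      · push Not at h0
        obtain ⟨s, hs, t, ht, hst0⟩ := h0
        have hst : s ≠ t := by
          rintro rfl
          rw [M.diagonal] at hst0
          exact one_ne_zero hst0
        have h1 : (T.erase s).erase t ⊆ T.erase s := Finset.erase_subset _ _
        have h3 : T.erase s ⊆ T := Finset.erase_subset _ _
        have h4 : T.erase t ⊆ T := Finset.erase_subset _ _
        have h2 : (T.erase s).erase t ⊆ T.erase t := Finset.erase_subset_erase t h3
        have htree : TreeEx ℤ ((artinSys M).pr h1) ((artinSys M).pr h2) ((artinSys M).pr h3)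
            ((artinSys M).pr h4) := by
          refine AR15b_tree h1 h2 h3 h4 ?_ ?_ ?_
          · intro i hi
            have hi' : i ∈ T := hi
            by_cases his : i = s
            · right
              subst his
              exact Finset.mem_coe.mpr (Finset.mem_erase.mpr ⟨hst, hi'⟩)
            · left
              exact Finset.mem_coe.mpr (Finset.mem_erase.mpr ⟨his, hi'⟩)
          · rintro i ⟨hi1, hi2⟩
            have hi1' := Finset.mem_erase.mp (Finset.mem_coe.mp hi1)
            have hi2' := Finset.mem_erase.mp (Finset.mem_coe.mp hi2)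
            exact Finset.mem_coe.mpr (Finset.mem_erase.mpr ⟨hi2'.1, Finset.mem_erase.mpr hi1'⟩)
          · intro i hi1 hi2 j hj1 hj2
            have hi1' := Finset.mem_erase.mp (Finset.mem_coe.mp hi1)
            have hj1' := Finset.mem_erase.mp (Finset.mem_coe.mp hj1)
            have hi : i = t := by
              by_contra h
              exact hi2 (Finset.mem_coe.mpr (Finset.mem_erase.mpr ⟨h, hi1'.2⟩))
            have hj : j = s := by
              by_contra h
              exact hj2 (Finset.mem_coe.mpr (Finset.mem_erase.mpr ⟨h, hj1'.2⟩))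
            subst hi hj
            rw [M.symmetric]
            exact hst0
        obtain ⟨hinj, hmid⟩ := htree
        have l1 : T.erase s ⊂ T := Finset.erase_ssubset hs
        exact AR15a_step (artinSys M) (Spher M) spher_mono spher_empty T
          (artin_surj M ∅ T _) (AR15b_pair M hst0) h1 h2 h3 h4 hinj hmid
          (ih _ (lt_of_le_of_lt h1 l1)) (ih _ l1) (ih _ (Finset.erase_ssubset ht))

/-- from the exactness in cells to the exactness of the cubical complex -/
theorem LT_dexact_of_ex (hex : AR15a_Ex (artinSys M) ℤ (Spher M) Finset.univ) :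
    DExact (artinSys M) (Spher M) ℤ := by
  have : Subsingleton ((artinSys M).Q Finset.univ) := artin_one M
  constructor
  · intro q x hx hd
    have h1 := AR15a_Phi_chn (artinSys M) (Spher M) (q + 1) x hx
    have h2 := AR15a_cd_Psi (artinSys M) (Spher M) _ _ _ h1
    rw [AR15a_Psi_Phi, hd] at h2
    obtain ⟨z, hz1, hz2⟩ := hex.succ q _ h1 (AR15a_Psi_inj (artinSys M) h2.symm)
    refine ⟨AR15a_Psi (artinSys M) z, AR15a_Psi_sup (artinSys M) (Spher M) _ z hz1, ?_⟩
    rw [AR15a_cd_Psi (artinSys M) (Spher M) _ _ z hz1, hz2, AR15a_Psi_Phi]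
  · intro x hx hs
    have h1 := AR15a_Phi_chn (artinSys M) (Spher M) 0 x hx
    have h2 : AR15a_eps (artinSys M) Finset.univ (AR15a_Phi (artinSys M) x) = 0 := by
      apply AR15a_zero_of_sum
      let tot : ((artinSys M).Q Finset.univ →₀ ℤ) →+ ℤ :=
        Finsupp.liftAddHom fun _ => AddMonoidHom.id ℤ
      have htot : ∀ g, tot g = g.sum fun _ a => a := fun g => rfl
      rw [← htot, AR15a_Phi_zero (artinSys M) (Spher M) x hx, map_sum, map_sum, ← hs]
      refine Finset.sum_congr rfl fun σ _ => ?_
      have := AR15a_ext' (F := (tot.comp (AR15a_eps (artinSys M) Finset.univ)).comp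
          (Finsupp.mapDomain.addMonoidHom (AR15a_in (artinSys M) σ σ)))
        (G := Finsupp.liftAddHom fun _ => AddMonoidHom.id ℤ) (x σ σ) (fun c a => by
          rw [AddMonoidHom.comp_apply, AddMonoidHom.comp_apply]
          have e : (Finsupp.mapDomain.addMonoidHom (AR15a_in (artinSys M) σ σ)) (single c a) =
            single (AR15a_in (artinSys M) σ σ c) a := Finsupp.mapDomain_single
          have e2 := AR15a_eps_single (artinSys M) Finset.univ σ σ c (Finset.subset_univ σ) a
          rw [e]
          show tot (AR15a_eps (artinSys M) Finset.univ (single ⟨σ, (σ, c)⟩ a)) = _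
          rw [e2, Finsupp.liftAddHom_apply_single, Finsupp.liftAddHom_apply_single])
      exact this
    obtain ⟨z, hz1, hz2⟩ := hex.zero _ h1 h2
    refine ⟨AR15a_Psi (artinSys M) z, AR15a_Psi_sup (artinSys M) (Spher M) _ z hz1, ?_⟩
    rw [AR15a_cd_Psi (artinSys M) (Spher M) _ _ z hz1, hz2, AR15a_Psi_Phi]

/-- the coset complex is exact if every set of pairwise related generators is spherical or a large
triangle -/
theorem LT_dexact (hM : ∀ T : Finset B, (∀ i ∈ T, ∀ j ∈ T, M i j ≠ 0) →
      Spher M T ∨ (T.card = 3 ∧ ∀ i ∈ T, ∀ j ∈ T, i ≠ j → 3 ≤ M i j)) :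
    DExact (artinSys M) (Spher M) ℤ :=
  LT_dexact_of_ex (LT_ex hM Finset.univ)

end lt

end OS
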