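import Mathlib
import Pool.Agent.Lib.MP_8fe54c_gt.RankTwo

/-!
# RAAG, module G8: from mod 2 acyclicity to a real contraction
-/

namespace OS

/-- the incidence number of `τ` and its face `σ` -/
def inc {V : Type*} [LinearOrder V] (τ σ : Finset V) : ℤ :=
  ∑ v ∈ τ, if τ.erase v = σ then sgnV τ v else 0

theorem acyclic_matrix {V : Type*} [LinearOrder V] [Fintype V] (G : SimpleGraph V)
    [∀ k, Fintype (Cl G k)] (k : ℕ)
    (h : ¬ HasClass G k) : ∃ (Hm : Cl G (k + 2) → Cl G (k + 1) → ℝ)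
      (Em : Cl G (k + 1) → Cl G k → ℝ), ∀ σ σ' : Cl G (k + 1),
      ∑ τ : Cl G (k + 2), (inc τ.1 σ.1 : ℝ) * Hm τ σ' - (if σ = σ' then 1 else 0) =
        ∑ ρ : Cl G k, Em σ ρ * (inc σ'.1 ρ.1 : ℝ) := by
  obtain ⟨H, E, hHE⟩ := lin_inv ((DD G k).map (Int.cast : ℤ → ℝ))
    ((DD G (k + 1)).map (Int.cast : ℤ → ℝ))
    (fun z hz => lin_real (DD G k) (DD G (k + 1)) (DD_mul G k)
      (exact_two k h) z hz)
  refine ⟨fun τ σ => H τ σ, fun σ ρ => - E σ ρ, ?_⟩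
  intro σ σ'
  have h1 := congrFun (congrFun hHE σ) σ'
  rw [Matrix.add_apply, Matrix.mul_apply, Matrix.mul_apply, Matrix.one_apply] at h1
  have h2 : ∑ τ : Cl G (k + 2), ((DD G (k + 1)).map (Int.cast : ℤ → ℝ)) σ τ * H τ σ' =
      ∑ τ : Cl G (k + 2), (inc τ.1 σ.1 : ℝ) * H τ σ' := rfl
  have h3 : ∑ ρ : Cl G k, E σ ρ * ((DD G k).map (Int.cast : ℤ → ℝ)) ρ σ' =
      ∑ ρ : Cl G k, E σ ρ * (inc σ'.1 ρ.1 : ℝ) := rfl
  rw [h2, h3] at h1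
  simp only [neg_mul, Finset.sum_neg_distrib]
  linarith

end OS
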