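import Mathlib
import Pool.Agent.Lib.MP_8fe54c_gt.TopDefs

/-!
# Coarse obstructors: definitions

* `Cx K`: a complex of mod 2 chains with a basis of cells, on which the group `K` acts freely, with
  finitely many orbits in each degree;
* `Cx.prod`: the product complex, with the action of the product group;
* `Tow C m`: towers of height `m` in the tensor square of `C`, arbitrarily far from the diagonal,
  together with cones;
* `Obs Γ m`: the group `Γ` has a coarse obstructor of dimension `m`.
-/

namespace OS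

namespace Ob

open Finsupp

universe u v w u' v'

/-- mod 2 chains on the set `X` -/
abbrev Ch (X : Type*) := X →₀ ZMod 2

/-- the linear extension of a function on the basis -/
noncomputable def lin {X Y : Type*} (f : X → Ch Y) : Ch X →ₗ[ZMod 2] Ch Y :=
  Finsupp.linearCombination (ZMod 2) f

/-- the linear functional with given values on the basis -/
noncomputable def fnl {X : Type*} (f : X → ZMod 2) : Ch X →ₗ[ZMod 2] ZMod 2 :=
  Finsupp.linearCombination (ZMod 2) f

/-- push forward of chains -/
noncomputable def mp {X Y : Type*} (f : X → Y) : Ch X →ₗ[ZMod 2] Ch Y :=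
  Finsupp.lmapDomain (ZMod 2) (ZMod 2) f

theorem lin_single {X Y : Type*} (f : X → Ch Y) (x : X) : lin f (single x 1) = f x := by
  simp [lin]

theorem fnl_single {X : Type*} (f : X → ZMod 2) (x : X) : fnl f (single x 1) = f x := by
  simp [fnl]

theorem mp_single {X Y : Type*} (f : X → Y) (x : X) (a : ZMod 2) :
    mp f (single x a) = single (f x) a := by
  simp [mp]

theorem mp_mp {X Y Z : Type*} (g : Y → Z) (f : X → Y) (c : Ch X) :
    mp g (mp f c) = mp (fun x => g (f x)) c := by
  simp only [mp, Finsupp.lmapDomain_apply]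
  exact (Finsupp.mapDomain_comp (f := f) (g := g) (v := c)).symm

theorem mp_id {X : Type*} (c : Ch X) : mp (fun x => x) c = c := by
  simp only [mp, Finsupp.lmapDomain_apply]
  exact Finsupp.mapDomain_id

/-- two linear maps on chains which agree on the cells are equal -/
theorem hom_ext {X : Type*} {M : Type*} [AddCommGroup M] [Module (ZMod 2) M]
    {f g : Ch X →ₗ[ZMod 2] M} (h : ∀ x, f (single x 1) = g (single x 1)) (c : Ch X) :
    f c = g c := by
  have : f = g := Finsupp.lhom_ext' fun x => LinearMap.ext_ring (h x)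
  rw [this]

/-- mod 2 chains are their own inverses -/
theorem add_self_ch {X : Type*} (c : Ch X) : c + c = 0 := by
  ext x
  exact CharTwo.add_self_eq_zero (c x)

/-- A complex of mod 2 chains with a basis of cells, with a free action of `K` on the cells with
finitely many orbits in each degree. -/
structure Cx (K : Type v) [Group K] where
  /-- the cells -/
  X : Type u
  /-- the action -/
  act : MulAction K X
  /-- the dimension of a cell -/
  deg : X → ℕ
  /-- the boundary of a cell -/
  bd : X → Ch X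
  /-- the augmentation -/
  eps : X → ZMod 2
  deg_smul : ∀ (g : K) (x : X), deg (g • x) = deg x
  bd_deg : ∀ x : X, ∀ y ∈ (bd x).support, deg y + 1 = deg x
  eps_deg : ∀ x : X, deg x ≠ 0 → eps x = 0
  bd_smul : ∀ (g : K) (x : X), bd (g • x) = mp (fun y => g • y) (bd x)
  eps_smul : ∀ (g : K) (x : X), eps (g • x) = eps x
  bd_bd : ∀ x : X, lin bd (bd x) = 0
  eps_bd : ∀ x : X, fnl eps (bd x) = 0
  free : ∀ (g : K) (x : X), g • x = x → g = 1
  fin : ∀ n, ∃ E : Finset X, ∀ x : X, deg x = n → ∃ g : K, ∃ e ∈ E, g • e = x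

attribute [instance] Cx.act

namespace Cx

variable {K : Type v} [Group K] (C : Cx.{u, v} K)

/-- the boundary operator -/
noncomputable def d : Ch C.X →ₗ[ZMod 2] Ch C.X := lin C.bd

/-- the augmentation -/
noncomputable def aug : Ch C.X →ₗ[ZMod 2] ZMod 2 := fnl C.eps

theorem d_single (x : C.X) : C.d (single x 1) = C.bd x := lin_single _ _

theorem aug_single (x : C.X) : C.aug (single x 1) = C.eps x := fnl_single _ _

theorem d_d (c : Ch C.X) : C.d (C.d c) = 0 := by
  have h := hom_ext (f := C.d ∘ₗ C.d) (g := 0) (fun x => by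
    rw [LinearMap.comp_apply, d_single, LinearMap.zero_apply]
    exact C.bd_bd x) c
  exact h

theorem aug_d (c : Ch C.X) : C.aug (C.d c) = 0 := by
  have h := hom_ext (f := C.aug ∘ₗ C.d) (g := 0) (fun x => by
    rw [LinearMap.comp_apply, d_single, LinearMap.zero_apply]
    exact C.eps_bd x) c
  exact h

/-- the chains of degree `n` -/
def IsDeg (n : ℕ) (c : Ch C.X) : Prop := ∀ x ∈ c.support, C.deg x = n

/-- cycles of degree `n` of the augmented complex -/
def IsCyc (n : ℕ) (c : Ch C.X) : Prop := C.IsDeg n c ∧ C.d c = 0 ∧ C.aug c = 0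

/-- the augmented complex is exact -/
def Acyc : Prop := (∃ x, C.eps x = 1) ∧ ∀ n c, C.IsCyc n c → ∃ b, C.IsDeg (n + 1) b ∧ C.d b = c

/-- the finitely supported cochain `φ` of degree `n` is a cocycle -/
def IsCoc (n : ℕ) (φ : Ch C.X) : Prop :=
  C.IsDeg n φ ∧ ∀ x, C.deg x = n + 1 → fnl φ (C.bd x) = 0

/-- `φ`, of degree `n`, is the coboundary of a finitely supported cochain -/
def IsCob : ℕ → Ch C.X → Prop
  | 0, φ => φ = 0
  | n + 1, φ => ∃ ψ, C.IsDeg n ψ ∧ ∀ x, C.deg x = n + 1 → fnl ψ (C.bd x) = φ x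

/-- the mod 2 cohomology with finite supports is zero in degree `n` -/
def CoZero (n : ℕ) : Prop := ∀ φ, C.IsCoc n φ → C.IsCob n φ

/-- the mod 2 cohomology with finite supports has dimension at most one in degree `n` -/
def CoOne (n : ℕ) : Prop := ∃ ψ, C.IsCoc n ψ ∧ ∀ φ, C.IsCoc n φ → C.IsCob n φ ∨ C.IsCob n (φ + ψ)

end Cx

/-- the cross product of chains -/
noncomputable def cr {X Y : Type*} (c : Ch X) (e : Ch Y) : Ch (X × Y) :=
  lin (fun x => mp (fun y => (x, y)) e) c

/-- `((x, x'), (z, z')) ↦ ((x, z), (x', z'))` -/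
def ro {X Z : Type*} (p : (X × X) × (Z × Z)) : (X × Z) × (X × Z) :=
  ((p.1.1, p.2.1), (p.1.2, p.2.2))

/-- the product of chains of pairs -/
noncomputable def pc {X Z : Type*} (c : Ch (X × X)) (e : Ch (Z × Z)) : Ch ((X × Z) × (X × Z)) :=
  mp ro (cr c e)

/-- the exchange of the two coordinates -/
noncomputable def sw {X : Type*} : Ch (X × X) →ₗ[ZMod 2] Ch (X × X) := mp Prod.swap

/-- the action of a pair of group elements on chains of pairs -/
noncomputable def ac {K X : Type*} [Group K] [MulAction K X] (g : K × K) :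
    Ch (X × X) →ₗ[ZMod 2] Ch (X × X) := mp (fun p => (g.1 • p.1, g.2 • p.2))

/-- The pair of cells `p` is far from the diagonal, with respect to the finite set of cells `E`: no
translate of `E` contains both cells. -/
def Far (K : Type*) [Group K] {X : Type*} [MulAction K X] (E : Set X) (p : X × X) : Prop :=
  ∀ g : K, g • p.1 ∈ E → g • p.2 ∉ E

/-- the boundary of a pair of cells, in the tensor square -/
noncomputable def Cx.bd2 {K : Type v} [Group K] (C : Cx.{u, v} K) (p : C.X × C.X) :
    Ch (C.X × C.X) :=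
  mp (fun x => (x, p.2)) (C.bd p.1) + mp (fun y => (p.1, y)) (C.bd p.2)

/-- the boundary operator of the tensor square -/
noncomputable def Cx.d2 {K : Type v} [Group K] (C : Cx.{u, v} K) :
    Ch (C.X × C.X) →ₗ[ZMod 2] Ch (C.X × C.X) := lin C.bd2

/-- the augmentation of the tensor square -/
noncomputable def Cx.aug2 {K : Type v} [Group K] (C : Cx.{u, v} K) :
    Ch (C.X × C.X) →ₗ[ZMod 2] ZMod 2 := fnl (fun p => C.eps p.1 * C.eps p.2)

/-- the chains of pairs of total degree `n` -/
def Cx.IsDeg2 {K : Type v} [Group K] (C : Cx.{u, v} K) (n : ℕ) (z : Ch (C.X × C.X)) : Prop :=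
  ∀ p ∈ z.support, C.deg p.1 + C.deg p.2 = n

/-- cycles of degree `n` of the augmented tensor square -/
def Cx.IsCyc2 {K : Type v} [Group K] (C : Cx.{u, v} K) (n : ℕ) (z : Ch (C.X × C.X)) : Prop :=
  C.IsDeg2 n z ∧ C.d2 z = 0 ∧ C.aug2 z = 0

/-- the chain of pairs `z` is far from the diagonal -/
def Cx.IsFar {K : Type v} [Group K] (C : Cx.{u, v} K) (E : Finset C.X) (z : Ch (C.X × C.X)) :
    Prop := ∀ p ∈ z.support, Far K (E : Set C.X) p

/-- an equivariant augmented chain map, given on the cells -/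
structure IsMap {K : Type v} [Group K] {K' : Type v'} [Group K'] (ι : K →* K') (P : Cx.{u, v} K)
    (C : Cx.{u', v'} K') (f : P.X → Ch C.X) : Prop where
  deg : ∀ x, C.IsDeg (P.deg x) (f x)
  d : ∀ x, C.d (f x) = lin f (P.bd x)
  aug : ∀ x, C.aug (f x) = P.eps x
  smul : ∀ (g : K) (x : P.X), f (g • x) = mp (fun y => ι g • y) (f x)

/-- Towers of height `m`: in the tensor square of `C` there are, arbitrarily far from the diagonal,
chains `t 0, …, t (m - 1)` with `∂ t (i + 1) = t i + swap (t i)`, and cones `k i` (not necessarily far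
from the diagonal) with `∂ k 0 = t 0 + (x₀, x₀)`, `∂ k (i + 1) = t (i + 1) + k i + swap (k i)`. -/
def Tow {K : Type v} [Group K] (C : Cx.{u, v} K) (m : ℕ) : Prop :=
  ∃ x₀ : C.X, C.deg x₀ = 0 ∧ C.eps x₀ = 1 ∧ ∀ E : Finset C.X,
    ∃ t k : ℕ → Ch (C.X × C.X),
      (∀ i < m, C.IsDeg2 i (t i) ∧ C.IsFar E (t i) ∧ C.IsDeg2 (i + 1) (k i)) ∧
      (0 < m → C.d2 (k 0) = t 0 + single (x₀, x₀) 1) ∧
      ∀ i, i + 1 < m → C.d2 (t (i + 1)) = t i + sw (t i) ∧
        C.d2 (k (i + 1)) = t (i + 1) + (k i + sw (k i))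

/-- the group `Γ` has a coarse obstructor of dimension `m` -/
def Obs (Γ : Type u) [Group Γ] (m : ℕ) : Prop :=
  ∃ (K : Type u) (_ : Group K) (f : K →* Γ), Function.Injective f ∧
    ∃ C : Cx.{u, u} K, Tow C m

end Ob

end OS
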