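import Mathlib
import Pool.Agent.Lib.MP_8fe54c_gt.ObDefs

/-!
# Coarse obstructors: cross products and the product complex
-/

namespace OS

namespace Ob

open Finsupp

universe u v w u' v'

section cross

variable {X Y : Type*}

theorem cr_single (x : X) (e : Ch Y) : cr (single x 1) e = mp (fun y => (x, y)) e := by
  rw [cr, lin_single]

theorem cr_single_single (x : X) (y : Y) :
    cr (single x (1 : ZMod 2)) (single y (1 : ZMod 2)) = single (x, y) 1 := by
  rw [cr_single, mp_single]

theorem cr_add_left (c c' : Ch X) (e : Ch Y) : cr (c + c') e = cr c e + cr c' e := by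
  rw [cr, map_add]
  rfl

theorem cr_zero_left (e : Ch Y) : cr (0 : Ch X) e = 0 := by
  rw [cr, map_zero]

theorem cr_add_right (c : Ch X) (e e' : Ch Y) : cr c (e + e') = cr c e + cr c e' := by
  have h : ∀ c : Ch X, lin (fun x => mp (fun y => (x, y)) (e + e')) c =
      (lin (fun x => mp (fun y => (x, y)) e) + lin (fun x => mp (fun y => (x, y)) e') :
        Ch X →ₗ[ZMod 2] Ch (X × Y)) c := by
    intro c
    refine hom_ext (fun x => ?_) c
    rw [LinearMap.add_apply, lin_single, lin_single, lin_single, map_add]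
  exact h c

/-- the cross product as a linear map in the first variable -/
noncomputable def crl (e : Ch Y) : Ch X →ₗ[ZMod 2] Ch (X × Y) :=
  lin (fun x => mp (fun y => (x, y)) e)

theorem crl_apply (c : Ch X) (e : Ch Y) : crl e c = cr c e := rfl

theorem cr_eq_right (c : Ch X) (y : Y) : cr c (single y 1) = mp (fun x => (x, y)) c := by
  rw [← crl_apply]
  refine hom_ext (f := crl (single y 1)) (g := mp (fun x => (x, y))) (fun x => ?_) c
  rw [crl_apply, cr_single_single, mp_single]

theorem cr_zero_right (c : Ch X) : cr c (0 : Ch Y) = 0 := by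
  have h := cr_add_right c (0 : Ch Y) 0
  rw [add_zero] at h
  exact (left_eq_add.mp h)

end cross

section prod

variable {K : Type v} [Group K] {K' : Type v'} [Group K'] (C : Cx.{u, v} K) (D : Cx.{u', v'} K')

/-- the boundary of a product cell -/
noncomputable def pbd (p : C.X × D.X) : Ch (C.X × D.X) :=
  mp (fun x => (x, p.2)) (C.bd p.1) + mp (fun y => (p.1, y)) (D.bd p.2)

theorem pbd_eq (x : C.X) (z : D.X) :
    pbd C D (x, z) = cr (C.bd x) (single z 1) + cr (single x 1) (D.bd z) := by
  rw [pbd, cr_eq_right, cr_single]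

theorem lin_pbd_cr (c : Ch C.X) (e : Ch D.X) :
    lin (pbd C D) (cr c e) = cr (C.d c) e + cr c (D.d e) := by
  have h1 : ∀ (x : C.X) (e : Ch D.X), lin (pbd C D) (cr (single x 1) e) =
      cr (C.bd x) e + cr (single x 1) (D.d e) := by
    intro x e
    have h2 : ∀ e : Ch D.X, (lin (pbd C D) ∘ₗ mp (fun y => (x, y))) e =
        cr (C.bd x) e + cr (single x 1) (D.d e) := by
      intro e
      induction e using Finsupp.induction_linear with
      | zero => rw [map_zero, map_zero, cr_zero_right, cr_zero_right, add_zero]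
      | add f g hf hg => rw [map_add, hf, hg, map_add, cr_add_right, cr_add_right]; abel
      | single z a =>
        obtain rfl | rfl : a = 0 ∨ a = 1 := by
          revert a
          decide
        · rw [single_zero, map_zero, map_zero, cr_zero_right, cr_zero_right, add_zero]
        · rw [LinearMap.comp_apply, mp_single, lin_single, pbd_eq, D.d_single]
    rw [cr_single x e]
    exact h2 e
  have h3 : ∀ c : Ch C.X, (lin (pbd C D) ∘ₗ crl e) c = cr (C.d c) e + cr c (D.d e) := by
    intro c
    induction c using Finsupp.induction_linear with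
    | zero => rw [map_zero, map_zero, cr_zero_left, cr_zero_left, add_zero]
    | add f g hf hg => rw [map_add, hf, hg, map_add, cr_add_left, cr_add_left]; abel
    | single z a =>
      obtain rfl | rfl : a = 0 ∨ a = 1 := by
        revert a
        decide
      · rw [single_zero, map_zero, map_zero, cr_zero_left, cr_zero_left, add_zero]
      · rw [LinearMap.comp_apply, crl_apply, h1, C.d_single]
  exact h3 c

theorem fnl_cr (c : Ch C.X) (e : Ch D.X) :
    fnl (fun p : C.X × D.X => C.eps p.1 * D.eps p.2) (cr c e) = C.aug c * D.aug e := by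
  have h1 : ∀ (x : C.X) (e : Ch D.X), fnl (fun p : C.X × D.X => C.eps p.1 * D.eps p.2)
      (mp (fun y => (x, y)) e) = C.eps x * D.aug e := by
    intro x e
    have h2 : (fnl (fun p : C.X × D.X => C.eps p.1 * D.eps p.2) ∘ₗ mp (fun y => (x, y))) e =
        (C.eps x • D.aug) e := by
      refine hom_ext (fun z => ?_) e
      rw [LinearMap.comp_apply, mp_single, fnl_single, LinearMap.smul_apply, D.aug_single,
        smul_eq_mul]
    exact h2
  have h3 : (fnl (fun p : C.X × D.X => C.eps p.1 * D.eps p.2) ∘ₗ crl e) c =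
      (LinearMap.toSpanSingleton (ZMod 2) (ZMod 2) (D.aug e) ∘ₗ C.aug) c := by
    refine hom_ext (fun x => ?_) c
    rw [LinearMap.comp_apply, crl_apply, cr_single, h1, LinearMap.comp_apply, C.aug_single,
      LinearMap.toSpanSingleton_apply, smul_eq_mul]
  rw [LinearMap.comp_apply, crl_apply, LinearMap.comp_apply, LinearMap.toSpanSingleton_apply,
    smul_eq_mul] at h3
  exact h3

theorem mem_support_mp {X Y : Type*} {f : X → Y} {c : Ch X} {y : Y} (h : y ∈ (mp f c).support) :
    ∃ x ∈ c.support, f x = y := by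
  classical
  have h1 := Finsupp.mapDomain_support (f := f) (s := c) h
  simpa using h1

/-- the product complex -/
noncomputable def Cx.prod : Cx.{max u u', max v v'} (K × K') where
  X := C.X × D.X
  act :=
    { smul := fun g p => (g.1 • p.1, g.2 • p.2)
      one_smul := fun p => Prod.ext (one_smul K p.1) (one_smul K' p.2)
      mul_smul := fun g h p => Prod.ext (mul_smul g.1 h.1 p.1) (mul_smul g.2 h.2 p.2) }
  deg p := C.deg p.1 + D.deg p.2
  bd := pbd C D
  eps p := C.eps p.1 * D.eps p.2
  deg_smul g p := congrArg₂ (· + ·) (C.deg_smul g.1 p.1) (D.deg_smul g.2 p.2)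
  bd_deg := by
    classical
    rintro ⟨x, z⟩ ⟨x', z'⟩ h
    rcases Finset.mem_union.mp (Finsupp.support_add h) with h | h
    · obtain ⟨y, hy, h1⟩ := mem_support_mp h
      obtain ⟨rfl, rfl⟩ := Prod.mk.inj h1
      have h2 := C.bd_deg x y hy
      simp only
      omega
    · obtain ⟨y, hy, h1⟩ := mem_support_mp h
      obtain ⟨rfl, rfl⟩ := Prod.mk.inj h1
      have h2 := D.bd_deg z y hy
      simp only
      omega
  eps_deg := by
    rintro ⟨x, z⟩ h
    simp only at h ⊢
    by_cases hx : C.deg x = 0
    · rw [D.eps_deg z (by omega), mul_zero]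
    · rw [C.eps_deg x hx, zero_mul]
  bd_smul := by
    rintro ⟨g, h⟩ ⟨x, z⟩
    change pbd C D (g • x, h • z) = mp (fun p : C.X × D.X => (g • p.1, h • p.2)) (pbd C D (x, z))
    simp only [pbd, map_add, mp_mp, C.bd_smul, D.bd_smul]
  eps_smul := by
    rintro ⟨g, h⟩ ⟨x, z⟩
    change C.eps (g • x) * D.eps (h • z) = _
    rw [C.eps_smul, D.eps_smul]
  bd_bd := by
    rintro ⟨x, z⟩
    rw [pbd_eq, map_add, lin_pbd_cr, lin_pbd_cr, C.d_single, D.d_single]
    have h1 : C.d (C.bd x) = 0 := C.bd_bd x
    have h2 : D.d (D.bd z) = 0 := D.bd_bd z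
    rw [h1, h2, cr_zero_left, cr_zero_right, zero_add, add_zero, add_self_ch]
  eps_bd := by
    rintro ⟨x, z⟩
    rw [pbd_eq, map_add, fnl_cr, fnl_cr]
    have h1 : C.aug (C.bd x) = 0 := C.eps_bd x
    have h2 : D.aug (D.bd z) = 0 := D.eps_bd z
    rw [h1, h2, zero_mul, mul_zero, add_zero]
  free := by
    rintro ⟨g, h⟩ ⟨x, z⟩ hgh
    have h1 : g • x = x := congrArg Prod.fst hgh
    have h2 : h • z = z := congrArg Prod.snd hgh
    exact Prod.ext (C.free g x h1) (D.free h z h2)
  fin := by
    classical
    intro n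
    choose E hE using C.fin
    choose E' hE' using D.fin
    refine ⟨(Finset.range (n + 1)).biUnion fun i => E i ×ˢ E' (n - i), ?_⟩
    rintro ⟨x, z⟩ hn
    simp only at hn
    obtain ⟨g, e, he, rfl⟩ := hE (C.deg x) x rfl
    obtain ⟨g', e', he', rfl⟩ := hE' (n - C.deg (g • e)) z (by omega)
    refine ⟨(g, g'), (e, e'), ?_, rfl⟩
    rw [Finset.mem_biUnion]
    refine ⟨C.deg (g • e), Finset.mem_range.mpr (by omega), Finset.mk_mem_product he he'⟩

end prod

end Ob

end OS
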