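import Mathlib
import Pool.Agent.Lib.MP_8fe54c_gt.ObDefs
import Pool.Agent.Lib.MP_8fe54c_gt.ObProd

/-!
# Coarse obstructors: basic lemmas on cross products and the tensor square (OB1)
-/

namespace OS

namespace Ob

open Finsupp

universe u v w u' v'

section OB1

variable {X Y Z : Type*}

theorem mem_support_lin {f : X → Ch Y} {c : Ch X} {y : Y} (h : y ∈ (lin f c).support) :
    ∃ x ∈ c.support, y ∈ (f x).support := by
  classical
  have h1 : lin f c = ∑ x ∈ c.support, c x • f x := rfl
  rw [h1] at h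
  obtain ⟨x, hx, hxy⟩ := Finset.mem_biUnion.mp (Finsupp.support_finsetSum h)
  exact ⟨x, hx, Finsupp.support_smul hxy⟩

theorem lin_mp (f : Y → Ch Z) (g : X → Y) (c : Ch X) : lin f (mp g c) = lin (fun x => f (g x)) c := by
  have h := hom_ext (f := lin f ∘ₗ mp g) (g := lin (fun x => f (g x))) (fun x => by
    rw [LinearMap.comp_apply, mp_single, lin_single, lin_single]) c
  exact h

theorem mp_lin (g : Y → Z) (f : X → Ch Y) (c : Ch X) :
    mp g (lin f c) = lin (fun x => mp g (f x)) c := by
  have h := hom_ext (f := mp g ∘ₗ lin f) (g := lin (fun x => mp g (f x))) (fun x => by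
    rw [LinearMap.comp_apply, lin_single, lin_single]) c
  exact h

theorem lin_lin (g : Y → Ch Z) (f : X → Ch Y) (c : Ch X) :
    lin g (lin f c) = lin (fun x => lin g (f x)) c := by
  have h := hom_ext (f := lin g ∘ₗ lin f) (g := lin (fun x => lin g (f x))) (fun x => by
    rw [LinearMap.comp_apply, lin_single, lin_single]) c
  exact h

theorem fnl_lin (g : Y → ZMod 2) (f : X → Ch Y) (c : Ch X) :
    fnl g (lin f c) = fnl (fun x => fnl g (f x)) c := by
  have h := hom_ext (f := fnl g ∘ₗ lin f) (g := fnl (fun x => fnl g (f x))) (fun x => by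
    rw [LinearMap.comp_apply, lin_single, fnl_single]) c
  exact h

theorem cr_smul_left (a : ZMod 2) (c : Ch X) (e : Ch Y) : cr (a • c) e = a • cr c e := by
  rw [← crl_apply, ← crl_apply, map_smul]

theorem cr_smul_right (a : ZMod 2) (c : Ch X) (e : Ch Y) : cr c (a • e) = a • cr c e := by
  obtain rfl | rfl : a = 0 ∨ a = 1 := by
    revert a
    decide
  · rw [zero_smul, zero_smul, cr_zero_right]
  · rw [one_smul, one_smul]

theorem mem_support_cr {c : Ch X} {e : Ch Y} {p : X × Y} (h : p ∈ (cr c e).support) :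
    p.1 ∈ c.support ∧ p.2 ∈ e.support := by
  obtain ⟨x, hx, h1⟩ := mem_support_lin h
  obtain ⟨y, hy, rfl⟩ := mem_support_mp h1
  exact ⟨hx, hy⟩

/-- two biadditive expressions agree if they agree on the cells -/
theorem bilin_ext {M : Type*} [AddCommGroup M] (P Q : Ch X → Ch Y → M)
    (hP0 : ∀ e, P 0 e = 0) (hQ0 : ∀ e, Q 0 e = 0) (hP1 : ∀ x, P (single x 1) 0 = 0)
    (hQ1 : ∀ x, Q (single x 1) 0 = 0) (hPa : ∀ c c' e, P (c + c') e = P c e + P c' e)
    (hQa : ∀ c c' e, Q (c + c') e = Q c e + Q c' e)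
    (hPb : ∀ x e e', P (single x 1) (e + e') = P (single x 1) e + P (single x 1) e')
    (hQb : ∀ x e e', Q (single x 1) (e + e') = Q (single x 1) e + Q (single x 1) e')
    (h : ∀ x y, P (single x 1) (single y 1) = Q (single x 1) (single y 1)) (c : Ch X) (e : Ch Y) :
    P c e = Q c e := by
  have h1 : ∀ x (e : Ch Y), P (single x 1) e = Q (single x 1) e := by
    intro x e
    induction e using Finsupp.induction_linear with
    | zero => rw [hP1, hQ1]
    | add f g hf hg => rw [hPb, hQb, hf, hg]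
    | single y a =>
      obtain rfl | rfl : a = 0 ∨ a = 1 := by
        revert a
        decide
      · rw [single_zero, hP1, hQ1]
      · exact h x y
  induction c using Finsupp.induction_linear with
  | zero => rw [hP0, hQ0]
  | add f g hf hg => rw [hPa, hQa, hf, hg]
  | single x a =>
    obtain rfl | rfl : a = 0 ∨ a = 1 := by
      revert a
      decide
    · rw [single_zero, hP0, hQ0]
    · exact h1 x e

theorem sw_cr (a b : Ch X) : sw (cr a b) = cr b a := by
  refine bilin_ext (fun a b => sw (cr a b)) (fun a b => cr b a) ?_ ?_ ?_ ?_ ?_ ?_ ?_ ?_ ?_ a b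
  · intro e; simp only [cr_zero_left, map_zero]
  · intro e; simp only [cr_zero_right]
  · intro e; simp only [cr_zero_right, map_zero]
  · intro e; simp only [cr_zero_left]
  · intro c c' e; simp only [cr_add_left, map_add]
  · intro c c' e; simp only [cr_add_right]
  · intro c c' e; simp only [cr_add_right, map_add]
  · intro c c' e; simp only [cr_add_left]
  · intro x y
    simp only [cr_single_single]
    rw [sw, mp_single]
    rfl

theorem sw_sw (c : Ch (X × X)) : sw (sw c) = c := by
  rw [sw, mp_mp]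
  exact mp_id c

theorem mem_support_sw {c : Ch (X × X)} {p : X × X} (h : p ∈ (sw c).support) :
    p.swap ∈ c.support := by
  obtain ⟨q, hq, rfl⟩ := mem_support_mp h
  rwa [Prod.swap_swap]

theorem pc_single (p : X × X) (q : Z × Z) :
    pc (single p (1 : ZMod 2)) (single q (1 : ZMod 2)) = single (ro (p, q)) 1 := by
  rw [pc, cr_single_single, mp_single]

theorem pc_add_left (c c' : Ch (X × X)) (e : Ch (Z × Z)) : pc (c + c') e = pc c e + pc c' e := by
  rw [pc, cr_add_left, map_add, pc, pc]

theorem pc_add_right (c : Ch (X × X)) (e e' : Ch (Z × Z)) : pc c (e + e') = pc c e + pc c e' := by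
  rw [pc, cr_add_right, map_add, pc, pc]

theorem pc_zero_left (e : Ch (Z × Z)) : pc (0 : Ch (X × X)) e = 0 := by
  rw [pc, cr_zero_left, map_zero]

theorem pc_zero_right (c : Ch (X × X)) : pc c (0 : Ch (Z × Z)) = 0 := by
  rw [pc, cr_zero_right, map_zero]

theorem sw_pc (c : Ch (X × X)) (e : Ch (Z × Z)) : sw (pc c e) = pc (sw c) (sw e) := by
  refine bilin_ext (fun c e => sw (pc c e)) (fun c e => pc (sw c) (sw e)) ?_ ?_ ?_ ?_ ?_ ?_ ?_ ?_ ?_
    c e
  · intro e; simp only [pc_zero_left, map_zero]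
  · intro e; simp only [pc_zero_left, map_zero]
  · intro e; simp only [pc_zero_right, map_zero]
  · intro e; simp only [pc_zero_right, map_zero]
  · intro c c' e; simp only [pc_add_left, map_add]
  · intro c c' e; simp only [pc_add_left, map_add]
  · intro c c' e; simp only [pc_add_right, map_add]
  · intro c c' e; simp only [pc_add_right, map_add]
  · intro x y
    simp only [pc_single, sw, mp_single]
    rfl

theorem mem_support_pc {c : Ch (X × X)} {e : Ch (Z × Z)} {p : (X × Z) × (X × Z)}
    (h : p ∈ (pc c e).support) :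
    (p.1.1, p.2.1) ∈ c.support ∧ (p.1.2, p.2.2) ∈ e.support := by
  obtain ⟨q, hq, rfl⟩ := mem_support_mp h
  exact mem_support_cr hq

end OB1

section OB1b

variable {K : Type v} [Group K] {K' : Type v'} [Group K'] (C : Cx.{u, v} K) (D : Cx.{u', v'} K')

theorem d2_eq : C.d2 = lin (pbd C C) := rfl

theorem bd2_eq (p : C.X × C.X) : C.bd2 p = pbd C C p := rfl

theorem d2_single (p : C.X × C.X) : C.d2 (single p 1) = C.bd2 p := lin_single _ _

theorem aug2_single (p : C.X × C.X) : C.aug2 (single p 1) = C.eps p.1 * C.eps p.2 := fnl_single _ _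

theorem d2_cr (a b : Ch C.X) : C.d2 (cr a b) = cr (C.d a) b + cr a (C.d b) := lin_pbd_cr C C a b

theorem aug2_cr (a b : Ch C.X) : C.aug2 (cr a b) = C.aug a * C.aug b := fnl_cr C C a b

theorem bd2_mk (x y : C.X) : C.bd2 (x, y) = cr (C.bd x) (single y 1) + cr (single x 1) (C.bd y) :=
  pbd_eq C C x y

theorem d2_d2 (c : Ch (C.X × C.X)) : C.d2 (C.d2 c) = 0 := by
  have h := hom_ext (f := C.d2 ∘ₗ C.d2) (g := 0) (fun p => by
    obtain ⟨x, y⟩ := p
    rw [LinearMap.comp_apply, d2_single, bd2_mk, map_add, d2_cr, d2_cr, C.d_single, C.d_single,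
      LinearMap.zero_apply]
    have h1 : C.d (C.bd x) = 0 := C.bd_bd x
    have h2 : C.d (C.bd y) = 0 := C.bd_bd y
    rw [h1, h2, cr_zero_left, cr_zero_right, zero_add, add_zero, add_self_ch]) c
  exact h

theorem aug2_d2 (c : Ch (C.X × C.X)) : C.aug2 (C.d2 c) = 0 := by
  have h := hom_ext (f := C.aug2 ∘ₗ C.d2) (g := 0) (fun p => by
    obtain ⟨x, y⟩ := p
    rw [LinearMap.comp_apply, d2_single, bd2_mk, map_add, aug2_cr, aug2_cr, LinearMap.zero_apply]
    have h1 : C.aug (C.bd x) = 0 := C.eps_bd x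
    have h2 : C.aug (C.bd y) = 0 := C.eps_bd y
    rw [h1, h2, zero_mul, mul_zero, add_zero]) c
  exact h

theorem d2_sw (c : Ch (C.X × C.X)) : C.d2 (sw c) = sw (C.d2 c) := by
  have h := hom_ext (f := C.d2 ∘ₗ sw) (g := sw ∘ₗ C.d2) (fun p => by
    obtain ⟨x, y⟩ := p
    rw [LinearMap.comp_apply, LinearMap.comp_apply, d2_single, bd2_mk, map_add, sw_cr, sw_cr]
    have h1 : sw (single (x, y) (1 : ZMod 2)) = single (y, x) 1 := mp_single _ _ _
    rw [h1, d2_single, bd2_mk, add_comm]) c
  exact h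

theorem aug2_sw (c : Ch (C.X × C.X)) : C.aug2 (sw c) = C.aug2 c := by
  have h := hom_ext (f := C.aug2 ∘ₗ sw) (g := C.aug2) (fun p => by
    obtain ⟨x, y⟩ := p
    have h1 : sw (single (x, y) (1 : ZMod 2)) = single (y, x) 1 := mp_single _ _ _
    rw [LinearMap.comp_apply, h1, aug2_single, aug2_single, mul_comm]) c
  exact h

theorem bd2_ro (x x' : C.X) (z z' : D.X) : (C.prod D).bd2 ((x, z), (x', z')) =
    pc (C.bd2 (x, x')) (single (z, z') 1) + pc (single (x, x') 1) (D.bd2 (z, z')) := by
  have e1 : pc (C.bd2 (x, x')) (single (z, z') (1 : ZMod 2)) =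
      mp (fun y => ((y, z), (x', z'))) (C.bd x) + mp (fun y => ((x, z), (y, z'))) (C.bd x') := by
    rw [pc, cr_eq_right, Cx.bd2, map_add, map_add, mp_mp, mp_mp, mp_mp, mp_mp]
    rfl
  have e2 : pc (single (x, x') (1 : ZMod 2)) (D.bd2 (z, z')) =
      mp (fun y => ((x, y), (x', z'))) (D.bd z) + mp (fun y => ((x, z), (x', y))) (D.bd z') := by
    rw [pc, cr_single, Cx.bd2, map_add, map_add, mp_mp, mp_mp, mp_mp, mp_mp]
    rfl
  rw [e1, e2]
  have e3 : (C.prod D).bd2 ((x, z), (x', z')) =
      mp (fun y : C.X × D.X => (y, ((x', z') : C.X × D.X))) (pbd C D (x, z)) +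
        mp (fun y : C.X × D.X => (((x, z) : C.X × D.X), y)) (pbd C D (x', z')) := rfl
  rw [e3, pbd, pbd, map_add, map_add, mp_mp, mp_mp, mp_mp, mp_mp]
  abel

theorem d2_pc (c : Ch (C.X × C.X)) (e : Ch (D.X × D.X)) :
    (C.prod D).d2 (pc c e) = pc (C.d2 c) e + pc c (D.d2 e) := by
  refine bilin_ext (fun c e => (C.prod D).d2 (pc c e))
    (fun c e => pc (C.d2 c) e + pc c (D.d2 e)) ?_ ?_ ?_ ?_ ?_ ?_ ?_ ?_ ?_ c e
  · intro e
    show (C.prod D).d2 (pc 0 e) = 0
    rw [pc_zero_left]
    exact map_zero _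
  · intro e
    simp only [pc_zero_left, map_zero, add_zero]
    rfl
  · intro x
    show (C.prod D).d2 (pc (single x 1) 0) = 0
    rw [pc_zero_right]
    exact map_zero _
  · intro x
    simp only [pc_zero_right, map_zero, add_zero]
    rfl
  · intro c c' e
    show (C.prod D).d2 (pc (c + c') e) = (C.prod D).d2 (pc c e) + (C.prod D).d2 (pc c' e)
    rw [pc_add_left]
    exact map_add _ _ _
  · intro c c' e; simp only [pc_add_left, map_add]; abel
  · intro x e e'
    show (C.prod D).d2 (pc (single x 1) (e + e')) =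
      (C.prod D).d2 (pc (single x 1) e) + (C.prod D).d2 (pc (single x 1) e')
    rw [pc_add_right]
    exact map_add _ _ _
  · intro x e e'; simp only [pc_add_right, map_add]; abel
  · rintro ⟨x, x'⟩ ⟨z, z'⟩
    show (C.prod D).d2 (pc (single (x, x') 1) (single (z, z') 1)) =
      pc (C.d2 (single (x, x') 1)) (single (z, z') 1) +
        pc (single (x, x') 1) (D.d2 (single (z, z') 1))
    rw [pc_single, d2_single, d2_single]
    exact (d2_single (C.prod D) ((x, z), (x', z'))).trans (bd2_ro C D x x' z z')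

theorem isDeg_d {n : ℕ} {c : Ch C.X} (h : C.IsDeg (n + 1) c) : C.IsDeg n (C.d c) := by
  intro y hy
  obtain ⟨x, hx, hxy⟩ := mem_support_lin hy
  have h1 := C.bd_deg x y hxy
  have h2 := h x hx
  omega

theorem isDeg2_d2 {n : ℕ} {c : Ch (C.X × C.X)} (h : C.IsDeg2 (n + 1) c) : C.IsDeg2 n (C.d2 c) := by
  classical
  intro p hp
  obtain ⟨q, hq, hqp⟩ := mem_support_lin hp
  have h2 := h q hq
  rcases Finset.mem_union.mp (Finsupp.support_add hqp) with h | h
  · obtain ⟨y, hy, rfl⟩ := mem_support_mp h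
    have h1 := C.bd_deg _ y hy
    simp only
    omega
  · obtain ⟨y, hy, rfl⟩ := mem_support_mp h
    have h1 := C.bd_deg _ y hy
    simp only
    omega

theorem far_swap {X : Type*} [MulAction K X] {E : Set X} {p : X × X} (h : Far K E p) :
    Far K E p.swap := fun g h1 h2 => h g h2 h1

theorem far_mono {X : Type*} [MulAction K X] {E E' : Set X} (hE : E ⊆ E') {p : X × X}
    (h : Far K E' p) : Far K E p := fun g h1 h2 => h g (hE h1) (hE h2)

theorem far_smul {X : Type*} [MulAction K X] {E : Set X} {x y : X} (h : Far K E (x, y)) (g : K) :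
    Far K E (g • x, g • y) := fun g' h1 h2 => h (g' * g) (by rw [mul_smul]; exact h1)
      (by rw [mul_smul]; exact h2)

theorem isFar_sw {E : Finset C.X} {z : Ch (C.X × C.X)} (h : C.IsFar E z) : C.IsFar E (sw z) := by
  intro p hp
  have h1 := far_swap (h _ (mem_support_sw hp))
  rwa [Prod.swap_swap] at h1

theorem isDeg2_sw {n : ℕ} {z : Ch (C.X × C.X)} (h : C.IsDeg2 n z) : C.IsDeg2 n (sw z) := by
  intro p hp
  have h1 := h _ (mem_support_sw hp)
  rw [← h1, add_comm]
  rfl

theorem isFar_mono {E E' : Finset C.X} (hE : E ⊆ E') {z : Ch (C.X × C.X)} (h : C.IsFar E' z) :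
    C.IsFar E z := fun p hp => far_mono (Finset.coe_subset.mpr hE) (h p hp)

theorem isFar_add {E : Finset C.X} {z z' : Ch (C.X × C.X)} (h : C.IsFar E z) (h' : C.IsFar E z') :
    C.IsFar E (z + z') := by
  classical
  intro p hp
  rcases Finset.mem_union.mp (Finsupp.support_add hp) with h1 | h1
  · exact h p h1
  · exact h' p h1

theorem isFar_zero (E : Finset C.X) : C.IsFar E 0 := fun p hp => absurd hp (by simp)

theorem isDeg2_add {n : ℕ} {z z' : Ch (C.X × C.X)} (h : C.IsDeg2 n z) (h' : C.IsDeg2 n z') :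
    C.IsDeg2 n (z + z') := by
  classical
  intro p hp
  rcases Finset.mem_union.mp (Finsupp.support_add hp) with h1 | h1
  · exact h p h1
  · exact h' p h1

theorem isDeg2_zero (n : ℕ) : C.IsDeg2 n 0 := fun p hp => absurd hp (by simp)

theorem isDeg_add {n : ℕ} {z z' : Ch C.X} (h : C.IsDeg n z) (h' : C.IsDeg n z') :
    C.IsDeg n (z + z') := by
  classical
  intro p hp
  rcases Finset.mem_union.mp (Finsupp.support_add hp) with h1 | h1
  · exact h p h1
  · exact h' p h1

theorem isDeg_zero (n : ℕ) : C.IsDeg n 0 := fun p hp => absurd hp (by simp)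

theorem isDeg_smul_mp {n : ℕ} {z : Ch C.X} (h : C.IsDeg n z) (g : K) :
    C.IsDeg n (mp (fun x => g • x) z) := by
  intro p hp
  obtain ⟨y, hy, rfl⟩ := mem_support_mp hp
  rw [C.deg_smul]
  exact h y hy

/-- the action commutes with the boundary -/
theorem d_mp_smul (g : K) (z : Ch C.X) :
    C.d (mp (fun x => g • x) z) = mp (fun x => g • x) (C.d z) := by
  rw [Cx.d, lin_mp, mp_lin]
  congr 1
  congr 1
  funext x
  exact C.bd_smul g x

/-- the augmentation is invariant -/
theorem aug_mp_smul (g : K) (z : Ch C.X) : C.aug (mp (fun x => g • x) z) = C.aug z := by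
  have h := hom_ext (f := C.aug ∘ₗ mp (fun x => g • x)) (g := C.aug) (fun x => by
    rw [LinearMap.comp_apply, mp_single, C.aug_single, C.aug_single, C.eps_smul]) z
  exact h

theorem isDeg2_cr {n m : ℕ} {a b : Ch C.X} (ha : C.IsDeg n a) (hb : C.IsDeg m b) :
    C.IsDeg2 (n + m) (cr a b) := by
  intro p hp
  obtain ⟨h1, h2⟩ := mem_support_cr hp
  rw [ha _ h1, hb _ h2]

/-- the set of group elements which move a given cell into a finite set is finite -/
theorem finite_smul_mem (E : Finset C.X) (x : C.X) : {g : K | g • x ∈ E}.Finite := by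
  refine Set.Finite.of_finite_image (f := fun g : K => g • x) ?_ ?_
  · refine E.finite_toSet.subset ?_
    rintro _ ⟨g, hg, rfl⟩
    exact hg
  · intro g _ h _ hgh
    have h1 : (h⁻¹ * g) • x = x := by
      rw [mul_smul]
      exact (congrArg (fun y => h⁻¹ • y) hgh).trans (inv_smul_smul h x)
    have h2 := C.free _ _ h1
    exact (inv_mul_eq_one.mp h2).symm

/-- only finitely many cells are not far from a given cell -/
theorem finite_not_far (E : Finset C.X) (x : C.X) :
    {y : C.X | ¬ Far K (E : Set C.X) (x, y)}.Finite := by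
  have h1 : {y : C.X | ¬ Far K (E : Set C.X) (x, y)} ⊆
      ⋃ g ∈ {g : K | g • x ∈ E}, (fun y => g⁻¹ • y) '' (E : Set C.X) := by
    intro y hy
    simp only [Far, Set.mem_ofPred_eq, not_forall, not_not] at hy
    obtain ⟨g, hg1, hg2⟩ := hy
    simp only [Set.mem_iUnion]
    exact ⟨g, hg1, g • y, hg2, inv_smul_smul g y⟩
  exact Set.Finite.subset ((finite_smul_mem C E x).biUnion fun g _ => E.finite_toSet.image _) h1

end OB1b

end Ob

end OS
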