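import Mathlib
import Pool.Agent.Lib.MP_8fe54c_gt.ObDefs
import Pool.Agent.Lib.MP_8fe54c_gt.ObCross

/-!
# Coarse obstructors: cohomology with finite supports and homology far out (OB8)
-/

namespace OS

namespace Ob

open Finsupp

universe u v w u' v'

/-- a functional vanishing on the kernel of a linear map factors through it -/
theorem OB8_factor {V W : Type*} [AddCommGroup V] [Module (ZMod 2) V] [AddCommGroup W]
    [Module (ZMod 2) W] (f : V →ₗ[ZMod 2] W) (g : V →ₗ[ZMod 2] ZMod 2)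
    (h : ∀ v, f v = 0 → g v = 0) : ∃ l : W →ₗ[ZMod 2] ZMod 2, ∀ v, l (f v) = g v := by
  have h1 : g ∈ (LinearMap.ker f).dualAnnihilator := by
    rw [Submodule.mem_dualAnnihilator]
    intro v hv
    exact h v hv
  rw [← LinearMap.range_dualMap_eq_dualAnnihilator_ker] at h1
  obtain ⟨l, hl⟩ := h1
  exact ⟨l, fun v => by rw [← hl]; rfl⟩

/-- a functional vanishing on the kernel of a linear map factors through it -/
theorem OB8_factor_mem {V W : Type*} [AddCommGroup V] [Module (ZMod 2) V] [AddCommGroup W]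
    [Module (ZMod 2) W] (D : Submodule (ZMod 2) V) (f : V →ₗ[ZMod 2] W) (g : V →ₗ[ZMod 2] ZMod 2)
    (h : ∀ v ∈ D, f v = 0 → g v = 0) : ∃ l : W →ₗ[ZMod 2] ZMod 2, ∀ v ∈ D, l (f v) = g v := by
  obtain ⟨l, hl⟩ := OB8_factor (f ∘ₗ D.subtype) (g ∘ₗ D.subtype) (fun v hv => h v.1 v.2 hv)
  exact ⟨l, fun v hv => hl ⟨v, hv⟩⟩

theorem OB8_zmod (a : ZMod 2) : a = 0 ∨ a = 1 := by
  revert a
  decide

theorem OB8_fnl_congr {X : Type*} {f g : X → ZMod 2} {c : Ch X}
    (h : ∀ x ∈ c.support, f x = g x) : fnl f c = fnl g c := by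
  have h1 : fnl f c = ∑ x ∈ c.support, c x • f x := rfl
  have h2 : fnl g c = ∑ x ∈ c.support, c x • g x := rfl
  rw [h1, h2]
  exact Finset.sum_congr rfl fun x hx => by rw [h x hx]

/-- a linear functional is determined by its values on the cells -/
theorem OB8_fnl_eq {X : Type*} (l : Ch X →ₗ[ZMod 2] ZMod 2) (c : Ch X) :
    fnl (fun x => l (single x 1)) c = l c :=
  hom_ext (f := fnl (fun x => l (single x 1))) (g := l) (fun _ => fnl_single _ _) c

theorem OB8_fnl_add {X : Type*} (f g : X → ZMod 2) (c : Ch X) :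
    fnl (fun x => f x + g x) c = fnl f c + fnl g c := by
  have h := hom_ext (f := fnl (fun x => f x + g x)) (g := fnl f + fnl g) (fun x => by
    rw [LinearMap.add_apply, fnl_single, fnl_single, fnl_single]) c
  exact h

theorem OB8_fnl_zero {X : Type*} {f : X → ZMod 2} {c : Ch X} (h : ∀ x ∈ c.support, f x = 0) :
    fnl f c = 0 := by
  have h1 : fnl f c = ∑ x ∈ c.support, c x • f x := rfl
  rw [h1]
  exact Finset.sum_eq_zero fun x hx => by rw [h x hx, smul_zero]

section OB8

variable {K : Type v} [Group K] (C : Cx.{u, v} K)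

theorem exists_far_point (hC : C.Acyc) (h : C.CoZero 0) (E : Finset C.X) :
    ∃ x, C.deg x = 0 ∧ C.eps x = 1 ∧ x ∉ E := by
  classical
  by_contra hcon
  push Not at hcon
  have h0 : ∀ x, C.eps x ≠ 0 → C.deg x = 0 := fun x hx => by
    by_contra hd
    exact hx (C.eps_deg x hd)
  have h1 : ∀ x, C.eps x ≠ 0 → x ∈ E := fun x hx => by
    refine hcon x (h0 x hx) ?_
    rcases OB8_zmod (C.eps x) with h2 | h2
    · exact absurd h2 hx
    · exact h2
  let φ : Ch C.X := Finsupp.onFinset E C.eps h1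
  have hφ : ∀ x, φ x = C.eps x := fun x => rfl
  have h2 : C.IsCoc 0 φ := by
    constructor
    · intro x hx
      refine h0 x ?_
      rw [← hφ]
      exact Finsupp.mem_support_iff.mp hx
    · intro x _
      have : (φ : C.X → ZMod 2) = C.eps := funext hφ
      rw [this]
      exact C.eps_bd x
  have h3 : φ = 0 := h φ h2
  obtain ⟨x, hx⟩ := hC.1
  have h4 : φ x = 1 := hx
  rw [h3] at h4
  exact zero_ne_one h4

/-- the submodule of the chains of degree `n` which avoid `E` -/
def OB8_D (n : ℕ) (E : Finset C.X) : Submodule (ZMod 2) (Ch C.X) where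
  carrier := {b | C.IsDeg n b ∧ ∀ x ∈ E, b x = 0}
  add_mem' := by
    rintro a b ⟨ha, ha'⟩ ⟨hb, hb'⟩
    refine ⟨isDeg_add C ha hb, fun x hx => ?_⟩
    rw [Finsupp.add_apply, ha' x hx, hb' x hx, add_zero]
  zero_mem' := ⟨isDeg_zero C n, fun _ _ => rfl⟩
  smul_mem' := by
    rintro a b ⟨hb, hb'⟩
    refine ⟨fun x hx => hb x (Finsupp.support_smul hx), fun x hx => ?_⟩
    rw [Finsupp.smul_apply, hb' x hx, smul_zero]

/-- a cycle of positive degree has augmentation zero -/
theorem OB8_aug {n : ℕ} {c : Ch C.X} (hc : C.IsDeg (n + 1) c) : C.aug c = 0 :=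
  OB8_fnl_zero fun x hx => C.eps_deg x (by rw [hc x hx]; exact Nat.succ_ne_zero n)

theorem OB8_isDeg_single (x : C.X) (a : ZMod 2) : C.IsDeg (C.deg x) (single x a) := by
  classical
  intro y hy
  have := Finsupp.support_single_subset hy
  rw [Finset.mem_singleton.mp this]

theorem OB8_isDeg_bd {n : ℕ} (x : C.X) (hx : C.deg x = n + 1) : C.IsDeg n (C.bd x) := by
  intro y hy
  have := C.bd_deg x y hy
  omega

/-- a functional whose value on the boundaries of the cells of degree `n + 1` is given by a cochain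
with finite support -/
theorem OB8_eqOn {n : ℕ} {l : Ch C.X →ₗ[ZMod 2] ZMod 2} {f : C.X → ZMod 2}
    (h : ∀ x, C.deg x = n + 1 → l (C.bd x) = f x) {b : Ch C.X} (hb : C.IsDeg (n + 1) b) :
    l (C.d b) = fnl f b := by
  have h1 : l (C.d b) = fnl (fun x => l (C.bd x)) b := by
    have h2 := hom_ext (f := l ∘ₗ C.d) (g := fnl (fun x => l (C.bd x))) (fun x => by
      rw [LinearMap.comp_apply, fnl_single, C.d_single]) b
    exact h2
  rw [h1]
  exact OB8_fnl_congr fun x hx => h x (hb x hx)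

theorem OB8_main (hC : C.Acyc) {n : ℕ} (ψ : Ch C.X)
    (h : ∀ φ, C.IsCoc (n + 1) φ → C.IsCob (n + 1) φ ∨ C.IsCob (n + 1) (φ + ψ))
    (dgr : Ch C.X →ₗ[ZMod 2] ZMod 2) (hd : ∀ x, C.deg x = n + 1 → dgr (C.bd x) = ψ x)
    (E : Finset C.X) :
    ∃ E' : Finset C.X, ∀ c, C.IsCyc n c → (∀ x ∈ E', c x = 0) → dgr c = 0 →
      ∃ b, C.IsDeg (n + 1) b ∧ (∀ x ∈ E, b x = 0) ∧ C.d b = c := by
  classical
  induction E using Finset.induction_on with
  | empty =>
    refine ⟨∅, fun c hc _ _ => ?_⟩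
    obtain ⟨b, hb, hb'⟩ := hC.2 n c hc
    exact ⟨b, hb, fun x hx => absurd hx (by simp), hb'⟩
  | insert e E he ih =>
    obtain ⟨E', hE'⟩ := ih
    by_cases hz : ∃ z, C.IsDeg (n + 1) z ∧ (∀ x ∈ E, z x = 0) ∧ C.d z = 0 ∧ z e = 1
    · obtain ⟨z, hz1, hz2, hz3, hz4⟩ := hz
      refine ⟨E', fun c hc hc1 hc2 => ?_⟩
      obtain ⟨b, hb1, hb2, hb3⟩ := hE' c hc hc1 hc2
      rcases OB8_zmod (b e) with h1 | h1
      · refine ⟨b, hb1, fun x hx => ?_, hb3⟩
        rcases Finset.mem_insert.mp hx with rfl | hx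
        · exact h1
        · exact hb2 x hx
      · refine ⟨b + z, isDeg_add C hb1 hz1, fun x hx => ?_, ?_⟩
        · rw [Finsupp.add_apply]
          rcases Finset.mem_insert.mp hx with rfl | hx
          · rw [h1, hz4]; decide
          · rw [hb2 x hx, hz2 x hx, add_zero]
        · rw [map_add, hb3, hz3, add_zero]
    · -- the value at `e` is a function of the boundary
      have hz' : ∀ z, C.IsDeg (n + 1) z → (∀ x ∈ E, z x = 0) → C.d z = 0 → z e = 0 := by
        intro z h1 h2 h3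
        rcases OB8_zmod (z e) with h4 | h4
        · exact h4
        · exact absurd ⟨z, h1, h2, h3, h4⟩ hz
      obtain ⟨l, hl⟩ := OB8_factor_mem (OB8_D C (n + 1) E) C.d
        (Finsupp.lapply e : Ch C.X →ₗ[ZMod 2] ZMod 2) (fun v hv hv' => hz' v hv.1 hv.2 hv')
      have hl' : ∀ b, C.IsDeg (n + 1) b → (∀ x ∈ E, b x = 0) → l (C.d b) = b e :=
        fun b h1 h2 => hl b ⟨h1, h2⟩
      have hl1 : ∀ x, C.deg x = n + 1 → x ∉ insert e E → l (C.bd x) = 0 := by
        intro x hx hx'
        rw [Finset.mem_insert, not_or] at hx'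
        have h1 := hl' (single x 1) (by rw [← hx]; exact OB8_isDeg_single C x 1) (fun y hy => by
          rw [Finsupp.single_apply, if_neg]
          rintro rfl
          exact hx'.2 hy)
        rw [C.d_single] at h1
        rw [h1, Finsupp.single_apply, if_neg hx'.1]
      let φ : Ch C.X := Finsupp.onFinset (insert e E)
        (fun x => if C.deg x = n + 1 then l (C.bd x) else 0) (by
          intro x hx
          by_contra hcon
          apply hx
          split_ifs with h1
          · exact hl1 x h1 hcon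
          · rfl)
      have hφ : ∀ x, φ x = if C.deg x = n + 1 then l (C.bd x) else 0 := fun x => rfl
      have hφ1 : ∀ x, C.deg x = n + 1 → l (C.bd x) = φ x := fun x hx => by rw [hφ, if_pos hx]
      have hcoc : C.IsCoc (n + 1) φ := by
        constructor
        · intro x hx
          by_contra hcon
          rw [Finsupp.mem_support_iff, hφ, if_neg hcon] at hx
          exact hx rfl
        · intro x hx
          have h1 := OB8_eqOn C hφ1 (OB8_isDeg_bd C x hx)
          rw [← h1, ← C.d_single x, C.d_d, map_zero]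
      have key : ∃ ψ' : Ch C.X, ∀ c, C.IsCyc n c → (∀ x ∈ ψ'.support, c x = 0) → dgr c = 0 →
          l c = 0 := by
        rcases h φ hcoc with ⟨ψ', _, h2⟩ | ⟨ψ', _, h2⟩
        · refine ⟨ψ', fun c hc hc1 _ => ?_⟩
          obtain ⟨b, hb, rfl⟩ := hC.2 n c hc
          have h3 := OB8_eqOn C hφ1 hb
          have h4 := OB8_eqOn C (l := fnl ψ') (f := φ) h2 hb
          rw [h3, ← h4]
          refine OB8_fnl_zero fun x hx => ?_
          by_contra hcon
          exact (Finsupp.mem_support_iff.mp hx) (hc1 x (Finsupp.mem_support_iff.mpr hcon))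
        · refine ⟨ψ', fun c hc hc1 hc2 => ?_⟩
          obtain ⟨b, hb, rfl⟩ := hC.2 n c hc
          have h3 := OB8_eqOn C hφ1 hb
          have h4 := OB8_eqOn C (l := fnl ψ') (f := fun x => φ x + ψ x) h2 hb
          have h5 := OB8_eqOn C (l := dgr) (f := ψ) hd hb
          rw [OB8_fnl_add, ← h3, ← h5, hc2, add_zero] at h4
          rw [← h4]
          refine OB8_fnl_zero fun x hx => ?_
          by_contra hcon
          exact (Finsupp.mem_support_iff.mp hx) (hc1 x (Finsupp.mem_support_iff.mpr hcon))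
      obtain ⟨ψ', hψ'⟩ := key
      refine ⟨E' ∪ ψ'.support, fun c hc hc1 hc2 => ?_⟩
      obtain ⟨b, hb1, hb2, hb3⟩ := hE' c hc (fun x hx => hc1 x (Finset.mem_union_left _ hx)) hc2
      have h1 := hψ' c hc (fun x hx => hc1 x (Finset.mem_union_right _ hx)) hc2
      refine ⟨b, hb1, fun x hx => ?_, hb3⟩
      rcases Finset.mem_insert.mp hx with rfl | hx
      · rw [← hl' b hb1 hb2, hb3, h1]
      · exact hb2 x hx

theorem avoid (hC : C.Acyc) {n : ℕ} (h : C.CoZero (n + 1)) (E : Finset C.X) :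
    ∃ E' : Finset C.X, ∀ c, C.IsCyc n c → (∀ x ∈ E', c x = 0) →
      ∃ b, C.IsDeg (n + 1) b ∧ (∀ x ∈ E, b x = 0) ∧ C.d b = c := by
  obtain ⟨E', hE'⟩ := OB8_main C hC (n := n) 0 (fun φ hφ => Or.inl (h φ hφ)) 0
    (fun x _ => rfl) E
  exact ⟨E', fun c hc hc1 => hE' c hc hc1 rfl⟩

theorem avoid_one (hC : C.Acyc) {n : ℕ} (h : C.CoOne (n + 1)) (h0 : ¬ C.CoZero (n + 1)) :
    ∃ dgr : Ch C.X →ₗ[ZMod 2] ZMod 2,
      (∀ E : Finset C.X, ∃ E' : Finset C.X, ∀ c, C.IsCyc n c → (∀ x ∈ E', c x = 0) → dgr c = 0 →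
        ∃ b, C.IsDeg (n + 1) b ∧ (∀ x ∈ E, b x = 0) ∧ C.d b = c) ∧
      ∀ E : Finset C.X, ∃ s, C.IsCyc n s ∧ (∀ x ∈ E, s x = 0) ∧ dgr s = 1 := by
  classical
  obtain ⟨ψ, hψ, hψ'⟩ := h
  obtain ⟨dgr, hdgr⟩ := OB8_factor_mem (OB8_D C (n + 1) ∅) C.d (fnl ψ) (by
      rintro z ⟨hz1, hz2⟩ hz3
      obtain ⟨b, hb, rfl⟩ := hC.2 (n + 1) z ⟨hz1, hz3, OB8_aug C hz1⟩
      have h1 := OB8_eqOn C (l := fnl ψ) (f := fun _ => 0) hψ.2 hb
      rw [h1]
      exact OB8_fnl_zero fun _ _ => rfl)
  have hd : ∀ x, C.deg x = n + 1 → dgr (C.bd x) = ψ x := by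
    intro x hx
    have h1 : dgr (C.d (single x 1)) = fnl ψ (single x 1) :=
      hdgr (single x 1) ⟨by rw [← hx]; exact OB8_isDeg_single C x 1, fun y hy => absurd hy (by simp)⟩
    rwa [C.d_single, fnl_single] at h1
  refine ⟨dgr, OB8_main C hC ψ hψ' dgr hd, fun E => ?_⟩
  by_contra hcon
  have hcon' : ∀ s, C.IsCyc n s → (∀ x ∈ E, s x = 0) → dgr s = 0 := by
    intro s h1 h2
    rcases OB8_zmod (dgr s) with h3 | h3
    · exact h3
    · exact absurd ⟨s, h1, h2, h3⟩ hcon
  -- the restriction to `E`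
  let r : Ch C.X →ₗ[ZMod 2] Ch C.X := lin (fun x => if x ∈ E then single x 1 else 0)
  have hr : ∀ (c : Ch C.X) (x : C.X), x ∈ E → r c x = c x := by
    intro c x hx
    have h1 := hom_ext (f := (Finsupp.lapply x : Ch C.X →ₗ[ZMod 2] ZMod 2) ∘ₗ r)
      (g := (Finsupp.lapply x : Ch C.X →ₗ[ZMod 2] ZMod 2)) (fun y => by
        rw [LinearMap.comp_apply]
        show (r (single y 1)) x = (single y (1 : ZMod 2)) x
        have h2 : r (single y 1) = if y ∈ E then single y 1 else 0 := lin_single _ _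
        rw [h2]
        split_ifs with h3
        · rfl
        · rw [Finsupp.single_apply, if_neg]
          · rfl
          · rintro rfl
            exact h3 hx) c
    exact h1
  -- the submodule of cycles
  let Z : Submodule (ZMod 2) (Ch C.X) :=
    { carrier := {c | C.IsCyc n c}
      add_mem' := by
        rintro a b ⟨ha, ha', ha''⟩ ⟨hb, hb', hb''⟩
        refine ⟨isDeg_add C ha hb, ?_, ?_⟩
        · rw [map_add, ha', hb', add_zero]
        · rw [map_add, ha'', hb'', add_zero]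
      zero_mem' := ⟨isDeg_zero C n, map_zero _, map_zero _⟩
      smul_mem' := by
        rintro a b ⟨hb, hb', hb''⟩
        refine ⟨fun x hx => hb x (Finsupp.support_smul hx), ?_, ?_⟩
        · rw [map_smul, hb', smul_zero]
        · rw [map_smul, hb'', smul_zero] }
  obtain ⟨l, hl⟩ := OB8_factor_mem Z r dgr (by
    intro z hz hz2
    refine hcon' z hz fun x hx => ?_
    rw [← hr z x hx, hz2]
    rfl)
  have hl' : ∀ z, C.IsCyc n z → l (r z) = dgr z := fun z hz => hl z hz
  let φ : Ch C.X := Finsupp.onFinset E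
    (fun x => if C.deg x = n then (if x ∈ E then l (single x 1) else 0) else 0) (by
      intro x hx
      by_contra hcon
      apply hx
      rw [if_neg hcon, ite_self])
  have hφ : ∀ x, φ x = if C.deg x = n then (if x ∈ E then l (single x 1) else 0) else 0 :=
    fun x => rfl
  have hφ1 : ∀ c, C.IsDeg n c → fnl φ c = l (r c) := by
    intro c hc
    have h1 := hom_ext (f := l ∘ₗ r) (g := fnl (fun x => if x ∈ E then l (single x 1) else 0))
      (fun x => by
        rw [LinearMap.comp_apply, fnl_single]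
        have h2 : r (single x 1) = if x ∈ E then single x 1 else 0 := lin_single _ _
        rw [h2]
        split_ifs
        · rfl
        · exact map_zero l) c
    rw [LinearMap.comp_apply] at h1
    rw [h1]
    exact OB8_fnl_congr fun x hx => by rw [hφ, if_pos (hc x hx)]
  have hcob : C.IsCob (n + 1) ψ := by
    refine ⟨φ, ?_, fun x hx => ?_⟩
    · intro x hx
      by_contra hcon
      rw [Finsupp.mem_support_iff, hφ, if_neg hcon] at hx
      exact hx rfl
    · rw [hφ1 _ (OB8_isDeg_bd C x hx), hl' _ ⟨OB8_isDeg_bd C x hx, C.bd_bd x, C.eps_bd x⟩]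
      exact hd x hx
  apply h0
  intro φ' hφ'
  rcases hψ' φ' hφ' with h1 | h1
  · exact h1
  · obtain ⟨a, ha, ha'⟩ := h1
    obtain ⟨b, hb, hb'⟩ := hcob
    refine ⟨a + b, isDeg_add C ha hb, fun x hx => ?_⟩
    have h2 : fnl (fun y => a y + b y) (C.bd x) = (φ' + ψ) x + ψ x := by
      rw [OB8_fnl_add, ha' x hx, hb' x hx]
    rw [Finsupp.add_apply, add_assoc, CharTwo.add_self_eq_zero, add_zero] at h2
    exact h2

end OB8

end Ob

end OS
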