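import Mathlib
import Pool.Agent.Lib.MP_8fe54c_gt.ResDefs

/-!
# Mod 2 cohomology with finite supports of a cell complex (definitions used in the statement)
-/

namespace OS

universe u v

namespace CellComplex

variable {Γ : Type v} [Group Γ] (C : CellComplex.{u, v} Γ)

/-- the coboundary of the finitely supported mod 2 cochain `φ`, evaluated at the cell `x` -/
noncomputable def cobd {i : ℕ} (φ : C.X i →₀ ZMod 2) (x : C.X (i + 1)) : ZMod 2 :=
  (C.d i x).sum fun y n => (n : ZMod 2) * φ y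

/-- the finitely supported mod 2 cochain `φ` is a coboundary -/
def IsCob : {i : ℕ} → (C.X i →₀ ZMod 2) → Prop
  | 0, φ => φ = 0
  | _ + 1, φ => ∃ ψ, ∀ x, C.cobd ψ x = φ x

/-- the mod 2 cohomology with finite supports vanishes in degree `i`; for a free resolution this is
`H^i(Γ; 𝔽₂Γ) = 0` -/
def CoZero (i : ℕ) : Prop := ∀ φ : C.X i →₀ ZMod 2, (∀ x, C.cobd φ x = 0) → C.IsCob φ

/-- the mod 2 cohomology with finite supports has dimension at most one in degree `i`; for a free
resolution this is `dim H^i(Γ; 𝔽₂Γ) ≤ 1` -/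
def CoOne (i : ℕ) : Prop := ∃ ψ : C.X i →₀ ZMod 2, ∀ φ : C.X i →₀ ZMod 2,
  (∀ x, C.cobd φ x = 0) → C.IsCob φ ∨ C.IsCob (φ + ψ)

end CellComplex

end OS
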