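import Mathlib
import Pool.Agent.Lib.MP_8fe54c_gt.ObCross
import Pool.Agent.Lib.MP_8fe54c_gt.GrpC

/-!
# Coarse obstructors: the cubes of commuting elements (OB4a)
-/

namespace OS

namespace Ob

open Finsupp

universe u v w u' v'

section

variable {V : Type} [DecidableEq V] (G : SimpleGraph V) {Γ : Type u} [Group Γ] (a : V → Γ)

/-- the cliques -/
abbrev OB4_Cl := {σ : Finset V // G.IsClique (σ : Set V)}

variable {G} in
/-- removing a vertex from a clique -/
def OB4_er (σ : OB4_Cl G) (v : V) : OB4_Cl G :=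
  ⟨σ.1.erase v, σ.2.subset (Finset.coe_subset.mpr (Finset.erase_subset v σ.1))⟩

variable {G}

/-- the boundary of a cube -/
noncomputable def OB4_bd (p : Γ × OB4_Cl G) : Ch (Γ × OB4_Cl G) :=
  ∑ v ∈ p.2.1, (single (p.1, OB4_er p.2 v) 1 + single (p.1 * a v, OB4_er p.2 v) 1)

open Classical in
/-- the augmentation of a cube -/
noncomputable def OB4_eps (p : Γ × OB4_Cl G) : ZMod 2 := if p.2.1 = ∅ then 1 else 0

theorem OB4_bd_mem {p q : Γ × OB4_Cl G} (h : q ∈ (OB4_bd a p).support) :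
    ∃ v ∈ p.2.1, q.2 = OB4_er p.2 v := by
  classical
  obtain ⟨v, hv, h1⟩ := Finset.mem_biUnion.mp (Finsupp.support_finsetSum h)
  refine ⟨v, hv, ?_⟩
  rcases Finset.mem_union.mp (Finsupp.support_add h1) with h2 | h2
  · have h3 := Finset.mem_singleton.mp (Finsupp.support_single_subset h2)
    rw [h3]
  · have h3 := Finset.mem_singleton.mp (Finsupp.support_single_subset h2)
    rw [h3]

theorem OB4_two (x : ZMod 2) : x + x = 0 := CharTwo.add_self_eq_zero x

/-- the complex of cubes -/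
noncomputable def OB4_cx [Finite V] (hcomm : ∀ u v, G.Adj u v → Commute (a u) (a v)) :
    Cx.{u, u} Γ where
  X := Γ × OB4_Cl G
  act :=
    { smul := fun g p => (g * p.1, p.2)
      one_smul := fun p => Prod.ext (one_mul p.1) rfl
      mul_smul := fun g h p => Prod.ext (mul_assoc g h p.1) rfl }
  deg p := p.2.1.card
  bd := OB4_bd a
  eps := OB4_eps
  deg_smul _ _ := rfl
  bd_deg p q h := by
    obtain ⟨v, hv, h1⟩ := OB4_bd_mem a h
    rw [h1]
    show (p.2.1.erase v).card + 1 = _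
    exact Finset.card_erase_add_one hv
  eps_deg p h := by
    unfold OB4_eps
    rw [if_neg]
    intro h1
    exact h (by rw [h1]; rfl)
  bd_smul g p := by
    show OB4_bd a (g * p.1, p.2) = mp (fun q : Γ × OB4_Cl G => (g * q.1, q.2)) (OB4_bd a p)
    unfold OB4_bd
    rw [map_sum]
    refine Finset.sum_congr rfl fun v _ => ?_
    rw [map_add, mp_single, mp_single, mul_assoc]
  eps_smul _ _ := rfl
  bd_bd p := by
    obtain ⟨g, σ⟩ := p
    have h1 : lin (OB4_bd a) (OB4_bd a (g, σ)) = ∑ v ∈ σ.1, ∑ w ∈ σ.1.erase v,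
        ((single (g, OB4_er (OB4_er σ v) w) 1 + single (g * a v * a w, OB4_er (OB4_er σ v) w) 1) +
          (single (g * a w, OB4_er (OB4_er σ v) w) 1 +
            single (g * a v, OB4_er (OB4_er σ v) w) 1)) := by
      rw [OB4_bd, map_sum]
      refine Finset.sum_congr rfl fun v _ => ?_
      rw [map_add, lin_single, lin_single, OB4_bd, OB4_bd, ← Finset.sum_add_distrib]
      refine Finset.sum_congr rfl fun w _ => ?_
      simp only
      abel
    rw [h1]
    refine F1_sum_pairs _ _ ?_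
    intro v hv w hw hvw
    have h2 : OB4_er (OB4_er σ v) w = OB4_er (OB4_er σ w) v :=
      Subtype.ext (Finset.erase_right_comm)
    have h3 : g * a v * a w = g * a w * a v := by
      rw [mul_assoc, mul_assoc]
      congr 1
      exact (hcomm v w (σ.2 hv hw hvw)).eq
    rw [h2, h3]
    congr 1
    exact add_comm _ _
  eps_bd p := by
    obtain ⟨g, σ⟩ := p
    rw [OB4_bd, map_sum]
    refine Finset.sum_eq_zero fun v _ => ?_
    rw [map_add, fnl_single, fnl_single]
    exact OB4_two _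
  free g p h := by
    have h1 : g * p.1 = p.1 := congrArg Prod.fst h
    exact mul_eq_right.mp h1
  fin n := by
    classical
    have := Fintype.ofFinite V
    have := Fintype.ofFinite (OB4_Cl G)
    refine ⟨(Finset.univ : Finset (OB4_Cl G)).image fun σ => ((1 : Γ), σ), ?_⟩
    rintro ⟨g, σ⟩ _
    exact ⟨g, (1, σ), Finset.mem_image_of_mem _ (Finset.mem_univ _), Prod.ext (mul_one g) rfl⟩

/-! ### the cubes in the tensor square -/

/-- the vertices of copy `b` -/
def OB4_pp (b : Bool) (lam : Finset (WV V)) : Finset V :=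
  (lam.filter fun w => w.2.2 = b).image Prod.fst

/-- the exponents of copy `b` -/
def OB4_nn (b : Bool) (lam : Finset (WV V)) (v : V) : ℤ := if (v, true, b) ∈ lam then -1 else 0

theorem OB4_mem_pp {b : Bool} {lam : Finset (WV V)} {v : V} :
    v ∈ OB4_pp b lam ↔ ∃ s, (v, s, b) ∈ lam := by
  unfold OB4_pp
  simp only [Finset.mem_image, Finset.mem_filter]
  constructor
  · rintro ⟨⟨v', s, b'⟩, ⟨h1, h2⟩, rfl⟩
    simp only at h2
    subst h2
    exact ⟨s, h1⟩
  · rintro ⟨s, hs⟩
    exact ⟨(v, s, b), ⟨hs, rfl⟩, rfl⟩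

theorem OB4_pp_clique {b : Bool} {lam : Finset (WV V)}
    (h : (XG G).IsClique (lam : Set (WV V))) :
    G.IsClique ((OB4_pp b lam : Finset V) : Set V) := by
  intro u hu v hv huv
  obtain ⟨s, hs⟩ := OB4_mem_pp.mp (Finset.mem_coe.mp hu)
  obtain ⟨t, ht⟩ := OB4_mem_pp.mp (Finset.mem_coe.mp hv)
  have hne : ((u, s, b) : WV V) ≠ (v, t, b) := fun h => huv (congrArg Prod.fst h)
  rcases h hs ht hne with ⟨_, h2⟩ | ⟨h1, _⟩
  · exact h2
  · exact absurd rfl h1

/-- in each copy there is only one sign at a vertex -/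
theorem OB4_sign {b : Bool} {lam : Finset (WV V)} (h : (XG G).IsClique (lam : Set (WV V)))
    {v : V} {s t : Bool} (hs : (v, s, b) ∈ lam) (ht : (v, t, b) ∈ lam) : s = t := by
  by_contra hst
  have hne : ((v, s, b) : WV V) ≠ (v, t, b) := fun h => hst (congrArg (fun w : WV V => w.2.1) h)
  rcases h hs ht hne with ⟨_, h2⟩ | ⟨h1, _⟩
  · exact G.irrefl h2
  · exact absurd rfl h1

theorem OB4_hs (hcomm : ∀ u v, G.Adj u v → Commute (a u) (a v)) (σ : OB4_Cl G) :
    ∀ u ∈ σ.1, ∀ v ∈ σ.1, Commute (a u) (a v) := by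
  intro u hu v hv
  by_cases h : u = v
  · rw [h]
  · exact hcomm u v (σ.2 hu hv h)

open Classical in
/-- the cube with given directions and exponents of the base point -/
noncomputable def OB4_mk (hcomm : ∀ u v, G.Adj u v → Commute (a u) (a v)) (s : Finset V)
    (n : V → ℤ) : Γ × OB4_Cl G :=
  if h : G.IsClique (s : Set V) then (F3_E a (OB4_hs a hcomm ⟨s, h⟩) n, ⟨s, h⟩)
  else (1, ⟨∅, by simp⟩)

/-- the cube of copy `b` -/
noncomputable def OB4_cell (hcomm : ∀ u v, G.Adj u v → Commute (a u) (a v)) (b : Bool)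
    (lam : Finset (WV V)) : Γ × OB4_Cl G := OB4_mk a hcomm (OB4_pp b lam) (OB4_nn b lam)

/-- the group element of a vertex of the deleted join -/
def OB4_g (w : WV V) : Γ := if w.2.1 then (a w.1)⁻¹ else a w.1

theorem OB4_pp_erase_ne {b : Bool} {lam : Finset (WV V)} {w : WV V} (hw : w.2.2 ≠ b) :
    OB4_pp b (lam.erase w) = OB4_pp b lam := by
  ext v
  rw [OB4_mem_pp, OB4_mem_pp]
  constructor
  · rintro ⟨s, hs⟩
    exact ⟨s, Finset.mem_of_mem_erase hs⟩
  · rintro ⟨s, hs⟩
    refine ⟨s, Finset.mem_erase.mpr ⟨?_, hs⟩⟩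
    rintro rfl
    exact hw rfl

theorem OB4_nn_erase_ne {b : Bool} {lam : Finset (WV V)} {w : WV V} (hw : w.2.2 ≠ b) :
    OB4_nn b (lam.erase w) = OB4_nn b lam := by
  funext v
  unfold OB4_nn
  have h : ((v, true, b) : WV V) ∈ lam.erase w ↔ (v, true, b) ∈ lam := by
    rw [Finset.mem_erase]
    constructor
    · exact fun h => h.2
    · intro h
      refine ⟨?_, h⟩
      rintro rfl
      exact hw rfl
  simp only [h]

theorem OB4_cell_erase_ne (hcomm : ∀ u v, G.Adj u v → Commute (a u) (a v)) {b : Bool}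
    {lam : Finset (WV V)} {w : WV V} (hw : w.2.2 ≠ b) :
    OB4_cell a hcomm b (lam.erase w) = OB4_cell a hcomm b lam := by
  unfold OB4_cell
  rw [OB4_pp_erase_ne hw, OB4_nn_erase_ne hw]

theorem OB4_pp_erase {lam : Finset (WV V)} (h : (XG G).IsClique (lam : Set (WV V)))
    {w : WV V} (hw : w ∈ lam) : OB4_pp w.2.2 (lam.erase w) = (OB4_pp w.2.2 lam).erase w.1 := by
  obtain ⟨v, s, b⟩ := w
  ext v'
  simp only [Finset.mem_erase, OB4_mem_pp]
  constructor
  · rintro ⟨t, ht, ht'⟩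
    refine ⟨?_, t, ht'⟩
    rintro rfl
    exact ht (by rw [OB4_sign h ht' hw])
  · rintro ⟨hne, t, ht⟩
    refine ⟨t, ?_, ht⟩
    intro heq
    exact hne (congrArg Prod.fst heq)

/-- the base point and the faces of a cube -/
theorem OB4_cell_face (hcomm : ∀ u v, G.Adj u v → Commute (a u) (a v))
    {lam : Finset (WV V)} (h : (XG G).IsClique (lam : Set (WV V))) {w : WV V} (hw : w ∈ lam) :
    (single ((OB4_cell a hcomm w.2.2 lam).1, OB4_er (OB4_cell a hcomm w.2.2 lam).2 w.1) 1 +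
      single ((OB4_cell a hcomm w.2.2 lam).1 * a w.1, OB4_er (OB4_cell a hcomm w.2.2 lam).2 w.1) 1 :
        Ch (Γ × OB4_Cl G)) =
      single (OB4_cell a hcomm w.2.2 (lam.erase w)) 1 +
        single (OB4_g a w * (OB4_cell a hcomm w.2.2 (lam.erase w)).1,
          (OB4_cell a hcomm w.2.2 (lam.erase w)).2) 1 := by
  have h1 := OB4_pp_clique (b := w.2.2) h
  have h2 : (XG G).IsClique ((lam.erase w : Finset (WV V)) : Set (WV V)) := F1_clique_erase h w
  have h3 := OB4_pp_clique (b := w.2.2) h2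
  have e1 : OB4_cell a hcomm w.2.2 lam =
      (F3_E a (OB4_hs a hcomm ⟨OB4_pp w.2.2 lam, h1⟩) (OB4_nn w.2.2 lam),
        ⟨OB4_pp w.2.2 lam, h1⟩) := dif_pos h1
  have e2 : OB4_cell a hcomm w.2.2 (lam.erase w) =
      (F3_E a (OB4_hs a hcomm ⟨OB4_pp w.2.2 (lam.erase w), h3⟩) (OB4_nn w.2.2 (lam.erase w)),
        ⟨OB4_pp w.2.2 (lam.erase w), h3⟩) := dif_pos h3
  have hwm : w.1 ∈ OB4_pp w.2.2 lam := OB4_mem_pp.mpr ⟨w.2.1, hw⟩
  have e3 : OB4_er (⟨OB4_pp w.2.2 lam, h1⟩ : OB4_Cl G) w.1 =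
      ⟨OB4_pp w.2.2 (lam.erase w), h3⟩ := Subtype.ext (OB4_pp_erase h hw).symm
  set s := OB4_pp w.2.2 lam with hs
  have hsc : ∀ u ∈ s, ∀ v ∈ s, Commute (a u) (a v) := OB4_hs a hcomm ⟨s, h1⟩
  have e4 : F3_E a (OB4_hs a hcomm ⟨OB4_pp w.2.2 (lam.erase w), h3⟩)
      (OB4_nn w.2.2 (lam.erase w)) = F3_E a (s := s.erase w.1)
        (fun u hu v hv => hsc u (Finset.mem_of_mem_erase hu) v (Finset.mem_of_mem_erase hv))
        (OB4_nn w.2.2 lam) := by
    unfold F3_E
    refine Finset.noncommProd_congr (OB4_pp_erase h hw) (fun v hv => ?_) _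
    congr 1
    unfold OB4_nn
    have hne : v ≠ w.1 := Finset.ne_of_mem_erase hv
    have : ((v, true, w.2.2) : WV V) ∈ lam.erase w ↔ (v, true, w.2.2) ∈ lam := by
      rw [Finset.mem_erase]
      constructor
      · exact fun h => h.2
      · intro h
        refine ⟨?_, h⟩
        intro heq
        exact hne (congrArg Prod.fst heq)
    simp only [this]
  have e5 : a w.1 ^ OB4_nn w.2.2 lam w.1 * F3_E a (s := s.erase w.1)
        (fun u hu v hv => hsc u (Finset.mem_of_mem_erase hu) v (Finset.mem_of_mem_erase hv))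
        (OB4_nn w.2.2 lam) = F3_E a hsc (OB4_nn w.2.2 lam) :=
    Finset.mul_noncommProd_erase s hwm (fun v => a v ^ OB4_nn w.2.2 lam v) (F3_comm a hsc _ _)
  have e6 : F3_E a (s := s.erase w.1)
        (fun u hu v hv => hsc u (Finset.mem_of_mem_erase hu) v (Finset.mem_of_mem_erase hv))
        (OB4_nn w.2.2 lam) * a w.1 = a w.1 * F3_E a (s := s.erase w.1)
        (fun u hu v hv => hsc u (Finset.mem_of_mem_erase hu) v (Finset.mem_of_mem_erase hv))
        (OB4_nn w.2.2 lam) := by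
    have h4 := F3_E_commute (a := a) (s := s.erase w.1)
      (fun u hu v hv => hsc u (Finset.mem_of_mem_erase hu) v (Finset.mem_of_mem_erase hv))
      (u := w.1) (fun v hv => hsc w.1 hwm v (Finset.mem_of_mem_erase hv)) 1 (OB4_nn w.2.2 lam)
    rw [zpow_one] at h4
    exact h4.eq.symm
  rw [e1, e2]
  simp only [e3]
  rw [e4]
  have e7 : F3_E a (OB4_hs a hcomm ⟨s, h1⟩) (OB4_nn w.2.2 lam) = F3_E a hsc (OB4_nn w.2.2 lam) := rfl
  rw [e7, ← e5]
  set B := F3_E a (s := s.erase w.1)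
        (fun u hu v hv => hsc u (Finset.mem_of_mem_erase hu) v (Finset.mem_of_mem_erase hv))
        (OB4_nn w.2.2 lam) with hB
  unfold OB4_g
  by_cases hsg : w.2.1 = true
  · have h5 : OB4_nn w.2.2 lam w.1 = -1 := by
      unfold OB4_nn
      rw [if_pos]
      have : ((w.1, true, w.2.2) : WV V) = w := by rw [← hsg]
      rwa [this]
    rw [h5, hsg, if_pos rfl, zpow_neg, zpow_one]
    have h6 : (a w.1)⁻¹ * B * a w.1 = B := by
      rw [mul_assoc, e6, inv_mul_cancel_left]
    rw [h6]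
    exact add_comm _ _
  · have hsf : w.2.1 = false := by simpa using hsg
    have h5 : OB4_nn w.2.2 lam w.1 = 0 := by
      unfold OB4_nn
      rw [if_neg]
      intro h7
      exact hsg (OB4_sign h (show (w.1, w.2.1, w.2.2) ∈ lam from hw) h7)
    rw [h5, hsf, if_neg (by simp), zpow_zero, one_mul, e6]

/-- the boundary of a cube -/
theorem OB4_cell_bd (hcomm : ∀ u v, G.Adj u v → Commute (a u) (a v)) (b : Bool)
    {lam : Finset (WV V)} (h : (XG G).IsClique (lam : Set (WV V))) :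
    OB4_bd a (OB4_cell a hcomm b lam) = ∑ w ∈ lam.filter (fun w => w.2.2 = b),
      (single (OB4_cell a hcomm b (lam.erase w)) 1 +
        single (OB4_g a w * (OB4_cell a hcomm b (lam.erase w)).1,
          (OB4_cell a hcomm b (lam.erase w)).2) 1) := by
  have h1 := OB4_pp_clique (b := b) h
  have e1 : (OB4_cell a hcomm b lam).2.1 = OB4_pp b lam := by
    unfold OB4_cell OB4_mk
    rw [dif_pos h1]
  have e0 : OB4_bd a (OB4_cell a hcomm b lam) = ∑ v ∈ OB4_pp b lam,
      (single ((OB4_cell a hcomm b lam).1, OB4_er (OB4_cell a hcomm b lam).2 v) 1 +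
        single ((OB4_cell a hcomm b lam).1 * a v, OB4_er (OB4_cell a hcomm b lam).2 v) 1) := by
    unfold OB4_bd
    rw [e1]
  rw [e0]
  unfold OB4_pp
  rw [Finset.sum_image]
  · refine Finset.sum_congr rfl fun w hw => ?_
    obtain ⟨hw1, hw2⟩ := Finset.mem_filter.mp hw
    subst hw2
    exact OB4_cell_face a hcomm h hw1
  · rintro ⟨v, s, b1⟩ hw ⟨v', s', b2⟩ hw' hvv
    obtain ⟨hw1, hw2⟩ := Finset.mem_filter.mp (Finset.mem_coe.mp hw)
    obtain ⟨hw1', hw2'⟩ := Finset.mem_filter.mp (Finset.mem_coe.mp hw')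
    simp only at hvv hw2 hw2'
    subst hvv hw2 hw2'
    rw [OB4_sign h hw1 hw1']

theorem OB4_pp_TW (b : Bool) (lam : Finset (WV V)) :
    OB4_pp b (lam.image TW) = OB4_pp (!b) lam := by
  ext v
  rw [OB4_mem_pp, OB4_mem_pp]
  constructor
  · rintro ⟨s, hs⟩
    obtain ⟨⟨v', s', b'⟩, h1, h2⟩ := Finset.mem_image.mp hs
    unfold TW at h2
    obtain ⟨rfl, h3⟩ := Prod.mk.inj h2
    obtain ⟨rfl, rfl⟩ := Prod.mk.inj h3
    exact ⟨s', by simpa using h1⟩
  · rintro ⟨s, hs⟩
    exact ⟨s, Finset.mem_image.mpr ⟨(v, s, !b), hs, by simp [TW]⟩⟩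

theorem OB4_nn_TW (b : Bool) (lam : Finset (WV V)) :
    OB4_nn b (lam.image TW) = OB4_nn (!b) lam := by
  funext v
  unfold OB4_nn
  have h : ((v, true, b) : WV V) ∈ lam.image TW ↔ (v, true, !b) ∈ lam := by
    constructor
    · intro hs
      obtain ⟨⟨v', s', b'⟩, h1, h2⟩ := Finset.mem_image.mp hs
      unfold TW at h2
      obtain ⟨rfl, h3⟩ := Prod.mk.inj h2
      obtain ⟨rfl, rfl⟩ := Prod.mk.inj h3
      simpa using h1
    · intro hs
      exact Finset.mem_image.mpr ⟨(v, true, !b), hs, by simp [TW]⟩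
  simp only [h]

theorem OB4_cell_TW (hcomm : ∀ u v, G.Adj u v → Commute (a u) (a v)) (b : Bool)
    (lam : Finset (WV V)) :
    OB4_cell a hcomm b (lam.image TW) = OB4_cell a hcomm (!b) lam := by
  unfold OB4_cell
  rw [OB4_pp_TW, OB4_nn_TW]

theorem OB4_card {lam : Finset (WV V)} (h : (XG G).IsClique (lam : Set (WV V))) :
    (OB4_pp false lam).card + (OB4_pp true lam).card = lam.card := by
  have hinj : ∀ b, Set.InjOn Prod.fst (↑(lam.filter fun w => w.2.2 = b) : Set (WV V)) := by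
    rintro b ⟨v, s, b1⟩ hw ⟨v', s', b2⟩ hw' hvv
    obtain ⟨hw1, hw2⟩ := Finset.mem_filter.mp (Finset.mem_coe.mp hw)
    obtain ⟨hw1', hw2'⟩ := Finset.mem_filter.mp (Finset.mem_coe.mp hw')
    simp only at hvv hw2 hw2'
    subst hvv hw2 hw2'
    rw [OB4_sign h hw1 hw1']
  unfold OB4_pp
  rw [Finset.card_image_of_injOn (hinj false), Finset.card_image_of_injOn (hinj true)]
  rw [← Finset.card_filter_add_card_filter_not (s := lam) (fun w : WV V => w.2.2 = false)]
  congr 2
  ext w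
  simp

end

theorem exists_cubes2 {V : Type} [DecidableEq V] [Finite V] (G : SimpleGraph V) {Γ : Type u}
    [Group Γ] (a : V → Γ) (hcomm : ∀ u v, G.Adj u v → Commute (a u) (a v)) :
    ∃ (C : Cx.{u, u} Γ) (x₀ : C.X) (e : Finset (WV V) → Ch (C.X × C.X)),
      C.deg x₀ = 0 ∧ C.eps x₀ = 1 ∧ e ∅ = single (x₀, x₀) 1 ∧
      ∀ lam : Finset (WV V), (XG G).IsClique (lam : Set (WV V)) →
        C.IsDeg2 lam.card (e lam) ∧
        C.d2 (e lam) = ∑ w ∈ lam, (e (lam.erase w) + ac (gW a w) (e (lam.erase w))) ∧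
        sw (e lam) = e (lam.image TW) := by
  classical
  have hemp : ∀ b, OB4_cell a hcomm b ∅ = ((1 : Γ), (⟨∅, by simp⟩ : OB4_Cl G)) := by
    intro b
    unfold OB4_cell OB4_mk
    have h1 : OB4_pp b (∅ : Finset (WV V)) = ∅ := rfl
    have h2 : G.IsClique ((OB4_pp b (∅ : Finset (WV V)) : Finset V) : Set V) := by
      rw [h1]
      simp
    rw [dif_pos h2]
    refine Prod.ext ?_ (Subtype.ext h1)
    show F3_E a (OB4_hs a hcomm ⟨OB4_pp b ∅, h2⟩) (OB4_nn b ∅) = 1
    refine F3_E_zero _ (fun v hv => ?_)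
    have h3 : v ∈ OB4_pp b (∅ : Finset (WV V)) := hv
    rw [h1] at h3
    exact absurd h3 (Finset.notMem_empty v)
  let e : Finset (WV V) → Ch ((Γ × OB4_Cl G) × (Γ × OB4_Cl G)) := fun lam =>
    single (OB4_cell a hcomm false lam, OB4_cell a hcomm true lam) 1
  have he : ∀ lam, e lam = single (OB4_cell a hcomm false lam, OB4_cell a hcomm true lam) 1 :=
    fun lam => rfl
  have hx : (OB4_cx a hcomm).eps ((1 : Γ), (⟨∅, by simp⟩ : OB4_Cl G)) = 1 := by
    show OB4_eps ((1 : Γ), (⟨∅, by simp⟩ : OB4_Cl G)) = 1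
    unfold OB4_eps
    rw [if_pos rfl]
  have hx0 : (OB4_cx a hcomm).deg ((1 : Γ), (⟨∅, by simp⟩ : OB4_Cl G)) = 0 := rfl
  have hx2 : e ∅ = single (((1 : Γ), (⟨∅, by simp⟩ : OB4_Cl G)),
      ((1 : Γ), (⟨∅, by simp⟩ : OB4_Cl G))) 1 := by
    rw [he, hemp, hemp]
  refine ⟨OB4_cx a hcomm, ((1 : Γ), (⟨∅, by simp⟩ : OB4_Cl G)), e, hx0, hx, hx2, ?_⟩
  intro lam h
  have hc : ∀ b, (OB4_cell a hcomm b lam).2.1 = OB4_pp b lam := by
    intro b
    unfold OB4_cell OB4_mk
    rw [dif_pos (OB4_pp_clique h)]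
  refine ⟨?_, ?_, ?_⟩
  · intro p hp
    have h1 := Finset.mem_singleton.mp (Finsupp.support_single_subset hp)
    rw [h1]
    show (OB4_cell a hcomm false lam).2.1.card + (OB4_cell a hcomm true lam).2.1.card = lam.card
    rw [hc, hc]
    exact OB4_card h
  · have e0 : (OB4_cx a hcomm).d2 (e lam)
        = mp (fun x => (x, OB4_cell a hcomm true lam)) (OB4_bd a (OB4_cell a hcomm false lam)) +
          mp (fun y => (OB4_cell a hcomm false lam, y)) (OB4_bd a (OB4_cell a hcomm true lam)) :=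
      d2_single _ _
    have e1 : ∀ f : WV V → Ch ((Γ × OB4_Cl G) × (Γ × OB4_Cl G)), ∑ w ∈ lam, f w =
        ∑ w ∈ lam.filter (fun w => w.2.2 = false), f w +
          ∑ w ∈ lam.filter (fun w => w.2.2 = true), f w := by
      intro f
      rw [← Finset.sum_filter_add_sum_filter_not lam (fun w : WV V => w.2.2 = false)]
      congr 2
      ext w
      simp
    refine e0.trans (Eq.trans ?_ (e1 _).symm)
    rw [OB4_cell_bd a hcomm false h, OB4_cell_bd a hcomm true h, map_sum, map_sum]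
    congr 1
    · refine Finset.sum_congr rfl fun w hw => ?_
      obtain ⟨hw1, hw2⟩ := Finset.mem_filter.mp hw
      have h3 : OB4_cell a hcomm true (lam.erase w) = OB4_cell a hcomm true lam :=
        OB4_cell_erase_ne a hcomm (by rw [hw2]; decide)
      rw [map_add, mp_single, mp_single, he, h3]
      congr 1
      have h4 : ac (X := (OB4_cx a hcomm).X) (gW a w)
          (single (OB4_cell a hcomm false (lam.erase w), OB4_cell a hcomm true lam) 1) =
          single (((gW a w).1 * (OB4_cell a hcomm false (lam.erase w)).1,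
            (OB4_cell a hcomm false (lam.erase w)).2),
            ((gW a w).2 * (OB4_cell a hcomm true lam).1, (OB4_cell a hcomm true lam).2)) 1 :=
        mp_single _ _ _
      refine Eq.trans ?_ h4.symm
      have h5 : gW a w = (OB4_g a w, 1) := by
        unfold gW OB4_g
        rw [hw2]
        simp
      rw [h5]
      simp only [one_mul]
    · refine Finset.sum_congr rfl fun w hw => ?_
      obtain ⟨hw1, hw2⟩ := Finset.mem_filter.mp hw
      have h3 : OB4_cell a hcomm false (lam.erase w) = OB4_cell a hcomm false lam :=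
        OB4_cell_erase_ne a hcomm (by rw [hw2]; decide)
      rw [map_add, mp_single, mp_single, he, h3]
      congr 1
      have h4 : ac (X := (OB4_cx a hcomm).X) (gW a w)
          (single (OB4_cell a hcomm false lam, OB4_cell a hcomm true (lam.erase w)) 1) =
          single (((gW a w).1 * (OB4_cell a hcomm false lam).1,
            (OB4_cell a hcomm false lam).2),
            ((gW a w).2 * (OB4_cell a hcomm true (lam.erase w)).1,
              (OB4_cell a hcomm true (lam.erase w)).2)) 1 :=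
        mp_single _ _ _
      refine Eq.trans ?_ h4.symm
      have h5 : gW a w = (1, OB4_g a w) := by
        unfold gW OB4_g
        rw [hw2]
        simp
      rw [h5]
      simp only [one_mul]
  · rw [he, he, OB4_cell_TW, OB4_cell_TW]
    exact mp_single _ _ _

end Ob

end OS
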