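import Mathlib
import Pool.Agent.Lib.MP_8fe54c_gt.ObDefs
import Pool.Agent.Lib.MP_8fe54c_gt.ObProd
import Pool.Agent.Lib.MP_8fe54c_gt.ObCross
import Pool.Agent.Lib.MP_8fe54c_gt.ObStat

/-!
# Coarse obstructors: the mod 2 complex of a resolution (OB7)
-/

namespace OS

namespace Ob

open Finsupp

universe u v w u' v'

section OB7

variable {Γ : Type v} [Group Γ] (C : CellComplex.{u, v} Γ) (hF : C.IsFree) (hE : C.IsExact)

/-- reduction mod 2 of an integral chain, as an additive map -/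
noncomputable def OB7_red (n : ℕ) : (C.X n →₀ ℤ) →+ Ch (Σ n, C.X n) :=
  Finsupp.liftAddHom fun y =>
    (Finsupp.singleAddHom (⟨n, y⟩ : Σ n, C.X n)).comp (Int.castAddHom (ZMod 2))

theorem OB7_red_apply (n : ℕ) (c : C.X n →₀ ℤ) :
    OB7_red C n c = c.sum fun y a => single (⟨n, y⟩ : Σ n, C.X n) (a : ZMod 2) := rfl

theorem OB7_red_single (n : ℕ) (x : C.X n) (a : ℤ) :
    OB7_red C n (single x a) = single (⟨n, x⟩ : Σ n, C.X n) (a : ZMod 2) := by
  rw [OB7_red_apply, Finsupp.sum_single_index]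
  simp

theorem OB7_red_smul (n : ℕ) (a : ℤ) (c : C.X n →₀ ℤ) :
    OB7_red C n (a • c) = (a : ZMod 2) • OB7_red C n c := by
  rw [map_zsmul, ← Int.cast_smul_eq_zsmul (ZMod 2)]

theorem OB7_red_coe (n : ℕ) (c : C.X n →₀ ℤ) (y : C.X n) :
    OB7_red C n c ⟨n, y⟩ = (c y : ZMod 2) := by
  classical
  induction c using Finsupp.induction_linear with
  | zero => simp
  | add f g hf hg => rw [map_add, Finsupp.add_apply, hf, hg, Finsupp.add_apply]; push_cast; rfl
  | single x a =>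
    rw [OB7_red_single, Finsupp.single_apply, Finsupp.single_apply]
    by_cases h : x = y
    · subst h
      simp
    · rw [if_neg h, if_neg (fun h' => h (by simpa using h'))]
      simp

theorem OB7_red_ne (n m : ℕ) (hnm : m ≠ n) (c : C.X n →₀ ℤ) (y : C.X m) :
    OB7_red C n c ⟨m, y⟩ = 0 := by
  classical
  induction c using Finsupp.induction_linear with
  | zero => simp
  | add f g hf hg => rw [map_add, Finsupp.add_apply, hf, hg, add_zero]
  | single x a =>
    rw [OB7_red_single, Finsupp.single_apply, if_neg]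
    intro h
    exact hnm (congrArg Sigma.fst h).symm

theorem OB7_red_deg (n : ℕ) (c : C.X n →₀ ℤ) : ∀ x ∈ (OB7_red C n c).support, x.1 = n := by
  rintro ⟨m, y⟩ hx
  by_contra h
  exact (Finsupp.mem_support_iff.mp hx) (OB7_red_ne C n m h c y)

/-- the boundary of a cell mod 2 -/
noncomputable def OB7_bd : (Σ n, C.X n) → Ch (Σ n, C.X n)
    | ⟨0, _⟩ => 0
    | ⟨n + 1, x⟩ => (C.d n x).sum fun y a => single ⟨n, y⟩ (a : ZMod 2)

theorem OB7_bd_succ (n : ℕ) (x : C.X (n + 1)) : OB7_bd C ⟨n + 1, x⟩ = OB7_red C n (C.d n x) := rfl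

/-- the augmentation of a cell mod 2 -/
def OB7_eps : (Σ n, C.X n) → ZMod 2
    | ⟨0, x⟩ => (C.eps x : ZMod 2)
    | ⟨_ + 1, _⟩ => 0

theorem OB7_bd_add (n : ℕ) (c c' : C.X (n + 1) →₀ ℤ) :
    C.bd n (c + c') = C.bd n c + C.bd n c' :=
  Finsupp.sum_add_index' (fun _ => zero_smul _ _) (fun _ _ _ => add_smul _ _ _)

theorem OB7_bd_zero (n : ℕ) : C.bd n 0 = 0 := Finsupp.sum_zero_index

theorem OB7_bd_single (n : ℕ) (x : C.X (n + 1)) (a : ℤ) : C.bd n (single x a) = a • C.d n x :=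
  Finsupp.sum_single_index (zero_smul _ _)

theorem OB7_bd_smul (n : ℕ) (a : ℤ) (c : C.X (n + 1) →₀ ℤ) : C.bd n (a • c) = a • C.bd n c := by
  let f : (C.X (n + 1) →₀ ℤ) →+ (C.X n →₀ ℤ) :=
    { toFun := C.bd n, map_zero' := OB7_bd_zero C n, map_add' := OB7_bd_add C n }
  exact map_zsmul f a c

theorem OB7_aug_add (c c' : C.X 0 →₀ ℤ) : C.aug (c + c') = C.aug c + C.aug c' :=
  Finsupp.sum_add_index' (fun _ => zero_mul _) (fun _ _ _ => add_mul _ _ _)

theorem OB7_aug_zero : C.aug 0 = 0 := Finsupp.sum_zero_index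

theorem OB7_aug_smul (a : ℤ) (c : C.X 0 →₀ ℤ) : C.aug (a • c) = a * C.aug c := by
  let f : (C.X 0 →₀ ℤ) →+ ℤ :=
    { toFun := C.aug, map_zero' := OB7_aug_zero C, map_add' := OB7_aug_add C }
  have := map_zsmul f a c
  rwa [smul_eq_mul] at this

theorem OB7_aug_single (x : C.X 0) (a : ℤ) : C.aug (single x a) = a * C.eps x :=
  Finsupp.sum_single_index (zero_mul _)

theorem OB7_lin_red (n : ℕ) (c : C.X (n + 1) →₀ ℤ) :
    lin (OB7_bd C) (OB7_red C (n + 1) c) = OB7_red C n (C.bd n c) := by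
  induction c using Finsupp.induction_linear with
  | zero => rw [map_zero, map_zero, OB7_bd_zero, map_zero]
  | add f g hf hg => rw [map_add, map_add, hf, hg, OB7_bd_add, map_add]
  | single x a =>
    rw [OB7_red_single, OB7_bd_single, OB7_red_smul]
    have h1 : single (⟨n + 1, x⟩ : Σ n, C.X n) (a : ZMod 2) = (a : ZMod 2) • single ⟨n + 1, x⟩ 1 := by
      rw [Finsupp.smul_single, smul_eq_mul, mul_one]
    rw [h1, map_smul, lin_single, OB7_bd_succ]

theorem OB7_lin_red_zero (c : C.X 0 →₀ ℤ) : lin (OB7_bd C) (OB7_red C 0 c) = 0 := by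
  induction c using Finsupp.induction_linear with
  | zero => rw [map_zero, map_zero]
  | add f g hf hg => rw [map_add, map_add, hf, hg, add_zero]
  | single x a =>
    rw [OB7_red_single]
    have h1 : single (⟨0, x⟩ : Σ n, C.X n) (a : ZMod 2) = (a : ZMod 2) • single ⟨0, x⟩ 1 := by
      rw [Finsupp.smul_single, smul_eq_mul, mul_one]
    rw [h1, map_smul, lin_single]
    exact smul_zero _

theorem OB7_fnl_red (c : C.X 0 →₀ ℤ) : fnl (OB7_eps C) (OB7_red C 0 c) = (C.aug c : ZMod 2) := by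
  induction c using Finsupp.induction_linear with
  | zero => rw [map_zero, map_zero, OB7_aug_zero, Int.cast_zero]
  | add f g hf hg => rw [map_add, map_add, hf, hg, OB7_aug_add, Int.cast_add]
  | single x a =>
    rw [OB7_red_single, OB7_aug_single, Int.cast_mul]
    have h1 : single (⟨0, x⟩ : Σ n, C.X n) (a : ZMod 2) = (a : ZMod 2) • single ⟨0, x⟩ 1 := by
      rw [Finsupp.smul_single, smul_eq_mul, mul_one]
    rw [h1, map_smul, fnl_single]
    rfl

theorem OB7_fnl_red_succ (n : ℕ) (c : C.X (n + 1) →₀ ℤ) :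
    fnl (OB7_eps C) (OB7_red C (n + 1) c) = 0 := by
  induction c using Finsupp.induction_linear with
  | zero => rw [map_zero, map_zero]
  | add f g hf hg => rw [map_add, map_add, hf, hg, add_zero]
  | single x a =>
    rw [OB7_red_single]
    have h1 : single (⟨n + 1, x⟩ : Σ n, C.X n) (a : ZMod 2) = (a : ZMod 2) • single ⟨n + 1, x⟩ 1 := by
      rw [Finsupp.smul_single, smul_eq_mul, mul_one]
    rw [h1, map_smul, fnl_single]
    exact smul_zero _

include hE in
theorem OB7_bd_d (n : ℕ) (x : C.X (n + 2)) : C.bd n (C.d (n + 1) x) = 0 := by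
  rw [hE.exact_succ]
  exact ⟨single x 1, by rw [OB7_bd_single, one_smul]⟩

include hE in
theorem OB7_bd_bd (n : ℕ) (c : C.X (n + 2) →₀ ℤ) : C.bd n (C.bd (n + 1) c) = 0 := by
  rw [hE.exact_succ]
  exact ⟨c, rfl⟩

include hE in
theorem OB7_aug_bd (c : C.X 1 →₀ ℤ) : C.aug (C.bd 0 c) = 0 := by
  rw [hE.exact_zero]
  exact ⟨c, rfl⟩

/-- the mod 2 complex of a resolution -/
noncomputable def cxOf (C : CellComplex.{u, v} Γ) (hF : C.IsFree) (hE : C.IsExact) :
    Cx.{u, v} Γ where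
  X := Σ n, C.X n
  act :=
    { smul := fun g x => ⟨x.1, g • x.2⟩
      one_smul := fun x => by
        rcases x with ⟨n, x⟩
        exact congrArg (Sigma.mk n) (one_smul Γ x)
      mul_smul := fun g h x => by
        rcases x with ⟨n, x⟩
        exact congrArg (Sigma.mk n) (mul_smul g h x) }
  deg := Sigma.fst
  bd
    | ⟨0, _⟩ => 0
    | ⟨n + 1, x⟩ => (C.d n x).sum fun y a => single ⟨n, y⟩ (a : ZMod 2)
  eps
    | ⟨0, x⟩ => (C.eps x : ZMod 2)
    | ⟨_ + 1, _⟩ => 0
  deg_smul _ _ := rfl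
  bd_deg := by
    rintro ⟨n, x⟩ y hy
    cases n with
    | zero => simp at hy
    | succ n =>
      have h1 := OB7_red_deg C n (C.d n x) y hy
      exact congrArg (· + 1) h1
  eps_deg := by
    rintro ⟨n, x⟩ h
    cases n with
    | zero => exact absurd rfl h
    | succ n => rfl
  bd_smul := by
    rintro g ⟨n, x⟩
    cases n with
    | zero => exact (map_zero _).symm
    | succ n =>
      change OB7_red C n (C.d n (g • x)) =
        mp (fun y : Σ n, C.X n => ⟨y.1, g • y.2⟩) (OB7_red C n (C.d n x))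
      have h1 : ∀ c : C.X n →₀ ℤ, mp (fun y : Σ n, C.X n => (⟨y.1, g • y.2⟩ : Σ n, C.X n))
          (OB7_red C n c) = OB7_red C n (Finsupp.mapDomain (fun y => g • y) c) := by
        intro c
        induction c using Finsupp.induction_linear with
        | zero => rw [map_zero, map_zero, Finsupp.mapDomain_zero, map_zero]
        | add f h hf hh => rw [map_add, map_add, hf, hh, Finsupp.mapDomain_add, map_add]
        | single y a => rw [OB7_red_single, mp_single, Finsupp.mapDomain_single, OB7_red_single]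
      rw [h1]
      congr 1
      ext y
      have h2 : y = g • (g⁻¹ • y) := (smul_inv_smul g y).symm
      rw [h2, hF.d_smul, Finsupp.mapDomain_apply (MulAction.injective g)]
  eps_smul := by
    rintro g ⟨n, x⟩
    cases n with
    | zero =>
      change ((C.eps (g • x) : ℤ) : ZMod 2) = (C.eps x : ZMod 2)
      rw [hF.eps_smul]
    | succ n => rfl
  bd_bd := by
    rintro ⟨n, x⟩
    rcases n with _ | _ | n
    · exact map_zero _
    · exact OB7_lin_red_zero C (C.d 0 x)
    · change lin (OB7_bd C) (OB7_red C (n + 1) (C.d (n + 1) x)) = 0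
      rw [OB7_lin_red, OB7_bd_d C hE, map_zero]
  eps_bd := by
    rintro ⟨n, x⟩
    rcases n with _ | _ | n
    · exact map_zero _
    · change fnl (OB7_eps C) (OB7_red C 0 (C.d 0 x)) = 0
      have h1 : C.aug (C.d 0 x) = 0 := by
        have h2 := OB7_aug_bd C hE (single x 1)
        rwa [OB7_bd_single, one_smul] at h2
      rw [OB7_fnl_red, h1, Int.cast_zero]
    · exact OB7_fnl_red_succ C n (C.d (n + 1) x)
  free := by
    rintro g ⟨n, x⟩ h
    refine hF.free n g x ?_
    have h1 := Sigma.mk.inj_iff.mp h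
    exact eq_of_heq h1.2
  fin := by
    classical
    intro n
    have := hF.fin n
    have := Fintype.ofFinite (MulAction.orbitRel.Quotient Γ (C.X n))
    refine ⟨Finset.univ.image fun q : MulAction.orbitRel.Quotient Γ (C.X n) =>
      (⟨n, q.out⟩ : Σ n, C.X n), ?_⟩
    rintro ⟨m, x⟩ hm
    obtain rfl : m = n := hm
    have h2 : MulAction.orbitRel Γ (C.X m)
        (Quotient.mk (MulAction.orbitRel Γ (C.X m)) x).out x :=
      Quotient.mk_out (s := MulAction.orbitRel Γ (C.X m)) x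
    rw [MulAction.orbitRel_apply, MulAction.mem_orbit_iff] at h2
    obtain ⟨g, hg⟩ := h2
    refine ⟨g⁻¹, ⟨m, (Quotient.mk (MulAction.orbitRel Γ (C.X m)) x).out⟩,
      Finset.mem_image_of_mem _ (Finset.mem_univ
        (Quotient.mk (MulAction.orbitRel Γ (C.X m)) x)), ?_⟩
    refine congrArg (Sigma.mk m) ?_
    rw [← hg, inv_smul_smul]

theorem OB7_bd_eq (x : Σ n, C.X n) : (cxOf C hF hE).bd x = OB7_bd C x := by
  rcases x with ⟨_ | n, x⟩ <;> rfl

theorem OB7_eps_eq (x : Σ n, C.X n) : (cxOf C hF hE).eps x = OB7_eps C x := by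
  rcases x with ⟨_ | n, x⟩ <;> rfl

theorem OB7_d_eq (c : Ch (Σ n, C.X n)) : (cxOf C hF hE).d c = lin (OB7_bd C) c := by
  have h : (cxOf C hF hE).bd = OB7_bd C := funext (OB7_bd_eq C hF hE)
  rw [← h]
  rfl

theorem OB7_aug_eq (c : Ch (Σ n, C.X n)) : (cxOf C hF hE).aug c = fnl (OB7_eps C) c := by
  have h : (cxOf C hF hE).eps = OB7_eps C := funext (OB7_eps_eq C hF hE)
  rw [← h]
  rfl

/-- an integral chain with a given reduction -/
theorem OB7_lift (n : ℕ) (c : Ch (Σ n, C.X n)) (hc : ∀ x ∈ c.support, x.1 = n) :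
    ∃ c' : C.X n →₀ ℤ, OB7_red C n c' = c := by
  classical
  refine ⟨(c.comapDomain (Sigma.mk n) sigma_mk_injective.injOn).mapRange
    (fun a : ZMod 2 => (a.val : ℤ)) (by simp), ?_⟩
  ext ⟨m, y⟩
  by_cases hm : m = n
  · subst hm
    rw [OB7_red_coe, Finsupp.mapRange_apply, Finsupp.comapDomain_apply]
    simp
  · rw [OB7_red_ne C n m hm]
    by_contra h
    exact hm (hc ⟨m, y⟩ (Finsupp.mem_support_iff.mpr (Ne.symm h)))

theorem OB7_even (n : ℕ) (e : C.X n →₀ ℤ) (he : OB7_red C n e = 0) :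
    ∃ w : C.X n →₀ ℤ, e = (2 : ℤ) • w := by
  refine ⟨e.mapRange (fun a => a / 2) (by norm_num), ?_⟩
  ext y
  have h1 := OB7_red_coe C n e y
  rw [he, Finsupp.zero_apply] at h1
  have h2 : (2 : ℤ) ∣ e y := by
    have := (ZMod.intCast_zmod_eq_zero_iff_dvd (e y) 2).mp h1.symm
    exact_mod_cast this
  rw [Finsupp.smul_apply, Finsupp.mapRange_apply, smul_eq_mul]
  exact (Int.mul_ediv_cancel' h2).symm

theorem OB7_two (n : ℕ) (e : C.X n →₀ ℤ) : OB7_red C n ((2 : ℤ) • e) = 0 := by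
  rw [OB7_red_smul]
  have : ((2 : ℤ) : ZMod 2) = 0 := by decide
  rw [this, zero_smul]

theorem cxOf_acyc : (cxOf C hF hE).Acyc := by
  classical
  obtain ⟨s, hs⟩ := hE.surj
  constructor
  · by_contra h
    push Not at h
    have h1 : ∀ x : C.X 0, ((C.eps x : ℤ) : ZMod 2) = 0 := by
      intro x
      have h2 : ((C.eps x : ℤ) : ZMod 2) ≠ 1 := h ⟨0, x⟩
      revert h2
      generalize ((C.eps x : ℤ) : ZMod 2) = a
      revert a
      decide
    have h3 : ((C.aug s : ℤ) : ZMod 2) = 0 := by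
      have h4 : C.aug s = ∑ x ∈ s.support, s x * C.eps x := rfl
      rw [h4, Int.cast_sum]
      refine Finset.sum_eq_zero fun x _ => ?_
      rw [Int.cast_mul, h1, mul_zero]
    rw [hs] at h3
    exact absurd h3 (by decide)
  · rintro n c ⟨hdeg, hd, haug⟩
    obtain ⟨c', rfl⟩ := OB7_lift C n c hdeg
    rw [OB7_d_eq] at hd
    rw [OB7_aug_eq] at haug
    have key : ∀ (v : C.X n →₀ ℤ) (b : C.X (n + 1) →₀ ℤ), C.bd n b = c' - (2 : ℤ) • v →
        ∃ b, (cxOf C hF hE).IsDeg (n + 1) b ∧ (cxOf C hF hE).d b = OB7_red C n c' := by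
      intro v b hb
      refine ⟨OB7_red C (n + 1) b, OB7_red_deg C (n + 1) b, ?_⟩
      rw [OB7_d_eq, OB7_lin_red, hb, map_sub, OB7_two, sub_zero]
    rcases n with _ | n
    · rw [OB7_fnl_red] at haug
      have h2 : (2 : ℤ) ∣ C.aug c' := by
        have := (ZMod.intCast_zmod_eq_zero_iff_dvd (C.aug c') 2).mp haug
        exact_mod_cast this
      obtain ⟨a, ha⟩ := h2
      have h3 : C.aug (c' - (2 : ℤ) • (a • s)) = 0 := by
        rw [sub_eq_add_neg, ← neg_smul, OB7_aug_add, OB7_aug_smul, OB7_aug_smul, hs, ha]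
        ring
      obtain ⟨b, hb⟩ := (hE.exact_zero _).mp h3
      exact key _ b hb
    · rw [OB7_lin_red] at hd
      obtain ⟨w, hw⟩ := OB7_even C n _ hd
      have hv : ∃ v, C.bd n v = w := by
        rcases n with _ | n
        · refine (hE.exact_zero _).mp ?_
          have h4 := OB7_aug_bd C hE c'
          rw [hw, OB7_aug_smul] at h4
          omega
        · refine (hE.exact_succ _ _).mp ?_
          have h4 := OB7_bd_bd C hE n c'
          rw [hw, OB7_bd_smul] at h4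
          exact (smul_eq_zero.mp h4).resolve_left (by norm_num)
      obtain ⟨v, hv⟩ := hv
      have h5 : C.bd n (c' - (2 : ℤ) • v) = 0 := by
        rw [sub_eq_add_neg, ← neg_smul, OB7_bd_add, OB7_bd_smul, hw, hv, ← add_smul]
        norm_num
      obtain ⟨b, hb⟩ := (hE.exact_succ _ _).mp h5
      exact key _ b hb

/-- the part of degree `i` of a mod 2 chain -/
noncomputable def OB7_res (i : ℕ) (φ : Ch (Σ n, C.X n)) : C.X i →₀ ZMod 2 :=
  φ.comapDomain (Sigma.mk i) sigma_mk_injective.injOn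

theorem OB7_res_apply (i : ℕ) (φ : Ch (Σ n, C.X n)) (y : C.X i) : OB7_res C i φ y = φ ⟨i, y⟩ :=
  rfl

theorem OB7_res_add (i : ℕ) (φ ψ : Ch (Σ n, C.X n)) :
    OB7_res C i (φ + ψ) = OB7_res C i φ + OB7_res C i ψ := by
  ext y
  rfl

theorem OB7_fnl_bd (i : ℕ) (φ : Ch (Σ n, C.X n)) (x : C.X (i + 1)) :
    fnl φ (OB7_bd C ⟨i + 1, x⟩) = C.cobd (OB7_res C i φ) x := by
  rw [OB7_bd_succ, CellComplex.cobd]
  generalize C.d i x = c
  have h1 : ∀ c : C.X i →₀ ℤ, fnl φ (OB7_red C i c) =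
      c.sum fun y n => (n : ZMod 2) * OB7_res C i φ y := by
    intro c
    induction c using Finsupp.induction_linear with
    | zero => rw [map_zero, map_zero, Finsupp.sum_zero_index]
    | add f g hf hg =>
      rw [map_add, map_add, hf, hg, Finsupp.sum_add_index']
      · intro a
        rw [Int.cast_zero, zero_mul]
      · intro a b b'
        rw [Int.cast_add, add_mul]
    | single y a =>
      have h1 : single (⟨i, y⟩ : Σ n, C.X n) (a : ZMod 2) = (a : ZMod 2) • single ⟨i, y⟩ 1 := by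
        rw [Finsupp.smul_single, smul_eq_mul, mul_one]
      rw [OB7_red_single, h1, map_smul, fnl_single, Finsupp.sum_single_index]
      · rfl
      · rw [Int.cast_zero, zero_mul]
  exact h1 c

theorem OB7_coc {i : ℕ} {φ : Ch (Σ n, C.X n)} (h : (cxOf C hF hE).IsCoc i φ) (x : C.X (i + 1)) :
    C.cobd (OB7_res C i φ) x = 0 := by
  rw [← OB7_fnl_bd]
  exact h.2 ⟨i + 1, x⟩ rfl

theorem OB7_cob {i : ℕ} {φ : Ch (Σ n, C.X n)} (hdeg : (cxOf C hF hE).IsDeg i φ)
    (h : C.IsCob (OB7_res C i φ)) : (cxOf C hF hE).IsCob i φ := by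
  classical
  rcases i with _ | i
  · have h1 : OB7_res C 0 φ = 0 := h
    change φ = 0
    ext ⟨m, y⟩
    rcases m with _ | m
    · rw [← OB7_res_apply, h1]
      rfl
    · by_contra h2
      have := hdeg ⟨m + 1, y⟩ (Finsupp.mem_support_iff.mpr h2)
      exact absurd this (by simp [cxOf])
  · obtain ⟨ψ, hψ⟩ := h
    have h1 : OB7_res C i (Finsupp.mapDomain (Sigma.mk i) ψ) = ψ := by
      ext y
      rw [OB7_res_apply, Finsupp.mapDomain_apply sigma_mk_injective]
    refine ⟨Finsupp.mapDomain (Sigma.mk i) ψ, ?_, ?_⟩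
    · intro x hx
      have h2 := Finsupp.mapDomain_support hx
      obtain ⟨y, _, rfl⟩ := Finset.mem_image.mp h2
      rfl
    · rintro ⟨m, x⟩ hm
      obtain rfl : m = i + 1 := hm
      have h3 := OB7_fnl_bd C i (Finsupp.mapDomain (Sigma.mk i) ψ) x
      rw [h1, hψ x] at h3
      exact h3

theorem cxOf_coZero {i : ℕ} (h : C.CoZero i) : (cxOf C hF hE).CoZero i := fun φ hφ =>
  OB7_cob C hF hE hφ.1 (h _ (OB7_coc C hF hE hφ))

theorem OB7_cobd_add {i : ℕ} (φ ψ : C.X i →₀ ZMod 2) (x : C.X (i + 1)) :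
    C.cobd (φ + ψ) x = C.cobd φ x + C.cobd ψ x := by
  rw [CellComplex.cobd, CellComplex.cobd, CellComplex.cobd, ← Finsupp.sum_add]
  simp only [Finsupp.add_apply, mul_add]

theorem OB7_isCob_add {i : ℕ} {φ ψ : C.X i →₀ ZMod 2} (h : C.IsCob φ) (h' : C.IsCob ψ) :
    C.IsCob (φ + ψ) := by
  rcases i with _ | i
  · have h1 : φ = 0 := h
    have h2 : ψ = 0 := h'
    change φ + ψ = 0
    rw [h1, h2, add_zero]
  · obtain ⟨a, ha⟩ := h
    obtain ⟨b, hb⟩ := h'
    exact ⟨a + b, fun x => by rw [OB7_cobd_add, ha, hb]; rfl⟩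

theorem cxOf_coOne {i : ℕ} (h : C.CoOne i) : (cxOf C hF hE).CoOne i := by
  classical
  obtain ⟨ψ, hψ⟩ := h
  by_cases h1 : ∃ φ₀, (cxOf C hF hE).IsCoc i φ₀ ∧ C.IsCob (OB7_res C i φ₀ + ψ)
  · obtain ⟨φ₀, h2, h3⟩ := h1
    refine ⟨φ₀, h2, fun φ hφ => ?_⟩
    rcases hψ _ (OB7_coc C hF hE hφ) with h4 | h4
    · exact Or.inl (OB7_cob C hF hE hφ.1 h4)
    · right
      refine OB7_cob C hF hE (isDeg_add _ hφ.1 h2.1) ?_
      have h8 : C.IsCob (OB7_res C i (φ + φ₀)) = C.IsCob (OB7_res C i φ + OB7_res C i φ₀) :=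
        congrArg C.IsCob (OB7_res_add C i φ φ₀)
      refine h8.mpr ?_
      have h5 := OB7_isCob_add C h4 h3
      have h6 : OB7_res C i φ + ψ + (OB7_res C i φ₀ + ψ) = OB7_res C i φ + OB7_res C i φ₀ := by
        have h7 : ψ + ψ = 0 := by
          ext x
          exact CharTwo.add_self_eq_zero (ψ x)
        calc OB7_res C i φ + ψ + (OB7_res C i φ₀ + ψ) =
            OB7_res C i φ + OB7_res C i φ₀ + (ψ + ψ) := by abel
          _ = _ := by rw [h7, add_zero]
      rwa [h6] at h5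
  · refine ⟨0, ⟨isDeg_zero _ i, fun x _ => ?_⟩, fun φ hφ => ?_⟩
    · have h2 : ∀ c : Ch (cxOf C hF hE).X, fnl (⇑(0 : Ch (cxOf C hF hE).X)) c = 0 := by
        intro c
        refine (Finset.sum_eq_zero fun x _ => ?_ :
          ∑ x ∈ c.support, c x • (0 : Ch (cxOf C hF hE).X) x = 0)
        exact smul_zero _
      exact h2 _
    · left
      rcases hψ _ (OB7_coc C hF hE hφ) with h4 | h4
      · exact OB7_cob C hF hE hφ.1 h4
      · exact absurd ⟨φ, hφ, h4⟩ h1

end OB7

end Ob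

end OS
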