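import Mathlib
import Pool.Agent.Lib.MP_8fe54c_gt.ObDefs
import Pool.Agent.Lib.MP_8fe54c_gt.ObProd
import Pool.Agent.Lib.MP_8fe54c_gt.GrpA
import Pool.Agent.Lib.MP_8fe54c_gt.GrpB

/-!
# OB5: equivariant chains in a contractible space
-/

namespace OS

namespace Ob

open Finsupp

universe u v w u' v'

section lc

variable {X Z : Type*} {M N : Type*} [AddCommGroup M] [Module (ZMod 2) M] [AddCommGroup N]
  [Module (ZMod 2) N]

theorem OB5_single (f : X → M) (x : X) :
    Finsupp.linearCombination (ZMod 2) f (single x 1) = f x := by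
  rw [Finsupp.linearCombination_single, one_smul]

theorem OB5_congr {f g : X → M} {c : Ch X} (h : ∀ q ∈ c.support, f q = g q) :
    Finsupp.linearCombination (ZMod 2) f c = Finsupp.linearCombination (ZMod 2) g c := by
  rw [Finsupp.linearCombination_apply, Finsupp.linearCombination_apply]
  exact Finsupp.sum_congr fun q hq => by rw [h q hq]

theorem OB5_comp (A : M →ₗ[ZMod 2] N) (f : X → M) (c : Ch X) :
    A (Finsupp.linearCombination (ZMod 2) f c) =
      Finsupp.linearCombination (ZMod 2) (fun q => A (f q)) c :=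
  hom_ext (f := A ∘ₗ Finsupp.linearCombination (ZMod 2) f) (fun x => by
    rw [LinearMap.comp_apply, OB5_single, OB5_single]) c

theorem OB5_mp (f : Z → M) (k : X → Z) (c : Ch X) :
    Finsupp.linearCombination (ZMod 2) f (mp k c) =
      Finsupp.linearCombination (ZMod 2) (fun q => f (k q)) c :=
  hom_ext (f := Finsupp.linearCombination (ZMod 2) f ∘ₗ mp k) (fun x => by
    rw [LinearMap.comp_apply, mp_single, OB5_single, OB5_single]) c

theorem OB5_add (f g : X → M) (c : Ch X) :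
    Finsupp.linearCombination (ZMod 2) (fun q => f q + g q) c =
      Finsupp.linearCombination (ZMod 2) f c + Finsupp.linearCombination (ZMod 2) g c :=
  hom_ext (g := Finsupp.linearCombination (ZMod 2) f + Finsupp.linearCombination (ZMod 2) g)
    (fun x => by rw [LinearMap.add_apply, OB5_single, OB5_single, OB5_single]) c

theorem OB5_lin (f : Z → M) (k : X → Ch Z) (c : Ch X) :
    Finsupp.linearCombination (ZMod 2) (fun q => Finsupp.linearCombination (ZMod 2) f (k q)) c =
      Finsupp.linearCombination (ZMod 2) f (lin k c) :=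
  hom_ext (g := Finsupp.linearCombination (ZMod 2) f ∘ₗ lin k)
    (fun x => by rw [LinearMap.comp_apply, OB5_single, lin_single]) c

theorem OB5_smul (a : X → ZMod 2) (m : M) (c : Ch X) :
    Finsupp.linearCombination (ZMod 2) (fun q => a q • m) c = (fnl a c) • m :=
  hom_ext (g := LinearMap.toSpanSingleton (ZMod 2) M m ∘ₗ fnl a)
    (fun x => by
      rw [LinearMap.comp_apply, OB5_single, fnl_single, LinearMap.toSpanSingleton_apply]) c

theorem OB5_mem (S : Submodule (ZMod 2) M) (f : X → M) (c : Ch X)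
    (h : ∀ q ∈ c.support, f q ∈ S) : Finsupp.linearCombination (ZMod 2) f c ∈ S := by
  rw [Finsupp.linearCombination_apply]
  exact Submodule.sum_mem _ fun q hq => S.smul_mem _ (h q hq)

theorem OB5_add_self (m : M) : m + m = 0 := add_self_LC m

end lc

section phi

variable {K : Type v} [Group K] (C : Cx.{u, v} K)

theorem OB5_bd2_deg (p q : C.X × C.X) (h : q ∈ (C.bd2 p).support) :
    C.deg q.1 + C.deg q.2 + 1 = C.deg p.1 + C.deg p.2 := (C.prod C).bd_deg p q h

theorem OB5_bd2_smul (g h : K) (p : C.X × C.X) : C.bd2 (g • p.1, h • p.2) =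
    mp (fun q : C.X × C.X => (g • q.1, h • q.2)) (C.bd2 p) := (C.prod C).bd_smul (g, h) p

theorem OB5_bd2_bd2 (p : C.X × C.X) : lin C.bd2 (C.bd2 p) = 0 := (C.prod C).bd_bd p

theorem OB5_eps_bd2 (p : C.X × C.X) :
    fnl (fun p : C.X × C.X => C.eps p.1 * C.eps p.2) (C.bd2 p) = 0 := (C.prod C).eps_bd p

theorem OB5_bd2_swap (p : C.X × C.X) : C.bd2 p.swap = mp Prod.swap (C.bd2 p) := by
  unfold Cx.bd2
  rw [map_add, mp_mp, mp_mp, add_comm]
  rfl

variable {Y : Type w} [TopologicalSpace Y] [MulAction K Y]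

/-- the augmentation term, and the term of the previous stage -/
noncomputable def OB5_S (Φ : ℕ → C.X × C.X → GC (Y × Y)) : ℕ → C.X × C.X → GC (Y × Y)
  | 0, p => (C.eps p.1 * C.eps p.2) • cst (bs [])
  | i + 1, p => Φ i p + mapG Prod.swap (Φ i p.swap)

/-- the prescribed boundary -/
noncomputable def OB5_R (Φ : ℕ → C.X × C.X → GC (Y × Y)) (i : ℕ) (p : C.X × C.X) : GC (Y × Y) :=
  Finsupp.linearCombination (ZMod 2) (Φ i) (C.bd2 p) + OB5_S C Φ i p

/-- the conditions for `i + deg p < N` -/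
structure OB5_Good (N : ℕ) (Φ : ℕ → C.X × C.X → GC (Y × Y)) : Prop where
  mem : ∀ i p, i + (C.deg p.1 + C.deg p.2) < N →
    Φ i p ∈ F (Set.univ : Set (Y × Y)) (C.deg p.1 + C.deg p.2 + 1 + i)
  smul : ∀ i (g h : K) p, i + (C.deg p.1 + C.deg p.2) < N →
    Φ i (g • p.1, h • p.2) = aG (g, h) (Φ i p)
  bd : ∀ i p, i + (C.deg p.1 + C.deg p.2) < N → dG (Φ i p) = OB5_R C Φ i p

variable {C}

omit [TopologicalSpace Y] [MulAction K Y] in
theorem OB5_S_congr {Φ Φ' : ℕ → C.X × C.X → GC (Y × Y)} {N : ℕ}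
    (h : ∀ i p, i + (C.deg p.1 + C.deg p.2) < N → Φ i p = Φ' i p) (i : ℕ) (p : C.X × C.X)
    (hp : i + (C.deg p.1 + C.deg p.2) < N + 1) : OB5_S C Φ i p = OB5_S C Φ' i p := by
  cases i with
  | zero => rfl
  | succ i =>
    change Φ i p + mapG Prod.swap (Φ i p.swap) = Φ' i p + mapG Prod.swap (Φ' i p.swap)
    rw [h i p (by omega), h i p.swap (by
      rw [Prod.fst_swap, Prod.snd_swap]
      omega)]

omit [TopologicalSpace Y] [MulAction K Y] in
theorem OB5_R_congr {Φ Φ' : ℕ → C.X × C.X → GC (Y × Y)} {N : ℕ}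
    (h : ∀ i p, i + (C.deg p.1 + C.deg p.2) < N → Φ i p = Φ' i p) (i : ℕ) (p : C.X × C.X)
    (hp : i + (C.deg p.1 + C.deg p.2) < N + 1) : OB5_R C Φ i p = OB5_R C Φ' i p := by
  unfold OB5_R
  rw [OB5_S_congr h i p hp, OB5_congr (g := Φ' i)]
  intro q hq
  have := OB5_bd2_deg C p q hq
  exact h i q (by omega)

section good

variable {N : ℕ} {Φ : ℕ → C.X × C.X → GC (Y × Y)} (hG : OB5_Good C N Φ)

include hG

theorem OB5_S_smul (i : ℕ) (g h : K) (p : C.X × C.X)
    (hp : i + (C.deg p.1 + C.deg p.2) ≤ N) :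
    OB5_S C Φ i (g • p.1, h • p.2) = aG (g, h) (OB5_S C Φ i p) := by
  cases i with
  | zero =>
    change (C.eps (g • p.1) * C.eps (h • p.2)) • cst (bs []) =
      aG (g, h) ((C.eps p.1 * C.eps p.2) • cst (bs []))
    rw [C.eps_smul, C.eps_smul, map_smul, F2_aG_nil]
  | succ i =>
    change Φ i (g • p.1, h • p.2) + mapG Prod.swap (Φ i (h • p.2, g • p.1)) =
      aG (g, h) (Φ i p + mapG Prod.swap (Φ i p.swap))
    have h1 := hG.smul i g h p (by omega)
    have h2 := hG.smul i h g p.swap (by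
      rw [Prod.fst_swap, Prod.snd_swap]
      omega)
    rw [Prod.fst_swap, Prod.snd_swap] at h2
    rw [h1, h2, map_add, F1_swap_aG]

theorem OB5_R_smul (i : ℕ) (g h : K) (p : C.X × C.X) (hp : i + (C.deg p.1 + C.deg p.2) ≤ N) :
    OB5_R C Φ i (g • p.1, h • p.2) = aG (g, h) (OB5_R C Φ i p) := by
  unfold OB5_R
  rw [OB5_S_smul hG i g h p hp, OB5_bd2_smul, OB5_mp, map_add, OB5_comp]
  congr 1
  refine OB5_congr fun q hq => ?_
  have := OB5_bd2_deg C p q hq
  exact hG.smul i g h q (by omega)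

theorem OB5_R_mem [T2Space Y] (i : ℕ) (p : C.X × C.X) (hp : i + (C.deg p.1 + C.deg p.2) ≤ N) :
    OB5_R C Φ i p ∈ F (Set.univ : Set (Y × Y)) (C.deg p.1 + C.deg p.2 + i) := by
  unfold OB5_R
  refine Submodule.add_mem _ (OB5_mem _ _ _ fun q hq => ?_) ?_
  · have h1 := OB5_bd2_deg C p q hq
    have h2 := hG.mem i q (by omega)
    rw [h1] at h2
    exact h2
  · cases i with
    | zero =>
      change (C.eps p.1 * C.eps p.2) • cst (bs []) ∈ _
      by_cases h0 : C.deg p.1 + C.deg p.2 = 0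
      · rw [h0]
        exact Submodule.smul_mem _ _ (nil_mem _)
      · have : C.eps p.1 * C.eps p.2 = 0 := by
          by_cases hx : C.deg p.1 = 0
          · rw [C.eps_deg p.2 (by omega), mul_zero]
          · rw [C.eps_deg p.1 hx, zero_mul]
        rw [this, zero_smul]
        exact Submodule.zero_mem _
    | succ i =>
      change Φ i p + mapG Prod.swap (Φ i p.swap) ∈ _
      have h1 := hG.mem i p (by omega)
      have h2 := hG.mem i p.swap (by
        rw [Prod.fst_swap, Prod.snd_swap]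
        omega)
      rw [Prod.fst_swap, Prod.snd_swap] at h2
      have e1 : C.deg p.1 + C.deg p.2 + (i + 1) = C.deg p.1 + C.deg p.2 + 1 + i := by omega
      have e2 : C.deg p.2 + C.deg p.1 + 1 + i = C.deg p.1 + C.deg p.2 + 1 + i := by omega
      rw [e1]
      rw [e2] at h2
      exact Submodule.add_mem _ h1
        (mapG_mem isOpen_univ continuous_swap.continuousOn (fun _ _ => Set.mem_univ _) h2)

/-- the boundary of the second term -/
theorem OB5_dG_S (i : ℕ) (p : C.X × C.X) (hp : i + (C.deg p.1 + C.deg p.2) ≤ N) :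
    dG (OB5_S C Φ i p) = Finsupp.linearCombination (ZMod 2) (OB5_S C Φ i) (C.bd2 p) := by
  cases i with
  | zero =>
    change dG ((C.eps p.1 * C.eps p.2) • cst (bs [])) = Finsupp.linearCombination (ZMod 2)
      (fun p : C.X × C.X => (C.eps p.1 * C.eps p.2) • (cst (bs []) : GC (Y × Y))) (C.bd2 p)
    rw [OB5_smul, OB5_eps_bd2, zero_smul, map_smul, dG_cst, dL_bs]
    have : (cst (dlist []) : GC (Y × Y)) = 0 := rfl
    rw [this, smul_zero]
  | succ i =>
    change dG (Φ i p + mapG Prod.swap (Φ i p.swap)) = Finsupp.linearCombination (ZMod 2)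
      (fun p : C.X × C.X => Φ i p + mapG Prod.swap (Φ i p.swap)) (C.bd2 p)
    have hS : OB5_S C Φ i p + mapG Prod.swap (OB5_S C Φ i p.swap) = 0 := by
      cases i with
      | zero =>
        change (C.eps p.1 * C.eps p.2) • cst (bs []) + mapG Prod.swap
          ((C.eps p.2 * C.eps p.1) • cst (bs [])) = 0
        rw [map_smul, mapG_cst, mapL_bs, List.map_nil, mul_comm (C.eps p.2)]
        exact OB5_add_self _
      | succ j =>
        change (Φ j p + mapG Prod.swap (Φ j p.swap)) + mapG Prod.swap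
          (Φ j p.swap + mapG Prod.swap (Φ j p)) = 0
        rw [map_add, F1_swap_swap, add_comm (Φ j p)]
        have e : ∀ a b : GC (Y × Y), (a + b) + (a + b) = 0 := fun a b => OB5_add_self _
        exact e _ _
    rw [map_add, dG_mapG, hG.bd i p (by omega), hG.bd i p.swap (by
      rw [Prod.fst_swap, Prod.snd_swap]
      omega)]
    unfold OB5_R
    rw [OB5_add, OB5_bd2_swap, OB5_mp, map_add, OB5_comp]
    have e : ∀ a b c d : GC (Y × Y), a + b + (c + d) = a + c + (b + d) := fun a b c d => by abel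
    rw [e, hS, add_zero]

theorem OB5_R_cycle (i : ℕ) (p : C.X × C.X) (hp : i + (C.deg p.1 + C.deg p.2) ≤ N) :
    dG (OB5_R C Φ i p) = 0 := by
  have h1 : dG (Finsupp.linearCombination (ZMod 2) (Φ i) (C.bd2 p)) =
      Finsupp.linearCombination (ZMod 2) (OB5_S C Φ i) (C.bd2 p) := by
    rw [OB5_comp, OB5_congr (g := fun q => Finsupp.linearCombination (ZMod 2) (Φ i) (C.bd2 q) +
      OB5_S C Φ i q), OB5_add, OB5_lin, OB5_bd2_bd2, map_zero, zero_add]
    intro q hq
    have := OB5_bd2_deg C p q hq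
    exact hG.bd i q (by omega)
  unfold OB5_R
  rw [map_add, OB5_dG_S hG i p hp, h1]
  exact OB5_add_self _

end good

theorem OB5_rep (C : Cx.{u, v} K) : ∃ (e : C.X → C.X) (γ : C.X → K), (∀ x, γ x • e x = x) ∧
    (∀ (g : K) x, e (g • x) = e x) ∧ ∀ (g : K) x, γ (g • x) = g * γ x := by
  have h1 : ∀ x : C.X, ∃ g : K, g • (Quotient.mk (MulAction.orbitRel K C.X) x).out = x := by
    intro x
    have h : (MulAction.orbitRel K C.X) (Quotient.mk (MulAction.orbitRel K C.X) x).out x :=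
      Quotient.mk_out x
    rw [MulAction.orbitRel_apply] at h
    obtain ⟨g, hg⟩ := h
    exact ⟨g⁻¹, by
      have h2 : g • x = (Quotient.mk (MulAction.orbitRel K C.X) x).out := hg
      rw [← h2, inv_smul_smul]⟩
  choose γ hγ using h1
  have h2 : ∀ (g : K) x, (Quotient.mk (MulAction.orbitRel K C.X) (g • x)) =
      Quotient.mk (MulAction.orbitRel K C.X) x := fun g x =>
    Quotient.sound ⟨g, rfl⟩
  refine ⟨fun x => (Quotient.mk (MulAction.orbitRel K C.X) x).out, γ, hγ, fun g x => by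
    simp only [h2], fun g x => ?_⟩
  have h3 := hγ (g • x)
  rw [h2] at h3
  have h4 := hγ x
  -- γ (g • x) • e = g • x = (g * γ x) • e
  have h5 : ((g * γ x)⁻¹ * γ (g • x)) • (Quotient.mk (MulAction.orbitRel K C.X) x).out =
      (Quotient.mk (MulAction.orbitRel K C.X) x).out := by
    rw [mul_smul, h3, inv_smul_eq_iff, mul_smul, h4]
  have h6 := C.free _ _ h5
  exact (inv_mul_eq_one.1 h6).symm

theorem OB5_step [T2Space Y] [ContractibleSpace Y] [ContinuousConstSMul K Y] (N : ℕ)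
    (Φ : ℕ → C.X × C.X → GC (Y × Y)) (hG : OB5_Good C N Φ) :
    ∃ Φ' : ℕ → C.X × C.X → GC (Y × Y), OB5_Good C (N + 1) Φ' ∧
      ∀ i p, i + (C.deg p.1 + C.deg p.2) < N → Φ i p = Φ' i p := by
  classical
  obtain ⟨e, γ, he, hes, hγs⟩ := OB5_rep C
  have hdeg : ∀ x, C.deg (e x) = C.deg x := fun x => by
    have := C.deg_smul (γ x) (e x)
    rw [he] at this
    exact this.symm
  have hex : ∀ i (p : C.X × C.X), ∃ c : GC (Y × Y), i + (C.deg p.1 + C.deg p.2) = N →
      c ∈ F (Set.univ : Set (Y × Y)) (C.deg p.1 + C.deg p.2 + 1 + i) ∧ dG c = OB5_R C Φ i p := by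
    intro i p
    by_cases h : i + (C.deg p.1 + C.deg p.2) = N
    · obtain ⟨c, hc, hd⟩ := Ex_univ (X := Y × Y) (C.deg p.1 + C.deg p.2 + i) _
        (OB5_R_mem hG i p h.le) (OB5_R_cycle hG i p h.le)
      refine ⟨c, fun _ => ⟨?_, hd⟩⟩
      have e1 : C.deg p.1 + C.deg p.2 + 1 + i = C.deg p.1 + C.deg p.2 + i + 1 := by omega
      rw [e1]
      exact hc
    · exact ⟨0, fun h' => absurd h' h⟩
  choose c hc using hex
  obtain ⟨Φ', hΦ1, hΦ2⟩ : ∃ Φ' : ℕ → C.X × C.X → GC (Y × Y),
      (∀ i p, i + (C.deg p.1 + C.deg p.2) < N → Φ' i p = Φ i p) ∧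
      ∀ i p, ¬ i + (C.deg p.1 + C.deg p.2) < N →
        Φ' i p = aG (γ p.1, γ p.2) (c i (e p.1, e p.2)) :=
    ⟨fun i p => if i + (C.deg p.1 + C.deg p.2) < N then Φ i p else
      aG (γ p.1, γ p.2) (c i (e p.1, e p.2)), fun i p h => if_pos h, fun i p h => if_neg h⟩
  have hlow : ∀ i p, i + (C.deg p.1 + C.deg p.2) < N → Φ i p = Φ' i p := fun i p h =>
    (hΦ1 i p h).symm
  refine ⟨Φ', ⟨?_, ?_, ?_⟩, hlow⟩
  · intro i p hp
    by_cases h : i + (C.deg p.1 + C.deg p.2) < N
    · rw [hΦ1 i p h]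
      exact hG.mem i p h
    · rw [hΦ2 i p h]
      have h1 := (hc i (e p.1, e p.2) (by simp only [hdeg]; omega)).1
      simp only [hdeg] at h1
      exact F1_aG_mem _ h1
  · intro i g h p hp
    by_cases hN : i + (C.deg p.1 + C.deg p.2) < N
    · rw [hΦ1 i p hN, hΦ1 i _ (by simp only [C.deg_smul]; exact hN)]
      exact hG.smul i g h p hN
    · rw [hΦ2 i p hN, hΦ2 i _ (by simp only [C.deg_smul]; exact hN), F1_aG_aG]
      simp only [hes, hγs]
  · intro i p hp
    rw [← OB5_R_congr hlow i p hp]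
    by_cases hN : i + (C.deg p.1 + C.deg p.2) < N
    · rw [hΦ1 i p hN]
      exact hG.bd i p hN
    · rw [hΦ2 i p hN, F1_dG_aG, (hc i (e p.1, e p.2) (by simp only [hdeg]; omega)).2]
      rw [← OB5_R_smul hG i (γ p.1) (γ p.2) (e p.1, e p.2) (by simp only [hdeg]; omega)]
      simp only [he]

end phi

/-! ## OB5 (file ObPhi): equivariant chains in a contractible space -/

theorem exists_phi {K : Type v} [Group K] (C : Cx.{u, v} K) (Y : Type w) [TopologicalSpace Y]
    [T2Space Y] [ContractibleSpace Y] [MulAction K Y] [ContinuousConstSMul K Y] :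
    ∃ Φ : ℕ → C.X × C.X → GC (Y × Y),
      (∀ i p, Φ i p ∈ F (Set.univ : Set (Y × Y)) (C.deg p.1 + C.deg p.2 + 1 + i)) ∧
      (∀ (g h : K) i x y, Φ i (g • x, h • y) = aG (g, h) (Φ i (x, y))) ∧
      (∀ p, dG (Φ 0 p) = Finsupp.linearCombination (ZMod 2) (Φ 0) (C.bd2 p) +
        (C.eps p.1 * C.eps p.2) • cst (bs [])) ∧
      ∀ i p, dG (Φ (i + 1) p) = Finsupp.linearCombination (ZMod 2) (Φ (i + 1)) (C.bd2 p) +
        (Φ i p + mapG Prod.swap (Φ i p.swap)) := by
  have hstep := OB5_step (C := C) (Y := Y)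
  choose! nx hnx1 hnx2 using hstep
  let sq : ℕ → ℕ → C.X × C.X → GC (Y × Y) := fun N =>
    Nat.rec (fun _ _ => 0) (fun N Φ => nx N Φ) N
  have hsq : ∀ N, sq (N + 1) = nx N (sq N) := fun N => rfl
  have hgood : ∀ N, OB5_Good C N (sq N) := by
    intro N
    induction N with
    | zero =>
      exact ⟨fun i p h => absurd h (Nat.not_lt_zero _), fun i g h p h' => absurd h' (Nat.not_lt_zero _),
        fun i p h => absurd h (Nat.not_lt_zero _)⟩
    | succ N ih =>
      rw [hsq]
      exact hnx1 N _ ih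
  have hst : ∀ N M, N ≤ M → ∀ i p, i + (C.deg p.1 + C.deg p.2) < N → sq N i p = sq M i p := by
    intro N M hNM
    induction M, hNM using Nat.le_induction with
    | base => intro i p _; rfl
    | succ M hNM ih =>
      intro i p h
      rw [ih i p h, hsq]
      exact hnx2 M _ (hgood M) i p (by omega)
  obtain ⟨Φ, hΦ⟩ : ∃ Φ : ℕ → C.X × C.X → GC (Y × Y), ∀ i p,
      Φ i p = sq (i + (C.deg p.1 + C.deg p.2) + 1) i p := ⟨_, fun _ _ => rfl⟩
  have hag : ∀ N i p, i + (C.deg p.1 + C.deg p.2) < N → sq N i p = Φ i p := by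
    intro N i p h
    rw [hΦ]
    exact (hst (i + (C.deg p.1 + C.deg p.2) + 1) N (by omega) i p (by omega)).symm
  have hbd : ∀ i p, dG (Φ i p) = OB5_R C Φ i p := by
    intro i p
    rw [hΦ, (hgood (i + (C.deg p.1 + C.deg p.2) + 1)).bd i p (by omega)]
    exact OB5_R_congr (N := i + (C.deg p.1 + C.deg p.2) + 1) (fun j q h => hag _ j q h) i p
      (by omega)
  refine ⟨Φ, fun i p => ?_, fun g h i x y => ?_, fun p => hbd 0 p, fun i p => hbd (i + 1) p⟩
  · rw [hΦ]
    exact (hgood (i + (C.deg p.1 + C.deg p.2) + 1)).mem i p (by omega)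
  · have h1 := (hgood (i + (C.deg x + C.deg y) + 1)).smul i g h (x, y) (by simp only; omega)
    rw [hag (i + (C.deg x + C.deg y) + 1) i (g • (x, y).1, h • (x, y).2)
      (by simp only [C.deg_smul]; omega),
      hag (i + (C.deg x + C.deg y) + 1) i (x, y) (by simp only; omega)] at h1
    exact h1

end Ob

end OS
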