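import Mathlib
import Pool.Agent.Lib.MP_8fe54c_gt.ObDefs
import Pool.Agent.Lib.MP_8fe54c_gt.ObCross
import Pool.Agent.Lib.MP_8fe54c_gt.GrpC
import Pool.Agent.Lib.MP_8fe54c_gt.Assem
import Pool.Agent.Lib.MP_8fe54c_gt.TowerBound
import Pool.Agent.Lib.MP_8fe54c_gt.Coll
import Pool.Agent.Lib.MP_8fe54c_gt.ObPhi

/-!
# Project OB, module OB6: the dimension bound (helper20)

A group with a coarse obstructor of dimension `d` does not act properly on a contractible manifold
(possibly with boundary) of dimension less than `d`.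
-/

namespace OS

namespace Ob

open Finsupp

universe u v w u' v'

section OB6

variable {X : Type*} {Y : Type*}

/-- the linear extension of a function on cells with values in germs of chains -/
noncomputable def OB6_L (Φ : ℕ → X → GC Y) (i : ℕ) : Ch X →ₗ[ZMod 2] GC Y :=
  Finsupp.linearCombination (ZMod 2) (Φ i)

theorem OB6_L_single (Φ : ℕ → X → GC Y) (i : ℕ) (x : X) : OB6_L Φ i (single x 1) = Φ i x := by
  simp [OB6_L]

/-- the iterated exchange -/
noncomputable def OB6_S {X : Type*} (t : ℕ → Ch (X × X)) (i j : ℕ) : Ch (X × X) :=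
  (fun c => sw c)^[i] (t j)

theorem OB6_S_zero {X : Type*} (t : ℕ → Ch (X × X)) (j : ℕ) : OB6_S t 0 j = t j := rfl

theorem OB6_S_succ {X : Type*} (t : ℕ → Ch (X × X)) (i j : ℕ) :
    OB6_S t (i + 1) j = sw (OB6_S t i j) :=
  Function.iterate_succ_apply' _ _ _

end OB6

section OB6a

variable {K : Type v} [Group K] (C : Cx.{u, v} K)

theorem OB6_S_deg {t : ℕ → Ch (C.X × C.X)} {j : ℕ} (h : C.IsDeg2 j (t j)) (i : ℕ) :
    C.IsDeg2 j (OB6_S t i j) := by
  induction i with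
  | zero => exact h
  | succ i ih => rw [OB6_S_succ]; exact isDeg2_sw C ih

theorem OB6_S_far {t : ℕ → Ch (C.X × C.X)} {E : Finset C.X} {j : ℕ} (h : C.IsFar E (t j)) (i : ℕ) :
    C.IsFar E (OB6_S t i j) := by
  induction i with
  | zero => exact h
  | succ i ih => rw [OB6_S_succ]; exact isFar_sw C ih

theorem OB6_S_d2 {t : ℕ → Ch (C.X × C.X)} {j : ℕ} (h : C.d2 (t (j + 1)) = t j + sw (t j)) (i : ℕ) :
    C.d2 (OB6_S t i (j + 1)) = OB6_S t i j + OB6_S t (i + 1) j := by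
  induction i with
  | zero => exact h
  | succ i ih => rw [OB6_S_succ, d2_sw, ih, map_add, ← OB6_S_succ, ← OB6_S_succ]

/-- the boundary of a chain of degree zero -/
theorem OB6_d2_zero {c : Ch (C.X × C.X)} (h : C.IsDeg2 0 c) : C.d2 c = 0 := by
  by_contra hne
  obtain ⟨p, hp⟩ := Finsupp.support_nonempty_iff.mpr hne
  obtain ⟨q, hq, hpq⟩ := mem_support_lin hp
  have h1 := h q hq
  have h2 : C.bd q.1 = 0 := by
    by_contra hne
    obtain ⟨y, hy⟩ := Finsupp.support_nonempty_iff.mpr hne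
    have := C.bd_deg _ y hy
    omega
  have h3 : C.bd q.2 = 0 := by
    by_contra hne
    obtain ⟨y, hy⟩ := Finsupp.support_nonempty_iff.mpr hne
    have := C.bd_deg _ y hy
    omega
  rw [Cx.bd2, h2, h3, map_zero, map_zero, add_zero] at hpq
  simp at hpq

/-- the augmentation of a chain of positive degree -/
theorem OB6_aug2_pos {n : ℕ} {c : Ch (C.X × C.X)} (h : C.IsDeg2 (n + 1) c) : C.aug2 c = 0 := by
  unfold Cx.aug2 fnl
  rw [Finsupp.linearCombination_apply, Finsupp.sum]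
  refine Finset.sum_eq_zero fun p hp => ?_
  have h1 := h p hp
  rcases Nat.eq_zero_or_pos (C.deg p.1) with h2 | h2
  · rw [C.eps_deg p.2 (by omega), mul_zero, smul_zero]
  · rw [C.eps_deg p.1 (by omega), zero_mul, smul_zero]

variable {C} {Y : Type w} {Φ : ℕ → C.X × C.X → GC (Y × Y)}

theorem OB6_dG_zero (h : ∀ p, dG (Φ 0 p) = Finsupp.linearCombination (ZMod 2) (Φ 0) (C.bd2 p) +
        (C.eps p.1 * C.eps p.2) • cst (bs [])) (c : Ch (C.X × C.X)) :
    dG (OB6_L Φ 0 c) = OB6_L Φ 0 (C.d2 c) + C.aug2 c • cst (bs []) := by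
  have key := hom_ext (f := dG ∘ₗ OB6_L Φ 0)
    (g := OB6_L Φ 0 ∘ₗ C.d2 +
      (LinearMap.toSpanSingleton (ZMod 2) (GC (Y × Y)) (cst (bs []))) ∘ₗ C.aug2) (fun p => by
      rw [LinearMap.comp_apply, OB6_L_single, LinearMap.add_apply, LinearMap.comp_apply,
        LinearMap.comp_apply, d2_single, aug2_single, LinearMap.toSpanSingleton_apply, h p]
      rfl) c
  exact key

theorem OB6_dG_succ {i : ℕ} (h : ∀ p, dG (Φ (i + 1) p) =
      Finsupp.linearCombination (ZMod 2) (Φ (i + 1)) (C.bd2 p) +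
        (Φ i p + mapG Prod.swap (Φ i p.swap))) (c : Ch (C.X × C.X)) :
    dG (OB6_L Φ (i + 1) c) = OB6_L Φ (i + 1) (C.d2 c) +
      (OB6_L Φ i c + mapG Prod.swap (OB6_L Φ i (sw c))) := by
  have key := hom_ext (f := dG ∘ₗ OB6_L Φ (i + 1))
    (g := OB6_L Φ (i + 1) ∘ₗ C.d2 + (OB6_L Φ i + mapG Prod.swap ∘ₗ OB6_L Φ i ∘ₗ sw)) (fun p => by
      rw [LinearMap.comp_apply, OB6_L_single, LinearMap.add_apply, LinearMap.comp_apply,
        LinearMap.add_apply, LinearMap.comp_apply, LinearMap.comp_apply, sw, mp_single,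
        OB6_L_single, OB6_L_single, d2_single, h p]
      rfl) c
  exact key

/-- the chains of the tower -/
noncomputable def OB6_U (Φ : ℕ → C.X × C.X → GC (Y × Y)) (t : ℕ → Ch (C.X × C.X)) (n : ℕ) :
    GC (Y × Y) :=
  ∑ i ∈ Finset.range (n + 1), OB6_L Φ i (OB6_S t i (n - i))

theorem OB6_U_succ
    (h0 : ∀ p, dG (Φ 0 p) = Finsupp.linearCombination (ZMod 2) (Φ 0) (C.bd2 p) +
        (C.eps p.1 * C.eps p.2) • cst (bs []))
    (hs : ∀ i p, dG (Φ (i + 1) p) =
      Finsupp.linearCombination (ZMod 2) (Φ (i + 1)) (C.bd2 p) +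
        (Φ i p + mapG Prod.swap (Φ i p.swap)))
    {t : ℕ → Ch (C.X × C.X)} {n : ℕ} (hdeg : ∀ j ≤ n + 1, C.IsDeg2 j (t j))
    (hd : ∀ j ≤ n, C.d2 (t (j + 1)) = t j + sw (t j)) :
    dG (OB6_U Φ t (n + 1)) = OB6_U Φ t n + mapG Prod.swap (OB6_U Φ t n) := by
  have hA : ∑ i ∈ Finset.range (n + 1 + 1), OB6_L Φ i (C.d2 (OB6_S t i (n + 1 - i))) =
      ∑ i ∈ Finset.range (n + 1), (OB6_L Φ i (OB6_S t i (n - i)) +
        OB6_L Φ i (OB6_S t (i + 1) (n - i))) := by
    rw [Finset.sum_range_succ]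
    have h1 : OB6_L Φ (n + 1) (C.d2 (OB6_S t (n + 1) (n + 1 - (n + 1)))) = 0 := by
      rw [Nat.sub_self, OB6_d2_zero C (OB6_S_deg C (hdeg 0 (by omega)) _), map_zero]
    rw [h1, add_zero]
    refine Finset.sum_congr rfl fun i hi => ?_
    have hi' := Finset.mem_range.mp hi
    have h2 : n + 1 - i = (n - i) + 1 := by omega
    rw [h2, OB6_S_d2 C (hd (n - i) (by omega)), map_add]
  have hB : dG (OB6_U Φ t (n + 1)) =
      ∑ i ∈ Finset.range (n + 1 + 1), OB6_L Φ i (C.d2 (OB6_S t i (n + 1 - i))) +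
      ∑ i ∈ Finset.range (n + 1), (OB6_L Φ i (OB6_S t (i + 1) (n - i)) +
        mapG Prod.swap (OB6_L Φ i (OB6_S t i (n - i)))) := by
    rw [OB6_U, map_sum, Finset.sum_range_succ' _ (n + 1), Finset.sum_range_succ' _ (n + 1),
      OB6_dG_zero h0, OB6_S_zero, Nat.sub_zero, OB6_aug2_pos C (hdeg (n + 1) le_rfl), zero_smul,
      add_zero, add_right_comm, ← Finset.sum_add_distrib]
    congr 1
    refine Finset.sum_congr rfl fun i hi => ?_
    have h2 : n + 1 - (i + 1) = n - i := by omega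
    rw [OB6_dG_succ (hs i), h2, OB6_S_succ t i, sw_sw]
  rw [hB, hA, ← Finset.sum_add_distrib, OB6_U, map_sum, ← Finset.sum_add_distrib]
  refine Finset.sum_congr rfl fun i hi => ?_
  have h3 : OB6_L Φ i (OB6_S t (i + 1) (n - i)) + OB6_L Φ i (OB6_S t (i + 1) (n - i)) = 0 :=
    add_self_LC _
  rw [add_assoc, ← add_assoc (OB6_L Φ i (OB6_S t (i + 1) (n - i))), h3, zero_add]

theorem OB6_L_mem {i l : ℕ} {U : Set (Y × Y)} [TopologicalSpace Y] {c : Ch (C.X × C.X)}
    (h : ∀ p ∈ c.support, Φ i p ∈ F U l) : OB6_L Φ i c ∈ F U l := by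
  unfold OB6_L
  rw [Finsupp.linearCombination_apply, Finsupp.sum]
  exact Submodule.sum_mem _ fun p hp => Submodule.smul_mem _ _ (h p hp)

end OB6a

/-- a coarse obstructor gives a tower off the diagonal -/
theorem OB6_tower {K : Type v} [Group K] (C : Cx.{u, v} K) {d n : ℕ} (hT : Tow C d) (hn : n < d)
    (Y : Type w) [TopologicalSpace Y] [T2Space Y] [ContractibleSpace Y] [MulAction K Y]
    [ContinuousConstSMul K Y] [ProperlyDiscontinuousSMul K Y] :
    ∃ u : ℕ → GC (Y × Y), (∀ i ≤ n, u i ∈ F (EE Y) (i + 1)) ∧ dG (u 0) = cst (bs []) ∧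
      ∀ i < n, dG (u (i + 1)) = u i + mapG Prod.swap (u i) := by
  classical
  obtain ⟨Φ, hm, heq, h0, hs⟩ := exists_phi C Y
  obtain ⟨x₀, -, hx0, hE⟩ := hT
  -- representatives
  choose Er hEr using C.fin
  let R : Finset C.X := (Finset.range (n + 1)).biUnion Er
  have hR : ∀ x : C.X, C.deg x ≤ n → ∃ g : K, ∃ e ∈ R, g • e = x := by
    intro x hx
    obtain ⟨g, e, he, hg⟩ := hEr (C.deg x) x rfl
    exact ⟨g, e, Finset.mem_biUnion.mpr ⟨C.deg x, Finset.mem_range.mpr (by omega), he⟩, hg⟩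
  -- a compact set
  have hC : ∀ (i : ℕ) (p : C.X × C.X), ∃ A : Set Y, IsCompact A ∧
      Φ i p ∈ F (A ×ˢ A) (C.deg p.1 + C.deg p.2 + 1 + i) := fun i p => F2_exists_compact (hm i p)
  choose A hAc hAF using hC
  let B : Set Y := ⋃ i ∈ Finset.range (n + 1), ⋃ p ∈ R ×ˢ R, A i p
  have hB : IsCompact B := (Finset.range (n + 1)).isCompact_biUnion fun i _ =>
    (R ×ˢ R).isCompact_biUnion fun p _ => hAc i p
  have hAB : ∀ i ≤ n, ∀ e ∈ R, ∀ e' ∈ R, A i (e, e') ⊆ B := by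
    intro i hi e he e' he' y hy
    exact Set.mem_iUnion₂.mpr ⟨i, Finset.mem_range.mpr (by omega), Set.mem_iUnion₂.mpr
      ⟨(e, e'), Finset.mem_product.mpr ⟨he, he'⟩, hy⟩⟩
  have hfinite : {g : K | ((g • ·) '' B ∩ B).Nonempty}.Finite := by
    have := ProperlyDiscontinuousSMul.finite_disjoint_inter_image (Γ := K) hB hB
    simpa [Set.nonempty_iff_ne_empty] using this
  -- the finite set of cells
  let E : Finset C.X := R ∪ (hfinite.toFinset ×ˢ R).image (fun q => q.1 • q.2)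
  obtain ⟨t, k, h1, h2, h3⟩ := hE E
  have hfar : ∀ i ≤ n, ∀ p : C.X × C.X, C.deg p.1 ≤ n → C.deg p.2 ≤ n →
      Far K (E : Set C.X) p → Φ i p ∈ F (EE Y) (C.deg p.1 + C.deg p.2 + 1 + i) := by
    rintro i hi ⟨x, y⟩ hx hy hp
    obtain ⟨g, e, he, rfl⟩ := hR x hx
    obtain ⟨h, e', he', rfl⟩ := hR y hy
    rw [heq, C.deg_smul, C.deg_smul]
    have hcont : Continuous (fun q : Y × Y => (g • q.1, h • q.2)) :=
      (continuous_fst.const_smul g).prodMk (continuous_snd.const_smul h)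
    refine mapG_mem (U := (fun q : Y × Y => (g • q.1, h • q.2)) ⁻¹' (EE Y))
      (F2_isOpen_EE.preimage hcont) hcont.continuousOn (fun q hq => hq) ?_
    refine F_mono ?_ (hAF i (e, e'))
    rintro ⟨a, a'⟩ ⟨ha, ha'⟩ hgh
    have hgh' : g • a = h • a' := hgh
    have ha1 := hAB i hi e he e' he' ha
    have ha1' := hAB i hi e he e' he' ha'
    refine hp g⁻¹ ?_ ?_
    · simp only [inv_smul_smul]
      exact Finset.mem_coe.mpr (Finset.mem_union_left _ he)
    · refine Finset.mem_coe.mpr (Finset.mem_union_right _ (Finset.mem_image.mpr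
        ⟨(g⁻¹ * h, e'), Finset.mem_product.mpr ⟨?_, he'⟩, mul_smul _ _ _⟩))
      rw [Set.Finite.mem_toFinset]
      refine ⟨a, ⟨a', ha1', ?_⟩, ha1⟩
      show (g⁻¹ * h) • a' = a
      rw [mul_smul, ← hgh', inv_smul_smul]
  refine ⟨OB6_U Φ t, fun j hj => ?_, ?_, fun j hj => ?_⟩
  · unfold OB6_U
    refine Submodule.sum_mem _ fun i hi => OB6_L_mem fun p hp => ?_
    have hi' := Finset.mem_range.mp hi
    have h4 := OB6_S_deg C (h1 (j - i) (by omega)).1 i p hp
    have h5 := OB6_S_far C (h1 (j - i) (by omega)).2.1 i p hp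
    have h6 := hfar i (by omega) p (by omega) (by omega) h5
    have h7 : C.deg p.1 + C.deg p.2 + 1 + i = j + 1 := by omega
    rwa [h7] at h6
  · have h4 : OB6_U Φ t 0 = OB6_L Φ 0 (t 0) := by
      unfold OB6_U
      rw [Finset.sum_range_one]
      rfl
    have h5 : C.aug2 (t 0) = 1 := by
      have h6 := congrArg C.aug2 (h2 (by omega))
      rw [aug2_d2, map_add, aug2_single, hx0, mul_one] at h6
      have h7 : ∀ a : ZMod 2, 0 = a + 1 → a = 1 := by decide
      exact h7 _ h6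
    rw [h4, OB6_dG_zero h0, OB6_d2_zero C (h1 0 (by omega)).1, map_zero, zero_add, h5, one_smul]
  · exact OB6_U_succ h0 hs (fun i hi => (h1 i (by omega)).1) fun i hi => (h3 i (by omega)).1

/-! ## OB6 (file ObDim): the dimension bound -/

theorem obs_dim {Γ : Type u} [Group Γ] {d : ℕ} (h : Obs Γ d) {m : ℕ} {Y : Type w}
    [TopologicalSpace Y] [T2Space Y] [ContractibleSpace Y] (hY : LocHalf m Y)
    [MulAction Γ Y] [ContinuousConstSMul Γ Y] [ProperlyDiscontinuousSMul Γ Y] : d ≤ m + 1 := by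
  obtain ⟨K, _, f, hf, C, hT⟩ := h
  by_contra hlt
  push Not at hlt
  obtain ⟨Yp, _, _, _, ι, hYp, hι, hinj⟩ := collar hY
  let act : MulAction K Y := MulAction.compHom Y f
  have hsm : ∀ (g : K) (y : Y), g • y = f g • y := fun _ _ => rfl
  have h1 : ContinuousConstSMul K Y := ⟨fun g => by
    simp only [hsm]
    exact continuous_const_smul (f g)⟩
  have h2 : ProperlyDiscontinuousSMul K Y := ⟨fun {A B} hA hB => by
    have h3 := ProperlyDiscontinuousSMul.finite_disjoint_inter_image (Γ := Γ) hA hB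
    exact Set.Finite.preimage (f := f) hf.injOn h3⟩
  obtain ⟨u, hu1, hu2, hu3⟩ := OB6_tower C hT hlt Y
  refine tower_bound hYp (Nat.succ_pos m) ⟨fun i => mapG (Prod.map ι ι) (u i), ?_, ?_, ?_⟩
  · intro i hi
    refine mapG_mem (isOpen_EE) (by fun_prop) ?_ (hu1 i (by omega))
    intro q hq h
    exact hq (hinj h)
  · rw [dG_mapG, hu2, mapG_cst]
    simp
  · intro i hi
    rw [dG_mapG, hu3 i (by omega), map_add, mapG_mapG, mapG_mapG]
    rfl

end Ob

end OS
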