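import Mathlib
import Pool.Agent.Lib.MP_8fe54c_gt.ObDefs
import Pool.Agent.Lib.MP_8fe54c_gt.ObProd
import Pool.Agent.Lib.MP_8fe54c_gt.ObCross

/-!
# Coarse obstructors: slices; the tensor square is acyclic (OB9a)
-/

namespace OS

namespace Ob

open Finsupp

universe u v w u' v'

section OB9

/-- the coefficient of `z` at the cell `x` in the first variable -/
noncomputable def slice {X : Type*} (z : Ch (X × X)) (x : X) : Ch X :=
  z.comapDomain (fun y => (x, y)) (fun _ _ _ _ h => (Prod.mk.inj h).2)

theorem slice_apply {X : Type*} (z : Ch (X × X)) (x y : X) : slice z x y = z (x, y) := rfl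

theorem slice_zero {X : Type*} (x : X) : slice (0 : Ch (X × X)) x = 0 := by
  ext y
  rfl

theorem slice_add {X : Type*} (z z' : Ch (X × X)) (x : X) :
    slice (z + z') x = slice z x + slice z' x := by
  ext y
  rfl

theorem slice_sum {X ι : Type*} (S : Finset ι) (f : ι → Ch (X × X)) (x : X) :
    slice (∑ i ∈ S, f i) x = ∑ i ∈ S, slice (f i) x := by
  classical
  induction S using Finset.induction_on with
  | empty => exact slice_zero x
  | insert a s ha ih => rw [Finset.sum_insert ha, Finset.sum_insert ha, slice_add, ih]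

/-- the value of a cross product -/
theorem cr_apply {X Y : Type*} (c : Ch X) (e : Ch Y) (x : X) (y : Y) :
    cr c e (x, y) = c x * e y := by
  classical
  have h : ((Finsupp.applyAddHom (x, y)).comp (crl e).toAddMonoidHom : Ch X →+ ZMod 2) =
      ((AddMonoidHom.mulRight (e y)).comp (Finsupp.applyAddHom x) : Ch X →+ ZMod 2) := by
    refine Finsupp.addHom_ext fun x' a => ?_
    show cr (single x' a) e (x, y) = (single x' a) x * e y
    obtain rfl | rfl : a = 0 ∨ a = 1 := by
      revert a
      decide
    · rw [single_zero, cr_zero_left]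
      simp
    · rw [cr_single, mp, Finsupp.lmapDomain_apply]
      by_cases hx : x' = x
      · subst hx
        rw [Finsupp.mapDomain_apply (fun _ _ h => (Prod.mk.inj h).2), single_eq_same, one_mul]
      · rw [Finsupp.mapDomain_of_notMem_range, single_eq_of_ne (fun h => hx h.symm), zero_mul]
        rintro ⟨y', hy'⟩
        exact hx (Prod.mk.inj hy').1
  exact DFunLike.congr_fun h c

/-- the slices of a cross product -/
theorem slice_cr {X : Type*} (c e : Ch X) (x : X) : slice (cr c e) x = c x • e := by
  ext y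
  rw [slice_apply, cr_apply, Finsupp.smul_apply, smul_eq_mul]

/-- a slice outside the first coordinates of the support vanishes -/
theorem slice_eq_zero {X : Type*} {z : Ch (X × X)} {x : X} (h : ∀ p ∈ z.support, p.1 ≠ x) :
    slice z x = 0 := by
  ext y
  rw [slice_apply, Finsupp.zero_apply]
  by_contra hne
  exact h (x, y) (Finsupp.mem_support_iff.mpr hne) rfl

theorem mem_support_slice {X : Type*} {z : Ch (X × X)} {x y : X} :
    y ∈ (slice z x).support ↔ (x, y) ∈ z.support := by
  rw [Finsupp.mem_support_iff, Finsupp.mem_support_iff, slice_apply]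

variable {K : Type v} [Group K] (C : Cx.{u, v} K)

/-- every chain of pairs is the sum of its slices -/
theorem sum_slice {X : Type*} (z : Ch (X × X)) (S : Finset X) (hS : ∀ p ∈ z.support, p.1 ∈ S) :
    ∑ x ∈ S, cr (single x 1) (slice z x) = z := by
  classical
  ext ⟨x, y⟩
  rw [Finsupp.finsetSum_apply]
  simp only [cr_apply, slice_apply]
  by_cases hx : x ∈ S
  · rw [Finset.sum_eq_single x]
    · rw [single_eq_same, one_mul]
    · intro b _ hb
      rw [single_eq_of_ne (fun h => hb h.symm), zero_mul]
    · exact fun h => absurd hx h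
  · have h0 : z (x, y) = 0 := by
      by_contra hne
      exact hx (hS (x, y) (Finsupp.mem_support_iff.mpr hne))
    rw [h0]
    refine Finset.sum_eq_zero fun b hb => ?_
    rw [single_eq_of_ne (fun h : x = b => hx (by rw [h]; exact hb)), zero_mul]

/-- the slices of the boundary -/
theorem slice_d2 (z : Ch (C.X × C.X)) (S : Finset C.X) (hS : ∀ p ∈ z.support, p.1 ∈ S) (x : C.X) :
    slice (C.d2 z) x = C.d (slice z x) + ∑ x' ∈ S, C.bd x' x • slice z x' := by
  classical
  have h1 : C.d2 z = ∑ x' ∈ S, (cr (C.bd x') (slice z x') +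
      cr (single x' 1) (C.d (slice z x'))) := by
    conv_lhs => rw [← sum_slice z S hS]
    rw [map_sum]
    refine Finset.sum_congr rfl fun x' _ => ?_
    rw [d2_cr, C.d_single]
  rw [h1, slice_sum]
  simp only [slice_add, slice_cr]
  rw [Finset.sum_add_distrib, add_comm]
  congr 1
  by_cases hx : x ∈ S
  · rw [Finset.sum_eq_single x]
    · rw [single_eq_same, one_smul]
    · intro b _ hb
      rw [single_eq_of_ne (fun h => hb h.symm), zero_smul]
    · exact fun h => absurd hx h
  · rw [slice_eq_zero (z := z) (x := x) (fun p hp h => hx (h ▸ hS p hp)), map_zero]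
    refine Finset.sum_eq_zero fun b hb => ?_
    rw [single_eq_of_ne (fun h : x = b => hx (by rw [h]; exact hb)), zero_smul]

/-- the augmentation of the second variable -/
noncomputable def augR : Ch (C.X × C.X) →ₗ[ZMod 2] Ch C.X :=
  lin (fun p => C.eps p.2 • single p.1 1)

theorem augR_cr (a b : Ch C.X) : augR C (cr a b) = C.aug b • a := by
  refine bilin_ext (fun a b => augR C (cr a b)) (fun a b => C.aug b • a)
    ?_ ?_ ?_ ?_ ?_ ?_ ?_ ?_ ?_ a b
  · intro e; simp only [cr_zero_left, map_zero]
  · intro e; simp only [smul_zero]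
  · intro x; simp only [cr_zero_right, map_zero]
  · intro x; simp only [map_zero, zero_smul]
  · intro c c' e; simp only [cr_add_left, map_add]
  · intro c c' e; simp only [smul_add]
  · intro x e e'; simp only [cr_add_right, map_add]
  · intro x e e'; simp only [map_add, add_smul]
  · intro x y
    simp only [cr_single_single]
    rw [augR, lin_single, C.aug_single]

theorem augR_d2 (z : Ch (C.X × C.X)) : augR C (C.d2 z) = C.d (augR C z) := by
  have h := hom_ext (f := augR C ∘ₗ C.d2) (g := C.d ∘ₗ augR C) (fun p => by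
    obtain ⟨x, y⟩ := p
    rw [LinearMap.comp_apply, LinearMap.comp_apply, ← cr_single_single, d2_cr, map_add, augR_cr,
      augR_cr, augR_cr, C.d_single, C.d_single]
    have h1 : C.aug (C.bd y) = 0 := C.eps_bd y
    rw [h1, zero_smul, add_zero, map_smul, C.d_single]) z
  exact h

theorem aug_augR (z : Ch (C.X × C.X)) : C.aug (augR C z) = C.aug2 z := by
  have h := hom_ext (f := C.aug ∘ₗ augR C) (g := C.aug2) (fun p => by
    obtain ⟨x, y⟩ := p
    rw [LinearMap.comp_apply, ← cr_single_single, augR_cr, aug2_cr, map_smul, smul_eq_mul,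
      mul_comm]) z
  exact h

theorem augR_apply (z : Ch (C.X × C.X)) (x : C.X) : augR C z x = C.aug (slice z x) := by
  classical
  have h1 := sum_slice z (z.support.image Prod.fst) (fun p hp => Finset.mem_image_of_mem _ hp)
  conv_lhs => rw [← h1]
  rw [map_sum, Finsupp.finsetSum_apply]
  simp only [augR_cr, Finsupp.smul_apply, smul_eq_mul]
  by_cases hx : x ∈ z.support.image Prod.fst
  · rw [Finset.sum_eq_single x]
    · rw [single_eq_same, mul_one]
    · intro b _ hb
      rw [single_eq_of_ne (fun h => hb h.symm), mul_zero]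
    · exact fun h => absurd hx h
  · rw [slice_eq_zero (z := z) (x := x) (fun p hp h => hx (h ▸ Finset.mem_image_of_mem _ hp)),
      map_zero]
    refine Finset.sum_eq_zero fun b hb => ?_
    rw [single_eq_of_ne (fun h : x = b => hx (by rw [h]; exact hb)), mul_zero]

theorem isDeg_augR {n : ℕ} {z : Ch (C.X × C.X)} (hz : C.IsDeg2 n z) : C.IsDeg n (augR C z) := by
  classical
  intro x hx
  obtain ⟨p, hp, hpx⟩ := mem_support_lin hx
  have h1 : C.eps p.2 ≠ 0 := by
    intro h
    rw [h, zero_smul] at hpx
    simp at hpx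
  have h2 : C.deg p.2 = 0 := by
    by_contra h
    exact h1 (C.eps_deg _ h)
  have h3 := Finsupp.support_smul hpx
  rw [Finsupp.mem_support_iff] at h3
  have h4 : p.1 = x := by
    by_contra h
    exact h3 (single_eq_of_ne (fun h' => h h'.symm))
  have h5 := hz p hp
  rw [h2, h4] at h5
  exact h5

/-- the augmentation of a chain of positive degree vanishes -/
theorem aug_of_isDeg {n : ℕ} (hn : n ≠ 0) {c : Ch C.X} (hc : C.IsDeg n c) : C.aug c = 0 := by
  have h : C.aug c = ∑ x ∈ c.support, c x • C.eps x := rfl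
  rw [h]
  refine Finset.sum_eq_zero fun x hx => ?_
  rw [C.eps_deg x (by rw [hc x hx]; exact hn), smul_zero]

/-- the boundary of a cell of degree zero vanishes -/
theorem bd_of_deg {x : C.X} (hx : C.deg x = 0) : C.bd x = 0 := by
  by_contra h
  obtain ⟨y, hy⟩ := Finsupp.support_nonempty_iff.mpr h
  have h1 := C.bd_deg x y hy
  omega

theorem deg_of_eps {x : C.X} (hx : C.eps x = 1) : C.deg x = 0 := by
  by_contra h
  rw [C.eps_deg x h] at hx
  exact zero_ne_one hx

theorem isDeg_slice {n k : ℕ} {z : Ch (C.X × C.X)} (hz : C.IsDeg2 n z) {x : C.X}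
    (hx : C.deg x = k) : C.IsDeg (n - k) (slice z x) := by
  intro y hy
  have h := hz _ (mem_support_slice.mp hy)
  simp only at h
  omega

/-- the slices in the largest first degree are cycles -/
theorem isCyc_slice {n k : ℕ} {z : Ch (C.X × C.X)} (hz : C.IsDeg2 n z) (hd : C.d2 z = 0)
    (ha : augR C z = 0) (hk : ∀ p ∈ z.support, C.deg p.1 < k + 1) {x : C.X} (hx : C.deg x = k) :
    C.IsCyc (n - k) (slice z x) := by
  classical
  refine ⟨isDeg_slice C hz hx, ?_, ?_⟩
  · have h1 := slice_d2 C z (z.support.image Prod.fst)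
      (fun p hp => Finset.mem_image_of_mem _ hp) x
    rw [hd, slice_zero] at h1
    have h2 : ∑ x' ∈ z.support.image Prod.fst, C.bd x' x • slice z x' = 0 := by
      refine Finset.sum_eq_zero fun x' hx' => ?_
      obtain ⟨p, hp, rfl⟩ := Finset.mem_image.mp hx'
      by_cases h3 : C.bd p.1 x = 0
      · rw [h3, zero_smul]
      · have h4 := C.bd_deg p.1 x (Finsupp.mem_support_iff.mpr h3)
        have h5 := hk p hp
        omega
    rw [h2, add_zero] at h1
    exact h1.symm
  · rw [← augR_apply, ha, Finsupp.zero_apply]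

theorem OB9a_step (hC : C.Acyc) (n : ℕ) : ∀ (k : ℕ) (z : Ch (C.X × C.X)), k ≤ n + 1 →
    C.IsDeg2 n z → C.d2 z = 0 → augR C z = 0 → (∀ p ∈ z.support, C.deg p.1 < k) →
    ∃ b, C.IsDeg2 (n + 1) b ∧ C.d2 b = z := by
  classical
  intro k
  induction k with
  | zero =>
    intro z _ hz _ _ h0
    refine ⟨0, isDeg2_zero C _, ?_⟩
    have h1 : z = 0 := by
      by_contra h
      obtain ⟨p, hp⟩ := Finsupp.support_nonempty_iff.mpr h
      exact absurd (h0 p hp) (by omega)
    rw [h1, map_zero]
  | succ k ih =>
    intro z hkn hz hd ha hk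
    have hex : ∀ x : C.X, ∃ b : Ch C.X, C.deg x = k →
        C.IsDeg (n - k + 1) b ∧ C.d b = slice z x := by
      intro x
      by_cases hx : C.deg x = k
      · obtain ⟨b, hb⟩ := hC.2 _ _ (isCyc_slice C hz hd ha hk hx)
        exact ⟨b, fun _ => hb⟩
      · exact ⟨0, fun h => absurd h hx⟩
    choose B hB using hex
    set S := z.support.image Prod.fst with hS
    set S' := S.filter (fun x => C.deg x = k) with hS'
    have hmem : ∀ p ∈ z.support, p.1 ∈ S := fun p hp => Finset.mem_image_of_mem _ hp
    set β : Ch (C.X × C.X) := ∑ x ∈ S', cr (single x 1) (B x) with hβ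
    have hdeg : C.IsDeg2 (n + 1) β := by
      intro p hp
      obtain ⟨x, hx, hpx⟩ := Finset.mem_biUnion.mp (Finsupp.support_finsetSum hp)
      obtain ⟨h1, h2⟩ := mem_support_cr hpx
      have h3 : x = p.1 := by
        rw [Finsupp.mem_support_iff] at h1
        by_contra h
        exact h1 (single_eq_of_ne (fun h' => h h'.symm))
      have h4 := (Finset.mem_filter.mp hx).2
      have h5 := (hB x h4).1 _ h2
      rw [← h3, h4, h5]
      omega
    have hd2 : C.d2 β = ∑ x ∈ S', (cr (C.bd x) (B x) + cr (single x 1) (slice z x)) := by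
      rw [hβ, map_sum]
      refine Finset.sum_congr rfl fun x hx => ?_
      rw [d2_cr, C.d_single, (hB x (Finset.mem_filter.mp hx).2).2]
    have hsplit : z = ∑ x ∈ S', cr (single x 1) (slice z x) +
        ∑ x ∈ S.filter (fun x => ¬ C.deg x = k), cr (single x 1) (slice z x) := by
      rw [Finset.sum_filter_add_sum_filter_not]
      exact (sum_slice z S hmem).symm
    have hsum : z + C.d2 β = ∑ x ∈ S', cr (C.bd x) (B x) +
        ∑ x ∈ S.filter (fun x => ¬ C.deg x = k), cr (single x 1) (slice z x) := by
      rw [hd2, Finset.sum_add_distrib]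
      conv_lhs => lhs; rw [hsplit]
      have h1 := add_self_ch (∑ x ∈ S', cr (single x 1) (slice z x))
      calc _ = (∑ x ∈ S', cr (single x 1) (slice z x) + ∑ x ∈ S', cr (single x 1) (slice z x)) +
            (∑ x ∈ S', cr (C.bd x) (B x) +
              ∑ x ∈ S.filter (fun x => ¬ C.deg x = k), cr (single x 1) (slice z x)) := by abel
        _ = _ := by rw [h1, zero_add]
    have hB0 : augR C β = 0 := by
      rw [hβ, map_sum]
      refine Finset.sum_eq_zero fun x hx => ?_
      rw [augR_cr, aug_of_isDeg C (Nat.succ_ne_zero _) (hB x (Finset.mem_filter.mp hx).2).1,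
        zero_smul]
    obtain ⟨b, hb1, hb2⟩ := ih (z + C.d2 β) (by omega) (isDeg2_add C hz (isDeg2_d2 C hdeg))
      (by rw [map_add, hd, d2_d2, add_zero])
      (by rw [map_add, ha, augR_d2, hB0, map_zero, add_zero]) (by
        intro p hp
        rw [hsum] at hp
        rcases Finset.mem_union.mp (Finsupp.support_add hp) with h | h
        · obtain ⟨x, hx, hpx⟩ := Finset.mem_biUnion.mp (Finsupp.support_finsetSum h)
          obtain ⟨h1, h2⟩ := mem_support_cr hpx
          have h3 := C.bd_deg x _ h1
          have h4 := (Finset.mem_filter.mp hx).2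
          omega
        · obtain ⟨x, hx, hpx⟩ := Finset.mem_biUnion.mp (Finsupp.support_finsetSum h)
          obtain ⟨h1, h2⟩ := mem_support_cr hpx
          have h3 : x = p.1 := by
            rw [Finsupp.mem_support_iff] at h1
            by_contra h
            exact h1 (single_eq_of_ne (fun h' => h h'.symm))
          obtain ⟨h4, h5⟩ := Finset.mem_filter.mp hx
          obtain ⟨q, hq, hqx⟩ := Finset.mem_image.mp h4
          have h6 := hk q hq
          rw [hqx, h3] at h6
          rw [h3] at h5
          omega)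
    refine ⟨b + β, isDeg2_add C hb1 hdeg, ?_⟩
    rw [map_add, hb2, add_assoc, add_self_ch, add_zero]

theorem acyc2 (hC : C.Acyc) {n : ℕ} {z : Ch (C.X × C.X)} (hz : C.IsCyc2 n z) :
    ∃ b, C.IsDeg2 (n + 1) b ∧ C.d2 b = z := by
  obtain ⟨h1, h2, h3⟩ := hz
  have hcyc : C.IsCyc n (augR C z) :=
    ⟨isDeg_augR C h1, by rw [← augR_d2, h2, map_zero], by rw [aug_augR, h3]⟩
  obtain ⟨w, hw1, hw2⟩ := hC.2 _ _ hcyc
  obtain ⟨s, hs⟩ := hC.1
  have hs0 := deg_of_eps C hs
  have hdw : C.d2 (cr w (single s 1)) = cr (augR C z) (single s 1) := by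
    rw [d2_cr, hw2, C.d_single, bd_of_deg C hs0, cr_zero_right, add_zero]
  have hw3 : C.IsDeg2 (n + 1) (cr w (single s 1)) := by
    refine isDeg2_cr C hw1 (m := 0) ?_
    intro y hy
    rw [Finsupp.mem_support_iff] at hy
    have h4 : y = s := by
      by_contra h
      exact hy (single_eq_of_ne h)
    rw [h4, hs0]
  have haug : augR C (z + C.d2 (cr w (single s 1))) = 0 := by
    rw [map_add, hdw, augR_cr, C.aug_single, hs, one_smul, add_self_ch]
  have hdeg : C.IsDeg2 n (z + C.d2 (cr w (single s 1))) := isDeg2_add C h1 (isDeg2_d2 C hw3)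
  obtain ⟨b, hb1, hb2⟩ := OB9a_step C hC n (n + 1) (z + C.d2 (cr w (single s 1))) le_rfl hdeg
    (by rw [map_add, h2, d2_d2, add_zero]) haug (fun p hp => by
      have := hdeg p hp
      omega)
  refine ⟨b + cr w (single s 1), isDeg2_add C hb1 hw3, ?_⟩
  rw [map_add, hb2, add_assoc, add_self_ch, add_zero]

end OB9

end Ob

end OS
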