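import Mathlib
import Pool.Agent.Lib.MP_8fe54c_gt.ObDefs
import Pool.Agent.Lib.MP_8fe54c_gt.ObProd
import Pool.Agent.Lib.MP_8fe54c_gt.ObCross
import Pool.Agent.Lib.MP_8fe54c_gt.ObSlice

/-!
# Coarse obstructors: filling slices far from the diagonal (OB9c, first part)
-/

namespace OS

namespace Ob

open Finsupp

universe u v w u' v'

section OB9

variable {K : Type v} [Group K] (C : Cx.{u, v} K)

theorem mp_smul_apply {X : Type*} [MulAction K X] (g : K) (c : Ch X) (y : X) :
    mp (fun x => g • x) c (g • y) = c y := by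
  rw [mp, Finsupp.lmapDomain_apply]
  exact Finsupp.mapDomain_apply (MulAction.injective g) c y

theorem mp_smul_inv_smul {X : Type*} [MulAction K X] (g : K) (c : Ch X) :
    mp (fun x => g • x) (mp (fun x => g⁻¹ • x) c) = c := by
  rw [mp_mp]
  simp only [smul_inv_smul]
  exact mp_id c

theorem isCyc_mp_smul {n : ℕ} {c : Ch C.X} (hc : C.IsCyc n c) (g : K) :
    C.IsCyc n (mp (fun x => g • x) c) :=
  ⟨isDeg_smul_mp C hc.1 g, by rw [d_mp_smul, hc.2.1, map_zero], by rw [aug_mp_smul, hc.2.2]⟩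

/-- the only cell in the support of a single cell -/
theorem eq_of_mem_support_single {X : Type*} {x y : X} (h : y ∈ (single x (1 : ZMod 2)).support) :
    y = x := by
  rw [Finsupp.mem_support_iff] at h
  by_contra h'
  exact h (single_eq_of_ne h')

/-- one step: the slices of `z` are cycles, and can be filled far out -/
theorem fill_slices (n : ℕ) (hC : ∀ E : Finset C.X, ∃ E' : Finset C.X, ∀ c, C.IsCyc n c →
      (∀ x ∈ E', c x = 0) → ∃ b, C.IsDeg (n + 1) b ∧ (∀ x ∈ E, b x = 0) ∧ C.d b = c)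
    (k : ℕ) (E : Finset C.X) :
    ∃ E' : Finset C.X, E ⊆ E' ∧ ∀ z, C.IsFar E' z → (∀ p ∈ z.support, C.deg p.1 = k) →
      (∀ x, C.IsCyc n (slice z x)) → ∃ b, C.IsDeg2 (k + n + 1) b ∧ C.IsFar E b ∧
        (∀ p ∈ b.support, C.deg p.1 = k) ∧ C.IsFar E (z + C.d2 b) ∧
        ∀ p ∈ (z + C.d2 b).support, C.deg p.1 + 1 = k := by
  classical
  obtain ⟨R, hR⟩ := C.fin k
  choose F hF using hC
  have hMfin : ∀ x : C.X, {y : C.X | ¬ Far K (E : Set C.X) (x, y)}.Finite := finite_not_far C E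
  set N : C.X → Finset C.X := fun x => (hMfin x).toFinset with hN
  have hNmem : ∀ x y, y ∉ N x → Far K (E : Set C.X) (x, y) := by
    intro x y hy
    by_contra h
    exact hy ((hMfin x).mem_toFinset.mpr h)
  set M : C.X → Finset C.X := fun e => N e ∪ (C.bd e).support.biUnion N with hM
  refine ⟨E ∪ R.biUnion (fun e => {e} ∪ F (M e)), Finset.subset_union_left, ?_⟩
  intro z hz hk hcyc
  have hex : ∀ x : C.X, ∃ B : Ch C.X, C.deg x = k → C.IsDeg (n + 1) B ∧ C.d B = slice z x ∧
      (∀ y ∈ B.support, Far K (E : Set C.X) (x, y)) ∧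
      ∀ y ∈ B.support, ∀ x' ∈ (C.bd x).support, Far K (E : Set C.X) (x', y) := by
    intro x
    by_cases hx : C.deg x = k
    · obtain ⟨g, e, he, rfl⟩ := hR x hx
      have hc := isCyc_mp_smul C (hcyc (g • e)) g⁻¹
      have havoid : ∀ y ∈ F (M e), mp (fun y => g⁻¹ • y) (slice z (g • e)) y = 0 := by
        intro y hy
        have h1 := mp_smul_apply g⁻¹ (slice z (g • e)) (g • y)
        rw [inv_smul_smul] at h1
        rw [h1]
        by_contra hne
        have h2 := hz (g • e, g • y) (mem_support_slice.mp (Finsupp.mem_support_iff.mpr hne))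
        refine h2 g⁻¹ ?_ ?_
        · simp only [inv_smul_smul]
          refine Finset.mem_coe.mpr (Finset.mem_union_right _ (Finset.mem_biUnion.mpr ⟨e, he, ?_⟩))
          exact Finset.mem_union_left _ (Finset.mem_singleton_self e)
        · simp only [inv_smul_smul]
          refine Finset.mem_coe.mpr (Finset.mem_union_right _ (Finset.mem_biUnion.mpr ⟨e, he, ?_⟩))
          exact Finset.mem_union_right _ hy
      obtain ⟨b, hb1, hb2, hb3⟩ := hF (M e) _ hc havoid
      refine ⟨mp (fun y => g • y) b, fun _ => ⟨isDeg_smul_mp C hb1 g, ?_, ?_, ?_⟩⟩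
      · rw [d_mp_smul, hb3, mp_smul_inv_smul]
      · intro y hy
        obtain ⟨y', hy', rfl⟩ := mem_support_mp hy
        have h1 : y' ∉ M e := fun h => (Finsupp.mem_support_iff.mp hy') (hb2 y' h)
        exact far_smul (hNmem e y' (fun h => h1 (Finset.mem_union_left _ h))) g
      · intro y hy x' hx'
        obtain ⟨y', hy', rfl⟩ := mem_support_mp hy
        rw [C.bd_smul] at hx'
        obtain ⟨e', he', rfl⟩ := mem_support_mp hx'
        have h1 : y' ∉ M e := fun h => (Finsupp.mem_support_iff.mp hy') (hb2 y' h)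
        exact far_smul (hNmem e' y' (fun h => h1
          (Finset.mem_union_right _ (Finset.mem_biUnion.mpr ⟨e', he', h⟩)))) g
    · exact ⟨0, fun h => absurd h hx⟩
  choose B hB using hex
  set S := z.support.image Prod.fst with hS
  have hmem : ∀ p ∈ z.support, p.1 ∈ S := fun p hp => Finset.mem_image_of_mem _ hp
  have hSk : ∀ x ∈ S, C.deg x = k := by
    intro x hx
    obtain ⟨p, hp, rfl⟩ := Finset.mem_image.mp hx
    exact hk p hp
  have hd2 : z + C.d2 (∑ x ∈ S, cr (single x 1) (B x)) = ∑ x ∈ S, cr (C.bd x) (B x) := by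
    have h1 : C.d2 (∑ x ∈ S, cr (single x 1) (B x)) =
        ∑ x ∈ S, cr (C.bd x) (B x) + ∑ x ∈ S, cr (single x 1) (slice z x) := by
      rw [map_sum, ← Finset.sum_add_distrib]
      refine Finset.sum_congr rfl fun x hx => ?_
      rw [d2_cr, C.d_single, (hB x (hSk x hx)).2.1]
    rw [h1, sum_slice z S hmem, add_comm, add_assoc, add_self_ch, add_zero]
  have hsup : ∀ p ∈ (∑ x ∈ S, cr (single x 1) (B x)).support,
      p.1 ∈ S ∧ p.2 ∈ (B p.1).support := by
    intro p hp
    obtain ⟨x, hx, hpx⟩ := Finset.mem_biUnion.mp (Finsupp.support_finsetSum hp)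
    obtain ⟨h1, h2⟩ := mem_support_cr hpx
    have h3 := eq_of_mem_support_single h1
    rw [← h3] at hx h2
    exact ⟨hx, h2⟩
  have hsup' : ∀ p ∈ (∑ x ∈ S, cr (C.bd x) (B x)).support,
      ∃ x ∈ S, p.1 ∈ (C.bd x).support ∧ p.2 ∈ (B x).support := by
    intro p hp
    obtain ⟨x, hx, hpx⟩ := Finset.mem_biUnion.mp (Finsupp.support_finsetSum hp)
    exact ⟨x, hx, mem_support_cr hpx⟩
  refine ⟨∑ x ∈ S, cr (single x 1) (B x), ?_, ?_, ?_, ?_, ?_⟩
  · intro p hp
    obtain ⟨h1, h2⟩ := hsup p hp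
    rw [hSk _ h1, (hB _ (hSk _ h1)).1 _ h2]
    rfl
  · intro p hp
    obtain ⟨h1, h2⟩ := hsup p hp
    exact (hB _ (hSk _ h1)).2.2.1 _ h2
  · intro p hp
    exact hSk _ (hsup p hp).1
  · rw [hd2]
    intro p hp
    obtain ⟨x, hx, h1, h2⟩ := hsup' p hp
    exact (hB _ (hSk _ hx)).2.2.2 _ h2 _ h1
  · rw [hd2]
    intro p hp
    obtain ⟨x, hx, h1, h2⟩ := hsup' p hp
    rw [C.bd_deg x _ h1, hSk x hx]

end OB9

end Ob

end OS
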