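import Mathlib
import Pool.Agent.Lib.MP_8fe54c_gt.ObDefs
import Pool.Agent.Lib.MP_8fe54c_gt.ObProd
import Pool.Agent.Lib.MP_8fe54c_gt.ObCross
import Pool.Agent.Lib.MP_8fe54c_gt.ObAvoid
import Pool.Agent.Lib.MP_8fe54c_gt.ObSlice
import Pool.Agent.Lib.MP_8fe54c_gt.ObFill

/-!
# Coarse obstructors: pushing the first coordinate to degree zero (OB9b)
-/

namespace OS

namespace Ob

open Finsupp

universe u v w u' v'

variable {K : Type v} [Group K] (C : Cx.{u, v} K)

/-- the augmentation of the second coordinate -/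
noncomputable def OB9b_A : Ch (C.X × C.X) →ₗ[ZMod 2] Ch C.X :=
  lin (fun p => C.eps p.2 • single p.1 1)

theorem OB9b_A_single (x y : C.X) :
    OB9b_A C (single (x, y) 1) = C.eps y • single x (1 : ZMod 2) := lin_single _ _

theorem OB9b_A_cr (a b : Ch C.X) : OB9b_A C (cr a b) = C.aug b • a := by
  refine bilin_ext (fun a b => OB9b_A C (cr a b)) (fun a b => C.aug b • a) ?_ ?_ ?_ ?_ ?_ ?_ ?_ ?_
    ?_ a b
  · intro e; simp only [cr_zero_left, map_zero]
  · intro e; simp only [smul_zero]
  · intro e; simp only [cr_zero_right, map_zero]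
  · intro e; simp only [map_zero, zero_smul]
  · intro c c' e; simp only [cr_add_left, map_add]
  · intro c c' e; simp only [smul_add]
  · intro c c' e; simp only [cr_add_right, map_add]
  · intro c c' e; simp only [map_add, add_smul]
  · intro x y
    simp only [cr_single_single]
    rw [OB9b_A_single, C.aug_single]

theorem OB9b_A_d2 (z : Ch (C.X × C.X)) : OB9b_A C (C.d2 z) = C.d (OB9b_A C z) := by
  have h := hom_ext (f := OB9b_A C ∘ₗ C.d2) (g := C.d ∘ₗ OB9b_A C) (fun p => by
    obtain ⟨x, y⟩ := p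
    rw [LinearMap.comp_apply, LinearMap.comp_apply, d2_single, bd2_mk, map_add, OB9b_A_cr,
      OB9b_A_cr, OB9b_A_single, map_smul, C.d_single, C.aug_single]
    have h1 : C.aug (C.bd y) = 0 := C.eps_bd y
    rw [h1, zero_smul, add_zero]) z
  exact h

theorem OB9b_aug_A (z : Ch (C.X × C.X)) : C.aug (OB9b_A C z) = C.aug2 z := by
  have h := hom_ext (f := C.aug ∘ₗ OB9b_A C) (g := C.aug2) (fun p => by
    obtain ⟨x, y⟩ := p
    rw [LinearMap.comp_apply, OB9b_A_single, map_smul, C.aug_single, aug2_single, smul_eq_mul,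
      mul_comm]) z
  exact h

theorem OB9b_slice_add (z z' : Ch (C.X × C.X)) (x : C.X) :
    slice (z + z') x = slice z x + slice z' x := by
  ext y
  rfl

theorem OB9b_A_apply (z : Ch (C.X × C.X)) (x : C.X) : OB9b_A C z x = C.aug (slice z x) := by
  classical
  induction z using Finsupp.induction_linear with
  | zero =>
    have e : slice (0 : Ch (C.X × C.X)) x = 0 := by
      ext y
      rfl
    rw [e, map_zero, map_zero]
    rfl
  | add f g hf hg => rw [map_add, Finsupp.add_apply, hf, hg, OB9b_slice_add, map_add]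
  | single p a =>
    obtain ⟨x', y⟩ := p
    obtain rfl | rfl : a = 0 ∨ a = 1 := by
      revert a
      decide
    · have e : slice (single (x', y) (0 : ZMod 2)) x = 0 := by
        ext y'
        rw [single_zero]
        rfl
      rw [e, single_zero, map_zero, map_zero]
      rfl
    · rw [OB9b_A_single]
      by_cases hx : x' = x
      · subst hx
        have e : slice (single (x', y) (1 : ZMod 2)) x' = single y 1 := by
          ext y'
          rw [slice_apply]
          by_cases hy : y = y'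
          · subst hy
            rw [single_eq_same, single_eq_same]
          · rw [single_eq_of_ne (Ne.symm hy),
              single_eq_of_ne (fun h => hy (Prod.mk.inj h).2.symm)]
        rw [e, C.aug_single]
        simp
      · have e : slice (single (x', y) (1 : ZMod 2)) x = 0 := by
          ext y'
          rw [slice_apply, single_eq_of_ne (fun h => hx (Prod.mk.inj h).1.symm)]
          rfl
        rw [e, map_zero, Finsupp.smul_apply, single_eq_of_ne (Ne.symm hx), smul_zero]

theorem OB9b_A_zero {z : Ch (C.X × C.X)} (h : ∀ p ∈ z.support, C.deg p.2 ≠ 0) :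
    OB9b_A C z = 0 := by
  have h1 : OB9b_A C z = ∑ p ∈ z.support, z p • (C.eps p.2 • single p.1 (1 : ZMod 2)) := rfl
  rw [h1]
  refine Finset.sum_eq_zero fun p hp => ?_
  rw [C.eps_deg _ (h p hp), zero_smul, smul_zero]

theorem OB9b_A_isDeg {n : ℕ} {z : Ch (C.X × C.X)} (hz : C.IsDeg2 n z) :
    C.IsDeg n (OB9b_A C z) := by
  intro x hx
  obtain ⟨p, hp, hxp⟩ := mem_support_lin hx
  have h1 := hz p hp
  have h2 : C.eps p.2 ≠ 0 := by
    intro h0
    rw [h0, zero_smul] at hxp
    simp at hxp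
  have h3 : C.deg p.2 = 0 := by
    by_contra hne
    exact h2 (C.eps_deg _ hne)
  have h4 := Finsupp.support_smul hxp
  rw [Finsupp.mem_support_iff] at h4
  have h5 : x = p.1 := by
    by_contra hne
    exact h4 (single_eq_of_ne hne)
  rw [h5]
  omega

theorem OB9b_bd_zero {x : C.X} (hx : C.deg x = 0) : C.bd x = 0 := by
  rw [← Finsupp.support_eq_empty, Finset.eq_empty_iff_forall_notMem]
  intro y hy
  have := C.bd_deg x y hy
  omega

theorem OB9b_sup {z : Ch (C.X × C.X)} {x y : C.X} (h : slice z x y ≠ 0) : (x, y) ∈ z.support := by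
  rw [Finsupp.mem_support_iff]
  exact h

/-- the slices with first cell of the largest degree are cycles -/
theorem OB9b_top {n k : ℕ} {z : Ch (C.X × C.X)} (hz : C.IsDeg2 n z) (hd : C.d2 z = 0)
    (hA : OB9b_A C z = 0) (hk : ∀ p ∈ z.support, C.deg p.1 ≤ k) {x : C.X} (hx : C.deg x = k) :
    C.IsCyc (n - k) (slice z x) := by
  classical
  refine ⟨?_, ?_, ?_⟩
  · intro y hy
    rw [Finsupp.mem_support_iff] at hy
    have := hz _ (OB9b_sup C hy)
    simp only at this
    omega
  · have h1 := slice_d2 C z (z.support.image Prod.fst)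
      (fun p hp => Finset.mem_image_of_mem _ hp) x
    rw [hd] at h1
    have h2 : slice (0 : Ch (C.X × C.X)) x = 0 := by
      ext y
      rfl
    have h3 : (∑ x' ∈ z.support.image Prod.fst, C.bd x' x • slice z x') = 0 := by
      refine Finset.sum_eq_zero fun x' hx' => ?_
      obtain ⟨p, hp, rfl⟩ := Finset.mem_image.mp hx'
      have h4 := hk p hp
      have h5 : C.bd p.1 x = 0 := by
        by_contra hne
        have := C.bd_deg p.1 x (Finsupp.mem_support_iff.mpr hne)
        omega
      rw [h5, zero_smul]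
    rw [h2, h3, add_zero] at h1
    exact h1.symm
  · rw [← OB9b_A_apply, hA]
    rfl

theorem OB9b_step (hC : C.Acyc) {n : ℕ} (h : ∀ i ≤ n, C.CoZero i) (k : ℕ) (hkn : k ≤ n) :
    ∀ E : Finset C.X, ∃ E' : Finset C.X, ∀ z, C.IsDeg2 n z → C.d2 z = 0 → OB9b_A C z = 0 →
      C.IsFar E' z → (∀ p ∈ z.support, C.deg p.1 ≤ k) →
      ∃ b, C.IsDeg2 (n + 1) b ∧ C.IsFar E b ∧ C.IsFar E (z + C.d2 b) ∧
        OB9b_A C (z + C.d2 b) = 0 ∧ ∀ p ∈ (z + C.d2 b).support, C.deg p.1 = 0 := by
  classical
  induction k with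
  | zero =>
    intro E
    refine ⟨E, fun z hz hd hA hE hk => ⟨0, isDeg2_zero C _, isFar_zero C _, ?_, ?_, ?_⟩⟩
    · rw [map_zero, add_zero]; exact hE
    · rw [map_zero, add_zero]; exact hA
    · rw [map_zero, add_zero]
      intro p hp
      exact Nat.le_zero.mp (hk p hp)
  | succ k ih =>
    intro E
    obtain ⟨E₁, hE₁⟩ := ih (by omega) E
    obtain ⟨E₂, hE₂, hfill⟩ := fill_slices C (n - (k + 1))
      (fun E => avoid C hC (h (n - (k + 1) + 1) (by omega)) E) (k + 1) (E₁ ∪ E)
    refine ⟨E₂, fun z hz hd hA hE hk => ?_⟩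
    set zt : Ch (C.X × C.X) := z.filter (fun p => C.deg p.1 = k + 1) with hzt
    have hsub : zt.support ⊆ z.support := by
      rw [hzt, Finsupp.support_filter]
      exact Finset.filter_subset _ _
    have hztk : ∀ p ∈ zt.support, C.deg p.1 = k + 1 := by
      intro p hp
      rw [hzt, Finsupp.support_filter, Finset.mem_filter] at hp
      exact hp.2
    have hslice : ∀ x, C.IsCyc (n - (k + 1)) (slice zt x) := by
      intro x
      by_cases hx : C.deg x = k + 1
      · have e : slice zt x = slice z x := by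
          ext y
          rw [slice_apply, slice_apply, hzt, Finsupp.filter_apply_pos _ _ (by exact hx)]
        rw [e]
        exact OB9b_top C hz hd hA hk hx
      · have e : slice zt x = 0 := by
          ext y
          rw [slice_apply, hzt, Finsupp.filter_apply_neg _ _ (by exact hx)]
          rfl
        rw [e]
        exact ⟨isDeg_zero C _, map_zero _, map_zero _⟩
    have hztfar : C.IsFar E₂ zt := fun p hp => hE p (hsub hp)
    obtain ⟨b, hb1, hb2, hb3, hb4, hb5⟩ := hfill zt hztfar hztk hslice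
    have hzr : ∀ p ∈ (z + zt).support, p ∈ z.support ∧ C.deg p.1 ≠ k + 1 := by
      intro p hp
      rw [Finsupp.mem_support_iff, Finsupp.add_apply] at hp
      by_cases hx : C.deg p.1 = k + 1
      · exfalso
        apply hp
        rw [hzt, Finsupp.filter_apply_pos _ _ (by exact hx)]
        exact CharTwo.add_self_eq_zero _
      · rw [hzt, Finsupp.filter_apply_neg _ _ (by exact hx), add_zero] at hp
        exact ⟨Finsupp.mem_support_iff.mpr hp, hx⟩
    have hsplit : z + C.d2 b = (z + zt) + (zt + C.d2 b) := by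
      have := add_self_ch zt
      calc z + C.d2 b = z + (zt + zt) + C.d2 b := by rw [this, add_zero]
        _ = (z + zt) + (zt + C.d2 b) := by abel
    have hE₁₂ : E₁ ⊆ E₂ := Finset.subset_union_left.trans hE₂
    have hz1far : C.IsFar E₁ (z + C.d2 b) := by
      rw [hsplit]
      refine isFar_add C ?_ ?_
      · intro p hp
        exact isFar_mono C hE₁₂ hE p (hzr p hp).1
      · exact isFar_mono C Finset.subset_union_left hb4
    have hb1' : C.IsDeg2 (n + 1) b := by
      have e : k + 1 + (n - (k + 1)) + 1 = n + 1 := by omega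
      rwa [e] at hb1
    have hz1deg : C.IsDeg2 n (z + C.d2 b) := isDeg2_add C hz (isDeg2_d2 C hb1')
    have hAb : OB9b_A C b = 0 := by
      refine OB9b_A_zero C fun p hp => ?_
      have h1 := hb1' p hp
      have h2 := hb3 p hp
      omega
    have hz1A : OB9b_A C (z + C.d2 b) = 0 := by
      rw [map_add, hA, OB9b_A_d2, hAb, map_zero, add_zero]
    have hz1d : C.d2 (z + C.d2 b) = 0 := by
      rw [map_add, hd, d2_d2, add_zero]
    have hz1k : ∀ p ∈ (z + C.d2 b).support, C.deg p.1 ≤ k := by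
      rw [hsplit]
      intro p hp
      rcases Finset.mem_union.mp (Finsupp.support_add hp) with h1 | h1
      · have h2 := hzr p h1
        have h3 := hk p h2.1
        omega
      · have h2 := hb5 p h1
        omega
    obtain ⟨b', hb'1, hb'2, hb'3, hb'4, hb'5⟩ := hE₁ _ hz1deg hz1d hz1A hz1far hz1k
    have e : z + C.d2 (b + b') = z + C.d2 b + C.d2 b' := by rw [map_add, add_assoc]
    refine ⟨b + b', isDeg2_add C hb1' hb'1, isFar_add C ?_ hb'2, ?_, ?_, ?_⟩
    · exact isFar_mono C Finset.subset_union_right hb2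
    · rw [e]; exact hb'3
    · rw [e]; exact hb'4
    · rw [e]; exact hb'5

theorem far_filter (hC : C.Acyc) {n : ℕ} (h : ∀ i ≤ n, C.CoZero i) (E : Finset C.X) :
    ∃ E' : Finset C.X, ∀ z, C.IsCyc2 n z → C.IsFar E' z →
      ∃ b, C.IsDeg2 (n + 1) b ∧ C.IsFar E b ∧ C.IsFar E (z + C.d2 b) ∧
        (∀ p ∈ (z + C.d2 b).support, C.deg p.1 = 0) ∧ ∀ x, C.IsCyc n (slice (z + C.d2 b) x) := by
  classical
  obtain ⟨E₁, hE₁⟩ := OB9b_step C hC h n le_rfl E
  refine ⟨E₁ ∪ E, fun z hz hE => ?_⟩
  obtain ⟨hz1, hz2, hz3⟩ := hz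
  have hAz : C.IsCyc n (OB9b_A C z) := by
    refine ⟨OB9b_A_isDeg C hz1, ?_, ?_⟩
    · rw [← OB9b_A_d2, hz2, map_zero]
    · rw [OB9b_aug_A, hz3]
  obtain ⟨w, hw1, hw2⟩ := hC.2 n _ hAz
  have hfar : ∀ x : C.X, ∃ s : C.X, C.deg s = 0 ∧ C.eps s = 1 ∧
      Far K ((E₁ ∪ E : Finset C.X) : Set C.X) (x, s) ∧
      ∀ x' ∈ (C.bd x).support, Far K ((E₁ ∪ E : Finset C.X) : Set C.X) (x', s) := by
    intro x
    obtain ⟨s, hs1, hs2, hs3⟩ := exists_far_point C hC (h 0 (Nat.zero_le _))
      ((finite_not_far C (E₁ ∪ E) x).toFinset ∪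
        (C.bd x).support.biUnion fun x' => (finite_not_far C (E₁ ∪ E) x').toFinset)
    rw [Finset.mem_union, not_or, Finset.mem_biUnion] at hs3
    refine ⟨s, hs1, hs2, ?_, ?_⟩
    · by_contra hcon
      apply hs3.1
      rw [Set.Finite.mem_toFinset]
      exact hcon
    · intro x' hx'
      by_contra hcon
      apply hs3.2
      refine ⟨x', hx', ?_⟩
      rw [Set.Finite.mem_toFinset]
      exact hcon
  choose s hs1 hs2 hs3 hs4 using hfar
  set b₀ : Ch (C.X × C.X) := lin (fun x => single (x, s x) 1) w with hb₀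
  have hb₀sup : ∀ p ∈ b₀.support, p.1 ∈ w.support ∧ p.2 = s p.1 := by
    intro p hp
    obtain ⟨x, hx, hxp⟩ := mem_support_lin hp
    rw [Finsupp.mem_support_iff] at hxp
    have h1 : p = (x, s x) := by
      by_contra hne
      exact hxp (single_eq_of_ne hne)
    rw [h1]
    exact ⟨hx, rfl⟩
  have hb₀deg : C.IsDeg2 (n + 1) b₀ := by
    intro p hp
    obtain ⟨h1, h2⟩ := hb₀sup p hp
    rw [h2, hs1, hw1 _ h1]
  have hb₀far : C.IsFar (E₁ ∪ E) b₀ := by
    intro p hp
    obtain ⟨h1, h2⟩ := hb₀sup p hp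
    have h3 := hs3 p.1
    rw [← h2] at h3
    exact h3
  have hdb₀far : C.IsFar (E₁ ∪ E) (C.d2 b₀) := by
    intro p hp
    obtain ⟨q, hq, hqp⟩ := mem_support_lin hp
    obtain ⟨h1, h2⟩ := hb₀sup q hq
    have h3 : C.bd2 q = mp (fun x => (x, q.2)) (C.bd q.1) := by
      rw [Cx.bd2, OB9b_bd_zero C (by rw [h2, hs1] : C.deg q.2 = 0), map_zero, add_zero]
    rw [h3] at hqp
    obtain ⟨x', hx', rfl⟩ := mem_support_mp hqp
    rw [h2]
    exact hs4 q.1 x' hx'
  have hAb₀ : OB9b_A C b₀ = w := by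
    rw [hb₀, OB9b_A, lin_lin]
    have h1 : (fun x => lin (fun p : C.X × C.X => C.eps p.2 • single p.1 (1 : ZMod 2))
        (single (x, s x) 1)) = fun x => single x (1 : ZMod 2) := by
      funext x
      rw [lin_single, hs2, one_smul]
    rw [h1]
    have h2 := hom_ext (f := lin (fun x : C.X => single x (1 : ZMod 2))) (g := LinearMap.id)
      (fun x => by rw [lin_single]; rfl) w
    exact h2
  have hz1deg : C.IsDeg2 n (z + C.d2 b₀) := isDeg2_add C hz1 (isDeg2_d2 C hb₀deg)
  have hz1d : C.d2 (z + C.d2 b₀) = 0 := by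
    rw [map_add, hz2, d2_d2, add_zero]
  have hz1A : OB9b_A C (z + C.d2 b₀) = 0 := by
    rw [map_add, OB9b_A_d2, hAb₀, hw2, add_self_ch]
  have hz1far : C.IsFar (E₁ ∪ E) (z + C.d2 b₀) := isFar_add C hE hdb₀far
  obtain ⟨b', hb'1, hb'2, hb'3, hb'4, hb'5⟩ := hE₁ _ hz1deg hz1d hz1A
    (isFar_mono C Finset.subset_union_left hz1far) (fun p hp => by
      have := hz1deg p hp
      omega)
  have e : z + C.d2 (b₀ + b') = z + C.d2 b₀ + C.d2 b' := by rw [map_add, add_assoc]
  refine ⟨b₀ + b', isDeg2_add C hb₀deg hb'1,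
    isFar_add C (isFar_mono C Finset.subset_union_right hb₀far) hb'2, ?_, ?_, ?_⟩
  · rw [e]; exact hb'3
  · rw [e]; exact hb'5
  · rw [e]
    intro x
    have hdeg2 : C.IsDeg2 n (z + C.d2 b₀ + C.d2 b') := isDeg2_add C hz1deg (isDeg2_d2 C hb'1)
    have hd2' : C.d2 (z + C.d2 b₀ + C.d2 b') = 0 := by
      rw [map_add, hz1d, d2_d2, add_zero]
    by_cases hx : C.deg x = 0
    · have h1 := OB9b_top C hdeg2 hd2' hb'4 (fun p hp => (hb'5 p hp).le) hx
      rwa [Nat.sub_zero] at h1
    · have h1 : slice (z + C.d2 b₀ + C.d2 b') x = 0 := by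
        ext y
        by_contra hne
        exact hx (hb'5 _ (OB9b_sup C hne))
      rw [h1]
      exact ⟨isDeg_zero C _, map_zero _, map_zero _⟩

end Ob

end OS
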