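import Mathlib
import Pool.Agent.Lib.MP_8fe54c_gt.ObDefs
import Pool.Agent.Lib.MP_8fe54c_gt.ObCross
import Pool.Agent.Lib.MP_8fe54c_gt.ObSlice
import Pool.Agent.Lib.MP_8fe54c_gt.ObAvoid
import Pool.Agent.Lib.MP_8fe54c_gt.ObFill
import Pool.Agent.Lib.MP_8fe54c_gt.ObFilter

/-!
# Coarse obstructors: far cycles bound; towers for groups acyclic at infinity (OB9c)
-/

namespace OS

namespace Ob

open Finsupp

universe u v w u' v'

section OB9

variable {K : Type v} [Group K] (C : Cx.{u, v} K)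

theorem far_acyc (hC : C.Acyc) {n : ℕ} (h : ∀ i ≤ n + 1, C.CoZero i) (E : Finset C.X) :
    ∃ E' : Finset C.X, ∀ z, C.IsCyc2 n z → C.IsFar E' z →
      ∃ b, C.IsDeg2 (n + 1) b ∧ C.IsFar E b ∧ C.d2 b = z := by
  obtain ⟨E₁, hE₁, h1⟩ := fill_slices C n (avoid C hC (h (n + 1) le_rfl)) 0 E
  obtain ⟨E', h2⟩ := far_filter C hC (fun i hi => h i (Nat.le_succ_of_le hi)) E₁
  refine ⟨E', fun z hz hfar => ?_⟩
  obtain ⟨b₀, hb1, hb2, hb3, hb4, hb5⟩ := h2 z hz hfar
  obtain ⟨b₁, hc1, hc2, -, -, hc3⟩ := h1 (z + C.d2 b₀) hb3 hb4 hb5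
  have h3 : z + C.d2 b₀ + C.d2 b₁ = 0 := by
    by_contra hne
    obtain ⟨p, hp⟩ := Finsupp.support_nonempty_iff.mpr hne
    have := hc3 p hp
    omega
  refine ⟨b₀ + b₁, isDeg2_add C hb1 (by rwa [zero_add] at hc1),
    isFar_add C (isFar_mono C hE₁ hb2) hc2, ?_⟩
  rw [map_add]
  have h4 : C.d2 b₀ + C.d2 b₁ = (z + C.d2 b₀ + C.d2 b₁) + z := by
    have := add_self_ch z
    calc C.d2 b₀ + C.d2 b₁ = (z + z) + (C.d2 b₀ + C.d2 b₁) := by rw [this, zero_add]
      _ = _ := by abel
  rw [h4, h3, zero_add]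

/-- chains of pairs of total degree zero are cycles -/
theorem d2_of_isDeg2_zero {z : Ch (C.X × C.X)} (hz : C.IsDeg2 0 z) : C.d2 z = 0 := by
  have h : C.d2 z = ∑ p ∈ z.support, z p • C.bd2 p := rfl
  rw [h]
  refine Finset.sum_eq_zero fun p hp => ?_
  have h1 := hz p hp
  rw [Cx.bd2, bd_of_deg C (by omega : C.deg p.1 = 0), bd_of_deg C (by omega : C.deg p.2 = 0),
    map_zero, map_zero, add_zero, smul_zero]

/-- the augmentation of a chain of pairs of positive degree vanishes -/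
theorem aug2_of_isDeg2 {n : ℕ} (hn : n ≠ 0) {z : Ch (C.X × C.X)} (hz : C.IsDeg2 n z) :
    C.aug2 z = 0 := by
  have h : C.aug2 z = ∑ p ∈ z.support, z p • (C.eps p.1 * C.eps p.2) := rfl
  rw [h]
  refine Finset.sum_eq_zero fun p hp => ?_
  have h1 := hz p hp
  by_cases h2 : C.deg p.1 = 0
  · rw [C.eps_deg p.2 (by omega), mul_zero, smul_zero]
  · rw [C.eps_deg p.1 h2, zero_mul, smul_zero]

theorem sw_single {X : Type*} (x y : X) : sw (single (x, y) (1 : ZMod 2)) = single (y, x) 1 :=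
  mp_single _ _ _

theorem isDeg2_single {n : ℕ} {x y : C.X} (h : C.deg x + C.deg y = n) :
    C.IsDeg2 n (single (x, y) 1) := by
  intro p hp
  rw [eq_of_mem_support_single hp]
  exact h

/-- the chain `c + sw c` is symmetric -/
theorem sym_add_sw {X : Type*} (c : Ch (X × X)) : (c + sw c) + sw (c + sw c) = 0 := by
  rw [map_add, sw_sw]
  have := add_self_ch (c + sw c)
  calc c + sw c + (sw c + c) = c + sw c + (c + sw c) := by abel
    _ = 0 := this

/-- the partial towers -/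
theorem OB9c_tow (hC : C.Acyc) {x₀ : C.X} (hx : C.deg x₀ = 0) (hx' : C.eps x₀ = 1) :
    ∀ m : ℕ, (∀ i < m + 1, C.CoZero i) → ∀ E : Finset C.X,
    ∃ t k : ℕ → Ch (C.X × C.X),
      (∀ i < m + 1, C.IsDeg2 i (t i) ∧ C.IsFar E (t i) ∧ C.IsDeg2 (i + 1) (k i)) ∧
      C.d2 (k 0) = t 0 + single (x₀, x₀) 1 ∧
      ∀ i, i + 1 < m + 1 → C.d2 (t (i + 1)) = t i + sw (t i) ∧
        C.d2 (k (i + 1)) = t (i + 1) + (k i + sw (k i)) := by
  intro m
  induction m with
  | zero =>
    intro h E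
    obtain ⟨s, hs1, hs2, hs3⟩ := exists_far_point C hC (h 0 Nat.one_pos)
      (finite_not_far C E x₀).toFinset
    have hfar : Far K (E : Set C.X) (x₀, s) := by
      by_contra hn
      exact hs3 ((finite_not_far C E x₀).mem_toFinset.mpr hn)
    have hdeg : C.IsDeg2 0 (single (x₀, s) (1 : ZMod 2)) := isDeg2_single C (by omega)
    have hdeg' : C.IsDeg2 0 (single (x₀, x₀) (1 : ZMod 2)) := isDeg2_single C (by omega)
    have hcyc : C.IsCyc2 0 (single (x₀, s) 1 + single (x₀, x₀) 1) := by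
      refine ⟨isDeg2_add C hdeg hdeg', d2_of_isDeg2_zero C (isDeg2_add C hdeg hdeg'), ?_⟩
      rw [map_add, aug2_single, aug2_single]
      simp only [hx', hs2, mul_one]
      exact CharTwo.add_self_eq_zero 1
    obtain ⟨k₀, hk1, hk2⟩ := acyc2 C hC hcyc
    refine ⟨fun _ => single (x₀, s) 1, fun _ => k₀, ?_, hk2, ?_⟩
    · intro i hi
      obtain rfl : i = 0 := by omega
      refine ⟨hdeg, ?_, hk1⟩
      intro p hp
      rw [eq_of_mem_support_single hp]
      exact hfar
    · intro i hi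
      omega
  | succ m ih =>
    intro h E
    obtain ⟨E₁, hE₁⟩ := far_acyc C hC (n := m) (fun i hi => h i (by omega)) E
    classical
    obtain ⟨t, k, h1, h2, h3⟩ := ih (fun i hi => h i (by omega)) (E ∪ E₁)
    obtain ⟨ht1, ht2, hk1⟩ := h1 m (Nat.lt_succ_self m)
    -- the next level of the tower
    have hdt : C.d2 (t m) + sw (C.d2 (t m)) = 0 := by
      rcases Nat.eq_zero_or_pos m with hm | hm
      · subst hm
        rw [d2_of_isDeg2_zero C ht1, map_zero, add_zero]
      · obtain ⟨j, rfl⟩ : ∃ j, m = j + 1 := ⟨m - 1, by omega⟩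
        rw [(h3 j (by omega)).1]
        exact sym_add_sw _
    have hcyc : C.IsCyc2 m (t m + sw (t m)) := by
      refine ⟨isDeg2_add C ht1 (isDeg2_sw C ht1), ?_, ?_⟩
      · rw [map_add, d2_sw, hdt]
      · rw [map_add, aug2_sw]
        exact CharTwo.add_self_eq_zero _
    obtain ⟨t', ht'1, ht'2, ht'3⟩ := hE₁ _ hcyc
      (isFar_add C (isFar_mono C Finset.subset_union_right ht2)
        (isFar_sw C (isFar_mono C Finset.subset_union_right ht2)))
    -- the next cone
    have hdk : C.d2 (k m) + sw (C.d2 (k m)) = t m + sw (t m) := by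
      rcases Nat.eq_zero_or_pos m with hm | hm
      · subst hm
        rw [h2, map_add, sw_single]
        have := add_self_ch (single (x₀, x₀) (1 : ZMod 2))
        calc t 0 + single (x₀, x₀) 1 + (sw (t 0) + single (x₀, x₀) 1) =
            t 0 + sw (t 0) + (single (x₀, x₀) 1 + single (x₀, x₀) 1) := by abel
          _ = _ := by rw [this, add_zero]
      · obtain ⟨j, rfl⟩ : ∃ j, m = j + 1 := ⟨m - 1, by omega⟩
        rw [(h3 j (by omega)).2, map_add]
        have := sym_add_sw (k j)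
        calc t (j + 1) + (k j + sw (k j)) + (sw (t (j + 1)) + sw (k j + sw (k j))) =
            t (j + 1) + sw (t (j + 1)) + ((k j + sw (k j)) + sw (k j + sw (k j))) := by abel
          _ = _ := by rw [this, add_zero]
    have hcyc' : C.IsCyc2 (m + 1) (t' + (k m + sw (k m))) := by
      have hdg : C.IsDeg2 (m + 1) (t' + (k m + sw (k m))) :=
        isDeg2_add C ht'1 (isDeg2_add C hk1 (isDeg2_sw C hk1))
      refine ⟨hdg, ?_, aug2_of_isDeg2 C (Nat.succ_ne_zero m) hdg⟩
      rw [map_add, map_add, d2_sw, ht'3, hdk, add_self_ch]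
    obtain ⟨k', hk'1, hk'2⟩ := acyc2 C hC hcyc'
    refine ⟨fun i => if i < m + 1 then t i else t', fun i => if i < m + 1 then k i else k',
      ?_, ?_, ?_⟩
    · intro i hi
      by_cases hi' : i < m + 1
      · simp only [if_pos hi']
        obtain ⟨a1, a2, a3⟩ := h1 i hi'
        exact ⟨a1, isFar_mono C Finset.subset_union_left a2, a3⟩
      · simp only [if_neg hi']
        obtain rfl : i = m + 1 := by omega
        exact ⟨ht'1, ht'2, hk'1⟩
    · simp only [if_pos (Nat.succ_pos m)]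
      exact h2
    · intro i hi
      have hi0 : i < m + 1 := by omega
      simp only [if_pos hi0]
      by_cases hi' : i + 1 < m + 1
      · simp only [if_pos hi']
        exact h3 i hi'
      · simp only [if_neg hi']
        obtain rfl : i = m := by omega
        exact ⟨ht'3, hk'2⟩

/-- towers for groups which are acyclic at infinity -/
theorem tow_of_co (hC : C.Acyc) {m : ℕ} (h : ∀ i < m, C.CoZero i) : Tow C m := by
  obtain ⟨x₀, hx'⟩ := hC.1
  have hx := deg_of_eps C hx'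
  refine ⟨x₀, hx, hx', fun E => ?_⟩
  rcases Nat.eq_zero_or_pos m with hm | hm
  · subst hm
    exact ⟨fun _ => 0, fun _ => 0, fun i hi => absurd hi (Nat.not_lt_zero i),
      fun h => absurd h (lt_irrefl 0), fun i hi => absurd hi (Nat.not_lt_zero _)⟩
  · obtain ⟨j, rfl⟩ : ∃ j, m = j + 1 := ⟨m - 1, by omega⟩
    obtain ⟨t, k, h1, h2, h3⟩ := OB9c_tow C hC hx hx' j h E
    exact ⟨t, k, h1, fun _ => h2, h3⟩

end OB9

end Ob

end OS
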