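import Mathlib
import Pool.Agent.Lib.MP_8fe54c_gt.ObCross

/-!
# Coarse obstructors: the product of towers (OB2)
-/

namespace OS

namespace Ob

open Finsupp

universe u v w u' v'

section

variable {K : Type v} [Group K] {K' : Type v'} [Group K'] (C : Cx.{u, v} K) (D : Cx.{u', v'} K')

theorem OB2_deg {n m : ℕ} {c : Ch (C.X × C.X)} {e : Ch (D.X × D.X)} (hc : C.IsDeg2 n c)
    (he : D.IsDeg2 m e) : (C.prod D).IsDeg2 (n + m) (pc c e) := by
  intro p hp
  obtain ⟨h1, h2⟩ := mem_support_pc hp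
  have h3 := hc _ h1
  have h4 := he _ h2
  simp only at h3 h4
  show (C.deg p.1.1 + D.deg p.1.2) + (C.deg p.2.1 + D.deg p.2.2) = n + m
  omega

theorem OB2_far_left {E : Finset (C.prod D).X} {E₁ : Finset C.X} (hE : ∀ p ∈ E, p.1 ∈ E₁)
    {c : Ch (C.X × C.X)} (hc : C.IsFar E₁ c) (e : Ch (D.X × D.X)) :
    (C.prod D).IsFar E (pc c e) := by
  intro p hp g h1 h2
  obtain ⟨h3, -⟩ := mem_support_pc hp
  exact hc _ h3 g.1 (hE _ h1) (hE _ h2)

theorem OB2_far_right {E : Finset (C.prod D).X} {E₂ : Finset D.X} (hE : ∀ p ∈ E, p.2 ∈ E₂)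
    {e : Ch (D.X × D.X)} (he : D.IsFar E₂ e) (c : Ch (C.X × C.X)) :
    (C.prod D).IsFar E (pc c e) := by
  intro p hp g h1 h2
  obtain ⟨-, h3⟩ := mem_support_pc hp
  exact he _ h3 g.2 (hE _ h1) (hE _ h2)

theorem OB2_two {X : Type*} (a b : Ch X) : a + b + b = a := by
  rw [add_assoc, add_self_ch, add_zero]

end

theorem tow_prod {K : Type v} [Group K] {K' : Type v'} [Group K'] (C : Cx.{u, v} K)
    (D : Cx.{u', v'} K') {a b : ℕ} (hC : Tow C a) (hD : Tow D b) : Tow (C.prod D) (a + b) := by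
  classical
  obtain ⟨x₀, hx1, hx2, hC⟩ := hC
  obtain ⟨y₀, hy1, hy2, hD⟩ := hD
  refine ⟨((x₀, y₀) : C.X × D.X), ?_, ?_, fun E => ?_⟩
  · show C.deg x₀ + D.deg y₀ = 0
    rw [hx1, hy1]
  · show C.eps x₀ * D.eps y₀ = 1
    rw [hx2, hy2, mul_one]
  obtain ⟨t, k, ht, hk0, htk⟩ := hC (Finset.image Prod.fst E)
  obtain ⟨s, l, hs, hl0, hsl⟩ := hD (Finset.image Prod.snd E)
  have hE1 : ∀ p ∈ E, p.1 ∈ Finset.image Prod.fst E := fun p hp => Finset.mem_image_of_mem _ hp
  have hE2 : ∀ p ∈ E, p.2 ∈ Finset.image Prod.snd E := fun p hp => Finset.mem_image_of_mem _ hp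
  -- the centers
  set zA : Ch (C.X × C.X) := single (x₀, x₀) 1 with hzA
  set zB : Ch (D.X × D.X) := single (y₀, y₀) 1 with hzB
  have swA : sw zA = zA := mp_single _ _ _
  have swB : sw zB = zB := mp_single _ _ _
  have bd0 : ∀ (C : Cx.{u, v} K) (x : C.X), C.deg x = 0 → C.bd x = 0 := by
    intro C x hx
    rw [← Finsupp.support_eq_empty, Finset.eq_empty_iff_forall_notMem]
    intro y hy
    have := C.bd_deg x y hy
    omega
  have bd0' : ∀ (C : Cx.{u', v'} K') (x : C.X), C.deg x = 0 → C.bd x = 0 := by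
    intro C x hx
    rw [← Finsupp.support_eq_empty, Finset.eq_empty_iff_forall_notMem]
    intro y hy
    have := C.bd_deg x y hy
    omega
  have dA : C.d2 zA = 0 := by
    rw [hzA, d2_single, bd2_mk, bd0 C x₀ hx1, cr_zero_left, cr_zero_right, add_zero]
  have dB : D.d2 zB = 0 := by
    rw [hzB, d2_single, bd2_mk, bd0' D y₀ hy1, cr_zero_left, cr_zero_right, add_zero]
  have degA : C.IsDeg2 0 zA := by
    intro p hp
    rw [hzA] at hp
    have := Finsupp.support_single_subset hp
    rw [Finset.mem_singleton] at this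
    subst this
    simp only [hx1]
  have degB : D.IsDeg2 0 zB := by
    intro p hp
    rw [hzB] at hp
    have := Finsupp.support_single_subset hp
    rw [Finset.mem_singleton] at this
    subst this
    simp only [hy1]
  have hz : single (((x₀, y₀) : C.X × D.X), ((x₀, y₀) : C.X × D.X)) (1 : ZMod 2) = pc zA zB :=
    (pc_single (x₀, x₀) (y₀, y₀)).symm
  -- the data S and K
  obtain ⟨S, Q, hS1, hS2, hS3, hS4, hQ1, hQ2, hQ3, hQa, hQb⟩ :
      ∃ S Q : Ch (C.X × C.X), sw S = S ∧ C.d2 S = 0 ∧ C.IsFar (Finset.image Prod.fst E) S ∧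
        (∀ n, n + 1 = a → C.IsDeg2 n S) ∧ sw Q = Q ∧ C.d2 Q = S ∧ C.IsDeg2 a Q ∧
        (∀ n, n + 1 = a → S = t n + sw (t n) ∧ Q = k n + sw (k n)) ∧
        (a = 0 → S = 0 ∧ Q = zA) := by
    rcases Nat.eq_zero_or_pos a with ha | ha
    · refine ⟨0, zA, map_zero _, map_zero _, isFar_zero C _, fun n hn => by omega, swA, dA, ?_,
        fun n hn => by omega, fun _ => ⟨rfl, rfl⟩⟩
      rw [ha]
      exact degA
    · obtain ⟨n, rfl⟩ : ∃ n, a = n + 1 := ⟨a - 1, by omega⟩
      obtain ⟨h1, h2, h3⟩ := ht n (by omega)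
      have hd : C.d2 (t n + sw (t n)) = 0 := by
        rw [map_add, d2_sw]
        rcases Nat.eq_zero_or_pos n with h0 | h0
        · subst h0
          have h4 : C.d2 (t 0) = 0 := by
            have h5 := congrArg C.d2 (hk0 (by omega))
            rw [d2_d2, map_add, dA, add_zero] at h5
            exact h5.symm
          rw [h4, map_zero, add_zero]
        · obtain ⟨j, rfl⟩ : ∃ j, n = j + 1 := ⟨n - 1, by omega⟩
          rw [(htk j (by omega)).1, map_add, sw_sw, add_comm (sw (t j)), add_self_ch]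
      refine ⟨t n + sw (t n), k n + sw (k n), ?_, hd, isFar_add C h2 (isFar_sw C h2), ?_, ?_, ?_,
        isDeg2_add C h3 (isDeg2_sw C h3), ?_, fun h => by omega⟩
      · rw [map_add, sw_sw, add_comm]
      · intro n' hn'
        obtain rfl : n' = n := by omega
        exact isDeg2_add C h1 (isDeg2_sw C h1)
      · rw [map_add, sw_sw, add_comm]
      · rw [map_add, d2_sw]
        rcases Nat.eq_zero_or_pos n with h0 | h0
        · subst h0
          rw [hk0 (by omega), map_add, swA]
          rw [add_add_add_comm, add_self_ch, add_zero]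
        · obtain ⟨j, rfl⟩ : ∃ j, n = j + 1 := ⟨n - 1, by omega⟩
          rw [(htk j (by omega)).2, map_add, map_add, sw_sw, add_comm (sw (k j)),
            add_add_add_comm, add_self_ch, add_zero]
      · intro n' hn'
        obtain rfl : n' = n := by omega
        exact ⟨rfl, rfl⟩
  -- the towers
  let w : ℕ → Ch ((C.X × D.X) × (C.X × D.X)) := fun n =>
    if n < a then pc (t n) zB else pc S (l (n - a)) + pc Q (s (n - a))
  let κ : ℕ → Ch ((C.X × D.X) × (C.X × D.X)) := fun n =>
    if n < a then pc (k n) zB else pc Q (l (n - a))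
  have w1 : ∀ n, n < a → w n = pc (t n) zB := fun n hn => if_pos hn
  have w2 : ∀ j, w (a + j) = pc S (l j) + pc Q (s j) := fun j => by
    show (if a + j < a then _ else _) = _
    rw [if_neg (by omega), Nat.add_sub_cancel_left]
  have κ1 : ∀ n, n < a → κ n = pc (k n) zB := fun n hn => if_pos hn
  have κ2 : ∀ j, κ (a + j) = pc Q (l j) := fun j => by
    show (if a + j < a then _ else _) = _
    rw [if_neg (by omega), Nat.add_sub_cancel_left]
  have dp : ∀ (c : Ch (C.X × C.X)) (e : Ch (D.X × D.X)),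
      (C.prod D).d2 (pc c e) = pc (C.d2 c) e + pc c (D.d2 e) := d2_pc C D
  have da : ∀ (c e : Ch ((C.X × D.X) × (C.X × D.X))),
      (C.prod D).d2 (c + e) = (C.prod D).d2 c + (C.prod D).d2 e := fun c e =>
    map_add (C.prod D).d2 c e
  have pzl : ∀ e : Ch (D.X × D.X), pc (0 : Ch (C.X × C.X)) e = 0 := pc_zero_left
  have pzr : ∀ c : Ch (C.X × C.X), pc c (0 : Ch (D.X × D.X)) = 0 := pc_zero_right
  refine ⟨w, κ, ?_, ?_, ?_⟩
  · intro i hi
    rcases Nat.lt_or_ge i a with h | h
    · obtain ⟨h1, h2, h3⟩ := ht i h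
      rw [w1 i h, κ1 i h]
      exact ⟨OB2_deg C D (n := i) (m := 0) h1 degB, OB2_far_left C D hE1 h2 _,
        OB2_deg C D (n := i + 1) (m := 0) h3 degB⟩
    · obtain ⟨j, rfl⟩ : ∃ j, i = a + j := ⟨i - a, by omega⟩
      obtain ⟨h1, h2, h3⟩ := hs j (by omega)
      rw [w2 j, κ2 j]
      refine ⟨?_, ?_, ?_⟩
      · refine isDeg2_add (C.prod D) ?_ (OB2_deg C D hQ3 h1)
        rcases Nat.eq_zero_or_pos a with ha | ha
        · rw [(hQb ha).1]
          rw [pzl]
          exact isDeg2_zero _ _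
        · obtain ⟨n, rfl⟩ : ∃ n, a = n + 1 := ⟨a - 1, by omega⟩
          have h4 := OB2_deg C D (hS4 n rfl) h3
          have h5 : n + (j + 1) = n + 1 + j := by omega
          rwa [h5] at h4
      · exact isFar_add (C.prod D) (OB2_far_left C D hE1 hS3 _) (OB2_far_right C D hE2 h2 _)
      · have h4 := OB2_deg C D hQ3 h3
        exact h4
  · intro hab
    show (C.prod D).d2 (κ 0) = w 0 + single (((x₀, y₀) : C.X × D.X), ((x₀, y₀) : C.X × D.X)) 1
    rw [hz]
    rcases Nat.eq_zero_or_pos a with ha | ha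
    · have e1 : κ 0 = pc Q (l 0) := by
        have := κ2 0
        rwa [ha] at this
      have e2 : w 0 = pc S (l 0) + pc Q (s 0) := by
        have := w2 0
        rwa [ha] at this
      obtain ⟨h1, h2⟩ := hQb ha
      rw [e1, e2, dp, hQ2, hl0 (by omega), pc_add_right, h1, h2, pzl, zero_add, zero_add]
      rfl
    · rw [κ1 0 ha, w1 0 ha, dp, dB, hk0 ha, pc_add_left, pzr, add_zero]
      rfl
  · intro i hi
    show (C.prod D).d2 (w (i + 1)) = w i + sw (w i) ∧
      (C.prod D).d2 (κ (i + 1)) = w (i + 1) + (κ i + sw (κ i))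
    rcases Nat.lt_or_ge (i + 1) a with h | h
    · obtain ⟨h1, h2⟩ := htk i h
      rw [w1 _ h, w1 i (by omega), κ1 _ h, κ1 i (by omega), dp, dp, dB, h1, h2, sw_pc, sw_pc, swB,
        pzr, pzr, add_zero, add_zero]
      exact ⟨pc_add_left _ _ _,
        (pc_add_left _ _ _).trans (congrArg (pc (t (i + 1)) zB + ·) (pc_add_left _ _ _))⟩
    · rcases Nat.eq_or_lt_of_le h with h | h
      · -- i + 1 = a
        obtain ⟨h1, h2⟩ := hQa i h.symm
        have e1 : w (i + 1) = pc S (l 0) + pc Q (s 0) := by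
          have := w2 0
          rwa [h, add_zero] at this
        have e2 : κ (i + 1) = pc Q (l 0) := by
          have := κ2 0
          rwa [h, add_zero] at this
        have hds : D.d2 (s 0) = 0 := by
          have h5 := congrArg D.d2 (hl0 (by omega))
          rw [d2_d2, map_add, dB, add_zero] at h5
          exact h5.symm
        rw [e1, e2, w1 i (by omega), κ1 i (by omega), da, dp, dp, dp, hS2, hQ2, hl0 (by omega), hds,
          sw_pc, sw_pc, swB, pzl, pzr, zero_add, add_zero, ← pc_add_left, ← pc_add_left, ← h1, ← h2]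
        simp only [pc_add_right]
        constructor
        · rw [add_comm (pc S (s 0))]
          exact OB2_two (pc S zB) (pc S (s 0))
        · rw [← add_assoc]
      · obtain ⟨j, rfl⟩ : ∃ j, i = a + j := ⟨i - a, by omega⟩
        obtain ⟨h1, h2⟩ := hsl j (by omega)
        have e1 : w (a + j + 1) = pc S (l (j + 1)) + pc Q (s (j + 1)) := w2 (j + 1)
        have e2 : κ (a + j + 1) = pc Q (l (j + 1)) := κ2 (j + 1)
        rw [e1, e2, w2 j, κ2 j, da, dp, dp, dp, hS2, hQ2, h1, h2, map_add, sw_pc, sw_pc, sw_pc, hS1,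
          hQ1, pzl, zero_add]
        simp only [pc_add_right]
        constructor
        · have key : ∀ p q r x y : Ch ((C.X × D.X) × (C.X × D.X)),
              p + (q + r) + (p + (x + y)) = q + x + (r + y) := by
            intro p q r x y
            rw [add_add_add_comm, add_self_ch, zero_add, add_add_add_comm]
          exact key _ _ _ _ _
        · rw [← add_assoc]

end Ob

end OS
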