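import Mathlib
import Pool.Agent.Lib.MP_8fe54c_gt.ObTow
import Pool.Agent.Lib.MP_8fe54c_gt.KFlag

/-!
# Coarse obstructors: formal properties (OB3)
-/

namespace OS

namespace Ob

open Finsupp

universe u v w u' v'

/-- the complex of a point, for the trivial group -/
noncomputable def OB3_pt : Cx.{u, u} PUnit.{u + 1} where
  X := PUnit.{u + 1}
  act := inferInstance
  deg _ := 0
  bd _ := 0
  eps _ := 1
  deg_smul _ _ := rfl
  bd_deg x y hy := by simp at hy
  eps_deg x h := absurd rfl h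
  bd_smul g x := (map_zero _).symm
  eps_smul _ _ := rfl
  bd_bd x := map_zero _
  eps_bd x := map_zero _
  free g x _ := Subsingleton.elim _ _
  fin n := ⟨{PUnit.unit}, fun x _ => ⟨1, PUnit.unit, by simp, Subsingleton.elim _ _⟩⟩

theorem obs_zero (Γ : Type u) [Group Γ] : Obs Γ 0 := by
  refine ⟨PUnit.{u + 1}, inferInstance, 1, fun a b _ => Subsingleton.elim a b, OB3_pt,
    PUnit.unit, rfl, rfl, fun E => ⟨fun _ => 0, fun _ => 0, ?_, ?_, ?_⟩⟩
  · intro i hi
    omega
  · intro h
    omega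
  · intro i hi
    omega

theorem OB3_tow_le {K : Type v} [Group K] {C : Cx.{u, v} K} {a b : ℕ} (h : Tow C b) (hab : a ≤ b) :
    Tow C a := by
  obtain ⟨x₀, h1, h2, h⟩ := h
  refine ⟨x₀, h1, h2, fun E => ?_⟩
  obtain ⟨t, k, h3, h4, h5⟩ := h E
  exact ⟨t, k, fun i hi => h3 i (by omega), fun h => h4 (by omega), fun i hi => h5 i (by omega)⟩

section OB3

variable {Γ Γ' : Type u} [Group Γ] [Group Γ']

theorem obs_le {a b : ℕ} (h : Obs Γ b) (hab : a ≤ b) : Obs Γ a := by
  obtain ⟨K, _, f, hf, C, hC⟩ := h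
  exact ⟨K, inferInstance, f, hf, C, OB3_tow_le hC hab⟩

theorem obs_map (f : Γ →* Γ') (hf : Function.Injective f) {m : ℕ} (h : Obs Γ m) : Obs Γ' m := by
  obtain ⟨K, _, g, hg, C, hC⟩ := h
  exact ⟨K, inferInstance, f.comp g, hf.comp hg, C, hC⟩

theorem obs_prod {a b : ℕ} (h : Obs Γ a) (h' : Obs Γ' b) : Obs (Γ × Γ') (a + b) := by
  obtain ⟨K, _, f, hf, C, hC⟩ := h
  obtain ⟨K', _, f', hf', C', hC'⟩ := h'
  refine ⟨K × K', inferInstance, f.prodMap f', ?_, C.prod C', tow_prod C C' hC hC'⟩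
  intro x y hxy
  exact Prod.ext (hf (congrArg Prod.fst hxy)) (hf' (congrArg Prod.snd hxy))

theorem obs_mul (A A' : Subgroup Γ) (hc : ∀ a ∈ A, ∀ b ∈ A', Commute a b) (hA : A ⊓ A' = ⊥)
    {a b : ℕ} (h : Obs A a) (h' : Obs A' b) : Obs Γ (a + b) := by
  let F : A × A' →* Γ := MonoidHom.noncommCoprod A.subtype A'.subtype
    (fun a b => hc a a.2 b b.2)
  refine obs_map F ?_ (obs_prod h h')
  rw [injective_iff_map_eq_one]
  rintro ⟨a, b⟩ hab
  have h1 : (a : Γ) * b = 1 := hab
  have h2 : (a : Γ) = (b : Γ)⁻¹ := eq_inv_of_mul_eq_one_left h1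
  have h3 : (a : Γ) ∈ (⊥ : Subgroup Γ) := by
    rw [← hA]
    exact Subgroup.mem_inf.mpr ⟨a.2, h2 ▸ A'.inv_mem b.2⟩
  rw [Subgroup.mem_bot] at h3
  have h4 : (b : Γ) = 1 := by
    rw [h3, one_mul] at h1
    exact h1
  exact Prod.ext (Subtype.ext h3) (Subtype.ext h4)

theorem obs_pi {ι : Type u} [Fintype ι] (G : ι → Type u) [∀ i, Group (G i)] (e : ι → ℕ)
    (h : ∀ i, Obs (G i) (e i)) : Obs (∀ i, G i) (∑ i, e i) := by
  classical
  have key : ∀ s : Finset ι, Obs (GP.K21_supp G s) (∑ i ∈ s, e i) := by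
    intro s
    induction s using Finset.induction_on with
    | empty => simpa using obs_zero _
    | insert i s hi ih =>
      rw [Finset.sum_insert hi]
      have hcomm : ∀ (g : G i) (f : GP.K21_supp G s),
          Commute (MonoidHom.mulSingle G i g) ((GP.K21_supp G s).subtype f) := by
        intro g f
        funext j
        by_cases hj : j = i
        · subst hj
          have : (f : ∀ i, G i) j = 1 := f.2 j hi
          simp [this]
        · simp [hj]
      let F : G i × GP.K21_supp G s →* ∀ i, G i :=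
        MonoidHom.noncommCoprod (MonoidHom.mulSingle G i) (GP.K21_supp G s).subtype hcomm
      have hF : ∀ (g : G i) (f : GP.K21_supp G s) (j : ι),
          F (g, f) j = Pi.mulSingle (M := G) i g j * (f : ∀ i, G i) j := fun _ _ _ => rfl
      have hmem : ∀ p, F p ∈ GP.K21_supp G (insert i s) := by
        rintro ⟨g, f⟩ j hj
        rw [hF]
        have h1 : j ≠ i := fun h => hj (h ▸ Finset.mem_insert_self _ _)
        have h2 : (f : ∀ i, G i) j = 1 := f.2 j (fun h => hj (Finset.mem_insert_of_mem h))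
        rw [Pi.mulSingle_eq_of_ne h1, h2, one_mul]
      refine obs_map (F.codRestrict (GP.K21_supp G (insert i s)) hmem) ?_ (obs_prod (h i) ih)
      rw [injective_iff_map_eq_one]
      rintro ⟨g, f⟩ hgf
      have h1 : ∀ j, Pi.mulSingle (M := G) i g j * (f : ∀ i, G i) j = 1 := by
        intro j
        rw [← hF]
        exact congrFun (congrArg Subtype.val hgf) j
      have h2 : (f : ∀ i, G i) i = 1 := f.2 i hi
      have h3 : g = 1 := by
        have := h1 i
        rwa [Pi.mulSingle_eq_same, h2, mul_one] at this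
      refine Prod.ext h3 (Subtype.ext (funext fun j => ?_))
      have := h1 j
      rw [h3, Pi.mulSingle_one, Pi.one_apply, one_mul] at this
      exact this
  exact obs_map (GP.K21_supp G Finset.univ).subtype (Subgroup.subtype_injective _)
    (key Finset.univ)

/-- restriction of the group to a subgroup of finite index -/
noncomputable def OB3_res {K : Type v} [Group K] (C : Cx.{u, v} K) (H : Subgroup K)
    [H.FiniteIndex] : Cx.{u, v} H where
  X := C.X
  act := inferInstance
  deg := C.deg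
  bd := C.bd
  eps := C.eps
  deg_smul g x := C.deg_smul (g : K) x
  bd_deg := C.bd_deg
  eps_deg := C.eps_deg
  bd_smul g x := C.bd_smul (g : K) x
  eps_smul g x := C.eps_smul (g : K) x
  bd_bd := C.bd_bd
  eps_bd := C.eps_bd
  free g x h := Subtype.ext (C.free (g : K) x h)
  fin n := by
    classical
    obtain ⟨E, hE⟩ := C.fin n
    have hfin : Finite (K ⧸ H) := inferInstance
    have : Fintype (K ⧸ H) := Fintype.ofFinite _
    refine ⟨(Finset.univ : Finset (K ⧸ H)).biUnion fun q => E.image fun e => (q.out)⁻¹ • e, ?_⟩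
    intro x hx
    obtain ⟨g, e, he, rfl⟩ := hE x hx
    -- g⁻¹ = q.out * h
    obtain ⟨h, hh⟩ := QuotientGroup.mk_out_eq_mul H g⁻¹
    refine ⟨h, (((g⁻¹ : K) : K ⧸ H).out)⁻¹ • e, ?_, ?_⟩
    · rw [Finset.mem_biUnion]
      exact ⟨_, Finset.mem_univ _, Finset.mem_image_of_mem _ he⟩
    · show (h : K) • ((((g⁻¹ : K) : K ⧸ H).out)⁻¹ • e) = g • e
      rw [hh, ← mul_smul]
      congr 1
      group

theorem obs_finiteIndex (H : Subgroup Γ) [H.FiniteIndex] {m : ℕ} (h : Obs Γ m) : Obs H m := by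
  obtain ⟨K, _, f, hf, C, x₀, h1, h2, h3⟩ := h
  have hfi : (H.comap f).FiniteIndex := ⟨by
    rw [Subgroup.index_comap]
    exact (inferInstance : (H.subgroupOf f.range).FiniteIndex).index_ne_zero⟩
  refine ⟨H.comap f, inferInstance, (f.comp (H.comap f).subtype).codRestrict H fun x => x.2, ?_,
    OB3_res C (H.comap f), x₀, h1, h2, fun E => ?_⟩
  · intro a b hab
    exact Subtype.ext (hf (congrArg Subtype.val hab))
  · obtain ⟨t, k, h4, h5, h6⟩ := h3 E
    refine ⟨t, k, fun i hi => ?_, h5, h6⟩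
    obtain ⟨h7, h8, h9⟩ := h4 i hi
    exact ⟨h7, fun p hp g => h8 p hp (g : K), h9⟩

end OB3

end Ob

end OS
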