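import Mathlib
import Pool.Agent.Lib.MP_8fe54c_gt.ObDefs
import Pool.Agent.Lib.MP_8fe54c_gt.ObCross
import Pool.Agent.Lib.MP_8fe54c_gt.ObGrp
import Pool.Agent.Lib.MP_8fe54c_gt.GrpC
import Pool.Agent.Lib.MP_8fe54c_gt.CombMain
import Pool.Agent.Lib.MP_8fe54c_gt.KFlag
import Pool.Agent.Lib.MP_8fe54c_gt.ObCube

/-!
# Flag systems give coarse obstructors (OB4b)

For cliques `lam` of the deleted join and a large number `R` the chain `OB4_Out lam` (a product of
partial geometric series applied to the cubes) is far from the diagonal.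
-/

namespace OS

namespace Ob

open Finsupp GP

universe u v w u' v'

section ops

variable {V : Type*} [DecidableEq V] {Γ : Type*} [Group Γ] {X : Type*} [MulAction Γ X]

theorem OB4_ac_one (c : Ch (X × X)) : ac (1 : Γ × Γ) c = c := by
  have : (fun p : X × X => ((1 : Γ × Γ).1 • p.1, (1 : Γ × Γ).2 • p.2)) = fun p => p := by
    funext p
    simp
  rw [ac, this, mp_id]

theorem OB4_ac_ac (g h : Γ × Γ) (c : Ch (X × X)) : ac g (ac h c) = ac (g * h) c := by
  have : (fun p : X × X => ((g * h).1 • p.1, (g * h).2 • p.2)) =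
      fun p => (g.1 • (h.1 • p.1), g.2 • (h.2 • p.2)) := by
    funext p
    rw [Prod.fst_mul, Prod.snd_mul, mul_smul, mul_smul]
  rw [ac, ac, ac, this, mp_mp]

theorem OB4_ac_comm {g h : Γ × Γ} (h1 : Commute g.1 h.1) (h2 : Commute g.2 h.2)
    (c : Ch (X × X)) : ac g (ac h c) = ac h (ac g c) := by
  rw [OB4_ac_ac, OB4_ac_ac]
  congr 1
  exact congrArg ac (Prod.ext h1.eq h2.eq)

theorem OB4_sw_ac (g : Γ × Γ) (c : Ch (X × X)) : sw (ac g c) = ac (g.2, g.1) (sw c) := by
  rw [ac, ac, sw, mp_mp, mp_mp]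
  rfl

theorem OB4_mem_support_ac {g : Γ × Γ} {c : Ch (X × X)} {p : X × X} (h : p ∈ (ac g c).support) :
    ∃ q ∈ c.support, p = (g.1 • q.1, g.2 • q.2) := by
  obtain ⟨q, hq, rfl⟩ := mem_support_mp h
  exact ⟨q, hq, rfl⟩

theorem OB4_d2_ac {Γ : Type v} [Group Γ] (C : Cx.{u, v} Γ) (g : Γ × Γ) (c : Ch (C.X × C.X)) :
    C.d2 (ac g c) = ac g (C.d2 c) := by
  have h := hom_ext (f := C.d2 ∘ₗ ac g) (g := ac g ∘ₗ C.d2) (fun p => by
    obtain ⟨x, y⟩ := p
    rw [LinearMap.comp_apply, LinearMap.comp_apply, d2_single]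
    have h1 : ac g (single (x, y) (1 : ZMod 2)) = single (g.1 • x, g.2 • y) 1 := mp_single _ _ _
    rw [h1, d2_single, Cx.bd2, Cx.bd2, map_add, C.bd_smul, C.bd_smul, mp_mp, mp_mp, ac, mp_mp,
      mp_mp]) c
  exact h

variable (X) (a : V → Γ)

/-- the operator of a vertex -/
noncomputable def OB4_A (w : WV V) : Module.End (ZMod 2) (Ch (X × X)) := ac (gW a w)

/-- the partial geometric series -/
noncomputable def OB4_P (R : ℕ) (w : WV V) : Module.End (ZMod 2) (Ch (X × X)) :=
  ∑ i ∈ Finset.range R, (OB4_A X a w) ^ i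

/-- the product of the geometric series -/
noncomputable def OB4_PP (R : ℕ) (lam : Finset (WV V)) : Module.End (ZMod 2) (Ch (X × X)) :=
  (lam.toList.map (OB4_P X a R)).prod

variable {X a}

theorem OB4_A_comm {G : SimpleGraph V} (hcomm : ∀ u v, G.Adj u v → Commute (a u) (a v))
    {lam : Finset (WV V)} (hl : (XG G).IsClique (lam : Set (WV V))) {w w' : WV V}
    (hw : w ∈ lam) (hw' : w' ∈ lam) : Commute (OB4_A X a w) (OB4_A X a w') := by
  by_cases h : w = w'
  · rw [h]
  · obtain ⟨c1, c2⟩ := F1_gW_comm a G hcomm (hl (Finset.mem_coe.mpr hw) (Finset.mem_coe.mpr hw') h)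
    apply LinearMap.ext
    intro c
    exact OB4_ac_comm c1 c2 c

theorem OB4_P_comm {G : SimpleGraph V} (hcomm : ∀ u v, G.Adj u v → Commute (a u) (a v))
    {lam : Finset (WV V)} (hl : (XG G).IsClique (lam : Set (WV V))) (R : ℕ) {w w' : WV V}
    (hw : w ∈ lam) (hw' : w' ∈ lam) : Commute (OB4_P X a R w) (OB4_P X a R w') := by
  unfold OB4_P
  refine Commute.sum_left _ _ _ fun i _ => Commute.sum_right _ _ _ fun j _ => ?_
  exact (OB4_A_comm hcomm hl hw hw').pow_pow i j

theorem OB4_PP_perm {G : SimpleGraph V} (hcomm : ∀ u v, G.Adj u v → Commute (a u) (a v))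
    {lam : Finset (WV V)} (hl : (XG G).IsClique (lam : Set (WV V))) (R : ℕ)
    {L : List (WV V)} (hL : L.Perm lam.toList) :
    (L.map (OB4_P X a R)).prod = OB4_PP X a R lam := by
  unfold OB4_PP
  apply List.Perm.prod_eq' (hL.map _)
  rw [List.pairwise_map]
  apply List.pairwise_of_forall_mem_list
  intro x hx y hy
  exact OB4_P_comm hcomm hl R (by simpa using hL.mem_iff.mp hx) (by simpa using hL.mem_iff.mp hy)

theorem OB4_PP_erase {G : SimpleGraph V} (hcomm : ∀ u v, G.Adj u v → Commute (a u) (a v))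
    {lam : Finset (WV V)} (hl : (XG G).IsClique (lam : Set (WV V))) (R : ℕ) {w : WV V}
    (hw : w ∈ lam) : OB4_PP X a R lam = OB4_PP X a R (lam.erase w) * OB4_P X a R w := by
  have hperm : ((lam.erase w).toList ++ [w]).Perm lam.toList := by
    have h1 : (insert w (lam.erase w)).toList.Perm (w :: (lam.erase w).toList) :=
      Finset.toList_insert (Finset.notMem_erase w lam)
    rw [Finset.insert_erase hw] at h1
    exact (List.perm_append_singleton w _).trans h1.symm
  rw [← OB4_PP_perm hcomm hl R hperm]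
  simp [OB4_PP]

omit [DecidableEq V] in
theorem OB4_PP_empty (R : ℕ) : OB4_PP X a R ∅ = 1 := by
  simp [OB4_PP]

omit [DecidableEq V] in
/-- `P (1 + A) = 1 + A ^ R` -/
theorem OB4_telescope (R : ℕ) (w : WV V) (c : Ch (X × X)) :
    OB4_P X a R w (c + OB4_A X a w c) = c + (OB4_A X a w ^ R) c := by
  induction R with
  | zero =>
    simp only [OB4_P, Finset.range_zero, Finset.sum_empty, LinearMap.zero_apply, pow_zero,
      Module.End.one_apply]
    exact (add_self_ch _).symm
  | succ R ih =>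
    have h1 : OB4_P X a (R + 1) w = OB4_P X a R w + OB4_A X a w ^ R := by
      simp [OB4_P, Finset.sum_range_succ]
    have h2 := add_self_ch ((OB4_A X a w ^ R) c)
    rw [h1, LinearMap.add_apply, ih, map_add, pow_succ, Module.End.mul_apply]
    calc c + (OB4_A X a w ^ R) c + ((OB4_A X a w ^ R) c + (OB4_A X a w ^ R) (OB4_A X a w c))
        = c + ((OB4_A X a w ^ R) c + (OB4_A X a w ^ R) c) +
            (OB4_A X a w ^ R) (OB4_A X a w c) := by abel
      _ = _ := by rw [h2, add_zero]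

omit [DecidableEq V] in
theorem OB4_sw_A (w : WV V) (c : Ch (X × X)) :
    sw (OB4_A X a w c) = OB4_A X a (TW w) (sw c) := by
  unfold OB4_A
  rw [OB4_sw_ac, F1_gW_TW]

omit [DecidableEq V] in
theorem OB4_sw_pow (n : ℕ) (w : WV V) (c : Ch (X × X)) :
    sw ((OB4_A X a w ^ n) c) = (OB4_A X a (TW w) ^ n) (sw c) := by
  induction n generalizing c with
  | zero => rfl
  | succ n ih =>
    rw [pow_succ, pow_succ, Module.End.mul_apply, Module.End.mul_apply, ih, OB4_sw_A]

omit [DecidableEq V] in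
theorem OB4_sw_P (R : ℕ) (w : WV V) (c : Ch (X × X)) :
    sw (OB4_P X a R w c) = OB4_P X a R (TW w) (sw c) := by
  unfold OB4_P
  rw [LinearMap.sum_apply, LinearMap.sum_apply, map_sum]
  exact Finset.sum_congr rfl fun i _ => OB4_sw_pow i w c

omit [DecidableEq V] in
theorem OB4_sw_prod (R : ℕ) (L : List (WV V)) (c : Ch (X × X)) :
    sw ((L.map (OB4_P X a R)).prod c) = ((L.map TW).map (OB4_P X a R)).prod (sw c) := by
  induction L generalizing c with
  | nil => rfl
  | cons w L ih =>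
    rw [List.map_cons, List.map_cons, List.map_cons, List.prod_cons, List.prod_cons,
      Module.End.mul_apply, Module.End.mul_apply, OB4_sw_P, ih]

theorem OB4_sw_PP {G : SimpleGraph V} (hcomm : ∀ u v, G.Adj u v → Commute (a u) (a v))
    {lam : Finset (WV V)} (hl : (XG G).IsClique (lam : Set (WV V))) (R : ℕ) (c : Ch (X × X)) :
    sw (OB4_PP X a R lam c) = OB4_PP X a R (lam.image TW) (sw c) := by
  unfold OB4_PP
  rw [OB4_sw_prod]
  have hperm : (lam.toList.map TW).Perm (lam.image TW).toList := by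
    apply (List.perm_ext_iff_of_nodup _ (Finset.nodup_toList _)).mpr
    · intro x
      simp
    · exact (Finset.nodup_toList lam).map F1_TW_inj
  rw [OB4_PP_perm hcomm (F1_clique_image G hl) R hperm]
  rfl

/-! ### invariant submodules -/

omit [DecidableEq V] in
theorem OB4_inv_pow {N : Submodule (ZMod 2) (Ch (X × X))} {w : WV V}
    (hN : ∀ x ∈ N, OB4_A X a w x ∈ N) (i : ℕ) {x : Ch (X × X)} (hx : x ∈ N) :
    (OB4_A X a w ^ i) x ∈ N := by
  induction i generalizing x with
  | zero => simpa using hx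
  | succ i ih =>
    rw [pow_succ, Module.End.mul_apply]
    exact ih (hN x hx)

omit [DecidableEq V] in
theorem OB4_inv_P {N : Submodule (ZMod 2) (Ch (X × X))} {w : WV V}
    (hN : ∀ x ∈ N, OB4_A X a w x ∈ N) (R : ℕ) {x : Ch (X × X)} (hx : x ∈ N) :
    OB4_P X a R w x ∈ N := by
  unfold OB4_P
  rw [LinearMap.sum_apply]
  exact Submodule.sum_mem _ fun i _ => OB4_inv_pow hN i hx

omit [DecidableEq V] in
theorem OB4_inv_prod {N : Submodule (ZMod 2) (Ch (X × X))} (R : ℕ) (L : List (WV V))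
    (hN : ∀ w ∈ L, ∀ x ∈ N, OB4_A X a w x ∈ N) {x : Ch (X × X)} (hx : x ∈ N) :
    (L.map (OB4_P X a R)).prod x ∈ N := by
  induction L with
  | nil => simpa using hx
  | cons w L ih =>
    rw [List.map_cons, List.prod_cons, Module.End.mul_apply]
    exact OB4_inv_P (hN w List.mem_cons_self) R
      (ih fun u hu => hN u (List.mem_cons_of_mem _ hu))

omit [DecidableEq V] in
theorem OB4_inv_PP {N : Submodule (ZMod 2) (Ch (X × X))} (R : ℕ) (lam : Finset (WV V))
    (hN : ∀ w ∈ lam, ∀ x ∈ N, OB4_A X a w x ∈ N) {x : Ch (X × X)} (hx : x ∈ N) :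
    OB4_PP X a R lam x ∈ N :=
  OB4_inv_prod R _ (fun w hw => hN w (by simpa using hw)) hx

/-! ### words with many letters `w` -/

variable (a)

/-- translates of `c` by words in `lam` which contain `w` at least `n` times -/
noncomputable def OB4_M (lam : Finset (WV V)) (w : WV V) (c : Ch (X × X)) (n : ℕ) :
    Submodule (ZMod 2) (Ch (X × X)) :=
  Submodule.span (ZMod 2) {x | ∃ L : List (WV V), (∀ u ∈ L, u ∈ lam) ∧ n ≤ L.count w ∧
    x = ac (L.map (gW a)).prod c}

variable {a}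

omit [DecidableEq V] in
theorem OB4_ac_cons (u : WV V) (L : List (WV V)) (c : Ch (X × X)) :
    OB4_A X a u (ac (L.map (gW a)).prod c) = ac (((u :: L).map (gW a)).prod) c := by
  rw [OB4_A, OB4_ac_ac, List.map_cons, List.prod_cons]

theorem OB4_M_A {lam : Finset (WV V)} {w u : WV V} (hu : u ∈ lam) {c : Ch (X × X)} {n : ℕ}
    {x : Ch (X × X)} (hx : x ∈ OB4_M a lam w c n) : OB4_A X a u x ∈ OB4_M a lam w c n := by
  induction hx using Submodule.span_induction with
  | mem x hx =>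
    obtain ⟨L, h1, h2, rfl⟩ := hx
    apply Submodule.subset_span
    refine ⟨u :: L, ?_, h2.trans List.count_le_count_cons, OB4_ac_cons u L c⟩
    intro v hv
    rcases List.mem_cons.mp hv with rfl | hv
    · exact hu
    · exact h1 v hv
  | zero => rw [map_zero]; exact Submodule.zero_mem _
  | add x y _ _ hx hy => rw [map_add]; exact Submodule.add_mem _ hx hy
  | smul m x _ hx => rw [map_smul]; exact Submodule.smul_mem _ _ hx

theorem OB4_M_A' {lam : Finset (WV V)} {w : WV V} (hw : w ∈ lam) {c : Ch (X × X)} {n : ℕ}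
    {x : Ch (X × X)} (hx : x ∈ OB4_M a lam w c n) : OB4_A X a w x ∈ OB4_M a lam w c (n + 1) := by
  induction hx using Submodule.span_induction with
  | mem x hx =>
    obtain ⟨L, h1, h2, rfl⟩ := hx
    apply Submodule.subset_span
    refine ⟨w :: L, ?_, ?_, OB4_ac_cons w L c⟩
    · intro v hv
      rcases List.mem_cons.mp hv with rfl | hv
      · exact hw
      · exact h1 v hv
    · rw [List.count_cons_self]
      omega
  | zero => rw [map_zero]; exact Submodule.zero_mem _
  | add x y _ _ hx hy => rw [map_add]; exact Submodule.add_mem _ hx hy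
  | smul m x _ hx => rw [map_smul]; exact Submodule.smul_mem _ _ hx

theorem OB4_M_pow' {lam : Finset (WV V)} {w : WV V} (hw : w ∈ lam) {c : Ch (X × X)} {n : ℕ}
    (i : ℕ) {x : Ch (X × X)} (hx : x ∈ OB4_M a lam w c n) :
    (OB4_A X a w ^ i) x ∈ OB4_M a lam w c (n + i) := by
  induction i generalizing x n with
  | zero => simpa using hx
  | succ i ih =>
    rw [pow_succ, Module.End.mul_apply]
    have := ih (OB4_M_A' hw hx)
    rwa [Nat.add_assoc, Nat.add_comm 1 i] at this

end ops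

section out

variable {V : Type*} [DecidableEq V] {Γ : Type v} [Group Γ] (C : Cx.{u, v} Γ) (a : V → Γ)
  (e : Finset (WV V) → Ch (C.X × C.X)) (R : ℕ)

/-- products of geometric series applied to the cubes -/
noncomputable def OB4_Q (lam : Finset (WV V)) : Ch (C.X × C.X) := OB4_PP C.X a R lam (e lam)

/-- the outer faces -/
noncomputable def OB4_Out (lam : Finset (WV V)) : Ch (C.X × C.X) :=
  ∑ w ∈ lam, (OB4_A C.X a w ^ R) (OB4_Q C a e R (lam.erase w))

variable {C a e}

omit [DecidableEq V] in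
theorem OB4_d_pow (n : ℕ) (w : WV V) (c : Ch (C.X × C.X)) :
    C.d2 ((OB4_A C.X a w ^ n) c) = (OB4_A C.X a w ^ n) (C.d2 c) := by
  induction n generalizing c with
  | zero => rfl
  | succ n ih =>
    rw [pow_succ, Module.End.mul_apply, Module.End.mul_apply, ih]
    congr 1
    exact OB4_d2_ac C _ _

omit [DecidableEq V] in
theorem OB4_d_P (R : ℕ) (w : WV V) (c : Ch (C.X × C.X)) :
    C.d2 (OB4_P C.X a R w c) = OB4_P C.X a R w (C.d2 c) := by
  unfold OB4_P
  rw [LinearMap.sum_apply, LinearMap.sum_apply, map_sum]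
  exact Finset.sum_congr rfl fun i _ => OB4_d_pow i w c

omit [DecidableEq V] in
theorem OB4_d_prod (R : ℕ) (L : List (WV V)) (c : Ch (C.X × C.X)) :
    C.d2 ((L.map (OB4_P C.X a R)).prod c) = (L.map (OB4_P C.X a R)).prod (C.d2 c) := by
  induction L generalizing c with
  | nil => rfl
  | cons w L ih =>
    rw [List.map_cons, List.prod_cons, Module.End.mul_apply, Module.End.mul_apply, OB4_d_P, ih]

omit [DecidableEq V] in
theorem OB4_d_PP (R : ℕ) (lam : Finset (WV V)) (c : Ch (C.X × C.X)) :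
    C.d2 (OB4_PP C.X a R lam c) = OB4_PP C.X a R lam (C.d2 c) := OB4_d_prod R _ c

theorem OB4_d_Q {G : SimpleGraph V} (hcomm : ∀ u v, G.Adj u v → Commute (a u) (a v))
    {lam : Finset (WV V)} (hl : (XG G).IsClique (lam : Set (WV V)))
    (hd : C.d2 (e lam) = ∑ w ∈ lam, (e (lam.erase w) + ac (gW a w) (e (lam.erase w)))) :
    C.d2 (OB4_Q C a e R lam) = ∑ w ∈ lam, OB4_Q C a e R (lam.erase w) + OB4_Out C a e R lam := by
  unfold OB4_Out
  rw [← Finset.sum_add_distrib]
  unfold OB4_Q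
  rw [OB4_d_PP, hd, map_sum]
  refine Finset.sum_congr rfl fun w hw => ?_
  rw [OB4_PP_erase hcomm hl R hw, Module.End.mul_apply]
  have h1 := OB4_telescope (a := a) R w (e (lam.erase w))
  have h2 : OB4_P C.X a R w (e (lam.erase w) + ac (gW a w) (e (lam.erase w))) =
      e (lam.erase w) + (OB4_A C.X a w ^ R) (e (lam.erase w)) := h1
  rw [h2, map_add]
  congr 1
  -- commute PP(erase) with A^R
  have hc : Commute (OB4_PP C.X a R (lam.erase w)) (OB4_A C.X a w ^ R) := by
    unfold OB4_PP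
    apply Commute.list_prod_left
    intro x hx
    obtain ⟨u, hu, rfl⟩ := List.mem_map.mp hx
    have hu' : u ∈ lam := Finset.mem_of_mem_erase (by simpa using hu)
    unfold OB4_P
    exact Commute.sum_left _ _ _ fun i _ => (OB4_A_comm hcomm hl hu' hw).pow_pow i R
  exact congrArg (fun f => f (e (lam.erase w))) hc.eq

theorem OB4_d_Out {G : SimpleGraph V} (hcomm : ∀ u v, G.Adj u v → Commute (a u) (a v))
    (hd : ∀ lam : Finset (WV V), (XG G).IsClique (lam : Set (WV V)) →
        C.d2 (e lam) = ∑ w ∈ lam, (e (lam.erase w) + ac (gW a w) (e (lam.erase w))))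
    {lam : Finset (WV V)} (hl : (XG G).IsClique (lam : Set (WV V))) :
    C.d2 (OB4_Out C a e R lam) = ∑ w ∈ lam, OB4_Out C a e R (lam.erase w) := by
  classical
  have hL : C.d2 (OB4_Out C a e R lam) = ∑ w ∈ lam, ∑ u ∈ lam.erase w,
      ((OB4_A C.X a w ^ R) (OB4_Q C a e R ((lam.erase w).erase u)) +
        (OB4_A C.X a w ^ R) ((OB4_A C.X a u ^ R) (OB4_Q C a e R ((lam.erase w).erase u)))) := by
    rw [OB4_Out, map_sum]
    refine Finset.sum_congr rfl fun w hw => ?_
    rw [OB4_d_pow, OB4_d_Q R hcomm (F1_clique_erase hl w) (hd _ (F1_clique_erase hl w)), map_add,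
      OB4_Out, map_sum, map_sum, ← Finset.sum_add_distrib]
  rw [hL]
  have h2 : ∑ w ∈ lam, ∑ u ∈ lam.erase w,
      (OB4_A C.X a w ^ R) ((OB4_A C.X a u ^ R) (OB4_Q C a e R ((lam.erase w).erase u))) = 0 := by
    apply F1_sum_pairs
    intro w hw u hu hne
    rw [Finset.erase_right_comm]
    have hc := (OB4_A_comm (X := C.X) hcomm hl hw hu).pow_pow R R
    exact congrArg (fun f => f (OB4_Q C a e R ((lam.erase u).erase w))) hc.eq
  simp only [Finset.sum_add_distrib]
  rw [h2, add_zero]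
  simp only [OB4_Out]
  rw [Finset.sum_sigma', Finset.sum_sigma']
  refine Finset.sum_bij' (fun p _ => ⟨p.2, p.1⟩) (fun p _ => ⟨p.2, p.1⟩) ?_ ?_ ?_ ?_ ?_
  · rintro ⟨w, u⟩ hp
    simp only [Finset.mem_sigma, Finset.mem_erase] at hp ⊢
    exact ⟨hp.2.2, Ne.symm hp.2.1, hp.1⟩
  · rintro ⟨w, u⟩ hp
    simp only [Finset.mem_sigma, Finset.mem_erase] at hp ⊢
    exact ⟨hp.2.2, Ne.symm hp.2.1, hp.1⟩
  · rintro ⟨w, u⟩ _
    rfl
  · rintro ⟨w, u⟩ _
    rfl
  · rintro ⟨w, u⟩ _
    simp only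
    rw [Finset.erase_right_comm]

theorem OB4_sw_Q {G : SimpleGraph V} (hcomm : ∀ u v, G.Adj u v → Commute (a u) (a v))
    {lam : Finset (WV V)} (hl : (XG G).IsClique (lam : Set (WV V)))
    (hs : sw (e lam) = e (lam.image TW)) :
    sw (OB4_Q C a e R lam) = OB4_Q C a e R (lam.image TW) := by
  unfold OB4_Q
  rw [OB4_sw_PP hcomm hl, hs]

theorem OB4_sw_Out {G : SimpleGraph V} (hcomm : ∀ u v, G.Adj u v → Commute (a u) (a v))
    (hs : ∀ lam : Finset (WV V), (XG G).IsClique (lam : Set (WV V)) →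
        sw (e lam) = e (lam.image TW))
    {lam : Finset (WV V)} (hl : (XG G).IsClique (lam : Set (WV V))) :
    sw (OB4_Out C a e R lam) = OB4_Out C a e R (lam.image TW) := by
  unfold OB4_Out
  rw [map_sum, Finset.sum_image (fun x _ y _ hxy => F1_TW_inj hxy)]
  refine Finset.sum_congr rfl fun w hw => ?_
  rw [OB4_sw_pow]
  congr 1
  rw [OB4_sw_Q R hcomm (F1_clique_erase hl w) (hs _ (F1_clique_erase hl w)),
    Finset.image_erase F1_TW_inj]

/-! ### degrees and supports -/

/-- the chains of pairs supported in a set -/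
theorem OB4_mem_supported {X : Type*} {S : Set (X × X)} {z : Ch (X × X)} :
    z ∈ Finsupp.supported (ZMod 2) (ZMod 2) S ↔ ∀ p ∈ z.support, p ∈ S := by
  rw [Finsupp.mem_supported]
  exact ⟨fun h p hp => h (Finset.mem_coe.mpr hp), fun h p hp => h p (Finset.mem_coe.mp hp)⟩

omit [DecidableEq V] in
theorem OB4_deg_A (n : ℕ) (w : WV V) (x : Ch (C.X × C.X))
    (hx : x ∈ Finsupp.supported (ZMod 2) (ZMod 2) {p : C.X × C.X | C.deg p.1 + C.deg p.2 = n}) :
    OB4_A C.X a w x ∈
      Finsupp.supported (ZMod 2) (ZMod 2) {p : C.X × C.X | C.deg p.1 + C.deg p.2 = n} := by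
  rw [OB4_mem_supported] at hx ⊢
  intro p hp
  obtain ⟨q, hq, rfl⟩ := OB4_mem_support_ac hp
  show C.deg _ + C.deg _ = n
  rw [C.deg_smul, C.deg_smul]
  exact hx q hq

theorem OB4_deg_Q {lam : Finset (WV V)} {n : ℕ} (h : C.IsDeg2 n (e lam)) :
    C.IsDeg2 n (OB4_Q C a e R lam) := by
  have h1 := OB4_inv_PP (a := a) R lam (fun w _ => OB4_deg_A n w) (OB4_mem_supported.mpr h)
  exact OB4_mem_supported.mp h1

theorem OB4_deg_Out {G : SimpleGraph V}
    (he : ∀ lam : Finset (WV V), (XG G).IsClique (lam : Set (WV V)) → C.IsDeg2 lam.card (e lam))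
    {lam : Finset (WV V)} (hl : (XG G).IsClique (lam : Set (WV V))) {n : ℕ}
    (hn : lam.card = n + 1) : C.IsDeg2 n (OB4_Out C a e R lam) := by
  refine (OB4_mem_supported (S := {p : C.X × C.X | C.deg p.1 + C.deg p.2 = n})).mp ?_
  refine Submodule.sum_mem _ fun w hw => OB4_inv_pow (OB4_deg_A n w) R ?_
  have h1 := he _ (F1_clique_erase hl w)
  rw [Finset.card_erase_of_mem hw, hn, Nat.add_sub_cancel] at h1
  exact OB4_mem_supported.mpr (OB4_deg_Q R h1)

theorem OB4_far_Out {lam : Finset (WV V)} {E : Finset C.X}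
    (hfar : ∀ w ∈ lam, ∀ L : List (WV V), (∀ u ∈ L, u ∈ lam) → R ≤ L.count w →
      ∀ p ∈ (e (lam.erase w)).support,
        Far Γ (E : Set C.X) ((L.map (gW a)).prod.1 • p.1, (L.map (gW a)).prod.2 • p.2)) :
    C.IsFar E (OB4_Out C a e R lam) := by
  refine (OB4_mem_supported (S := {p : C.X × C.X | Far Γ (E : Set C.X) p})).mp ?_
  refine Submodule.sum_mem _ fun w hw => ?_
  have h2 : e (lam.erase w) ∈ OB4_M a lam w (e (lam.erase w)) 0 := by
    apply Submodule.subset_span
    exact ⟨[], by simp, Nat.zero_le _, (OB4_ac_one _).symm⟩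
  have h3 : OB4_Q C a e R (lam.erase w) ∈ OB4_M a lam w (e (lam.erase w)) 0 :=
    OB4_inv_PP R _ (fun u hu x hx => OB4_M_A (Finset.mem_of_mem_erase hu) hx) h2
  have h4 := OB4_M_pow' hw R h3
  rw [zero_add] at h4
  refine (Submodule.span_le.mpr ?_ : OB4_M a lam w (e (lam.erase w)) R ≤
    Finsupp.supported (ZMod 2) (ZMod 2) {p : C.X × C.X | Far Γ (E : Set C.X) p}) h4
  rintro x ⟨L, hL, hg, rfl⟩
  refine OB4_mem_supported.mpr fun p hp => ?_
  obtain ⟨q, hq, rfl⟩ := OB4_mem_support_ac hp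
  exact hfar w hw L hL hg q hq

end out

theorem tow_of_cubes {V : Type} [DecidableEq V] [Finite V] (G : SimpleGraph V) {Γ : Type u}
    [Group Γ] (a : V → Γ) (hcomm : ∀ u v, G.Adj u v → Commute (a u) (a v))
    (hord : ∀ v, ∀ n : ℤ, a v ^ n = 1 → n = 0)
    (hdis : ∀ s t : Finset V, G.IsClique (s : Set V) → G.IsClique (t : Set V) → Disjoint s t →
      Subgroup.closure (a '' (s : Set V)) ⊓ Subgroup.closure (a '' (t : Set V)) = ⊥)
    (C : Cx.{u, u} Γ) (x₀ : C.X) (e : Finset (WV V) → Ch (C.X × C.X)) (h0 : C.deg x₀ = 0)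
    (h1 : C.eps x₀ = 1) (h2 : e ∅ = single (x₀, x₀) 1)
    (he : ∀ lam : Finset (WV V), (XG G).IsClique (lam : Set (WV V)) →
      C.IsDeg2 lam.card (e lam) ∧
      C.d2 (e lam) = ∑ w ∈ lam, (e (lam.erase w) + ac (gW a w) (e (lam.erase w))) ∧
      sw (e lam) = e (lam.image TW))
    (m : ℕ) (hT : HasTower G m) : Tow C (m + 1) := by
  classical
  have hfin := Fintype.ofFinite V
  refine ⟨x₀, h0, h1, fun E => ?_⟩
  -- the cells of the cubes
  let S : Finset C.X := Finset.univ.biUnion fun lam : Finset (WV V) =>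
    (e lam).support.image Prod.fst ∪ (e lam).support.image Prod.snd
  have hS1 : ∀ lam, ∀ p ∈ (e lam).support, p.1 ∈ S := fun lam p hp =>
    Finset.mem_biUnion.mpr ⟨lam, Finset.mem_univ _,
      Finset.mem_union_left _ (Finset.mem_image_of_mem _ hp)⟩
  have hS2 : ∀ lam, ∀ p ∈ (e lam).support, p.2 ∈ S := fun lam p hp =>
    Finset.mem_biUnion.mpr ⟨lam, Finset.mem_univ _,
      Finset.mem_union_right _ (Finset.mem_image_of_mem _ hp)⟩
  -- the finite set of group elements
  let B₀ : Set Γ := ⋃ x ∈ S, {g : Γ | g • x ∈ E}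
  have hB₀ : B₀.Finite := S.finite_toSet.biUnion fun x _ => finite_smul_mem C E x
  let B : Set Γ := Set.image2 (fun g h => g⁻¹ * h) B₀ B₀
  have hB : B.Finite := hB₀.image2 _ hB₀
  have hb : ∀ lam : Finset (WV V), ∃ R : ℕ, (XG G).IsClique (lam : Set (WV V)) →
      ∀ L : List (WV V), (∀ u ∈ L, u ∈ lam) →
      ((L.map (gW a)).prod.2)⁻¹ * (L.map (gW a)).prod.1 ∈ B → ∀ w ∈ lam, L.count w < R := by
    intro lam
    by_cases hl : (XG G).IsClique (lam : Set (WV V))
    · obtain ⟨R, hR⟩ := F3_bound hcomm hord hdis hl hB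
      exact ⟨R, fun _ => hR⟩
    · exact ⟨0, fun h => absurd h hl⟩
  choose R' hR' using hb
  let R : ℕ := ∑ lam, R' lam
  have hRle : ∀ lam, R' lam ≤ R := fun lam =>
    Finset.single_le_sum (f := R') (fun _ _ => Nat.zero_le _) (Finset.mem_univ lam)
  have hOut : ∀ lam : Finset (WV V), (XG G).IsClique (lam : Set (WV V)) →
      C.IsFar E (OB4_Out C a e R lam) := by
    intro lam hl
    apply OB4_far_Out
    intro w hw L hL hcount p hp γ hγ1 hγ2
    have h3 : γ * (L.map (gW a)).prod.1 ∈ B₀ :=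
      Set.mem_biUnion (hS1 _ p hp) (by
        show (γ * (L.map (gW a)).prod.1) • p.1 ∈ E
        rw [mul_smul]
        exact hγ1)
    have h4 : γ * (L.map (gW a)).prod.2 ∈ B₀ :=
      Set.mem_biUnion (hS2 _ p hp) (by
        show (γ * (L.map (gW a)).prod.2) • p.2 ∈ E
        rw [mul_smul]
        exact hγ2)
    have h5 : ((L.map (gW a)).prod.2)⁻¹ * (L.map (gW a)).prod.1 ∈ B :=
      ⟨_, h4, _, h3, by group⟩
    have h6 := hR' lam hl L hL h5 w hw
    have h7 := hRle lam
    omega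
  -- the tower
  obtain ⟨u, hu1, hu2, hu3⟩ := hT
  let T : SC (WV V) →ₗ[ZMod 2] Ch (C.X × C.X) :=
    Finsupp.linearCombination (ZMod 2) (OB4_Out C a e R)
  let Q : SC (WV V) →ₗ[ZMod 2] Ch (C.X × C.X) :=
    Finsupp.linearCombination (ZMod 2) (OB4_Q C a e R)
  have hTs : ∀ c : SC (WV V), T c = ∑ lam ∈ c.support, c lam • OB4_Out C a e R lam :=
    fun c => rfl
  have hQs : ∀ c : SC (WV V), Q c = ∑ lam ∈ c.support, c lam • OB4_Q C a e R lam :=
    fun c => rfl
  have hT1 : ∀ lam : Finset (WV V), T (Finsupp.single lam 1) = OB4_Out C a e R lam := by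
    intro lam
    simp [T]
  have hQ1 : ∀ lam : Finset (WV V), Q (Finsupp.single lam 1) = OB4_Q C a e R lam := by
    intro lam
    simp [Q]
  have hdS : ∀ c : SC (WV V), dS c = ∑ lam ∈ c.support, c lam • dfin lam := by
    intro c
    simp [dS, Finsupp.sum]
  have hmS : ∀ c : SC (WV V), mapS TW c =
      ∑ lam ∈ c.support, c lam • Finsupp.single (lam.image TW) (1 : ZMod 2) := by
    intro c
    rw [mapS, Finsupp.lmapDomain_apply, Finsupp.mapDomain, Finsupp.sum]
    refine Finset.sum_congr rfl fun lam _ => ?_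
    simp
  have hdT : ∀ c : SC (WV V), (∀ s ∈ c.support, (XG G).IsClique (s : Set (WV V))) →
      C.d2 (T c) = T (dS c) := by
    intro c hc
    rw [hdS, hTs, map_sum, map_sum]
    refine Finset.sum_congr rfl fun lam hlam => ?_
    rw [map_smul, map_smul, OB4_d_Out R hcomm (fun l hl => (he l hl).2.1) (hc lam hlam)]
    unfold dfin
    rw [map_sum]
    simp only [hT1]
  have hdQ : ∀ c : SC (WV V), (∀ s ∈ c.support, (XG G).IsClique (s : Set (WV V))) →
      C.d2 (Q c) = Q (dS c) + T c := by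
    intro c hc
    rw [hdS, hTs, hQs, map_sum, map_sum, ← Finset.sum_add_distrib]
    refine Finset.sum_congr rfl fun lam hlam => ?_
    rw [map_smul, map_smul, OB4_d_Q R hcomm (hc lam hlam) (he lam (hc lam hlam)).2.1, smul_add]
    unfold dfin
    rw [map_sum]
    simp only [hQ1]
  have hsT : ∀ c : SC (WV V), (∀ s ∈ c.support, (XG G).IsClique (s : Set (WV V))) →
      sw (T c) = T (mapS TW c) := by
    intro c hc
    rw [hmS, hTs, map_sum, map_sum]
    refine Finset.sum_congr rfl fun lam hlam => ?_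
    rw [map_smul, map_smul, OB4_sw_Out R hcomm (fun l hl => (he l hl).2.2) (hc lam hlam), hT1]
  have hsQ : ∀ c : SC (WV V), (∀ s ∈ c.support, (XG G).IsClique (s : Set (WV V))) →
      sw (Q c) = Q (mapS TW c) := by
    intro c hc
    rw [hmS, hQs, map_sum, map_sum]
    refine Finset.sum_congr rfl fun lam hlam => ?_
    rw [map_smul, map_smul, OB4_sw_Q R hcomm (hc lam hlam) (he lam (hc lam hlam)).2.2, hQ1]
  have hcl : ∀ i ≤ m, ∀ s ∈ (u i).support, (XG G).IsClique (s : Set (WV V)) :=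
    fun i hi s hs => (hu1 i hi s hs).1
  refine ⟨fun i => T (u i), fun i => Q (u i), fun i hi => ⟨?_, ?_, ?_⟩, fun _ => ?_,
    fun i hi => ⟨?_, ?_⟩⟩
  · refine (OB4_mem_supported (S := {p : C.X × C.X | C.deg p.1 + C.deg p.2 = i})).mp ?_
    show T (u i) ∈ _
    rw [hTs]
    refine Submodule.sum_mem _ fun lam hlam => Submodule.smul_mem _ _ ?_
    obtain ⟨h3, h4⟩ := hu1 i (by omega) lam hlam
    exact OB4_mem_supported.mpr (OB4_deg_Out R (fun l hl => (he l hl).1) h3 h4)
  · refine (OB4_mem_supported (S := {p : C.X × C.X | Far Γ (E : Set C.X) p})).mp ?_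
    show T (u i) ∈ _
    rw [hTs]
    refine Submodule.sum_mem _ fun lam hlam => Submodule.smul_mem _ _ ?_
    exact OB4_mem_supported.mpr (hOut lam (hcl i (by omega) lam hlam))
  · refine (OB4_mem_supported (S := {p : C.X × C.X | C.deg p.1 + C.deg p.2 = i + 1})).mp ?_
    show Q (u i) ∈ _
    rw [hQs]
    refine Submodule.sum_mem _ fun lam hlam => Submodule.smul_mem _ _ ?_
    obtain ⟨h3, h4⟩ := hu1 i (by omega) lam hlam
    have h5 := (he lam h3).1
    rw [h4] at h5
    exact OB4_mem_supported.mpr (OB4_deg_Q R h5)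
  · show C.d2 (Q (u 0)) = T (u 0) + _
    rw [hdQ _ (hcl 0 (Nat.zero_le _)), hu2, hQ1, add_comm, OB4_Q, OB4_PP_empty,
      Module.End.one_apply, h2]
  · show C.d2 (T (u (i + 1))) = T (u i) + sw (T (u i))
    rw [hdT _ (hcl (i + 1) (by omega)), hu3 i (by omega), map_add, hsT _ (hcl i (by omega))]
  · show C.d2 (Q (u (i + 1))) = T (u (i + 1)) + (Q (u i) + sw (Q (u i)))
    rw [hdQ _ (hcl (i + 1) (by omega)), hu3 i (by omega), map_add, hsQ _ (hcl i (by omega)),
      add_comm]

theorem obs_of_flag {Γ : Type u} [Group Γ] {k : ℕ} (h : Flag Γ k) : Obs Γ (2 * k) := by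
  rcases k with _ | k
  · exact obs_zero Γ
  · obtain ⟨N, K, a, ⟨Z, φ, h1, h2, h3, h4⟩, hc, ho, hd⟩ := h
    have hK : HasClass K k := by
      refine ⟨Z, φ, h1, ?_, ?_, h4⟩
      · intro ρ hρ
        exact h2 ρ (by rw [hρ])
      · intro τ h5 h6
        exact h3 τ h5 h6
    obtain ⟨C, x₀, e, e1, e2, e3, e4⟩ := exists_cubes2 K a hc
    have hT := tow_of_cubes K a hc ho hd C x₀ e e1 e2 e3 e4 (2 * k + 1)
      (hasTower_of_hasClass K k hK)
    exact ⟨Γ, inferInstance, MonoidHom.id Γ, fun _ _ h => h, C, hT⟩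

end Ob

end OS
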