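import Mathlib
import Pool.Agent.Lib.MP_8fe54c_gt.ObGrp
import Pool.Agent.Lib.MP_8fe54c_gt.GPFlag
import Pool.Agent.Lib.MP_8fe54c_gt.ObFlag

/-!
# Coarse obstructors in graph products (OB13)
-/

namespace OS

namespace Ob

open Finsupp GP

universe u v w u' v'

theorem obs_gp {V : Type u} [Fintype V] [LinearOrder V] (L : SimpleGraph V) (G : V → Type u)
    [∀ v, Group (G v)] (hinf : ∀ v, ∃ g : G v, ∀ n : ℕ, g ^ n = 1 → n = 0)
    (σ : Finset V) (hσ : cliq L σ) (e : σ → ℕ) (q : ℕ)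
    (he : ∀ v : σ, Obs (G v.1) (e v)) (hq : HasClsC (lk (cliq L) σ) q) :
    Obs (GraphProd L G) (∑ v, e v + 2 * q) := by
  classical
  have hlink : ∀ u ∈ (σ : Set V), ∀ v ∈ {u : V | u ∉ σ ∧ ∀ w ∈ σ, L.Adj u w}, L.Adj u v := by
    intro u hu v hv
    exact (hv.2 u hu).symm
  have hdis : Disjoint (σ : Set V) {u : V | u ∉ σ ∧ ∀ w ∈ σ, L.Adj u w} := by
    rw [Set.disjoint_left]
    intro u hu hv
    exact hv.1 hu
  refine obs_mul (sgp L G (σ : Set V)) (sgp L G {u : V | u ∉ σ ∧ ∀ w ∈ σ, L.Adj u w})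
    (fun a ha b hb => sgp_commute hlink ha hb) (K22_inf_bot L G _ _ hdis) ?_ ?_
  · obtain ⟨φ, hφ, hr⟩ := exists_clique (L := L) (G := G) σ hσ
    have hmem : ∀ x, φ x ∈ sgp L G (σ : Set V) := fun x => by
      rw [← hr]
      exact ⟨x, rfl⟩
    refine obs_map (φ.codRestrict _ hmem) ?_ (obs_pi (fun v : σ => G v.1) e he)
    intro x y hxy
    exact hφ (congrArg Subtype.val hxy)
  · refine obs_of_flag ?_
    choose g hg using hinf
    let ι := {u : V // u ∉ σ ∧ ∀ w ∈ σ, L.Adj u w}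
    let a : ι → sgp L G {u : V | u ∉ σ ∧ ∀ w ∈ σ, L.Adj u w} := fun u =>
      ⟨gof u.1 (g u.1), mem_sgp_gof (S := {u : V | u ∉ σ ∧ ∀ w ∈ σ, L.Adj u w}) u.2 _⟩
    have hcl : ∀ s : Finset ι, (Subgroup.closure (a '' s)).map
        (sgp L G {u : V | u ∉ σ ∧ ∀ w ∈ σ, L.Adj u w}).subtype ≤
          sgp L G (Subtype.val '' (s : Set ι)) := by
      intro s
      rw [Subgroup.map_le_iff_le_comap, Subgroup.closure_le]
      rintro _ ⟨u, hu, rfl⟩
      exact mem_sgp_gof (S := Subtype.val '' (s : Set ι)) ⟨u, hu, rfl⟩ _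
    refine flag_of (lkG L σ) a (hasClsC_lkG L σ hσ q hq) ?_ ?_ ?_
    · intro i j hij
      have h : L.Adj i.1 j.1 := hij
      exact Subtype.ext (gof_comm h (g i.1) (g j.1))
    · intro i n hn
      have h1 : gof (L := L) (G := G) i.1 (g i.1 ^ n) = 1 := by
        rw [map_zpow]
        exact congrArg Subtype.val hn
      have h2 : g i.1 ^ n = 1 := gof_inj (L := L) (G := G) i.1 (h1.trans (map_one _).symm)
      exact K22_zpow _ (hg i.1) n h2
    · intro s t _ _ hst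
      rw [eq_bot_iff]
      intro x hx
      have h1 : (x : GraphProd L G) ∈ sgp L G (Subtype.val '' (s : Set ι)) :=
        hcl s ⟨x, hx.1, rfl⟩
      have h2 : (x : GraphProd L G) ∈ sgp L G (Subtype.val '' (t : Set ι)) :=
        hcl t ⟨x, hx.2, rfl⟩
      have hd : Disjoint (Subtype.val '' (s : Set ι)) (Subtype.val '' (t : Set ι)) := by
        rw [Set.disjoint_left]
        rintro _ ⟨u, hu, rfl⟩ ⟨v, hv, hvu⟩
        have : v = u := Subtype.ext hvu
        subst this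
        exact Finset.disjoint_left.1 hst hu hv
      have h3 : (x : GraphProd L G) ∈ (⊥ : Subgroup (GraphProd L G)) := by
        rw [← K22_inf_bot L G _ _ hd]
        exact ⟨h1, h2⟩
      rw [Subgroup.mem_bot] at h3 ⊢
      exact Subtype.ext h3

end Ob

end OS
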