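import Mathlib
import Pool.Agent.Lib.MP_8fe54c_gt.ObDefs
import Pool.Agent.Lib.MP_8fe54c_gt.ObProd
import Pool.Agent.Lib.MP_8fe54c_gt.ObCross

/-!
# Coarse obstructors: equivariant chain maps (OB11)
-/

namespace OS

namespace Ob

open Finsupp

universe u v w u' v'

section OB11

variable {K : Type v} [Group K] {K' : Type v'} [Group K'] {ι : K →* K'} {P : Cx.{u, v} K}
  {C : Cx.{u', v'} K'} {f : P.X → Ch C.X}

theorem OB11_lin_congr {X Y : Type*} {f g : X → Ch Y} {c : Ch X}
    (h : ∀ x ∈ c.support, f x = g x) : lin f c = lin g c := by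
  have h1 : ∀ f : X → Ch Y, lin f c = ∑ x ∈ c.support, c x • f x := fun _ => rfl
  rw [h1, h1]
  exact Finset.sum_congr rfl fun x hx => by rw [h x hx]

theorem OB11_bd_zero (C : Cx.{u, v} K) {x : C.X} (hx : C.deg x = 0) : C.bd x = 0 := by
  rw [← Finsupp.support_eq_empty, Finset.eq_empty_iff_forall_notMem]
  intro y hy
  have := C.bd_deg x y hy
  omega

theorem OB11_aug_zero (C : Cx.{u, v} K) {n : ℕ} {c : Ch C.X} (hc : C.IsDeg (n + 1) c) :
    C.aug c = 0 := by
  have h1 : C.aug c = ∑ x ∈ c.support, c x • C.eps x := rfl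
  rw [h1]
  refine Finset.sum_eq_zero fun x hx => ?_
  rw [C.eps_deg x (by rw [hc x hx]; omega), smul_zero]

/-- the conditions of `IsMap` on the cells of degree less than `n` -/
structure OB11_Good (ι : K →* K') (P : Cx.{u, v} K) (C : Cx.{u', v'} K') (n : ℕ)
    (f : P.X → Ch C.X) : Prop where
  deg : ∀ x, P.deg x < n → C.IsDeg (P.deg x) (f x)
  d : ∀ x, P.deg x < n → C.d (f x) = lin f (P.bd x)
  aug : ∀ x, P.deg x < n → C.aug (f x) = P.eps x
  smul : ∀ (g : K) (x : P.X), P.deg x < n → f (g • x) = mp (fun y => ι g • y) (f x)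

theorem OB11_chain (hC : C.Acyc) {n : ℕ} (hf : OB11_Good ι P C n f) {x : P.X}
    (hx : P.deg x = n) :
    ∃ b, C.IsDeg n b ∧ C.d b = lin f (P.bd x) ∧ C.aug b = P.eps x := by
  obtain ⟨⟨x₀, hx₀⟩, hex⟩ := hC
  cases n with
  | zero =>
    have hd0 : C.deg x₀ = 0 := by
      by_contra h
      have := C.eps_deg x₀ h
      rw [hx₀] at this
      exact one_ne_zero this
    refine ⟨P.eps x • single x₀ 1, ?_, ?_, ?_⟩
    · intro y hy
      have h1 := Finsupp.support_smul hy
      have h2 := Finsupp.support_single_subset h1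
      rw [Finset.mem_singleton] at h2
      rw [h2, hd0]
    · rw [map_smul, C.d_single, OB11_bd_zero C hd0, OB11_bd_zero P hx, smul_zero, map_zero]
    · rw [map_smul, C.aug_single, hx₀, smul_eq_mul, mul_one]
  | succ n =>
    have hsup : ∀ y ∈ (P.bd x).support, P.deg y = n := by
      intro y hy
      have := P.bd_deg x y hy
      omega
    have hcyc : C.IsCyc n (lin f (P.bd x)) := by
      refine ⟨?_, ?_, ?_⟩
      · intro z hz
        obtain ⟨y, hy, hyz⟩ := mem_support_lin hz
        have h1 := hsup y hy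
        have h2 := hf.deg y (by omega) z hyz
        omega
      · rw [Cx.d, lin_lin]
        have h1 : lin (fun y => lin C.bd (f y)) (P.bd x) = lin (fun y => lin f (P.bd y)) (P.bd x) :=
          OB11_lin_congr fun y hy => hf.d y (by rw [hsup y hy]; omega)
        rw [h1, ← lin_lin]
        have h2 : lin P.bd (P.bd x) = 0 := P.bd_bd x
        rw [h2, map_zero]
      · rw [Cx.aug, fnl_lin]
        have h1 : fnl (fun y => fnl C.eps (f y)) (P.bd x) = fnl P.eps (P.bd x) := by
          have h2 : ∀ g : P.X → ZMod 2, fnl g (P.bd x) =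
              ∑ y ∈ (P.bd x).support, (P.bd x) y • g y := fun _ => rfl
          rw [h2, h2]
          exact Finset.sum_congr rfl fun y hy => by
            rw [← hf.aug y (by rw [hsup y hy]; omega)]
            rfl
        rw [h1]
        exact P.eps_bd x
    obtain ⟨b, hb1, hb2⟩ := hex n _ hcyc
    refine ⟨b, hb1, hb2, ?_⟩
    rw [OB11_aug_zero C hb1, P.eps_deg x (by omega)]

theorem OB11_rep (P : Cx.{u, v} K) : ∃ (r : P.X → P.X) (γ : P.X → K),
    (∀ x, γ x • r x = x) ∧ (∀ (g : K) x, r (g • x) = r x) ∧ ∀ (g : K) x, γ (g • x) = g * γ x := by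
  have h1 : ∀ x : P.X, ∃ g : K, g • (Quotient.mk (MulAction.orbitRel K P.X) x).out = x := by
    intro x
    have h2 : MulAction.orbitRel K P.X (Quotient.mk (MulAction.orbitRel K P.X) x).out x :=
      Quotient.mk_out (s := MulAction.orbitRel K P.X) x
    rw [MulAction.orbitRel_apply, MulAction.mem_orbit_iff] at h2
    obtain ⟨g, hg⟩ := h2
    exact ⟨g⁻¹, by rw [← hg, inv_smul_smul]⟩
  choose γ hγ using h1
  have h3 : ∀ (g : K) (x : P.X), (Quotient.mk (MulAction.orbitRel K P.X) (g • x)).out =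
      (Quotient.mk (MulAction.orbitRel K P.X) x).out := by
    intro g x
    congr 1
    apply Quotient.sound
    exact ⟨g, rfl⟩
  refine ⟨fun x => (Quotient.mk (MulAction.orbitRel K P.X) x).out, γ, hγ, h3, ?_⟩
  intro g x
  have h4 := hγ (g • x)
  rw [h3 g x] at h4
  have h5 : ((g * γ x)⁻¹ * γ (g • x)) • (Quotient.mk (MulAction.orbitRel K P.X) x).out =
      (Quotient.mk (MulAction.orbitRel K P.X) x).out := by
    rw [mul_smul, h4, mul_inv_rev, mul_smul, inv_smul_smul]
    exact inv_smul_eq_iff.mpr (hγ x).symm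
  exact (inv_mul_eq_one.mp (P.free _ _ h5)).symm

theorem OB11_step (hC : C.Acyc) {n : ℕ} (hf : OB11_Good ι P C n f) :
    ∃ f', OB11_Good ι P C (n + 1) f' ∧ ∀ x, P.deg x < n → f' x = f x := by
  classical
  obtain ⟨r, γ, hr, hrs, hγs⟩ := OB11_rep P
  have hch : ∀ x : P.X, ∃ b, P.deg x = n →
      C.IsDeg n b ∧ C.d b = lin f (P.bd x) ∧ C.aug b = P.eps x := by
    intro x
    by_cases hx : P.deg x = n
    · obtain ⟨b, hb⟩ := OB11_chain hC hf hx
      exact ⟨b, fun _ => hb⟩
    · exact ⟨0, fun h => absurd h hx⟩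
  choose b hb using hch
  have hdr : ∀ x, P.deg (r x) = P.deg x := by
    intro x
    conv_rhs => rw [← hr x]
    rw [P.deg_smul]
  set f' : P.X → Ch C.X := fun x =>
    if P.deg x = n then mp (fun y => ι (γ x) • y) (b (r x)) else f x with hf'
  have h1 : ∀ x, P.deg x < n → f' x = f x := by
    intro x hx
    simp only [hf']
    rw [if_neg (by omega)]
  have h2 : ∀ x, P.deg x = n → f' x = mp (fun y => ι (γ x) • y) (b (r x)) := by
    intro x hx
    simp only [hf']
    rw [if_pos hx]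
  have h3 : ∀ x, P.deg x < n + 1 → lin f' (P.bd x) = lin f (P.bd x) := by
    intro x hx
    refine OB11_lin_congr fun y hy => h1 y ?_
    have := P.bd_deg x y hy
    omega
  refine ⟨f', ⟨?_, ?_, ?_, ?_⟩, h1⟩
  · intro x hx
    rcases Nat.lt_succ_iff_lt_or_eq.mp hx with hx | hx
    · rw [h1 x hx]
      exact hf.deg x hx
    · rw [h2 x hx, hx]
      exact isDeg_smul_mp C (hb (r x) ((hdr x).trans hx)).1 _
  · intro x hx
    rw [h3 x hx]
    rcases Nat.lt_succ_iff_lt_or_eq.mp hx with hx | hx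
    · rw [h1 x hx]
      exact hf.d x hx
    · rw [h2 x hx, d_mp_smul, (hb (r x) ((hdr x).trans hx)).2.1, mp_lin]
      have h4 : lin (fun y => mp (fun z => ι (γ x) • z) (f y)) (P.bd (r x)) =
          lin (fun y => f (γ x • y)) (P.bd (r x)) := by
        refine OB11_lin_congr fun y hy => (hf.smul (γ x) y ?_).symm
        have := P.bd_deg (r x) y hy
        rw [hdr x] at this
        omega
      rw [h4, ← lin_mp f (fun y => γ x • y), ← P.bd_smul, hr x]
  · intro x hx
    rcases Nat.lt_succ_iff_lt_or_eq.mp hx with hx | hx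
    · rw [h1 x hx]
      exact hf.aug x hx
    · rw [h2 x hx, aug_mp_smul, (hb (r x) ((hdr x).trans hx)).2.2]
      conv_rhs => rw [← hr x]
      rw [P.eps_smul]
  · intro g x hx
    rcases Nat.lt_succ_iff_lt_or_eq.mp hx with hx | hx
    · rw [h1 x hx, h1 (g • x) (by rw [P.deg_smul]; exact hx)]
      exact hf.smul g x hx
    · rw [h2 x hx, h2 (g • x) (by rw [P.deg_smul]; exact hx), hrs, hγs, mp_mp, map_mul]
      congr 2
      funext y
      exact mul_smul _ _ _

theorem exists_isMap (P : Cx.{u, v} K) (C : Cx.{u', v'} K') (ι : K →* K') (hC : C.Acyc) :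
    ∃ f : P.X → Ch C.X, IsMap ι P C f := by
  have h0 : OB11_Good ι P C 0 (fun _ => 0) :=
    ⟨fun x hx => by omega, fun x hx => by omega, fun x hx => by omega, fun g x hx => by omega⟩
  let S : ℕ → Type _ := fun n => {f : P.X → Ch C.X // OB11_Good ι P C n f}
  let step : ∀ n, S n → S (n + 1) := fun n s =>
    ⟨(OB11_step hC s.2).choose, (OB11_step hC s.2).choose_spec.1⟩
  have hstep : ∀ n (s : S n) x, P.deg x < n → (step n s).1 x = s.1 x := fun n s x hx =>
    (OB11_step hC s.2).choose_spec.2 x hx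
  let F : ∀ n, S n := fun n => Nat.rec ⟨_, h0⟩ step n
  have hF : ∀ n x, P.deg x < n → (F (n + 1)).1 x = (F n).1 x := fun n x hx =>
    hstep n (F n) x hx
  have hF2 : ∀ k x, (F (P.deg x + 1 + k)).1 x = (F (P.deg x + 1)).1 x := by
    intro k x
    induction k with
    | zero => rfl
    | succ k ih => rw [← ih, ← Nat.add_assoc, hF _ x (by omega)]
  have hF3 : ∀ n x, P.deg x < n → (F n).1 x = (F (P.deg x + 1)).1 x := by
    intro n x hx
    have h1 := hF2 (n - (P.deg x + 1)) x
    rw [show P.deg x + 1 + (n - (P.deg x + 1)) = n by omega] at h1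
    exact h1
  refine ⟨fun x => (F (P.deg x + 1)).1 x, ⟨?_, ?_, ?_, ?_⟩⟩
  · intro x
    exact (F (P.deg x + 1)).2.deg x (by omega)
  · intro x
    rw [(F (P.deg x + 1)).2.d x (by omega)]
    refine OB11_lin_congr fun y hy => hF3 _ y ?_
    have := P.bd_deg x y hy
    omega
  · intro x
    exact (F (P.deg x + 1)).2.aug x (by omega)
  · intro g x
    rw [← hF3 (P.deg x + 1) (g • x) (by rw [P.deg_smul]; omega)]
    exact (F (P.deg x + 1)).2.smul g x (by omega)

/-- the tensor square of a chain map -/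
noncomputable def map2 (f : P.X → Ch C.X) : Ch (P.X × P.X) →ₗ[ZMod 2] Ch (C.X × C.X) :=
  lin (fun p => cr (f p.1) (f p.2))

theorem map2_single (p : P.X × P.X) : map2 f (single p 1) = cr (f p.1) (f p.2) :=
  lin_single _ _

theorem map2_cr (a b : Ch P.X) : map2 (P := P) (C := C) f (cr a b) = cr (lin f a) (lin f b) := by
  refine bilin_ext (fun a b => map2 (P := P) (C := C) f (cr a b))
    (fun a b => cr (lin f a) (lin f b)) ?_ ?_ ?_ ?_ ?_ ?_ ?_ ?_ ?_ a b
  · intro e; simp only [cr_zero_left, map_zero]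
  · intro e; simp only [cr_zero_left, map_zero]
  · intro x; simp only [cr_zero_right, map_zero]
  · intro x; simp only [cr_zero_right, map_zero]
  · intro c c' e; simp only [cr_add_left, map_add]
  · intro c c' e; simp only [cr_add_left, map_add]
  · intro x e e'; simp only [cr_add_right, map_add]
  · intro x e e'; simp only [cr_add_right, map_add]
  · intro x y
    simp only [cr_single_single, lin_single]
    exact map2_single (x, y)

theorem d2_map2 (hf : IsMap ι P C f) (z : Ch (P.X × P.X)) :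
    C.d2 (map2 f z) = map2 f (P.d2 z) := by
  have h := hom_ext (f := C.d2 ∘ₗ map2 f) (g := map2 f ∘ₗ P.d2) (fun p => by
    obtain ⟨x, y⟩ := p
    rw [LinearMap.comp_apply, LinearMap.comp_apply, map2_single, d2_cr, d2_single, bd2_mk,
      map_add, map2_cr, map2_cr, lin_single, lin_single, hf.d, hf.d]) z
  exact h

theorem sw_map2 (z : Ch (P.X × P.X)) : sw (map2 (P := P) (C := C) f z) = map2 f (sw z) := by
  have h := hom_ext (f := sw ∘ₗ map2 (P := P) (C := C) f) (g := map2 f ∘ₗ sw) (fun p => by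
    obtain ⟨x, y⟩ := p
    have h1 : sw (single (x, y) (1 : ZMod 2)) = single (y, x) 1 := mp_single _ _ _
    rw [LinearMap.comp_apply, LinearMap.comp_apply, map2_single, sw_cr, h1, map2_single]) z
  exact h

theorem aug2_map2 (hf : IsMap ι P C f) (z : Ch (P.X × P.X)) : C.aug2 (map2 f z) = P.aug2 z := by
  have h := hom_ext (f := C.aug2 ∘ₗ map2 f) (g := P.aug2) (fun p => by
    obtain ⟨x, y⟩ := p
    rw [LinearMap.comp_apply, map2_single, aug2_cr, aug2_single, hf.aug, hf.aug]) z
  exact h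

theorem isDeg2_map2 (hf : IsMap ι P C f) {n : ℕ} {z : Ch (P.X × P.X)} (hz : P.IsDeg2 n z) :
    C.IsDeg2 n (map2 f z) := by
  intro q hq
  obtain ⟨p, hp, hpq⟩ := mem_support_lin hq
  obtain ⟨h1, h2⟩ := mem_support_cr hpq
  rw [hf.deg _ _ h1, hf.deg _ _ h2]
  exact hz p hp

theorem push_far (hι : Function.Injective ι) (hf : IsMap ι P C f) (n : ℕ) (E : Finset C.X) :
    ∃ E' : Finset P.X, ∀ z, P.IsDeg2 n z → P.IsFar E' z → C.IsFar E (map2 f z) := by
  classical
  choose R0 hR0 using P.fin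
  set R : Finset P.X := (Finset.range (n + 1)).biUnion R0 with hR
  have hR1 : ∀ x, P.deg x ≤ n → ∃ g : K, ∃ e ∈ R, g • e = x := by
    intro x hx
    obtain ⟨g, e, he, hge⟩ := hR0 (P.deg x) x rfl
    exact ⟨g, e, Finset.mem_biUnion.mpr ⟨P.deg x, Finset.mem_range.mpr (by omega), he⟩, hge⟩
  set S : Finset C.X := R.biUnion fun e => (f e).support with hS
  -- the elements moving a cell of `S` to `E`
  have hFfin : (⋃ y ∈ S, {k : K' | k • y ∈ E}).Finite :=
    Set.Finite.biUnion S.finite_toSet fun y _ => finite_smul_mem C E y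
  set F : Set K' := ⋃ y ∈ S, {k : K' | k • y ∈ E} with hFdef
  have hMfin : {a : K | ∃ k ∈ F, ∃ k' ∈ F, ι a = k⁻¹ * k'}.Finite := by
    have h1 : (Set.image2 (fun k k' : K' => k⁻¹ * k') F F).Finite := hFfin.image2 _ hFfin
    refine Set.Finite.of_finite_image (f := ι) (h1.subset ?_) hι.injOn
    rintro _ ⟨a, ⟨k, hk, k', hk', ha⟩, rfl⟩
    exact ⟨k, hk, k', hk', ha.symm⟩
  refine ⟨R ∪ hMfin.toFinset.biUnion fun m => R.image fun e => m • e, ?_⟩
  intro z hz hfar q hq
  obtain ⟨p, hp, hpq⟩ := mem_support_lin hq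
  obtain ⟨h1, h2⟩ := mem_support_cr hpq
  have hdeg := hz p hp
  obtain ⟨a, e, he, hae⟩ := hR1 p.1 (by omega)
  obtain ⟨a', e', he', hae'⟩ := hR1 p.2 (by omega)
  rw [← hae, hf.smul] at h1
  rw [← hae', hf.smul] at h2
  obtain ⟨y, hy, hyq⟩ := mem_support_mp h1
  obtain ⟨y', hy', hyq'⟩ := mem_support_mp h2
  intro g hg1 hg2
  rw [← hyq, ← mul_smul] at hg1
  rw [← hyq', ← mul_smul] at hg2
  have hk : g * ι a ∈ F :=
    Set.mem_biUnion (Finset.mem_biUnion.mpr ⟨e, he, hy⟩) (Finset.mem_coe.mp hg1)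
  have hk' : g * ι a' ∈ F :=
    Set.mem_biUnion (Finset.mem_biUnion.mpr ⟨e', he', hy'⟩) (Finset.mem_coe.mp hg2)
  have hm : a⁻¹ * a' ∈ {a : K | ∃ k ∈ F, ∃ k' ∈ F, ι a = k⁻¹ * k'} := by
    refine ⟨_, hk, _, hk', ?_⟩
    rw [map_mul, map_inv]
    group
  refine hfar p hp a⁻¹ ?_ ?_
  · rw [← hae, inv_smul_smul]
    exact Finset.mem_coe.mpr (Finset.mem_union_left _ he)
  · rw [← hae', ← mul_smul]
    refine Finset.mem_coe.mpr (Finset.mem_union_right _ ?_)
    exact Finset.mem_biUnion.mpr ⟨a⁻¹ * a', hMfin.mem_toFinset.mpr hm,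
      Finset.mem_image_of_mem _ he'⟩

end OB11

end Ob

end OS
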