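import Mathlib
import Pool.Agent.Lib.MP_8fe54c_gt.ObDefs
import Pool.Agent.Lib.MP_8fe54c_gt.ObCross
import Pool.Agent.Lib.MP_8fe54c_gt.ObSlice
import Pool.Agent.Lib.MP_8fe54c_gt.ObAvoid
import Pool.Agent.Lib.MP_8fe54c_gt.ObFill
import Pool.Agent.Lib.MP_8fe54c_gt.ObFilter
import Pool.Agent.Lib.MP_8fe54c_gt.ObFar

/-!
# Coarse obstructors: the top class (OB10)
-/

namespace OS

namespace Ob

open Finsupp

universe u v w u' v'

section OB10

variable {K : Type v} [Group K] (C : Cx.{u, v} K)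

theorem OB10_mp_apply (g : K) (c : Ch C.X) (x : C.X) :
    mp (fun y => g • y) c x = c (g⁻¹ • x) := by
  have h1 : x = g • (g⁻¹ • x) := (smul_inv_smul g x).symm
  conv_lhs => rw [h1]
  simp only [mp, Finsupp.lmapDomain_apply]
  exact Finsupp.mapDomain_apply (MulAction.injective g) c (g⁻¹ • x)

theorem OB10_fnl_zero {X : Type*} (φ : Ch X) (b : Ch X) (h : ∀ x ∈ φ.support, b x = 0) :
    fnl φ b = 0 := by
  have h1 : fnl φ b = ∑ x ∈ b.support, b x • φ x := rfl
  rw [h1]
  refine Finset.sum_eq_zero fun x _ => ?_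
  by_cases hx : x ∈ φ.support
  · rw [h x hx, zero_smul]
  · rw [Finsupp.notMem_support_iff.mp hx, smul_zero]

theorem OB10_fnl_zero' {X : Type*} (f : X → ZMod 2) (b : Ch X) (h : ∀ x ∈ b.support, f x = 0) :
    fnl f b = 0 := by
  have h1 : fnl f b = ∑ x ∈ b.support, b x • f x := rfl
  rw [h1]
  refine Finset.sum_eq_zero fun x hx => ?_
  rw [h x hx, smul_zero]

theorem OB10_isCyc_smul {n : ℕ} {c : Ch C.X} (h : C.IsCyc n c) (g : K) :
    C.IsCyc n (mp (fun x => g • x) c) := by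
  refine ⟨isDeg_smul_mp C h.1 g, ?_, ?_⟩
  · rw [d_mp_smul, h.2.1, map_zero]
  · rw [aug_mp_smul, h.2.2]

theorem OB10_isCyc_add {n : ℕ} {c c' : Ch C.X} (h : C.IsCyc n c) (h' : C.IsCyc n c') :
    C.IsCyc n (c + c') := by
  refine ⟨isDeg_add C h.1 h'.1, ?_, ?_⟩
  · rw [map_add, h.2.1, h'.2.1, add_zero]
  · rw [map_add, h.2.2, h'.2.2, add_zero]

theorem OB10_isCyc_zero (n : ℕ) : C.IsCyc n 0 := ⟨isDeg_zero C n, map_zero _, map_zero _⟩

theorem OB10_isCyc_smul' {n : ℕ} {c : Ch C.X} (h : C.IsCyc n c) (a : ZMod 2) :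
    C.IsCyc n (a • c) := by
  obtain rfl | rfl : a = 0 ∨ a = 1 := by
    revert a
    decide
  · rw [zero_smul]
    exact OB10_isCyc_zero C n
  · rwa [one_smul]

theorem OB10_isCyc_d {n : ℕ} {b : Ch C.X} (h : C.IsDeg (n + 1) b) : C.IsCyc n (C.d b) :=
  ⟨isDeg_d C h, C.d_d b, C.aug_d b⟩

theorem OB10_aug_zero {n : ℕ} {b : Ch C.X} (h : C.IsDeg (n + 1) b) : C.aug b = 0 := by
  refine OB10_fnl_zero' C.eps b fun x hx => ?_
  have h1 := h x hx
  exact C.eps_deg x (by omega)

/-- converse of `avoid` -/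
theorem OB10_coZero (hC : C.Acyc) {n : ℕ}
    (hn : ∀ E : Finset C.X, ∃ E' : Finset C.X, ∀ c, C.IsCyc n c → (∀ x ∈ E', c x = 0) →
      ∃ b, C.IsDeg (n + 1) b ∧ (∀ x ∈ E, b x = 0) ∧ C.d b = c) : C.CoZero (n + 1) := by
  classical
  intro φ hφ
  obtain ⟨E', hE'⟩ := hn φ.support
  let V : Submodule (ZMod 2) (Ch C.X) :=
    { carrier := {b | C.IsDeg (n + 1) b}
      add_mem' := fun h h' => isDeg_add C h h'
      zero_mem' := isDeg_zero C _
      smul_mem' := fun a b h x hx => h x (Finsupp.support_smul hx) }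
  let L : {e // e ∈ E'} → V →ₗ[ZMod 2] ZMod 2 := fun e => (Finsupp.lapply e.1) ∘ₗ C.d ∘ₗ V.subtype
  let Kφ : V →ₗ[ZMod 2] ZMod 2 := fnl φ ∘ₗ V.subtype
  have hcyc : ∀ b, C.IsDeg (n + 1) b → C.d b = 0 → fnl φ b = 0 := by
    intro b hb hd
    obtain ⟨e, he, hde⟩ := hC.2 (n + 1) b ⟨hb, hd, OB10_aug_zero C hb⟩
    rw [← hde, Cx.d, fnl_lin]
    exact OB10_fnl_zero' _ _ fun x hx => hφ.2 x (he x hx)
  have hker : ⨅ e, LinearMap.ker (L e) ≤ LinearMap.ker Kφ := by
    rintro ⟨b, hb⟩ hbL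
    rw [Submodule.mem_iInf] at hbL
    have hb' : C.IsDeg (n + 1) b := hb
    have h1 : ∀ x ∈ E', C.d b x = 0 := fun x hx => by
      have h2 := hbL ⟨x, hx⟩
      rw [LinearMap.mem_ker] at h2
      exact h2
    obtain ⟨b', hb1, hb2, hb3⟩ := hE' (C.d b) (OB10_isCyc_d C hb') h1
    have h3 : fnl φ b' = 0 := OB10_fnl_zero φ b' hb2
    have h4 : fnl φ (b + b') = 0 := hcyc _ (isDeg_add C hb' hb1) (by
      rw [map_add, hb3, add_self_ch])
    rw [map_add, h3, add_zero] at h4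
    rw [LinearMap.mem_ker]
    exact h4
  have hspan := mem_span_of_iInf_ker_le_ker hker
  rw [Submodule.mem_span_range_iff_exists_fun] at hspan
  obtain ⟨a, ha⟩ := hspan
  let ψ : Ch C.X := ∑ e : {e // e ∈ E'}, if C.deg e.1 = n then single e.1 (a e) else 0
  refine ⟨ψ, ?_, ?_⟩
  · intro x hx
    obtain ⟨e, _, he⟩ := Finset.mem_biUnion.mp (Finsupp.support_finsetSum hx)
    by_cases h : C.deg e.1 = n
    · rw [if_pos h] at he
      have h1 := Finsupp.support_single_subset he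
      rw [Finset.mem_singleton] at h1
      rw [h1, h]
    · rw [if_neg h] at he
      simp at he
  · intro x hx
    have h1 : Kφ ⟨single x 1, fun y hy => by
        have h2 := Finsupp.support_single_subset hy
        rw [Finset.mem_singleton] at h2
        rw [h2, hx]⟩ = φ x := by
      change fnl φ (single x 1) = φ x
      rw [fnl_single]
    rw [← h1, ← ha]
    rw [LinearMap.sum_apply]
    have h2 : fnl ψ (C.bd x) = ∑ y ∈ (C.bd x).support, C.bd x y • ψ y := rfl
    have h3 : ∀ y ∈ (C.bd x).support, C.bd x y • ψ y =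
        ∑ e : {e // e ∈ E'}, if e.1 = y then a e * C.bd x y else 0 := by
      intro y hy
      have h4 := C.bd_deg x y hy
      simp only [ψ]
      rw [Finsupp.finsetSum_apply, Finset.smul_sum]
      refine Finset.sum_congr rfl fun e _ => ?_
      by_cases h : e.1 = y
      · have h5 : C.deg e.1 = n := by rw [h]; omega
        rw [if_pos h5, if_pos h, h, Finsupp.single_eq_same, smul_eq_mul, mul_comm]
      · rw [if_neg h]
        by_cases h5 : C.deg e.1 = n
        · rw [if_pos h5, Finsupp.single_eq_of_ne (Ne.symm h), smul_zero]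
        · rw [if_neg h5]
          simp
    rw [h2, Finset.sum_congr rfl h3, Finset.sum_comm]
    refine Finset.sum_congr rfl fun e _ => ?_
    rw [Finset.sum_ite_eq]
    have h6 : (a e • L e) ⟨single x 1, fun y hy => by
        have h2 := Finsupp.support_single_subset hy
        rw [Finset.mem_singleton] at h2
        rw [h2, hx]⟩ = a e * C.bd x e.1 := by
      rw [LinearMap.smul_apply, smul_eq_mul]
      congr 1
      change (C.d (single x 1)) e.1 = _
      rw [C.d_single]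
    rw [h6]
    by_cases h : e.1 ∈ (C.bd x).support
    · rw [if_pos h]
    · rw [if_neg h, Finsupp.notMem_support_iff.mp h, mul_zero]

/-- boundaries of chains far out have degree zero -/
theorem OB10_far_boundary (hC : C.Acyc) {n : ℕ} (h0 : ¬ C.CoZero (n + 1))
    (dgr : Ch C.X →ₗ[ZMod 2] ZMod 2)
    (hd : ∀ E : Finset C.X, ∃ E' : Finset C.X, ∀ c, C.IsCyc n c → (∀ x ∈ E', c x = 0) → dgr c = 0 →
        ∃ b, C.IsDeg (n + 1) b ∧ (∀ x ∈ E, b x = 0) ∧ C.d b = c) :
    ∃ F : Finset C.X, ∀ b, C.IsDeg (n + 1) b → (∀ x ∈ F, b x = 0) → (∀ x ∈ F, C.d b x = 0) →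
      dgr (C.d b) = 0 := by
  classical
  by_contra hcon
  push Not at hcon
  refine h0 (OB10_coZero C hC fun E => ?_)
  obtain ⟨E', hE'⟩ := hd E
  refine ⟨E', fun c hc hcE => ?_⟩
  by_cases hdc : dgr c = 0
  · exact hE' c hc hcE hdc
  · obtain ⟨b, hb1, hb2, hb3, hb4⟩ := hcon (E ∪ E')
    have key : ∀ a b : ZMod 2, a ≠ 0 → b ≠ 0 → a + b = 0 := by decide
    have h1 : dgr (c + C.d b) = 0 := by
      rw [map_add]
      exact key _ _ hdc hb4
    obtain ⟨b', hb1', hb2', hb3'⟩ := hE' (c + C.d b) (OB10_isCyc_add C hc (OB10_isCyc_d C hb1))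
      (fun x hx => by
        rw [Finsupp.add_apply, hcE x hx, hb3 x (Finset.mem_union_right _ hx), add_zero]) h1
    refine ⟨b' + b, isDeg_add C hb1' hb1, fun x hx => ?_, ?_⟩
    · rw [Finsupp.add_apply, hb2' x hx, hb2 x (Finset.mem_union_left _ hx), add_zero]
    · rw [map_add, hb3', add_assoc, add_self_ch, add_zero]

/-- the degree at infinity is invariant under translations -/
theorem OB10_translate (hC : C.Acyc) {n : ℕ} (h0 : ¬ C.CoZero (n + 1))
    (dgr : Ch C.X →ₗ[ZMod 2] ZMod 2)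
    (hd : ∀ E : Finset C.X, ∃ E' : Finset C.X, ∀ c, C.IsCyc n c → (∀ x ∈ E', c x = 0) → dgr c = 0 →
        ∃ b, C.IsDeg (n + 1) b ∧ (∀ x ∈ E, b x = 0) ∧ C.d b = c) (g : K) :
    ∃ W : Finset C.X, ∀ c, C.IsCyc n c → (∀ x ∈ W, c x = 0) → dgr c = 1 →
      dgr (mp (fun x => g⁻¹ • x) c) = 1 := by
  classical
  obtain ⟨F, hF⟩ := OB10_far_boundary C hC h0 dgr hd
  obtain ⟨E', hE'⟩ := hd (F.image (fun x => g⁻¹ • x))
  refine ⟨F ∪ E'.image (fun x => g • x), fun c hc hcW hc1 => ?_⟩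
  by_contra hne
  have key : ∀ a : ZMod 2, a ≠ 1 → a = 0 := by decide
  have h1 := key _ hne
  obtain ⟨b, hb1, hb2, hb3⟩ := hE' _ (OB10_isCyc_smul C hc g⁻¹) (fun x hx => by
    rw [OB10_mp_apply, inv_inv]
    exact hcW _ (Finset.mem_union_right _ (Finset.mem_image_of_mem _ hx))) h1
  have h2 : C.d (mp (fun x => g • x) b) = c := by
    rw [d_mp_smul, hb3, mp_mp]
    have h3 : (fun x : C.X => g • g⁻¹ • x) = fun x => x := by
      funext x
      rw [smul_inv_smul]
    rw [h3, mp_id]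
  have h4 := hF (mp (fun x => g • x) b) (isDeg_smul_mp C hb1 g) (fun x hx => by
    rw [OB10_mp_apply]
    exact hb2 _ (Finset.mem_image_of_mem _ hx)) (fun x hx => by
    rw [h2]
    exact hcW _ (Finset.mem_union_left _ hx))
  rw [h2, hc1] at h4
  exact one_ne_zero h4

theorem OB10_bd_zero {x : C.X} (hx : C.deg x = 0) : C.bd x = 0 := by
  rw [← Finsupp.support_eq_empty, Finset.eq_empty_iff_forall_notMem]
  intro y hy
  have h1 := C.bd_deg x y hy
  omega

theorem OB10_isDeg_single {n : ℕ} {x : C.X} (hx : C.deg x = n) (a : ZMod 2) :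
    C.IsDeg n (single x a) := by
  intro y hy
  have h2 := Finsupp.support_single_subset hy
  rw [Finset.mem_singleton] at h2
  rw [h2, hx]

theorem OB10_isDeg_smul {n : ℕ} {c : Ch C.X} (h : C.IsDeg n c) (a : ZMod 2) :
    C.IsDeg n (a • c) := fun x hx => h x (Finsupp.support_smul hx)

theorem OB10_path (hC : C.Acyc) {x₀ : C.X} (hx : C.deg x₀ = 0) (hx' : C.eps x₀ = 1) {x : C.X}
    (h : C.deg x = 0) :
    ∃ π, C.IsDeg 1 π ∧ C.d π = single x 1 + C.eps x • single x₀ 1 := by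
  refine hC.2 0 _ ⟨isDeg_add C (OB10_isDeg_single C h 1)
    (OB10_isDeg_smul C (OB10_isDeg_single C hx 1) _), ?_, ?_⟩
  · rw [map_add, map_smul, C.d_single, C.d_single, OB10_bd_zero C h, OB10_bd_zero C hx, smul_zero,
      add_zero]
  · rw [map_add, map_smul, C.aug_single, C.aug_single, hx', smul_eq_mul, mul_one]
    exact CharTwo.add_self_eq_zero _

theorem OB10_isDeg2_sum {n : ℕ} {ι : Type*} (S : Finset ι) (f : ι → Ch (C.X × C.X))
    (h : ∀ i ∈ S, C.IsDeg2 n (f i)) : C.IsDeg2 n (∑ i ∈ S, f i) := by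
  classical
  intro p hp
  obtain ⟨i, hi, h1⟩ := Finset.mem_biUnion.mp (Finsupp.support_finsetSum hp)
  exact h i hi p h1

theorem OB10_isFar_sum {E : Finset C.X} {ι : Type*} (S : Finset ι) (f : ι → Ch (C.X × C.X))
    (h : ∀ i ∈ S, C.IsFar E (f i)) : C.IsFar E (∑ i ∈ S, f i) := by
  classical
  intro p hp
  obtain ⟨i, hi, h1⟩ := Finset.mem_biUnion.mp (Finsupp.support_finsetSum hp)
  exact h i hi p h1

theorem OB10_isDeg2_smul {n : ℕ} {z : Ch (C.X × C.X)} (h : C.IsDeg2 n z) (a : ZMod 2) :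
    C.IsDeg2 n (a • z) := fun p hp => h p (Finsupp.support_smul hp)

theorem OB10_isFar_smul {E : Finset C.X} {z : Ch (C.X × C.X)} (h : C.IsFar E z) (a : ZMod 2) :
    C.IsFar E (a • z) := fun p hp => h p (Finsupp.support_smul hp)

end OB10

theorem far_top {K : Type v} [Group K] (C : Cx.{u, v} K) (hC : C.Acyc) {n : ℕ}
    (h : ∀ i ≤ n, C.CoZero i) (h1 : C.CoOne (n + 1)) (x₀ : C.X) (hx : C.deg x₀ = 0)
    (hx' : C.eps x₀ = 1) (E : Finset C.X) :
    ∃ E' : Finset C.X, ∀ z, C.IsCyc2 n z → C.IsFar E' z → ∀ E'' : Finset C.X,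
      ∃ s, C.IsCyc n s ∧ (∀ x ∈ E'', s x = 0) ∧
        ∃ b, C.IsDeg2 (n + 1) b ∧ C.IsFar E b ∧ C.d2 b = z + mp (fun y => (x₀, y)) s := by
  classical
  by_cases h0 : C.CoZero (n + 1)
  · obtain ⟨E', hE'⟩ := far_acyc C hC (n := n) (fun i hi => by
      rcases Nat.lt_or_ge i (n + 1) with hlt | hge
      · exact h i (by omega)
      · have : i = n + 1 := by omega
        rw [this]
        exact h0) E
    refine ⟨E', fun z hz hzE E'' => ⟨0, OB10_isCyc_zero C n, fun x _ => rfl, ?_⟩⟩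
    obtain ⟨b, hb1, hb2, hb3⟩ := hE' z hz hzE
    exact ⟨b, hb1, hb2, by rw [hb3, map_zero, add_zero]⟩
  obtain ⟨dgr, hd1, hd2⟩ := avoid_one C hC h1 h0
  obtain ⟨E0, hE0⟩ := C.fin 0
  choose P hP using hd1
  let M : C.X → Finset C.X := fun y => (finite_not_far C E y).toFinset
  have hM : ∀ x y, y ∉ M x → Far K (E : Set C.X) (x, y) := by
    intro x y hy
    by_contra hcon
    exact hy ((Set.Finite.mem_toFinset _).mpr hcon)
  let E₁ : Finset C.X := E ∪ (E0 ∪ E0.biUnion fun e => P (M e))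
  obtain ⟨E', hE'⟩ := far_filter C hC h E₁
  refine ⟨E', fun z hz hzE E'' => ?_⟩
  obtain ⟨b₀, hb₀1, hb₀2, hz'1, hz'2, hz'3⟩ := hE' z hz hzE
  set z' := z + C.d2 b₀ with hz'
  let S : Finset C.X := z'.support.image Prod.fst
  have hS : ∀ p ∈ z'.support, p.1 ∈ S := fun p hp => Finset.mem_image_of_mem _ hp
  have hS0 : ∀ x ∈ S, C.deg x = 0 := by
    intro x hx
    obtain ⟨p, hp, rfl⟩ := Finset.mem_image.mp hx
    exact hz'2 p hp
  have hsum := sum_slice z' S hS
  have hrep : ∀ x : C.X, ∃ g : K, ∃ e : C.X, C.deg x = 0 → e ∈ E0 ∧ g • e = x := by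
    intro x
    by_cases hx : C.deg x = 0
    · obtain ⟨g, e, he, hge⟩ := hE0 x hx
      exact ⟨g, e, fun _ => ⟨he, hge⟩⟩
    · exact ⟨1, x, fun h => absurd h hx⟩
  choose g e hge using hrep
  have hpath : ∀ x : C.X, ∃ π : Ch C.X, C.deg x = 0 →
      C.IsDeg 1 π ∧ C.d π = single x 1 + C.eps x • single x₀ 1 := by
    intro x
    by_cases hx0 : C.deg x = 0
    · obtain ⟨π, hπ⟩ := OB10_path C hC hx hx' hx0
      exact ⟨π, fun _ => hπ⟩
    · exact ⟨0, fun h => absurd h hx0⟩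
  choose π hπ using hpath
  have htr := fun x => OB10_translate C hC h0 dgr (fun E => ⟨P E, hP E⟩) (g x)
  choose W hW using htr
  let H : Finset C.X := E'' ∪ S.biUnion (fun x => W x ∪ ((P (M (e x))).image (fun y => g x • y) ∪
    (π x).support.biUnion M))
  obtain ⟨s₀, hs1, hs2, hs3⟩ := hd2 H
  have hsE : ∀ x ∈ E'', s₀ x = 0 := fun x hx => hs2 x (Finset.mem_union_left _ hx)
  have hsW : ∀ x ∈ S, ∀ y ∈ W x, s₀ y = 0 := fun x hx y hy => hs2 y (Finset.mem_union_right _
    (Finset.mem_biUnion.mpr ⟨x, hx, Finset.mem_union_left _ hy⟩))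
  have hsP : ∀ x ∈ S, ∀ y ∈ P (M (e x)), s₀ (g x • y) = 0 := fun x hx y hy =>
    hs2 _ (Finset.mem_union_right _ (Finset.mem_biUnion.mpr ⟨x, hx, Finset.mem_union_right _
      (Finset.mem_union_left _ (Finset.mem_image_of_mem _ hy))⟩))
  have hsM : ∀ x ∈ S, ∀ y ∈ (π x).support, ∀ w ∈ M y, s₀ w = 0 := fun x hx y hy w hw =>
    hs2 _ (Finset.mem_union_right _ (Finset.mem_biUnion.mpr ⟨x, hx, Finset.mem_union_right _
      (Finset.mem_union_right _ (Finset.mem_biUnion.mpr ⟨y, hy, hw⟩))⟩))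
  let D : C.X → ZMod 2 := fun x => dgr (mp (fun y => (g x)⁻¹ • y) (slice z' x))
  -- the filling of the slices
  have hfill : ∀ x : C.X, ∃ b : Ch C.X, x ∈ S → C.IsDeg (n + 1) b ∧
      (∀ y ∈ b.support, Far K (E : Set C.X) (x, y)) ∧ C.d b = slice z' x + D x • s₀ := by
    intro x
    by_cases hxS : x ∈ S
    · obtain ⟨he0, hgex⟩ := hge x (hS0 x hxS)
      have hsl : ∀ y ∈ P (M (e x)), slice z' x (g x • y) = 0 := by
        intro y hy
        by_contra hne
        have h3 : (x, g x • y) ∈ z'.support := Finsupp.mem_support_iff.mpr hne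
        have h4 := hz'1 _ h3 (g x)⁻¹
        simp only [inv_smul_smul] at h4
        have h5 : (g x)⁻¹ • x = e x := by
          rw [inv_smul_eq_iff, hgex]
        rw [h5] at h4
        refine h4 ?_ ?_
        · exact Finset.mem_coe.mpr (Finset.mem_union_right _ (Finset.mem_union_left _ he0))
        · exact Finset.mem_coe.mpr (Finset.mem_union_right _ (Finset.mem_union_right _
            (Finset.mem_biUnion.mpr ⟨e x, he0, hy⟩)))
      have hcyc : C.IsCyc n (slice z' x + D x • s₀) :=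
        OB10_isCyc_add C (hz'3 x) (OB10_isCyc_smul' C hs1 _)
      have hdgr : dgr (mp (fun y => (g x)⁻¹ • y) (slice z' x + D x • s₀)) = 0 := by
        rw [map_add, map_add, map_smul, map_smul, hW x s₀ hs1 (hsW x hxS) hs3, smul_eq_mul,
          mul_one]
        exact CharTwo.add_self_eq_zero _
      obtain ⟨b, hb1, hb2, hb3⟩ := hP (M (e x)) _ (OB10_isCyc_smul C hcyc (g x)⁻¹) (fun y hy => by
        rw [OB10_mp_apply, inv_inv, Finsupp.add_apply, Finsupp.smul_apply, hsl y hy,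
          hsP x hxS y hy, smul_zero, add_zero]) hdgr
      refine ⟨mp (fun y => g x • y) b, fun _ => ⟨isDeg_smul_mp C hb1 _, ?_, ?_⟩⟩
      · intro y hy
        obtain ⟨y', hy', rfl⟩ := mem_support_mp hy
        have h6 : y' ∉ M (e x) := fun hcon => by
          have := hb2 y' hcon
          exact (Finsupp.mem_support_iff.mp hy') this
        have h7 := far_smul (hM _ _ h6) (g x)
        rw [hgex] at h7
        exact h7
      · rw [d_mp_smul, hb3, mp_mp]
        have h3 : (fun y : C.X => g x • (g x)⁻¹ • y) = fun y => y := by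
          funext y
          rw [smul_inv_smul]
        rw [h3, mp_id]
    · exact ⟨0, fun h => absurd h hxS⟩
  choose bx hbx using hfill
  let β : Ch (C.X × C.X) := ∑ x ∈ S, (cr (single x 1) (bx x) + D x • cr (π x) s₀)
  have hβ : C.d2 β = z' + (∑ x ∈ S, D x * C.eps x) • cr (single x₀ 1) s₀ := by
    have h8 : ∀ x ∈ S, C.d2 (cr (single x 1) (bx x) + D x • cr (π x) s₀) =
        cr (single x 1) (slice z' x) + (D x * C.eps x) • cr (single x₀ 1) s₀ := by
      intro x hxS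
      rw [map_add, map_smul, d2_cr, d2_cr, C.d_single, OB10_bd_zero C (hS0 x hxS), cr_zero_left,
        zero_add, (hbx x hxS).2.2, (hπ x (hS0 x hxS)).2, hs1.2.1, cr_zero_right, add_zero,
        cr_add_right, cr_add_left, cr_smul_left, cr_smul_right, smul_add, ← mul_smul]
      rw [add_assoc, ← add_assoc (D x • _) (D x • _) _, add_self_ch, zero_add]
    rw [map_sum, Finset.sum_congr rfl h8, Finset.sum_add_distrib, hsum, Finset.sum_smul]
  refine ⟨(∑ x ∈ S, D x * C.eps x) • s₀, OB10_isCyc_smul' C hs1 _, fun x hx => ?_,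
    β + b₀, ?_, ?_, ?_⟩
  · rw [Finsupp.smul_apply, hsE x hx, smul_zero]
  · refine isDeg2_add C (OB10_isDeg2_sum C S _ fun x hxS => isDeg2_add C ?_ ?_) hb₀1
    · have h9 := isDeg2_cr C (OB10_isDeg_single C (hS0 x hxS) 1) (hbx x hxS).1
      rwa [zero_add] at h9
    · have h9 := isDeg2_cr C (hπ x (hS0 x hxS)).1 hs1.1
      rw [add_comm 1 n] at h9
      exact OB10_isDeg2_smul C h9 _
  · refine isFar_add C (OB10_isFar_sum C S _ fun x hxS => isFar_add C ?_ ?_)
      (isFar_mono C Finset.subset_union_left hb₀2)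
    · rintro ⟨p, q⟩ hp
      obtain ⟨h10, h11⟩ := mem_support_cr hp
      have h12 := Finsupp.support_single_subset h10
      rw [Finset.mem_singleton] at h12
      have h13 : p = x := h12
      rw [h13]
      exact (hbx x hxS).2.1 q h11
    · refine OB10_isFar_smul C ?_ _
      rintro ⟨p, q⟩ hp
      obtain ⟨h10, h11⟩ := mem_support_cr hp
      exact hM p q fun hcon => (Finsupp.mem_support_iff.mp h11) (hsM x hxS p h10 q hcon)
  · rw [map_add, hβ, hz', map_smul, ← cr_single]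
    have h14 : ∀ u v w : Ch (C.X × C.X), u + v + w + v = u + w + (v + v) := fun u v w => by abel
    rw [h14, add_self_ch, add_zero]

end Ob

end OS
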