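import Mathlib
import Pool.Agent.Lib.MP_8fe54c_gt.ObDefs
import Pool.Agent.Lib.MP_8fe54c_gt.ObCross
import Pool.Agent.Lib.MP_8fe54c_gt.ObSlice
import Pool.Agent.Lib.MP_8fe54c_gt.ObFar
import Pool.Agent.Lib.MP_8fe54c_gt.ObTop
import Pool.Agent.Lib.MP_8fe54c_gt.ObMap

/-!
# A duality subgroup and an element of infinite order (OB12)
-/

namespace OS

namespace Ob

open Finsupp

universe u v w u' v'

section OB12

variable {K : Type v} [Group K] (C : Cx.{u, v} K)

/-- the cones of a tower -/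
theorem OB12_cones (hC : C.Acyc) {x₀ : C.X} (hx : C.deg x₀ = 0) (hx' : C.eps x₀ = 1)
    (t : ℕ → Ch (C.X × C.X)) (h0 : C.aug2 (t 0) = 1) :
    ∀ m : ℕ, (∀ i < m + 1, C.IsDeg2 i (t i)) →
    (∀ i, i + 1 < m + 1 → C.d2 (t (i + 1)) = t i + sw (t i)) →
    ∃ k : ℕ → Ch (C.X × C.X), (∀ i < m + 1, C.IsDeg2 (i + 1) (k i)) ∧
      C.d2 (k 0) = t 0 + single (x₀, x₀) 1 ∧
      ∀ i, i + 1 < m + 1 → C.d2 (k (i + 1)) = t (i + 1) + (k i + sw (k i)) := by
  intro m
  induction m with
  | zero =>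
    intro h1 _
    have hdeg' : C.IsDeg2 0 (single (x₀, x₀) (1 : ZMod 2)) := isDeg2_single C (by omega)
    have hdeg : C.IsDeg2 0 (t 0 + single (x₀, x₀) 1) := isDeg2_add C (h1 0 Nat.one_pos) hdeg'
    have hcyc : C.IsCyc2 0 (t 0 + single (x₀, x₀) 1) := by
      refine ⟨hdeg, d2_of_isDeg2_zero C hdeg, ?_⟩
      rw [map_add, h0, aug2_single]
      simp only [hx', mul_one]
      exact CharTwo.add_self_eq_zero 1
    obtain ⟨k₀, hk1, hk2⟩ := acyc2 C hC hcyc
    refine ⟨fun _ => k₀, ?_, hk2, ?_⟩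
    · intro i hi
      obtain rfl : i = 0 := by omega
      exact hk1
    · intro i hi
      omega
  | succ m ih =>
    intro h1 h2
    obtain ⟨k, a1, a2, a3⟩ := ih (fun i hi => h1 i (by omega)) (fun i hi => h2 i (by omega))
    have hk1 := a1 m (Nat.lt_succ_self m)
    have hdk : C.d2 (k m) + sw (C.d2 (k m)) = t m + sw (t m) := by
      rcases Nat.eq_zero_or_pos m with hm | hm
      · subst hm
        rw [a2, map_add, sw_single]
        have := add_self_ch (single (x₀, x₀) (1 : ZMod 2))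
        calc t 0 + single (x₀, x₀) 1 + (sw (t 0) + single (x₀, x₀) 1) =
            t 0 + sw (t 0) + (single (x₀, x₀) 1 + single (x₀, x₀) 1) := by abel
          _ = _ := by rw [this, add_zero]
      · obtain ⟨j, rfl⟩ : ∃ j, m = j + 1 := ⟨m - 1, by omega⟩
        rw [a3 j (by omega), map_add]
        have := sym_add_sw (k j)
        calc t (j + 1) + (k j + sw (k j)) + (sw (t (j + 1)) + sw (k j + sw (k j))) =
            t (j + 1) + sw (t (j + 1)) + ((k j + sw (k j)) + sw (k j + sw (k j))) := by abel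
          _ = _ := by rw [this, add_zero]
    have ht' := h1 (m + 1) (Nat.lt_succ_self _)
    have hcyc' : C.IsCyc2 (m + 1) (t (m + 1) + (k m + sw (k m))) := by
      have hdg : C.IsDeg2 (m + 1) (t (m + 1) + (k m + sw (k m))) :=
        isDeg2_add C ht' (isDeg2_add C hk1 (isDeg2_sw C hk1))
      refine ⟨hdg, ?_, aug2_of_isDeg2 C (Nat.succ_ne_zero m) hdg⟩
      rw [map_add, map_add, d2_sw, h2 m (by omega), hdk, add_self_ch]
    obtain ⟨k', hk'1, hk'2⟩ := acyc2 C hC hcyc'
    refine ⟨fun i => if i < m + 1 then k i else k', ?_, ?_, ?_⟩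
    · intro i hi
      by_cases hi' : i < m + 1
      · simp only [if_pos hi']
        exact a1 i hi'
      · simp only [if_neg hi']
        obtain rfl : i = m + 1 := by omega
        exact hk'1
    · simp only [if_pos (Nat.succ_pos m)]
      exact a2
    · intro i hi
      have hi0 : i < m + 1 := by omega
      simp only [if_pos hi0]
      by_cases hi' : i + 1 < m + 1
      · simp only [if_pos hi']
        exact a3 i hi'
      · simp only [if_neg hi']
        obtain rfl : i = m := by omega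
        exact hk'2

end OB12

section OB12b

variable {Γ : Type u} [Group Γ] (C : Cx.{u, u} Γ)

/-- the path from `c` to `g ^ N • c` -/
noncomputable def OB12_path (g : Γ) (π : Ch C.X) (N : ℕ) : Ch C.X :=
  ∑ j ∈ Finset.range N, mp (fun x => g ^ j • x) π

theorem OB12_path_deg (g : Γ) {π : Ch C.X} (hπ : C.IsDeg 1 π) (N : ℕ) :
    C.IsDeg 1 (OB12_path C g π N) := by
  induction N with
  | zero => exact isDeg_zero C 1
  | succ N ih =>
    rw [OB12_path, Finset.sum_range_succ]
    exact isDeg_add C ih (isDeg_smul_mp C hπ _)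

theorem OB12_path_d (g : Γ) {π c : Ch C.X} (hπ : C.d π = mp (fun x => g • x) c + c) (N : ℕ) :
    C.d (OB12_path C g π N) = mp (fun x => g ^ N • x) c + c := by
  induction N with
  | zero =>
    have h1 : mp (fun x => g ^ 0 • x) c = c := by
      simp only [pow_zero, one_smul]
      exact mp_id c
    rw [h1, add_self_ch, OB12_path, Finset.range_zero, Finset.sum_empty, map_zero]
  | succ N ih =>
    have h1 : OB12_path C g π (N + 1) = OB12_path C g π N + mp (fun x => g ^ N • x) π :=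
      Finset.sum_range_succ _ _
    have h2 : mp (fun x : C.X => g ^ N • x) (mp (fun x => g • x) c) =
        mp (fun x => g ^ (N + 1) • x) c := by
      rw [mp_mp]
      simp only [← mul_smul, ← pow_succ]
    rw [h1, map_add, ih, d_mp_smul, hπ, map_add, h2]
    have := add_self_ch (mp (fun x : C.X => g ^ N • x) c)
    calc mp (fun x => g ^ N • x) c + c + (mp (fun x => g ^ (N + 1) • x) c +
        mp (fun x => g ^ N • x) c) = mp (fun x => g ^ (N + 1) • x) c + c +
          (mp (fun x : C.X => g ^ N • x) c + mp (fun x => g ^ N • x) c) := by abel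
      _ = _ := by rw [this, add_zero]

theorem OB12_path_supp (g : Γ) (π : Ch C.X) (N : ℕ) {x : C.X}
    (hx : x ∈ (OB12_path C g π N).support) : ∃ j, ∃ y ∈ π.support, g ^ j • y = x := by
  classical
  obtain ⟨j, -, hj⟩ := Finset.mem_biUnion.mp (Finsupp.support_finsetSum hx)
  obtain ⟨y, hy, hyx⟩ := mem_support_mp hj
  exact ⟨j, y, hy, hyx⟩

end OB12b

theorem obs_of_pd {Γ : Type u} [Group Γ] (C : Cx.{u, u} Γ) (hC : C.Acyc) (A : Subgroup Γ)
    (P : Cx.{u, u} A) (hP : P.Acyc) {n : ℕ} (h : ∀ i ≤ n, P.CoZero i) (h1 : P.CoOne (n + 1))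
    (g : Γ) (hg : ∀ k : ℕ, g ^ k ∈ A → k = 0) : Obs Γ (n + 2) := by
  classical
  refine ⟨Γ, inferInstance, MonoidHom.id Γ, Function.injective_id, C, ?_⟩
  obtain ⟨y₀, hy₀'⟩ := hC.1
  have hy₀ := deg_of_eps C hy₀'
  refine ⟨y₀, hy₀, hy₀', fun E => ?_⟩
  obtain ⟨x₀, hx₀'⟩ := hP.1
  have hx₀ := deg_of_eps P hx₀'
  obtain ⟨f, hf⟩ := exists_isMap P C A.subtype hC
  have hinj : Function.Injective A.subtype := A.subtype_injective
  choose EP hEP using fun n => push_far (P := P) (C := C) hinj hf n E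
  set E₁ : Finset P.X := (Finset.range (n + 2)).biUnion EP with hE₁
  have hE₁' : ∀ i < n + 2, EP i ⊆ E₁ := fun i hi =>
    Finset.subset_biUnion_of_mem EP (Finset.mem_range.mpr hi)
  obtain ⟨E₂, hE₂⟩ := far_top P hP h h1 x₀ hx₀ hx₀' E₁
  obtain ⟨x₁, hx₁, hx₁', hT⟩ := tow_of_co P hP (m := n + 1) (fun i hi => h i (by omega))
  obtain ⟨tP, kP, a1, a2, a3⟩ := hT (E₁ ∪ E₂)
  have a2' := a2 (Nat.succ_pos n)
  have hz : P.IsCyc2 n (tP n + sw (tP n)) := by
    have hd := (a1 n (Nat.lt_succ_self n)).1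
    refine ⟨isDeg2_add P hd (isDeg2_sw P hd), ?_, ?_⟩
    · rw [map_add, d2_sw]
      rcases Nat.eq_zero_or_pos n with hm | hm
      · subst hm
        rw [d2_of_isDeg2_zero P hd, map_zero, add_zero]
      · obtain ⟨j, rfl⟩ : ∃ j, n = j + 1 := ⟨n - 1, by omega⟩
        rw [(a3 j (by omega)).1]
        exact sym_add_sw _
    · rw [map_add, aug2_sw]
      exact CharTwo.add_self_eq_zero _
  have hzfar : P.IsFar E₂ (tP n + sw (tP n)) := by
    have hfar := isFar_mono P Finset.subset_union_right (a1 n (Nat.lt_succ_self n)).2.1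
    exact isFar_add P hfar (isFar_sw P hfar)
  -- the path
  have hc0 : C.IsDeg 0 (f x₀) := by
    have := hf.deg x₀
    rwa [hx₀] at this
  have hd0 : ∀ c, C.IsDeg 0 c → C.d c = 0 := by
    intro c hc
    have h : C.d c = ∑ p ∈ c.support, c p • C.bd p := rfl
    rw [h]
    refine Finset.sum_eq_zero fun p hp => ?_
    rw [bd_of_deg C (hc p hp), smul_zero]
  have hcyc : C.IsCyc 0 (mp (fun x => g • x) (f x₀) + f x₀) := by
    have hdeg := isDeg_add C (isDeg_smul_mp C hc0 g) hc0
    refine ⟨hdeg, hd0 _ hdeg, ?_⟩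
    rw [map_add, aug_mp_smul]
    exact CharTwo.add_self_eq_zero _
  obtain ⟨π, hπ1, hπ2⟩ := hC.2 0 _ hcyc
  have hπ1' : C.IsDeg 1 π := hπ1
  -- the finite set which has to be avoided
  obtain ⟨R, hR⟩ := P.fin n
  have hF1 : (⋃ y ∈ π.support, {k : Γ | k • y ∈ E}).Finite :=
    Set.Finite.biUnion π.support.finite_toSet fun y _ => finite_smul_mem C E y
  set F1 : Set Γ := ⋃ y ∈ π.support, {k : Γ | k • y ∈ E} with hF1def
  have hF2 : (⋃ y ∈ R.biUnion (fun e => (f e).support), {k : Γ | k • y ∈ E}).Finite :=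
    Set.Finite.biUnion (R.biUnion (fun e => (f e).support)).finite_toSet
      fun y _ => finite_smul_mem C E y
  set F2 : Set Γ := ⋃ y ∈ R.biUnion (fun e => (f e).support), {k : Γ | k • y ∈ E} with hF2def
  have hT : (Set.image2 (fun k k' : Γ => k⁻¹ * k') F1 F2).Finite := hF1.image2 _ hF2
  have hB : {a : A | ∃ j : ℕ, ∃ τ ∈ Set.image2 (fun k k' : Γ => k⁻¹ * k') F1 F2,
      (a : Γ) = g ^ j * τ}.Finite := by
    have h2 : {a : A | ∃ j : ℕ, ∃ τ ∈ Set.image2 (fun k k' : Γ => k⁻¹ * k') F1 F2,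
        (a : Γ) = g ^ j * τ} ⊆ ⋃ τ ∈ Set.image2 (fun k k' : Γ => k⁻¹ * k') F1 F2,
          {a : A | ∃ j : ℕ, (a : Γ) = g ^ j * τ} := by
      rintro a ⟨j, τ, hτ, ha⟩
      exact Set.mem_biUnion hτ ⟨j, ha⟩
    refine Set.Finite.subset (Set.Finite.biUnion hT fun τ _ => ?_) h2
    refine Set.Subsingleton.finite ?_
    rintro a ⟨j, ha⟩ b ⟨j', hb⟩
    have h3 : ∀ (a b : A) (j j' : ℕ), j ≤ j' → (a : Γ) = g ^ j * τ → (b : Γ) = g ^ j' * τ →
        a = b := by
      intro a b j j' hjj ha hb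
      have h4 : g ^ (j' - j) ∈ A := by
        have h5 : g ^ (j' - j) = (b : Γ) * (a : Γ)⁻¹ := by
          rw [ha, hb, mul_inv_rev, mul_assoc, mul_inv_cancel_left, ← pow_sub g hjj]
        rw [h5]
        exact A.mul_mem b.2 (A.inv_mem a.2)
      have h6 := hg _ h4
      have h7 : j' = j := by omega
      subst h7
      exact Subtype.ext (ha.trans hb.symm)
    rcases le_total j j' with hj | hj
    · exact h3 a b j j' hj ha hb
    · exact (h3 b a j' j hj hb ha).symm
  obtain ⟨s, hs1, hs2, b, hb1, hb2, hb3⟩ := hE₂ _ hz hzfar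
    (hB.toFinset.biUnion fun a => R.image fun e => a • e)
  obtain ⟨D, hD1, hD2⟩ := hP.2 n s hs1
  -- the number of translates
  have hF3 : (⋃ y ∈ (f x₀).support, {k : Γ | k • y ∈ E}).Finite :=
    Set.Finite.biUnion (f x₀).support.finite_toSet fun y _ => finite_smul_mem C E y
  set F3 : Set Γ := ⋃ y ∈ (f x₀).support, {k : Γ | k • y ∈ E} with hF3def
  have hF4 : (⋃ y ∈ (lin f D).support, {k : Γ | k • y ∈ E}).Finite :=
    Set.Finite.biUnion (lin f D).support.finite_toSet fun y _ => finite_smul_mem C E y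
  set F4 : Set Γ := ⋃ y ∈ (lin f D).support, {k : Γ | k • y ∈ E} with hF4def
  have hT2 : (Set.image2 (fun k k' : Γ => k⁻¹ * k') F4 F3).Finite := hF4.image2 _ hF3
  have hginj : Function.Injective (fun N : ℕ => g ^ N) := by
    have h3 : ∀ a b : ℕ, a ≤ b → g ^ a = g ^ b → a = b := by
      intro a b hab hh
      have h4 : g ^ (b - a) ∈ A := by
        rw [pow_sub g hab, hh, mul_inv_cancel]
        exact A.one_mem
      have := hg _ h4
      omega
    intro a b hab
    rcases le_total a b with hj | hj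
    · exact h3 a b hj hab
    · exact (h3 b a hj hab.symm).symm
  obtain ⟨N, hN⟩ : ∃ N : ℕ, g ^ N ∉ Set.image2 (fun k k' : Γ => k⁻¹ * k') F4 F3 := by
    by_contra hcon
    push Not at hcon
    exact Set.infinite_of_injective_forall_mem hginj hcon hT2
  set β : Ch (C.X × C.X) := cr (OB12_path C g π N) (lin f s) +
    cr (mp (fun x => g ^ N • x) (f x₀)) (lin f D) with hβ
  have hfd : ∀ c, C.d (lin f c) = lin f (P.d c) := by
    intro c
    have h := hom_ext (f := C.d ∘ₗ lin f) (g := lin f ∘ₗ P.d) (fun x => by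
      rw [LinearMap.comp_apply, LinearMap.comp_apply, lin_single, P.d_single, hf.d]) c
    exact h
  have hfdeg : ∀ m c, P.IsDeg m c → C.IsDeg m (lin f c) := by
    intro m c hc y hy
    obtain ⟨x, hx, hxy⟩ := mem_support_lin hy
    rw [hf.deg x y hxy, hc x hx]
  have hβd : C.d2 β = cr (f x₀) (lin f s) := by
    rw [hβ, map_add, d2_cr, d2_cr, OB12_path_d C g hπ2, hfd, hfd, hs1.2.1, hD2,
      hd0 _ (isDeg_smul_mp C hc0 _), map_zero, cr_zero_right, cr_zero_left, add_zero, zero_add,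
      cr_add_left]
    have := add_self_ch (cr (mp (fun x => g ^ N • x) (f x₀)) (lin f s))
    calc cr (mp (fun x => g ^ N • x) (f x₀)) (lin f s) + cr (f x₀) (lin f s) +
        cr (mp (fun x => g ^ N • x) (f x₀)) (lin f s) = (cr (mp (fun x => g ^ N • x) (f x₀))
          (lin f s) + cr (mp (fun x => g ^ N • x) (f x₀)) (lin f s)) + cr (f x₀) (lin f s) := by
          abel
      _ = _ := by rw [this, zero_add]
  have hβdeg : C.IsDeg2 (n + 1) β := by
    refine isDeg2_add C ?_ ?_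
    · have := isDeg2_cr C (OB12_path_deg C g hπ1' N) (hfdeg n s hs1.1)
      rwa [add_comm 1 n] at this
    · have := isDeg2_cr C (isDeg_smul_mp C hc0 (g ^ N)) (hfdeg (n + 1) D hD1)
      rwa [zero_add] at this
  have hβfar : C.IsFar E β := by
    refine isFar_add C ?_ ?_
    · rintro ⟨q1, q2⟩ hq
      obtain ⟨hq1, hq2⟩ := mem_support_cr hq
      obtain ⟨j, y, hy, hyq⟩ := OB12_path_supp C g π N hq1
      obtain ⟨x, hx, hxq⟩ := mem_support_lin hq2
      obtain ⟨a, e, he, hae⟩ := hR x (hs1.1 x hx)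
      rw [← hae, hf.smul] at hxq
      obtain ⟨y', hy', hyq'⟩ := mem_support_mp hxq
      simp only at hyq hyq'
      intro γ hγ1 hγ2
      simp only at hγ1 hγ2
      rw [← hyq, ← mul_smul] at hγ1
      rw [← hyq', ← mul_smul] at hγ2
      have hk : γ * g ^ j ∈ F1 := Set.mem_biUnion hy (Finset.mem_coe.mp hγ1)
      have hk' : γ * A.subtype a ∈ F2 :=
        Set.mem_biUnion (Finset.mem_biUnion.mpr ⟨e, he, hy'⟩) (Finset.mem_coe.mp hγ2)
      have ha : a ∈ {a : A | ∃ j : ℕ, ∃ τ ∈ Set.image2 (fun k k' : Γ => k⁻¹ * k') F1 F2,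
          (a : Γ) = g ^ j * τ} := by
        refine ⟨j, _, ⟨_, hk, _, hk', rfl⟩, ?_⟩
        simp only [Subgroup.subtype_apply]
        group
      have hs3 := hs2 x (by
        rw [← hae]
        exact Finset.mem_biUnion.mpr ⟨a, hB.mem_toFinset.mpr ha,
          Finset.mem_image_of_mem _ he⟩)
      exact (Finsupp.mem_support_iff.mp hx) hs3
    · rintro ⟨q1, q2⟩ hq
      obtain ⟨hq1, hq2⟩ := mem_support_cr hq
      obtain ⟨y, hy, hyq⟩ := mem_support_mp hq1
      simp only at hyq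
      intro γ hγ1 hγ2
      simp only at hγ1 hγ2
      rw [← hyq, ← mul_smul] at hγ1
      have hk : γ * g ^ N ∈ F3 := Set.mem_biUnion hy (Finset.mem_coe.mp hγ1)
      have hk' : γ ∈ F4 := Set.mem_biUnion hq2 (Finset.mem_coe.mp hγ2)
      refine hN ⟨γ, hk', γ * g ^ N, hk, ?_⟩
      simp only
      group
  -- the tower
  have hs4 : mp (fun y => (x₀, y)) s = cr (single x₀ 1) s := (cr_single x₀ s).symm
  set t : ℕ → Ch (C.X × C.X) := fun i => if i < n + 1 then map2 f (tP i) else map2 f b + β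
    with ht
  have ht1 : ∀ i, i < n + 1 → t i = map2 f (tP i) := fun i hi => by
    rw [ht]
    simp only [if_pos hi]
  have ht2 : t (n + 1) = map2 f b + β := by
    rw [ht]
    simp only [lt_irrefl, if_false]
  have htdeg : ∀ i < n + 1 + 1, C.IsDeg2 i (t i) := by
    intro i hi
    by_cases hi' : i < n + 1
    · rw [ht1 i hi']
      exact isDeg2_map2 hf (a1 i hi').1
    · obtain rfl : i = n + 1 := by omega
      rw [ht2]
      exact isDeg2_add C (isDeg2_map2 hf hb1) hβdeg
  have htfar : ∀ i < n + 1 + 1, C.IsFar E (t i) := by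
    intro i hi
    by_cases hi' : i < n + 1
    · rw [ht1 i hi']
      obtain ⟨c1, c2, -⟩ := a1 i hi'
      exact hEP i _ c1 (isFar_mono P ((hE₁' i (by omega)).trans Finset.subset_union_left) c2)
    · obtain rfl : i = n + 1 := by omega
      rw [ht2]
      exact isFar_add C (hEP (n + 1) _ hb1 (isFar_mono P (hE₁' (n + 1) (by omega)) hb2)) hβfar
  have htd : ∀ i, i + 1 < n + 1 + 1 → C.d2 (t (i + 1)) = t i + sw (t i) := by
    intro i hi
    by_cases hi' : i + 1 < n + 1
    · rw [ht1 _ hi', ht1 i (by omega), d2_map2 hf, (a3 i hi').1, map_add, sw_map2]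
    · obtain rfl : i = n := by omega
      rw [ht2, ht1 i (by omega), map_add, d2_map2 hf, hb3, hβd, hs4, map_add, map2_cr,
        lin_single, map_add, sw_map2]
      have := add_self_ch (cr (f x₀) (lin f s))
      calc map2 f (tP i) + map2 f (sw (tP i)) + cr (f x₀) (lin f s) + cr (f x₀) (lin f s) =
          map2 f (tP i) + map2 f (sw (tP i)) + (cr (f x₀) (lin f s) + cr (f x₀) (lin f s)) := by
            abel
        _ = _ := by rw [this, add_zero]
  have ht0 : C.aug2 (t 0) = 1 := by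
    rw [ht1 0 (Nat.succ_pos n), aug2_map2 hf]
    have h5 := aug2_d2 P (kP 0)
    rw [a2', map_add, aug2_single] at h5
    simp only [hx₁', mul_one] at h5
    have h6 : P.aug2 (tP 0) = P.aug2 (tP 0) + 1 + 1 := by
      rw [add_assoc, CharTwo.add_self_eq_zero (1 : ZMod 2), add_zero]
    rw [h6, h5, zero_add]
  obtain ⟨k, hk1, hk2, hk3⟩ := OB12_cones C hC hy₀ hy₀' t ht0 (n + 1) htdeg htd
  refine ⟨t, k, fun i hi => ⟨htdeg i hi, htfar i hi, hk1 i hi⟩, fun _ => hk2, fun i hi =>
    ⟨htd i hi, hk3 i hi⟩⟩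

end Ob

end OS
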