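import Mathlib
import Pool.Agent.Lib.MP_8fe54c_gt.ObClass
import Pool.Agent.Lib.MP_8fe54c_gt.ObGrp
import Pool.Agent.Lib.MP_8fe54c_gt.ObFlag
import Pool.Agent.Lib.MP_8fe54c_gt.ObDim
import Pool.Agent.Lib.MP_8fe54c_gt.ObCx
import Pool.Agent.Lib.MP_8fe54c_gt.ObFar
import Pool.Agent.Lib.MP_8fe54c_gt.ObPD
import Pool.Agent.Lib.MP_8fe54c_gt.ObGP
import Pool.Agent.Lib.MP_8fe54c_gt.KMain

/-!
# Project OB, assembly
-/

namespace OS

namespace Ob

open Finsupp MulOpposite GP

universe u v w u' v' w'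

/-- the property proved by induction: for every degree `k`, there are no harmonic chains in degree
`k`, or there is a coarse obstructor of dimension `2 k` -/
def Good (Γ : Type u) [Group Γ] : Prop :=
  ∃ R : FreeRes.{u, u} Γ, ∀ k, R.HarmZero ℝ k ∨ Obs Γ (2 * k)

theorem good_of_flagGood {Γ : Type u} [Group Γ] (h : GP.Good Γ) : Good Γ := by
  obtain ⟨R, hR⟩ := h
  refine ⟨R, fun k => ?_⟩
  rcases hR k with h | ⟨d, hd, h⟩
  · exact Or.inl h
  · exact Or.inr (obs_le (obs_of_flag h) (by omega))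

theorem K_dual (Γ : Type u) [Group Γ] (m : ℕ) (A : Subgroup Γ) (hA : CoVan A m)
    (hk : ∀ k, m < 2 * k → BZero Γ k) : Good Γ := by
  obtain ⟨C, hF, hE⟩ := hasRes_of_BZero (hk (m + 1) (by omega))
  obtain ⟨P, hPF, hPE, hP⟩ := hA
  have hO : Obs A m := ⟨A, inferInstance, MonoidHom.id _, Function.injective_id,
    cxOf P hPF hPE, tow_of_co _ (cxOf_acyc P hPF hPE) (fun i hi => cxOf_coZero P hPF hPE (hP i hi))⟩
  refine ⟨C.toFreeRes hF hE, fun k => ?_⟩
  rcases Nat.lt_or_ge m (2 * k) with h | h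
  · exact Or.inl (harmZero_of_BZero _ k (hk k h))
  · exact Or.inr (obs_le (obs_map A.subtype A.subtype_injective hO) h)

theorem K_cusp (Γ : Type u) [Group Γ] (m : ℕ) (A : Subgroup Γ) (hA : CoTop A m) (g : Γ)
    (hg : ∀ n : ℕ, g ^ n ∈ A → n = 0) (hk : ∀ k, m + 1 < 2 * k → BZero Γ k) : Good Γ := by
  obtain ⟨C, hF, hE⟩ := hasRes_of_BZero (hk (m + 1) (by omega))
  obtain ⟨P, hPF, hPE, hP, hP1⟩ := hA
  refine ⟨C.toFreeRes hF hE, fun k => ?_⟩
  rcases Nat.lt_or_ge (m + 1) (2 * k) with h | h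
  · exact Or.inl (harmZero_of_BZero _ k (hk k h))
  · right
    cases m with
    | zero =>
      obtain rfl : k = 0 := by omega
      exact obs_zero Γ
    | succ n =>
      exact obs_le (obs_of_pd (cxOf C hF hE) (cxOf_acyc C hF hE) A (cxOf P hPF hPE)
        (cxOf_acyc P hPF hPE) (fun i hi => cxOf_coZero P hPF hPE (hP i (by omega)))
        (cxOf_coOne P hPF hPE hP1) g hg) h

theorem K_graphProd {V : Type u} [Finite V] (L : SimpleGraph V) (G : V → Type u)
    [∀ v, Group (G v)] (hG : ∀ v, Good (G v))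
    (hinf : ∀ v, InfOrd (G v))
    (hR : HasRes (GraphProd L G)) : Good (GraphProd L G) := by
  classical
  have hfin : Fintype V := Fintype.ofFinite V
  let hlin : LinearOrder V := IsWellOrder.linearOrder (WellOrderingRel (α := V))
  obtain ⟨C, hF, hE⟩ := hR
  choose Rv hv using hG
  refine ⟨C.toFreeRes hF hE, fun k => ?_⟩
  by_cases hk : (C.toFreeRes hF hE).HarmZero ℝ k
  · exact Or.inl hk
  right
  by_contra hno
  apply hk
  refine gp_l2 L G Rv _ k ?_
  intro σ hσ e q hq
  by_contra hcon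
  push Not at hcon
  obtain ⟨hc1, hc2⟩ := hcon
  have h1 : ∀ v : σ, Obs (G v.1) (2 * e v) := fun v =>
    (hv v.1 (e v)).resolve_left (hc1 v)
  have h2 : HasClsC (lk (cliq L) σ) q := by
    by_contra h3
    refine hc2 (rac_of_not_hasClsC _ ?_ q h3)
    rintro s t hst ⟨h4, h5⟩
    refine ⟨h4.mono_right hst, ?_⟩
    intro a ha b hb hab
    refine h5 ?_ ?_ hab
    · simp only [Finset.coe_union, Set.mem_union, Finset.mem_coe] at ha ⊢
      exact ha.imp id (fun h => hst h)
    · simp only [Finset.coe_union, Set.mem_union, Finset.mem_coe] at hb ⊢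
      exact hb.imp id (fun h => hst h)
  have h3 := obs_gp L G hinf σ hσ (fun v => 2 * e v) q h1 h2
  rw [← Finset.mul_sum, ← mul_add, hq] at h3
  exact hno h3

theorem K_commens (Γ Γ' : Type u) [Group Γ] [Group Γ'] (h : Good Γ) (H : Subgroup Γ)
    (H' : Subgroup Γ') [H.FiniteIndex] [H'.FiniteIndex] (e : H ≃* H') (hR : HasRes Γ') :
    Good Γ' := by
  obtain ⟨C, hF, hE⟩ := hR
  obtain ⟨R, hR⟩ := h
  refine ⟨C.toFreeRes hF hE, fun k => ?_⟩
  rcases hR k with h | h
  · left
    obtain ⟨φ, hφ, hfi⟩ := exists_incl H e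
    have hfi' : H'.subtype.range.FiniteIndex := by rw [Subgroup.range_subtype]; infer_instance
    rw [← (C.toFreeRes hF hE).comap_harmZero H'.subtype H'.subtype_injective k]
    rw [← R.comap_harmZero φ hφ k] at h
    exact (FreeRes.harmZero_iff _ _ k).mp h
  · right
    have h1 : Obs H (2 * k) := obs_finiteIndex H h
    have h2 : Obs H' (2 * k) := obs_map e.toMonoidHom e.injective h1
    exact obs_map H'.subtype H'.subtype_injective h2

theorem K_act (Γ : Type u) [Group Γ] (X : CellComplex.{u, u} Γ) (hX : X.IsEquiv)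
    (hE : X.IsExact) (d : ℕ)
    (hd : d = 0 ∨ (d = 1 ∧ InfOrd Γ) ∨ ∃ x : X.X 0, BPos (X.stab x) d)
    (h0 : ∀ x : X.X 0, Good (X.stab x))
    (h1 : ∀ (q : ℕ) (x : X.X (q + 1)) (p : ℕ), d < p + (q + 1) → BZero (X.stab x) p)
    (hR : HasRes Γ) : Good Γ := by
  obtain ⟨C, hF, hCE⟩ := hR
  refine ⟨C.toFreeRes hF hCE, fun n => ?_⟩
  rcases Nat.lt_or_ge d n with hn | hn
  · by_cases hall : ∀ x : X.X 0, ∃ R : FreeRes.{u, u} (X.stab x), R.HarmZero ℝ n
    · left
      refine harmZero_of_HV _ n ?_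
      refine engine_act _ X hX hE (UM Γ) n ?_
      intro p q hpq
      refine HV_set_of_stab _ _ _ _ fun x => ?_
      have h2 : ∃ R : FreeRes.{u, u} (X.stab x), R.HarmZero ℝ p := by
        cases q with
        | zero =>
          obtain rfl : p = n := by omega
          exact hall x
        | succ q =>
          obtain ⟨C', hF', hE', hp⟩ := h1 q x p (by omega)
          exact ⟨C'.toFreeRes hF' hE', harmZero_of_harm C' hF' hE' p hp⟩
      obtain ⟨R, hR⟩ := h2
      exact ⟨X.stab x, inferInstance, (X.stab x).subtype, R,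
        Subgroup.subtype_injective _, Subgroup.range_subtype _,
        HV_of_harmZero _ (Subgroup.subtype_injective _) R p hR⟩
    · right
      push Not at hall
      obtain ⟨x, hx⟩ := hall
      obtain ⟨R, hR⟩ := h0 x
      rcases hR n with h | h
      · exact absurd h (hx R)
      · exact obs_map _ (Subgroup.subtype_injective _) h
  · rcases hd with rfl | ⟨rfl, g, hg⟩ | ⟨x, C', hF', hE', hne⟩
    · obtain rfl : n = 0 := by omega
      exact Or.inr (obs_zero Γ)
    · rcases flag_one_or (C.toFreeRes hF hCE) g hg with h | h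
      · exact Or.inr (obs_le (obs_of_flag h) (by omega))
      · exact Or.inl (h n)
    · right
      obtain ⟨R, hR⟩ := h0 x
      rcases hR d with h | h
      · exact absurd (harm_eq_bot_of_real C' hF' hE' R d h) hne
      · exact obs_le (obs_map _ (Subgroup.subtype_injective _) h) (by omega)

theorem good_of_classK {Γ : Type u} [Group Γ] (h : ClassK Γ) : Good Γ := by
  induction h with
  | low Γ hinf hk => exact good_of_flagGood (K26_low Γ hk (Or.inr hinf))
  | flag Γ d hd hk => exact good_of_flagGood (K26_flag Γ d hd hk)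
  | dual Γ m A hA hk => exact K_dual Γ m A hA hk
  | cusp Γ m A hA g hg hk => exact K_cusp Γ m A hA g hg hk
  | graphProd L G hG hinf hR ih => exact K_graphProd L G ih hinf hR
  | commens Γ Γ' h H H' e hR ih => exact K_commens Γ Γ' ih H H' e hR
  | act Γ X hX hE d hd h0 h1 hR ih => exact K_act Γ X hX hE d hd ih h1 hR

theorem main {n : ℕ} [NeZero n] {M : Type u} [TopologicalSpace M] [T2Space M]
    [ConnectedSpace M] [ChartedSpace (EuclideanHalfSpace n) M]
    {Y : Type v'} [TopologicalSpace Y] [ContractibleSpace Y] {p : Y → M} (hp : IsCoveringMap p)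
    (x : M) (hK : ClassK (FundamentalGroup M x))
    (C : FreeRes.{v, u} (FundamentalGroup M x)) {k : ℕ}
    (hk : n < 2 * k) : C.HarmZero ℂ k := by
  obtain ⟨R, hR⟩ := good_of_classK hK
  rcases hR k with h | h
  · exact FreeRes.harmZero_complex _ k ((FreeRes.harmZero_iff _ _ k).mp h)
  · exfalso
    have h1 : DimBound.{u, v'} (FundamentalGroup M x) (2 * k) := by
      intro m Y _ _ _ _ _ _ hY
      exact obs_dim h hY
    have h2 := dim_le_of_dimBound (n := n) hp x (MonoidHom.id _) Function.injective_id h1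
    omega

end Ob

end OS
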