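import Mathlib
import Pool.Agent.Lib.MP_8fe54c_gt.RbDefs
import Pool.Agent.Lib.MP_8fe54c_gt.ObCross
import Pool.Agent.Lib.MP_8fe54c_gt.ObFar

/-!
# Descent by halves (module D1)
-/

namespace OS

namespace Rb

open Finsupp Ob GP

universe u v w u' v' w'

theorem D1_sw_apply {X : Type*} (c : Ch (X × X)) (q : X × X) : sw c q = c q.swap := by
  have h := Finsupp.mapDomain_apply (Prod.swap_injective (α := X) (β := X)) c q.swap
  rw [Prod.swap_swap] at h
  exact h

/-- a symmetric chain without diagonal pairs is the sum of a half and its mirror image -/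
theorem D1_half {X : Type*} (S : Ch (X × X)) (hS : sw S = S) (hd : ∀ p ∈ S.support, p.1 ≠ p.2) :
    ∃ t : Ch (X × X), (∀ p ∈ t.support, p ∈ S.support) ∧ t + sw t = S := by
  classical
  let _ : LinearOrder X := linearOrderOfSTO (WellOrderingRel (α := X))
  refine ⟨S.filter (fun p => p.1 < p.2), ?_, ?_⟩
  · intro p hp
    rw [Finsupp.support_filter] at hp
    exact (Finset.mem_filter.mp hp).1
  · ext q
    have hsym : S q.swap = S q := by rw [← D1_sw_apply, hS]
    rw [Finsupp.add_apply, D1_sw_apply, Finsupp.filter_apply, Finsupp.filter_apply, hsym]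
    rcases lt_trichotomy q.1 q.2 with h | h | h
    · rw [if_pos h, if_neg (show ¬ (q.swap.1 < q.swap.2) from not_lt_of_gt h), add_zero]
    · have h0 : S q = 0 := by
        by_contra hne
        exact hd q (Finsupp.mem_support_iff.mpr hne) h
      rw [h0, ite_self, ite_self, add_zero]
    · rw [if_neg (not_lt_of_gt h), if_pos (show q.swap.1 < q.swap.2 from h), zero_add]

theorem D1_mono {X : Type*} (Gp : ℕ → X → Prop) (hGm : ∀ M p, Gp (M + 1) p → Gp M p) (M m : ℕ)
    (p : X) (h : Gp (M + m) p) : Gp M p := by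
  induction m with
  | zero => exact h
  | succ m ih => exact ih (hGm _ _ h)

theorem D1_psum {K : Type v} [Group K] (C : Cx.{u, v} K)
    (Ps : Ch (C.X × C.X) →ₗ[ZMod 2] ZMod 2) (t : Ch (C.X × C.X))
    (hP : ∀ p ∈ t.support, Ps (C.bd2 p) + C.eps p.1 * C.eps p.2 = Ps (single p 1) +
      Ps (single p.swap 1)) : Ps (t + sw t) = Ps (C.d2 t) + C.aug2 t := by
  have e1 : t = ∑ p ∈ t.support, t p • single p 1 := by
    conv_lhs => rw [← Finsupp.sum_single t]
    rw [Finsupp.sum]
    refine Finset.sum_congr rfl fun p _ => ?_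
    rw [Finsupp.smul_single, smul_eq_mul, mul_one]
  have e2 : Ps (t + sw t) = ∑ p ∈ t.support, t p • (Ps (single p 1) + Ps (single p.swap 1)) := by
    conv_lhs => rw [e1]
    rw [map_add, map_sum, map_sum, map_sum, ← Finset.sum_add_distrib]
    refine Finset.sum_congr rfl fun p _ => ?_
    have e3 : sw (single p (1 : ZMod 2)) = single p.swap 1 := mp_single _ _ _
    rw [map_smul, map_smul, map_smul, e3, smul_add]
  have e4 : Ps (C.d2 t) + C.aug2 t =
      ∑ p ∈ t.support, t p • (Ps (C.bd2 p) + C.eps p.1 * C.eps p.2) := by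
    conv_lhs => rw [e1]
    rw [map_sum, map_sum, map_sum, ← Finset.sum_add_distrib]
    refine Finset.sum_congr rfl fun p _ => ?_
    rw [map_smul, map_smul, map_smul, d2_single, aug2_single, smul_add]
  rw [e2, e4]
  exact Finset.sum_congr rfl fun p hp => by rw [hP p hp]

theorem descend {K : Type v} [Group K] (C : Cx.{u, v} K) (Gp : ℕ → C.X × C.X → Prop)
    (hG0 : ∀ M p, Gp M p → p.1 ≠ p.2) (hGs : ∀ M p, Gp M p → Gp M p.swap)
    (hGb : ∀ M p, Gp (M + 1) p → ∀ q ∈ (C.bd2 p).support, Gp M q)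
    (Ps : Ch (C.X × C.X) →ₗ[ZMod 2] ZMod 2)
    (hP : ∀ p, Gp 0 p → Ps (C.bd2 p) + C.eps p.1 * C.eps p.2 = Ps (single p 1) +
      Ps (single p.swap 1))
    (hGm : ∀ M p, Gp (M + 1) p → Gp M p) (m M : ℕ) :
    ∀ S : Ch (C.X × C.X), (∀ p ∈ S.support, Gp (M + m) p) → C.IsDeg2 m S → sw S = S →
      C.d2 S = 0 → Ps S = 1 →
      ∃ t : ℕ → Ch (C.X × C.X), (∀ i ≤ m, C.IsDeg2 i (t i) ∧ ∀ p ∈ (t i).support, Gp M p) ∧
        C.aug2 (t 0) = 1 ∧ (∀ i < m, C.d2 (t (i + 1)) = t i + sw (t i)) ∧ t m + sw (t m) = S := by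
  induction m with
  | zero =>
    intro S hS hdeg hsw _ hPs
    obtain ⟨t, ht1, ht2⟩ := D1_half S hsw fun p hp => hG0 _ p (hS p hp)
    have hdt : C.IsDeg2 0 t := fun p hp => hdeg p (ht1 p hp)
    have h1 := D1_psum C Ps t fun p hp => hP p (D1_mono Gp hGm 0 (M + 0) p
      (by rw [Nat.zero_add]; exact hS p (ht1 p hp)))
    rw [ht2, hPs, d2_of_isDeg2_zero C hdt, map_zero, zero_add] at h1
    refine ⟨fun _ => t, ?_, h1.symm, fun i hi => absurd hi (Nat.not_lt_zero i), ht2⟩
    intro i hi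
    obtain rfl : i = 0 := by omega
    exact ⟨hdt, fun p hp => hS p (ht1 p hp)⟩
  | succ m ih =>
    intro S hS hdeg hsw hd2 hPs
    obtain ⟨t, ht1, ht2⟩ := D1_half S hsw fun p hp => hG0 _ p (hS p hp)
    have hdt : C.IsDeg2 (m + 1) t := fun p hp => hdeg p (ht1 p hp)
    have h1 := D1_psum C Ps t fun p hp => hP p (D1_mono Gp hGm 0 (M + (m + 1)) p
      (by rw [Nat.zero_add]; exact hS p (ht1 p hp)))
    rw [ht2, hPs, aug2_of_isDeg2 C (Nat.succ_ne_zero m) hdt, add_zero] at h1
    have h2 : ∀ p ∈ (C.d2 t).support, Gp (M + m) p := by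
      intro p hp
      obtain ⟨q, hq, hqp⟩ := mem_support_lin hp
      exact hGb (M + m) q (hS q (ht1 q hq)) p hqp
    have h3 : sw (C.d2 t) = C.d2 t := by
      have h4 : C.d2 t + sw (C.d2 t) = 0 := by rw [← d2_sw, ← map_add, ht2, hd2]
      have h5 : C.d2 t + C.d2 t = 0 := add_self_ch _
      exact add_left_cancel (h4.trans h5.symm)
    obtain ⟨t', hA, hB, hC, hD⟩ := ih (C.d2 t) h2 (isDeg2_d2 C hdt) h3 (d2_d2 C t) h1.symm
    refine ⟨fun i => if i ≤ m then t' i else t, ?_, ?_, ?_, ?_⟩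
    · intro i hi
      by_cases him : i ≤ m
      · simp only [if_pos him]
        exact hA i him
      · simp only [if_neg him]
        obtain rfl : i = m + 1 := by omega
        exact ⟨hdt, fun p hp => D1_mono Gp hGm M (m + 1) p (hS p (ht1 p hp))⟩
    · simp only [Nat.zero_le, if_true]
      exact hB
    · intro i hi
      simp only [if_pos (show i ≤ m by omega)]
      by_cases him : i + 1 ≤ m
      · simp only [if_pos him]
        exact hC i (by omega)
      · simp only [if_neg him]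
        obtain rfl : i = m := by omega
        exact hD.symm
    · simp only [if_neg (show ¬ (m + 1 ≤ m) by omega)]
      exact ht2

end Rb

end OS
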