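import Mathlib
import Pool.Agent.Lib.MP_8fe54c_gt.RbObs
import Pool.Agent.Lib.MP_8fe54c_gt.ObGrp
import Pool.Agent.Lib.MP_8fe54c_gt.GPFlag

/-!
# Coarse obstructors in graph products of groups with at least three elements
-/

namespace OS

namespace Rb

open Finsupp GP Ob

universe u v w u' v'

/-- the subgroup of a full subgraph is the graph product over the subgraph -/
theorem exists_sub {V : Type v} (L : SimpleGraph V) (G : V → Type w) [∀ v, Group (G v)]
    (S : Set V) : ∃ f : GraphProd (L.comap (Subtype.val : S → V)) (fun u : S => G u.1) →*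
      sgp L G S, Function.Injective f := by
  classical
  obtain ⟨f, hf⟩ := exists_glift (L := L.comap (Subtype.val : S → V)) (G := fun u : S => G u.1)
    (P := GraphProd L G) (fun u => gof (L := L) (G := G) u.1) (fun u v h a b => gof_comm (L := L) (G := G) (show L.Adj u.1 v.1 from h) a b)
  obtain ⟨r, hr⟩ := exists_glift (L := L) (G := G)
    (P := GraphProd (L.comap (Subtype.val : S → V)) (fun u : S => G u.1))
    (fun v => if h : v ∈ S then
      gof (L := L.comap (Subtype.val : S → V)) (G := fun u : S => G u.1) ⟨v, h⟩ else 1) (by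
        intro u w huw a b
        by_cases hu : u ∈ S
        · by_cases hw : w ∈ S
          · rw [dif_pos hu, dif_pos hw]
            exact gof_comm (L := L.comap (Subtype.val : S → V)) (G := fun u : S => G u.1)
              (u := ⟨u, hu⟩) (v := ⟨w, hw⟩) huw a b
          · rw [dif_neg hw]
            exact Commute.one_right _
        · rw [dif_neg hu]
          exact Commute.one_left _)
  have hmem : ∀ x, f x ∈ sgp L G S := by
    intro x
    refine gp_induction (C := fun x => f x ∈ sgp L G S) ?_ ?_ ?_ x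
    · rw [map_one]
      exact one_mem _
    · intro v a
      rw [hf]
      exact mem_sgp_gof v.2 a
    · intro x y hx hy
      rw [map_mul]
      exact mul_mem hx hy
  have hrf : ∀ x, r (f x) = x := by
    intro x
    refine gp_induction (C := fun x => r (f x) = x) ?_ ?_ ?_ x
    · rw [map_one, map_one]
    · intro v a
      rw [hf, hr, dif_pos v.2]
    · intro x y hx hy
      rw [map_mul, map_mul, hx, hy]
  refine ⟨f.codRestrict _ hmem, ?_⟩
  intro x y hxy
  have h : f x = f y := congrArg Subtype.val hxy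
  rw [← hrf x, h, hrf y]

theorem obs_gp3 {V : Type u} [Fintype V] [LinearOrder V] (L : SimpleGraph V) (G : V → Type u)
    [∀ v, Group (G v)] (h3 : ∀ v, ∃ a b : G v, a ≠ 1 ∧ b ≠ 1 ∧ a ≠ b)
    (σ : Finset V) (hσ : cliq L σ) (e : σ → ℕ) (q : ℕ)
    (he : ∀ v : σ, Obs (G v.1) (e v)) (hq : HasClsC (lk (cliq L) σ) q) :
    Obs (GraphProd L G) (∑ v, e v + 2 * q) := by
  classical
  have hlink : ∀ u ∈ (σ : Set V), ∀ v ∈ {u : V | u ∉ σ ∧ ∀ w ∈ σ, L.Adj u w}, L.Adj u v := by
    intro u hu v hv
    exact (hv.2 u hu).symm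
  have hdis : Disjoint (σ : Set V) {u : V | u ∉ σ ∧ ∀ w ∈ σ, L.Adj u w} := by
    rw [Set.disjoint_left]
    intro u hu hv
    exact hv.1 hu
  refine obs_mul (sgp L G (σ : Set V)) (sgp L G {u : V | u ∉ σ ∧ ∀ w ∈ σ, L.Adj u w})
    (fun a ha b hb => sgp_commute hlink ha hb) (K22_inf_bot L G _ _ hdis) ?_ ?_
  · obtain ⟨φ, hφ, hr⟩ := exists_clique (L := L) (G := G) σ hσ
    have hmem : ∀ x, φ x ∈ sgp L G (σ : Set V) := fun x => by
      rw [← hr]
      exact ⟨x, rfl⟩
    refine obs_map (φ.codRestrict _ hmem) ?_ (obs_pi (fun v : σ => G v.1) e he)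
    intro x y hxy
    exact hφ (congrArg Subtype.val hxy)
  · obtain ⟨f, hf⟩ := exists_sub L G {u : V | u ∉ σ ∧ ∀ w ∈ σ, L.Adj u w}
    refine obs_map f hf ?_
    exact obs_thick (lkG L σ) (fun u : {u : V // u ∉ σ ∧ ∀ w ∈ σ, L.Adj u w} => G u.1)
      (fun v => h3 v.1) q (hasClsC_lkG L σ hσ q hq)

end Rb

end OS
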