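import Mathlib
import Pool.Agent.Lib.MP_8fe54c_gt.RbDefs
import Pool.Agent.Lib.MP_8fe54c_gt.RbHeap
import Pool.Agent.Lib.MP_8fe54c_gt.RbNf
import Pool.Agent.Lib.MP_8fe54c_gt.RbTheta
import Pool.Agent.Lib.MP_8fe54c_gt.RbNfTheta
import Pool.Agent.Lib.MP_8fe54c_gt.RbDiv
import Pool.Agent.Lib.MP_8fe54c_gt.RbCx

/-!
# Project RAB, module N6: the map from cubes of heaps to labelled cubes
-/

namespace OS

namespace Rb

open Finsupp Ob GP

universe u v w u' v' w'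

section low

variable {V : Type*} [DecidableEq V] {L : SimpleGraph V}

open Classical in
/-- removal of the last letters `τ` -/
noncomputable def N6_low (L : SimpleGraph V) (x : Finset (Lt V)) (τ : Finset V) : Finset (Lt V) :=
  x.filter fun b => ¬ (b.1 ∈ τ ∧ b.2.1 = lev L x b.1)

open Classical in
/-- the sign of the last letter `v` -/
noncomputable def N6_sg (L : SimpleGraph V) (x : Finset (Lt V)) (v : V) : Bool :=
  decide ((v, lev L x v, true) ∈ x)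

theorem N6_mem_low {x : Finset (Lt V)} {τ : Finset V} {b : Lt V} :
    b ∈ N6_low L x τ ↔ b ∈ x ∧ ¬ (b.1 ∈ τ ∧ b.2.1 = lev L x b.1) := by
  unfold N6_low
  rw [Finset.mem_filter]

theorem N6_low_empty (x : Finset (Lt V)) : N6_low L x ∅ = x := by
  ext b
  rw [N6_mem_low]
  simp

theorem N6_low_heap {x : Finset (Lt V)} (hx : IsHeap L x) (τ : Finset V) :
    IsHeap L (N6_low L x τ) := by
  refine ⟨?_, ?_, ?_⟩
  · intro a ha b hb h1 h2
    exact hx.adj a (N6_mem_low.mp ha).1 b (N6_mem_low.mp hb).1 h1 h2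
  · intro w i h
    exact hx.sgn w i (N6_mem_low.mp h).1
  · intro w i s h
    obtain ⟨h1, h2⟩ := N6_mem_low.mp h
    obtain ⟨u, s', h3, h4, h5⟩ := hx.blk w i s h1
    refine ⟨u, s', N6_mem_low.mpr ⟨h3, ?_⟩, h4, h5⟩
    rintro ⟨h6, h7⟩
    dsimp only at h6 h7
    have h8 : i + 1 < lev L x u := lt_lev h1 (fun h => h4 h.symm) (fun h => h5 h.symm)
    omega

theorem N6_lev_low {x : Finset (Lt V)} (hx : IsHeap L x) {ρ : Finset V} (hρ : ρ ⊆ rt L x)
    {v : V} (hv : v ∈ rt L x) : lev L (N6_low L x ρ) v = lev L x v := by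
  apply lev_eq_of
  intro u i s h1 h2
  rw [N6_mem_low]
  refine ⟨fun h => h.1, fun h => ⟨h, ?_⟩⟩
  rintro ⟨h3, -⟩
  exact h2 (hx.rt_clique (Finset.mem_coe.mpr (hρ h3)) (Finset.mem_coe.mpr hv) h1)

theorem N6_rm_low {x : Finset (Lt V)} (hx : IsHeap L x) {τ : Finset V} (hτ : τ ⊆ rt L x)
    {t : V} (ht : t ∈ τ) : rm L (N6_low L x (τ.erase t)) t = N6_low L x τ := by
  have h1 : lev L (N6_low L x (τ.erase t)) t = lev L x t :=
    N6_lev_low hx ((Finset.erase_subset _ _).trans hτ) (hτ ht)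
  ext b
  rw [mem_rm, N6_mem_low, N6_mem_low, h1, Finset.mem_erase]
  by_cases hb : b.1 = t
  · rw [hb]
    constructor
    · rintro ⟨⟨h2, -⟩, h3⟩
      exact ⟨h2, fun h4 => h3 ⟨rfl, h4.2⟩⟩
    · rintro ⟨h2, h3⟩
      exact ⟨⟨h2, fun h4 => h4.1.1 rfl⟩, fun h4 => h3 ⟨ht, h4.2⟩⟩
  · constructor
    · rintro ⟨⟨h2, h3⟩, -⟩
      exact ⟨h2, fun h4 => h3 ⟨⟨hb, h4.1⟩, h4.2⟩⟩
    · rintro ⟨h2, h3⟩
      exact ⟨⟨h2, fun h4 => h3 ⟨h4.1.2, h4.2⟩⟩, fun h4 => hb h4.1⟩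

theorem N6_low_rm {x : Finset (Lt V)} (hx : IsHeap L x) {τ : Finset V} (hτ : τ ⊆ rt L x)
    {t : V} (ht : t ∈ τ) : N6_low L (rm L x t) (τ.erase t) = N6_low L x τ := by
  ext b
  rw [N6_mem_low, N6_mem_low, mem_rm, Finset.mem_erase]
  by_cases hb : b.1 = t
  · rw [hb]
    constructor
    · rintro ⟨⟨h2, h3⟩, -⟩
      exact ⟨h2, fun h4 => h3 ⟨rfl, h4.2⟩⟩
    · rintro ⟨h2, h3⟩
      exact ⟨⟨h2, fun h4 => h3 ⟨ht, h4.2⟩⟩, fun h4 => h4.1.1 rfl⟩
  · by_cases hbτ : b.1 ∈ τ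
    · have h1 : L.Adj t b.1 := hx.rt_clique (Finset.mem_coe.mpr (hτ ht))
        (Finset.mem_coe.mpr (hτ hbτ)) (Ne.symm hb)
      rw [lev_rm_adj x h1]
      constructor
      · rintro ⟨⟨h2, -⟩, h3⟩
        exact ⟨h2, fun h4 => h3 ⟨⟨hb, h4.1⟩, h4.2⟩⟩
      · rintro ⟨h2, h3⟩
        exact ⟨⟨h2, fun h4 => hb h4.1⟩, fun h4 => h3 ⟨h4.1.2, h4.2⟩⟩
    · constructor
      · rintro ⟨⟨h2, -⟩, -⟩
        exact ⟨h2, fun h4 => hbτ h4.1⟩
      · rintro ⟨h2, -⟩
        exact ⟨⟨h2, fun h4 => hb h4.1⟩, fun h4 => hbτ h4.1.2⟩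

theorem N6_sg_mem {x : Finset (Lt V)} {v : V} (hv : v ∈ rt L x) :
    (v, lev L x v, N6_sg L x v) ∈ x := by
  obtain ⟨s, hs⟩ := mem_rt.mp hv
  unfold N6_sg
  by_cases h : (v, lev L x v, true) ∈ x
  · rw [decide_eq_true h]
    exact h
  · rw [decide_eq_false h]
    cases s with
    | true => exact absurd hs h
    | false => exact hs

theorem N6_sg_rm {x : Finset (Lt V)} {t v : V} (h : L.Adj t v) :
    N6_sg L (rm L x t) v = N6_sg L x v := by
  unfold N6_sg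
  rw [lev_rm_adj x h]
  congr 1
  rw [mem_rm]
  exact propext ⟨fun h => h.1, fun h1 => ⟨h1, fun h2 => h.ne h2.1.symm⟩⟩

theorem N6_step {P : Type*} [Group P] {b : V → Bool → P} {θ : Finset (Lt V) → P}
    (hθ : ∀ x, IsHeap L x → ∀ v ∈ rt L x, ∀ s : Bool,
      (v, lev L x v, s) ∈ x → θ x = θ (rm L x v) * b v s)
    {x : Finset (Lt V)} (hx : IsHeap L x) {τ : Finset V} (hτ : τ ⊆ rt L x)
    {t : V} (ht : t ∈ τ) :
    θ (N6_low L x τ) * b t (N6_sg L x t) = θ (N6_low L x (τ.erase t)) := by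
  have h1 : lev L (N6_low L x (τ.erase t)) t = lev L x t :=
    N6_lev_low hx ((Finset.erase_subset _ _).trans hτ) (hτ ht)
  have h2 : (t, lev L (N6_low L x (τ.erase t)) t, N6_sg L x t) ∈ N6_low L x (τ.erase t) := by
    rw [h1, N6_mem_low]
    refine ⟨N6_sg_mem (hτ ht), ?_⟩
    rintro ⟨h3, -⟩
    exact (Finset.mem_erase.mp h3).1 rfl
  rw [hθ _ (N6_low_heap hx _) t (mem_rt.mpr ⟨_, h2⟩) _ h2, N6_rm_low hx hτ ht]

theorem N6_card_low [Fintype V] {x : Finset (Lt V)} (hx : IsHeap L x) (τ : Finset V) :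
    x.card ≤ (N6_low L x τ).card + Fintype.card V := by
  classical
  have h1 := Finset.card_filter_add_card_filter_not (s := x)
    (fun b => b.1 ∈ τ ∧ b.2.1 = lev L x b.1)
  have h2 : (x.filter fun b => b.1 ∈ τ ∧ b.2.1 = lev L x b.1).card ≤ Fintype.card V := by
    rw [← Finset.card_univ]
    refine Finset.card_le_card_of_injOn (fun b => b.1) (fun b _ => Finset.mem_univ _) ?_
    rintro ⟨v, i, s⟩ h ⟨v', i', s'⟩ h' hvv
    rw [Finset.mem_coe, Finset.mem_filter] at h h'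
    dsimp only at hvv h h'
    subst hvv
    have h3 := h.2.2
    have h4 := h'.2.2
    subst h3
    subst h4
    rw [hx.sign h.1 h'.1]
  have h3 : N6_low L x τ = x.filter fun b => ¬ (b.1 ∈ τ ∧ b.2.1 = lev L x b.1) := by
    unfold N6_low
    congr
  rw [h3]
  omega

end low

section words

variable {V : Type v} [DecidableEq V] {L : SimpleGraph V} {G : V → Type w} [∀ v, Group (G v)]

/-- the product of a list of syllables -/
noncomputable def N6_pr (L : SimpleGraph V) (l : List (Σ v, G v)) : GraphProd L G :=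
  (l.map fun p => gof p.1 p.2).prod

omit [DecidableEq V] in
theorem N6_pr_nil : N6_pr L ([] : List (Σ v, G v)) = 1 := rfl

omit [DecidableEq V] in
theorem N6_pr_cons (p : Σ v, G v) (l : List (Σ v, G v)) :
    N6_pr L (p :: l) = gof p.1 p.2 * N6_pr L l := by
  unfold N6_pr
  rw [List.map_cons, List.prod_cons]

omit [DecidableEq V] in
theorem N6_exists_word (g : GraphProd L G) : ∃ l : List (Σ v, G v), N6_pr L l = g := by
  refine gp_induction (C := fun g => ∃ l : List (Σ v, G v), N6_pr L l = g) ⟨[], rfl⟩ ?_ ?_ g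
  · intro v a
    refine ⟨[⟨v, a⟩], ?_⟩
    rw [N6_pr_cons, N6_pr_nil, mul_one]
  · rintro x y ⟨l, rfl⟩ ⟨l', rfl⟩
    refine ⟨l ++ l', ?_⟩
    unfold N6_pr
    rw [List.map_append, List.prod_append]

theorem N6_nf_word (Nf : GraphProd L G → (∀ v, ℕ → G v))
    (h2 : ∀ (g : GraphProd L G) (v : V) (h : G v), Nf (g * gof v h) = nmul L (Nf g) v h)
    (l : List (Σ v, G v)) : ∀ g : GraphProd L G,
      Nf (g * N6_pr L l) = l.foldl (fun n p => nmul L n p.1 p.2) (Nf g) := by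
  induction l with
  | nil =>
    intro g
    rw [N6_pr_nil, mul_one, List.foldl_nil]
  | cons p l ih =>
    intro g
    rw [N6_pr_cons, ← mul_assoc, ih, h2, List.foldl_cons]

omit [DecidableEq V] in
theorem N6_act_word {A : ∀ v, Set (G v)} {Γ : Type u} [Group Γ] [MulAction Γ (GraphProd L G)]
    (hB : BAct L A Γ) (γ : Γ) (l : List (Σ v, G v)) : ∀ g : GraphProd L G,
      ∃ l' : List (Σ v, G v), l'.length = l.length ∧
        γ • (g * N6_pr L l) = (γ • g) * N6_pr L l' := by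
  induction l with
  | nil =>
    intro g
    exact ⟨[], rfl, by rw [N6_pr_nil, mul_one, mul_one]⟩
  | cons p l ih =>
    intro g
    obtain ⟨l', h1, h2⟩ := ih (g * gof p.1 p.2)
    obtain ⟨h', h3⟩ := hB.adj γ p.1 g p.2
    refine ⟨⟨p.1, h'⟩ :: l', ?_, ?_⟩
    · rw [List.length_cons, List.length_cons, h1]
    · rw [N6_pr_cons, ← mul_assoc, h2, h3, N6_pr_cons, mul_assoc]

/-- the elements of a finite set are connected by short words -/
theorem N6_bound (E : Finset (GraphProd L G)) : ∃ D : ℕ, ∀ e ∈ E, ∀ e' ∈ E,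
    ∃ l : List (Σ v, G v), l.length ≤ D ∧ e' = e * N6_pr L l := by
  choose f hf using N6_exists_word (L := L) (G := G)
  refine ⟨(E ×ˢ E).sup fun p => (f (p.1⁻¹ * p.2)).length, ?_⟩
  intro e he e' he'
  refine ⟨f (e⁻¹ * e'), ?_, ?_⟩
  · exact Finset.le_sup (f := fun p : GraphProd L G × GraphProd L G => (f (p.1⁻¹ * p.2)).length)
      (Finset.mem_product.mpr ⟨he, he'⟩ : (e, e') ∈ E ×ˢ E)
  · rw [hf, mul_inv_cancel_left]

theorem N6_far {A : ∀ v, Set (G v)} {Γ : Type u} [Group Γ] [MulAction Γ (GraphProd L G)]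
    (hB : BAct L A Γ) (a : ∀ v, Bool → G v) (ha : ∀ v s, a v s ≠ 1)
    (ha2 : ∀ v, a v true ≠ a v false) (θ : Finset (Lt V) → GraphProd L G) (h3 : θ ∅ = 1)
    (h4 : ∀ x, IsHeap L x → ∀ v ∈ rt L x, ∀ s : Bool,
      (v, lev L x v, s) ∈ x → θ x = θ (rm L x v) * gof v (a v s))
    (D : ℕ) (γ : Γ) (x y : Finset (Lt V)) (hx : IsHeap L x) (hy : IsHeap L y)
    (hd : Disjoint (fr x) (fr y)) (l : List (Σ v, G v)) (hl : l.length ≤ D)
    (h : γ • θ y = γ • θ x * N6_pr L l) : x.card ≤ D := by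
  obtain ⟨Nf, h1, h2⟩ := exists_nf L G
  obtain ⟨l', h5, h6⟩ := N6_act_word hB γ⁻¹ l (γ • θ x)
  rw [← h, inv_smul_smul, inv_smul_smul] at h6
  have h7 := N6_nf_word Nf h2 l' (θ x)
  rw [← h6, nf_theta a ha Nf h1 h2 θ h3 h4 y hy, nf_theta a ha Nf h1 h2 θ h3 h4 x hx] at h7
  have h8 := diverge a ha ha2 x y hx hy hd l' h7.symm
  omega

end words

theorem tow_BAct {V : Type u} [Fintype V] [LinearOrder V] (L : SimpleGraph V) (G : V → Type u)
    [∀ v, Group (G v)] (A : ∀ v, Set (G v)) (Γ : Type u) [Group Γ]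
    [MulAction Γ (GraphProd L G)] (hB : BAct L A Γ) (a : ∀ v, Bool → G v)
    (haA : ∀ v s, a v s ∈ A v) (ha2 : ∀ v, a v true ≠ a v false) :
    ∃ (C : Cx.{u, u} Γ) (θ : Finset (Lt V) → Finset V → C.X),
    (∀ x τ, IsHeap L x → τ ⊆ rt L x → C.deg (θ x τ) = τ.card) ∧
    (∀ x τ, IsHeap L x → τ ⊆ rt L x → C.bd (θ x τ) =
      ∑ t ∈ τ, (single (θ x (τ.erase t)) 1 + single (θ (rm L x t) (τ.erase t)) 1)) ∧
    (∀ x, IsHeap L x → C.eps (θ x ∅) = 1) ∧
    (∀ E : Finset C.X, ∃ M : ℕ, ∀ x τ y σ, IsHeap L x → τ ⊆ rt L x → IsHeap L y → σ ⊆ rt L y →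
      Disjoint (fr x) (fr y) → M ≤ x.card + y.card → Far Γ (E : Set C.X) (θ x τ, θ y σ)) := by
  classical
  have ha : ∀ v s, a v s ≠ 1 := fun v s h => hB.one v (h ▸ haA v s)
  obtain ⟨C, c, bs, hbs, hc⟩ := exists_cx A Γ hB
  obtain ⟨Th, hT0, hT⟩ := exists_theta L (fun v s => gof (L := L) (G := G) v (a v s))
    (fun u v s t h => gof_comm h _ _)
  -- the labels
  let lb : Finset (Lt V) → Finset V → ∀ v, G v := fun x τ v =>
    if v ∈ τ then a v (N6_sg L x v) else 1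
  have hlb1 : ∀ x τ, ∀ v ∈ τ, lb x τ v = a v (N6_sg L x v) := fun x τ v hv => if_pos hv
  have hlb0 : ∀ x τ v, v ∉ τ → lb x τ v = 1 := fun x τ v hv => if_neg hv
  have hdirs : ∀ x τ, dirs (lb x τ) = τ := by
    intro x τ
    ext v
    rw [N5_mem_dirs]
    constructor
    · intro h
      by_contra hv
      exact h (hlb0 x τ v hv)
    · intro hv
      rw [hlb1 x τ v hv]
      exact ha _ _
  have hA : ∀ x τ v, lb x τ v ≠ 1 → lb x τ v ∈ A v := by
    intro x τ v h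
    have hv : v ∈ τ := by
      by_contra hv
      exact h (hlb0 x τ v hv)
    rw [hlb1 x τ v hv]
    exact haA _ _
  have hup : ∀ x τ t, Function.update (lb x τ) t 1 = lb x (τ.erase t) := by
    intro x τ t
    funext v
    by_cases hv : v = t
    · subst hv
      rw [Function.update_self, hlb0 x _ v (Finset.notMem_erase v τ)]
    · rw [Function.update_of_ne hv]
      by_cases hvτ : v ∈ τ
      · rw [hlb1 x τ v hvτ, hlb1 x _ v (Finset.mem_erase.mpr ⟨hv, hvτ⟩)]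
      · rw [hlb0 x τ v hvτ, hlb0 x _ v (fun h => hvτ (Finset.mem_erase.mp h).2)]
  have hrm : ∀ x τ t, IsHeap L x → τ ⊆ rt L x → t ∈ τ →
      lb (rm L x t) (τ.erase t) = lb x (τ.erase t) := by
    intro x τ t hx hτ ht
    funext v
    by_cases hv : v ∈ τ.erase t
    · rw [hlb1 _ _ v hv, hlb1 _ _ v hv]
      obtain ⟨h1, h2⟩ := Finset.mem_erase.mp hv
      rw [N6_sg_rm (hx.rt_clique (Finset.mem_coe.mpr (hτ ht)) (Finset.mem_coe.mpr (hτ h2))
        (Ne.symm h1))]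
    · rw [hlb0 _ _ v hv, hlb0 _ _ v hv]
  have hcl : ∀ x τ, IsHeap L x → τ ⊆ rt L x → L.IsClique (dirs (lb x τ) : Set V) := by
    intro x τ hx hτ
    rw [hdirs]
    exact hx.rt_clique.subset (Finset.coe_subset.mpr hτ)
  have hall := fun x τ (hx : IsHeap L x) (hτ : τ ⊆ rt L x) =>
    hc (Th (N6_low L x τ)) (lb x τ) (hA x τ) (hcl x τ hx hτ)
  refine ⟨C, fun x τ => c (Th (N6_low L x τ)) (lb x τ), ?_, ?_, ?_, ?_⟩
  · intro x τ hx hτ
    rw [(hall x τ hx hτ).2.1, hdirs]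
  · intro x τ hx hτ
    rw [(hall x τ hx hτ).2.2.2, hdirs]
    refine Finset.sum_congr rfl fun t ht => ?_
    rw [hlb1 x τ t ht, hup, N6_step hT hx hτ ht]
    dsimp only
    rw [N6_low_rm hx hτ ht, hrm x τ t hx hτ ht]
  · intro x hx
    rw [(hall x ∅ hx (Finset.empty_subset _)).2.2.1, hdirs, if_pos rfl]
  · intro E
    obtain ⟨D, hD⟩ := N6_bound (E.image bs)
    refine ⟨2 * D + 2 * Fintype.card V + 1, ?_⟩
    intro x τ y σ hx hτ hy hσ hd hM γ hγ1 hγ2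
    dsimp only at hγ1 hγ2
    have e1 : γ • Th (N6_low L x τ) ∈ E.image bs := by
      rw [Finset.mem_image]
      exact ⟨_, Finset.mem_coe.mp hγ1, by rw [hbs, (hall x τ hx hτ).1]⟩
    have e2 : γ • Th (N6_low L y σ) ∈ E.image bs := by
      rw [Finset.mem_image]
      exact ⟨_, Finset.mem_coe.mp hγ2, by rw [hbs, (hall y σ hy hσ).1]⟩
    have hfr : ∀ (z : Finset (Lt V)) (ρ : Finset V), fr (N6_low L z ρ) ⊆ fr z := by
      rintro z ρ ⟨v, s⟩ h
      rw [mem_fr] at h ⊢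
      exact (N6_mem_low.mp h).1
    have hd' : Disjoint (fr (N6_low L x τ)) (fr (N6_low L y σ)) :=
      Finset.disjoint_of_subset_left (hfr x τ) (Finset.disjoint_of_subset_right (hfr y σ) hd)
    obtain ⟨l, hl, hl'⟩ := hD _ e1 _ e2
    obtain ⟨k, hk, hk'⟩ := hD _ e2 _ e1
    have b1 := N6_far hB a ha ha2 Th hT0 hT D γ _ _ (N6_low_heap hx τ) (N6_low_heap hy σ) hd'
      l hl hl'
    have b2 := N6_far hB a ha ha2 Th hT0 hT D γ _ _ (N6_low_heap hy σ) (N6_low_heap hx τ) hd'.symm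
      k hk hk'
    have c1 := N6_card_low hx τ
    have c2 := N6_card_low hy σ
    omega

end Rb

end OS
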