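import Mathlib
import Pool.Agent.Lib.MP_8fe54c_gt.RbDefs
import Pool.Agent.Lib.MP_8fe54c_gt.CombCyc

/-!
# The function `gl` on the deleted join (module G1)
-/

namespace OS

namespace Rb

open Finsupp Ob GP

universe u v w u' v' w'

section gl

set_option linter.unusedSectionVars false

variable {V : Type u} [Fintype V] [LinearOrder V] (L : SimpleGraph V)

omit [Fintype V] in
theorem gl_zero_of_not (j : ℕ) (φ : Finset V → ZMod 2) {lam : Finset (WV V)}
    (h : ¬ (XG L).IsClique (lam : Set (WV V))) : gl L j φ lam = 0 := by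
  unfold gl
  rw [if_neg h]

omit [Fintype V] in
theorem gl_of_clique (j : ℕ) (φ : Finset V → ZMod 2) {lam : Finset (WV V)}
    (h : (XG L).IsClique (lam : Set (WV V))) (b : Bool) :
    gl L j φ lam = if b then gg L j φ (pb (!b) lam) (pb b lam) (xx lam)
      else gg L j φ (pb b lam) (pb (!b) lam) (xx lam) := by
  unfold gl
  rw [if_pos h]
  cases b <;> rfl

theorem gl_add (j : ℕ) (φ : Finset V → ZMod 2) (lam : Finset (WV V)) (b : Bool) (v : V)
    (hv : v ∉ pb b lam) (hc : L.IsClique ((insert v (pb b lam) : Finset V) : Set V)) :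
    gl L j φ (insert (v, false, b) lam) + gl L j φ (insert (v, true, b) lam) = gl L j φ lam := by
  classical
  by_cases hl : (XG L).IsClique (lam : Set (WV V))
  swap
  · have h0 : ∀ s : Bool, gl L j φ (insert (v, s, b) lam) = 0 := by
      intro s
      refine gl_zero_of_not L j φ fun h => hl ?_
      exact SimpleGraph.IsClique.subset (Finset.coe_subset.mpr (Finset.subset_insert _ _)) h
    rw [h0, h0, gl_zero_of_not L j φ hl, add_zero]
  have hval : ∀ s, (v, s, !b) ∉ lam →
      gl L j φ (insert (v, s, b) lam) =
      (if b then gg L j φ (pb (!b) lam) (insert v (pb b lam))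
          (if xor s b = true then insert v (xx lam) else xx lam)
        else gg L j φ (insert v (pb b lam)) (pb (!b) lam)
          (if xor s b = true then insert v (xx lam) else xx lam)) := by
    intro s hs
    rw [gl_of_clique L j φ (insert_clique L hl hc hv hs) b, pb_insert_same,
      pb_insert_other, xx_insert]
  rw [gl_of_clique L j φ hl b]
  by_cases hvQ : v ∈ pb (!b) lam
  · obtain ⟨s₀, hs₀⟩ := mem_pb.mp hvQ
    have h0 : gl L j φ (insert (v, s₀, b) lam) = 0 := by
      refine gl_zero_of_not L j φ fun h => ?_
      have h1 := other_sign h (Finset.mem_insert_self (v, s₀, b) lam)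
        (Finset.mem_insert_of_mem hs₀)
      exact absurd h1 ((by decide : ∀ t : Bool, t ≠ !t) s₀)
    have hs1 : (v, !s₀, !b) ∉ lam := by
      intro h
      have h1 := same_sign hl h hs₀
      exact absurd h1.symm ((by decide : ∀ t : Bool, t ≠ !t) s₀)
    have hxx : (if xor (!s₀) b = true then insert v (xx lam) else xx lam) = xx lam := by
      split_ifs with hx
      · refine Finset.insert_eq_of_mem (mem_xx.mpr ⟨s₀, !b, hs₀, ?_⟩)
        cases s₀ <;> cases b <;> simp_all
      · rfl
    have h1 := hval (!s₀) hs1
    rw [hxx, gb_2 L j φ b hc (pb_clique hl (!b)) hvQ hv] at h1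
    cases s₀
    · rw [h0, zero_add]
      exact h1
    · rw [h0, add_zero]
      exact h1
  · have hns : ∀ s, (v, s, !b) ∉ lam := fun s h => hvQ (mem_pb.mpr ⟨s, h⟩)
    rw [hval true (hns true), hval false (hns false)]
    have h1 := gb_1 L j φ b (P := pb b lam) (Q := pb (!b) lam) (X := xx lam) (a := v)
      (fun h => (Finset.mem_union.mp h).elim hv hvQ) (xx_subset b lam)
    cases b
    · simp only [Bool.xor_false, if_true, Bool.false_eq_true, if_false] at h1 ⊢
      exact h1
    · simp only [Bool.xor_true, Bool.not_true, Bool.false_eq_true, if_false, Bool.not_false,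
        if_true] at h1 ⊢
      rw [add_comm]
      exact h1

theorem gl_TW (j : ℕ) (φ : Finset V → ZMod 2)
    (hφ : ∀ τ : Finset V, L.IsClique (τ : Set V) → τ.card = j + 2 → ∑ v ∈ τ, φ (τ.erase v) = 0)
    (lam : Finset (WV V)) : gl L j φ (lam.image TW) = gl L j φ lam := by
  classical
  by_cases hl : (XG L).IsClique (lam : Set (WV V))
  · have hl' := clique_TW L hl
    rw [gl_of_clique L j φ hl' false, gl_of_clique L j φ hl false]
    simp only [Bool.not_false, pb_TW, Bool.false_eq_true, if_false, Bool.not_true]
    rw [xx_TW L hl, gg_3 L j φ hφ (pb_clique hl false) (pb_clique hl true)]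
  · have hl' : ¬ (XG L).IsClique ((lam.image TW : Finset (WV V)) : Set (WV V)) := by
      intro h
      have := clique_TW L h
      rw [image_TW_TW] at this
      exact hl this
    rw [gl_zero_of_not L j φ hl, gl_zero_of_not L j φ hl']

theorem jn_swap (A B : Finset (V × Bool)) : (jn A B).image TW = jn B A := by
  classical
  unfold jn
  rw [Finset.image_union, Finset.image_image, Finset.image_image, Finset.union_comm]
  rfl

/-- `gl` vanishes if the two fronts have a common signed letter -/
theorem gl_disj (j : ℕ) (φ : Finset V → ZMod 2) {A B : Finset (V × Bool)} (h : ¬ Disjoint A B) :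
    gl L j φ (jn A B) = 0 := by
  classical
  refine gl_zero_of_not L j φ fun hc => ?_
  rw [Finset.not_disjoint_iff] at h
  obtain ⟨a, ha, hb⟩ := h
  have h1 : ((a.1, a.2, false) : WV V) ∈ jn A B :=
    Finset.mem_union_left _ (Finset.mem_image_of_mem (fun w : V × Bool => (w.1, w.2, false)) ha)
  have h2 : ((a.1, a.2, !false) : WV V) ∈ jn A B :=
    Finset.mem_union_right _ (Finset.mem_image_of_mem (fun w : V × Bool => (w.1, w.2, true)) hb)
  have h3 := other_sign hc h1 h2
  exact absurd h3 ((by decide : ∀ t : Bool, t ≠ !t) a.2)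

end gl

end Rb

end OS
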