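import Mathlib
import Pool.Agent.Lib.MP_8fe54c_gt.RbDefs
import Pool.Agent.Lib.MP_8fe54c_gt.RbFin
import Pool.Agent.Lib.MP_8fe54c_gt.GPL2

/-!
# Project RAB: the l2 theorem for groups acting on buildings (module L2)
-/

namespace OS

namespace Rb

open Finsupp Ob GP

universe u v w u' v' w'

section act

variable {V : Type u} {L : SimpleGraph V} {G : V → Type u} [∀ v, Group (G v)]
  {Γ : Type u} [Group Γ] [MulAction Γ (GraphProd L G)]

theorem L2_adj (hadj : ∀ (γ : Γ) (v : V) (x : GraphProd L G) (h : G v), ∃ h' : G v,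
      γ • (x * gof v h) = (γ • x) * gof v h') (S : Set V) (γ : Γ) {y : GraphProd L G}
    (hy : y ∈ sgp L G S) (x : GraphProd L G) :
    ∃ y' ∈ sgp L G S, γ • (x * y) = (γ • x) * y' := by
  revert x
  refine sgp_induction (C := fun y => ∀ x : GraphProd L G, ∃ y' ∈ sgp L G S,
    γ • (x * y) = (γ • x) * y') ?_ ?_ ?_ hy
  · intro x
    exact ⟨1, one_mem _, by rw [mul_one, mul_one]⟩
  · intro v hv a x
    obtain ⟨h', hh'⟩ := hadj γ v x a
    exact ⟨gof v h', mem_sgp_gof hv h', hh'⟩
  · intro y z hy hz x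
    obtain ⟨y', hy', e⟩ := hy x
    obtain ⟨z', hz', e'⟩ := hz (x * y)
    exact ⟨y' * z', mul_mem hy' hz', by rw [← mul_assoc, e', e, mul_assoc]⟩

theorem L2_rel (hadj : ∀ (γ : Γ) (v : V) (x : GraphProd L G) (h : G v), ∃ h' : G v,
      γ • (x * gof v h) = (γ • x) * gof v h') (S : Set V) (γ : Γ) (x y : GraphProd L G)
    (h : (QuotientGroup.mk x : GraphProd L G ⧸ sgp L G S) = QuotientGroup.mk y) :
    (QuotientGroup.mk (γ • x) : GraphProd L G ⧸ sgp L G S) = QuotientGroup.mk (γ • y) := by
  rw [QuotientGroup.eq] at h ⊢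
  obtain ⟨y', hy', e⟩ := L2_adj hadj S γ h x
  rw [mul_inv_cancel_left] at e
  rw [e, inv_mul_cancel_left]
  exact hy'

/-- the action on the cosets -/
@[reducible] noncomputable def L2_act (hadj : ∀ (γ : Γ) (v : V) (x : GraphProd L G) (h : G v), ∃ h' : G v,
      γ • (x * gof v h) = (γ • x) * gof v h') (S : Set V) :
    MulAction Γ (GraphProd L G ⧸ sgp L G S) where
  smul γ q := Quotient.liftOn' q (fun x => (QuotientGroup.mk (γ • x) : GraphProd L G ⧸ sgp L G S))
    (fun x y h => L2_rel hadj S γ x y (Quotient.sound' h))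
  one_smul q := by
    induction q using QuotientGroup.induction_on with
    | H x =>
      change (QuotientGroup.mk ((1 : Γ) • x) : GraphProd L G ⧸ sgp L G S) = QuotientGroup.mk x
      rw [one_smul]
  mul_smul γ γ' q := by
    induction q using QuotientGroup.induction_on with
    | H x =>
      change (QuotientGroup.mk ((γ * γ') • x) : GraphProd L G ⧸ sgp L G S) =
        QuotientGroup.mk (γ • γ' • x)
      rw [mul_smul]

end act

theorem rab_l2 {V : Type u} [Fintype V] [LinearOrder V] (L : SimpleGraph V) (G : V → Type u)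
    [∀ v, Group (G v)] [∀ v, Finite (G v)] (Γ : Type u) [Group Γ] [MulAction Γ (GraphProd L G)]
    (hfree : ∀ (γ : Γ) (x : GraphProd L G), γ • x = x → γ = 1)
    (hadj : ∀ (γ : Γ) (v : V) (x : GraphProd L G) (h : G v), ∃ h' : G v,
      γ • (x * gof v h) = (γ • x) * gof v h') (R : FreeRes.{u', u} Γ) (n : ℕ)
    (h : ∀ σ : Finset V, cliq L σ → RAc (lk (cliq L) σ) n) : R.HarmZero ℝ n := by
  refine harmZero_of_HV R n ?_
  let _ : ∀ σ : Finset V, MulAction Γ ((gpSys L G).Q σ) := fun σ => L2_act hadj (σ : Set V)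
  refine engine R (UM Γ) (gpSys L G) (fun g σ τ hστ x => ?_) (cliq L)
    (K19_cliq_down L) (K19_cliq_empty L) (gp_exact L G _) n ?_
  · change GraphProd L G ⧸ sgp L G (σ : Set V) at x
    induction x using QuotientGroup.induction_on with
    | H y => rfl
  intro σ hσ p q hpq
  by_cases hp : p = 0
  · subst hp
    rw [zero_add] at hpq
    subst hpq
    exact Or.inr (h σ hσ)
  refine Or.inl ?_
  refine HV_finite_quot R (GraphProd L G) ((gpSys L G).Q σ) hfree
    (fun x => (QuotientGroup.mk x : GraphProd L G ⧸ sgp L G (σ : Set V))) (fun g x => rfl) ?_ ?_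
    (UM Γ) p hp
  · intro y
    change GraphProd L G ⧸ sgp L G (σ : Set V) at y
    induction y using QuotientGroup.induction_on with
    | H x =>
      obtain ⟨φ, -, hrange⟩ := exists_clique (L := L) (G := G) σ hσ
      have hfin : (sgp L G (σ : Set V) : Set (GraphProd L G)).Finite := by
        rw [← hrange, MonoidHom.coe_range]
        exact Set.finite_range φ
      refine (hfin.image fun y => x * y).subset ?_
      intro z hz
      rw [Set.mem_preimage, Set.mem_singleton_iff] at hz
      have hz' : (QuotientGroup.mk x : GraphProd L G ⧸ sgp L G (σ : Set V)) =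
        QuotientGroup.mk z := hz.symm
      rw [QuotientGroup.eq] at hz'
      exact ⟨x⁻¹ * z, hz', mul_inv_cancel_left x z⟩
  · intro y
    change GraphProd L G ⧸ sgp L G (σ : Set V) at y
    induction y using QuotientGroup.induction_on with
    | H x => exact ⟨x, rfl⟩

end Rb

end OS
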