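import Mathlib
import Pool.Agent.Lib.MP_8fe54c_gt.GPBase

/-!
# Groups acting on right-angled buildings (definitions used in the statement)

The right-angled building of a family of groups `G v` over the graph `L` has the elements of the
graph product as chambers; two chambers `x`, `y` are `v`-adjacent if `x⁻¹ y` lies in the vertex group
`G v`.  Its panels of type `v` have `|G v|` chambers, and it is the only right-angled building of
this type with these thicknesses.
-/

namespace OS

namespace Rb

open GP

universe u v w

/-- the element of the graph product given by an element of a vertex group -/
def vtx {V : Type v} {L : SimpleGraph V} {G : V → Type w} [∀ v, Group (G v)] (v : V) (g : G v) :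
    GraphProd L G := (QuotientGroup.mk (Monoid.CoprodI.of g) :
      Monoid.CoprodI G ⧸ Subgroup.normalClosure (gpRels L G))

/-- `Γ` acts on the building of the groups `G v` over `L` by automorphisms which preserve the
`v`-adjacency of chambers for every `v`, freely and with finitely many orbits on the chambers. -/
structure IsLattice {V : Type v} (L : SimpleGraph V) (G : V → Type w) [∀ v, Group (G v)]
    (Γ : Type u) [Group Γ] [MulAction Γ (GraphProd L G)] : Prop where
  /-- adjacent chambers are mapped to adjacent chambers -/
  adj : ∀ (γ : Γ) (v : V) (x : GraphProd L G) (g : G v), ∃ g' : G v,
    γ • (x * vtx v g) = (γ • x) * vtx v g'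
  /-- the action on the chambers is free -/
  free : ∀ (γ : Γ) (x : GraphProd L G), γ • x = x → γ = 1
  /-- there are finitely many orbits of chambers -/
  orb : ∃ E : Finset (GraphProd L G), ∀ x, ∃ γ : Γ, ∃ e ∈ E, γ • e = x

end Rb

end OS
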