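import Mathlib
import Pool.Agent.Lib.MP_8fe54c_gt.RbStat
import Pool.Agent.Lib.MP_8fe54c_gt.RbDefs
import Pool.Agent.Lib.MP_8fe54c_gt.RbL2
import Pool.Agent.Lib.MP_8fe54c_gt.RbObs
import Pool.Agent.Lib.MP_8fe54c_gt.ObMain
import Pool.Agent.Lib.MP_8fe54c_gt.CombMain
import Pool.Agent.Lib.MP_8fe54c_gt.KArt

/-!
# Project RAB, assembly
-/

namespace OS

namespace Rb

open Finsupp Ob GP

universe u v w u' v' w'

theorem RM_three {A : Type*} [Group A] [Finite A] (h : 3 ≤ Nat.card A) :
    ∃ a b : A, a ≠ 1 ∧ b ≠ 1 ∧ a ≠ b := by
  classical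
  have hF := Fintype.ofFinite A
  have h1 : 1 < ((Finset.univ : Finset A).erase 1).card := by
    rw [Finset.card_erase_of_mem (Finset.mem_univ _), Finset.card_univ, ← Nat.card_eq_fintype_card]
    omega
  obtain ⟨a, ha, b, hb, hab⟩ := Finset.one_lt_card.1 h1
  exact ⟨a, b, (Finset.mem_erase.1 ha).1, (Finset.mem_erase.1 hb).1, hab⟩

theorem RM_vtx {V : Type v} {L : SimpleGraph V} {G : V → Type w} [∀ v, Group (G v)] (v : V)
    (g : G v) : vtx (L := L) v g = gof v g := rfl

theorem rab_main {n : ℕ} [NeZero n] {M : Type u} [TopologicalSpace M] [T2Space M]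
    [ConnectedSpace M] [ChartedSpace (EuclideanHalfSpace n) M]
    {Y : Type v'} [TopologicalSpace Y] [ContractibleSpace Y] {p : Y → M} (hp : IsCoveringMap p)
    (x : M) {V : Type u} [Finite V] (L : SimpleGraph V) (G : V → Type u) [∀ v, Group (G v)]
    [∀ v, Finite (G v)] (h3 : ∀ v, 3 ≤ Nat.card (G v)) (H : Subgroup (FundamentalGroup M x))
    [H.FiniteIndex] [MulAction H (GraphProd L G)] (hH : IsLattice L G H)
    (C : FreeRes.{v, u} (FundamentalGroup M x)) {k : ℕ} (hk : n < 2 * k) : C.HarmZero ℂ k := by
  classical
  have hfin : Fintype V := Fintype.ofFinite V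
  let hlin : LinearOrder V := IsWellOrder.linearOrder (WellOrderingRel (α := V))
  by_cases hall : ∀ σ : Finset V, cliq L σ → RAc (lk (cliq L) σ) k
  · have hfi : H.subtype.range.FiniteIndex := by rw [Subgroup.range_subtype]; infer_instance
    have h1 : (C.comap H.subtype H.subtype_injective).HarmZero ℝ k :=
      rab_l2 L G H hH.free hH.adj _ k hall
    exact C.harmZero_complex k ((C.comap_harmZero H.subtype H.subtype_injective k).mp h1)
  · exfalso
    push Not at hall
    obtain ⟨σ, hσ, h1⟩ := hall
    have h2 : HasClsC (lk (cliq L) σ) k := by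
      by_contra h3
      refine h1 (rac_of_not_hasClsC _ ?_ k h3)
      rintro s t hst ⟨h4, h5⟩
      refine ⟨h4.mono_right hst, ?_⟩
      intro a ha b hb hab
      refine h5 ?_ ?_ hab
      · simp only [Finset.coe_union, Set.mem_union, Finset.mem_coe] at ha ⊢
        exact ha.imp id (fun h => hst h)
      · simp only [Finset.coe_union, Set.mem_union, Finset.mem_coe] at hb ⊢
        exact hb.imp id (fun h => hst h)
    choose a b ha hb hab using fun v => RM_three (h3 v)
    have hB : BAct L (fun v => {h : G v | h ≠ 1}) H :=
      { free := hH.free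
        orb := hH.orb
        adj := hH.adj
        adjA := by
          intro γ v y h hh
          obtain ⟨h', hh'⟩ := hH.adj γ v y h
          refine ⟨h', ?_, hh'⟩
          rintro rfl
          apply hh
          have e1 : vtx (L := L) v (1 : G v) = 1 := by rw [RM_vtx]; exact map_one _
          rw [e1, mul_one] at hh'
          have e2 := smul_left_cancel γ hh'
          have e3 : gof (L := L) (G := G) v h = 1 := by
            have := mul_eq_left.1 e2
            exact this
          exact gof_inj (L := L) (G := G) v (e3.trans (map_one _).symm)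
        fin := fun v => Set.toFinite _
        one := fun v h => h rfl }
    have h4 : Obs H (2 * k) := by
      refine obs_build L G _ H hB (fun v s => if s then a v else b v) ?_ ?_ σ hσ k h2
      · intro v s
        cases s
        · exact hb v
        · exact ha v
      · intro v
        simp only [if_true, Bool.false_eq_true, if_false]
        exact hab v
    have h5 : Obs (FundamentalGroup M x) (2 * k) := obs_map H.subtype H.subtype_injective h4
    have h6 : DimBound.{u, v'} (FundamentalGroup M x) (2 * k) := by
      intro m Y _ _ _ _ _ _ hY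
      exact obs_dim h5 hY
    have h7 := dim_le_of_dimBound (n := n) hp x (MonoidHom.id _) Function.injective_id h6
    omega

end Rb

end OS
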